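import Pool.Agent.APS.Defs4
import Pool.Agent.Kin.MDiag
import Pool.Agent.Kin.LowC

/-! # APS FIXPT: the fixed point `g0 = Mx(z + s g0) 0` and the world.

`im_lower` (Kin/LowC.lean) with `δ/2`: `c, t0, C`; `mdiag` (Kin/MDiag.lean): `C'`.  `rlo = c`, `rhi = C'`.
`K = {g | ‖g‖ ≤ rhi, rlo ≤ Im g}` (closed), `F(g) = Mx(z + s g) 0`, `z = E + i η`, `s = λ² sg`.
For `g ∈ K`: `Im ζ ≥ s rlo =: γ1`, `Im ζ ≤ η + s rhi ≤ t0`, `|Re ζ - E| ≤ s rhi ≤ δ/2`, `8/γ1³ ≤ L` and
`C ≤ γ1 L` because `L ≥ λ^(-10)`: so `F(g) ∈ K` and `‖F(g) - F(g')‖ ≤ C' s ‖g - g'‖/√(s rlo) ≤ (1/2)‖g - g'‖`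
for small `λ`.  Banach (`ContractingWith` on the complete set `K`, nonempty: `max`-type point
`rlo * I`, as `rlo ≤ rhi`: enlarge `rhi`).
`World`: `D.zr 0 = z + s g0`; `et 0 = η + s Im g0 ≤ 1`; `8/et0³ ≤ 8/(s rlo)³ ≤ λ^(-10) ≤ L`, also `64/et0³`.
-/

open Matrix Finset

noncomputable section

namespace Pool.Agent.APS

open Pool.Agent.Kin

/-- the data of the flow on the torus -/
def mkD (d L : ℕ) [NeZero L] (E η lam sg : ℝ) (g0 : ℂ) : Fl (Tor d L) where
  H0 := H0T d L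
  z := (E : ℂ) + (η : ℂ) * Complex.I
  g0 := g0
  lam := lam
  sg := sg

theorem world_exists (d : ℕ) (hd : 3 ≤ d) (δ sg : ℝ) (hδ : 0 < δ) (hsg : 0 < sg) :
    ∃ rlo rhi : ℝ, 0 < rlo ∧ 1 ≤ rhi ∧ ∀ γ0 : ℝ, 0 < γ0 → ∃ lam0 : ℝ, 0 < lam0 ∧
    ∀ (L : ℕ) [NeZero L] (E η lam : ℝ), 0 < lam → lam ≤ lam0 → δ ≤ E → E ≤ 4 * d - δ →
      0 < η → η ≤ lam ^ 2 * sg * rlo → lam ^ (-10 : ℝ) ≤ L → 1 / η ≤ L →
      ∃ g0 : ℂ, World (mkD d L E η lam sg g0) rlo rhi ∧
        (mkD d L E η lam sg g0).et 0 ≤ γ0 ∧ 64 / (mkD d L E η lam sg g0).et 0 ^ 3 ≤ L := by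
  obtain ⟨c, t0, C, hc, ht0, hC, him⟩ := im_lower d (by omega) (δ / 2) (by positivity)
  obtain ⟨C', hC', hmd⟩ := mdiag d hd
  obtain ⟨rhi, hrhi⟩ : ∃ rhi : ℝ, rhi = C' + c + 1 := ⟨_, rfl⟩
  have hrhi1 : 1 ≤ rhi := by linarith
  have hrhi0 : 0 < rhi := by linarith
  have hcr : c ≤ rhi := by linarith
  have hCr : C' ≤ rhi := by linarith
  refine ⟨c, rhi, hc, hrhi1, ?_⟩
  intro γ0 hγ0
  obtain ⟨ep, hep⟩ : ∃ ep : ℝ, ep = min (1 / c) (min (t0 / (2 * rhi)) (min (1 / (2 * rhi))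
    (min (γ0 / (2 * rhi)) (min (δ / (2 * rhi)) (c / (4 * C' ^ 2)))))) := ⟨_, rfl⟩
  have hep0 : 0 < ep := by
    rw [hep]
    refine lt_min (by positivity) (lt_min (by positivity) (lt_min (by positivity)
      (lt_min (by positivity) (lt_min (by positivity) (by positivity)))))
  have a1 : ep ≤ 1 / c := by
    rw [hep]
    exact min_le_left _ _
  have a2 : ep ≤ t0 / (2 * rhi) := by
    rw [hep]
    exact (min_le_right _ _).trans (min_le_left _ _)
  have a3 : ep ≤ 1 / (2 * rhi) := by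
    rw [hep]
    exact (min_le_right _ _).trans ((min_le_right _ _).trans (min_le_left _ _))
  have a4 : ep ≤ γ0 / (2 * rhi) := by
    rw [hep]
    exact (min_le_right _ _).trans ((min_le_right _ _).trans ((min_le_right _ _).trans
      (min_le_left _ _)))
  have a5 : ep ≤ δ / (2 * rhi) := by
    rw [hep]
    exact (min_le_right _ _).trans ((min_le_right _ _).trans ((min_le_right _ _).trans
      ((min_le_right _ _).trans (min_le_left _ _))))
  have a6 : ep ≤ c / (4 * C' ^ 2) := by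
    rw [hep]
    exact (min_le_right _ _).trans ((min_le_right _ _).trans ((min_le_right _ _).trans
      ((min_le_right _ _).trans (min_le_right _ _))))
  refine ⟨min 1 (min (ep / sg) (min ((sg * c) ^ 3 / 64) (sg * c / C))), ?_, ?_⟩
  · refine lt_min one_pos (lt_min (by positivity) (lt_min (by positivity) (by positivity)))
  intro L _ E η lam hlam hlam0 hE1 hE2 hη hηs hL hLη
  have b1 : lam ≤ 1 := hlam0.trans (min_le_left _ _)
  have b2 : lam ≤ ep / sg := hlam0.trans ((min_le_right _ _).trans (min_le_left _ _))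
  have b3 : lam ≤ (sg * c) ^ 3 / 64 := hlam0.trans ((min_le_right _ _).trans
    ((min_le_right _ _).trans (min_le_left _ _)))
  have b4 : lam ≤ sg * c / C := hlam0.trans ((min_le_right _ _).trans
    ((min_le_right _ _).trans (min_le_right _ _)))
  obtain ⟨s, hs⟩ : ∃ s : ℝ, s = lam ^ 2 * sg := ⟨_, rfl⟩
  have hs0 : 0 < s := by
    rw [hs]
    positivity
  have hlam2 : lam ^ 2 ≤ lam := by nlinarith
  have hsep : s ≤ ep := by
    rw [le_div_iff₀ hsg] at b2
    rw [hs]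
    calc lam ^ 2 * sg ≤ lam * sg := by gcongr
      _ ≤ ep := b2
  have c1 : s * c ≤ 1 := by
    have := hsep.trans a1
    rwa [le_div_iff₀ hc] at this
  have c2 : s * (2 * rhi) ≤ t0 := by
    have := hsep.trans a2
    rwa [le_div_iff₀ (by positivity)] at this
  have c3 : s * (2 * rhi) ≤ 1 := by
    have := hsep.trans a3
    rwa [le_div_iff₀ (by positivity)] at this
  have c4 : s * (2 * rhi) ≤ γ0 := by
    have := hsep.trans a4
    rwa [le_div_iff₀ (by positivity)] at this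
  have c5 : s * (2 * rhi) ≤ δ := by
    have := hsep.trans a5
    rwa [le_div_iff₀ (by positivity)] at this
  have c6 : s * (4 * C' ^ 2) ≤ c := by
    have := hsep.trans a6
    rwa [le_div_iff₀ (by positivity)] at this
  have hL0 : (0 : ℝ) < L := Nat.cast_pos.2 (Nat.pos_of_ne_zero (NeZero.ne L))
  have hL' : 1 / lam ^ 10 ≤ L := by
    have e : lam ^ (-10 : ℝ) = 1 / lam ^ 10 := by
      rw [Real.rpow_neg hlam.le, one_div]
      congr 1
      exact_mod_cast Real.rpow_natCast lam 10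
    rwa [e] at hL
  have hL'' : 1 ≤ L * lam ^ 10 := by
    rwa [div_le_iff₀ (by positivity)] at hL'
  have hsc : 0 < s * c := by positivity
  -- `64 / (s c)^3 ≤ L`
  have d1 : 64 / (s * c) ^ 3 ≤ L := by
    rw [div_le_iff₀ (by positivity)]
    have e1 : lam ^ 4 ≤ lam := by
      calc lam ^ 4 ≤ lam ^ 1 := pow_le_pow_of_le_one hlam.le b1 (by norm_num)
        _ = lam := pow_one _
    have e2 : 64 * lam ^ 4 ≤ (sg * c) ^ 3 := by
      rw [le_div_iff₀ (by norm_num)] at b3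
      linarith
    have e3 : (s * c) ^ 3 = lam ^ 6 * (sg * c) ^ 3 := by
      rw [hs]
      ring
    rw [e3]
    calc (64 : ℝ) ≤ 64 * (L * lam ^ 10) := by linarith
      _ = L * (lam ^ 6 * (64 * lam ^ 4)) := by ring
      _ ≤ L * (lam ^ 6 * (sg * c) ^ 3) := by gcongr
  have d2 : C ≤ s * c * L := by
    have e1 : lam ^ 8 ≤ lam := by
      calc lam ^ 8 ≤ lam ^ 1 := pow_le_pow_of_le_one hlam.le b1 (by norm_num)
        _ = lam := pow_one _
    have e2 : C * lam ^ 8 ≤ sg * c := by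
      rw [le_div_iff₀ hC] at b4
      calc C * lam ^ 8 ≤ C * lam := by gcongr
        _ ≤ sg * c := by linarith
    calc C ≤ C * (L * lam ^ 10) := by
          have := mul_le_mul_of_nonneg_left hL'' hC.le
          linarith
      _ = C * lam ^ 8 * (lam ^ 2 * L) := by ring
      _ ≤ sg * c * (lam ^ 2 * L) := by gcongr
      _ = s * c * L := by
        rw [hs]
        ring
  have d3 : 8 / (s * c) ^ 3 ≤ L := by
    refine le_trans ?_ d1
    gcongr
    norm_num
  -- the map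
  let F : ℂ → ℂ := fun g => Mx ((E : ℂ) + (η : ℂ) * Complex.I + (s : ℂ) * g) (0 : Tor d L)
  let K : Set ℂ := {g | ‖g‖ ≤ rhi ∧ c ≤ g.im}
  have hKim : ∀ g ∈ K, s * c ≤ ((E : ℂ) + (η : ℂ) * Complex.I + (s : ℂ) * g).im ∧
      ((E : ℂ) + (η : ℂ) * Complex.I + (s : ℂ) * g).im ≤ s * (2 * rhi) ∧
      |((E : ℂ) + (η : ℂ) * Complex.I + (s : ℂ) * g).re - E| ≤ s * rhi := by
    rintro g ⟨hg1, hg2⟩
    have e1 : ((E : ℂ) + (η : ℂ) * Complex.I + (s : ℂ) * g).im = η + s * g.im := by simp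
    have e2 : ((E : ℂ) + (η : ℂ) * Complex.I + (s : ℂ) * g).re = E + s * g.re := by simp
    have e3 : g.im ≤ rhi := (le_abs_self _).trans ((Complex.abs_im_le_norm g).trans hg1)
    have e4 : |g.re| ≤ rhi := (Complex.abs_re_le_norm g).trans hg1
    have e5 : s * c ≤ s * g.im := by gcongr
    have e6 : s * g.im ≤ s * rhi := by gcongr
    have e7 : η ≤ s * c := by
      rw [hs]
      exact hηs
    have e8 : s * c ≤ s * rhi := by gcongr
    rw [e1, e2]
    refine ⟨by linarith, by linarith, ?_⟩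
    rw [add_sub_cancel_left, abs_mul, abs_of_pos hs0]
    gcongr
  have hKc : IsComplete K := by
    apply IsClosed.isComplete
    exact (isClosed_le continuous_norm continuous_const).inter
      (isClosed_le continuous_const Complex.continuous_im)
  have hmaps : Set.MapsTo F K K := by
    intro g hg
    obtain ⟨e1, e2, e3⟩ := hKim g hg
    obtain ⟨ζ, hζ⟩ : ∃ ζ : ℂ, ζ = (E : ℂ) + (η : ℂ) * Complex.I + (s : ℂ) * g := ⟨_, rfl⟩
    have hF : F g = Mx ζ (0 : Tor d L) := by rw [hζ]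
    rw [← hζ] at e1 e2 e3
    rw [abs_le] at e3
    constructor
    · rw [hF]
      exact ((hmd L (s * c) hsc c1 d3 ζ ζ e1 e1).1).trans hCr
    · rw [hF]
      have h1 := him L ζ.re ζ.im (by linarith) (by linarith) (by linarith) (by linarith)
        (d2.trans (by gcongr))
      have h2 : (ζ.re : ℂ) + (ζ.im : ℂ) * Complex.I = ζ := Complex.re_add_im ζ
      rw [h2] at h1
      exact h1
  have hcon : ContractingWith (1 / 2) (hmaps.restrict F K K) := by
    refine ⟨by norm_num, LipschitzWith.of_dist_le_mul fun g g' => ?_⟩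
    obtain ⟨e1, -, -⟩ := hKim g g.2
    obtain ⟨f1, -, -⟩ := hKim g' g'.2
    have h1 := (hmd L (s * c) hsc c1 d3 _ _ e1 f1).2
    have h2 : ‖((E : ℂ) + (η : ℂ) * Complex.I + (s : ℂ) * (g : ℂ)) -
        ((E : ℂ) + (η : ℂ) * Complex.I + (s : ℂ) * (g' : ℂ))‖ = s * ‖(g : ℂ) - (g' : ℂ)‖ := by
      rw [add_sub_add_left_eq_sub, ← mul_sub, norm_mul, Complex.norm_real, Real.norm_eq_abs,
        abs_of_pos hs0]
    rw [h2] at h1
    rw [Subtype.dist_eq, Subtype.dist_eq, dist_eq_norm, dist_eq_norm]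
    change ‖F g - F g'‖ ≤ ((1 / 2 : NNReal) : ℝ) * ‖(g : ℂ) - (g' : ℂ)‖
    refine h1.trans ?_
    have h3 : C' * s ≤ 1 / 2 * √(s * c) := by
      have h4 : 2 * C' * s ≤ √(s * c) := by
        apply Real.le_sqrt_of_sq_le
        calc (2 * C' * s) ^ 2 = s * (s * (4 * C' ^ 2)) := by ring
          _ ≤ s * c := by gcongr
      linarith
    have h5 : 0 < √(s * c) := Real.sqrt_pos.2 hsc
    rw [div_le_iff₀ h5]
    have h6 : ((1 / 2 : NNReal) : ℝ) = 1 / 2 := by norm_num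
    rw [h6]
    calc C' * (s * ‖(g : ℂ) - (g' : ℂ)‖) = C' * s * ‖(g : ℂ) - (g' : ℂ)‖ := by ring
      _ ≤ 1 / 2 * √(s * c) * ‖(g : ℂ) - (g' : ℂ)‖ := by gcongr
      _ = 1 / 2 * ‖(g : ℂ) - (g' : ℂ)‖ * √(s * c) := by ring
  have hmem : (c : ℂ) * Complex.I ∈ K := by
    constructor
    · rw [norm_mul, Complex.norm_I, mul_one, Complex.norm_real, Real.norm_eq_abs, abs_of_pos hc]
      exact hcr
    · simp
  obtain ⟨g0, hg0K, hfix, -⟩ := hcon.exists_fixedPoint' hKc hmaps hmem (edist_ne_top _ _)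
  have hfix' : F g0 = g0 := hfix
  obtain ⟨e1, e2, e3⟩ := hKim g0 hg0K
  have hsD : (mkD d L E η lam sg g0).s = s := hs.symm
  have hzr : (mkD d L E η lam sg g0).zr 0 = (E : ℂ) + (η : ℂ) * Complex.I + (s : ℂ) * g0 := by
    unfold Fl.zr
    rw [hsD]
    change (E : ℂ) + (η : ℂ) * Complex.I + ((s * (1 - 0 ^ 2) : ℝ) : ℂ) * g0 = _
    congr 3
    norm_num
  have het : (mkD d L E η lam sg g0).et 0 =
      ((E : ℂ) + (η : ℂ) * Complex.I + (s : ℂ) * g0).im := by
    unfold Fl.et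
    rw [hsD]
    change ((E : ℂ) + (η : ℂ) * Complex.I).im + s * (1 - 0 ^ 2) * g0.im = _
    simp
  have hmono : ∀ a : ℝ, 0 ≤ a → a / (s * c) ^ 3 ≤ L →
      a / (mkD d L E η lam sg g0).et 0 ^ 3 ≤ L := by
    intro a ha h
    rw [het]
    refine le_trans ?_ h
    gcongr
  have hzim : (mkD d L E η lam sg g0).z.im = η := by
    change ((E : ℂ) + (η : ℂ) * Complex.I).im = η
    simp
  refine ⟨g0, ?_, ?_, hmono 64 (by norm_num) d1⟩
  · refine
      { H0 := rfl
        lam0 := hlam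
        lam1 := b1
        sg0 := hsg
        zim := by rw [hzim]; exact hη
        fix := ?_
        rlo0 := hc
        lo := hg0K.2
        hi := hg0K.1
        et1 := by rw [het]; exact e2.trans c3
        zs := by rw [hzim, hsD, hs]; exact hηs
        Lb := hmono 8 (by norm_num) d3
        Lz := by rw [hzim]; exact hLη }
    rw [hzr]
    exact hfix'.symm
  · rw [het]
    exact e2.trans c4

end Pool.Agent.APS
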