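import Pool.Agent.APS.Mult
import Pool.Agent.Kin.Hdiag
import Pool.Agent.Kin.SHat
import Pool.Agent.Kin.AFour

/-! # APS INIT0: the flow at time `0` on the torus.

`D.G 0 0 = (Mx ζ (x-y))` (`res_H0T`, `ζ = D.zr 0`, `Im ζ = D.et 0 > 0`).
`G_xx = Mx ζ 0 = g0` by the fixed point equation.  `S = (|Mx ζ (x-y)|²)` = `mult` of `ST ζ k`
(`mult_of_conv`, `ST_eq_sum`; `ST` is even: `Mx_neg`), `R = (Mx ζ (x-y)²)` = `mult (r0 k)`.
`lap S`: row sums `∑_x |Mx|² = ST ζ 0`, so `lap S = mult (ST ζ 0 - ST ζ k) = mult (q0 k)`.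
`ST ζ 0 = g0.im/γ` (`ST_zero`).  `s g0.im < γ`.  `T4`: `a_four`.
`et` facts: `γ = D.et 0 = Im z + s ρ0`, `D.et 1 = Im z`, `x_r = 1 - (ρ0/γ) s r²`.
-/

open Matrix Finset

noncomputable section

namespace Pool.Agent.APS

open Pool.Agent.Kin

variable {d L : ℕ} [NeZero L] {D : Fl (Tor d L)} {rlo rhi : ℝ}

theorem World.s0 (hW : World D rlo rhi) : 0 < D.s := by
  unfold Fl.s
  have h1 := hW.lam0
  have h2 := hW.sg0
  positivity

theorem World.g0im (hW : World D rlo rhi) : 0 < D.g0.im := lt_of_lt_of_le hW.rlo0 hW.lo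

theorem World.et_zero (hW : World D rlo rhi) : D.et 0 = D.z.im + D.s * D.g0.im := by
  have _ := hW
  unfold Fl.et
  ring

theorem World.et_one (hW : World D rlo rhi) : D.et 1 = D.z.im := by
  have _ := hW
  unfold Fl.et
  ring

theorem World.et_pos (hW : World D rlo rhi) {r : ℝ} (h0 : 0 ≤ r) (h1 : r ≤ 1) :
    D.z.im ≤ D.et r ∧ D.et r ≤ D.et 0 := by
  have hs := hW.s0
  have hg := hW.g0im
  have hsg : 0 < D.s * D.g0.im := mul_pos hs hg
  have hr : r ^ 2 ≤ 1 := pow_le_one₀ h0 h1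
  have hr0 : 0 ≤ r ^ 2 := sq_nonneg r
  have e1 : D.et r = D.z.im + (D.s * D.g0.im) * (1 - r ^ 2) := by
    unfold Fl.et
    ring
  rw [hW.et_zero, e1]
  constructor
  · nlinarith
  · nlinarith

theorem World.zr_im (hW : World D rlo rhi) : (D.zr 0).im = D.et 0 := by
  have _ := hW
  unfold Fl.zr Fl.et
  rw [Complex.add_im, Complex.im_ofReal_mul]

private theorem init0_et0 (hW : World D rlo rhi) : 0 < D.et 0 := by
  rw [hW.et_zero]
  have h1 := hW.zim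
  have h2 := mul_pos hW.s0 hW.g0im
  linarith

private theorem init0_im (hW : World D rlo rhi) : 0 < (D.zr 0).im := by
  rw [hW.zr_im]
  exact init0_et0 hW

theorem World.xr_eq (hW : World D rlo rhi) (r : ℝ) :
    xr D r = 1 - D.g0.im / D.et 0 * (D.s * r ^ 2) := by
  have h0 := (init0_et0 hW).ne'
  unfold xr
  have e1 : D.et r = D.et 0 - D.g0.im * (D.s * r ^ 2) := by
    unfold Fl.et
    ring
  rw [e1]
  field_simp

theorem World.G0 (hW : World D rlo rhi) (x y : Tor d L) :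
    D.G 0 0 x y = Mx (D.zr 0) (x - y) := by
  rw [← res_H0T (D.zr 0) (init0_im hW) x y, ← hW.H0]
  rfl

theorem World.g00 (hW : World D rlo rhi) (x : Tor d L) : D.G 0 0 x x = D.g0 := by
  rw [hW.G0, sub_self, ← hW.fix]

theorem World.ST0 (hW : World D rlo rhi) : ST (D.zr 0) (0 : Tor d L) = D.g0.im / D.et 0 := by
  rw [ST_zero _ (init0_im hW), ← hW.fix, hW.zr_im]

private theorem init0_SO (hW : World D rlo rhi) (x y : Tor d L) :
    D.SO.f 0 0 x y = ((‖Mx (D.zr 0) (x - y)‖ ^ 2 : ℝ) : ℂ) := by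
  rw [← hW.G0]
  rfl

private theorem init0_ST (ζ : ℂ) (k : Tor d L) :
    ∑ z : Tor d L, ((‖Mx ζ z‖ ^ 2 : ℝ) : ℂ) * star (ch k z) = ((ST ζ k : ℝ) : ℂ) := by
  have h1 := congrArg star (ST_eq_sum ζ k)
  rw [star_sum] at h1
  have h2 : star ((ST ζ k : ℝ) : ℂ) = ((ST ζ k : ℝ) : ℂ) := Complex.conj_ofReal _
  rw [h2] at h1
  rw [h1]
  refine Finset.sum_congr rfl fun z _ => ?_
  rw [star_mul']
  congr 1
  exact (Complex.conj_ofReal _).symm

theorem World.S0 (hW : World D rlo rhi) :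
    D.SO.f 0 0 = multR fun k => ST (D.zr 0) k := by
  have h1 : D.SO.f 0 0 = (fun x y => ((‖Mx (D.zr 0) (x - y)‖ ^ 2 : ℝ) : ℂ) :
      Matrix (Tor d L) (Tor d L) ℂ) := by
    funext x y
    exact init0_SO hW x y
  rw [h1]
  have h2 := mult_of_conv fun z : Tor d L => ((‖Mx (D.zr 0) z‖ ^ 2 : ℝ) : ℂ)
  refine h2.trans ?_
  unfold multR
  congr 1
  funext k
  exact init0_ST _ k

theorem World.R0 (hW : World D rlo rhi) : D.RO.f 0 0 = mult (r0 D) := by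
  have h1 : D.RO.f 0 0 = (fun x y => Mx (D.zr 0) (x - y) ^ 2 :
      Matrix (Tor d L) (Tor d L) ℂ) := by
    funext x y
    show D.G 0 0 x y ^ 2 = _
    rw [hW.G0]
  rw [h1]
  have h2 := mult_of_conv fun z : Tor d L => Mx (D.zr 0) z ^ 2
  refine h2.trans ?_
  congr 1
  funext k
  unfold r0
  rw [← Equiv.sum_comp (Equiv.neg (Tor d L))]
  refine Finset.sum_congr rfl fun z _ => ?_
  rw [Equiv.neg_apply, Mx_neg, ch_neg_right, star_star]

private theorem init0_row (hW : World D rlo rhi) (x : Tor d L) :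
    ∑ y, D.SO.f 0 0 x y = ((ST (D.zr 0) (0 : Tor d L) : ℝ) : ℂ) := by
  rw [← init0_ST]
  have h1 : ∀ z : Tor d L, ((‖Mx (D.zr 0) z‖ ^ 2 : ℝ) : ℂ) * star (ch 0 z) =
      ((‖Mx (D.zr 0) z‖ ^ 2 : ℝ) : ℂ) := by
    intro z
    rw [ch_zero_left, star_one, mul_one]
  rw [Finset.sum_congr rfl fun z _ => h1 z, ← Equiv.sum_comp (Equiv.subLeft x)]
  refine Finset.sum_congr rfl fun z _ => ?_
  rw [init0_SO hW, Equiv.subLeft_apply, sub_sub_cancel]

theorem World.lap0 (hW : World D rlo rhi) : lap (D.SO.f 0 0) = multR (q0 D) := by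
  have h1 : lap (D.SO.f 0 0) =
      ((ST (D.zr 0) (0 : Tor d L) : ℝ) : ℂ) • (1 : Matrix (Tor d L) (Tor d L) ℂ) -
        D.SO.f 0 0 := by
    unfold lap
    congr 1
    ext x y
    rw [Matrix.smul_apply, Matrix.one_apply, Matrix.diagonal_apply, init0_row hW, smul_eq_mul]
    split_ifs
    · rw [mul_one]
    · rw [mul_zero]
  rw [h1, hW.S0, ← mult_one, mult_smul]
  unfold multR
  rw [mult_sub]
  congr 1
  funext k
  unfold q0
  push_cast
  ring

theorem World.q0_nonneg (hW : World D rlo rhi) (k : Tor d L) : 0 ≤ q0 D k := by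
  have _ := hW
  have h1 := abs_ST_le (D.zr 0) k
  have h2 := le_abs_self (ST (D.zr 0) k)
  unfold q0
  linarith

theorem World.q0_le (hW : World D rlo rhi) (k : Tor d L) : q0 D k ≤ 2 * (D.g0.im / D.et 0) := by
  have h1 := abs_ST_le (D.zr 0) k
  have h2 := neg_abs_le (ST (D.zr 0) k)
  rw [← hW.ST0]
  unfold q0
  linarith

theorem q0_zero : q0 D 0 = 0 := by
  unfold q0
  rw [sub_self]

theorem T4_init (d : ℕ) (hd : 3 ≤ d) : ∃ C : ℝ, 0 < C ∧ ∀ (L : ℕ) [NeZero L]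
    (D : Fl (Tor d L)) (rlo rhi : ℝ), World D rlo rhi → ∀ x : Tor d L,
    ∑ w, ‖D.G 0 0 x w‖ ^ 4 ≤ C * D.et 0 ^ (1 / 4 : ℝ) / D.et 0 := by
  obtain ⟨C, hC, h⟩ := a_four d hd
  refine ⟨C, hC, ?_⟩
  intro L _ D rlo rhi hW x
  have he := init0_et0 hW
  have h1 := h L (D.zr 0) (init0_im hW) (by rw [hW.zr_im]; exact hW.et1)
    (by rw [hW.zr_im]; exact hW.Lb)
  rw [hW.zr_im] at h1
  have h2 : ∑ w, ‖D.G 0 0 x w‖ ^ 4 = ∑ z : Tor d L, ‖Mx (D.zr 0) z‖ ^ 4 := by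
    rw [← Equiv.sum_comp (Equiv.subLeft x)]
    refine Finset.sum_congr rfl fun w _ => ?_
    rw [hW.G0, Equiv.subLeft_apply, sub_sub_cancel]
  rw [h2]
  refine h1.trans (le_of_eq ?_)
  have h3 : D.et 0 ^ (1 / 4 : ℝ) / D.et 0 = D.et 0 ^ (-(3 / 4) : ℝ) := by
    rw [div_eq_iff he.ne']
    nth_rewrite 3 [← Real.rpow_one (D.et 0)]
    rw [← Real.rpow_add he]
    norm_num
  rw [mul_div_assoc, h3]

end Pool.Agent.APS
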