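import Pool.Agent.APS.Young

/-! # APS TRINEQ: trace inequalities for hermitian matrices.

Spectral theorem (`Matrix.IsHermitian.spectral_theorem`): `f = ∑ λ_a |a><a|`.  With
`g_ab = <a|g|b>`:  `Re Tr f^(2p) = ∑ λ_a^(2p)`, `Tr f^i g f^j k = ∑_ab λ_a^i g_ab λ_b^j k_ba`,
`Tr f^(2p-2) g² = ∑_ab λ_a^(2p-2) |g_ab|²`.
* `tr2_le`: `|λ_a|^i |λ_b|^j ≤ |λ_a|^(2p-2) + |λ_b|^(2p-2)` for `i + j = 2p-2`, and
  `|g_ab||k_ba| ≤ (|g_ab|² + |k_ba|²)/2`; sum over `i < 2p-1` and multiply by `2p`: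
  `2p (2p-1) · (1/2) · 2 · (trw g + trw k)/... ≤ 4p² (trw g + trw k)`.  (generous constant)
* `tr1_sq`: `|Tr f^p · f^(p-1) g|² ≤ Tr f^(2p) · Tr (f^(p-1) g)ᴴ (f^(p-1) g)`.
* `trw_sum`: `∑_w Tr f^(2p-2) g_w² = ∑_a λ_a^(2p-2) ∑_w ‖g_w a‖² ≤ ν² ∑_a λ_a^(2p-2)`
  (`a` the unit eigenvector), then Young with `x = λ_a²`: `λ_a^(2p-2) y ≤ e λ_a^(2p) + e^(1-p) y^p`.
* `tr1_le`: `|Tr f^(2p-1) E| ≤ ∑ |λ_a|^(2p-1) |<a|E|a>| ≤ x ∑ |λ_a|^(2p-1)`, then Young.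
-/

open Matrix Finset

noncomputable section

namespace Pool.Agent.APS

variable {κ : Type} [Fintype κ] [DecidableEq κ]

/-- `Re Tr f^(2p-2) g²` -/
def trw (p : ℕ) (f g : Matrix κ κ ℂ) : ℝ := (f ^ (2 * p - 2) * (g * g)).trace.re

private theorem spec {f : Matrix κ κ ℂ} (hf : f.IsHermitian) :
    ∃ (l : κ → ℝ) (U : Matrix κ κ ℂ), Uᴴ * U = 1 ∧ U * Uᴴ = 1 ∧
      f = U * diagonal (fun a => (l a : ℂ)) * Uᴴ := by
  refine ⟨hf.eigenvalues, (hf.eigenvectorUnitary : Matrix κ κ ℂ), ?_, ?_, ?_⟩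
  · exact Unitary.coe_star_mul_self hf.eigenvectorUnitary
  · exact Unitary.coe_mul_star_self hf.eigenvectorUnitary
  · have h := hf.spectral_theorem
    rw [Unitary.conjStarAlgAut_apply] at h
    exact h

private theorem spec_pow {l : κ → ℝ} {U : Matrix κ κ ℂ} (hU : Uᴴ * U = 1) (hU' : U * Uᴴ = 1)
    (n : ℕ) : (U * diagonal (fun a => (l a : ℂ)) * Uᴴ) ^ n =
      U * diagonal (fun a => (l a : ℂ) ^ n) * Uᴴ := by
  induction n with
  | zero =>
    simp only [pow_zero]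
    have h1 : diagonal (fun _ : κ => (1 : ℂ)) = 1 := diagonal_one
    rw [h1, Matrix.mul_one, hU']
  | succ n ih =>
    rw [pow_succ, ih]
    have h1 : U * diagonal (fun a => (l a : ℂ) ^ n) * Uᴴ * (U * diagonal (fun a => (l a : ℂ)) * Uᴴ)
        = U * (diagonal (fun a => (l a : ℂ) ^ n) * ((Uᴴ * U) * diagonal (fun a => (l a : ℂ)))) * Uᴴ := by
      simp only [Matrix.mul_assoc]
    rw [h1, hU, Matrix.one_mul, diagonal_mul_diagonal]
    simp only [pow_succ]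

private theorem spec_tr1 {l : κ → ℝ} {U : Matrix κ κ ℂ} (hU : Uᴴ * U = 1) (hU' : U * Uᴴ = 1)
    (n : ℕ) (M : Matrix κ κ ℂ) :
    ((U * diagonal (fun a => (l a : ℂ)) * Uᴴ) ^ n * M).trace =
      ∑ a, (l a : ℂ) ^ n * (Uᴴ * M * U) a a := by
  rw [spec_pow hU hU']
  have h1 : U * diagonal (fun a => (l a : ℂ) ^ n) * Uᴴ * M
      = U * (diagonal (fun a => (l a : ℂ) ^ n) * (Uᴴ * M)) := by
    simp only [Matrix.mul_assoc]
  rw [h1, Matrix.trace_mul_comm, Matrix.mul_assoc]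
  simp only [Matrix.trace, Matrix.diag_apply, Matrix.diagonal_mul]

private theorem spec_tr2 {l : κ → ℝ} {U : Matrix κ κ ℂ} (hU : Uᴴ * U = 1) (hU' : U * Uᴴ = 1)
    (i j : ℕ) (g k : Matrix κ κ ℂ) :
    ((U * diagonal (fun a => (l a : ℂ)) * Uᴴ) ^ i * g *
      ((U * diagonal (fun a => (l a : ℂ)) * Uᴴ) ^ j * k)).trace =
      ∑ a, ∑ b, (l a : ℂ) ^ i * (l b : ℂ) ^ j * ((Uᴴ * g * U) a b * (Uᴴ * k * U) b a) := by
  rw [Matrix.mul_assoc, spec_tr1 hU hU', spec_pow hU hU']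
  refine Finset.sum_congr rfl fun a _ => ?_
  have h1 : Uᴴ * (g * (U * diagonal (fun a => (l a : ℂ) ^ j) * Uᴴ * k)) * U
      = (Uᴴ * g * U) * (diagonal (fun a => (l a : ℂ) ^ j) * (Uᴴ * k * U)) := by
    simp only [Matrix.mul_assoc]
  rw [h1, Matrix.mul_apply, Finset.mul_sum]
  refine Finset.sum_congr rfl fun b _ => ?_
  rw [Matrix.diagonal_mul]
  ring

private theorem herm_conj {U g : Matrix κ κ ℂ} (hg : g.IsHermitian) (a b : κ) :
    (Uᴴ * g * U) b a = star ((Uᴴ * g * U) a b) := by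
  have h : (Uᴴ * g * U).IsHermitian := by
    unfold Matrix.IsHermitian
    rw [conjTranspose_mul, conjTranspose_mul, conjTranspose_conjTranspose, hg.eq, Matrix.mul_assoc]
  exact (h.apply b a).symm

private theorem trw_eq {l : κ → ℝ} {U g : Matrix κ κ ℂ} (hU : Uᴴ * U = 1) (hU' : U * Uᴴ = 1)
    (hg : g.IsHermitian) (p : ℕ) :
    trw p (U * diagonal (fun a => (l a : ℂ)) * Uᴴ) g =
      ∑ a, ∑ b, l a ^ (2 * p - 2) * ‖(Uᴴ * g * U) a b‖ ^ 2 := by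
  unfold trw
  have h := spec_tr2 (l := l) hU hU' (2 * p - 2) 0 g g
  rw [pow_zero, Matrix.one_mul, Matrix.mul_assoc] at h
  rw [h, Complex.re_sum]
  refine Finset.sum_congr rfl fun a _ => ?_
  rw [Complex.re_sum]
  refine Finset.sum_congr rfl fun b _ => ?_
  rw [herm_conj hg a b, pow_zero, mul_one]
  have h2 : (Uᴴ * g * U) a b * star ((Uᴴ * g * U) a b) = ((‖(Uᴴ * g * U) a b‖ ^ 2 : ℝ) : ℂ) := by
    rw [Complex.star_def, Complex.mul_conj, Complex.normSq_eq_norm_sq]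
  rw [h2]
  have h3 : (l a : ℂ) ^ (2 * p - 2) * ((‖(Uᴴ * g * U) a b‖ ^ 2 : ℝ) : ℂ) =
      ((l a ^ (2 * p - 2) * ‖(Uᴴ * g * U) a b‖ ^ 2 : ℝ) : ℂ) := by
    push_cast
    ring
  rw [h3, Complex.ofReal_re]

private theorem tr0_eq {l : κ → ℝ} {U : Matrix κ κ ℂ} (hU : Uᴴ * U = 1) (hU' : U * Uᴴ = 1)
    (n : ℕ) : tr0 n (U * diagonal (fun a => (l a : ℂ)) * Uᴴ) = ∑ a, l a ^ n := by
  unfold tr0
  have h := spec_tr1 (l := l) hU hU' n 1
  rw [Matrix.mul_one, Matrix.mul_one, hU] at h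
  rw [h, Complex.re_sum]
  refine Finset.sum_congr rfl fun a _ => ?_
  rw [Matrix.one_apply_eq, mul_one, ← Complex.ofReal_pow, Complex.ofReal_re]

private theorem ev_nonneg {p : ℕ} (x : ℝ) : 0 ≤ x ^ (2 * p - 2) := by
  have : 2 * p - 2 = 2 * (p - 1) := by omega
  rw [this, pow_mul]
  positivity

/-- the norm of `M u` in the eigenbasis -/
private theorem norm_conj {U : Matrix κ κ ℂ} (hU : Uᴴ * U = 1) (u : κ → ℂ) :
    ∑ x, ‖(U *ᵥ u) x‖ ^ 2 = ∑ x, ‖u x‖ ^ 2 := by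
  have key : ∀ v : κ → ℂ, ((∑ x, ‖v x‖ ^ 2 : ℝ) : ℂ) = star v ⬝ᵥ v := by
    intro v
    rw [dotProduct]
    push_cast
    refine Finset.sum_congr rfl fun x _ => ?_
    rw [Pi.star_apply, Complex.star_def, Complex.conj_mul']
  have h : ((∑ x, ‖(U *ᵥ u) x‖ ^ 2 : ℝ) : ℂ) = ((∑ x, ‖u x‖ ^ 2 : ℝ) : ℂ) := by
    rw [key, key, star_mulVec, dotProduct_mulVec, vecMul_vecMul, hU, vecMul_one]
  exact_mod_cast h

private theorem col_norm {U M : Matrix κ κ ℂ} (hU : Uᴴ * U = 1) (hU' : U * Uᴴ = 1) (a : κ) :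
    ∑ b, ‖(Uᴴ * M * U) b a‖ ^ 2 = ∑ x, ‖(M *ᵥ (fun y => U y a)) x‖ ^ 2 := by
  have h1 : ∀ b, (Uᴴ * M * U) b a = (Uᴴ *ᵥ (M *ᵥ (fun y => U y a))) b := by
    intro b
    rw [mulVec_mulVec]
    rfl
  simp only [h1]
  refine norm_conj ?_ _
  rw [conjTranspose_conjTranspose, hU']

private theorem unit_col {U : Matrix κ κ ℂ} (hU : Uᴴ * U = 1) (a : κ) :
    ∑ y, ‖U y a‖ ^ 2 = 1 := by
  have h := congrFun (congrFun hU a) a
  rw [Matrix.mul_apply, Matrix.one_apply_eq] at h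
  have h2 : ((∑ y, ‖U y a‖ ^ 2 : ℝ) : ℂ) = 1 := by
    rw [← h]
    push_cast
    refine Finset.sum_congr rfl fun y _ => ?_
    rw [conjTranspose_apply, Complex.star_def, Complex.conj_mul']
  exact_mod_cast h2

theorem tr0_nonneg (p : ℕ) {f : Matrix κ κ ℂ} (hf : f.IsHermitian) : 0 ≤ tr0 (2 * p) f := by
  obtain ⟨l, U, hU, hU', rfl⟩ := spec hf
  rw [tr0_eq hU hU']
  refine Finset.sum_nonneg fun a _ => ?_
  rw [pow_mul]
  positivity

theorem trw_nonneg (p : ℕ) (hp : 1 ≤ p) {f g : Matrix κ κ ℂ} (hf : f.IsHermitian)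
    (hg : g.IsHermitian) : 0 ≤ trw p f g := by
  obtain ⟨l, U, hU, hU', rfl⟩ := spec hf
  rw [trw_eq hU hU' hg]
  exact Finset.sum_nonneg fun a _ => Finset.sum_nonneg fun b _ =>
    mul_nonneg (ev_nonneg _) (by positivity)

theorem tr2_le (p : ℕ) (hp : 1 ≤ p) {f g k : Matrix κ κ ℂ} (hf : f.IsHermitian)
    (hg : g.IsHermitian) (hk : k.IsHermitian) :
    |tr2 (2 * p) f g k| ≤ 4 * p ^ 2 * (trw p f g + trw p f k) := by
  obtain ⟨l, U, hU, hU', rfl⟩ := spec hf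
  set G := Uᴴ * g * U with hG
  set K := Uᴴ * k * U with hK
  have hsymG : ∀ a b, ‖G b a‖ = ‖G a b‖ := by
    intro a b
    rw [hG, herm_conj hg a b, norm_star]
  have hsymK : ∀ a b, ‖K b a‖ = ‖K a b‖ := by
    intro a b
    rw [hK, herm_conj hk a b, norm_star]
  have hwg := trw_eq (l := l) hU hU' hg p
  have hwk := trw_eq (l := l) hU hU' hk p
  rw [← hG] at hwg
  rw [← hK] at hwk
  set W := trw p (U * diagonal (fun a => (l a : ℂ)) * Uᴴ) g +
    trw p (U * diagonal (fun a => (l a : ℂ)) * Uᴴ) k with hW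
  have hW0 : 0 ≤ W := by
    rw [hW, hwg, hwk]
    refine add_nonneg ?_ ?_
    · exact Finset.sum_nonneg fun a _ => Finset.sum_nonneg fun b _ =>
        mul_nonneg (ev_nonneg _) (by positivity)
    · exact Finset.sum_nonneg fun a _ => Finset.sum_nonneg fun b _ =>
        mul_nonneg (ev_nonneg _) (by positivity)
  have hterm : ∀ i ∈ range (2 * p - 1),
      |((U * diagonal (fun a => (l a : ℂ)) * Uᴴ) ^ i * g *
        ((U * diagonal (fun a => (l a : ℂ)) * Uᴴ) ^ (2 * p - 2 - i) * k)).trace.re| ≤ W := by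
    intro i hi
    have hi' : i ≤ 2 * p - 2 := by
      have := Finset.mem_range.mp hi
      omega
    refine (Complex.abs_re_le_norm _).trans ?_
    rw [spec_tr2 hU hU', ← hG, ← hK]
    refine (norm_sum_le _ _).trans ?_
    have hb : ∀ a ∈ (Finset.univ : Finset κ), ‖∑ b, (l a : ℂ) ^ i * (l b : ℂ) ^ (2 * p - 2 - i) * (G a b * K b a)‖ ≤
        ∑ b, (l a ^ (2 * p - 2) + l b ^ (2 * p - 2)) * ((‖G a b‖ ^ 2 + ‖K a b‖ ^ 2) / 2) := by
      intro a _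
      refine (norm_sum_le _ _).trans (Finset.sum_le_sum fun b _ => ?_)
      rw [norm_mul, norm_mul, norm_mul, norm_pow, norm_pow, Complex.norm_real, Complex.norm_real,
        hsymK a b, Real.norm_eq_abs, Real.norm_eq_abs]
      have hp2 : ∀ x : ℝ, x ^ (2 * p - 2) = |x| ^ (2 * p - 2) := by
        intro x
        have h22 : 2 * p - 2 = 2 * (p - 1) := by omega
        rw [h22, pow_mul, pow_mul, sq_abs]
      have hpow : |l a| ^ i * |l b| ^ (2 * p - 2 - i) ≤ l a ^ (2 * p - 2) + l b ^ (2 * p - 2) := by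
        rw [hp2 (l a), hp2 (l b)]
        have hsum : i + (2 * p - 2 - i) = 2 * p - 2 := by omega
        have ha0 := abs_nonneg (l a)
        have hb0 := abs_nonneg (l b)
        rcases le_total |l a| |l b| with hab | hab
        · calc |l a| ^ i * |l b| ^ (2 * p - 2 - i) ≤ |l b| ^ i * |l b| ^ (2 * p - 2 - i) :=
                mul_le_mul_of_nonneg_right (pow_le_pow_left₀ ha0 hab i) (by positivity)
            _ = |l b| ^ (2 * p - 2) := by rw [← pow_add, hsum]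
            _ ≤ _ := le_add_of_nonneg_left (by positivity)
        · calc |l a| ^ i * |l b| ^ (2 * p - 2 - i) ≤ |l a| ^ i * |l a| ^ (2 * p - 2 - i) :=
                mul_le_mul_of_nonneg_left (pow_le_pow_left₀ hb0 hab _) (by positivity)
            _ = |l a| ^ (2 * p - 2) := by rw [← pow_add, hsum]
            _ ≤ _ := le_add_of_nonneg_right (by positivity)
      have hprod : ‖G a b‖ * ‖K a b‖ ≤ (‖G a b‖ ^ 2 + ‖K a b‖ ^ 2) / 2 := by
        nlinarith [sq_nonneg (‖G a b‖ - ‖K a b‖)]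
      exact mul_le_mul hpow hprod (by positivity) (add_nonneg (ev_nonneg _) (ev_nonneg _))
    refine (Finset.sum_le_sum hb).trans ?_
    have hsw : ∀ (X : Matrix κ κ ℂ), (∀ a b, ‖X b a‖ = ‖X a b‖) →
        ∑ a, ∑ b, l b ^ (2 * p - 2) * ‖X a b‖ ^ 2 = ∑ a, ∑ b, l a ^ (2 * p - 2) * ‖X a b‖ ^ 2 := by
      intro X hX
      rw [Finset.sum_comm]
      refine Finset.sum_congr rfl fun a _ => Finset.sum_congr rfl fun b _ => ?_
      rw [hX]
    have hexp : ∑ a, ∑ b, (l a ^ (2 * p - 2) + l b ^ (2 * p - 2)) * ((‖G a b‖ ^ 2 + ‖K a b‖ ^ 2) / 2)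
        = (∑ a, ∑ b, l a ^ (2 * p - 2) * ‖G a b‖ ^ 2 + ∑ a, ∑ b, l a ^ (2 * p - 2) * ‖K a b‖ ^ 2
          + (∑ a, ∑ b, l b ^ (2 * p - 2) * ‖G a b‖ ^ 2
          + ∑ a, ∑ b, l b ^ (2 * p - 2) * ‖K a b‖ ^ 2)) / 2 := by
      simp only [← Finset.sum_add_distrib, Finset.sum_div]
      refine Finset.sum_congr rfl fun a _ => Finset.sum_congr rfl fun b _ => ?_
      ring
    rw [hexp, hsw G hsymG, hsw K hsymK, hW, hwg, hwk]
    linarith
  unfold tr2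
  rw [abs_mul]
  have h1 : |((2 * p : ℕ) : ℝ)| = 2 * (p : ℝ) := by
    push_cast
    exact abs_of_nonneg (by positivity)
  rw [h1]
  have h2 : |∑ i ∈ range (2 * p - 1), ((U * diagonal (fun a => (l a : ℂ)) * Uᴴ) ^ i * g *
        ((U * diagonal (fun a => (l a : ℂ)) * Uᴴ) ^ (2 * p - 2 - i) * k)).trace.re| ≤
      (2 * p) * W := by
    refine (Finset.abs_sum_le_sum_abs _ _).trans ((Finset.sum_le_sum hterm).trans ?_)
    rw [Finset.sum_const, Finset.card_range, nsmul_eq_mul]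
    apply mul_le_mul_of_nonneg_right _ hW0
    have : (2 * p - 1 : ℕ) ≤ 2 * p := by omega
    exact_mod_cast this
  calc 2 * (p : ℝ) * |∑ i ∈ range (2 * p - 1), ((U * diagonal (fun a => (l a : ℂ)) * Uᴴ) ^ i * g *
        ((U * diagonal (fun a => (l a : ℂ)) * Uᴴ) ^ (2 * p - 2 - i) * k)).trace.re|
      ≤ 2 * (p : ℝ) * ((2 * p) * W) := mul_le_mul_of_nonneg_left h2 (by positivity)
    _ = 4 * p ^ 2 * W := by ring

theorem tr1_sq (p : ℕ) (hp : 1 ≤ p) {f g : Matrix κ κ ℂ} (hf : f.IsHermitian)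
    (hg : g.IsHermitian) : tr1 (2 * p) f g ^ 2 ≤ tr0 (2 * p) f * (4 * p ^ 2 * trw p f g) := by
  obtain ⟨l, U, hU, hU', rfl⟩ := spec hf
  set G := Uᴴ * g * U with hG
  have hwg := trw_eq (l := l) hU hU' hg p
  rw [← hG] at hwg
  rw [tr0_eq hU hU', hwg]
  unfold tr1
  rw [spec_tr1 hU hU', ← hG, Complex.re_sum]
  have h1 : ∀ a, ((l a : ℂ) ^ (2 * p - 1) * G a a).re = l a ^ p * (l a ^ (p - 1) * (G a a).re) := by
    intro a
    rw [← Complex.ofReal_pow, Complex.re_ofReal_mul]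
    have : 2 * p - 1 = p + (p - 1) := by omega
    rw [this, pow_add]
    ring
  simp only [h1]
  have hCS := Finset.sum_mul_sq_le_sq_mul_sq (Finset.univ : Finset κ) (fun a => l a ^ p)
    (fun a => l a ^ (p - 1) * (G a a).re)
  have hA : ∑ a, (l a ^ p) ^ 2 = ∑ a, l a ^ (2 * p) := by
    refine Finset.sum_congr rfl fun a _ => ?_
    rw [← pow_mul, mul_comm]
  have hB : ∑ a, (l a ^ (p - 1) * (G a a).re) ^ 2 ≤
      ∑ a, ∑ b, l a ^ (2 * p - 2) * ‖G a b‖ ^ 2 := by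
    refine Finset.sum_le_sum fun a _ => ?_
    have hsq : (l a ^ (p - 1) * (G a a).re) ^ 2 ≤ l a ^ (2 * p - 2) * ‖G a a‖ ^ 2 := by
      rw [mul_pow, ← pow_mul]
      have : (p - 1) * 2 = 2 * p - 2 := by omega
      rw [this]
      apply mul_le_mul_of_nonneg_left _ (ev_nonneg _)
      rw [← sq_abs ((G a a).re)]
      exact pow_le_pow_left₀ (abs_nonneg _) (Complex.abs_re_le_norm _) 2
    refine hsq.trans ?_
    exact Finset.single_le_sum (f := fun b => l a ^ (2 * p - 2) * ‖G a b‖ ^ 2)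
      (fun b _ => mul_nonneg (ev_nonneg _) (by positivity)) (Finset.mem_univ a)
  rw [hA] at hCS
  have hA0 : 0 ≤ ∑ a, l a ^ (2 * p) := by
    refine Finset.sum_nonneg fun a _ => ?_
    rw [pow_mul]
    positivity
  have hfin := hCS.trans (mul_le_mul_of_nonneg_left hB hA0)
  have hp4 : (0 : ℝ) ≤ 4 * (p : ℝ) ^ 2 := by positivity
  have := mul_le_mul_of_nonneg_left hfin hp4
  calc (((2 * p : ℕ) : ℝ) * ∑ a, l a ^ p * (l a ^ (p - 1) * (G a a).re)) ^ 2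
      = 4 * (p : ℝ) ^ 2 * (∑ a, l a ^ p * (l a ^ (p - 1) * (G a a).re)) ^ 2 := by
        push_cast
        ring
    _ ≤ _ := this
    _ = _ := by ring

theorem trw_sum {ι : Type} [Fintype ι] (p : ℕ) (hp : 1 ≤ p) {f : Matrix κ κ ℂ}
    (hf : f.IsHermitian) (g : ι → Matrix κ κ ℂ) (hg : ∀ w, (g w).IsHermitian) {nu e : ℝ}
    (he : 0 < e) (hnu : ∀ u : κ → ℂ, ∑ w, ∑ x, ‖(g w *ᵥ u) x‖ ^ 2 ≤ nu ^ 2 * ∑ x, ‖u x‖ ^ 2)
    {c : ℝ} (hc : 0 ≤ c) :
    c * ∑ w, trw p f (g w) ≤ e * tr0 (2 * p) f +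
      (Fintype.card κ : ℝ) * ((1 / e) ^ (p - 1) * (c * nu ^ 2) ^ p) := by
  obtain ⟨l, U, hU, hU', rfl⟩ := spec hf
  have h1 : ∀ w, trw p (U * diagonal (fun a => (l a : ℂ)) * Uᴴ) (g w) =
      ∑ a, l a ^ (2 * p - 2) * ∑ x, ‖(g w *ᵥ (fun y => U y a)) x‖ ^ 2 := by
    intro w
    rw [trw_eq hU hU' (hg w)]
    refine Finset.sum_congr rfl fun a _ => ?_
    rw [← Finset.mul_sum, ← col_norm hU hU' a]
    congr 1
    refine Finset.sum_congr rfl fun b _ => ?_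
    rw [herm_conj (hg w) a b, norm_star]
  simp only [h1]
  rw [Finset.sum_comm]
  have h2 : ∀ a, ∑ w, l a ^ (2 * p - 2) * ∑ x, ‖(g w *ᵥ (fun y => U y a)) x‖ ^ 2 ≤
      l a ^ (2 * p - 2) * nu ^ 2 := by
    intro a
    rw [← Finset.mul_sum]
    apply mul_le_mul_of_nonneg_left _ (ev_nonneg _)
    refine (hnu (fun y => U y a)).trans ?_
    rw [unit_col hU, mul_one]
  have h3 : c * ∑ a, ∑ w, l a ^ (2 * p - 2) * ∑ x, ‖(g w *ᵥ (fun y => U y a)) x‖ ^ 2 ≤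
      (∑ a, (l a ^ 2) ^ (p - 1)) * (c * nu ^ 2) := by
    have h4 := mul_le_mul_of_nonneg_left (Finset.sum_le_sum fun a (_ : a ∈ Finset.univ) => h2 a) hc
    refine h4.trans (le_of_eq ?_)
    rw [← Finset.sum_mul]
    have h5 : ∑ a, l a ^ (2 * p - 2) = ∑ a, (l a ^ 2) ^ (p - 1) := by
      refine Finset.sum_congr rfl fun a _ => ?_
      rw [← pow_mul]
      congr 1
      omega
    rw [h5]
    ring
  refine h3.trans ?_
  have h6 := young_sum (p - 1) (fun a => l a ^ 2) (y := c * nu ^ 2) (e := e)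
    (fun a => by positivity) (by positivity) he
  have hpp : p - 1 + 1 = p := by omega
  rw [hpp] at h6
  refine h6.trans (le_of_eq ?_)
  rw [tr0_eq hU hU']
  congr 2
  refine Finset.sum_congr rfl fun a _ => ?_
  rw [← pow_mul]

theorem tr1_le (p : ℕ) (hp : 1 ≤ p) {f E : Matrix κ κ ℂ} (hf : f.IsHermitian) {x e : ℝ}
    (hx : 0 ≤ x) (he : 0 < e) (hE : OpLe E x) {c : ℝ} (hc : 0 ≤ c) :
    c * |tr1 (2 * p) f E| ≤ e * tr0 (2 * p) f +
      (Fintype.card κ : ℝ) * ((1 / e) ^ (2 * p - 1) * (c * (2 * p * x)) ^ (2 * p)) := by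
  obtain ⟨l, U, hU, hU', rfl⟩ := spec hf
  have hx2 : ∀ a, ‖(Uᴴ * E * U) a a‖ ≤ x := by
    intro a
    have h1 : ‖(Uᴴ * E * U) a a‖ ^ 2 ≤ x ^ 2 := by
      calc ‖(Uᴴ * E * U) a a‖ ^ 2 ≤ ∑ b, ‖(Uᴴ * E * U) b a‖ ^ 2 :=
            Finset.single_le_sum (f := fun b => ‖(Uᴴ * E * U) b a‖ ^ 2)
              (fun b _ => by positivity) (Finset.mem_univ a)
        _ = ∑ y, ‖(E *ᵥ (fun y => U y a)) y‖ ^ 2 := col_norm hU hU' a
        _ ≤ x ^ 2 * ∑ y, ‖U y a‖ ^ 2 := hE _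
        _ = x ^ 2 := by rw [unit_col hU, mul_one]
    exact (abs_le_of_sq_le_sq' h1 hx).2
  have h2 : |tr1 (2 * p) (U * diagonal (fun a => (l a : ℂ)) * Uᴴ) E| ≤
      (2 * p) * (x * ∑ a, |l a| ^ (2 * p - 1)) := by
    unfold tr1
    rw [abs_mul]
    have h1 : |((2 * p : ℕ) : ℝ)| = 2 * (p : ℝ) := by
      push_cast
      exact abs_of_nonneg (by positivity)
    rw [h1]
    apply mul_le_mul_of_nonneg_left _ (by positivity)
    refine (Complex.abs_re_le_norm _).trans ?_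
    rw [spec_tr1 hU hU', Finset.mul_sum]
    refine (norm_sum_le _ _).trans (Finset.sum_le_sum fun a _ => ?_)
    rw [norm_mul, norm_pow, Complex.norm_real, Real.norm_eq_abs, mul_comm]
    exact mul_le_mul_of_nonneg_right (hx2 a) (by positivity)
  have h3 := mul_le_mul_of_nonneg_left h2 hc
  refine h3.trans ?_
  have h6 := young_sum (2 * p - 1) (fun a => |l a|) (y := c * (2 * p * x)) (e := e)
    (fun a => abs_nonneg _) (by positivity) he
  have hpp : 2 * p - 1 + 1 = 2 * p := by omega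
  rw [hpp] at h6
  calc c * ((2 * p) * (x * ∑ a, |l a| ^ (2 * p - 1)))
      = (∑ a, |l a| ^ (2 * p - 1)) * (c * (2 * p * x)) := by ring
    _ ≤ _ := h6
    _ = _ := by
      rw [tr0_eq hU hU']
      congr 2
      refine Finset.sum_congr rfl fun a _ => ?_
      rw [pow_mul, sq_abs, ← pow_mul]

end Pool.Agent.APS
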