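import Pool.Agent.APS.Defs

/-! # APS OPLIB: small library for `OpLe` (operator norm at most `c` on `ℓ²`).

All statements are elementary.  `OpLe A a` is `∀ u, ∑ ‖(A u) x‖² ≤ a² ∑ ‖u x‖²`.
* `opLe_had`: `|∑_y A_xy B_xy u_y|² ≤ (∑_y |A_xy|²) (∑_y |B_xy|² |u_y|²)`, sum over `x`.
* `opLe_schur`: `|∑_y A_xy u_y|² ≤ (∑_y |A_xy|) (∑_y |A_xy| |u_y|²)`.
* `opLe_ct`: `‖A* u‖² = ⟨u, A A* u⟩ ≤ ‖u‖ ‖A (A* u)‖ ≤ a ‖u‖ ‖A* u‖`.
* `opLe_row`: apply `A*` (or `opLe_ct`) to the basis vectors.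
-/

open Matrix Finset

noncomputable section

namespace Pool.Agent.APS

variable {κ : Type} [Fintype κ]

private lemma opl_cs {α : Type} (s : Finset α) (a b : α → ℂ) :
    ‖∑ x ∈ s, a x * b x‖ ^ 2 ≤ (∑ x ∈ s, ‖a x‖ ^ 2) * ∑ x ∈ s, ‖b x‖ ^ 2 := by
  have h1 : ‖∑ x ∈ s, a x * b x‖ ≤ ∑ x ∈ s, ‖a x‖ * ‖b x‖ := by
    refine (norm_sum_le _ _).trans (le_of_eq ?_)
    exact Finset.sum_congr rfl fun x _ => norm_mul _ _
  calc ‖∑ x ∈ s, a x * b x‖ ^ 2 ≤ (∑ x ∈ s, ‖a x‖ * ‖b x‖) ^ 2 :=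
        pow_le_pow_left₀ (norm_nonneg _) h1 2
    _ ≤ _ := Finset.sum_mul_sq_le_sq_mul_sq s _ _

/-- the `ℓ²` norm of a vector -/
private def opl_n (u : κ → ℂ) : ℝ := √(∑ x, ‖u x‖ ^ 2)

private lemma opl_n_sq (u : κ → ℂ) : opl_n u ^ 2 = ∑ x, ‖u x‖ ^ 2 :=
  Real.sq_sqrt (Finset.sum_nonneg fun _ _ => sq_nonneg _)

private lemma opl_n_nn (u : κ → ℂ) : 0 ≤ opl_n u := Real.sqrt_nonneg _

private lemma opl_n_add (u v : κ → ℂ) : opl_n (u + v) ≤ opl_n u + opl_n v := by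
  have h1 : opl_n (u + v) ^ 2 ≤ (opl_n u + opl_n v) ^ 2 := by
    rw [opl_n_sq]
    have h2 : ∑ x, ‖(u + v) x‖ ^ 2 ≤ ∑ x, (‖u x‖ ^ 2 + 2 * (‖u x‖ * ‖v x‖) + ‖v x‖ ^ 2) := by
      refine Finset.sum_le_sum fun x _ => ?_
      have : ‖(u + v) x‖ ≤ ‖u x‖ + ‖v x‖ := by rw [Pi.add_apply]; exact norm_add_le _ _
      nlinarith [norm_nonneg ((u + v) x), norm_nonneg (u x), norm_nonneg (v x)]
    rw [Finset.sum_add_distrib, Finset.sum_add_distrib, ← Finset.mul_sum, ← opl_n_sq u,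
      ← opl_n_sq v] at h2
    have h3 : (∑ x, ‖u x‖ * ‖v x‖) ≤ opl_n u * opl_n v := by
      have h4 := Finset.sum_mul_sq_le_sq_mul_sq Finset.univ (fun x => ‖u x‖) (fun x => ‖v x‖)
      rw [← opl_n_sq u, ← opl_n_sq v, ← mul_pow] at h4
      exact (abs_le_of_sq_le_sq' h4 (mul_nonneg (opl_n_nn u) (opl_n_nn v))).2
    nlinarith
  exact (abs_le_of_sq_le_sq' h1 (add_nonneg (opl_n_nn u) (opl_n_nn v))).2

private lemma opl_iff {A : Matrix κ κ ℂ} {a : ℝ} (ha : 0 ≤ a) :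
    OpLe A a ↔ ∀ u, opl_n (A *ᵥ u) ≤ a * opl_n u := by
  constructor
  · intro h u
    have h1 := h u
    rw [← opl_n_sq, ← opl_n_sq, ← mul_pow] at h1
    exact (abs_le_of_sq_le_sq' h1 (mul_nonneg ha (opl_n_nn u))).2
  · intro h u
    have h1 := pow_le_pow_left₀ (opl_n_nn _) (h u) 2
    rwa [mul_pow, opl_n_sq, opl_n_sq] at h1

theorem opLe_mono {A : Matrix κ κ ℂ} {a b : ℝ} (ha : 0 ≤ a) (hab : a ≤ b) (h : OpLe A a) :
    OpLe A b := by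
  intro u
  refine (h u).trans (mul_le_mul_of_nonneg_right (pow_le_pow_left₀ ha hab 2)
    (Finset.sum_nonneg fun _ _ => sq_nonneg _))

theorem opLe_zero (a : ℝ) : OpLe (0 : Matrix κ κ ℂ) a := by
  intro u
  simp only [Matrix.zero_mulVec, Pi.zero_apply, norm_zero]
  have : 0 ≤ a ^ 2 * ∑ x, ‖u x‖ ^ 2 :=
    mul_nonneg (sq_nonneg _) (Finset.sum_nonneg fun _ _ => sq_nonneg _)
  simpa using this

theorem opLe_add {A B : Matrix κ κ ℂ} {a b : ℝ} (ha : 0 ≤ a) (hb : 0 ≤ b) (hA : OpLe A a)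
    (hB : OpLe B b) : OpLe (A + B) (a + b) := by
  rw [opl_iff (add_nonneg ha hb)]
  intro u
  rw [Matrix.add_mulVec]
  have h1 := (opl_iff ha).1 hA u
  have h2 := (opl_iff hb).1 hB u
  have h3 := opl_n_add (A *ᵥ u) (B *ᵥ u)
  nlinarith

theorem opLe_smul {A : Matrix κ κ ℂ} {a : ℝ} (c : ℂ) (hA : OpLe A a) : OpLe (c • A) (‖c‖ * a) := by
  intro u
  have h := hA u
  have h2 : ∑ x, ‖((c • A) *ᵥ u) x‖ ^ 2 = ‖c‖ ^ 2 * ∑ x, ‖(A *ᵥ u) x‖ ^ 2 := by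
    rw [Finset.mul_sum]
    refine Finset.sum_congr rfl fun x _ => ?_
    rw [Matrix.smul_mulVec, Pi.smul_apply, norm_smul, mul_pow]
  rw [h2, mul_pow, mul_assoc]
  exact mul_le_mul_of_nonneg_left h (sq_nonneg _)

theorem opLe_sub {A B : Matrix κ κ ℂ} {a b : ℝ} (ha : 0 ≤ a) (hb : 0 ≤ b) (hA : OpLe A a)
    (hB : OpLe B b) : OpLe (A - B) (a + b) := by
  have h1 : OpLe ((-1 : ℂ) • B) (‖(-1 : ℂ)‖ * b) := opLe_smul _ hB
  have h2 : ‖(-1 : ℂ)‖ * b = b := by simp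
  rw [h2] at h1
  have h3 : A - B = A + (-1 : ℂ) • B := by
    rw [neg_one_smul, sub_eq_add_neg]
  rw [h3]
  exact opLe_add ha hb hA h1

theorem opLe_mul {A B : Matrix κ κ ℂ} {a b : ℝ} (hA : OpLe A a) (hB : OpLe B b) :
    OpLe (A * B) (a * b) := by
  intro u
  have h1 := hA (B *ᵥ u)
  rw [Matrix.mulVec_mulVec] at h1
  refine h1.trans ?_
  rw [mul_pow, mul_assoc]
  exact mul_le_mul_of_nonneg_left (hB u) (sq_nonneg _)

theorem opLe_ct {A : Matrix κ κ ℂ} {a : ℝ} (ha : 0 ≤ a) (hA : OpLe A a) : OpLe Aᴴ a := by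
  intro u
  set v : κ → ℂ := Aᴴ *ᵥ u with hv
  have h1 := hA v
  have h0 : 0 ≤ ∑ x, ‖u x‖ ^ 2 := Finset.sum_nonneg fun _ _ => sq_nonneg _
  have h0v : 0 ≤ ∑ x, ‖v x‖ ^ 2 := Finset.sum_nonneg fun _ _ => sq_nonneg _
  have h2 : ((∑ x, ‖v x‖ ^ 2 : ℝ) : ℂ) = ∑ x, star (u x) * (A *ᵥ v) x := by
    have h3 : star v ⬝ᵥ v = star u ⬝ᵥ (A *ᵥ v) := by
      have h4 : star v = star u ᵥ* A := by
        rw [hv, Matrix.star_mulVec, Matrix.conjTranspose_conjTranspose]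
      rw [h4]
      exact (Matrix.dotProduct_mulVec _ _ _).symm
    have h5 : star v ⬝ᵥ v = ((∑ x, ‖v x‖ ^ 2 : ℝ) : ℂ) := by
      rw [dotProduct, Complex.ofReal_sum]
      refine Finset.sum_congr rfl fun x _ => ?_
      rw [Pi.star_apply, Complex.star_def, Complex.conj_mul']
      push_cast
      rfl
    rw [← h5, h3, dotProduct]
    rfl
  have h6 := opl_cs Finset.univ (fun x => star (u x)) (fun x => (A *ᵥ v) x)
  rw [← h2, Complex.norm_real, Real.norm_eq_abs, sq_abs] at h6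
  simp only [norm_star] at h6
  by_contra hcon
  push Not at hcon
  have h7 : 0 < ∑ x, ‖v x‖ ^ 2 :=
    lt_of_le_of_lt (mul_nonneg (sq_nonneg a) h0) hcon
  have h8 : (∑ x, ‖v x‖ ^ 2) ^ 2 ≤ (∑ x, ‖u x‖ ^ 2) * (a ^ 2 * ∑ x, ‖v x‖ ^ 2) :=
    h6.trans (mul_le_mul_of_nonneg_left h1 h0)
  have h9 : a ^ 2 * (∑ x, ‖u x‖ ^ 2) * (∑ x, ‖v x‖ ^ 2) < (∑ x, ‖v x‖ ^ 2) * ∑ x, ‖v x‖ ^ 2 :=
    mul_lt_mul_of_pos_right hcon h7
  nlinarith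

theorem opLe_star {A : Matrix κ κ ℂ} {a : ℝ} (hA : OpLe A a) : OpLe (A.map star) a := by
  intro u
  have h1 := hA (star u)
  have h2 : ∀ x, ‖((A.map star) *ᵥ u) x‖ = ‖(A *ᵥ star u) x‖ := by
    intro x
    have : ((A.map star) *ᵥ u) x = star ((A *ᵥ star u) x) := by
      simp only [Matrix.mulVec, dotProduct, Matrix.map_apply, Pi.star_apply, star_sum, star_mul',
        star_star]
    rw [this, norm_star]
  simp only [h2]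
  refine h1.trans (le_of_eq ?_)
  simp only [Pi.star_apply, norm_star]

theorem opLe_transpose {A : Matrix κ κ ℂ} {a : ℝ} (ha : 0 ≤ a) (hA : OpLe A a) : OpLe Aᵀ a := by
  have h1 := opLe_star (opLe_ct ha hA)
  have h2 : (Aᴴ).map star = Aᵀ := by
    ext i j
    simp [Matrix.conjTranspose_apply, Matrix.transpose_apply]
  rwa [h2] at h1

theorem opLe_diagonal [DecidableEq κ] (d : κ → ℂ) (c : ℝ) (h : ∀ x, ‖d x‖ ≤ c) :
    OpLe (diagonal d) c := by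
  intro u
  rw [Finset.mul_sum]
  refine Finset.sum_le_sum fun x _ => ?_
  rw [Matrix.mulVec_diagonal, norm_mul, mul_pow]
  exact mul_le_mul_of_nonneg_right (pow_le_pow_left₀ (norm_nonneg _) (h x) 2) (sq_nonneg _)

theorem opLe_one [DecidableEq κ] : OpLe (1 : Matrix κ κ ℂ) 1 := by
  intro u
  simp

theorem opLe_schur {A : Matrix κ κ ℂ} {a : ℝ} (hr : ∀ x, ∑ y, ‖A x y‖ ≤ a)
    (hc : ∀ y, ∑ x, ‖A x y‖ ≤ a) : OpLe A a := by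
  intro u
  have h1 : ∀ x, ‖(A *ᵥ u) x‖ ^ 2 ≤ a * ∑ y, ‖A x y‖ * ‖u y‖ ^ 2 := by
    intro x
    have h2 : ‖(A *ᵥ u) x‖ ≤ ∑ y, √‖A x y‖ * (√‖A x y‖ * ‖u y‖) := by
      rw [Matrix.mulVec, dotProduct]
      refine (norm_sum_le _ _).trans (le_of_eq ?_)
      refine Finset.sum_congr rfl fun y _ => ?_
      rw [← mul_assoc, Real.mul_self_sqrt (norm_nonneg _), norm_mul]
    have h3 := Finset.sum_mul_sq_le_sq_mul_sq Finset.univ (fun y => √‖A x y‖)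
      (fun y => √‖A x y‖ * ‖u y‖)
    have h4 : ∑ y, √‖A x y‖ ^ 2 = ∑ y, ‖A x y‖ :=
      Finset.sum_congr rfl fun y _ => Real.sq_sqrt (norm_nonneg _)
    have h5 : ∑ y, (√‖A x y‖ * ‖u y‖) ^ 2 = ∑ y, ‖A x y‖ * ‖u y‖ ^ 2 :=
      Finset.sum_congr rfl fun y _ => by rw [mul_pow, Real.sq_sqrt (norm_nonneg _)]
    rw [h4, h5] at h3
    have h6 : 0 ≤ ∑ y, ‖A x y‖ * ‖u y‖ ^ 2 :=
      Finset.sum_nonneg fun y _ => mul_nonneg (norm_nonneg _) (sq_nonneg _)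
    calc ‖(A *ᵥ u) x‖ ^ 2 ≤ (∑ y, √‖A x y‖ * (√‖A x y‖ * ‖u y‖)) ^ 2 :=
          pow_le_pow_left₀ (norm_nonneg _) h2 2
      _ ≤ (∑ y, ‖A x y‖) * ∑ y, ‖A x y‖ * ‖u y‖ ^ 2 := h3
      _ ≤ a * ∑ y, ‖A x y‖ * ‖u y‖ ^ 2 := mul_le_mul_of_nonneg_right (hr x) h6
  rcases isEmpty_or_nonempty κ with hE | hE
  · simp
  obtain ⟨x0⟩ := hE
  have ha : 0 ≤ a := (Finset.sum_nonneg fun y _ => norm_nonneg _).trans (hr x0)
  calc ∑ x, ‖(A *ᵥ u) x‖ ^ 2 ≤ ∑ x, a * ∑ y, ‖A x y‖ * ‖u y‖ ^ 2 :=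
        Finset.sum_le_sum fun x _ => h1 x
    _ = a * ∑ y, (∑ x, ‖A x y‖) * ‖u y‖ ^ 2 := by
        rw [← Finset.mul_sum, Finset.sum_comm]
        congr 1
        refine Finset.sum_congr rfl fun y _ => ?_
        rw [Finset.sum_mul]
    _ ≤ a * ∑ y, a * ‖u y‖ ^ 2 := by
        refine mul_le_mul_of_nonneg_left (Finset.sum_le_sum fun y _ => ?_) ha
        exact mul_le_mul_of_nonneg_right (hc y) (sq_nonneg _)
    _ = a ^ 2 * ∑ x, ‖u x‖ ^ 2 := by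
        rw [← Finset.mul_sum]
        ring

theorem opLe_had {A B : Matrix κ κ ℂ} {a b : ℝ} (hA : ∀ x, ∑ y, ‖A x y‖ ^ 2 ≤ a ^ 2)
    (hB : ∀ y, ∑ x, ‖B x y‖ ^ 2 ≤ b ^ 2) : OpLe (fun x y => A x y * B x y) (a * b) := by
  intro u
  have h1 : ∀ x, ‖((fun x y => A x y * B x y : Matrix κ κ ℂ) *ᵥ u) x‖ ^ 2 ≤
      a ^ 2 * ∑ y, ‖B x y‖ ^ 2 * ‖u y‖ ^ 2 := by
    intro x
    have h2 : ((fun x y => A x y * B x y : Matrix κ κ ℂ) *ᵥ u) x =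
        ∑ y, A x y * (B x y * u y) := by
      rw [Matrix.mulVec, dotProduct]
      exact Finset.sum_congr rfl fun y _ => mul_assoc _ _ _
    rw [h2]
    refine (opl_cs Finset.univ (fun y => A x y) (fun y => B x y * u y)).trans ?_
    have h3 : ∑ y, ‖B x y * u y‖ ^ 2 = ∑ y, ‖B x y‖ ^ 2 * ‖u y‖ ^ 2 :=
      Finset.sum_congr rfl fun y _ => by rw [norm_mul, mul_pow]
    rw [h3]
    exact mul_le_mul_of_nonneg_right (hA x)
      (Finset.sum_nonneg fun y _ => mul_nonneg (sq_nonneg _) (sq_nonneg _))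
  calc ∑ x, ‖((fun x y => A x y * B x y : Matrix κ κ ℂ) *ᵥ u) x‖ ^ 2
      ≤ ∑ x, a ^ 2 * ∑ y, ‖B x y‖ ^ 2 * ‖u y‖ ^ 2 := Finset.sum_le_sum fun x _ => h1 x
    _ = a ^ 2 * ∑ y, (∑ x, ‖B x y‖ ^ 2) * ‖u y‖ ^ 2 := by
        rw [← Finset.mul_sum, Finset.sum_comm]
        congr 1
        refine Finset.sum_congr rfl fun y _ => ?_
        rw [Finset.sum_mul]
    _ ≤ a ^ 2 * ∑ y, b ^ 2 * ‖u y‖ ^ 2 := by
        refine mul_le_mul_of_nonneg_left (Finset.sum_le_sum fun y _ => ?_) (sq_nonneg _)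
        exact mul_le_mul_of_nonneg_right (hB y) (sq_nonneg _)
    _ = (a * b) ^ 2 * ∑ x, ‖u x‖ ^ 2 := by
        rw [← Finset.mul_sum]
        ring

theorem opLe_col {A : Matrix κ κ ℂ} {a : ℝ} (hA : OpLe A a) (y : κ) :
    ∑ x, ‖A x y‖ ^ 2 ≤ a ^ 2 := by
  classical
  have h1 := hA (Pi.single y 1)
  have h2 : ∀ x, (A *ᵥ (Pi.single y 1 : κ → ℂ)) x = A x y := by
    intro x
    simp
  have h3 : ∑ x, ‖(Pi.single y 1 : κ → ℂ) x‖ ^ 2 = 1 := by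
    rw [Finset.sum_eq_single y]
    · simp
    · intro b _ hb
      rw [Pi.single_eq_of_ne hb]
      simp
    · intro h
      exact absurd (Finset.mem_univ y) h
  simp only [h2, h3, mul_one] at h1
  exact h1

theorem opLe_row {A : Matrix κ κ ℂ} {a : ℝ} (ha : 0 ≤ a) (hA : OpLe A a) (x : κ) :
    ∑ y, ‖A x y‖ ^ 2 ≤ a ^ 2 := by
  have h := opLe_col (opLe_transpose ha hA) x
  simpa only [Matrix.transpose_apply] using h

theorem opLe_form {A : Matrix κ κ ℂ} {a : ℝ} (ha : 0 ≤ a) (hA : OpLe A a) (u v : κ → ℂ) :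
    ‖∑ x, star (u x) * (A *ᵥ v) x‖ ≤ a * √(∑ x, ‖u x‖ ^ 2) * √(∑ x, ‖v x‖ ^ 2) := by
  have h1 := opl_cs Finset.univ (fun x => star (u x)) (fun x => (A *ᵥ v) x)
  simp only [norm_star] at h1
  have h0 : 0 ≤ ∑ x, ‖u x‖ ^ 2 := Finset.sum_nonneg fun _ _ => sq_nonneg _
  have h0v : 0 ≤ ∑ x, ‖v x‖ ^ 2 := Finset.sum_nonneg fun _ _ => sq_nonneg _
  have h2 : ‖∑ x, star (u x) * (A *ᵥ v) x‖ ^ 2 ≤
      (a * √(∑ x, ‖u x‖ ^ 2) * √(∑ x, ‖v x‖ ^ 2)) ^ 2 := by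
    rw [mul_pow, mul_pow, Real.sq_sqrt h0, Real.sq_sqrt h0v]
    refine h1.trans ?_
    have := mul_le_mul_of_nonneg_left (hA v) h0
    nlinarith
  exact (abs_le_of_sq_le_sq' h2 (by positivity)).2

/-- rows of `u ↦ e_xᵀ A B`: `∑_y |(A B)_xy|² ≤ b² ∑_y |A_xy|²` -/
theorem opLe_row_mul {A B : Matrix κ κ ℂ} {b : ℝ} (hb : 0 ≤ b) (hB : OpLe B b) (x : κ) :
    ∑ y, ‖(A * B) x y‖ ^ 2 ≤ b ^ 2 * ∑ y, ‖A x y‖ ^ 2 := by
  have h := opLe_transpose hb hB (A x)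
  have h2 : ∀ y, (Bᵀ *ᵥ (A x)) y = (A * B) x y := by
    intro y
    rw [Matrix.mul_apply, Matrix.mulVec, dotProduct]
    exact Finset.sum_congr rfl fun k _ => by rw [Matrix.transpose_apply, mul_comm]
  simpa only [h2] using h

end Pool.Agent.APS
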