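import Pool.Agent.APS.Defs4
import Pool.Agent.Kin.Char

/-! # APS MULT: algebra of Fourier multipliers on the torus.

`mult φ (x,y) = N⁻¹ ∑_k φ(k) ch k (x-y)`.  `mult_mul`: `∑_z ch k (x-z) ch l (z-y) = N ch k (x-y)` if
`k = l`, else `0` (`sum_ch`, `ch_add_right`, `ch_neg_right`).  `mult_one`: `sum_ch`.
`mult_op`: Plancherel: with `uh(k) = ∑_y u(y) ch (-k) y`, `(mult φ u)^(k) = φ(k) uh(k)` and `parseval`.
`mult_norm`: `∑_x |(mult φ u)_x|² = N⁻¹ ∑_k |φ(k)|² |uh(k)|²`.
`le_of_mult_op`: apply to `u = ch k`.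
`mult_of_inv`: a translation invariant matrix is a multiplier: compare with the entries `(z, 0)` by
Fourier inversion (`sum_ch`).
`mult_P0`: symbol `1_{k=0}`.
-/

open Matrix Finset

noncomputable section

namespace Pool.Agent.APS

open Pool.Agent.Kin

variable {d L : ℕ} [NeZero L]

/-- Fourier transform -/
def hat (u : Tor d L → ℂ) (k : Tor d L) : ℂ := ∑ y, u y * star (ch k y)

private theorem mlt_N0 : ((L : ℂ) ^ d) ≠ 0 :=
  pow_ne_zero _ (Nat.cast_ne_zero.2 (NeZero.ne L))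

private theorem mlt_NR0 : (0 : ℝ) < (L : ℝ) ^ d :=
  pow_pos (Nat.cast_pos.2 (Nat.pos_of_ne_zero (NeZero.ne L))) _

private theorem mlt_apply (φ : Tor d L → ℂ) (x y : Tor d L) :
    mult φ x y = (1 / (L : ℂ) ^ d) * ∑ k : Tor d L, φ k * ch k (x - y) := rfl

private theorem mlt_sum (l : Tor d L) : ∑ z : Tor d L, ch l z = if l = 0 then (L : ℂ) ^ d else 0 := by
  rw [← sum_ch]
  exact Finset.sum_congr rfl fun z _ => ch_comm l z

private theorem mlt_ort (k l x y : Tor d L) : ∑ z : Tor d L, ch k (x - z) * ch l (z - y) =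
    if k = l then (L : ℂ) ^ d * ch k (x - y) else 0 := by
  have h1 : ∀ z : Tor d L, ch k (x - z) * ch l (z - y) = (ch k x * ch l (-y)) * ch (l - k) z := by
    intro z
    rw [sub_eq_add_neg x z, sub_eq_add_neg z y, sub_eq_add_neg l k, ch_add_right, ch_add_right,
      ch_add_left, ch_neg_right k z, ← ch_neg_left k z]
    ring
  simp only [h1, ← Finset.mul_sum, mlt_sum, sub_eq_zero]
  by_cases h : k = l
  · rw [if_pos h, if_pos h.symm, ← h, ← ch_add_right, ← sub_eq_add_neg]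
    ring
  · rw [if_neg h, if_neg (Ne.symm h), mul_zero]

theorem mult_mul (φ ψ : Tor d L → ℂ) : mult φ * mult ψ = mult fun k => φ k * ψ k := by
  ext x y
  rw [Matrix.mul_apply, mlt_apply]
  simp only [mlt_apply]
  have h1 : ∀ z : Tor d L, (1 / (L : ℂ) ^ d * ∑ k : Tor d L, φ k * ch k (x - z)) *
      (1 / (L : ℂ) ^ d * ∑ l : Tor d L, ψ l * ch l (z - y)) =
      ∑ k : Tor d L, ∑ l : Tor d L, (1 / (L : ℂ) ^ d * (1 / (L : ℂ) ^ d)) * (φ k * ψ l) *
        (ch k (x - z) * ch l (z - y)) := by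
    intro z
    rw [mul_mul_mul_comm, Finset.sum_mul_sum, Finset.mul_sum]
    refine Finset.sum_congr rfl fun k _ => ?_
    rw [Finset.mul_sum]
    exact Finset.sum_congr rfl fun l _ => by ring
  simp only [h1]
  rw [Finset.sum_comm, Finset.mul_sum]
  refine Finset.sum_congr rfl fun k _ => ?_
  rw [Finset.sum_comm]
  have h2 : ∀ l : Tor d L, ∑ z : Tor d L, (1 / (L : ℂ) ^ d * (1 / (L : ℂ) ^ d)) * (φ k * ψ l) *
        (ch k (x - z) * ch l (z - y)) = if k = l then
          (1 / (L : ℂ) ^ d * (1 / (L : ℂ) ^ d)) * (φ k * ψ l) * ((L : ℂ) ^ d * ch k (x - y))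
          else 0 := by
    intro l
    rw [← Finset.mul_sum, mlt_ort]
    split_ifs
    · rfl
    · rw [mul_zero]
  simp only [h2]
  rw [Finset.sum_ite_eq, if_pos (Finset.mem_univ k)]
  have := mlt_N0 (d := d) (L := L)
  field_simp

theorem mult_one : mult (fun _ : Tor d L => (1 : ℂ)) = 1 := by
  ext x y
  rw [mlt_apply]
  simp only [one_mul, sum_ch, sub_eq_zero, Matrix.one_apply]
  split_ifs
  · exact one_div_mul_cancel mlt_N0
  · rw [mul_zero]

theorem mult_zero : mult (fun _ : Tor d L => (0 : ℂ)) = 0 := by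
  ext x y
  rw [mlt_apply]
  simp

theorem mult_add (φ ψ : Tor d L → ℂ) : mult φ + mult ψ = mult fun k => φ k + ψ k := by
  ext x y
  rw [Matrix.add_apply, mlt_apply, mlt_apply, mlt_apply]
  simp only [add_mul, Finset.sum_add_distrib, mul_add]

theorem mult_sub (φ ψ : Tor d L → ℂ) : mult φ - mult ψ = mult fun k => φ k - ψ k := by
  ext x y
  rw [Matrix.sub_apply, mlt_apply, mlt_apply, mlt_apply]
  simp only [sub_mul, Finset.sum_sub_distrib, mul_sub]

theorem mult_smul (c : ℂ) (φ : Tor d L → ℂ) : c • mult φ = mult fun k => c * φ k := by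
  ext x y
  rw [Matrix.smul_apply, mlt_apply, mlt_apply, smul_eq_mul]
  simp only [mul_assoc, ← Finset.mul_sum]
  ring

theorem mult_ct (φ : Tor d L → ℂ) : (mult φ)ᴴ = mult fun k => star (φ k) := by
  ext x y
  rw [Matrix.conjTranspose_apply, mlt_apply, mlt_apply, star_mul', star_sum]
  congr 1
  · simp
  · refine Finset.sum_congr rfl fun k _ => ?_
    rw [star_mul', ← ch_neg_right, neg_sub]

theorem multR_herm (φ : Tor d L → ℝ) : (multR φ)ᴴ = multR φ := by
  rw [multR, mult_ct]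
  congr 1
  funext k
  exact Complex.conj_ofReal _

theorem mult_comm (φ ψ : Tor d L → ℂ) : mult φ * mult ψ = mult ψ * mult φ := by
  rw [mult_mul, mult_mul]
  congr 1
  funext k
  ring

theorem mult_P0 : P0m d L = mult fun k : Tor d L => if k = 0 then 1 else 0 := by
  ext x y
  rw [mlt_apply]
  simp only [ite_mul, one_mul, zero_mul]
  rw [Finset.sum_ite_eq' Finset.univ (0 : Tor d L), if_pos (Finset.mem_univ _), ch_zero_left,
    mul_one]
  show 1 / (Fintype.card (Tor d L) : ℂ) = _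
  rw [Fintype.card_fun, ZMod.card, Fintype.card_fin]
  push_cast
  rfl

theorem hat_mult (φ : Tor d L → ℂ) (u : Tor d L → ℂ) (k : Tor d L) :
    hat (mult φ *ᵥ u) k = φ k * hat u k := by
  have h1 : hat (mult φ *ᵥ u) k = ∑ y : Tor d L, ∑ l : Tor d L, (1 / (L : ℂ) ^ d * (φ l * u y)) *
      ∑ x : Tor d L, ch k (0 - x) * ch l (x - y) := by
    simp only [hat, Matrix.mulVec, dotProduct, mlt_apply, Finset.sum_mul, Finset.mul_sum]
    rw [Finset.sum_comm]
    refine Finset.sum_congr rfl fun y _ => ?_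
    rw [Finset.sum_comm]
    refine Finset.sum_congr rfl fun l _ => ?_
    refine Finset.sum_congr rfl fun x _ => ?_
    rw [zero_sub, ch_neg_right]
    ring
  rw [h1, hat, Finset.mul_sum]
  refine Finset.sum_congr rfl fun y _ => ?_
  simp only [mlt_ort, mul_ite, mul_zero]
  rw [Finset.sum_ite_eq, if_pos (Finset.mem_univ k), zero_sub, ch_neg_right]
  have := mlt_N0 (d := d) (L := L)
  field_simp

theorem hat_inv (u : Tor d L → ℂ) (x : Tor d L) :
    u x = (1 / (L : ℂ) ^ d) * ∑ k : Tor d L, hat u k * ch k x := by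
  have h1 : ∑ k : Tor d L, hat u k * ch k x = ∑ y : Tor d L, u y * ∑ k : Tor d L, ch k (x - y) := by
    simp only [hat, Finset.sum_mul, Finset.mul_sum]
    rw [Finset.sum_comm]
    refine Finset.sum_congr rfl fun y _ => Finset.sum_congr rfl fun k _ => ?_
    rw [sub_eq_add_neg, ch_add_right, ch_neg_right]
    ring
  rw [h1]
  simp only [sum_ch, sub_eq_zero, mul_ite, mul_zero]
  rw [Finset.sum_ite_eq, if_pos (Finset.mem_univ x)]
  have := mlt_N0 (d := d) (L := L)
  field_simp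

theorem hat_parseval (u : Tor d L → ℂ) :
    ∑ k : Tor d L, ‖hat u k‖ ^ 2 = (L : ℝ) ^ d * ∑ x, ‖u x‖ ^ 2 := by
  rw [← parseval u, ← Equiv.sum_comp (Equiv.neg (Tor d L))]
  refine Finset.sum_congr rfl fun k _ => ?_
  rw [hat, Equiv.neg_apply]
  congr 2
  refine Finset.sum_congr rfl fun y _ => ?_
  rw [ch_neg_left, star_star]

theorem mult_norm (φ : Tor d L → ℂ) (u : Tor d L → ℂ) :
    ∑ x, ‖(mult φ *ᵥ u) x‖ ^ 2 = (1 / (L : ℝ) ^ d) * ∑ k : Tor d L, ‖φ k‖ ^ 2 * ‖hat u k‖ ^ 2 := by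
  have h1 := hat_parseval (mult φ *ᵥ u)
  simp only [hat_mult, norm_mul, mul_pow] at h1
  rw [h1, ← mul_assoc, one_div_mul_cancel mlt_NR0.ne', one_mul]

theorem mult_op (φ : Tor d L → ℂ) (b : ℝ) (hb : ∀ k, ‖φ k‖ ≤ b) : OpLe (mult φ) b := by
  intro u
  have h0 : ∀ k, ‖φ k‖ ^ 2 ≤ b ^ 2 := fun k => pow_le_pow_left₀ (norm_nonneg _) (hb k) 2
  have hN : (0 : ℝ) ≤ 1 / (L : ℝ) ^ d := one_div_nonneg.2 mlt_NR0.le
  rw [mult_norm]
  calc 1 / (L : ℝ) ^ d * ∑ k : Tor d L, ‖φ k‖ ^ 2 * ‖hat u k‖ ^ 2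
      ≤ 1 / (L : ℝ) ^ d * ∑ k : Tor d L, b ^ 2 * ‖hat u k‖ ^ 2 := by
        refine mul_le_mul_of_nonneg_left (Finset.sum_le_sum fun k _ => ?_) hN
        exact mul_le_mul_of_nonneg_right (h0 k) (sq_nonneg _)
    _ = b ^ 2 * ∑ x, ‖u x‖ ^ 2 := by
        rw [← Finset.mul_sum, hat_parseval]
        have := (mlt_NR0 (d := d) (L := L)).ne'
        field_simp

theorem le_of_mult_op (φ : Tor d L → ℂ) (b : ℝ) (hb0 : 0 ≤ b) (hb : OpLe (mult φ) b)
    (k : Tor d L) : ‖φ k‖ ≤ b := by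
  have h1 : ∀ x, (mult φ *ᵥ (ch k)) x = φ k * ch k x := by
    intro x
    have h2 : (mult φ *ᵥ (ch k)) x = ∑ l : Tor d L, (1 / (L : ℂ) ^ d * φ l) *
        ∑ y : Tor d L, ch l (x - y) * ch k (y - 0) := by
      simp only [Matrix.mulVec, dotProduct, mlt_apply, Finset.sum_mul, Finset.mul_sum]
      rw [Finset.sum_comm]
      refine Finset.sum_congr rfl fun l _ => Finset.sum_congr rfl fun y _ => ?_
      rw [sub_zero]
      ring
    rw [h2]
    simp only [mlt_ort, mul_ite, mul_zero]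
    rw [Finset.sum_ite_eq' Finset.univ k, if_pos (Finset.mem_univ k), sub_zero]
    have := mlt_N0 (d := d) (L := L)
    field_simp
  have h2 := hb (ch k)
  simp only [h1, norm_mul, ch_norm, mul_one, one_pow] at h2
  rw [Finset.sum_const, Finset.sum_const, nsmul_eq_mul, nsmul_eq_mul, mul_one] at h2
  have hc : (0 : ℝ) < (Finset.univ : Finset (Tor d L)).card :=
    Nat.cast_pos.2 (Finset.card_pos.2 Finset.univ_nonempty)
  rw [mul_comm] at h2
  have h3 := le_of_mul_le_mul_right h2 hc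
  exact abs_le_of_sq_le_sq' h3 hb0 |>.2

/-- a convolution matrix is a multiplier -/
theorem mult_of_conv (f : Tor d L → ℂ) :
    (fun x y => f (x - y) : Matrix (Tor d L) (Tor d L) ℂ) =
      mult fun k => ∑ z, f z * star (ch k z) := by
  funext x y
  rw [mlt_apply]
  exact hat_inv f (x - y)

theorem mult_hasDeriv (φ φ' : ℝ → Tor d L → ℂ) (r : ℝ)
    (h : ∀ k, HasDerivAt (fun r => φ r k) (φ' r k) r) (x y : Tor d L) :
    HasDerivAt (fun r => mult (φ r) x y) (mult (φ' r) x y) r := by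
  simp only [mlt_apply]
  exact (HasDerivAt.fun_sum fun k _ => (h k).mul_const _).const_mul _

theorem mult_cont (φ : ℝ → Tor d L → ℂ) (I : Set ℝ) (h : ∀ k, ContinuousOn (fun r => φ r k) I)
    (x y : Tor d L) : ContinuousOn (fun r => mult (φ r) x y) I := by
  simp only [mlt_apply]
  exact continuousOn_const.mul (continuousOn_finsetSum _ fun k _ => (h k).mul continuousOn_const)

end Pool.Agent.APS
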