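import Mathlib

/-! # APS ASYM: choice of the moment `p` (pure real analysis).

`ℓ = log(1/λ) → ∞`.  `b' = (1 + b)/2 ∈ (b, 1)`, `p = ⌈ℓ^b'⌉₊` (so `ℓ^b' ≤ p ≤ 2 ℓ^b'`, `p ≥ 2`).
* `C0 p⁴ λ^(1/80) ≤ λ^(1/160)`: `C0 ℓ⁴ e^(-ℓ/160) → 0`.
* `p (λ^(1/20))^(1/p) = p exp(-ℓ/(20 p)) ≤ 2 ℓ^b' exp(-ℓ^(1-b')/40) ≤ 1`.
* exponent: `C0 (ℓ^(1+b) + p²) - p ℓ/160 ≤ 5 C0 ℓ^(1+b) - ℓ^(1+b')/160 ≤ -ℓ^(1+b)` for large `ℓ`
  since `2b' = 1 + b` and `b < b'`.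
-/

open Real Filter

noncomputable section

namespace Pool.Agent.APS

private lemma asym_ev (b C0 : ℝ) (hb0 : 0 < b) (hb1 : b < 1) (hC0 : 1 ≤ C0) :
    ∀ᶠ l : ℝ in atTop, 1 < l ∧ 16 * C0 * l ^ 4 ≤ exp (l / 160) ∧
      2 * l ^ ((1 + b) / 2) ≤ exp (l ^ (1 - (1 + b) / 2) / 40) ∧
      160 * (5 * C0 + 1) ≤ l ^ ((1 - b) / 2) := by
  have h1 : ∀ᶠ l : ℝ in atTop, 1 < l := eventually_gt_atTop 1
  have h2 : ∀ᶠ l : ℝ in atTop, 16 * C0 * l ^ 4 ≤ exp (l / 160) := by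
    have e := isLittleO_pow_exp_pos_mul_atTop 4 (b := 1 / 160) (by norm_num)
    have e2 := e.def (c := 1 / (16 * C0)) (by positivity)
    filter_upwards [e2, h1] with l hl hl1
    rw [Real.norm_of_nonneg (by positivity), Real.norm_of_nonneg (exp_pos _).le] at hl
    have e3 : exp (l / 160) = exp (1 / 160 * l) := by ring_nf
    rw [e3]
    calc 16 * C0 * l ^ 4 ≤ 16 * C0 * (1 / (16 * C0) * exp (1 / 160 * l)) :=
          mul_le_mul_of_nonneg_left hl (by positivity)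
      _ = exp (1 / 160 * l) := by
          field_simp
  have h3 : ∀ᶠ l : ℝ in atTop, 2 * l ^ ((1 + b) / 2) ≤ exp (l ^ (1 - (1 + b) / 2) / 40) := by
    have e := isLittleO_rpow_exp_pos_mul_atTop (((1 + b) / 2) / (1 - (1 + b) / 2)) (b := 1 / 40)
      (by norm_num)
    have e2 := e.def (c := 1 / 2) (by norm_num)
    have e3 : Tendsto (fun l : ℝ => l ^ (1 - (1 + b) / 2)) atTop atTop :=
      tendsto_rpow_atTop (by linarith)
    filter_upwards [e3.eventually e2, h1] with l hl hl1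
    have h0 : (0 : ℝ) < l := by linarith
    have e4 : (l ^ (1 - (1 + b) / 2)) ^ (((1 + b) / 2) / (1 - (1 + b) / 2)) =
        l ^ ((1 + b) / 2) := by
      rw [← rpow_mul h0.le]
      congr 1
      rw [mul_div_cancel₀]
      linarith
    rw [e4, Real.norm_of_nonneg (by positivity), Real.norm_of_nonneg (exp_pos _).le] at hl
    have e5 : exp (l ^ (1 - (1 + b) / 2) / 40) = exp (1 / 40 * l ^ (1 - (1 + b) / 2)) := by
      ring_nf
    rw [e5]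
    linarith
  have h4 : ∀ᶠ l : ℝ in atTop, 160 * (5 * C0 + 1) ≤ l ^ ((1 - b) / 2) :=
    (tendsto_rpow_atTop (by linarith)).eventually_ge_atTop _
  filter_upwards [h1, h2, h3, h4] with l a1 a2 a3 a4
  exact ⟨a1, a2, a3, a4⟩

theorem asym (b C0 : ℝ) (hb0 : 0 < b) (hb1 : b < 1) (hC0 : 1 ≤ C0) :
    ∃ lam0 : ℝ, 0 < lam0 ∧ lam0 ≤ 1 / 3 ∧ ∀ lam : ℝ, 0 < lam → lam ≤ lam0 → ∃ p : ℕ, 2 ≤ p ∧
      C0 * (p : ℝ) ^ 4 * lam ^ (1 / 80 : ℝ) ≤ lam ^ (1 / 160 : ℝ) ∧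
      (p : ℝ) * (lam ^ (1 / 20 : ℝ)) ^ (1 / (p : ℝ)) ≤ 1 ∧
      exp (C0 * (log (1 / lam) ^ (1 + b) + (p : ℝ) ^ 2)) * (lam ^ (1 / 160 : ℝ)) ^ p ≤
        exp (-(log (1 / lam) ^ (1 + b))) := by
  obtain ⟨L0, hL0⟩ := eventually_atTop.1 (asym_ev b C0 hb0 hb1 hC0)
  refine ⟨min (exp (-L0)) (1 / 3), lt_min (exp_pos _) (by norm_num), min_le_right _ _, ?_⟩
  intro lam hlam hle
  have hl1 : lam ≤ exp (-L0) := hle.trans (min_le_left _ _)
  obtain ⟨l, hl⟩ : ∃ l, l = log (1 / lam) := ⟨_, rfl⟩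
  have hlam_eq : lam = exp (-l) := by
    rw [hl, one_div, log_inv, neg_neg, exp_log hlam]
  have hL : L0 ≤ l := by
    rw [hlam_eq] at hl1
    have := exp_le_exp.1 hl1
    linarith
  obtain ⟨a1, a2, a3, a4⟩ := hL0 l hL
  rw [← hl]
  have hl0 : 0 < l := by linarith
  obtain ⟨c, hc⟩ : ∃ c, c = (1 + b) / 2 := ⟨_, rfl⟩
  rw [← hc] at a3
  have hc0 : 0 < c := by rw [hc]; linarith
  have hc1 : c < 1 := by rw [hc]; linarith
  have hlc : 1 < l ^ c := one_lt_rpow a1 hc0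
  have hp1 : l ^ c ≤ (⌈l ^ c⌉₊ : ℝ) := Nat.le_ceil _
  have hp2 : (⌈l ^ c⌉₊ : ℝ) ≤ 2 * l ^ c := by
    have := (Nat.ceil_lt_add_one (by positivity : 0 ≤ l ^ c)).le
    linarith
  have hp3 : 2 ≤ ⌈l ^ c⌉₊ := by
    have : (1 : ℝ) < (⌈l ^ c⌉₊ : ℝ) := by linarith
    have h2 : 1 < ⌈l ^ c⌉₊ := by exact_mod_cast this
    exact h2
  obtain ⟨p, hp⟩ : ∃ p, p = ⌈l ^ c⌉₊ := ⟨_, rfl⟩
  rw [← hp] at hp1 hp2 hp3
  have hp0 : (0 : ℝ) < p := by linarith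
  have hpow : ∀ s : ℝ, lam ^ s = exp (-(s * l)) := by
    intro s
    rw [hlam_eq, ← exp_mul]
    ring_nf
  have hlcl : l ^ c ≤ l := by
    calc l ^ c ≤ l ^ (1 : ℝ) := rpow_le_rpow_of_exponent_le a1.le hc1.le
      _ = l := rpow_one l
  refine ⟨p, hp3, ?_, ?_, ?_⟩
  · rw [hpow, hpow]
    have e1 : (p : ℝ) ^ 4 ≤ 16 * l ^ 4 := by
      calc (p : ℝ) ^ 4 ≤ (2 * l) ^ 4 := pow_le_pow_left₀ hp0.le (by linarith) 4
        _ = 16 * l ^ 4 := by ring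
    have e2 : C0 * (p : ℝ) ^ 4 ≤ exp (l / 160) := by
      calc C0 * (p : ℝ) ^ 4 ≤ C0 * (16 * l ^ 4) := mul_le_mul_of_nonneg_left e1 (by linarith)
        _ = 16 * C0 * l ^ 4 := by ring
        _ ≤ _ := a2
    calc C0 * (p : ℝ) ^ 4 * exp (-(1 / 80 * l)) ≤ exp (l / 160) * exp (-(1 / 80 * l)) :=
          mul_le_mul_of_nonneg_right e2 (exp_pos _).le
      _ = exp (-(1 / 160 * l)) := by
          rw [← exp_add]
          ring_nf
  · rw [hpow, ← exp_mul]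
    have e1 : l ^ (1 - c) / 40 ≤ 1 / 20 * l * (1 / p) := by
      have e2 : l ^ (1 - c) = l / l ^ c := by
        rw [rpow_sub hl0, rpow_one]
      rw [e2]
      have e3 : l / l ^ c / 40 = 1 / 20 * l * (1 / (2 * l ^ c)) := by
        field_simp
        norm_num
      rw [e3]
      refine mul_le_mul_of_nonneg_left ?_ (by positivity)
      exact one_div_le_one_div_of_le hp0 hp2
    have e4 : (p : ℝ) ≤ exp (1 / 20 * l * (1 / p)) :=
      (hp2.trans a3).trans (exp_le_exp.2 e1)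
    calc (p : ℝ) * exp (-(1 / 20 * l) * (1 / p)) ≤
          exp (1 / 20 * l * (1 / p)) * exp (-(1 / 20 * l) * (1 / p)) :=
          mul_le_mul_of_nonneg_right e4 (exp_pos _).le
      _ = 1 := by
          rw [← exp_add]
          ring_nf
          exact exp_zero
  · rw [hpow, ← exp_nat_mul, ← exp_add]
    apply exp_le_exp.2
    have e1 : (p : ℝ) ^ 2 ≤ 4 * l ^ (1 + b) := by
      calc (p : ℝ) ^ 2 ≤ (2 * l ^ c) ^ 2 := pow_le_pow_left₀ hp0.le hp2 2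
        _ = 4 * (l ^ c * l ^ c) := by ring
        _ = 4 * l ^ (1 + b) := by
            rw [← rpow_add hl0, hc]
            ring_nf
    have e2 : l ^ (1 + b) * (160 * (5 * C0 + 1)) ≤ p * l := by
      calc l ^ (1 + b) * (160 * (5 * C0 + 1)) ≤ l ^ (1 + b) * l ^ ((1 - b) / 2) :=
            mul_le_mul_of_nonneg_left a4 (by positivity)
        _ = l ^ c * l := by
            rw [← rpow_add hl0]
            nth_rewrite 3 [← rpow_one l]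
            rw [← rpow_add hl0, hc]
            ring_nf
        _ ≤ p * l := mul_le_mul_of_nonneg_right hp1 hl0.le
    have e3 : C0 * (p : ℝ) ^ 2 ≤ C0 * (4 * l ^ (1 + b)) :=
      mul_le_mul_of_nonneg_left e1 (by linarith)
    nlinarith [e2, e3]

end Pool.Agent.APS
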