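import Pool.Agent.APS.Flow4

/-! # APS B4BD: the source constant `B4` is at most `256 N² q^p` if all bases are at most `q`.

`Bg ≤ 2 N q^p`, `BT ≤ 2 N q^p`, `BH ≤ 8 N q^p`, `BO ≤ 2 N² q^p`, `BF ≤ 2 N q^p` (`X^(2p) = (X²)^p`,
`X^(4p)/tau^p = (X⁴/tau)^p`), times `16`. -/

open Finset

noncomputable section

namespace Pool.Agent.APS

theorem B4_le (N C1 K lam a tau y dl kap CH ep1 q : ℝ) (p : ℕ) (hN : 1 ≤ N) (hC1 : 1 ≤ C1)
    (hK : 0 ≤ K) (hlam : 0 < lam) (ha : 0 < a) (htau : 0 < tau) (hy : 0 < y) (hdl : 0 < dl)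
    (hkap : 0 ≤ kap) (hCH : 0 ≤ CH) (hep : 0 ≤ ep1)
    (h1 : 20 * p ^ 2 * C1 ^ 2 * tau / a ^ 2 ≤ q) (h2 : (12 * p * C1 ^ 3 * lam / a) ^ 2 ≤ q)
    (h3 : 200 * p ^ 2 * C1 ^ 5 * ep1 / tau ≤ q)
    (h4 : (40 * p * C1 ^ 3 * (a + lam)) ^ 4 / tau ≤ q)
    (h5 : (60 * p * C1 ^ 3 * (a + lam) / y) ^ 2 ≤ q)
    (h6 : (30 * p * C1 ^ 2 * √√tau / y) ^ 2 ≤ q)
    (h7 : (12 * p * C1 ^ 3 * (a + lam)) ^ 2 ≤ q) (h8 : 20 * p ^ 2 * C1 ^ 2 * tau ≤ q)
    (h9 : (1000 * p * C1 ^ 3 * (a + lam) / dl) ^ 2 ≤ q)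
    (h10 : 10000 * p ^ 2 * C1 ^ 4 * (1 + CH) * (kap + √tau + (1 + kap) * (1 + K) * lam ^ 2) /
      dl ^ 2 ≤ q) :
    B4 N C1 K lam a tau y dl kap CH ep1 p ≤ 256 * N ^ 2 * q ^ p := by
  have hq : 0 ≤ q := (sq_nonneg _).trans h2
  have hN0 : 0 ≤ N := by linarith
  have hC0 : 0 ≤ C1 := by linarith
  have e1 : (20 * p ^ 2 * C1 ^ 2 * tau / a ^ 2) ^ p ≤ q ^ p :=
    pow_le_pow_left₀ (by positivity) h1 p
  have e2 : (12 * p * C1 ^ 3 * lam / a) ^ (2 * p) ≤ q ^ p := by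
    rw [pow_mul]
    exact pow_le_pow_left₀ (by positivity) h2 p
  have e3 : (200 * p ^ 2 * C1 ^ 5 * ep1 / (1 * tau)) ^ p ≤ q ^ p := by
    rw [one_mul]
    exact pow_le_pow_left₀ (by positivity) h3 p
  have e4 : (40 * p * C1 ^ 3 * (a + lam)) ^ (4 * p) / tau ^ p ≤ q ^ p := by
    rw [pow_mul, ← div_pow]
    exact pow_le_pow_left₀ (by positivity) h4 p
  have e5 : (60 * p * C1 ^ 3 * (a + lam) / y) ^ (2 * p) ≤ q ^ p := by
    rw [pow_mul]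
    exact pow_le_pow_left₀ (by positivity) h5 p
  have e6 : (30 * p * C1 ^ 2 * √√tau / y) ^ (2 * p) ≤ q ^ p := by
    rw [pow_mul]
    exact pow_le_pow_left₀ (by positivity) h6 p
  have e7 : (12 * p * C1 ^ 3 * (a + lam)) ^ (2 * p) ≤ q ^ p := by
    rw [pow_mul]
    exact pow_le_pow_left₀ (by positivity) h7 p
  have e8 : (20 * p ^ 2 * C1 ^ 2 * tau) ^ p ≤ q ^ p :=
    pow_le_pow_left₀ (by positivity) h8 p
  have e9 : (1000 * p * C1 ^ 3 * (a + lam) / dl) ^ (2 * p) ≤ q ^ p := by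
    rw [pow_mul]
    exact pow_le_pow_left₀ (by positivity) h9 p
  have e10 : (10000 * p ^ 2 * C1 ^ 4 * (1 + CH) *
      (kap + √tau + (1 + kap) * (1 + K) * lam ^ 2) / dl ^ 2) ^ p ≤ q ^ p :=
    pow_le_pow_left₀ (by positivity) h10 p
  have f1 : Bg N C1 lam a tau 1 p ≤ N * (2 * q ^ p) := by
    unfold Bg
    rw [div_one, one_pow, mul_one]
    exact mul_le_mul_of_nonneg_left (by linarith) hN0
  have f2 : BT N C1 lam a tau ep1 1 1 p ≤ N * (2 * q ^ p) := by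
    unfold BT
    rw [div_one, one_pow, mul_one]
    exact mul_le_mul_of_nonneg_left (by linarith) hN0
  have f3 : BH N C1 lam a tau y 1 p ≤ 4 * N * (2 * q ^ p) := by
    unfold BH
    rw [div_one, one_pow, mul_one]
    exact mul_le_mul_of_nonneg_left (by linarith) (by positivity)
  have f4 : BO N C1 lam a tau p ≤ N ^ 2 * (2 * q ^ p) := by
    unfold BO
    exact mul_le_mul_of_nonneg_left (by linarith) (by positivity)
  have f5 : BF N C1 K lam a tau kap CH dl p ≤ N * (2 * q ^ p) := by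
    unfold BF
    exact mul_le_mul_of_nonneg_left (by linarith) hN0
  have hNN : N * q ^ p ≤ N ^ 2 * q ^ p := by
    apply mul_le_mul_of_nonneg_right _ (by positivity)
    nlinarith
  unfold B4
  linarith

end Pool.Agent.APS
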