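import Pool.Agent.APS.Defs2
import Pool.Agent.Kin.Res

/-! # APS CFGB: consequences of the bounds `Cfg` at one configuration (Ward identity).

`G = G_r(h)`, `et = η_r = Im z_r`.  Ward (`Kin.ward_row`): `∑_y |G_xy|² = Im G_xx / et`, and
`Im G_xx ≤ Im g0 + a`, `|G_xx| ≤ |g0| + a ≤ C1` (`a ≤ 1`, `‖g0‖ + 1 ≤ C1`).
`‖G‖ ≤ 1/et` (`Kin.res_norm`).  `S`, `R` symmetric with row sums of absolute values at most
`Im G_xx/et` (`opLe_schur`).  Rows of `G diag(c) G`: `e_xᵀ G` has norm² `≤ C1/et`, `diag(c)`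
contributes `b²`, `G` contributes `1/et²` (`opLe_row_mul`, `opLe_diagonal`).
Entries: `|(G diag(c) G)_xy| = |∑_w G_xw c_w G_wy| ≤ b C1/et` (Cauchy-Schwarz).
Products: `opLe_had` with `a² = b² C1/et³` (rows) and `b² = C1/et` (columns of `G`):
`√(b² C1/et³) √(C1/et) = b C1/et²`.
-/

open Matrix Finset

noncomputable section

namespace Pool.Agent.APS

open Pool.Agent.Kin

variable {ι : Type} [Fintype ι] [DecidableEq ι] {D : Fl ι} {C1 a tau r : ℝ} {h : ι → ℝ}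

private lemma cfgb_im (D : Fl ι) (r : ℝ) : (D.zr r).im = D.et r := by
  unfold Fl.zr Fl.et
  rw [Complex.add_im, Complex.im_ofReal_mul]

private lemma cfgb_pos (hc : D.Cfg C1 a tau r h) : 0 < (D.zr r).im := by
  rw [cfgb_im]
  exact hc.et0

theorem Fl.Cfg.symm (hc : D.Cfg C1 a tau r h) (x y : ι) : D.G r h x y = D.G r h y x :=
  res_symm hc.sym (cfgb_pos hc) h x y

theorem Fl.Cfg.one_le (hc : D.Cfg C1 a tau r h) : 1 ≤ C1 := by
  have := hc.C1b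
  have := norm_nonneg D.g0
  linarith

theorem Fl.Cfg.diag (hc : D.Cfg C1 a tau r h) (x : ι) : ‖D.G r h x x‖ ≤ C1 := by
  have h1 := hc.g x
  have h2 : ‖D.G r h x x‖ ≤ ‖D.G r h x x - D.g0‖ + ‖D.g0‖ := by
    have := norm_add_le (D.G r h x x - D.g0) D.g0
    rwa [sub_add_cancel] at this
  have h3 := hc.C1b
  have h4 := hc.a1
  linarith

private lemma cfgb_ward (hc : D.Cfg C1 a tau r h) (x : ι) :
    ∑ y, ‖D.G r h x y‖ ^ 2 = (D.G r h x x).im / D.et r := by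
  have := ward_row hc.sym (cfgb_pos hc) h x
  rw [cfgb_im] at this
  exact this

theorem Fl.Cfg.row (hc : D.Cfg C1 a tau r h) (x : ι) :
    ∑ y, ‖D.G r h x y‖ ^ 2 ≤ C1 / D.et r := by
  rw [cfgb_ward hc]
  refine div_le_div_of_nonneg_right ?_ hc.et0.le
  exact ((le_abs_self _).trans (Complex.abs_im_le_norm _)).trans (hc.diag x)

theorem Fl.Cfg.row' (hc : D.Cfg C1 a tau r h) (x : ι) :
    ∑ y, ‖D.G r h x y‖ ^ 2 ≤ (D.g0.im + a) / D.et r := by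
  rw [cfgb_ward hc]
  refine div_le_div_of_nonneg_right ?_ hc.et0.le
  have h1 : (D.G r h x x - D.g0).im ≤ a :=
    ((le_abs_self _).trans (Complex.abs_im_le_norm _)).trans (hc.g x)
  rw [Complex.sub_im] at h1
  linarith

theorem Fl.Cfg.G_op (hc : D.Cfg C1 a tau r h) : OpLe (D.G r h) (1 / D.et r) := by
  intro u
  have := res_norm hc.sym (cfgb_pos hc) h u
  rw [cfgb_im] at this
  exact this

private lemma cfgb_schur (hc : D.Cfg C1 a tau r h) {c : ℝ}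
    (h1 : ∀ x, ∑ y, ‖D.G r h x y‖ ^ 2 ≤ c) (A : Matrix ι ι ℂ)
    (hA : ∀ x y, ‖A x y‖ = ‖D.G r h x y‖ ^ 2) : OpLe A c := by
  refine opLe_schur (fun x => ?_) (fun y => ?_)
  · simp only [hA]
    exact h1 x
  · simp only [hA]
    refine le_trans (le_of_eq ?_) (h1 y)
    exact Finset.sum_congr rfl fun x _ => by rw [hc.symm x y]

private lemma cfgb_nS (D : Fl ι) (r : ℝ) (h : ι → ℝ) (x y : ι) :
    ‖D.SO.f r h x y‖ = ‖D.G r h x y‖ ^ 2 := by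
  show ‖((‖D.G r h x y‖ ^ 2 : ℝ) : ℂ)‖ = _
  rw [Complex.norm_real, Real.norm_of_nonneg (sq_nonneg _)]

private lemma cfgb_nR (D : Fl ι) (r : ℝ) (h : ι → ℝ) (x y : ι) :
    ‖D.RO.f r h x y‖ = ‖D.G r h x y‖ ^ 2 := by
  show ‖D.G r h x y ^ 2‖ = _
  rw [norm_pow]

theorem Fl.Cfg.S_op (hc : D.Cfg C1 a tau r h) : OpLe (D.SO.f r h) (C1 / D.et r) :=
  cfgb_schur hc hc.row _ (cfgb_nS D r h)

theorem Fl.Cfg.S_op' (hc : D.Cfg C1 a tau r h) :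
    OpLe (D.SO.f r h) ((D.g0.im + a) / D.et r) :=
  cfgb_schur hc hc.row' _ (cfgb_nS D r h)

theorem Fl.Cfg.R_op (hc : D.Cfg C1 a tau r h) : OpLe (D.RO.f r h) (C1 / D.et r) :=
  cfgb_schur hc hc.row _ (cfgb_nR D r h)

theorem Fl.Cfg.gcg_row (hc : D.Cfg C1 a tau r h) {c : ι → ℂ} {b : ℝ} (hb0 : 0 ≤ b)
    (hb : ∀ w, ‖c w‖ ≤ b) (x : ι) :
    ∑ y, ‖D.gcg c r h x y‖ ^ 2 ≤ b ^ 2 * C1 / D.et r ^ 3 := by
  have het := hc.et0
  have h1 : ∑ y, ‖(D.G r h * diagonal c * D.G r h) x y‖ ^ 2 ≤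
      (1 / D.et r) ^ 2 * ∑ y, ‖(D.G r h * diagonal c) x y‖ ^ 2 :=
    opLe_row_mul (by positivity) hc.G_op x
  have h2 : ∑ y, ‖(D.G r h * diagonal c) x y‖ ^ 2 ≤ b ^ 2 * (C1 / D.et r) := by
    calc ∑ y, ‖(D.G r h * diagonal c) x y‖ ^ 2 ≤ ∑ y, b ^ 2 * ‖D.G r h x y‖ ^ 2 := by
          refine Finset.sum_le_sum fun y _ => ?_
          rw [Matrix.mul_diagonal, norm_mul, mul_pow, mul_comm]
          exact mul_le_mul_of_nonneg_right (pow_le_pow_left₀ (norm_nonneg _) (hb y) 2)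
            (sq_nonneg _)
      _ = b ^ 2 * ∑ y, ‖D.G r h x y‖ ^ 2 := (Finset.mul_sum _ _ _).symm
      _ ≤ _ := mul_le_mul_of_nonneg_left (hc.row x) (sq_nonneg _)
  calc ∑ y, ‖D.gcg c r h x y‖ ^ 2 ≤ (1 / D.et r) ^ 2 * ∑ y, ‖(D.G r h * diagonal c) x y‖ ^ 2 := h1
    _ ≤ (1 / D.et r) ^ 2 * (b ^ 2 * (C1 / D.et r)) := mul_le_mul_of_nonneg_left h2 (sq_nonneg _)
    _ = b ^ 2 * C1 / D.et r ^ 3 := by
        field_simp

private lemma cfgb_gcg (D : Fl ι) (c : ι → ℂ) (r : ℝ) (h : ι → ℝ) (x y : ι) :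
    D.gcg c r h x y = ∑ w, D.G r h x w * c w * D.G r h w y := by
  unfold Fl.gcg
  rw [Matrix.mul_apply]
  refine Finset.sum_congr rfl fun w _ => ?_
  rw [Matrix.mul_diagonal]

theorem Fl.Cfg.gcg_entry (hc : D.Cfg C1 a tau r h) {c : ι → ℂ} {b : ℝ} (hb0 : 0 ≤ b)
    (hb : ∀ w, ‖c w‖ ≤ b) (x y : ι) : ‖D.gcg c r h x y‖ ≤ b * C1 / D.et r := by
  rw [cfgb_gcg]
  calc ‖∑ w, D.G r h x w * c w * D.G r h w y‖ ≤ ∑ w, ‖D.G r h x w * c w * D.G r h w y‖ :=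
        norm_sum_le _ _
    _ ≤ ∑ w, b * ((‖D.G r h x w‖ ^ 2 + ‖D.G r h y w‖ ^ 2) / 2) := by
        refine Finset.sum_le_sum fun w _ => ?_
        rw [norm_mul, norm_mul, hc.symm w y]
        have h1 : ‖D.G r h x w‖ * ‖D.G r h y w‖ ≤
            (‖D.G r h x w‖ ^ 2 + ‖D.G r h y w‖ ^ 2) / 2 := by
          nlinarith [sq_nonneg (‖D.G r h x w‖ - ‖D.G r h y w‖)]
        calc ‖D.G r h x w‖ * ‖c w‖ * ‖D.G r h y w‖ =
              ‖c w‖ * (‖D.G r h x w‖ * ‖D.G r h y w‖) := by ring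
          _ ≤ b * ((‖D.G r h x w‖ ^ 2 + ‖D.G r h y w‖ ^ 2) / 2) :=
              mul_le_mul (hb w) h1 (by positivity) hb0
    _ = b * ((∑ w, ‖D.G r h x w‖ ^ 2 + ∑ w, ‖D.G r h y w‖ ^ 2) / 2) := by
        rw [← Finset.mul_sum, ← Finset.sum_div, Finset.sum_add_distrib]
    _ ≤ b * (C1 / D.et r) := by
        refine mul_le_mul_of_nonneg_left ?_ hb0
        have h1 := hc.row x
        have h2 := hc.row y
        linarith
    _ = b * C1 / D.et r := by ring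

private lemma cfgb_had (hc : D.Cfg C1 a tau r h) {c : ι → ℂ} {b : ℝ} (hb0 : 0 ≤ b)
    (hb : ∀ w, ‖c w‖ ≤ b) (B : Matrix ι ι ℂ) (hB : ∀ x y, ‖B x y‖ = ‖D.G r h x y‖) :
    OpLe (fun x y => D.gcg c r h x y * B x y) (b * C1 / D.et r ^ 2) := by
  have het := hc.et0
  have hC := hc.one_le
  have hq : 0 ≤ C1 / D.et r := by positivity
  have hs : √(C1 / D.et r) ^ 2 = C1 / D.et r := Real.sq_sqrt hq
  have h1 : OpLe (fun x y => D.gcg c r h x y * B x y)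
      ((b * √(C1 / D.et r) / D.et r) * √(C1 / D.et r)) := by
    refine opLe_had (fun x => ?_) (fun y => ?_)
    · refine (hc.gcg_row hb0 hb x).trans (le_of_eq ?_)
      rw [div_pow, mul_pow, hs]
      field_simp
    · rw [hs]
      simp only [hB]
      refine le_trans (le_of_eq ?_) (hc.row y)
      exact Finset.sum_congr rfl fun x _ => by rw [hc.symm x y]
  have h2 : (b * √(C1 / D.et r) / D.et r) * √(C1 / D.et r) = b * C1 / D.et r ^ 2 := by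
    calc (b * √(C1 / D.et r) / D.et r) * √(C1 / D.et r) =
          b / D.et r * √(C1 / D.et r) ^ 2 := by ring
      _ = _ := by
          rw [hs]
          field_simp
  rwa [h2] at h1

theorem Fl.Cfg.gcg_had (hc : D.Cfg C1 a tau r h) {c : ι → ℂ} {b : ℝ} (hb0 : 0 ≤ b)
    (hb : ∀ w, ‖c w‖ ≤ b) :
    OpLe (fun x y => D.gcg c r h x y * D.G r h x y) (b * C1 / D.et r ^ 2) :=
  cfgb_had hc hb0 hb (D.G r h) fun _ _ => rfl

theorem Fl.Cfg.gcg_had' (hc : D.Cfg C1 a tau r h) {c : ι → ℂ} {b : ℝ} (hb0 : 0 ≤ b)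
    (hb : ∀ w, ‖c w‖ ≤ b) :
    OpLe (fun x y => D.gcg c r h x y * star (D.G r h x y)) (b * C1 / D.et r ^ 2) :=
  cfgb_had hc hb0 hb (fun x y => star (D.G r h x y)) fun _ _ => norm_star _

/-- `‖S u‖_∞ ≤ C1/et ‖u‖_∞`, same for `R` -/
theorem Fl.Cfg.R_sup (hc : D.Cfg C1 a tau r h) (u : ι → ℂ) (b : ℝ) (hb : ∀ x, ‖u x‖ ≤ b)
    (x : ι) : ‖(D.RO.f r h *ᵥ u) x‖ ≤ C1 / D.et r * b := by
  have hb0 : 0 ≤ b := (norm_nonneg _).trans (hb x)
  rw [Matrix.mulVec, dotProduct]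
  calc ‖∑ y, D.RO.f r h x y * u y‖ ≤ ∑ y, ‖D.RO.f r h x y * u y‖ := norm_sum_le _ _
    _ ≤ ∑ y, ‖D.G r h x y‖ ^ 2 * b := by
        refine Finset.sum_le_sum fun y _ => ?_
        rw [norm_mul, cfgb_nR]
        exact mul_le_mul_of_nonneg_left (hb y) (sq_nonneg _)
    _ = (∑ y, ‖D.G r h x y‖ ^ 2) * b := (Finset.sum_mul _ _ _).symm
    _ ≤ _ := mul_le_mul_of_nonneg_right (hc.row x) hb0

end Pool.Agent.APS
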