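import Pool.Agent.APS.Defs

/-! # APS COMPADD: sums of components.

`reg_add` is immediate (sums of continuous functions and derivatives).
`est_add`: `(x+y)² ≤ 2x² + 2y² ≤ 2 Γ_a q_a + 2 Γ_b q_b ≤ (Γ_a+Γ_b) · 2 (q_a+q_b)`, the rest is
adding the inequalities and `A Γ_a + B + A' Γ_b + B' ≤ 2 Am (Γ_a+Γ_b) + 2 (B+B')`.
-/

open Finset

noncomputable section

namespace Pool.Agent.APS

variable {ι : Type} [Fintype ι]

theorem reg_add [DecidableEq ι] {a b : Comp ι} {lam : ℝ} {I : Set ℝ} (ha : a.Reg lam I)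
    (hb : b.Reg lam I) : (a.add b).Reg lam I where
  cGa := ha.cGa.add hb.cGa
  cGr := ha.cGr.add hb.cGr
  cG1 w := (ha.cG1 w).add (hb.cG1 w)
  cDr w := (ha.cDr w).add (hb.cDr w)
  cQu w := (ha.cQu w).add (hb.cQu w)
  cD1 w := (ha.cD1 w).add (hb.cD1 w)
  nn r hr h := add_nonneg (ha.nn r hr h) (hb.nn r hr h)
  d1 r hr h w t := (ha.d1 r hr h w t).add (hb.d1 r hr h w t)
  d2 r hr h w t := by
    have h1 := (ha.d2 r hr h w t).add (hb.d2 r hr h w t)
    have h2 : (a.add b).Dr w r (Function.update h w t) + (a.add b).Qu w r (Function.update h w t) =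
        a.Dr w r (Function.update h w t) + a.Qu w r (Function.update h w t) +
        (b.Dr w r (Function.update h w t) + b.Qu w r (Function.update h w t)) := by
      simp only [Comp.add]
      ring
    rw [h2]
    exact h1
  d3 r hr h w t := (ha.d3 r hr h w t).add (hb.d3 r hr h w t)
  dr r hr v := by
    have h1 := (ha.dr r hr v).add (hb.dr r hr v)
    have h2 : (a.add b).Gr r (fun w => lam * r * v w) +
        ∑ w, lam * v w * (a.add b).G1 w r (fun w => lam * r * v w) =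
        a.Gr r (fun w => lam * r * v w) + ∑ w, lam * v w * a.G1 w r (fun w => lam * r * v w) +
        (b.Gr r (fun w => lam * r * v w) +
          ∑ w, lam * v w * b.G1 w r (fun w => lam * r * v w)) := by
      simp only [Comp.add, mul_add, Finset.sum_add_distrib]
      ring
    rw [h2]
    exact h1

private lemma cadd_sq {x y P Q q q' : ℝ} (hP : 0 ≤ P) (hQ : 0 ≤ Q) (hq : 0 ≤ q) (hq' : 0 ≤ q')
    (hx : x ^ 2 ≤ P * q) (hy : y ^ 2 ≤ Q * q') :
    (x + y) ^ 2 ≤ (P + Q) * (2 * (q + q')) := by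
  have h1 : (x + y) ^ 2 ≤ 2 * x ^ 2 + 2 * y ^ 2 := by nlinarith [sq_nonneg (x - y)]
  have h2 := mul_nonneg hP hq'
  have h3 := mul_nonneg hQ hq
  have h4 := mul_nonneg hP hq
  have h5 := mul_nonneg hQ hq'
  nlinarith

theorem est_add {a b : Comp ι} {lam s et r A A' Am B B' : ℝ} {h : ι → ℝ} {q q' : ι → ℝ}
    (hs : 0 ≤ s) (het : 0 < et) (hr : 0 ≤ r) (ha0 : 0 ≤ a.Ga r h) (hb0 : 0 ≤ b.Ga r h)
    (hA : 0 ≤ A) (hA' : 0 ≤ A') (hB : 0 ≤ B) (hB' : 0 ≤ B') (h1 : A ≤ Am) (h2 : A' ≤ Am)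
    (ha : a.Est lam s et r A B h q) (hb : b.Est lam s et r A' B' h q') :
    (a.add b).Est lam s et r (2 * Am) (2 * (B + B')) h (fun w => 2 * (q w + q' w)) := by
  have hAm : 0 ≤ Am := hA.trans h1
  have e1 : A * a.Ga r h ≤ Am * a.Ga r h := mul_le_mul_of_nonneg_right h1 ha0
  have e2 : A' * b.Ga r h ≤ Am * b.Ga r h := mul_le_mul_of_nonneg_right h2 hb0
  have e3 : 0 ≤ Am * a.Ga r h := mul_nonneg hAm ha0
  have e4 : 0 ≤ Am * b.Ga r h := mul_nonneg hAm hb0
  have e5 : A * a.Ga r h + B + (A' * b.Ga r h + B') ≤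
      Am * (a.Ga r h + b.Ga r h) + (B + B') := by
    rw [mul_add]
    linarith
  have e6 : A * a.Ga r h + B + (A' * b.Ga r h + B') ≤
      2 * Am * (a.Ga r h + b.Ga r h) + 2 * (B + B') := by
    have : 0 ≤ Am * (a.Ga r h + b.Ga r h) + (B + B') := by rw [mul_add]; linarith
    nlinarith
  have he : 0 ≤ 1 / et := by positivity
  refine ⟨?_, ?_, ?_, ?_, ?_, ?_, ?_⟩
  · have m1 : 0 ≤ 2 * r * s / et := by positivity
    have m2 := mul_le_mul_of_nonneg_left e6 m1
    have m3 := ha.dr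
    have m4 := hb.dr
    simp only [Comp.add, Finset.sum_add_distrib, mul_add] at m2 m3 m4 ⊢
    linarith
  · intro w
    have := ha.q0 w
    have := hb.q0 w
    show 0 ≤ 2 * (q w + q' w)
    linarith
  · intro w
    have m1 := ha.q0 w
    have m2 := hb.q0 w
    have m3 := ha.qu w
    have m4 := hb.qu w
    have m5 := abs_add_le (a.Qu w r h) (b.Qu w r h)
    show |a.Qu w r h + b.Qu w r h| ≤ 2 * (q w + q' w)
    linarith
  · intro w
    exact cadd_sq ha0 hb0 (ha.q0 w) (hb.q0 w) (ha.g1 w) (hb.g1 w)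
  · intro w
    exact cadd_sq ha0 hb0 (ha.q0 w) (hb.q0 w) (ha.d1 w) (hb.d1 w)
  · show ∑ w, 2 * (q w + q' w) ≤ 1 / et * (2 * Am * (a.Ga r h + b.Ga r h) + 2 * (B + B'))
    have m3 := ha.qs
    have m4 := hb.qs
    have m5 := mul_le_mul_of_nonneg_left e5 he
    rw [← Finset.mul_sum, Finset.sum_add_distrib]
    have m6 : 1 / et * (2 * Am * (a.Ga r h + b.Ga r h) + 2 * (B + B')) =
        2 * (1 / et * (Am * (a.Ga r h + b.Ga r h) + (B + B'))) := by ring
    rw [m6]
    have m7 : 1 / et * (A * a.Ga r h + B + (A' * b.Ga r h + B')) =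
        1 / et * (A * a.Ga r h + B) + 1 / et * (A' * b.Ga r h + B') := by ring
    rw [m7] at m5
    linarith
  · intro e he1
    have m3 := ha.dd e he1
    have m4 := hb.dd e he1
    have m5 := mul_le_mul_of_nonneg_left e6 he
    have m7 : 1 / et * (A * a.Ga r h + B + (A' * b.Ga r h + B')) =
        1 / et * (A * a.Ga r h + B) + 1 / et * (A' * b.Ga r h + B') := by ring
    rw [m7] at m5
    show lam * ∑ w, e w * (a.D1 w r h + b.D1 w r h) ≤
      1 / et * (2 * Am * (a.Ga r h + b.Ga r h) + 2 * (B + B'))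
    simp only [mul_add, Finset.sum_add_distrib] at m3 m4 m5 ⊢
    linarith

end Pool.Agent.APS
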