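import Pool.Agent.APS.DDefs
import Pool.Agent.APS.CfgB

/-! # APS DCOMM: `∑ |(G c G)_xy|² |v_x - v_y|² ≤ (2 b/η)² ∑ |G_xy|² |v_x - v_y|²` for `|c_w| ≤ b`.

Let `C = G diag(v) - diag(v) G`, `C_xy = G_xy (v_y - v_x)`, and `A = G diag(c) G`. Matrix identity
`A diag(v) - diag(v) A = (G diag(c)) C + C (diag(c) G)` (expand; `diag(c)` and `diag(v)` commute).
Frobenius norms (`∑_x ∑_y ‖·‖²`): right multiplication by `diag(c) G` (`OpLe` with constant `b/η`):
`opLe_row_mul` for each row, sum over `x`. Left multiplication by `G diag(c)`: for each column `y`,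
`OpLe (G diag(c)) (b/η)` applied to the vector `x ↦ C x y` (definition of `OpLe`), sum over `y`.
`‖α + β‖² ≤ 2‖α‖² + 2‖β‖²` gives the factor `4`.
`OpLe G (1/η)`: `hc.G_op`; `OpLe (diag c) b`: `opLe_diagonal`; `opLe_mul`.
-/

open Matrix Finset

noncomputable section

namespace Pool.Agent.APS

open Pool.Agent.Kin

variable {ι : Type} [Fintype ι] [DecidableEq ι] {D : Fl ι} {C1 a tau r : ℝ} {h : ι → ℝ}

/-- Frobenius norm squared -/
private def fro (A : Matrix ι ι ℂ) : ℝ := ∑ x, ∑ y, ‖A x y‖ ^ 2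

private theorem fro_add (A B : Matrix ι ι ℂ) : fro (A + B) ≤ 2 * fro A + 2 * fro B := by
  unfold fro
  rw [Finset.mul_sum, Finset.mul_sum, ← Finset.sum_add_distrib]
  refine Finset.sum_le_sum fun x _ => ?_
  rw [Finset.mul_sum, Finset.mul_sum, ← Finset.sum_add_distrib]
  refine Finset.sum_le_sum fun y _ => ?_
  have h1 := norm_add_le (A x y) (B x y)
  have h2 : ‖(A + B) x y‖ ^ 2 ≤ (‖A x y‖ + ‖B x y‖) ^ 2 :=
    pow_le_pow_left₀ (norm_nonneg _) h1 2
  nlinarith [sq_nonneg (‖A x y‖ - ‖B x y‖)]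

private theorem fro_right {A B : Matrix ι ι ℂ} {b : ℝ} (hb : 0 ≤ b) (hB : OpLe B b) :
    fro (A * B) ≤ b ^ 2 * fro A := by
  unfold fro
  rw [Finset.mul_sum]
  exact Finset.sum_le_sum fun x _ => opLe_row_mul hb hB x

private theorem fro_left {A B : Matrix ι ι ℂ} {b : ℝ} (hB : OpLe B b) :
    fro (B * A) ≤ b ^ 2 * fro A := by
  unfold fro
  rw [Finset.sum_comm]
  nth_rw 2 [Finset.sum_comm]
  rw [Finset.mul_sum]
  exact Finset.sum_le_sum fun y _ => hB (fun x => A x y)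

theorem comm_gcg (hc : D.Cfg C1 a tau r h) {c : ι → ℂ} {b : ℝ} (hb0 : 0 ≤ b)
    (hb : ∀ w, ‖c w‖ ≤ b) (v : ι → ℂ) :
    ∑ x, ∑ y, ‖D.gcg c r h x y‖ ^ 2 * ‖v x - v y‖ ^ 2 ≤ (2 * b / D.et r) ^ 2 * D.en r h v := by
  have het := hc.et0
  set C : Matrix ι ι ℂ := fun x y => D.G r h x y * (v y - v x) with hC
  have h1 : fro C = D.en r h v := by
    unfold fro Fl.en Fl.ed
    refine Finset.sum_congr rfl fun x _ => Finset.sum_congr rfl fun y _ => ?_
    rw [hC]
    dsimp only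
    rw [norm_mul, mul_pow, norm_sub_rev]
  have h2 : fro (D.G r h * diagonal c * C + C * (diagonal c * D.G r h)) =
      ∑ x, ∑ y, ‖D.gcg c r h x y‖ ^ 2 * ‖v x - v y‖ ^ 2 := by
    unfold fro
    refine Finset.sum_congr rfl fun x _ => Finset.sum_congr rfl fun y _ => ?_
    have h3 : (D.G r h * diagonal c * C + C * (diagonal c * D.G r h)) x y =
        D.gcg c r h x y * (v y - v x) := by
      unfold Fl.gcg
      rw [Matrix.add_apply, Matrix.mul_apply, Matrix.mul_apply, Matrix.mul_apply,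
        ← Finset.sum_add_distrib, Finset.sum_mul]
      refine Finset.sum_congr rfl fun w _ => ?_
      rw [Matrix.mul_diagonal, Matrix.diagonal_mul, hC]
      dsimp only
      ring
    rw [h3, norm_mul, mul_pow, norm_sub_rev (v x)]
  have hGd : OpLe (D.G r h * diagonal c) (1 / D.et r * b) :=
    opLe_mul hc.G_op (opLe_diagonal c b hb)
  have hdG : OpLe (diagonal c * D.G r h) (b * (1 / D.et r)) :=
    opLe_mul (opLe_diagonal c b hb) hc.G_op
  have h4 := fro_left (A := C) hGd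
  have h5 := fro_right (A := C) (by positivity) hdG
  rw [← h2, ← h1]
  refine (fro_add _ _).trans ?_
  calc 2 * fro (D.G r h * diagonal c * C) + 2 * fro (C * (diagonal c * D.G r h))
      ≤ 2 * ((1 / D.et r * b) ^ 2 * fro C) + 2 * ((b * (1 / D.et r)) ^ 2 * fro C) := by
        gcongr
    _ = _ := by ring

end Pool.Agent.APS
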