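import Pool.Agent.APS.Defs3

/-! # APS DDEFS: definitions for the Dirichlet form part (component `f`)

See /team-store/aps2_proof.md, sections 1-3. `G = G_r(h)`, `S_xy = |G_xy|²`, `Q = lap S`.
* `ed v x = ∑_y |G_xy|² |v_x - v_y|²` (energy density), `en v = ∑_x ed v x = 2 ⟨v, Q v⟩`.
* `Ph v x w = ∑_y conj(G_xy) (v_x - v_y) G_yw`.
* `aP`: the matrix `S_xy (Im g_x + Im g_y) / η`; `errQ = lap aP + lap errS`.
* `ip u v = ∑ conj(u_x) v_x`, `n2 u = ∑ |u_x|²`.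
-/

open Matrix Finset

noncomputable section

namespace Pool.Agent.APS

open Pool.Agent.Kin

variable {ι κ : Type}

/-- `∑ conj(u_x) v_x` -/
def ip [Fintype κ] (u v : κ → ℂ) : ℂ := ∑ x, star (u x) * v x

/-- `∑ |u_x|²` -/
def n2 [Fintype κ] (u : κ → ℂ) : ℝ := ∑ x, ‖u x‖ ^ 2

namespace Fl

variable [Fintype ι] [DecidableEq ι] (D : Fl ι)

/-- energy density -/
def ed (r : ℝ) (h : ι → ℝ) (v : ι → ℂ) (x : ι) : ℝ :=
  ∑ y, ‖D.G r h x y‖ ^ 2 * ‖v x - v y‖ ^ 2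

/-- energy `∑_xy |G_xy|² |v_x - v_y|² = 2 ⟨v, Q v⟩` -/
def en (r : ℝ) (h : ι → ℝ) (v : ι → ℂ) : ℝ := ∑ x, D.ed r h v x

/-- `Φ_xw = ∑_y conj(G_xy) (v_x - v_y) G_yw` -/
def Ph (r : ℝ) (h : ι → ℝ) (v : ι → ℂ) (x w : ι) : ℂ :=
  ∑ y, star (D.G r h x y) * (v x - v y) * D.G r h y w

/-- the matrix `S_xy (Im g_x + Im g_y) / η` -/
def aP (r : ℝ) (h : ι → ℝ) : Matrix ι ι ℂ :=
  fun x y => ((‖D.G r h x y‖ ^ 2 * ((D.gv r h x).im + (D.gv r h y).im) / D.et r : ℝ) : ℂ)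

/-- the error in the drift identity of `Q = lap S` -/
def errQ (r : ℝ) (h : ι → ℝ) : Matrix ι ι ℂ := lap (D.aP r h) + lap (D.errS r h)

/-- `W (Q - QU) W` -/
def ft (r : ℝ) (h : ι → ℝ) (W QU : Matrix ι ι ℂ) : Matrix ι ι ℂ :=
  W * (lap (D.SO.f r h) - QU) * W

end Fl

end Pool.Agent.APS
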