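import Pool.Agent.APS.Defs2
import Pool.Agent.Kin.Res

/-! # APS DRIFTID: the combined drift identities (pure algebra).

With `G = G_r(h)` symmetric (`Kin.res_symm`, `Im z_r = η_r > 0`), `gg = diag(G_ww - g0)`:
* `fr + s r ∑ f2` for `G`: `-2 r s g0 G² + 2 s r ∑_w G_ww G_xw G_wy = 2 r s (G gg G)_xy`.
* `g`: the diagonal entry `x x`: `2 r s ∑_w G_xw² g_w = 2 r s (R g)_x`.
* `S`: `2 Re(-2 r s g0 (G²)_xy conj G_xy) + s r ∑_w (4 Re(G_ww G_xw G_wy conj G_xy) + 2 S_xw S_wy)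
  = 2 r s (2 Re((G gg G)_xy conj G_xy) + (S S)_xy)`.
* `R`: the same without conjugation: `2 r s (2 (G gg G)_xy G_xy + (R R)_xy)`.
-/

open Matrix Finset

noncomputable section

namespace Pool.Agent.APS

open Pool.Agent.Kin

variable {ι : Type} [Fintype ι] [DecidableEq ι]

private lemma di_im (D : Fl ι) {r : ℝ} (hr : 0 < D.et r) : 0 < (D.zr r).im := by
  have e : (D.zr r).im = D.et r := by
    unfold Fl.zr Fl.et
    rw [Complex.add_im, Complex.im_ofReal_mul]
  rw [e]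
  exact hr

private lemma di_symm (D : Fl ι) (hH : RealSym D.H0) {r : ℝ} (hr : 0 < D.et r) (h : ι → ℝ)
    (x y : ι) : D.G r h x y = D.G r h y x :=
  res_symm hH (di_im D hr) h x y

private lemma di_gcg (D : Fl ι) (c : ι → ℂ) (r : ℝ) (h : ι → ℝ) (x y : ι) :
    D.gcg c r h x y = ∑ w, D.G r h x w * c w * D.G r h w y := by
  unfold Fl.gcg
  rw [Matrix.mul_apply]
  refine Finset.sum_congr rfl fun w _ => ?_
  rw [Matrix.mul_diagonal]

theorem drift_g (D : Fl ι) (hH : RealSym D.H0) {r : ℝ} (hr : 0 < D.et r) (h : ι → ℝ) :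
    (fun x => D.gO.fr r h x + ((D.s * r : ℝ) : ℂ) * ∑ w, D.gO.f2 w r h x) =
      fun x => ((2 * r * D.s : ℝ) : ℂ) * (D.RO.f r h *ᵥ D.gv r h) x := by
  funext x
  have hs := di_symm D hH hr h
  simp only [Fl.gO, Fl.RO, Fl.gv, Matrix.mul_apply, Matrix.mulVec, dotProduct]
  rw [Finset.mul_sum, Finset.mul_sum, Finset.mul_sum, ← Finset.sum_add_distrib]
  refine Finset.sum_congr rfl fun w _ => ?_
  rw [hs w x]
  push_cast
  ring

theorem drift_S (D : Fl ι) (hH : RealSym D.H0) {r : ℝ} (hr : 0 < D.et r) (h : ι → ℝ) :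
    D.SO.fr r h + ((D.s * r : ℝ) : ℂ) • ∑ w, D.SO.f2 w r h =
      ((2 * r * D.s : ℝ) : ℂ) • (D.SO.f r h * D.SO.f r h + D.errS r h) := by
  ext x y
  simp only [Matrix.add_apply, Matrix.smul_apply, Matrix.sum_apply, smul_eq_mul, Fl.SO, Fl.errS,
    Matrix.mul_apply]
  rw [di_gcg]
  have key : 2 * (-(2 * (r : ℂ) * (D.s : ℂ) * D.g0) * (∑ w, D.G r h x w * D.G r h w y) *
      star (D.G r h x y)).re + (D.s * r) * ∑ w, (4 * (D.G r h w w * (D.G r h x w * D.G r h w y) *
        star (D.G r h x y)).re + 2 * (‖D.G r h x w‖ ^ 2 * ‖D.G r h w y‖ ^ 2)) =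
      (2 * r * D.s) * ((∑ w, ‖D.G r h x w‖ ^ 2 * ‖D.G r h w y‖ ^ 2) +
        2 * ((∑ w, D.G r h x w * D.gv r h w * D.G r h w y) * star (D.G r h x y)).re) := by
    have e1 : (-(2 * (r : ℂ) * (D.s : ℂ) * D.g0) * (∑ w, D.G r h x w * D.G r h w y) *
        star (D.G r h x y)).re = ∑ w, -(2 * r * D.s) *
          (D.g0 * (D.G r h x w * D.G r h w y) * star (D.G r h x y)).re := by
      rw [Finset.mul_sum, Finset.sum_mul, Complex.re_sum]
      refine Finset.sum_congr rfl fun w _ => ?_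
      rw [← Complex.re_ofReal_mul]
      congr 1
      push_cast
      ring
    have e2 : ((∑ w, D.G r h x w * D.gv r h w * D.G r h w y) * star (D.G r h x y)).re =
        ∑ w, ((D.G r h w w * (D.G r h x w * D.G r h w y) * star (D.G r h x y)).re -
          (D.g0 * (D.G r h x w * D.G r h w y) * star (D.G r h x y)).re) := by
      rw [Finset.sum_mul, Complex.re_sum]
      refine Finset.sum_congr rfl fun w _ => ?_
      rw [← Complex.sub_re]
      congr 1
      unfold Fl.gv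
      ring
    rw [e1, e2, Finset.mul_sum, Finset.mul_sum, Finset.mul_sum, ← Finset.sum_add_distrib,
      ← Finset.sum_add_distrib, Finset.mul_sum]
    refine Finset.sum_congr rfl fun w _ => ?_
    ring
  have key2 := congrArg Complex.ofReal key
  push_cast at key2
  push_cast
  exact key2

theorem drift_R (D : Fl ι) (hH : RealSym D.H0) {r : ℝ} (hr : 0 < D.et r) (h : ι → ℝ) :
    D.RO.fr r h + ((D.s * r : ℝ) : ℂ) • ∑ w, D.RO.f2 w r h =
      ((2 * r * D.s : ℝ) : ℂ) • (D.RO.f r h * D.RO.f r h + D.errR r h) := by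
  ext x y
  simp only [Matrix.add_apply, Matrix.smul_apply, Matrix.sum_apply, smul_eq_mul, Fl.RO, Fl.errR,
    Matrix.mul_apply]
  rw [di_gcg]
  have e1 : 2 * (-(2 * (r : ℂ) * (D.s : ℂ) * D.g0) * (∑ w, D.G r h x w * D.G r h w y) *
      D.G r h x y) = ∑ w, 2 * (-(2 * (r : ℂ) * (D.s : ℂ) * D.g0) * (D.G r h x w * D.G r h w y) *
      D.G r h x y) := by
    rw [Finset.mul_sum, Finset.sum_mul, Finset.mul_sum]
  have e2 : 2 * ((∑ w, D.G r h x w * D.gv r h w * D.G r h w y) * D.G r h x y) =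
      ∑ w, 2 * (D.G r h x w * D.gv r h w * D.G r h w y * D.G r h x y) := by
    rw [Finset.sum_mul, Finset.mul_sum]
  rw [e1, e2, Finset.mul_sum, ← Finset.sum_add_distrib, ← Finset.sum_add_distrib, Finset.mul_sum]
  refine Finset.sum_congr rfl fun w _ => ?_
  unfold Fl.gv
  push_cast
  ring

end Pool.Agent.APS
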