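import Pool.Agent.APS.DEn
import Pool.Agent.APS.DriftId

/-! # APS DDRIFT: the drift identity of `Q = lap S` and of `f = c W (Q - QU) W` (pure algebra).

* `rowsum`: Ward (`Kin.ward_row`, `Im z_r = η_r`, see `cfgb_im` in CfgB): `∑_y |G_xy|² = Im G_xx / η`
  and `Im G_xx = Im g0 + Im g_x`.
* `lap_SS`: put `s_x = rowsum`, `S = diag(s) - Q` (definition of `lap`), `Q 1 = 0`. Then `S S 1 = S s`,
  `lap (S S) = diag(S s) - S S`, `S s = s² - Q s`, `S S = diag(s²) - diag(s) Q - Q diag(s) + Q Q`, so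
  `lap (S S) = diag(s) Q + Q diag(s) - diag(Q s) - Q Q`, and with `s_x = Im g0/η + σ_x`,
  `σ_x = Im g_x/η`: `= (2 Im g0/η) Q - Q Q + (diag(σ) Q + Q diag(σ) - diag(Q σ))`, and the last bracket
  is `lap aP`, `aP_xy = S_xy (σ_x + σ_y)`. Easiest: prove the identity entrywise: for `x ≠ y`
  `(lap (S S))_xy = -∑_w S_xw S_wy` etc.; or apply both sides to a vector with `lap_mulVec`:
  `(lap (S S) v)_x = ∑_w S_xw ∑_y S_wy (v_x - v_y) = ∑_w S_xw (s_w (v_x - v_w) + (Q v)_w)`,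
  `(Q Q v)_x = ∑_w S_xw ((Q v)_x - (Q v)_w) = s_x (Q v)_x - ∑_w S_xw (Q v)_w`, so
  `(lap (S S) v)_x + (Q Q v)_x = s_x (Q v)_x + ∑_w S_xw s_w (v_x - v_w) = ∑_w S_xw (s_x + s_w)(v_x - v_w)`
  and `s_x + s_w = 2 Im g0/η + σ_x + σ_w`. (Matrices are equal if they agree on all vectors.)
* `drift_Q`: apply `lap` (linear: `lap_add`, `lap_smul`, `lap_sum`) to `drift_S`.
* `drift_F`: let `δ = Q - QU`, `f = W δ W`. `δ P0 = P0 δ = 0` (`lap_P0`, `QU = B B`, `B P0 = 0`), so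
  `B f B = (1 - P0) δ (1 - P0) = δ`. `Q Q - QU QU = QU δ + δ Q = QU δ + δ QU + δ δ`.
  `W QU = B = QU W` (`WQU`), `W QU δ W = B δ W = QU f`, `W δ QU W = W δ B = f QU`,
  `W δ δ W = W B f B B f B W = (1 - P0) f QU f (1 - P0) = f QU f` (`W P0 = P0 W = 0`).
  `W' δ W + W δ W' = 2 r s ((1/2)(QU f + f QU) - (2 Im g0/η) f)` by `dW` (note `QU W = W QU`).
  `W (drift_Q - QU') W = 2 r s ((2 Im g0/η) f - (QU f + f QU + f QU f) + W errQ W)` by `dQU`. Add up.
-/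

open Matrix Finset

noncomputable section

namespace Pool.Agent.APS

open Pool.Agent.Kin

variable {ι : Type} [Fintype ι] [DecidableEq ι] {D : Fl ι} {C1 a tau r : ℝ} {h : ι → ℝ}
  {CH kap dl : ℝ} {P0 : Matrix ι ι ℂ} {W W' QU QU' : ℝ → Matrix ι ι ℂ} {B : Matrix ι ι ℂ}

omit [Fintype ι] [DecidableEq ι] in
private theorem dd_im (D : Fl ι) (r : ℝ) : (D.zr r).im = D.et r := by
  unfold Fl.zr Fl.et
  rw [Complex.add_im, Complex.im_ofReal_mul]

private theorem dd_lap {κ : Type} [Fintype κ] [DecidableEq κ] (S : Matrix κ κ ℂ) (m : ℂ) :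
    lap (S * S) = (2 * m) • lap S - lap S * lap S +
      lap (fun x y => S x y * ((∑ z, S x z) + (∑ z, S y z) - 2 * m)) := by
  obtain ⟨s, hs⟩ : ∃ s : κ → ℂ, s = fun x => ∑ z, S x z := ⟨_, rfl⟩
  have hs' : ∀ x, ∑ z, S x z = s x := fun x => by rw [hs]
  have hl : lap S = diagonal s - S := by
    rw [hs]
    rfl
  have e1 : lap (S * S) = diagonal (fun x => ∑ w, S x w * s w) - S * S := by
    unfold lap
    congr 2
    funext x
    simp only [Matrix.mul_apply]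
    rw [Finset.sum_comm]
    refine Finset.sum_congr rfl fun w _ => ?_
    rw [← Finset.mul_sum, hs' w]
  have e2 : lap S * lap S = diagonal (fun x => s x * s x) - diagonal s * S - S * diagonal s +
      S * S := by
    rw [hl, Matrix.sub_mul, Matrix.mul_sub, Matrix.mul_sub, diagonal_mul_diagonal]
    abel
  have e3 : lap (fun x y => S x y * ((∑ z, S x z) + (∑ z, S y z) - 2 * m)) =
      diagonal (fun x => s x * s x + (∑ w, S x w * s w) - 2 * m * s x) -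
        (diagonal s * S + S * diagonal s - (2 * m) • S) := by
    unfold lap
    congr 1
    · congr 1
      funext x
      simp only [hs', mul_sub, mul_add, Finset.sum_sub_distrib, Finset.sum_add_distrib]
      rw [← Finset.sum_mul, ← Finset.sum_mul, hs' x]
      ring
    · ext x y
      simp only [Matrix.sub_apply, Matrix.add_apply, diagonal_mul, mul_diagonal,
        Matrix.smul_apply, smul_eq_mul, hs']
      ring
  rw [e1, e2, e3, hl]
  ext x y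
  simp only [Matrix.add_apply, Matrix.sub_apply, Matrix.smul_apply, diagonal_apply, smul_eq_mul]
  split_ifs <;> ring

private theorem dd_alg {κ : Type} [Fintype κ] [DecidableEq κ]
    (W0 W1 U U1 B P0 Q X Y E : Matrix κ κ ℂ) (a k m1 m2 : ℂ) (hm : m2 = 2 * m1)
    (hWU : W0 * U = B) (hUW : U * W0 = B) (hWUW : W0 * U * W0 = 1 - P0) (hQP : Q * P0 = 0)
    (hUP : U * P0 = 0) (hd : X + a • Y = k • (m2 • Q - Q * Q + E))
    (hU1 : U1 = k • (m2 • U - U * U))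
    (hW1 : W1 = k • ((1 / 2 : ℂ) • (U * W0) - m1 • W0)) :
    W0 * (X - U1) * W0 + (W1 * (Q - U) * W0 + W0 * (Q - U) * W1) + a • (W0 * Y * W0) =
      k • (-((1 / 2 : ℂ) • (U * (W0 * (Q - U) * W0) + W0 * (Q - U) * W0 * U)) -
        W0 * (Q - U) * W0 * U * (W0 * (Q - U) * W0) + W0 * E * W0) := by
  obtain ⟨δ, hδ⟩ : ∃ δ : Matrix κ κ ℂ, δ = Q - U := ⟨_, rfl⟩
  have hQ : Q = U + δ := by
    rw [hδ]
    abel
  have hδP : δ * P0 = 0 := by
    rw [hδ, Matrix.sub_mul, hQP, hUP, sub_zero]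
  rw [← hδ]
  obtain ⟨f, hf⟩ : ∃ f : Matrix κ κ ℂ, f = W0 * δ * W0 := ⟨_, rfl⟩
  have F1 : W0 * (U * δ) * W0 = U * f := by
    rw [hf, ← Matrix.mul_assoc W0 U δ, hWU, ← Matrix.mul_assoc U (W0 * δ) W0,
      ← Matrix.mul_assoc U W0 δ, hUW]
  have F2 : W0 * (δ * U) * W0 = f * U := by
    rw [hf, Matrix.mul_assoc (W0 * δ) W0 U, hWU, ← Matrix.mul_assoc W0 δ U,
      Matrix.mul_assoc (W0 * δ) U W0, hUW]
  have F3 : W0 * (δ * δ) * W0 = f * U * f := by
    have e1 : f * U * f = W0 * δ * (W0 * U * W0) * (δ * W0) := by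
      rw [hf]
      simp only [Matrix.mul_assoc]
    rw [e1, hWUW, Matrix.mul_sub, Matrix.mul_one, Matrix.mul_assoc W0 δ P0, hδP, Matrix.mul_zero,
      sub_zero]
    simp only [Matrix.mul_assoc]
  have g1 : W0 * (X - U1) * W0 + a • (W0 * Y * W0) = W0 * (X + a • Y - U1) * W0 := by
    rw [Matrix.mul_sub, Matrix.mul_sub, Matrix.mul_add, Matrix.sub_mul, Matrix.sub_mul,
      Matrix.add_mul, Matrix.mul_smul, Matrix.smul_mul]
    abel
  have g2 : X + a • Y - U1 = k • (m2 • δ - (U * δ + δ * U + δ * δ) + E) := by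
    rw [hd, hU1, ← smul_sub, hQ]
    congr 1
    rw [Matrix.add_mul, Matrix.mul_add, Matrix.mul_add, smul_add]
    abel
  have g3 : W0 * (X + a • Y - U1) * W0 =
      k • (m2 • f - (U * f + f * U + f * U * f) + W0 * E * W0) := by
    rw [g2, Matrix.mul_smul, Matrix.smul_mul]
    congr 1
    rw [Matrix.mul_add, Matrix.mul_sub, Matrix.mul_add, Matrix.mul_add, Matrix.add_mul,
      Matrix.sub_mul, Matrix.add_mul, Matrix.add_mul, F1, F2, F3, Matrix.mul_smul,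
      Matrix.smul_mul, ← hf]
  have g4 : W1 * δ * W0 = k • ((1 / 2 : ℂ) • (U * f) - m1 • f) := by
    rw [hW1, Matrix.smul_mul, Matrix.smul_mul, Matrix.sub_mul, Matrix.sub_mul, Matrix.smul_mul,
      Matrix.smul_mul, Matrix.smul_mul, Matrix.smul_mul, hf]
    simp only [Matrix.mul_assoc]
  have g5 : W0 * δ * W1 = k • ((1 / 2 : ℂ) • (f * U) - m1 • f) := by
    rw [hW1, Matrix.mul_smul, Matrix.mul_sub, Matrix.mul_smul, Matrix.mul_smul, ← F2, ← hf]
    simp only [Matrix.mul_assoc]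
  have g6 : W0 * (X - U1) * W0 + (W1 * δ * W0 + W0 * δ * W1) + a • (W0 * Y * W0) =
      (W0 * (X - U1) * W0 + a • (W0 * Y * W0)) + (W1 * δ * W0 + W0 * δ * W1) := by
    abel
  rw [g6, g1, g3, g4, g5, ← smul_add, ← smul_add, ← hf]
  congr 1
  rw [hm]
  ext x y
  simp only [Matrix.add_apply, Matrix.sub_apply, Matrix.smul_apply, Matrix.neg_apply,
    smul_eq_mul]
  ring

theorem rowsum (hc : D.Cfg C1 a tau r h) (x : ι) :
    ∑ y, ‖D.G r h x y‖ ^ 2 = (D.g0.im + (D.gv r h x).im) / D.et r := by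
  have hz : 0 < (D.zr r).im := by
    rw [dd_im]
    exact hc.et0
  have h1 := ward_row hc.sym hz h x
  rw [dd_im] at h1
  refine h1.trans ?_
  congr 1
  show (D.G r h x x).im = D.g0.im + (D.G r h x x - D.g0).im
  rw [Complex.sub_im]
  ring

theorem lap_SS (hc : D.Cfg C1 a tau r h) :
    lap (D.SO.f r h * D.SO.f r h) = ((2 * D.g0.im / D.et r : ℝ) : ℂ) • lap (D.SO.f r h) -
      lap (D.SO.f r h) * lap (D.SO.f r h) + lap (D.aP r h) := by
  have hs : ∀ x, ∑ z, D.SO.f r h x z =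
      (((D.g0.im + (D.gv r h x).im) / D.et r : ℝ) : ℂ) := by
    intro x
    rw [← rowsum hc x, Complex.ofReal_sum]
    rfl
  have h1 := dd_lap (D.SO.f r h) ((D.g0.im / D.et r : ℝ) : ℂ)
  rw [h1]
  have h2 : (2 : ℂ) * ((D.g0.im / D.et r : ℝ) : ℂ) = ((2 * D.g0.im / D.et r : ℝ) : ℂ) := by
    push_cast
    ring
  rw [h2]
  congr 2
  funext x y
  rw [hs, hs]
  show ((‖D.G r h x y‖ ^ 2 : ℝ) : ℂ) * _ =
    ((‖D.G r h x y‖ ^ 2 * ((D.gv r h x).im + (D.gv r h y).im) / D.et r : ℝ) : ℂ)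
  rw [← Complex.ofReal_add, ← Complex.ofReal_sub, ← Complex.ofReal_mul]
  congr 1
  ring

theorem drift_Q (hc : D.Cfg C1 a tau r h) :
    lap (D.SO.fr r h) + ((D.s * r : ℝ) : ℂ) • ∑ w, lap (D.SO.f2 w r h) =
      ((2 * r * D.s : ℝ) : ℂ) • (((2 * D.g0.im / D.et r : ℝ) : ℂ) • lap (D.SO.f r h) -
        lap (D.SO.f r h) * lap (D.SO.f r h) + D.errQ r h) := by
  have h1 := congrArg lap (drift_S D hc.sym hc.et0 h)
  rw [lap_add, lap_smul, lap_sum, lap_smul, lap_add, lap_SS hc] at h1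
  rw [h1]
  unfold Fl.errQ
  rw [add_assoc]

theorem drift_F (hc : D.Cfg C1 a tau r h)
    (hR : Ref D r CH kap (W r) (W' r) (QU r) (QU' r) B P0) (c : ℝ) :
    (D.fO W W' QU QU' c).fr r h + ((D.s * r : ℝ) : ℂ) • ∑ w, (D.fO W W' QU QU' c).f2 w r h =
      ((2 * r * D.s : ℝ) : ℂ) • ((c : ℂ) • (-((1 / 2 : ℂ) • (QU r * D.ft r h (W r) (QU r) +
        D.ft r h (W r) (QU r) * QU r)) - D.ft r h (W r) (QU r) * QU r * D.ft r h (W r) (QU r) +
        W r * D.errQ r h * W r)) := by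
  have hm : ((2 * D.g0.im / D.et r : ℝ) : ℂ) = 2 * ((D.g0.im / D.et r : ℝ) : ℂ) := by
    push_cast
    ring
  have hQP : lap (D.SO.f r h) * P0 = 0 :=
    (lap_P0 _ (SO_symm hc) P0 _ hR.hP).1
  have hUP : QU r * P0 = 0 := by
    rw [← hR.BB, Matrix.mul_assoc, hR.BP, Matrix.mul_zero]
  have key := dd_alg (W r) (W' r) (QU r) (QU' r) B P0 (lap (D.SO.f r h)) (lap (D.SO.fr r h))
    (∑ w, lap (D.SO.f2 w r h)) (D.errQ r h) ((D.s * r : ℝ) : ℂ) ((2 * r * D.s : ℝ) : ℂ)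
    ((D.g0.im / D.et r : ℝ) : ℂ) ((2 * D.g0.im / D.et r : ℝ) : ℂ) hm (WQU hR).1 (WQU hR).2
    (WQUW hR) hQP hUP (drift_Q hc) hR.dQU hR.dW
  have e1 : (D.fO W W' QU QU' c).fr r h = (c : ℂ) • (W r * (lap (D.SO.fr r h) - QU' r) * W r +
      (W' r * (lap (D.SO.f r h) - QU r) * W r + W r * (lap (D.SO.f r h) - QU r) * W' r)) := by
    have e0 : (D.fO W W' QU QU' c).fr r h = (c : ℂ) • (W r * (lap (D.SO.fr r h) - QU' r) * W r +
      (W' r * (lap (D.SO.f r h) - QU r) * W r + W r * (lap (D.SO.f r h) - QU r) * W' r)) +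
      ((0 : ℝ) : ℂ) • (W r * (lap (D.SO.f r h) - QU r) * W r) := rfl
    rw [e0, Complex.ofReal_zero, zero_smul, add_zero]
  have e2 : ∑ w, (D.fO W W' QU QU' c).f2 w r h =
      (c : ℂ) • (W r * (∑ w, lap (D.SO.f2 w r h)) * W r) := by
    rw [Matrix.mul_sum, Matrix.sum_mul, Finset.smul_sum]
    rfl
  rw [e1, e2, smul_comm ((D.s * r : ℝ) : ℂ) (c : ℂ), ← smul_add, key, smul_comm (c : ℂ)]
  rfl

end Pool.Agent.APS
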