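import Pool.Agent.APS.DLap
import Pool.Agent.APS.CfgB

/-! # APS DEN: the energy `en v = ∑ |G_xy|² |v_x - v_y|²` and the matrix `W`.

* `ed_nonneg`, `en_nonneg`: sums of nonnegative terms. `en_star`: `‖conj a - conj b‖ = ‖a - b‖`.
* `en_form`: `lap_form` with `A = S` (symmetric by `hc.symm`), `u = v`: the summand is
  `S_xy conj(v_x - v_y)(v_x - v_y) = S_xy |v_x - v_y|²`.
* `WQUW`: `W QU W = W B (B W) = (1 - P0)(1 - P0) = 1 - P0` (`P0 * P0 = P0`: entries `N (1/N)² = 1/N`;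
  or: `W B B W = (1 - P0) B W = B W - P0 B W = 1 - P0` with `P0 B = 0`).
* `en_W`: `(1/2) en (W u) = ip (W u) (Q W u) = ip u (W Q W u)` (`ip_herm`),
  `W Q W = ft + W QU W = ft + 1 - P0`, `|ip u (ft u)| ≤ dl n2 u` (`ip_le` and `hf`),
  `ip u ((1 - P0) u) = n2 u - |∑ u|²/N ≤ n2 u`.  So `en (W u) ≤ 2 (1 + dl) n2 u ≤ 4 n2 u`.
* `opLe_W`: `ip u (W A W v) = ip (W u) (A (W v))`, bounded by `b √(en (W u)) √(en (W v)) ≤ 4 b √.. √..`.
* `W_bound`: let `y` with `∑ y = 0`, `Y = W y`. `n2 Y = ip Y (W y) = ip (W Y) y`; by `hR.split` applied to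
  `u = Y`: `W Y = uH + uL + b`; `ip (uH + uL + b) y = ip uH y + ip uL y + star b * 0`;
  `|ip uH y| ≤ √(CH et n2 Y) √(n2 y)`, `|ip uL y| ≤ √(kap et² n2 Y) ∑ ‖y_x‖`. Divide by `√(n2 Y)` and square:
  `n2 Y ≤ (√(CH et n2 y) + √(kap) et ∑‖y‖)² ≤ 2 CH et n2 y + 2 kap et² (∑ ‖y‖)²`.
-/

open Matrix Finset

noncomputable section

namespace Pool.Agent.APS

open Pool.Agent.Kin

variable {ι : Type} [Fintype ι] [DecidableEq ι] {D : Fl ι} {C1 a tau r : ℝ} {h : ι → ℝ}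
  {CH kap dl : ℝ} {W W' QU QU' B P0 : Matrix ι ι ℂ}

theorem ed_nonneg (D : Fl ι) (r : ℝ) (h : ι → ℝ) (v : ι → ℂ) (x : ι) : 0 ≤ D.ed r h v x :=
  Finset.sum_nonneg fun _ _ => mul_nonneg (sq_nonneg _) (sq_nonneg _)

theorem en_nonneg (D : Fl ι) (r : ℝ) (h : ι → ℝ) (v : ι → ℂ) : 0 ≤ D.en r h v :=
  Finset.sum_nonneg fun _ _ => ed_nonneg D r h v _

theorem en_star (D : Fl ι) (r : ℝ) (h : ι → ℝ) (v : ι → ℂ) :
    D.en r h (fun x => star (v x)) = D.en r h v := by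
  unfold Fl.en Fl.ed
  refine Finset.sum_congr rfl fun x _ => Finset.sum_congr rfl fun y _ => ?_
  rw [← star_sub, norm_star]

theorem SO_symm (hc : D.Cfg C1 a tau r h) (x y : ι) : D.SO.f r h x y = D.SO.f r h y x := by
  change ((‖D.G r h x y‖ ^ 2 : ℝ) : ℂ) = ((‖D.G r h y x‖ ^ 2 : ℝ) : ℂ)
  rw [hc.symm x y]

theorem en_form (hc : D.Cfg C1 a tau r h) (v : ι → ℂ) :
    ip v (lap (D.SO.f r h) *ᵥ v) = ((D.en r h v / 2 : ℝ) : ℂ) := by
  rw [lap_form _ (SO_symm hc)]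
  unfold Fl.en Fl.ed
  have h1 : ((((∑ x, ∑ y, ‖D.G r h x y‖ ^ 2 * ‖v x - v y‖ ^ 2) / 2 : ℝ)) : ℂ) =
      (1 / 2) * ∑ x, ∑ y, ((‖D.G r h x y‖ ^ 2 * ‖v x - v y‖ ^ 2 : ℝ) : ℂ) := by
    push_cast
    ring
  rw [h1]
  congr 1
  refine Finset.sum_congr rfl fun x _ => Finset.sum_congr rfl fun y _ => ?_
  change ((‖D.G r h x y‖ ^ 2 : ℝ) : ℂ) * _ = _
  rw [Complex.star_def, ← Complex.normSq_eq_conj_mul_self, Complex.normSq_eq_norm_sq,
    Complex.ofReal_mul]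

theorem WQUW (hR : Ref D r CH kap W W' QU QU' B P0) : W * QU * W = 1 - P0 := by
  rw [← hR.BB]
  have h1 : W * (B * B) * W = (W * B) * (B * W) := by simp only [Matrix.mul_assoc]
  rw [h1, hR.WB, Matrix.sub_mul, Matrix.one_mul, ← Matrix.mul_assoc, hR.PB, Matrix.zero_mul,
    sub_zero, hR.BW]

theorem WQU (hR : Ref D r CH kap W W' QU QU' B P0) : W * QU = B ∧ QU * W = B := by
  rw [← hR.BB]
  constructor
  · rw [← Matrix.mul_assoc, hR.WB, Matrix.sub_mul, Matrix.one_mul, hR.PB, sub_zero]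
  · rw [Matrix.mul_assoc, hR.BW, Matrix.mul_sub, Matrix.mul_one, hR.BP, sub_zero]

private lemma den_sandwich (hR : Ref D r CH kap W W' QU QU' B P0) (A : Matrix ι ι ℂ)
    (u v : ι → ℂ) : ip u ((W * A * W) *ᵥ v) = ip (W *ᵥ u) (A *ᵥ (W *ᵥ v)) := by
  rw [← ip_herm W hR.hW, mulVec_mulVec, mulVec_mulVec, Matrix.mul_assoc]

private lemma den_ip_add (u v w : ι → ℂ) : ip u (v + w) = ip u v + ip u w := by
  unfold ip
  rw [← Finset.sum_add_distrib]
  exact Finset.sum_congr rfl fun x _ => by rw [Pi.add_apply]; ring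

private lemma den_ip_sub (u v w : ι → ℂ) : ip u (v - w) = ip u v - ip u w := by
  unfold ip
  rw [← Finset.sum_sub_distrib]
  exact Finset.sum_congr rfl fun x _ => by rw [Pi.sub_apply]; ring

private lemma den_P0 (hR : Ref D r CH kap W W' QU QU' B P0) (u : ι → ℂ) :
    0 ≤ (ip u (P0 *ᵥ u)).re := by
  have h1 : ip u (P0 *ᵥ u) = ((‖∑ x, u x‖ ^ 2 / (Fintype.card ι : ℝ) : ℝ) : ℂ) := by
    have h2 : ∀ x, (P0 *ᵥ u) x = (∑ y, u y) / (Fintype.card ι : ℂ) := by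
      intro x
      simp only [mulVec, dotProduct, hR.hP]
      rw [← Finset.mul_sum]
      ring
    unfold ip
    simp only [h2]
    rw [← Finset.sum_mul, ← star_sum, Complex.ofReal_div, ← Complex.normSq_eq_norm_sq,
      Complex.normSq_eq_conj_mul_self, Complex.star_def, Complex.ofReal_natCast]
    ring
  rw [h1, Complex.ofReal_re]
  positivity

theorem en_W (hc : D.Cfg C1 a tau r h) (hR : Ref D r CH kap W W' QU QU' B P0) (hdl : 0 ≤ dl)
    (hdl1 : dl ≤ 1) (hf : OpLe (D.ft r h W QU) dl) (u : ι → ℂ) :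
    D.en r h (W *ᵥ u) ≤ 4 * n2 u := by
  have h1 : W * lap (D.SO.f r h) * W = D.ft r h W QU + (1 - P0) := by
    unfold Fl.ft
    rw [Matrix.mul_sub, Matrix.sub_mul, WQUW hR]
    abel
  have h2 : ((D.en r h (W *ᵥ u) / 2 : ℝ) : ℂ) =
      ip u (D.ft r h W QU *ᵥ u) + (((n2 u : ℝ) : ℂ) - ip u (P0 *ᵥ u)) := by
    rw [← en_form hc, ← den_sandwich hR, h1, add_mulVec, sub_mulVec, one_mulVec, den_ip_add,
      den_ip_sub, ip_self]
  have h3 := congrArg Complex.re h2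
  rw [Complex.ofReal_re, Complex.add_re, Complex.sub_re, Complex.ofReal_re] at h3
  have h4 := den_P0 hR u
  have h5 : (ip u (D.ft r h W QU *ᵥ u)).re ≤ dl * n2 u := by
    refine ((le_abs_self _).trans (Complex.abs_re_le_norm _)).trans ?_
    refine (ip_le _ _).trans ?_
    have h6 : √(n2 (D.ft r h W QU *ᵥ u)) ≤ dl * √(n2 u) := by
      rw [Real.sqrt_le_left (by positivity), mul_pow, Real.sq_sqrt (n2_nonneg u)]
      exact hf u
    calc √(n2 u) * √(n2 (D.ft r h W QU *ᵥ u)) ≤ √(n2 u) * (dl * √(n2 u)) :=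
          mul_le_mul_of_nonneg_left h6 (Real.sqrt_nonneg _)
      _ = dl * (√(n2 u) * √(n2 u)) := by ring
      _ = dl * n2 u := by rw [Real.mul_self_sqrt (n2_nonneg u)]
  have h7 := n2_nonneg u
  have h8 : dl * n2 u ≤ 1 * n2 u := mul_le_mul_of_nonneg_right hdl1 h7
  linarith

theorem opLe_W (hc : D.Cfg C1 a tau r h) (hR : Ref D r CH kap W W' QU QU' B P0) (hdl : 0 ≤ dl)
    (hdl1 : dl ≤ 1) (hf : OpLe (D.ft r h W QU) dl) {A : Matrix ι ι ℂ} {b : ℝ} (hb : 0 ≤ b)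
    (hA : ∀ u v, ‖ip u (A *ᵥ v)‖ ≤ b * (√(D.en r h u) * √(D.en r h v))) :
    OpLe (W * A * W) (4 * b) := by
  have hs : ∀ u, √(D.en r h (W *ᵥ u)) ≤ 2 * √(n2 u) := by
    intro u
    rw [Real.sqrt_le_left (by positivity), mul_pow, Real.sq_sqrt (n2_nonneg u)]
    have := en_W hc hR hdl hdl1 hf u
    linarith
  refine opLe_of_form (by positivity) fun u v => ?_
  rw [den_sandwich hR]
  refine (hA _ _).trans ?_
  calc b * (√(D.en r h (W *ᵥ u)) * √(D.en r h (W *ᵥ v)))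
      ≤ b * ((2 * √(n2 u)) * (2 * √(n2 v))) :=
        mul_le_mul_of_nonneg_left (mul_le_mul (hs u) (hs v) (Real.sqrt_nonneg _)
          (by positivity)) hb
    _ = _ := by ring

theorem W_bound (hR : Ref D r CH kap W W' QU QU' B P0) (het : 0 < D.et r) (y : ι → ℂ)
    (hy : ∑ x, y x = 0) :
    n2 (W *ᵥ y) ≤ 2 * CH * D.et r * n2 y + 2 * kap * D.et r ^ 2 * (∑ x, ‖y x‖) ^ 2 := by
  obtain ⟨uH, uL, b, h1, h2, h3⟩ := hR.split (W *ᵥ y)
  set Y := W *ᵥ y with hY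
  change n2 uH ≤ CH * D.et r * n2 Y at h2
  change ∀ x, ‖uL x‖ ^ 2 ≤ kap * D.et r ^ 2 * n2 Y at h3
  have hCH := hR.CH0
  have hkap := hR.kap0
  have hY0 : 0 ≤ n2 Y := n2_nonneg _
  have hy0 : 0 ≤ n2 y := n2_nonneg _
  have h4 : ((n2 Y : ℝ) : ℂ) = ip uH y + ip uL y := by
    have h5 : ip Y Y = ip (W *ᵥ Y) y := by
      conv_lhs => arg 2; rw [hY]
      exact ip_herm W hR.hW Y y
    rw [← ip_self, h5]
    unfold ip
    rw [← Finset.sum_add_distrib]
    have h6 : ∑ x, star b * y x = 0 := by rw [← Finset.mul_sum, hy, mul_zero]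
    rw [← sub_zero (∑ x, star ((W *ᵥ Y) x) * y x), ← h6, ← Finset.sum_sub_distrib]
    refine Finset.sum_congr rfl fun x _ => ?_
    rw [h1, star_add, star_add]
    ring
  have h7 : n2 Y ≤ ‖ip uH y‖ + ‖ip uL y‖ := by
    have := congrArg norm h4
    rw [Complex.norm_real, Real.norm_of_nonneg hY0] at this
    rw [this]
    exact norm_add_le _ _
  set t := √(n2 Y) with ht
  have ht2 : t * t = n2 Y := Real.mul_self_sqrt hY0
  have ht0 : 0 ≤ t := Real.sqrt_nonneg _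
  set α := √(CH * D.et r * n2 y) with hα
  set β := √kap * D.et r * ∑ x, ‖y x‖ with hβ
  have hα0 : 0 ≤ α := Real.sqrt_nonneg _
  have hβ0 : 0 ≤ β := by
    have : 0 ≤ ∑ x, ‖y x‖ := Finset.sum_nonneg fun _ _ => norm_nonneg _
    positivity
  have h8 : ‖ip uH y‖ ≤ α * t := by
    refine (ip_le _ _).trans ?_
    rw [hα, ht, ← Real.sqrt_mul (n2_nonneg _), ← Real.sqrt_mul (by positivity)]
    apply Real.sqrt_le_sqrt
    calc n2 uH * n2 y ≤ (CH * D.et r * n2 Y) * n2 y := mul_le_mul_of_nonneg_right h2 hy0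
      _ = _ := by ring
  have h9 : ‖ip uL y‖ ≤ β * t := by
    unfold ip
    refine (norm_sum_le _ _).trans ?_
    have h10 : ∀ x, ‖uL x‖ ≤ √kap * D.et r * t := by
      intro x
      apply le_of_sq_le_sq _ (by positivity)
      calc ‖uL x‖ ^ 2 ≤ kap * D.et r ^ 2 * n2 Y := h3 x
        _ = (√kap * √kap) * D.et r ^ 2 * (t * t) := by rw [ht2, Real.mul_self_sqrt hkap]
        _ = _ := by ring
    calc ∑ x, ‖star (uL x) * y x‖ ≤ ∑ x, (√kap * D.et r * t) * ‖y x‖ := by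
          refine Finset.sum_le_sum fun x _ => ?_
          rw [norm_mul, norm_star]
          exact mul_le_mul_of_nonneg_right (h10 x) (norm_nonneg _)
      _ = β * t := by
          rw [← Finset.mul_sum, hβ]
          ring
  have h11 : t ≤ α + β := by
    rcases eq_or_lt_of_le ht0 with h0 | h0
    · rw [← h0]
      positivity
    · have h12 : t * t ≤ (α + β) * t := by
        rw [ht2]
        calc n2 Y ≤ α * t + β * t := by linarith
          _ = _ := by ring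
      exact le_of_mul_le_mul_right h12 h0
  have hα2 : α * α = CH * D.et r * n2 y := Real.mul_self_sqrt (by positivity)
  have hβ2 : β * β = kap * D.et r ^ 2 * (∑ x, ‖y x‖) ^ 2 := by
    rw [hβ]
    calc _ = (√kap * √kap) * D.et r ^ 2 * (∑ x, ‖y x‖) ^ 2 := by ring
      _ = _ := by rw [Real.mul_self_sqrt hkap]
  calc n2 Y = t * t := ht2.symm
    _ ≤ (α + β) * (α + β) := mul_le_mul h11 h11 ht0 (by positivity)
    _ ≤ 2 * (α * α) + 2 * (β * β) := by nlinarith [sq_nonneg (α - β)]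
    _ = _ := by rw [hα2, hβ2]; ring

end Pool.Agent.APS
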