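import Pool.Agent.APS.DEn
import Pool.Agent.APS.DComm

/-! # APS DFORM: form bounds of the error `errQ` and of the third derivatives.

Everything by `lap_form_le` and Cauchy-Schwarz in the form
`∑_xy α_xy β_xy ≤ √(∑ α²) √(∑ β²)` (double sums; `Finset.sum_mul_sq_le_sq_mul_sq` on `ι × ι`).
* `aP_form`: `|aP_xy| ≤ (2a/η) |G_xy|²` (`|Im g_x| ≤ ‖g_x‖ ≤ a`, `hc.g`), so
  `(1/2) ∑ |aP| |Δu| |Δv| ≤ (a/η) ∑ (|G||Δu|)(|G||Δv|) ≤ (a/η) √(en u) √(en v)`.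
* `errS_form`: `|errS_xy| ≤ 2 |(G g G)_xy| |G_xy|`, so
  `(1/2) ∑ ≤ ∑ (|G||Δu|)(|(GgG)||Δv|) ≤ √(en u) (2a/η) √(en v)` by `comm_gcg` with `c = gv`.
* `errQ_form`: sum of the two (`lap aP + lap errS`, `add_mulVec`): `3a/η`.
* `third_form`: `A = ∑_w λ e_w S.f3 w` (see `ErrB.third_S` for the same computation):
  `|A_xy| ≤ 12 |(G c G)_xy| |G_xy| + 12 ∑_w |c'_w| |G_xw|² |G_wy|²`, `c_w = λ e_w G_ww²`, `|c_w| ≤ λ C1²`,
  `|c'_w| ≤ λ C1`. First part: `6 √(en u) (2λC1²/η) √(en v)`. Second part: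
  `6 λ C1 ∑_xyw S_xw S_wy |Δu||Δv| ≤ 6 λ C1 √(E2 u) √(E2 v)`, `E2 u = ∑_xyw S_xw S_wy |u_x-u_y|² ≤
  2 ∑ S_xw S_wy (|u_x-u_w|² + |u_w-u_y|²) ≤ 4 (C1/η) en u` (`hc.row` and symmetry).
  Total `(12 λ C1² + 24 λ C1²)/η ≤ 36 λ C1³/η`.
-/

open Matrix Finset

noncomputable section

namespace Pool.Agent.APS

open Pool.Agent.Kin

variable {ι : Type} [Fintype ι] [DecidableEq ι] {D : Fl ι} {C1 a tau r : ℝ} {h : ι → ℝ}

private theorem cs2 (α β : ι → ι → ℝ) :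
    ∑ x, ∑ y, α x y * β x y ≤ √(∑ x, ∑ y, α x y ^ 2) * √(∑ x, ∑ y, β x y ^ 2) := by
  have h := Finset.sum_mul_sq_le_sq_mul_sq (Finset.univ : Finset (ι × ι))
    (fun p => α p.1 p.2) (fun p => β p.1 p.2)
  simp only [Fintype.sum_prod_type] at h
  rw [← Real.sqrt_mul (Finset.sum_nonneg fun x _ => Finset.sum_nonneg fun y _ => sq_nonneg _)]
  exact Real.le_sqrt_of_sq_le h

private theorem gcg_symm (hc : D.Cfg C1 a tau r h) (c : ι → ℂ) (x y : ι) :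
    D.gcg c r h x y = D.gcg c r h y x := by
  unfold Fl.gcg
  rw [Matrix.mul_apply, Matrix.mul_apply]
  refine Finset.sum_congr rfl fun w _ => ?_
  rw [Matrix.mul_diagonal, Matrix.mul_diagonal, hc.symm x w, hc.symm w y]
  ring

private theorem en_sq (D : Fl ι) (r : ℝ) (h : ι → ℝ) (u : ι → ℂ) :
    ∑ x, ∑ y, (‖D.G r h x y‖ * ‖u x - u y‖) ^ 2 = D.en r h u := by
  unfold Fl.en Fl.ed
  refine Finset.sum_congr rfl fun x _ => Finset.sum_congr rfl fun y _ => ?_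
  rw [mul_pow]

private theorem en_nn (D : Fl ι) (r : ℝ) (h : ι → ℝ) (u : ι → ℂ) : 0 ≤ D.en r h u := by
  rw [← en_sq]
  exact Finset.sum_nonneg fun x _ => Finset.sum_nonneg fun y _ => sq_nonneg _

/-- Cauchy-Schwarz with `(G c G)` and `G` -/
private theorem cs_gcg (hc : D.Cfg C1 a tau r h) {c : ι → ℂ} {b : ℝ} (hb0 : 0 ≤ b)
    (hb : ∀ w, ‖c w‖ ≤ b) (u v : ι → ℂ) :
    ∑ x, ∑ y, ‖D.gcg c r h x y‖ * ‖D.G r h x y‖ * (‖u x - u y‖ * ‖v x - v y‖) ≤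
      2 * b / D.et r * (√(D.en r h u) * √(D.en r h v)) := by
  have het := hc.et0
  have h1 := cs2 (fun x y => ‖D.G r h x y‖ * ‖u x - u y‖)
    (fun x y => ‖D.gcg c r h x y‖ * ‖v x - v y‖)
  rw [en_sq] at h1
  have h2 : √(∑ x, ∑ y, (‖D.gcg c r h x y‖ * ‖v x - v y‖) ^ 2) ≤
      2 * b / D.et r * √(D.en r h v) := by
    have h3 := comm_gcg hc hb0 hb v
    have h4 : ∑ x, ∑ y, (‖D.gcg c r h x y‖ * ‖v x - v y‖) ^ 2 =
        ∑ x, ∑ y, ‖D.gcg c r h x y‖ ^ 2 * ‖v x - v y‖ ^ 2 := by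
      refine Finset.sum_congr rfl fun x _ => Finset.sum_congr rfl fun y _ => ?_
      rw [mul_pow]
    rw [h4]
    refine (Real.sqrt_le_sqrt h3).trans (le_of_eq ?_)
    rw [Real.sqrt_mul (sq_nonneg _), Real.sqrt_sq (by positivity)]
  calc _ = ∑ x, ∑ y, ‖D.G r h x y‖ * ‖u x - u y‖ * (‖D.gcg c r h x y‖ * ‖v x - v y‖) := by
        refine Finset.sum_congr rfl fun x _ => Finset.sum_congr rfl fun y _ => ?_
        ring
    _ ≤ _ := h1
    _ ≤ √(D.en r h u) * (2 * b / D.et r * √(D.en r h v)) :=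
        mul_le_mul_of_nonneg_left h2 (Real.sqrt_nonneg _)
    _ = _ := by ring

theorem aP_form (hc : D.Cfg C1 a tau r h) (u v : ι → ℂ) :
    ‖ip u (lap (D.aP r h) *ᵥ v)‖ ≤ a / D.et r * (√(D.en r h u) * √(D.en r h v)) := by
  have het := hc.et0
  have hsym : ∀ x y, D.aP r h x y = D.aP r h y x := by
    intro x y
    unfold Fl.aP
    rw [hc.symm x y, add_comm]
  have hn : ∀ x y, ‖D.aP r h x y‖ ≤ 2 * a / D.et r * ‖D.G r h x y‖ ^ 2 := by
    intro x y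
    unfold Fl.aP
    rw [Complex.norm_real, Real.norm_eq_abs, abs_div, abs_of_pos het, abs_mul,
      abs_of_nonneg (sq_nonneg _)]
    have h1 : |(D.gv r h x).im + (D.gv r h y).im| ≤ 2 * a := by
      have h2 := (Complex.abs_im_le_norm (D.gv r h x)).trans (hc.g x)
      have h3 := (Complex.abs_im_le_norm (D.gv r h y)).trans (hc.g y)
      have h4 := abs_add_le (D.gv r h x).im (D.gv r h y).im
      linarith
    rw [div_mul_eq_mul_div, mul_comm (2 * a)]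
    gcongr
  refine (lap_form_le _ hsym u v).trans ?_
  have h1 := cs2 (fun x y => ‖D.G r h x y‖ * ‖u x - u y‖)
    (fun x y => ‖D.G r h x y‖ * ‖v x - v y‖)
  rw [en_sq, en_sq] at h1
  have h2 : ∑ x, ∑ y, ‖D.aP r h x y‖ * (‖u x - u y‖ * ‖v x - v y‖) ≤
      2 * a / D.et r *
        ∑ x, ∑ y, ‖D.G r h x y‖ * ‖u x - u y‖ * (‖D.G r h x y‖ * ‖v x - v y‖) := by
    rw [Finset.mul_sum]
    refine Finset.sum_le_sum fun x _ => ?_
    rw [Finset.mul_sum]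
    refine Finset.sum_le_sum fun y _ => ?_
    calc ‖D.aP r h x y‖ * (‖u x - u y‖ * ‖v x - v y‖) ≤
        2 * a / D.et r * ‖D.G r h x y‖ ^ 2 * (‖u x - u y‖ * ‖v x - v y‖) :=
          mul_le_mul_of_nonneg_right (hn x y) (by positivity)
      _ = _ := by ring
  have ha := hc.a0
  have h3 : 0 ≤ 2 * a / D.et r := by positivity
  have h4 := mul_le_mul_of_nonneg_left h1 h3
  calc 1 / 2 * ∑ x, ∑ y, ‖D.aP r h x y‖ * (‖u x - u y‖ * ‖v x - v y‖)
      ≤ 1 / 2 * (2 * a / D.et r * (√(D.en r h u) * √(D.en r h v))) := by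
        linarith
    _ = _ := by ring

theorem errS_form (hc : D.Cfg C1 a tau r h) (u v : ι → ℂ) :
    ‖ip u (lap (D.errS r h) *ᵥ v)‖ ≤ 2 * a / D.et r * (√(D.en r h u) * √(D.en r h v)) := by
  have hsym : ∀ x y, D.errS r h x y = D.errS r h y x := by
    intro x y
    unfold Fl.errS
    rw [hc.symm x y, gcg_symm hc]
  have hn : ∀ x y, ‖D.errS r h x y‖ ≤
      2 * (‖D.gcg (D.gv r h) r h x y‖ * ‖D.G r h x y‖) := by
    intro x y
    unfold Fl.errS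
    rw [Complex.norm_real, Real.norm_eq_abs, abs_mul, abs_of_pos (by norm_num : (0:ℝ) < 2)]
    have h1 := Complex.abs_re_le_norm (D.gcg (D.gv r h) r h x y * star (D.G r h x y))
    rw [norm_mul, norm_star] at h1
    linarith
  refine (lap_form_le _ hsym u v).trans ?_
  have h1 := cs_gcg hc hc.a0.le (c := D.gv r h) hc.g u v
  refine le_trans ?_ h1
  rw [Finset.mul_sum]
  refine Finset.sum_le_sum fun x _ => ?_
  rw [Finset.mul_sum]
  refine Finset.sum_le_sum fun y _ => ?_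
  have h2 := mul_le_mul_of_nonneg_right (hn x y)
    (by positivity : 0 ≤ ‖u x - u y‖ * ‖v x - v y‖)
  linarith

theorem errQ_form (hc : D.Cfg C1 a tau r h) (u v : ι → ℂ) :
    ‖ip u (D.errQ r h *ᵥ v)‖ ≤ 3 * a / D.et r * (√(D.en r h u) * √(D.en r h v)) := by
  have h1 : ip u (D.errQ r h *ᵥ v) = ip u (lap (D.aP r h) *ᵥ v) +
      ip u (lap (D.errS r h) *ᵥ v) := by
    unfold Fl.errQ ip
    rw [← Finset.sum_add_distrib]
    refine Finset.sum_congr rfl fun x _ => ?_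
    rw [Matrix.add_mulVec, Pi.add_apply]
    ring
  rw [h1]
  refine (norm_add_le _ _).trans ((add_le_add (aP_form hc u v) (errS_form hc u v)).trans
    (le_of_eq ?_))
  ring

/-- two steps of `S` -/
private theorem E2_le (hc : D.Cfg C1 a tau r h) (u : ι → ℂ) :
    ∑ x, ∑ y, (∑ w, ‖D.G r h x w‖ ^ 2 * ‖D.G r h w y‖ ^ 2) * ‖u x - u y‖ ^ 2 ≤
      4 * (C1 / D.et r) * D.en r h u := by
  set q := C1 / D.et r with hq
  have hrow : ∀ x, ∑ y, ‖D.G r h x y‖ ^ 2 ≤ q := hc.row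
  have hcol : ∀ y, ∑ x, ‖D.G r h x y‖ ^ 2 ≤ q := by
    intro y
    refine le_trans (le_of_eq ?_) (hc.row y)
    exact Finset.sum_congr rfl fun x _ => by rw [hc.symm x y]
  have h0 : ∀ x y w, ‖D.G r h x w‖ ^ 2 * ‖D.G r h w y‖ ^ 2 * ‖u x - u y‖ ^ 2 ≤
      2 * (‖D.G r h x w‖ ^ 2 * ‖u x - u w‖ ^ 2) * ‖D.G r h w y‖ ^ 2 +
      2 * (‖D.G r h w y‖ ^ 2 * ‖u w - u y‖ ^ 2) * ‖D.G r h x w‖ ^ 2 := by
    intro x y w
    have h1 : ‖u x - u y‖ ≤ ‖u x - u w‖ + ‖u w - u y‖ := by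
      have := norm_add_le (u x - u w) (u w - u y)
      rwa [sub_add_sub_cancel] at this
    have h2 : ‖u x - u y‖ ^ 2 ≤ 2 * ‖u x - u w‖ ^ 2 + 2 * ‖u w - u y‖ ^ 2 := by
      have h3 := pow_le_pow_left₀ (norm_nonneg _) h1 2
      nlinarith [sq_nonneg (‖u x - u w‖ - ‖u w - u y‖)]
    have h4 := mul_le_mul_of_nonneg_left h2
      (by positivity : 0 ≤ ‖D.G r h x w‖ ^ 2 * ‖D.G r h w y‖ ^ 2)
    linarith
  have h1 : ∑ x, ∑ y, (∑ w, ‖D.G r h x w‖ ^ 2 * ‖D.G r h w y‖ ^ 2) * ‖u x - u y‖ ^ 2 ≤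
      ∑ x, ∑ y, ∑ w, (2 * (‖D.G r h x w‖ ^ 2 * ‖u x - u w‖ ^ 2) * ‖D.G r h w y‖ ^ 2 +
      2 * (‖D.G r h w y‖ ^ 2 * ‖u w - u y‖ ^ 2) * ‖D.G r h x w‖ ^ 2) := by
    refine Finset.sum_le_sum fun x _ => Finset.sum_le_sum fun y _ => ?_
    rw [Finset.sum_mul]
    exact Finset.sum_le_sum fun w _ => h0 x y w
  refine h1.trans ?_
  simp only [Finset.sum_add_distrib]
  have h2 : ∑ x, ∑ y, ∑ w, 2 * (‖D.G r h x w‖ ^ 2 * ‖u x - u w‖ ^ 2) * ‖D.G r h w y‖ ^ 2 ≤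
      2 * q * D.en r h u := by
    have e : ∑ x, ∑ y, ∑ w, 2 * (‖D.G r h x w‖ ^ 2 * ‖u x - u w‖ ^ 2) * ‖D.G r h w y‖ ^ 2 =
        ∑ x, ∑ w, 2 * (‖D.G r h x w‖ ^ 2 * ‖u x - u w‖ ^ 2) * ∑ y, ‖D.G r h w y‖ ^ 2 := by
      refine Finset.sum_congr rfl fun x _ => ?_
      rw [Finset.sum_comm]
      refine Finset.sum_congr rfl fun w _ => ?_
      rw [Finset.mul_sum]
    rw [e]
    unfold Fl.en Fl.ed
    rw [Finset.mul_sum]
    refine Finset.sum_le_sum fun x _ => ?_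
    rw [Finset.mul_sum]
    refine Finset.sum_le_sum fun w _ => ?_
    calc _ ≤ 2 * (‖D.G r h x w‖ ^ 2 * ‖u x - u w‖ ^ 2) * q :=
          mul_le_mul_of_nonneg_left (hrow w) (by positivity)
      _ = _ := by ring
  have h3 : ∑ x, ∑ y, ∑ w, 2 * (‖D.G r h w y‖ ^ 2 * ‖u w - u y‖ ^ 2) * ‖D.G r h x w‖ ^ 2 ≤
      2 * q * D.en r h u := by
    have e : ∑ x, ∑ y, ∑ w, 2 * (‖D.G r h w y‖ ^ 2 * ‖u w - u y‖ ^ 2) * ‖D.G r h x w‖ ^ 2 =
        ∑ w, ∑ y, 2 * (‖D.G r h w y‖ ^ 2 * ‖u w - u y‖ ^ 2) * ∑ x, ‖D.G r h x w‖ ^ 2 := by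
      rw [Finset.sum_comm]
      have e2 : ∀ y, ∑ x, ∑ w, 2 * (‖D.G r h w y‖ ^ 2 * ‖u w - u y‖ ^ 2) *
          ‖D.G r h x w‖ ^ 2 = ∑ w, 2 * (‖D.G r h w y‖ ^ 2 * ‖u w - u y‖ ^ 2) *
          ∑ x, ‖D.G r h x w‖ ^ 2 := by
        intro y
        rw [Finset.sum_comm]
        refine Finset.sum_congr rfl fun w _ => ?_
        rw [Finset.mul_sum]
      simp only [e2]
      rw [Finset.sum_comm]
    rw [e]
    unfold Fl.en Fl.ed
    rw [Finset.mul_sum]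
    refine Finset.sum_le_sum fun w _ => ?_
    rw [Finset.mul_sum]
    refine Finset.sum_le_sum fun y _ => ?_
    calc _ ≤ 2 * (‖D.G r h w y‖ ^ 2 * ‖u w - u y‖ ^ 2) * q :=
          mul_le_mul_of_nonneg_left (hcol w) (by positivity)
      _ = _ := by ring
  linarith

private theorem third_cs (hc : D.Cfg C1 a tau r h) (u v : ι → ℂ) :
    ∑ x, ∑ y, (∑ w, ‖D.G r h x w‖ ^ 2 * ‖D.G r h w y‖ ^ 2) * (‖u x - u y‖ * ‖v x - v y‖) ≤
      4 * (C1 / D.et r) * (√(D.en r h u) * √(D.en r h v)) := by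
  have het := hc.et0
  have hC := hc.one_le
  set P : ι → ι → ℝ := fun x y => ∑ w, ‖D.G r h x w‖ ^ 2 * ‖D.G r h w y‖ ^ 2 with hP
  have hP0 : ∀ x y, 0 ≤ P x y := fun x y => Finset.sum_nonneg fun w _ => by positivity
  have h1 := cs2 (fun x y => √(P x y) * ‖u x - u y‖) (fun x y => √(P x y) * ‖v x - v y‖)
  have h2 : ∀ u : ι → ℂ, √(∑ x, ∑ y, (√(P x y) * ‖u x - u y‖) ^ 2) ≤
      √(4 * (C1 / D.et r)) * √(D.en r h u) := by
    intro u
    rw [← Real.sqrt_mul (by positivity)]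
    refine Real.sqrt_le_sqrt (le_trans (le_of_eq ?_) (E2_le hc u))
    refine Finset.sum_congr rfl fun x _ => Finset.sum_congr rfl fun y _ => ?_
    rw [mul_pow, Real.sq_sqrt (hP0 x y)]
  have h3 : ∑ x, ∑ y, P x y * (‖u x - u y‖ * ‖v x - v y‖) =
      ∑ x, ∑ y, √(P x y) * ‖u x - u y‖ * (√(P x y) * ‖v x - v y‖) := by
    refine Finset.sum_congr rfl fun x _ => Finset.sum_congr rfl fun y _ => ?_
    have := Real.mul_self_sqrt (hP0 x y)
    calc P x y * (‖u x - u y‖ * ‖v x - v y‖) =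
          √(P x y) * √(P x y) * (‖u x - u y‖ * ‖v x - v y‖) := by rw [this]
      _ = _ := by ring
  change ∑ x, ∑ y, P x y * (‖u x - u y‖ * ‖v x - v y‖) ≤ _
  rw [h3]
  refine h1.trans ((mul_le_mul (h2 u) (h2 v) (Real.sqrt_nonneg _) (by positivity)).trans
    (le_of_eq ?_))
  have h4 : √(4 * (C1 / D.et r)) * √(4 * (C1 / D.et r)) = 4 * (C1 / D.et r) :=
    Real.mul_self_sqrt (by positivity)
  calc _ = √(4 * (C1 / D.et r)) * √(4 * (C1 / D.et r)) * (√(D.en r h u) * √(D.en r h v)) := by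
        ring
    _ = _ := by rw [h4]

theorem third_form (hc : D.Cfg C1 a tau r h) (e : ι → ℝ) (he : ∀ w, |e w| ≤ 1) (u v : ι → ℂ) :
    ‖ip u (lap (∑ w, ((D.lam * e w : ℝ) : ℂ) • D.SO.f3 w r h) *ᵥ v)‖ ≤
      36 * D.lam * C1 ^ 3 / D.et r * (√(D.en r h u) * √(D.en r h v)) := by
  have hC := hc.one_le
  have hC0 : 0 ≤ C1 := by linarith
  have het := hc.et0
  have hl := hc.lam0
  have hle : ∀ w, ‖((D.lam * e w : ℝ) : ℂ)‖ ≤ D.lam := fun w => by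
    rw [Complex.norm_real, Real.norm_eq_abs, abs_mul, abs_of_pos hl]
    have := he w
    nlinarith
  set c : ι → ℂ := fun w => ((D.lam * e w : ℝ) : ℂ) * D.G r h w w ^ 2 with hcd
  have hcb : ∀ w, ‖c w‖ ≤ D.lam * C1 ^ 2 := fun w => by
    simp only [hcd]
    rw [norm_mul, norm_pow]
    have := hle w
    have := hc.diag w
    gcongr
  set A : Matrix ι ι ℂ := ∑ w, ((D.lam * e w : ℝ) : ℂ) • D.SO.f3 w r h with hA
  have hAe : ∀ x y, A x y = ((-12 * (D.gcg c r h x y * star (D.G r h x y)).re -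
      12 * ∑ w, D.lam * e w * (D.G r h w w).re * (‖D.G r h x w‖ ^ 2 * ‖D.G r h w y‖ ^ 2) : ℝ) :
        ℂ) := by
    intro x y
    rw [hA, Matrix.sum_apply]
    simp only [Matrix.smul_apply, smul_eq_mul, Fl.SO]
    have e1 : (D.gcg c r h x y * star (D.G r h x y)).re =
        ∑ w, D.lam * e w * (D.G r h w w ^ 2 * (D.G r h x w * D.G r h w y) *
          star (D.G r h x y)).re := by
      unfold Fl.gcg
      rw [Matrix.mul_apply, Finset.sum_mul, Complex.re_sum]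
      refine Finset.sum_congr rfl fun w _ => ?_
      rw [Matrix.mul_diagonal]
      have : D.G r h x w * c w * D.G r h w y * star (D.G r h x y) =
          ((D.lam * e w : ℝ) : ℂ) * (D.G r h w w ^ 2 * (D.G r h x w * D.G r h w y) *
            star (D.G r h x y)) := by
        simp only [hcd]
        ring
      rw [this, Complex.re_ofReal_mul]
    rw [e1, Finset.mul_sum, Finset.mul_sum, ← Finset.sum_sub_distrib, Complex.ofReal_sum]
    refine Finset.sum_congr rfl fun w _ => ?_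
    rw [← Complex.ofReal_mul]
    congr 1
    ring
  have hsym : ∀ x y, A x y = A y x := by
    intro x y
    rw [hAe, hAe, gcg_symm hc c x y, hc.symm x y]
    congr 3
    refine Finset.sum_congr rfl fun w _ => ?_
    rw [hc.symm x w, hc.symm w y]
    ring
  have hn : ∀ x y, ‖A x y‖ ≤ 12 * (‖D.gcg c r h x y‖ * ‖D.G r h x y‖) +
      12 * (D.lam * C1) * ∑ w, ‖D.G r h x w‖ ^ 2 * ‖D.G r h w y‖ ^ 2 := by
    intro x y
    rw [hAe, Complex.norm_real, Real.norm_eq_abs]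
    have h1 : |(D.gcg c r h x y * star (D.G r h x y)).re| ≤
        ‖D.gcg c r h x y‖ * ‖D.G r h x y‖ := by
      have := Complex.abs_re_le_norm (D.gcg c r h x y * star (D.G r h x y))
      rwa [norm_mul, norm_star] at this
    have h2 : |∑ w, D.lam * e w * (D.G r h w w).re * (‖D.G r h x w‖ ^ 2 * ‖D.G r h w y‖ ^ 2)| ≤
        D.lam * C1 * ∑ w, ‖D.G r h x w‖ ^ 2 * ‖D.G r h w y‖ ^ 2 := by
      refine (Finset.abs_sum_le_sum_abs _ _).trans ?_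
      rw [Finset.mul_sum]
      refine Finset.sum_le_sum fun w _ => ?_
      rw [abs_mul, abs_mul, abs_of_nonneg (by positivity :
        0 ≤ ‖D.G r h x w‖ ^ 2 * ‖D.G r h w y‖ ^ 2)]
      have h3 := hle w
      rw [Complex.norm_real, Real.norm_eq_abs] at h3
      have h4 := (Complex.abs_re_le_norm (D.G r h w w)).trans (hc.diag w)
      gcongr
    have h5 := abs_sub (-12 * (D.gcg c r h x y * star (D.G r h x y)).re)
      (12 * ∑ w, D.lam * e w * (D.G r h w w).re * (‖D.G r h x w‖ ^ 2 * ‖D.G r h w y‖ ^ 2))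
    have h6 : |(-12 : ℝ) * (D.gcg c r h x y * star (D.G r h x y)).re| =
        12 * |(D.gcg c r h x y * star (D.G r h x y)).re| := by
      rw [abs_mul]
      norm_num
    have h7 : |(12 : ℝ) * ∑ w, D.lam * e w * (D.G r h w w).re *
        (‖D.G r h x w‖ ^ 2 * ‖D.G r h w y‖ ^ 2)| = 12 * |∑ w, D.lam * e w * (D.G r h w w).re *
        (‖D.G r h x w‖ ^ 2 * ‖D.G r h w y‖ ^ 2)| := by
      rw [abs_mul]
      norm_num
    rw [h6, h7] at h5
    linarith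
  refine (lap_form_le _ hsym u v).trans ?_
  have h1 := cs_gcg hc (by positivity) hcb u v
  have h2 := third_cs hc u v
  have h3 : ∑ x, ∑ y, ‖A x y‖ * (‖u x - u y‖ * ‖v x - v y‖) ≤
      12 * ∑ x, ∑ y, ‖D.gcg c r h x y‖ * ‖D.G r h x y‖ * (‖u x - u y‖ * ‖v x - v y‖) +
      12 * (D.lam * C1) * ∑ x, ∑ y, (∑ w, ‖D.G r h x w‖ ^ 2 * ‖D.G r h w y‖ ^ 2) *
        (‖u x - u y‖ * ‖v x - v y‖) := by
    rw [Finset.mul_sum, Finset.mul_sum, ← Finset.sum_add_distrib]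
    refine Finset.sum_le_sum fun x _ => ?_
    rw [Finset.mul_sum, Finset.mul_sum, ← Finset.sum_add_distrib]
    refine Finset.sum_le_sum fun y _ => ?_
    have h4 := mul_le_mul_of_nonneg_right (hn x y)
      (by positivity : 0 ≤ ‖u x - u y‖ * ‖v x - v y‖)
    linarith
  have hE : 0 ≤ √(D.en r h u) * √(D.en r h v) := by positivity
  set E := √(D.en r h u) * √(D.en r h v) with hEd
  have h5 : 12 * (D.lam * C1) * (4 * (C1 / D.et r) * E) = 48 * D.lam * C1 ^ 2 / D.et r * E := by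
    ring
  have h6 : 12 * (2 * (D.lam * C1 ^ 2) / D.et r * E) = 24 * D.lam * C1 ^ 2 / D.et r * E := by
    ring
  have h7 := mul_le_mul_of_nonneg_left h2 (by positivity : 0 ≤ 12 * (D.lam * C1))
  have h8 : D.lam * C1 ^ 2 / D.et r * E ≤ D.lam * C1 ^ 3 / D.et r * E := by
    have : C1 ^ 2 ≤ C1 ^ 3 := pow_le_pow_right₀ hC (by norm_num)
    gcongr
  have h9 : 36 * D.lam * C1 ^ 2 / D.et r * E = 36 * (D.lam * C1 ^ 2 / D.et r * E) := by ring
  have h10 : 36 * D.lam * C1 ^ 3 / D.et r * E = 36 * (D.lam * C1 ^ 3 / D.et r * E) := by ring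
  have h11 : 48 * D.lam * C1 ^ 2 / D.et r * E = 48 * (D.lam * C1 ^ 2 / D.et r * E) := by ring
  have h12 : 24 * D.lam * C1 ^ 2 / D.et r * E = 24 * (D.lam * C1 ^ 2 / D.et r * E) := by ring
  rw [h10]
  rw [h5, h11] at h7
  have h13 := mul_le_mul_of_nonneg_left h1 (by norm_num : (0:ℝ) ≤ 12)
  rw [h6, h12] at h13
  linarith

end Pool.Agent.APS
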