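import Pool.Agent.APS.DDefs

/-! # APS DLAP: elementary facts on `lap A = diag(A 1) - A`, and operator norms from forms.

* `lap_mulVec`: `(lap A v)_x = ∑_y A_xy v_x - ∑_y A_xy v_y` (unfold, `mulVec_diagonal`).
* `lap_form`: for symmetric `A` (`A x y = A y x`): `∑_x conj(u_x) ∑_y A_xy (v_x - v_y)`; exchange the
  names `x, y` (`Finset.sum_comm`), use the symmetry, and take the mean of the two expressions.
* `lap_form_le`: from `lap_form` with the triangle inequality.
* `lap_sum_zero`: the case `u = 1` of `lap_form` (`star 1 - star 1 = 0`).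
* `lap_herm`: entries: real symmetric `A` (`A x y = A y x`, `star (A x y) = A x y`).
* `opLe_of_form`: apply the hypothesis with `u = A v`: `n2 (A v) = ip (A v) (A v) ≤ c √(n2 (A v)) √(n2 v)`,
  hence `√(n2 (A v)) ≤ c √(n2 v)` (if `n2 (A v) = 0` trivial), square.
* `ip_herm`: `ip u (W v) = ip (W u) v` for hermitian `W` (`dotProduct_mulVec` or sums).
-/

open Matrix Finset

noncomputable section

namespace Pool.Agent.APS

variable {κ ι : Type} [Fintype κ] [DecidableEq κ]

theorem lap_mulVec (A : Matrix κ κ ℂ) (v : κ → ℂ) (x : κ) :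
    (lap A *ᵥ v) x = ∑ y, A x y * (v x - v y) := by
  unfold lap
  rw [sub_mulVec, Pi.sub_apply, mulVec_diagonal, Finset.sum_mul]
  simp only [mulVec, dotProduct, mul_sub, Finset.sum_sub_distrib]

theorem lap_apply (A : Matrix κ κ ℂ) (x y : κ) :
    lap A x y = (if x = y then ∑ z, A x z else 0) - A x y := by
  unfold lap
  rw [Matrix.sub_apply, Matrix.diagonal_apply]

theorem lap_add (A B : Matrix κ κ ℂ) : lap (A + B) = lap A + lap B := by
  ext x y
  simp only [lap_apply, Matrix.add_apply, Finset.sum_add_distrib]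
  split_ifs <;> ring

theorem lap_sub (A B : Matrix κ κ ℂ) : lap (A - B) = lap A - lap B := by
  ext x y
  simp only [lap_apply, Matrix.sub_apply, Finset.sum_sub_distrib]
  split_ifs <;> ring

theorem lap_smul (c : ℂ) (A : Matrix κ κ ℂ) : lap (c • A) = c • lap A := by
  ext x y
  simp only [lap_apply, Matrix.smul_apply, smul_eq_mul, ← Finset.mul_sum]
  split_ifs <;> ring

theorem lap_sum (s : Finset ι) (A : ι → Matrix κ κ ℂ) :
    lap (∑ w ∈ s, A w) = ∑ w ∈ s, lap (A w) := by
  classical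
  induction s using Finset.induction_on with
  | empty =>
    rw [Finset.sum_empty, Finset.sum_empty]
    ext x y
    rw [lap_apply]
    simp
  | insert a s ha ih => rw [Finset.sum_insert ha, Finset.sum_insert ha, lap_add, ih]

theorem lap_form (A : Matrix κ κ ℂ) (hA : ∀ x y, A x y = A y x) (u v : κ → ℂ) :
    ip u (lap A *ᵥ v) = (1 / 2) * ∑ x, ∑ y, A x y * (star (u x - u y) * (v x - v y)) := by
  have h1 : ip u (lap A *ᵥ v) = ∑ x, ∑ y, star (u x) * (A x y * (v x - v y)) := by
    unfold ip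
    refine Finset.sum_congr rfl fun x _ => ?_
    rw [lap_mulVec, Finset.mul_sum]
  have h2 : ip u (lap A *ᵥ v) = ∑ x, ∑ y, star (u y) * (A x y * (v y - v x)) := by
    rw [h1, Finset.sum_comm]
    refine Finset.sum_congr rfl fun x _ => Finset.sum_congr rfl fun y _ => ?_
    rw [hA y x]
  have h3 : ip u (lap A *ᵥ v) + ip u (lap A *ᵥ v) =
      ∑ x, ∑ y, A x y * (star (u x - u y) * (v x - v y)) := by
    conv_lhs => rw [h1]
    conv_lhs => arg 2; rw [← h1, h2]
    rw [← Finset.sum_add_distrib]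
    refine Finset.sum_congr rfl fun x _ => ?_
    rw [← Finset.sum_add_distrib]
    refine Finset.sum_congr rfl fun y _ => ?_
    rw [star_sub]
    ring
  rw [← h3]
  ring

theorem lap_form_le (A : Matrix κ κ ℂ) (hA : ∀ x y, A x y = A y x) (u v : κ → ℂ) :
    ‖ip u (lap A *ᵥ v)‖ ≤ (1 / 2) * ∑ x, ∑ y, ‖A x y‖ * (‖u x - u y‖ * ‖v x - v y‖) := by
  rw [lap_form A hA, norm_mul]
  have h0 : ‖(1 / 2 : ℂ)‖ = 1 / 2 := by simp
  rw [h0]
  refine mul_le_mul_of_nonneg_left ?_ (by norm_num)
  refine (norm_sum_le _ _).trans (Finset.sum_le_sum fun x _ => ?_)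
  refine (norm_sum_le _ _).trans (Finset.sum_le_sum fun y _ => ?_)
  rw [norm_mul, norm_mul, norm_star]

theorem lap_sum_zero (A : Matrix κ κ ℂ) (hA : ∀ x y, A x y = A y x) (v : κ → ℂ) :
    ∑ x, (lap A *ᵥ v) x = 0 := by
  have h1 := lap_form A hA (fun _ => 1) v
  simp only [sub_self, star_zero, zero_mul, mul_zero, Finset.sum_const_zero] at h1
  unfold ip at h1
  simpa using h1

theorem lap_herm (A : Matrix κ κ ℂ) (hA : ∀ x y, A x y = A y x) (hr : ∀ x y, star (A x y) = A x y) :
    (lap A)ᴴ = lap A := by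
  ext x y
  rw [Matrix.conjTranspose_apply, lap_apply, lap_apply, star_sub, hr, hA y x]
  congr 1
  by_cases hxy : x = y
  · subst hxy
    rw [if_pos rfl, star_sum]
    exact Finset.sum_congr rfl fun z _ => hr _ _
  · rw [if_neg hxy, if_neg (Ne.symm hxy), star_zero]

/-- `lap A` kills the constants from both sides -/
theorem lap_P0 (A : Matrix κ κ ℂ) (hA : ∀ x y, A x y = A y x) (P0 : Matrix κ κ ℂ) (c : ℂ)
    (hP : ∀ x y, P0 x y = c) : lap A * P0 = 0 ∧ P0 * lap A = 0 := by
  have h1 : ∀ x, ∑ z, lap A x z = 0 := by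
    intro x
    have := lap_mulVec A (fun _ => 1) x
    simp only [sub_self, mul_zero, Finset.sum_const_zero] at this
    simpa [mulVec, dotProduct] using this
  have h2 : ∀ x y, lap A x y = lap A y x := by
    intro x y
    rw [lap_apply, lap_apply, hA y x]
    congr 1
    by_cases hxy : x = y
    · subst hxy
      rfl
    · rw [if_neg hxy, if_neg (Ne.symm hxy)]
  constructor
  · ext x y
    rw [Matrix.mul_apply, Matrix.zero_apply]
    simp only [hP]
    rw [← Finset.sum_mul, h1, zero_mul]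
  · ext x y
    rw [Matrix.mul_apply, Matrix.zero_apply]
    simp only [hP]
    rw [← Finset.mul_sum]
    simp only [h2 _ y]
    rw [h1, mul_zero]

omit [DecidableEq κ] in
theorem n2_nonneg (u : κ → ℂ) : 0 ≤ n2 u := Finset.sum_nonneg fun _ _ => sq_nonneg _

omit [DecidableEq κ] in
theorem ip_self (u : κ → ℂ) : ip u u = ((n2 u : ℝ) : ℂ) := by
  unfold ip n2
  rw [Complex.ofReal_sum]
  refine Finset.sum_congr rfl fun x _ => ?_
  rw [Complex.star_def, ← Complex.normSq_eq_conj_mul_self, Complex.normSq_eq_norm_sq]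

omit [DecidableEq κ] in
theorem ip_le (u v : κ → ℂ) : ‖ip u v‖ ≤ √(n2 u) * √(n2 v) := by
  unfold ip n2
  refine (norm_sum_le _ _).trans ?_
  simp only [norm_mul, norm_star]
  exact Real.sum_mul_le_sqrt_mul_sqrt _ _ _

omit [DecidableEq κ] in
theorem ip_herm (W : Matrix κ κ ℂ) (hW : Wᴴ = W) (u v : κ → ℂ) :
    ip u (W *ᵥ v) = ip (W *ᵥ u) v := by
  unfold ip
  simp only [mulVec, dotProduct, star_sum, star_mul', Finset.mul_sum, Finset.sum_mul]
  rw [Finset.sum_comm]
  refine Finset.sum_congr rfl fun y _ => Finset.sum_congr rfl fun x _ => ?_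
  have h1 : star (W y x) = W x y := by
    conv_rhs => rw [← hW]
    rfl
  rw [h1]
  ring

omit [DecidableEq κ] in
theorem opLe_of_form {A : Matrix κ κ ℂ} {c : ℝ} (hc : 0 ≤ c)
    (h : ∀ u v, ‖ip u (A *ᵥ v)‖ ≤ c * (√(n2 u) * √(n2 v))) : OpLe A c := by
  intro u
  change n2 (A *ᵥ u) ≤ c ^ 2 * n2 u
  have h1 := h (A *ᵥ u) u
  rw [ip_self, Complex.norm_real, Real.norm_of_nonneg (n2_nonneg _)] at h1
  set a := n2 (A *ᵥ u) with ha
  set b := n2 u with hb
  have ha0 : 0 ≤ a := n2_nonneg _
  have hb0 : 0 ≤ b := n2_nonneg _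
  have hsa : √a * √a = a := Real.mul_self_sqrt ha0
  have hsb : √b * √b = b := Real.mul_self_sqrt hb0
  rcases eq_or_lt_of_le (Real.sqrt_nonneg a) with h0 | h0
  · have : a = 0 := by rw [← hsa, ← h0, zero_mul]
    rw [this]
    positivity
  · have h2 : √a ≤ c * √b := by
      have h3 : √a * √a ≤ √a * (c * √b) := by
        rw [hsa]
        calc a ≤ _ := h1
          _ = _ := by ring
      exact le_of_mul_le_mul_left h3 h0
    calc a = √a * √a := hsa.symm
      _ ≤ (c * √b) * (c * √b) := mul_le_mul h2 h2 h0.le (by positivity)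
      _ = c ^ 2 * (√b * √b) := by ring
      _ = _ := by rw [hsb]

end Pool.Agent.APS
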