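import Pool.Agent.APS.DDefs
import Pool.Agent.APS.CfgB

/-! # APS DPHI: the quantities `Φ_xw(v) = ∑_y conj(G_xy) (v_x - v_y) G_yw`.

* `Ph_hs`: `Φ = C G` with `C_xy = conj(G_xy) (v_x - v_y)`; `opLe_row_mul` (with `hc.G_op`) for each row,
  sum over the rows: `∑_xw |Φ|² ≤ (1/η)² ∑_xy |C_xy|² = (1/η)² en v`.
* `Ph_pt`: Cauchy-Schwarz in `y`: `|Φ_xw|² ≤ (∑_y |G_xy|² |v_x-v_y|²)(∑_y |G_yw|²) ≤ ed v x · C1/η`
  (`hc.symm`, `hc.row`).
* `Ph_sum`: for `t = √tau > 0`: `|G_xw|² ≤ t + |G_xw|⁴/t` (as `2 ≤ α + 1/α`, or: if `|G|² ≤ t` trivial,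
  otherwise `|G|² ≤ |G|⁴/t`). So `∑ |G_xw|² |Φ|² ≤ t ∑|Φ|² + (1/t) ∑_x (∑_w |G_xw|⁴) (C1/η) ed v x`
  `≤ t en/η² + (1/t)(tau/η)(C1/η) en = (1 + C1) √tau en/η²` (`tau/√tau = √tau`; `hc.T4`).
* `lap_S1`: `(lap A v)_x = ∑_y A_xy (v_x - v_y)`; `A = S.f1 w`, `A_xy = -2 Re(K_xy) = -(K_xy + conj K_xy)`,
  `K_xy = G_xw G_wy conj(G_xy)`, `∑_y K_xy (v_x - v_y) = G_xw Φ_xw(v)` (`G_wy = G_yw`), and
  `∑_y conj(K_xy)(v_x - v_y) = conj(∑_y K_xy conj(v_x - v_y)) = conj(G_xw Φ_xw(conj v))`.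
* `S1_symm`, `S2_symm`: the matrices `S.f1 w`, `S.f2 w`, `S.f3 w` are symmetric with real entries.
* `lap_S2`: the same for `S.f2 w`: `A_xy = 4 Re(G_ww K_xy) + 2 S_xw S_wy`,
  `= 2 (G_ww K_xy + conj(G_ww K_xy)) + 2 S_xw S_wy`.
-/

open Matrix Finset

noncomputable section

namespace Pool.Agent.APS

open Pool.Agent.Kin

variable {ι : Type} [Fintype ι] [DecidableEq ι] {D : Fl ι} {C1 a tau r : ℝ} {h : ι → ℝ}

private lemma dphi_C (D : Fl ι) (r : ℝ) (h : ι → ℝ) (v : ι → ℂ) (x y : ι) :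
    ‖star (D.G r h x y) * (v x - v y)‖ ^ 2 = ‖D.G r h x y‖ ^ 2 * ‖v x - v y‖ ^ 2 := by
  rw [norm_mul, norm_star, mul_pow]

private lemma dphi_ed_nonneg (D : Fl ι) (r : ℝ) (h : ι → ℝ) (v : ι → ℂ) (x : ι) :
    0 ≤ D.ed r h v x :=
  Finset.sum_nonneg fun y _ => by positivity

private lemma dphi_re (z : ℂ) : ((2 * z.re : ℝ) : ℂ) = z + star z := (Complex.add_conj z).symm

theorem Ph_hs (hc : D.Cfg C1 a tau r h) (v : ι → ℂ) :
    ∑ x, ∑ w, ‖D.Ph r h v x w‖ ^ 2 ≤ (1 / D.et r) ^ 2 * D.en r h v := by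
  have het := hc.et0
  unfold Fl.en
  rw [Finset.mul_sum]
  refine Finset.sum_le_sum fun x _ => ?_
  let C : Matrix ι ι ℂ := fun x y => star (D.G r h x y) * (v x - v y)
  have h1 : ∑ w, ‖(C * D.G r h) x w‖ ^ 2 ≤ (1 / D.et r) ^ 2 * ∑ y, ‖C x y‖ ^ 2 :=
    opLe_row_mul (by positivity) hc.G_op x
  have h2 : ∑ y, ‖C x y‖ ^ 2 = D.ed r h v x :=
    Finset.sum_congr rfl fun y _ => dphi_C D r h v x y
  have h3 : ∀ w, (C * D.G r h) x w = D.Ph r h v x w := fun w => by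
    rw [Matrix.mul_apply]
    rfl
  rw [h2] at h1
  simpa only [h3] using h1

theorem Ph_pt (hc : D.Cfg C1 a tau r h) (v : ι → ℂ) (x w : ι) :
    ‖D.Ph r h v x w‖ ^ 2 ≤ C1 / D.et r * D.ed r h v x := by
  have h1 : ‖D.Ph r h v x w‖ ≤ ∑ y, ‖star (D.G r h x y) * (v x - v y)‖ * ‖D.G r h y w‖ := by
    refine (norm_sum_le _ _).trans (Finset.sum_le_sum fun y _ => ?_)
    rw [norm_mul]
  have h2 : ‖D.Ph r h v x w‖ ^ 2 ≤
      (∑ y, ‖star (D.G r h x y) * (v x - v y)‖ * ‖D.G r h y w‖) ^ 2 :=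
    pow_le_pow_left₀ (norm_nonneg _) h1 2
  have h3 := Finset.sum_mul_sq_le_sq_mul_sq Finset.univ
    (fun y => ‖star (D.G r h x y) * (v x - v y)‖) (fun y => ‖D.G r h y w‖)
  have h4 : ∑ y, ‖D.G r h y w‖ ^ 2 ≤ C1 / D.et r := by
    refine le_trans (le_of_eq ?_) (hc.row w)
    exact Finset.sum_congr rfl fun y _ => by rw [hc.symm y w]
  have h5 : ∑ y, ‖star (D.G r h x y) * (v x - v y)‖ ^ 2 = D.ed r h v x :=
    Finset.sum_congr rfl fun y _ => dphi_C D r h v x y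
  rw [h5] at h3
  calc ‖D.Ph r h v x w‖ ^ 2 ≤ _ := h2
    _ ≤ D.ed r h v x * ∑ y, ‖D.G r h y w‖ ^ 2 := h3
    _ ≤ D.ed r h v x * (C1 / D.et r) :=
        mul_le_mul_of_nonneg_left h4 (dphi_ed_nonneg D r h v x)
    _ = _ := mul_comm _ _

theorem Ph_sum (hc : D.Cfg C1 a tau r h) (v : ι → ℂ) :
    ∑ x, ∑ w, ‖D.G r h x w‖ ^ 2 * ‖D.Ph r h v x w‖ ^ 2 ≤
      (1 + C1) * √tau / D.et r ^ 2 * D.en r h v := by
  have het := hc.et0
  have hC := hc.one_le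
  have ht0 := hc.tau0
  have ht : 0 < √tau := Real.sqrt_pos.2 ht0
  have htt : √tau * √tau = tau := Real.mul_self_sqrt ht0.le
  have hen : ∀ x, 0 ≤ D.ed r h v x := dphi_ed_nonneg D r h v
  have h1 : ∀ x w, ‖D.G r h x w‖ ^ 2 * ‖D.Ph r h v x w‖ ^ 2 ≤
      √tau * ‖D.Ph r h v x w‖ ^ 2 +
        1 / √tau * (‖D.G r h x w‖ ^ 4 * (C1 / D.et r * D.ed r h v x)) := by
    intro x w
    have e1 : ‖D.G r h x w‖ ^ 2 ≤ √tau + 1 / √tau * ‖D.G r h x w‖ ^ 4 := by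
      have e2 : √tau * ‖D.G r h x w‖ ^ 2 ≤ √tau * √tau + ‖D.G r h x w‖ ^ 4 := by
        nlinarith [sq_nonneg (√tau - ‖D.G r h x w‖ ^ 2),
          mul_nonneg ht.le (sq_nonneg ‖D.G r h x w‖)]
      have e3 : √tau + 1 / √tau * ‖D.G r h x w‖ ^ 4 =
          (√tau * √tau + ‖D.G r h x w‖ ^ 4) / √tau := by
        field_simp
      rw [e3, le_div_iff₀ ht, mul_comm]
      exact e2
    calc ‖D.G r h x w‖ ^ 2 * ‖D.Ph r h v x w‖ ^ 2 ≤
          (√tau + 1 / √tau * ‖D.G r h x w‖ ^ 4) * ‖D.Ph r h v x w‖ ^ 2 :=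
          mul_le_mul_of_nonneg_right e1 (sq_nonneg _)
      _ = √tau * ‖D.Ph r h v x w‖ ^ 2 +
          1 / √tau * (‖D.G r h x w‖ ^ 4 * ‖D.Ph r h v x w‖ ^ 2) := by ring
      _ ≤ _ := by
          have := Ph_pt hc v x w
          gcongr
  have h2 : ∀ x, ∑ w, ‖D.G r h x w‖ ^ 2 * ‖D.Ph r h v x w‖ ^ 2 ≤
      √tau * ∑ w, ‖D.Ph r h v x w‖ ^ 2 +
        1 / √tau * (tau / D.et r * (C1 / D.et r * D.ed r h v x)) := by
    intro x
    refine (Finset.sum_le_sum fun w _ => h1 x w).trans ?_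
    rw [Finset.sum_add_distrib, ← Finset.mul_sum, ← Finset.mul_sum, ← Finset.sum_mul]
    have e1 := hc.T4 x
    have e2 : 0 ≤ C1 / D.et r * D.ed r h v x := mul_nonneg (by positivity) (hen x)
    gcongr
  have h3 : ∑ x, ∑ w, ‖D.G r h x w‖ ^ 2 * ‖D.Ph r h v x w‖ ^ 2 ≤
      √tau * ∑ x, ∑ w, ‖D.Ph r h v x w‖ ^ 2 +
        1 / √tau * (tau / D.et r * (C1 / D.et r * D.en r h v)) := by
    refine (Finset.sum_le_sum fun x _ => h2 x).trans (le_of_eq ?_)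
    rw [Finset.sum_add_distrib, ← Finset.mul_sum, ← Finset.mul_sum, ← Finset.mul_sum,
      ← Finset.mul_sum]
    rfl
  have h4 : √tau * ∑ x, ∑ w, ‖D.Ph r h v x w‖ ^ 2 ≤
      √tau * ((1 / D.et r) ^ 2 * D.en r h v) :=
    mul_le_mul_of_nonneg_left (Ph_hs hc v) ht.le
  have h5 : 1 / √tau * (tau / D.et r * (C1 / D.et r * D.en r h v)) =
      √tau * (C1 * ((1 / D.et r) ^ 2 * D.en r h v)) := by
    have e1 : 1 / √tau * tau = √tau := by
      rw [one_div, inv_mul_eq_div, div_eq_iff ht.ne', htt]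
    calc _ = (1 / √tau * tau) * (C1 * ((1 / D.et r) ^ 2 * D.en r h v)) := by ring
      _ = _ := by rw [e1]
  calc _ ≤ _ := h3
    _ ≤ √tau * ((1 / D.et r) ^ 2 * D.en r h v) +
        √tau * (C1 * ((1 / D.et r) ^ 2 * D.en r h v)) := by
        rw [h5]
        linarith
    _ = _ := by
        field_simp

theorem S1_symm (hc : D.Cfg C1 a tau r h) (w x y : ι) :
    D.SO.f1 w r h x y = D.SO.f1 w r h y x ∧ D.SO.f2 w r h x y = D.SO.f2 w r h y x ∧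
      D.SO.f3 w r h x y = D.SO.f3 w r h y x := by
  have e1 := hc.symm y w
  have e2 := hc.symm w x
  have e3 := hc.symm y x
  refine ⟨?_, ?_, ?_⟩
  · show ((-(2 * (D.G r h x w * D.G r h w y * star (D.G r h x y)).re) : ℝ) : ℂ) =
      ((-(2 * (D.G r h y w * D.G r h w x * star (D.G r h y x)).re) : ℝ) : ℂ)
    rw [e1, e2, e3, mul_comm (D.G r h x w) (D.G r h w y)]
  · show ((4 * (D.G r h w w * (D.G r h x w * D.G r h w y) *
        star (D.G r h x y)).re + 2 * (‖D.G r h x w‖ ^ 2 * ‖D.G r h w y‖ ^ 2) : ℝ) : ℂ) =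
      ((4 * (D.G r h w w * (D.G r h y w * D.G r h w x) *
        star (D.G r h y x)).re + 2 * (‖D.G r h y w‖ ^ 2 * ‖D.G r h w x‖ ^ 2) : ℝ) : ℂ)
    rw [e1, e2, e3, mul_comm (D.G r h x w) (D.G r h w y),
      mul_comm (‖D.G r h x w‖ ^ 2) (‖D.G r h w y‖ ^ 2)]
  · show ((-(12 * (D.G r h w w ^ 2 * (D.G r h x w * D.G r h w y) *
        star (D.G r h x y)).re) -
        12 * ((D.G r h w w).re * (‖D.G r h x w‖ ^ 2 * ‖D.G r h w y‖ ^ 2)) : ℝ) : ℂ) =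
      ((-(12 * (D.G r h w w ^ 2 * (D.G r h y w * D.G r h w x) *
        star (D.G r h y x)).re) -
        12 * ((D.G r h w w).re * (‖D.G r h y w‖ ^ 2 * ‖D.G r h w x‖ ^ 2)) : ℝ) : ℂ)
    rw [e1, e2, e3, mul_comm (D.G r h x w) (D.G r h w y),
      mul_comm (‖D.G r h x w‖ ^ 2) (‖D.G r h w y‖ ^ 2)]

theorem S1_real (w : ι) (r : ℝ) (h : ι → ℝ) (x y : ι) :
    star (D.SO.f1 w r h x y) = D.SO.f1 w r h x y ∧ star (D.SO.f2 w r h x y) = D.SO.f2 w r h x y ∧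
      star (D.SO.f3 w r h x y) = D.SO.f3 w r h x y :=
  ⟨Complex.conj_ofReal _, Complex.conj_ofReal _, Complex.conj_ofReal _⟩

private lemma dphi_term (hc : D.Cfg C1 a tau r h) (w : ι) (v : ι → ℂ) (x : ι) (c : ℂ) :
    ∑ y, (c * (D.G r h x w * D.G r h w y) * star (D.G r h x y) +
      star (c * (D.G r h x w * D.G r h w y) * star (D.G r h x y))) * (v x - v y) =
    c * (D.G r h x w * D.Ph r h v x w) +
      star (c * (D.G r h x w * D.Ph r h (fun x => star (v x)) x w)) := by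
  unfold Fl.Ph
  rw [Finset.mul_sum, Finset.mul_sum, Finset.mul_sum, Finset.mul_sum, star_sum,
    ← Finset.sum_add_distrib]
  refine Finset.sum_congr rfl fun y _ => ?_
  rw [hc.symm w y]
  simp only [star_mul', star_sub, star_star]
  ring

theorem lap_S1 (hc : D.Cfg C1 a tau r h) (w : ι) (v : ι → ℂ) (x : ι) :
    ∑ y, D.SO.f1 w r h x y * (v x - v y) = -(D.G r h x w * D.Ph r h v x w +
      star (D.G r h x w * D.Ph r h (fun x => star (v x)) x w)) := by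
  have h1 := dphi_term hc w v x 1
  simp only [one_mul] at h1
  rw [← h1, ← Finset.sum_neg_distrib]
  refine Finset.sum_congr rfl fun y _ => ?_
  show ((-(2 * (D.G r h x w * D.G r h w y * star (D.G r h x y)).re) : ℝ) : ℂ) * _ = _
  rw [Complex.ofReal_neg, dphi_re]
  ring

theorem lap_S2 (hc : D.Cfg C1 a tau r h) (w : ι) (v : ι → ℂ) (x : ι) :
    ∑ y, D.SO.f2 w r h x y * (v x - v y) =
      2 * (D.G r h w w * (D.G r h x w * D.Ph r h v x w) +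
      star (D.G r h w w * (D.G r h x w * D.Ph r h (fun x => star (v x)) x w))) +
      2 * ∑ y, ((‖D.G r h x w‖ ^ 2 * ‖D.G r h w y‖ ^ 2 : ℝ) : ℂ) * (v x - v y) := by
  rw [← dphi_term hc w v x (D.G r h w w), Finset.mul_sum, Finset.mul_sum,
    ← Finset.sum_add_distrib]
  refine Finset.sum_congr rfl fun y _ => ?_
  show ((4 * (D.G r h w w * (D.G r h x w * D.G r h w y) *
    star (D.G r h x y)).re + 2 * (‖D.G r h x w‖ ^ 2 * ‖D.G r h w y‖ ^ 2) : ℝ) : ℂ) * _ = _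
  have e1 : 4 * (D.G r h w w * (D.G r h x w * D.G r h w y) * star (D.G r h x y)).re =
      2 * (2 * (D.G r h w w * (D.G r h x w * D.G r h w y) * star (D.G r h x y)).re) := by ring
  rw [e1, Complex.ofReal_add, Complex.ofReal_mul 2, dphi_re, Complex.ofReal_mul 2]
  push_cast
  ring

end Pool.Agent.APS
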