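import Pool.Agent.APS.DEn
import Pool.Agent.APS.DPhi

/-! # APS DNOISE1: the noise of `f`, first derivative.

Put `v = W u`, `y_w = lap (S.f1 w) v`, so `(W lap(S.f1 w) W) u = W y_w` (`mulVec_mulVec`). `∑_x (y_w)_x = 0` by
`lap_sum_zero` (`S1_symm`). By `lap_mulVec` and `lap_S1`: `(y_w)_x = -(G_xw Φ_xw + conj(G_xw Φ'_xw))`, `Φ' = Φ(conj v)`.
`n2 y_w ≤ 2 ∑_x |G_xw|² (|Φ_xw|² + |Φ'_xw|²)`, `(∑_x ‖y‖)² ≤ 2 (C1/η) ∑_x (|Φ_xw|² + |Φ'_xw|²)`
(Cauchy-Schwarz and `∑_x |G_xw|² ≤ C1/η`, `hc.row` + symmetry). `W_bound`, sum over `w`, `Ph_sum`, `Ph_hs` for `v`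
and `conj v`, `en_star`: total `≤ 2 CH η · 2 · 2 (1 + C1) √tau en/η² + 2 kap η² · 2 (C1/η) · 2 en/η²`
`= (8 CH (1 + C1) √tau + 8 kap C1) en/η ≤ 16 C1 (CH + 1) (√tau + kap) en/η` (`1 ≤ C1`), and `en (W u) ≤ 4 n2 u` (`en_W`).
-/

open Matrix Finset

noncomputable section

namespace Pool.Agent.APS

open Pool.Agent.Kin

variable {ι : Type} [Fintype ι] [DecidableEq ι] {D : Fl ι} {C1 a tau r : ℝ} {h : ι → ℝ}
  {CH kap dl : ℝ} {W W' QU QU' B P0 : Matrix ι ι ℂ}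

private lemma dn1_y (hc : D.Cfg C1 a tau r h) (v : ι → ℂ) (c : ι → ℝ) (hc0 : ∀ w, 0 ≤ c w)
    (Cc : ℝ) (hCc : ∀ w, c w ^ 2 ≤ Cc) (y : ι → ι → ℂ)
    (hy : ∀ w x, ‖y w x‖ ≤ c w * (‖D.G r h x w‖ *
      (‖D.Ph r h v x w‖ + ‖D.Ph r h (fun x => star (v x)) x w‖))) :
    ∑ w, n2 (y w) ≤ Cc * (4 * (1 + C1) * √tau / D.et r ^ 2 * D.en r h v) ∧
    ∑ w, (∑ x, ‖y w x‖) ^ 2 ≤ Cc * (4 * C1 / D.et r ^ 3 * D.en r h v) := by
  have het := hc.et0
  have hC1 : 0 ≤ C1 := zero_le_one.trans hc.one_le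
  rcases isEmpty_or_nonempty ι with hι | ⟨⟨w₀⟩⟩
  · have hen : D.en r h v = 0 := by
      unfold Fl.en
      exact Finset.sum_of_isEmpty _
    rw [hen]
    simp
  have hCc0 : 0 ≤ Cc := (sq_nonneg (c w₀)).trans (hCc w₀)
  set f : ι → ι → ℝ := fun x w => ‖D.Ph r h v x w‖ with hf
  set f' : ι → ι → ℝ := fun x w => ‖D.Ph r h (fun x => star (v x)) x w‖ with hf'
  set g : ι → ι → ℝ := fun x w => ‖D.G r h x w‖ with hg
  have hff : ∀ x w, (f x w + f' x w) ^ 2 ≤ 2 * f x w ^ 2 + 2 * f' x w ^ 2 := by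
    intro x w
    nlinarith [sq_nonneg (f x w - f' x w)]
  have hen' : D.en r h (fun x => star (v x)) = D.en r h v := en_star D r h v
  constructor
  · have h1 : ∀ w x, ‖y w x‖ ^ 2 ≤
        Cc * (2 * (g x w ^ 2 * f x w ^ 2) + 2 * (g x w ^ 2 * f' x w ^ 2)) := by
      intro w x
      have h2 := pow_le_pow_left₀ (norm_nonneg _) (hy w x) 2
      have h3 : 0 ≤ g x w ^ 2 := sq_nonneg _
      calc ‖y w x‖ ^ 2 ≤ (c w * (g x w * (f x w + f' x w))) ^ 2 := h2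
        _ = c w ^ 2 * (g x w ^ 2 * (f x w + f' x w) ^ 2) := by ring
        _ ≤ Cc * (g x w ^ 2 * (2 * f x w ^ 2 + 2 * f' x w ^ 2)) :=
            mul_le_mul (hCc w) (mul_le_mul_of_nonneg_left (hff x w) h3) (by positivity) hCc0
        _ = _ := by ring
    have h4 : ∑ w, ∑ x, g x w ^ 2 * f x w ^ 2 ≤
        (1 + C1) * √tau / D.et r ^ 2 * D.en r h v := by
      rw [Finset.sum_comm]
      exact Ph_sum hc v
    have h5 : ∑ w, ∑ x, g x w ^ 2 * f' x w ^ 2 ≤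
        (1 + C1) * √tau / D.et r ^ 2 * D.en r h v := by
      rw [Finset.sum_comm, ← hen']
      exact Ph_sum hc _
    calc ∑ w, n2 (y w) ≤ ∑ w, ∑ x,
          Cc * (2 * (g x w ^ 2 * f x w ^ 2) + 2 * (g x w ^ 2 * f' x w ^ 2)) :=
          Finset.sum_le_sum fun w _ => Finset.sum_le_sum fun x _ => h1 w x
      _ = Cc * (2 * ∑ w, ∑ x, g x w ^ 2 * f x w ^ 2 + 2 * ∑ w, ∑ x, g x w ^ 2 * f' x w ^ 2) := by
          simp only [Finset.mul_sum, Finset.sum_add_distrib, mul_add]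
      _ ≤ Cc * (4 * (1 + C1) * √tau / D.et r ^ 2 * D.en r h v) := by
          refine mul_le_mul_of_nonneg_left ?_ hCc0
          have e : 4 * (1 + C1) * √tau / D.et r ^ 2 * D.en r h v =
              2 * ((1 + C1) * √tau / D.et r ^ 2 * D.en r h v) +
              2 * ((1 + C1) * √tau / D.et r ^ 2 * D.en r h v) := by ring
          rw [e]
          linarith
  · have hcol : ∀ w, ∑ x, g x w ^ 2 ≤ C1 / D.et r := by
      intro w
      refine le_trans (le_of_eq ?_) (hc.row w)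
      refine Finset.sum_congr rfl fun x _ => ?_
      rw [hg, hc.symm w x]
    have h1 : ∀ w, (∑ x, ‖y w x‖) ^ 2 ≤
        Cc * (C1 / D.et r * (2 * ∑ x, f x w ^ 2 + 2 * ∑ x, f' x w ^ 2)) := by
      intro w
      have h2 : ∑ x, ‖y w x‖ ≤ c w * ∑ x, g x w * (f x w + f' x w) := by
        rw [Finset.mul_sum]
        exact Finset.sum_le_sum fun x _ => hy w x
      have h3 := pow_le_pow_left₀ (Finset.sum_nonneg fun x _ => norm_nonneg (y w x)) h2 2
      have h4 := Finset.sum_mul_sq_le_sq_mul_sq Finset.univ (fun x => g x w)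
        (fun x => f x w + f' x w)
      have h5 : ∑ x, (f x w + f' x w) ^ 2 ≤ 2 * ∑ x, f x w ^ 2 + 2 * ∑ x, f' x w ^ 2 := by
        rw [Finset.mul_sum, Finset.mul_sum, ← Finset.sum_add_distrib]
        exact Finset.sum_le_sum fun x _ => hff x w
      have h6 : 0 ≤ ∑ x, (f x w + f' x w) ^ 2 := Finset.sum_nonneg fun x _ => sq_nonneg _
      calc (∑ x, ‖y w x‖) ^ 2 ≤ (c w * ∑ x, g x w * (f x w + f' x w)) ^ 2 := h3
        _ = c w ^ 2 * (∑ x, g x w * (f x w + f' x w)) ^ 2 := mul_pow _ _ _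
        _ ≤ Cc * (C1 / D.et r * (2 * ∑ x, f x w ^ 2 + 2 * ∑ x, f' x w ^ 2)) := by
            refine mul_le_mul (hCc w) (h4.trans ?_) (sq_nonneg _) hCc0
            exact mul_le_mul (hcol w) h5 h6 (by positivity)
    have h7 : ∑ w, ∑ x, f x w ^ 2 ≤ (1 / D.et r) ^ 2 * D.en r h v := by
      rw [Finset.sum_comm]
      exact Ph_hs hc v
    have h8 : ∑ w, ∑ x, f' x w ^ 2 ≤ (1 / D.et r) ^ 2 * D.en r h v := by
      rw [Finset.sum_comm, ← hen']
      exact Ph_hs hc _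
    calc ∑ w, (∑ x, ‖y w x‖) ^ 2
        ≤ ∑ w, Cc * (C1 / D.et r * (2 * ∑ x, f x w ^ 2 + 2 * ∑ x, f' x w ^ 2)) :=
          Finset.sum_le_sum fun w _ => h1 w
      _ = Cc * (C1 / D.et r * (2 * ∑ w, ∑ x, f x w ^ 2 + 2 * ∑ w, ∑ x, f' x w ^ 2)) := by
          simp only [Finset.mul_sum, Finset.sum_add_distrib, mul_add]
      _ ≤ Cc * (4 * C1 / D.et r ^ 3 * D.en r h v) := by
          refine mul_le_mul_of_nonneg_left ?_ hCc0
          have e : 4 * C1 / D.et r ^ 3 * D.en r h v = C1 / D.et r *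
              (2 * ((1 / D.et r) ^ 2 * D.en r h v) + 2 * ((1 / D.et r) ^ 2 * D.en r h v)) := by
            field_simp
            ring
          rw [e]
          refine mul_le_mul_of_nonneg_left ?_ (by positivity)
          linarith

private lemma dn1_W (hc : D.Cfg C1 a tau r h) (hR : Ref D r CH kap W W' QU QU' B P0)
    (y : ι → ι → ℂ) (hy : ∀ w, ∑ x, y w x = 0) :
    ∑ w, n2 (W *ᵥ y w) ≤ 2 * CH * D.et r * ∑ w, n2 (y w) +
      2 * kap * D.et r ^ 2 * ∑ w, (∑ x, ‖y w x‖) ^ 2 := by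
  rw [Finset.mul_sum, Finset.mul_sum, ← Finset.sum_add_distrib]
  exact Finset.sum_le_sum fun w _ => W_bound hR hc.et0 (y w) (hy w)

theorem noise1 (hc : D.Cfg C1 a tau r h) (hR : Ref D r CH kap W W' QU QU' B P0) (hdl : 0 ≤ dl)
    (hdl1 : dl ≤ 1) (hf : OpLe (D.ft r h W QU) dl) (u : ι → ℂ) :
    ∑ w, n2 ((W * lap (D.SO.f1 w r h) * W) *ᵥ u) ≤
      64 * C1 * (CH + 1) * (√tau + kap) / D.et r * n2 u := by
  have het := hc.et0
  have hC1 := hc.one_le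
  have hCH := hR.CH0
  have hkap := hR.kap0
  have hn : 0 ≤ n2 u := n2_nonneg u
  set v : ι → ℂ := W *ᵥ u with hv
  have hen : D.en r h v ≤ 4 * n2 u := en_W hc hR hdl hdl1 hf u
  have hen0 : 0 ≤ D.en r h v := en_nonneg D r h v
  set y : ι → ι → ℂ := fun w => lap (D.SO.f1 w r h) *ᵥ v with hy
  have e1 : ∀ w, (W * lap (D.SO.f1 w r h) * W) *ᵥ u = W *ᵥ y w := by
    intro w
    simp only [hy, hv, Matrix.mulVec_mulVec, Matrix.mul_assoc]
  have hy0 : ∀ w, ∑ x, y w x = 0 := fun w =>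
    lap_sum_zero _ (fun x z => (S1_symm hc w x z).1) v
  have hyn : ∀ w x, ‖y w x‖ ≤ (1 : ℝ) * (‖D.G r h x w‖ *
      (‖D.Ph r h v x w‖ + ‖D.Ph r h (fun x => star (v x)) x w‖)) := by
    intro w x
    have e2 : y w x = -(D.G r h x w * D.Ph r h v x w +
        star (D.G r h x w * D.Ph r h (fun x => star (v x)) x w)) := by
      rw [← lap_S1 hc w v x]
      exact lap_mulVec _ _ _
    rw [e2, norm_neg, one_mul, mul_add]
    refine (norm_add_le _ _).trans (le_of_eq ?_)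
    rw [norm_star, norm_mul, norm_mul]
  obtain ⟨h1, h2⟩ := dn1_y hc v (fun _ => 1) (fun _ => zero_le_one) 1 (fun _ => by norm_num) y hyn
  rw [one_mul] at h1 h2
  have h3 := dn1_W hc hR y hy0
  simp only [e1]
  refine h3.trans ?_
  have h4 : 2 * CH * D.et r * ∑ w, n2 (y w) ≤
      2 * CH * D.et r * (4 * (1 + C1) * √tau / D.et r ^ 2 * D.en r h v) :=
    mul_le_mul_of_nonneg_left h1 (by positivity)
  have h5 : 2 * kap * D.et r ^ 2 * ∑ w, (∑ x, ‖y w x‖) ^ 2 ≤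
      2 * kap * D.et r ^ 2 * (4 * C1 / D.et r ^ 3 * D.en r h v) :=
    mul_le_mul_of_nonneg_left h2 (by positivity)
  have e3 : 2 * CH * D.et r * (4 * (1 + C1) * √tau / D.et r ^ 2 * D.en r h v) +
      2 * kap * D.et r ^ 2 * (4 * C1 / D.et r ^ 3 * D.en r h v) =
      (8 * CH * (1 + C1) * √tau + 8 * kap * C1) / D.et r * D.en r h v := by
    field_simp
    ring
  have hst : 0 ≤ √tau := Real.sqrt_nonneg _
  have h6 : 8 * CH * (1 + C1) * √tau + 8 * kap * C1 ≤ 16 * C1 * (CH + 1) * (√tau + kap) := by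
    have m1 : 0 ≤ CH * √tau * (C1 - 1) := mul_nonneg (by positivity) (by linarith)
    have m2 : 0 ≤ C1 * √tau := by positivity
    have m3 : 0 ≤ C1 * CH * kap := by positivity
    have m4 : 0 ≤ C1 * kap := by positivity
    nlinarith
  have h7 : (8 * CH * (1 + C1) * √tau + 8 * kap * C1) / D.et r ≤
      16 * C1 * (CH + 1) * (√tau + kap) / D.et r := div_le_div_of_nonneg_right h6 het.le
  calc _ ≤ (8 * CH * (1 + C1) * √tau + 8 * kap * C1) / D.et r * D.en r h v := by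
        rw [← e3]
        exact add_le_add h4 h5
    _ ≤ 16 * C1 * (CH + 1) * (√tau + kap) / D.et r * (4 * n2 u) :=
        mul_le_mul h7 hen hen0 (by positivity)
    _ = 64 * C1 * (CH + 1) * (√tau + kap) / D.et r * n2 u := by ring

end Pool.Agent.APS
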