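import Pool.Agent.APS.DEn
import Pool.Agent.APS.DPhi

/-! # APS DNOISE2: the noise of `f`, second derivative (crude bound).

As DNOISE1 with `y_w = lap (S.f2 w) v`, `v = W u`; by `lap_mulVec` and `lap_S2`: `y_w = y1 + y2`,
`y1_x = 2 (G_ww G_xw Φ_xw + conj(G_ww G_xw Φ'_xw))`, `y2_x = 2 ∑_y S_xw S_wy (v_x - v_y)`
`= 2 S_xw (s_w (v_x - v_w) + q_w)`, `s_w = ∑_y S_wy ≤ C1/η`, `q_w = ∑_y S_wy (v_w - v_y)`,
`|q_w|² ≤ s_w ed v w ≤ (C1/η) ed v w` (Cauchy-Schwarz).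
Apply `W_bound` to `y_w` (`∑ y_w = 0` by `lap_sum_zero`), `n2 (y1 + y2) ≤ 2 n2 y1 + 2 n2 y2` and
`(∑‖y1 + y2‖)² ≤ 2 (∑‖y1‖)² + 2 (∑‖y2‖)²`.
* `y1`: `n2 y1 ≤ 8 C1² ∑_x |G_xw|² (|Φ|² + |Φ'|²)`, `(∑‖y1‖)² ≤ 8 C1² (C1/η) ∑_x (|Φ|² + |Φ'|²)`; sums over `w`:
  `∑ n2 y1 ≤ 16 C1² (1 + C1) √tau en/η²`, `∑ (∑‖y1‖)² ≤ 16 C1³ en/η³`.
* `y2`: `n2 y2 ≤ 8 ∑_x S_xw² (s_w² |v_x - v_w|² + |q_w|²)`; `∑_w n2 y2 ≤ 8 ((C1/η)² K en + (tau/η) (C1/η) en)`, where
  `S_xw² ≤ K S_xw` by the hypothesis `hG` and `∑_x S_xw² = ∑_x |G_xw|⁴ ≤ tau/η` (`hc.T4`, symmetry).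
  `(∑‖y2‖)² ≤ (2 (s_w √(s_w) √(ed) + s_w √(s_w) √(ed)))² = 16 s_w³ ed v w ≤ 16 (C1/η)³ ed v w`.
Total: `∑_w n2 (W y_w) ≤ 2 CH η · 2 · (16 C1² (1 + C1) √tau + 8 C1² K + 8 tau C1) en/η² + 2 kap η² · 2 · (16 C1³ + 16 C1³) en/η³`
`≤ 128 C1³ (CH + 1) (1 + kap) (1 + K) · en/η` (`tau, √tau ≤ 1 ≤ C1`), and `en (W u) ≤ 4 n2 u`.
-/

open Matrix Finset

noncomputable section

namespace Pool.Agent.APS

open Pool.Agent.Kin

variable {ι : Type} [Fintype ι] [DecidableEq ι] {D : Fl ι} {C1 a tau r : ℝ} {h : ι → ℝ}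
  {CH kap dl : ℝ} {W W' QU QU' B P0 : Matrix ι ι ℂ}

private lemma dn2_y (hc : D.Cfg C1 a tau r h) (v : ι → ℂ) (c : ι → ℝ) (hc0 : ∀ w, 0 ≤ c w)
    (Cc : ℝ) (hCc : ∀ w, c w ^ 2 ≤ Cc) (y : ι → ι → ℂ)
    (hy : ∀ w x, ‖y w x‖ ≤ c w * (‖D.G r h x w‖ *
      (‖D.Ph r h v x w‖ + ‖D.Ph r h (fun x => star (v x)) x w‖))) :
    ∑ w, n2 (y w) ≤ Cc * (4 * (1 + C1) * √tau / D.et r ^ 2 * D.en r h v) ∧
    ∑ w, (∑ x, ‖y w x‖) ^ 2 ≤ Cc * (4 * C1 / D.et r ^ 3 * D.en r h v) := by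
  have het := hc.et0
  have hC1 : 0 ≤ C1 := zero_le_one.trans hc.one_le
  rcases isEmpty_or_nonempty ι with hι | ⟨⟨w₀⟩⟩
  · have hen : D.en r h v = 0 := by
      unfold Fl.en
      exact Finset.sum_of_isEmpty _
    rw [hen]
    simp
  have hCc0 : 0 ≤ Cc := (sq_nonneg (c w₀)).trans (hCc w₀)
  set f : ι → ι → ℝ := fun x w => ‖D.Ph r h v x w‖ with hf
  set f' : ι → ι → ℝ := fun x w => ‖D.Ph r h (fun x => star (v x)) x w‖ with hf'
  set g : ι → ι → ℝ := fun x w => ‖D.G r h x w‖ with hg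
  have hff : ∀ x w, (f x w + f' x w) ^ 2 ≤ 2 * f x w ^ 2 + 2 * f' x w ^ 2 := by
    intro x w
    nlinarith [sq_nonneg (f x w - f' x w)]
  have hen' : D.en r h (fun x => star (v x)) = D.en r h v := en_star D r h v
  constructor
  · have h1 : ∀ w x, ‖y w x‖ ^ 2 ≤
        Cc * (2 * (g x w ^ 2 * f x w ^ 2) + 2 * (g x w ^ 2 * f' x w ^ 2)) := by
      intro w x
      have h2 := pow_le_pow_left₀ (norm_nonneg _) (hy w x) 2
      have h3 : 0 ≤ g x w ^ 2 := sq_nonneg _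
      calc ‖y w x‖ ^ 2 ≤ (c w * (g x w * (f x w + f' x w))) ^ 2 := h2
        _ = c w ^ 2 * (g x w ^ 2 * (f x w + f' x w) ^ 2) := by ring
        _ ≤ Cc * (g x w ^ 2 * (2 * f x w ^ 2 + 2 * f' x w ^ 2)) :=
            mul_le_mul (hCc w) (mul_le_mul_of_nonneg_left (hff x w) h3) (by positivity) hCc0
        _ = _ := by ring
    have h4 : ∑ w, ∑ x, g x w ^ 2 * f x w ^ 2 ≤
        (1 + C1) * √tau / D.et r ^ 2 * D.en r h v := by
      rw [Finset.sum_comm]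
      exact Ph_sum hc v
    have h5 : ∑ w, ∑ x, g x w ^ 2 * f' x w ^ 2 ≤
        (1 + C1) * √tau / D.et r ^ 2 * D.en r h v := by
      rw [Finset.sum_comm, ← hen']
      exact Ph_sum hc _
    calc ∑ w, n2 (y w) ≤ ∑ w, ∑ x,
          Cc * (2 * (g x w ^ 2 * f x w ^ 2) + 2 * (g x w ^ 2 * f' x w ^ 2)) :=
          Finset.sum_le_sum fun w _ => Finset.sum_le_sum fun x _ => h1 w x
      _ = Cc * (2 * ∑ w, ∑ x, g x w ^ 2 * f x w ^ 2 + 2 * ∑ w, ∑ x, g x w ^ 2 * f' x w ^ 2) := by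
          simp only [Finset.mul_sum, Finset.sum_add_distrib, mul_add]
      _ ≤ Cc * (4 * (1 + C1) * √tau / D.et r ^ 2 * D.en r h v) := by
          refine mul_le_mul_of_nonneg_left ?_ hCc0
          have e : 4 * (1 + C1) * √tau / D.et r ^ 2 * D.en r h v =
              2 * ((1 + C1) * √tau / D.et r ^ 2 * D.en r h v) +
              2 * ((1 + C1) * √tau / D.et r ^ 2 * D.en r h v) := by ring
          rw [e]
          linarith
  · have hcol : ∀ w, ∑ x, g x w ^ 2 ≤ C1 / D.et r := by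
      intro w
      refine le_trans (le_of_eq ?_) (hc.row w)
      refine Finset.sum_congr rfl fun x _ => ?_
      rw [hg, hc.symm w x]
    have h1 : ∀ w, (∑ x, ‖y w x‖) ^ 2 ≤
        Cc * (C1 / D.et r * (2 * ∑ x, f x w ^ 2 + 2 * ∑ x, f' x w ^ 2)) := by
      intro w
      have h2 : ∑ x, ‖y w x‖ ≤ c w * ∑ x, g x w * (f x w + f' x w) := by
        rw [Finset.mul_sum]
        exact Finset.sum_le_sum fun x _ => hy w x
      have h3 := pow_le_pow_left₀ (Finset.sum_nonneg fun x _ => norm_nonneg (y w x)) h2 2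
      have h4 := Finset.sum_mul_sq_le_sq_mul_sq Finset.univ (fun x => g x w)
        (fun x => f x w + f' x w)
      have h5 : ∑ x, (f x w + f' x w) ^ 2 ≤ 2 * ∑ x, f x w ^ 2 + 2 * ∑ x, f' x w ^ 2 := by
        rw [Finset.mul_sum, Finset.mul_sum, ← Finset.sum_add_distrib]
        exact Finset.sum_le_sum fun x _ => hff x w
      have h6 : 0 ≤ ∑ x, (f x w + f' x w) ^ 2 := Finset.sum_nonneg fun x _ => sq_nonneg _
      calc (∑ x, ‖y w x‖) ^ 2 ≤ (c w * ∑ x, g x w * (f x w + f' x w)) ^ 2 := h3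
        _ = c w ^ 2 * (∑ x, g x w * (f x w + f' x w)) ^ 2 := mul_pow _ _ _
        _ ≤ Cc * (C1 / D.et r * (2 * ∑ x, f x w ^ 2 + 2 * ∑ x, f' x w ^ 2)) := by
            refine mul_le_mul (hCc w) (h4.trans ?_) (sq_nonneg _) hCc0
            exact mul_le_mul (hcol w) h5 h6 (by positivity)
    have h7 : ∑ w, ∑ x, f x w ^ 2 ≤ (1 / D.et r) ^ 2 * D.en r h v := by
      rw [Finset.sum_comm]
      exact Ph_hs hc v
    have h8 : ∑ w, ∑ x, f' x w ^ 2 ≤ (1 / D.et r) ^ 2 * D.en r h v := by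
      rw [Finset.sum_comm, ← hen']
      exact Ph_hs hc _
    calc ∑ w, (∑ x, ‖y w x‖) ^ 2
        ≤ ∑ w, Cc * (C1 / D.et r * (2 * ∑ x, f x w ^ 2 + 2 * ∑ x, f' x w ^ 2)) :=
          Finset.sum_le_sum fun w _ => h1 w
      _ = Cc * (C1 / D.et r * (2 * ∑ w, ∑ x, f x w ^ 2 + 2 * ∑ w, ∑ x, f' x w ^ 2)) := by
          simp only [Finset.mul_sum, Finset.sum_add_distrib, mul_add]
      _ ≤ Cc * (4 * C1 / D.et r ^ 3 * D.en r h v) := by
          refine mul_le_mul_of_nonneg_left ?_ hCc0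
          have e : 4 * C1 / D.et r ^ 3 * D.en r h v = C1 / D.et r *
              (2 * ((1 / D.et r) ^ 2 * D.en r h v) + 2 * ((1 / D.et r) ^ 2 * D.en r h v)) := by
            field_simp
            ring
          rw [e]
          refine mul_le_mul_of_nonneg_left ?_ (by positivity)
          linarith

private lemma dn2_W (hc : D.Cfg C1 a tau r h) (hR : Ref D r CH kap W W' QU QU' B P0)
    (y : ι → ι → ℂ) (hy : ∀ w, ∑ x, y w x = 0) :
    ∑ w, n2 (W *ᵥ y w) ≤ 2 * CH * D.et r * ∑ w, n2 (y w) +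
      2 * kap * D.et r ^ 2 * ∑ w, (∑ x, ‖y w x‖) ^ 2 := by
  rw [Finset.mul_sum, Finset.mul_sum, ← Finset.sum_add_distrib]
  exact Finset.sum_le_sum fun w _ => W_bound hR hc.et0 (y w) (hy w)

/-- the second part of the second derivative -/
private lemma dn2_z (hc : D.Cfg C1 a tau r h) (v : ι → ℂ) {K : ℝ} (hK : 0 ≤ K)
    (hG : ∀ x y, ‖D.G r h x y‖ ^ 2 ≤ K) (y : ι → ι → ℂ)
    (hy : ∀ w x, y w x = 2 * ∑ z, ((‖D.G r h x w‖ ^ 2 * ‖D.G r h w z‖ ^ 2 : ℝ) : ℂ) *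
      (v x - v z)) :
    ∑ w, n2 (y w) ≤ (8 * K * C1 ^ 2 + 8 * C1 * tau) / D.et r ^ 2 * D.en r h v ∧
    ∑ w, (∑ x, ‖y w x‖) ^ 2 ≤ 16 * C1 ^ 3 / D.et r ^ 3 * D.en r h v := by
  have het := hc.et0
  have hC1 : 0 ≤ C1 := zero_le_one.trans hc.one_le
  have htau := hc.tau0.le
  set S : ι → ι → ℝ := fun x z => ‖D.G r h x z‖ ^ 2 with hS
  have hS0 : ∀ x z, 0 ≤ S x z := fun x z => sq_nonneg _
  have hSs : ∀ x z, S x z = S z x := fun x z => by
    simp only [hS]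
    rw [hc.symm x z]
  set s : ι → ℝ := fun w => ∑ z, S w z with hs
  have hs0 : ∀ w, 0 ≤ s w := fun w => Finset.sum_nonneg fun z _ => hS0 w z
  have hs1 : ∀ w, s w ≤ C1 / D.et r := fun w => hc.row w
  set P : ι → ℝ := fun w => ∑ z, S w z * ‖v w - v z‖ with hP
  have hP0 : ∀ w, 0 ≤ P w := fun w => Finset.sum_nonneg fun z _ =>
    mul_nonneg (hS0 w z) (norm_nonneg _)
  have hed : ∀ w, D.ed r h v w = ∑ z, S w z * ‖v w - v z‖ ^ 2 := fun w => rfl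
  have hP2 : ∀ w, P w ^ 2 ≤ s w * D.ed r h v w := by
    intro w
    have h1 := Finset.sum_mul_sq_le_sq_mul_sq Finset.univ (fun z => √(S w z))
      (fun z => √(S w z) * ‖v w - v z‖)
    have e1 : ∑ z, √(S w z) * (√(S w z) * ‖v w - v z‖) = P w := by
      refine Finset.sum_congr rfl fun z _ => ?_
      rw [← mul_assoc, Real.mul_self_sqrt (hS0 w z)]
    have e2 : ∑ z, √(S w z) ^ 2 = s w :=
      Finset.sum_congr rfl fun z _ => Real.sq_sqrt (hS0 w z)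
    have e3 : ∑ z, (√(S w z) * ‖v w - v z‖) ^ 2 = D.ed r h v w := by
      rw [hed]
      refine Finset.sum_congr rfl fun z _ => ?_
      rw [mul_pow, Real.sq_sqrt (hS0 w z)]
    rw [e1, e2, e3] at h1
    exact h1
  -- the pointwise bound
  have hpt : ∀ w x, ‖y w x‖ ≤ 2 * (S x w * (s w * ‖v x - v w‖ + P w)) := by
    intro w x
    have e1 : ∑ z, ((‖D.G r h x w‖ ^ 2 * ‖D.G r h w z‖ ^ 2 : ℝ) : ℂ) * (v x - v z) =
        (S x w : ℂ) * ((s w : ℂ) * (v x - v w) + ∑ z, (S w z : ℂ) * (v w - v z)) := by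
      have e2 : (s w : ℂ) = ∑ z, (S w z : ℂ) := by
        simp only [hs]
        push_cast
        rfl
      rw [e2, Finset.sum_mul, ← Finset.sum_add_distrib, Finset.mul_sum]
      refine Finset.sum_congr rfl fun z _ => ?_
      simp only [hS]
      push_cast
      ring
    rw [hy, e1, norm_mul, norm_mul, Complex.norm_real, Real.norm_of_nonneg (hS0 x w),
      Complex.norm_ofNat]
    refine mul_le_mul_of_nonneg_left (mul_le_mul_of_nonneg_left ?_ (hS0 x w)) (by norm_num)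
    refine (norm_add_le _ _).trans (add_le_add ?_ ?_)
    · rw [norm_mul, Complex.norm_real, Real.norm_of_nonneg (hs0 w)]
    · refine (norm_sum_le _ _).trans (le_of_eq ?_)
      refine Finset.sum_congr rfl fun z _ => ?_
      rw [norm_mul, Complex.norm_real, Real.norm_of_nonneg (hS0 w z)]
  have hen : D.en r h v = ∑ w, D.ed r h v w := rfl
  have hed0 : ∀ w, 0 ≤ D.ed r h v w := fun w => ed_nonneg D r h v w
  have hce : 0 ≤ C1 / D.et r := by positivity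
  constructor
  · have h1 : ∀ w x, ‖y w x‖ ^ 2 ≤ 8 * K * (C1 / D.et r) ^ 2 * (S x w * ‖v x - v w‖ ^ 2) +
        8 * (C1 / D.et r * D.ed r h v w) * S x w ^ 2 := by
      intro w x
      have h2 := pow_le_pow_left₀ (norm_nonneg _) (hpt w x) 2
      have h3 : (s w * ‖v x - v w‖ + P w) ^ 2 ≤ 2 * (s w * ‖v x - v w‖) ^ 2 + 2 * P w ^ 2 := by
        nlinarith [sq_nonneg (s w * ‖v x - v w‖ - P w)]
      have h4 : s w ^ 2 ≤ (C1 / D.et r) ^ 2 := pow_le_pow_left₀ (hs0 w) (hs1 w) 2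
      have h5 : P w ^ 2 ≤ C1 / D.et r * D.ed r h v w :=
        (hP2 w).trans (mul_le_mul_of_nonneg_right (hs1 w) (hed0 w))
      have h6 : S x w ^ 2 ≤ K * S x w := by
        rw [sq]
        exact mul_le_mul_of_nonneg_right (hG x w) (hS0 x w)
      calc ‖y w x‖ ^ 2 ≤ (2 * (S x w * (s w * ‖v x - v w‖ + P w))) ^ 2 := h2
        _ = 4 * (S x w ^ 2 * (s w * ‖v x - v w‖ + P w) ^ 2) := by ring
        _ ≤ 4 * (S x w ^ 2 * (2 * (s w * ‖v x - v w‖) ^ 2 + 2 * P w ^ 2)) := by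
            refine mul_le_mul_of_nonneg_left (mul_le_mul_of_nonneg_left h3 (sq_nonneg _))
              (by norm_num)
        _ = 8 * (S x w ^ 2 * (s w ^ 2 * ‖v x - v w‖ ^ 2)) + 8 * (S x w ^ 2 * P w ^ 2) := by ring
        _ ≤ 8 * (K * S x w * ((C1 / D.et r) ^ 2 * ‖v x - v w‖ ^ 2)) +
            8 * (S x w ^ 2 * (C1 / D.et r * D.ed r h v w)) := by
            refine add_le_add (mul_le_mul_of_nonneg_left ?_ (by norm_num))
              (mul_le_mul_of_nonneg_left (mul_le_mul_of_nonneg_left h5 (sq_nonneg _))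
                (by norm_num))
            refine mul_le_mul h6 (mul_le_mul_of_nonneg_right h4 (sq_nonneg _)) (by positivity) ?_
            exact mul_nonneg hK (hS0 x w)
        _ = _ := by ring
    have hT4 : ∀ w, ∑ x, S x w ^ 2 ≤ tau / D.et r := by
      intro w
      refine le_trans (le_of_eq ?_) (hc.T4 w)
      refine Finset.sum_congr rfl fun x _ => ?_
      rw [hSs x w]
      simp only [hS]
      ring
    have hsumS : ∑ w, ∑ x, S x w * ‖v x - v w‖ ^ 2 = D.en r h v := by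
      rw [Finset.sum_comm]
      rfl
    calc ∑ w, n2 (y w) ≤ ∑ w, ∑ x, (8 * K * (C1 / D.et r) ^ 2 * (S x w * ‖v x - v w‖ ^ 2) +
          8 * (C1 / D.et r * D.ed r h v w) * S x w ^ 2) :=
          Finset.sum_le_sum fun w _ => Finset.sum_le_sum fun x _ => h1 w x
      _ = 8 * K * (C1 / D.et r) ^ 2 * ∑ w, ∑ x, S x w * ‖v x - v w‖ ^ 2 +
          ∑ w, 8 * (C1 / D.et r * D.ed r h v w) * ∑ x, S x w ^ 2 := by
          simp only [Finset.mul_sum, Finset.sum_add_distrib]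
      _ ≤ 8 * K * (C1 / D.et r) ^ 2 * D.en r h v +
          ∑ w, 8 * (C1 / D.et r * D.ed r h v w) * (tau / D.et r) := by
          rw [hsumS]
          refine add_le_add le_rfl (Finset.sum_le_sum fun w _ => ?_)
          refine mul_le_mul_of_nonneg_left (hT4 w) ?_
          have := hed0 w
          positivity
      _ = (8 * K * C1 ^ 2 + 8 * C1 * tau) / D.et r ^ 2 * D.en r h v := by
          have e1 : ∑ w, 8 * (C1 / D.et r * D.ed r h v w) * (tau / D.et r) =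
              8 * (C1 / D.et r) * (tau / D.et r) * D.en r h v := by
            rw [hen, Finset.mul_sum]
            refine Finset.sum_congr rfl fun w _ => ?_
            ring
          rw [e1]
          field_simp
  · have h1 : ∀ w, ∑ x, ‖y w x‖ ≤ 4 * (s w * P w) := by
      intro w
      have h2 : ∑ x, ‖y w x‖ ≤ ∑ x, 2 * (S x w * (s w * ‖v x - v w‖ + P w)) :=
        Finset.sum_le_sum fun x _ => hpt w x
      refine h2.trans (le_of_eq ?_)
      have e1 : ∑ x, 2 * (S x w * (s w * ‖v x - v w‖ + P w)) =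
          ∑ x, (2 * s w * (S w x * ‖v w - v x‖) + 2 * P w * S w x) := by
        refine Finset.sum_congr rfl fun x _ => ?_
        rw [hSs x w, norm_sub_rev (v x) (v w)]
        ring
      rw [e1, Finset.sum_add_distrib, ← Finset.mul_sum, ← Finset.mul_sum]
      show 2 * s w * P w + 2 * P w * s w = 4 * (s w * P w)
      ring
    have h3 : ∀ w, (∑ x, ‖y w x‖) ^ 2 ≤ 16 * (C1 / D.et r) ^ 3 * D.ed r h v w := by
      intro w
      have h4 := pow_le_pow_left₀ (Finset.sum_nonneg fun x _ => norm_nonneg (y w x)) (h1 w) 2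
      have h5 : s w ^ 3 ≤ (C1 / D.et r) ^ 3 := pow_le_pow_left₀ (hs0 w) (hs1 w) 3
      calc (∑ x, ‖y w x‖) ^ 2 ≤ (4 * (s w * P w)) ^ 2 := h4
        _ = 16 * s w ^ 2 * P w ^ 2 := by ring
        _ ≤ 16 * s w ^ 2 * (s w * D.ed r h v w) :=
            mul_le_mul_of_nonneg_left (hP2 w) (by positivity)
        _ = 16 * (s w ^ 3 * D.ed r h v w) := by ring
        _ ≤ 16 * ((C1 / D.et r) ^ 3 * D.ed r h v w) :=
            mul_le_mul_of_nonneg_left (mul_le_mul_of_nonneg_right h5 (hed0 w)) (by norm_num)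
        _ = _ := by ring
    calc ∑ w, (∑ x, ‖y w x‖) ^ 2 ≤ ∑ w, 16 * (C1 / D.et r) ^ 3 * D.ed r h v w :=
          Finset.sum_le_sum fun w _ => h3 w
      _ = 16 * C1 ^ 3 / D.et r ^ 3 * D.en r h v := by
          rw [← Finset.mul_sum, hen]
          field_simp

theorem noise2 (hc : D.Cfg C1 a tau r h) (hR : Ref D r CH kap W W' QU QU' B P0) (hdl : 0 ≤ dl)
    (hdl1 : dl ≤ 1) (hf : OpLe (D.ft r h W QU) dl) {K : ℝ} (hK : 0 ≤ K)
    (hG : ∀ x y, ‖D.G r h x y‖ ^ 2 ≤ K) (u : ι → ℂ) :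
    ∑ w, n2 ((W * lap (D.SO.f2 w r h) * W) *ᵥ u) ≤
      512 * C1 ^ 3 * (CH + 1) * (1 + kap) * (1 + K) / D.et r * n2 u := by
  have het := hc.et0
  have hC1 := hc.one_le
  have hCH := hR.CH0
  have hkap := hR.kap0
  have hn : 0 ≤ n2 u := n2_nonneg u
  set v : ι → ℂ := W *ᵥ u with hv
  have hen : D.en r h v ≤ 4 * n2 u := en_W hc hR hdl hdl1 hf u
  have hen0 : 0 ≤ D.en r h v := en_nonneg D r h v
  set y : ι → ι → ℂ := fun w => lap (D.SO.f2 w r h) *ᵥ v with hy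
  have e1 : ∀ w, (W * lap (D.SO.f2 w r h) * W) *ᵥ u = W *ᵥ y w := by
    intro w
    simp only [hy, hv, Matrix.mulVec_mulVec, Matrix.mul_assoc]
  have hy0 : ∀ w, ∑ x, y w x = 0 := fun w =>
    lap_sum_zero _ (fun x z => (S1_symm hc w x z).2.1) v
  set y1 : ι → ι → ℂ := fun w x => 2 * (D.G r h w w * (D.G r h x w * D.Ph r h v x w) +
      star (D.G r h w w * (D.G r h x w * D.Ph r h (fun x => star (v x)) x w))) with hy1
  set y2 : ι → ι → ℂ := fun w x =>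
    2 * ∑ z, ((‖D.G r h x w‖ ^ 2 * ‖D.G r h w z‖ ^ 2 : ℝ) : ℂ) * (v x - v z) with hy2
  have e2 : ∀ w x, y w x = y1 w x + y2 w x := by
    intro w x
    simp only [hy1, hy2]
    rw [← lap_S2 hc w v x]
    exact lap_mulVec _ _ _
  have hy1n : ∀ w x, ‖y1 w x‖ ≤ (2 * ‖D.G r h w w‖) * (‖D.G r h x w‖ *
      (‖D.Ph r h v x w‖ + ‖D.Ph r h (fun x => star (v x)) x w‖)) := by
    intro w x
    simp only [hy1]
    rw [norm_mul, Complex.norm_ofNat]
    have h1 := norm_add_le (D.G r h w w * (D.G r h x w * D.Ph r h v x w))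
      (star (D.G r h w w * (D.G r h x w * D.Ph r h (fun x => star (v x)) x w)))
    rw [norm_star, norm_mul, norm_mul, norm_mul, norm_mul] at h1
    calc _ ≤ 2 * (‖D.G r h w w‖ * (‖D.G r h x w‖ * ‖D.Ph r h v x w‖) +
          ‖D.G r h w w‖ * (‖D.G r h x w‖ * ‖D.Ph r h (fun x => star (v x)) x w‖)) :=
          mul_le_mul_of_nonneg_left h1 (by norm_num)
      _ = _ := by ring
  have hg1 : ∀ w, ‖D.G r h w w‖ ^ 2 ≤ C1 ^ 2 := fun w =>
    pow_le_pow_left₀ (norm_nonneg _) (hc.diag w) 2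
  obtain ⟨a1, -⟩ := dn2_y hc v (fun w => 2 * ‖D.G r h w w‖) (fun w => by positivity)
    (3 * C1 ^ 2 + K) (fun w => by
      have h1 := hg1 w
      have h2 := hG w w
      rw [mul_pow]
      linarith) y1 hy1n
  obtain ⟨-, a2⟩ := dn2_y hc v (fun w => 2 * ‖D.G r h w w‖) (fun w => by positivity)
    (4 * C1 ^ 2) (fun w => by
      have h1 := hg1 w
      rw [mul_pow]
      linarith) y1 hy1n
  obtain ⟨b1, b2⟩ := dn2_z hc v hK hG y2 (fun w x => rfl)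
  have c1 : ∑ w, n2 (y w) ≤ 2 * ∑ w, n2 (y1 w) + 2 * ∑ w, n2 (y2 w) := by
    rw [Finset.mul_sum, Finset.mul_sum, ← Finset.sum_add_distrib]
    refine Finset.sum_le_sum fun w _ => ?_
    unfold n2
    rw [Finset.mul_sum, Finset.mul_sum, ← Finset.sum_add_distrib]
    refine Finset.sum_le_sum fun x _ => ?_
    rw [e2]
    have h1 := pow_le_pow_left₀ (norm_nonneg _) (norm_add_le (y1 w x) (y2 w x)) 2
    nlinarith [sq_nonneg (‖y1 w x‖ - ‖y2 w x‖)]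
  have c2 : ∑ w, (∑ x, ‖y w x‖) ^ 2 ≤
      2 * ∑ w, (∑ x, ‖y1 w x‖) ^ 2 + 2 * ∑ w, (∑ x, ‖y2 w x‖) ^ 2 := by
    rw [Finset.mul_sum, Finset.mul_sum, ← Finset.sum_add_distrib]
    refine Finset.sum_le_sum fun w _ => ?_
    have h0 : ∑ x, ‖y w x‖ ≤ ∑ x, ‖y1 w x‖ + ∑ x, ‖y2 w x‖ := by
      rw [← Finset.sum_add_distrib]
      refine Finset.sum_le_sum fun x _ => ?_
      rw [e2]
      exact norm_add_le _ _
    have h1 := pow_le_pow_left₀ (Finset.sum_nonneg fun x _ => norm_nonneg (y w x)) h0 2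
    nlinarith [sq_nonneg (∑ x, ‖y1 w x‖ - ∑ x, ‖y2 w x‖)]
  have h3 := dn2_W hc hR y hy0
  simp only [e1]
  refine h3.trans ?_
  have hst : 0 ≤ √tau := Real.sqrt_nonneg _
  have hst1 : √tau ≤ 1 := by
    rw [Real.sqrt_le_one]
    exact hc.tau1
  have htau := hc.tau0.le
  have htau1 := hc.tau1
  have d1 : ∑ w, n2 (y w) ≤ (8 * (3 * C1 ^ 2 + K) * (1 + C1) * √tau + 16 * K * C1 ^ 2 +
      16 * C1 * tau) / D.et r ^ 2 * D.en r h v := by
    have e : (8 * (3 * C1 ^ 2 + K) * (1 + C1) * √tau + 16 * K * C1 ^ 2 +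
        16 * C1 * tau) / D.et r ^ 2 * D.en r h v =
        2 * ((3 * C1 ^ 2 + K) * (4 * (1 + C1) * √tau / D.et r ^ 2 * D.en r h v)) +
        2 * ((8 * K * C1 ^ 2 + 8 * C1 * tau) / D.et r ^ 2 * D.en r h v) := by ring
    rw [e]
    linarith
  have d2 : ∑ w, (∑ x, ‖y w x‖) ^ 2 ≤ 64 * C1 ^ 3 / D.et r ^ 3 * D.en r h v := by
    have e : 64 * C1 ^ 3 / D.et r ^ 3 * D.en r h v =
        2 * (4 * C1 ^ 2 * (4 * C1 / D.et r ^ 3 * D.en r h v)) +
        2 * (16 * C1 ^ 3 / D.et r ^ 3 * D.en r h v) := by ring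
    rw [e]
    linarith
  have h4 : 2 * CH * D.et r * ∑ w, n2 (y w) ≤
      2 * CH * D.et r * ((8 * (3 * C1 ^ 2 + K) * (1 + C1) * √tau + 16 * K * C1 ^ 2 +
      16 * C1 * tau) / D.et r ^ 2 * D.en r h v) :=
    mul_le_mul_of_nonneg_left d1 (by positivity)
  have h5 : 2 * kap * D.et r ^ 2 * ∑ w, (∑ x, ‖y w x‖) ^ 2 ≤
      2 * kap * D.et r ^ 2 * (64 * C1 ^ 3 / D.et r ^ 3 * D.en r h v) :=
    mul_le_mul_of_nonneg_left d2 (by positivity)
  have e3 : 2 * CH * D.et r * ((8 * (3 * C1 ^ 2 + K) * (1 + C1) * √tau + 16 * K * C1 ^ 2 +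
      16 * C1 * tau) / D.et r ^ 2 * D.en r h v) +
      2 * kap * D.et r ^ 2 * (64 * C1 ^ 3 / D.et r ^ 3 * D.en r h v) =
      (2 * CH * (8 * (3 * C1 ^ 2 + K) * (1 + C1) * √tau + 16 * K * C1 ^ 2 + 16 * C1 * tau) +
        128 * kap * C1 ^ 3) / D.et r * D.en r h v := by
    field_simp
    ring
  have h6 : 2 * CH * (8 * (3 * C1 ^ 2 + K) * (1 + C1) * √tau + 16 * K * C1 ^ 2 + 16 * C1 * tau) +
      128 * kap * C1 ^ 3 ≤ 128 * C1 ^ 3 * (CH + 1) * (1 + kap) * (1 + K) := by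
    have hC2 : C1 ^ 2 ≤ C1 ^ 3 := pow_le_pow_right₀ hC1 (by norm_num)
    have hC13 : C1 ≤ C1 ^ 3 := by
      calc C1 = C1 ^ 1 := (pow_one _).symm
        _ ≤ C1 ^ 3 := pow_le_pow_right₀ hC1 (by norm_num)
    have m1 : 8 * (3 * C1 ^ 2 + K) * (1 + C1) * √tau ≤ 48 * C1 ^ 3 + 16 * K * C1 ^ 3 := by
      calc 8 * (3 * C1 ^ 2 + K) * (1 + C1) * √tau ≤ 8 * (3 * C1 ^ 2 + K) * (2 * C1) * 1 := by
            refine mul_le_mul ?_ hst1 hst (by positivity)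
            exact mul_le_mul_of_nonneg_left (by linarith) (by positivity)
        _ = 48 * C1 ^ 3 + 16 * K * C1 := by ring
        _ ≤ 48 * C1 ^ 3 + 16 * K * C1 ^ 3 := by
            have := mul_le_mul_of_nonneg_left hC13 hK
            linarith
    have m2 : 16 * K * C1 ^ 2 ≤ 16 * K * C1 ^ 3 := by
      have := mul_le_mul_of_nonneg_left hC2 hK
      linarith
    have m3 : 16 * C1 * tau ≤ 16 * C1 ^ 3 := by
      have := mul_le_mul hC13 htau1 htau (by positivity : (0 : ℝ) ≤ C1 ^ 3)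
      linarith
    have m4 : 2 * CH * (8 * (3 * C1 ^ 2 + K) * (1 + C1) * √tau + 16 * K * C1 ^ 2 +
        16 * C1 * tau) ≤ 2 * CH * (64 * C1 ^ 3 + 32 * K * C1 ^ 3) :=
      mul_le_mul_of_nonneg_left (by linarith) (by positivity)
    have m5 : 128 * C1 ^ 3 * (CH + 1) * (1 + kap) * (1 + K) =
        2 * CH * (64 * C1 ^ 3 + 32 * K * C1 ^ 3) + 128 * kap * C1 ^ 3 +
        (64 * CH * K * C1 ^ 3 + 128 * C1 ^ 3 * (1 + K) + 128 * C1 ^ 3 * kap * (CH + CH * K + K)) := by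
      ring
    have m6 : 0 ≤ 64 * CH * K * C1 ^ 3 + 128 * C1 ^ 3 * (1 + K) +
        128 * C1 ^ 3 * kap * (CH + CH * K + K) := by positivity
    linarith
  have h7 := div_le_div_of_nonneg_right h6 het.le
  calc _ ≤ (2 * CH * (8 * (3 * C1 ^ 2 + K) * (1 + C1) * √tau + 16 * K * C1 ^ 2 + 16 * C1 * tau) +
        128 * kap * C1 ^ 3) / D.et r * D.en r h v := by
        rw [← e3]
        exact add_le_add h4 h5
    _ ≤ 128 * C1 ^ 3 * (CH + 1) * (1 + kap) * (1 + K) / D.et r * (4 * n2 u) :=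
        mul_le_mul h7 hen hen0 (by positivity)
    _ = 512 * C1 ^ 3 * (CH + 1) * (1 + kap) * (1 + K) / D.et r * n2 u := by ring

end Pool.Agent.APS
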