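import Pool.Agent.APS.DDefs

/-! # APS DTRACE: the drift of `f` is dissipative.

`tr1 (2p) f g = 2p Re Tr(f^(2p-1) g)`. With `X = f^p B` (`f`, `B` hermitian, `QU = B B`), cyclicity
(`Matrix.trace_mul_comm`) gives `Tr(f^(2p-1) QU f) = Tr(f^(2p-1) f QU) = Tr(f^(2p) B B) = Tr(Xᴴ X)`
(`= ∑ |X_xy|² =: m ≥ 0`) and `Tr(f^(2p-1) f QU f) = Tr(f^(2p+1) B B) = Tr(Xᴴ f X)`, of absolute value
`≤ ∑_columns |⟨X e_j, f X e_j⟩| ≤ m` by `OpLe f 1` (Cauchy-Schwarz, column by column).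
So `tr1 = 2p (-m - dl Re Tr(Xᴴ f X)) ≤ 2p (-m + dl m) ≤ 0`.
-/

open Matrix Finset

noncomputable section

namespace Pool.Agent.APS

variable {κ : Type} [Fintype κ] [DecidableEq κ]

omit [DecidableEq κ] in
private theorem dt_sq (X : Matrix κ κ ℂ) : (Xᴴ * X).trace.re = ∑ j, ∑ i, ‖X i j‖ ^ 2 := by
  rw [trace, Complex.re_sum]
  refine Finset.sum_congr rfl fun j _ => ?_
  rw [diag_apply, mul_apply, Complex.re_sum]
  refine Finset.sum_congr rfl fun i _ => ?_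
  rw [conjTranspose_apply, ← Complex.normSq_eq_norm_sq]
  have h : star (X i j) * X i j = ((Complex.normSq (X i j) : ℝ) : ℂ) :=
    (Complex.normSq_eq_conj_mul_self).symm
  rw [h, Complex.ofReal_re]

omit [DecidableEq κ] in
private theorem dt_low {f X : Matrix κ κ ℂ} (hf1 : OpLe f 1) :
    -(Xᴴ * (f * X)).trace.re ≤ ∑ j, ∑ i, ‖X i j‖ ^ 2 := by
  have h1 : -(Xᴴ * (f * X)).trace.re ≤
      ∑ j, ∑ i, (‖X i j‖ ^ 2 + ‖(f * X) i j‖ ^ 2) / 2 := by
    rw [trace, Complex.re_sum, ← Finset.sum_neg_distrib]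
    refine Finset.sum_le_sum fun j _ => ?_
    rw [diag_apply, mul_apply, Complex.re_sum, ← Finset.sum_neg_distrib]
    refine Finset.sum_le_sum fun i _ => ?_
    rw [conjTranspose_apply]
    have h2 : -(star (X i j) * (f * X) i j).re ≤ ‖star (X i j) * (f * X) i j‖ :=
      (neg_le_abs _).trans (Complex.abs_re_le_norm _)
    refine h2.trans ?_
    rw [norm_mul, norm_star]
    nlinarith [sq_nonneg (‖X i j‖ - ‖(f * X) i j‖)]
  refine h1.trans (Finset.sum_le_sum fun j _ => ?_)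
  have h3 := hf1 (fun k => X k j)
  have h4 : ∀ i, (f *ᵥ (fun k => X k j)) i = (f * X) i j := fun i => rfl
  simp only [h4, one_pow, one_mul] at h3
  rw [← Finset.sum_div, Finset.sum_add_distrib]
  linarith

theorem tr_diss (p : ℕ) (hp : 1 ≤ p) {f B QU : Matrix κ κ ℂ} (hf : fᴴ = f) (hB : Bᴴ = B)
    (hQ : B * B = QU) (hf1 : OpLe f 1) {dl : ℝ} (hdl : 0 ≤ dl) (hdl1 : dl ≤ 1) :
    tr1 (2 * p) f (-((1 / 2 : ℂ) • (QU * f + f * QU)) - (dl : ℂ) • (f * QU * f)) ≤ 0 := by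
  set X : Matrix κ κ ℂ := f ^ p * B with hX
  have hXH : Xᴴ = B * f ^ p := by
    rw [hX, conjTranspose_mul, conjTranspose_pow, hf, hB]
  have hp1 : f * f ^ (2 * p - 1) = f ^ (2 * p) := by
    rw [← pow_succ']
    congr 1
    omega
  have hp2 : f ^ (2 * p - 1) * f = f ^ (2 * p) := by
    rw [← pow_succ]
    congr 1
    omega
  have hpp : f ^ (2 * p) = f ^ p * f ^ p := by
    rw [← pow_add]
    congr 1
    omega
  -- the three traces
  have e1 : (f ^ (2 * p - 1) * (QU * f)).trace = (Xᴴ * X).trace := by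
    rw [← Matrix.mul_assoc, Matrix.trace_mul_comm, ← Matrix.mul_assoc, hp1, hXH, hX, hpp, ← hQ]
    rw [← Matrix.mul_assoc, Matrix.trace_mul_comm]
    congr 1
    simp only [Matrix.mul_assoc]
  have e2 : (f ^ (2 * p - 1) * (f * QU)).trace = (Xᴴ * X).trace := by
    rw [← Matrix.mul_assoc, hp2, hXH, hX, hpp, ← hQ]
    rw [← Matrix.mul_assoc, Matrix.trace_mul_comm]
    congr 1
    simp only [Matrix.mul_assoc]
  have e3 : (f ^ (2 * p - 1) * (f * QU * f)).trace = (Xᴴ * (f * X)).trace := by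
    rw [← Matrix.mul_assoc, ← Matrix.mul_assoc, hp2, Matrix.trace_mul_comm, hXH, hX, hpp, ← hQ]
    rw [← Matrix.mul_assoc, ← Matrix.mul_assoc, Matrix.trace_mul_comm]
    congr 1
    have hc : f * (f ^ p * f ^ p) = f ^ p * (f * f ^ p) := by
      rw [← Matrix.mul_assoc, ← Matrix.mul_assoc, ← pow_succ', ← pow_succ]
    calc B * (f * (f ^ p * f ^ p) * B) = B * (f ^ p * (f * f ^ p) * B) := by rw [hc]
      _ = B * f ^ p * (f * (f ^ p * B)) := by simp only [Matrix.mul_assoc]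
  have hm := dt_sq X
  have hl := dt_low (X := X) hf1
  have hm0 : 0 ≤ ∑ j, ∑ i, ‖X i j‖ ^ 2 := by positivity
  unfold tr1
  have e4 : (f ^ (2 * p - 1) * (-((1 / 2 : ℂ) • (QU * f + f * QU)) -
      (dl : ℂ) • (f * QU * f))).trace.re =
      -(∑ j, ∑ i, ‖X i j‖ ^ 2) - dl * (Xᴴ * (f * X)).trace.re := by
    rw [Matrix.mul_sub, Matrix.mul_neg, Matrix.mul_smul, Matrix.mul_smul, Matrix.mul_add,
      trace_sub, trace_neg, trace_smul, trace_smul, trace_add, e1, e2, e3, smul_eq_mul,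
      smul_eq_mul, ← hm]
    have h5 : (1 / 2 : ℂ) * ((Xᴴ * X).trace + (Xᴴ * X).trace) = (Xᴴ * X).trace := by ring
    rw [h5, Complex.sub_re, Complex.neg_re, Complex.re_ofReal_mul]
  rw [e4]
  have h6 : -(∑ j, ∑ i, ‖X i j‖ ^ 2) - dl * (Xᴴ * (f * X)).trace.re ≤ 0 := by
    have h7 : dl * -(Xᴴ * (f * X)).trace.re ≤ dl * ∑ j, ∑ i, ‖X i j‖ ^ 2 :=
      mul_le_mul_of_nonneg_left hl hdl
    have h8 : dl * ∑ j, ∑ i, ‖X i j‖ ^ 2 ≤ 1 * ∑ j, ∑ i, ‖X i j‖ ^ 2 :=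
      mul_le_mul_of_nonneg_right hdl1 hm0
    linarith
  exact mul_nonpos_of_nonneg_of_nonpos (Nat.cast_nonneg _) h6

end Pool.Agent.APS
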