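import Pool.Agent.Kin.TDefs

/-!
# APS: definitions (see /team-store/aps_proof.md)

* `OpLe A c`: the matrix `A` has operator norm at most `c`.
* `SteinLaw`: a law with bounded Stein kernels `T`, `T3`.
* `Comp`: one (real valued) component `Γ_i(r,h)` of the functional with its derivatives;
  `Comp.Reg`: regularity and the derivative relations; `Comp.Est`: the estimates at one
  configuration `(r,h)`.
* `VObs`, `MObs`: vector and matrix valued observables with their derivatives.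
* `pw`, `rw`, `tr`: the three types of functionals.
* `Fl`: the data of the flow.
-/

open Matrix Finset MeasureTheory

noncomputable section

namespace Pool.Agent.APS

open Pool.Agent.Kin

variable {ι κ : Type}

/-! ### operator norm -/

/-- the operator norm of `A` is at most `c` -/
def OpLe [Fintype κ] (A : Matrix κ κ ℂ) (c : ℝ) : Prop :=
  ∀ u : κ → ℂ, ∑ x, ‖(A *ᵥ u) x‖ ^ 2 ≤ c ^ 2 * ∑ x, ‖u x‖ ^ 2

/-! ### laws with bounded Stein kernels -/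

/-- `μ` is a probability law on `[-bd, bd]` with mean `0`, variance `sg` and bounded Stein kernels
`T` (first order) and `T3` (second order). -/
structure SteinLaw (μ : Measure ℝ) (bd sg CT : ℝ) (T T3 : ℝ → ℝ) : Prop where
  prob : IsProbabilityMeasure μ
  supp : ∀ᵐ x ∂μ, |x| ≤ bd
  bd0 : 0 < bd
  sg0 : 0 < sg
  CT0 : 0 < CT
  mT : Measurable T
  mT3 : Measurable T3
  T0 : ∀ x, 0 ≤ T x
  Tb : ∀ x, T x ≤ CT
  T3b : ∀ x, |T3 x| ≤ CT
  i1 : ∀ f f' : ℝ → ℝ, (∀ x, HasDerivAt f (f' x) x) → Continuous f' →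
    ∫ x, x * f x ∂μ = ∫ x, T x * f' x ∂μ
  i2 : ∀ f f' : ℝ → ℝ, (∀ x, HasDerivAt f (f' x) x) → Continuous f' →
    ∫ x, (T x - sg) * f x ∂μ = ∫ x, T3 x * f' x ∂μ

/-! ### components -/

/-- A component `Ga(r,h)` of the functional. `Gr`: derivative in `r` at fixed `h`; `G1 w`:
derivative in `h_w`; `Dr w + Qu w`: second derivative in `h_w`, where `Dr w` is the drift part;
`D1 w`: derivative of `Dr w` in `h_w`. -/
structure Comp (ι : Type) where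
  Ga : ℝ → (ι → ℝ) → ℝ
  Gr : ℝ → (ι → ℝ) → ℝ
  G1 : ι → ℝ → (ι → ℝ) → ℝ
  Dr : ι → ℝ → (ι → ℝ) → ℝ
  Qu : ι → ℝ → (ι → ℝ) → ℝ
  D1 : ι → ℝ → (ι → ℝ) → ℝ

/-- the sum of two components -/
def Comp.add (a b : Comp ι) : Comp ι where
  Ga r h := a.Ga r h + b.Ga r h
  Gr r h := a.Gr r h + b.Gr r h
  G1 w r h := a.G1 w r h + b.G1 w r h
  Dr w r h := a.Dr w r h + b.Dr w r h
  Qu w r h := a.Qu w r h + b.Qu w r h
  D1 w r h := a.D1 w r h + b.D1 w r h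

/-- regularity of a component for `r ∈ I` (an open set) and the derivative relations -/
structure Comp.Reg [Fintype ι] [DecidableEq ι] (c : Comp ι) (lam : ℝ) (I : Set ℝ) : Prop where
  cGa : ContinuousOn (fun p : ℝ × (ι → ℝ) => c.Ga p.1 p.2) (I ×ˢ Set.univ)
  cGr : ContinuousOn (fun p : ℝ × (ι → ℝ) => c.Gr p.1 p.2) (I ×ˢ Set.univ)
  cG1 : ∀ w, ContinuousOn (fun p : ℝ × (ι → ℝ) => c.G1 w p.1 p.2) (I ×ˢ Set.univ)
  cDr : ∀ w, ContinuousOn (fun p : ℝ × (ι → ℝ) => c.Dr w p.1 p.2) (I ×ˢ Set.univ)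
  cQu : ∀ w, ContinuousOn (fun p : ℝ × (ι → ℝ) => c.Qu w p.1 p.2) (I ×ˢ Set.univ)
  cD1 : ∀ w, ContinuousOn (fun p : ℝ × (ι → ℝ) => c.D1 w p.1 p.2) (I ×ˢ Set.univ)
  nn : ∀ r ∈ I, ∀ h, 0 ≤ c.Ga r h
  d1 : ∀ r ∈ I, ∀ h w t, HasDerivAt (fun t : ℝ => c.Ga r (Function.update h w t))
    (c.G1 w r (Function.update h w t)) t
  d2 : ∀ r ∈ I, ∀ h w t, HasDerivAt (fun t : ℝ => c.G1 w r (Function.update h w t))
    (c.Dr w r (Function.update h w t) + c.Qu w r (Function.update h w t)) t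
  d3 : ∀ r ∈ I, ∀ h w t, HasDerivAt (fun t : ℝ => c.Dr w r (Function.update h w t))
    (c.D1 w r (Function.update h w t)) t
  dr : ∀ r ∈ I, ∀ v : ι → ℝ, HasDerivAt (fun r : ℝ => c.Ga r (fun w => lam * r * v w))
    (c.Gr r (fun w => lam * r * v w) +
      ∑ w, lam * v w * c.G1 w r (fun w => lam * r * v w)) r

/-- The estimates of a component at one configuration `h` at time `r`, with the constants `A`
(rate) and `B` (source) and the sizes `q w`. `et = η_r`. -/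
structure Comp.Est [Fintype ι] (c : Comp ι) (lam s et r A B : ℝ) (h : ι → ℝ) (q : ι → ℝ) :
    Prop where
  dr : c.Gr r h + s * r * ∑ w, c.Dr w r h ≤ 2 * r * s / et * (A * c.Ga r h + B)
  q0 : ∀ w, 0 ≤ q w
  qu : ∀ w, |c.Qu w r h| ≤ q w
  g1 : ∀ w, c.G1 w r h ^ 2 ≤ c.Ga r h * q w
  d1 : ∀ w, c.Dr w r h ^ 2 ≤ c.Ga r h * q w
  qs : ∑ w, q w ≤ 1 / et * (A * c.Ga r h + B)
  dd : ∀ e : ι → ℝ, (∀ w, |e w| ≤ 1) →
    lam * ∑ w, e w * c.D1 w r h ≤ 1 / et * (A * c.Ga r h + B)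

/-! ### observables -/

/-- A vector valued observable with its derivatives: `fr` in `r` at fixed `h`, `f1 w`, `f2 w`,
`f3 w` the first three derivatives in `h_w`. -/
structure VObs (ι κ : Type) where
  f : ℝ → (ι → ℝ) → κ → ℂ
  fr : ℝ → (ι → ℝ) → κ → ℂ
  f1 : ι → ℝ → (ι → ℝ) → κ → ℂ
  f2 : ι → ℝ → (ι → ℝ) → κ → ℂ
  f3 : ι → ℝ → (ι → ℝ) → κ → ℂ

structure VObs.Reg [Fintype ι] [DecidableEq ι] (O : VObs ι κ) (lam : ℝ) (I : Set ℝ) : Prop where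
  c0 : ∀ x, ContinuousOn (fun p : ℝ × (ι → ℝ) => O.f p.1 p.2 x) (I ×ˢ Set.univ)
  cr : ∀ x, ContinuousOn (fun p : ℝ × (ι → ℝ) => O.fr p.1 p.2 x) (I ×ˢ Set.univ)
  c1 : ∀ w x, ContinuousOn (fun p : ℝ × (ι → ℝ) => O.f1 w p.1 p.2 x) (I ×ˢ Set.univ)
  c2 : ∀ w x, ContinuousOn (fun p : ℝ × (ι → ℝ) => O.f2 w p.1 p.2 x) (I ×ˢ Set.univ)
  c3 : ∀ w x, ContinuousOn (fun p : ℝ × (ι → ℝ) => O.f3 w p.1 p.2 x) (I ×ˢ Set.univ)
  d1 : ∀ r ∈ I, ∀ h w t x, HasDerivAt (fun t : ℝ => O.f r (Function.update h w t) x)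
    (O.f1 w r (Function.update h w t) x) t
  d2 : ∀ r ∈ I, ∀ h w t x, HasDerivAt (fun t : ℝ => O.f1 w r (Function.update h w t) x)
    (O.f2 w r (Function.update h w t) x) t
  d3 : ∀ r ∈ I, ∀ h w t x, HasDerivAt (fun t : ℝ => O.f2 w r (Function.update h w t) x)
    (O.f3 w r (Function.update h w t) x) t
  dr : ∀ r ∈ I, ∀ (v : ι → ℝ) x, HasDerivAt (fun r : ℝ => O.f r (fun w => lam * r * v w) x)
    (O.fr r (fun w => lam * r * v w) x +
      ∑ w, ((lam * v w : ℝ) : ℂ) * O.f1 w r (fun w => lam * r * v w) x) r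

/-- A matrix valued observable with its derivatives. -/
structure MObs (ι κ : Type) where
  f : ℝ → (ι → ℝ) → Matrix κ κ ℂ
  fr : ℝ → (ι → ℝ) → Matrix κ κ ℂ
  f1 : ι → ℝ → (ι → ℝ) → Matrix κ κ ℂ
  f2 : ι → ℝ → (ι → ℝ) → Matrix κ κ ℂ
  f3 : ι → ℝ → (ι → ℝ) → Matrix κ κ ℂ

structure MObs.Reg [Fintype ι] [DecidableEq ι] (O : MObs ι κ) (lam : ℝ) (I : Set ℝ) : Prop where
  c0 : ∀ x y, ContinuousOn (fun p : ℝ × (ι → ℝ) => O.f p.1 p.2 x y) (I ×ˢ Set.univ)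
  cr : ∀ x y, ContinuousOn (fun p : ℝ × (ι → ℝ) => O.fr p.1 p.2 x y) (I ×ˢ Set.univ)
  c1 : ∀ w x y, ContinuousOn (fun p : ℝ × (ι → ℝ) => O.f1 w p.1 p.2 x y) (I ×ˢ Set.univ)
  c2 : ∀ w x y, ContinuousOn (fun p : ℝ × (ι → ℝ) => O.f2 w p.1 p.2 x y) (I ×ˢ Set.univ)
  c3 : ∀ w x y, ContinuousOn (fun p : ℝ × (ι → ℝ) => O.f3 w p.1 p.2 x y) (I ×ˢ Set.univ)
  d1 : ∀ r ∈ I, ∀ h w t x y, HasDerivAt (fun t : ℝ => O.f r (Function.update h w t) x y)
    (O.f1 w r (Function.update h w t) x y) t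
  d2 : ∀ r ∈ I, ∀ h w t x y, HasDerivAt (fun t : ℝ => O.f1 w r (Function.update h w t) x y)
    (O.f2 w r (Function.update h w t) x y) t
  d3 : ∀ r ∈ I, ∀ h w t x y, HasDerivAt (fun t : ℝ => O.f2 w r (Function.update h w t) x y)
    (O.f3 w r (Function.update h w t) x y) t
  dr : ∀ r ∈ I, ∀ (v : ι → ℝ) x y, HasDerivAt (fun r : ℝ => O.f r (fun w => lam * r * v w) x y)
    (O.fr r (fun w => lam * r * v w) x y +
      ∑ w, ((lam * v w : ℝ) : ℂ) * O.f1 w r (fun w => lam * r * v w) x y) r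

/-- multiplication by a function of `r` with derivative `c'` -/
def wtV (c c' : ℝ → ℝ) (O : VObs ι κ) : VObs ι κ where
  f r h x := (c r : ℂ) * O.f r h x
  fr r h x := (c r : ℂ) * O.fr r h x + (c' r : ℂ) * O.f r h x
  f1 w r h x := (c r : ℂ) * O.f1 w r h x
  f2 w r h x := (c r : ℂ) * O.f2 w r h x
  f3 w r h x := (c r : ℂ) * O.f3 w r h x

/-- multiplication by a function of `r` with derivative `c'` -/
def wtM (c c' : ℝ → ℝ) (O : MObs ι κ) : MObs ι κ where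
  f r h := (c r : ℂ) • O.f r h
  fr r h := (c r : ℂ) • O.fr r h + (c' r : ℂ) • O.f r h
  f1 w r h := (c r : ℂ) • O.f1 w r h
  f2 w r h := (c r : ℂ) • O.f2 w r h
  f3 w r h := (c r : ℂ) • O.f3 w r h

/-- subtraction of a deterministic matrix `U r` with derivative `U' r` -/
def subM (U U' : ℝ → Matrix κ κ ℂ) (O : MObs ι κ) : MObs ι κ where
  f r h := O.f r h - U r
  fr r h := O.fr r h - U' r
  f1 := O.f1
  f2 := O.f2
  f3 := O.f3

/-- multiplication by a constant matrix from the left -/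
def lmM [Fintype κ] (P : Matrix κ κ ℂ) (O : MObs ι κ) : MObs ι κ where
  f r h := P * O.f r h
  fr r h := P * O.fr r h
  f1 w r h := P * O.f1 w r h
  f2 w r h := P * O.f2 w r h
  f3 w r h := P * O.f3 w r h

/-- the hermitian dilation of a matrix -/
def dil (A : Matrix κ κ ℂ) : Matrix (κ ⊕ κ) (κ ⊕ κ) ℂ := fromBlocks 0 A Aᴴ 0

/-- the hermitian dilation of an observable -/
def dilM (O : MObs ι κ) : MObs ι (κ ⊕ κ) where
  f r h := dil (O.f r h)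
  fr r h := dil (O.fr r h)
  f1 w r h := dil (O.f1 w r h)
  f2 w r h := dil (O.f2 w r h)
  f3 w r h := dil (O.f3 w r h)

/-! ### functionals -/

/-- `∑ |v|^(2p)` -/
def pw [Fintype κ] (p : ℕ) (v : κ → ℂ) : ℝ := ∑ x, ‖v x‖ ^ (2 * p)

/-- first derivative of `pw` at `v` in the direction `g` -/
def pw1 [Fintype κ] (p : ℕ) (v g : κ → ℂ) : ℝ :=
  ∑ x, 2 * p * ‖v x‖ ^ (2 * p - 2) * (star (v x) * g x).re

/-- second derivative of `pw` at `v` in the directions `g`, `k` -/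
def pw2 [Fintype κ] (p : ℕ) (v g k : κ → ℂ) : ℝ :=
  ∑ x, (2 * p * ‖v x‖ ^ (2 * p - 2) * (star (g x) * k x).re +
    4 * p * (p - 1) * ‖v x‖ ^ (2 * p - 4) * ((star (v x) * g x).re * (star (v x) * k x).re))

/-- the component `∑ |f|^(2p)` of a vector valued observable -/
def powComp [Fintype κ] (p : ℕ) (O : VObs ι κ) : Comp ι where
  Ga r h := pw p (O.f r h)
  Gr r h := pw1 p (O.f r h) (O.fr r h)
  G1 w r h := pw1 p (O.f r h) (O.f1 w r h)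
  Dr w r h := pw1 p (O.f r h) (O.f2 w r h)
  Qu w r h := pw2 p (O.f r h) (O.f1 w r h) (O.f1 w r h)
  D1 w r h := pw1 p (O.f r h) (O.f3 w r h) + pw2 p (O.f r h) (O.f1 w r h) (O.f2 w r h)

/-- `∑_x (∑_y |f_xy|²)^p` -/
def rw0 [Fintype κ] (p : ℕ) (f : Matrix κ κ ℂ) : ℝ := ∑ x, (∑ y, ‖f x y‖ ^ 2) ^ p

/-- first derivative of `rw0` -/
def rw1 [Fintype κ] (p : ℕ) (f g : Matrix κ κ ℂ) : ℝ :=
  ∑ x, p * (∑ y, ‖f x y‖ ^ 2) ^ (p - 1) * (2 * ∑ y, (star (f x y) * g x y).re)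

/-- second derivative of `rw0` -/
def rw2 [Fintype κ] (p : ℕ) (f g k : Matrix κ κ ℂ) : ℝ :=
  ∑ x, (p * (∑ y, ‖f x y‖ ^ 2) ^ (p - 1) * (2 * ∑ y, (star (g x y) * k x y).re) +
    p * (p - 1) * (∑ y, ‖f x y‖ ^ 2) ^ (p - 2) *
      ((2 * ∑ y, (star (f x y) * g x y).re) * (2 * ∑ y, (star (f x y) * k x y).re)))

/-- the component `∑_x (∑_y |f_xy|²)^p` of a matrix valued observable -/
def rowComp [Fintype κ] (p : ℕ) (O : MObs ι κ) : Comp ι where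
  Ga r h := rw0 p (O.f r h)
  Gr r h := rw1 p (O.f r h) (O.fr r h)
  G1 w r h := rw1 p (O.f r h) (O.f1 w r h)
  Dr w r h := rw1 p (O.f r h) (O.f2 w r h)
  Qu w r h := rw2 p (O.f r h) (O.f1 w r h) (O.f1 w r h)
  D1 w r h := rw1 p (O.f r h) (O.f3 w r h) + rw2 p (O.f r h) (O.f1 w r h) (O.f2 w r h)

/-- `Re Tr f^n` -/
def tr0 [Fintype κ] [DecidableEq κ] (n : ℕ) (f : Matrix κ κ ℂ) : ℝ := (f ^ n).trace.re

/-- first derivative of `tr0` -/
def tr1 [Fintype κ] [DecidableEq κ] (n : ℕ) (f g : Matrix κ κ ℂ) : ℝ :=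
  n * (f ^ (n - 1) * g).trace.re

/-- second derivative of `tr0` -/
def tr2 [Fintype κ] [DecidableEq κ] (n : ℕ) (f g k : Matrix κ κ ℂ) : ℝ :=
  n * ∑ i ∈ range (n - 1), (f ^ i * g * (f ^ (n - 2 - i) * k)).trace.re

/-- the component `Re Tr f^n` of a matrix valued observable -/
def trComp [Fintype κ] [DecidableEq κ] (n : ℕ) (O : MObs ι κ) : Comp ι where
  Ga r h := tr0 n (O.f r h)
  Gr r h := tr1 n (O.f r h) (O.fr r h)
  G1 w r h := tr1 n (O.f r h) (O.f1 w r h)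
  Dr w r h := tr1 n (O.f r h) (O.f2 w r h)
  Qu w r h := tr2 n (O.f r h) (O.f1 w r h) (O.f1 w r h)
  D1 w r h := tr1 n (O.f r h) (O.f3 w r h) + tr2 n (O.f r h) (O.f1 w r h) (O.f2 w r h)

/-! ### the flow -/

/-- Data of the flow: `H0` free operator, `z` spectral parameter, `g0` the number with
`z_r = z + s (1 - r²) g0`, `lam = λ`, `sg` the variance of the potential. -/
structure Fl (ι : Type) where
  H0 : Matrix ι ι ℂ
  z : ℂ
  g0 : ℂ
  lam : ℝ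
  sg : ℝ

namespace Fl

variable [Fintype ι] [DecidableEq ι] (D : Fl ι)

omit [Fintype ι] [DecidableEq ι] in
/-- `s = λ² σ²` -/
def s (D : Fl ι) : ℝ := D.lam ^ 2 * D.sg

omit [Fintype ι] [DecidableEq ι] in
/-- `η_r` -/
def et (D : Fl ι) (r : ℝ) : ℝ := D.z.im + D.s * (1 - r ^ 2) * D.g0.im

omit [Fintype ι] [DecidableEq ι] in
/-- `z_r` -/
def zr (D : Fl ι) (r : ℝ) : ℂ := D.z + ((D.s * (1 - r ^ 2) : ℝ) : ℂ) * D.g0

/-- `G_r(h)` -/
def G (r : ℝ) (h : ι → ℝ) : Matrix ι ι ℂ := res D.H0 (D.zr r) h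

/-- the configuration `λ r v` -/
def hv (D : Fl ι) (r : ℝ) (v : ι → ℝ) : ι → ℝ := fun w => D.lam * r * v w

/-- the observable `G` -/
def GO : MObs ι ι where
  f r h := D.G r h
  fr r h := (-(2 * (r : ℂ) * (D.s : ℂ) * D.g0)) • (D.G r h * D.G r h)
  f1 w r h := fun x y => -(D.G r h x w * D.G r h w y)
  f2 w r h := fun x y => 2 * (D.G r h w w * (D.G r h x w * D.G r h w y))
  f3 w r h := fun x y => -(6 * (D.G r h w w ^ 2 * (D.G r h x w * D.G r h w y)))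

/-- the observable `g_x = G_xx - g0` -/
def gO : VObs ι ι where
  f r h x := D.G r h x x - D.g0
  fr r h x := -(2 * (r : ℂ) * (D.s : ℂ) * D.g0) * (D.G r h * D.G r h) x x
  f1 w r h x := -(D.G r h x w ^ 2)
  f2 w r h x := 2 * (D.G r h w w * D.G r h x w ^ 2)
  f3 w r h x := -(6 * (D.G r h w w ^ 2 * D.G r h x w ^ 2))

/-- the observable `S_xy = |G_xy|²` (a matrix with real entries) -/
def SO : MObs ι ι where
  f r h := fun x y => ((‖D.G r h x y‖ ^ 2 : ℝ) : ℂ)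
  fr r h := fun x y => ((2 * (-(2 * (r : ℂ) * (D.s : ℂ) * D.g0) * (D.G r h * D.G r h) x y *
    star (D.G r h x y)).re : ℝ) : ℂ)
  f1 w r h := fun x y => ((-(2 * (D.G r h x w * D.G r h w y * star (D.G r h x y)).re) : ℝ) : ℂ)
  f2 w r h := fun x y => ((4 * (D.G r h w w * (D.G r h x w * D.G r h w y) *
    star (D.G r h x y)).re + 2 * (‖D.G r h x w‖ ^ 2 * ‖D.G r h w y‖ ^ 2) : ℝ) : ℂ)
  f3 w r h := fun x y => ((-(12 * (D.G r h w w ^ 2 * (D.G r h x w * D.G r h w y) *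
    star (D.G r h x y)).re) -
    12 * ((D.G r h w w).re * (‖D.G r h x w‖ ^ 2 * ‖D.G r h w y‖ ^ 2)) : ℝ) : ℂ)

/-- the observable `R_xy = G_xy²` -/
def RO : MObs ι ι where
  f r h := fun x y => D.G r h x y ^ 2
  fr r h := fun x y => 2 * (-(2 * (r : ℂ) * (D.s : ℂ) * D.g0) * (D.G r h * D.G r h) x y *
    D.G r h x y)
  f1 w r h := fun x y => -(2 * (D.G r h x w * D.G r h w y * D.G r h x y))
  f2 w r h := fun x y => 4 * (D.G r h w w * (D.G r h x w * D.G r h w y) * D.G r h x y) +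
    2 * (D.G r h x w ^ 2 * D.G r h w y ^ 2)
  f3 w r h := fun x y => -(12 * (D.G r h w w ^ 2 * (D.G r h x w * D.G r h w y) * D.G r h x y)) -
    12 * (D.G r h w w * (D.G r h x w ^ 2 * D.G r h w y ^ 2))

/-- the observable of the components `H` and `F`: dilation of `c (Π S - U)` -/
def hO (Pi : Matrix ι ι ℂ) (U U' : ℝ → Matrix ι ι ℂ) (c c' : ℝ → ℝ) : MObs ι (ι ⊕ ι) :=
  dilM (wtM c c' (subM U U' (lmM Pi D.SO)))

/-- the observable of the component `Y`: dilation of `c (R - U)` -/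
def yO (U U' : ℝ → Matrix ι ι ℂ) (c c' : ℝ → ℝ) : MObs ι (ι ⊕ ι) :=
  dilM (wtM c c' (subM U U' D.RO))

/-- The bounds at one configuration which are used in all estimates: `|g_x| ≤ a`,
`∑_y |G_xy|^4 ≤ tau / η_r`. -/
structure Cfg (C1 a tau r : ℝ) (h : ι → ℝ) : Prop where
  sym : RealSym D.H0
  r0 : 0 ≤ r
  r1 : r ≤ 1
  et0 : 0 < D.et r
  s0 : 0 < D.s
  lam0 : 0 < D.lam
  lam1 : D.lam ≤ 1
  g0im : 0 ≤ D.g0.im
  C1b : ‖D.g0‖ + 1 ≤ C1
  a0 : 0 < a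
  a1 : a ≤ 1
  tau0 : 0 < tau
  tau1 : tau ≤ 1
  g : ∀ x, ‖D.G r h x x - D.g0‖ ≤ a
  T4 : ∀ x, ∑ y, ‖D.G r h x y‖ ^ 4 ≤ tau / D.et r

end Fl

end Pool.Agent.APS
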