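import Pool.Agent.APS.OpLib

/-! # APS: definitions, part 2 (error matrices of the drift identities, bounds of the flow) -/

open Matrix Finset MeasureTheory

noncomputable section

namespace Pool.Agent.APS

open Pool.Agent.Kin

variable {ι κ : Type}

namespace Fl

variable [Fintype ι] [DecidableEq ι] (D : Fl ι)

/-- `G diag(c) G` -/
def gcg (c : ι → ℂ) (r : ℝ) (h : ι → ℝ) : Matrix ι ι ℂ :=
  D.G r h * diagonal c * D.G r h

/-- `g_x = G_xx - g0` -/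
def gv (r : ℝ) (h : ι → ℝ) : ι → ℂ := fun x => D.G r h x x - D.g0

/-- the error `2 Re ((G g G) ∘ conj G)` in the drift identity of `S` -/
def errS (r : ℝ) (h : ι → ℝ) : Matrix ι ι ℂ :=
  fun x y => ((2 * (D.gcg (D.gv r h) r h x y * star (D.G r h x y)).re : ℝ) : ℂ)

/-- the error `2 (G g G) ∘ G` in the drift identity of `R` -/
def errR (r : ℝ) (h : ι → ℝ) : Matrix ι ι ℂ :=
  fun x y => 2 * (D.gcg (D.gv r h) r h x y * D.G r h x y)

end Fl

/-- `Pi` is a hermitian projection and `1 - Pi` is small from `ℓ¹` to `ℓ²`. -/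
structure LowMode [Fintype ι] [DecidableEq ι] (Pi : Matrix ι ι ℂ) (epL : ℝ) : Prop where
  herm : Piᴴ = Pi
  idem : Pi * Pi = Pi
  ep0 : 0 ≤ epL
  low : ∀ u : ι → ℂ, ∑ x, ‖((1 - Pi) *ᵥ u) x‖ ^ 2 ≤ epL * (∑ x, ‖u x‖) ^ 2

/-- source term of the component `g` -/
def Bg (N C1 lam a tau e : ℝ) (p : ℕ) : ℝ :=
  N * (1 / e) ^ (2 * p) * ((20 * p ^ 2 * C1 ^ 2 * tau / a ^ 2) ^ p +
    (12 * p * C1 ^ 3 * lam / a) ^ (2 * p))

/-- source term of the component `T` -/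
def BT (N C1 lam a tau epL et e : ℝ) (p : ℕ) : ℝ :=
  N * (1 / e) ^ (4 * p) * ((200 * p ^ 2 * C1 ^ 5 * epL / (et * tau)) ^ p +
    (40 * p * C1 ^ 3 * (a + lam)) ^ (4 * p) / tau ^ p)

/-- source term of the components `Y`, `H`, `F` (`y` the tolerance) -/
def BH (N C1 lam a tau y e : ℝ) (p : ℕ) : ℝ :=
  4 * N * (1 / e) ^ (2 * p) * ((60 * p * C1 ^ 3 * (a + lam) / y) ^ (2 * p) +
    (30 * p * C1 ^ 2 * √√tau / y) ^ (2 * p))

end Pool.Agent.APS
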