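import Pool.Agent.APS.Defs2

/-! # APS: definitions, part 3 (the one-run version, /team-store/aps2_proof.md)

* `Comp.Est2`: as `Comp.Est`, but with an additional factor `lam` at the second derivative in `d1`.
* `lap A = diag(A 1) - A`, `lapM`, `swM` (sandwich `W O W`), `Fl.fO`: the observable
  `f = c W (Q - QU) W`, `Q = lap S`.
* `Ref`: hypotheses on the deterministic reference `QU = B²`, `W = QU^(-1/2)` at one time.
-/

open Matrix Finset MeasureTheory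

noncomputable section

namespace Pool.Agent.APS

open Pool.Agent.Kin

variable {ι κ : Type}

/-- The estimates of a component at one configuration (weaker form: `lam * Dr` in `d1`). -/
structure Comp.Est2 [Fintype ι] (c : Comp ι) (lam s et r A B : ℝ) (h : ι → ℝ) (q : ι → ℝ) :
    Prop where
  dr : c.Gr r h + s * r * ∑ w, c.Dr w r h ≤ 2 * r * s / et * (A * c.Ga r h + B)
  q0 : ∀ w, 0 ≤ q w
  qu : ∀ w, |c.Qu w r h| ≤ q w
  g1 : ∀ w, c.G1 w r h ^ 2 ≤ c.Ga r h * q w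
  d1 : ∀ w, (lam * c.Dr w r h) ^ 2 ≤ c.Ga r h * q w
  qs : ∑ w, q w ≤ 1 / et * (A * c.Ga r h + B)
  dd : ∀ e : ι → ℝ, (∀ w, |e w| ≤ 1) →
    lam * ∑ w, e w * c.D1 w r h ≤ 1 / et * (A * c.Ga r h + B)

/-- `lap A = diag(A 1) - A` -/
def lap [Fintype κ] [DecidableEq κ] (A : Matrix κ κ ℂ) : Matrix κ κ ℂ :=
  diagonal (fun x => ∑ y, A x y) - A

/-- the Laplacian of an observable -/
def lapM [Fintype κ] [DecidableEq κ] (O : MObs ι κ) : MObs ι κ where
  f r h := lap (O.f r h)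
  fr r h := lap (O.fr r h)
  f1 w r h := lap (O.f1 w r h)
  f2 w r h := lap (O.f2 w r h)
  f3 w r h := lap (O.f3 w r h)

/-- the sandwich `W O W` -/
def swM [Fintype κ] (W W' : ℝ → Matrix κ κ ℂ) (O : MObs ι κ) : MObs ι κ where
  f r h := W r * O.f r h * W r
  fr r h := W r * O.fr r h * W r + (W' r * O.f r h * W r + W r * O.f r h * W' r)
  f1 w r h := W r * O.f1 w r h * W r
  f2 w r h := W r * O.f2 w r h * W r
  f3 w r h := W r * O.f3 w r h * W r

/-- the observable `f = c W (Q - QU) W`, `Q = lap S` -/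
def Fl.fO [Fintype ι] [DecidableEq ι] (D : Fl ι) (W W' QU QU' : ℝ → Matrix ι ι ℂ) (c : ℝ) :
    MObs ι ι :=
  wtM (fun _ => c) (fun _ => 0) (swM W W' (subM QU QU' (lapM D.SO)))

/-- Hypotheses on the reference at time `r`: `QU = B²`, `B W = 1 - P0`, `P0` the projection on the
constants, the equations of motion, and the splitting of `W u` in high and low modes. -/
structure Ref [Fintype ι] [DecidableEq ι] (D : Fl ι) (r CH kap : ℝ)
    (W W' QU QU' B P0 : Matrix ι ι ℂ) : Prop where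
  hW : Wᴴ = W
  hB : Bᴴ = B
  BB : B * B = QU
  BW : B * W = 1 - P0
  WB : W * B = 1 - P0
  WP : W * P0 = 0
  PW : P0 * W = 0
  BP : B * P0 = 0
  PB : P0 * B = 0
  hP : ∀ x y, P0 x y = 1 / (Fintype.card ι : ℂ)
  dQU : QU' = ((2 * r * D.s : ℝ) : ℂ) •
    (((2 * D.g0.im / D.et r : ℝ) : ℂ) • QU - QU * QU)
  dW : W' = ((2 * r * D.s : ℝ) : ℂ) •
    ((1 / 2 : ℂ) • (QU * W) - ((D.g0.im / D.et r : ℝ) : ℂ) • W)
  nQU : OpLe QU (2 * D.g0.im / D.et r)
  CH0 : 0 ≤ CH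
  kap0 : 0 ≤ kap
  split : ∀ u : ι → ℂ, ∃ (uH uL : ι → ℂ) (b : ℂ), (∀ x, (W *ᵥ u) x = uH x + uL x + b) ∧
    ∑ x, ‖uH x‖ ^ 2 ≤ CH * D.et r * ∑ x, ‖u x‖ ^ 2 ∧
    ∀ x, ‖uL x‖ ^ 2 ≤ kap * D.et r ^ 2 * ∑ x, ‖u x‖ ^ 2

/-- source term of the component `f`; `K` is a bound for all `|G_xy|²` -/
def BF (N C1 K lam a tau kap CH dl : ℝ) (p : ℕ) : ℝ :=
  N * ((1000 * p * C1 ^ 3 * (a + lam) / dl) ^ (2 * p) +
    (10000 * p ^ 2 * C1 ^ 4 * (1 + CH) * (kap + √tau + (1 + kap) * (1 + K) * lam ^ 2) /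
      dl ^ 2) ^ p)

end Pool.Agent.APS
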