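import Pool.Agent.APS.Defs3
import Pool.Agent.Kin.TDefs

/-! # APS: definitions, part 4 (torus, /team-store/aps2_proof.md section 2)

`D : Fl (Tor d L)`, `ζ = z_0 = D.zr 0`, `γ = η_0 = D.et 0 = Im ζ`, `x = η_r/γ`, `t = s r²`,
`q0(k) = ST ζ 0 - ST ζ k`, `x + t q0(k) = 1 - t ST ζ k`.
-/

open Matrix Finset MeasureTheory

noncomputable section

namespace Pool.Agent.APS

open Pool.Agent.Kin

variable {d L : ℕ} [NeZero L]

/-- the Fourier multiplier with symbol `φ` -/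
def mult (φ : Tor d L → ℂ) : Matrix (Tor d L) (Tor d L) ℂ :=
  fun x y => (1 / (L : ℂ) ^ d) * ∑ k : Tor d L, φ k * ch k (x - y)

/-- real symbols -/
def multR (φ : Tor d L → ℝ) : Matrix (Tor d L) (Tor d L) ℂ := mult fun k => (φ k : ℂ)

/-- `q0(k)` -/
def q0 (D : Fl (Tor d L)) (k : Tor d L) : ℝ := ST (D.zr 0) (0 : Tor d L) - ST (D.zr 0) k

/-- `x_r = η_r/γ` -/
def xr (D : Fl (Tor d L)) (r : ℝ) : ℝ := D.et r / D.et 0

/-- `QU_r(k) = q0/(x (x + t q0))` -/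
def qu (D : Fl (Tor d L)) (r : ℝ) (k : Tor d L) : ℝ :=
  q0 D k / (xr D r * (xr D r + D.s * r ^ 2 * q0 D k))

/-- the derivative of `qu` in `r` -/
def qu' (D : Fl (Tor d L)) (r : ℝ) (k : Tor d L) : ℝ :=
  2 * r * D.s * (2 * D.g0.im / D.et r * qu D r k - qu D r k ^ 2)

/-- `W_r(k) = QU_r(k)^(-1/2)`, `0` if `q0(k) = 0` -/
def wu (D : Fl (Tor d L)) (r : ℝ) (k : Tor d L) : ℝ :=
  √(xr D r * (xr D r + D.s * r ^ 2 * q0 D k) / q0 D k)

/-- the derivative of `wu` in `r` -/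
def wu' (D : Fl (Tor d L)) (r : ℝ) (k : Tor d L) : ℝ :=
  2 * r * D.s * (1 / 2 * (qu D r k * wu D r k) - D.g0.im / D.et r * wu D r k)

/-- `r0(k) = ∑_x M_x² e^{ikx}` -/
def r0 (D : Fl (Tor d L)) (k : Tor d L) : ℂ := ∑ x : Tor d L, Mx (D.zr 0) x ^ 2 * ch k x

/-- the ladder of `R` -/
def RL (D : Fl (Tor d L)) (r : ℝ) : Matrix (Tor d L) (Tor d L) ℂ :=
  mult fun k => r0 D k / (1 - ((D.s * r ^ 2 : ℝ) : ℂ) * r0 D k)

/-- its derivative -/
def RL' (D : Fl (Tor d L)) (r : ℝ) : Matrix (Tor d L) (Tor d L) ℂ :=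
  ((2 * r * D.s : ℝ) : ℂ) • (RL D r * RL D r)

/-- the projection on the constants -/
def P0m (d L : ℕ) [NeZero L] : Matrix (Tor d L) (Tor d L) ℂ :=
  fun _ _ => 1 / (Fintype.card (Tor d L) : ℂ)

/-- the low modes at time `r`: `|ρ0/η - QU| > bH/η` -/
def lowSet (D : Fl (Tor d L)) (bH r : ℝ) : Finset (Tor d L) :=
  univ.filter fun k => bH / D.et r < |D.g0.im / D.et r - qu D r k|

/-- the projection on the high modes -/
def PiH (D : Fl (Tor d L)) (bH r : ℝ) : Matrix (Tor d L) (Tor d L) ℂ :=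
  mult fun k => if k ∈ lowSet D bH r then 0 else 1

/-- The world: data of the flow on the torus with the fixed point equation and the basic bounds
(`e` a small exponent, `γ0` a small number). -/
structure World (D : Fl (Tor d L)) (rlo rhi : ℝ) : Prop where
  H0 : D.H0 = H0T d L
  lam0 : 0 < D.lam
  lam1 : D.lam ≤ 1
  sg0 : 0 < D.sg
  zim : 0 < D.z.im
  fix : D.g0 = Mx (D.zr 0) (0 : Tor d L)
  rlo0 : 0 < rlo
  lo : rlo ≤ D.g0.im
  hi : ‖D.g0‖ ≤ rhi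
  et1 : D.et 0 ≤ 1
  zs : D.z.im ≤ D.s * rlo
  Lb : 8 / D.et 0 ^ 3 ≤ L
  Lz : 1 / D.z.im ≤ L

end Pool.Agent.APS
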