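import Pool.Agent.APS.CfgB

/-! # APS ERRB: bounds of the error matrices and of the third derivatives (from CFGB).

`errS = (G g G) ∘ conj G + conj((G g G) ∘ conj G)`, `|g_w| ≤ a`: `gcg_had'`, `opLe_star`, `opLe_add`
give `2 a C1/et²`.  `errR = 2 (G g G) ∘ G`: `gcg_had`.
Third derivatives, `c_w = λ e_w G_ww²`, `|c_w| ≤ λ C1²`, `c'_w = λ e_w Re G_ww`, `|c'_w| ≤ λ C1`:
`∑_w λ e_w S.f3 w = -12 Re((G diag(c) G) ∘ conj G) - 12 S diag(c') S`,
`∑_w λ e_w R.f3 w = -12 (G diag(c) G) ∘ G - 12 R diag(λ e_w G_ww) R`;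
`12 λ C1³/et² + 12 λ C1 (C1/et)² = 24 λ C1³/et²` (`Re A = (A + conj A)/2`).
-/

open Matrix Finset

noncomputable section

namespace Pool.Agent.APS

open Pool.Agent.Kin

variable {ι : Type} [Fintype ι] [DecidableEq ι] {D : Fl ι} {C1 a tau r : ℝ} {h : ι → ℝ}

private theorem gcg_app (D : Fl ι) (c : ι → ℂ) (r : ℝ) (h : ι → ℝ) (x y : ι) :
    D.gcg c r h x y = ∑ w, c w * (D.G r h x w * D.G r h w y) := by
  unfold Fl.gcg
  rw [mul_apply]
  refine sum_congr rfl fun w _ => ?_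
  rw [mul_diagonal]
  ring

private theorem mdm_app (A : Matrix ι ι ℂ) (c : ι → ℂ) (x y : ι) :
    (A * diagonal c * A) x y = ∑ w, c w * (A x w * A w y) := by
  rw [mul_apply]
  refine sum_congr rfl fun w _ => ?_
  rw [mul_diagonal]
  ring

private theorem re_two (z : ℂ) : ((2 * z.re : ℝ) : ℂ) = z + star z := by
  rw [Complex.star_def, Complex.add_conj]

theorem errS_op (hc : D.Cfg C1 a tau r h) : OpLe (D.errS r h) (2 * a * C1 / D.et r ^ 2) := by
  have h1 := hc.gcg_had' hc.a0.le (c := D.gv r h) hc.g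
  have hC := hc.one_le
  have het := hc.et0
  have hq : 0 ≤ a * C1 / D.et r ^ 2 := by
    have := hc.a0
    positivity
  have h2 := opLe_add hq hq h1 (opLe_star h1)
  set M : Matrix ι ι ℂ := fun x y => D.gcg (D.gv r h) r h x y * star (D.G r h x y) with hM
  have e : D.errS r h = M + M.map star := by
    ext x y
    rw [Matrix.add_apply, Matrix.map_apply]
    exact re_two _
  rw [e]
  have e2 : 2 * a * C1 / D.et r ^ 2 = a * C1 / D.et r ^ 2 + a * C1 / D.et r ^ 2 := by ring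
  rw [e2]
  exact h2

theorem errR_op (hc : D.Cfg C1 a tau r h) : OpLe (D.errR r h) (2 * a * C1 / D.et r ^ 2) := by
  have h1 := opLe_smul 2 (hc.gcg_had hc.a0.le (c := D.gv r h) hc.g)
  have e2 : 2 * a * C1 / D.et r ^ 2 = ‖(2:ℂ)‖ * (a * C1 / D.et r ^ 2) := by
    rw [Complex.norm_ofNat]
    ring
  rw [e2]
  exact h1

theorem third_S (hc : D.Cfg C1 a tau r h) (e : ι → ℝ) (he : ∀ w, |e w| ≤ 1) :
    OpLe (∑ w, ((D.lam * e w : ℝ) : ℂ) • D.SO.f3 w r h)
      (24 * D.lam * C1 ^ 3 / D.et r ^ 2) := by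
  have hC := hc.one_le
  have hC0 : 0 ≤ C1 := by linarith
  have het := hc.et0
  have hl := hc.lam0
  have hle : ∀ w, ‖((D.lam * e w : ℝ) : ℂ)‖ ≤ D.lam := fun w => by
    rw [Complex.norm_real, Real.norm_eq_abs, abs_mul, abs_of_pos hl]
    have := he w
    nlinarith
  set c : ι → ℂ := fun w => ((D.lam * e w : ℝ) : ℂ) * D.G r h w w ^ 2 with hcd
  have hcb : ∀ w, ‖c w‖ ≤ D.lam * C1 ^ 2 := fun w => by
    simp only [hcd]
    rw [norm_mul, norm_pow]
    have := hle w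
    have := hc.diag w
    gcongr
  set c' : ι → ℂ := fun w => (((D.lam * e w) * (D.G r h w w).re : ℝ) : ℂ) with hcd'
  have hcb' : ∀ w, ‖c' w‖ ≤ D.lam * C1 := fun w => by
    simp only [hcd']
    rw [Complex.norm_real, Real.norm_eq_abs, abs_mul]
    have h1 := hle w
    rw [Complex.norm_real, Real.norm_eq_abs] at h1
    have h2 := (Complex.abs_re_le_norm (D.G r h w w)).trans (hc.diag w)
    gcongr
  have h1 := hc.gcg_had' (by positivity) hcb
  have hq : 0 ≤ D.lam * C1 ^ 2 * C1 / D.et r ^ 2 := by positivity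
  have h2 := opLe_smul (-6) (opLe_add hq hq h1 (opLe_star h1))
  have h3 := opLe_smul 12 (opLe_mul (opLe_mul hc.S_op (opLe_diagonal c' _ hcb')) hc.S_op)
  have h4 := opLe_sub (by positivity) (by positivity) h2 h3
  have e2 : 24 * D.lam * C1 ^ 3 / D.et r ^ 2 =
      ‖(-6:ℂ)‖ * (D.lam * C1 ^ 2 * C1 / D.et r ^ 2 + D.lam * C1 ^ 2 * C1 / D.et r ^ 2) +
      ‖(12:ℂ)‖ * (C1 / D.et r * (D.lam * C1) * (C1 / D.et r)) := by
    rw [norm_neg, Complex.norm_ofNat, Complex.norm_ofNat]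
    field_simp
    ring
  rw [e2]
  convert h4 using 1
  ext x y
  rw [Matrix.sum_apply, Matrix.sub_apply, Matrix.smul_apply, Matrix.smul_apply,
    Matrix.add_apply, Matrix.map_apply, mdm_app, ← re_two, gcg_app]
  simp only [Matrix.smul_apply, smul_eq_mul]
  have e3 : ((2 * ((∑ w, c w * (D.G r h x w * D.G r h w y)) * star (D.G r h x y)).re : ℝ) : ℂ) =
      ∑ w, ((2 * ((D.lam * e w) * (D.G r h w w ^ 2 * (D.G r h x w * D.G r h w y) *
        star (D.G r h x y)).re) : ℝ) : ℂ) := by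
    rw [sum_mul, Complex.re_sum, mul_sum, Complex.ofReal_sum]
    refine sum_congr rfl fun w _ => ?_
    congr 2
    have : c w * (D.G r h x w * D.G r h w y) * star (D.G r h x y) =
        ((D.lam * e w : ℝ) : ℂ) * (D.G r h w w ^ 2 * (D.G r h x w * D.G r h w y) *
        star (D.G r h x y)) := by
      simp only [hcd]
      ring
    rw [this, Complex.re_ofReal_mul]
  rw [e3, mul_sum, mul_sum, ← sum_sub_distrib]
  refine sum_congr rfl fun w _ => ?_
  simp only [Fl.SO, hcd']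
  push_cast
  ring

theorem third_R (hc : D.Cfg C1 a tau r h) (e : ι → ℝ) (he : ∀ w, |e w| ≤ 1) :
    OpLe (∑ w, ((D.lam * e w : ℝ) : ℂ) • D.RO.f3 w r h)
      (24 * D.lam * C1 ^ 3 / D.et r ^ 2) := by
  have hC := hc.one_le
  have hC0 : 0 ≤ C1 := by linarith
  have het := hc.et0
  have hl := hc.lam0
  have hle : ∀ w, ‖((D.lam * e w : ℝ) : ℂ)‖ ≤ D.lam := fun w => by
    rw [Complex.norm_real, Real.norm_eq_abs, abs_mul, abs_of_pos hl]
    have := he w
    nlinarith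
  set c : ι → ℂ := fun w => ((D.lam * e w : ℝ) : ℂ) * D.G r h w w ^ 2 with hcd
  have hcb : ∀ w, ‖c w‖ ≤ D.lam * C1 ^ 2 := fun w => by
    simp only [hcd]
    rw [norm_mul, norm_pow]
    have := hle w
    have := hc.diag w
    gcongr
  set c' : ι → ℂ := fun w => ((D.lam * e w : ℝ) : ℂ) * D.G r h w w with hcd'
  have hcb' : ∀ w, ‖c' w‖ ≤ D.lam * C1 := fun w => by
    simp only [hcd']
    rw [norm_mul]
    have := hle w
    have := hc.diag w
    gcongr
  have h1 := hc.gcg_had (by positivity) hcb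
  have hq : 0 ≤ D.lam * C1 ^ 2 * C1 / D.et r ^ 2 := by positivity
  have h2 := opLe_smul (-12) h1
  have h3 := opLe_smul 12 (opLe_mul (opLe_mul hc.R_op (opLe_diagonal c' _ hcb')) hc.R_op)
  have h4 := opLe_sub (by positivity) (by positivity) h2 h3
  have e2 : 24 * D.lam * C1 ^ 3 / D.et r ^ 2 =
      ‖(-12:ℂ)‖ * (D.lam * C1 ^ 2 * C1 / D.et r ^ 2) +
      ‖(12:ℂ)‖ * (C1 / D.et r * (D.lam * C1) * (C1 / D.et r)) := by
    rw [norm_neg, Complex.norm_ofNat]
    field_simp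
    ring
  rw [e2]
  convert h4 using 1
  ext x y
  rw [Matrix.sum_apply, Matrix.sub_apply, Matrix.smul_apply, Matrix.smul_apply,
    mdm_app, gcg_app]
  simp only [Matrix.smul_apply, smul_eq_mul]
  rw [sum_mul, mul_sum, mul_sum, ← sum_sub_distrib]
  refine sum_congr rfl fun w _ => ?_
  simp only [Fl.RO, hcd, hcd']
  ring

end Pool.Agent.APS
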