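import Pool.Agent.APS.Defs3
import Pool.Agent.APS.CompAdd

/-! # APS EST2LIB: `Est` implies `Est2`, sums, monotonicity in the constants.

`est_to2`: `(λ Dr)² ≤ Dr²` as `0 ≤ λ ≤ 1`.  `est2_add`: as `est_add` in CompAdd.lean.
`est2_mono`: `A ≤ A'`, `B ≤ B'`, all fields follow as `Ga ≥ 0`, `s, r, et ≥ 0`.
-/

open Finset

noncomputable section

namespace Pool.Agent.APS

variable {ι : Type} [Fintype ι]

theorem est_to2 {c : Comp ι} {lam s et r A B : ℝ} {h q : ι → ℝ} (hl : 0 ≤ lam) (hl1 : lam ≤ 1)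
    (H : c.Est lam s et r A B h q) : c.Est2 lam s et r A B h q := by
  refine ⟨H.dr, H.q0, H.qu, H.g1, fun w => ?_, H.qs, H.dd⟩
  rw [mul_pow]
  have h1 : lam ^ 2 ≤ 1 := pow_le_one₀ hl hl1
  calc lam ^ 2 * c.Dr w r h ^ 2 ≤ 1 * c.Dr w r h ^ 2 :=
        mul_le_mul_of_nonneg_right h1 (sq_nonneg _)
    _ = c.Dr w r h ^ 2 := one_mul _
    _ ≤ c.Ga r h * q w := H.d1 w

theorem est2_mono {c : Comp ι} {lam s et r A B A' B' : ℝ} {h q : ι → ℝ} (hs : 0 ≤ s)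
    (het : 0 < et) (hr : 0 ≤ r) (hc : 0 ≤ c.Ga r h) (hA : A ≤ A') (hB : B ≤ B')
    (H : c.Est2 lam s et r A B h q) : c.Est2 lam s et r A' B' h q := by
  have h1 : A * c.Ga r h + B ≤ A' * c.Ga r h + B' :=
    add_le_add (mul_le_mul_of_nonneg_right hA hc) hB
  have he : 0 ≤ 1 / et := by positivity
  have m1 : 0 ≤ 2 * r * s / et := by positivity
  exact ⟨H.dr.trans (mul_le_mul_of_nonneg_left h1 m1), H.q0, H.qu, H.g1, H.d1,
    H.qs.trans (mul_le_mul_of_nonneg_left h1 he),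
    fun e he1 => (H.dd e he1).trans (mul_le_mul_of_nonneg_left h1 he)⟩


private lemma cadd2_sq {x y P Q q q' : ℝ} (hP : 0 ≤ P) (hQ : 0 ≤ Q) (hq : 0 ≤ q) (hq' : 0 ≤ q')
    (hx : x ^ 2 ≤ P * q) (hy : y ^ 2 ≤ Q * q') :
    (x + y) ^ 2 ≤ (P + Q) * (2 * (q + q')) := by
  have h1 : (x + y) ^ 2 ≤ 2 * x ^ 2 + 2 * y ^ 2 := by nlinarith [sq_nonneg (x - y)]
  have h2 := mul_nonneg hP hq'
  have h3 := mul_nonneg hQ hq
  have h4 := mul_nonneg hP hq
  have h5 := mul_nonneg hQ hq'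
  nlinarith

theorem est2_add {a b : Comp ι} {lam s et r A A' Am B B' : ℝ} {h : ι → ℝ} {q q' : ι → ℝ}
    (hs : 0 ≤ s) (het : 0 < et) (hr : 0 ≤ r) (ha0 : 0 ≤ a.Ga r h) (hb0 : 0 ≤ b.Ga r h)
    (hA : 0 ≤ A) (hA' : 0 ≤ A') (hB : 0 ≤ B) (hB' : 0 ≤ B') (h1 : A ≤ Am) (h2 : A' ≤ Am)
    (ha : a.Est2 lam s et r A B h q) (hb : b.Est2 lam s et r A' B' h q') :
    (a.add b).Est2 lam s et r (2 * Am) (2 * (B + B')) h (fun w => 2 * (q w + q' w)) := by
  have hAm : 0 ≤ Am := hA.trans h1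
  have e1 : A * a.Ga r h ≤ Am * a.Ga r h := mul_le_mul_of_nonneg_right h1 ha0
  have e2 : A' * b.Ga r h ≤ Am * b.Ga r h := mul_le_mul_of_nonneg_right h2 hb0
  have e3 : 0 ≤ Am * a.Ga r h := mul_nonneg hAm ha0
  have e4 : 0 ≤ Am * b.Ga r h := mul_nonneg hAm hb0
  have e5 : A * a.Ga r h + B + (A' * b.Ga r h + B') ≤
      Am * (a.Ga r h + b.Ga r h) + (B + B') := by
    rw [mul_add]
    linarith
  have e6 : A * a.Ga r h + B + (A' * b.Ga r h + B') ≤
      2 * Am * (a.Ga r h + b.Ga r h) + 2 * (B + B') := by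
    have : 0 ≤ Am * (a.Ga r h + b.Ga r h) + (B + B') := by rw [mul_add]; linarith
    nlinarith
  have he : 0 ≤ 1 / et := by positivity
  refine ⟨?_, ?_, ?_, ?_, ?_, ?_, ?_⟩
  · have m1 : 0 ≤ 2 * r * s / et := by positivity
    have m2 := mul_le_mul_of_nonneg_left e6 m1
    have m3 := ha.dr
    have m4 := hb.dr
    simp only [Comp.add, Finset.sum_add_distrib, mul_add] at m2 m3 m4 ⊢
    linarith
  · intro w
    have := ha.q0 w
    have := hb.q0 w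
    show 0 ≤ 2 * (q w + q' w)
    linarith
  · intro w
    have m1 := ha.q0 w
    have m2 := hb.q0 w
    have m3 := ha.qu w
    have m4 := hb.qu w
    have m5 := abs_add_le (a.Qu w r h) (b.Qu w r h)
    show |a.Qu w r h + b.Qu w r h| ≤ 2 * (q w + q' w)
    linarith
  · intro w
    exact cadd2_sq ha0 hb0 (ha.q0 w) (hb.q0 w) (ha.g1 w) (hb.g1 w)
  · intro w
    have m1 := cadd2_sq ha0 hb0 (ha.q0 w) (hb.q0 w) (ha.d1 w) (hb.d1 w)
    show (lam * (a.Dr w r h + b.Dr w r h)) ^ 2 ≤ (a.Ga r h + b.Ga r h) * (2 * (q w + q' w))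
    rw [mul_add]
    exact m1
  · show ∑ w, 2 * (q w + q' w) ≤ 1 / et * (2 * Am * (a.Ga r h + b.Ga r h) + 2 * (B + B'))
    have m3 := ha.qs
    have m4 := hb.qs
    have m5 := mul_le_mul_of_nonneg_left e5 he
    rw [← Finset.mul_sum, Finset.sum_add_distrib]
    have m6 : 1 / et * (2 * Am * (a.Ga r h + b.Ga r h) + 2 * (B + B')) =
        2 * (1 / et * (Am * (a.Ga r h + b.Ga r h) + (B + B'))) := by ring
    rw [m6]
    have m7 : 1 / et * (A * a.Ga r h + B + (A' * b.Ga r h + B')) =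
        1 / et * (A * a.Ga r h + B) + 1 / et * (A' * b.Ga r h + B') := by ring
    rw [m7] at m5
    linarith
  · intro e he1
    have m3 := ha.dd e he1
    have m4 := hb.dd e he1
    have m5 := mul_le_mul_of_nonneg_left e6 he
    have m7 : 1 / et * (A * a.Ga r h + B + (A' * b.Ga r h + B')) =
        1 / et * (A * a.Ga r h + B) + 1 / et * (A' * b.Ga r h + B') := by ring
    rw [m7] at m5
    show lam * ∑ w, e w * (a.D1 w r h + b.D1 w r h) ≤
      1 / et * (2 * Am * (a.Ga r h + b.Ga r h) + 2 * (B + B'))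
    simp only [mul_add, Finset.sum_add_distrib] at m3 m4 m5 ⊢
    linarith

end Pool.Agent.APS
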