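import Pool.Agent.APS.TrEst2
import Pool.Agent.APS.Est2Lib
import Pool.Agent.APS.DTrace
import Pool.Agent.APS.DForm
import Pool.Agent.APS.DDrift
import Pool.Agent.APS.DNoise1
import Pool.Agent.APS.DNoise2

/-! # APS ESTF: the estimates of the component `f` (see /team-store/aps2_proof.md, section 3).

Assembly: `trEst2` with `e = 1`, `A0 = 1`, `B1 = N (24 p a/dl)^(2p)`.
* drift: `drift_F`, `tr_diss` (dissipative part), `opLe_W` with `errQ_form` and `tr1_le`.
* noise: `noise1`, `noise2`.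
* third derivative: `opLe_W` with `third_form`.
-/

open Matrix Finset

noncomputable section

namespace Pool.Agent.APS

open Pool.Agent.Kin

variable {ι : Type} [Fintype ι] [DecidableEq ι] {D : Fl ι} {C1 a tau r : ℝ} {h : ι → ℝ}

private theorem ef_herm {W A : Matrix ι ι ℂ} (hW : Wᴴ = W) (hA : Aᴴ = A) (c : ℝ) :
    ((c : ℂ) • (W * A * W)).IsHermitian := by
  unfold Matrix.IsHermitian
  rw [conjTranspose_smul, conjTranspose_mul, conjTranspose_mul, hW, hA, ← Matrix.mul_assoc]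
  congr 1
  exact Complex.conj_ofReal c

private theorem ef_SO_real (D : Fl ι) (r : ℝ) (h : ι → ℝ) (x y : ι) :
    star (D.SO.f r h x y) = D.SO.f r h x y := Complex.conj_ofReal _

theorem estF (hc : D.Cfg C1 a tau r h) (p : ℕ) (hp : 2 ≤ p) (CH kap : ℝ)
    (W W' QU QU' : ℝ → Matrix ι ι ℂ) (B P0 : Matrix ι ι ℂ)
    (hR : Ref D r CH kap (W r) (W' r) (QU r) (QU' r) B P0) (dl : ℝ) (hdl : 0 < dl) (hdl1 : dl ≤ 1)
    (K : ℝ) (hK : 0 ≤ K) (hG : ∀ x y, ‖D.G r h x y‖ ^ 2 ≤ K)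
    (hf : OpLe (W r * (lap (D.SO.f r h) - QU r) * W r) dl) :
    ∃ q : ι → ℝ, (trComp (2 * p) (D.fO W W' QU QU' (1 / dl))).Est2 D.lam D.s (D.et r) r 3
      (BF (Fintype.card ι) C1 K D.lam a tau kap CH dl p) h q := by
  have hC := hc.one_le
  have hC0 : 0 < C1 := by linarith
  have het := hc.et0
  have hl := hc.lam0
  have hl1 := hc.lam1
  have ha := hc.a0
  have hCH := hR.CH0
  have hkap := hR.kap0
  have hs := hc.s0
  have hr0 := hc.r0
  have hst : 0 ≤ √tau := Real.sqrt_nonneg _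
  have hst1 : √tau ≤ 1 := Real.sqrt_le_one.mpr hc.tau1
  have hp0 : 0 < p := by omega
  have hpR : (0 : ℝ) < p := by exact_mod_cast hp0
  set N : ℝ := (Fintype.card ι : ℝ) with hN
  have hN0 : 0 ≤ N := Nat.cast_nonneg _
  set c : ℝ := 1 / dl with hcdef
  have hc0 : 0 < c := by positivity
  have hcdl : c * dl = 1 := by
    rw [hcdef]
    field_simp
  set O := D.fO W W' QU QU' c with hO
  set F := D.ft r h (W r) (QU r) with hF
  have hFo : OpLe F dl := hf
  have hOf : O.f r h = (c : ℂ) • F := rfl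
  have hQUh : (QU r)ᴴ = QU r := by
    rw [← hR.BB, conjTranspose_mul, hR.hB]
  have hSh : (lap (D.SO.f r h))ᴴ = lap (D.SO.f r h) :=
    lap_herm _ (SO_symm hc) (ef_SO_real D r h)
  have hOh : (O.f r h).IsHermitian := by
    have : (lap (D.SO.f r h) - QU r)ᴴ = lap (D.SO.f r h) - QU r := by
      rw [conjTranspose_sub, hSh, hQUh]
    exact ef_herm hR.hW this c
  have hO1 : ∀ w, (O.f1 w r h).IsHermitian := fun w =>
    ef_herm hR.hW (lap_herm _ (fun x y => (S1_symm hc w x y).1)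
      (fun x y => (S1_real w r h x y).1)) c
  have hO2 : ∀ w, (O.f2 w r h).IsHermitian := fun w =>
    ef_herm hR.hW (lap_herm _ (fun x y => (S1_symm hc w x y).2.1)
      (fun x y => (S1_real w r h x y).2.1)) c
  -- the norm of `f`
  have hf1 : OpLe (O.f r h) 1 := by
    have := opLe_smul (c : ℂ) hFo
    rw [Complex.norm_real, Real.norm_of_nonneg hc0.le, hcdl] at this
    exact this
  -- drift
  have hE : OpLe ((c : ℂ) • (W r * D.errQ r h * W r)) (c * (12 * a / D.et r)) := by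
    have h1 := opLe_W hc hR hdl.le hdl1 hf (A := D.errQ r h) (b := 3 * a / D.et r)
      (by positivity) (errQ_form hc)
    have h2 := opLe_smul (c : ℂ) h1
    rw [Complex.norm_real, Real.norm_of_nonneg hc0.le] at h2
    have e1 : c * (12 * a / D.et r) = c * (4 * (3 * a / D.et r)) := by ring
    rw [e1]
    exact h2
  have h1 : tr1 (2 * p) (O.f r h) (O.fr r h + ((D.s * r : ℝ) : ℂ) • ∑ w, O.f2 w r h) ≤
      2 * r * D.s / D.et r * (1 * tr0 (2 * p) (O.f r h) + N * (24 * p * a / dl) ^ (2 * p)) := by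
    have hd := drift_F hc hR c
    rw [← hO, ← hF] at hd
    rw [hd, tr1_smul]
    have e1 : (c : ℂ) • (-((1 / 2 : ℂ) • (QU r * F + F * QU r)) - F * QU r * F +
        W r * D.errQ r h * W r) =
        (-((1 / 2 : ℂ) • (QU r * O.f r h + O.f r h * QU r)) -
          (dl : ℂ) • (O.f r h * QU r * O.f r h)) + (c : ℂ) • (W r * D.errQ r h * W r) := by
      have e2 : (dl : ℂ) * (c : ℂ) = 1 := by
        rw [← Complex.ofReal_mul, mul_comm, hcdl, Complex.ofReal_one]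
      rw [hOf, smul_add, smul_sub, smul_neg]
      congr 1
      congr 1
      · rw [smul_mul_assoc, mul_smul_comm, ← smul_add, smul_comm]
      · rw [smul_mul_assoc, smul_mul_assoc, mul_smul_comm, smul_smul, smul_smul, e2, one_mul]
    rw [e1, tr1_add]
    have h3 := tr_diss p (by omega) (f := O.f r h) (B := B) (QU := QU r) hOh hR.hB hR.BB hf1
      hdl.le hdl1
    have h4 := tr1_le p (by omega) hOh (x := c * (12 * a / D.et r)) (e := 1) (by positivity)
      one_pos hE (c := D.et r) het.le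
    have e3 : D.et r * (2 * (p : ℝ) * (c * (12 * a / D.et r))) = 24 * p * a / dl := by
      rw [hcdef]
      field_simp
      ring
    rw [e3, div_one, one_pow, one_mul, one_mul] at h4
    have h5 : tr1 (2 * p) (O.f r h) ((c : ℂ) • (W r * D.errQ r h * W r)) ≤
        1 / D.et r * (tr0 (2 * p) (O.f r h) + N * (24 * p * a / dl) ^ (2 * p)) := by
      rw [one_div, ← div_eq_inv_mul, le_div_iff₀ het, mul_comm]
      exact (mul_le_mul_of_nonneg_left (le_abs_self _) het.le).trans h4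
    have h6 : 0 ≤ 2 * r * D.s := by positivity
    have e4 : 2 * r * D.s / D.et r * (1 * tr0 (2 * p) (O.f r h) + N * (24 * p * a / dl) ^ (2 * p)) =
        (2 * r * D.s) * (1 / D.et r * (tr0 (2 * p) (O.f r h) +
          N * (24 * p * a / dl) ^ (2 * p))) := by
      ring
    rw [e4]
    exact mul_le_mul_of_nonneg_left (by linarith) h6
  -- noise
  set nu2 : ℝ := c ^ 2 * (64 * C1 * (CH + 1) * (√tau + kap) / D.et r +
    D.lam ^ 2 * (512 * C1 ^ 3 * (CH + 1) * (1 + kap) * (1 + K) / D.et r)) with hnu2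
  have hnu0 : 0 ≤ nu2 := by positivity
  have hsq : √nu2 ^ 2 = nu2 := Real.sq_sqrt hnu0
  have hmul : ∀ (A : Matrix ι ι ℂ) (u : ι → ℂ), n2 (((c : ℂ) • A) *ᵥ u) = c ^ 2 * n2 (A *ᵥ u) := by
    intro A u
    unfold n2
    rw [Finset.mul_sum]
    refine Finset.sum_congr rfl fun x _ => ?_
    rw [Matrix.smul_mulVec, Pi.smul_apply, smul_eq_mul, norm_mul, Complex.norm_real,
      Real.norm_of_nonneg hc0.le, mul_pow]
  have h2 : ∀ u : ι → ℂ, ∑ w, ∑ x, (‖(O.f1 w r h *ᵥ u) x‖ ^ 2 +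
      D.lam ^ 2 * ‖(O.f2 w r h *ᵥ u) x‖ ^ 2) ≤ √nu2 ^ 2 * ∑ x, ‖u x‖ ^ 2 := by
    intro u
    have n1 := noise1 hc hR hdl.le hdl1 hf u
    have n2' := noise2 hc hR hdl.le hdl1 hf (K := K) hK hG u
    have e1 : ∑ w, ∑ x, (‖(O.f1 w r h *ᵥ u) x‖ ^ 2 + D.lam ^ 2 * ‖(O.f2 w r h *ᵥ u) x‖ ^ 2) =
        c ^ 2 * ((∑ w, n2 ((W r * lap (D.SO.f1 w r h) * W r) *ᵥ u)) +
          D.lam ^ 2 * ∑ w, n2 ((W r * lap (D.SO.f2 w r h) * W r) *ᵥ u)) := by
      rw [mul_add, Finset.mul_sum, Finset.mul_sum, Finset.mul_sum, ← Finset.sum_add_distrib]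
      refine Finset.sum_congr rfl fun w _ => ?_
      have e2 := hmul (W r * lap (D.SO.f1 w r h) * W r) u
      have e3 := hmul (W r * lap (D.SO.f2 w r h) * W r) u
      rw [Finset.sum_add_distrib, ← Finset.mul_sum]
      have e4 : ∑ x, ‖(O.f1 w r h *ᵥ u) x‖ ^ 2 = c ^ 2 * n2 ((W r * lap (D.SO.f1 w r h) * W r) *ᵥ u) :=
        e2
      have e5 : ∑ x, ‖(O.f2 w r h *ᵥ u) x‖ ^ 2 = c ^ 2 * n2 ((W r * lap (D.SO.f2 w r h) * W r) *ᵥ u) :=
        e3
      rw [e4, e5]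
      ring
    rw [e1, hsq, hnu2]
    have hn : (∑ x, ‖u x‖ ^ 2) = n2 u := rfl
    rw [hn, mul_assoc]
    refine mul_le_mul_of_nonneg_left ?_ (by positivity)
    rw [add_mul]
    refine add_le_add n1 ?_
    rw [mul_assoc]
    exact mul_le_mul_of_nonneg_left n2' (by positivity)
  -- third derivative
  have h3 : ∀ e : ι → ℝ, (∀ w, |e w| ≤ 1) →
      OpLe (∑ w, ((D.lam * e w : ℝ) : ℂ) • O.f3 w r h) (c * (144 * D.lam * C1 ^ 3 / D.et r)) := by
    intro e he
    have h4 := opLe_W hc hR hdl.le hdl1 hf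
      (A := lap (∑ w, ((D.lam * e w : ℝ) : ℂ) • D.SO.f3 w r h))
      (b := 36 * D.lam * C1 ^ 3 / D.et r) (by positivity) (third_form hc e he)
    have h5 := opLe_smul (c : ℂ) h4
    rw [Complex.norm_real, Real.norm_of_nonneg hc0.le] at h5
    have e1 : c * (144 * D.lam * C1 ^ 3 / D.et r) = c * (4 * (36 * D.lam * C1 ^ 3 / D.et r)) := by
      ring
    rw [e1]
    convert h5 using 1
    rw [lap_sum, Finset.mul_sum, Finset.sum_mul, Finset.smul_sum]
    refine Finset.sum_congr rfl fun w _ => ?_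
    rw [lap_smul, mul_smul_comm, smul_mul_assoc, smul_comm]
    rfl
  obtain ⟨q, hq⟩ := trEst2 p (by omega) O hr0 hs het hl hl1 hOh hO1 hO2 (A0 := 1)
    (B1 := N * (24 * p * a / dl) ^ (2 * p)) (e := 1) (nu := √nu2)
    (x3 := c * (144 * D.lam * C1 ^ 3 / D.et r)) zero_le_one (by positivity) one_pos le_rfl
    (Real.sqrt_nonneg _) (by positivity) h1 h2 h3
  refine ⟨q, est2_mono hs.le het hr0 (tr0_nonneg p hOh) (by norm_num) ?_ hq⟩
  rw [div_one, one_pow, mul_one, hsq, ← hN]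
  unfold BF
  rw [← mul_add]
  refine mul_le_mul_of_nonneg_left ?_ hN0
  have b1 : 2 * (p : ℝ) * (c * (144 * D.lam * C1 ^ 3 / D.et r)) * D.et r =
      288 * p * C1 ^ 3 * D.lam / dl := by
    rw [hcdef]
    field_simp
    ring
  rw [b1]
  have b2 : (24 * p * a / dl) ^ (2 * p) + (288 * p * C1 ^ 3 * D.lam / dl) ^ (2 * p) ≤
      (1000 * p * C1 ^ 3 * (a + D.lam) / dl) ^ (2 * p) := by
    have hC3 : 1 ≤ C1 ^ 3 := one_le_pow₀ hC
    have b3 : 24 * p * a / dl + 288 * p * C1 ^ 3 * D.lam / dl ≤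
        1000 * p * C1 ^ 3 * (a + D.lam) / dl := by
      rw [← add_div]
      refine div_le_div_of_nonneg_right ?_ hdl.le
      have t1 : (p : ℝ) * a ≤ p * a * C1 ^ 3 := le_mul_of_one_le_right (by positivity) hC3
      have t2 : 0 ≤ (p : ℝ) * C1 ^ 3 * D.lam := by positivity
      have t3 : 0 ≤ (p : ℝ) * C1 ^ 3 * a := by positivity
      nlinarith
    exact (pow_add_pow_le (by positivity) (by positivity) (by omega)).trans
      (pow_le_pow_left₀ (by positivity) b3 _)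
  have b4 : 8 * (p : ℝ) ^ 2 * nu2 * D.et r ≤
      10000 * p ^ 2 * C1 ^ 4 * (1 + CH) * (kap + √tau + (1 + kap) * (1 + K) * D.lam ^ 2) /
        dl ^ 2 := by
    have hC4 : C1 ≤ C1 ^ 4 := by
      calc C1 = C1 ^ 1 := (pow_one _).symm
        _ ≤ C1 ^ 4 := pow_le_pow_right₀ hC (by norm_num)
    have hC34 : C1 ^ 3 ≤ C1 ^ 4 := pow_le_pow_right₀ hC (by norm_num)
    have e1 : 8 * (p : ℝ) ^ 2 * nu2 * D.et r = (8 * p ^ 2 * (64 * C1 * (CH + 1) * (√tau + kap) +
        D.lam ^ 2 * (512 * C1 ^ 3 * (CH + 1) * (1 + kap) * (1 + K)))) / dl ^ 2 := by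
      rw [hnu2, hcdef]
      field_simp
    rw [e1]
    refine div_le_div_of_nonneg_right ?_ (by positivity)
    have f1 : 64 * C1 * (CH + 1) * (√tau + kap) ≤ 1250 * (C1 ^ 4 * (1 + CH) * (kap + √tau)) := by
      have h0 : 0 ≤ (CH + 1) * (√tau + kap) := by positivity
      have h1 : C1 * ((CH + 1) * (√tau + kap)) ≤ C1 ^ 4 * ((CH + 1) * (√tau + kap)) :=
        mul_le_mul_of_nonneg_right hC4 h0
      have h2 : 0 ≤ C1 ^ 4 * ((CH + 1) * (√tau + kap)) := by positivity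
      nlinarith
    have f2 : D.lam ^ 2 * (512 * C1 ^ 3 * (CH + 1) * (1 + kap) * (1 + K)) ≤
        1250 * (C1 ^ 4 * (1 + CH) * ((1 + kap) * (1 + K) * D.lam ^ 2)) := by
      have h0 : 0 ≤ (1 + CH) * ((1 + kap) * (1 + K) * D.lam ^ 2) := by positivity
      have h1 : C1 ^ 3 * ((1 + CH) * ((1 + kap) * (1 + K) * D.lam ^ 2)) ≤
          C1 ^ 4 * ((1 + CH) * ((1 + kap) * (1 + K) * D.lam ^ 2)) :=
        mul_le_mul_of_nonneg_right hC34 h0
      have h2 : 0 ≤ C1 ^ 4 * ((1 + CH) * ((1 + kap) * (1 + K) * D.lam ^ 2)) := by positivity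
      nlinarith
    calc 8 * (p : ℝ) ^ 2 * (64 * C1 * (CH + 1) * (√tau + kap) +
        D.lam ^ 2 * (512 * C1 ^ 3 * (CH + 1) * (1 + kap) * (1 + K)))
        ≤ 8 * p ^ 2 * (1250 * (C1 ^ 4 * (1 + CH) * (kap + √tau)) +
          1250 * (C1 ^ 4 * (1 + CH) * ((1 + kap) * (1 + K) * D.lam ^ 2))) := by gcongr
      _ = _ := by ring
  have b5 : (8 * (p : ℝ) ^ 2 * nu2 * D.et r) ^ p ≤
      (10000 * p ^ 2 * C1 ^ 4 * (1 + CH) * (kap + √tau + (1 + kap) * (1 + K) * D.lam ^ 2) /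
        dl ^ 2) ^ p :=
    pow_le_pow_left₀ (by positivity) b4 p
  linarith

end Pool.Agent.APS
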