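import Pool.Agent.APS.PowEst
import Pool.Agent.APS.CfgB
import Pool.Agent.APS.DriftId
import Pool.Agent.Kin.Intp

/-! # APS ESTG: the estimates of the component `g`: `∑_x |g_x/a|^(2p)`.

`f_x = g_x/a` (`O = wtV (1/a) 0 gO`).  Apply `powEst` with `A0 = 4 p C1 y`, `B1 = 0`:
* `h1`: the direction is `(1/a) 2 r s (R g)_x = 2 r s (R f)_x` (`drift_g`), and
  `pw1 p f (2 r s R f) ≤ 2 r s 2p ∑ |f_x|^(2p-1) |(R f)_x| ≤ 2 r s 2p (∑|f|^2p)^(1-1/2p) (∑|R f|^2p)^(1/2p)`;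
  `interp` (Kin/Intp.lean) with `A2 = (y^p C1/et)²`, `Ai = C1/et` gives
  `∑ |R f|^2p ≤ 4^p (C1/et)^(2p) y^(2p) ∑ |f|^2p = (2 C1 y/et)^(2p) ∑ |f|^2p`.
  (Instead of Hoelder: with `X = 2 C1 y/et`: `|f|^(2p-1) |Rf| ≤ X (2p-1)/(2p) |f|^2p + (1/(2p)) X^(1-2p) |Rf|^2p`
  by weighted AM-GM, if `y > 0`; for `y = 0` use `R f = 0`.)
* `h2`: `∑_w (|f1|² + |f2|²) ≤ (1 + 4 C1²) T4_x/a² ≤ 5 C1² tau/(a² et)`; `young_sum` with
  `y = 5 C1² tau/a²`, parameter `e/(4p²)`: `A2 = e/(4p²)`,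
  `4p² B2 = N (1/e)^(p-1) (20 p² C1² tau/a²)^p`.
* `h3`: `|∑_w λ e_w f3| ≤ 6 λ C1² (C1/et)/a`, so `pw1 ≤ 2p ∑ |f|^(2p-1) 6 λ C1³/(a et)`, `young_sum` with
  `y = 12 p C1³ λ/a`, parameter `e`.
-/

open Matrix Finset

noncomputable section

namespace Pool.Agent.APS

open Pool.Agent.Kin

variable {ι : Type} [Fintype ι] [DecidableEq ι] {D : Fl ι} {C1 a tau r : ℝ} {h : ι → ℝ}

private theorem eg_mono {κ : Type} [Fintype κ] {c : Comp κ} {lam s et r A B B' : ℝ} {h q : κ → ℝ}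
    (hs : 0 ≤ s) (het : 0 < et) (hr : 0 ≤ r) (hB : B ≤ B')
    (hE : c.Est lam s et r A B h q) : c.Est lam s et r A B' h q := by
  have e1 : A * c.Ga r h + B ≤ A * c.Ga r h + B' := by linarith
  have e2 : 0 ≤ 2 * r * s / et := by positivity
  have e3 : 0 ≤ 1 / et := by positivity
  exact ⟨hE.dr.trans (mul_le_mul_of_nonneg_left e1 e2), hE.q0, hE.qu, hE.g1, hE.d1,
    hE.qs.trans (mul_le_mul_of_nonneg_left e1 e3),
    fun e he => (hE.dd e he).trans (mul_le_mul_of_nonneg_left e1 e3)⟩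

/-- `(n+1) u^n v ≤ n u^(n+1) + v^(n+1)` -/
private theorem eg_young (n : ℕ) {u v : ℝ} (hu : 0 ≤ u) (hv : 0 ≤ v) :
    (n + 1) * (u ^ n * v) ≤ n * u ^ (n + 1) + v ^ (n + 1) := by
  induction n with
  | zero => simp
  | succ n ih =>
    have h1 := mul_le_mul_of_nonneg_right ih hv
    have h2 : 0 ≤ ((n : ℝ) + 1) * (u ^ n * (u - v) ^ 2) := by positivity
    have e1 : u ^ (n + 1) = u ^ n * u := pow_succ u n
    have e2 : u ^ (n + 1 + 1) = u ^ n * u * u := by rw [pow_succ, pow_succ]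
    have e3 : v ^ (n + 1 + 1) = v ^ (n + 1) * v := pow_succ v (n + 1)
    push_cast
    rw [e1] at h1
    rw [e2, e3, e1]
    nlinarith

private theorem eg_pw1 (p : ℕ) (hp : 2 ≤ p) (v k : ι → ℂ) :
    pw1 p v k ≤ 2 * p * ∑ x, ‖v x‖ ^ (2 * p - 1) * ‖k x‖ := by
  unfold pw1
  rw [mul_sum]
  refine sum_le_sum fun x _ => ?_
  have h1 : (star (v x) * k x).re ≤ ‖v x‖ * ‖k x‖ := by
    refine (Complex.re_le_norm _).trans ?_
    rw [norm_mul, norm_star]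
  have h2 : ‖v x‖ ^ (2 * p - 1) = ‖v x‖ ^ (2 * p - 2) * ‖v x‖ := by
    rw [← pow_succ]
    congr 1
    omega
  rw [h2]
  calc 2 * p * ‖v x‖ ^ (2 * p - 2) * (star (v x) * k x).re
      ≤ 2 * p * ‖v x‖ ^ (2 * p - 2) * (‖v x‖ * ‖k x‖) := by gcongr
    _ = 2 * p * (‖v x‖ ^ (2 * p - 2) * ‖v x‖ * ‖k x‖) := by ring

/-- the norm of `R` on `ℓ^(2p)` -/
private theorem eg_drift (hc : D.Cfg C1 a tau r h) (p : ℕ) (hp : 2 ≤ p) (y : ℝ) (hy : 0 ≤ y)
    (hR : OpLe (D.RO.f r h) (y ^ p * C1 / D.et r)) (v : ι → ℂ) :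
    ∑ x, ‖v x‖ ^ (2 * p - 1) * ‖(D.RO.f r h *ᵥ v) x‖ ≤ 2 * C1 * y / D.et r * pw p v := by
  have het := hc.et0
  have hC1 := hc.one_le
  have hC0 : 0 < C1 := by linarith
  rcases hy.eq_or_lt with hy0 | hy0
  · have h1 := hR v
    rw [← hy0, zero_pow (by omega), zero_mul, zero_div] at h1
    have h2 : ∀ x, ‖(D.RO.f r h *ᵥ v) x‖ ^ 2 = 0 := by
      have h3 : ∑ x, ‖(D.RO.f r h *ᵥ v) x‖ ^ 2 = 0 := by
        refine le_antisymm ?_ (sum_nonneg fun x _ => by positivity)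
        simpa using h1
      intro x
      exact (sum_eq_zero_iff_of_nonneg (fun x _ => by positivity)).1 h3 x (mem_univ x)
    have h4 : ∀ x, ‖(D.RO.f r h *ᵥ v) x‖ = 0 := fun x => pow_eq_zero_iff (two_ne_zero) |>.1 (h2 x)
    simp only [h4, mul_zero, sum_const_zero]
    rw [← hy0]
    simp
  · set X : ℝ := 2 * C1 * y / D.et r with hX
    have hX0 : 0 < X := by positivity
    set F : ℝ := pw p v with hF
    -- interpolation
    have hint := interp (Matrix.mulVecLin (D.RO.f r h)) ((y ^ p * C1 / D.et r) ^ 2) (C1 / D.et r)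
      (by positivity) (by positivity) (fun x => hR x)
      (fun x c hx k => hc.R_sup x c hx k) p hp v
    have e1 : 4 ^ p * (C1 / D.et r) ^ (2 * p - 2) * (y ^ p * C1 / D.et r) ^ 2 = X ^ (2 * p) := by
      have e2 : (y ^ p * C1 / D.et r) ^ 2 = y ^ (2 * p) * (C1 / D.et r) ^ 2 := by
        rw [mul_div_assoc, mul_pow, ← pow_mul, mul_comm p 2]
      have e3 : (C1 / D.et r) ^ (2 * p - 2) * (C1 / D.et r) ^ 2 = (C1 / D.et r) ^ (2 * p) := by
        rw [← pow_add]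
        congr 1
        omega
      have e4 : (4 : ℝ) ^ p = 2 ^ (2 * p) := by
        rw [pow_mul]
        norm_num
      have e5 : X = 2 * y * (C1 / D.et r) := by
        rw [hX]
        ring
      rw [e2, e4, e5, mul_pow, mul_pow, ← e3]
      ring
    rw [e1] at hint
    have hint' : ∑ x, ‖(D.RO.f r h *ᵥ v) x‖ ^ (2 * p) ≤ X ^ (2 * p) * F := hint
    obtain ⟨n, hn⟩ : ∃ n, 2 * p = n + 1 := ⟨2 * p - 1, by omega⟩
    have hn1 : 2 * p - 1 = n := by omega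
    rw [hn1]
    have hF2 : F = ∑ x, ‖v x‖ ^ (n + 1) := by rw [hF, pw, hn]
    rw [hn] at hint'
    have hn0 : (0 : ℝ) < (n : ℝ) + 1 := by positivity
    have hterm : ∀ x, (n + 1) * (‖v x‖ ^ n * ‖(D.RO.f r h *ᵥ v) x‖) ≤
        X * (n * ‖v x‖ ^ (n + 1) + (‖(D.RO.f r h *ᵥ v) x‖ / X) ^ (n + 1)) := by
      intro x
      have h1 := eg_young n (norm_nonneg (v x))
        (div_nonneg (norm_nonneg ((D.RO.f r h *ᵥ v) x)) hX0.le)
      have h2 := mul_le_mul_of_nonneg_left h1 hX0.le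
      have h3 : X * ((n + 1) * (‖v x‖ ^ n * (‖(D.RO.f r h *ᵥ v) x‖ / X))) =
          (n + 1) * (‖v x‖ ^ n * ‖(D.RO.f r h *ᵥ v) x‖) := by
        field_simp
      rw [h3] at h2
      exact h2
    have hsum : (n + 1) * ∑ x, ‖v x‖ ^ n * ‖(D.RO.f r h *ᵥ v) x‖ ≤
        X * (n * F + (∑ x, ‖(D.RO.f r h *ᵥ v) x‖ ^ (n + 1)) / X ^ (n + 1)) := by
      rw [mul_sum, hF2, mul_sum, sum_div, ← sum_add_distrib, mul_sum]
      refine sum_le_sum fun x _ => ?_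
      have := hterm x
      rw [div_pow] at this
      exact this
    have h5 : (∑ x, ‖(D.RO.f r h *ᵥ v) x‖ ^ (n + 1)) / X ^ (n + 1) ≤ F := by
      rw [div_le_iff₀ (by positivity), mul_comm F]
      exact hint'
    have h6 : (n + 1) * ∑ x, ‖v x‖ ^ n * ‖(D.RO.f r h *ᵥ v) x‖ ≤ (n + 1) * (X * F) := by
      refine hsum.trans ?_
      have : X * (n * F + (∑ x, ‖(D.RO.f r h *ᵥ v) x‖ ^ (n + 1)) / X ^ (n + 1)) ≤
          X * (n * F + F) := by gcongr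
      linarith
    exact le_of_mul_le_mul_left h6 hn0

/-- here `y^p` is the number `yR` of the paper proof: `‖R‖ ≤ y^p C1/et` -/
theorem estG (hc : D.Cfg C1 a tau r h) (p : ℕ) (hp : 2 ≤ p) (y : ℝ) (hy : 0 ≤ y)
    (hR : OpLe (D.RO.f r h) (y ^ p * C1 / D.et r)) (e : ℝ) (he : 0 < e) (he1 : e ≤ 1) :
    ∃ q : ι → ℝ, (powComp p (wtV (fun _ => 1 / a) (fun _ => 0) D.gO)).Est D.lam D.s (D.et r) r
      (4 * p * C1 * y + 2 * e) (Bg (Fintype.card ι) C1 D.lam a tau e p) h q := by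
  have het := hc.et0
  have hC1 := hc.one_le
  have hC0 : 0 < C1 := by linarith
  have ha0 := hc.a0
  have hs0 := hc.s0
  have hl0 := hc.lam0
  have ht0 := hc.tau0
  have hr0 := hc.r0
  have hp0 : (0 : ℝ) < p := by exact_mod_cast (by omega : 0 < p)
  have hp1 : 1 ≤ p := by omega
  set O := wtV (fun _ => 1 / a) (fun _ => 0) D.gO with hO
  set f : ι → ℂ := O.f r h with hf
  have hna : ‖(((1 / a : ℝ)) : ℂ)‖ = 1 / a := by
    rw [Complex.norm_real, Real.norm_eq_abs, abs_of_pos (by positivity)]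
  set N : ℝ := (Fintype.card ι : ℝ) with hN
  have hN0 : 0 ≤ N := Nat.cast_nonneg _
  set Y2 : ℝ := 5 * C1 ^ 2 * tau / a ^ 2 with hY2
  set Y3 : ℝ := 12 * p * C1 ^ 3 * D.lam / a with hY3
  have hY20 : 0 ≤ Y2 := by positivity
  have hY30 : 0 ≤ Y3 := by positivity
  have hyn := eg_drift hc p hp y hy hR f
  -- first estimate
  have h1 : pw1 p (O.f r h) (fun x => O.fr r h x + ((D.s * r : ℝ) : ℂ) * ∑ w, O.f2 w r h x) ≤
      2 * r * D.s / D.et r * (4 * p * C1 * y * pw p (O.f r h) + 0) := by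
    have hd : (fun x => O.fr r h x + ((D.s * r : ℝ) : ℂ) * ∑ w, O.f2 w r h x) =
        fun x => ((2 * r * D.s : ℝ) : ℂ) * (D.RO.f r h *ᵥ f) x := by
      funext x
      have e1 := congrFun (drift_g D hc.sym het h) x
      have e2 : (D.RO.f r h *ᵥ f) x = ((1 / a : ℝ) : ℂ) * (D.RO.f r h *ᵥ D.gv r h) x := by
        have : f = ((1 / a : ℝ) : ℂ) • D.gv r h := rfl
        rw [this, mulVec_smul]
        rfl
      have e3 : O.fr r h x = ((1 / a : ℝ) : ℂ) * D.gO.fr r h x := by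
        show ((1 / a : ℝ) : ℂ) * D.gO.fr r h x + ((0 : ℝ) : ℂ) * D.gO.f r h x = _
        rw [Complex.ofReal_zero, zero_mul, add_zero]
      have e4 : ∑ w, O.f2 w r h x = ((1 / a : ℝ) : ℂ) * ∑ w, D.gO.f2 w r h x := by
        rw [mul_sum]
        rfl
      rw [e2, e3, e4]
      linear_combination ((1 / a : ℝ) : ℂ) * e1
    rw [hd]
    refine (eg_pw1 p hp _ _).trans ?_
    have e5 : ∑ x, ‖f x‖ ^ (2 * p - 1) * ‖((2 * r * D.s : ℝ) : ℂ) * (D.RO.f r h *ᵥ f) x‖ =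
        2 * r * D.s * ∑ x, ‖f x‖ ^ (2 * p - 1) * ‖(D.RO.f r h *ᵥ f) x‖ := by
      rw [mul_sum]
      refine sum_congr rfl fun x _ => ?_
      rw [norm_mul, Complex.norm_real, Real.norm_eq_abs, abs_of_nonneg (by positivity)]
      ring
    rw [e5]
    calc 2 * p * (2 * r * D.s * ∑ x, ‖f x‖ ^ (2 * p - 1) * ‖(D.RO.f r h *ᵥ f) x‖)
        ≤ 2 * p * (2 * r * D.s * (2 * C1 * y / D.et r * pw p f)) := by gcongr
      _ = 2 * r * D.s / D.et r * (4 * p * C1 * y * pw p f + 0) := by ring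
  -- second estimate
  have h2 : ∑ w, ∑ x, ‖O.f r h x‖ ^ (2 * p - 2) * (‖O.f1 w r h x‖ ^ 2 + ‖O.f2 w r h x‖ ^ 2) ≤
      1 / D.et r * (e / (4 * p ^ 2) * pw p (O.f r h) +
        N * ((1 / (e / (4 * p ^ 2))) ^ (p - 1) * Y2 ^ p)) := by
    rw [sum_comm]
    have hx : ∀ x, ∑ w, ‖O.f r h x‖ ^ (2 * p - 2) * (‖O.f1 w r h x‖ ^ 2 + ‖O.f2 w r h x‖ ^ 2) ≤
        1 / D.et r * ((‖f x‖ ^ 2) ^ (p - 1) * Y2) := by
      intro x
      rw [← mul_sum]
      have e1 : ∑ w, (‖O.f1 w r h x‖ ^ 2 + ‖O.f2 w r h x‖ ^ 2) ≤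
          ∑ w, 5 * C1 ^ 2 / a ^ 2 * ‖D.G r h x w‖ ^ 4 := by
        refine sum_le_sum fun w _ => ?_
        have f1 : ‖O.f1 w r h x‖ = 1 / a * ‖D.G r h x w‖ ^ 2 := by
          show ‖((1 / a : ℝ) : ℂ) * -(D.G r h x w ^ 2)‖ = _
          rw [norm_mul, hna, norm_neg, norm_pow]
        have f2 : ‖O.f2 w r h x‖ = 1 / a * (2 * (‖D.G r h w w‖ * ‖D.G r h x w‖ ^ 2)) := by
          show ‖((1 / a : ℝ) : ℂ) * (2 * (D.G r h w w * D.G r h x w ^ 2))‖ = _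
          rw [norm_mul, hna, norm_mul, norm_mul, norm_pow]
          norm_num
        rw [f1, f2]
        have f3 := hc.diag w
        have f4 : ‖D.G r h w w‖ ^ 2 ≤ C1 ^ 2 := by gcongr
        have f5 : (1 : ℝ) ≤ C1 ^ 2 := one_le_pow₀ hC1
        have f6 : 0 ≤ ‖D.G r h x w‖ ^ 4 := by positivity
        calc (1 / a * ‖D.G r h x w‖ ^ 2) ^ 2 +
              (1 / a * (2 * (‖D.G r h w w‖ * ‖D.G r h x w‖ ^ 2))) ^ 2
            = (1 + 4 * ‖D.G r h w w‖ ^ 2) / a ^ 2 * ‖D.G r h x w‖ ^ 4 := by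
              field_simp
              ring
          _ ≤ 5 * C1 ^ 2 / a ^ 2 * ‖D.G r h x w‖ ^ 4 := by
              gcongr
              linarith
      have e2 : ∑ w, 5 * C1 ^ 2 / a ^ 2 * ‖D.G r h x w‖ ^ 4 ≤ 1 / D.et r * Y2 := by
        rw [← mul_sum]
        calc 5 * C1 ^ 2 / a ^ 2 * ∑ w, ‖D.G r h x w‖ ^ 4
            ≤ 5 * C1 ^ 2 / a ^ 2 * (tau / D.et r) := by
              gcongr
              exact hc.T4 x
          _ = 1 / D.et r * Y2 := by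
              rw [hY2]
              ring
      have e3 : ‖O.f r h x‖ ^ (2 * p - 2) = (‖f x‖ ^ 2) ^ (p - 1) := by
        rw [← pow_mul]
        congr 1
        omega
      rw [e3]
      calc (‖f x‖ ^ 2) ^ (p - 1) * ∑ w, (‖O.f1 w r h x‖ ^ 2 + ‖O.f2 w r h x‖ ^ 2)
          ≤ (‖f x‖ ^ 2) ^ (p - 1) * (1 / D.et r * Y2) := by
            gcongr
            exact e1.trans e2
        _ = 1 / D.et r * ((‖f x‖ ^ 2) ^ (p - 1) * Y2) := by ring
    refine (sum_le_sum fun x _ => hx x).trans ?_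
    rw [← mul_sum, ← sum_mul]
    have hy1 := young_sum (p - 1) (fun x => ‖f x‖ ^ 2) (y := Y2) (e := e / (4 * p ^ 2))
      (fun x => by positivity) hY20 (by positivity)
    have e4 : p - 1 + 1 = p := by omega
    rw [e4] at hy1
    have e5 : ∑ x, (‖f x‖ ^ 2) ^ p = pw p f := by
      unfold pw
      refine sum_congr rfl fun x _ => ?_
      rw [← pow_mul]
    rw [e5] at hy1
    gcongr
  -- third estimate
  have h3 : ∀ e' : ι → ℝ, (∀ w, |e' w| ≤ 1) →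
      pw1 p (O.f r h) (fun x => ∑ w, ((D.lam * e' w : ℝ) : ℂ) * O.f3 w r h x) ≤
      1 / D.et r * (e * pw p (O.f r h) + N * ((1 / e) ^ (2 * p - 1) * Y3 ^ (2 * p))) := by
    intro e' he'
    refine (eg_pw1 p hp _ _).trans ?_
    have hx : ∀ x, ‖∑ w, ((D.lam * e' w : ℝ) : ℂ) * O.f3 w r h x‖ ≤
        6 * C1 ^ 3 * D.lam / a * (1 / D.et r) := by
      intro x
      refine (norm_sum_le _ _).trans ?_
      have e1 : ∑ w, ‖((D.lam * e' w : ℝ) : ℂ) * O.f3 w r h x‖ ≤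
          ∑ w, 6 * C1 ^ 2 * D.lam / a * ‖D.G r h x w‖ ^ 2 := by
        refine sum_le_sum fun w _ => ?_
        have f1 : ‖O.f3 w r h x‖ = 1 / a * (6 * (‖D.G r h w w‖ ^ 2 * ‖D.G r h x w‖ ^ 2)) := by
          show ‖((1 / a : ℝ) : ℂ) * -(6 * (D.G r h w w ^ 2 * D.G r h x w ^ 2))‖ = _
          rw [norm_mul, hna, norm_neg, norm_mul, norm_mul, norm_pow, norm_pow]
          norm_num
        rw [norm_mul, f1, Complex.norm_real, Real.norm_eq_abs, abs_mul, abs_of_pos hl0]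
        have f3 := hc.diag w
        have f4 : ‖D.G r h w w‖ ^ 2 ≤ C1 ^ 2 := by gcongr
        calc D.lam * |e' w| * (1 / a * (6 * (‖D.G r h w w‖ ^ 2 * ‖D.G r h x w‖ ^ 2)))
            ≤ D.lam * 1 * (1 / a * (6 * (C1 ^ 2 * ‖D.G r h x w‖ ^ 2))) := by
              gcongr
              exact he' w
          _ = 6 * C1 ^ 2 * D.lam / a * ‖D.G r h x w‖ ^ 2 := by ring
      refine e1.trans ?_
      rw [← mul_sum]
      calc 6 * C1 ^ 2 * D.lam / a * ∑ w, ‖D.G r h x w‖ ^ 2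
          ≤ 6 * C1 ^ 2 * D.lam / a * (C1 / D.et r) := by
            gcongr
            exact hc.row x
        _ = 6 * C1 ^ 3 * D.lam / a * (1 / D.et r) := by ring
    calc 2 * p * ∑ x, ‖f x‖ ^ (2 * p - 1) * ‖∑ w, ((D.lam * e' w : ℝ) : ℂ) * O.f3 w r h x‖
        ≤ 2 * p * ∑ x, ‖f x‖ ^ (2 * p - 1) * (6 * C1 ^ 3 * D.lam / a * (1 / D.et r)) := by
          gcongr with x
          exact hx x
      _ = 1 / D.et r * ((∑ x, ‖f x‖ ^ (2 * p - 1)) * Y3) := by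
          rw [← sum_mul, hY3]
          ring
      _ ≤ 1 / D.et r * (e * pw p (O.f r h) + N * ((1 / e) ^ (2 * p - 1) * Y3 ^ (2 * p))) := by
          have hy1 := young_sum (2 * p - 1) (fun x => ‖f x‖) (y := Y3) (e := e)
            (fun x => norm_nonneg _) hY30 he
          have e4 : 2 * p - 1 + 1 = 2 * p := by omega
          rw [e4] at hy1
          gcongr
          exact hy1
  obtain ⟨q, hq⟩ := powEst p hp O hr0 hs0 het hl0 hc.lam1 (A0 := 4 * p * C1 * y)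
    (A2 := e / (4 * p ^ 2)) (A3 := e) (B1 := 0)
    (B2 := N * ((1 / (e / (4 * p ^ 2))) ^ (p - 1) * Y2 ^ p))
    (B3 := N * ((1 / e) ^ (2 * p - 1) * Y3 ^ (2 * p)))
    (by positivity) (by positivity) he.le le_rfl (by positivity) (by positivity) h1 h2 h3
  have eA : 4 * p * C1 * y + 4 * p ^ 2 * (e / (4 * p ^ 2)) + e = 4 * p * C1 * y + 2 * e := by
    field_simp
    ring
  rw [eA] at hq
  refine ⟨q, eg_mono hs0.le het hr0 ?_ hq⟩
  have hie : 1 ≤ 1 / e := by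
    rw [one_le_div he]
    exact he1
  have eB2 : 4 * p ^ 2 * (N * ((1 / (e / (4 * p ^ 2))) ^ (p - 1) * Y2 ^ p)) =
      N * ((1 / e) ^ (p - 1) * (20 * p ^ 2 * C1 ^ 2 * tau / a ^ 2) ^ p) := by
    have g1 : 1 / (e / (4 * (p : ℝ) ^ 2)) = (1 / e) * (4 * p ^ 2) := by field_simp
    have g2 : (20 * p ^ 2 * C1 ^ 2 * tau / a ^ 2) = (4 * (p : ℝ) ^ 2) * Y2 := by
      rw [hY2]
      ring
    have g3 : (4 * (p : ℝ) ^ 2) ^ p = (4 * (p : ℝ) ^ 2) * (4 * (p : ℝ) ^ 2) ^ (p - 1) := by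
      rw [← pow_succ']
      congr 1
      omega
    rw [g1, g2, mul_pow (1 / e), mul_pow (4 * (p : ℝ) ^ 2) Y2, g3]
    ring
  rw [eB2]
  unfold Bg
  have g4 : (1 / e) ^ (p - 1) ≤ (1 / e) ^ (2 * p) := pow_le_pow_right₀ hie (by omega)
  have g5 : (1 / e) ^ (2 * p - 1) ≤ (1 / e) ^ (2 * p) := pow_le_pow_right₀ hie (by omega)
  have g6 : 0 ≤ (20 * p ^ 2 * C1 ^ 2 * tau / a ^ 2) ^ p := by positivity
  have g7 : 0 ≤ Y3 ^ (2 * p) := by positivity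
  have g8 : N * ((1 / e) ^ (p - 1) * (20 * p ^ 2 * C1 ^ 2 * tau / a ^ 2) ^ p) ≤
      N * ((1 / e) ^ (2 * p) * (20 * p ^ 2 * C1 ^ 2 * tau / a ^ 2) ^ p) := by gcongr
  have g9 : N * ((1 / e) ^ (2 * p - 1) * Y3 ^ (2 * p)) ≤
      N * ((1 / e) ^ (2 * p) * Y3 ^ (2 * p)) := by gcongr
  calc 0 + N * ((1 / e) ^ (p - 1) * (20 * p ^ 2 * C1 ^ 2 * tau / a ^ 2) ^ p) +
        N * ((1 / e) ^ (2 * p - 1) * Y3 ^ (2 * p))
      ≤ N * ((1 / e) ^ (2 * p) * (20 * p ^ 2 * C1 ^ 2 * tau / a ^ 2) ^ p) +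
        N * ((1 / e) ^ (2 * p) * Y3 ^ (2 * p)) := by linarith
    _ = N * (1 / e) ^ (2 * p) * ((20 * p ^ 2 * C1 ^ 2 * tau / a ^ 2) ^ p +
        (12 * p * C1 ^ 3 * D.lam / a) ^ (2 * p)) := by
      rw [hY3]
      ring

end Pool.Agent.APS
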