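import Pool.Agent.APS.NoiseA

/-! # APS NOISES: noise estimates for the derivatives of `S` and `R` (from NOISEA).

`S.f1 w = -(A_w + conj A_w)`, `A_w = G_xw G_wy conj G_xy`: `‖f1 u‖² ≤ 2 ‖A_w u‖² + 2 ‖conj A_w u‖²`,
sum over `w`: `4 · 2 C1² √tau/et³ = 8 C1² √tau/et³`.
`S.f2 w = 2 (G_ww A_w + conj (G_ww A_w)) + 2 B_w`, `B_w = |G_xw|² |G_wy|²`:
`‖f2 u‖² ≤ 2 · 4 · 2 C1² (‖A_w u‖² + ‖conj A_w u‖²) + 2 · 4 ‖B_w u‖²`: sum
`≤ 16 C1² · 4 C1² √tau/et³ + 8 tau C1²/et³ ≤ 72 C1⁴ √tau/et³` (`tau ≤ √tau`).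
`R.f1 w = -2 A'_w`, `A'_w = G_xw G_wy G_xy`: `4 · 2 C1² √tau/et³`;
`R.f2 w = 4 G_ww A'_w + 2 G_xw² G_wy²`: `2 · 16 C1² · 2 C1² √tau/et³ + 8 tau C1²/et³ ≤ 72 C1⁴ √tau/et³`.
Adjoints: `S.f1 w`, `S.f2 w` are real and symmetric, hence hermitian.  `R.f1 w`, `R.f2 w` are symmetric,
so their adjoints are the entrywise conjugates and `‖conj(A) u‖ = ‖A conj(u)‖`.
-/

open Matrix Finset

noncomputable section

namespace Pool.Agent.APS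

open Pool.Agent.Kin

variable {ι : Type} [Fintype ι] [DecidableEq ι] {D : Fl ι} {C1 a tau r : ℝ} {h : ι → ℝ}

omit [Fintype ι] [DecidableEq ι] in
private theorem herm_real (F : ι → ι → ℝ) (hF : ∀ x y, F x y = F y x) :
    (fun x y => ((F x y : ℝ) : ℂ) : Matrix ι ι ℂ)ᴴ = fun x y => ((F x y : ℝ) : ℂ) := by
  ext x y
  rw [conjTranspose_apply, Complex.star_def, Complex.conj_ofReal, hF y x]

theorem S_herm (hc : D.Cfg C1 a tau r h) : (D.SO.f r h)ᴴ = D.SO.f r h := by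
  refine herm_real (fun x y => ‖D.G r h x y‖ ^ 2) fun x y => ?_
  rw [hc.symm x y]

theorem S1_herm (hc : D.Cfg C1 a tau r h) (w : ι) : (D.SO.f1 w r h)ᴴ = D.SO.f1 w r h := by
  refine herm_real
    (fun x y => (-(2 * (D.G r h x w * D.G r h w y * star (D.G r h x y)).re))) fun x y => ?_
  rw [hc.symm x y, hc.symm x w, hc.symm w y, mul_comm (D.G r h w x)]

theorem S2_herm (hc : D.Cfg C1 a tau r h) (w : ι) : (D.SO.f2 w r h)ᴴ = D.SO.f2 w r h := by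
  refine herm_real (fun x y => (4 * (D.G r h w w * (D.G r h x w * D.G r h w y) *
    star (D.G r h x y)).re + 2 * (‖D.G r h x w‖ ^ 2 * ‖D.G r h w y‖ ^ 2))) fun x y => ?_
  rw [hc.symm x y, hc.symm x w, hc.symm w y, mul_comm (D.G r h w x),
    mul_comm (‖D.G r h w x‖ ^ 2)]

private theorem two_sq (z w : ℂ) : ‖z + w‖ ^ 2 ≤ 2 * ‖z‖ ^ 2 + 2 * ‖w‖ ^ 2 := by
  have h1 := norm_add_le z w
  have h2 : ‖z + w‖ ^ 2 ≤ (‖z‖ + ‖w‖) ^ 2 := by gcongr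
  nlinarith [sq_nonneg (‖z‖ - ‖w‖)]

private theorem re_two' (z : ℂ) : ((2 * z.re : ℝ) : ℂ) = z + star z := by
  rw [Complex.star_def, Complex.add_conj]

private theorem fin72 {C1 tau X : ℝ} (hC : 1 ≤ C1) (ht : 0 < tau) (ht1 : tau ≤ 1)
    (hX : 0 ≤ X) : 64 * C1 ^ 4 * √tau * X + 8 * tau * C1 ^ 2 * X ≤ 72 * C1 ^ 4 * √tau * X := by
  have h1 : tau ≤ √tau := Real.le_sqrt_of_sq_le (by nlinarith)
  have h2 : C1 ^ 2 ≤ C1 ^ 4 := pow_le_pow_right₀ hC (by norm_num)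
  have h3 : 8 * tau * C1 ^ 2 * X ≤ 8 * √tau * C1 ^ 4 * X := by gcongr
  linarith

private theorem Gstar_op (hc : D.Cfg C1 a tau r h) :
    OpLe (fun x y => star (D.G r h x y) : Matrix ι ι ℂ) (1 / D.et r) :=
  opLe_star hc.G_op

theorem noise_S1 (hc : D.Cfg C1 a tau r h) (u : ι → ℂ) :
    ∑ w, ∑ x, ‖(D.SO.f1 w r h *ᵥ u) x‖ ^ 2 ≤
      8 * C1 ^ 2 * √tau / D.et r ^ 3 * ∑ x, ‖u x‖ ^ 2 := by
  have h1 := noise_A hc (fun x y => star (D.G r h x y)) (Gstar_op hc)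
    (fun x y => norm_star _) u
  have h2 := noise_A' hc (D.G r h) hc.G_op (fun x y => rfl) u
  have e : ∀ w x, (D.SO.f1 w r h *ᵥ u) x =
      -((∑ y, D.G r h x w * D.G r h w y * star (D.G r h x y) * u y) +
        ∑ y, star (D.G r h x w) * star (D.G r h w y) * D.G r h x y * u y) := by
    intro w x
    rw [mulVec, dotProduct, ← sum_add_distrib, ← sum_neg_distrib]
    refine sum_congr rfl fun y _ => ?_
    have e1 : D.SO.f1 w r h x y =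
        -(((2 * (D.G r h x w * D.G r h w y * star (D.G r h x y)).re : ℝ) : ℂ)) := by
      simp only [Fl.SO]
      push_cast
      rfl
    rw [e1, re_two', star_mul', star_mul', star_star]
    ring
  calc ∑ w, ∑ x, ‖(D.SO.f1 w r h *ᵥ u) x‖ ^ 2
      ≤ ∑ w, ∑ x, (2 * ‖∑ y, D.G r h x w * D.G r h w y * star (D.G r h x y) * u y‖ ^ 2 +
        2 * ‖∑ y, star (D.G r h x w) * star (D.G r h w y) * D.G r h x y * u y‖ ^ 2) := by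
        refine sum_le_sum fun w _ => sum_le_sum fun x _ => ?_
        rw [e, norm_neg]
        exact two_sq _ _
    _ = 2 * ∑ w, ∑ x, ‖∑ y, D.G r h x w * D.G r h w y * star (D.G r h x y) * u y‖ ^ 2 +
        2 * ∑ w, ∑ x,
          ‖∑ y, star (D.G r h x w) * star (D.G r h w y) * D.G r h x y * u y‖ ^ 2 := by
        simp only [sum_add_distrib, mul_sum]
    _ ≤ 2 * (2 * C1 ^ 2 * √tau / D.et r ^ 3 * ∑ y, ‖u y‖ ^ 2) +
        2 * (2 * C1 ^ 2 * √tau / D.et r ^ 3 * ∑ y, ‖u y‖ ^ 2) := by gcongr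
    _ = _ := by ring

private theorem normF (x y : ι) : ‖((‖D.G r h x y‖ ^ 2 : ℝ) : ℂ)‖ = ‖D.G r h x y‖ ^ 2 := by
  rw [Complex.norm_real, Real.norm_eq_abs, abs_of_nonneg (by positivity)]

theorem noise_S2 (hc : D.Cfg C1 a tau r h) (u : ι → ℂ) :
    ∑ w, ∑ x, ‖(D.SO.f2 w r h *ᵥ u) x‖ ^ 2 ≤
      72 * C1 ^ 4 * √tau / D.et r ^ 3 * ∑ x, ‖u x‖ ^ 2 := by
  have hC := hc.one_le
  have het := hc.et0
  have h1 := noise_A hc (fun x y => star (D.G r h x y)) (Gstar_op hc)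
    (fun x y => norm_star _) u
  have h2 := noise_A' hc (D.G r h) hc.G_op (fun x y => rfl) u
  have h3 := noise_B hc (fun x y => ((‖D.G r h x y‖ ^ 2 : ℝ) : ℂ))
    (fun x y => ((‖D.G r h x y‖ ^ 2 : ℝ) : ℂ)) normF normF u
  set α : ι → ι → ℂ := fun w x =>
    ∑ y, D.G r h x w * D.G r h w y * star (D.G r h x y) * u y with hα
  set β : ι → ι → ℂ := fun w x =>
    ∑ y, star (D.G r h x w) * star (D.G r h w y) * D.G r h x y * u y with hβ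
  set γ : ι → ι → ℂ := fun w x =>
    ∑ y, ((‖D.G r h x w‖ ^ 2 : ℝ) : ℂ) * ((‖D.G r h w y‖ ^ 2 : ℝ) : ℂ) * u y with hγ
  have e : ∀ w x, (D.SO.f2 w r h *ᵥ u) x =
      (2 * D.G r h w w * α w x + 2 * star (D.G r h w w) * β w x) + 2 * γ w x := by
    intro w x
    simp only [hα, hβ, hγ]
    rw [mulVec, dotProduct, mul_sum, mul_sum, mul_sum, ← sum_add_distrib, ← sum_add_distrib]
    refine sum_congr rfl fun y _ => ?_
    have e1 : D.SO.f2 w r h x y =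
        2 * (((2 * (D.G r h w w * (D.G r h x w * D.G r h w y) *
          star (D.G r h x y)).re : ℝ) : ℂ)) +
        2 * (((‖D.G r h x w‖ ^ 2 : ℝ) : ℂ) * ((‖D.G r h w y‖ ^ 2 : ℝ) : ℂ)) := by
      simp only [Fl.SO]
      push_cast
      ring
    rw [e1, re_two', star_mul', star_mul', star_mul', star_star]
    ring
  have hb : ∀ w x, ‖(D.SO.f2 w r h *ᵥ u) x‖ ^ 2 ≤
      16 * C1 ^ 2 * ‖α w x‖ ^ 2 + 16 * C1 ^ 2 * ‖β w x‖ ^ 2 + 8 * ‖γ w x‖ ^ 2 := by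
    intro w x
    rw [e]
    have g1 := two_sq (2 * D.G r h w w * α w x + 2 * star (D.G r h w w) * β w x) (2 * γ w x)
    have g2 := two_sq (2 * D.G r h w w * α w x) (2 * star (D.G r h w w) * β w x)
    have g3 : ‖2 * D.G r h w w * α w x‖ ^ 2 ≤ 4 * C1 ^ 2 * ‖α w x‖ ^ 2 := by
      rw [norm_mul, norm_mul, Complex.norm_ofNat, mul_pow, mul_pow]
      have := hc.diag w
      have h0 : ‖D.G r h w w‖ ^ 2 ≤ C1 ^ 2 := by gcongr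
      have : (2:ℝ) ^ 2 * ‖D.G r h w w‖ ^ 2 ≤ 4 * C1 ^ 2 := by linarith
      gcongr
    have g4 : ‖2 * star (D.G r h w w) * β w x‖ ^ 2 ≤ 4 * C1 ^ 2 * ‖β w x‖ ^ 2 := by
      rw [norm_mul, norm_mul, Complex.norm_ofNat, norm_star, mul_pow, mul_pow]
      have := hc.diag w
      have h0 : ‖D.G r h w w‖ ^ 2 ≤ C1 ^ 2 := by gcongr
      have : (2:ℝ) ^ 2 * ‖D.G r h w w‖ ^ 2 ≤ 4 * C1 ^ 2 := by linarith
      gcongr
    have g5 : ‖2 * γ w x‖ ^ 2 = 4 * ‖γ w x‖ ^ 2 := by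
      rw [norm_mul, Complex.norm_ofNat, mul_pow]
      norm_num
    linarith
  have hX : 0 ≤ 1 / D.et r ^ 3 * ∑ y, ‖u y‖ ^ 2 := by
    have : 0 ≤ ∑ y, ‖u y‖ ^ 2 := sum_nonneg fun y _ => by positivity
    positivity
  calc ∑ w, ∑ x, ‖(D.SO.f2 w r h *ᵥ u) x‖ ^ 2
      ≤ ∑ w, ∑ x, (16 * C1 ^ 2 * ‖α w x‖ ^ 2 + 16 * C1 ^ 2 * ‖β w x‖ ^ 2 +
        8 * ‖γ w x‖ ^ 2) := sum_le_sum fun w _ => sum_le_sum fun x _ => hb w x
    _ = 16 * C1 ^ 2 * ∑ w, ∑ x, ‖α w x‖ ^ 2 + 16 * C1 ^ 2 * ∑ w, ∑ x, ‖β w x‖ ^ 2 +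
        8 * ∑ w, ∑ x, ‖γ w x‖ ^ 2 := by
        simp only [sum_add_distrib, mul_sum]
    _ ≤ 16 * C1 ^ 2 * (2 * C1 ^ 2 * √tau / D.et r ^ 3 * ∑ y, ‖u y‖ ^ 2) +
        16 * C1 ^ 2 * (2 * C1 ^ 2 * √tau / D.et r ^ 3 * ∑ y, ‖u y‖ ^ 2) +
        8 * (tau * C1 ^ 2 / D.et r ^ 3 * ∑ y, ‖u y‖ ^ 2) := by gcongr
    _ = 64 * C1 ^ 4 * √tau * (1 / D.et r ^ 3 * ∑ y, ‖u y‖ ^ 2) +
        8 * tau * C1 ^ 2 * (1 / D.et r ^ 3 * ∑ y, ‖u y‖ ^ 2) := by ring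
    _ ≤ 72 * C1 ^ 4 * √tau * (1 / D.et r ^ 3 * ∑ y, ‖u y‖ ^ 2) :=
        fin72 hC hc.tau0 hc.tau1 hX
    _ = _ := by ring

theorem noise_R1 (hc : D.Cfg C1 a tau r h) (u : ι → ℂ) :
    ∑ w, ∑ x, ‖(D.RO.f1 w r h *ᵥ u) x‖ ^ 2 ≤
      8 * C1 ^ 2 * √tau / D.et r ^ 3 * ∑ x, ‖u x‖ ^ 2 := by
  have h2 := noise_A hc (D.G r h) hc.G_op (fun x y => rfl) u
  have e : ∀ w x, ‖(D.RO.f1 w r h *ᵥ u) x‖ ^ 2 =
      4 * ‖∑ y, D.G r h x w * D.G r h w y * D.G r h x y * u y‖ ^ 2 := by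
    intro w x
    have : (D.RO.f1 w r h *ᵥ u) x =
        -2 * ∑ y, D.G r h x w * D.G r h w y * D.G r h x y * u y := by
      rw [mulVec, dotProduct, mul_sum]
      refine sum_congr rfl fun y _ => ?_
      simp only [Fl.RO]
      ring
    rw [this, norm_mul, norm_neg, Complex.norm_ofNat, mul_pow]
    norm_num
  simp only [e]
  simp only [← mul_sum]
  calc _ ≤ 4 * (2 * C1 ^ 2 * √tau / D.et r ^ 3 * ∑ y, ‖u y‖ ^ 2) := by gcongr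
    _ = _ := by ring

theorem noise_R2 (hc : D.Cfg C1 a tau r h) (u : ι → ℂ) :
    ∑ w, ∑ x, ‖(D.RO.f2 w r h *ᵥ u) x‖ ^ 2 ≤
      72 * C1 ^ 4 * √tau / D.et r ^ 3 * ∑ x, ‖u x‖ ^ 2 := by
  have hC := hc.one_le
  have het := hc.et0
  have h1 := noise_A hc (D.G r h) hc.G_op (fun x y => rfl) u
  have h3 := noise_B hc (fun x y => D.G r h x y ^ 2) (fun x y => D.G r h x y ^ 2)
    (fun x y => norm_pow _ _) (fun x y => norm_pow _ _) u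
  set α : ι → ι → ℂ := fun w x =>
    ∑ y, D.G r h x w * D.G r h w y * D.G r h x y * u y with hα
  set γ : ι → ι → ℂ := fun w x =>
    ∑ y, D.G r h x w ^ 2 * D.G r h w y ^ 2 * u y with hγ
  have e : ∀ w x, (D.RO.f2 w r h *ᵥ u) x = 4 * D.G r h w w * α w x + 2 * γ w x := by
    intro w x
    simp only [hα, hγ]
    rw [mulVec, dotProduct, mul_sum, mul_sum, ← sum_add_distrib]
    refine sum_congr rfl fun y _ => ?_
    simp only [Fl.RO]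
    ring
  have hb : ∀ w x, ‖(D.RO.f2 w r h *ᵥ u) x‖ ^ 2 ≤
      32 * C1 ^ 2 * ‖α w x‖ ^ 2 + 8 * ‖γ w x‖ ^ 2 := by
    intro w x
    rw [e]
    have g1 := two_sq (4 * D.G r h w w * α w x) (2 * γ w x)
    have g3 : ‖4 * D.G r h w w * α w x‖ ^ 2 ≤ 16 * C1 ^ 2 * ‖α w x‖ ^ 2 := by
      rw [norm_mul, norm_mul, Complex.norm_ofNat, mul_pow, mul_pow]
      have := hc.diag w
      have h0 : ‖D.G r h w w‖ ^ 2 ≤ C1 ^ 2 := by gcongr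
      have : (4:ℝ) ^ 2 * ‖D.G r h w w‖ ^ 2 ≤ 16 * C1 ^ 2 := by linarith
      gcongr
    have g5 : ‖2 * γ w x‖ ^ 2 = 4 * ‖γ w x‖ ^ 2 := by
      rw [norm_mul, Complex.norm_ofNat, mul_pow]
      norm_num
    linarith
  have hX : 0 ≤ 1 / D.et r ^ 3 * ∑ y, ‖u y‖ ^ 2 := by
    have : 0 ≤ ∑ y, ‖u y‖ ^ 2 := sum_nonneg fun y _ => by positivity
    positivity
  calc ∑ w, ∑ x, ‖(D.RO.f2 w r h *ᵥ u) x‖ ^ 2
      ≤ ∑ w, ∑ x, (32 * C1 ^ 2 * ‖α w x‖ ^ 2 + 8 * ‖γ w x‖ ^ 2) :=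
        sum_le_sum fun w _ => sum_le_sum fun x _ => hb w x
    _ = 32 * C1 ^ 2 * ∑ w, ∑ x, ‖α w x‖ ^ 2 + 8 * ∑ w, ∑ x, ‖γ w x‖ ^ 2 := by
        simp only [sum_add_distrib, mul_sum]
    _ ≤ 32 * C1 ^ 2 * (2 * C1 ^ 2 * √tau / D.et r ^ 3 * ∑ y, ‖u y‖ ^ 2) +
        8 * (tau * C1 ^ 2 / D.et r ^ 3 * ∑ y, ‖u y‖ ^ 2) := by gcongr
    _ = 64 * C1 ^ 4 * √tau * (1 / D.et r ^ 3 * ∑ y, ‖u y‖ ^ 2) +
        8 * tau * C1 ^ 2 * (1 / D.et r ^ 3 * ∑ y, ‖u y‖ ^ 2) := by ring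
    _ ≤ 72 * C1 ^ 4 * √tau * (1 / D.et r ^ 3 * ∑ y, ‖u y‖ ^ 2) :=
        fin72 hC hc.tau0 hc.tau1 hX
    _ = _ := by ring

omit [DecidableEq ι] in
private theorem ct_norm (A : Matrix ι ι ℂ) (hA : ∀ x y, A x y = A y x) (u : ι → ℂ) (x : ι) :
    ‖(Aᴴ *ᵥ u) x‖ = ‖(A *ᵥ (fun y => star (u y))) x‖ := by
  have : (Aᴴ *ᵥ u) x = star ((A *ᵥ (fun y => star (u y))) x) := by
    rw [mulVec, mulVec, dotProduct, dotProduct, star_sum]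
    refine sum_congr rfl fun y _ => ?_
    rw [conjTranspose_apply, star_mul', star_star, hA y x]
  rw [this, norm_star]

theorem noise_R1' (hc : D.Cfg C1 a tau r h) (u : ι → ℂ) :
    ∑ w, ∑ x, ‖((D.RO.f1 w r h)ᴴ *ᵥ u) x‖ ^ 2 ≤
      8 * C1 ^ 2 * √tau / D.et r ^ 3 * ∑ x, ‖u x‖ ^ 2 := by
  have h1 := noise_R1 hc (fun y => star (u y))
  simp only [norm_star] at h1
  refine le_trans (le_of_eq ?_) h1
  refine sum_congr rfl fun w _ => sum_congr rfl fun x _ => ?_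
  rw [ct_norm]
  intro x y
  simp only [Fl.RO]
  rw [hc.symm x y, hc.symm x w, hc.symm w y]
  ring

theorem noise_R2' (hc : D.Cfg C1 a tau r h) (u : ι → ℂ) :
    ∑ w, ∑ x, ‖((D.RO.f2 w r h)ᴴ *ᵥ u) x‖ ^ 2 ≤
      72 * C1 ^ 4 * √tau / D.et r ^ 3 * ∑ x, ‖u x‖ ^ 2 := by
  have h1 := noise_R2 hc (fun y => star (u y))
  simp only [norm_star] at h1
  refine le_trans (le_of_eq ?_) h1
  refine sum_congr rfl fun w _ => sum_congr rfl fun x _ => ?_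
  rw [ct_norm]
  intro x y
  simp only [Fl.RO]
  rw [hc.symm x y, hc.symm x w, hc.symm w y]
  ring

end Pool.Agent.APS
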