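import Pool.Agent.APS.TrEst
import Pool.Agent.APS.NoiseS
import Pool.Agent.APS.ErrB
import Pool.Agent.APS.DriftId

/-! # APS ESTH: the estimates of the components `H` and `F`: `Tr |c (Pi S - U)|^(2p)`.

`A = c (Pi S - U)`, `f = dil A`.  Apply `trEst` with `nu² = c² 80 C1⁴ √tau/et³`,
`x3 = 24 λ C1³ c/et²`, `A0 = 2 p w0 + e`.
* `h1`: the direction is `dil (c (Pi (fr + s r ∑ f2) - U') + c' (Pi S - U))`
  `= dil (2rs (U A + A S) + 2rs c Pi errS - (2 r s om/et) A)` because (`drift_S`, `U' = 2rs U²`)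
  `Pi S² - U² = U (Pi S - U) + (Pi S - U) S` when `U Pi = U`.
  `tr1_mul` with `‖U‖ ≤ bH/et`, `‖S‖ ≤ (ρ0+a)/et` (`S_op'`); `tr1 (2p) f f = 2p tr0 (2p) f`;
  so the sum of the main terms is `≤ (2rs/et) 2p (bH + ρ0 + a - om) tr0`, at most `(2rs/et) 2p w0 tr0`.
  Error: `‖c Pi errS‖ ≤ 2 a C1 c/et²`, `tr1_le` with constant `et`:
  `(2rs/et) (e tr0 + 2N (1/e)^(2p-1) (4 p a C1 c/et)^(2p))`.
* `h2`: `‖dil(B) u‖² = ‖B u₂‖² + ‖Bᴴ u₁‖²`, `B = c Pi f1_w`: `‖B u₂‖ ≤ c ‖f1_w u₂‖`,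
  `‖Bᴴ u₁‖ = c ‖f1_w Piᴴ u₁‖`, `noise_S1`, `noise_S2`, `‖Piᴴ u₁‖ ≤ ‖u₁‖`.
* `h3`: `dil (c Pi ∑ λ e_w f3_w)`, `third_S`.
Sources: `8 p² nu² et = 640 p² C1⁴ √tau (c/et)² ≤ (30 p C1² τ^(1/4) c/et)²`, `2p x3 et = 48 p C1³ λ c/et`,
`x^n + y^n ≤ (x+y)^n`, `card (ι ⊕ ι) = 2N`; the result is at most `BH` with `y = et/c`.
-/

open Matrix Finset

noncomputable section

namespace Pool.Agent.APS

open Pool.Agent.Kin

variable {ι : Type} [Fintype ι] [DecidableEq ι] {D : Fl ι} {C1 a tau r : ℝ} {h : ι → ℝ}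

omit [DecidableEq ι] [Fintype ι] in
private theorem eh_mono {κ : Type} [Fintype κ] {c : Comp κ} {lam s et r A B B' : ℝ}
    {h q : κ → ℝ} (hs : 0 ≤ s)
    (het : 0 < et) (hr : 0 ≤ r) (hB : B ≤ B')
    (hE : c.Est lam s et r A B h q) : c.Est lam s et r A B' h q := by
  have e1 : A * c.Ga r h + B ≤ A * c.Ga r h + B' := by linarith
  have e2 : 0 ≤ 2 * r * s / et := by positivity
  have e3 : 0 ≤ 1 / et := by positivity
  exact ⟨hE.dr.trans (mul_le_mul_of_nonneg_left e1 e2), hE.q0, hE.qu, hE.g1, hE.d1,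
    hE.qs.trans (mul_le_mul_of_nonneg_left e1 e3),
    fun e he => (hE.dd e he).trans (mul_le_mul_of_nonneg_left e1 e3)⟩

private theorem eh_dil_sum {α : Type} (s : Finset α) (A : α → Matrix ι ι ℂ) :
    dil (∑ w ∈ s, A w) = ∑ w ∈ s, dil (A w) := by
  classical
  induction s using Finset.induction_on with
  | empty =>
    have : dil (0 : Matrix ι ι ℂ) = 0 := by
      have := dil_smul 0 (0 : Matrix ι ι ℂ)
      simpa using this
    simpa using this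
  | insert a s ha ih => rw [sum_insert ha, sum_insert ha, dil_add, ih]

private theorem eh_tr1_self (p : ℕ) (hp : 1 ≤ p) {κ : Type} [Fintype κ] [DecidableEq κ]
    (f : Matrix κ κ ℂ) : tr1 (2 * p) f f = 2 * p * tr0 (2 * p) f := by
  unfold tr1 tr0
  rw [← pow_succ, show 2 * p - 1 + 1 = 2 * p by omega]
  push_cast
  rfl

private theorem eh_noise {B : ι → Matrix ι ι ℂ} (hB : ∀ w, (B w)ᴴ = B w) {Pi : Matrix ι ι ℂ}
    (hPi : OpLe Pi 1) {c K : ℝ} (hK0 : 0 ≤ K)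
    (hK : ∀ u : ι → ℂ, ∑ w, ∑ x, ‖(B w *ᵥ u) x‖ ^ 2 ≤ K * ∑ x, ‖u x‖ ^ 2) (u : ι ⊕ ι → ℂ) :
    ∑ w, ∑ x, ‖(dil ((c : ℂ) • (Pi * B w)) *ᵥ u) x‖ ^ 2 ≤ c ^ 2 * K * ∑ x, ‖u x‖ ^ 2 := by
  have hPH : OpLe Piᴴ 1 := opLe_ct zero_le_one hPi
  have h1 : ∀ w, ∑ x, ‖(dil ((c : ℂ) • (Pi * B w)) *ᵥ u) x‖ ^ 2 ≤
      c ^ 2 * (∑ x, ‖(B w *ᵥ fun y => u (Sum.inr y)) x‖ ^ 2 +
        ∑ x, ‖(B w *ᵥ (Piᴴ *ᵥ fun y => u (Sum.inl y))) x‖ ^ 2) := by
    intro w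
    rw [dil_mulVec, mul_add]
    refine add_le_add ?_ ?_
    · have := hPi (B w *ᵥ fun y => u (Sum.inr y))
      rw [one_pow, one_mul] at this
      refine le_trans (le_of_eq ?_) (mul_le_mul_of_nonneg_left this (sq_nonneg c))
      rw [mul_sum]
      refine sum_congr rfl fun x _ => ?_
      rw [smul_mulVec, _root_.Pi.smul_apply, smul_eq_mul, norm_mul, mul_pow, Complex.norm_real,
        Real.norm_eq_abs, sq_abs, mulVec_mulVec]
    · refine le_of_eq ?_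
      rw [mul_sum]
      refine sum_congr rfl fun x _ => ?_
      rw [conjTranspose_smul, Complex.star_def, Complex.conj_ofReal, conjTranspose_mul, hB w,
        smul_mulVec, _root_.Pi.smul_apply, smul_eq_mul, norm_mul, mul_pow, Complex.norm_real,
        Real.norm_eq_abs, sq_abs, mulVec_mulVec]
  have h2 := hK (fun y => u (Sum.inr y))
  have h3 := hK (Piᴴ *ᵥ fun y => u (Sum.inl y))
  have h4 := hPH (fun y => u (Sum.inl y))
  rw [one_pow, one_mul] at h4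
  have h5 : K * ∑ x, ‖(Piᴴ *ᵥ fun y => u (Sum.inl y)) x‖ ^ 2 ≤
      K * ∑ x, ‖u (Sum.inl x)‖ ^ 2 := mul_le_mul_of_nonneg_left h4 hK0
  calc ∑ w, ∑ x, ‖(dil ((c : ℂ) • (Pi * B w)) *ᵥ u) x‖ ^ 2
      ≤ ∑ w, c ^ 2 * (∑ x, ‖(B w *ᵥ fun y => u (Sum.inr y)) x‖ ^ 2 +
        ∑ x, ‖(B w *ᵥ (Piᴴ *ᵥ fun y => u (Sum.inl y))) x‖ ^ 2) :=
        sum_le_sum fun w _ => h1 w
    _ = c ^ 2 * (∑ w, ∑ x, ‖(B w *ᵥ fun y => u (Sum.inr y)) x‖ ^ 2 +
        ∑ w, ∑ x, ‖(B w *ᵥ (Piᴴ *ᵥ fun y => u (Sum.inl y))) x‖ ^ 2) := by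
        rw [← mul_sum, sum_add_distrib]
    _ ≤ c ^ 2 * (K * ∑ x, ‖u (Sum.inr x)‖ ^ 2 + K * ∑ x, ‖u (Sum.inl x)‖ ^ 2) := by
        refine mul_le_mul_of_nonneg_left ?_ (sq_nonneg c)
        linarith
    _ = c ^ 2 * K * ∑ x, ‖u x‖ ^ 2 := by
        rw [Fintype.sum_sum_type]
        ring

/-- arithmetic of the sources -/
private theorem eh_source {N C1 lam a tau y e c et x3 nu2 : ℝ} (p : ℕ) (hp : 1 ≤ p)
    (hN : 0 ≤ N) (hC : 1 ≤ C1) (hl : 0 < lam) (ha : 0 < a) (ht : 0 < tau)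
    (hy : y = et / c) (hc : 0 < c) (het : 0 < et) (he : 0 < e) (he1 : e ≤ 1)
    (hx3 : x3 = c * (1 * (24 * lam * C1 ^ 3 / et ^ 2)))
    (hnu2 : nu2 = c ^ 2 * (8 * C1 ^ 2 * √tau / et ^ 3) +
      c ^ 2 * (72 * C1 ^ 4 * √tau / et ^ 3)) :
    2 * N * ((1 / e) ^ (2 * p - 1) * (et * (2 * p * (c * (1 * (2 * a * C1 / et ^ 2))))) ^ (2 * p)) +
      2 * N * (1 / e) ^ (2 * p) * ((8 * p ^ 2 * nu2 * et) ^ p + (2 * p * x3 * et) ^ (2 * p)) ≤
      BH N C1 lam a tau y e p := by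
  have hie : 1 ≤ 1 / e := by
    rw [le_div_iff₀ he]
    linarith
  have hy0 : 0 < y := by
    rw [hy]
    positivity
  have hC0 : 0 < C1 := by linarith
  have hC13 : C1 ≤ C1 ^ 3 := by
    calc C1 = C1 ^ 1 := (pow_one _).symm
      _ ≤ C1 ^ 3 := pow_le_pow_right₀ hC (by norm_num)
  have hC24 : C1 ^ 2 ≤ C1 ^ 4 := pow_le_pow_right₀ hC (by norm_num)
  have hE : (1 / e) ^ (2 * p - 1) ≤ (1 / e) ^ (2 * p) := pow_le_pow_right₀ hie (by omega)
  have hp0 : (0:ℝ) < p := by exact_mod_cast hp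
  have e1 : et * (2 * p * (c * (1 * (2 * a * C1 / et ^ 2)))) = 4 * p * a * C1 / y := by
    rw [hy]
    field_simp
    ring
  have e2 : 2 * p * x3 * et = 48 * p * C1 ^ 3 * lam / y := by
    rw [hx3, hy]
    field_simp
    ring
  have b1 : (4 * p * a * C1 / y) ^ (2 * p) ≤ (60 * p * C1 ^ 3 * (a + lam) / y) ^ (2 * p) := by
    have : 4 * p * a * C1 / y ≤ 60 * p * C1 ^ 3 * (a + lam) / y := by
      gcongr ?_ / y
      calc 4 * (p:ℝ) * a * C1 ≤ 60 * p * (a + lam) * C1 ^ 3 := by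
            gcongr
            · norm_num
            · linarith
        _ = _ := by ring
    gcongr
  have b2 : (48 * p * C1 ^ 3 * lam / y) ^ (2 * p) ≤
      (60 * p * C1 ^ 3 * (a + lam) / y) ^ (2 * p) := by
    have : 48 * p * C1 ^ 3 * lam / y ≤ 60 * p * C1 ^ 3 * (a + lam) / y := by
      gcongr ?_ / y
      gcongr
      · norm_num
      · linarith
    gcongr
  have b3 : (8 * p ^ 2 * nu2 * et) ^ p ≤ (30 * p * C1 ^ 2 * √√tau / y) ^ (2 * p) := by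
    rw [pow_mul]
    have hs : √√tau ^ 2 = √tau := Real.sq_sqrt (Real.sqrt_nonneg _)
    have e3 : (30 * p * C1 ^ 2 * √√tau / y) ^ 2 = 900 * p ^ 2 * C1 ^ 4 * √tau / y ^ 2 := by
      rw [div_pow, mul_pow, hs]
      ring
    rw [e3]
    have e4 : 8 * p ^ 2 * nu2 * et = (64 * p ^ 2 * C1 ^ 2 * √tau +
        576 * p ^ 2 * C1 ^ 4 * √tau) / y ^ 2 := by
      rw [hnu2, hy]
      field_simp
      ring
    rw [e4]
    have h6 : 0 ≤ (p:ℝ) ^ 2 * √tau := by positivity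
    have h5 : 64 * p ^ 2 * C1 ^ 2 * √tau + 576 * p ^ 2 * C1 ^ 4 * √tau ≤
        900 * p ^ 2 * C1 ^ 4 * √tau := by
      have h7 := mul_le_mul_of_nonneg_left hC24 h6
      nlinarith [mul_nonneg h6 (by positivity : 0 ≤ C1 ^ 4)]
    gcongr
  rw [e1, e2]
  unfold BH
  set Z := (60 * p * C1 ^ 3 * (a + lam) / y) ^ (2 * p) with hZ
  set W := (30 * p * C1 ^ 2 * √√tau / y) ^ (2 * p) with hW
  have hZ0 : 0 ≤ Z := by positivity
  have hW0 : 0 ≤ W := by positivity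
  have hE0 : 0 ≤ (1 / e) ^ (2 * p) := by positivity
  calc _ ≤ 2 * N * ((1 / e) ^ (2 * p) * Z) + 2 * N * (1 / e) ^ (2 * p) * (W + Z) := by
        gcongr
    _ ≤ 4 * N * (1 / e) ^ (2 * p) * (Z + W) := by
        have : 0 ≤ N * (1 / e) ^ (2 * p) * W := by positivity
        linarith

theorem estH (hc : D.Cfg C1 a tau r h) (p : ℕ) (hp : 2 ≤ p) {Pi : Matrix ι ι ℂ}
    (hPi : OpLe Pi 1) (U U' : ℝ → Matrix ι ι ℂ) (hUPi : U r * Pi = U r)
    (hU' : U' r = ((2 * r * D.s : ℝ) : ℂ) • (U r * U r)) {bH : ℝ} (hbH : 0 ≤ bH)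
    (hU : OpLe (U r) (bH / D.et r)) (c c' : ℝ → ℝ) (om w0 y : ℝ) (hc0 : 0 < c r)
    (hcr' : c' r = -(2 * r * D.s * om / D.et r) * c r) (hy : y = D.et r / c r) (hw0 : 0 ≤ w0)
    (hw : bH + D.g0.im + a - om ≤ w0) (e : ℝ) (he : 0 < e) (he1 : e ≤ 1) :
    ∃ q : ι → ℝ, (trComp (2 * p) (D.hO Pi U U' c c')).Est D.lam D.s (D.et r) r
      (2 * p * w0 + 3 * e) (BH (Fintype.card ι) C1 D.lam a tau y e p) h q := by
  have hp1 : 1 ≤ p := by omega
  have hC := hc.one_le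
  have hC0 : 0 < C1 := by linarith
  have het := hc.et0
  have hs := hc.s0
  have hr := hc.r0
  have ha := hc.a0
  have hg := hc.g0im
  have hl := hc.lam0
  set S := D.SO.f r h with hS
  set A : Matrix ι ι ℂ := ((c r : ℝ) : ℂ) • (Pi * S - U r) with hA
  set O := D.hO Pi U U' c c' with hO
  have hOf : O.f r h = dil A := rfl
  have hOf1 : ∀ w, O.f1 w r h = dil (((c r : ℝ) : ℂ) • (Pi * D.SO.f1 w r h)) := fun w => rfl
  have hOf2 : ∀ w, O.f2 w r h = dil (((c r : ℝ) : ℂ) • (Pi * D.SO.f2 w r h)) := fun w => rfl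
  have hOf3 : ∀ w, O.f3 w r h = dil (((c r : ℝ) : ℂ) • (Pi * D.SO.f3 w r h)) := fun w => rfl
  have hOfr : O.fr r h = dil (((c r : ℝ) : ℂ) • (Pi * D.SO.fr r h - U' r) +
    ((c' r : ℝ) : ℂ) • (Pi * S - U r)) := rfl
  set E : Matrix ι ι ℂ := ((c r : ℝ) : ℂ) • (Pi * D.errS r h) with hE
  have hcn : ‖((c r : ℝ) : ℂ)‖ = c r := by
    rw [Complex.norm_real, Real.norm_eq_abs, abs_of_pos hc0]
  have hEop : OpLe E (c r * (1 * (2 * a * C1 / D.et r ^ 2))) := by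
    have := opLe_smul ((c r : ℝ) : ℂ) (opLe_mul hPi (errS_op hc))
    rw [hcn] at this
    exact this
  have hx0 : 0 ≤ c r * (1 * (2 * a * C1 / D.et r ^ 2)) := by positivity
  have hEd : OpLe (dil E) (c r * (1 * (2 * a * C1 / D.et r ^ 2))) := dil_opLe hx0 hEop
  -- the drift
  have hdir : O.fr r h + ((D.s * r : ℝ) : ℂ) • ∑ w, O.f2 w r h =
      ((2 * r * D.s : ℝ) : ℂ) • dil (U r * A + A * S) + ((2 * r * D.s : ℝ) : ℂ) • dil E +
        ((-(2 * r * D.s * om / D.et r) : ℝ) : ℂ) • dil A := by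
    have e1 : ∑ w, O.f2 w r h = dil (((c r : ℝ) : ℂ) • (Pi * ∑ w, D.SO.f2 w r h)) := by
      simp only [hOf2]
      rw [← eh_dil_sum, ← smul_sum, mul_sum]
    rw [e1, hOfr, ← dil_smul, ← dil_smul, ← dil_smul, ← dil_smul, ← dil_add, ← dil_add,
      ← dil_add]
    congr 1
    have hd := drift_S D hc.sym het h
    rw [← hS] at hd
    have e2 : Pi * D.SO.fr r h + ((D.s * r : ℝ) : ℂ) • (Pi * ∑ w, D.SO.f2 w r h) =
        ((2 * r * D.s : ℝ) : ℂ) • (Pi * (S * S) + Pi * D.errS r h) := by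
      rw [← mul_add, ← Matrix.mul_smul, ← Matrix.mul_smul, ← mul_add, hd]
    have e3 : Pi * (S * S) - U r * U r = U r * (Pi * S - U r) + (Pi * S - U r) * S := by
      rw [mul_sub, sub_mul, ← Matrix.mul_assoc (U r), hUPi, Matrix.mul_assoc Pi]
      abel
    have e4 : U r * A + A * S = ((c r : ℝ) : ℂ) • (Pi * (S * S) - U r * U r) := by
      rw [e3, hA, Matrix.mul_smul, Matrix.smul_mul, ← smul_add]
    rw [e4, hU', hcr', hA, hE]
    have e5 : ((c r : ℝ) : ℂ) • (Pi * D.SO.fr r h - ((2 * r * D.s : ℝ) : ℂ) • (U r * U r)) +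
        ((-(2 * r * D.s * om / D.et r) * c r : ℝ) : ℂ) • (Pi * S - U r) +
        ((D.s * r : ℝ) : ℂ) • ((c r : ℝ) : ℂ) • (Pi * ∑ w, D.SO.f2 w r h) =
        ((c r : ℝ) : ℂ) • (Pi * D.SO.fr r h +
          ((D.s * r : ℝ) : ℂ) • (Pi * ∑ w, D.SO.f2 w r h)) -
        ((c r : ℝ) : ℂ) • (((2 * r * D.s : ℝ) : ℂ) • (U r * U r)) +
        ((-(2 * r * D.s * om / D.et r) * c r : ℝ) : ℂ) • (Pi * S - U r) := by
      rw [smul_comm ((D.s * r : ℝ) : ℂ), smul_sub, smul_add]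
      abel
    rw [e5, e2]
    simp only [smul_add, smul_sub, smul_smul]
    have c1 : ((c r : ℝ) : ℂ) * ((2 * r * D.s : ℝ) : ℂ) =
        ((2 * r * D.s : ℝ) : ℂ) * ((c r : ℝ) : ℂ) := mul_comm _ _
    have c2 : ((-(2 * r * D.s * om / D.et r) * c r : ℝ) : ℂ) =
        ((-(2 * r * D.s * om / D.et r) : ℝ) : ℂ) * ((c r : ℝ) : ℂ) := by
      push_cast
      ring
    rw [c1, c2]
    abel
  have hT0 := tr0_nonneg p (dil_herm A)
  have h1 : tr1 (2 * p) (O.f r h) (O.fr r h + ((D.s * r : ℝ) : ℂ) • ∑ w, O.f2 w r h) ≤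
      2 * r * D.s / D.et r * ((2 * p * w0 + e) * tr0 (2 * p) (O.f r h) +
        2 * (Fintype.card ι : ℝ) * ((1 / e) ^ (2 * p - 1) *
          (D.et r * (2 * p * (c r * (1 * (2 * a * C1 / D.et r ^ 2))))) ^ (2 * p))) := by
    rw [hdir, hOf, tr1_add, tr1_add, tr1_smul, tr1_smul, tr1_smul, eh_tr1_self p hp1]
    have m1 := tr1_mul p hp1 (A := A) (by positivity) (by positivity) hU hc.S_op'
    have m2 := tr1_le p hp1 (dil_herm A) hx0 he hEd het.le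
    rw [Fintype.card_sum] at m2
    push_cast at m2
    set T0 := tr0 (2 * p) (dil A) with hT
    set V := tr1 (2 * p) (dil A) (dil (U r * A + A * S)) with hV
    set V2 := tr1 (2 * p) (dil A) (dil E) with hV2
    have k1 : V ≤ 2 * p * (bH / D.et r + (D.g0.im + a) / D.et r) * T0 :=
      (le_abs_self _).trans m1
    have k2 : D.et r * V2 ≤ D.et r * |V2| := mul_le_mul_of_nonneg_left (le_abs_self _) het.le
    have k3 : 0 ≤ 2 * r * D.s / D.et r := by positivity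
    have k4 : 2 * r * D.s * V + 2 * r * D.s * V2 +
        -(2 * r * D.s * om / D.et r) * (2 * p * T0) =
        2 * r * D.s / D.et r * (D.et r * V + D.et r * V2 - om * (2 * p * T0)) := by
      field_simp
      ring
    rw [k4]
    refine mul_le_mul_of_nonneg_left ?_ k3
    have k5 : D.et r * V ≤ 2 * p * (bH + (D.g0.im + a)) * T0 := by
      calc D.et r * V ≤ D.et r * (2 * p * (bH / D.et r + (D.g0.im + a) / D.et r) * T0) :=
            mul_le_mul_of_nonneg_left k1 het.le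
        _ = _ := by
            field_simp
    have k6 : 2 * p * (bH + (D.g0.im + a)) * T0 - om * (2 * p * T0) ≤ 2 * p * w0 * T0 := by
      have : 0 ≤ 2 * (p:ℝ) * T0 := by positivity
      nlinarith
    have k7 : ((Fintype.card ι : ℝ) + (Fintype.card ι : ℝ)) = 2 * (Fintype.card ι : ℝ) := by
      ring
    rw [k7] at m2
    linarith
  set nu2 : ℝ := c r ^ 2 * (8 * C1 ^ 2 * √tau / D.et r ^ 3) +
      c r ^ 2 * (72 * C1 ^ 4 * √tau / D.et r ^ 3) with hnu2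
  have hnu20 : 0 ≤ nu2 := by positivity
  have h2 : ∀ u : ι ⊕ ι → ℂ,
      ∑ w, ∑ x, (‖(O.f1 w r h *ᵥ u) x‖ ^ 2 + ‖(O.f2 w r h *ᵥ u) x‖ ^ 2) ≤
      √nu2 ^ 2 * ∑ x, ‖u x‖ ^ 2 := by
    intro u
    rw [Real.sq_sqrt hnu20]
    have n1 := eh_noise (S1_herm hc) hPi (c := c r) (by positivity) (noise_S1 hc) u
    have n2 := eh_noise (S2_herm hc) hPi (c := c r) (by positivity) (noise_S2 hc) u
    simp only [sum_add_distrib, hOf1, hOf2]
    refine (add_le_add n1 n2).trans (le_of_eq ?_)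
    rw [hnu2]
    ring
  set x3 : ℝ := c r * (1 * (24 * D.lam * C1 ^ 3 / D.et r ^ 2)) with hx3
  have hx30 : 0 ≤ x3 := by positivity
  have h3 : ∀ e : ι → ℝ, (∀ w, |e w| ≤ 1) →
      OpLe (∑ w, ((D.lam * e w : ℝ) : ℂ) • O.f3 w r h) x3 := by
    intro ee hee
    have t3 := opLe_smul ((c r : ℝ) : ℂ) (opLe_mul hPi (third_S hc ee hee))
    rw [hcn] at t3
    have := dil_opLe hx30 t3
    convert this using 1
    rw [mul_sum, smul_sum, eh_dil_sum]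
    refine sum_congr rfl fun w _ => ?_
    rw [hOf3, ← dil_smul, Matrix.mul_smul, smul_comm]
  obtain ⟨q, hq⟩ := trEst p hp1 O hr hs het hl hc.lam1 (hOf ▸ dil_herm A)
    (fun w => hOf1 w ▸ dil_herm _) (fun w => hOf2 w ▸ dil_herm _)
    (A0 := 2 * p * w0 + e) (by positivity) (by positivity) he he1 (Real.sqrt_nonneg nu2) hx30
    h1 h2 h3
  refine ⟨q, ?_⟩
  have hA0 : 2 * (p:ℝ) * w0 + e + 2 * e = 2 * p * w0 + 3 * e := by ring
  rw [hA0] at hq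
  refine eh_mono hs.le het hr ?_ hq
  rw [Fintype.card_sum, Real.sq_sqrt hnu20]
  push_cast
  have k7 : ((Fintype.card ι : ℝ) + (Fintype.card ι : ℝ)) = 2 * (Fintype.card ι : ℝ) := by
    ring
  rw [k7]
  exact eh_source p hp1 (Nat.cast_nonneg _) hC hl ha hc.tau0 hy hc0 het he he1 hx3 hnu2

end Pool.Agent.APS
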