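import Pool.Agent.APS.Defs2
import Pool.Agent.Kin.DerR
import Pool.Agent.Kin.GamCont

/-! # APS REGG: regularity of the observable `G`.

`GO.Reg D.lam I` for every set `I` on which `η_r > 0`.
* continuity of `(r,h) ↦ G_r(h)_xy` on `I × univ` (the matrix is invertible as `Im z_r = η_r > 0`;
  compare Kin/GamCont.lean), hence of all derivatives (polynomials in the entries).
* `∂_w G_xy = -G_xw G_wy` (see Kin: `hasDerivAt_res`, or `res_update` in Kin/Rep1.lean), then the
  product rule for `f2`, `f3`.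
* `dr`: `Kin.Dat.path_G` (Kin/DerR.lean) applied to a `Dat` with the same `H0, z, g0, lam, sg` and
  dummy other fields (or copy its proof): `d/dr G_r(λ r v) = -2 r s g0 G² - ∑ λ v_w G_xw G_wy`.
-/

open Matrix Finset

noncomputable section

namespace Pool.Agent.APS

open Pool.Agent.Kin

variable {ι : Type} [Fintype ι] [DecidableEq ι]

theorem zr_im (D : Fl ι) (r : ℝ) : (D.zr r).im = D.et r := by
  unfold Fl.zr Fl.et
  rw [Complex.add_im, Complex.im_ofReal_mul]

theorem hasDerivAt_et (D : Fl ι) (r : ℝ) :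
    HasDerivAt D.et (-(2 * r * D.s * D.g0.im)) r := by
  have h1 : HasDerivAt (fun r : ℝ => D.z.im + D.s * (1 - r ^ 2) * D.g0.im)
      (D.s * (-(2 * r)) * D.g0.im) r := by
    have h2 : HasDerivAt (fun r : ℝ => 1 - r ^ 2) (-(2 * r)) r := by
      have := (hasDerivAt_pow 2 r).const_sub 1
      simpa using this
    exact ((h2.const_mul D.s).mul_const D.g0.im).const_add D.z.im
  have h3 : D.et = fun r : ℝ => D.z.im + D.s * (1 - r ^ 2) * D.g0.im := rfl
  rw [h3]
  convert h1 using 1
  ring

/-- the data of `Kin` with the same matrix, dummy other fields -/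
private def rgDat (D : Fl ι) : Kin.Dat ι PEmpty.{1} where
  H0 := D.H0
  z := D.z
  g0 := D.g0
  lam := D.lam
  sg := D.sg
  bd := 0
  b := fun p => p.elim
  S := fun p => p.elim
  be := fun p => p.elim
  B := ∅
  q := 0
  m := 0
  tau := 0
  KA := 0
  C1 := 0
  Lam := 0
  a4 := 0
  dbar := 0
  kbar := 0

private lemma rg_cont (D : Fl ι) (hH : RealSym D.H0) {I : Set ℝ} (hI : ∀ r ∈ I, 0 < D.et r)
    (x y : ι) :
    ContinuousOn (fun p : ℝ × (ι → ℝ) => D.G p.1 p.2 x y) (I ×ˢ Set.univ) := by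
  have h := (rgDat D).cont_G (ι := ι) (P := PEmpty.{1}) hH x y
  refine ContinuousOn.mono h ?_
  rintro ⟨r, v⟩ ⟨h1, -⟩
  exact ⟨⟨hI r h1, fun p => p.elim⟩, trivial⟩

private lemma rg_d1 (D : Fl ι) (hH : RealSym D.H0) {r : ℝ} (hr : 0 < D.et r) (h : ι → ℝ) (w : ι)
    (t : ℝ) (x y : ι) :
    HasDerivAt (fun t : ℝ => D.G r (Function.update h w t) x y)
      (-(D.G r (Function.update h w t) x w * D.G r (Function.update h w t) w y)) t := by
  have hz : 0 < (D.zr r).im := by rw [zr_im]; exact hr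
  have hm : ∀ t : ℝ, D.H0 + Matrix.diagonal (fun x => ((Function.update h w t x : ℝ) : ℂ)) -
      D.zr r • (1 : Matrix ι ι ℂ) =
      (D.H0 + Matrix.diagonal (fun x => ((Function.update h w 0 x : ℝ) : ℂ)) -
        D.zr r • (1 : Matrix ι ι ℂ)) +
      t • Matrix.diagonal (fun x => if x = w then (1 : ℂ) else 0) +
      (t ^ 2) • (0 : Matrix ι ι ℂ) := by
    intro t
    ext i j
    by_cases hij : i = j
    · subst hij
      by_cases hw : i = w
      · subst hw
        simp
        ring
      · simp [hw]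
    · simp [hij]
  have h1 := mul_res hH hz (Function.update h w t)
  have h2 := res_mul hH hz (Function.update h w t)
  rw [hm] at h1 h2
  have h3 := derr_inv _ _ _ _ t h1 h2 x y
  have h4 : (fun t : ℝ => D.G r (Function.update h w t) x y) = fun t : ℝ =>
      ((D.H0 + Matrix.diagonal (fun x => ((Function.update h w 0 x : ℝ) : ℂ)) -
        D.zr r • (1 : Matrix ι ι ℂ)) +
      t • Matrix.diagonal (fun x => if x = w then (1 : ℂ) else 0) +
      (t ^ 2) • (0 : Matrix ι ι ℂ))⁻¹ x y := by
    funext t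
    rw [← hm]
    rfl
  rw [h4]
  convert h3 using 1
  rw [← Fl.G, smul_zero, add_zero, Matrix.mul_apply]
  congr 1
  rw [Finset.sum_eq_single w]
  · rw [Matrix.mul_diagonal]
    simp
  · intro u _ hu
    rw [Matrix.mul_diagonal]
    simp [hu]
  · intro hw
    exact absurd (Finset.mem_univ w) hw

theorem GO_reg (D : Fl ι) (hH : RealSym D.H0) (I : Set ℝ) (hI : ∀ r ∈ I, 0 < D.et r) :
    D.GO.Reg D.lam I := by
  have hc := rg_cont D hH hI
  refine ⟨hc, ?_, ?_, ?_, ?_, ?_, ?_, ?_, ?_⟩
  · intro x y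
    have h1 : (fun p : ℝ × (ι → ℝ) => D.GO.fr p.1 p.2 x y) = fun p : ℝ × (ι → ℝ) =>
        (-(2 * (p.1 : ℂ) * (D.s : ℂ) * D.g0)) *
          ∑ w, D.G p.1 p.2 x w * D.G p.1 p.2 w y := by
      funext p
      simp only [Fl.GO, Matrix.smul_apply, smul_eq_mul, Matrix.mul_apply]
    rw [h1]
    refine ContinuousOn.mul ?_ ?_
    · exact Continuous.continuousOn (by fun_prop)
    · exact continuousOn_finsetSum _ fun w _ => (hc x w).mul (hc w y)
  · intro w x y
    exact ((hc x w).mul (hc w y)).neg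
  · intro w x y
    exact continuousOn_const.mul ((hc w w).mul ((hc x w).mul (hc w y)))
  · intro w x y
    exact (continuousOn_const.mul (((hc w w).pow 2).mul ((hc x w).mul (hc w y)))).neg
  · intro r hr h w t x y
    exact rg_d1 D hH (hI r hr) h w t x y
  · intro r hr h w t x y
    have h1 := rg_d1 D hH (hI r hr) h w t
    have h2 := ((h1 x w).mul (h1 w y)).neg
    refine h2.congr_deriv ?_
    change _ = 2 * (_ * (_ * _))
    ring
  · intro r hr h w t x y
    have h1 := rg_d1 D hH (hI r hr) h w t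
    have h2 := ((h1 w w).mul ((h1 x w).mul (h1 w y))).const_mul (2 : ℂ)
    refine h2.congr_deriv ?_
    change _ = -(6 * (_ ^ 2 * (_ * _)))
    simp only [Pi.mul_apply]
    ring
  · intro r hr v x y
    exact (rgDat D).path_G (ι := ι) (P := PEmpty.{1}) hH (hI r hr) v x y

end Pool.Agent.APS
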