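import Pool.Agent.APS.PowEst
import Pool.Agent.APS.RegG
import Pool.Agent.APS.CfgB
import Pool.Agent.APS.Defs3

/-! # APS ESTO: the component `O`: `∑_xy |G_xy - (G_0(0))_xy|^(2p)`, tolerance `1`.

`offO D`: the observable `G_xy - (G_0(0))_xy` indexed by pairs.  `offO_reg`: from `GO_reg`.
`estO`: apply `powEst` with `A0 = 1`, `A2 = 1/(4p²)`, `A3 = 1`.
* `h1`: `fr + s r ∑ f2 = 2 r s (G gg G)_xy` (as in DRIFTID: `-2 r s g0 G² + 2 s r ∑_w G_ww G_xw G_wy`),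
  `|(G gg G)_xy| ≤ a C1/et` (`gcg_entry`), so `pw1 ≤ 2 r s 2p ∑ |f|^(2p-1) a C1/et`, `young_sum` (`e = 1`)
  with `y = 2 p a C1`.
* `h2`: `∑_w |f1|² = ∑_w |G_xw|² |G_wy|² ≤ (∑_w |G_xw|⁴)^(1/2) (∑_w |G_wy|⁴)^(1/2) ≤ tau/et`,
  `|f2|² ≤ 4 C1² |f1|²`, so the sum is `≤ 5 C1² tau/et`; `young_sum` with `e = 1/(4p²)`:
  `4 p² B2 = card · (4p²)^p (5 C1² tau)^p`.
* `h3`: `|∑_w λ e_w f3| ≤ 6 λ C1² ∑_w |G_xw||G_wy| ≤ 6 λ C1³/et`, `young_sum` with `y = 12 p C1³ λ`.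
`card (ι × ι) = N²`; `(2paC1)^(2p) + (12pC1³λ)^(2p) ≤ (12 p C1³ (a + λ))^(2p)`.
-/

open Matrix Finset

noncomputable section

namespace Pool.Agent.APS

open Pool.Agent.Kin

variable {ι : Type} [Fintype ι] [DecidableEq ι] {D : Fl ι} {C1 a tau r : ℝ} {h : ι → ℝ}

/-- the observable `G_xy - (G_0(0))_xy` -/
def offO (D : Fl ι) : VObs ι (ι × ι) where
  f r h p := D.GO.f r h p.1 p.2 - D.G 0 0 p.1 p.2
  fr r h p := D.GO.fr r h p.1 p.2
  f1 w r h p := D.GO.f1 w r h p.1 p.2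
  f2 w r h p := D.GO.f2 w r h p.1 p.2
  f3 w r h p := D.GO.f3 w r h p.1 p.2

/-- source term of the component `O` -/
def BO (N C1 lam a tau : ℝ) (p : ℕ) : ℝ :=
  N ^ 2 * ((12 * p * C1 ^ 3 * (a + lam)) ^ (2 * p) + (20 * p ^ 2 * C1 ^ 2 * tau) ^ p)

theorem offO_reg (D : Fl ι) (hH : RealSym D.H0) (I : Set ℝ) (hI : ∀ r ∈ I, 0 < D.et r) :
    (offO D).Reg D.lam I := by
  have h := GO_reg D hH I hI
  exact
    { c0 := fun x => (h.c0 x.1 x.2).sub continuousOn_const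
      cr := fun x => h.cr x.1 x.2
      c1 := fun w x => h.c1 w x.1 x.2
      c2 := fun w x => h.c2 w x.1 x.2
      c3 := fun w x => h.c3 w x.1 x.2
      d1 := fun r hr g w t x => (h.d1 r hr g w t x.1 x.2).sub_const _
      d2 := fun r hr g w t x => h.d2 r hr g w t x.1 x.2
      d3 := fun r hr g w t x => h.d3 r hr g w t x.1 x.2
      dr := fun r hr v x => (h.dr r hr v x.1 x.2).sub_const _ }

private theorem eo_mono {κ : Type} [Fintype κ] {c : Comp κ} {lam s et r A B B' : ℝ} {h q : κ → ℝ}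
    (hs : 0 ≤ s) (het : 0 < et) (hr : 0 ≤ r) (hB : B ≤ B')
    (hE : c.Est lam s et r A B h q) : c.Est lam s et r A B' h q := by
  have e1 : A * c.Ga r h + B ≤ A * c.Ga r h + B' := by linarith
  have e2 : 0 ≤ 2 * r * s / et := by positivity
  have e3 : 0 ≤ 1 / et := by positivity
  exact ⟨hE.dr.trans (mul_le_mul_of_nonneg_left e1 e2), hE.q0, hE.qu, hE.g1, hE.d1,
    hE.qs.trans (mul_le_mul_of_nonneg_left e1 e3),
    fun e he => (hE.dd e he).trans (mul_le_mul_of_nonneg_left e1 e3)⟩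

private theorem eo_pw1 {κ : Type} [Fintype κ] (p : ℕ) (hp : 2 ≤ p) (v k : κ → ℂ) :
    pw1 p v k ≤ 2 * p * ∑ x, ‖v x‖ ^ (2 * p - 1) * ‖k x‖ := by
  unfold pw1
  rw [mul_sum]
  refine sum_le_sum fun x _ => ?_
  have h1 : (star (v x) * k x).re ≤ ‖v x‖ * ‖k x‖ := by
    refine (Complex.re_le_norm _).trans ?_
    rw [norm_mul, norm_star]
  have h2 : ‖v x‖ ^ (2 * p - 1) = ‖v x‖ ^ (2 * p - 2) * ‖v x‖ := by
    rw [← pow_succ]
    congr 1
    omega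
  rw [h2]
  calc 2 * p * ‖v x‖ ^ (2 * p - 2) * (star (v x) * k x).re
      ≤ 2 * p * ‖v x‖ ^ (2 * p - 2) * (‖v x‖ * ‖k x‖) := by gcongr
    _ = 2 * p * (‖v x‖ ^ (2 * p - 2) * ‖v x‖ * ‖k x‖) := by ring

/-- the drift of `G`: `fr + s r ∑ f2 = 2 r s G gg G` -/
private theorem eo_drift (D : Fl ι) (r : ℝ) (h : ι → ℝ) (x : ι × ι) :
    (offO D).fr r h x + ((D.s * r : ℝ) : ℂ) * ∑ w, (offO D).f2 w r h x =
      ((2 * r * D.s : ℝ) : ℂ) * D.gcg (D.gv r h) r h x.1 x.2 := by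
  have e0 : D.gcg (D.gv r h) r h x.1 x.2 =
      ∑ w, D.G r h x.1 w * D.gv r h w * D.G r h w x.2 := by
    unfold Fl.gcg
    rw [Matrix.mul_apply]
    refine Finset.sum_congr rfl fun w _ => ?_
    rw [Matrix.mul_diagonal]
  simp only [offO, Fl.GO, Matrix.smul_apply, smul_eq_mul, Matrix.mul_apply]
  rw [e0, Finset.mul_sum, Finset.mul_sum, Finset.mul_sum, ← Finset.sum_add_distrib]
  refine Finset.sum_congr rfl fun w _ => ?_
  unfold Fl.gv
  push_cast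
  ring

/-- products of two rows, second powers -/
private theorem eo_row2 (hc : D.Cfg C1 a tau r h) (x y : ι) :
    ∑ w, ‖D.G r h x w‖ * ‖D.G r h w y‖ ≤ C1 / D.et r := by
  calc ∑ w, ‖D.G r h x w‖ * ‖D.G r h w y‖ ≤
        ∑ w, ((‖D.G r h x w‖ ^ 2 + ‖D.G r h y w‖ ^ 2) / 2) := by
        refine Finset.sum_le_sum fun w _ => ?_
        rw [hc.symm w y]
        nlinarith [sq_nonneg (‖D.G r h x w‖ - ‖D.G r h y w‖)]
    _ = (∑ w, ‖D.G r h x w‖ ^ 2 + ∑ w, ‖D.G r h y w‖ ^ 2) / 2 := by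
        rw [← Finset.sum_div, Finset.sum_add_distrib]
    _ ≤ C1 / D.et r := by
        have h1 := hc.row x
        have h2 := hc.row y
        linarith

/-- products of two rows, fourth powers -/
private theorem eo_row4 (hc : D.Cfg C1 a tau r h) (x y : ι) :
    ∑ w, ‖D.G r h x w‖ ^ 2 * ‖D.G r h w y‖ ^ 2 ≤ tau / D.et r := by
  calc ∑ w, ‖D.G r h x w‖ ^ 2 * ‖D.G r h w y‖ ^ 2 ≤
        ∑ w, ((‖D.G r h x w‖ ^ 4 + ‖D.G r h y w‖ ^ 4) / 2) := by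
        refine Finset.sum_le_sum fun w _ => ?_
        rw [hc.symm w y]
        nlinarith [sq_nonneg (‖D.G r h x w‖ ^ 2 - ‖D.G r h y w‖ ^ 2)]
    _ = (∑ w, ‖D.G r h x w‖ ^ 4 + ∑ w, ‖D.G r h y w‖ ^ 4) / 2 := by
        rw [← Finset.sum_div, Finset.sum_add_distrib]
    _ ≤ tau / D.et r := by
        have h1 := hc.T4 x
        have h2 := hc.T4 y
        linarith

theorem estO (hc : D.Cfg C1 a tau r h) (p : ℕ) (hp : 2 ≤ p) :
    ∃ q : ι → ℝ, (powComp p (offO D)).Est D.lam D.s (D.et r) r 3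
      (BO (Fintype.card ι) C1 D.lam a tau p) h q := by
  have het := hc.et0
  have hC1 := hc.one_le
  have hC0 : 0 < C1 := by linarith
  have ha0 := hc.a0
  have hs0 := hc.s0
  have hl0 := hc.lam0
  have ht0 := hc.tau0
  have hr0 := hc.r0
  have hp0 : (0 : ℝ) < p := by exact_mod_cast (by omega : 0 < p)
  have hp1 : 1 ≤ p := by omega
  set O := offO D with hO
  set f : ι × ι → ℂ := O.f r h with hf
  set N : ℝ := (Fintype.card ι : ℝ) with hN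
  have hN0 : 0 ≤ N := Nat.cast_nonneg _
  have hcard : (Fintype.card (ι × ι) : ℝ) = N ^ 2 := by
    rw [Fintype.card_prod, Nat.cast_mul, sq]
  set Y1 : ℝ := 2 * p * a * C1 with hY1
  set Y2 : ℝ := 5 * C1 ^ 2 * tau with hY2
  set Y3 : ℝ := 12 * p * C1 ^ 3 * D.lam with hY3
  have hY10 : 0 ≤ Y1 := by positivity
  have hY20 : 0 ≤ Y2 := by positivity
  have hY30 : 0 ≤ Y3 := by positivity
  have e4 : 2 * p - 1 + 1 = 2 * p := by omega
  -- first estimate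
  have h1 : pw1 p (O.f r h) (fun x => O.fr r h x + ((D.s * r : ℝ) : ℂ) * ∑ w, O.f2 w r h x) ≤
      2 * r * D.s / D.et r * (1 * pw p (O.f r h) + N ^ 2 * ((1 / 1) ^ (2 * p - 1) * Y1 ^ (2 * p))) := by
    have hd : (fun x => O.fr r h x + ((D.s * r : ℝ) : ℂ) * ∑ w, O.f2 w r h x) =
        fun x => ((2 * r * D.s : ℝ) : ℂ) * D.gcg (D.gv r h) r h x.1 x.2 := by
      funext x
      exact eo_drift D r h x
    rw [hd]
    refine (eo_pw1 p hp _ _).trans ?_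
    have hx : ∀ x : ι × ι, ‖((2 * r * D.s : ℝ) : ℂ) * D.gcg (D.gv r h) r h x.1 x.2‖ ≤
        2 * r * D.s * (a * C1 / D.et r) := by
      intro x
      rw [norm_mul, Complex.norm_real, Real.norm_eq_abs, abs_of_nonneg (by positivity)]
      refine mul_le_mul_of_nonneg_left ?_ (by positivity)
      exact hc.gcg_entry ha0.le (fun w => hc.g w) x.1 x.2
    calc 2 * p * ∑ x, ‖f x‖ ^ (2 * p - 1) *
          ‖((2 * r * D.s : ℝ) : ℂ) * D.gcg (D.gv r h) r h x.1 x.2‖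
        ≤ 2 * p * ∑ x, ‖f x‖ ^ (2 * p - 1) * (2 * r * D.s * (a * C1 / D.et r)) := by
          gcongr with x
          exact hx x
      _ = 2 * r * D.s / D.et r * ((∑ x, ‖f x‖ ^ (2 * p - 1)) * Y1) := by
          rw [← sum_mul, hY1]
          ring
      _ ≤ 2 * r * D.s / D.et r *
          (1 * pw p (O.f r h) + N ^ 2 * ((1 / 1) ^ (2 * p - 1) * Y1 ^ (2 * p))) := by
          have hy1 := young_sum (2 * p - 1) (fun x => ‖f x‖) (y := Y1) (e := 1)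
            (fun x => norm_nonneg _) hY10 one_pos
          rw [e4, hcard] at hy1
          gcongr
          exact hy1
  -- second estimate
  have h2 : ∑ w, ∑ x, ‖O.f r h x‖ ^ (2 * p - 2) * (‖O.f1 w r h x‖ ^ 2 + ‖O.f2 w r h x‖ ^ 2) ≤
      1 / D.et r * (1 / (4 * p ^ 2) * pw p (O.f r h) +
        N ^ 2 * ((1 / (1 / (4 * p ^ 2))) ^ (p - 1) * Y2 ^ p)) := by
    rw [sum_comm]
    have hx : ∀ x, ∑ w, ‖O.f r h x‖ ^ (2 * p - 2) * (‖O.f1 w r h x‖ ^ 2 + ‖O.f2 w r h x‖ ^ 2) ≤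
        1 / D.et r * ((‖f x‖ ^ 2) ^ (p - 1) * Y2) := by
      intro x
      rw [← mul_sum]
      have e1 : ∑ w, (‖O.f1 w r h x‖ ^ 2 + ‖O.f2 w r h x‖ ^ 2) ≤
          ∑ w, 5 * C1 ^ 2 * (‖D.G r h x.1 w‖ ^ 2 * ‖D.G r h w x.2‖ ^ 2) := by
        refine sum_le_sum fun w _ => ?_
        have f1 : ‖O.f1 w r h x‖ = ‖D.G r h x.1 w‖ * ‖D.G r h w x.2‖ := by
          show ‖-(D.G r h x.1 w * D.G r h w x.2)‖ = _
          rw [norm_neg, norm_mul]
        have f2 : ‖O.f2 w r h x‖ = 2 * (‖D.G r h w w‖ * (‖D.G r h x.1 w‖ * ‖D.G r h w x.2‖)) := by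
          show ‖2 * (D.G r h w w * (D.G r h x.1 w * D.G r h w x.2))‖ = _
          rw [norm_mul, norm_mul, norm_mul]
          norm_num
        rw [f1, f2]
        have f3 := hc.diag w
        have f4 : ‖D.G r h w w‖ ^ 2 ≤ C1 ^ 2 := by gcongr
        have f5 : (1 : ℝ) ≤ C1 ^ 2 := one_le_pow₀ hC1
        calc (‖D.G r h x.1 w‖ * ‖D.G r h w x.2‖) ^ 2 +
              (2 * (‖D.G r h w w‖ * (‖D.G r h x.1 w‖ * ‖D.G r h w x.2‖))) ^ 2
            = (1 + 4 * ‖D.G r h w w‖ ^ 2) * (‖D.G r h x.1 w‖ ^ 2 * ‖D.G r h w x.2‖ ^ 2) := by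
              ring
          _ ≤ 5 * C1 ^ 2 * (‖D.G r h x.1 w‖ ^ 2 * ‖D.G r h w x.2‖ ^ 2) := by
              gcongr
              linarith
      have e2 : ∑ w, 5 * C1 ^ 2 * (‖D.G r h x.1 w‖ ^ 2 * ‖D.G r h w x.2‖ ^ 2) ≤
          1 / D.et r * Y2 := by
        rw [← mul_sum]
        calc 5 * C1 ^ 2 * ∑ w, ‖D.G r h x.1 w‖ ^ 2 * ‖D.G r h w x.2‖ ^ 2
            ≤ 5 * C1 ^ 2 * (tau / D.et r) := by
              gcongr
              exact eo_row4 hc x.1 x.2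
          _ = 1 / D.et r * Y2 := by
              rw [hY2]
              ring
      have e3 : ‖O.f r h x‖ ^ (2 * p - 2) = (‖f x‖ ^ 2) ^ (p - 1) := by
        rw [← pow_mul]
        congr 1
        omega
      rw [e3]
      calc (‖f x‖ ^ 2) ^ (p - 1) * ∑ w, (‖O.f1 w r h x‖ ^ 2 + ‖O.f2 w r h x‖ ^ 2)
          ≤ (‖f x‖ ^ 2) ^ (p - 1) * (1 / D.et r * Y2) := by
            gcongr
            exact e1.trans e2
        _ = 1 / D.et r * ((‖f x‖ ^ 2) ^ (p - 1) * Y2) := by ring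
    refine (sum_le_sum fun x _ => hx x).trans ?_
    rw [← mul_sum, ← sum_mul]
    have hy1 := young_sum (p - 1) (fun x => ‖f x‖ ^ 2) (y := Y2) (e := 1 / (4 * p ^ 2))
      (fun x => by positivity) hY20 (by positivity)
    have e6 : p - 1 + 1 = p := by omega
    rw [e6, hcard] at hy1
    have e5 : ∑ x, (‖f x‖ ^ 2) ^ p = pw p f := by
      unfold pw
      refine sum_congr rfl fun x _ => ?_
      rw [← pow_mul]
    rw [e5] at hy1
    gcongr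
  -- third estimate
  have h3 : ∀ e' : ι → ℝ, (∀ w, |e' w| ≤ 1) →
      pw1 p (O.f r h) (fun x => ∑ w, ((D.lam * e' w : ℝ) : ℂ) * O.f3 w r h x) ≤
      1 / D.et r * (1 * pw p (O.f r h) + N ^ 2 * ((1 / 1) ^ (2 * p - 1) * Y3 ^ (2 * p))) := by
    intro e' he'
    refine (eo_pw1 p hp _ _).trans ?_
    have hx : ∀ x, ‖∑ w, ((D.lam * e' w : ℝ) : ℂ) * O.f3 w r h x‖ ≤
        6 * C1 ^ 3 * D.lam * (1 / D.et r) := by
      intro x
      refine (norm_sum_le _ _).trans ?_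
      have e1 : ∑ w, ‖((D.lam * e' w : ℝ) : ℂ) * O.f3 w r h x‖ ≤
          ∑ w, 6 * C1 ^ 2 * D.lam * (‖D.G r h x.1 w‖ * ‖D.G r h w x.2‖) := by
        refine sum_le_sum fun w _ => ?_
        have f1 : ‖O.f3 w r h x‖ =
            6 * (‖D.G r h w w‖ ^ 2 * (‖D.G r h x.1 w‖ * ‖D.G r h w x.2‖)) := by
          show ‖-(6 * (D.G r h w w ^ 2 * (D.G r h x.1 w * D.G r h w x.2)))‖ = _
          rw [norm_neg, norm_mul, norm_mul, norm_mul, norm_pow]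
          norm_num
        rw [norm_mul, f1, Complex.norm_real, Real.norm_eq_abs, abs_mul, abs_of_pos hl0]
        have f3 := hc.diag w
        have f4 : ‖D.G r h w w‖ ^ 2 ≤ C1 ^ 2 := by gcongr
        calc D.lam * |e' w| * (6 * (‖D.G r h w w‖ ^ 2 * (‖D.G r h x.1 w‖ * ‖D.G r h w x.2‖)))
            ≤ D.lam * 1 * (6 * (C1 ^ 2 * (‖D.G r h x.1 w‖ * ‖D.G r h w x.2‖))) := by
              gcongr
              exact he' w
          _ = 6 * C1 ^ 2 * D.lam * (‖D.G r h x.1 w‖ * ‖D.G r h w x.2‖) := by ring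
      refine e1.trans ?_
      rw [← mul_sum]
      calc 6 * C1 ^ 2 * D.lam * ∑ w, ‖D.G r h x.1 w‖ * ‖D.G r h w x.2‖
          ≤ 6 * C1 ^ 2 * D.lam * (C1 / D.et r) := by
            gcongr
            exact eo_row2 hc x.1 x.2
        _ = 6 * C1 ^ 3 * D.lam * (1 / D.et r) := by ring
    calc 2 * p * ∑ x, ‖f x‖ ^ (2 * p - 1) * ‖∑ w, ((D.lam * e' w : ℝ) : ℂ) * O.f3 w r h x‖
        ≤ 2 * p * ∑ x, ‖f x‖ ^ (2 * p - 1) * (6 * C1 ^ 3 * D.lam * (1 / D.et r)) := by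
          gcongr with x
          exact hx x
      _ = 1 / D.et r * ((∑ x, ‖f x‖ ^ (2 * p - 1)) * Y3) := by
          rw [← sum_mul, hY3]
          ring
      _ ≤ 1 / D.et r * (1 * pw p (O.f r h) + N ^ 2 * ((1 / 1) ^ (2 * p - 1) * Y3 ^ (2 * p))) := by
          have hy1 := young_sum (2 * p - 1) (fun x => ‖f x‖) (y := Y3) (e := 1)
            (fun x => norm_nonneg _) hY30 one_pos
          rw [e4, hcard] at hy1
          gcongr
          exact hy1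
  obtain ⟨q, hq⟩ := powEst p hp O hr0 hs0 het hl0 hc.lam1 (A0 := 1)
    (A2 := 1 / (4 * p ^ 2)) (A3 := 1)
    (B1 := N ^ 2 * ((1 / 1) ^ (2 * p - 1) * Y1 ^ (2 * p)))
    (B2 := N ^ 2 * ((1 / (1 / (4 * p ^ 2))) ^ (p - 1) * Y2 ^ p))
    (B3 := N ^ 2 * ((1 / 1) ^ (2 * p - 1) * Y3 ^ (2 * p)))
    zero_le_one (by positivity) zero_le_one (by positivity) (by positivity) (by positivity)
    h1 h2 h3
  have eA : (1 : ℝ) + 4 * p ^ 2 * (1 / (4 * p ^ 2)) + 1 = 3 := by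
    field_simp
    ring
  rw [eA] at hq
  refine ⟨q, eo_mono hs0.le het hr0 ?_ hq⟩
  have eB2 : 4 * p ^ 2 * (N ^ 2 * ((1 / (1 / (4 * p ^ 2))) ^ (p - 1) * Y2 ^ p)) =
      N ^ 2 * (20 * p ^ 2 * C1 ^ 2 * tau) ^ p := by
    have g1 : 1 / (1 / (4 * (p : ℝ) ^ 2)) = 4 * p ^ 2 := by field_simp
    have g2 : (20 * p ^ 2 * C1 ^ 2 * tau) = (4 * (p : ℝ) ^ 2) * Y2 := by
      rw [hY2]
      ring
    have g3 : (4 * (p : ℝ) ^ 2) ^ p = (4 * (p : ℝ) ^ 2) * (4 * (p : ℝ) ^ 2) ^ (p - 1) := by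
      rw [← pow_succ']
      congr 1
      omega
    rw [g1, g2, mul_pow (4 * (p : ℝ) ^ 2) Y2, g3]
    ring
  rw [eB2]
  unfold BO
  have g1 : Y1 ≤ 12 * p * C1 ^ 3 * a := by
    have k1 : C1 ≤ C1 ^ 3 := by
      calc C1 = C1 ^ 1 := (pow_one _).symm
        _ ≤ C1 ^ 3 := pow_le_pow_right₀ hC1 (by norm_num)
    calc Y1 = 2 * (p * a * C1) := by rw [hY1]; ring
      _ ≤ 12 * (p * a * C1 ^ 3) := by
        have k2 : p * a * C1 ≤ p * a * C1 ^ 3 := mul_le_mul_of_nonneg_left k1 (by positivity)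
        have k3 : 0 ≤ p * a * C1 ^ 3 := by positivity
        linarith
      _ = 12 * p * C1 ^ 3 * a := by ring
  have g2 : Y1 ^ (2 * p) + Y3 ^ (2 * p) ≤ (12 * p * C1 ^ 3 * (a + D.lam)) ^ (2 * p) := by
    have k1 : Y1 ^ (2 * p) ≤ (12 * p * C1 ^ 3 * a) ^ (2 * p) :=
      pow_le_pow_left₀ hY10 g1 _
    have k2 : (12 * p * C1 ^ 3 * a) ^ (2 * p) + Y3 ^ (2 * p) ≤
        (12 * p * C1 ^ 3 * a + Y3) ^ (2 * p) :=
      pow_add_pow_le (by positivity) hY30 (by omega)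
    have k3 : 12 * p * C1 ^ 3 * a + Y3 = 12 * p * C1 ^ 3 * (a + D.lam) := by
      rw [hY3]
      ring
    rw [k3] at k2
    linarith
  have g3 := mul_le_mul_of_nonneg_left g2 (sq_nonneg N)
  rw [div_one, one_pow, one_mul, one_mul]
  linarith

end Pool.Agent.APS
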