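import Pool.Agent.APS.CfgB

/-! # APS ROWT: row bounds for `T4_x = ∑_y |G_xy|⁴` and `I_x = ∑_yw S_xy S_yw S_wx`.

`S = S_r(h)`, real symmetric nonnegative; `S_x` its row `x` as a vector; `I_x = ⟨S_x, S S_x⟩`,
`T4_x = ‖S_x‖²`, `‖S_x‖_1 ≤ C1/et`.
* `I_le`: `I_x = ⟨S_x, Pi S S_x⟩ + ⟨(1-Pi) S_x, S Pi S_x⟩ + ⟨(1-Pi) S_x, S (1-Pi) S_x⟩` (`Pi` hermitian).
  First `≤ (bs/et) T4_x`; second: `‖S Pi‖ = ‖(Pi S)ᴴ‖ ≤ bs/et`, `‖(1-Pi) S_x‖ ≤ ‖S_x‖`, so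
  `≤ (bs/et) T4_x`; third `≤ (C1/et) ‖(1-Pi) S_x‖² ≤ (C1/et) epL (C1/et)²`.
* `f1_row`: `|S.f1_w,xy|² ≤ 4 S_xw S_wy S_xy`.
* `f2_row`: `|S.f2| ≤ 4 C1 |G_xw G_wy G_xy| + 2 S_xw S_wy`, so
  `∑_wy |S.f2|² ≤ 32 C1² I_x + 8 ∑_w S_xw² ∑_y S_wy² ≤ 32 C1² I_x + 8 (tau/et) T4_x`.
* `cub`: `∑_y |G_xy|³ |B_xy| ≤ T4_x^(3/4) (∑_y |B_xy|⁴)^(1/4)`, `B = gcg c`,
  `∑_y |B_xy|⁴ ≤ (b C1/et)² b² C1/et³ = b⁴ C1³/et⁵`: so `≤ b C1 T4_x^(3/4) et^(-5/4)`.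
  To avoid real powers it is stated in the form: if `X ≥ 0`, `X⁴ = et T4_x / tau` then
  `(et/tau) ∑_y |G_xy|³ |B_xy| ≤ (1/et) (b C1/tq) X³` with `tq⁴ = tau`.
  (Check: `(et/tau) (tau X⁴/et)^(3/4) b C1 et^(-5/4) = b C1 tau^(-1/4) X³ et^(1-3/4-5/4)`.)
-/

open Matrix Finset

noncomputable section

namespace Pool.Agent.APS

open Pool.Agent.Kin

variable {ι : Type} [Fintype ι] [DecidableEq ι] {D : Fl ι} {C1 a tau r : ℝ} {h : ι → ℝ}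

/-- `T4_x` -/
def T4 (D : Fl ι) (r : ℝ) (h : ι → ℝ) (x : ι) : ℝ := ∑ y, ‖D.G r h x y‖ ^ 4

/-- `I_x` -/
def I3 (D : Fl ι) (r : ℝ) (h : ι → ℝ) (x : ι) : ℝ :=
  ∑ y, ∑ w, ‖D.G r h x y‖ ^ 2 * (‖D.G r h x w‖ ^ 2 * ‖D.G r h w y‖ ^ 2)

omit [DecidableEq ι] in
private theorem dot_self (u : ι → ℂ) : star u ⬝ᵥ u = ((∑ x, ‖u x‖ ^ 2 : ℝ) : ℂ) := by
  rw [dotProduct]
  push_cast
  refine Finset.sum_congr rfl fun y _ => ?_
  rw [Pi.star_apply, ← Complex.ofReal_pow, ← Complex.normSq_eq_norm_sq,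
    Complex.normSq_eq_conj_mul_self]
  rfl

omit [DecidableEq ι] in
private theorem herm_move {Q : Matrix ι ι ℂ} (hQ : Qᴴ = Q) (u v : ι → ℂ) :
    star u ⬝ᵥ (Q *ᵥ v) = star (Q *ᵥ u) ⬝ᵥ v := by
  rw [star_mulVec, hQ, dotProduct_mulVec]

private theorem proj_le {Pi : Matrix ι ι ℂ} {epL : ℝ} (hP : LowMode Pi epL) (u : ι → ℂ) :
    ∑ x, ‖((1 - Pi) *ᵥ u) x‖ ^ 2 ≤ ∑ x, ‖u x‖ ^ 2 := by
  have hQ : (1 - Pi)ᴴ = 1 - Pi := by rw [conjTranspose_sub, conjTranspose_one, hP.herm]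
  have hQ2 : (1 - Pi) * (1 - Pi) = 1 - Pi := by
    rw [mul_sub, mul_one, sub_mul, one_mul, hP.idem, sub_self, sub_zero]
  have h1 : star ((1 - Pi) *ᵥ u) ⬝ᵥ ((1 - Pi) *ᵥ u) = star u ⬝ᵥ ((1 - Pi) *ᵥ u) := by
    rw [← herm_move hQ, mulVec_mulVec, hQ2]
  have h2 : star (Pi *ᵥ u) ⬝ᵥ (Pi *ᵥ u) = star u ⬝ᵥ (Pi *ᵥ u) := by
    rw [← herm_move hP.herm, mulVec_mulVec, hP.idem]
  have h3 : star u ⬝ᵥ u = star u ⬝ᵥ ((1 - Pi) *ᵥ u) + star u ⬝ᵥ (Pi *ᵥ u) := by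
    rw [← dotProduct_add, ← add_mulVec, sub_add_cancel, one_mulVec]
  rw [← h1, ← h2, dot_self, dot_self, dot_self] at h3
  have h4 : ∑ x, ‖u x‖ ^ 2 = ∑ x, ‖((1 - Pi) *ᵥ u) x‖ ^ 2 + ∑ x, ‖(Pi *ᵥ u) x‖ ^ 2 := by
    exact_mod_cast h3
  rw [h4]
  have : 0 ≤ ∑ x, ‖(Pi *ᵥ u) x‖ ^ 2 := sum_nonneg fun x _ => by positivity
  linarith

theorem I_le (hc : D.Cfg C1 a tau r h) {Pi : Matrix ι ι ℂ} {epL bs : ℝ} (hP : LowMode Pi epL)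
    (hbs : 0 ≤ bs) (hS : OpLe (Pi * D.SO.f r h) (bs / D.et r)) (x : ι) :
    I3 D r h x ≤ 2 * bs / D.et r * T4 D r h x + epL * C1 ^ 3 / D.et r ^ 3 := by
  have het := hc.et0
  have hC := hc.one_le
  have hC0 : 0 ≤ C1 := by linarith
  set S := D.SO.f r h with hSd
  have hSx : ∀ y z, S y z = ((‖D.G r h y z‖ ^ 2 : ℝ) : ℂ) := fun y z => rfl
  have hSH : Sᴴ = S := by
    ext y z
    rw [conjTranspose_apply, hSx, hSx, Complex.star_def, Complex.conj_ofReal, hc.symm y z]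
  have hQ : (1 - Pi)ᴴ = 1 - Pi := by rw [conjTranspose_sub, conjTranspose_one, hP.herm]
  set s : ι → ℂ := fun y => ((‖D.G r h x y‖ ^ 2 : ℝ) : ℂ) with hs
  have hsn : ∀ y, ‖s y‖ = ‖D.G r h x y‖ ^ 2 := fun y => by
    simp only [hs]
    rw [Complex.norm_real, Real.norm_eq_abs, abs_of_nonneg (by positivity)]
  have hs2 : ∑ y, ‖s y‖ ^ 2 = T4 D r h x := by
    unfold T4
    refine sum_congr rfl fun y _ => ?_
    rw [hsn, ← pow_mul]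
  have hs1 : ∑ y, ‖s y‖ ≤ C1 / D.et r := by
    simp only [hsn]
    exact hc.row x
  have hT0 : 0 ≤ T4 D r h x := sum_nonneg fun y _ => by positivity
  have hI : ((I3 D r h x : ℝ) : ℂ) = star s ⬝ᵥ (S *ᵥ s) := by
    unfold I3
    rw [dotProduct]
    push_cast
    refine sum_congr rfl fun y _ => ?_
    rw [mulVec, dotProduct, mul_sum]
    refine sum_congr rfl fun w _ => ?_
    have : star s y = ((‖D.G r h x y‖ ^ 2 : ℝ) : ℂ) := by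
      show star (s y) = _
      simp only [hs]
      rw [Complex.star_def, Complex.conj_ofReal]
    rw [this, hSx, hc.symm w y]
    simp only [hs]
    push_cast
    ring
  have hdec : star s ⬝ᵥ (S *ᵥ s) = star s ⬝ᵥ ((Pi * S) *ᵥ s) +
      star ((1 - Pi) *ᵥ s) ⬝ᵥ ((S * Pi) *ᵥ s) +
      star ((1 - Pi) *ᵥ s) ⬝ᵥ (S *ᵥ ((1 - Pi) *ᵥ s)) := by
    rw [add_assoc, ← dotProduct_add, mulVec_mulVec, ← add_mulVec, ← mul_add,
      add_sub_cancel, mul_one, ← herm_move hQ, ← dotProduct_add, mulVec_mulVec, ← add_mulVec,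
      ← add_mul, add_sub_cancel, one_mul]
  have hSP : OpLe (S * Pi) (bs / D.et r) := by
    have := opLe_ct (by positivity) hS
    rw [conjTranspose_mul, hSH, hP.herm] at this
    exact this
  have hq := proj_le hP s
  rw [hs2] at hq
  have t1 : ‖star s ⬝ᵥ ((Pi * S) *ᵥ s)‖ ≤ bs / D.et r * T4 D r h x := by
    have := opLe_form (by positivity) hS s s
    rw [hs2, mul_assoc, Real.mul_self_sqrt hT0] at this
    exact this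
  have t2 : ‖star ((1 - Pi) *ᵥ s) ⬝ᵥ ((S * Pi) *ᵥ s)‖ ≤ bs / D.et r * T4 D r h x := by
    have := opLe_form (by positivity) hSP ((1 - Pi) *ᵥ s) s
    rw [hs2, mul_assoc] at this
    refine this.trans ?_
    have h5 : √(∑ x, ‖((1 - Pi) *ᵥ s) x‖ ^ 2) * √(T4 D r h x) ≤ T4 D r h x := by
      calc √(∑ x, ‖((1 - Pi) *ᵥ s) x‖ ^ 2) * √(T4 D r h x)
          ≤ √(T4 D r h x) * √(T4 D r h x) := by
            gcongr
        _ = _ := Real.mul_self_sqrt hT0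
    gcongr
  have t3 : ‖star ((1 - Pi) *ᵥ s) ⬝ᵥ (S *ᵥ ((1 - Pi) *ᵥ s))‖ ≤
      epL * C1 ^ 3 / D.et r ^ 3 := by
    have := opLe_form (by positivity) hc.S_op ((1 - Pi) *ᵥ s) ((1 - Pi) *ᵥ s)
    rw [mul_assoc, Real.mul_self_sqrt (sum_nonneg fun y _ => by positivity)] at this
    refine this.trans ?_
    have h6 := hP.low s
    have h7 : epL * (∑ x, ‖s x‖) ^ 2 ≤ epL * (C1 / D.et r) ^ 2 := by
      have := hP.ep0
      have h8 : 0 ≤ ∑ x, ‖s x‖ := sum_nonneg fun y _ => norm_nonneg _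
      gcongr
    calc C1 / D.et r * ∑ x, ‖((1 - Pi) *ᵥ s) x‖ ^ 2
        ≤ C1 / D.et r * (epL * (C1 / D.et r) ^ 2) := by
          gcongr
          exact h6.trans h7
      _ = _ := by
          field_simp
  have hfin : I3 D r h x = ‖star s ⬝ᵥ (S *ᵥ s)‖ := by
    rw [← hI, Complex.norm_real, Real.norm_eq_abs, abs_of_nonneg]
    exact sum_nonneg fun y _ => sum_nonneg fun w _ => by positivity
  rw [hfin, hdec]
  refine (norm_add₃_le).trans ?_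
  calc _ ≤ bs / D.et r * T4 D r h x + bs / D.et r * T4 D r h x +
        epL * C1 ^ 3 / D.et r ^ 3 := by
        exact add_le_add (add_le_add t1 t2) t3
    _ = _ := by ring

theorem f1_row (hc : D.Cfg C1 a tau r h) (x : ι) :
    ∑ w, ∑ y, ‖D.SO.f1 w r h x y‖ ^ 2 ≤ 4 * I3 D r h x := by
  unfold I3
  rw [sum_comm, mul_sum]
  refine sum_le_sum fun y _ => ?_
  rw [mul_sum]
  refine sum_le_sum fun w _ => ?_
  have h1 : ‖D.SO.f1 w r h x y‖ ≤ 2 * (‖D.G r h x w‖ * ‖D.G r h w y‖ * ‖D.G r h x y‖) := by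
    simp only [Fl.SO]
    rw [Complex.norm_real, Real.norm_eq_abs, abs_neg, abs_mul, abs_two]
    have := Complex.abs_re_le_norm (D.G r h x w * D.G r h w y * star (D.G r h x y))
    rw [norm_mul, norm_mul, norm_star] at this
    gcongr
  calc ‖D.SO.f1 w r h x y‖ ^ 2 ≤
        (2 * (‖D.G r h x w‖ * ‖D.G r h w y‖ * ‖D.G r h x y‖)) ^ 2 := by gcongr
    _ = _ := by ring

theorem f2_row (hc : D.Cfg C1 a tau r h) (x : ι) :
    ∑ w, ∑ y, ‖D.SO.f2 w r h x y‖ ^ 2 ≤ 32 * C1 ^ 2 * I3 D r h x +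
      8 * (tau / D.et r) * T4 D r h x := by
  have hC := hc.one_le
  have hb : ∀ w y, ‖D.SO.f2 w r h x y‖ ^ 2 ≤
      32 * C1 ^ 2 * (‖D.G r h x y‖ ^ 2 * (‖D.G r h x w‖ ^ 2 * ‖D.G r h w y‖ ^ 2)) +
      8 * (‖D.G r h x w‖ ^ 4 * ‖D.G r h w y‖ ^ 4) := by
    intro w y
    have h1 : ‖D.SO.f2 w r h x y‖ ≤
        4 * (C1 * (‖D.G r h x w‖ * ‖D.G r h w y‖) * ‖D.G r h x y‖) +
        2 * (‖D.G r h x w‖ ^ 2 * ‖D.G r h w y‖ ^ 2) := by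
      simp only [Fl.SO]
      rw [Complex.norm_real, Real.norm_eq_abs]
      refine (abs_add_le _ _).trans ?_
      have := Complex.abs_re_le_norm
        (D.G r h w w * (D.G r h x w * D.G r h w y) * star (D.G r h x y))
      rw [norm_mul, norm_mul, norm_mul, norm_star] at this
      have h2 : ‖D.G r h w w‖ * (‖D.G r h x w‖ * ‖D.G r h w y‖) * ‖D.G r h x y‖ ≤
          C1 * (‖D.G r h x w‖ * ‖D.G r h w y‖) * ‖D.G r h x y‖ := by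
        have := hc.diag w
        gcongr
      rw [abs_mul, abs_of_pos (by norm_num : (0:ℝ) < 4),
        abs_of_nonneg (by positivity : 0 ≤ 2 * (‖D.G r h x w‖ ^ 2 * ‖D.G r h w y‖ ^ 2))]
      linarith
    have h3 : ‖D.SO.f2 w r h x y‖ ^ 2 ≤
        (4 * (C1 * (‖D.G r h x w‖ * ‖D.G r h w y‖) * ‖D.G r h x y‖) +
        2 * (‖D.G r h x w‖ ^ 2 * ‖D.G r h w y‖ ^ 2)) ^ 2 := by gcongr
    have h4 := sq_nonneg (4 * (C1 * (‖D.G r h x w‖ * ‖D.G r h w y‖) * ‖D.G r h x y‖) -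
        2 * (‖D.G r h x w‖ ^ 2 * ‖D.G r h w y‖ ^ 2))
    nlinarith
  calc ∑ w, ∑ y, ‖D.SO.f2 w r h x y‖ ^ 2
      ≤ ∑ w, ∑ y, (32 * C1 ^ 2 *
        (‖D.G r h x y‖ ^ 2 * (‖D.G r h x w‖ ^ 2 * ‖D.G r h w y‖ ^ 2)) +
      8 * (‖D.G r h x w‖ ^ 4 * ‖D.G r h w y‖ ^ 4)) :=
        sum_le_sum fun w _ => sum_le_sum fun y _ => hb w y
    _ = 32 * C1 ^ 2 * I3 D r h x +
        8 * ∑ w, ‖D.G r h x w‖ ^ 4 * ∑ y, ‖D.G r h w y‖ ^ 4 := by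
        unfold I3
        simp only [sum_add_distrib, mul_sum]
        rw [sum_comm]
    _ ≤ 32 * C1 ^ 2 * I3 D r h x +
        8 * ∑ w, ‖D.G r h x w‖ ^ 4 * (tau / D.et r) := by
        gcongr with w _
        exact hc.T4 w
    _ = _ := by
        unfold T4
        rw [← sum_mul]
        ring

omit [DecidableEq ι] in
private theorem holder4 (g B : ι → ℝ) :
    (∑ y, g y ^ 3 * B y) ^ 4 ≤ (∑ y, g y ^ 4) ^ 3 * ∑ y, B y ^ 4 := by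
  have h1 := sum_mul_sq_le_sq_mul_sq univ (fun y => g y ^ 2) (fun y => g y * B y)
  have h2 := sum_mul_sq_le_sq_mul_sq univ (fun y => g y ^ 2) (fun y => B y ^ 2)
  have e1 : ∑ y, g y ^ 2 * (g y * B y) = ∑ y, g y ^ 3 * B y :=
    sum_congr rfl fun y _ => by ring
  have e2 : ∑ y, (g y ^ 2) ^ 2 = ∑ y, g y ^ 4 := sum_congr rfl fun y _ => by ring
  have e3 : ∑ y, (g y * B y) ^ 2 = ∑ y, g y ^ 2 * B y ^ 2 := sum_congr rfl fun y _ => by ring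
  have e4 : ∑ y, (B y ^ 2) ^ 2 = ∑ y, B y ^ 4 := sum_congr rfl fun y _ => by ring
  rw [e1, e2, e3] at h1
  rw [e2, e4] at h2
  have hT : 0 ≤ ∑ y, g y ^ 4 := sum_nonneg fun y _ => by positivity
  have hM : 0 ≤ ∑ y, g y ^ 2 * B y ^ 2 := sum_nonneg fun y _ => by positivity
  calc (∑ y, g y ^ 3 * B y) ^ 4 = ((∑ y, g y ^ 3 * B y) ^ 2) ^ 2 := by ring
    _ ≤ ((∑ y, g y ^ 4) * ∑ y, g y ^ 2 * B y ^ 2) ^ 2 := by gcongr
    _ = (∑ y, g y ^ 4) ^ 2 * (∑ y, g y ^ 2 * B y ^ 2) ^ 2 := by ring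
    _ ≤ (∑ y, g y ^ 4) ^ 2 * ((∑ y, g y ^ 4) * ∑ y, B y ^ 4) := by gcongr
    _ = _ := by ring

theorem cub (hc : D.Cfg C1 a tau r h) {c : ι → ℂ} {b : ℝ} (hb0 : 0 ≤ b) (hb : ∀ w, ‖c w‖ ≤ b)
    {tq X : ℝ} (htq : 0 < tq) (htq4 : tq ^ 4 = tau) (hX : 0 ≤ X) (x : ι)
    (hX4 : X ^ 4 = D.et r * T4 D r h x / tau) :
    D.et r / tau * ∑ y, ‖D.G r h x y‖ ^ 3 * ‖D.gcg c r h x y‖ ≤
      1 / D.et r * (b * C1 / tq) * X ^ 3 := by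
  have het := hc.et0
  have hC := hc.one_le
  have hC0 : 0 ≤ C1 := by linarith
  have ht := hc.tau0
  have hB4 : ∑ y, ‖D.gcg c r h x y‖ ^ 4 ≤ b ^ 4 * C1 ^ 4 / D.et r ^ 5 := by
    calc ∑ y, ‖D.gcg c r h x y‖ ^ 4
        ≤ ∑ y, (b * C1 / D.et r) ^ 2 * ‖D.gcg c r h x y‖ ^ 2 := by
          refine sum_le_sum fun y _ => ?_
          have := hc.gcg_entry hb0 hb x y
          calc ‖D.gcg c r h x y‖ ^ 4 = ‖D.gcg c r h x y‖ ^ 2 * ‖D.gcg c r h x y‖ ^ 2 := by ring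
            _ ≤ _ := by gcongr
      _ = (b * C1 / D.et r) ^ 2 * ∑ y, ‖D.gcg c r h x y‖ ^ 2 := by rw [mul_sum]
      _ ≤ (b * C1 / D.et r) ^ 2 * (b ^ 2 * C1 / D.et r ^ 3) := by
          gcongr
          exact hc.gcg_row hb0 hb x
      _ = b ^ 4 * C1 ^ 3 / D.et r ^ 5 := by
          field_simp
      _ ≤ _ := by
          have : C1 ^ 3 ≤ C1 ^ 4 := pow_le_pow_right₀ hC (by norm_num)
          gcongr
  have hT : T4 D r h x = tau * X ^ 4 / D.et r := by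
    rw [hX4]
    field_simp
  have h1 := holder4 (fun y => ‖D.G r h x y‖) (fun y => ‖D.gcg c r h x y‖)
  have hT' : ∑ y, ‖D.G r h x y‖ ^ 4 = tau * X ^ 4 / D.et r := hT
  simp only [hT'] at h1
  refine le_of_pow_le_pow_left₀ (n := 4) (by norm_num) (by positivity) ?_
  rw [mul_pow]
  calc (D.et r / tau) ^ 4 * (∑ y, ‖D.G r h x y‖ ^ 3 * ‖D.gcg c r h x y‖) ^ 4
      ≤ (D.et r / tau) ^ 4 * ((tau * X ^ 4 / D.et r) ^ 3 *
        (b ^ 4 * C1 ^ 4 / D.et r ^ 5)) := by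
        refine mul_le_mul_of_nonneg_left (h1.trans ?_) (by positivity)
        gcongr
    _ = (1 / D.et r * (b * C1 / tq) * X ^ 3) ^ 4 := by
        rw [← htq4]
        field_simp

end Pool.Agent.APS
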