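import Pool.Agent.APS.Defs

/-! # APS YOUNG: `x^n y ≤ e x^(n+1) + e^(-n) y^(n+1)` for `x, y ≥ 0`, `e > 0`.

If `y ≤ e x` the left side is at most `e x^(n+1)`; otherwise `x < y/e` and it is at most
`(y/e)^n y`.
-/

open Finset

noncomputable section

namespace Pool.Agent.APS

theorem young (n : ℕ) {x y e : ℝ} (hx : 0 ≤ x) (hy : 0 ≤ y) (he : 0 < e) :
    x ^ n * y ≤ e * x ^ (n + 1) + (1 / e) ^ n * y ^ (n + 1) := by
  have hie : 0 ≤ 1 / e := by positivity
  rcases le_total y (e * x) with h | h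
  · have h1 : x ^ n * y ≤ x ^ n * (e * x) := mul_le_mul_of_nonneg_left h (pow_nonneg hx n)
    have h2 : x ^ n * (e * x) = e * x ^ (n + 1) := by ring
    have h3 : 0 ≤ (1 / e) ^ n * y ^ (n + 1) := by positivity
    linarith
  · have h0 : x ≤ 1 / e * y := by
      rw [one_div, ← div_eq_inv_mul, le_div_iff₀ he, mul_comm]
      exact h
    have h1 : x ^ n ≤ (1 / e * y) ^ n := pow_le_pow_left₀ hx h0 n
    have h2 : x ^ n * y ≤ (1 / e * y) ^ n * y := mul_le_mul_of_nonneg_right h1 hy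
    have h3 : (1 / e * y) ^ n * y = (1 / e) ^ n * y ^ (n + 1) := by
      rw [mul_pow]
      ring
    have h4 : 0 ≤ e * x ^ (n + 1) := by positivity
    linarith

/-- summed version with a constant `y` -/
theorem young_sum {κ : Type} [Fintype κ] (n : ℕ) (x : κ → ℝ) {y e : ℝ} (hx : ∀ i, 0 ≤ x i)
    (hy : 0 ≤ y) (he : 0 < e) :
    (∑ i, x i ^ n) * y ≤ e * ∑ i, x i ^ (n + 1) +
      (Fintype.card κ : ℝ) * ((1 / e) ^ n * y ^ (n + 1)) := by
  rw [Finset.sum_mul]
  have h1 : ∑ i, x i ^ n * y ≤ ∑ i, (e * x i ^ (n + 1) + (1 / e) ^ n * y ^ (n + 1)) :=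
    Finset.sum_le_sum fun i _ => young n (hx i) hy he
  rw [Finset.sum_add_distrib, ← Finset.mul_sum, Finset.sum_const, Finset.card_univ,
    nsmul_eq_mul] at h1
  exact h1

end Pool.Agent.APS
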