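import Pool.Agent.APS.RowEst
import Pool.Agent.APS.RowT
import Pool.Agent.APS.ErrB
import Pool.Agent.APS.DriftId
import Pool.Agent.APS.Young

/-! # APS ESTT: the estimates of the component `T`: `∑_x (et T4_x/tau)^p`.

`f = c S`, `c² = et/tau`, `c' = -(2 r s (ρ0/2)/et) c ≤ 0`; `X_x = ∑_y |f_xy|² = et T4_x/tau`.
Apply `rowEst` (RowEst.lean).  By `I_le`: `c² I_x ≤ (1/et)(2 bs X_x + epL C1³/(et tau))` (*).
* `h1`: direction `2 r s c (S² + errS) + c' S` (`drift_S`).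
  `2 ∑_y Re conj(f) (..) = 2 c² 2rs (I_x + ∑_y S_xy errS_xy) + 2 c c' T4_x`, the last term is `≤ 0`,
  `|∑_y S_xy errS_xy| ≤ 2 ∑_y |G_xy|³ |(GgG)_xy|`, `cub` with `b = a`.  With (*), times `p X^(p-1)`:
  `(2rs/et) [4 p bs ∑ X^p + ∑ X^(p-1) (2 p epL C1³/(et tau)) + ∑ (X^(1/4))^(4p-1) 4 p a C1/tau^(1/4)]`;
  Young twice (parameter `e`): `A0 = 4 p bs + 2 e`.
* `h2`: `∑_wy (|f1|² + |f2|²) ≤ c² (36 C1² I_x + 8 (tau/et) T4_x)
   ≤ (1/et) ((72 C1² bs + 8 tau) X_x + 36 C1⁵ epL/(et tau))`; Young with parameter `e/(4p²)`: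
  `4 p² A2 = 288 p² C1² bs + 32 p² tau + e`, `4p² B2 = N (1/e)^(p-1) (144 p² C1⁵ epL/(et tau))^p`.
* `h3`: `∑_w λ e_w f3_w = c (-12 Re((G c1 G) ∘ conj G) - 12 S diag(λ e Re G_ww) S)`, `|c1| ≤ λ C1²`:
  `2 c² (12 ∑_y |G_xy|³ |(G c1 G)_xy| + 12 λ C1 I_x)`, `cub` with `b = λ C1²`, and (*) with `λ ≤ 1`:
  `(1/et) [∑ (X^(1/4))^(4p-1) 24 p λ C1³/tau^(1/4) + 48 p C1 bs ∑ X^p + ∑ X^(p-1) 24 p C1⁴ epL/(et tau)]`;
  Young twice: `A3 = 48 p C1 bs + 2 e`.
Sum: `A ≤ 340 p² C1² bs + 32 p² tau + 5 e`.  Sources: `x^p + y^p + z^p ≤ (x+y+z)^p`.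
-/

open Matrix Finset

noncomputable section

namespace Pool.Agent.APS

open Pool.Agent.Kin

variable {ι : Type} [Fintype ι] [DecidableEq ι] {D : Fl ι} {C1 a tau r : ℝ} {h : ι → ℝ}

omit [DecidableEq ι] in
private theorem estT_mono {c : Comp ι} {lam s et r A B A' B' : ℝ} {h q : ι → ℝ}
    (H : c.Est lam s et r A B h q) (hG : 0 ≤ c.Ga r h) (hr : 0 ≤ r) (hs : 0 < s) (het : 0 < et)
    (hA : A ≤ A') (hB : B ≤ B') : c.Est lam s et r A' B' h q := by
  have h1 : A * c.Ga r h + B ≤ A' * c.Ga r h + B' :=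
    add_le_add (mul_le_mul_of_nonneg_right hA hG) hB
  exact ⟨H.dr.trans (mul_le_mul_of_nonneg_left h1 (by positivity)), H.q0, H.qu, H.g1, H.d1,
    H.qs.trans (mul_le_mul_of_nonneg_left h1 (by positivity)), fun e he =>
      (H.dd e he).trans (mul_le_mul_of_nonneg_left h1 (by positivity))⟩

omit [DecidableEq ι] in
private theorem ysum1 (p : ℕ) (hp : 2 ≤ p) (X : ι → ℝ) (hX : ∀ x, 0 ≤ X x) {b e : ℝ}
    (hb : 0 ≤ b) (he : 0 < e) :
    ∑ x, X x ^ (p - 1) * b ≤ e * ∑ x, X x ^ p +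
      (Fintype.card ι : ℝ) * ((1 / e) ^ (p - 1) * b ^ p) := by
  have h1 := young_sum (p - 1) X hX hb he
  rw [Nat.sub_add_cancel (by omega : 1 ≤ p), Finset.sum_mul] at h1
  exact h1

omit [DecidableEq ι] in
private theorem ysum2 (p : ℕ) (hp : 2 ≤ p) (Y : ι → ℝ) (hY : ∀ x, 0 ≤ Y x) {b e : ℝ}
    (hb : 0 ≤ b) (he : 0 < e) :
    ∑ x, (Y x ^ 4) ^ (p - 1) * (b * Y x ^ 3) ≤ e * ∑ x, (Y x ^ 4) ^ p +
      (Fintype.card ι : ℝ) * ((1 / e) ^ (4 * p - 1) * b ^ (4 * p)) := by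
  have h1 := young_sum (4 * p - 1) Y hY hb he
  rw [Nat.sub_add_cancel (by omega : 1 ≤ 4 * p), Finset.sum_mul] at h1
  have e1 : ∀ x, (Y x ^ 4) ^ (p - 1) * (b * Y x ^ 3) = Y x ^ (4 * p - 1) * b := by
    intro x
    rw [← pow_mul]
    have : 4 * p - 1 = 4 * (p - 1) + 3 := by omega
    rw [this, pow_add]
    ring
  have e2 : ∀ x, (Y x ^ 4) ^ p = Y x ^ (4 * p) := fun x => by rw [← pow_mul]
  simp_rw [e1, e2]
  exact h1

private theorem pow3 (p : ℕ) {x y z w : ℝ} (hx : 0 ≤ x) (hy : 0 ≤ y) (hz : 0 ≤ z)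
    (hp : 1 ≤ p) (h : x + y + z ≤ w) : x ^ p + y ^ p + z ^ p ≤ w ^ p := by
  obtain ⟨q, rfl⟩ : ∃ q, p = q + 1 := ⟨p - 1, by omega⟩
  have hxw : x ≤ w := by linarith
  have hyw : y ≤ w := by linarith
  have hzw : z ≤ w := by linarith
  have hw : 0 ≤ w := by linarith
  calc x ^ (q + 1) + y ^ (q + 1) + z ^ (q + 1)
      = x ^ q * x + y ^ q * y + z ^ q * z := by simp only [pow_succ]
    _ ≤ w ^ q * x + w ^ q * y + w ^ q * z := by
        gcongr
    _ = w ^ q * (x + y + z) := by ring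
    _ ≤ w ^ q * w := mul_le_mul_of_nonneg_left h (pow_nonneg hw q)
    _ = w ^ (q + 1) := by rw [pow_succ]

section Rows

variable (hc : D.Cfg C1 a tau r h) {Pi : Matrix ι ι ℂ} {epL bs : ℝ}
    (hP : LowMode Pi epL) (hbs : 0 ≤ bs) (hS : OpLe (Pi * D.SO.f r h) (bs / D.et r))
    (c c' : ℝ → ℝ) (hcr : c r ^ 2 = D.et r / tau)

include hcr in
private theorem rowX (x : ι) :
    ∑ y, ‖(wtM c c' D.SO).f r h x y‖ ^ 2 = D.et r * T4 D r h x / tau := by
  have e1 : ∀ y, ‖(wtM c c' D.SO).f r h x y‖ ^ 2 = c r ^ 2 * ‖D.G r h x y‖ ^ 4 := by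
    intro y
    show ‖((c r : ℂ) • D.SO.f r h) x y‖ ^ 2 = _
    rw [Matrix.smul_apply, smul_eq_mul, norm_mul, mul_pow]
    show ‖(c r : ℂ)‖ ^ 2 * ‖((‖D.G r h x y‖ ^ 2 : ℝ) : ℂ)‖ ^ 2 = _
    rw [Complex.norm_real, Complex.norm_real, Real.norm_eq_abs, Real.norm_eq_abs, sq_abs, sq_abs]
    ring
  simp_rw [e1]
  rw [← Finset.mul_sum, hcr]
  unfold T4
  ring

include hc hP hbs hS hcr in
private theorem rowI (x : ι) : c r ^ 2 * I3 D r h x ≤ 1 / D.et r *
    (2 * bs * (D.et r * T4 D r h x / tau) + epL * C1 ^ 3 / (D.et r * tau)) := by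
  have het := hc.et0
  have htau := hc.tau0
  have h1 := I_le hc hP hbs hS x
  rw [hcr]
  calc D.et r / tau * I3 D r h x ≤ D.et r / tau * (2 * bs / D.et r * T4 D r h x +
        epL * C1 ^ 3 / D.et r ^ 3) := mul_le_mul_of_nonneg_left h1 (by positivity)
    _ = _ := by field_simp

end Rows

theorem estT (hc : D.Cfg C1 a tau r h) (p : ℕ) (hp : 2 ≤ p) {Pi : Matrix ι ι ℂ} {epL bs : ℝ}
    (hP : LowMode Pi epL) (hbs : 0 ≤ bs) (hS : OpLe (Pi * D.SO.f r h) (bs / D.et r))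
    (c c' : ℝ → ℝ) (hcr : c r ^ 2 = D.et r / tau)
    (hcr' : c' r = -(2 * r * D.s * (D.g0.im / 2) / D.et r) * c r) (e : ℝ) (he : 0 < e)
    (he1 : e ≤ 1) :
    ∃ q : ι → ℝ, (rowComp p (wtM c c' D.SO)).Est D.lam D.s (D.et r) r
      (400 * p ^ 2 * C1 ^ 2 * (bs + tau) + 6 * e)
      (BT (Fintype.card ι) C1 D.lam a tau epL (D.et r) e p) h q := by
  have het := hc.et0
  have htau := hc.tau0
  have hC1 := hc.one_le
  have hr0 := hc.r0
  have hs0 := hc.s0
  have hlam0 := hc.lam0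
  have hlam1 := hc.lam1
  have ha0 := hc.a0
  have hep := hP.ep0
  have hp2 : (2 : ℝ) ≤ p := by exact_mod_cast hp
  obtain ⟨X, hX⟩ : ∃ X : ι → ℝ, X = fun x => ∑ y, ‖(wtM c c' D.SO).f r h x y‖ ^ 2 := ⟨_, rfl⟩
  have hX' : ∀ x, X x = D.et r * T4 D r h x / tau := by
    intro x
    rw [hX]
    exact rowX c c' hcr x
  have hX0 : ∀ x, 0 ≤ X x := by
    intro x
    rw [hX]
    exact sum_nonneg fun y _ => by positivity
  obtain ⟨Y, hY⟩ : ∃ Y : ι → ℝ, Y = fun x => √√(X x) := ⟨_, rfl⟩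
  have hY0 : ∀ x, 0 ≤ Y x := by
    intro x
    rw [hY]
    positivity
  have hY4 : ∀ x, Y x ^ 4 = X x := by
    intro x
    rw [hY]
    show (√√(X x)) ^ 4 = X x
    rw [show (4 : ℕ) = 2 * 2 from rfl, pow_mul, Real.sq_sqrt (Real.sqrt_nonneg _),
      Real.sq_sqrt (hX0 x)]
  obtain ⟨tq, htq⟩ : ∃ tq : ℝ, tq = √√tau := ⟨_, rfl⟩
  have htq0 : 0 < tq := by
    rw [htq]
    positivity
  have htq4 : tq ^ 4 = tau := by
    rw [htq, show (4 : ℕ) = 2 * 2 from rfl, pow_mul, Real.sq_sqrt (Real.sqrt_nonneg _),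
      Real.sq_sqrt htau.le]
  obtain ⟨E, hE⟩ : ∃ E : ℝ, E = epL * C1 ^ 3 / (D.et r * tau) := ⟨_, rfl⟩
  have hE0 : 0 ≤ E := by
    rw [hE]
    positivity
  have hI : ∀ x, c r ^ 2 * I3 D r h x ≤ 1 / D.et r * (2 * bs * X x + E) := by
    intro x
    rw [hX', hE]
    exact rowI hc hP hbs hS c hcr x
  have hcub : ∀ (c1 : ι → ℂ) (b : ℝ), 0 ≤ b → (∀ w, ‖c1 w‖ ≤ b) → ∀ x,
      c r ^ 2 * ∑ y, ‖D.G r h x y‖ ^ 3 * ‖D.gcg c1 r h x y‖ ≤
      1 / D.et r * (b * C1 / tq) * Y x ^ 3 := by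
    intro c1 b hb0 hb x
    rw [hcr]
    refine cub hc hb0 hb htq0 htq4 (hY0 x) x ?_
    rw [hY4, hX']
  have hrw0 : rw0 p ((wtM c c' D.SO).f r h) = ∑ x, X x ^ p := by
    rw [hX]
    rfl
  have hcc : c r * c' r ≤ 0 := by
    rw [hcr']
    have h1 : 0 ≤ 2 * r * D.s * (D.g0.im / 2) / D.et r := by
      have := hc.g0im
      positivity
    nlinarith [mul_nonneg h1 (sq_nonneg (c r))]
  -- the drift
  have H1 : rw1 p ((wtM c c' D.SO).f r h) (fun x y => (wtM c c' D.SO).fr r h x y +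
      ((D.s * r : ℝ) : ℂ) * ∑ w, (wtM c c' D.SO).f2 w r h x y) ≤
      2 * r * D.s / D.et r * ((4 * p * bs + 2 * e) * rw0 p ((wtM c c' D.SO).f r h) +
        ((Fintype.card ι : ℝ) * ((1 / e) ^ (p - 1) * (2 * p * E) ^ p) +
        (Fintype.card ι : ℝ) * ((1 / e) ^ (4 * p - 1) * (4 * p * (a * C1 / tq)) ^ (4 * p)))) := by
    have hrow : ∀ x, 2 * ∑ y, (star ((wtM c c' D.SO).f r h x y) *
        ((wtM c c' D.SO).fr r h x y +
          ((D.s * r : ℝ) : ℂ) * ∑ w, (wtM c c' D.SO).f2 w r h x y)).re ≤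
        2 * r * D.s / D.et r * (4 * bs * X x + 2 * E + 4 * (a * C1 / tq) * Y x ^ 3) := by
      intro x
      have hpt : ∀ y, (star ((wtM c c' D.SO).f r h x y) *
          ((wtM c c' D.SO).fr r h x y +
            ((D.s * r : ℝ) : ℂ) * ∑ w, (wtM c c' D.SO).f2 w r h x y)).re =
          2 * r * D.s * c r ^ 2 * (∑ w, ‖D.G r h x y‖ ^ 2 *
            (‖D.G r h x w‖ ^ 2 * ‖D.G r h w y‖ ^ 2) + ‖D.G r h x y‖ ^ 2 *
              (2 * (D.gcg (D.gv r h) r h x y * star (D.G r h x y)).re)) +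
          c r * c' r * ‖D.G r h x y‖ ^ 4 := by
        intro y
        have hd := congrFun (congrFun (drift_S D hc.sym het h) x) y
        simp only [Matrix.add_apply, Matrix.smul_apply, Matrix.sum_apply, smul_eq_mul] at hd
        have h1 : (wtM c c' D.SO).fr r h x y +
            ((D.s * r : ℝ) : ℂ) * ∑ w, (wtM c c' D.SO).f2 w r h x y =
            (c r : ℂ) * (((2 * r * D.s : ℝ) : ℂ) * ((D.SO.f r h * D.SO.f r h) x y +
              D.errS r h x y)) + (c' r : ℂ) * D.SO.f r h x y := by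
          rw [← hd]
          show (((c r : ℂ) • D.SO.fr r h + (c' r : ℂ) • D.SO.f r h) x y : ℂ) +
            ((D.s * r : ℝ) : ℂ) * ∑ w, ((c r : ℂ) • D.SO.f2 w r h) x y = _
          simp only [Matrix.add_apply, Matrix.smul_apply, smul_eq_mul]
          rw [← Finset.mul_sum]
          ring
        have h2 : (D.SO.f r h * D.SO.f r h) x y =
            ((∑ w, ‖D.G r h x w‖ ^ 2 * ‖D.G r h w y‖ ^ 2 : ℝ) : ℂ) := by
          rw [Matrix.mul_apply]
          push_cast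
          refine sum_congr rfl fun w _ => ?_
          show ((‖D.G r h x w‖ ^ 2 : ℝ) : ℂ) * ((‖D.G r h w y‖ ^ 2 : ℝ) : ℂ) = _
          push_cast
          ring
        have h3 : D.errS r h x y =
            ((2 * (D.gcg (D.gv r h) r h x y * star (D.G r h x y)).re : ℝ) : ℂ) := rfl
        have h4 : D.SO.f r h x y = ((‖D.G r h x y‖ ^ 2 : ℝ) : ℂ) := rfl
        have h5 : (wtM c c' D.SO).f r h x y = (c r : ℂ) * ((‖D.G r h x y‖ ^ 2 : ℝ) : ℂ) := rfl
        rw [h1, h2, h3, h4, h5]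
        have h6 : star ((c r : ℂ) * ((‖D.G r h x y‖ ^ 2 : ℝ) : ℂ)) =
            ((c r * ‖D.G r h x y‖ ^ 2 : ℝ) : ℂ) := by
          rw [← Complex.ofReal_mul]
          exact Complex.conj_ofReal _
        rw [h6]
        have h7 : ((c r * ‖D.G r h x y‖ ^ 2 : ℝ) : ℂ) * ((c r : ℂ) * (((2 * r * D.s : ℝ) : ℂ) *
            (((∑ w, ‖D.G r h x w‖ ^ 2 * ‖D.G r h w y‖ ^ 2 : ℝ) : ℂ) +
              ((2 * (D.gcg (D.gv r h) r h x y * star (D.G r h x y)).re : ℝ) : ℂ))) +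
            (c' r : ℂ) * ((‖D.G r h x y‖ ^ 2 : ℝ) : ℂ)) =
            ((c r * ‖D.G r h x y‖ ^ 2 * (c r * (2 * r * D.s *
              (∑ w, ‖D.G r h x w‖ ^ 2 * ‖D.G r h w y‖ ^ 2 +
                2 * (D.gcg (D.gv r h) r h x y * star (D.G r h x y)).re)) +
              c' r * ‖D.G r h x y‖ ^ 2) : ℝ) : ℂ) := by
          push_cast
          ring
        rw [h7, Complex.ofReal_re, ← Finset.mul_sum]
        ring
      simp_rw [hpt]
      rw [sum_add_distrib, ← Finset.mul_sum, ← Finset.mul_sum, sum_add_distrib]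
      have h8 : ∑ y, ‖D.G r h x y‖ ^ 2 *
          (2 * (D.gcg (D.gv r h) r h x y * star (D.G r h x y)).re) ≤
          2 * ∑ y, ‖D.G r h x y‖ ^ 3 * ‖D.gcg (D.gv r h) r h x y‖ := by
        rw [Finset.mul_sum]
        refine sum_le_sum fun y _ => ?_
        have h9 : (D.gcg (D.gv r h) r h x y * star (D.G r h x y)).re ≤
            ‖D.gcg (D.gv r h) r h x y‖ * ‖D.G r h x y‖ := by
          refine (Complex.re_le_norm _).trans ?_
          rw [norm_mul, norm_star]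
        nlinarith [sq_nonneg ‖D.G r h x y‖, mul_le_mul_of_nonneg_left h9
          (sq_nonneg ‖D.G r h x y‖)]
      have h10 := hI x
      have h11 := hcub (D.gv r h) a ha0.le (fun w => hc.g w) x
      have h12 : 0 ≤ ∑ y, ‖D.G r h x y‖ ^ 4 := sum_nonneg fun y _ => by positivity
      have h13 : c r * c' r * ∑ y, ‖D.G r h x y‖ ^ 4 ≤ 0 :=
        mul_nonpos_of_nonpos_of_nonneg hcc h12
      have h14 : c r ^ 2 * (∑ y, ∑ w, ‖D.G r h x y‖ ^ 2 *
          (‖D.G r h x w‖ ^ 2 * ‖D.G r h w y‖ ^ 2) + ∑ y, ‖D.G r h x y‖ ^ 2 *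
          (2 * (D.gcg (D.gv r h) r h x y * star (D.G r h x y)).re)) ≤
          1 / D.et r * (2 * bs * X x + E) + 2 * (1 / D.et r * (a * C1 / tq) * Y x ^ 3) := by
        rw [mul_add]
        refine add_le_add h10 ?_
        calc c r ^ 2 * ∑ y, ‖D.G r h x y‖ ^ 2 *
              (2 * (D.gcg (D.gv r h) r h x y * star (D.G r h x y)).re)
            ≤ c r ^ 2 * (2 * ∑ y, ‖D.G r h x y‖ ^ 3 * ‖D.gcg (D.gv r h) r h x y‖) :=
              mul_le_mul_of_nonneg_left h8 (sq_nonneg _)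
          _ = 2 * (c r ^ 2 * ∑ y, ‖D.G r h x y‖ ^ 3 * ‖D.gcg (D.gv r h) r h x y‖) := by ring
          _ ≤ _ := mul_le_mul_of_nonneg_left h11 (by norm_num)
      have h15 : 0 ≤ 2 * (2 * r * D.s) := by positivity
      have h16 := mul_le_mul_of_nonneg_left h14 h15
      calc _ = 2 * (2 * r * D.s) * (c r ^ 2 * (∑ y, ∑ w, ‖D.G r h x y‖ ^ 2 *
          (‖D.G r h x w‖ ^ 2 * ‖D.G r h w y‖ ^ 2) + ∑ y, ‖D.G r h x y‖ ^ 2 *
          (2 * (D.gcg (D.gv r h) r h x y * star (D.G r h x y)).re))) +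
          2 * (c r * c' r * ∑ y, ‖D.G r h x y‖ ^ 4) := by ring
        _ ≤ 2 * (2 * r * D.s) * (1 / D.et r * (2 * bs * X x + E) +
          2 * (1 / D.et r * (a * C1 / tq) * Y x ^ 3)) := by linarith
        _ = _ := by ring
    have hsum : rw1 p ((wtM c c' D.SO).f r h) (fun x y => (wtM c c' D.SO).fr r h x y +
        ((D.s * r : ℝ) : ℂ) * ∑ w, (wtM c c' D.SO).f2 w r h x y) ≤
        ∑ x, p * X x ^ (p - 1) * (2 * r * D.s / D.et r * (4 * bs * X x + 2 * E +
          4 * (a * C1 / tq) * Y x ^ 3)) := by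
      unfold rw1
      rw [hX]
      rw [hX] at hrow
      refine sum_le_sum fun x _ => ?_
      refine mul_le_mul_of_nonneg_left (hrow x) ?_
      have : 0 ≤ ∑ y, ‖(wtM c c' D.SO).f r h x y‖ ^ 2 := sum_nonneg fun y _ => by positivity
      positivity
    refine hsum.trans ?_
    have e1 : ∀ x, p * X x ^ (p - 1) * (2 * r * D.s / D.et r * (4 * bs * X x + 2 * E +
        4 * (a * C1 / tq) * Y x ^ 3)) = 2 * r * D.s / D.et r * (4 * p * bs * X x ^ p +
          X x ^ (p - 1) * (2 * p * E) +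
          (Y x ^ 4) ^ (p - 1) * ((4 * p * (a * C1 / tq)) * Y x ^ 3)) := by
      intro x
      have h1 : X x ^ p = X x ^ (p - 1) * X x := by
        rw [← pow_succ, Nat.sub_add_cancel (by omega : 1 ≤ p)]
      rw [hY4, h1]
      ring
    simp_rw [e1]
    rw [← Finset.mul_sum, sum_add_distrib, sum_add_distrib, ← Finset.mul_sum, hrw0]
    refine mul_le_mul_of_nonneg_left ?_ (by positivity)
    have y1 := ysum1 p hp X hX0 (b := 2 * p * E) (e := e) (by positivity) he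
    have y2 := ysum2 p hp Y hY0 (b := 4 * p * (a * C1 / tq)) (e := e) (by positivity) he
    simp_rw [hY4] at y2 ⊢
    linarith
  have H2 : ∑ w, ∑ x, (∑ y, ‖(wtM c c' D.SO).f r h x y‖ ^ 2) ^ (p - 1) *
      ∑ y, (‖(wtM c c' D.SO).f1 w r h x y‖ ^ 2 + ‖(wtM c c' D.SO).f2 w r h x y‖ ^ 2) ≤
      1 / D.et r * ((72 * C1 ^ 2 * bs + 8 * tau + e / (4 * p ^ 2)) *
        rw0 p ((wtM c c' D.SO).f r h) +
        (Fintype.card ι : ℝ) * ((1 / (e / (4 * p ^ 2))) ^ (p - 1) * (36 * C1 ^ 2 * E) ^ p)) := by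
    have hrow : ∀ x, ∑ w, ∑ y, (‖(wtM c c' D.SO).f1 w r h x y‖ ^ 2 +
        ‖(wtM c c' D.SO).f2 w r h x y‖ ^ 2) ≤
        1 / D.et r * ((72 * C1 ^ 2 * bs + 8 * tau) * X x + 36 * C1 ^ 2 * E) := by
      intro x
      have hn : ∀ z : ℂ, ‖(c r : ℂ) * z‖ ^ 2 = c r ^ 2 * ‖z‖ ^ 2 := by
        intro z
        rw [norm_mul, mul_pow, Complex.norm_real, Real.norm_eq_abs, sq_abs]
      have e1 : ∀ w y, ‖(wtM c c' D.SO).f1 w r h x y‖ ^ 2 + ‖(wtM c c' D.SO).f2 w r h x y‖ ^ 2 =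
          c r ^ 2 * (‖D.SO.f1 w r h x y‖ ^ 2 + ‖D.SO.f2 w r h x y‖ ^ 2) := by
        intro w y
        show ‖(c r : ℂ) * D.SO.f1 w r h x y‖ ^ 2 + ‖(c r : ℂ) * D.SO.f2 w r h x y‖ ^ 2 = _
        rw [hn, hn]
        ring
      simp_rw [e1, ← Finset.mul_sum, sum_add_distrib]
      have h1 := f1_row hc x
      have h2 := f2_row hc x
      have h3 : 0 ≤ I3 D r h x := by
        unfold I3
        exact sum_nonneg fun y _ => sum_nonneg fun w _ => by positivity
      have h4 : c r ^ 2 * (8 * (tau / D.et r) * T4 D r h x) = 1 / D.et r * (8 * tau * X x) := by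
        rw [hcr, hX']
        field_simp
      have h5 := hI x
      have h6 : (1 : ℝ) ≤ C1 ^ 2 := one_le_pow₀ hC1
      calc c r ^ 2 * (∑ w, ∑ y, ‖D.SO.f1 w r h x y‖ ^ 2 + ∑ w, ∑ y, ‖D.SO.f2 w r h x y‖ ^ 2)
          ≤ c r ^ 2 * (4 * I3 D r h x + (32 * C1 ^ 2 * I3 D r h x +
            8 * (tau / D.et r) * T4 D r h x)) :=
            mul_le_mul_of_nonneg_left (add_le_add h1 h2) (sq_nonneg _)
        _ ≤ c r ^ 2 * (36 * C1 ^ 2 * I3 D r h x + 8 * (tau / D.et r) * T4 D r h x) := by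
            refine mul_le_mul_of_nonneg_left ?_ (sq_nonneg _)
            nlinarith
        _ = 36 * C1 ^ 2 * (c r ^ 2 * I3 D r h x) +
            c r ^ 2 * (8 * (tau / D.et r) * T4 D r h x) := by ring
        _ ≤ 36 * C1 ^ 2 * (1 / D.et r * (2 * bs * X x + E)) + 1 / D.et r * (8 * tau * X x) := by
            rw [h4]
            have : 0 ≤ 36 * C1 ^ 2 := by positivity
            linarith [mul_le_mul_of_nonneg_left h5 this]
        _ = _ := by ring
    have e2 : ∑ w, ∑ x, (∑ y, ‖(wtM c c' D.SO).f r h x y‖ ^ 2) ^ (p - 1) *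
        ∑ y, (‖(wtM c c' D.SO).f1 w r h x y‖ ^ 2 + ‖(wtM c c' D.SO).f2 w r h x y‖ ^ 2) =
        ∑ x, X x ^ (p - 1) * ∑ w, ∑ y, (‖(wtM c c' D.SO).f1 w r h x y‖ ^ 2 +
          ‖(wtM c c' D.SO).f2 w r h x y‖ ^ 2) := by
      rw [sum_comm, hX]
      exact sum_congr rfl fun x _ => by rw [Finset.mul_sum]
    rw [e2]
    calc ∑ x, X x ^ (p - 1) * ∑ w, ∑ y, (‖(wtM c c' D.SO).f1 w r h x y‖ ^ 2 +
          ‖(wtM c c' D.SO).f2 w r h x y‖ ^ 2)
        ≤ ∑ x, X x ^ (p - 1) * (1 / D.et r * ((72 * C1 ^ 2 * bs + 8 * tau) * X x +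
            36 * C1 ^ 2 * E)) :=
          sum_le_sum fun x _ => mul_le_mul_of_nonneg_left (hrow x) (pow_nonneg (hX0 x) _)
      _ = 1 / D.et r * ((72 * C1 ^ 2 * bs + 8 * tau) * ∑ x, X x ^ p +
            ∑ x, X x ^ (p - 1) * (36 * C1 ^ 2 * E)) := by
          rw [Finset.mul_sum, ← sum_add_distrib, Finset.mul_sum]
          refine sum_congr rfl fun x _ => ?_
          have h1 : X x ^ p = X x ^ (p - 1) * X x := by
            rw [← pow_succ, Nat.sub_add_cancel (by omega : 1 ≤ p)]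
          rw [h1]
          ring
      _ ≤ _ := by
          rw [hrw0]
          refine mul_le_mul_of_nonneg_left ?_ (by positivity)
          have y1 := ysum1 p hp X hX0 (b := 36 * C1 ^ 2 * E) (e := e / (4 * p ^ 2))
            (by positivity) (by positivity)
          linarith
  have H3 : ∀ ee : ι → ℝ, (∀ w, |ee w| ≤ 1) →
      rw1 p ((wtM c c' D.SO).f r h)
        (fun x y => ∑ w, ((D.lam * ee w : ℝ) : ℂ) * (wtM c c' D.SO).f3 w r h x y) ≤
      1 / D.et r * ((48 * p * C1 * bs + 2 * e) * rw0 p ((wtM c c' D.SO).f r h) +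
        ((Fintype.card ι : ℝ) * ((1 / e) ^ (p - 1) * (24 * p * C1 * E) ^ p) +
        (Fintype.card ι : ℝ) * ((1 / e) ^ (4 * p - 1) *
          (24 * p * (D.lam * C1 ^ 3 / tq)) ^ (4 * p)))) := by
    intro ee hee
    obtain ⟨c1, hc1⟩ : ∃ c1 : ι → ℂ, c1 = fun w => ((D.lam * ee w : ℝ) : ℂ) * D.G r h w w ^ 2 :=
      ⟨_, rfl⟩
    have hlee : ∀ w, |D.lam * ee w| ≤ D.lam := by
      intro w
      rw [abs_mul, abs_of_pos hlam0]
      exact mul_le_of_le_one_right hlam0.le (hee w)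
    have hc1b : ∀ w, ‖c1 w‖ ≤ D.lam * C1 ^ 2 := by
      intro w
      rw [hc1]
      show ‖((D.lam * ee w : ℝ) : ℂ) * D.G r h w w ^ 2‖ ≤ _
      rw [norm_mul, norm_pow, Complex.norm_real, Real.norm_eq_abs]
      have h1 := hc.diag w
      have h2 : ‖D.G r h w w‖ ^ 2 ≤ C1 ^ 2 := pow_le_pow_left₀ (norm_nonneg _) h1 2
      exact mul_le_mul (hlee w) h2 (by positivity) hlam0.le
    have hrow : ∀ x, 2 * ∑ y, (star ((wtM c c' D.SO).f r h x y) *
        (∑ w, ((D.lam * ee w : ℝ) : ℂ) * (wtM c c' D.SO).f3 w r h x y)).re ≤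
        1 / D.et r * (48 * C1 * bs * X x + 24 * C1 * E +
          24 * (D.lam * C1 ^ 3 / tq) * Y x ^ 3) := by
      intro x
      have hpt : ∀ y, (star ((wtM c c' D.SO).f r h x y) *
          (∑ w, ((D.lam * ee w : ℝ) : ℂ) * (wtM c c' D.SO).f3 w r h x y)).re =
          c r ^ 2 * ‖D.G r h x y‖ ^ 2 *
            (-(12 * (D.gcg c1 r h x y * star (D.G r h x y)).re) -
              12 * ∑ w, D.lam * ee w * (D.G r h w w).re *
                (‖D.G r h x w‖ ^ 2 * ‖D.G r h w y‖ ^ 2)) := by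
        intro y
        have h5 : (wtM c c' D.SO).f r h x y = (c r : ℂ) * ((‖D.G r h x y‖ ^ 2 : ℝ) : ℂ) := rfl
        have h3 : ∀ w, ((D.lam * ee w : ℝ) : ℂ) * (wtM c c' D.SO).f3 w r h x y =
            (c r : ℂ) * (((D.lam * ee w * (-(12 * (D.G r h w w ^ 2 *
              (D.G r h x w * D.G r h w y) * star (D.G r h x y)).re) -
              12 * ((D.G r h w w).re * (‖D.G r h x w‖ ^ 2 * ‖D.G r h w y‖ ^ 2)))) : ℝ) : ℂ) := by
          intro w
          show ((D.lam * ee w : ℝ) : ℂ) * ((c r : ℂ) * ((-(12 * (D.G r h w w ^ 2 *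
              (D.G r h x w * D.G r h w y) * star (D.G r h x y)).re) -
              12 * ((D.G r h w w).re * (‖D.G r h x w‖ ^ 2 * ‖D.G r h w y‖ ^ 2)) : ℝ) : ℂ)) = _
          push_cast
          ring
        simp_rw [h3]
        rw [← Finset.mul_sum, ← Complex.ofReal_sum, h5]
        have h6 : star ((c r : ℂ) * ((‖D.G r h x y‖ ^ 2 : ℝ) : ℂ)) =
            ((c r * ‖D.G r h x y‖ ^ 2 : ℝ) : ℂ) := by
          rw [← Complex.ofReal_mul]
          exact Complex.conj_ofReal _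
        rw [h6, ← Complex.ofReal_mul, ← Complex.ofReal_mul, Complex.ofReal_re]
        have h7 : D.gcg c1 r h x y = ∑ w, D.G r h x w * c1 w * D.G r h w y := by
          unfold Fl.gcg
          rw [Matrix.mul_apply]
          refine sum_congr rfl fun w _ => ?_
          rw [Matrix.mul_diagonal]
        have h8 : (D.gcg c1 r h x y * star (D.G r h x y)).re =
            ∑ w, D.lam * ee w * (D.G r h w w ^ 2 *
              (D.G r h x w * D.G r h w y) * star (D.G r h x y)).re := by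
          rw [h7, Finset.sum_mul, Complex.re_sum]
          refine sum_congr rfl fun w _ => ?_
          rw [hc1, ← Complex.re_ofReal_mul]
          congr 1
          ring
        rw [h8]
        have h9 : ∑ w, D.lam * ee w * (-(12 * (D.G r h w w ^ 2 *
            (D.G r h x w * D.G r h w y) * star (D.G r h x y)).re) -
            12 * ((D.G r h w w).re * (‖D.G r h x w‖ ^ 2 * ‖D.G r h w y‖ ^ 2))) =
            -(12 * ∑ w, D.lam * ee w * (D.G r h w w ^ 2 *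
              (D.G r h x w * D.G r h w y) * star (D.G r h x y)).re) -
              12 * ∑ w, D.lam * ee w * (D.G r h w w).re *
                (‖D.G r h x w‖ ^ 2 * ‖D.G r h w y‖ ^ 2) := by
          rw [Finset.mul_sum, Finset.mul_sum, ← Finset.sum_neg_distrib, ← Finset.sum_sub_distrib]
          refine sum_congr rfl fun w _ => ?_
          ring
        rw [h9]
        ring
      simp_rw [hpt]
      have hb1 : ∀ y, -(12 * (D.gcg c1 r h x y * star (D.G r h x y)).re) -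
              12 * ∑ w, D.lam * ee w * (D.G r h w w).re *
                (‖D.G r h x w‖ ^ 2 * ‖D.G r h w y‖ ^ 2) ≤
          12 * (‖D.gcg c1 r h x y‖ * ‖D.G r h x y‖) +
            12 * (D.lam * C1 * ∑ w, ‖D.G r h x w‖ ^ 2 * ‖D.G r h w y‖ ^ 2) := by
        intro y
        have h1 : -(D.gcg c1 r h x y * star (D.G r h x y)).re ≤
            ‖D.gcg c1 r h x y‖ * ‖D.G r h x y‖ := by
          have := (abs_le.1 (Complex.abs_re_le_norm (D.gcg c1 r h x y * star (D.G r h x y)))).1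
          rw [norm_mul, norm_star] at this
          linarith
        have h2 : -(∑ w, D.lam * ee w * (D.G r h w w).re *
                (‖D.G r h x w‖ ^ 2 * ‖D.G r h w y‖ ^ 2)) ≤
            D.lam * C1 * ∑ w, ‖D.G r h x w‖ ^ 2 * ‖D.G r h w y‖ ^ 2 := by
          rw [Finset.mul_sum, ← Finset.sum_neg_distrib]
          refine sum_le_sum fun w _ => ?_
          have h3 : |D.lam * ee w * (D.G r h w w).re| ≤ D.lam * C1 := by
            rw [abs_mul]
            exact mul_le_mul (hlee w) ((Complex.abs_re_le_norm _).trans (hc.diag w))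
              (abs_nonneg _) hlam0.le
          have h4 := (abs_le.1 h3).1
          have h5 : 0 ≤ ‖D.G r h x w‖ ^ 2 * ‖D.G r h w y‖ ^ 2 := by positivity
          nlinarith
        linarith
      have hb2 : ∑ y, c r ^ 2 * ‖D.G r h x y‖ ^ 2 *
            (-(12 * (D.gcg c1 r h x y * star (D.G r h x y)).re) -
              12 * ∑ w, D.lam * ee w * (D.G r h w w).re *
                (‖D.G r h x w‖ ^ 2 * ‖D.G r h w y‖ ^ 2)) ≤
          12 * (c r ^ 2 * ∑ y, ‖D.G r h x y‖ ^ 3 * ‖D.gcg c1 r h x y‖) +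
            12 * D.lam * C1 * (c r ^ 2 * I3 D r h x) := by
        calc _ ≤ ∑ y, c r ^ 2 * ‖D.G r h x y‖ ^ 2 * (12 * (‖D.gcg c1 r h x y‖ * ‖D.G r h x y‖) +
            12 * (D.lam * C1 * ∑ w, ‖D.G r h x w‖ ^ 2 * ‖D.G r h w y‖ ^ 2)) :=
              sum_le_sum fun y _ => mul_le_mul_of_nonneg_left (hb1 y) (by positivity)
          _ = _ := by
              unfold I3
              simp only [Finset.mul_sum]
              rw [← sum_add_distrib]
              refine sum_congr rfl fun y _ => ?_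
              rw [mul_add, Finset.mul_sum]
              congr 1
              · ring
              · refine sum_congr rfl fun w _ => ?_
                ring
      have h10 := hI x
      have h11 := hcub c1 (D.lam * C1 ^ 2) (by positivity) hc1b x
      have h12 : 12 * D.lam * C1 * (c r ^ 2 * I3 D r h x) ≤
          12 * C1 * (1 / D.et r * (2 * bs * X x + E)) := by
        have h3 : 0 ≤ c r ^ 2 * I3 D r h x := by
          unfold I3
          exact mul_nonneg (sq_nonneg _)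
            (sum_nonneg fun y _ => sum_nonneg fun w _ => by positivity)
        calc 12 * D.lam * C1 * (c r ^ 2 * I3 D r h x) ≤ 12 * 1 * C1 * (c r ^ 2 * I3 D r h x) := by
              gcongr
          _ ≤ 12 * 1 * C1 * (1 / D.et r * (2 * bs * X x + E)) :=
              mul_le_mul_of_nonneg_left h10 (by positivity)
          _ = _ := by ring
      calc _ ≤ 2 * (12 * (c r ^ 2 * ∑ y, ‖D.G r h x y‖ ^ 3 * ‖D.gcg c1 r h x y‖) +
            12 * D.lam * C1 * (c r ^ 2 * I3 D r h x)) :=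
            mul_le_mul_of_nonneg_left hb2 (by norm_num)
        _ ≤ 2 * (12 * (1 / D.et r * (D.lam * C1 ^ 2 * C1 / tq) * Y x ^ 3) +
            12 * C1 * (1 / D.et r * (2 * bs * X x + E))) := by linarith
        _ = _ := by ring
    have hsum : rw1 p ((wtM c c' D.SO).f r h)
        (fun x y => ∑ w, ((D.lam * ee w : ℝ) : ℂ) * (wtM c c' D.SO).f3 w r h x y) ≤
        ∑ x, p * X x ^ (p - 1) * (1 / D.et r * (48 * C1 * bs * X x + 24 * C1 * E +
          24 * (D.lam * C1 ^ 3 / tq) * Y x ^ 3)) := by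
      unfold rw1
      rw [hX]
      rw [hX] at hrow
      refine sum_le_sum fun x _ => ?_
      refine mul_le_mul_of_nonneg_left (hrow x) ?_
      have : 0 ≤ ∑ y, ‖(wtM c c' D.SO).f r h x y‖ ^ 2 := sum_nonneg fun y _ => by positivity
      positivity
    refine hsum.trans ?_
    have e1 : ∀ x, p * X x ^ (p - 1) * (1 / D.et r * (48 * C1 * bs * X x + 24 * C1 * E +
        24 * (D.lam * C1 ^ 3 / tq) * Y x ^ 3)) = 1 / D.et r * (48 * p * C1 * bs * X x ^ p +
          X x ^ (p - 1) * (24 * p * C1 * E) +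
          (Y x ^ 4) ^ (p - 1) * ((24 * p * (D.lam * C1 ^ 3 / tq)) * Y x ^ 3)) := by
      intro x
      have h1 : X x ^ p = X x ^ (p - 1) * X x := by
        rw [← pow_succ, Nat.sub_add_cancel (by omega : 1 ≤ p)]
      rw [hY4, h1]
      ring
    simp_rw [e1]
    rw [← Finset.mul_sum, sum_add_distrib, sum_add_distrib, ← Finset.mul_sum, hrw0]
    refine mul_le_mul_of_nonneg_left ?_ (by positivity)
    have y1 := ysum1 p hp X hX0 (b := 24 * p * C1 * E) (e := e) (by positivity) he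
    have y2 := ysum2 p hp Y hY0 (b := 24 * p * (D.lam * C1 ^ 3 / tq)) (e := e)
      (by positivity) he
    simp_rw [hY4] at y2 ⊢
    linarith
  obtain ⟨q, hq⟩ := rowEst p hp (wtM c c' D.SO) hr0 hs0 het hlam0 hlam1 (by positivity)
    (by positivity) (by positivity) (by positivity) (by positivity) (by positivity) H1 H2 H3
  refine ⟨q, estT_mono hq ?_ hr0 hs0 het ?_ ?_⟩
  · show 0 ≤ rw0 p ((wtM c c' D.SO).f r h)
    rw [hrw0]
    exact sum_nonneg fun x _ => pow_nonneg (hX0 x) _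
  · have h1 : 4 * (p : ℝ) ^ 2 * (72 * C1 ^ 2 * bs + 8 * tau + e / (4 * p ^ 2)) =
        288 * p ^ 2 * C1 ^ 2 * bs + 32 * p ^ 2 * tau + e := by
      field_simp
      ring
    rw [h1]
    have h2 : (1 : ℝ) ≤ C1 ^ 2 := one_le_pow₀ hC1
    have h3 : (p : ℝ) ≤ p ^ 2 := by nlinarith
    have h4 : (p : ℝ) * bs ≤ p ^ 2 * C1 ^ 2 * bs := by
      refine mul_le_mul_of_nonneg_right ?_ hbs
      calc (p : ℝ) ≤ p ^ 2 * 1 := by linarith
        _ ≤ p ^ 2 * C1 ^ 2 := mul_le_mul_of_nonneg_left h2 (by positivity)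
    have h5 : (p : ℝ) * C1 * bs ≤ p ^ 2 * C1 ^ 2 * bs := by
      refine mul_le_mul_of_nonneg_right ?_ hbs
      have : C1 ≤ C1 ^ 2 := by nlinarith
      exact mul_le_mul h3 this (by linarith) (by positivity)
    have h6 : (p : ℝ) ^ 2 * tau ≤ p ^ 2 * C1 ^ 2 * tau := by
      refine mul_le_mul_of_nonneg_right ?_ htau.le
      exact le_mul_of_one_le_right (by positivity) h2
    have h7 : 0 ≤ (p : ℝ) ^ 2 * C1 ^ 2 * bs := by positivity
    have h8 : 0 ≤ (p : ℝ) ^ 2 * C1 ^ 2 * tau := by positivity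
    nlinarith
  · obtain ⟨N, hN⟩ : ∃ N : ℝ, N = (Fintype.card ι : ℝ) := ⟨_, rfl⟩
    have hN0 : 0 ≤ N := by
      rw [hN]
      positivity
    rw [← hN]
    have hie : 1 ≤ 1 / e := by
      rw [le_div_iff₀ he]
      linarith
    have hie0 : (0 : ℝ) ≤ 1 / e := by linarith
    have h2 : (1 : ℝ) ≤ C1 ^ 2 := one_le_pow₀ hC1
    have h3 : (p : ℝ) ≤ p ^ 2 := by nlinarith
    have e1 : 4 * (p : ℝ) ^ 2 * (N * ((1 / (e / (4 * p ^ 2))) ^ (p - 1) *
        (36 * C1 ^ 2 * E) ^ p)) = N * ((1 / e) ^ (p - 1) * (144 * p ^ 2 * C1 ^ 2 * E) ^ p) := by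
      have e2 : 1 / (e / (4 * (p : ℝ) ^ 2)) = 1 / e * (4 * p ^ 2) := by
        field_simp
      have e3 : (144 * (p : ℝ) ^ 2 * C1 ^ 2 * E) ^ p = (4 * (p : ℝ) ^ 2) ^ (p - 1) *
          (4 * (p : ℝ) ^ 2) * (36 * C1 ^ 2 * E) ^ p := by
        rw [← pow_succ, Nat.sub_add_cancel (by omega : 1 ≤ p), ← mul_pow]
        congr 1
        ring
      rw [e2, mul_pow, e3]
      ring
    rw [e1]
    have a1 : (2 * p * E) ^ p + (144 * p ^ 2 * C1 ^ 2 * E) ^ p + (24 * p * C1 * E) ^ p ≤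
        (200 * p ^ 2 * C1 ^ 5 * epL / (D.et r * tau)) ^ p := by
      have e4 : 200 * (p : ℝ) ^ 2 * C1 ^ 5 * epL / (D.et r * tau) =
          200 * p ^ 2 * C1 ^ 2 * E := by
        rw [hE]
        ring
      rw [e4]
      refine pow3 p (by positivity) (by positivity) (by positivity) (by omega) ?_
      have h4 : (p : ℝ) * E ≤ p ^ 2 * C1 ^ 2 * E := by
        refine mul_le_mul_of_nonneg_right ?_ hE0
        calc (p : ℝ) ≤ p ^ 2 * 1 := by linarith
          _ ≤ p ^ 2 * C1 ^ 2 := mul_le_mul_of_nonneg_left h2 (by positivity)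
      have h5 : (p : ℝ) * C1 * E ≤ p ^ 2 * C1 ^ 2 * E := by
        refine mul_le_mul_of_nonneg_right ?_ hE0
        have : C1 ≤ C1 ^ 2 := by nlinarith
        exact mul_le_mul h3 this (by linarith) (by positivity)
      have h7 : 0 ≤ (p : ℝ) ^ 2 * C1 ^ 2 * E := by positivity
      nlinarith
    have a2 : (4 * p * (a * C1 / tq)) ^ (4 * p) + (24 * p * (D.lam * C1 ^ 3 / tq)) ^ (4 * p) ≤
        (40 * p * C1 ^ 3 * (a + D.lam)) ^ (4 * p) / tau ^ p := by
      have e5 : (40 * p * C1 ^ 3 * (a + D.lam)) ^ (4 * p) / tau ^ p =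
          (40 * p * C1 ^ 3 * (a + D.lam) / tq) ^ (4 * p) := by
        rw [div_pow, pow_mul tq, htq4]
      rw [e5]
      have a3 := pow3 (4 * p) (x := 4 * p * (a * C1 / tq)) (y := 24 * p * (D.lam * C1 ^ 3 / tq))
        (z := 0) (w := 40 * p * C1 ^ 3 * (a + D.lam) / tq) (by positivity) (by positivity)
        le_rfl (by omega) (by
          have e6 : 4 * p * (a * C1 / tq) + 24 * p * (D.lam * C1 ^ 3 / tq) + 0 =
              (4 * p * a * C1 + 24 * p * D.lam * C1 ^ 3) / tq := by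
            ring
          rw [e6]
          refine div_le_div_of_nonneg_right ?_ htq0.le
          have h9 : C1 ≤ C1 ^ 3 := by nlinarith [pow_nonneg (by linarith : (0:ℝ) ≤ C1) 2]
          have h10 : 4 * p * a * C1 ≤ 4 * p * a * C1 ^ 3 :=
            mul_le_mul_of_nonneg_left h9 (by positivity)
          have h11 : 0 ≤ p * a * C1 ^ 3 := by positivity
          have h12 : 0 ≤ p * D.lam * C1 ^ 3 := by positivity
          nlinarith)
      rw [zero_pow (by omega), add_zero] at a3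
      exact a3
    have b1 : (1 / e) ^ (p - 1) ≤ (1 / e) ^ (4 * p) := pow_le_pow_right₀ hie (by omega)
    have b2 : (1 / e) ^ (4 * p - 1) ≤ (1 / e) ^ (4 * p) := pow_le_pow_right₀ hie (by omega)
    have c1 : 0 ≤ (2 * p * E) ^ p + (144 * p ^ 2 * C1 ^ 2 * E) ^ p + (24 * p * C1 * E) ^ p := by
      positivity
    have c2 : 0 ≤ (4 * p * (a * C1 / tq)) ^ (4 * p) +
        (24 * p * (D.lam * C1 ^ 3 / tq)) ^ (4 * p) := by
      positivity
    unfold BT
    calc _ = N * ((1 / e) ^ (p - 1) * ((2 * p * E) ^ p + (144 * p ^ 2 * C1 ^ 2 * E) ^ p +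
          (24 * p * C1 * E) ^ p) + (1 / e) ^ (4 * p - 1) * ((4 * p * (a * C1 / tq)) ^ (4 * p) +
          (24 * p * (D.lam * C1 ^ 3 / tq)) ^ (4 * p))) := by ring
      _ ≤ N * ((1 / e) ^ (4 * p) * (200 * p ^ 2 * C1 ^ 5 * epL / (D.et r * tau)) ^ p +
          (1 / e) ^ (4 * p) * ((40 * p * C1 ^ 3 * (a + D.lam)) ^ (4 * p) / tau ^ p)) := by
          refine mul_le_mul_of_nonneg_left (add_le_add ?_ ?_) hN0
          · exact mul_le_mul b1 a1 c1 (by positivity)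
          · exact mul_le_mul b2 a2 c2 (by positivity)
      _ = _ := by ring

end Pool.Agent.APS
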