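import Pool.Agent.APS.TrIneq
import Pool.Agent.APS.OpLib

/-! # APS TRMUL: the drift `P A + A Q` for the dilation of `A`.

`f = dil A`.  `dil (P A) = diag(P,0) f + f diag(Pᴴ,0)`, `dil (A Q) = f diag(0,Q) + diag(0,Qᴴ) f`
(`fromBlocks`).  So `Re Tr f^(2p-1) dil(PA) = 2 Re Tr f^(2p) diag(P,0)`, and `f^(2p)` is block diagonal
with blocks `(A Aᴴ)^p`, `(Aᴴ A)^p`, both positive semidefinite with the same trace `tr0 (2p) f / 2`
(cyclicity).  `|Tr X P| ≤ a Tr X` for `X` positive semidefinite and `OpLe P a` (spectral theorem for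
`X`: `∑ x_a <a|P|a>`).  Hence `|Re Tr f^(2p-1) dil(PA)| ≤ a tr0 (2p) f`, same for `A Q`.
-/

open Matrix Finset

set_option linter.unusedSectionVars false

noncomputable section

namespace Pool.Agent.APS

variable {κ : Type} [Fintype κ] [DecidableEq κ]

theorem dil_herm (A : Matrix κ κ ℂ) : (dil A).IsHermitian := by
  unfold dil
  rw [Matrix.IsHermitian, fromBlocks_conjTranspose]
  simp

/-- `‖dil A u‖² = ‖A u₂‖² + ‖Aᴴ u₁‖²` -/
theorem dil_mulVec (A : Matrix κ κ ℂ) (u : κ ⊕ κ → ℂ) :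
    ∑ x, ‖(dil A *ᵥ u) x‖ ^ 2 = ∑ x, ‖(A *ᵥ fun y => u (Sum.inr y)) x‖ ^ 2 +
      ∑ x, ‖(Aᴴ *ᵥ fun y => u (Sum.inl y)) x‖ ^ 2 := by
  unfold dil
  rw [Fintype.sum_sum_type, fromBlocks_mulVec]
  simp only [Sum.elim_inl, Sum.elim_inr, zero_mulVec, zero_add, add_zero]
  rfl

theorem dil_opLe {A : Matrix κ κ ℂ} {a : ℝ} (ha : 0 ≤ a) (hA : OpLe A a) : OpLe (dil A) a := by
  intro u
  rw [dil_mulVec, Fintype.sum_sum_type, mul_add]
  have h1 := hA (fun y => u (Sum.inr y))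
  have h2 := opLe_ct ha hA (fun y => u (Sum.inl y))
  linarith

/-- real linear combinations -/
theorem dil_add (A B : Matrix κ κ ℂ) : dil (A + B) = dil A + dil B := by
  unfold dil
  rw [fromBlocks_add]
  simp

theorem dil_smul (c : ℝ) (A : Matrix κ κ ℂ) : dil ((c : ℂ) • A) = (c : ℂ) • dil A := by
  unfold dil
  rw [fromBlocks_smul]
  simp

/-- `tr1` is real linear in the direction -/
theorem tr1_add (n : ℕ) (f g k : Matrix κ κ ℂ) : tr1 n f (g + k) = tr1 n f g + tr1 n f k := by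
  unfold tr1
  rw [mul_add, trace_add, Complex.add_re, mul_add]

theorem tr1_smul (n : ℕ) (f g : Matrix κ κ ℂ) (c : ℝ) : tr1 n f ((c : ℂ) • g) = c * tr1 n f g := by
  unfold tr1
  rw [Matrix.mul_smul, trace_smul, smul_eq_mul, Complex.re_ofReal_mul]
  ring

private theorem opLe_pow {A : Matrix κ κ ℂ} {a : ℝ} (hA : OpLe A a) (n : ℕ) :
    OpLe (A ^ n) (a ^ n) := by
  induction n with
  | zero => simpa using opLe_one
  | succ n ih => rw [pow_succ, pow_succ]; exact opLe_mul ih hA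

private theorem trace_sq_herm {f : Matrix κ κ ℂ} (hf : f.IsHermitian) :
    (f * f).trace.re = ∑ x, ∑ y, ‖f y x‖ ^ 2 := by
  rw [trace, Complex.re_sum]
  refine Finset.sum_congr rfl fun x _ => ?_
  rw [diag_apply, mul_apply, Complex.re_sum]
  refine Finset.sum_congr rfl fun y _ => ?_
  have h : f x y = star (f y x) := by
    have := congrFun (congrFun hf x) y
    rw [conjTranspose_apply] at this
    exact this.symm
  rw [h, ← Complex.normSq_eq_norm_sq]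
  simp [Complex.normSq_apply]

/-- the norm bounds the trace -/
theorem tr0_le_of_opLe (p : ℕ) {A : Matrix κ κ ℂ} {x : ℝ} (hx : 0 ≤ x) (h : OpLe A x) :
    tr0 (2 * p) (dil A) ≤ 2 * (Fintype.card κ : ℝ) * x ^ (2 * p) := by
  have h1 := opLe_pow (dil_opLe hx h) p
  have hF : (dil A ^ p).IsHermitian := (dil_herm A).pow p
  unfold tr0
  rw [two_mul, pow_add, trace_sq_herm hF]
  calc ∑ x, ∑ y, ‖(dil A ^ p) y x‖ ^ 2 ≤ ∑ _x : κ ⊕ κ, (x ^ p) ^ 2 :=
        Finset.sum_le_sum fun y _ => opLe_col h1 y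
    _ = 2 * (Fintype.card κ : ℝ) * x ^ (p + p) := by
        rw [Finset.sum_const, Finset.card_univ, Fintype.card_sum, nsmul_eq_mul]
        push_cast
        ring

private theorem spec {ι : Type} [Fintype ι] [DecidableEq ι] {f : Matrix ι ι ℂ}
    (hf : f.IsHermitian) :
    ∃ (V : Matrix ι ι ℂ) (lam : ι → ℝ), Vᴴ * V = 1 ∧ V * Vᴴ = 1 ∧
      f = V * diagonal (fun i => (lam i : ℂ)) * Vᴴ := by
  refine ⟨hf.eigenvectorUnitary, hf.eigenvalues, ?_, ?_, ?_⟩
  · exact (Unitary.mem_iff.1 hf.eigenvectorUnitary.2).1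
  · exact (Unitary.mem_iff.1 hf.eigenvectorUnitary.2).2
  · have := hf.spectral_theorem
    rw [Unitary.conjStarAlgAut_apply] at this
    exact this

/-- `Tr |A|^(2p) ≤ x^(2p)` bounds the norm -/
theorem opLe_of_tr0 (p : ℕ) (hp : 1 ≤ p) {A : Matrix κ κ ℂ} {x : ℝ} (hx : 0 ≤ x)
    (h : tr0 (2 * p) (dil A) ≤ x ^ (2 * p)) : OpLe A x := by
  obtain ⟨V, lam, hV1, hV2, hf⟩ := spec (dil_herm A)
  have hpow : ∀ n : ℕ, dil A ^ n = V * diagonal (fun i => ((lam i : ℂ)) ^ n) * Vᴴ := by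
    intro n
    induction n with
    | zero => simp [hV2]
    | succ n ih =>
      rw [pow_succ, ih, hf]
      have e : V * diagonal (fun i => ((lam i : ℂ)) ^ n) * Vᴴ *
          (V * diagonal (fun i => (lam i : ℂ)) * Vᴴ) =
          V * (diagonal (fun i => ((lam i : ℂ)) ^ n) * (Vᴴ * V) *
            diagonal (fun i => (lam i : ℂ))) * Vᴴ := by
        simp only [Matrix.mul_assoc]
      rw [e, hV1, Matrix.mul_one, diagonal_mul_diagonal]
      rfl
  have htr : tr0 (2 * p) (dil A) = ∑ i, lam i ^ (2 * p) := by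
    unfold tr0
    rw [hpow, trace_mul_comm, ← Matrix.mul_assoc, hV1, Matrix.one_mul, trace_diagonal,
      Complex.re_sum]
    refine Finset.sum_congr rfl fun i _ => ?_
    rw [← Complex.ofReal_pow, Complex.ofReal_re]
  have hlam : ∀ i, lam i ^ 2 ≤ x ^ 2 := by
    intro i
    have h1 : lam i ^ (2 * p) ≤ x ^ (2 * p) := by
      refine le_trans ?_ (htr ▸ h)
      exact Finset.single_le_sum (f := fun i => lam i ^ (2 * p))
        (fun j _ => (even_two_mul p).pow_nonneg _) (Finset.mem_univ i)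
    rw [pow_mul, pow_mul] at h1
    exact (pow_le_pow_iff_left₀ (sq_nonneg _) (sq_nonneg _) (by omega)).1 h1
  have hiso : ∀ (W : Matrix (κ ⊕ κ) (κ ⊕ κ) ℂ) (_ : Wᴴ * W = 1) (u : κ ⊕ κ → ℂ),
      ∑ y, ‖(W *ᵥ u) y‖ ^ 2 = ∑ y, ‖u y‖ ^ 2 := by
    intro W hW u
    have e1 : ∀ v : κ ⊕ κ → ℂ, ((∑ y, ‖v y‖ ^ 2 : ℝ) : ℂ) = star v ⬝ᵥ v := by
      intro v
      rw [dotProduct]
      push_cast
      refine Finset.sum_congr rfl fun y _ => ?_
      rw [Pi.star_apply, ← Complex.ofReal_pow, ← Complex.normSq_eq_norm_sq,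
        Complex.normSq_eq_conj_mul_self]
      rfl
    have e2 : ((∑ y, ‖(W *ᵥ u) y‖ ^ 2 : ℝ) : ℂ) = ((∑ y, ‖u y‖ ^ 2 : ℝ) : ℂ) := by
      rw [e1, e1, star_mulVec, ← dotProduct_mulVec, mulVec_mulVec, hW, one_mulVec]
    exact_mod_cast e2
  have hop : OpLe (dil A) x := by
    intro u
    have e : dil A *ᵥ u = V *ᵥ (diagonal (fun i => (lam i : ℂ)) *ᵥ (Vᴴ *ᵥ u)) := by
      rw [mulVec_mulVec, mulVec_mulVec, ← hf]
    rw [e, hiso V hV1]
    have hVu := hiso Vᴴ (by rw [conjTranspose_conjTranspose]; exact hV2) u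
    rw [← hVu, Finset.mul_sum]
    refine Finset.sum_le_sum fun i _ => ?_
    rw [mulVec_diagonal, norm_mul, mul_pow, Complex.norm_real, Real.norm_eq_abs, sq_abs]
    exact mul_le_mul_of_nonneg_right (hlam i) (sq_nonneg _)
  intro u
  have h1 := hop (Sum.elim 0 u)
  rw [dil_mulVec, Fintype.sum_sum_type] at h1
  simp only [Sum.elim_inl, Sum.elim_inr, Pi.zero_apply, norm_zero] at h1
  have h2 : (Aᴴ *ᵥ fun _ : κ => (0 : ℂ)) = 0 := mulVec_zero _
  rw [h2] at h1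
  simpa using h1

private theorem trace_cols {F D : Matrix (κ ⊕ κ) (κ ⊕ κ) ℂ} (hF : F.IsHermitian) :
    (F * F * D).trace = ∑ x, star (fun y => F y x) ⬝ᵥ (D *ᵥ (fun y => F y x)) := by
  rw [Matrix.mul_assoc, trace_mul_comm, Matrix.mul_assoc, trace]
  refine Finset.sum_congr rfl fun x _ => ?_
  rw [diag_apply, mul_apply, dotProduct]
  refine Finset.sum_congr rfl fun y _ => ?_
  have h : F x y = star (F y x) := by
    have := congrFun (congrFun hF x) y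
    rw [conjTranspose_apply] at this
    exact this.symm
  rw [h]
  rfl

/-- block bound: `|Tr F² D| ≤ a Re Tr F² e` -/
private theorem trace_block {F D : Matrix (κ ⊕ κ) (κ ⊕ κ) ℂ} (hF : F.IsHermitian)
    {P : Matrix κ κ ℂ} {a : ℝ} (ha : 0 ≤ a) (hP : OpLe P a) (i : κ → κ ⊕ κ)
    (hD : ∀ v : κ ⊕ κ → ℂ, star v ⬝ᵥ (D *ᵥ v) = ∑ x, star (v (i x)) * (P *ᵥ (fun y => v (i y))) x) :
    ‖(F * F * D).trace‖ ≤ a * ∑ x, ∑ y, ‖F (i y) x‖ ^ 2 := by
  rw [trace_cols hF, Finset.mul_sum]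
  refine (norm_sum_le _ _).trans (Finset.sum_le_sum fun x _ => ?_)
  rw [hD]
  refine (opLe_form ha hP _ _).trans (le_of_eq ?_)
  rw [mul_assoc, Real.mul_self_sqrt (Finset.sum_nonneg fun y _ => sq_nonneg _)]

private theorem form_l (P : Matrix κ κ ℂ) (v : κ ⊕ κ → ℂ) :
    star v ⬝ᵥ (fromBlocks P 0 0 0 *ᵥ v) =
      ∑ x, star (v (Sum.inl x)) * (P *ᵥ (fun y => v (Sum.inl y))) x := by
  rw [dotProduct, Fintype.sum_sum_type, fromBlocks_mulVec]
  simp only [Sum.elim_inl, Sum.elim_inr, zero_mulVec, zero_add, add_zero, Pi.zero_apply, mul_zero,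
    Finset.sum_const_zero]
  rfl

private theorem form_r (P : Matrix κ κ ℂ) (v : κ ⊕ κ → ℂ) :
    star v ⬝ᵥ (fromBlocks 0 0 0 P *ᵥ v) =
      ∑ x, star (v (Sum.inr x)) * (P *ᵥ (fun y => v (Sum.inr y))) x := by
  rw [dotProduct, Fintype.sum_sum_type, fromBlocks_mulVec]
  simp only [Sum.elim_inl, Sum.elim_inr, zero_mulVec, zero_add, add_zero, Pi.zero_apply, mul_zero,
    Finset.sum_const_zero]
  rfl

private theorem trace_one (F : Matrix (κ ⊕ κ) (κ ⊕ κ) ℂ) (hF : F.IsHermitian) (i : κ → κ ⊕ κ)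
    (D : Matrix (κ ⊕ κ) (κ ⊕ κ) ℂ)
    (hD : ∀ v : κ ⊕ κ → ℂ, star v ⬝ᵥ (D *ᵥ v) = ∑ x, star (v (i x)) *
      ((1 : Matrix κ κ ℂ) *ᵥ (fun y => v (i y))) x) :
    (F * F * D).trace.re = ∑ x, ∑ y, ‖F (i y) x‖ ^ 2 := by
  rw [trace_cols hF, Complex.re_sum]
  refine Finset.sum_congr rfl fun x _ => ?_
  rw [hD, one_mulVec, Complex.re_sum]
  refine Finset.sum_congr rfl fun y _ => ?_
  rw [← Complex.normSq_eq_norm_sq]
  simp [Complex.normSq_apply]

theorem tr1_mul (p : ℕ) (hp : 1 ≤ p) {A P Q : Matrix κ κ ℂ} {a b : ℝ} (ha : 0 ≤ a) (hb : 0 ≤ b)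
    (hP : OpLe P a) (hQ : OpLe Q b) :
    |tr1 (2 * p) (dil A) (dil (P * A + A * Q))| ≤ 2 * p * (a + b) * tr0 (2 * p) (dil A) := by
  set f := dil A with hf
  have hF : (f ^ p).IsHermitian := (dil_herm A).pow p
  have hpow : f ^ (2 * p) = f ^ p * f ^ p := by rw [two_mul, pow_add]
  have c1 : ∀ D : Matrix (κ ⊕ κ) (κ ⊕ κ) ℂ,
      (f ^ (2 * p - 1) * (D * f)).trace = (f ^ p * f ^ p * D).trace := by
    intro D
    rw [← Matrix.mul_assoc, trace_mul_comm, ← Matrix.mul_assoc, ← pow_succ',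
      show 2 * p - 1 + 1 = 2 * p by omega, hpow]
  have c2 : ∀ D : Matrix (κ ⊕ κ) (κ ⊕ κ) ℂ,
      (f ^ (2 * p - 1) * (f * D)).trace = (f ^ p * f ^ p * D).trace := by
    intro D
    rw [← Matrix.mul_assoc, ← pow_succ, show 2 * p - 1 + 1 = 2 * p by omega, hpow]
  set Tl := ∑ x, ∑ y, ‖(f ^ p) (Sum.inl y) x‖ ^ 2 with hTl
  set Tr := ∑ x, ∑ y, ‖(f ^ p) (Sum.inr y) x‖ ^ 2 with hTr
  have e1 : dil (P * A) = fromBlocks P 0 0 0 * f + f * fromBlocks Pᴴ 0 0 0 := by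
    rw [hf]
    unfold dil
    rw [fromBlocks_multiply, fromBlocks_multiply, fromBlocks_add]
    simp
  have e2 : dil (A * Q) = f * fromBlocks 0 0 0 Q + fromBlocks 0 0 0 Qᴴ * f := by
    rw [hf]
    unfold dil
    rw [fromBlocks_multiply, fromBlocks_multiply, fromBlocks_add]
    simp
  have e3 : f * fromBlocks 1 0 0 0 = fromBlocks 0 0 0 1 * f := by
    rw [hf]
    unfold dil
    rw [fromBlocks_multiply, fromBlocks_multiply]
    simp
  have hsum : tr0 (2 * p) f = Tl + Tr := by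
    unfold tr0
    rw [hpow, trace_sq_herm hF, hTl, hTr, ← Finset.sum_add_distrib]
    refine Finset.sum_congr rfl fun x _ => ?_
    rw [Fintype.sum_sum_type]
  have heq : Tl = Tr := by
    rw [hTl, hTr, ← trace_one (f ^ p) hF Sum.inl _ (form_l 1),
      ← trace_one (f ^ p) hF Sum.inr _ (form_r 1), ← c2, e3, c1]
  have b1 := trace_block hF ha hP Sum.inl (form_l P)
  have b2 := trace_block hF ha (opLe_ct ha hP) Sum.inl (form_l Pᴴ)
  have b3 := trace_block hF hb hQ Sum.inr (form_r Q)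
  have b4 := trace_block hF hb (opLe_ct hb hQ) Sum.inr (form_r Qᴴ)
  have hmain : |(f ^ (2 * p - 1) * dil (P * A + A * Q)).trace.re| ≤ (a + b) * tr0 (2 * p) f := by
    rw [dil_add, e1, e2, mul_add, mul_add, mul_add, trace_add, trace_add, trace_add, c1, c2, c2, c1]
    refine (Complex.abs_re_le_norm _).trans ((norm_add_le _ _).trans ?_)
    have n1 := norm_add_le (f ^ p * f ^ p * fromBlocks P 0 0 0).trace
      (f ^ p * f ^ p * fromBlocks Pᴴ 0 0 0).trace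
    have n2 := norm_add_le (f ^ p * f ^ p * fromBlocks 0 0 0 Q).trace
      (f ^ p * f ^ p * fromBlocks 0 0 0 Qᴴ).trace
    rw [hsum]
    rw [← hTl] at b1 b2
    rw [← hTr] at b3 b4
    rw [← heq] at b3 b4 ⊢
    nlinarith
  unfold tr1
  rw [abs_mul, abs_of_nonneg (by positivity : (0 : ℝ) ≤ ((2 * p : ℕ) : ℝ)), mul_assoc (2 * (p : ℝ))]
  push_cast
  exact mul_le_mul_of_nonneg_left hmain (by positivity)

end Pool.Agent.APS
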