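import Pool.Agent.APS.TrEst
import Pool.Agent.APS.TrMul
import Pool.Agent.APS.NoiseS
import Pool.Agent.APS.ErrB
import Pool.Agent.APS.DriftId

/-! # APS ESTY: the estimates of the component `Y`: `Tr |c (R - U)|^(2p)`.

The same as ESTH with `R` in place of `S`, without `Pi`: `A = c (R - U)`, drift
`dil (2rs (U A + A R) + 2rs c errR - (2 r s om/et) A)`, `R² - U² = U (R - U) + (R - U) R`;
`‖U‖ ≤ cR`, `‖R‖ ≤ bR` (not divided by `et` here), noise from `noise_R1`, `noise_R2` and their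
adjoint versions, third derivatives from `third_R`, error from `errR_op`.
-/

open Matrix Finset

noncomputable section

namespace Pool.Agent.APS

open Pool.Agent.Kin

variable {ι : Type} [Fintype ι] [DecidableEq ι] {D : Fl ι} {C1 a tau r : ℝ} {h : ι → ℝ}

omit [DecidableEq ι] in
private theorem estY_mono {c : Comp ι} {lam s et r A B A' B' : ℝ} {h q : ι → ℝ}
    (H : c.Est lam s et r A B h q) (hG : 0 ≤ c.Ga r h) (hr : 0 ≤ r) (hs : 0 < s) (het : 0 < et)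
    (hA : A ≤ A') (hB : B ≤ B') : c.Est lam s et r A' B' h q := by
  have h1 : A * c.Ga r h + B ≤ A' * c.Ga r h + B' :=
    add_le_add (mul_le_mul_of_nonneg_right hA hG) hB
  exact ⟨H.dr.trans (mul_le_mul_of_nonneg_left h1 (by positivity)), H.q0, H.qu, H.g1, H.d1,
    H.qs.trans (mul_le_mul_of_nonneg_left h1 (by positivity)), fun e he =>
      (H.dd e he).trans (mul_le_mul_of_nonneg_left h1 (by positivity))⟩

private theorem tr1_self {κ : Type} [Fintype κ] [DecidableEq κ] (n : ℕ) (hn : 1 ≤ n)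
    (f : Matrix κ κ ℂ) : tr1 n f f = n * tr0 n f := by
  unfold tr1 tr0
  rw [← pow_succ, Nat.sub_add_cancel hn]

/-- noise of the dilation of a real multiple -/
private theorem dil_noise (k : ℝ) (B : ι → Matrix ι ι ℂ) {m : ℝ}
    (h1 : ∀ u : ι → ℂ, ∑ w, ∑ x, ‖(B w *ᵥ u) x‖ ^ 2 ≤ m * ∑ x, ‖u x‖ ^ 2)
    (h2 : ∀ u : ι → ℂ, ∑ w, ∑ x, ‖((B w)ᴴ *ᵥ u) x‖ ^ 2 ≤ m * ∑ x, ‖u x‖ ^ 2)
    (u : ι ⊕ ι → ℂ) :
    ∑ w, ∑ x, ‖(dil ((k : ℂ) • B w) *ᵥ u) x‖ ^ 2 ≤ k ^ 2 * m * ∑ x, ‖u x‖ ^ 2 := by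
  have e1 : ∀ (M : Matrix ι ι ℂ) (v : ι → ℂ) (x : ι), ‖(((k : ℂ) • M) *ᵥ v) x‖ ^ 2 =
      k ^ 2 * ‖(M *ᵥ v) x‖ ^ 2 := by
    intro M v x
    rw [Matrix.smul_mulVec, Pi.smul_apply, norm_smul, mul_pow, Complex.norm_real,
      Real.norm_eq_abs, sq_abs]
  have e2 : ∀ w, ((k : ℂ) • B w)ᴴ = (k : ℂ) • (B w)ᴴ := by
    intro w
    rw [conjTranspose_smul, Complex.star_def, Complex.conj_ofReal]
  simp_rw [dil_mulVec, e2, e1]
  simp only [sum_add_distrib, ← mul_sum]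
  rw [Fintype.sum_sum_type]
  have g1 := h1 (fun y => u (Sum.inr y))
  have g2 := h2 (fun y => u (Sum.inl y))
  have hk := sq_nonneg k
  nlinarith [mul_le_mul_of_nonneg_left g1 hk, mul_le_mul_of_nonneg_left g2 hk]

private theorem pow2 (p : ℕ) {x y w : ℝ} (hx : 0 ≤ x) (hy : 0 ≤ y)
    (hp : 1 ≤ p) (h : x + y ≤ w) : x ^ p + y ^ p ≤ w ^ p := by
  obtain ⟨q, rfl⟩ : ∃ q, p = q + 1 := ⟨p - 1, by omega⟩
  have hxw : x ≤ w := by linarith
  have hyw : y ≤ w := by linarith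
  have hw : 0 ≤ w := by linarith
  calc x ^ (q + 1) + y ^ (q + 1) = x ^ q * x + y ^ q * y := by simp only [pow_succ]
    _ ≤ w ^ q * x + w ^ q * y := by gcongr
    _ = w ^ q * (x + y) := by ring
    _ ≤ w ^ q * w := mul_le_mul_of_nonneg_left h (pow_nonneg hw q)
    _ = w ^ (q + 1) := by rw [pow_succ]

theorem estY (hc : D.Cfg C1 a tau r h) (p : ℕ) (hp : 2 ≤ p) (U U' : ℝ → Matrix ι ι ℂ)
    (hU' : U' r = ((2 * r * D.s : ℝ) : ℂ) • (U r * U r)) {cR bR : ℝ} (hcR : 0 ≤ cR)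
    (hbR : 0 ≤ bR) (hU : OpLe (U r) cR) (hR : OpLe (D.RO.f r h) bR) (c c' : ℝ → ℝ)
    (om w0 y : ℝ) (hc0 : 0 < c r) (hcr' : c' r = -(2 * r * D.s * om / D.et r) * c r)
    (hy : y = D.et r / c r) (hw0 : 0 ≤ w0) (hw : D.et r * cR + D.et r * bR - om ≤ w0)
    (e : ℝ) (he : 0 < e) (he1 : e ≤ 1) :
    ∃ q : ι → ℝ, (trComp (2 * p) (D.yO U U' c c')).Est D.lam D.s (D.et r) r
      (2 * p * w0 + 3 * e) (BH (Fintype.card ι) C1 D.lam a tau y e p) h q := by
  have het := hc.et0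
  have htau := hc.tau0
  have hC1 := hc.one_le
  have hr0 := hc.r0
  have hs0 := hc.s0
  have hlam0 := hc.lam0
  have hlam1 := hc.lam1
  have ha0 := hc.a0
  have hp2 : (2 : ℝ) ≤ p := by exact_mod_cast hp
  obtain ⟨k, hk⟩ : ∃ k, k = c r := ⟨_, rfl⟩
  rw [← hk] at hc0 hcr' hy
  obtain ⟨R, hRd⟩ : ∃ R, R = D.RO.f r h := ⟨_, rfl⟩
  obtain ⟨A, hA⟩ : ∃ A : Matrix ι ι ℂ, A = (k : ℂ) • (R - U r) := ⟨_, rfl⟩
  have hOf : (D.yO U U' c c').f r h = dil A := by
    rw [hA, hRd, hk]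
    rfl
  have hT0 : 0 ≤ tr0 (2 * p) (dil A) := tr0_nonneg p (dil_herm A)
  obtain ⟨x₁, hx₁⟩ : ∃ x₁ : ℝ, x₁ = k * (2 * a * C1 / D.et r ^ 2) := ⟨_, rfl⟩
  have hx₁0 : 0 ≤ x₁ := by
    rw [hx₁]
    positivity
  have hnk : ‖(k : ℂ)‖ = k := by
    rw [Complex.norm_real, Real.norm_eq_abs, abs_of_pos hc0]
  -- the drift
  have H1 : tr1 (2 * p) ((D.yO U U' c c').f r h) ((D.yO U U' c c').fr r h +
      ((D.s * r : ℝ) : ℂ) • ∑ w, (D.yO U U' c c').f2 w r h) ≤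
      2 * r * D.s / D.et r * ((2 * p * w0 + e) * tr0 (2 * p) ((D.yO U U' c c').f r h) +
        ((Fintype.card (ι ⊕ ι) : ℝ) *
          ((1 / e) ^ (2 * p - 1) * (D.et r * (2 * p * x₁)) ^ (2 * p)))) := by
    have hdir : (D.yO U U' c c').fr r h + ((D.s * r : ℝ) : ℂ) • ∑ w, (D.yO U U' c c').f2 w r h =
        ((2 * r * D.s : ℝ) : ℂ) • dil (U r * A + A * R) +
          ((2 * r * D.s : ℝ) : ℂ) • dil ((k : ℂ) • D.errR r h) +
          ((-(2 * r * D.s * om / D.et r) : ℝ) : ℂ) • dil A := by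
      have g1 : (D.yO U U' c c').fr r h = dil ((k : ℂ) • (D.RO.fr r h - U' r) +
          (c' r : ℂ) • (R - U r)) := by
        rw [hRd, hk]
        rfl
      have g2 : ∀ w, (D.yO U U' c c').f2 w r h = dil ((k : ℂ) • D.RO.f2 w r h) := by
        intro w
        rw [hk]
        rfl
      have g3 : ∑ w, (D.yO U U' c c').f2 w r h = dil ((k : ℂ) • ∑ w, D.RO.f2 w r h) := by
        simp_rw [g2, Finset.smul_sum]
        unfold dil
        ext i j
        rw [Matrix.sum_apply]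
        rcases i with i | i <;> rcases j with j | j <;>
          simp [Matrix.sum_apply, conjTranspose_apply, star_sum]
      rw [g1, g3, ← dil_smul, ← dil_add, ← dil_smul, ← dil_smul, ← dil_smul, ← dil_add,
        ← dil_add]
      congr 1
      have hd := drift_R D hc.sym het h
      have e1 : (k : ℂ) • (D.RO.fr r h - U' r) + (c' r : ℂ) • (R - U r) +
          ((D.s * r : ℝ) : ℂ) • ((k : ℂ) • ∑ w, D.RO.f2 w r h) =
          (k : ℂ) • ((D.RO.fr r h + ((D.s * r : ℝ) : ℂ) • ∑ w, D.RO.f2 w r h) - U' r) +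
            (c' r : ℂ) • (R - U r) := by
        rw [smul_sub (k : ℂ) (D.RO.fr r h) (U' r), smul_sub (k : ℂ) _ (U' r), smul_add (k : ℂ),
          smul_comm ((D.s * r : ℝ) : ℂ) (k : ℂ)]
        abel
      rw [e1, hd, hU', ← hRd]
      have e2 : U r * A + A * R = (k : ℂ) • (R * R - U r * U r) := by
        rw [hA, Matrix.mul_smul, Matrix.smul_mul, ← smul_add, Matrix.mul_sub, Matrix.sub_mul]
        congr 1
        abel
      have e3 : (c' r : ℂ) • (R - U r) = ((-(2 * r * D.s * om / D.et r) : ℝ) : ℂ) • A := by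
        rw [hA, smul_smul, ← Complex.ofReal_mul, hcr']
      rw [e2, e3, smul_comm ((2 * r * D.s : ℝ) : ℂ) (k : ℂ), smul_comm ((2 * r * D.s : ℝ) : ℂ)
        (k : ℂ), ← smul_add]
      congr 2
      rw [← smul_sub, ← smul_add]
      congr 1
      abel
    rw [hdir, hOf, tr1_add, tr1_add, tr1_smul, tr1_smul, tr1_smul,
      tr1_self (2 * p) (by omega)]
    have m1 := tr1_mul p (by omega) (A := A) hcR hbR hU hR
    rw [← hRd] at m1
    have m2 := tr1_le p (by omega) (dil_herm A) hx₁0 he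
      (dil_opLe hx₁0 (by
        have := opLe_smul (k : ℂ) (errR_op hc)
        rw [hnk] at this
        rw [hx₁]
        exact this)) het.le
    obtain ⟨T, hT⟩ : ∃ T, T = tr0 (2 * p) (dil A) := ⟨_, rfl⟩
    obtain ⟨V, hV⟩ : ∃ V, V = (Fintype.card (ι ⊕ ι) : ℝ) *
          ((1 / e) ^ (2 * p - 1) * (D.et r * (2 * p * x₁)) ^ (2 * p)) := ⟨_, rfl⟩
    rw [← hT] at m1 m2 hT0 ⊢
    rw [← hV] at m2 ⊢
    have m3 := (le_abs_self _).trans m1
    have m4 : tr1 (2 * p) (dil A) (dil ((k : ℂ) • D.errR r h)) ≤ 1 / D.et r * (e * T + V) := by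
      refine (le_abs_self _).trans ?_
      rw [one_div, ← div_eq_inv_mul, le_div_iff₀ het, mul_comm]
      exact m2
    have hrs : 0 ≤ 2 * r * D.s := by positivity
    have m5 := mul_le_mul_of_nonneg_left m3 hrs
    have m6 := mul_le_mul_of_nonneg_left m4 hrs
    have m7 : 2 * r * D.s / D.et r * (2 * p * (D.et r * cR + D.et r * bR - om) * T) ≤
        2 * r * D.s / D.et r * (2 * p * w0 * T) := by
      refine mul_le_mul_of_nonneg_left ?_ (by positivity)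
      refine mul_le_mul_of_nonneg_right ?_ hT0
      exact mul_le_mul_of_nonneg_left hw (by positivity)
    have m8 : 2 * r * D.s * (2 * p * (cR + bR) * T) + 2 * r * D.s * (1 / D.et r * (e * T + V)) +
        -(2 * r * D.s * om / D.et r) * (((2 * p : ℕ) : ℝ) * T) =
        2 * r * D.s / D.et r * (2 * p * (D.et r * cR + D.et r * bR - om) * T) +
          2 * r * D.s / D.et r * (e * T + V) := by
      push_cast
      field_simp
      ring
    calc _ ≤ 2 * r * D.s * (2 * p * (cR + bR) * T) + 2 * r * D.s * (1 / D.et r * (e * T + V)) +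
        -(2 * r * D.s * om / D.et r) * (((2 * p : ℕ) : ℝ) * T) := by linarith
      _ = _ := m8
      _ ≤ 2 * r * D.s / D.et r * (2 * p * w0 * T) + 2 * r * D.s / D.et r * (e * T + V) := by
          linarith
      _ = _ := by ring
  -- the noise
  obtain ⟨nu2, hnu2⟩ : ∃ nu2 : ℝ, nu2 = k ^ 2 * (80 * C1 ^ 4 * √tau / D.et r ^ 3) := ⟨_, rfl⟩
  have hnu20 : 0 ≤ nu2 := by
    rw [hnu2]
    positivity
  have H2 : ∀ u : ι ⊕ ι → ℂ, ∑ w, ∑ x, (‖((D.yO U U' c c').f1 w r h *ᵥ u) x‖ ^ 2 +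
      ‖((D.yO U U' c c').f2 w r h *ᵥ u) x‖ ^ 2) ≤ (√nu2) ^ 2 * ∑ x, ‖u x‖ ^ 2 := by
    intro u
    rw [Real.sq_sqrt hnu20]
    simp only [sum_add_distrib]
    have g1 : ∀ w, (D.yO U U' c c').f1 w r h = dil ((k : ℂ) • D.RO.f1 w r h) := by
      intro w
      rw [hk]
      rfl
    have g2 : ∀ w, (D.yO U U' c c').f2 w r h = dil ((k : ℂ) • D.RO.f2 w r h) := by
      intro w
      rw [hk]
      rfl
    simp_rw [g1, g2]
    have n1 := dil_noise k (fun w => D.RO.f1 w r h) (noise_R1 hc) (noise_R1' hc) u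
    have n2 := dil_noise k (fun w => D.RO.f2 w r h) (noise_R2 hc) (noise_R2' hc) u
    have hu0 : 0 ≤ ∑ x, ‖u x‖ ^ 2 := sum_nonneg fun x _ => by positivity
    refine (add_le_add n1 n2).trans ?_
    rw [← add_mul, hnu2]
    refine mul_le_mul_of_nonneg_right ?_ hu0
    rw [← mul_add]
    refine mul_le_mul_of_nonneg_left ?_ (sq_nonneg k)
    rw [← add_div]
    refine div_le_div_of_nonneg_right ?_ (by positivity)
    have h2 : C1 ^ 2 ≤ C1 ^ 4 := pow_le_pow_right₀ hC1 (by norm_num)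
    have h3 := mul_le_mul_of_nonneg_right h2 (Real.sqrt_nonneg tau)
    nlinarith
  -- third derivatives
  obtain ⟨x₃, hx₃⟩ : ∃ x₃ : ℝ, x₃ = k * (24 * D.lam * C1 ^ 3 / D.et r ^ 2) := ⟨_, rfl⟩
  have hx₃0 : 0 ≤ x₃ := by
    rw [hx₃]
    positivity
  have H3 : ∀ ee : ι → ℝ, (∀ w, |ee w| ≤ 1) →
      OpLe (∑ w, ((D.lam * ee w : ℝ) : ℂ) • (D.yO U U' c c').f3 w r h) x₃ := by
    intro ee hee
    have g3 : ∑ w, ((D.lam * ee w : ℝ) : ℂ) • (D.yO U U' c c').f3 w r h =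
        dil ((k : ℂ) • ∑ w, ((D.lam * ee w : ℝ) : ℂ) • D.RO.f3 w r h) := by
      have g2 : ∀ w, (D.yO U U' c c').f3 w r h = dil ((k : ℂ) • D.RO.f3 w r h) := by
        intro w
        rw [hk]
        rfl
      simp_rw [g2, ← dil_smul, Finset.smul_sum]
      unfold dil
      ext i j
      rw [Matrix.sum_apply]
      rcases i with i | i <;> rcases j with j | j <;>
        simp [Matrix.sum_apply, conjTranspose_apply, star_sum, mul_left_comm]
    rw [g3]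
    refine dil_opLe hx₃0 ?_
    have := opLe_smul (k : ℂ) (third_R hc ee hee)
    rw [hnk] at this
    rw [hx₃]
    exact this
  obtain ⟨q, hq⟩ := trEst p (by omega) (D.yO U U' c c') hr0 hs0 het hlam0 hlam1
    (by rw [hOf]; exact dil_herm A) (fun w => dil_herm _) (fun w => dil_herm _)
    (A0 := 2 * p * w0 + e) (by positivity) (by positivity) he he1 (Real.sqrt_nonneg nu2) hx₃0
    H1 H2 H3
  refine ⟨q, estY_mono hq ?_ hr0 hs0 het (by linarith) ?_⟩
  · show 0 ≤ tr0 (2 * p) ((D.yO U U' c c').f r h)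
    rw [hOf]
    exact hT0
  · rw [Real.sq_sqrt hnu20]
    have hcard : (Fintype.card (ι ⊕ ι) : ℝ) = 2 * (Fintype.card ι : ℝ) := by
      rw [Fintype.card_sum]
      push_cast
      ring
    rw [hcard]
    obtain ⟨N, hN⟩ : ∃ N : ℝ, N = (Fintype.card ι : ℝ) := ⟨_, rfl⟩
    have hN0 : 0 ≤ N := by
      rw [hN]
      positivity
    rw [← hN]
    have hy0 : 0 < y := by
      rw [hy]
      positivity
    have hie : 1 ≤ 1 / e := by
      rw [le_div_iff₀ he]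
      linarith
    have b2 : (1 / e) ^ (2 * p - 1) ≤ (1 / e) ^ (2 * p) := pow_le_pow_right₀ hie (by omega)
    have e1 : D.et r * (2 * p * x₁) = 4 * p * a * C1 / y := by
      rw [hx₁, hy]
      field_simp
      ring
    have e2 : 2 * p * x₃ * D.et r = 48 * p * C1 ^ 3 * D.lam / y := by
      rw [hx₃, hy]
      field_simp
      ring
    have e3 : (8 * p ^ 2 * nu2 * D.et r) ^ p ≤ (30 * p * C1 ^ 2 * √√tau / y) ^ (2 * p) := by
      rw [pow_mul]
      refine pow_le_pow_left₀ (by positivity) ?_ p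
      have e4 : 8 * (p : ℝ) ^ 2 * nu2 * D.et r = 640 * p ^ 2 * C1 ^ 4 * √tau / y ^ 2 := by
        rw [hnu2, hy]
        field_simp
        ring
      have e5 : (30 * p * C1 ^ 2 * √√tau / y) ^ 2 = 900 * p ^ 2 * C1 ^ 4 * √tau / y ^ 2 := by
        have e7 : (30 * p * C1 ^ 2 * √√tau / y) ^ 2 =
            900 * p ^ 2 * C1 ^ 4 * (√√tau) ^ 2 / y ^ 2 := by ring
        rw [e7, Real.sq_sqrt (Real.sqrt_nonneg _)]
      rw [e4, e5]
      refine div_le_div_of_nonneg_right ?_ (by positivity)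
      have : 0 ≤ (p : ℝ) ^ 2 * C1 ^ 4 * √tau := by positivity
      nlinarith
    have e6 : (4 * p * a * C1 / y) ^ (2 * p) + (48 * p * C1 ^ 3 * D.lam / y) ^ (2 * p) ≤
        (60 * p * C1 ^ 3 * (a + D.lam) / y) ^ (2 * p) := by
      refine pow2 (2 * p) (by positivity) (by positivity) (by omega) ?_
      rw [← add_div]
      refine div_le_div_of_nonneg_right ?_ hy0.le
      have h9 : C1 ≤ C1 ^ 3 := by nlinarith [pow_nonneg (by linarith : (0:ℝ) ≤ C1) 2]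
      have h10 : 4 * p * a * C1 ≤ 4 * p * a * C1 ^ 3 :=
        mul_le_mul_of_nonneg_left h9 (by positivity)
      have h11 : 0 ≤ p * a * C1 ^ 3 := by positivity
      have h12 : 0 ≤ p * D.lam * C1 ^ 3 := by positivity
      nlinarith
    rw [e1, e2]
    unfold BH
    obtain ⟨P1, hP1⟩ : ∃ P1, P1 = (4 * p * a * C1 / y) ^ (2 * p) := ⟨_, rfl⟩
    obtain ⟨P2, hP2⟩ : ∃ P2, P2 = (8 * p ^ 2 * nu2 * D.et r) ^ p := ⟨_, rfl⟩
    obtain ⟨P3, hP3⟩ : ∃ P3, P3 = (48 * p * C1 ^ 3 * D.lam / y) ^ (2 * p) := ⟨_, rfl⟩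
    obtain ⟨P4, hP4⟩ : ∃ P4, P4 = (60 * p * C1 ^ 3 * (a + D.lam) / y) ^ (2 * p) := ⟨_, rfl⟩
    obtain ⟨P5, hP5⟩ : ∃ P5, P5 = (30 * p * C1 ^ 2 * √√tau / y) ^ (2 * p) := ⟨_, rfl⟩
    obtain ⟨I1, hI1⟩ : ∃ I1, I1 = (1 / e) ^ (2 * p - 1) := ⟨_, rfl⟩
    obtain ⟨I2, hI2⟩ : ∃ I2, I2 = (1 / e) ^ (2 * p) := ⟨_, rfl⟩
    have p1 : 0 ≤ P1 := by rw [hP1]; positivity
    have p2 : 0 ≤ P2 := by rw [hP2]; positivity
    have p3 : 0 ≤ P3 := by rw [hP3]; positivity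
    have p5 : 0 ≤ I2 := by rw [hI2]; positivity
    rw [← hP1, ← hP3, ← hP4] at e6
    rw [← hP2, ← hP5] at e3
    rw [← hI1, ← hI2] at b2
    rw [← hP1, ← hP2, ← hP3, ← hP4, ← hP5, ← hI1, ← hI2]
    calc 2 * N * (I1 * P1) + 2 * N * I2 * (P2 + P3) ≤ 2 * N * (I2 * P1) +
          2 * N * I2 * (P2 + P3) := by
          have := mul_le_mul_of_nonneg_left (mul_le_mul_of_nonneg_right b2 p1)
            (by linarith : 0 ≤ 2 * N)
          linarith
      _ = 2 * N * I2 * ((P1 + P3) + P2) := by ring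
      _ ≤ 2 * N * I2 * (P4 + P5) := by
          refine mul_le_mul_of_nonneg_left (add_le_add e6 e3) (by positivity)
      _ ≤ 4 * N * I2 * (P4 + P5) := by
          have p4 : 0 ≤ P4 + P5 := by linarith
          have p6 : 0 ≤ N * I2 := by positivity
          nlinarith [mul_nonneg p6 p4]

end Pool.Agent.APS
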