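import Pool.Agent.APS.Defs

/-! # APS FATSTEIN: laws with a density between two positive constants on a compact interval have
bounded Stein kernels (after centering).

Let `ρ` be the density on `[α, β]`, `c1 ≤ ρ ≤ c2`, `m` the mean, `sg` the variance (positive).
`T(x) = ρ(x)⁻¹ ∫_x^β (u - m) ρ(u) du` on `[α, β]`, `0` outside.  `T ≥ 0` (the integral increases up
to `m` from `0` and decreases to `0`: `∫_α^β (u-m) ρ = 0`), `T ≤ c2 (β-α)²/c1`.  For `f` in `C¹`, by
Fubini `∫ T f' dμ = ∫_α^β f'(x) ∫_x^β (u-m) ρ(u) du dx = ∫_α^β (u-m) ρ(u) (f(u) - f(α)) du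
= ∫ (u-m) f(u) dμ`.  With `f(x) = x - m`: `∫ T dμ = sg`.
`T3(x) = ρ(x)⁻¹ ∫_x^β (T(u) - sg) ρ(u) du`, same computation.
Then shift by `m` (the law of `x - m`): kernels `T(· + m)`, `T3(· + m)`.
-/

open MeasureTheory

noncomputable section

namespace Pool.Agent.APS

/-- The law has a density between two positive constants on a compact interval and no mass
outside. -/
def FatDensity (μ : Measure ℝ) : Prop :=
  ∃ α β c1 c2 : ℝ, α < β ∧ 0 < c1 ∧ ∃ ρ : ℝ → ℝ, Measurable ρ ∧
    (∀ x ∈ Set.Icc α β, c1 ≤ ρ x ∧ ρ x ≤ c2) ∧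
    μ = (volume.restrict (Set.Icc α β)).withDensity (fun x => ENNReal.ofReal (ρ x))

private def nu (α β : ℝ) : Measure ℝ := volume.restrict (Set.Icc α β)

private instance nu_fin (α β : ℝ) : IsFiniteMeasure (nu α β) := by
  unfold nu
  infer_instance

private lemma nu_ae (α β : ℝ) : ∀ᵐ x ∂(nu α β), x ∈ Set.Icc α β :=
  ae_restrict_mem measurableSet_Icc

private lemma nu_int {α β : ℝ} {g : ℝ → ℝ} (hg : Measurable g) {B : ℝ}
    (hB : ∀ x ∈ Set.Icc α β, |g x| ≤ B) : Integrable g (nu α β) := by
  refine Integrable.of_bound hg.aestronglyMeasurable B ?_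
  filter_upwards [nu_ae α β] with x hx
  exact hB x hx

/-- `x ↦ ∫_x^β g` -/
private def GG (α β : ℝ) (g : ℝ → ℝ) (x : ℝ) : ℝ := ∫ u, (if x ≤ u then g u else 0) ∂(nu α β)

private lemma GG_meas (α β : ℝ) {g : ℝ → ℝ} (hg : Measurable g) : Measurable (GG α β g) := by
  have h : Measurable (Function.uncurry fun x u : ℝ => if x ≤ u then g u else 0) :=
    Measurable.ite (measurableSet_le measurable_fst measurable_snd) (hg.comp measurable_snd)
      measurable_const
  exact (h.stronglyMeasurable.integral_prod_right).measurable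

private lemma GG_bound {α β : ℝ} (hαβ : α ≤ β) (g : ℝ → ℝ) {B : ℝ} (hB0 : 0 ≤ B)
    (hB : ∀ x ∈ Set.Icc α β, |g x| ≤ B) (x : ℝ) : |GG α β g x| ≤ B * (β - α) := by
  have h : ‖∫ u, (if x ≤ u then g u else 0) ∂(nu α β)‖ ≤ B * (nu α β).real Set.univ := by
    refine norm_integral_le_of_norm_le_const ?_
    filter_upwards [nu_ae α β] with u hu
    split_ifs
    · exact hB u hu
    · rw [norm_zero]
      exact hB0
  have h2 : (nu α β).real Set.univ = β - α := by
    unfold nu
    rw [measureReal_restrict_apply_univ, Real.volume_real_Icc_of_le hαβ]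
  rw [h2] at h
  exact h

private lemma int_tail {α β : ℝ} (f f' : ℝ → ℝ) (hf : ∀ x, HasDerivAt f (f' x) x)
    (hf' : Continuous f') {u : ℝ} (hu : u ∈ Set.Icc α β) :
    ∫ x, (if x ≤ u then f' x else 0) ∂(nu α β) = f u - f α := by
  have h1 : (fun x => if x ≤ u then f' x else 0) = Set.indicator (Set.Iic u) f' := by
    funext x
    rw [Set.indicator_apply]
    rfl
  have h2 : Set.Iic u ∩ Set.Icc α β = Set.Icc α u := by
    ext x
    simp only [Set.mem_inter_iff, Set.mem_Iic, Set.mem_Icc]
    constructor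
    · rintro ⟨a, b, -⟩
      exact ⟨b, a⟩
    · rintro ⟨a, b⟩
      exact ⟨b, a, b.trans hu.2⟩
  rw [h1, integral_indicator measurableSet_Iic]
  unfold nu
  rw [Measure.restrict_restrict measurableSet_Iic, h2, integral_Icc_eq_integral_Ioc,
    ← intervalIntegral.integral_of_le hu.1]
  exact intervalIntegral.integral_eq_sub_of_hasDerivAt (fun x _ => hf x)
    (hf'.intervalIntegrable _ _)

/-- Fubini -/
private lemma fub {α β : ℝ} {g : ℝ → ℝ} (hg : Measurable g) {B : ℝ}
    (hB : ∀ x ∈ Set.Icc α β, |g x| ≤ B) (hg0 : ∫ u, g u ∂(nu α β) = 0) (f f' : ℝ → ℝ)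
    (hf : ∀ x, HasDerivAt f (f' x) x) (hf' : Continuous f') :
    ∫ u, g u * f u ∂(nu α β) = ∫ x, GG α β g x * f' x ∂(nu α β) := by
  have hgi : Integrable g (nu α β) := nu_int hg hB
  obtain ⟨Cf', hCf'⟩ := isCompact_Icc.exists_bound_of_continuousOn
    (hf'.continuousOn (s := Set.Icc α β))
  have hfi' : Integrable f' (nu α β) := nu_int hf'.measurable (B := Cf') hCf'
  have hfc : Continuous f := continuous_iff_continuousAt.2 fun x => (hf x).continuousAt
  obtain ⟨Cf, hCf⟩ := isCompact_Icc.exists_bound_of_continuousOn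
    (hfc.continuousOn (s := Set.Icc α β))
  let F : ℝ → ℝ → ℝ := fun x u => if x ≤ u then f' x * g u else 0
  have hF : Integrable (Function.uncurry F) ((nu α β).prod (nu α β)) := by
    have h1 : Integrable (fun z : ℝ × ℝ => f' z.1 * g z.2) ((nu α β).prod (nu α β)) :=
      hfi'.mul_prod hgi
    have h2 : Function.uncurry F =
        Set.indicator {z : ℝ × ℝ | z.1 ≤ z.2} (fun z : ℝ × ℝ => f' z.1 * g z.2) := by
      funext z
      rw [Set.indicator_apply]
      rfl
    rw [h2]
    exact h1.indicator (measurableSet_le measurable_fst measurable_snd)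
  have hsw := integral_integral_swap hF
  have hL : ∀ x, ∫ u, F x u ∂(nu α β) = GG α β g x * f' x := by
    intro x
    have : ∀ u, F x u = (if x ≤ u then g u else 0) * f' x := by
      intro u
      show (if x ≤ u then f' x * g u else 0) = _
      split_ifs
      · ring
      · ring
    simp only [this]
    rw [integral_mul_const]
    rfl
  have hR : ∫ u, (∫ x, F x u ∂(nu α β)) ∂(nu α β) = ∫ u, g u * (f u - f α) ∂(nu α β) := by
    refine integral_congr_ae ?_
    filter_upwards [nu_ae α β] with u hu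
    have : ∀ x, F x u = g u * (if x ≤ u then f' x else 0) := by
      intro x
      show (if x ≤ u then f' x * g u else 0) = _
      split_ifs
      · ring
      · ring
    simp only [this]
    rw [integral_const_mul, int_tail f f' hf hf' hu]
  simp only [hL] at hsw
  rw [hsw, hR]
  have hgf : Integrable (fun u => g u * f u) (nu α β) := by
    refine nu_int (hg.mul hfc.measurable) (B := B * Cf) ?_
    intro x hx
    rw [abs_mul]
    have h1 := hB x hx
    have h2 : |f x| ≤ Cf := hCf x hx
    exact mul_le_mul h1 h2 (abs_nonneg _) ((abs_nonneg _).trans h1)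
  have : ∀ u, g u * (f u - f α) = g u * f u - g u * f α := fun u => by ring
  simp only [this]
  rw [integral_sub hgf (hgi.mul_const _), integral_mul_const, hg0]
  ring

private lemma int_mu {α β c1 c2 : ℝ} {ρ : ℝ → ℝ} (hρ : Measurable ρ) (hc1 : 0 < c1)
    (hb : ∀ x ∈ Set.Icc α β, c1 ≤ ρ x ∧ ρ x ≤ c2) (φ : ℝ → ℝ) :
    ∫ x, φ x ∂((volume.restrict (Set.Icc α β)).withDensity fun x => ENNReal.ofReal (ρ x)) =
      ∫ x, ρ x * φ x ∂(nu α β) := by
  rw [integral_withDensity_eq_integral_toReal_smul hρ.ennreal_ofReal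
    (Filter.Eventually.of_forall fun _ => ENNReal.ofReal_lt_top)]
  refine integral_congr_ae ?_
  filter_upwards [nu_ae α β] with x hx
  have h0 : 0 ≤ ρ x := hc1.le.trans (hb x hx).1
  rw [ENNReal.toReal_ofReal h0, smul_eq_mul]

/-- the kernel of the weight `w` -/
private def Kw (α β : ℝ) (ρ w : ℝ → ℝ) (x : ℝ) : ℝ :=
  open Classical in if x ∈ Set.Icc α β then (ρ x)⁻¹ * GG α β (fun u => ρ u * w u) x else 0

private lemma Kw_meas (α β : ℝ) {ρ w : ℝ → ℝ} (hρ : Measurable ρ) (hw : Measurable w) :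
    Measurable (Kw α β ρ w) := by
  classical
  unfold Kw
  exact Measurable.ite measurableSet_Icc (hρ.inv.mul (GG_meas α β (hρ.mul hw))) measurable_const

private lemma Kw_bound {α β c1 c2 : ℝ} (hαβ : α ≤ β) {ρ w : ℝ → ℝ} (hc1 : 0 < c1)
    (hb : ∀ x ∈ Set.Icc α β, c1 ≤ ρ x ∧ ρ x ≤ c2) {W : ℝ} (hW0 : 0 ≤ W)
    (hW : ∀ x ∈ Set.Icc α β, |w x| ≤ W) (x : ℝ) :
    |Kw α β ρ w x| ≤ c1⁻¹ * (c2 * W * (β - α)) := by
  have hc2 : 0 ≤ c2 := by
    have := hb α (Set.left_mem_Icc.2 hαβ)
    linarith [this.1, this.2]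
  have hba : 0 ≤ β - α := by linarith
  unfold Kw
  split_ifs with hx
  · have h1 : |GG α β (fun u => ρ u * w u) x| ≤ c2 * W * (β - α) := by
      refine GG_bound hαβ _ (mul_nonneg hc2 hW0) ?_ x
      intro u hu
      rw [abs_mul]
      have h2 := hb u hu
      have h3 : |ρ u| ≤ c2 := by
        rw [abs_of_nonneg (hc1.le.trans h2.1)]
        exact h2.2
      exact mul_le_mul h3 (hW u hu) (abs_nonneg _) hc2
    rw [abs_mul, abs_inv]
    have h4 : c1 ≤ |ρ x| := (hb x hx).1.trans (le_abs_self _)
    have h5 : |ρ x|⁻¹ ≤ c1⁻¹ := inv_anti₀ hc1 h4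
    exact mul_le_mul h5 h1 (abs_nonneg _) (inv_nonneg.2 hc1.le)
  · rw [abs_zero]
    exact mul_nonneg (inv_nonneg.2 hc1.le) (mul_nonneg (mul_nonneg hc2 hW0) hba)

private lemma Kw_stein {α β c1 c2 : ℝ} (hαβ : α ≤ β) {ρ w : ℝ → ℝ} (hρ : Measurable ρ)
    (hw : Measurable w) (hc1 : 0 < c1)
    (hb : ∀ x ∈ Set.Icc α β, c1 ≤ ρ x ∧ ρ x ≤ c2) {W : ℝ}
    (hW : ∀ x ∈ Set.Icc α β, |w x| ≤ W) {μ : Measure ℝ}
    (hμ : μ = (volume.restrict (Set.Icc α β)).withDensity fun x => ENNReal.ofReal (ρ x))
    (h0 : ∫ x, w x ∂μ = 0) (f f' : ℝ → ℝ) (hf : ∀ x, HasDerivAt f (f' x) x)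
    (hf' : Continuous f') : ∫ x, w x * f x ∂μ = ∫ x, Kw α β ρ w x * f' x ∂μ := by
  have hc2 : 0 ≤ c2 := by
    have := hb α (Set.left_mem_Icc.2 hαβ)
    linarith [this.1, this.2]
  rw [hμ, int_mu hρ hc1 hb] at h0
  rw [hμ, int_mu hρ hc1 hb, int_mu hρ hc1 hb]
  have hB : ∀ x ∈ Set.Icc α β, |ρ x * w x| ≤ c2 * W := by
    intro u hu
    rw [abs_mul]
    have h2 := hb u hu
    have h3 : |ρ u| ≤ c2 := by
      rw [abs_of_nonneg (hc1.le.trans h2.1)]
      exact h2.2
    exact mul_le_mul h3 (hW u hu) (abs_nonneg _) hc2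
  have key := fub (g := fun u => ρ u * w u) (hρ.mul hw) hB h0 f f' hf hf'
  have e1 : ∀ x, ρ x * (w x * f x) = ρ x * w x * f x := fun x => by ring
  simp only [e1]
  refine Eq.trans key ?_
  refine integral_congr_ae ?_
  filter_upwards [nu_ae α β] with x hx
  unfold Kw
  rw [if_pos hx]
  have h4 : ρ x ≠ 0 := (lt_of_lt_of_le hc1 (hb x hx).1).ne'
  rw [← mul_assoc, ← mul_assoc, mul_inv_cancel₀ h4, one_mul]

private lemma GG_nonneg {α β : ℝ} {g : ℝ → ℝ} {m : ℝ} (hg : Measurable g) {B : ℝ}
    (hB : ∀ x ∈ Set.Icc α β, |g x| ≤ B) (hg0 : ∫ u, g u ∂(nu α β) = 0)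
    (hp : ∀ u ∈ Set.Icc α β, m ≤ u → 0 ≤ g u) (hn : ∀ u ∈ Set.Icc α β, u ≤ m → g u ≤ 0) (x : ℝ) :
    0 ≤ GG α β g x := by
  have hgi : Integrable g (nu α β) := nu_int hg hB
  unfold GG
  rcases le_total m x with hx | hx
  · refine integral_nonneg_of_ae ?_
    filter_upwards [nu_ae α β] with u hu
    show (0 : ℝ) ≤ if x ≤ u then g u else 0
    split_ifs with h
    · exact hp u hu (hx.trans h)
    · exact le_rfl
  · have h1 : ∀ u, (if x ≤ u then g u else 0) = g u - (if x ≤ u then 0 else g u) := by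
      intro u
      split_ifs <;> ring
    have h2 : Integrable (fun u => if x ≤ u then 0 else g u) (nu α β) := by
      have h3 : (fun u => if x ≤ u then (0 : ℝ) else g u) = Set.indicator (Set.Iio x) g := by
        funext u
        rw [Set.indicator_apply]
        by_cases h : x ≤ u
        · rw [if_pos h, if_neg (by simpa using h)]
        · rw [if_neg h, if_pos (by simpa using h)]
      rw [h3]
      exact hgi.indicator measurableSet_Iio
    simp only [h1]
    rw [integral_sub hgi h2, hg0, zero_sub, neg_nonneg]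
    refine integral_nonpos_of_ae ?_
    filter_upwards [nu_ae α β] with u hu
    show (if x ≤ u then 0 else g u) ≤ (0 : ℝ)
    split_ifs with h
    · exact le_rfl
    · exact hn u hu ((not_le.1 h).le.trans hx)

theorem fat_stein (μ : Measure ℝ) [IsProbabilityMeasure μ] (hμ : FatDensity μ) :
    ∃ (bd sg CT : ℝ) (T T3 : ℝ → ℝ),
      SteinLaw (μ.map fun x => x - ∫ y, y ∂μ) bd sg CT T T3 ∧ ∀ᵐ x ∂μ, |x| ≤ bd := by
  obtain ⟨α, β, c1, c2, hαβ, hc1, ρ, hρ, hb, hμe⟩ := hμ
  set m : ℝ := ∫ y, y ∂μ with hm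
  have hc2 : 0 ≤ c2 := by
    have := hb α (Set.left_mem_Icc.2 hαβ.le)
    linarith [this.1, this.2]
  have hac : μ ≪ volume := by
    rw [hμe]
    exact (withDensity_absolutelyContinuous _ _).trans Measure.absolutelyContinuous_restrict
  have hsupp : ∀ᵐ x ∂μ, x ∈ Set.Icc α β := by
    have h1 : ∀ᵐ x ∂(volume.restrict (Set.Icc α β)), x ∈ Set.Icc α β :=
      ae_restrict_mem measurableSet_Icc
    rw [hμe]
    exact (withDensity_absolutelyContinuous _ _).ae_le h1
  -- integrability of bounded functions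
  have hint : ∀ (g : ℝ → ℝ), Measurable g → ∀ B : ℝ, (∀ x ∈ Set.Icc α β, |g x| ≤ B) →
      Integrable g μ := by
    intro g hg B hB
    refine Integrable.of_bound hg.aestronglyMeasurable B ?_
    filter_upwards [hsupp] with x hx
    exact hB x hx
  set R : ℝ := |α| + |β| + |m| + 1 with hR
  have hR0 : 0 < R := by positivity
  have hxR : ∀ x ∈ Set.Icc α β, |x| ≤ R := by
    intro x hx
    rw [abs_le]
    have h1 := neg_abs_le α
    have h2 := le_abs_self β
    have h3 := abs_nonneg α
    have h4 := abs_nonneg β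
    have h5 := abs_nonneg m
    constructor
    · linarith [hx.1]
    · linarith [hx.2]
  have hxmR : ∀ x ∈ Set.Icc α β, |x - m| ≤ R := by
    intro x hx
    rw [abs_le]
    have h1 := neg_abs_le α
    have h2 := le_abs_self β
    have h3 := abs_nonneg α
    have h4 := abs_nonneg β
    have h5 := neg_abs_le m
    have h6 := le_abs_self m
    constructor
    · linarith [hx.1]
    · linarith [hx.2]
  have hidi : Integrable (fun x : ℝ => x) μ := hint _ measurable_id R hxR
  -- the first kernel
  have hw0 : ∫ x, (x - m) ∂μ = 0 := by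
    rw [integral_sub hidi (integrable_const m), integral_const, ← hm]
    simp
  set T : ℝ → ℝ := Kw α β ρ (fun u => u - m) with hT
  have hTm : Measurable T := Kw_meas α β hρ (measurable_id.sub_const m)
  have hTb : ∀ x, |T x| ≤ c1⁻¹ * (c2 * R * (β - α)) :=
    Kw_bound hαβ.le hc1 hb hR0.le hxmR
  have hTi : Integrable T μ := hint T hTm _ fun x _ => hTb x
  have hst1 : ∀ f f' : ℝ → ℝ, (∀ x, HasDerivAt f (f' x) x) → Continuous f' →
      ∫ x, (x - m) * f x ∂μ = ∫ x, T x * f' x ∂μ := fun f f' hf hf' =>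
    Kw_stein hαβ.le hρ (measurable_id.sub_const m) hc1 hb hxmR hμe hw0 f f' hf hf'
  have hT0 : ∀ x, 0 ≤ T x := by
    intro x
    rw [hT]
    unfold Kw
    split_ifs with hx
    · refine mul_nonneg (inv_nonneg.2 (hc1.le.trans (hb x hx).1)) ?_
      refine GG_nonneg (g := fun u => ρ u * (u - m)) (m := m)
        (hρ.mul (measurable_id.sub_const m)) (B := c2 * R) ?_ ?_ ?_ ?_ x
      · intro u hu
        rw [abs_mul]
        have h2 := hb u hu
        have h3 : |ρ u| ≤ c2 := by
          rw [abs_of_nonneg (hc1.le.trans h2.1)]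
          exact h2.2
        exact mul_le_mul h3 (hxmR u hu) (abs_nonneg _) hc2
      · have h1 := hw0
        rw [hμe, int_mu hρ hc1 hb] at h1
        exact h1
      · intro u hu hmu
        exact mul_nonneg (hc1.le.trans (hb u hu).1) (sub_nonneg.2 hmu)
      · intro u hu hmu
        exact mul_nonpos_of_nonneg_of_nonpos (hc1.le.trans (hb u hu).1) (sub_nonpos.2 hmu)
    · exact le_rfl
  -- the variance
  set sg : ℝ := ∫ x, T x ∂μ with hsg
  have hsg1 : sg = ∫ x, (x - m) ^ 2 ∂μ := by
    have h1 := hst1 (fun x => x - m) (fun _ => 1) (fun x => (hasDerivAt_id x).sub_const m)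
      continuous_const
    simp only [mul_one] at h1
    rw [hsg, ← h1]
    refine integral_congr_ae (Filter.Eventually.of_forall fun x => ?_)
    show (x - m) * (x - m) = (x - m) ^ 2
    ring
  have hsg0 : 0 < sg := by
    rw [hsg1]
    have hi2 : Integrable (fun x : ℝ => (x - m) ^ 2) μ := by
      refine hint _ ((measurable_id.sub_const m).pow_const 2) (R ^ 2) ?_
      intro x hx
      rw [abs_pow]
      exact pow_le_pow_left₀ (abs_nonneg _) (hxmR x hx) 2
    rcases (integral_nonneg (μ := μ) (f := fun x : ℝ => (x - m) ^ 2)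
      fun x => sq_nonneg _).lt_or_eq with h | h
    · exact h
    · exfalso
      have h2 := (integral_eq_zero_iff_of_nonneg (fun x : ℝ => sq_nonneg (x - m)) hi2).1 h.symm
      have h3 : ∀ᵐ x ∂μ, x = m := by
        filter_upwards [h2] with x hx
        have : (x - m) ^ 2 = 0 := hx
        have h5 := pow_eq_zero_iff (n := 2) (by norm_num) |>.1 this
        linarith
      have h4 : ∀ᵐ x ∂μ, x ≠ m := by
        have : μ {m} = 0 := hac (measure_singleton m)
        rw [ae_iff]
        simpa using this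
      have h5 : ∀ᵐ _x ∂μ, False := by
        filter_upwards [h3, h4] with x h6 h7
        exact h7 h6
      rw [Filter.eventually_false_iff_eq_bot, ae_eq_bot] at h5
      exact (IsProbabilityMeasure.ne_zero μ) h5
  -- the second kernel
  set CT1 : ℝ := c1⁻¹ * (c2 * R * (β - α)) with hCT1
  have hCT1n : 0 ≤ CT1 := (abs_nonneg _).trans (hTb 0)
  have hw3b : ∀ x ∈ Set.Icc α β, |T x - sg| ≤ CT1 + sg := by
    intro x _
    rw [abs_le]
    have h1 := hT0 x
    have h2 := (le_abs_self _).trans (hTb x)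
    constructor <;> linarith
  have hw30 : ∫ x, (T x - sg) ∂μ = 0 := by
    rw [integral_sub hTi (integrable_const sg), integral_const, ← hsg]
    simp
  have hw3m : Measurable fun x => T x - sg := hTm.sub_const sg
  set T3 : ℝ → ℝ := Kw α β ρ (fun u => T u - sg) with hT3
  have hT3m : Measurable T3 := Kw_meas α β hρ hw3m
  have hT3b : ∀ x, |T3 x| ≤ c1⁻¹ * (c2 * (CT1 + sg) * (β - α)) :=
    Kw_bound hαβ.le hc1 hb (by linarith) hw3b
  have hst2 : ∀ f f' : ℝ → ℝ, (∀ x, HasDerivAt f (f' x) x) → Continuous f' →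
      ∫ x, (T x - sg) * f x ∂μ = ∫ x, T3 x * f' x ∂μ := fun f f' hf hf' =>
    Kw_stein hαβ.le hρ hw3m hc1 hb hw3b hμe hw30 f f' hf hf'
  set CT3 : ℝ := c1⁻¹ * (c2 * (CT1 + sg) * (β - α)) with hCT3
  have hCT3n : 0 ≤ CT3 := (abs_nonneg _).trans (hT3b 0)
  -- the shifted law
  have hsh : Measurable fun x : ℝ => x - m := measurable_id.sub_const m
  have hsf : ∀ f f' : ℝ → ℝ, (∀ x, HasDerivAt f (f' x) x) →
      ∀ x, HasDerivAt (fun x => f (x - m)) (f' (x - m)) x := by
    intro f f' hf x
    have := (hf (x - m)).comp x ((hasDerivAt_id x).sub_const m)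
    rw [mul_one] at this
    exact this
  refine ⟨R, sg, CT1 + CT3 + 1, fun y => T (y + m), fun y => T3 (y + m), ?_, ?_⟩
  · refine
      { prob := Measure.isProbabilityMeasure_map hsh.aemeasurable
        supp := ?_
        bd0 := hR0
        sg0 := hsg0
        CT0 := by linarith
        mT := hTm.comp (measurable_id.add_const m)
        mT3 := hT3m.comp (measurable_id.add_const m)
        T0 := fun x => hT0 _
        Tb := fun x => by
          have := (le_abs_self _).trans (hTb (x + m))
          linarith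
        T3b := fun x => by
          have := hT3b (x + m)
          linarith
        i1 := ?_
        i2 := ?_ }
    · have hms : MeasurableSet {x : ℝ | |x| ≤ R} :=
        measurableSet_le continuous_abs.measurable measurable_const
      rw [ae_map_iff hsh.aemeasurable hms]
      filter_upwards [hsupp] with x hx
      exact hxmR x hx
    · intro f f' hf hf'
      have hfc : Continuous f := continuous_iff_continuousAt.2 fun x => (hf x).continuousAt
      have m1 : Measurable fun y : ℝ => y * f y := measurable_id.mul hfc.measurable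
      have m2 : Measurable fun y : ℝ => T (y + m) * f' y :=
        (hTm.comp (measurable_id.add_const m)).mul hf'.measurable
      rw [integral_map hsh.aemeasurable m1.aestronglyMeasurable,
        integral_map hsh.aemeasurable m2.aestronglyMeasurable]
      have h1 := hst1 (fun x => f (x - m)) (fun x => f' (x - m)) (hsf f f' hf)
        (hf'.comp (continuous_id.sub continuous_const))
      simp only [sub_add_cancel]
      exact h1
    · intro f f' hf hf'
      have hfc : Continuous f := continuous_iff_continuousAt.2 fun x => (hf x).continuousAt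
      have m1 : Measurable fun y : ℝ => (T (y + m) - sg) * f y :=
        ((hTm.comp (measurable_id.add_const m)).sub_const sg).mul hfc.measurable
      have m2 : Measurable fun y : ℝ => T3 (y + m) * f' y :=
        (hT3m.comp (measurable_id.add_const m)).mul hf'.measurable
      rw [integral_map hsh.aemeasurable m1.aestronglyMeasurable,
        integral_map hsh.aemeasurable m2.aestronglyMeasurable]
      have h1 := hst2 (fun x => f (x - m)) (fun x => f' (x - m)) (hsf f f' hf)
        (hf'.comp (continuous_id.sub continuous_const))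
      simp only [sub_add_cancel]
      exact h1
  · filter_upwards [hsupp] with x hx
    exact hxR x hx

end Pool.Agent.APS
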