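import Pool.Agent.APS.TorGood
import Pool.Agent.APS.FatStein
import Pool.Agent.Kin.FinalK

/-! # APS FINZ: the theorem on `ℤ^d` (compare Kin/FinalK.lean, whose proof can be adapted).

`ℓ = log(1/λ)`, `A = Lsc b λ = exp(ℓ^(1+b))`, `b1 = (1+b)/2`; for small `λ`: `A^C ≤ exp(ℓ^(1+b1))` for every fixed `C`.
`c = ∫ x dμ`; `fat_stein` gives `SteinLaw` for the law of `ω_0 - c`; `|ω_x| ≤ bd` a.s.
`η = A^(-2)`, `L = ⌈A^4⌉₊`, `torus_good` with `b1`, `δ/2`: for every `E0 ∈ [δ/2, 4d - δ/2]`, with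
probability `≥ 1 - exp(-ℓ^(1+b1))`: `‖G_xx - g0‖ ≤ 1`, so `‖res(..)_xx‖ ≤ C1 = rhi + 1` for all `x`
(`D.zr 1 = z`, `D.hv 1 v = λ v`).
Union over the centres `|x|_∞ ≤ A` (at most `(3A)^d`) and an energy net of spacing `A^(-4)`
(`Helper2.AM.net`, `exists_net`; at most `(4d+1) A^4` points), as `badK` with `R = 0` in FinalK (`form_zero`,
`badK_prob`; here only the second condition is needed, so use the set of `s` such that not all diagonal
entries are at most `C1`).  Total failure probability `≤ (3A)^d (4d+1) A^4 exp(-ℓ^(1+b1)) ≤ 1/A`.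
On the good set `transfer` with `R = 0` and `form_zero`: for the net point `En` with
`|E - λ c - En| ≤ A^(-4)`, `V = ω - c`:
`‖ψ x‖² ≤ C (C1/η) (m_L((H-En)ψ) + (1/L² + η²) m_L(ψ))`, `massZ_shift`:
`m_L((H'-En)ψ) ≤ 2 m_L((H-E)ψ) + 2 A^(-8) m_L(ψ)`; so
`‖ψ x‖² ≤ C C1 A² (2 m_L((H-E)ψ) + 4 A^(-4) m_L(ψ)) ≤ A⁻¹ (m_L(ψ) + A⁴ m_L((H-E)ψ))` once `4 C C1 ≤ A`.
-/

open Matrix Finset MeasureTheory ProbabilityTheory

noncomputable section

namespace Pool.Agent.APS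

open Pool.Agent.Kin

/-- the scale `exp(log(1/λ)^(1+b))` -/
def Lsc (b lam : ℝ) : ℝ := Real.exp (Real.log (1 / lam) ^ (1 + b))

/-- the bad event for one centre and one energy -/
private def badZ {Ω : Type} {d : ℕ} (ω : (Fin d → ℤ) → Ω → ℝ) (c : ℝ) (L : ℕ) [NeZero L]
    (E η lam C1 : ℝ) (x : Fin d → ℤ) : Set Ω :=
  {s | ¬ ∀ y, ‖res (H0T d L) ((E : ℂ) + (η : ℂ) * Complex.I)
      (fun w => lam * (ω (x + rep w) s - c)) y y‖ ≤ C1}

private lemma badZ_prob {Ω : Type} [MeasurableSpace Ω] {P : Measure Ω} [IsProbabilityMeasure P]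
    {d : ℕ} {ω : (Fin d → ℤ) → Ω → ℝ} (hi : iIndepFun ω P)
    (hid : ∀ x, IdentDistrib (ω x) (ω 0) P P)
    (c : ℝ) (L : ℕ) [NeZero L] (E η lam C1 : ℝ) (x : Fin d → ℤ) (p : ENNReal)
    (hp : (Measure.pi fun _ : Tor d L => P.map fun s => ω 0 s - c)
        {h | ¬ ∀ y, ‖res (H0T d L) ((E : ℂ) + (η : ℂ) * Complex.I) (fun w => lam * h w) y y‖ ≤ C1}
        ≤ p) :
    P (badZ ω c L E η lam C1 x) ≤ p := by
  obtain ⟨h1, h2⟩ := law_torus P ω hi hid L x c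
  refine le_trans ?_ hp
  rw [← h2]
  exact Measure.le_map_apply h1 _

/-- numbers -/
private lemma numZ (b K : ℝ) (n : ℕ) (hb0 : 0 < b) (hb1 : b < 1) :
    ∃ lam0 : ℝ, 0 < lam0 ∧ ∀ lam : ℝ, 0 < lam → lam ≤ lam0 →
      K ≤ Lsc b lam ∧
      Lsc b lam ^ n ≤ Real.exp (Real.log (1 / lam) ^ (1 + (1 + b) / 2)) ∧
      (1 / lam) ^ 3 ≤ Lsc b lam := by
  have h1 : ∀ᶠ x : ℝ in Filter.atTop, (3 : ℝ) ≤ x ^ b :=
    (tendsto_rpow_atTop hb0).eventually_ge_atTop 3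
  have h2 : ∀ᶠ x : ℝ in Filter.atTop, (n : ℝ) ≤ x ^ ((1 - b) / 2) :=
    (tendsto_rpow_atTop (by linarith)).eventually_ge_atTop _
  obtain ⟨l0, hl0⟩ := Filter.eventually_atTop.1 (h1.and h2)
  refine ⟨Real.exp (-(max (max l0 1) K)), Real.exp_pos _, ?_⟩
  intro lam h0 hle
  set l : ℝ := Real.log (1 / lam) with hl
  have hll : max (max l0 1) K ≤ l := by
    have h3 : Real.log lam ≤ -(max (max l0 1) K) := by
      have := Real.log_le_log h0 hle
      rwa [Real.log_exp] at this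
    have h4 : l = -Real.log lam := by
      rw [hl, one_div, Real.log_inv]
    rw [h4]
    linarith
  have hl1 : l0 ≤ l := ((le_max_left _ _).trans (le_max_left _ _)).trans hll
  have hl2 : 1 ≤ l := ((le_max_right _ _).trans (le_max_left _ _)).trans hll
  have hl3 : K ≤ l := (le_max_right _ _).trans hll
  obtain ⟨h3, h4⟩ := hl0 l hl1
  have hlp : 0 < l := by linarith
  have e1 : l ^ (1 + b) = l * l ^ b := by
    rw [Real.rpow_add hlp, Real.rpow_one]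
  have e2 : l ^ (1 + (1 + b) / 2) = l ^ ((1 - b) / 2) * l ^ (1 + b) := by
    rw [← Real.rpow_add hlp]
    congr 1
    ring
  have h5 : 3 * l ≤ l ^ (1 + b) := by
    rw [e1]
    nlinarith
  refine ⟨?_, ?_, ?_⟩
  · unfold Lsc
    rw [← hl]
    have := Real.add_one_le_exp (l ^ (1 + b))
    linarith
  · unfold Lsc
    rw [← hl, ← Real.exp_nat_mul]
    apply Real.exp_le_exp.2
    rw [e2]
    exact mul_le_mul_of_nonneg_right h4 (by positivity)
  · unfold Lsc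
    rw [← hl]
    have h6 : Real.exp l = 1 / lam := by
      rw [hl, Real.exp_log (by positivity)]
    rw [← h6, ← Real.exp_nat_mul]
    apply Real.exp_le_exp.2
    push_cast
    exact h5

/-- the diagonal of the resolvent is bounded if the configuration is good -/
private lemma good_diag {d L : ℕ} [NeZero L] {E η lam sg : ℝ} {g0 : ℂ} {rlo rhi a tau y dl : ℝ}
    (hW : World (mkD d L E η lam sg g0) rlo rhi) (ha : a ≤ 1)
    (Rl W QU : Matrix (Tor d L) (Tor d L) ℂ) (v : Tor d L → ℝ)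
    (hg : Good4 (mkD d L E η lam sg g0) 1 ((mkD d L E η lam sg g0).hv 1 v) a tau y dl Rl W QU) :
    ∀ x, ‖res (H0T d L) ((E : ℂ) + (η : ℂ) * Complex.I) (fun w => lam * v w) x x‖ ≤ rhi + 1 := by
  intro x
  have h1 := hg.1 x
  have e1 : (mkD d L E η lam sg g0).G 1 ((mkD d L E η lam sg g0).hv 1 v) =
      res (H0T d L) ((E : ℂ) + (η : ℂ) * Complex.I) (fun w => lam * v w) := by
    have e2 : (mkD d L E η lam sg g0).zr 1 = (E : ℂ) + (η : ℂ) * Complex.I := by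
      unfold Fl.zr mkD
      simp
    have e3 : (mkD d L E η lam sg g0).hv 1 v = fun w => lam * v w := by
      funext w
      unfold Fl.hv mkD
      simp
    unfold Fl.G
    rw [e2, e3]
    rfl
  rw [e1] at h1
  have h2 : ‖g0‖ ≤ rhi := hW.hi
  have h3 : (mkD d L E η lam sg g0).g0 = g0 := rfl
  rw [h3] at h1
  calc ‖res (H0T d L) ((E : ℂ) + (η : ℂ) * Complex.I) (fun w => lam * v w) x x‖
      = ‖(res (H0T d L) ((E : ℂ) + (η : ℂ) * Complex.I) (fun w => lam * v w) x x - g0) + g0‖ := by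
        rw [sub_add_cancel]
    _ ≤ ‖res (H0T d L) ((E : ℂ) + (η : ℂ) * Complex.I) (fun w => lam * v w) x x - g0‖ + ‖g0‖ :=
        norm_add_le _ _
    _ ≤ rhi + 1 := by linarith

/-- union bound -/
private lemma unionZ {Ω α β : Type} [MeasurableSpace Ω] {P : Measure Ω} (S : Finset α)
    (Es : Finset β) (F : α → β → Set Ω) (q : ℝ)
    (h : ∀ x0 ∈ S, ∀ E0 ∈ Es, P (F x0 E0) ≤ ENNReal.ofReal q) :
    P (⋃ x0 ∈ S, ⋃ E0 ∈ Es, F x0 E0) ≤ ENNReal.ofReal (S.card * Es.card * q) := by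
  calc P (⋃ x0 ∈ S, ⋃ E0 ∈ Es, F x0 E0) ≤ ∑ x0 ∈ S, P (⋃ E0 ∈ Es, F x0 E0) :=
        measure_biUnion_finset_le _ _
    _ ≤ ∑ x0 ∈ S, ∑ E0 ∈ Es, P (F x0 E0) :=
        Finset.sum_le_sum fun x0 _ => measure_biUnion_finset_le _ _
    _ ≤ ∑ _x0 ∈ S, ∑ _E0 ∈ Es, ENNReal.ofReal q :=
        Finset.sum_le_sum fun x0 hx0 => Finset.sum_le_sum fun E0 hE0 => h x0 hx0 E0 hE0
    _ = ENNReal.ofReal (S.card * Es.card * q) := by
        have e1 : ENNReal.ofReal ((S.card : ℝ) * Es.card * q) =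
            ENNReal.ofReal (S.card : ℝ) * ENNReal.ofReal (Es.card : ℝ) *
              ENNReal.ofReal q := by
          rw [ENNReal.ofReal_mul (by positivity), ENNReal.ofReal_mul (by positivity)]
        rw [e1, Finset.sum_const, Finset.sum_const, nsmul_eq_mul, nsmul_eq_mul,
          ENNReal.ofReal_natCast, ENNReal.ofReal_natCast, mul_assoc]

/-- the last computation -/
private lemma lastZ {A C C1 m1 m2 mm X e Lr : ℝ} (hA : 2 ≤ A) (hC : 0 < C) (hC1 : 0 < C1)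
    (hCA : 4 * (C * C1) ≤ A) (hm1 : 0 ≤ m1) (hm2 : 0 ≤ m2) (hL : A ^ 4 ≤ Lr)
    (he : |e| ≤ 1 / A ^ 4) (h1 : mm ≤ 2 * m1 + 2 * e ^ 2 * m2)
    (h2 : X ≤ C * (C1 / (1 / A ^ 2)) * (mm + (1 / Lr ^ 2 + (1 / A ^ 2) ^ 2) * m2)) :
    X ≤ 1 / A * (m2 + A ^ 4 * m1) := by
  have hA0 : 0 < A := by linarith
  have hA4 : 1 ≤ A ^ 4 := one_le_pow₀ (by linarith)
  have k0 : 1 / A ^ 4 ≤ 1 := by
    rw [div_le_one (by positivity)]
    exact hA4
  have k1 : e ^ 2 ≤ 1 / A ^ 4 := by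
    have h3 : e ^ 2 ≤ (1 / A ^ 4) ^ 2 := by
      rw [← sq_abs]
      exact pow_le_pow_left₀ (abs_nonneg _) he 2
    have h4 : (1 / A ^ 4) ^ 2 ≤ 1 / A ^ 4 := by
      have h5 : 0 < 1 / A ^ 4 := by positivity
      nlinarith
    linarith
  have k2 : 1 / Lr ^ 2 ≤ 1 / A ^ 4 := by
    apply one_div_le_one_div_of_le (by positivity)
    have h3 : A ^ 4 * 1 ≤ Lr * Lr :=
      mul_le_mul hL (hA4.trans hL) zero_le_one (le_trans (by positivity) hL)
    linarith [pow_two Lr]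
  have k3 : (1 / A ^ 2) ^ 2 = 1 / A ^ 4 := by
    rw [div_pow, one_pow, ← pow_mul]
  have k4 : mm + (1 / Lr ^ 2 + (1 / A ^ 2) ^ 2) * m2 ≤ 2 * m1 + 4 * (1 / A ^ 4) * m2 := by
    rw [k3]
    have h5 : 2 * e ^ 2 * m2 ≤ 2 * (1 / A ^ 4) * m2 :=
      mul_le_mul_of_nonneg_right (by linarith) hm2
    have h6 : (1 / Lr ^ 2 + 1 / A ^ 4) * m2 ≤ (2 * (1 / A ^ 4)) * m2 :=
      mul_le_mul_of_nonneg_right (by linarith) hm2
    linarith
  have hCC : 0 < C * C1 := by positivity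
  calc X ≤ C * (C1 / (1 / A ^ 2)) * (mm + (1 / Lr ^ 2 + (1 / A ^ 2) ^ 2) * m2) := h2
    _ ≤ C * (C1 / (1 / A ^ 2)) * (2 * m1 + 4 * (1 / A ^ 4) * m2) :=
        mul_le_mul_of_nonneg_left k4 (by positivity)
    _ = (4 * (C * C1)) * (1 / A ^ 2) * m2 + (2 * (C * C1)) * A ^ 2 * m1 := by
        field_simp
        ring
    _ ≤ A * (1 / A ^ 2) * m2 + A * A ^ 2 * m1 := by
        apply add_le_add
        · exact mul_le_mul_of_nonneg_right (mul_le_mul_of_nonneg_right hCA (by positivity)) hm2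
        · exact mul_le_mul_of_nonneg_right
            (mul_le_mul_of_nonneg_right (by linarith) (by positivity)) hm1
    _ = 1 / A * (m2 + A ^ 4 * m1) := by
        field_simp

/-- number of bad events -/
private lemma countZ {d : ℕ} {A B : ℝ} {c1 c2 : ℝ} (hA : 1 ≤ A) (hAK : 3 ^ d * (4 * d + 1) ≤ A)
    (hB : A ^ (d + 6) ≤ B) (hc2 : 0 ≤ c2) (h1 : c1 ≤ (3 * A) ^ d)
    (h2 : c2 ≤ (4 * d + 1) * A ^ 4) : c1 * c2 * (1 / B) ≤ 1 / A := by
  have hA0 : 0 < A := by linarith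
  have hB0 : 0 < B := lt_of_lt_of_le (by positivity) hB
  have h3 : c1 * c2 ≤ A ^ (d + 5) := by
    calc c1 * c2 ≤ (3 * A) ^ d * ((4 * d + 1) * A ^ 4) :=
          mul_le_mul h1 h2 hc2 (by positivity)
      _ = (3 ^ d * (4 * d + 1)) * (A ^ d * A ^ 4) := by
          rw [mul_pow]
          ring
      _ ≤ A * (A ^ d * A ^ 4) := mul_le_mul_of_nonneg_right hAK (by positivity)
      _ = A ^ (d + 5) := by
          rw [pow_add]
          ring
  rw [mul_one_div, div_le_div_iff₀ hB0 hA0]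
  calc c1 * c2 * A ≤ A ^ (d + 5) * A := mul_le_mul_of_nonneg_right h3 hA0.le
    _ = A ^ (d + 6) := by rw [← pow_succ]
    _ ≤ B := hB
    _ = 1 * B := (one_mul _).symm

theorem apsZ (d : ℕ) (hd : 3 ≤ d) (δ b : ℝ) (hδ : 0 < δ) (hb0 : 0 < b) (hb1 : b < 1)
    (μ : Measure ℝ) [IsProbabilityMeasure μ] (hμ : FatDensity μ) :
    ∃ lam0 : ℝ, 0 < lam0 ∧ ∀ (Ω : Type) [MeasurableSpace Ω] (P : Measure Ω)
      [IsProbabilityMeasure P] (ω : (Fin d → ℤ) → Ω → ℝ), iIndepFun ω P →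
      (∀ x, AEMeasurable (ω x) P) → (∀ x, P.map (ω x) = μ) →
      ∀ lam : ℝ, 0 < lam → lam ≤ lam0 →
      ∃ G : Set Ω, MeasurableSet G ∧ P Gᶜ ≤ ENNReal.ofReal (1 / Lsc b lam) ∧
      ∀ s ∈ G, ∀ x : Fin d → ℤ, (∀ j, |(x j : ℝ)| ≤ Lsc b lam) →
        ∀ E : ℝ, δ ≤ E → E ≤ 4 * d - δ → ∀ ψ : (Fin d → ℤ) → ℂ,
        ‖ψ x‖ ^ 2 ≤ 1 / Lsc b lam *
          (massZ x ⌈Lsc b lam ^ 4⌉₊ ψ + Lsc b lam ^ 4 * massZ x ⌈Lsc b lam ^ 4⌉₊
            (fun y => hamZ lam (fun z => ω z s) ψ y - (E : ℂ) * ψ y)) := by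
  obtain ⟨bd, sg, CT, T, T3, hS, -⟩ := fat_stein μ hμ
  set c : ℝ := ∫ y, y ∂μ with hc
  obtain ⟨C, hC, htr⟩ := transfer d
  have hsg : 0 < sg := hS.sg0
  obtain ⟨rlo, rhi, lam1, hrlo, hrhi, hlam1, hprob⟩ := torus_good d hd (δ / 2) ((1 + b) / 2)
    (by positivity) (by linarith) (by linarith) hS
  obtain ⟨lam2, hlam2, hnum⟩ := numZ b
    (max (max (2 : ℝ) (4 / δ)) (max (3 ^ d * (4 * d + 1)) (4 * (C * (rhi + 1))))) (d + 6) hb0 hb1
  set lam0 : ℝ := min (min lam1 lam2) (min (min 1 (δ / (4 * (|c| + 1)))) (sg * rlo)) with hlam0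
  refine ⟨lam0, by positivity, ?_⟩
  intro Ω _ P _ ω hi hm hlaw lam h0 hle
  have hl1 : lam ≤ lam1 := hle.trans ((min_le_left _ _).trans (min_le_left _ _))
  have hl2 : lam ≤ lam2 := hle.trans ((min_le_left _ _).trans (min_le_right _ _))
  have hl3 : lam ≤ 1 :=
    hle.trans ((min_le_right _ _).trans ((min_le_left _ _).trans (min_le_left _ _)))
  have hl4 : lam ≤ δ / (4 * (|c| + 1)) :=
    hle.trans ((min_le_right _ _).trans ((min_le_left _ _).trans (min_le_right _ _)))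
  have hl5 : lam ≤ sg * rlo := hle.trans ((min_le_right _ _).trans (min_le_right _ _))
  obtain ⟨hK, hAB, hA3⟩ := hnum lam h0 hl2
  set A : ℝ := Lsc b lam with hA
  set B : ℝ := Real.exp (Real.log (1 / lam) ^ (1 + (1 + b) / 2)) with hB
  have hA2 : 2 ≤ A := ((le_max_left _ _).trans (le_max_left _ _)).trans hK
  have hAδ : 4 / δ ≤ A := ((le_max_right _ _).trans (le_max_left _ _)).trans hK
  have hAd : 3 ^ d * (4 * d + 1) ≤ A := ((le_max_left _ _).trans (le_max_right _ _)).trans hK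
  have hAC : 4 * (C * (rhi + 1)) ≤ A := ((le_max_right _ _).trans (le_max_right _ _)).trans hK
  have hA0 : 0 < A := by linarith
  have hA1 : 1 ≤ A := by linarith
  have hB0 : 0 < B := Real.exp_pos _
  have hBexp : Real.exp (-(Real.log (1 / lam) ^ (1 + (1 + b) / 2))) = 1 / B := by
    rw [Real.exp_neg]
    exact (one_div _).symm
  have hinv1 : 1 ≤ 1 / lam := by
    rw [le_div_iff₀ h0]
    linarith
  set L : ℕ := ⌈A ^ 4⌉₊ with hL
  have hLA : A ^ 4 ≤ (L : ℝ) := Nat.le_ceil _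
  have hL2 : (L : ℝ) ≤ A ^ 4 + 1 := (Nat.ceil_lt_add_one (by positivity)).le
  have hA16 : 16 ≤ A ^ 4 := by
    calc (16 : ℝ) = 2 ^ 4 := by norm_num
      _ ≤ A ^ 4 := pow_le_pow_left₀ (by norm_num) hA2 4
  have hL16 : 16 ≤ L := by
    have : (16 : ℝ) ≤ (L : ℝ) := hA16.trans hLA
    exact_mod_cast this
  have hLne : NeZero L := ⟨by omega⟩
  set η : ℝ := 1 / A ^ 2 with hη
  have hη0 : 0 < η := by positivity
  have hABp : ∀ m : ℕ, m ≤ d + 6 → A ^ m ≤ B := fun m hm' =>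
    (pow_le_pow_right₀ hA1 hm').trans hAB
  have q1 : Real.exp (-(Real.log (1 / lam) ^ (1 + (1 + b) / 2))) ≤ η := by
    rw [hBexp, hη]
    exact one_div_le_one_div_of_le (by positivity) (hABp 2 (by omega))
  have q2 : η ≤ lam ^ 2 * sg * rlo := by
    rw [hη, div_le_iff₀ (by positivity)]
    have h3 : (1 / lam) ^ 3 * (1 / lam) ^ 3 ≤ A ^ 2 := by
      rw [pow_two]
      exact mul_le_mul hA3 hA3 (by positivity) hA0.le
    calc (1 : ℝ) ≤ (1 / lam) ^ 3 := one_le_pow₀ hinv1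
      _ = (lam * (1 / lam)) ^ 3 * (1 / lam) ^ 3 := by
          rw [mul_one_div_cancel h0.ne', one_pow, one_mul]
      _ = lam ^ 2 * lam * ((1 / lam) ^ 3 * (1 / lam) ^ 3) := by ring
      _ ≤ lam ^ 2 * (sg * rlo) * ((1 / lam) ^ 3 * (1 / lam) ^ 3) := by
          gcongr
      _ ≤ lam ^ 2 * (sg * rlo) * A ^ 2 := by
          gcongr
      _ = lam ^ 2 * sg * rlo * A ^ 2 := by ring
  have q3 : lam ^ (-10 : ℝ) ≤ L := by
    have e10 : lam ^ (-10 : ℝ) = (1 / lam) ^ 10 := by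
      rw [Real.rpow_neg h0.le]
      norm_num
    rw [e10]
    calc (1 / lam) ^ 10 ≤ (1 / lam) ^ 12 := pow_le_pow_right₀ hinv1 (by norm_num)
      _ = ((1 / lam) ^ 3) ^ 4 := by rw [← pow_mul]
      _ ≤ A ^ 4 := pow_le_pow_left₀ (by positivity) hA3 4
      _ ≤ L := hLA
  have q4 : 1 / η ≤ L := by
    rw [hη, one_div_one_div]
    exact (pow_le_pow_right₀ hA1 (by norm_num)).trans hLA
  have q5 : (L : ℝ) ≤ Real.exp (Real.log (1 / lam) ^ (1 + (1 + b) / 2)) := by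
    rw [← hB]
    refine le_trans ?_ (hABp 5 (by omega))
    calc (L : ℝ) ≤ A ^ 4 + 1 := hL2
      _ ≤ A ^ 4 * A := by nlinarith
      _ = A ^ 5 := by rw [← pow_succ]
  have hid : ∀ x, IdentDistrib (ω x) (ω 0) P P := fun x =>
    ⟨hm x, hm 0, by rw [hlaw x, hlaw 0]⟩
  have hmap : (P.map fun s => ω 0 s - c) = μ.map fun x => x - c := by
    rw [← hlaw 0, AEMeasurable.map_map_of_aemeasurable (by fun_prop) (hm 0)]
    rfl
  set Es : Finset ℝ := (Helper2.AM.net 0 (1 / A ^ 4) ⌊(4 * d + 2 * 0) / (1 / A ^ 4)⌋₊).filter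
    (fun E => δ / 2 ≤ E ∧ E ≤ 4 * d - δ / 2) with hEs
  set Ctr : Finset (Fin d → ℤ) := Helper2.AM.centres d A with hCtr
  set Bd : Set Ω := ⋃ x0 ∈ Ctr, ⋃ E0 ∈ Es, badZ ω c L E0 η lam (rhi + 1) x0 with hBd
  have hPB : P Bd ≤ ENNReal.ofReal (1 / A) := by
    refine (unionZ Ctr Es (fun x0 E0 => badZ ω c L E0 η lam (rhi + 1) x0) (1 / B)
      ?_).trans (ENNReal.ofReal_le_ofReal ?_)
    · intro x0 _ E0 hE0
      obtain ⟨-, hE1, hE2⟩ := Finset.mem_filter.1 hE0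
      refine badZ_prob hi hid c L E0 η lam (rhi + 1) x0 _ ?_
      rw [hmap]
      have := hS.prob
      obtain ⟨g0, hW, hgood⟩ := hprob L E0 η lam h0 hl1 hE1 hE2 q1 q2 q3 q4 q5
      rw [hBexp] at hgood
      refine (ENNReal.le_ofReal_iff_toReal_le (measure_ne_top _ _) (by positivity)).2 ?_
      refine le_trans ?_ hgood
      refine measureReal_mono (fun v hv hv' => hv ?_) (measure_ne_top _ _)
      exact good_diag hW (Real.rpow_le_one h0.le hl3 (by norm_num)) _ _ _ v hv'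
    · refine countZ hA1 hAd hAB (by positivity) (Helper2.AM.centres_card _ hA1) ?_
      have h2 : (Es.card : ℝ) ≤ (⌊((4 : ℝ) * d + 2 * 0) / (1 / A ^ 4)⌋₊ : ℕ) + 1 := by
        have h6 : Es.card ≤ ⌊((4 : ℝ) * d + 2 * 0) / (1 / A ^ 4)⌋₊ + 1 := by
          rw [hEs]
          exact (card_le_card (Finset.filter_subset _ _)).trans
            (Helper2.AM.net_card 0 (1 / A ^ 4) ⌊((4 : ℝ) * d + 2 * 0) / (1 / A ^ 4)⌋₊)
        exact_mod_cast h6
      have h3 : ((⌊((4 : ℝ) * d + 2 * 0) / (1 / A ^ 4)⌋₊ : ℕ) : ℝ) ≤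
          ((4 : ℝ) * d + 2 * 0) / (1 / A ^ 4) := Nat.floor_le (by positivity)
      have h4 : ((4 : ℝ) * d + 2 * 0) / (1 / A ^ 4) = 4 * d * A ^ 4 := by
        rw [div_div_eq_mul_div]
        ring
      have h5 : (1 : ℝ) ≤ A ^ 4 := one_le_pow₀ hA1
      linarith
  refine ⟨(toMeasurable P Bd)ᶜ, (measurableSet_toMeasurable P Bd).compl, ?_, ?_⟩
  · rw [compl_compl, measure_toMeasurable]
    exact hPB
  · intro s hs x hx E hE1 hE2 ψ
    have hsB : s ∉ Bd := fun h => hs (subset_toMeasurable P Bd h)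
    have hlc : |lam * c| ≤ δ / 4 := by
      rw [abs_mul, abs_of_pos h0]
      rw [le_div_iff₀ (by positivity)] at hl4
      have : 0 ≤ |c| := abs_nonneg c
      nlinarith
    have hlc' := abs_le.1 hlc
    have hA4δ : 1 / A ^ 4 ≤ δ / 4 := by
      have h3 : 1 / A ^ 4 ≤ 1 / A := by
        apply one_div_le_one_div_of_le hA0
        calc A = A ^ 1 := (pow_one A).symm
          _ ≤ A ^ 4 := pow_le_pow_right₀ hA1 (by norm_num)
      have h4 : 1 / A ≤ 1 / (4 / δ) := one_div_le_one_div_of_le (by positivity) hAδ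
      rw [one_div_div] at h4
      exact h3.trans h4
    obtain ⟨En, hEn, hEn'⟩ := Helper2.AM.exists_net d 0 (1 / A ^ 4) (E - lam * c)
      (by positivity) (by linarith) (by linarith)
    have hEn'' := abs_le.1 hEn'
    have hEnE : En ∈ Es := by
      rw [hEs, Finset.mem_filter]
      exact ⟨hEn, by linarith, by linarith⟩
    have hxC : x ∈ Ctr := Helper2.AM.mem_centres _ x hx
    have hform : ∀ y, ‖res (H0T d L) ((En : ℂ) + (η : ℂ) * Complex.I)
          (fun w => lam * (ω (x + rep w) s - c)) y y‖ ≤ rhi + 1 := by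
      by_contra hcon
      apply hsB
      rw [hBd]
      simp only [Set.mem_iUnion]
      exact ⟨x, hxC, En, hEnE, hcon⟩
    have ht' := htr L 0 lam En η (rhi + 1) (fun z => ω z s - c) x ψ (by omega) hη0 (by linarith)
      (form_zero d L En η (rhi + 1) _ hform)
    rw [massZ_zero] at ht'
    have hs2 := massZ_shift x L lam c E En (fun z => ω z s) ψ
    exact lastZ hA2 hC (by linarith) hAC (massZ_nonneg' _ _ _) (massZ_nonneg' _ _ _) hLA hEn'
      hs2 ht'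

end Pool.Agent.APS
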