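import Pool.Agent.APS.Defs

/-! # APS OBSOPS: regularity of the operations on observables (weights, subtraction of a
deterministic matrix, multiplication by a constant matrix, hermitian dilation). -/

open Matrix Finset

noncomputable section

namespace Pool.Agent.APS

variable {ι κ : Type} [Fintype ι] [DecidableEq ι]

omit [Fintype ι] [DecidableEq ι] in
private theorem obsops_cont {I : Set ℝ} {c : ℝ → ℝ} (hc : ContinuousOn c I) :
    ContinuousOn (fun p : ℝ × (ι → ℝ) => (c p.1 : ℂ)) (I ×ˢ Set.univ) :=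
  Complex.continuous_ofReal.comp_continuousOn
    (hc.comp continuous_fst.continuousOn fun p hp => hp.1)

omit [Fintype ι] [DecidableEq ι] in
private theorem obsops_contC {I : Set ℝ} {c : ℝ → ℂ} (hc : ContinuousOn c I) :
    ContinuousOn (fun p : ℝ × (ι → ℝ) => c p.1) (I ×ˢ Set.univ) :=
  hc.comp continuous_fst.continuousOn fun p hp => hp.1

private theorem obsops_cd {I : Set ℝ} {c c' : ℝ → ℝ} (hc : ∀ r ∈ I, HasDerivAt c (c' r) r) :
    ContinuousOn c I := fun r hr => (hc r hr).continuousAt.continuousWithinAt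

theorem wtV_reg {O : VObs ι κ} {lam : ℝ} {I : Set ℝ} (hO : O.Reg lam I) (c c' : ℝ → ℝ)
    (hc : ∀ r ∈ I, HasDerivAt c (c' r) r) (hc' : ContinuousOn c' I) :
    (wtV c c' O).Reg lam I := by
  have hcc := obsops_cont (ι := ι) (obsops_cd hc)
  have hcc' := obsops_cont (ι := ι) hc'
  refine ⟨fun x => hcc.mul (hO.c0 x), fun x => (hcc.mul (hO.cr x)).add (hcc'.mul (hO.c0 x)),
    fun w x => hcc.mul (hO.c1 w x), fun w x => hcc.mul (hO.c2 w x),
    fun w x => hcc.mul (hO.c3 w x), fun r hr h w t x => (hO.d1 r hr h w t x).const_mul _,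
    fun r hr h w t x => (hO.d2 r hr h w t x).const_mul _,
    fun r hr h w t x => (hO.d3 r hr h w t x).const_mul _, fun r hr v x => ?_⟩
  have h1 := (hc r hr).ofReal_comp.mul (hO.dr r hr v x)
  show HasDerivAt (fun r : ℝ => (c r : ℂ) * O.f r (fun w => lam * r * v w) x)
    ((c r : ℂ) * O.fr r (fun w => lam * r * v w) x +
      (c' r : ℂ) * O.f r (fun w => lam * r * v w) x +
      ∑ w, ((lam * v w : ℝ) : ℂ) * ((c r : ℂ) * O.f1 w r (fun w => lam * r * v w) x)) r
  refine h1.congr_deriv ?_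
  rw [mul_add, Finset.mul_sum]
  have : ∀ w, ((lam * v w : ℝ) : ℂ) * ((c r : ℂ) * O.f1 w r (fun w => lam * r * v w) x) =
      (c r : ℂ) * (((lam * v w : ℝ) : ℂ) * O.f1 w r (fun w => lam * r * v w) x) := fun w => by ring
  simp only [this]
  ring

theorem wtM_reg {O : MObs ι κ} {lam : ℝ} {I : Set ℝ} (hO : O.Reg lam I) (c c' : ℝ → ℝ)
    (hc : ∀ r ∈ I, HasDerivAt c (c' r) r) (hc' : ContinuousOn c' I) :
    (wtM c c' O).Reg lam I := by
  have hcc := obsops_cont (ι := ι) (obsops_cd hc)
  have hcc' := obsops_cont (ι := ι) hc'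
  refine ⟨fun x y => hcc.mul (hO.c0 x y),
    fun x y => (hcc.mul (hO.cr x y)).add (hcc'.mul (hO.c0 x y)),
    fun w x y => hcc.mul (hO.c1 w x y), fun w x y => hcc.mul (hO.c2 w x y),
    fun w x y => hcc.mul (hO.c3 w x y), fun r hr h w t x y => (hO.d1 r hr h w t x y).const_mul _,
    fun r hr h w t x y => (hO.d2 r hr h w t x y).const_mul _,
    fun r hr h w t x y => (hO.d3 r hr h w t x y).const_mul _, fun r hr v x y => ?_⟩
  have h1 := (hc r hr).ofReal_comp.mul (hO.dr r hr v x y)
  show HasDerivAt (fun r : ℝ => (c r : ℂ) * O.f r (fun w => lam * r * v w) x y)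
    ((c r : ℂ) * O.fr r (fun w => lam * r * v w) x y +
      (c' r : ℂ) * O.f r (fun w => lam * r * v w) x y +
      ∑ w, ((lam * v w : ℝ) : ℂ) * ((c r : ℂ) * O.f1 w r (fun w => lam * r * v w) x y)) r
  refine h1.congr_deriv ?_
  rw [mul_add, Finset.mul_sum]
  have : ∀ w, ((lam * v w : ℝ) : ℂ) * ((c r : ℂ) * O.f1 w r (fun w => lam * r * v w) x y) =
      (c r : ℂ) * (((lam * v w : ℝ) : ℂ) * O.f1 w r (fun w => lam * r * v w) x y) :=
    fun w => by ring
  simp only [this]
  ring

theorem subM_reg {O : MObs ι κ} {lam : ℝ} {I : Set ℝ} (hO : O.Reg lam I)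
    (U U' : ℝ → Matrix κ κ ℂ) (hU : ∀ r ∈ I, ∀ x y, HasDerivAt (fun r => U r x y) (U' r x y) r)
    (hU' : ∀ x y, ContinuousOn (fun r => U' r x y) I) :
    (subM U U' O).Reg lam I := by
  have hcU : ∀ x y, ContinuousOn (fun p : ℝ × (ι → ℝ) => U p.1 x y) (I ×ˢ Set.univ) :=
    fun x y => obsops_contC (c := fun r => U r x y)
      fun r hr => (hU r hr x y).continuousAt.continuousWithinAt
  have hcU' : ∀ x y, ContinuousOn (fun p : ℝ × (ι → ℝ) => U' p.1 x y) (I ×ˢ Set.univ) :=
    fun x y => obsops_contC (hU' x y)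
  refine ⟨fun x y => (hO.c0 x y).sub (hcU x y), fun x y => (hO.cr x y).sub (hcU' x y),
    hO.c1, hO.c2, hO.c3, fun r hr h w t x y => (hO.d1 r hr h w t x y).sub_const _,
    hO.d2, hO.d3, fun r hr v x y => ?_⟩
  have h1 := (hO.dr r hr v x y).sub (hU r hr x y)
  show HasDerivAt (fun r : ℝ => O.f r (fun w => lam * r * v w) x y - U r x y)
    (O.fr r (fun w => lam * r * v w) x y - U' r x y +
      ∑ w, ((lam * v w : ℝ) : ℂ) * O.f1 w r (fun w => lam * r * v w) x y) r
  refine h1.congr_deriv ?_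
  ring

theorem lmM_reg [Fintype κ] {O : MObs ι κ} {lam : ℝ} {I : Set ℝ} (hO : O.Reg lam I)
    (P : Matrix κ κ ℂ) : (lmM P O).Reg lam I := by
  have hc : ∀ {g : ℝ → (ι → ℝ) → Matrix κ κ ℂ},
      (∀ x y, ContinuousOn (fun p : ℝ × (ι → ℝ) => g p.1 p.2 x y) (I ×ˢ Set.univ)) →
      ∀ x y, ContinuousOn (fun p : ℝ × (ι → ℝ) => (P * g p.1 p.2) x y) (I ×ˢ Set.univ) := by
    intro g hg x y
    simp only [Matrix.mul_apply]
    exact continuousOn_finsetSum _ fun z _ => continuousOn_const.mul (hg z y)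
  have hd : ∀ {g : ℝ → Matrix κ κ ℂ} {g' : Matrix κ κ ℂ} {t : ℝ},
      (∀ x y, HasDerivAt (fun s => g s x y) (g' x y) t) →
      ∀ x y, HasDerivAt (fun s => (P * g s) x y) ((P * g') x y) t := by
    intro g g' t hg x y
    simp only [Matrix.mul_apply]
    exact HasDerivAt.fun_sum fun z _ => (hg z y).const_mul _
  refine ⟨hc hO.c0, hc hO.cr, fun w => hc (hO.c1 w), fun w => hc (hO.c2 w), fun w => hc (hO.c3 w),
    fun r hr h w t => hd (g := fun t => O.f r (Function.update h w t))
      (g' := O.f1 w r (Function.update h w t)) (hO.d1 r hr h w t),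
    fun r hr h w t => hd (g := fun t => O.f1 w r (Function.update h w t))
      (g' := O.f2 w r (Function.update h w t)) (hO.d2 r hr h w t),
    fun r hr h w t => hd (g := fun t => O.f2 w r (Function.update h w t))
      (g' := O.f3 w r (Function.update h w t)) (hO.d3 r hr h w t), fun r hr v x y => ?_⟩
  have h1 := hd (g := fun r => O.f r (fun w => lam * r * v w))
    (g' := O.fr r (fun w => lam * r * v w) +
      ∑ w, ((lam * v w : ℝ) : ℂ) • O.f1 w r (fun w => lam * r * v w)) (t := r) (fun x y => by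
        refine (hO.dr r hr v x y).congr_deriv ?_
        rw [Matrix.add_apply, Matrix.sum_apply]
        rfl) x y
  refine h1.congr_deriv ?_
  rw [Matrix.mul_add, Matrix.add_apply, Matrix.mul_sum, Matrix.sum_apply]
  show (P * O.fr r (fun w => lam * r * v w)) x y + _ =
    (P * O.fr r (fun w => lam * r * v w)) x y + _
  congr 1
  refine Finset.sum_congr rfl fun w _ => ?_
  rw [Matrix.mul_smul]
  rfl

theorem dilM_reg {O : MObs ι κ} {lam : ℝ} {I : Set ℝ} (hO : O.Reg lam I) :
    (dilM O).Reg lam I := by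
  have hc : ∀ {g : ℝ → (ι → ℝ) → Matrix κ κ ℂ},
      (∀ x y, ContinuousOn (fun p : ℝ × (ι → ℝ) => g p.1 p.2 x y) (I ×ˢ Set.univ)) →
      ∀ x y, ContinuousOn (fun p : ℝ × (ι → ℝ) => dil (g p.1 p.2) x y) (I ×ˢ Set.univ) := by
    intro g hg x y
    rcases x with x | x <;> rcases y with y | y
    · exact continuousOn_const
    · exact hg x y
    · exact Complex.continuous_conj.comp_continuousOn (hg y x)
    · exact continuousOn_const
  have hd : ∀ {g : ℝ → Matrix κ κ ℂ} {g' : Matrix κ κ ℂ} {t : ℝ},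
      (∀ x y, HasDerivAt (fun s => g s x y) (g' x y) t) →
      ∀ x y, HasDerivAt (fun s => dil (g s) x y) (dil g' x y) t := by
    intro g g' t hg x y
    rcases x with x | x <;> rcases y with y | y
    · exact hasDerivAt_const _ _
    · exact hg x y
    · exact (hg y x).star
    · exact hasDerivAt_const _ _
  refine ⟨hc hO.c0, hc hO.cr, fun w => hc (hO.c1 w), fun w => hc (hO.c2 w), fun w => hc (hO.c3 w),
    fun r hr h w t => hd (g := fun t => O.f r (Function.update h w t))
      (g' := O.f1 w r (Function.update h w t)) (hO.d1 r hr h w t),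
    fun r hr h w t => hd (g := fun t => O.f1 w r (Function.update h w t))
      (g' := O.f2 w r (Function.update h w t)) (hO.d2 r hr h w t),
    fun r hr h w t => hd (g := fun t => O.f2 w r (Function.update h w t))
      (g' := O.f3 w r (Function.update h w t)) (hO.d3 r hr h w t), fun r hr v x y => ?_⟩
  have h1 := hd (g := fun r => O.f r (fun w => lam * r * v w))
    (g' := O.fr r (fun w => lam * r * v w) +
      ∑ w, ((lam * v w : ℝ) : ℂ) • O.f1 w r (fun w => lam * r * v w)) (t := r) (fun x y => by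
        refine (hO.dr r hr v x y).congr_deriv ?_
        rw [Matrix.add_apply, Matrix.sum_apply]
        rfl) x y
  refine h1.congr_deriv ?_
  show _ = dil (O.fr r (fun w => lam * r * v w)) x y +
    ∑ w, ((lam * v w : ℝ) : ℂ) * dil (O.f1 w r (fun w => lam * r * v w)) x y
  rcases x with x | x <;> rcases y with y | y
  · simp [dil]
  · simp [dil, Matrix.sum_apply]
  · simp [dil, Matrix.sum_apply]
  · simp [dil]

end Pool.Agent.APS
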