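import Pool.Agent.APS.Defs3
import Pool.Agent.APS.ObsOps
import Pool.Agent.Kin.Res

/-! # APS OBSOPS2: regularity of the sandwich and of the Laplacian of an observable.

Product rule entrywise for `W(r) O W(r)`; `lap` is linear in the entries.
`SOf_symm`: `S` is symmetric with real entries for all `r, h` (`Kin.res_transpose`), so `lap S` is
hermitian, and `fO` is hermitian if `W`, `QU` are. -/

open Matrix Finset

noncomputable section

namespace Pool.Agent.APS

open Pool.Agent.Kin

variable {ι κ : Type} [Fintype ι] [DecidableEq ι]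

omit [Fintype ι] [DecidableEq ι] in
private theorem obsops2_lap [Fintype κ] [DecidableEq κ] (A : Matrix κ κ ℂ) (x y : κ) :
    lap A x y = (if x = y then ∑ z, A x z else 0) - A x y := by
  rw [lap, Matrix.sub_apply, Matrix.diagonal_apply]

omit [Fintype ι] [DecidableEq ι] in
private theorem obsops2_lap_add [Fintype κ] [DecidableEq κ] (A B : Matrix κ κ ℂ) :
    lap (A + B) = lap A + lap B := by
  ext x y
  rw [Matrix.add_apply, obsops2_lap, obsops2_lap, obsops2_lap]
  split_ifs <;> simp only [Matrix.add_apply, Finset.sum_add_distrib] <;> ring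

omit [Fintype ι] [DecidableEq ι] in
private theorem obsops2_lap_smul [Fintype κ] [DecidableEq κ] (c : ℂ) (A : Matrix κ κ ℂ) :
    lap (c • A) = c • lap A := by
  ext x y
  rw [Matrix.smul_apply, obsops2_lap, obsops2_lap]
  split_ifs <;> simp only [Matrix.smul_apply, smul_eq_mul, ← Finset.mul_sum] <;> ring

omit [Fintype ι] [DecidableEq ι] in
private theorem obsops2_lap_sum [Fintype κ] [DecidableEq κ] {σ : Type} (s : Finset σ)
    (A : σ → Matrix κ κ ℂ) : lap (∑ i ∈ s, A i) = ∑ i ∈ s, lap (A i) := by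
  classical
  induction s using Finset.induction_on with
  | empty =>
    ext x y
    rw [Finset.sum_empty, Finset.sum_empty, obsops2_lap]
    simp
  | insert a s ha ih => rw [Finset.sum_insert ha, Finset.sum_insert ha, obsops2_lap_add, ih]

theorem lapM_reg [Fintype κ] [DecidableEq κ] {O : MObs ι κ} {lam : ℝ} {I : Set ℝ}
    (hO : O.Reg lam I) : (lapM O).Reg lam I := by
  have hc : ∀ {g : ℝ → (ι → ℝ) → Matrix κ κ ℂ},
      (∀ x y, ContinuousOn (fun p : ℝ × (ι → ℝ) => g p.1 p.2 x y) (I ×ˢ Set.univ)) →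
      ∀ x y, ContinuousOn (fun p : ℝ × (ι → ℝ) => lap (g p.1 p.2) x y) (I ×ˢ Set.univ) := by
    intro g hg x y
    simp only [obsops2_lap]
    refine ContinuousOn.sub ?_ (hg x y)
    split_ifs
    · exact continuousOn_finsetSum _ fun z _ => hg x z
    · exact continuousOn_const
  have hd : ∀ {g : ℝ → Matrix κ κ ℂ} {g' : Matrix κ κ ℂ} {t : ℝ},
      (∀ x y, HasDerivAt (fun s => g s x y) (g' x y) t) →
      ∀ x y, HasDerivAt (fun s => lap (g s) x y) (lap g' x y) t := by
    intro g g' t hg x y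
    simp only [obsops2_lap]
    refine HasDerivAt.fun_sub ?_ (hg x y)
    split_ifs
    · exact HasDerivAt.fun_sum fun z _ => hg x z
    · exact hasDerivAt_const _ _
  refine ⟨hc hO.c0, hc hO.cr, fun w => hc (hO.c1 w), fun w => hc (hO.c2 w), fun w => hc (hO.c3 w),
    fun r hr h w t => hd (g := fun t => O.f r (Function.update h w t))
      (g' := O.f1 w r (Function.update h w t)) (hO.d1 r hr h w t),
    fun r hr h w t => hd (g := fun t => O.f1 w r (Function.update h w t))
      (g' := O.f2 w r (Function.update h w t)) (hO.d2 r hr h w t),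
    fun r hr h w t => hd (g := fun t => O.f2 w r (Function.update h w t))
      (g' := O.f3 w r (Function.update h w t)) (hO.d3 r hr h w t), fun r hr v x y => ?_⟩
  have h1 := hd (g := fun r => O.f r (fun w => lam * r * v w))
    (g' := O.fr r (fun w => lam * r * v w) +
      ∑ w, ((lam * v w : ℝ) : ℂ) • O.f1 w r (fun w => lam * r * v w)) (t := r) (fun x y => by
        refine (hO.dr r hr v x y).congr_deriv ?_
        rw [Matrix.add_apply, Matrix.sum_apply]
        rfl) x y
  refine h1.congr_deriv ?_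
  rw [obsops2_lap_add, obsops2_lap_sum, Matrix.add_apply, Matrix.sum_apply]
  show lap (O.fr r (fun w => lam * r * v w)) x y + _ =
    lap (O.fr r (fun w => lam * r * v w)) x y + _
  congr 1
  refine Finset.sum_congr rfl fun w _ => ?_
  rw [obsops2_lap_smul]
  rfl

omit [Fintype ι] [DecidableEq ι] in
private theorem obsops2_mulc [Fintype κ] {T : Type*} [TopologicalSpace T] {s : Set T}
    {f g : T → Matrix κ κ ℂ} (hf : ∀ x y, ContinuousOn (fun p => f p x y) s)
    (hg : ∀ x y, ContinuousOn (fun p => g p x y) s) (x y : κ) :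
    ContinuousOn (fun p => (f p * g p) x y) s := by
  simp only [Matrix.mul_apply]
  exact continuousOn_finsetSum _ fun z _ => (hf x z).mul (hg z y)

omit [Fintype ι] [DecidableEq ι] in
private theorem obsops2_muld [Fintype κ] {f g : ℝ → Matrix κ κ ℂ} {f' g' : Matrix κ κ ℂ} {t : ℝ}
    (hf : ∀ x y, HasDerivAt (fun s => f s x y) (f' x y) t)
    (hg : ∀ x y, HasDerivAt (fun s => g s x y) (g' x y) t) (x y : κ) :
    HasDerivAt (fun s => (f s * g s) x y) ((f' * g t + f t * g') x y) t := by
  simp only [Matrix.mul_apply, Matrix.add_apply, ← Finset.sum_add_distrib]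
  exact HasDerivAt.fun_sum fun z _ => (hf x z).mul (hg z y)

theorem swM_reg [Fintype κ] {O : MObs ι κ} {lam : ℝ} {I : Set ℝ} (hO : O.Reg lam I)
    (W W' : ℝ → Matrix κ κ ℂ) (hW : ∀ r ∈ I, ∀ x y, HasDerivAt (fun r => W r x y) (W' r x y) r)
    (hW' : ∀ x y, ContinuousOn (fun r => W' r x y) I) : (swM W W' O).Reg lam I := by
  have hcW : ∀ x y, ContinuousOn (fun p : ℝ × (ι → ℝ) => W p.1 x y) (I ×ˢ Set.univ) := by
    intro x y
    have h1 : ContinuousOn (fun r => W r x y) I :=
      fun r hr => (hW r hr x y).continuousAt.continuousWithinAt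
    exact h1.comp continuous_fst.continuousOn fun p hp => hp.1
  have hcW' : ∀ x y, ContinuousOn (fun p : ℝ × (ι → ℝ) => W' p.1 x y) (I ×ˢ Set.univ) :=
    fun x y => (hW' x y).comp continuous_fst.continuousOn fun p hp => hp.1
  have hc : ∀ {g : ℝ → (ι → ℝ) → Matrix κ κ ℂ},
      (∀ x y, ContinuousOn (fun p : ℝ × (ι → ℝ) => g p.1 p.2 x y) (I ×ˢ Set.univ)) →
      ∀ x y, ContinuousOn (fun p : ℝ × (ι → ℝ) => (W p.1 * g p.1 p.2 * W p.1) x y)
        (I ×ˢ Set.univ) := by
    intro g hg
    exact obsops2_mulc (obsops2_mulc hcW hg) hcW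
  have hd : ∀ (r : ℝ) {g : ℝ → Matrix κ κ ℂ} {g' : Matrix κ κ ℂ} {t : ℝ},
      (∀ x y, HasDerivAt (fun s => g s x y) (g' x y) t) →
      ∀ x y, HasDerivAt (fun s => (W r * g s * W r) x y) ((W r * g' * W r) x y) t := by
    intro r g g' t hg x y
    have h0 : ∀ x y, HasDerivAt (fun _ : ℝ => W r x y) ((0 : Matrix κ κ ℂ) x y) t :=
      fun x y => hasDerivAt_const _ _
    refine (obsops2_muld (obsops2_muld h0 hg) h0 x y).congr_deriv ?_
    rw [Matrix.zero_mul, zero_add, Matrix.mul_zero, add_zero]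
  have hcr : ∀ x y, ContinuousOn (fun p : ℝ × (ι → ℝ) => (swM W W' O).fr p.1 p.2 x y)
      (I ×ˢ Set.univ) := by
    intro x y
    have h1 := hc hO.cr x y
    have h2 := obsops2_mulc (obsops2_mulc hcW' hO.c0) hcW x y
    have h3 := obsops2_mulc (obsops2_mulc hcW hO.c0) hcW' x y
    exact h1.add (h2.add h3)
  refine ⟨hc hO.c0, hcr, fun w => hc (hO.c1 w), fun w => hc (hO.c2 w), fun w => hc (hO.c3 w),
    fun r hr h w t => hd r (g := fun t => O.f r (Function.update h w t))
      (g' := O.f1 w r (Function.update h w t)) (hO.d1 r hr h w t),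
    fun r hr h w t => hd r (g := fun t => O.f1 w r (Function.update h w t))
      (g' := O.f2 w r (Function.update h w t)) (hO.d2 r hr h w t),
    fun r hr h w t => hd r (g := fun t => O.f2 w r (Function.update h w t))
      (g' := O.f3 w r (Function.update h w t)) (hO.d3 r hr h w t), fun r hr v x y => ?_⟩
  have h1 : ∀ x y, HasDerivAt (fun r => O.f r (fun w => lam * r * v w) x y)
      ((O.fr r (fun w => lam * r * v w) +
        ∑ w, ((lam * v w : ℝ) : ℂ) • O.f1 w r (fun w => lam * r * v w)) x y) r := by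
    intro x y
    refine (hO.dr r hr v x y).congr_deriv ?_
    rw [Matrix.add_apply, Matrix.sum_apply]
    rfl
  have h2 := obsops2_muld (obsops2_muld (f := W) (f' := W' r) (hW r hr)
    (g := fun r => O.f r (fun w => lam * r * v w)) h1) (g := W) (g' := W' r) (hW r hr) x y
  refine h2.congr_deriv ?_
  show _ = (W r * O.fr r (fun w => lam * r * v w) * W r +
    (W' r * O.f r (fun w => lam * r * v w) * W r +
      W r * O.f r (fun w => lam * r * v w) * W' r)) x y +
    ∑ w, ((lam * v w : ℝ) : ℂ) * (W r * O.f1 w r (fun w => lam * r * v w) * W r) x y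
  have h3 : (∑ w, ((lam * v w : ℝ) : ℂ) * (W r * O.f1 w r (fun w => lam * r * v w) * W r) x y) =
      (W r * (∑ w, ((lam * v w : ℝ) : ℂ) • O.f1 w r (fun w => lam * r * v w)) * W r) x y := by
    rw [Matrix.mul_sum, Matrix.sum_mul, Matrix.sum_apply]
    refine Finset.sum_congr rfl fun w _ => ?_
    rw [Matrix.mul_smul, Matrix.smul_mul]
    rfl
  rw [h3, ← Matrix.add_apply]
  have h4 : ∀ F R S : Matrix κ κ ℂ, (W' r * F + W r * (R + S)) * W r + (W r * F) * W' r =
      W r * R * W r + (W' r * F * W r + W r * F * W' r) + W r * S * W r := by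
    intro F R S
    rw [Matrix.mul_add, Matrix.add_mul, Matrix.add_mul]
    abel
  exact congrFun (congrFun (h4 _ _ _) x) y

private theorem obsops2_symm (D : Fl ι) (hH : RealSym D.H0) (r : ℝ) (h : ι → ℝ) (x y : ι) :
    D.SO.f r h x y = D.SO.f r h y x := by
  show ((‖D.G r h x y‖ ^ 2 : ℝ) : ℂ) = ((‖D.G r h y x‖ ^ 2 : ℝ) : ℂ)
  have h1 : D.G r h x y = D.G r h y x := by
    have h2 := congrFun (congrFun (Pool.Agent.Kin.res_transpose hH (D.zr r) h) y) x
    rw [Matrix.transpose_apply] at h2
    exact h2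
  rw [h1]

theorem SO_herm_all (D : Fl ι) (hH : RealSym D.H0) (r : ℝ) (h : ι → ℝ) :
    (D.SO.f r h).IsHermitian := by
  ext x y
  rw [Matrix.conjTranspose_apply, obsops2_symm D hH r h y x]
  exact Complex.conj_ofReal _

theorem fO_herm_all (D : Fl ι) (hH : RealSym D.H0) (W W' QU QU' : ℝ → Matrix ι ι ℂ) (c : ℝ)
    (hW : ∀ r, (W r)ᴴ = W r) (hQ : ∀ r, (QU r)ᴴ = QU r) (r : ℝ) (h : ι → ℝ) :
    ((D.fO W W' QU QU' c).f r h).IsHermitian := by
  have hS := SO_herm_all D hH r h
  have hL : (lap (D.SO.f r h))ᴴ = lap (D.SO.f r h) := by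
    rw [lap, Matrix.conjTranspose_sub, hS, Matrix.diagonal_conjTranspose]
    congr 2
    funext x
    rw [Pi.star_apply, star_sum]
    refine Finset.sum_congr rfl fun y _ => ?_
    exact Complex.conj_ofReal _
  show ((c : ℂ) • (W r * (lap (D.SO.f r h) - QU r) * W r))ᴴ =
    (c : ℂ) • (W r * (lap (D.SO.f r h) - QU r) * W r)
  rw [Matrix.conjTranspose_smul, Matrix.conjTranspose_mul, Matrix.conjTranspose_mul,
    Matrix.conjTranspose_sub, hL, hQ, hW, Matrix.mul_assoc]
  congr 1
  exact Complex.conj_ofReal _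

end Pool.Agent.APS
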