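import Pool.Agent.APS.Defs

/-! # APS POWREG: regularity of the component `∑ |f|^(2p)`.

Derivatives along a differentiable path `v(t)` with `v' = g`, for `p ≥ 2`:
`(pw p v)' = pw1 p v g`; for a second path `k(t)`: `(pw1 p v k)' = pw2 p v g k + pw1 p v k'`
(`d/dt |v|^(2m) = 2m |v|^(2m-2) Re(conj v v')`, use `Complex.normSq`, `(2p)(2p-2) = 4p(p-1)`).
Continuity: polynomials in entries, conjugates and norms.  Nonnegativity is clear.
For `dr` use linearity of `pw1` in the direction, over the real numbers: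
`pw1 p v (fr + ∑ a_w f1_w) = pw1 p v fr + ∑ a_w pw1 p v f1_w`.
-/

open Finset

noncomputable section

namespace Pool.Agent.APS

variable {ι κ : Type} [Fintype ι] [DecidableEq ι] [Fintype κ]

private theorem powreg_re {f : ℝ → ℂ} {f' : ℂ} {t : ℝ} (h : HasDerivAt f f' t) :
    HasDerivAt (fun t => (f t).re) f'.re t := by
  exact (Complex.reCLM.hasFDerivAt.comp_hasDerivAt t h)

private theorem powreg_nsq {v : ℝ → ℂ} {g : ℂ} {t : ℝ} (h : HasDerivAt v g t) :
    HasDerivAt (fun t => ‖v t‖ ^ 2) (2 * (star (v t) * g).re) t := by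
  have h1 := h.norm_sq
  rw [Complex.inner, mul_comm g] at h1
  exact h1

private theorem powreg_pow {v : ℝ → ℂ} {g : ℂ} {t : ℝ} (h : HasDerivAt v g t) (m : ℕ) :
    HasDerivAt (fun t => ‖v t‖ ^ (2 * m))
      (2 * m * ‖v t‖ ^ (2 * m - 2) * (star (v t) * g).re) t := by
  have h1 := (powreg_nsq h).pow m
  have h2 : (fun t => (‖v t‖ ^ 2) ^ m) = fun t => ‖v t‖ ^ (2 * m) := by
    funext t
    rw [← pow_mul]
  have h3 : (‖v t‖ ^ 2) ^ (m - 1) = ‖v t‖ ^ (2 * m - 2) := by
    rw [← pow_mul]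
    congr 1
    omega
  have h4 : HasDerivAt (fun t => (‖v t‖ ^ 2) ^ m)
      ((m : ℝ) * (‖v t‖ ^ 2) ^ (m - 1) * (2 * (star (v t) * g).re)) t := h1
  rw [h2, h3] at h4
  convert h4 using 1
  ring

private theorem powreg_star {v k : ℝ → ℂ} {g k' : ℂ} {t : ℝ} (hv : HasDerivAt v g t)
    (hk : HasDerivAt k k' t) : HasDerivAt (fun t => (star (v t) * k t).re)
      ((star g * k t).re + (star (v t) * k').re) t := by
  have h1 := powreg_re (hv.star.mul hk)
  rw [Complex.add_re] at h1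
  exact h1

private theorem powreg_d0 (p : ℕ) {v : ℝ → κ → ℂ} {g : κ → ℂ} {t : ℝ}
    (hv : ∀ x, HasDerivAt (fun t => v t x) (g x) t) :
    HasDerivAt (fun t => pw p (v t)) (pw1 p (v t) g) t := by
  unfold pw pw1
  exact HasDerivAt.fun_sum fun x _ => powreg_pow (hv x) p

private theorem powreg_d1 (p : ℕ) (hp : 2 ≤ p) {v k : ℝ → κ → ℂ} {g k' : κ → ℂ} {t : ℝ}
    (hv : ∀ x, HasDerivAt (fun t => v t x) (g x) t)
    (hk : ∀ x, HasDerivAt (fun t => k t x) (k' x) t) :
    HasDerivAt (fun t => pw1 p (v t) (k t)) (pw1 p (v t) k' + pw2 p (v t) g (k t)) t := by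
  unfold pw1 pw2
  rw [← Finset.sum_add_distrib]
  refine HasDerivAt.fun_sum fun x _ => ?_
  have h1 := (powreg_pow (hv x) (p - 1)).const_mul (2 * (p : ℝ))
  have h2 := h1.mul (powreg_star (hv x) (hk x))
  have e1 : 2 * (p - 1) = 2 * p - 2 := by omega
  have e2 : 2 * (p - 1) - 2 = 2 * p - 4 := by omega
  have e3 : ((p - 1 : ℕ) : ℝ) = (p : ℝ) - 1 := by
    rw [Nat.cast_sub (by omega)]
    simp
  rw [e2, e3, e1] at h2
  refine h2.congr_deriv ?_
  ring

private theorem powreg_lin (p : ℕ) (v g : κ → ℂ) (a : ι → ℝ) (f : ι → κ → ℂ) :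
    pw1 p v (fun x => g x + ∑ w, ((a w : ℝ) : ℂ) * f w x) =
      pw1 p v g + ∑ w, a w * pw1 p v (f w) := by
  unfold pw1
  simp only [Finset.mul_sum]
  rw [Finset.sum_comm, ← Finset.sum_add_distrib]
  refine Finset.sum_congr rfl fun x _ => ?_
  rw [mul_add, Complex.add_re, Finset.mul_sum, Complex.re_sum, mul_add, Finset.mul_sum]
  congr 1
  refine Finset.sum_congr rfl fun w _ => ?_
  have h : (star (v x) * (((a w : ℝ) : ℂ) * f w x)) = ((a w : ℝ) : ℂ) * (star (v x) * f w x) := by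
    ring
  rw [h, Complex.re_ofReal_mul]
  ring

section cont

variable {S : Set (ℝ × (ι → ℝ))} {f g k : ℝ × (ι → ℝ) → κ → ℂ}

private theorem powreg_c0 (p : ℕ) (hf : ∀ x, ContinuousOn (fun q => f q x) S) :
    ContinuousOn (fun q => pw p (f q)) S := by
  unfold pw
  exact continuousOn_finsetSum _ fun x _ => (hf x).norm.pow _

private theorem powreg_cre (hf : ∀ x, ContinuousOn (fun q => f q x) S)
    (hg : ∀ x, ContinuousOn (fun q => g q x) S) (x : κ) :
    ContinuousOn (fun q => (star (f q x) * g q x).re) S :=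
  Complex.continuous_re.comp_continuousOn ((hf x).star.mul (hg x))

private theorem powreg_c1 (p : ℕ) (hf : ∀ x, ContinuousOn (fun q => f q x) S)
    (hg : ∀ x, ContinuousOn (fun q => g q x) S) :
    ContinuousOn (fun q => pw1 p (f q) (g q)) S := by
  unfold pw1
  exact continuousOn_finsetSum _ fun x _ =>
    (continuousOn_const.mul ((hf x).norm.pow _)).mul (powreg_cre hf hg x)

private theorem powreg_c2 (p : ℕ) (hf : ∀ x, ContinuousOn (fun q => f q x) S)
    (hg : ∀ x, ContinuousOn (fun q => g q x) S) (hk : ∀ x, ContinuousOn (fun q => k q x) S) :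
    ContinuousOn (fun q => pw2 p (f q) (g q) (k q)) S := by
  unfold pw2
  exact continuousOn_finsetSum _ fun x _ =>
    ((continuousOn_const.mul ((hf x).norm.pow _)).mul (powreg_cre hg hk x)).add
      ((continuousOn_const.mul ((hf x).norm.pow _)).mul
        ((powreg_cre hf hg x).mul (powreg_cre hf hk x)))

end cont

theorem powComp_reg (p : ℕ) (hp : 2 ≤ p) (O : VObs ι κ) {lam : ℝ} {I : Set ℝ}
    (hO : O.Reg lam I) : (powComp p O).Reg lam I where
  cGa := powreg_c0 p hO.c0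
  cGr := powreg_c1 p hO.c0 hO.cr
  cG1 w := powreg_c1 p hO.c0 (hO.c1 w)
  cDr w := powreg_c1 p hO.c0 (hO.c2 w)
  cQu w := powreg_c2 p hO.c0 (hO.c1 w) (hO.c1 w)
  cD1 w := (powreg_c1 p hO.c0 (hO.c3 w)).add (powreg_c2 p hO.c0 (hO.c1 w) (hO.c2 w))
  nn r _ h := Finset.sum_nonneg fun x _ => pow_nonneg (norm_nonneg _) _
  d1 r hr h w t := powreg_d0 p fun x => hO.d1 r hr h w t x
  d2 r hr h w t := powreg_d1 p hp (fun x => hO.d1 r hr h w t x) fun x => hO.d2 r hr h w t x
  d3 r hr h w t := powreg_d1 p hp (fun x => hO.d1 r hr h w t x) fun x => hO.d3 r hr h w t x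
  dr r hr v := by
    have h1 := powreg_d0 p (fun x => hO.dr r hr v x)
    have h2 := powreg_lin p (O.f r (fun w => lam * r * v w)) (O.fr r (fun w => lam * r * v w))
      (fun w => lam * v w) (fun w => O.f1 w r (fun w => lam * r * v w))
    rw [h2] at h1
    exact h1

end Pool.Agent.APS
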