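import Pool.Agent.APS.RegG

/-! # APS REGO: regularity of the observables `g`, `S`, `R` (from `GO_reg`).

All fields are obtained from `GO_reg` by the product rule and the symmetry `G_xy = G_yx`
(`Kin.res_symm`); e.g. for `S_xy = |G_xy|²`: `∂_w S = -2 Re (G_xw G_wy conj G_xy)`,
`∂_w² S = 4 Re(G_ww G_xw G_wy conj G_xy) + 2 |G_xw|² |G_wy|²`,
`∂_w³ S = -12 Re (G_ww² G_xw G_wy conj G_xy) - 12 Re(G_ww) |G_xw|² |G_wy|²`.
For `dr`: the chain rule along the path: `d/dr |G_xy|² = 2 Re (conj G_xy d/dr G_xy)` and linearity.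
-/

open Matrix Finset

noncomputable section

namespace Pool.Agent.APS

open Pool.Agent.Kin

variable {ι : Type} [Fintype ι] [DecidableEq ι]

/-- derivative of `|g|²` -/
private theorem rego_nsq {g : ℝ → ℂ} {g' : ℂ} {t : ℝ} (hg : HasDerivAt g g' t) :
    HasDerivAt (fun t => ‖g t‖ ^ 2) (2 * (g' * star (g t)).re) t := by
  have hre : HasDerivAt (fun t => (g t).re) g'.re t :=
    (Complex.reCLM.hasFDerivAt (x := g t)).comp_hasDerivAt t hg
  have him : HasDerivAt (fun t => (g t).im) g'.im t :=
    (Complex.imCLM.hasFDerivAt (x := g t)).comp_hasDerivAt t hg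
  have h1 := (hre.mul hre).add (him.mul him)
  have h2 : (fun t => ‖g t‖ ^ 2) = fun t => (g t).re * (g t).re + (g t).im * (g t).im := by
    funext t
    rw [Complex.sq_norm, Complex.normSq_apply]
  rw [h2]
  refine h1.congr_deriv ?_
  simp only [Complex.mul_re, Complex.star_def, Complex.conj_re, Complex.conj_im]
  ring

private theorem rego_re {g : ℝ → ℂ} {g' : ℂ} {t : ℝ} (hg : HasDerivAt g g' t) :
    HasDerivAt (fun t => (g t).re) g'.re t :=
  (Complex.reCLM.hasFDerivAt (x := g t)).comp_hasDerivAt t hg

private theorem rego_star {g : ℝ → ℂ} {g' : ℂ} {t : ℝ} (hg : HasDerivAt g g' t) :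
    HasDerivAt (fun t => star (g t)) (star g') t := hg.star

private theorem rego_cst {α : Type} [TopologicalSpace α] {g : α → ℂ} {S : Set α}
    (hg : ContinuousOn g S) : ContinuousOn (fun p => star (g p)) S :=
  continuous_star.comp_continuousOn hg

private theorem rego_cof {α : Type} [TopologicalSpace α] {g : α → ℝ} {S : Set α}
    (hg : ContinuousOn g S) : ContinuousOn (fun p => ((g p : ℝ) : ℂ)) S :=
  Complex.continuous_ofReal.comp_continuousOn hg

private theorem rego_cre {α : Type} [TopologicalSpace α] {g : α → ℂ} {S : Set α}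
    (hg : ContinuousOn g S) : ContinuousOn (fun p => (g p).re) S :=
  Complex.continuous_re.comp_continuousOn hg

private theorem rego_sym (D : Fl ι) (hH : RealSym D.H0) {r : ℝ} (hr : 0 < D.et r) (h : ι → ℝ)
    (x y : ι) : D.G r h x y = D.G r h y x :=
  res_symm hH (by rw [zr_im]; exact hr) h x y

theorem gO_reg (D : Fl ι) (hH : RealSym D.H0) (I : Set ℝ) (hI : ∀ r ∈ I, 0 < D.et r) :
    D.gO.Reg D.lam I := by
  have hG := GO_reg D hH I hI
  have cG : ∀ x y, ContinuousOn (fun p : ℝ × (ι → ℝ) => D.G p.1 p.2 x y) (I ×ˢ Set.univ) := hG.c0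
  have dG : ∀ r ∈ I, ∀ h w t x y,
      HasDerivAt (fun t : ℝ => D.G r (Function.update h w t) x y)
        (-(D.G r (Function.update h w t) x w * D.G r (Function.update h w t) w y)) t := hG.d1
  refine ⟨fun x => (cG x x).sub continuousOn_const, fun x => hG.cr x x,
    fun w x => ((cG x w).pow 2).neg, fun w x => continuousOn_const.mul ((cG w w).mul ((cG x w).pow 2)),
    fun w x => (continuousOn_const.mul (((cG w w).pow 2).mul ((cG x w).pow 2))).neg,
    fun r hr h w t x => ?_, fun r hr h w t x => ?_, fun r hr h w t x => ?_, fun r hr v x => ?_⟩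
  · refine ((dG r hr h w t x x).sub_const D.g0).congr_deriv ?_
    show -(D.G r (Function.update h w t) x w * D.G r (Function.update h w t) w x) =
      -(D.G r (Function.update h w t) x w ^ 2)
    rw [rego_sym D hH (hI r hr) _ w x]
    ring
  · refine (((dG r hr h w t x w).pow 2).neg).congr_deriv ?_
    show _ = 2 * (D.G r (Function.update h w t) w w * D.G r (Function.update h w t) x w ^ 2)
    push_cast
    ring
  · refine (((dG r hr h w t w w).mul ((dG r hr h w t x w).pow 2)).const_mul 2).congr_deriv ?_
    show _ = -(6 * (D.G r (Function.update h w t) w w ^ 2 *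
      D.G r (Function.update h w t) x w ^ 2))
    simp only [Pi.pow_apply]
    push_cast
    ring
  · refine ((hG.dr r hr v x x).sub_const D.g0).congr_deriv ?_
    refine congrArg₂ (· + ·) rfl (Finset.sum_congr rfl fun w _ => ?_)
    show _ * (-(D.G r (fun w => D.lam * r * v w) x w * D.G r (fun w => D.lam * r * v w) w x)) =
      _ * (-(D.G r (fun w => D.lam * r * v w) x w ^ 2))
    rw [rego_sym D hH (hI r hr) _ w x]
    ring

theorem SO_reg (D : Fl ι) (hH : RealSym D.H0) (I : Set ℝ) (hI : ∀ r ∈ I, 0 < D.et r) :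
    D.SO.Reg D.lam I := by
  have hG := GO_reg D hH I hI
  have cG : ∀ x y, ContinuousOn (fun p : ℝ × (ι → ℝ) => D.G p.1 p.2 x y) (I ×ˢ Set.univ) := hG.c0
  have dG : ∀ r ∈ I, ∀ h w t x y,
      HasDerivAt (fun t : ℝ => D.G r (Function.update h w t) x y)
        (-(D.G r (Function.update h w t) x w * D.G r (Function.update h w t) w y)) t := hG.d1
  have cGr : ∀ x y, ContinuousOn (fun p : ℝ × (ι → ℝ) => -(2 * (p.1 : ℂ) * (D.s : ℂ) * D.g0) *
      (D.G p.1 p.2 * D.G p.1 p.2) x y) (I ×ˢ Set.univ) := hG.cr
  have cN : ∀ x y, ContinuousOn (fun p : ℝ × (ι → ℝ) => ‖D.G p.1 p.2 x y‖ ^ 2)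
      (I ×ˢ Set.univ) := fun x y => (cG x y).norm.pow 2
  refine ⟨fun x y => rego_cof (cN x y), fun x y => rego_cof ?_, fun w x y => rego_cof ?_,
    fun w x y => rego_cof ?_, fun w x y => rego_cof ?_,
    fun r hr h w t x y => ?_, fun r hr h w t x y => ?_, fun r hr h w t x y => ?_,
    fun r hr v x y => ?_⟩
  · exact continuousOn_const.mul (rego_cre ((cGr x y).mul (rego_cst (cG x y))))
  · exact (continuousOn_const.mul
      (rego_cre (((cG x w).mul (cG w y)).mul (rego_cst (cG x y))))).neg
  · exact (continuousOn_const.mul (rego_cre (((cG w w).mul ((cG x w).mul (cG w y))).mul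
      (rego_cst (cG x y))))).add (continuousOn_const.mul ((cN x w).mul (cN w y)))
  · exact ((continuousOn_const.mul (rego_cre ((((cG w w).pow 2).mul ((cG x w).mul (cG w y))).mul
      (rego_cst (cG x y))))).neg).sub (continuousOn_const.mul ((rego_cre (cG w w)).mul
      ((cN x w).mul (cN w y))))
  · refine (rego_nsq (dG r hr h w t x y)).ofReal_comp.congr_deriv ?_
    show _ = ((-(2 * (D.G r (Function.update h w t) x w * D.G r (Function.update h w t) w y *
      star (D.G r (Function.update h w t) x y)).re) : ℝ) : ℂ)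
    refine congrArg _ ?_
    rw [neg_mul, Complex.neg_re]
    ring
  · have h1 := ((rego_re (((dG r hr h w t x w).mul (dG r hr h w t w y)).mul
      (rego_star (dG r hr h w t x y)))).const_mul 2).neg
    refine h1.ofReal_comp.congr_deriv ?_
    refine congrArg (fun q : ℝ => (q : ℂ)) ?_
    show _ = 4 * (D.G r (Function.update h w t) w w * (D.G r (Function.update h w t) x w *
      D.G r (Function.update h w t) w y) * star (D.G r (Function.update h w t) x y)).re +
      2 * (‖D.G r (Function.update h w t) x w‖ ^ 2 * ‖D.G r (Function.update h w t) w y‖ ^ 2)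
    simp only [Complex.sq_norm, Complex.normSq_apply, Complex.mul_re, Complex.mul_im,
      Complex.add_re, Complex.add_im, Complex.neg_re, Complex.neg_im, Complex.star_def,
      Complex.conj_re, Complex.conj_im, Pi.mul_apply]
    ring
  · have h1 := ((rego_re (((dG r hr h w t w w).mul ((dG r hr h w t x w).mul
      (dG r hr h w t w y))).mul (rego_star (dG r hr h w t x y)))).const_mul 4).add
      (((rego_nsq (dG r hr h w t x w)).mul (rego_nsq (dG r hr h w t w y))).const_mul 2)
    refine h1.ofReal_comp.congr_deriv ?_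
    refine congrArg (fun q : ℝ => (q : ℂ)) ?_
    show _ = -(12 * (D.G r (Function.update h w t) w w ^ 2 * (D.G r (Function.update h w t) x w *
      D.G r (Function.update h w t) w y) * star (D.G r (Function.update h w t) x y)).re) -
      12 * ((D.G r (Function.update h w t) w w).re *
        (‖D.G r (Function.update h w t) x w‖ ^ 2 * ‖D.G r (Function.update h w t) w y‖ ^ 2))
    simp only [Complex.sq_norm, Pi.mul_apply]
    simp only [Complex.normSq_apply, Complex.mul_re, Complex.mul_im,
      Complex.add_re, Complex.add_im, Complex.neg_re, Complex.neg_im, Complex.star_def,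
      Complex.conj_re, Complex.conj_im, pow_two]
    ring
  · refine (rego_nsq (hG.dr r hr v x y)).ofReal_comp.congr_deriv ?_
    show ((2 * ((-(2 * (r : ℂ) * (D.s : ℂ) * D.g0) *
        (D.G r (fun w => D.lam * r * v w) * D.G r (fun w => D.lam * r * v w)) x y +
        ∑ w, ((D.lam * v w : ℝ) : ℂ) * (-(D.G r (fun w => D.lam * r * v w) x w *
          D.G r (fun w => D.lam * r * v w) w y))) *
        star (D.G r (fun w => D.lam * r * v w) x y)).re : ℝ) : ℂ) =
      ((2 * (-(2 * (r : ℂ) * (D.s : ℂ) * D.g0) *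
        (D.G r (fun w => D.lam * r * v w) * D.G r (fun w => D.lam * r * v w)) x y *
        star (D.G r (fun w => D.lam * r * v w) x y)).re : ℝ) : ℂ) +
      ∑ w, ((D.lam * v w : ℝ) : ℂ) * ((-(2 * (D.G r (fun w => D.lam * r * v w) x w *
        D.G r (fun w => D.lam * r * v w) w y *
        star (D.G r (fun w => D.lam * r * v w) x y)).re) : ℝ) : ℂ)
    rw [add_mul, Complex.add_re, mul_add, Complex.ofReal_add, Finset.sum_mul, Complex.re_sum,
      Finset.mul_sum, Complex.ofReal_sum]
    refine congrArg₂ (· + ·) rfl (Finset.sum_congr rfl fun w _ => ?_)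
    rw [← Complex.ofReal_mul]
    refine congrArg (fun q : ℝ => (q : ℂ)) ?_
    rw [mul_assoc, Complex.re_ofReal_mul, neg_mul, Complex.neg_re]
    ring

theorem RO_reg (D : Fl ι) (hH : RealSym D.H0) (I : Set ℝ) (hI : ∀ r ∈ I, 0 < D.et r) :
    D.RO.Reg D.lam I := by
  have hG := GO_reg D hH I hI
  have cG : ∀ x y, ContinuousOn (fun p : ℝ × (ι → ℝ) => D.G p.1 p.2 x y) (I ×ˢ Set.univ) := hG.c0
  have dG : ∀ r ∈ I, ∀ h w t x y,
      HasDerivAt (fun t : ℝ => D.G r (Function.update h w t) x y)
        (-(D.G r (Function.update h w t) x w * D.G r (Function.update h w t) w y)) t := hG.d1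
  have cGr : ∀ x y, ContinuousOn (fun p : ℝ × (ι → ℝ) => -(2 * (p.1 : ℂ) * (D.s : ℂ) * D.g0) *
      (D.G p.1 p.2 * D.G p.1 p.2) x y) (I ×ˢ Set.univ) := hG.cr
  refine ⟨fun x y => (cG x y).pow 2, fun x y => continuousOn_const.mul ((cGr x y).mul (cG x y)),
    fun w x y => (continuousOn_const.mul (((cG x w).mul (cG w y)).mul (cG x y))).neg,
    fun w x y => (continuousOn_const.mul (((cG w w).mul ((cG x w).mul (cG w y))).mul
      (cG x y))).add (continuousOn_const.mul (((cG x w).pow 2).mul ((cG w y).pow 2))),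
    fun w x y => ((continuousOn_const.mul ((((cG w w).pow 2).mul ((cG x w).mul (cG w y))).mul
      (cG x y))).neg).sub (continuousOn_const.mul ((cG w w).mul
      (((cG x w).pow 2).mul ((cG w y).pow 2)))),
    fun r hr h w t x y => ?_, fun r hr h w t x y => ?_, fun r hr h w t x y => ?_,
    fun r hr v x y => ?_⟩
  · refine ((dG r hr h w t x y).pow 2).congr_deriv ?_
    show _ = -(2 * (D.G r (Function.update h w t) x w * D.G r (Function.update h w t) w y *
      D.G r (Function.update h w t) x y))
    push_cast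
    ring
  · refine (((((dG r hr h w t x w).mul (dG r hr h w t w y)).mul
      (dG r hr h w t x y)).const_mul 2).neg).congr_deriv ?_
    show _ = 4 * (D.G r (Function.update h w t) w w * (D.G r (Function.update h w t) x w *
      D.G r (Function.update h w t) w y) * D.G r (Function.update h w t) x y) +
      2 * (D.G r (Function.update h w t) x w ^ 2 * D.G r (Function.update h w t) w y ^ 2)
    simp only [Pi.mul_apply]
    ring
  · refine (((((dG r hr h w t w w).mul ((dG r hr h w t x w).mul (dG r hr h w t w y))).mul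
      (dG r hr h w t x y)).const_mul 4).add ((((dG r hr h w t x w).pow 2).mul
      ((dG r hr h w t w y).pow 2)).const_mul 2)).congr_deriv ?_
    show _ = -(12 * (D.G r (Function.update h w t) w w ^ 2 * (D.G r (Function.update h w t) x w *
      D.G r (Function.update h w t) w y) * D.G r (Function.update h w t) x y)) -
      12 * (D.G r (Function.update h w t) w w * (D.G r (Function.update h w t) x w ^ 2 *
        D.G r (Function.update h w t) w y ^ 2))
    simp only [Pi.mul_apply, Pi.pow_apply]
    push_cast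
    ring
  · refine ((hG.dr r hr v x y).pow 2).congr_deriv ?_
    show _ * D.G r (fun w => D.lam * r * v w) x y ^ (2 - 1) *
        (-(2 * (r : ℂ) * (D.s : ℂ) * D.g0) *
        (D.G r (fun w => D.lam * r * v w) * D.G r (fun w => D.lam * r * v w)) x y +
        ∑ w, ((D.lam * v w : ℝ) : ℂ) * (-(D.G r (fun w => D.lam * r * v w) x w *
          D.G r (fun w => D.lam * r * v w) w y))) =
      2 * (-(2 * (r : ℂ) * (D.s : ℂ) * D.g0) *
        (D.G r (fun w => D.lam * r * v w) * D.G r (fun w => D.lam * r * v w)) x y *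
        D.G r (fun w => D.lam * r * v w) x y) +
      ∑ w, ((D.lam * v w : ℝ) : ℂ) * (-(2 * (D.G r (fun w => D.lam * r * v w) x w *
        D.G r (fun w => D.lam * r * v w) w y * D.G r (fun w => D.lam * r * v w) x y)))
    rw [mul_add, Finset.mul_sum]
    refine congrArg₂ (· + ·) ?_ (Finset.sum_congr rfl fun w _ => ?_)
    · push_cast
      ring
    · push_cast
      ring

end Pool.Agent.APS
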