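import Pool.Agent.APS.Defs

/-! # APS ROWREG: regularity of the component `∑_x (∑_y |f_xy|²)^p`.

Along a path `f(t)` with `f' = g` and a second path `k(t)`, `p ≥ 2`:
`(rw0 p f)' = rw1 p f g`, `(rw1 p f k)' = rw2 p f g k + rw1 p f k'`
(`(∑_y |f|²)' = 2 ∑_y Re(conj f g)`).
-/

open Finset

noncomputable section

namespace Pool.Agent.APS

variable {ι κ : Type} [Fintype ι] [DecidableEq ι] [Fintype κ]

omit [DecidableEq ι] in
private theorem rr_add (p : ℕ) (v a b : Matrix κ κ ℂ) :
    rw1 p v (fun x y => a x y + b x y) = rw1 p v a + rw1 p v b := by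
  unfold rw1
  rw [← sum_add_distrib]
  refine sum_congr rfl fun x _ => ?_
  rw [← mul_add, ← mul_add, ← sum_add_distrib]
  congr 2
  refine sum_congr rfl fun y _ => ?_
  rw [mul_add, Complex.add_re]

omit [DecidableEq ι] in
private theorem rr_sum (p : ℕ) (v : Matrix κ κ ℂ) (c : ι → ℝ) (k : ι → Matrix κ κ ℂ) :
    rw1 p v (fun x y => ∑ w, ((c w : ℝ) : ℂ) * k w x y) = ∑ w, c w * rw1 p v (k w) := by
  unfold rw1
  simp_rw [mul_sum, Complex.re_sum, mul_sum]
  rw [sum_comm' (s := (univ : Finset ι)) (t := fun _ => (univ : Finset κ)) (t' := univ)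
    (s' := fun _ => (univ : Finset ι)) (by simp)]
  refine sum_congr rfl fun x _ => ?_
  rw [sum_comm]
  refine sum_congr rfl fun w _ => ?_
  refine sum_congr rfl fun y _ => ?_
  have : star (v x y) * (((c w : ℝ) : ℂ) * k w x y) =
      ((c w : ℝ) : ℂ) * (star (v x y) * k w x y) := by
    ring
  rw [this, Complex.re_ofReal_mul]
  ring

section cont

variable {Z : Type} [TopologicalSpace Z] {S : Set Z} {F G K : Z → Matrix κ κ ℂ}

private theorem rr_contX (hF : ∀ x y, ContinuousOn (fun z => F z x y) S) (x : κ) :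
    ContinuousOn (fun z => ∑ y, ‖F z x y‖ ^ 2) S :=
  continuousOn_finsetSum _ fun y _ => (hF x y).norm.pow 2

private theorem rr_contP (hF : ∀ x y, ContinuousOn (fun z => F z x y) S)
    (hG : ∀ x y, ContinuousOn (fun z => G z x y) S) (x : κ) :
    ContinuousOn (fun z => 2 * ∑ y, (star (F z x y) * G z x y).re) S :=
  continuousOn_const.mul (continuousOn_finsetSum _ fun y _ =>
    Complex.continuous_re.comp_continuousOn ((hF x y).star.mul (hG x y)))

private theorem rr_cont0 (p : ℕ) (hF : ∀ x y, ContinuousOn (fun z => F z x y) S) :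
    ContinuousOn (fun z => rw0 p (F z)) S :=
  continuousOn_finsetSum _ fun x _ => (rr_contX hF x).pow p

private theorem rr_cont1 (p : ℕ) (hF : ∀ x y, ContinuousOn (fun z => F z x y) S)
    (hG : ∀ x y, ContinuousOn (fun z => G z x y) S) :
    ContinuousOn (fun z => rw1 p (F z) (G z)) S :=
  continuousOn_finsetSum _ fun x _ =>
    (continuousOn_const.mul ((rr_contX hF x).pow _)).mul (rr_contP hF hG x)

private theorem rr_cont2 (p : ℕ) (hF : ∀ x y, ContinuousOn (fun z => F z x y) S)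
    (hG : ∀ x y, ContinuousOn (fun z => G z x y) S)
    (hK : ∀ x y, ContinuousOn (fun z => K z x y) S) :
    ContinuousOn (fun z => rw2 p (F z) (G z) (K z)) S :=
  continuousOn_finsetSum _ fun x _ =>
    ((continuousOn_const.mul ((rr_contX hF x).pow _)).mul (rr_contP hG hK x)).add
      ((continuousOn_const.mul ((rr_contX hF x).pow _)).mul
        ((rr_contP hF hG x).mul (rr_contP hF hK x)))

end cont

section deriv

variable {F K : ℝ → Matrix κ κ ℂ} {g k : Matrix κ κ ℂ} {t : ℝ}

private theorem rr_dX (hF : ∀ x y, HasDerivAt (fun t => F t x y) (g x y) t) (x : κ) :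
    HasDerivAt (fun t => ∑ y, ‖F t x y‖ ^ 2) (2 * ∑ y, (star (F t x y) * g x y).re) t := by
  rw [mul_sum]
  refine HasDerivAt.fun_sum fun y _ => ?_
  have := (hF x y).norm_sq
  rw [Complex.inner, mul_comm (g x y)] at this
  exact this

private theorem rr_dP (hF : ∀ x y, HasDerivAt (fun t => F t x y) (g x y) t)
    (hK : ∀ x y, HasDerivAt (fun t => K t x y) (k x y) t) (x : κ) :
    HasDerivAt (fun t => 2 * ∑ y, (star (F t x y) * K t x y).re)
      (2 * ∑ y, (star (g x y) * K t x y).re + 2 * ∑ y, (star (F t x y) * k x y).re) t := by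
  rw [← mul_add, ← sum_add_distrib]
  refine HasDerivAt.const_mul _ (HasDerivAt.fun_sum fun y _ => ?_)
  have h1 := ((hF x y).star.mul (hK x y))
  have h2 := (Complex.reCLM.hasFDerivAt.comp_hasDerivAt t h1)
  rw [← Complex.add_re]
  exact h2

private theorem rr_d0 (p : ℕ) (hF : ∀ x y, HasDerivAt (fun t => F t x y) (g x y) t) :
    HasDerivAt (fun t => rw0 p (F t)) (rw1 p (F t) g) t := by
  unfold rw0 rw1
  refine HasDerivAt.fun_sum fun x _ => ?_
  exact (rr_dX hF x).pow p

private theorem rr_d1 (p : ℕ) (hp : 2 ≤ p) (hF : ∀ x y, HasDerivAt (fun t => F t x y) (g x y) t)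
    (hK : ∀ x y, HasDerivAt (fun t => K t x y) (k x y) t) :
    HasDerivAt (fun t => rw1 p (F t) (K t)) (rw2 p (F t) g (K t) + rw1 p (F t) k) t := by
  unfold rw1 rw2
  rw [← sum_add_distrib]
  refine HasDerivAt.fun_sum fun x _ => ?_
  have h1 := (((rr_dX hF x).pow (p - 1)).const_mul (p : ℝ)).mul (rr_dP hF hK x)
  have e : ((p - 1 : ℕ) : ℝ) = (p : ℝ) - 1 := by
    rw [Nat.cast_sub (by omega)]
    simp
  rw [e, Nat.sub_sub] at h1
  refine h1.congr_deriv ?_
  simp only [Pi.pow_apply]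
  ring

end deriv

theorem rowComp_reg (p : ℕ) (hp : 2 ≤ p) (O : MObs ι κ) {lam : ℝ} {I : Set ℝ}
    (hO : O.Reg lam I) : (rowComp p O).Reg lam I where
  cGa := rr_cont0 p hO.c0
  cGr := rr_cont1 p hO.c0 hO.cr
  cG1 w := rr_cont1 p hO.c0 (hO.c1 w)
  cDr w := rr_cont1 p hO.c0 (hO.c2 w)
  cQu w := rr_cont2 p hO.c0 (hO.c1 w) (hO.c1 w)
  cD1 w := (rr_cont1 p hO.c0 (hO.c3 w)).add (rr_cont2 p hO.c0 (hO.c1 w) (hO.c2 w))
  nn r _ h := sum_nonneg fun x _ => pow_nonneg (sum_nonneg fun y _ => by positivity) _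
  d1 r hr h w t := rr_d0 p (hO.d1 r hr h w t)
  d2 r hr h w t := by
    have := rr_d1 p hp (hO.d1 r hr h w t) (hO.d2 r hr h w t)
    rw [add_comm] at this
    exact this
  d3 r hr h w t := by
    have := rr_d1 p hp (hO.d1 r hr h w t) (hO.d3 r hr h w t)
    rw [add_comm] at this
    exact this
  dr r hr v := by
    have := rr_d0 p (hO.dr r hr v)
    have e := rr_add p (O.f r (fun w => lam * r * v w))
      (O.fr r (fun w => lam * r * v w))
      (fun x y => ∑ w, ((lam * v w : ℝ) : ℂ) * O.f1 w r (fun w => lam * r * v w) x y)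
    have e2 := rr_sum p (O.f r (fun w => lam * r * v w)) (fun w => lam * v w)
      (fun w => O.f1 w r (fun w => lam * r * v w))
    rw [e2] at e
    refine this.congr_deriv ?_
    exact e

end Pool.Agent.APS
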