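import Pool.Agent.APS.Defs

/-! # APS TRREG: regularity of the component `Re Tr f^(2p)` for hermitian `f`.

Along a path `f(t)` with `f' = g` (entrywise) and a second path `k(t)`:
`(f^n)' = ∑_{i<n} f^i g f^(n-1-i)` (induction on `n`, product rule for matrices entrywise), so
`(tr0 n f)' = tr1 n f g` (cyclicity of the trace) and
`(tr1 n f k)' = tr2 n f g k + tr1 n f k'`
(`Tr (f^(n-1))' k = ∑_{i<n-1} Tr f^i g f^(n-2-i) k`).
Nonnegativity: `f^(2p) = (f^p)ᴴ f^p` for hermitian `f`, the trace is `∑ |(f^p)_xy|²`.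
Continuity: polynomials in the entries.
-/

open Matrix Finset

noncomputable section

namespace Pool.Agent.APS

variable {ι κ : Type} [Fintype ι] [DecidableEq ι] [Fintype κ] [DecidableEq κ]

omit [Fintype κ] [DecidableEq κ] in
/-- entrywise derivative of a matrix valued function -/
private def MD (f : ℝ → Matrix κ κ ℂ) (f' : Matrix κ κ ℂ) (t : ℝ) : Prop :=
  ∀ x y, HasDerivAt (fun t => f t x y) (f' x y) t

omit [DecidableEq κ] in
private theorem MD.mul {f g : ℝ → Matrix κ κ ℂ} {f' g' : Matrix κ κ ℂ} {t : ℝ}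
    (hf : MD f f' t) (hg : MD g g' t) : MD (fun t => f t * g t) (f' * g t + f t * g') t := by
  intro x y
  have h1 : HasDerivAt (fun t => ∑ z, f t x z * g t z y)
      (∑ z, (f' x z * g t z y + f t x z * g' z y)) t :=
    HasDerivAt.fun_sum fun z _ => (hf x z).mul (hg z y)
  have e1 : (fun t => (f t * g t) x y) = fun t => ∑ z, f t x z * g t z y := by
    funext t
    exact Matrix.mul_apply
  have e2 : (f' * g t + f t * g') x y = ∑ z, (f' x z * g t z y + f t x z * g' z y) := by
    rw [Matrix.add_apply, Matrix.mul_apply, Matrix.mul_apply, Finset.sum_add_distrib]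
  rw [e1, e2]
  exact h1

private theorem MD.pow {f : ℝ → Matrix κ κ ℂ} {f' : Matrix κ κ ℂ} {t : ℝ}
    (hf : MD f f' t) (n : ℕ) :
    MD (fun t => f t ^ n) (∑ i ∈ range n, f t ^ i * f' * f t ^ (n - 1 - i)) t := by
  induction n with
  | zero =>
    intro x y
    simp only [pow_zero, Finset.range_zero, Finset.sum_empty, Matrix.zero_apply]
    exact hasDerivAt_const _ _
  | succ n ih =>
    have h1 := ih.mul hf
    have e1 : (fun t => f t ^ (n + 1)) = fun t => f t ^ n * f t := by
      funext t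
      exact pow_succ _ _
    have e2 : ∑ i ∈ range (n + 1), f t ^ i * f' * f t ^ (n + 1 - 1 - i) =
        (∑ i ∈ range n, f t ^ i * f' * f t ^ (n - 1 - i)) * f t + f t ^ n * f' := by
      rw [Finset.sum_range_succ, Nat.add_sub_cancel, Nat.sub_self, pow_zero, mul_one,
        Finset.sum_mul]
      congr 1
      refine Finset.sum_congr rfl fun i hi => ?_
      have hi' := Finset.mem_range.1 hi
      rw [mul_assoc (f t ^ i * f'), ← pow_succ]
      congr 2
      omega
    rw [e1, e2]
    exact h1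

omit [DecidableEq κ] in
private theorem MD.trace {f : ℝ → Matrix κ κ ℂ} {f' : Matrix κ κ ℂ} {t : ℝ}
    (hf : MD f f' t) : HasDerivAt (fun t => (f t).trace.re) f'.trace.re t := by
  have h1 : HasDerivAt (fun t => ∑ x, f t x x) (∑ x, f' x x) t :=
    HasDerivAt.fun_sum fun x _ => hf x x
  exact Complex.reCLM.hasFDerivAt.comp_hasDerivAt t h1

private theorem MD.tr0 {f : ℝ → Matrix κ κ ℂ} {f' : Matrix κ κ ℂ} {t : ℝ}
    (hf : MD f f' t) (n : ℕ) : HasDerivAt (fun t => tr0 n (f t)) (tr1 n (f t) f') t := by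
  have h1 := (hf.pow n).trace
  have e1 : tr1 n (f t) f' = (∑ i ∈ range n, f t ^ i * f' * f t ^ (n - 1 - i)).trace.re := by
    unfold tr1
    rw [Matrix.trace_sum, Complex.re_sum]
    have h2 : ∀ i ∈ range n, (f t ^ i * f' * f t ^ (n - 1 - i)).trace.re =
        (f t ^ (n - 1) * f').trace.re := by
      intro i hi
      have hi' := Finset.mem_range.1 hi
      rw [Matrix.trace_mul_cycle, ← pow_add]
      congr 4
      omega
    rw [Finset.sum_congr rfl h2, Finset.sum_const, Finset.card_range, nsmul_eq_mul]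
  rw [e1]
  exact h1

private theorem MD.tr1 {f k : ℝ → Matrix κ κ ℂ} {f' k' : Matrix κ κ ℂ} {t : ℝ}
    (hf : MD f f' t) (hk : MD k k' t) (n : ℕ) :
    HasDerivAt (fun t => tr1 n (f t) (k t)) (tr1 n (f t) k' + tr2 n (f t) f' (k t)) t := by
  have h1 := (((hf.pow (n - 1)).mul hk).trace).const_mul (n : ℝ)
  have e1 : Pool.Agent.APS.tr1 n (f t) k' + tr2 n (f t) f' (k t) =
      (n : ℝ) * ((∑ i ∈ range (n - 1), f t ^ i * f' * f t ^ (n - 1 - 1 - i)) * k t +
        f t ^ (n - 1) * k').trace.re := by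
    unfold Pool.Agent.APS.tr1 tr2
    rw [Matrix.trace_add, Complex.add_re, Finset.sum_mul, Matrix.trace_sum, Complex.re_sum,
      mul_add, add_comm]
    congr 2
    refine Finset.sum_congr rfl fun i _ => ?_
    rw [mul_assoc (f t ^ i * f'), show n - 1 - 1 - i = n - 2 - i by omega]
  rw [e1]
  exact h1

private theorem tr1_add' (n : ℕ) (f g k : Matrix κ κ ℂ) :
    tr1 n f (g + k) = tr1 n f g + tr1 n f k := by
  unfold tr1
  rw [mul_add, Matrix.trace_add, Complex.add_re, mul_add]

private theorem tr1_sum' {ι' : Type} (n : ℕ) (f : Matrix κ κ ℂ) (s : Finset ι')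
    (c : ι' → ℝ) (g : ι' → Matrix κ κ ℂ) :
    tr1 n f (∑ w ∈ s, (c w : ℂ) • g w) = ∑ w ∈ s, c w * tr1 n f (g w) := by
  unfold tr1
  rw [Finset.mul_sum, Matrix.trace_sum, Complex.re_sum, Finset.mul_sum]
  refine Finset.sum_congr rfl fun w _ => ?_
  rw [Matrix.mul_smul, Matrix.trace_smul, smul_eq_mul, Complex.re_ofReal_mul]
  ring

omit [Fintype κ] [DecidableEq κ] in
private theorem contM {T : Type} [TopologicalSpace T] {S : Set T} {F : T → Matrix κ κ ℂ}
    (h : ∀ x y, ContinuousOn (fun q => F q x y) S) : ContinuousOn F S :=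
  continuousOn_pi.2 fun x => continuousOn_pi.2 fun y => h x y

private theorem cont_tr0 {T : Type} [TopologicalSpace T] {S : Set T} {F : T → Matrix κ κ ℂ}
    (hF : ContinuousOn F S) (n : ℕ) : ContinuousOn (fun q => tr0 n (F q)) S := by
  unfold tr0
  exact Complex.continuous_re.comp_continuousOn
    ((Continuous.matrix_trace continuous_id).comp_continuousOn (hF.pow n))

private theorem cont_tr1 {T : Type} [TopologicalSpace T] {S : Set T} {F G : T → Matrix κ κ ℂ}
    (hF : ContinuousOn F S) (hG : ContinuousOn G S) (n : ℕ) :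
    ContinuousOn (fun q => tr1 n (F q) (G q)) S := by
  unfold tr1
  exact continuousOn_const.mul (Complex.continuous_re.comp_continuousOn
    ((Continuous.matrix_trace continuous_id).comp_continuousOn ((hF.pow (n - 1)).mul hG)))

private theorem cont_tr2 {T : Type} [TopologicalSpace T] {S : Set T}
    {F G K : T → Matrix κ κ ℂ} (hF : ContinuousOn F S) (hG : ContinuousOn G S)
    (hK : ContinuousOn K S) (n : ℕ) :
    ContinuousOn (fun q => tr2 n (F q) (G q) (K q)) S := by
  unfold tr2
  refine continuousOn_const.mul (continuousOn_finsetSum _ fun i _ => ?_)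
  exact Complex.continuous_re.comp_continuousOn
    ((Continuous.matrix_trace continuous_id).comp_continuousOn
      (((hF.pow i).mul hG).mul ((hF.pow (n - 2 - i)).mul hK)))

private theorem tr0_nonneg' (p : ℕ) {f : Matrix κ κ ℂ} (hf : f.IsHermitian) :
    0 ≤ tr0 (2 * p) f := by
  have h1 : (f ^ p)ᴴ = f ^ p := by
    rw [Matrix.conjTranspose_pow, hf.eq]
  have h2 : f ^ (2 * p) = (f ^ p)ᴴ * f ^ p := by
    rw [h1, ← pow_add, two_mul]
  unfold tr0
  rw [h2]
  have h3 : ((f ^ p)ᴴ * f ^ p).trace = ((∑ x, ∑ y, ‖(f ^ p) y x‖ ^ 2 : ℝ) : ℂ) := by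
    rw [Matrix.trace]
    push_cast
    refine Finset.sum_congr rfl fun x _ => ?_
    rw [Matrix.diag_apply, Matrix.mul_apply]
    refine Finset.sum_congr rfl fun y _ => ?_
    rw [Matrix.conjTranspose_apply]
    exact Complex.conj_mul' _
  rw [h3, Complex.ofReal_re]
  positivity

theorem trComp_reg (p : ℕ) (hp : 1 ≤ p) (O : MObs ι κ) {lam : ℝ} {I : Set ℝ}
    (hO : O.Reg lam I) (hherm : ∀ r h, (O.f r h).IsHermitian) :
    (trComp (2 * p) O).Reg lam I where
  cGa := cont_tr0 (contM hO.c0) _
  cGr := cont_tr1 (contM hO.c0) (contM hO.cr) _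
  cG1 := fun w => cont_tr1 (contM hO.c0) (contM (hO.c1 w)) _
  cDr := fun w => cont_tr1 (contM hO.c0) (contM (hO.c2 w)) _
  cQu := fun w => cont_tr2 (contM hO.c0) (contM (hO.c1 w)) (contM (hO.c1 w)) _
  cD1 := fun w => (cont_tr1 (contM hO.c0) (contM (hO.c3 w)) _).add
    (cont_tr2 (contM hO.c0) (contM (hO.c1 w)) (contM (hO.c2 w)) _)
  nn := fun r _ h => tr0_nonneg' p (hherm r h)
  d1 := fun r hr h w t => MD.tr0 (f := fun t => O.f r (Function.update h w t))
    (f' := O.f1 w r (Function.update h w t)) (hO.d1 r hr h w t) (2 * p)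
  d2 := fun r hr h w t => MD.tr1 (f := fun t => O.f r (Function.update h w t))
    (k := fun t => O.f1 w r (Function.update h w t))
    (f' := O.f1 w r (Function.update h w t)) (k' := O.f2 w r (Function.update h w t))
    (hO.d1 r hr h w t) (hO.d2 r hr h w t) (2 * p)
  d3 := fun r hr h w t => MD.tr1 (f := fun t => O.f r (Function.update h w t))
    (k := fun t => O.f2 w r (Function.update h w t))
    (f' := O.f1 w r (Function.update h w t)) (k' := O.f3 w r (Function.update h w t))
    (hO.d1 r hr h w t) (hO.d3 r hr h w t) (2 * p)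
  dr := by
    intro r hr v
    have h1 := MD.tr0 (f := fun r => O.f r (fun w => lam * r * v w))
      (f' := O.fr r (fun w => lam * r * v w) +
        ∑ w, ((lam * v w : ℝ) : ℂ) • O.f1 w r (fun w => lam * r * v w)) (t := r) (fun x y => by
        have h2 := hO.dr r hr v x y
        have e1 : (O.fr r (fun w => lam * r * v w) +
            ∑ w, ((lam * v w : ℝ) : ℂ) • O.f1 w r (fun w => lam * r * v w)) x y =
            O.fr r (fun w => lam * r * v w) x y +
            ∑ w, ((lam * v w : ℝ) : ℂ) * O.f1 w r (fun w => lam * r * v w) x y := by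
          rw [Matrix.add_apply, Matrix.sum_apply]
          rfl
        rw [e1]
        exact h2) (2 * p)
    rw [tr1_add', tr1_sum'] at h1
    exact h1

end Pool.Agent.APS
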