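import Pool.Agent.APS.FlowG
import Pool.Agent.APS.CompAdd
import Pool.Agent.APS.PowReg
import Pool.Agent.APS.RowReg
import Pool.Agent.APS.TrReg
import Pool.Agent.APS.ObsOps
import Pool.Agent.APS.RegO
import Pool.Agent.APS.EstG
import Pool.Agent.APS.EstT
import Pool.Agent.APS.EstH
import Pool.Agent.APS.EstY

/-! # APS FLOW5: the flow theorem with the five components `g, T, Y, H, F` (assembly).

Components (all regular on `I` by REGO, OBSOPS, POWREG, ROWREG, TRREG; `η_r > 0` on `I`):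
`g`: `powComp p (wtV (1/a) 0 gO)`; `T`: `rowComp p (wtM c c' SO)`, `c = √(η_r/tau)`;
`Y`: `trComp (2p) (yO Rl Rl' c c')`, `c = η_r/y`, `om = ρ0`;
`H`: `trComp (2p) (hO Pi1 U1 U1' c c')`, `c = η_r/dl1`, `om = ρ0`;
`F`: `trComp (2p) (hO Pi2 U2 U2' c c')`, `c = η_r²/(dl2 η_ra)`, `om = 2ρ0`.   (`η_r' = -2 r s ρ0`.)
`Γ` = sum.  If `Γ ≤ 3/4` at `h = λ r v` then every component is `≤ 1`, hence `Cfg` holds
(`|g_x| ≤ a`; `T4_x ≤ tau/η_r`) and by `opLe_of_tr0` `‖R - Rl‖ ≤ y/η_r`, `‖Pi1 S - U1‖ ≤ dl1/η_r`,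
`‖Pi2 S - U2‖ ≤ dl2 η_ra/η_r²`.  Then `‖R‖ ≤ cR + y/η_r` and `≤ C1/η_r`, `‖Pi1 S‖ ≤ (b1+dl1)/η_r`, and
ESTG, ESTT, ESTY (`w0 = 2 cR η_ra + y`), ESTH (`w0 = b1 + a`; for `F`: `bH = ρ0 + ups`, `w0 = ups + a`)
apply; `est_add` four times (factor at most 16).  The rates `A` and sources are monotone in
`η_r ≥ η_rb` (`BT`), and for `F`: `η_r/c = dl2 η_ra/η_r ≥ dl2`.
The start: on `S0` `Γ(ra) ≤ N (a0/a)^(2p) + N (tau0/tau)^p + 2N (y0/y)^(2p) + 2N (d10/dl1)^(2p) +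
2N (d20/dl2)^(2p)` (`tr0_le_of_opLe`).  `flow_bound`.  Measurability of `S0` is a hypothesis.
-/

open Matrix Finset MeasureTheory

noncomputable section

namespace Pool.Agent.APS

open Pool.Agent.Kin

variable {ι : Type} [Fintype ι] [DecidableEq ι]

/-- the good event at time `r`, tolerances: `a` for `g`, `tau/η`, `y/η`, `x1`, `x2` -/
def Good (D : Fl ι) (r : ℝ) (h : ι → ℝ) (a tau y x1 x2 : ℝ) (Pi1 Pi2 R U1 U2 : Matrix ι ι ℂ) :
    Prop :=
  (∀ x, ‖D.G r h x x - D.g0‖ ≤ a) ∧ (∀ x, ∑ w, ‖D.G r h x w‖ ^ 4 ≤ tau / D.et r) ∧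
  OpLe (D.RO.f r h - R) (y / D.et r) ∧ OpLe (Pi1 * D.SO.f r h - U1) x1 ∧
  OpLe (Pi2 * D.SO.f r h - U2) x2

/-- Hypotheses of the flow on `[ra, rb]`. -/
structure FlowHyp (D : Fl ι) (C1 a tau y dl1 dl2 cR b1 ups epL ra rb : ℝ) (I : Set ℝ)
    (Pi1 Pi2 : Matrix ι ι ℂ) (Rl Rl' U1 U1' U2 U2' : ℝ → Matrix ι ι ℂ) : Prop where
  sym : RealSym D.H0
  lam0 : 0 < D.lam
  lam1 : D.lam ≤ 1
  sg0 : 0 < D.sg
  g0im : 0 < D.g0.im
  zim : 0 < D.z.im
  C1b : ‖D.g0‖ + 1 ≤ C1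
  ra0 : 0 ≤ ra
  rab : ra ≤ rb
  rb1 : rb ≤ 1
  a0 : 0 < a
  a1 : a ≤ 1
  tau0 : 0 < tau
  tau1 : tau ≤ 1
  y0 : 0 < y
  dl10 : 0 < dl1
  dl20 : 0 < dl2
  cR0 : 0 ≤ cR
  b10 : 0 ≤ b1
  ups0 : 0 ≤ ups
  Io : IsOpen I
  Isub : Set.Icc ra rb ⊆ I
  Iet : ∀ r ∈ I, 0 < D.et r
  lowm : LowMode Pi1 epL
  pi2 : OpLe Pi2 1
  dRl : ∀ r ∈ I, ∀ x y, HasDerivAt (fun r => Rl r x y) (Rl' r x y) r
  cRl : ∀ x y, ContinuousOn (fun r => Rl' r x y) I
  eRl : ∀ r ∈ I, Rl' r = ((2 * r * D.s : ℝ) : ℂ) • (Rl r * Rl r)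
  dU1 : ∀ r ∈ I, ∀ x y, HasDerivAt (fun r => U1 r x y) (U1' r x y) r
  cU1 : ∀ x y, ContinuousOn (fun r => U1' r x y) I
  eU1 : ∀ r ∈ I, U1' r = ((2 * r * D.s : ℝ) : ℂ) • (U1 r * U1 r)
  dU2 : ∀ r ∈ I, ∀ x y, HasDerivAt (fun r => U2 r x y) (U2' r x y) r
  cU2 : ∀ x y, ContinuousOn (fun r => U2' r x y) I
  eU2 : ∀ r ∈ I, U2' r = ((2 * r * D.s : ℝ) : ℂ) • (U2 r * U2 r)
  U1Pi : ∀ r ∈ I, U1 r * Pi1 = U1 r
  U2Pi : ∀ r ∈ I, U2 r * Pi2 = U2 r
  oRl : ∀ r ∈ Set.Icc ra rb, OpLe (Rl r) cR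
  oU1 : ∀ r ∈ Set.Icc ra rb, OpLe (U1 r) (b1 / D.et r)
  oU2 : ∀ r ∈ Set.Icc ra rb, OpLe (U2 r) ((D.g0.im + ups) / D.et r)

/-- the source constant -/
def B5 (N C1 lam a tau y dl1 dl2 epL etb e : ℝ) (p : ℕ) : ℝ :=
  16 * (Bg N C1 lam a tau e p + BT N C1 lam a tau epL etb e p + BH N C1 lam a tau y e p +
    BH N C1 lam a tau dl1 e p + BH N C1 lam a tau dl2 e p)

/-! ### private lemmas -/

private theorem f5_mono {c : Comp ι} {lam s et r A B A' B' : ℝ} {h q : ι → ℝ} (hs : 0 ≤ s)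
    (het : 0 < et) (hr : 0 ≤ r) (hG : 0 ≤ c.Ga r h) (hA : A ≤ A') (hB : B ≤ B')
    (hE : c.Est lam s et r A B h q) : c.Est lam s et r A' B' h q := by
  have e1 : A * c.Ga r h + B ≤ A' * c.Ga r h + B' :=
    add_le_add (mul_le_mul_of_nonneg_right hA hG) hB
  have e2 : 0 ≤ 2 * r * s / et := by positivity
  have e3 : 0 ≤ 1 / et := by positivity
  exact ⟨hE.dr.trans (mul_le_mul_of_nonneg_left e1 e2), hE.q0, hE.qu, hE.g1, hE.d1,
    hE.qs.trans (mul_le_mul_of_nonneg_left e1 e3),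
    fun e he => (hE.dd e he).trans (mul_le_mul_of_nonneg_left e1 e3)⟩

/-- five components -/
private theorem f5_add {c1 c2 c3 c4 c5 : Comp ι} {lam s et r M B1 B2 B3 B4 B5 : ℝ} {h : ι → ℝ}
    (hs : 0 ≤ s) (het : 0 < et) (hr : 0 ≤ r) (hM : 0 ≤ M) (h1 : 0 ≤ c1.Ga r h)
    (h2 : 0 ≤ c2.Ga r h) (h3 : 0 ≤ c3.Ga r h) (h4 : 0 ≤ c4.Ga r h) (h5 : 0 ≤ c5.Ga r h)
    (b1 : 0 ≤ B1) (b2 : 0 ≤ B2) (b3 : 0 ≤ B3) (b4 : 0 ≤ B4) (b5 : 0 ≤ B5)
    (e1 : ∃ q, c1.Est lam s et r M B1 h q) (e2 : ∃ q, c2.Est lam s et r M B2 h q)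
    (e3 : ∃ q, c3.Est lam s et r M B3 h q) (e4 : ∃ q, c4.Est lam s et r M B4 h q)
    (e5 : ∃ q, c5.Est lam s et r M B5 h q) :
    ∃ q, ((((c1.add c2).add c3).add c4).add c5).Est lam s et r (16 * M)
      (16 * (B1 + B2 + B3 + B4 + B5)) h q := by
  obtain ⟨q1, e1⟩ := e1
  obtain ⟨q2, e2⟩ := e2
  obtain ⟨q3, e3⟩ := e3
  obtain ⟨q4, e4⟩ := e4
  obtain ⟨q5, e5⟩ := e5
  have g12 : 0 ≤ (c1.add c2).Ga r h := add_nonneg h1 h2
  have g123 : 0 ≤ ((c1.add c2).add c3).Ga r h := add_nonneg g12 h3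
  have g1234 : 0 ≤ (((c1.add c2).add c3).add c4).Ga r h := add_nonneg g123 h4
  have g12345 : 0 ≤ ((((c1.add c2).add c3).add c4).add c5).Ga r h := add_nonneg g1234 h5
  have a1 := est_add (Am := M) hs het hr h1 h2 hM hM b1 b2 le_rfl le_rfl e1 e2
  have a2 := est_add (Am := 2 * M) hs het hr g12 h3 (by positivity) hM (by positivity) b3 le_rfl
    (by linarith) a1 e3
  have a3 := est_add (Am := 2 * (2 * M)) hs het hr g123 h4 (by positivity) hM (by positivity) b4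
    le_rfl (by linarith) a2 e4
  have a4 := est_add (Am := 2 * (2 * (2 * M))) hs het hr g1234 h5 (by positivity) hM
    (by positivity) b5 le_rfl (by linarith) a3 e5
  exact ⟨_, f5_mono hs het hr g12345 (by linarith) (by linarith) a4⟩

/-- weights of the components -/
private def wtT (D : Fl ι) (tau : ℝ) (r : ℝ) : ℝ := √(D.et r / tau)
private def wtT' (D : Fl ι) (tau : ℝ) (r : ℝ) : ℝ :=
  -(2 * r * D.s * (D.g0.im / 2) / D.et r) * √(D.et r / tau)
private def wtL (D : Fl ι) (y : ℝ) (r : ℝ) : ℝ := D.et r / y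
private def wtL' (D : Fl ι) (y : ℝ) (r : ℝ) : ℝ :=
  -(2 * r * D.s * D.g0.im / D.et r) * (D.et r / y)
private def wtQ (D : Fl ι) (y : ℝ) (r : ℝ) : ℝ := D.et r ^ 2 / y
private def wtQ' (D : Fl ι) (y : ℝ) (r : ℝ) : ℝ :=
  -(2 * r * D.s * (2 * D.g0.im) / D.et r) * (D.et r ^ 2 / y)

private theorem f5_etc (D : Fl ι) : Continuous D.et := by
  unfold Fl.et
  fun_prop

private theorem f5_lin (D : Fl ι) (b : ℝ) {I : Set ℝ} (hI : ∀ r ∈ I, 0 < D.et r) :
    ContinuousOn (fun r => -(2 * r * D.s * b / D.et r)) I := by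
  refine ContinuousOn.neg (ContinuousOn.div ?_ (f5_etc D).continuousOn fun r hr => (hI r hr).ne')
  fun_prop

private theorem f5_wtT (D : Fl ι) {tau : ℝ} (ht : 0 < tau) {I : Set ℝ}
    (hI : ∀ r ∈ I, 0 < D.et r) :
    (∀ r ∈ I, HasDerivAt (wtT D tau) (wtT' D tau r) r) ∧ ContinuousOn (wtT' D tau) I := by
  constructor
  · intro r hr
    have h0 := hI r hr
    have h1 : D.et r / tau ≠ 0 := by positivity
    have h2 := ((hasDerivAt_et D r).div_const tau).sqrt h1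
    refine h2.congr_deriv ?_
    unfold wtT'
    have h3 : √(D.et r / tau) ≠ 0 := (Real.sqrt_pos.2 (by positivity)).ne'
    have h4 : √(D.et r / tau) ^ 2 = D.et r / tau := Real.sq_sqrt (by positivity)
    rw [div_eq_iff (by positivity)]
    have h5 : -(2 * r * D.s * (D.g0.im / 2) / D.et r) * √(D.et r / tau) *
        (2 * √(D.et r / tau)) =
        -(2 * r * D.s * (D.g0.im / 2) / D.et r) * 2 * √(D.et r / tau) ^ 2 := by ring
    rw [h5, h4]
    field_simp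
  · unfold wtT'
    refine (f5_lin D (D.g0.im / 2) hI).mul ?_
    exact (Real.continuous_sqrt.comp ((f5_etc D).div_const tau)).continuousOn

private theorem f5_wtL (D : Fl ι) (y : ℝ) {I : Set ℝ}
    (hI : ∀ r ∈ I, 0 < D.et r) :
    (∀ r ∈ I, HasDerivAt (wtL D y) (wtL' D y r) r) ∧ ContinuousOn (wtL' D y) I := by
  constructor
  · intro r hr
    have h0 := hI r hr
    refine ((hasDerivAt_et D r).div_const y).congr_deriv ?_
    unfold wtL'
    field_simp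
  · unfold wtL'
    exact (f5_lin D D.g0.im hI).mul ((f5_etc D).div_const y).continuousOn

private theorem f5_wtQ (D : Fl ι) (y : ℝ) {I : Set ℝ}
    (hI : ∀ r ∈ I, 0 < D.et r) :
    (∀ r ∈ I, HasDerivAt (wtQ D y) (wtQ' D y r) r) ∧ ContinuousOn (wtQ' D y) I := by
  constructor
  · intro r hr
    have h0 := hI r hr
    refine (((hasDerivAt_et D r).pow 2).div_const y).congr_deriv ?_
    unfold wtQ'
    field_simp
    push_cast
    ring
  · unfold wtQ'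
    exact (f5_lin D (2 * D.g0.im) hI).mul (((f5_etc D).pow 2).div_const y).continuousOn

private theorem f5_op {p : ℕ} (hp : 1 ≤ p) {A : Matrix ι ι ℂ} {c x : ℝ} (hc : 0 < c)
    (hx : x = 1 / c) (h : tr0 (2 * p) (dil ((c : ℂ) • A)) ≤ 1) : OpLe A x := by
  have h1 := opLe_of_tr0 p hp (A := (c : ℂ) • A) (x := 1) zero_le_one (by rwa [one_pow])
  have h2 := opLe_smul ((c : ℂ)⁻¹) h1
  rw [smul_smul, inv_mul_cancel₀ (by exact_mod_cast hc.ne'), one_smul, norm_inv, mul_one,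
    Complex.norm_real, Real.norm_eq_abs, abs_of_pos hc] at h2
  rw [hx, one_div]
  exact h2

private theorem f5_op_start {p : ℕ} {A : Matrix ι ι ℂ} {c x y : ℝ} (hc : 0 < c) (hx : 0 ≤ x)
    (hy : c * x = y) (h : OpLe A x) :
    tr0 (2 * p) (dil ((c : ℂ) • A)) ≤ 2 * (Fintype.card ι : ℝ) * y ^ (2 * p) := by
  have h1 := opLe_smul (c : ℂ) h
  rw [Complex.norm_real, Real.norm_eq_abs, abs_of_pos hc, hy] at h1
  exact tr0_le_of_opLe p (by rw [← hy]; positivity) h1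

private theorem f5_lowOp {Pi : Matrix ι ι ℂ} {epL : ℝ} (h : LowMode Pi epL) : OpLe Pi 1 := by
  intro u
  have h1 : ∑ x, star ((Pi *ᵥ u) x) * (Pi *ᵥ u) x = ∑ x, star (u x) * (Pi *ᵥ u) x := by
    have e1 : star (Pi *ᵥ u) ⬝ᵥ (Pi *ᵥ u) = star u ⬝ᵥ (Pi *ᵥ u) := by
      rw [star_mulVec, h.herm, ← dotProduct_mulVec, mulVec_mulVec, h.idem]
    exact e1
  have h2 : ((∑ x, ‖(Pi *ᵥ u) x‖ ^ 2 : ℝ) : ℂ) = ∑ x, star ((Pi *ᵥ u) x) * (Pi *ᵥ u) x := by
    push_cast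
    refine Finset.sum_congr rfl fun x _ => ?_
    rw [← Complex.conj_mul']
    rfl
  have h3 : (∑ x, ‖(Pi *ᵥ u) x‖ ^ 2 : ℝ) ≤ ∑ x, ‖u x‖ * ‖(Pi *ᵥ u) x‖ := by
    have e1 : (∑ x, ‖(Pi *ᵥ u) x‖ ^ 2 : ℝ) = ‖((∑ x, ‖(Pi *ᵥ u) x‖ ^ 2 : ℝ) : ℂ)‖ := by
      rw [Complex.norm_real, Real.norm_eq_abs, abs_of_nonneg (Finset.sum_nonneg fun x _ => by
        positivity)]
    rw [e1, h2, h1]
    refine (norm_sum_le _ _).trans (le_of_eq (Finset.sum_congr rfl fun x _ => ?_))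
    rw [norm_mul, norm_star]
  have h4 : (∑ x, ‖u x‖ * ‖(Pi *ᵥ u) x‖) ≤
      (∑ x, ‖u x‖ ^ 2) / 2 + (∑ x, ‖(Pi *ᵥ u) x‖ ^ 2) / 2 := by
    rw [Finset.sum_div, Finset.sum_div, ← Finset.sum_add_distrib]
    refine Finset.sum_le_sum fun x _ => ?_
    nlinarith [sq_nonneg (‖u x‖ - ‖(Pi *ᵥ u) x‖)]
  rw [one_pow, one_mul]
  linarith

private theorem f5_min {A : Matrix ι ι ℂ} {x y : ℝ} (hx : OpLe A x) (hy : OpLe A y) :
    OpLe A (min x y) := by
  rcases le_total x y with h | h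
  · rwa [min_eq_left h]
  · rwa [min_eq_right h]

private theorem f5_BT {N C1 lam a tau epL et et' e : ℝ} {p : ℕ} (hN : 0 ≤ N) (hC : 0 ≤ C1)
    (ht : 0 < tau) (hep : 0 ≤ epL) (het : 0 < et') (hle : et' ≤ et)
    (he : 0 < e) : BT N C1 lam a tau epL et e p ≤ BT N C1 lam a tau epL et' e p := by
  have het0 : 0 < et := lt_of_lt_of_le het hle
  unfold BT
  gcongr

private theorem f5_BH {N C1 lam a tau y y' e : ℝ} {p : ℕ} (hN : 0 ≤ N) (hC : 0 ≤ C1)
    (hl : 0 ≤ lam) (ha : 0 ≤ a) (hy : 0 < y') (hle : y' ≤ y)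
    (he : 0 < e) : BH N C1 lam a tau y e p ≤ BH N C1 lam a tau y' e p := by
  have hy0 : 0 < y := lt_of_lt_of_le hy hle
  unfold BH
  gcongr

theorem flow5 {μ : Measure ℝ} {bd sg CT : ℝ} {T T3 : ℝ → ℝ} (hS : SteinLaw μ bd sg CT T T3)
    (D : Fl ι) (hsg : D.sg = sg) (C1 a tau y dl1 dl2 cR b1 ups epL ra rb : ℝ) (I : Set ℝ)
    (Pi1 Pi2 : Matrix ι ι ℂ) (Rl Rl' U1 U1' U2 U2' : ℝ → Matrix ι ι ℂ)
    (H : FlowHyp D C1 a tau y dl1 dl2 cR b1 ups epL ra rb I Pi1 Pi2 Rl Rl' U1 U1' U2 U2')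
    (p : ℕ) (hp : 2 ≤ p) (e : ℝ) (he : 0 < e) (he1 : e ≤ 1)
    (yr : ℝ) (hyr : 0 ≤ yr)
    (hyr1 : ∀ r ∈ Set.Icc ra rb, min C1 (cR * D.et r + y) ≤ yr ^ p * C1)
    (A : ℝ) (hAg : 16 * (4 * p * C1 * yr + 2 * e) ≤ A)
    (hAT : 16 * (400 * p ^ 2 * C1 ^ 2 * (b1 + dl1 + tau) + 6 * e) ≤ A)
    (hAY : 16 * (2 * p * (2 * cR * D.et ra + y) + 3 * e) ≤ A)
    (hAH : 16 * (2 * p * (b1 + a) + 3 * e) ≤ A)
    (hAF : 16 * (2 * p * (ups + a) + 3 * e) ≤ A)
    (a0 tau0 y0 d10 d20 : ℝ) (ha0 : 0 ≤ a0) (htau0 : 0 ≤ tau0) (hy0 : 0 ≤ y0) (hd10 : 0 ≤ d10)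
    (hd20 : 0 ≤ d20) (S0 : Set (ι → ℝ)) (hS0 : MeasurableSet S0)
    (hstart : ∀ v ∈ S0, Good D ra (D.hv ra v) a0 tau0 y0 (d10 / D.et ra) (d20 / D.et ra)
      Pi1 Pi2 (Rl ra) (U1 ra) (U2 ra))
    (r : ℝ) (hr : r ∈ Set.Icc ra rb) :
    (Measure.pi fun _ : ι => μ).real {v | ¬ Good D r (D.hv r v) a tau y (dl1 / D.et r)
      (dl2 * D.et ra / D.et r ^ 2) Pi1 Pi2 (Rl r) (U1 r) (U2 r)} ≤
      4 * (((Fintype.card ι : ℝ) * (a0 / a) ^ (2 * p) + (Fintype.card ι : ℝ) * (tau0 / tau) ^ p +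
        2 * (Fintype.card ι : ℝ) * (y0 / y) ^ (2 * p) +
        2 * (Fintype.card ι : ℝ) * (d10 / dl1) ^ (2 * p) +
        2 * (Fintype.card ι : ℝ) * (d20 / dl2) ^ (2 * p)) +
        (Measure.pi fun _ : ι => μ).real S0ᶜ +
        (1 + 2 * CT / sg) * B5 (Fintype.card ι) C1 D.lam a tau y dl1 dl2 epL (D.et rb) e p *
          (Real.log (D.et ra / D.et rb) / D.g0.im)) *
        Real.exp (4 * (1 + 2 * CT / sg) * A * (Real.log (D.et ra / D.et rb) / D.g0.im)) := by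
  obtain ⟨sym, lam0, lam1, sg0, g0im, zim, C1b, hra0, hrab, hrb1, a_0, a_1, tau_0, tau_1, y_0, dl10,
    dl20, cR0, b10, ups0, Io, Isub, Iet, lowm, pi2, dRl, cRl, eRl, dU1, cU1, eU1, dU2, cU2, eU2,
    U1Pi, U2Pi, oRl, oU1, oU2⟩ := H
  have hs0 : 0 < D.s := by
    unfold Fl.s
    positivity
  have hraI : ra ∈ I := Isub ⟨le_rfl, hrab⟩
  have hrbI : rb ∈ I := Isub ⟨hrab, le_rfl⟩
  have hetra : 0 < D.et ra := Iet ra hraI
  have hetrb : 0 < D.et rb := Iet rb hrbI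
  have hC1 : 0 ≤ C1 := by
    have := norm_nonneg D.g0
    linarith
  have hdl2 : 0 < dl2 * D.et ra := by positivity
  have hmono : ∀ t u : ℝ, 0 ≤ t → t ≤ u → D.et u ≤ D.et t := by
    intro t u ht htu
    unfold Fl.et
    have h3 : t ^ 2 ≤ u ^ 2 := by gcongr
    have h4 : D.s * (1 - u ^ 2) * D.g0.im ≤ D.s * (1 - t ^ 2) * D.g0.im := by gcongr
    linarith
  -- the components
  set cg : Comp ι := powComp p (wtV (fun _ => 1 / a) (fun _ => 0) D.gO) with hcg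
  set cT : Comp ι := rowComp p (wtM (wtT D tau) (wtT' D tau) D.SO) with hcT
  set cY : Comp ι := trComp (2 * p) (D.yO Rl Rl' (wtL D y) (wtL' D y)) with hcY
  set cH : Comp ι := trComp (2 * p) (D.hO Pi1 U1 U1' (wtL D dl1) (wtL' D dl1)) with hcH
  set cF : Comp ι := trComp (2 * p) (D.hO Pi2 U2 U2' (wtQ D (dl2 * D.et ra))
    (wtQ' D (dl2 * D.et ra))) with hcF
  have rg : cg.Reg D.lam I := powComp_reg p hp _ (wtV_reg (gO_reg D sym I Iet) _ _
    (fun r _ => hasDerivAt_const r _) continuousOn_const)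
  have rT : cT.Reg D.lam I := rowComp_reg p hp _ (wtM_reg (SO_reg D sym I Iet) _ _
    (f5_wtT D tau_0 Iet).1 (f5_wtT D tau_0 Iet).2)
  have rY : cY.Reg D.lam I := trComp_reg p (by omega) _ (dilM_reg (wtM_reg (subM_reg
    (RO_reg D sym I Iet) _ _ dRl cRl) _ _ (f5_wtL D y Iet).1 (f5_wtL D y Iet).2))
    (fun r h => dil_herm _)
  have rH : cH.Reg D.lam I := trComp_reg p (by omega) _ (dilM_reg (wtM_reg (subM_reg (lmM_reg
    (SO_reg D sym I Iet) _) _ _ dU1 cU1) _ _ (f5_wtL D dl1 Iet).1 (f5_wtL D dl1 Iet).2))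
    (fun r h => dil_herm _)
  have rF : cF.Reg D.lam I := trComp_reg p (by omega) _ (dilM_reg (wtM_reg (subM_reg (lmM_reg
    (SO_reg D sym I Iet) _) _ _ dU2 cU2) _ _ (f5_wtQ D _ Iet).1 (f5_wtQ D _ Iet).2))
    (fun r h => dil_herm _)
  have rAll : ((((cg.add cT).add cY).add cH).add cF).Reg D.lam I :=
    reg_add (reg_add (reg_add (reg_add rg rT) rY) rH) rF
  have hAll : ∀ (t : ℝ) (h : ι → ℝ), ((((cg.add cT).add cY).add cH).add cF).Ga t h =
      cg.Ga t h + cT.Ga t h + cY.Ga t h + cH.Ga t h + cF.Ga t h := fun t h => rfl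
  -- consequences of a small functional
  have hcons : ∀ t ∈ Set.Icc ra rb, ∀ h : ι → ℝ,
      ((((cg.add cT).add cY).add cH).add cF).Ga t h ≤ 3 / 4 →
      Good D t h a tau y (dl1 / D.et t) (dl2 * D.et ra / D.et t ^ 2) Pi1 Pi2 (Rl t) (U1 t)
        (U2 t) := by
    intro t ht h hG
    have htI := Isub ht
    have het := Iet t htI
    rw [hAll] at hG
    have n1 := rg.nn t htI h
    have n2 := rT.nn t htI h
    have n3 := rY.nn t htI h
    have n4 := rH.nn t htI h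
    have n5 := rF.nn t htI h
    refine ⟨?_, ?_, ?_, ?_, ?_⟩
    · intro x
      have h1 : ∑ x, ‖((1 / a : ℝ) : ℂ) * (D.G t h x x - D.g0)‖ ^ (2 * p) ≤ 1 := by
        have : cg.Ga t h ≤ 1 := by linarith
        exact this
      have h2 : ‖((1 / a : ℝ) : ℂ) * (D.G t h x x - D.g0)‖ ^ (2 * p) ≤ 1 :=
        (Finset.single_le_sum (f := fun x => ‖((1 / a : ℝ) : ℂ) * (D.G t h x x - D.g0)‖ ^ (2 * p))
          (fun i _ => by positivity) (Finset.mem_univ x)).trans h1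
      have h3 : ‖((1 / a : ℝ) : ℂ) * (D.G t h x x - D.g0)‖ ≤ 1 :=
        (pow_le_one_iff_of_nonneg (norm_nonneg _) (by omega)).1 h2
      rw [norm_mul, Complex.norm_real, Real.norm_eq_abs, abs_of_pos (by positivity),
        one_div, inv_mul_le_iff₀ a_0, mul_one] at h3
      exact h3
    · intro x
      have h1 : ∑ x, (∑ y, ‖((wtT D tau t : ℝ) : ℂ) * ((‖D.G t h x y‖ ^ 2 : ℝ) : ℂ)‖ ^ 2) ^ p ≤
          1 := by
        have : cT.Ga t h ≤ 1 := by linarith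
        exact this
      have h2 : (∑ y, ‖((wtT D tau t : ℝ) : ℂ) * ((‖D.G t h x y‖ ^ 2 : ℝ) : ℂ)‖ ^ 2) ^ p ≤ 1 :=
        (Finset.single_le_sum (f := fun x => (∑ y, ‖((wtT D tau t : ℝ) : ℂ) *
          ((‖D.G t h x y‖ ^ 2 : ℝ) : ℂ)‖ ^ 2) ^ p)
          (fun i _ => by positivity) (Finset.mem_univ x)).trans h1
      have h3 : (∑ y, ‖((wtT D tau t : ℝ) : ℂ) * ((‖D.G t h x y‖ ^ 2 : ℝ) : ℂ)‖ ^ 2) ≤ 1 :=
        (pow_le_one_iff_of_nonneg (by positivity) (by omega)).1 h2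
      have h4 : (∑ y, ‖((wtT D tau t : ℝ) : ℂ) * ((‖D.G t h x y‖ ^ 2 : ℝ) : ℂ)‖ ^ 2) =
          D.et t / tau * ∑ y, ‖D.G t h x y‖ ^ 4 := by
        rw [Finset.mul_sum]
        refine Finset.sum_congr rfl fun y _ => ?_
        rw [norm_mul, Complex.norm_real, Complex.norm_real, mul_pow, Real.norm_eq_abs, sq_abs,
          Real.norm_eq_abs, sq_abs]
        unfold wtT
        rw [Real.sq_sqrt (by positivity)]
        ring
      rw [h4] at h3
      rw [le_div_iff₀ het]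
      have h5 : (∑ w, ‖D.G t h x w‖ ^ 4) * D.et t =
          tau * (D.et t / tau * ∑ y, ‖D.G t h x y‖ ^ 4) := by
        field_simp
      rw [h5]
      nlinarith
    · refine f5_op (p := p) (by omega) (c := wtL D y t) (by unfold wtL; positivity) ?_ ?_
      · unfold wtL
        field_simp
      · have : cY.Ga t h ≤ 1 := by linarith
        exact this
    · refine f5_op (p := p) (by omega) (c := wtL D dl1 t) (by unfold wtL; positivity) ?_ ?_
      · unfold wtL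
        field_simp
      · have : cH.Ga t h ≤ 1 := by linarith
        exact this
    · refine f5_op (p := p) (by omega) (c := wtQ D (dl2 * D.et ra) t)
        (by unfold wtQ; positivity) ?_ ?_
      · unfold wtQ
        field_simp
      · have : cF.Ga t h ≤ 1 := by linarith
        exact this
  -- the estimates
  have hN : (0 : ℝ) ≤ Fintype.card ι := Nat.cast_nonneg _
  have hlam0 : 0 ≤ D.lam := lam0.le
  have nBg : 0 ≤ Bg (Fintype.card ι) C1 D.lam a tau e p := by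
    unfold Bg
    positivity
  have nBT : ∀ t, 0 < t → 0 ≤ BT (Fintype.card ι) C1 D.lam a tau epL t e p := by
    intro t ht
    have := lowm.ep0
    unfold BT
    positivity
  have nBH : ∀ x, 0 < x → 0 ≤ BH (Fintype.card ι) C1 D.lam a tau x e p := by
    intro x hx
    unfold BH
    positivity
  have hA0 : 0 ≤ A := by
    refine le_trans ?_ hAg
    positivity
  have hest : ∀ t ∈ Set.Icc ra rb, ∀ v : ι → ℝ, (∀ w, |v w| ≤ bd) →
      ((((cg.add cT).add cY).add cH).add cF).Ga t (D.hv t v) ≤ 3 / 4 →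
      ∃ q : ι → ℝ, ((((cg.add cT).add cY).add cH).add cF).Est D.lam D.s (D.et t) t A
        (B5 (Fintype.card ι) C1 D.lam a tau y dl1 dl2 epL (D.et rb) e p) (D.hv t v) q := by
    intro t ht v _ hG
    obtain ⟨k1, k2, k3, k4, k5⟩ := hcons t ht _ hG
    have htI := Isub ht
    have het := Iet t htI
    have ht0 : 0 ≤ t := hra0.trans ht.1
    have hle1 : D.et t ≤ D.et ra := hmono ra t hra0 ht.1
    have hle2 : D.et rb ≤ D.et t := hmono t rb ht0 ht.2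
    set h : ι → ℝ := D.hv t v with hh
    have hc : D.Cfg C1 a tau t h := ⟨sym, ht0, ht.2.trans hrb1, het, hs0, lam0, lam1, g0im.le, C1b,
      a_0, a_1, tau_0, tau_1, k1, k2⟩
    -- bounds for `R` and `Pi1 S`
    have oR : OpLe (D.RO.f t h) (cR + y / D.et t) := by
      have := opLe_add cR0 (by positivity) (oRl t ht) k3
      rwa [add_sub_cancel] at this
    have oR' : OpLe (D.RO.f t h) (yr ^ p * C1 / D.et t) := by
      refine opLe_mono (le_min (by positivity) (by positivity)) ?_ (f5_min hc.R_op oR)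
      have e1 : min (C1 / D.et t) (cR + y / D.et t) = min C1 (cR * D.et t + y) / D.et t := by
        have e0 : cR + y / D.et t = (cR * D.et t + y) / D.et t := by field_simp
        rw [e0, min_div_div_right het.le]
      rw [e1]
      gcongr
      exact hyr1 t ht
    have oS : OpLe (Pi1 * D.SO.f t h) ((b1 + dl1) / D.et t) := by
      have := opLe_add (by positivity) (by positivity) (oU1 t ht) k4
      rwa [add_sub_cancel, ← add_div] at this
    have hn : ∀ c : Comp ι, c.Reg D.lam I → 0 ≤ c.Ga t h := fun c hc => hc.nn t htI h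
    have hM : ∀ x : ℝ, 16 * x ≤ A → x ≤ A / 16 := fun x hx => by linarith
    obtain ⟨q1, e1⟩ := estG hc p hp yr hyr oR' e he he1
    obtain ⟨q2, e2⟩ := estT hc p hp lowm (by positivity) oS (wtT D tau) (wtT' D tau)
      (by unfold wtT; exact Real.sq_sqrt (by positivity)) (by rfl) e he he1
    obtain ⟨q3, e3⟩ := estY hc p hp Rl Rl' (eRl t htI) cR0 (by positivity) (oRl t ht) oR
      (wtL D y) (wtL' D y) D.g0.im (2 * cR * D.et ra + y) y (by unfold wtL; positivity) (by rfl)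
      (by unfold wtL; field_simp) (by positivity) (by
        have e1 : D.et t * cR + D.et t * (cR + y / D.et t) - D.g0.im =
          2 * cR * D.et t + y - D.g0.im := by
          field_simp
          ring
        rw [e1]
        have e2 : 2 * cR * D.et t ≤ 2 * cR * D.et ra := by gcongr
        linarith) e he he1
    obtain ⟨q4, e4⟩ := estH hc p hp (f5_lowOp lowm) U1 U1' (U1Pi t htI) (eU1 t htI) b10 (oU1 t ht)
      (wtL D dl1) (wtL' D dl1) D.g0.im (b1 + a) dl1 (by unfold wtL; positivity) (by rfl)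
      (by unfold wtL; field_simp) (by positivity) (by linarith) e he he1
    obtain ⟨q5, e5⟩ := estH hc p hp pi2 U2 U2' (U2Pi t htI) (eU2 t htI)
      (by positivity : 0 ≤ D.g0.im + ups) (oU2 t ht)
      (wtQ D (dl2 * D.et ra)) (wtQ' D (dl2 * D.et ra)) (2 * D.g0.im) (ups + a)
      (dl2 * D.et ra / D.et t) (by unfold wtQ; positivity) (by rfl)
      (by unfold wtQ; field_simp) (by positivity) (by linarith) e he he1
    have hdle : dl2 ≤ dl2 * D.et ra / D.et t := by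
      rw [le_div_iff₀ het]
      gcongr
    have hfin := f5_add (lam := D.lam) (M := A / 16) hs0.le het ht0 (by positivity) (hn cg rg)
      (hn cT rT) (hn cY rY) (hn cH rH) (hn cF rF)
      nBg (nBT _ hetrb) (nBH y y_0) (nBH dl1 dl10) (nBH dl2 dl20)
      ⟨q1, f5_mono hs0.le het ht0 (hn cg rg) (hM _ hAg) le_rfl e1⟩
      ⟨q2, f5_mono hs0.le het ht0 (hn cT rT) (hM _ hAT)
        (f5_BT hN hC1 tau_0 lowm.ep0 hetrb hle2 he) e2⟩
      ⟨q3, f5_mono hs0.le het ht0 (hn cY rY) (hM _ hAY) le_rfl e3⟩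
      ⟨q4, f5_mono hs0.le het ht0 (hn cH rH) (hM _ hAH) le_rfl e4⟩
      ⟨q5, f5_mono hs0.le het ht0 (hn cF rF) (hM _ hAF)
        (f5_BH hN hC1 hlam0 a_0.le dl20 hdle he) e5⟩
    obtain ⟨q, hq⟩ := hfin
    refine ⟨q, ?_⟩
    have e6 : 16 * (A / 16) = A := by ring
    rw [e6] at hq
    exact hq
  -- the start
  set x0 : ℝ := (Fintype.card ι : ℝ) * (a0 / a) ^ (2 * p) + (Fintype.card ι : ℝ) *
    (tau0 / tau) ^ p + 2 * (Fintype.card ι : ℝ) * (y0 / y) ^ (2 * p) +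
    2 * (Fintype.card ι : ℝ) * (d10 / dl1) ^ (2 * p) +
    2 * (Fintype.card ι : ℝ) * (d20 / dl2) ^ (2 * p) with hx0
  have hx00 : 0 ≤ x0 := by positivity
  have hst : ∀ v ∈ S0, ((((cg.add cT).add cY).add cH).add cF).Ga ra (D.hv ra v) ≤ x0 := by
    intro v hv
    obtain ⟨k1, k2, k3, k4, k5⟩ := hstart v hv
    set h : ι → ℝ := D.hv ra v with hh
    rw [hAll, hx0]
    refine add_le_add (add_le_add (add_le_add (add_le_add ?_ ?_) ?_) ?_) ?_
    · show ∑ x, ‖((1 / a : ℝ) : ℂ) * (D.G ra h x x - D.g0)‖ ^ (2 * p) ≤ _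
      calc ∑ x, ‖((1 / a : ℝ) : ℂ) * (D.G ra h x x - D.g0)‖ ^ (2 * p)
          ≤ ∑ _x : ι, (a0 / a) ^ (2 * p) := by
            refine Finset.sum_le_sum fun x _ => ?_
            refine pow_le_pow_left₀ (norm_nonneg _) ?_ _
            rw [norm_mul, Complex.norm_real, Real.norm_eq_abs, abs_of_pos (by positivity),
              one_div, inv_mul_le_iff₀ a_0]
            calc ‖D.G ra h x x - D.g0‖ ≤ a0 := k1 x
              _ = a * (a0 / a) := by field_simp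
        _ = (Fintype.card ι : ℝ) * (a0 / a) ^ (2 * p) := by
            rw [Finset.sum_const, Finset.card_univ, nsmul_eq_mul]
    · show ∑ x, (∑ y, ‖((wtT D tau ra : ℝ) : ℂ) * ((‖D.G ra h x y‖ ^ 2 : ℝ) : ℂ)‖ ^ 2) ^ p ≤ _
      calc ∑ x, (∑ y, ‖((wtT D tau ra : ℝ) : ℂ) * ((‖D.G ra h x y‖ ^ 2 : ℝ) : ℂ)‖ ^ 2) ^ p
          ≤ ∑ _x : ι, (tau0 / tau) ^ p := by
            refine Finset.sum_le_sum fun x _ => ?_
            refine pow_le_pow_left₀ (by positivity) ?_ _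
            have h4 : (∑ y, ‖((wtT D tau ra : ℝ) : ℂ) * ((‖D.G ra h x y‖ ^ 2 : ℝ) : ℂ)‖ ^ 2) =
                D.et ra / tau * ∑ y, ‖D.G ra h x y‖ ^ 4 := by
              rw [Finset.mul_sum]
              refine Finset.sum_congr rfl fun y _ => ?_
              rw [norm_mul, Complex.norm_real, Complex.norm_real, mul_pow, Real.norm_eq_abs,
                sq_abs, Real.norm_eq_abs, sq_abs]
              unfold wtT
              rw [Real.sq_sqrt (by positivity)]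
              ring
            rw [h4]
            calc D.et ra / tau * ∑ y, ‖D.G ra h x y‖ ^ 4 ≤ D.et ra / tau * (tau0 / D.et ra) := by
                  gcongr
                  exact k2 x
              _ = tau0 / tau := by field_simp
        _ = (Fintype.card ι : ℝ) * (tau0 / tau) ^ p := by
            rw [Finset.sum_const, Finset.card_univ, nsmul_eq_mul]
    · exact f5_op_start (p := p) (c := wtL D y ra) (by unfold wtL; positivity) (by positivity)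
        (by unfold wtL; field_simp) k3
    · exact f5_op_start (p := p) (c := wtL D dl1 ra) (by unfold wtL; positivity) (by positivity)
        (by unfold wtL; field_simp) k4
    · exact f5_op_start (p := p) (c := wtQ D (dl2 * D.et ra) ra) (by unfold wtQ; positivity)
        (by positivity) (by unfold wtQ; field_simp) k5
  have hB50 : 0 ≤ B5 (Fintype.card ι) C1 D.lam a tau y dl1 dl2 epL (D.et rb) e p := by
    have i1 := nBT _ hetrb
    have i2 := nBH y y_0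
    have i3 := nBH dl1 dl10
    have i4 := nBH dl2 dl20
    unfold B5
    positivity
  have hfb := flow_bound hS D lam0 lam1 hsg g0im zim ra rb hra0 hrab hrb1 I Io Isub _ rAll A _ hA0
    hB50 hest x0 hx00 S0 hS0 hst r hr
  refine le_trans ?_ hfb
  have := hS.prob
  refine measureReal_mono ?_ (measure_ne_top _ _)
  intro v hv
  rw [Set.mem_setOf_eq] at hv ⊢
  by_contra hcon
  exact hv (hcons r hr _ (not_lt.1 hcon))

end Pool.Agent.APS
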