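import Pool.Agent.APS.FlowD
import Pool.Agent.APS.Defs3

/-! # APS FLOWD2: the same as FLOWD (FlowD.lean) with `Est2` in place of `Est`.

The only change is the fourth term: `(λ Dr_w)² ≤ Γ q_w` and `G1_w² ≤ Γ q_w` give
`λ³ r² CT (8/3) ∑ |G1_w| |Dr_w| ≤ λ² r² CT (8/3) Γ ∑ q_w ≤ 2 λ² r² CT Z/et` on `Γ ≤ 3/4`
(before, the additional factor `λ ≤ 1` was not used).  Copy the proof of `flow_deriv` (FlowD.lean).
-/

open Finset MeasureTheory

noncomputable section

namespace Pool.Agent.APS

open Pool.Agent.Kin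

variable {ι : Type} [Fintype ι] [DecidableEq ι] {μ : Measure ℝ} {bd sg CT : ℝ} {T T3 : ℝ → ℝ}

omit [Fintype ι] [DecidableEq ι] in
private lemma fd2_slice {I : Set ℝ} {Φ : ℝ → (ι → ℝ) → ℝ}
    (c : ContinuousOn (fun p : ℝ × (ι → ℝ) => Φ p.1 p.2) (I ×ˢ Set.univ)) {r : ℝ} (hr : r ∈ I) :
    Continuous fun h => Φ r h := by
  have h1 : Continuous fun h : ι → ℝ => ((r, h) : ℝ × (ι → ℝ)) := by fun_prop
  exact c.comp_continuous h1 fun h => ⟨hr, Set.mem_univ _⟩

omit [Fintype ι] [DecidableEq ι] in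
private lemma fd2_path {I : Set ℝ} {Φ : ℝ → (ι → ℝ) → ℝ} (lam : ℝ)
    (c : ContinuousOn (fun p : ℝ × (ι → ℝ) => Φ p.1 p.2) (I ×ˢ Set.univ)) :
    ContinuousOn (fun p : ℝ × (ι → ℝ) => Φ p.1 (fun w => lam * p.1 * p.2 w))
      (I ×ˢ Set.univ) := by
  have h1 : Continuous fun p : ℝ × (ι → ℝ) =>
      ((p.1, fun w => lam * p.1 * p.2 w) : ℝ × (ι → ℝ)) := by fun_prop
  exact c.comp h1.continuousOn fun p hp => ⟨hp.1, Set.mem_univ _⟩

omit [Fintype ι] in
private lemma fd2_upd (lam r : ℝ) (v : ι → ℝ) (w : ι) (x : ℝ) :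
    (fun w' => lam * r * Function.update v w x w') =
      Function.update (fun w' => lam * r * v w') w (lam * r * x) := by
  funext w'
  by_cases h : w' = w
  · subst h; simp
  · simp [Function.update_of_ne h]

omit [DecidableEq ι] in
private lemma fd2_point {lam sg CT r et A B P R Γ gr : ℝ} (G1 Dr Qu D1 q Tw T3w : ι → ℝ)
    (hlam : 0 < lam) (hlam1 : lam ≤ 1) (hsg : 0 < sg) (hCT : 0 < CT) (hr0 : 0 ≤ r) (hr1 : r ≤ 1)
    (het : 0 < et) (hA : 0 ≤ A) (hB : 0 ≤ B) (hP0 : 0 ≤ P) (hP1 : P ≤ 1) (hR : |R| ≤ 8 / 3)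
    (hΓ0 : 0 ≤ Γ) (hΓ : Γ ≤ 3 / 4) (hT0 : ∀ w, 0 ≤ Tw w) (hT : ∀ w, Tw w ≤ CT)
    (hT3 : ∀ w, |T3w w| ≤ CT)
    (e1 : gr + (lam ^ 2 * sg) * r * ∑ w, Dr w ≤ 2 * r * (lam ^ 2 * sg) / et * (A * Γ + B))
    (q0 : ∀ w, 0 ≤ q w) (qu : ∀ w, |Qu w| ≤ q w) (g1 : ∀ w, G1 w ^ 2 ≤ Γ * q w)
    (d1 : ∀ w, (lam * Dr w) ^ 2 ≤ Γ * q w) (qs : ∑ w, q w ≤ 1 / et * (A * Γ + B))
    (dd : ∀ e : ι → ℝ, (∀ w, |e w| ≤ 1) → lam * ∑ w, e w * D1 w ≤ 1 / et * (A * Γ + B)) :
    P * gr + lam ^ 2 * r * ∑ w, (Tw w * (P * Qu w) + sg * (P * Dr w) +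
      T3w w * (lam * r * (R * (G1 w * Dr w) + P * D1 w))) ≤
      2 * r * (lam ^ 2 * sg) / et * ((1 + 2 * CT / sg) * (A * Γ + B)) := by
  have hZ : 0 ≤ A * Γ + B := by positivity
  set Z := A * Γ + B with hZd
  have hZe : 0 ≤ 1 / et * Z := by positivity
  set Y := 1 / et * Z with hY
  -- first term
  have t1 : P * (gr + (lam ^ 2 * sg) * r * ∑ w, Dr w) ≤ 2 * r * (lam ^ 2 * sg) / et * Z := by
    have h1 : 0 ≤ 2 * r * (lam ^ 2 * sg) / et * Z := by positivity
    calc P * (gr + (lam ^ 2 * sg) * r * ∑ w, Dr w)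
        ≤ P * (2 * r * (lam ^ 2 * sg) / et * Z) := mul_le_mul_of_nonneg_left e1 hP0
      _ ≤ 1 * (2 * r * (lam ^ 2 * sg) / et * Z) := mul_le_mul_of_nonneg_right hP1 h1
      _ = _ := one_mul _
  -- second term
  have t2 : ∑ w, Tw w * (P * Qu w) ≤ CT * Y := by
    calc ∑ w, Tw w * (P * Qu w) ≤ ∑ w, CT * q w := by
          refine Finset.sum_le_sum fun w _ => ?_
          have h1 : P * Qu w ≤ q w := by
            have h2 := (abs_le.1 (qu w)).2
            have h3 := q0 w
            rcases le_total 0 (Qu w) with h4 | h4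
            · calc P * Qu w ≤ 1 * Qu w := mul_le_mul_of_nonneg_right hP1 h4
                _ ≤ q w := by linarith
            · have := mul_nonpos_of_nonneg_of_nonpos hP0 h4
              linarith
          calc Tw w * (P * Qu w) ≤ Tw w * q w := mul_le_mul_of_nonneg_left h1 (hT0 w)
            _ ≤ CT * q w := mul_le_mul_of_nonneg_right (hT w) (q0 w)
      _ = CT * ∑ w, q w := by rw [Finset.mul_sum]
      _ ≤ CT * Y := mul_le_mul_of_nonneg_left qs hCT.le
  -- third term
  have t3 : lam * ∑ w, T3w w * D1 w ≤ CT * Y := by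
    have h1 := dd (fun w => T3w w / CT) (fun w => by
      rw [abs_div, abs_of_pos hCT, div_le_one hCT]
      exact hT3 w)
    have h2 : lam * ∑ w, T3w w * D1 w = CT * (lam * ∑ w, T3w w / CT * D1 w) := by
      rw [← mul_assoc, mul_comm CT lam, mul_assoc, Finset.mul_sum (a := CT)]
      congr 1
      refine Finset.sum_congr rfl fun w _ => ?_
      field_simp
    rw [h2]
    exact mul_le_mul_of_nonneg_left h1 hCT.le
  have t3' : r * P * (lam * ∑ w, T3w w * D1 w) ≤ CT * Y := by
    have h1 : 0 ≤ CT * Y := by positivity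
    have h2 : r * P ≤ 1 := mul_le_one₀ hr1 hP0 hP1
    have h3 : 0 ≤ r * P := by positivity
    calc r * P * (lam * ∑ w, T3w w * D1 w) ≤ r * P * (CT * Y) := mul_le_mul_of_nonneg_left t3 h3
      _ ≤ 1 * (CT * Y) := mul_le_mul_of_nonneg_right h2 h1
      _ = _ := one_mul _
  -- fourth term
  have t4 : ∑ w, T3w w * (R * (G1 w * (lam * Dr w))) ≤ 2 * (CT * Y) := by
    calc ∑ w, T3w w * (R * (G1 w * (lam * Dr w))) ≤ ∑ w, CT * (8 / 3 * (Γ * q w)) := by
          refine Finset.sum_le_sum fun w _ => ?_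
          have h0 : 0 ≤ Γ * q w := mul_nonneg hΓ0 (q0 w)
          have h1 : |G1 w * (lam * Dr w)| ≤ Γ * q w := by
            refine abs_le_of_sq_le_sq ?_ h0
            rw [mul_pow, sq (Γ * q w)]
            exact mul_le_mul (g1 w) (d1 w) (sq_nonneg _) h0
          calc T3w w * (R * (G1 w * (lam * Dr w))) ≤ |T3w w * (R * (G1 w * (lam * Dr w)))| :=
                le_abs_self _
            _ = |T3w w| * (|R| * |G1 w * (lam * Dr w)|) := by rw [abs_mul, abs_mul]
            _ ≤ CT * (8 / 3 * (Γ * q w)) := by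
                refine mul_le_mul (hT3 w) ?_ (by positivity) hCT.le
                exact mul_le_mul hR h1 (abs_nonneg _) (by norm_num)
      _ = CT * (8 / 3 * Γ) * ∑ w, q w := by
          rw [Finset.mul_sum]
          refine Finset.sum_congr rfl fun w _ => ?_
          ring
      _ ≤ CT * (8 / 3 * Γ) * Y := mul_le_mul_of_nonneg_left qs (by positivity)
      _ ≤ CT * 2 * Y := by
          refine mul_le_mul_of_nonneg_right ?_ hZe
          refine mul_le_mul_of_nonneg_left ?_ hCT.le
          linarith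
      _ = 2 * (CT * Y) := by ring
  have t4' : lam * r * ∑ w, T3w w * (R * (G1 w * Dr w)) ≤ 2 * (CT * Y) := by
    have h1 : 0 ≤ 2 * (CT * Y) := by positivity
    have h2 : lam * r * ∑ w, T3w w * (R * (G1 w * Dr w)) =
        r * ∑ w, T3w w * (R * (G1 w * (lam * Dr w))) := by
      rw [Finset.mul_sum, Finset.mul_sum]
      refine Finset.sum_congr rfl fun w _ => ?_
      ring
    rw [h2]
    calc r * ∑ w, T3w w * (R * (G1 w * (lam * Dr w))) ≤ r * (2 * (CT * Y)) :=
          mul_le_mul_of_nonneg_left t4 hr0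
      _ ≤ 1 * (2 * (CT * Y)) := mul_le_mul_of_nonneg_right hr1 h1
      _ = _ := one_mul _
  have hsplit : P * gr + lam ^ 2 * r * ∑ w, (Tw w * (P * Qu w) + sg * (P * Dr w) +
      T3w w * (lam * r * (R * (G1 w * Dr w) + P * D1 w))) =
      P * (gr + (lam ^ 2 * sg) * r * ∑ w, Dr w) + lam ^ 2 * r * (∑ w, Tw w * (P * Qu w) +
        r * P * (lam * ∑ w, T3w w * D1 w) + lam * r * ∑ w, T3w w * (R * (G1 w * Dr w))) := by
    have h1 : ∑ w, (Tw w * (P * Qu w) + sg * (P * Dr w) +
        T3w w * (lam * r * (R * (G1 w * Dr w) + P * D1 w))) =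
        ∑ w, Tw w * (P * Qu w) + sg * P * ∑ w, Dr w + r * P * (lam * ∑ w, T3w w * D1 w) +
          lam * r * ∑ w, T3w w * (R * (G1 w * Dr w)) := by
      simp only [Finset.mul_sum]
      rw [← Finset.sum_add_distrib, ← Finset.sum_add_distrib, ← Finset.sum_add_distrib]
      refine Finset.sum_congr rfl fun w _ => ?_
      ring
    rw [h1]
    ring
  rw [hsplit]
  have hlr : 0 ≤ lam ^ 2 * r := by positivity
  have h5 : lam ^ 2 * r * (∑ w, Tw w * (P * Qu w) +
        r * P * (lam * ∑ w, T3w w * D1 w) + lam * r * ∑ w, T3w w * (R * (G1 w * Dr w))) ≤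
        lam ^ 2 * r * (4 * (CT * Y)) :=
    mul_le_mul_of_nonneg_left (by linarith) hlr
  have h6 : 2 * r * (lam ^ 2 * sg) / et * ((1 + 2 * CT / sg) * Z) =
      2 * r * (lam ^ 2 * sg) / et * Z + lam ^ 2 * r * (4 * (CT * Y)) := by
    rw [hY]
    field_simp
    ring
  rw [h6]
  linarith

theorem flow_deriv2 (hS : SteinLaw μ bd sg CT T T3) (lam : ℝ) (hlam : 0 < lam) (hlam1 : lam ≤ 1)
    (I : Set ℝ) (hI : IsOpen I) (c : Comp ι) (hc : c.Reg lam I) (r : ℝ) (hrI : r ∈ I)
    (hr0 : 0 ≤ r) (hr1 : r ≤ 1) (et : ℝ) (het : 0 < et) (A B : ℝ) (hA : 0 ≤ A) (hB : 0 ≤ B)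
    (hyp : ∀ v : ι → ℝ, (∀ w, |v w| ≤ bd) → c.Ga r (fun w => lam * r * v w) ≤ 3 / 4 →
      ∃ q : ι → ℝ, c.Est2 lam (lam ^ 2 * sg) et r A B (fun w => lam * r * v w) q) :
    ∃ u' : ℝ,
      HasDerivAt (fun r => ∫ v, th (1 / 4) (c.Ga r (fun w => lam * r * v w))
        ∂(Measure.pi fun _ : ι => μ)) u' r ∧
      u' ≤ 2 * r * (lam ^ 2 * sg) / et * ((1 + 2 * CT / sg) *
        (4 * A * (∫ v, th (1 / 4) (c.Ga r (fun w => lam * r * v w))
          ∂(Measure.pi fun _ : ι => μ)) + B)) := by
  have hprob := hS.prob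
  have hb := hS.supp
  have hs0 : (0 : ℝ) < 1 / 4 := by norm_num
  set s0 : ℝ := 1 / 4 with hs0d
  set π : Measure (ι → ℝ) := Measure.pi fun _ : ι => μ with hπ
  -- the integrand and its derivative
  set F : ℝ → (ι → ℝ) → ℝ := fun r v => th s0 (c.Ga r (fun w => lam * r * v w)) with hF
  set F' : ℝ → (ι → ℝ) → ℝ := fun r v => th1 s0 (c.Ga r (fun w => lam * r * v w)) *
    (c.Gr r (fun w => lam * r * v w) + ∑ w, lam * v w * c.G1 w r (fun w => lam * r * v w)) with hF'
  have hFc : ∀ r ∈ I, Continuous (F r) := by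
    intro r hr
    have h1 := fd2_slice (Φ := fun r v => c.Ga r (fun w => lam * r * v w)) (fd2_path lam hc.cGa) hr
    exact (cont_th s0).comp h1
  have hF'c : ContinuousOn (fun p : ℝ × (ι → ℝ) => F' p.1 p.2) (I ×ˢ Set.univ) := by
    have h0 := fd2_path lam hc.cGa
    have h1 := fd2_path lam hc.cGr
    have h2 : ∀ w, ContinuousOn (fun p : ℝ × (ι → ℝ) => lam * p.2 w *
        c.G1 w p.1 (fun w => lam * p.1 * p.2 w)) (I ×ˢ Set.univ) := by
      intro w
      have h3 : Continuous fun p : ℝ × (ι → ℝ) => lam * p.2 w := by fun_prop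
      exact h3.continuousOn.mul (fd2_path lam (hc.cG1 w))
    have h4 := (cont_th1 s0).comp_continuousOn h0
    exact h4.mul (h1.add (continuousOn_finsetSum _ fun w _ => h2 w))
  obtain ⟨ε, hε, hεI⟩ := Metric.nhds_basis_closedBall.mem_iff.mp (hI.mem_nhds hrI)
  have hK : IsCompact (Metric.closedBall r ε ×ˢ Set.pi Set.univ fun _ : ι => Set.Icc (-bd) bd) :=
    (isCompact_closedBall r ε).prod (isCompact_univ_pi fun _ => isCompact_Icc)
  obtain ⟨C, hC⟩ := hK.exists_bound_of_continuousOn (f := fun p : ℝ × (ι → ℝ) => F' p.1 p.2)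
    (hF'c.mono (Set.prod_mono hεI (Set.subset_univ _)))
  have hae := ae_bdd (ι := ι) μ bd hb
  have hint : ∀ r ∈ I, Integrable (F r) π := fun r hr => cont_integrable μ bd hb _ (hFc r hr)
  have hder := hasDerivAt_integral_of_dominated_loc_of_deriv_le (μ := π) (F := F) (F' := F')
    (x₀ := r) (s := Metric.closedBall r ε) (bound := fun _ => C)
    (Metric.closedBall_mem_nhds r hε)
    (Filter.eventually_of_mem (hI.mem_nhds hrI) fun x hx => (hFc x hx).aestronglyMeasurable)
    (hint r hrI)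
    (fd2_slice (Φ := F') hF'c hrI).aestronglyMeasurable
    (by
      filter_upwards [hae] with v hv x hx
      refine hC (x, v) ⟨hx, ?_⟩
      intro i _
      exact abs_le.1 (hv i))
    (integrable_const C)
    (Filter.Eventually.of_forall fun v x hx => by
      have h1 := hc.dr x (hεI hx) v
      have h2 := hasDerivAt_th s0 hs0 (c.Ga x (fun w => lam * x * v w))
      exact HasDerivAt.comp (h₂ := th s0) (h := fun r => c.Ga r (fun w => lam * r * v w)) x h2 h1)
  refine ⟨_, hder.2, ?_⟩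
  -- the functions at the point `r`
  have hGac : Continuous fun h => c.Ga r h := fd2_slice hc.cGa hrI
  have hGrc : Continuous fun h => c.Gr r h := fd2_slice hc.cGr hrI
  have hG1c : ∀ w, Continuous fun h => c.G1 w r h := fun w => fd2_slice (hc.cG1 w) hrI
  have hDrc : ∀ w, Continuous fun h => c.Dr w r h := fun w => fd2_slice (hc.cDr w) hrI
  have hQuc : ∀ w, Continuous fun h => c.Qu w r h := fun w => fd2_slice (hc.cQu w) hrI
  have hD1c : ∀ w, Continuous fun h => c.D1 w r h := fun w => fd2_slice (hc.cD1 w) hrI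
  have hpc : Continuous fun v : ι → ℝ => (fun w => lam * r * v w : ι → ℝ) := by fun_prop
  set P : (ι → ℝ) → ℝ := fun v => th1 s0 (c.Ga r (fun w => lam * r * v w)) with hP
  set R : (ι → ℝ) → ℝ := fun v => th2 s0 (c.Ga r (fun w => lam * r * v w)) with hR
  set gr : (ι → ℝ) → ℝ := fun v => c.Gr r (fun w => lam * r * v w) with hgr
  set g1 : ι → (ι → ℝ) → ℝ := fun w v => c.G1 w r (fun w => lam * r * v w) with hg1
  set dr : ι → (ι → ℝ) → ℝ := fun w v => c.Dr w r (fun w => lam * r * v w) with hdr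
  set qu : ι → (ι → ℝ) → ℝ := fun w v => c.Qu w r (fun w => lam * r * v w) with hqu
  set dd : ι → (ι → ℝ) → ℝ := fun w v => c.D1 w r (fun w => lam * r * v w) with hdd
  have cP : Continuous P := (cont_th1 s0).comp (hGac.comp hpc)
  have cR : Continuous R := (cont_th2 s0).comp (hGac.comp hpc)
  have cgr : Continuous gr := hGrc.comp hpc
  have cg1 : ∀ w, Continuous (g1 w) := fun w => (hG1c w).comp hpc
  have cdr : ∀ w, Continuous (dr w) := fun w => (hDrc w).comp hpc
  have cqu : ∀ w, Continuous (qu w) := fun w => (hQuc w).comp hpc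
  have cdd : ∀ w, Continuous (dd w) := fun w => (hD1c w).comp hpc
  have hint' : ∀ f : (ι → ℝ) → ℝ, Continuous f → Integrable f π := fun f hf =>
    cont_integrable μ bd hb f hf
  have hTint : ∀ (w : ι) (f : (ι → ℝ) → ℝ), Continuous f → Integrable (fun v => T (v w) * f v) π :=
    fun w f hf => stein_integrable hS T hS.mT CT
      (fun x => by rw [abs_of_nonneg (hS.T0 x)]; exact hS.Tb x) f hf w
  have hT3int : ∀ (w : ι) (f : (ι → ℝ) → ℝ), Continuous f →
      Integrable (fun v => T3 (v w) * f v) π :=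
    fun w f hf => stein_integrable hS T3 hS.mT3 CT hS.T3b f hf w
  -- derivatives in one variable
  have hlin : ∀ x : ℝ, HasDerivAt (fun x : ℝ => lam * r * x) (lam * r) x := fun x => by
    simpa using (hasDerivAt_id x).const_mul (lam * r)
  have hPd : ∀ v w t, HasDerivAt (fun t : ℝ => P (Function.update v w t))
      (R (Function.update v w t) * (g1 w (Function.update v w t) * (lam * r))) t := by
    intro v w t
    simp only [hP, hR, hg1, fd2_upd]
    have h1 : HasDerivAt (fun x : ℝ => c.Ga r (Function.update (fun w' => lam * r * v w') w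
        (lam * r * x))) (c.G1 w r (Function.update (fun w' => lam * r * v w') w (lam * r * t)) *
          (lam * r)) t :=
      (hc.d1 r hrI (fun w' => lam * r * v w') w (lam * r * t)).comp t (hlin t)
    exact (hasDerivAt_th1 s0 hs0 _).comp t h1
  have hg1d : ∀ v w t, HasDerivAt (fun t : ℝ => g1 w (Function.update v w t))
      ((dr w (Function.update v w t) + qu w (Function.update v w t)) * (lam * r)) t := by
    intro v w t
    simp only [hg1, hdr, hqu, fd2_upd]
    exact (hc.d2 r hrI (fun w' => lam * r * v w') w (lam * r * t)).comp t (hlin t)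
  have hdrd : ∀ v w t, HasDerivAt (fun t : ℝ => dr w (Function.update v w t))
      (dd w (Function.update v w t) * (lam * r)) t := by
    intro v w t
    simp only [hdr, hdd, fd2_upd]
    exact (hc.d3 r hrI (fun w' => lam * r * v w') w (lam * r * t)).comp t (hlin t)
  -- integration by parts
  have i1 : ∀ w, ∫ v, v w * (P v * g1 w v) ∂π = ∫ v, T (v w) *
      (lam * r * (R v * g1 w v ^ 2 + P v * (dr w v + qu w v))) ∂π := by
    intro w
    refine stein_pi1 hS (fun v => P v * g1 w v)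
      (fun v => lam * r * (R v * g1 w v ^ 2 + P v * (dr w v + qu w v))) (cP.mul (cg1 w)) ?_ w ?_
    · exact continuous_const.mul ((cR.mul ((cg1 w).pow 2)).add (cP.mul ((cdr w).add (cqu w))))
    · intro v t
      refine ((hPd v w t).mul (hg1d v w t)).congr_deriv ?_
      ring
  have i2 : ∀ w, ∫ v, (T (v w) - sg) * (P v * dr w v) ∂π = ∫ v, T3 (v w) *
      (lam * r * (R v * (g1 w v * dr w v) + P v * dd w v)) ∂π := by
    intro w
    refine stein_pi2 hS (fun v => P v * dr w v)
      (fun v => lam * r * (R v * (g1 w v * dr w v) + P v * dd w v)) (cP.mul (cdr w)) ?_ w ?_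
    · exact continuous_const.mul ((cR.mul ((cg1 w).mul (cdr w))).add (cP.mul (cdd w)))
    · intro v t
      refine ((hPd v w t).mul (hdrd v w t)).congr_deriv ?_
      ring
  -- one term
  have cf2' : ∀ w, Continuous fun v => lam * r * (R v * (g1 w v * dr w v) + P v * dd w v) :=
    fun w => continuous_const.mul ((cR.mul ((cg1 w).mul (cdr w))).add (cP.mul (cdd w)))
  have hexi : ∀ w, Integrable (fun v => T (v w) * (P v * qu w v) + sg * (P v * dr w v) +
      T3 (v w) * (lam * r * (R v * (g1 w v * dr w v) + P v * dd w v))) π := fun w =>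
    ((hTint w _ (cP.mul (cqu w))).add ((hint' _ (cP.mul (cdr w))).const_mul sg)).add
      (hT3int w _ (cf2' w))
  have i3 : ∀ w, ∫ v, v w * (P v * g1 w v) ∂π ≤ lam * r * ∫ v, (T (v w) * (P v * qu w v) +
      sg * (P v * dr w v) +
      T3 (v w) * (lam * r * (R v * (g1 w v * dr w v) + P v * dd w v))) ∂π := by
    intro w
    rw [i1 w]
    have h1 : ∫ v, T (v w) * (lam * r * (R v * g1 w v ^ 2 + P v * (dr w v + qu w v))) ∂π ≤
        ∫ v, lam * r * (T (v w) * (P v * qu w v) + (sg * (P v * dr w v) +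
          (T (v w) - sg) * (P v * dr w v))) ∂π := by
      refine integral_mono (hTint w _ (continuous_const.mul
        ((cR.mul ((cg1 w).pow 2)).add (cP.mul ((cdr w).add (cqu w)))))) ?_ ?_
      · refine Integrable.const_mul ((hTint w _ (cP.mul (cqu w))).add
          (((hint' _ (cP.mul (cdr w))).const_mul sg).add ?_)) (lam * r)
        have h2 : (fun v => (T (v w) - sg) * (P v * dr w v)) =
            fun v => T (v w) * (P v * dr w v) - sg * (P v * dr w v) := by
          funext v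
          ring
        rw [h2]
        exact (hTint w _ (cP.mul (cdr w))).sub ((hint' _ (cP.mul (cdr w))).const_mul sg)
      · intro v
        show T (v w) * (lam * r * (R v * g1 w v ^ 2 + P v * (dr w v + qu w v))) ≤
          lam * r * (T (v w) * (P v * qu w v) + (sg * (P v * dr w v) +
          (T (v w) - sg) * (P v * dr w v)))
        have h3 : R v * g1 w v ^ 2 ≤ 0 :=
          mul_nonpos_of_nonpos_of_nonneg (th2_nonpos s0 hs0 _) (sq_nonneg _)
        have h4 : 0 ≤ T (v w) * (lam * r) := mul_nonneg (hS.T0 _) (by positivity)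
        have h5 := mul_nonpos_of_nonneg_of_nonpos h4 h3
        nlinarith
    refine h1.trans (le_of_eq ?_)
    rw [integral_const_mul]
    congr 1
    have J1 : Integrable (fun v => T (v w) * (P v * qu w v)) π := hTint w _ (cP.mul (cqu w))
    have J2 : Integrable (fun v => sg * (P v * dr w v)) π :=
      (hint' _ (cP.mul (cdr w))).const_mul sg
    have J3 : Integrable (fun v => (T (v w) - sg) * (P v * dr w v)) π := by
      have h2 : (fun v => (T (v w) - sg) * (P v * dr w v)) =
          fun v => T (v w) * (P v * dr w v) - sg * (P v * dr w v) := by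
        funext v
        ring
      rw [h2]
      exact (hTint w _ (cP.mul (cdr w))).sub ((hint' _ (cP.mul (cdr w))).const_mul sg)
    have J4 : Integrable (fun v => T3 (v w) * (lam * r * (R v * (g1 w v * dr w v) +
        P v * dd w v))) π := hT3int w _ (cf2' w)
    have J23 : Integrable (fun v => sg * (P v * dr w v) + (T (v w) - sg) * (P v * dr w v)) π :=
      J2.add J3
    have J12 : Integrable (fun v => T (v w) * (P v * qu w v) + sg * (P v * dr w v)) π :=
      J1.add J2
    have e1 : ∫ v, (T (v w) * (P v * qu w v) + (sg * (P v * dr w v) +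
          (T (v w) - sg) * (P v * dr w v))) ∂π =
        ∫ v, T (v w) * (P v * qu w v) ∂π + (∫ v, sg * (P v * dr w v) ∂π +
          ∫ v, (T (v w) - sg) * (P v * dr w v) ∂π) := by
      rw [integral_add J1 J23, integral_add J2 J3]
    have e2 : ∫ v, (T (v w) * (P v * qu w v) + sg * (P v * dr w v) +
        T3 (v w) * (lam * r * (R v * (g1 w v * dr w v) + P v * dd w v))) ∂π =
        ∫ v, T (v w) * (P v * qu w v) ∂π + ∫ v, sg * (P v * dr w v) ∂π +
          ∫ v, T3 (v w) * (lam * r * (R v * (g1 w v * dr w v) + P v * dd w v)) ∂π := by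
      rw [integral_add J12 J4, integral_add J1 J2]
    rw [e1, e2, i2 w, add_assoc]
  -- the whole derivative
  have hvint : ∀ w, Integrable (fun v => lam * (v w * (P v * g1 w v))) π := fun w =>
    (hint' _ ((continuous_apply w).mul (cP.mul (cg1 w)))).const_mul lam
  have hPgr : Integrable (fun v => P v * gr v) π := hint' _ (cP.mul cgr)
  have e1 : ∫ v, F' r v ∂π = ∫ v, P v * gr v ∂π + ∑ w, lam * ∫ v, v w * (P v * g1 w v) ∂π := by
    have h1 : ∀ w, lam * ∫ v, v w * (P v * g1 w v) ∂π = ∫ v, lam * (v w * (P v * g1 w v)) ∂π :=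
      fun w => (integral_const_mul _ _).symm
    rw [Finset.sum_congr rfl fun w _ => h1 w, ← integral_finsetSum _ fun w _ => hvint w,
      ← integral_add hPgr (integrable_finsetSum _ fun w _ => hvint w)]
    refine integral_congr_ae (Filter.Eventually.of_forall fun v => ?_)
    simp only [hF', hP, hgr, hg1]
    rw [mul_add, mul_sum]
    congr 1
    refine sum_congr rfl fun w _ => ?_
    ring
  set Ex : (ι → ℝ) → ℝ := fun v => P v * gr v + lam ^ 2 * r * ∑ w, (T (v w) * (P v * qu w v) +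
      sg * (P v * dr w v) +
      T3 (v w) * (lam * r * (R v * (g1 w v * dr w v) + P v * dd w v))) with hEx
  have hExi : Integrable Ex π :=
    (hint' _ (cP.mul cgr)).add ((integrable_finsetSum _ fun w _ => hexi w).const_mul _)
  have e2 : ∫ v, F' r v ∂π ≤ ∫ v, Ex v ∂π := by
    rw [e1]
    have h1 : ∫ v, Ex v ∂π = ∫ v, P v * gr v ∂π + lam ^ 2 * r * ∑ w,
        ∫ v, (T (v w) * (P v * qu w v) + sg * (P v * dr w v) +
          T3 (v w) * (lam * r * (R v * (g1 w v * dr w v) + P v * dd w v))) ∂π := by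
      rw [hEx, integral_add hPgr
        ((integrable_finsetSum _ fun w _ => hexi w).const_mul _), integral_const_mul,
        integral_finsetSum _ fun w _ => hexi w]
    rw [h1, Finset.mul_sum]
    refine add_le_add le_rfl (Finset.sum_le_sum fun w _ => ?_)
    calc lam * ∫ v, v w * (P v * g1 w v) ∂π ≤ lam * (lam * r * ∫ v, (T (v w) * (P v * qu w v) +
          sg * (P v * dr w v) +
          T3 (v w) * (lam * r * (R v * (g1 w v * dr w v) + P v * dd w v))) ∂π) :=
          mul_le_mul_of_nonneg_left (i3 w) hlam.le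
      _ = _ := by ring
  refine e2.trans ?_
  have e3 : 2 * r * (lam ^ 2 * sg) / et * ((1 + 2 * CT / sg) *
        (4 * A * (∫ v, th s0 (c.Ga r (fun w => lam * r * v w)) ∂π) + B)) =
      ∫ v, 2 * r * (lam ^ 2 * sg) / et * ((1 + 2 * CT / sg) *
        (4 * A * th s0 (c.Ga r (fun w => lam * r * v w)) + B)) ∂π := by
    rw [integral_const_mul, integral_const_mul, integral_add ((hint r hrI).const_mul (4 * A))
      (integrable_const B), integral_const_mul]
    simp only [integral_const, probReal_univ, smul_eq_mul, one_mul]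
    rfl
  rw [e3]
  refine integral_mono_ae hExi
    (((((hint r hrI).const_mul (4 * A)).add (integrable_const B)).const_mul _).const_mul _) ?_
  filter_upwards [hae] with v hv
  have hCT := hS.CT0
  have hsg := hS.sg0
  have hG0 : 0 ≤ c.Ga r (fun w => lam * r * v w) := hc.nn r hrI _
  have hM : 0 ≤ 2 * r * (lam ^ 2 * sg) / et := by positivity
  have hM2 : 0 ≤ 1 + 2 * CT / sg := by positivity
  rcases le_total (3 / 4) (c.Ga r (fun w => lam * r * v w)) with hbig | hsmall
  · have h1 : P v = 0 := th1_zero s0 hs0 _ (by rw [hs0d]; linarith)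
    have h2 : R v = 0 := by
      simp only [hR]
      unfold th2
      rw [pp_zero s0 hs0 _ (by rw [hs0d]; linarith)]
      simp
    have h3 : Ex v = 0 := by
      simp only [hEx, h1, h2]
      simp
    rw [h3]
    have h4 := th_nonneg s0 hs0 _ hG0
    positivity
  · obtain ⟨q, hq⟩ := hyp v hv hsmall
    obtain ⟨p0, p1⟩ := th1_mem s0 hs0 _ hG0
    have hRb : |R v| ≤ 8 / 3 := by
      obtain ⟨a1, a2⟩ := pp_mem s0 hs0 _ hG0
      simp only [hR]
      unfold th2
      rw [abs_mul, abs_neg, abs_of_nonneg a1, abs_of_pos (by positivity)]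
      rw [hs0d] at a1 a2 ⊢
      calc 2 / (3 * (1 / 4)) * max (1 - c.Ga r (fun w => lam * r * v w) / (3 * (1 / 4))) 0
          ≤ 2 / (3 * (1 / 4)) * 1 := mul_le_mul_of_nonneg_left a2 (by norm_num)
        _ = 8 / 3 := by norm_num
    have h1 := fd2_point (lam := lam) (sg := sg) (CT := CT) (r := r) (et := et) (A := A) (B := B)
      (P := P v) (R := R v) (Γ := c.Ga r (fun w => lam * r * v w)) (gr := gr v)
      (fun w => g1 w v) (fun w => dr w v) (fun w => qu w v) (fun w => dd w v) q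
      (fun w => T (v w)) (fun w => T3 (v w)) hlam hlam1 hsg hCT hr0 hr1 het hA hB p0 p1 hRb hG0
      hsmall (fun w => hS.T0 _) (fun w => hS.Tb _) (fun w => hS.T3b _) hq.dr hq.q0 hq.qu hq.g1
      hq.d1 hq.qs hq.dd
    refine h1.trans ?_
    refine mul_le_mul_of_nonneg_left (mul_le_mul_of_nonneg_left ?_ hM2) hM
    have h2 := le_four_th s0 hs0 _ hG0 (by rw [hs0d]; linarith)
    have h3 := mul_le_mul_of_nonneg_left h2 hA
    linarith

end Pool.Agent.APS
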