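import Pool.Agent.APS.FlowD

/-! # APS FLOWG: Gronwall and the probability bound.

`u(r) = E θ(Γ(r, λ r V))` on `[ra, rb]`, `Cs = 1 + 2 CT/sg`, `ρ0 = Im g0`.  By `flow_deriv`
`u' ≤ (2 r s/η_r) Cs (4 A u + B)`.  With `Λ(r) = ∫_ra^r 2 t s/η_t dt = log(η_ra/η_r)/ρ0`
(`η_t' = -2 t s ρ0`): `(u(r) e^(-4 Cs A Λ(r)) - Cs B Λ(r))' ≤ 0` as `e^(-..) ≤ 1`; so
`u(r) ≤ (u(ra) + Cs B Λ(r)) exp(4 Cs A Λ(r))`, and `Λ(r) ≤ Λ(rb)`.
`u(ra) ≤ x0 + P(S0ᶜ)` (`θ(t) ≤ t` for `t ≥ 0` and `θ ≤ 1/4 ≤ 1`), and `θ ≥ θ(3/4) = 1/4` on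
`Γ > 3/4` (θ is monotone), so `P(Γ(r) > 3/4) ≤ 4 u(r)`.
-/

open Finset MeasureTheory

noncomputable section

namespace Pool.Agent.APS

open Pool.Agent.Kin

variable {ι : Type} [Fintype ι] [DecidableEq ι] {μ : Measure ℝ} {bd sg CT : ℝ} {T T3 : ℝ → ℝ}

/-- Gronwall on `[ra, rb]` with the coefficient `2 r s/η_r`. -/
private theorem fg_gronw (η s g Cs A B : ℝ) (hη : 0 < η) (hs : 0 ≤ s) (hg : 0 < g) (hCs : 0 ≤ Cs)
    (hA : 0 ≤ A) (hB : 0 ≤ B) (ra rb : ℝ) (h0 : 0 ≤ ra) (h1 : rb ≤ 1)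
    (u u' : ℝ → ℝ) (hu : ∀ r ∈ Set.Icc ra rb, HasDerivAt u (u' r) r)
    (h : ∀ r ∈ Set.Icc ra rb,
      u' r ≤ 2 * r * s / (η + s * (1 - r ^ 2) * g) * (Cs * (4 * A * u r + B)))
    (hu0 : 0 ≤ u ra) (r : ℝ) (hr : r ∈ Set.Icc ra rb) :
    u r ≤ (u ra + Cs * B * (Real.log ((η + s * (1 - ra ^ 2) * g) /
        (η + s * (1 - rb ^ 2) * g)) / g)) *
      Real.exp (4 * Cs * A * (Real.log ((η + s * (1 - ra ^ 2) * g) /
        (η + s * (1 - rb ^ 2) * g)) / g)) := by
  set e : ℝ → ℝ := fun r => η + s * (1 - r ^ 2) * g with he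
  have hepos : ∀ r ∈ Set.Icc ra rb, 0 < e r := by
    intro r hr
    have h2 : 0 ≤ 1 - r ^ 2 := by nlinarith [hr.1, hr.2]
    have h3 : 0 ≤ s * (1 - r ^ 2) * g := by positivity
    simp only [he]; linarith
  have hed : ∀ r, HasDerivAt e (-(2 * r * s * g)) r := by
    intro r
    have h1 : HasDerivAt (fun r : ℝ => r ^ 2) (2 * r) r := by
      simpa using hasDerivAt_pow 2 r
    have h2 := (((h1.const_sub 1).const_mul s).mul_const g).const_add η
    refine h2.congr_deriv ?_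
    ring
  have hra : ra ∈ Set.Icc ra rb := ⟨le_rfl, hr.1.trans hr.2⟩
  have hrb : rb ∈ Set.Icc ra rb := ⟨hr.1.trans hr.2, le_rfl⟩
  set L : ℝ → ℝ := fun r => (Real.log (e ra) - Real.log (e r)) / g with hL
  have hLd : ∀ r ∈ Set.Icc ra rb, HasDerivAt L (2 * r * s / e r) r := by
    intro r hr
    have h2 := (((hed r).log (hepos r hr).ne').const_sub (Real.log (e ra))).div_const g
    refine h2.congr_deriv ?_
    have := (hepos r hr).ne'
    field_simp
  have hmono : ∀ r ∈ Set.Icc ra rb, ∀ r' ∈ Set.Icc ra rb, r ≤ r' → L r ≤ L r' := by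
    intro r hr r' hr' hrr
    simp only [hL]
    have h2 : e r' ≤ e r := by
      simp only [he]
      have h3 : r ^ 2 ≤ r' ^ 2 := by
        have := hr.1
        gcongr
        linarith
      have h4 : s * (1 - r' ^ 2) * g ≤ s * (1 - r ^ 2) * g := by gcongr
      linarith
    have h3 := Real.log_le_log (hepos r' hr') h2
    gcongr
  have hL0 : L ra = 0 := by simp [hL]
  have hLnn : ∀ r ∈ Set.Icc ra rb, 0 ≤ L r := by
    intro r hr
    have := hmono ra hra r hr hr.1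
    linarith
  set φ : ℝ → ℝ := fun r => u r * Real.exp (-(4 * Cs * A * L r)) - Cs * B * L r with hφ
  have hφd : ∀ r ∈ Set.Icc ra rb, HasDerivAt φ
      (u' r * Real.exp (-(4 * Cs * A * L r)) + u r * (Real.exp (-(4 * Cs * A * L r)) *
        (-(4 * Cs * A * (2 * r * s / e r)))) - Cs * B * (2 * r * s / e r)) r := by
    intro r hr
    have h1 := (((hLd r hr).const_mul (4 * Cs * A)).neg).exp
    exact ((hu r hr).mul h1).sub ((hLd r hr).const_mul (Cs * B))
  have hanti : AntitoneOn φ (Set.Icc ra rb) := by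
    refine antitoneOn_of_deriv_nonpos (convex_Icc ra rb) ?_ ?_ ?_
    · intro r hr
      exact (hφd r hr).continuousAt.continuousWithinAt
    · intro r hr
      rw [interior_Icc] at hr
      exact (hφd r (Set.Ioo_subset_Icc_self hr)).differentiableAt.differentiableWithinAt
    · intro r hr
      rw [interior_Icc] at hr
      have hr' := Set.Ioo_subset_Icc_self hr
      rw [(hφd r hr').deriv]
      have hp := hepos r hr'
      have h2 := h r hr'
      have hM : 0 ≤ 2 * r * s / e r := by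
        have : 0 ≤ r := h0.trans hr'.1
        positivity
      have hE0 : 0 < Real.exp (-(4 * Cs * A * L r)) := Real.exp_pos _
      have hE1 : Real.exp (-(4 * Cs * A * L r)) ≤ 1 := by
        rw [Real.exp_le_one_iff]
        have := hLnn r hr'
        have : 0 ≤ 4 * Cs * A * L r := by positivity
        linarith
      have h3 : u' r * Real.exp (-(4 * Cs * A * L r)) ≤
          2 * r * s / e r * (Cs * (4 * A * u r + B)) * Real.exp (-(4 * Cs * A * L r)) := by
        gcongr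
      have h4 : 0 ≤ Cs * B * (2 * r * s / e r) := by positivity
      have h5 : Cs * B * (2 * r * s / e r) * Real.exp (-(4 * Cs * A * L r)) ≤
          Cs * B * (2 * r * s / e r) * 1 := by gcongr
      nlinarith
  have hfin := hanti hra hr hr.1
  simp only [hφ, hL0] at hfin
  simp only [mul_zero, neg_zero, Real.exp_zero, mul_one, sub_zero] at hfin
  have hLr := hLnn r hr
  have hLb := hmono r hr rb hrb hr.2
  have hrew : Real.log (e ra / e rb) / g = L rb := by
    simp only [hL]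
    rw [Real.log_div (hepos ra hra).ne' (hepos rb hrb).ne']
  change u r ≤ (u ra + Cs * B * (Real.log (e ra / e rb) / g)) *
    Real.exp (4 * Cs * A * (Real.log (e ra / e rb) / g))
  rw [hrew]
  have h6 : u r * Real.exp (-(4 * Cs * A * L r)) ≤ u ra + Cs * B * L r := by linarith
  have h7 : u r ≤ (u ra + Cs * B * L r) * Real.exp (4 * Cs * A * L r) := by
    have h8 := mul_le_mul_of_nonneg_right h6 (Real.exp_pos (4 * Cs * A * L r)).le
    rwa [mul_assoc, ← Real.exp_add, neg_add_cancel, Real.exp_zero, mul_one] at h8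
  refine h7.trans ?_
  have h8 : 0 ≤ u ra + Cs * B * L rb := by
    have := hLnn rb hrb
    positivity
  gcongr

theorem flow_bound (hS : SteinLaw μ bd sg CT T T3) (D : Fl ι) (hlam : 0 < D.lam)
    (hlam1 : D.lam ≤ 1) (hsg : D.sg = sg) (hg0 : 0 < D.g0.im) (hz : 0 < D.z.im) (ra rb : ℝ)
    (h0 : 0 ≤ ra) (hab : ra ≤ rb) (h1 : rb ≤ 1) (I : Set ℝ) (hI : IsOpen I)
    (hsub : Set.Icc ra rb ⊆ I) (c : Comp ι) (hc : c.Reg D.lam I) (A B : ℝ) (hA : 0 ≤ A)
    (hB : 0 ≤ B)
    (hyp : ∀ r ∈ Set.Icc ra rb, ∀ v : ι → ℝ, (∀ w, |v w| ≤ bd) → c.Ga r (D.hv r v) ≤ 3 / 4 →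
      ∃ q : ι → ℝ, c.Est D.lam D.s (D.et r) r A B (D.hv r v) q)
    (x0 : ℝ) (hx0 : 0 ≤ x0) (S0 : Set (ι → ℝ)) (hS0 : MeasurableSet S0)
    (hstart : ∀ v ∈ S0, c.Ga ra (D.hv ra v) ≤ x0) (r : ℝ) (hr : r ∈ Set.Icc ra rb) :
    (Measure.pi fun _ : ι => μ).real {v | 3 / 4 < c.Ga r (D.hv r v)} ≤
      4 * (x0 + (Measure.pi fun _ : ι => μ).real S0ᶜ +
        (1 + 2 * CT / sg) * B * (Real.log (D.et ra / D.et rb) / D.g0.im)) *
        Real.exp (4 * (1 + 2 * CT / sg) * A * (Real.log (D.et ra / D.et rb) / D.g0.im)) := by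
  have := hS.prob
  have hsg0 := hS.sg0
  have hCT0 := hS.CT0
  have hsD : D.s = D.lam ^ 2 * sg := by rw [Fl.s, hsg]
  have hs0 : 0 ≤ D.s := by
    rw [hsD]
    positivity
  have het : ∀ r ∈ Set.Icc ra rb, 0 < D.et r := by
    intro r hr
    have h2 : 0 ≤ 1 - r ^ 2 := by nlinarith [hr.1, hr.2]
    have h3 : 0 ≤ D.s * (1 - r ^ 2) * D.g0.im := by positivity
    simp only [Fl.et]
    linarith
  set π : Measure (ι → ℝ) := Measure.pi fun _ : ι => μ with hπ
  set u : ℝ → ℝ := fun r => ∫ v, th (1 / 4) (c.Ga r (fun w => D.lam * r * v w)) ∂π with hu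
  have hder : ∀ r : ℝ, ∃ u' : ℝ, r ∈ Set.Icc ra rb → HasDerivAt u u' r ∧
      u' ≤ 2 * r * D.s / D.et r * ((1 + 2 * CT / sg) * (4 * A * u r + B)) := by
    intro r
    by_cases hr : r ∈ Set.Icc ra rb
    · obtain ⟨u', h2, h3⟩ := flow_deriv hS D.lam hlam hlam1 I hI c hc r (hsub hr)
        (h0.trans hr.1) (hr.2.trans h1) (D.et r) (het r hr) A B hA hB
        (fun v hv hG => by
          have := hyp r hr v hv hG
          rw [hsD] at this
          exact this)
      refine ⟨u', fun _ => ⟨h2, ?_⟩⟩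
      rw [hsD]
      exact h3
    · exact ⟨0, fun h => absurd h hr⟩
  choose u' hu' using hder
  -- continuity and integrability
  have hcont : ∀ r ∈ Set.Icc ra rb, Continuous fun v : ι → ℝ => c.Ga r (fun w => D.lam * r * v w) := by
    intro r hr
    have h2 : Continuous fun v : ι → ℝ => ((r, fun w => D.lam * r * v w) : ℝ × (ι → ℝ)) := by
      fun_prop
    exact hc.cGa.comp_continuous h2 fun v => ⟨hsub hr, Set.mem_univ _⟩
  have hint : ∀ r ∈ Set.Icc ra rb, Integrable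
      (fun v : ι → ℝ => th (1 / 4) (c.Ga r (fun w => D.lam * r * v w))) π := fun r hr =>
    cont_integrable μ bd hS.supp _ ((cont_th _).comp (hcont r hr))
  have hthnn : ∀ r ∈ Set.Icc ra rb, ∀ v : ι → ℝ,
      0 ≤ th (1 / 4) (c.Ga r (fun w => D.lam * r * v w)) := fun r hr v =>
    th_nonneg _ (by norm_num) _ (hc.nn r (hsub hr) _)
  have hra : ra ∈ Set.Icc ra rb := ⟨le_rfl, hab⟩
  have hua0 : 0 ≤ u ra := integral_nonneg fun v => hthnn ra hra v
  have hua : u ra ≤ x0 + π.real S0ᶜ := by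
    have h2 : ∀ v : ι → ℝ, th (1 / 4) (c.Ga ra (fun w => D.lam * ra * v w)) ≤
        x0 + S0ᶜ.indicator (fun _ => (1 : ℝ)) v := by
      intro v
      by_cases hv : v ∈ S0
      · have h3 : v ∉ S0ᶜ := fun h => h hv
        rw [Set.indicator_of_notMem h3, add_zero]
        exact (th_le _ (by norm_num) _ (hc.nn ra (hsub hra) _)).trans (hstart v hv)
      · have h3 : v ∈ S0ᶜ := hv
        rw [Set.indicator_of_mem h3]
        have h4 : th (1 / 4) (c.Ga ra (fun w => D.lam * ra * v w)) ≤ 1 / 4 := by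
          unfold th
          have h5 : 0 ≤ max (1 - c.Ga ra (fun w => D.lam * ra * v w) / (3 * (1 / 4))) 0 ^ 3 :=
            pow_nonneg (le_max_right _ _) _
          linarith
        linarith
    have hi : Integrable (fun v => S0ᶜ.indicator (fun _ => (1 : ℝ)) v) π :=
      (integrable_const (1 : ℝ)).indicator hS0.compl
    calc u ra ≤ ∫ v, (x0 + S0ᶜ.indicator (fun _ => (1 : ℝ)) v) ∂π :=
          integral_mono (hint ra hra) ((integrable_const x0).add hi) h2
      _ = x0 + π.real S0ᶜ := by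
          rw [integral_add (integrable_const x0) hi, integral_indicator_const _ hS0.compl]
          simp
  have hgr := fg_gronw D.z.im D.s D.g0.im (1 + 2 * CT / sg) A B hz hs0 hg0 (by positivity) hA hB
    ra rb h0 h1 u u' (fun r hr => (hu' r hr).1) (fun r hr => (hu' r hr).2) hua0 r hr
  have hlogn : 0 ≤ Real.log (D.et ra / D.et rb) := by
    refine Real.log_nonneg ?_
    have hrb : rb ∈ Set.Icc ra rb := ⟨hab, le_rfl⟩
    rw [one_le_div (het rb hrb)]
    simp only [Fl.et]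
    have h3 : ra ^ 2 ≤ rb ^ 2 := by gcongr
    have h4 : D.s * (1 - rb ^ 2) * D.g0.im ≤ D.s * (1 - ra ^ 2) * D.g0.im := by gcongr
    linarith
  have hmk : π.real {v | 3 / 4 < c.Ga r (D.hv r v)} ≤ 4 * u r := by
    have h2 := mul_meas_ge_le_integral_of_nonneg (μ := π)
      (f := fun v : ι → ℝ => th (1 / 4) (c.Ga r (fun w => D.lam * r * v w)))
      (Filter.Eventually.of_forall fun v => hthnn r hr v) (hint r hr) (1 / 4)
    have h3 : π.real {v | 3 / 4 < c.Ga r (D.hv r v)} ≤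
        π.real {v : ι → ℝ | 1 / 4 ≤ th (1 / 4) (c.Ga r (fun w => D.lam * r * v w))} := by
      refine measureReal_mono ?_ (measure_ne_top _ _)
      intro v hv
      have hv' : 3 / 4 < c.Ga r (fun w => D.lam * r * v w) := hv
      show 1 / 4 ≤ th (1 / 4) (c.Ga r (fun w => D.lam * r * v w))
      rw [th_big _ (by norm_num) _ (by linarith)]
    have h4 : 1 / 4 * π.real {v : ι → ℝ | 1 / 4 ≤ th (1 / 4)
        (c.Ga r (fun w => D.lam * r * v w))} ≤ u r := h2
    linarith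
  refine hmk.trans ?_
  rw [mul_assoc]
  have h5 : u r ≤ (x0 + π.real S0ᶜ +
      (1 + 2 * CT / sg) * B * (Real.log (D.et ra / D.et rb) / D.g0.im)) *
      Real.exp (4 * (1 + 2 * CT / sg) * A * (Real.log (D.et ra / D.et rb) / D.g0.im)) := by
    refine hgr.trans ?_
    change (u ra + (1 + 2 * CT / sg) * B * (Real.log (D.et ra / D.et rb) / D.g0.im)) *
      Real.exp (4 * (1 + 2 * CT / sg) * A * (Real.log (D.et ra / D.et rb) / D.g0.im)) ≤ _
    gcongr
  linarith

end Pool.Agent.APS
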