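import Pool.Agent.APS.FlowD2

/-! # APS FLOWG2: Gronwall with a rate depending on `r`, and the probability bound.

`u(r) = E θ(Γ(r, λ r V))` on `[0,1]`, `Cs = 1 + 2 CT/sg`.  `flow_deriv2`:
`u' ≤ (2 r s/η_r) Cs (4 A(r) u + B)`.  `Λ(r) = log(η_0/η_r)/ρ0` has `Λ' = 2 r s/η_r`.  With
`Phi' ≥ (2 r s/η_r) A`: `(u e^(-4 Cs Phi) - Cs B Λ)' ≤ 0` (`Phi ≥ 0`, `e^(..) ≤ 1`, `u ≥ 0`), so
`u(1) ≤ (u(0) + Cs B Λ(1)) e^(4 Cs Phi(1))`.  `u(0) ≤ x0`, and `θ ≥ 1/4` on `Γ > 3/4`.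
(Compare FlowG.lean.)
-/

open Finset MeasureTheory

noncomputable section

namespace Pool.Agent.APS

open Pool.Agent.Kin

variable {ι : Type} [Fintype ι] [DecidableEq ι] {μ : Measure ℝ} {bd sg CT : ℝ} {T T3 : ℝ → ℝ}

/-- Gronwall on `[0, 1]` with the coefficient `2 r s/η_r` and a rate depending on `r`. -/
private theorem fg2_gronw (η s g Cs B : ℝ) (hη : 0 < η) (hs : 0 ≤ s) (hg : 0 < g) (hCs : 0 ≤ Cs)
    (hB : 0 ≤ B) (A Phi Phi' : ℝ → ℝ) (hA : ∀ r ∈ Set.Icc (0 : ℝ) 1, 0 ≤ A r)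
    (hPhi : ∀ r ∈ Set.Icc (0 : ℝ) 1, HasDerivAt Phi (Phi' r) r) (hPhi0 : Phi 0 = 0)
    (hPhi1 : ∀ r ∈ Set.Icc (0 : ℝ) 1, 2 * r * s / (η + s * (1 - r ^ 2) * g) * A r ≤ Phi' r)
    (u u' : ℝ → ℝ) (hu : ∀ r ∈ Set.Icc (0 : ℝ) 1, HasDerivAt u (u' r) r)
    (h : ∀ r ∈ Set.Icc (0 : ℝ) 1,
      u' r ≤ 2 * r * s / (η + s * (1 - r ^ 2) * g) * (Cs * (4 * A r * u r + B)))
    (hunn : ∀ r ∈ Set.Icc (0 : ℝ) 1, 0 ≤ u r) :
    u 1 ≤ (u 0 + Cs * B * (Real.log ((η + s * (1 - 0 ^ 2) * g) /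
        (η + s * (1 - 1 ^ 2) * g)) / g)) *
      Real.exp (4 * Cs * Phi 1) := by
  set e : ℝ → ℝ := fun r => η + s * (1 - r ^ 2) * g with he
  have hepos : ∀ r ∈ Set.Icc (0 : ℝ) 1, 0 < e r := by
    intro r hr
    have h2 : 0 ≤ 1 - r ^ 2 := by nlinarith [hr.1, hr.2]
    have h3 : 0 ≤ s * (1 - r ^ 2) * g := by positivity
    simp only [he]; linarith
  have hed : ∀ r, HasDerivAt e (-(2 * r * s * g)) r := by
    intro r
    have h1 : HasDerivAt (fun r : ℝ => r ^ 2) (2 * r) r := by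
      simpa using hasDerivAt_pow 2 r
    have h2 := (((h1.const_sub 1).const_mul s).mul_const g).const_add η
    refine h2.congr_deriv ?_
    ring
  have hra : (0 : ℝ) ∈ Set.Icc (0 : ℝ) 1 := ⟨le_rfl, zero_le_one⟩
  have hrb : (1 : ℝ) ∈ Set.Icc (0 : ℝ) 1 := ⟨zero_le_one, le_rfl⟩
  have hMnn : ∀ r ∈ Set.Icc (0 : ℝ) 1, 0 ≤ 2 * r * s / e r := by
    intro r hr
    have h1 : 0 ≤ r := hr.1
    have h2 := hepos r hr
    positivity
  have hMA : ∀ r ∈ Set.Icc (0 : ℝ) 1, 0 ≤ Phi' r := by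
    intro r hr
    exact (mul_nonneg (hMnn r hr) (hA r hr)).trans (hPhi1 r hr)
  set L : ℝ → ℝ := fun r => (Real.log (e 0) - Real.log (e r)) / g with hL
  have hLd : ∀ r ∈ Set.Icc (0 : ℝ) 1, HasDerivAt L (2 * r * s / e r) r := by
    intro r hr
    have h2 := (((hed r).log (hepos r hr).ne').const_sub (Real.log (e 0))).div_const g
    refine h2.congr_deriv ?_
    have := (hepos r hr).ne'
    field_simp
  have hPnn : ∀ r ∈ Set.Icc (0 : ℝ) 1, 0 ≤ Phi r := by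
    have hmon : MonotoneOn Phi (Set.Icc (0 : ℝ) 1) := by
      refine monotoneOn_of_deriv_nonneg (convex_Icc 0 1) ?_ ?_ ?_
      · intro r hr
        exact (hPhi r hr).continuousAt.continuousWithinAt
      · intro r hr
        rw [interior_Icc] at hr
        exact (hPhi r (Set.Ioo_subset_Icc_self hr)).differentiableAt.differentiableWithinAt
      · intro r hr
        rw [interior_Icc] at hr
        rw [(hPhi r (Set.Ioo_subset_Icc_self hr)).deriv]
        exact hMA r (Set.Ioo_subset_Icc_self hr)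
    intro r hr
    have := hmon hra hr hr.1
    rwa [hPhi0] at this
  have hL0 : L 0 = 0 := by simp [hL]
  set φ : ℝ → ℝ := fun r => u r * Real.exp (-(4 * Cs * Phi r)) - Cs * B * L r with hφ
  have hφd : ∀ r ∈ Set.Icc (0 : ℝ) 1, HasDerivAt φ
      (u' r * Real.exp (-(4 * Cs * Phi r)) + u r * (Real.exp (-(4 * Cs * Phi r)) *
        (-(4 * Cs * Phi' r))) - Cs * B * (2 * r * s / e r)) r := by
    intro r hr
    have h1 := (((hPhi r hr).const_mul (4 * Cs)).neg).exp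
    exact ((hu r hr).mul h1).sub ((hLd r hr).const_mul (Cs * B))
  have hanti : AntitoneOn φ (Set.Icc (0 : ℝ) 1) := by
    refine antitoneOn_of_deriv_nonpos (convex_Icc 0 1) ?_ ?_ ?_
    · intro r hr
      exact (hφd r hr).continuousAt.continuousWithinAt
    · intro r hr
      rw [interior_Icc] at hr
      exact (hφd r (Set.Ioo_subset_Icc_self hr)).differentiableAt.differentiableWithinAt
    · intro r hr
      rw [interior_Icc] at hr
      have hr' := Set.Ioo_subset_Icc_self hr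
      rw [(hφd r hr').deriv]
      have h2 := h r hr'
      have hM : 0 ≤ 2 * r * s / e r := hMnn r hr'
      have hE0 : 0 < Real.exp (-(4 * Cs * Phi r)) := Real.exp_pos _
      have hE1 : Real.exp (-(4 * Cs * Phi r)) ≤ 1 := by
        rw [Real.exp_le_one_iff]
        have := hPnn r hr'
        have : 0 ≤ 4 * Cs * Phi r := by positivity
        linarith
      have hur := hunn r hr'
      have h3 : u' r ≤ 4 * Cs * Phi' r * u r + 2 * r * s / e r * (Cs * B) := by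
        have h4 : 2 * r * s / e r * A r * (4 * Cs * u r) ≤ Phi' r * (4 * Cs * u r) :=
          mul_le_mul_of_nonneg_right (hPhi1 r hr') (by positivity)
        have h5 : 2 * r * s / (η + s * (1 - r ^ 2) * g) * (Cs * (4 * A r * u r + B)) =
            2 * r * s / e r * A r * (4 * Cs * u r) + 2 * r * s / e r * (Cs * B) := by
          simp only [he]
          ring
        linarith
      have h6 := mul_le_mul_of_nonneg_right h3 hE0.le
      have h7 : 0 ≤ 2 * r * s / e r * (Cs * B) := by positivity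
      have h8 : 2 * r * s / e r * (Cs * B) * Real.exp (-(4 * Cs * Phi r)) ≤
          2 * r * s / e r * (Cs * B) * 1 := mul_le_mul_of_nonneg_left hE1 h7
      nlinarith
  have hfin := hanti hra hrb zero_le_one
  simp only [hφ, hL0, hPhi0] at hfin
  simp only [mul_zero, neg_zero, Real.exp_zero, mul_one, sub_zero] at hfin
  have hrew : Real.log (e 0 / e 1) / g = L 1 := by
    simp only [hL]
    rw [Real.log_div (hepos 0 hra).ne' (hepos 1 hrb).ne']
  change u 1 ≤ (u 0 + Cs * B * (Real.log (e 0 / e 1) / g)) * Real.exp (4 * Cs * Phi 1)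
  rw [hrew]
  have h6 : u 1 * Real.exp (-(4 * Cs * Phi 1)) ≤ u 0 + Cs * B * L 1 := by linarith
  have h8 := mul_le_mul_of_nonneg_right h6 (Real.exp_pos (4 * Cs * Phi 1)).le
  rwa [mul_assoc, ← Real.exp_add, neg_add_cancel, Real.exp_zero, mul_one] at h8

theorem flow_bound2 (hS : SteinLaw μ bd sg CT T T3) (D : Fl ι) (hlam : 0 < D.lam)
    (hlam1 : D.lam ≤ 1) (hsg : D.sg = sg) (hg0 : 0 < D.g0.im) (hz : 0 < D.z.im)
    (I : Set ℝ) (hI : IsOpen I) (hsub : Set.Icc 0 1 ⊆ I) (c : Comp ι) (hc : c.Reg D.lam I)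
    (A : ℝ → ℝ) (B : ℝ) (hA : ∀ r ∈ Set.Icc (0 : ℝ) 1, 0 ≤ A r) (hB : 0 ≤ B)
    (Phi Phi' : ℝ → ℝ) (hPhi : ∀ r ∈ Set.Icc (0 : ℝ) 1, HasDerivAt Phi (Phi' r) r)
    (hPhi0 : Phi 0 = 0)
    (hPhi1 : ∀ r ∈ Set.Icc (0 : ℝ) 1, 2 * r * D.s / D.et r * A r ≤ Phi' r)
    (hyp : ∀ r ∈ Set.Icc (0 : ℝ) 1, ∀ v : ι → ℝ, (∀ w, |v w| ≤ bd) →
      c.Ga r (D.hv r v) ≤ 3 / 4 →
      ∃ q : ι → ℝ, c.Est2 D.lam D.s (D.et r) r (A r) B (D.hv r v) q)
    (x0 : ℝ) (hx0 : 0 ≤ x0) (hstart : ∀ v, c.Ga 0 (D.hv 0 v) ≤ x0) :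
    (Measure.pi fun _ : ι => μ).real {v | 3 / 4 < c.Ga 1 (D.hv 1 v)} ≤
      4 * (x0 + (1 + 2 * CT / sg) * B * (Real.log (D.et 0 / D.et 1) / D.g0.im)) *
        Real.exp (4 * (1 + 2 * CT / sg) * Phi 1) := by
  have := hS.prob
  have hsg0 := hS.sg0
  have hCT0 := hS.CT0
  have hsD : D.s = D.lam ^ 2 * sg := by rw [Fl.s, hsg]
  have hs0 : 0 ≤ D.s := by
    rw [hsD]
    positivity
  have het : ∀ r ∈ Set.Icc (0 : ℝ) 1, 0 < D.et r := by
    intro r hr
    have h2 : 0 ≤ 1 - r ^ 2 := by nlinarith [hr.1, hr.2]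
    have h3 : 0 ≤ D.s * (1 - r ^ 2) * D.g0.im := by positivity
    simp only [Fl.et]
    linarith
  set π : Measure (ι → ℝ) := Measure.pi fun _ : ι => μ with hπ
  set u : ℝ → ℝ := fun r => ∫ v, th (1 / 4) (c.Ga r (fun w => D.lam * r * v w)) ∂π with hu
  have hder : ∀ r : ℝ, ∃ u' : ℝ, r ∈ Set.Icc (0 : ℝ) 1 → HasDerivAt u u' r ∧
      u' ≤ 2 * r * D.s / D.et r * ((1 + 2 * CT / sg) * (4 * A r * u r + B)) := by
    intro r
    by_cases hr : r ∈ Set.Icc (0 : ℝ) 1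
    · obtain ⟨u', h2, h3⟩ := flow_deriv2 hS D.lam hlam hlam1 I hI c hc r (hsub hr)
        hr.1 hr.2 (D.et r) (het r hr) (A r) B (hA r hr) hB
        (fun v hv hG => by
          have := hyp r hr v hv hG
          rw [hsD] at this
          exact this)
      refine ⟨u', fun _ => ⟨h2, ?_⟩⟩
      rw [hsD]
      exact h3
    · exact ⟨0, fun h => absurd h hr⟩
  choose u' hu' using hder
  -- continuity and integrability
  have hcont : ∀ r ∈ Set.Icc (0 : ℝ) 1,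
      Continuous fun v : ι → ℝ => c.Ga r (fun w => D.lam * r * v w) := by
    intro r hr
    have h2 : Continuous fun v : ι → ℝ => ((r, fun w => D.lam * r * v w) : ℝ × (ι → ℝ)) := by
      fun_prop
    exact hc.cGa.comp_continuous h2 fun v => ⟨hsub hr, Set.mem_univ _⟩
  have hint : ∀ r ∈ Set.Icc (0 : ℝ) 1, Integrable
      (fun v : ι → ℝ => th (1 / 4) (c.Ga r (fun w => D.lam * r * v w))) π := fun r hr =>
    cont_integrable μ bd hS.supp _ ((cont_th _).comp (hcont r hr))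
  have hthnn : ∀ r ∈ Set.Icc (0 : ℝ) 1, ∀ v : ι → ℝ,
      0 ≤ th (1 / 4) (c.Ga r (fun w => D.lam * r * v w)) := fun r hr v =>
    th_nonneg _ (by norm_num) _ (hc.nn r (hsub hr) _)
  have hra : (0 : ℝ) ∈ Set.Icc (0 : ℝ) 1 := ⟨le_rfl, zero_le_one⟩
  have hrb : (1 : ℝ) ∈ Set.Icc (0 : ℝ) 1 := ⟨zero_le_one, le_rfl⟩
  have hunn : ∀ r ∈ Set.Icc (0 : ℝ) 1, 0 ≤ u r := fun r hr =>
    integral_nonneg fun v => hthnn r hr v
  have hua : u 0 ≤ x0 := by
    have h2 : ∀ v : ι → ℝ, th (1 / 4) (c.Ga 0 (fun w => D.lam * 0 * v w)) ≤ x0 := by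
      intro v
      exact (th_le _ (by norm_num) _ (hc.nn 0 (hsub hra) _)).trans (hstart v)
    calc u 0 ≤ ∫ _, x0 ∂π := integral_mono (hint 0 hra) (integrable_const x0) h2
      _ = x0 := by simp
  have hgr := fg2_gronw D.z.im D.s D.g0.im (1 + 2 * CT / sg) B hz hs0 hg0 (by positivity) hB
    A Phi Phi' hA hPhi hPhi0 hPhi1 u u' (fun r hr => (hu' r hr).1) (fun r hr => (hu' r hr).2) hunn
  have hmk : π.real {v | 3 / 4 < c.Ga 1 (D.hv 1 v)} ≤ 4 * u 1 := by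
    have h2 := mul_meas_ge_le_integral_of_nonneg (μ := π)
      (f := fun v : ι → ℝ => th (1 / 4) (c.Ga 1 (fun w => D.lam * 1 * v w)))
      (Filter.Eventually.of_forall fun v => hthnn 1 hrb v) (hint 1 hrb) (1 / 4)
    have h3 : π.real {v | 3 / 4 < c.Ga 1 (D.hv 1 v)} ≤
        π.real {v : ι → ℝ | 1 / 4 ≤ th (1 / 4) (c.Ga 1 (fun w => D.lam * 1 * v w))} := by
      refine measureReal_mono ?_ (measure_ne_top _ _)
      intro v hv
      have hv' : 3 / 4 < c.Ga 1 (fun w => D.lam * 1 * v w) := hv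
      show 1 / 4 ≤ th (1 / 4) (c.Ga 1 (fun w => D.lam * 1 * v w))
      rw [th_big _ (by norm_num) _ (by linarith)]
    have h4 : 1 / 4 * π.real {v : ι → ℝ | 1 / 4 ≤ th (1 / 4)
        (c.Ga 1 (fun w => D.lam * 1 * v w))} ≤ u 1 := h2
    linarith
  refine hmk.trans ?_
  rw [mul_assoc]
  have h5 : u 1 ≤ (x0 +
      (1 + 2 * CT / sg) * B * (Real.log (D.et 0 / D.et 1) / D.g0.im)) *
      Real.exp (4 * (1 + 2 * CT / sg) * Phi 1) := by
    refine hgr.trans ?_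
    change (u 0 + (1 + 2 * CT / sg) * B * (Real.log (D.et 0 / D.et 1) / D.g0.im)) *
      Real.exp (4 * (1 + 2 * CT / sg) * Phi 1) ≤ _
    exact mul_le_mul_of_nonneg_right (by linarith) (Real.exp_pos _).le
  linarith

end Pool.Agent.APS
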