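import Pool.Agent.APS.Init0
import Pool.Agent.APS.RegG

/-! # APS LADR: the ladder `RL = R_0/(1 - s r² R_0)`.

Hypothesis `h34`: `s Re r0(k) ≤ 3/4` and `‖r0 k‖ ≤ 1/s`.  For `0 ≤ r ≤ 1`: `Re(1 - s r² r0) ≥ 1/4`
(if `Re r0 ≤ 0` it is `≥ 1`), so `|RL(k)| ≤ 4 |r0(k)| ≤ 4/s`.
`I = {r | 0 < η_r ∧ ∀ k, 1 - s r² r0(k) ≠ 0}` is open (finitely many continuous conditions) and
contains `[0,1]`.  Derivative of `r0/(1 - s r² r0)` in `r`: `2 r s (r0/(1 - s r² r0))²`.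
-/

open Matrix Finset

noncomputable section

namespace Pool.Agent.APS

open Pool.Agent.Kin

variable {d L : ℕ} [NeZero L] {D : Fl (Tor d L)} {rlo rhi : ℝ}

/-- the domain -/
def domI (D : Fl (Tor d L)) : Set ℝ :=
  {r | 0 < D.et r ∧ ∀ k : Tor d L, 1 - ((D.s * r ^ 2 : ℝ) : ℂ) * r0 D k ≠ 0}

private theorem cont_den (D : Fl (Tor d L)) (k : Tor d L) :
    Continuous fun r : ℝ => 1 - ((D.s * r ^ 2 : ℝ) : ℂ) * r0 D k := by
  fun_prop

private theorem re_den (D : Fl (Tor d L)) (hs : 0 < D.s)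
    (h34 : ∀ k : Tor d L, D.s * (r0 D k).re ≤ 3 / 4) {r : ℝ} (h0 : 0 ≤ r) (h1 : r ≤ 1)
    (k : Tor d L) : 1 / 4 ≤ (1 - ((D.s * r ^ 2 : ℝ) : ℂ) * r0 D k).re := by
  rw [Complex.sub_re, Complex.one_re, Complex.re_ofReal_mul]
  have h2 : r ^ 2 ≤ 1 := pow_le_one₀ h0 h1
  have h3 := h34 k
  rcases le_or_gt (r0 D k).re 0 with h | h
  · have h4 : D.s * r ^ 2 * (r0 D k).re ≤ 0 :=
      mul_nonpos_of_nonneg_of_nonpos (by positivity) h
    linarith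
  · have h4 : D.s * r ^ 2 * (r0 D k).re ≤ D.s * (r0 D k).re := by
      have h5 : D.s * r ^ 2 ≤ D.s := by nlinarith
      exact mul_le_mul_of_nonneg_right h5 h.le
    linarith

theorem domI_open (D : Fl (Tor d L)) : IsOpen (domI D) := by
  have h1 : domI D = {r | 0 < D.et r} ∩
      ⋂ k : Tor d L, {r | 1 - ((D.s * r ^ 2 : ℝ) : ℂ) * r0 D k ≠ 0} := by
    ext r
    simp only [domI, Set.mem_ofPred_eq, Set.mem_inter_iff, Set.mem_iInter]
  rw [h1]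
  refine IsOpen.inter ?_ (isOpen_iInter_of_finite fun k => ?_)
  · have h2 : Continuous D.et := by
      unfold Fl.et
      fun_prop
    exact isOpen_lt continuous_const h2
  · exact isOpen_ne_fun (cont_den D k) continuous_const

theorem domI_sub (hW : World D rlo rhi) (h34 : ∀ k : Tor d L, D.s * (r0 D k).re ≤ 3 / 4) :
    Set.Icc 0 1 ⊆ domI D := by
  intro r hr
  refine ⟨lt_of_lt_of_le hW.zim (hW.et_pos hr.1 hr.2).1, fun k h => ?_⟩
  have h2 := re_den D hW.s0 h34 hr.1 hr.2 k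
  rw [h, Complex.zero_re] at h2
  linarith

private theorem RL'_eq (D : Fl (Tor d L)) (r : ℝ) :
    RL' D r = mult fun k => ((2 * r * D.s : ℝ) : ℂ) *
      (r0 D k / (1 - ((D.s * r ^ 2 : ℝ) : ℂ) * r0 D k) *
        (r0 D k / (1 - ((D.s * r ^ 2 : ℝ) : ℂ) * r0 D k))) := by
  unfold RL' RL
  rw [mult_mul, mult_smul]

theorem RL_deriv (D : Fl (Tor d L)) {r : ℝ} (hr : r ∈ domI D) (x y : Tor d L) :
    HasDerivAt (fun r => RL D r x y) (RL' D r x y) r := by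
  rw [RL'_eq]
  refine mult_hasDeriv (fun r k => r0 D k / (1 - ((D.s * r ^ 2 : ℝ) : ℂ) * r0 D k))
    (fun r k => ((2 * r * D.s : ℝ) : ℂ) * (r0 D k / (1 - ((D.s * r ^ 2 : ℝ) : ℂ) * r0 D k) *
        (r0 D k / (1 - ((D.s * r ^ 2 : ℝ) : ℂ) * r0 D k)))) r (fun k => ?_) x y
  have h1 : HasDerivAt (fun r : ℝ => D.s * r ^ 2) (D.s * (2 * r)) r := by
    have := (hasDerivAt_pow 2 r).const_mul D.s
    simpa using this
  have h2 : HasDerivAt (fun r : ℝ => 1 - ((D.s * r ^ 2 : ℝ) : ℂ) * r0 D k)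
      (-(((D.s * (2 * r) : ℝ) : ℂ) * r0 D k)) r :=
    (h1.ofReal_comp.mul_const (r0 D k)).const_sub 1
  have h3 := h2.inv (hr.2 k)
  have h4 := h3.const_mul (r0 D k)
  refine h4.congr_deriv ?_
  generalize 1 - ((D.s * r ^ 2 : ℝ) : ℂ) * r0 D k = w
  push_cast
  ring

theorem RL'_cont (D : Fl (Tor d L)) (x y : Tor d L) :
    ContinuousOn (fun r => RL' D r x y) (domI D) := by
  have h1 : (fun r => RL' D r x y) = fun r => mult (fun k => ((2 * r * D.s : ℝ) : ℂ) *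
      (r0 D k / (1 - ((D.s * r ^ 2 : ℝ) : ℂ) * r0 D k) *
        (r0 D k / (1 - ((D.s * r ^ 2 : ℝ) : ℂ) * r0 D k)))) x y := by
    funext r
    rw [RL'_eq]
  rw [h1]
  refine mult_cont (fun r k => ((2 * r * D.s : ℝ) : ℂ) *
      (r0 D k / (1 - ((D.s * r ^ 2 : ℝ) : ℂ) * r0 D k) *
        (r0 D k / (1 - ((D.s * r ^ 2 : ℝ) : ℂ) * r0 D k)))) (domI D) (fun k => ?_) x y
  have h2 : ContinuousOn (fun r : ℝ => r0 D k / (1 - ((D.s * r ^ 2 : ℝ) : ℂ) * r0 D k))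
      (domI D) :=
    continuousOn_const.div (cont_den D k).continuousOn fun r hr => hr.2 k
  refine ContinuousOn.mul ?_ (h2.mul h2)
  exact Continuous.continuousOn (by fun_prop)

theorem RL_op (hW : World D rlo rhi) (h34 : ∀ k : Tor d L, D.s * (r0 D k).re ≤ 3 / 4)
    (hn : ∀ k : Tor d L, ‖r0 D k‖ ≤ 1 / D.s) {r : ℝ} (h0 : 0 ≤ r) (h1 : r ≤ 1) :
    OpLe (RL D r) (4 / D.s) := by
  refine mult_op _ _ fun k => ?_
  have h2 := re_den D hW.s0 h34 h0 h1 k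
  have h3 : 1 / 4 ≤ ‖1 - ((D.s * r ^ 2 : ℝ) : ℂ) * r0 D k‖ :=
    h2.trans ((le_abs_self _).trans (Complex.abs_re_le_norm _))
  rw [norm_div, div_le_iff₀ (by linarith)]
  have h4 := hn k
  have h5 : 0 < 1 / D.s := one_div_pos.mpr hW.s0
  calc ‖r0 D k‖ ≤ 1 / D.s := h4
    _ = 4 / D.s * (1 / 4) := by ring
    _ ≤ 4 / D.s * ‖1 - ((D.s * r ^ 2 : ℝ) : ℂ) * r0 D k‖ :=
        mul_le_mul_of_nonneg_left h3 (div_pos (by norm_num) hW.s0).le

theorem RL_zero (hW : World D rlo rhi) : RL D 0 = D.RO.f 0 0 := by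
  rw [hW.R0]
  unfold RL
  congr 1
  funext k
  simp

end Pool.Agent.APS
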