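import Pool.Agent.Kin.CntQ
import Pool.Agent.Kin.Char

/-! # APS SUMRH: `∑_{k ≠ 0} rh(k)^(-2) ≤ C L^d` for `d ≥ 3`.

For `k ≠ 0`: `rh(k) ≥ sin(π/L) ≥ 2/L`... more precisely `rh k ≥ |sin(π a/L)|` for some `a ≠ 0 mod L`, and
`|sin(π a/L)| ≥ 2/L` if `L ≥ 2` (`|sin| ≥ (2/π) dist`), so `rh k ≥ 1/L`.  With `J` such that
`2^(-J) < 1/L`: `1/rh² ≤ ∑_{j ≤ J} 4^(j+1) 1[rh ≤ 2^(-j)]` for `1/L ≤ rh ≤ 1` (take the largest `j` with
`rh ≤ 2^(-j)`).  By `count_rh` `#{rh ≤ 2^(-j)} ≤ (1 + 2^(-j) L)^d ≤ (3 · 2^(-j) L)^d` for `2^(-j) L ≥ 1/2`,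
so the sum is at most `∑_j 4^(j+1) 3^d 2^(-jd) L^d ≤ 4 · 3^d L^d ∑_j 2^(-j) ≤ 8 · 3^d L^d` as `d ≥ 3`.
(`L = 1`: no `k ≠ 0`.)  `rh_pos`: `rh k > 0` iff `k ≠ 0`.
-/

open Finset

noncomputable section

namespace Pool.Agent.APS

open Pool.Agent.Kin

private theorem sr_sin {L : ℕ} [NeZero L] (a : ZMod L) (ha : a ≠ 0) :
    1 / (L : ℝ) ≤ |Real.sin (ang a / 2)| := by
  have hL : (0 : ℝ) < L := by exact_mod_cast Nat.pos_of_ne_zero (NeZero.ne L)
  have hv0 : 0 < a.val := Nat.pos_of_ne_zero fun h => ha ((ZMod.val_eq_zero a).1 h)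
  have hvL : a.val < L := ZMod.val_lt a
  have h1 : (1 : ℝ) ≤ a.val := by exact_mod_cast hv0
  have h2 : (a.val : ℝ) + 1 ≤ L := by exact_mod_cast hvL
  have hpi := Real.pi_pos
  have e : ang a / 2 = Real.pi * a.val / L := by rw [ang]; ring
  rw [e]
  refine le_trans ?_ (le_abs_self _)
  have hb : 2 / (L : ℝ) ≤ Real.sin (Real.pi * a.val / L) := by
    rcases le_total (Real.pi * a.val / L) (Real.pi / 2) with h | h
    · refine le_trans ?_ (Real.mul_le_sin (by positivity) h)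
      have e2 : 2 / Real.pi * (Real.pi * a.val / L) = 2 * a.val / L := by
        field_simp
      rw [e2]
      apply div_le_div_of_nonneg_right _ hL.le
      linarith
    · rw [← Real.sin_pi_sub]
      have e3 : Real.pi - Real.pi * a.val / L = Real.pi * (L - a.val) / L := by
        field_simp
      have h3 : 0 ≤ Real.pi - Real.pi * a.val / L := by
        rw [e3]
        have : (0 : ℝ) ≤ L - a.val := by linarith
        positivity
      refine le_trans ?_ (Real.mul_le_sin h3 (by linarith))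
      rw [e3]
      have e2 : 2 / Real.pi * (Real.pi * (L - a.val) / L) = 2 * (L - a.val) / L := by
        field_simp
      rw [e2]
      apply div_le_div_of_nonneg_right _ hL.le
      linarith
  refine le_trans ?_ hb
  apply div_le_div_of_nonneg_right _ hL.le
  norm_num

theorem rh_ge {d L : ℕ} [NeZero L] (k : Tor d L) (hk : k ≠ 0) : 1 / (L : ℝ) ≤ rh k := by
  obtain ⟨j, hj⟩ : ∃ j, k j ≠ 0 := by
    by_contra hcon
    push Not at hcon
    exact hk (funext hcon)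
  refine (sr_sin (k j) hj).trans ?_
  exact le_ciSup (f := fun j => |Real.sin (ang (k j) / 2)|) (Set.finite_range _).bddAbove j

private theorem sr_le_one {d L : ℕ} (k : Tor d L) : rh k ≤ 1 :=
  Real.iSup_le (fun _ => Real.abs_sin_le_one _) zero_le_one

theorem sum_rh (d : ℕ) (hd : 3 ≤ d) (L : ℕ) [NeZero L] :
    ∑ k ∈ (univ : Finset (Tor d L)).filter (fun k => k ≠ 0), 1 / rh k ^ 2 ≤
      8 * 3 ^ d * (L : ℝ) ^ d := by
  classical
  have hL : (0 : ℝ) < L := by exact_mod_cast Nat.pos_of_ne_zero (NeZero.ne L)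
  -- pointwise
  have hpt : ∀ k : Tor d L, k ≠ 0 → 1 / rh k ^ 2 ≤
      ∑ j ∈ range L, if rh k ≤ (1 / 2 : ℝ) ^ j ∧ 1 ≤ (1 / 2 : ℝ) ^ j * L then
        (4 : ℝ) ^ (j + 1) else 0 := by
    intro k hk
    have h1 := rh_ge k hk
    have h0 : 0 < rh k := lt_of_lt_of_le (by positivity) h1
    obtain ⟨n, hn1, hn2⟩ := exists_nat_pow_near_of_lt_one h0 (sr_le_one k)
      (show (0 : ℝ) < 1 / 2 by norm_num) (by norm_num)
    have h2 : 1 ≤ (1 / 2 : ℝ) ^ n * L := by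
      have := h1.trans hn2
      rwa [div_le_iff₀ hL] at this
    have hnL : n < L := by
      have h3 : (2 : ℝ) ^ n ≤ L := by
        have h4 : (2 : ℝ) ^ n * ((1 / 2 : ℝ) ^ n * L) = L := by
          rw [← mul_assoc, ← mul_pow]; norm_num
        calc (2 : ℝ) ^ n = (2 : ℝ) ^ n * 1 := (mul_one _).symm
          _ ≤ (2 : ℝ) ^ n * ((1 / 2 : ℝ) ^ n * L) := by gcongr
          _ = L := h4
      have h5 : 2 ^ n ≤ L := by exact_mod_cast h3
      exact lt_of_lt_of_le Nat.lt_two_pow_self h5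
    have h6 : 1 / rh k ^ 2 ≤ (4 : ℝ) ^ (n + 1) := by
      rw [div_le_iff₀ (by positivity)]
      have h7 : ((1 / 2 : ℝ) ^ (n + 1)) ^ 2 ≤ rh k ^ 2 :=
        pow_le_pow_left₀ (by positivity) hn1.le 2
      have h8 : (4 : ℝ) ^ (n + 1) * ((1 / 2 : ℝ) ^ (n + 1)) ^ 2 = 1 := by
        rw [← pow_mul, mul_comm (n + 1) 2, pow_mul, ← mul_pow]
        norm_num
      calc (1 : ℝ) = (4 : ℝ) ^ (n + 1) * ((1 / 2 : ℝ) ^ (n + 1)) ^ 2 := h8.symm
        _ ≤ _ := by gcongr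
    refine h6.trans ?_
    have h9 : (4 : ℝ) ^ (n + 1) = if rh k ≤ (1 / 2 : ℝ) ^ n ∧ 1 ≤ (1 / 2 : ℝ) ^ n * L then
        (4 : ℝ) ^ (n + 1) else 0 := by rw [if_pos ⟨hn2, h2⟩]
    rw [h9]
    refine single_le_sum (f := fun j => if rh k ≤ (1 / 2 : ℝ) ^ j ∧ 1 ≤ (1 / 2 : ℝ) ^ j * L then
        (4 : ℝ) ^ (j + 1) else 0) (fun j _ => ?_) (mem_range.2 hnL)
    split_ifs
    · positivity
    · exact le_rfl
  have h1 : ∑ k ∈ (univ : Finset (Tor d L)).filter (fun k => k ≠ 0), 1 / rh k ^ 2 ≤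
      ∑ k ∈ (univ : Finset (Tor d L)).filter (fun k => k ≠ 0), ∑ j ∈ range L,
        if rh k ≤ (1 / 2 : ℝ) ^ j ∧ 1 ≤ (1 / 2 : ℝ) ^ j * L then (4 : ℝ) ^ (j + 1) else 0 :=
    sum_le_sum fun k hk => hpt k (mem_filter.1 hk).2
  refine h1.trans ?_
  rw [sum_comm]
  have h2 : ∀ j ∈ range L, ∑ k ∈ (univ : Finset (Tor d L)).filter (fun k => k ≠ 0),
      (if rh k ≤ (1 / 2 : ℝ) ^ j ∧ 1 ≤ (1 / 2 : ℝ) ^ j * L then (4 : ℝ) ^ (j + 1) else 0) ≤
      4 * 2 ^ d * (L : ℝ) ^ d * (1 / 2) ^ j := by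
    intro j _
    by_cases hj : 1 ≤ (1 / 2 : ℝ) ^ j * L
    · have e1 : ∑ k ∈ (univ : Finset (Tor d L)).filter (fun k => k ≠ 0),
          (if rh k ≤ (1 / 2 : ℝ) ^ j ∧ 1 ≤ (1 / 2 : ℝ) ^ j * L then (4 : ℝ) ^ (j + 1) else 0) ≤
          ∑ k ∈ (univ : Finset (Tor d L)),
          (if rh k ≤ (1 / 2 : ℝ) ^ j then (4 : ℝ) ^ (j + 1) else 0) := by
        refine (sum_le_sum fun k _ => ?_).trans (sum_le_sum_of_subset_of_nonneg
          (filter_subset _ _) fun k _ _ => ?_)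
        · by_cases h : rh k ≤ (1 / 2 : ℝ) ^ j
          · rw [if_pos h, if_pos ⟨h, hj⟩]
          · rw [if_neg h, if_neg fun h' => h h'.1]
        · split_ifs
          · positivity
          · exact le_rfl
      refine e1.trans ?_
      rw [← sum_filter, sum_const, nsmul_eq_mul]
      have h3 := count_rh d L ((1 / 2 : ℝ) ^ j) (by positivity)
      have h4 : (1 + (1 / 2 : ℝ) ^ j * L) ^ d ≤ (2 * ((1 / 2 : ℝ) ^ j * L)) ^ d :=
        pow_le_pow_left₀ (by positivity) (by linarith) d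
      have h5 : (4 : ℝ) ^ j * ((1 / 2 : ℝ) ^ j) ^ d ≤ (1 / 2) ^ j := by
        obtain ⟨e, rfl⟩ := Nat.exists_eq_add_of_le hd
        have h6 : (4 : ℝ) ^ j * ((1 / 2 : ℝ) ^ j) ^ (3 + e) =
            (1 / 2) ^ j * ((1 / 2 : ℝ) ^ j) ^ e := by
          rw [pow_add, ← mul_assoc, ← pow_mul, mul_comm j 3, pow_mul, ← mul_pow]
          norm_num
        rw [h6]
        have h7 : ((1 / 2 : ℝ) ^ j) ^ e ≤ 1 :=
          pow_le_one₀ (by positivity) (pow_le_one₀ (by norm_num) (by norm_num))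
        calc (1 / 2 : ℝ) ^ j * ((1 / 2 : ℝ) ^ j) ^ e ≤ (1 / 2 : ℝ) ^ j * 1 := by gcongr
          _ = _ := mul_one _
      calc (((univ : Finset (Tor d L)).filter fun q => rh q ≤ (1 / 2 : ℝ) ^ j).card : ℝ) *
            (4 : ℝ) ^ (j + 1) ≤ (2 * ((1 / 2 : ℝ) ^ j * L)) ^ d * (4 : ℝ) ^ (j + 1) := by
            gcongr
            exact h3.trans h4
        _ = 4 * 2 ^ d * (L : ℝ) ^ d * ((4 : ℝ) ^ j * ((1 / 2 : ℝ) ^ j) ^ d) := by
            rw [mul_pow, mul_pow, pow_succ]; ring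
        _ ≤ 4 * 2 ^ d * (L : ℝ) ^ d * (1 / 2) ^ j := by gcongr
    · rw [sum_eq_zero fun k _ => if_neg fun h => hj h.2]
      positivity
  refine (sum_le_sum h2).trans ?_
  rw [← mul_sum]
  have h3 : ∑ j ∈ range L, (1 / 2 : ℝ) ^ j ≤ 2 := by
    have := (summable_geometric_of_lt_one (by norm_num : (0 : ℝ) ≤ 1 / 2) (by norm_num)).sum_le_tsum
      (range L) (fun _ _ => by positivity)
    rwa [tsum_geometric_of_lt_one (by norm_num) (by norm_num),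
      show ((1 : ℝ) - 1 / 2)⁻¹ = 2 by norm_num] at this
  have h4 : (2 : ℝ) ^ d ≤ 3 ^ d := pow_le_pow_left₀ (by norm_num) (by norm_num) d
  calc 4 * 2 ^ d * (L : ℝ) ^ d * ∑ j ∈ range L, (1 / 2 : ℝ) ^ j
      ≤ 4 * 2 ^ d * (L : ℝ) ^ d * 2 := by gcongr
    _ = 8 * 2 ^ d * (L : ℝ) ^ d := by ring
    _ ≤ _ := by gcongr

end Pool.Agent.APS
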