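import Pool.Agent.APS.RefA
import Pool.Agent.APS.SumRh
import Pool.Agent.Kin.SBd
import Pool.Agent.Kin.Gap
import Pool.Agent.Kin.CntQ

/-! # APS LOWHIGH: low and high modes (section 2 of aps2_proof.md).

`e = 1/8`, `k0 = γ^(1-e) = γ^(7/8)`, `bH = γ^(1/64)`, `ζ = D.zr 0`, `γ = Im ζ = D.et 0`.
For `γ ≤ γ0(d, rlo, rhi)`:
(1) `rh k ≥ k0`: `ST_bound`: `|ST ζ k| ≤ C (1 + log(1/γ))/√(rh γ) ≤ C (1 + log(1/γ)) γ^(-1+1/16)`; `s r² ≤ γ/ρ0`, so
    `s r² |ST| ≤ 1/2`, and `|U| = |ST|/|1 - t ST| ≤ 2 |ST| ≤ bH/γ ≤ bH/η` (`U_eq`); so `k` is not low.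
(2) low `k`: `bH/η < |U| ≤ (ρ0/γ)/(x + t q0)` (`Uabs_le`), so `x + t q0 < ρ0 x/bH`.
(3) `ST_gap` (with `e`, `c0 = rlo`): `q0 k ≥ c (ρ0/γ) (rh k/k0)²` for `rh k ≤ k0`.
(4) `low_inv`: low `k ≠ 0`: `1/qu = x (x + t q0)/q0 ≤ (ρ0 x²/bH)/q0 ≤ x² γ k0²/(c bH rh²)`;
    sum over low `k ≠ 0` by `sum_rh`: `∑ 1/qu ≤ 8·3^d L^d x² γ k0²/(c bH) = kap η² L^d`,
    `kap = C γ^(3/4 - 1/64)`... (`x² γ k0²/bH = η² k0²/(γ bH) = η² γ^(7/4 - 1 - 1/64)`).
(5) `high_qu`: not low: `qu ≥ ρ0/η - bH/η ≥ ρ0/(2η)`.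
(6) `low_count`: `t c (ρ0/γ)(rh/k0)² ≤ t q0 < ρ0 x/bH`, i.e. `(rh/k0)² < x γ/(c t bH)`.  If `t ≥ s/2`:
    `γ/t ≤ 2γ/s ≤ 2(ρ0 + rlo) ≤ 4ρ0` (`zs`), if `t < s/2`: `x = 1 - ρ0 t/γ ≥ 1/2` and `(rh/k0)² ≤ 1 ≤ 2x`.
    So `rh ≤ K := k0 √(C x/bH)`.  `count_rh`: `#low ≤ (1 + K L)^d ≤ (2 K L)^d` since `K L ≥ 1`:
    `K ≥ k0 √x ≥ γ^(7/8) √(η_f/γ) ≥ √η_f √(γ^(3/4)) ≥ η_f` (for `η_f ≤ γ ≤ 1`) and `1/η_f ≤ L`.
    `x ≤ 1`, `d ≥ 3`: `(2K)^d ≤ 2^d k0^d (C/bH)^(d/2) x` , and `x = η/γ`, `k0^d ≤ k0³`,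
    `(C/bH)^(d/2)`: `bH^(-d/2) = γ^(-d/128)`; total `≤ C γ^(7d/8 - d/128 - 1) η ≤ C γ^(3/2) η`
    (`d ≥ 3`: `7d/8 - d/128 - 1 ≥ 1.6`; as `γ ≤ 1`, larger exponents are better).
-/

open Matrix Finset

noncomputable section

namespace Pool.Agent.APS

open Pool.Agent.Kin

/-- `bH` -/
def bHf {d L : ℕ} [NeZero L] (D : Fl (Tor d L)) : ℝ := D.et 0 ^ (1 / 64 : ℝ)

/-- logarithms are beaten by powers -/
private theorem small_log (C α : ℝ) (hα : 0 < α) : ∃ γ0 : ℝ, 0 < γ0 ∧ ∀ γ : ℝ, 0 < γ → γ ≤ γ0 →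
    C * ((1 + Real.log (1 / γ)) * γ ^ α) ≤ 1 := by
  have t1 : Filter.Tendsto (fun γ : ℝ => C * ((1 + Real.log (1 / γ)) * γ ^ α))
      (nhdsWithin 0 (Set.Ioi 0)) (nhds 0) := by
    have a1 := tendsto_log_mul_rpow_nhdsGT_zero (r := α) hα
    have a2 : Filter.Tendsto (fun γ : ℝ => γ ^ α) (nhdsWithin 0 (Set.Ioi 0)) (nhds 0) := by
      have a3 := (Real.continuousAt_rpow_const 0 α (Or.inr hα.le)).tendsto
      rw [Real.zero_rpow hα.ne'] at a3
      exact a3.mono_left nhdsWithin_le_nhds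
    have a4 := (a2.sub a1).const_mul C
    rw [sub_zero, mul_zero] at a4
    refine a4.congr fun γ => ?_
    rw [one_div, Real.log_inv]
    ring
  have h1 := t1.eventually (gt_mem_nhds (show (0 : ℝ) < 1 by norm_num))
  obtain ⟨u, hu, hsub⟩ := mem_nhdsGT_iff_exists_Ioo_subset.1 h1
  refine ⟨u / 2, half_pos hu, fun γ h0 hγ => ?_⟩
  have h2 : γ ∈ Set.Ioo (0 : ℝ) u := ⟨h0, by linarith [show (0 : ℝ) < u from hu]⟩
  exact (hsub h2).le

section Basic

variable {d L : ℕ} [NeZero L] {D : Fl (Tor d L)} {rlo rhi : ℝ}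

/-- the basic numbers -/
private structure Bas (D : Fl (Tor d L)) (rlo rhi r : ℝ) : Prop where
  s0 : 0 < D.s
  g0 : 0 < D.g0.im
  ghi : D.g0.im ≤ rhi
  r2 : r ^ 2 ≤ 1
  ef : D.z.im ≤ D.et r
  er0 : 0 < D.et r
  e0 : 0 < D.et 0
  er : D.et r ≤ D.et 0
  x0 : 0 < xr D r
  x1 : xr D r ≤ 1
  zi : (D.zr 0).im = D.et 0
  st0 : ST (D.zr 0) (0 : Tor d L) = D.g0.im / D.et 0
  sρ : D.s * D.g0.im ≤ D.et 0

private theorem bas (hW : World D rlo rhi) {r : ℝ} (hr : 0 ≤ r) (h1 : r ≤ 1) :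
    Bas D rlo rhi r := by
  have hs : 0 < D.s := by
    unfold Fl.s
    have := hW.lam0
    have := hW.sg0
    positivity
  have hg : 0 < D.g0.im := lt_of_lt_of_le hW.rlo0 hW.lo
  have hr2 : r ^ 2 ≤ 1 := by nlinarith
  have hr20 : 0 ≤ r ^ 2 := sq_nonneg r
  have hsg : 0 < D.s * D.g0.im := mul_pos hs hg
  have e1 : D.et r = D.z.im + D.s * (1 - r ^ 2) * D.g0.im := rfl
  have e2 : D.et 0 = D.z.im + D.s * (1 - 0 ^ 2) * D.g0.im := rfl
  have hz := hW.zim
  have h2 : 0 ≤ D.s * (1 - r ^ 2) * D.g0.im :=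
    mul_nonneg (mul_nonneg hs.le (by linarith)) hg.le
  have h3 : D.s * (1 - r ^ 2) * D.g0.im ≤ D.s * (1 - 0 ^ 2) * D.g0.im := by
    refine mul_le_mul_of_nonneg_right (mul_le_mul_of_nonneg_left ?_ hs.le) hg.le
    linarith
  have hef : D.z.im ≤ D.et r := by rw [e1]; linarith
  have her0 : 0 < D.et r := by linarith
  have he : D.et r ≤ D.et 0 := by rw [e1, e2]; linarith
  have he0 : 0 < D.et 0 := by linarith
  have hzi : (D.zr 0).im = D.et 0 := by
    unfold Fl.zr Fl.et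
    simp [Complex.add_im, Complex.mul_im]
  refine ⟨hs, hg, ?_, hr2, hef, her0, he0, he, div_pos her0 he0, (div_le_one he0).2 he, hzi, ?_, ?_⟩
  · exact (le_abs_self _).trans ((Complex.abs_im_le_norm _).trans hW.hi)
  · rw [ST_zero (D.zr 0) (by rw [hzi]; exact he0), ← hW.fix, hzi]
  · rw [e2]
    nlinarith

private theorem q0_nn (hW : World D rlo rhi) (k : Tor d L) : 0 ≤ q0 D k := by
  unfold q0
  have := abs_ST_le (D.zr 0) k
  have := le_abs_self (ST (D.zr 0) k)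
  linarith

end Basic

private theorem rh_zero' (d L : ℕ) [NeZero L] : rh (0 : Tor d L) = 0 := by
  unfold rh
  have h : ∀ j : Fin d, |Real.sin (ang ((0 : Tor d L) j) / 2)| = 0 := by
    intro j
    simp [ang]
  simp only [h]
  exact Real.iSup_const_zero

theorem low_facts (d : ℕ) (hd : 3 ≤ d) (rlo rhi : ℝ) (hrlo : 0 < rlo) :
    ∃ C γ0 : ℝ, 0 < C ∧ 0 < γ0 ∧ ∀ (L : ℕ) [NeZero L] (D : Fl (Tor d L)),
    World D rlo rhi → D.et 0 ≤ γ0 → ∀ r : ℝ, 0 ≤ r → r ≤ 1 →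
    bHf D ≤ D.g0.im / 2 ∧ (∀ k : Tor d L, k ≠ 0 → 0 < q0 D k) ∧
    (∀ k : Tor d L, k ∉ lowSet D (bHf D) r → D.g0.im / (2 * D.et r) ≤ qu D r k) ∧
    ∑ k ∈ (lowSet D (bHf D) r).filter (fun k => k ≠ 0), 1 / qu D r k ≤
      C * D.et 0 ^ (1 / 2 : ℝ) * D.et r ^ 2 * (L : ℝ) ^ d ∧
    ((lowSet D (bHf D) r).card : ℝ) ≤ C * D.et 0 ^ (3 / 2 : ℝ) * D.et r * (L : ℝ) ^ d := by
  obtain ⟨c, γ1, hc, hγ1, hgap⟩ := ST_gap d hd (1 / 8) rlo (by norm_num) (by norm_num) hrlo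
  obtain ⟨Cb, hCb, hbd⟩ := ST_bound d hd
  obtain ⟨γ2, hγ2, hsm⟩ := small_log (2 * Cb + 2 * Cb / rlo) (3 / 64) (by norm_num)
  set C2 : ℝ := max 2 (4 * |rhi| / c) with hC2
  have hC2' : 2 ≤ C2 := le_max_left _ _
  set C : ℝ := 8 * 3 ^ d / c + 2 ^ d * C2 ^ ((d : ℝ) / 2) with hC
  have hCa : 0 < 8 * 3 ^ d / c := by positivity
  have hCb' : 0 < 2 ^ d * C2 ^ ((d : ℝ) / 2) := by positivity
  have hrl : 0 < (rlo / 2) ^ 64 := by positivity
  refine ⟨C, min (min γ1 γ2) (min 1 ((rlo / 2) ^ 64)), by positivity, ?_, ?_⟩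
  · exact lt_min (lt_min hγ1 hγ2) (lt_min one_pos hrl)
  intro L _ D hW hγ r hr0 hr1
  obtain ⟨hs, hg, hghi, hr2, hef, her0, he0, he, hx0, hx1, hzi, hst0, hsρ⟩ := bas hW hr0 hr1
  have hg1 : D.et 0 ≤ γ1 := hγ.trans ((min_le_left _ _).trans (min_le_left _ _))
  have hg2 : D.et 0 ≤ γ2 := hγ.trans ((min_le_left _ _).trans (min_le_right _ _))
  have hg3 : D.et 0 ≤ (rlo / 2) ^ 64 := hγ.trans ((min_le_right _ _).trans (min_le_right _ _))
  have he1 : D.et 0 ≤ 1 := hW.et1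
  set γ : ℝ := D.et 0 with hγd
  set ρ : ℝ := D.g0.im with hρ
  set η : ℝ := D.et r with hη
  set x : ℝ := xr D r with hx
  have hxe : x = η / γ := rfl
  set t : ℝ := D.s * r ^ 2 with ht
  have ht0 : 0 ≤ t := mul_nonneg hs.le (sq_nonneg r)
  have hts : t ≤ D.s := by
    rw [ht]
    exact mul_le_of_le_one_right hs.le hr2
  have hbH0 : 0 < bHf D := Real.rpow_pos_of_pos he0 _
  have hbH1 : bHf D ≤ 1 := Real.rpow_le_one he0.le he1 (by norm_num)
  have hrloρ : rlo ≤ ρ := hW.lo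
  set bH : ℝ := bHf D with hbH
  have hbHe : bH = γ ^ (1 / 64 : ℝ) := rfl
  -- (i)
  have c1 : bH ≤ ρ / 2 := by
    have h1 : bH ≤ ((rlo / 2) ^ 64) ^ (1 / 64 : ℝ) := Real.rpow_le_rpow he0.le hg3 (by norm_num)
    have h2 : ((rlo / 2) ^ 64) ^ (1 / 64 : ℝ) = rlo / 2 := by
      rw [← Real.rpow_natCast (rlo / 2) 64, ← Real.rpow_mul (by linarith)]
      norm_num
    linarith
  -- the gap
  set k0 : ℝ := γ ^ (7 / 8 : ℝ) with hk0
  have hk00 : 0 < k0 := Real.rpow_pos_of_pos he0 _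
  have hgapk : ∀ k : Tor d L, c * (ρ / γ) * min 1 ((rh k / k0) ^ 2) ≤ q0 D k := by
    intro k
    have h1 := hgap L (D.zr 0) (by rw [hzi]; exact he0) (by rw [hzi]; exact hg1)
      (by rw [hzi]; exact hW.Lb) (by rw [← hW.fix]; exact hW.lo) k
    rw [hst0, hzi] at h1
    have h2 : (1 : ℝ) - 1 / 8 = 7 / 8 := by norm_num
    rw [h2] at h1
    unfold q0
    rw [hst0]
    exact h1
  have hργ : 0 < ρ / γ := div_pos hg he0
  have hL0 : (0 : ℝ) < L := by
    have := NeZero.pos L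
    exact_mod_cast this
  have c2 : ∀ k : Tor d L, k ≠ 0 → 0 < q0 D k := by
    intro k hk
    refine lt_of_lt_of_le ?_ (hgapk k)
    have h1 : 0 < rh k := lt_of_lt_of_le (by positivity) (rh_ge k hk)
    have h2 : 0 < min 1 ((rh k / k0) ^ 2) := lt_min one_pos (by positivity)
    positivity
  -- (iii)
  have c3 : ∀ k : Tor d L, k ∉ lowSet D bH r → ρ / (2 * η) ≤ qu D r k := by
    intro k hk
    unfold lowSet at hk
    rw [Finset.mem_filter, not_and, not_lt] at hk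
    have h1 := hk (Finset.mem_univ k)
    have h2 := (le_abs_self _).trans h1
    have h3 : bH / η ≤ ρ / 2 / η := div_le_div_of_nonneg_right c1 her0.le
    have h4 : ρ / η = ρ / 2 / η + ρ / 2 / η := by ring
    have h5 : ρ / (2 * η) = ρ / 2 / η := by rw [div_div]
    rw [h5]
    linarith
  -- facts on the low modes
  have hlow1 : ∀ k : Tor d L, k ∈ lowSet D bH r → x + t * q0 D k ≤ ρ * x / bH := by
    intro k hk
    unfold lowSet at hk
    rw [Finset.mem_filter] at hk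
    have h1 := hk.2.le.trans (Uabs_le hW her0 k)
    have h2 : 0 < xr D r + D.s * r ^ 2 * q0 D k := by
      have := q0_nn hW k
      have : 0 ≤ D.s * r ^ 2 * q0 D k := mul_nonneg ht0 this
      linarith
    rw [div_le_div_iff₀ her0 h2] at h1
    rw [le_div_iff₀ hbH0]
    change bH * (x + t * q0 D k) ≤ ρ / γ * η at h1
    calc (x + t * q0 D k) * bH = bH * (x + t * q0 D k) := mul_comm _ _
      _ ≤ ρ / γ * η := h1
      _ = ρ * x := by rw [hxe]; ring
  have hlow2 : ∀ k : Tor d L, k ∈ lowSet D bH r → rh k ≤ k0 := by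
    intro k hk
    by_contra hcon
    push Not at hcon
    unfold lowSet at hk
    rw [Finset.mem_filter] at hk
    have h1 := hk.2
    have hrhk : 0 < rh k := hk00.trans hcon
    have hb := hbd L (D.zr 0) (by rw [hzi]; exact he0) (by rw [hzi]; exact he1)
      (by rw [hzi]; exact hW.Lb) k hrhk
    rw [hzi] at hb
    set ℓ : ℝ := 1 + Real.log (1 / γ) with hℓ
    have hℓ1 : 1 ≤ ℓ := by
      have : 0 ≤ Real.log (1 / γ) := Real.log_nonneg (by rw [le_div_iff₀ he0]; linarith)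
      linarith
    have h2 : γ ^ (15 / 16 : ℝ) ≤ √(rh k * γ) := by
      have h3 : γ ^ (15 / 16 : ℝ) = √(k0 * γ) := by
        rw [Real.sqrt_eq_rpow, hk0]
        nth_rewrite 3 [← Real.rpow_one γ]
        rw [← Real.rpow_add he0, ← Real.rpow_mul he0.le]
        norm_num
      rw [h3]
      exact Real.sqrt_le_sqrt (mul_le_mul_of_nonneg_right hcon.le he0.le)
    have h15 : 0 < γ ^ (15 / 16 : ℝ) := Real.rpow_pos_of_pos he0 _
    have h4 : |ST (D.zr 0) k| ≤ Cb * ℓ / γ ^ (15 / 16 : ℝ) :=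
      hb.trans (div_le_div_of_nonneg_left (by positivity) h15 h2)
    have hsm' := hsm γ he0 hg2
    have h364 : 0 < γ ^ (3 / 64 : ℝ) := Real.rpow_pos_of_pos he0 _
    -- `t |ST| ≤ 1/2`
    have h5 : t * |ST (D.zr 0) k| ≤ 1 / 2 := by
      have h6 : t ≤ γ / rlo := by
        refine hts.trans ?_
        rw [le_div_iff₀ hrlo]
        calc D.s * rlo ≤ D.s * ρ := mul_le_mul_of_nonneg_left hrloρ hs.le
          _ ≤ γ := hsρ
      have h7 : γ / γ ^ (15 / 16 : ℝ) = γ ^ (1 / 16 : ℝ) := by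
        nth_rewrite 1 [← Real.rpow_one γ]
        rw [← Real.rpow_sub he0]
        norm_num
      have h8 : γ ^ (1 / 16 : ℝ) ≤ γ ^ (3 / 64 : ℝ) :=
        Real.rpow_le_rpow_of_exponent_ge he0 he1 (by norm_num)
      calc t * |ST (D.zr 0) k| ≤ γ / rlo * (Cb * ℓ / γ ^ (15 / 16 : ℝ)) :=
            mul_le_mul h6 h4 (abs_nonneg _) (by positivity)
        _ = Cb / rlo * (ℓ * (γ / γ ^ (15 / 16 : ℝ))) := by ring
        _ = Cb / rlo * (ℓ * γ ^ (1 / 16 : ℝ)) := by rw [h7]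
        _ ≤ Cb / rlo * (ℓ * γ ^ (3 / 64 : ℝ)) := by
            exact mul_le_mul_of_nonneg_left (mul_le_mul_of_nonneg_left h8 (by linarith))
              (by positivity)
        _ ≤ 1 / 2 := by
            have h9 : 0 ≤ 2 * Cb * (ℓ * γ ^ (3 / 64 : ℝ)) := by positivity
            have h10 : (2 * Cb + 2 * Cb / rlo) * (ℓ * γ ^ (3 / 64 : ℝ)) =
              2 * Cb * (ℓ * γ ^ (3 / 64 : ℝ)) + 2 * (Cb / rlo * (ℓ * γ ^ (3 / 64 : ℝ))) := by ring
            rw [h10] at hsm'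
            linarith
    obtain ⟨hU, -⟩ := U_eq hW her0 k
    have h11 : |ρ / η - qu D r k| ≤ 2 * |ST (D.zr 0) k| := by
      have h12 : 1 / 2 ≤ |1 - t * ST (D.zr 0) k| := by
        have h13 : |t * ST (D.zr 0) k| ≤ 1 / 2 := by rw [abs_mul, abs_of_nonneg ht0]; exact h5
        have h14 := abs_le.1 h13
        rw [abs_of_pos (by linarith)]
        linarith
      have h15' : ρ / η - qu D r k = ST (D.zr 0) k / (1 - t * ST (D.zr 0) k) := hU
      rw [h15', abs_div, div_le_iff₀ (by linarith)]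
      have := abs_nonneg (ST (D.zr 0) k)
      nlinarith
    have h16 : 2 * |ST (D.zr 0) k| ≤ bH / γ := by
      have h17 : bH / γ = γ ^ (1 / 64 : ℝ) / γ := rfl
      have h18 : γ ^ (1 / 64 : ℝ) / γ = 1 / γ ^ (15 / 16 : ℝ) / γ ^ (3 / 64 : ℝ) := by
        rw [div_div, ← Real.rpow_add he0, eq_div_iff (by positivity), div_mul_eq_mul_div,
          ← Real.rpow_add he0]
        have : (1 / 64 : ℝ) + (15 / 16 + 3 / 64) = 1 := by norm_num
        rw [this, Real.rpow_one, div_self he0.ne']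
      rw [h17, h18, le_div_iff₀ h364]
      have h19 : 2 * Cb * (ℓ * γ ^ (3 / 64 : ℝ)) ≤ 1 := by
        have h20 : 0 ≤ 2 * Cb / rlo * (ℓ * γ ^ (3 / 64 : ℝ)) := by positivity
        have h10 : (2 * Cb + 2 * Cb / rlo) * (ℓ * γ ^ (3 / 64 : ℝ)) =
            2 * Cb * (ℓ * γ ^ (3 / 64 : ℝ)) + 2 * Cb / rlo * (ℓ * γ ^ (3 / 64 : ℝ)) := by ring
        rw [h10] at hsm'
        linarith
      calc 2 * |ST (D.zr 0) k| * γ ^ (3 / 64 : ℝ)
          ≤ 2 * (Cb * ℓ / γ ^ (15 / 16 : ℝ)) * γ ^ (3 / 64 : ℝ) :=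
            mul_le_mul_of_nonneg_right (by linarith) h364.le
        _ = 2 * Cb * (ℓ * γ ^ (3 / 64 : ℝ)) / γ ^ (15 / 16 : ℝ) := by ring
        _ ≤ 1 / γ ^ (15 / 16 : ℝ) := div_le_div_of_nonneg_right h19 h15.le
    have h21 : bH / γ ≤ bH / η := div_le_div_of_nonneg_left hbH0.le her0 he
    have h22 : |ρ / η - qu D r k| ≤ bH / η := h11.trans (h16.trans h21)
    exact absurd h1 (not_lt.2 h22)
  have hgap2 : ∀ k : Tor d L, k ∈ lowSet D bH r → c * (ρ / γ) * (rh k / k0) ^ 2 ≤ q0 D k := by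
    intro k hk
    have h1 := hgapk k
    have h2 : (rh k / k0) ^ 2 ≤ 1 := by
      have h3 : rh k / k0 ≤ 1 := (div_le_one hk00).2 (hlow2 k hk)
      have h4 : 0 ≤ rh k / k0 := div_nonneg (rh_nonneg k) hk00.le
      nlinarith
    rwa [min_eq_right h2] at h1
  refine ⟨c1, c2, c3, ?_, ?_⟩
  · -- the sum over the low modes
    set κ : ℝ := γ ^ (47 / 64 : ℝ) * η ^ 2 / c with hκ
    have hκ0 : 0 ≤ κ := by positivity
    have h1 : ∀ k ∈ (lowSet D bH r).filter (fun k => k ≠ 0), 1 / qu D r k ≤ κ * (1 / rh k ^ 2) := by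
      intro k hk
      rw [Finset.mem_filter] at hk
      obtain ⟨hk1, hk2⟩ := hk
      have hq := c2 k hk2
      have hrh : 0 < rh k := lt_of_lt_of_le (by positivity) (rh_ge k hk2)
      have h2 : 1 / qu D r k = x * (x + t * q0 D k) / q0 D k := by
        unfold qu
        rw [one_div_div]
      rw [h2]
      have h3 : x * (x + t * q0 D k) / q0 D k ≤ x * (ρ * x / bH) / q0 D k :=
        div_le_div_of_nonneg_right (mul_le_mul_of_nonneg_left (hlow1 k hk1) hx0.le) hq.le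
      have h4 : x * (ρ * x / bH) / q0 D k ≤
          x * (ρ * x / bH) / (c * (ρ / γ) * (rh k / k0) ^ 2) :=
        div_le_div_of_nonneg_left (by positivity) (by positivity) (hgap2 k hk1)
      have h5 : k0 ^ 2 / (γ * bH) = γ ^ (47 / 64 : ℝ) := by
        rw [hk0, hbHe, ← Real.rpow_natCast, ← Real.rpow_mul he0.le, div_eq_iff (by positivity)]
        nth_rewrite 3 [← Real.rpow_one γ]
        rw [← Real.rpow_add he0, ← Real.rpow_add he0]
        norm_num
      refine h3.trans (h4.trans (le_of_eq ?_))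
      rw [hκ, ← h5, hxe]
      field_simp
    have h6 : ∑ k ∈ (lowSet D bH r).filter (fun k => k ≠ 0), 1 / rh k ^ 2 ≤
        8 * 3 ^ d * (L : ℝ) ^ d := by
      refine le_trans ?_ (sum_rh d hd L)
      refine Finset.sum_le_sum_of_subset_of_nonneg ?_ fun k _ _ => by positivity
      exact Finset.filter_subset_filter _ (Finset.subset_univ _)
    calc ∑ k ∈ (lowSet D bH r).filter (fun k => k ≠ 0), 1 / qu D r k
        ≤ ∑ k ∈ (lowSet D bH r).filter (fun k => k ≠ 0), κ * (1 / rh k ^ 2) :=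
          Finset.sum_le_sum h1
      _ = κ * ∑ k ∈ (lowSet D bH r).filter (fun k => k ≠ 0), 1 / rh k ^ 2 := by
          rw [Finset.mul_sum]
      _ ≤ κ * (8 * 3 ^ d * (L : ℝ) ^ d) := mul_le_mul_of_nonneg_left h6 hκ0
      _ = 8 * 3 ^ d / c * γ ^ (47 / 64 : ℝ) * η ^ 2 * (L : ℝ) ^ d := by rw [hκ]; ring
      _ ≤ C * γ ^ (1 / 2 : ℝ) * η ^ 2 * (L : ℝ) ^ d := by
          have h7 : γ ^ (47 / 64 : ℝ) ≤ γ ^ (1 / 2 : ℝ) :=
            Real.rpow_le_rpow_of_exponent_ge he0 he1 (by norm_num)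
          have h8 : 8 * 3 ^ d / c * γ ^ (47 / 64 : ℝ) ≤ C * γ ^ (1 / 2 : ℝ) :=
            mul_le_mul (by linarith) h7 (by positivity) (by positivity)
          exact mul_le_mul_of_nonneg_right (mul_le_mul_of_nonneg_right h8 (by positivity))
            (by positivity)
  · -- the number of low modes
    set K : ℝ := k0 * √(C2 * x / bH) with hKd
    have hK0 : 0 < K := by positivity
    have h1 : ∀ k : Tor d L, k ∈ lowSet D bH r → rh k ≤ K := by
      intro k hk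
      have h2 : (rh k / k0) ^ 2 ≤ C2 * x / bH := by
        have hq := hgap2 k hk
        by_cases htt : D.s / 2 ≤ t
        · have h3 := hlow1 k hk
          have h4 : t * q0 D k ≤ ρ * x / bH := by linarith
          have h5 : t * (c * (ρ / γ) * (rh k / k0) ^ 2) ≤ ρ * x / bH :=
            (mul_le_mul_of_nonneg_left hq ht0).trans h4
          -- `γ ≤ 4 ρ t`
          have h6 : γ ≤ 4 * ρ * t := by
            have e2 : γ = D.z.im + D.s * (1 - 0 ^ 2) * ρ := rfl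
            have h7 := hW.zs
            have h8 : D.s * rlo ≤ D.s * ρ := mul_le_mul_of_nonneg_left hrloρ hs.le
            have h9 : D.s * ρ ≤ 2 * (t * ρ) := by nlinarith
            rw [e2]
            nlinarith
          have h10 : c * (rh k / k0) ^ 2 * (ρ * t / γ) ≤ ρ * x / bH := by
            calc c * (rh k / k0) ^ 2 * (ρ * t / γ) = t * (c * (ρ / γ) * (rh k / k0) ^ 2) := by ring
              _ ≤ ρ * x / bH := h5
          have h11 : 1 / 4 ≤ ρ * t / γ := by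
            rw [le_div_iff₀ he0]
            linarith
          have h12 : c * (rh k / k0) ^ 2 * (1 / 4) ≤ ρ * x / bH :=
            (mul_le_mul_of_nonneg_left h11 (by positivity)).trans h10
          have h13 : (rh k / k0) ^ 2 ≤ 4 * ρ / c * x / bH := by
            have h14 : 4 * ρ / c * x / bH = (ρ * x / bH) * 4 / c := by ring
            rw [h14, le_div_iff₀ hc]
            linarith
          refine h13.trans ?_
          have h15 : 4 * ρ / c ≤ C2 := by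
            refine le_trans ?_ (le_max_right _ _)
            have h16 : ρ ≤ |rhi| := hghi.trans (le_abs_self _)
            exact div_le_div_of_nonneg_right (by linarith) hc.le
          exact div_le_div_of_nonneg_right (mul_le_mul_of_nonneg_right h15 hx0.le) hbH0.le
        · push Not at htt
          have h3 : 1 / 2 ≤ x := by
            rw [hxe, le_div_iff₀ he0]
            have e1 : η = D.z.im + D.s * (1 - r ^ 2) * ρ := rfl
            have e2 : γ = D.z.im + D.s * (1 - 0 ^ 2) * ρ := rfl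
            have e3 : η = D.z.im + (D.s - t) * ρ := by rw [e1, ht]; ring
            have h4 := hW.zim
            have h5 : D.s / 2 * ρ ≤ (D.s - t) * ρ := by nlinarith
            rw [e3, e2]
            linarith
          have h4 : (rh k / k0) ^ 2 ≤ 1 := by
            have h3 : rh k / k0 ≤ 1 := (div_le_one hk00).2 (hlow2 k hk)
            have h4 : 0 ≤ rh k / k0 := div_nonneg (rh_nonneg k) hk00.le
            nlinarith
          refine h4.trans ?_
          rw [le_div_iff₀ hbH0]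
          nlinarith
      have h3 : rh k / k0 ≤ √(C2 * x / bH) := by
        rw [← Real.sqrt_sq (div_nonneg (rh_nonneg k) hk00.le)]
        exact Real.sqrt_le_sqrt h2
      rw [div_le_iff₀ hk00] at h3
      rw [hKd, mul_comm]
      exact h3
    have hcard : ((lowSet D bH r).card : ℝ) ≤ (1 + K * L) ^ d := by
      refine le_trans ?_ (count_rh d L K hK0.le)
      exact_mod_cast Finset.card_le_card fun k hk =>
        Finset.mem_filter.2 ⟨Finset.mem_univ k, h1 k hk⟩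
    -- `K L ≥ 1`
    have hKL : 1 ≤ K * L := by
      have hz := hW.zim
      have h2 : √x ≤ √(C2 * x / bH) := by
        apply Real.sqrt_le_sqrt
        rw [le_div_iff₀ hbH0]
        nlinarith
      have h3 : √(D.z.im / γ) ≤ √x := Real.sqrt_le_sqrt (div_le_div_of_nonneg_right hef he0.le)
      have h4 : D.z.im ≤ K := by
        have h5 : √(D.z.im / γ) = √D.z.im / √γ := Real.sqrt_div hz.le _
        have h6 : k0 * (√D.z.im / √γ) ≤ K := by
          rw [← h5]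
          exact mul_le_mul_of_nonneg_left (h3.trans h2) hk00.le
        refine le_trans ?_ h6
        have h7 : D.z.im = √D.z.im * √D.z.im := (Real.mul_self_sqrt hz.le).symm
        have h8 : √D.z.im ≤ √γ := Real.sqrt_le_sqrt (hef.trans he)
        have h9 : √γ * √γ ≤ k0 := by
          rw [Real.mul_self_sqrt he0.le, hk0]
          nth_rewrite 1 [← Real.rpow_one γ]
          exact Real.rpow_le_rpow_of_exponent_ge he0 he1 (by norm_num)
        have h10 : 0 < √γ := Real.sqrt_pos.2 he0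
        rw [mul_div_assoc', le_div_iff₀ h10]
        calc D.z.im * √γ = √D.z.im * √D.z.im * √γ := by rw [← h7]
          _ ≤ √D.z.im * √γ * √γ := by
              exact mul_le_mul_of_nonneg_right
                (mul_le_mul_of_nonneg_left h8 (Real.sqrt_nonneg _)) h10.le
          _ = √γ * √γ * √D.z.im := by ring
          _ ≤ k0 * √D.z.im := mul_le_mul_of_nonneg_right h9 (Real.sqrt_nonneg _)
      have h11 := hW.Lz
      rw [div_le_iff₀ hz] at h11
      calc (1 : ℝ) ≤ L * D.z.im := h11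
        _ ≤ L * K := mul_le_mul_of_nonneg_left h4 hL0.le
        _ = K * L := mul_comm _ _
    have hcard2 : ((lowSet D bH r).card : ℝ) ≤ 2 ^ d * K ^ d * (L : ℝ) ^ d := by
      refine hcard.trans ?_
      rw [← mul_pow, ← mul_pow]
      refine pow_le_pow_left₀ (by positivity) ?_ d
      linarith
    have hKd' : K ^ d ≤ C2 ^ ((d : ℝ) / 2) * γ ^ (3 / 2 : ℝ) * η := by
      have h2 : K ^ d = k0 ^ (d : ℝ) * (C2 * x / bH) ^ ((d : ℝ) / 2) := by
        rw [hKd, mul_pow, ← Real.rpow_natCast k0 d]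
        congr 1
        rw [Real.sqrt_eq_rpow, ← Real.rpow_natCast, ← Real.rpow_mul (by positivity)]
        congr 1
        ring
      have h3 : (C2 * x / bH) ^ ((d : ℝ) / 2) =
          C2 ^ ((d : ℝ) / 2) * x ^ ((d : ℝ) / 2) / bH ^ ((d : ℝ) / 2) := by
        rw [Real.div_rpow (by positivity) hbH0.le, Real.mul_rpow (by positivity) hx0.le]
      have hd3 : (3 : ℝ) ≤ d := by exact_mod_cast hd
      have h4 : x ^ ((d : ℝ) / 2) ≤ x := by
        nth_rewrite 2 [← Real.rpow_one x]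
        exact Real.rpow_le_rpow_of_exponent_ge hx0 hx1 (by linarith)
      have h5 : k0 ^ (d : ℝ) / bH ^ ((d : ℝ) / 2) = γ ^ ((7 / 8 - 1 / 128) * (d : ℝ)) := by
        rw [hk0, hbHe, ← Real.rpow_mul he0.le, ← Real.rpow_mul he0.le, ← Real.rpow_sub he0]
        congr 1
        ring
      have h6 : γ ^ ((7 / 8 - 1 / 128) * (d : ℝ)) ≤ γ ^ (5 / 2 : ℝ) :=
        Real.rpow_le_rpow_of_exponent_ge he0 he1 (by nlinarith)
      have h7 : γ ^ (5 / 2 : ℝ) * x = γ ^ (3 / 2 : ℝ) * η := by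
        have h8 : γ ^ (5 / 2 : ℝ) = γ ^ (3 / 2 : ℝ) * γ := by
          nth_rewrite 3 [← Real.rpow_one γ]
          rw [← Real.rpow_add he0]
          norm_num
        rw [h8, hxe]
        field_simp
      calc K ^ d = C2 ^ ((d : ℝ) / 2) * (k0 ^ (d : ℝ) / bH ^ ((d : ℝ) / 2)) *
            x ^ ((d : ℝ) / 2) := by rw [h2, h3]; ring
        _ ≤ C2 ^ ((d : ℝ) / 2) * γ ^ (5 / 2 : ℝ) * x := by
            rw [h5]
            exact mul_le_mul (mul_le_mul_of_nonneg_left h6 (by positivity)) h4 (by positivity)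
              (by positivity)
        _ = C2 ^ ((d : ℝ) / 2) * γ ^ (3 / 2 : ℝ) * η := by rw [mul_assoc, h7]; ring
    calc ((lowSet D bH r).card : ℝ) ≤ 2 ^ d * K ^ d * (L : ℝ) ^ d := hcard2
      _ ≤ 2 ^ d * (C2 ^ ((d : ℝ) / 2) * γ ^ (3 / 2 : ℝ) * η) * (L : ℝ) ^ d := by
          exact mul_le_mul_of_nonneg_right (mul_le_mul_of_nonneg_left hKd' (by positivity))
            (by positivity)
      _ = 2 ^ d * C2 ^ ((d : ℝ) / 2) * (γ ^ (3 / 2 : ℝ) * η) * (L : ℝ) ^ d := by ring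
      _ ≤ C * (γ ^ (3 / 2 : ℝ) * η) * (L : ℝ) ^ d := by
          have h2 : 2 ^ d * C2 ^ ((d : ℝ) / 2) ≤ C := by linarith
          exact mul_le_mul_of_nonneg_right (mul_le_mul_of_nonneg_right h2 (by positivity))
            (by positivity)
      _ = C * γ ^ (3 / 2 : ℝ) * η * (L : ℝ) ^ d := by ring

end Pool.Agent.APS
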