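import Pool.Agent.APS.Defs

/-! # APS NOISEPOLY: the noise polynomial `∑_A θ^|A| (1-θ)^|Aᶜ| J(A)`.

`wA θ A = θ^|A| (1-θ)^(n-|A|)`, `n = card ι`.
* `deriv`: the derivative of `∑_A wA θ A J(A)` is
  `∑_a ∑_{A ∌ a} θ^|A| (1-θ)^(n-1-|A|) (J(insert a A) - J(A))`.
  (`wA' = |A| θ^(|A|-1)(1-θ)^(n-|A|) - (n-|A|) θ^|A| (1-θ)^(n-|A|-1)`; write `|A| = ∑_{a∈A} 1` and
  `n - |A| = ∑_{a∉A} 1` and use the bijection `A ↦ insert a A` of sets without `a` with sets with `a`.)
* sums: `∑_A wA = 1`, `∑_{A ∌ a} θ^|A| (1-θ)^(n-1-|A|) = 1` (binomial; `Finset.sum_pow_mul_eq_add_pow`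
  or `Finset.prod_add`).
* `bound`: if for all `a` and `A ∌ a`: `J(insert a A) - J(A) ≤ s c a + (1/s) m a (insert a A)` for every
  `s > 0` with `∑_a c a ≤ Q` and `∑_{a ∈ B} m a B ≤ k B`, `∑_B wA θ B k B ≤ Q` for all `θ ∈ [0,1]`, then
  `J(univ) - J(∅) ≤ 4 Q`.
  Proof: for `θ ∈ (0,1)`, take `s = θ^(-1/2)`: the derivative is at most
  `s Q + (1/s) ∑_a ∑_{A ∌ a} θ^|A| (1-θ)^(n-1-|A|) m a (insert a A)
   = s Q + (1/(s θ)) ∑_B wA θ B ∑_{a∈B} m a B ≤ θ^(-1/2) Q + θ^(-1/2) Q`;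
  so `ψ(θ) - 4 Q √θ` is antitone on `(0,1)` and continuous on `[0,1]`.
-/

open Finset

noncomputable section

namespace Pool.Agent.APS

variable {ι : Type} [Fintype ι] [DecidableEq ι]

/-- the weight of the set `A` -/
def wA (θ : ℝ) (A : Finset ι) : ℝ := θ ^ A.card * (1 - θ) ^ (Fintype.card ι - A.card)

omit [DecidableEq ι] in
theorem sum_wA (θ : ℝ) : ∑ A : Finset ι, wA θ A = 1 := by
  unfold wA
  rw [Fintype.sum_pow_mul_eq_add_pow]
  simp

/-- sets with `a` and sets without `a` -/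
private theorem sum_insert_bij (a : ι) (F : Finset ι → ℝ) :
    ∑ A ∈ univ.filter (fun A : Finset ι => a ∈ A), F A =
      ∑ A ∈ univ.filter (fun A : Finset ι => a ∉ A), F (insert a A) := by
  refine Finset.sum_bij' (fun A _ => A.erase a) (fun A _ => insert a A) ?_ ?_ ?_ ?_ ?_
  · intro A _
    simp
  · intro A _
    simp
  · intro A hA
    exact Finset.insert_erase (Finset.mem_filter.1 hA).2
  · intro A hA
    exact Finset.erase_insert (Finset.mem_filter.1 hA).2
  · intro A hA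
    rw [Finset.insert_erase (Finset.mem_filter.1 hA).2]

private theorem sum_mem_swap (F : ι → Finset ι → ℝ) :
    ∑ A : Finset ι, ∑ a ∈ A, F a A =
      ∑ a, ∑ A ∈ univ.filter (fun A : Finset ι => a ∉ A), F a (insert a A) := by
  have h1 : ∑ A : Finset ι, ∑ a ∈ A, F a A = ∑ A : Finset ι, ∑ a, if a ∈ A then F a A else 0 := by
    refine Finset.sum_congr rfl fun A _ => ?_
    rw [← Finset.sum_filter]
    congr 1
    ext a
    simp
  rw [h1, Finset.sum_comm]
  refine Finset.sum_congr rfl fun a _ => ?_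
  rw [← Finset.sum_filter]
  exact sum_insert_bij a (F a)

private theorem sum_notMem_swap (F : ι → Finset ι → ℝ) :
    ∑ A : Finset ι, ∑ a ∈ Aᶜ, F a A =
      ∑ a, ∑ A ∈ univ.filter (fun A : Finset ι => a ∉ A), F a A := by
  have h1 : ∑ A : Finset ι, ∑ a ∈ Aᶜ, F a A =
      ∑ A : Finset ι, ∑ a, if a ∉ A then F a A else 0 := by
    refine Finset.sum_congr rfl fun A _ => ?_
    rw [← Finset.sum_filter]
    congr 1
    ext a
    simp
  rw [h1, Finset.sum_comm]
  refine Finset.sum_congr rfl fun a _ => ?_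
  rw [← Finset.sum_filter]

private theorem sum_without (a : ι) (θ : ℝ) :
    ∑ A ∈ univ.filter (fun A : Finset ι => a ∉ A),
      θ ^ A.card * (1 - θ) ^ (Fintype.card ι - 1 - A.card) = 1 := by
  have h := Finset.sum_pow_mul_eq_add_pow θ (1 - θ) (univ.erase a)
  have h1 : (univ.filter (fun A : Finset ι => a ∉ A)) = (univ.erase a).powerset := by
    ext A
    rw [Finset.mem_filter, Finset.mem_powerset]
    constructor
    · rintro ⟨_, h⟩ x hx
      rw [Finset.mem_erase]
      exact ⟨fun hxa => h (hxa ▸ hx), Finset.mem_univ _⟩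
    · intro h
      exact ⟨Finset.mem_univ _, fun hx => (Finset.mem_erase.1 (h hx)).1 rfl⟩
  rw [h1]
  rw [Finset.card_erase_of_mem (Finset.mem_univ a), Finset.card_univ] at h
  rw [h]
  simp

private theorem wA_deriv (θ : ℝ) (A : Finset ι) :
    HasDerivAt (fun θ : ℝ => wA θ A)
      (∑ _a ∈ A, θ ^ (A.card - 1) * (1 - θ) ^ (Fintype.card ι - A.card) -
        ∑ _a ∈ Aᶜ, θ ^ A.card * (1 - θ) ^ (Fintype.card ι - 1 - A.card)) θ := by
  unfold wA
  have h1 : HasDerivAt (fun θ : ℝ => θ ^ A.card) (A.card * θ ^ (A.card - 1)) θ :=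
    hasDerivAt_pow _ _
  have h2 : HasDerivAt (fun θ : ℝ => (1 - θ) ^ (Fintype.card ι - A.card))
      (((Fintype.card ι - A.card : ℕ) : ℝ) * (1 - θ) ^ (Fintype.card ι - A.card - 1) * (-1)) θ := by
    have h3 : HasDerivAt (fun θ : ℝ => 1 - θ) (-1) θ := by
      simpa using (hasDerivAt_id θ).const_sub 1
    exact h3.pow (Fintype.card ι - A.card)
  have h := h1.mul h2
  refine HasDerivAt.congr_deriv h ?_
  rw [Finset.sum_const, Finset.sum_const, nsmul_eq_mul, nsmul_eq_mul, Finset.card_compl]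
  have h4 : Fintype.card ι - 1 - A.card = Fintype.card ι - A.card - 1 := by omega
  rw [h4]
  ring

private theorem psi_deriv (J : Finset ι → ℝ) (θ : ℝ) :
    HasDerivAt (fun θ : ℝ => ∑ A : Finset ι, wA θ A * J A)
      (∑ a, ∑ A ∈ univ.filter (fun A : Finset ι => a ∉ A),
        θ ^ A.card * (1 - θ) ^ (Fintype.card ι - 1 - A.card) * (J (insert a A) - J A)) θ := by
  have h1 : HasDerivAt (fun θ : ℝ => ∑ A : Finset ι, wA θ A * J A)
      (∑ A : Finset ι, (∑ _a ∈ A, θ ^ (A.card - 1) * (1 - θ) ^ (Fintype.card ι - A.card) -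
        ∑ _a ∈ Aᶜ, θ ^ A.card * (1 - θ) ^ (Fintype.card ι - 1 - A.card)) * J A) θ := by
    refine HasDerivAt.fun_sum fun A _ => ?_
    exact (wA_deriv θ A).mul_const (J A)
  refine HasDerivAt.congr_deriv h1 ?_
  have h2 : ∑ A : Finset ι, (∑ _a ∈ A, θ ^ (A.card - 1) * (1 - θ) ^ (Fintype.card ι - A.card) -
        ∑ _a ∈ Aᶜ, θ ^ A.card * (1 - θ) ^ (Fintype.card ι - 1 - A.card)) * J A =
      ∑ A : Finset ι, ∑ a ∈ A, (fun (_ : ι) (A : Finset ι) =>
        θ ^ (A.card - 1) * (1 - θ) ^ (Fintype.card ι - A.card) * J A) a A -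
      ∑ A : Finset ι, ∑ a ∈ Aᶜ, (fun (_ : ι) (A : Finset ι) =>
        θ ^ A.card * (1 - θ) ^ (Fintype.card ι - 1 - A.card) * J A) a A := by
    rw [← Finset.sum_sub_distrib]
    refine Finset.sum_congr rfl fun A _ => ?_
    rw [sub_mul, Finset.sum_mul, Finset.sum_mul]
  rw [h2, sum_mem_swap, sum_notMem_swap, ← Finset.sum_sub_distrib]
  refine Finset.sum_congr rfl fun a _ => ?_
  rw [← Finset.sum_sub_distrib]
  refine Finset.sum_congr rfl fun A hA => ?_
  have ha : a ∉ A := (Finset.mem_filter.1 hA).2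
  rw [Finset.card_insert_of_notMem ha]
  have h3 : Fintype.card ι - (A.card + 1) = Fintype.card ι - 1 - A.card := by omega
  rw [h3, Nat.add_sub_cancel]
  ring

private theorem deriv_bound (J : Finset ι → ℝ) (c : ι → ℝ) (m : ι → Finset ι → ℝ)
    (k : Finset ι → ℝ) (Q : ℝ)
    (h1 : ∀ a, ∀ A : Finset ι, a ∉ A → ∀ s : ℝ, 0 < s →
      J (insert a A) - J A ≤ s * c a + 1 / s * m a (insert a A))
    (h2 : ∑ a, c a ≤ Q) (h3 : ∀ B : Finset ι, ∑ a ∈ B, m a B ≤ k B)
    {θ : ℝ} (h0 : 0 < θ) (h0' : θ < 1) (h4 : ∑ B : Finset ι, wA θ B * k B ≤ Q) {s : ℝ}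
    (hs : 0 < s) :
    ∑ a, ∑ A ∈ univ.filter (fun A : Finset ι => a ∉ A),
        θ ^ A.card * (1 - θ) ^ (Fintype.card ι - 1 - A.card) * (J (insert a A) - J A) ≤
      s * Q + 1 / s * (Q / θ) := by
  have h5 : ∑ a, ∑ A ∈ univ.filter (fun A : Finset ι => a ∉ A),
        θ ^ A.card * (1 - θ) ^ (Fintype.card ι - 1 - A.card) * (J (insert a A) - J A) ≤
      ∑ a, (s * c a + 1 / s * ∑ A ∈ univ.filter (fun A : Finset ι => a ∉ A),
        θ ^ A.card * (1 - θ) ^ (Fintype.card ι - 1 - A.card) * m a (insert a A)) := by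
    refine Finset.sum_le_sum fun a _ => ?_
    have h6 : ∑ A ∈ univ.filter (fun A : Finset ι => a ∉ A),
        θ ^ A.card * (1 - θ) ^ (Fintype.card ι - 1 - A.card) * (J (insert a A) - J A) ≤
        ∑ A ∈ univ.filter (fun A : Finset ι => a ∉ A),
        (θ ^ A.card * (1 - θ) ^ (Fintype.card ι - 1 - A.card) * (s * c a) +
          1 / s * (θ ^ A.card * (1 - θ) ^ (Fintype.card ι - 1 - A.card) *
            m a (insert a A))) := by
      refine Finset.sum_le_sum fun A hA => ?_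
      have hw : 0 ≤ θ ^ A.card * (1 - θ) ^ (Fintype.card ι - 1 - A.card) := by
        have : 0 ≤ 1 - θ := by linarith
        positivity
      have := mul_le_mul_of_nonneg_left (h1 a A (Finset.mem_filter.1 hA).2 s hs) hw
      refine this.trans (le_of_eq ?_)
      ring
    refine h6.trans (le_of_eq ?_)
    rw [Finset.sum_add_distrib, ← Finset.sum_mul, sum_without, ← Finset.mul_sum, one_mul]
  refine h5.trans ?_
  rw [Finset.sum_add_distrib, ← Finset.mul_sum, ← Finset.mul_sum]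
  have h6 : ∑ a, ∑ A ∈ univ.filter (fun A : Finset ι => a ∉ A),
        θ ^ A.card * (1 - θ) ^ (Fintype.card ι - 1 - A.card) * m a (insert a A) ≤ Q / θ := by
    have h7 := sum_mem_swap (fun (a : ι) (A : Finset ι) =>
      θ ^ (A.card - 1) * (1 - θ) ^ (Fintype.card ι - A.card) * m a A)
    have h8 : ∑ a, ∑ A ∈ univ.filter (fun A : Finset ι => a ∉ A),
        θ ^ A.card * (1 - θ) ^ (Fintype.card ι - 1 - A.card) * m a (insert a A) =
        ∑ A : Finset ι, ∑ a ∈ A,
          θ ^ (A.card - 1) * (1 - θ) ^ (Fintype.card ι - A.card) * m a A := by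
      rw [h7]
      refine Finset.sum_congr rfl fun a _ => Finset.sum_congr rfl fun A hA => ?_
      have ha : a ∉ A := (Finset.mem_filter.1 hA).2
      rw [Finset.card_insert_of_notMem ha]
      have h3 : Fintype.card ι - (A.card + 1) = Fintype.card ι - 1 - A.card := by omega
      rw [h3, Nat.add_sub_cancel]
    rw [h8, le_div_iff₀ h0, Finset.sum_mul]
    refine le_trans (Finset.sum_le_sum fun B _ => ?_) h4
    have h9 : (∑ a ∈ B, θ ^ (B.card - 1) * (1 - θ) ^ (Fintype.card ι - B.card) * m a B) * θ =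
        wA θ B * ∑ a ∈ B, m a B := by
      rcases Finset.eq_empty_or_nonempty B with hB | hB
      · rw [hB]
        simp
      · have hc : 0 < B.card := Finset.card_pos.2 hB
        rw [← Finset.mul_sum]
        unfold wA
        have h10 : θ ^ B.card = θ ^ (B.card - 1) * θ := by
          rw [← pow_succ]
          congr 1
          omega
        rw [h10]
        ring
    rw [h9]
    refine mul_le_mul_of_nonneg_left (h3 B) ?_
    unfold wA
    have : 0 ≤ 1 - θ := by linarith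
    positivity
  have h7 := mul_le_mul_of_nonneg_left h2 hs.le
  have h8 := mul_le_mul_of_nonneg_left h6 (one_div_pos.2 hs).le
  exact add_le_add h7 h8

theorem noise_bound (J : Finset ι → ℝ) (c : ι → ℝ) (m : ι → Finset ι → ℝ) (k : Finset ι → ℝ)
    (Q : ℝ) (hQ : 0 ≤ Q)
    (h1 : ∀ a, ∀ A : Finset ι, a ∉ A → ∀ s : ℝ, 0 < s →
      J (insert a A) - J A ≤ s * c a + 1 / s * m a (insert a A))
    (h2 : ∑ a, c a ≤ Q) (h3 : ∀ B : Finset ι, ∑ a ∈ B, m a B ≤ k B)
    (h4 : ∀ θ ∈ Set.Icc (0 : ℝ) 1, ∑ B : Finset ι, wA θ B * k B ≤ Q) :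
    J univ - J ∅ ≤ 4 * Q := by
  set ψ : ℝ → ℝ := fun θ => ∑ A : Finset ι, wA θ A * J A with hψ
  have hψ1 : ψ 1 = J univ := by
    rw [hψ]
    dsimp only
    rw [Finset.sum_eq_single (univ : Finset ι)]
    · simp [wA, Finset.card_univ]
    · intro A _ hA
      have hc : A.card < Fintype.card ι := by
        rw [← Finset.card_univ]
        exact Finset.card_lt_card (Finset.ssubset_univ_iff.2 hA)
      unfold wA
      rw [sub_self, zero_pow (by omega), mul_zero, zero_mul]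
    · intro h
      exact absurd (Finset.mem_univ _) h
  have hψ0 : ψ 0 = J ∅ := by
    rw [hψ]
    dsimp only
    rw [Finset.sum_eq_single (∅ : Finset ι)]
    · simp [wA]
    · intro A _ hA
      have hc : 0 < A.card := Finset.card_pos.2 (Finset.nonempty_iff_ne_empty.2 hA)
      unfold wA
      rw [zero_pow (by omega), zero_mul, zero_mul]
    · intro h
      exact absurd (Finset.mem_univ _) h
  have hd : ∀ θ ∈ Set.Ioo (0 : ℝ) 1, HasDerivAt (fun θ => ψ θ - 4 * Q * Real.sqrt θ)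
      ((∑ a, ∑ A ∈ univ.filter (fun A : Finset ι => a ∉ A),
        θ ^ A.card * (1 - θ) ^ (Fintype.card ι - 1 - A.card) * (J (insert a A) - J A)) -
        4 * Q * (1 / (2 * Real.sqrt θ))) θ := by
    intro θ hθ
    exact (psi_deriv J θ).sub ((Real.hasDerivAt_sqrt hθ.1.ne').const_mul (4 * Q))
  have hcψ : Continuous ψ :=
    continuous_iff_continuousAt.2 fun θ => (psi_deriv J θ).continuousAt
  have hanti : AntitoneOn (fun θ => ψ θ - 4 * Q * Real.sqrt θ) (Set.Icc 0 1) := by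
    refine antitoneOn_of_deriv_nonpos (convex_Icc 0 1) ?_ ?_ ?_
    · exact (hcψ.sub (continuous_const.mul Real.continuous_sqrt)).continuousOn
    · intro θ hθ
      rw [interior_Icc] at hθ
      exact (hd θ hθ).differentiableAt.differentiableWithinAt
    · intro θ hθ
      rw [interior_Icc] at hθ
      rw [(hd θ hθ).deriv]
      have hs : 0 < Real.sqrt θ := Real.sqrt_pos.2 hθ.1
      have h5 := deriv_bound J c m k Q h1 h2 h3 hθ.1 hθ.2 (h4 θ ⟨hθ.1.le, hθ.2.le⟩)
        (s := 1 / Real.sqrt θ) (by positivity)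
      have h6 : 1 / Real.sqrt θ * Q + 1 / (1 / Real.sqrt θ) * (Q / θ) =
          4 * Q * (1 / (2 * Real.sqrt θ)) := by
        have h7 : Real.sqrt θ * Real.sqrt θ = θ := Real.mul_self_sqrt hθ.1.le
        have h8 : Q / θ = Q / (Real.sqrt θ * Real.sqrt θ) := by rw [h7]
        rw [h8]
        field_simp
        ring
      rw [h6] at h5
      linarith
  have h := hanti (Set.left_mem_Icc.2 zero_le_one) (Set.right_mem_Icc.2 zero_le_one)
    zero_le_one
  simp only [Real.sqrt_one, Real.sqrt_zero, mul_one, mul_zero, sub_zero] at h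
  rw [hψ1, hψ0] at h
  linarith

end Pool.Agent.APS
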