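import Pool.Agent.APS.TrMvt
import Pool.Agent.APS.NoisePoly
import Pool.Agent.Kin.Resamp

/-! # APS MES: the matrix Efron-Stein inequality (Paulin, Mackey, Tropp), polynomial moments.

`π = μ^ι`, `X` continuous hermitian valued, `Y = X - EX`, `F = Y^(2p-1)` (continuous functions of `v`).
`mix B v v'` = `v` on `B`, `v'` off `B`.  `J(B) = ∫∫ Re Tr (X(mix B v v') F(v)) dπ(v) dπ(v')`.
`J(univ) - J(∅) = E Re Tr X F - Re Tr (EX) (E F) = E Re Tr Y F = E tr0 (2p) Y =: Ψ`.
For `a ∉ A`, `B = insert a A`, `m = mix B v v'`, `m' = m[a → v'_a] = mix A v v'`, `v^a = v[a → v'_a]`: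
exchanging `v_a` and `v'_a` (measure preserving) gives
`J(B) - J(A) = (1/2) E Re Tr (X(m) - X(m')) (F(v) - F(v^a))`, which by `tr_mvt` (with
`C = X(m) - X(m')`, `Y(v), Y(v^a)`; parameter `s`) is at most
`(p/4) E [s (trw (Y v) Δ + trw (Y v^a) Δ) + (1/s)(trw (Y v) C + trw (Y v^a) C)]`, `Δ = Y(v) - Y(v^a)`,
`= (p/2) (s E trw (Y v) (X(v) - X(v^a)) + (1/s) E trw (Y v) (X(m) - X(m')))` by the same exchange.
Set `c a = (p/2) E trw (Y v)(X v - X v^a)`, `m a B = (p/2) E trw (Y v)(X m - X m[a → v'_a])` (`a ∈ B`).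
Hypothesis `hyp` at `v`: `∑_a ∫ trw (Y v)(X v - X v[a→x]) dμ(x) ≤ N(v) Re Tr Y(v)^(2p-2)`
(spectral theorem: `trw f g = ∑_k λ_k^(2p-2) ‖g u_k‖²` with unit eigenvectors `u_k`).  For fixed `B`, `a ∈ B`:
`v'_a` is independent of `m` and of `v`, so `∑_{a∈B} m a B ≤ (p/2) E N(m) Re Tr Y(v)^(2p-2) =: k B`.
`(v, m)` have both the law `π`.  `Re Tr Y^(2p-2) ≤ card^(1/p) (tr0 (2p) Y)^((p-1)/p)`; to avoid roots use
Young: for every `ε > 0`: `N(m) Re Tr Y(v)^(2p-2) ≤ ε tr0 (2p) (Y v) + (1/ε)^(p-1) card N(m)^p`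
(eigenvalue by eigenvalue, `young` with `x = λ_k²`, `y = N(m)`).
So `Q = (p/2) (ε Ψ + (1/ε)^(p-1) card E N^p)` works, `noise_bound`: `Ψ ≤ 2p ε Ψ + 2p (1/ε)^(p-1) card E N^p`;
`ε = 1/(4p)`: `Ψ ≤ 4p (4p)^(p-1) card E N^p`.
All functions are bounded on the support (a.e. `|v_w| ≤ bd`), use `cont_integrable` (Kin/Resamp.lean);
`N` is only measurable and bounded.
-/

open Matrix Finset MeasureTheory

noncomputable section

namespace Pool.Agent.APS

open Pool.Agent.Kin

variable {ι κ : Type} [Fintype ι] [DecidableEq ι] [Fintype κ] [DecidableEq κ]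

/-- a selection of distinct coordinates has again the law of a product -/
private theorem mp_comp {I J : Type} [Fintype I] [Fintype J] (μ : Measure ℝ)
    [IsProbabilityMeasure μ] (φ : I → J) (hφ : Function.Injective φ) :
    MeasurePreserving (fun (z : J → ℝ) (i : I) => z (φ i)) (Measure.pi fun _ : J => μ)
      (Measure.pi fun _ : I => μ) := by
  have hm : Measurable (fun (z : J → ℝ) (i : I) => z (φ i)) :=
    measurable_pi_iff.mpr fun i => measurable_pi_apply (φ i)
  refine ⟨hm, ?_⟩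
  symm
  refine Measure.pi_eq fun s hs => ?_
  rw [Measure.map_apply hm (MeasurableSet.univ_pi hs)]
  have h1 : (fun (z : J → ℝ) (i : I) => z (φ i)) ⁻¹' (Set.univ.pi s) =
      Set.univ.pi (fun j => {x : ℝ | ∀ i, φ i = j → x ∈ s i}) := by
    ext z
    simp only [Set.mem_preimage, Set.mem_pi, Set.mem_univ, forall_true_left, Set.mem_ofPred_eq]
    constructor
    · intro h j i hij
      rw [← hij]
      exact h i
    · intro h i
      exact h (φ i) i rfl
  rw [h1, Measure.pi_pi]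
  symm
  refine Fintype.prod_of_injective φ hφ _ _ ?_ ?_
  · intro j hj
    have h2 : {x : ℝ | ∀ i, φ i = j → x ∈ s i} = Set.univ := by
      ext x
      simp only [Set.mem_ofPred_eq, Set.mem_univ, iff_true]
      intro i hi
      exact absurd ⟨i, hi⟩ hj
    rw [h2, measure_univ]
  · intro i
    congr 1
    ext x
    simp only [Set.mem_ofPred_eq]
    constructor
    · intro h k hk
      rw [hφ hk]
      exact h
    · intro h
      exact h i rfl

private theorem int_comp {I J : Type} [Fintype I] [Fintype J] (μ : Measure ℝ)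
    [IsProbabilityMeasure μ] (φ : I → J) (hφ : Function.Injective φ) (G : (I → ℝ) → ℝ)
    (hG : Measurable G) :
    ∫ z, G (fun i => z (φ i)) ∂(Measure.pi fun _ : J => μ) =
      ∫ v, G v ∂(Measure.pi fun _ : I => μ) := by
  have h := mp_comp μ φ hφ
  conv_rhs => rw [← h.map_eq]
  rw [integral_map h.measurable.aemeasurable hG.aestronglyMeasurable]

/-- joining two independent points -/
private def jn (q : (ι → ℝ) × (ι → ℝ)) : ι × Bool → ℝ :=
  fun j => if j.2 = true then q.1 j.1 else q.2 j.1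

omit [DecidableEq ι] in
private theorem mp_join (μ : Measure ℝ) [IsProbabilityMeasure μ] :
    MeasurePreserving (jn (ι := ι)) ((Measure.pi fun _ : ι => μ).prod (Measure.pi fun _ : ι => μ))
      (Measure.pi fun _ : ι × Bool => μ) := by
  have hm : Measurable (jn (ι := ι)) := by
    refine measurable_pi_iff.mpr fun j => ?_
    unfold jn
    rcases j with ⟨i, b⟩
    cases b
    · simpa [Function.comp_def] using (measurable_pi_apply (X := fun _ : ι => ℝ) i).comp measurable_snd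
    · simpa [Function.comp_def] using (measurable_pi_apply (X := fun _ : ι => ℝ) i).comp measurable_fst
  refine ⟨hm, ?_⟩
  symm
  refine Measure.pi_eq fun s hs => ?_
  rw [Measure.map_apply hm (MeasurableSet.univ_pi hs)]
  have h1 : (jn (ι := ι)) ⁻¹' (Set.univ.pi s) =
      (Set.univ.pi fun i => s (i, true)) ×ˢ (Set.univ.pi fun i => s (i, false)) := by
    ext q
    simp only [Set.mem_preimage, Set.mem_pi, Set.mem_univ, forall_true_left, Set.mem_prod]
    constructor
    · intro h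
      refine ⟨fun i => ?_, fun i => ?_⟩
      · have := h (i, true)
        simpa [jn] using this
      · have := h (i, false)
        simpa [jn] using this
    · rintro ⟨h1, h2⟩ ⟨i, b⟩
      cases b
      · simpa [jn] using h2 i
      · simpa [jn] using h1 i
  rw [h1, Measure.prod_prod, Measure.pi_pi, Measure.pi_pi, ← Finset.prod_mul_distrib,
    Fintype.prod_prod_type]
  refine Finset.prod_congr rfl fun i _ => ?_
  simp

private theorem ci1 (μ : Measure ℝ) [IsProbabilityMeasure μ] (b : ℝ) (hb : ∀ᵐ x ∂μ, |x| ≤ b)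
    (g : ℝ → ℝ) (hg : Continuous g) : Integrable g μ := by
  obtain ⟨C, hC⟩ := (isCompact_Icc (a := -b) (b := b)).exists_bound_of_continuousOn hg.continuousOn
  refine Integrable.of_bound hg.aestronglyMeasurable C ?_
  filter_upwards [hb] with v hv
  exact hC v (abs_le.mp hv)

private theorem ciC {I : Type} [Fintype I] (μ : Measure ℝ) [IsProbabilityMeasure μ] (b : ℝ)
    (hb : ∀ᵐ x ∂μ, |x| ≤ b)
    (g : (I → ℝ) → ℂ) (hg : Continuous g) : Integrable g (Measure.pi fun _ : I => μ) := by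
  classical
  obtain ⟨C, hC⟩ := (isCompact_univ_pi (fun _ : I => isCompact_Icc (a := -b)
    (b := b))).exists_bound_of_continuousOn hg.continuousOn
  refine Integrable.of_bound hg.aestronglyMeasurable C ?_
  filter_upwards [ae_bdd μ b hb] with v hv
  exact hC v (fun i _ => abs_le.mp (hv i))

private theorem cip (μ : Measure ℝ) [IsProbabilityMeasure μ] (b : ℝ)
    (hb : ∀ᵐ x ∂μ, |x| ≤ b)
    (g : (ι → ℝ) × (ι → ℝ) → ℝ) (hg : Continuous g) :
    Integrable g ((Measure.pi fun _ : ι => μ).prod (Measure.pi fun _ : ι => μ)) := by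
  obtain ⟨C, hC⟩ := ((isCompact_univ_pi (fun _ : ι => isCompact_Icc (a := -b)
    (b := b))).prod (isCompact_univ_pi (fun _ : ι => isCompact_Icc (a := -b)
    (b := b)))).exists_bound_of_continuousOn hg.continuousOn
  refine Integrable.of_bound hg.aestronglyMeasurable C ?_
  have h1 : ∀ᵐ p ∂((Measure.pi fun _ : ι => μ).prod (Measure.pi fun _ : ι => μ)),
      ∀ i, |p.1 i| ≤ b :=
    Measure.quasiMeasurePreserving_fst.ae (ae_bdd μ b hb)
  have h2 : ∀ᵐ p ∂((Measure.pi fun _ : ι => μ).prod (Measure.pi fun _ : ι => μ)),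
      ∀ i, |p.2 i| ≤ b :=
    Measure.quasiMeasurePreserving_snd.ae (ae_bdd μ b hb)
  filter_upwards [h1, h2] with p hp1 hp2
  exact hC p ⟨fun i _ => abs_le.mp (hp1 i), fun i _ => abs_le.mp (hp2 i)⟩

/-! ### the configurations -/

/-- `v` on `B`, `v'` off `B` -/
private def mx (B : Finset ι) (z : ι × Bool → ℝ) : ι → ℝ := fun i => z (i, decide (i ∈ B))

private def vv (z : ι × Bool → ℝ) : ι → ℝ := fun i => z (i, true)

/-- exchange of `v_a` and `v'_a` -/
private def ex (a : ι) (z : ι × Bool → ℝ) : ι × Bool → ℝ :=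
  fun j => z (Equiv.swap (a, true) (a, false) j)

omit [Fintype ι] in
private theorem vv_ex (a : ι) (z : ι × Bool → ℝ) :
    vv (ex a z) = Function.update (vv z) a (z (a, false)) := by
  funext i
  by_cases h : i = a
  · subst h
    simp [vv, ex]
  · rw [Function.update_of_ne h]
    unfold vv ex
    rw [Equiv.swap_apply_of_ne_of_ne]
    · intro h1
      exact h (Prod.ext_iff.1 h1).1
    · intro h1
      exact h (Prod.ext_iff.1 h1).1

omit [Fintype ι] in
private theorem mx_ex_insert {a : ι} {A : Finset ι} (ha : a ∉ A) (z : ι × Bool → ℝ) :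
    mx (insert a A) (ex a z) = mx A z := by
  funext i
  by_cases h : i = a
  · subst h
    simp [mx, ex, ha]
  · unfold mx ex
    rw [Equiv.swap_apply_of_ne_of_ne]
    · simp [h]
    · intro h1
      exact h (Prod.ext_iff.1 h1).1
    · intro h1
      exact h (Prod.ext_iff.1 h1).1

omit [Fintype ι] in
private theorem mx_ex {a : ι} {A : Finset ι} (ha : a ∉ A) (z : ι × Bool → ℝ) :
    mx A (ex a z) = mx (insert a A) z := by
  funext i
  by_cases h : i = a
  · subst h
    simp [mx, ex, ha]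
  · unfold mx ex
    rw [Equiv.swap_apply_of_ne_of_ne]
    · simp [h]
    · intro h1
      exact h (Prod.ext_iff.1 h1).1
    · intro h1
      exact h (Prod.ext_iff.1 h1).1

omit [Fintype ι] in
private theorem mx_upd {a : ι} {A : Finset ι} (ha : a ∉ A) (z : ι × Bool → ℝ) :
    mx A z = Function.update (mx (insert a A) z) a (z (a, false)) := by
  funext i
  by_cases h : i = a
  · subst h
    simp [mx, ha]
  · rw [Function.update_of_ne h]
    simp [mx, h]

omit [Fintype ι] in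
private theorem vv_up (a : ι) (z : ι × Bool → ℝ) (x : ℝ) :
    vv (Function.update z (a, false) x) = vv z := by
  funext i
  unfold vv
  rw [Function.update_of_ne]
  intro h
  simp at h

omit [Fintype ι] in
private theorem mx_up {a : ι} {B : Finset ι} (ha : a ∈ B) (z : ι × Bool → ℝ) (x : ℝ) :
    mx B (Function.update z (a, false) x) = mx B z := by
  funext i
  unfold mx
  rw [Function.update_of_ne]
  intro h
  have h1 := Prod.ext_iff.1 h
  simp only [decide_eq_false_iff_not] at h1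
  obtain ⟨h2, h3⟩ := h1
  rw [h2] at h3
  exact h3 ha

omit [Fintype ι] [DecidableEq ι] in
private theorem vv_cont : Continuous (vv (ι := ι)) :=
  continuous_pi fun i => continuous_apply (i, true)

omit [Fintype ι] in
private theorem mx_cont (B : Finset ι) : Continuous (mx B) :=
  continuous_pi fun i => continuous_apply (i, decide (i ∈ B))

omit [Fintype ι] in
private theorem ex_cont (a : ι) : Continuous (ex a) :=
  continuous_pi fun j => continuous_apply (Equiv.swap (a, true) (a, false) j)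

omit [Fintype ι] in
private theorem mx_univ [Fintype ι] (z : ι × Bool → ℝ) : mx univ z = vv z := by
  funext i
  simp [mx, vv]

/-! ### the spectral form of the weighted trace -/

private theorem spec {f : Matrix κ κ ℂ} (hf : f.IsHermitian) :
    ∃ (l : κ → ℝ) (U : Matrix κ κ ℂ), Uᴴ * U = 1 ∧ U * Uᴴ = 1 ∧
      f = U * diagonal (fun a => (l a : ℂ)) * Uᴴ := by
  refine ⟨hf.eigenvalues, (hf.eigenvectorUnitary : Matrix κ κ ℂ), ?_, ?_, ?_⟩
  · exact Unitary.coe_star_mul_self hf.eigenvectorUnitary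
  · exact Unitary.coe_mul_star_self hf.eigenvectorUnitary
  · have h := hf.spectral_theorem
    rw [Unitary.conjStarAlgAut_apply] at h
    exact h

private theorem spec_pow {l : κ → ℝ} {U : Matrix κ κ ℂ} (hU : Uᴴ * U = 1) (hU' : U * Uᴴ = 1)
    (n : ℕ) : (U * diagonal (fun a => (l a : ℂ)) * Uᴴ) ^ n =
      U * diagonal (fun a => (l a : ℂ) ^ n) * Uᴴ := by
  induction n with
  | zero =>
    simp only [pow_zero]
    have h1 : diagonal (fun _ : κ => (1 : ℂ)) = 1 := diagonal_one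
    rw [h1, Matrix.mul_one, hU']
  | succ n ih =>
    rw [pow_succ, ih]
    have h1 : U * diagonal (fun a => (l a : ℂ) ^ n) * Uᴴ * (U * diagonal (fun a => (l a : ℂ)) * Uᴴ)
        = U * (diagonal (fun a => (l a : ℂ) ^ n) * ((Uᴴ * U) * diagonal (fun a => (l a : ℂ)))) * Uᴴ := by
      simp only [Matrix.mul_assoc]
    rw [h1, hU, Matrix.one_mul, diagonal_mul_diagonal]
    simp only [pow_succ]

private theorem spec_tr1 {l : κ → ℝ} {U : Matrix κ κ ℂ} (hU : Uᴴ * U = 1) (hU' : U * Uᴴ = 1)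
    (n : ℕ) (M : Matrix κ κ ℂ) :
    ((U * diagonal (fun a => (l a : ℂ)) * Uᴴ) ^ n * M).trace =
      ∑ a, (l a : ℂ) ^ n * (Uᴴ * M * U) a a := by
  rw [spec_pow hU hU']
  have h1 : U * diagonal (fun a => (l a : ℂ) ^ n) * Uᴴ * M
      = U * (diagonal (fun a => (l a : ℂ) ^ n) * (Uᴴ * M)) := by
    simp only [Matrix.mul_assoc]
  rw [h1, Matrix.trace_mul_comm, Matrix.mul_assoc]
  simp only [Matrix.trace, Matrix.diag_apply, Matrix.diagonal_mul]

private theorem spec_tr2 {l : κ → ℝ} {U : Matrix κ κ ℂ} (hU : Uᴴ * U = 1) (hU' : U * Uᴴ = 1)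
    (i j : ℕ) (g k : Matrix κ κ ℂ) :
    ((U * diagonal (fun a => (l a : ℂ)) * Uᴴ) ^ i * g *
      ((U * diagonal (fun a => (l a : ℂ)) * Uᴴ) ^ j * k)).trace =
      ∑ a, ∑ b, (l a : ℂ) ^ i * (l b : ℂ) ^ j * ((Uᴴ * g * U) a b * (Uᴴ * k * U) b a) := by
  rw [Matrix.mul_assoc, spec_tr1 hU hU', spec_pow hU hU']
  refine Finset.sum_congr rfl fun a _ => ?_
  have h1 : Uᴴ * (g * (U * diagonal (fun a => (l a : ℂ) ^ j) * Uᴴ * k)) * U
      = (Uᴴ * g * U) * (diagonal (fun a => (l a : ℂ) ^ j) * (Uᴴ * k * U)) := by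
    simp only [Matrix.mul_assoc]
  rw [h1, Matrix.mul_apply, Finset.mul_sum]
  refine Finset.sum_congr rfl fun b _ => ?_
  rw [Matrix.diagonal_mul]
  ring

private theorem herm_conj {U g : Matrix κ κ ℂ} (hg : g.IsHermitian) (a b : κ) :
    (Uᴴ * g * U) b a = star ((Uᴴ * g * U) a b) := by
  have h : (Uᴴ * g * U).IsHermitian := by
    unfold Matrix.IsHermitian
    rw [conjTranspose_mul, conjTranspose_mul, conjTranspose_conjTranspose, hg.eq, Matrix.mul_assoc]
  exact (h.apply b a).symm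

private theorem trw_eq {l : κ → ℝ} {U g : Matrix κ κ ℂ} (hU : Uᴴ * U = 1) (hU' : U * Uᴴ = 1)
    (hg : g.IsHermitian) (p : ℕ) :
    trw p (U * diagonal (fun a => (l a : ℂ)) * Uᴴ) g =
      ∑ a, ∑ b, l a ^ (2 * p - 2) * ‖(Uᴴ * g * U) a b‖ ^ 2 := by
  unfold trw
  have h := spec_tr2 (l := l) hU hU' (2 * p - 2) 0 g g
  rw [pow_zero, Matrix.one_mul, Matrix.mul_assoc] at h
  rw [h, Complex.re_sum]
  refine Finset.sum_congr rfl fun a _ => ?_
  rw [Complex.re_sum]
  refine Finset.sum_congr rfl fun b _ => ?_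
  rw [herm_conj hg a b, pow_zero, mul_one]
  have h2 : (Uᴴ * g * U) a b * star ((Uᴴ * g * U) a b) = ((‖(Uᴴ * g * U) a b‖ ^ 2 : ℝ) : ℂ) := by
    rw [Complex.star_def, Complex.mul_conj, Complex.normSq_eq_norm_sq]
  rw [h2]
  have h3 : (l a : ℂ) ^ (2 * p - 2) * ((‖(Uᴴ * g * U) a b‖ ^ 2 : ℝ) : ℂ) =
      ((l a ^ (2 * p - 2) * ‖(Uᴴ * g * U) a b‖ ^ 2 : ℝ) : ℂ) := by
    push_cast
    ring
  rw [h3, Complex.ofReal_re]

private theorem tr0_eq {l : κ → ℝ} {U : Matrix κ κ ℂ} (hU : Uᴴ * U = 1) (hU' : U * Uᴴ = 1)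
    (n : ℕ) : tr0 n (U * diagonal (fun a => (l a : ℂ)) * Uᴴ) = ∑ a, l a ^ n := by
  unfold tr0
  have h := spec_tr1 (l := l) hU hU' n 1
  rw [Matrix.mul_one, Matrix.mul_one, hU] at h
  rw [h, Complex.re_sum]
  refine Finset.sum_congr rfl fun a _ => ?_
  rw [Matrix.one_apply_eq, mul_one, ← Complex.ofReal_pow, Complex.ofReal_re]

private theorem ev_nonneg {p : ℕ} (x : ℝ) : 0 ≤ x ^ (2 * p - 2) := by
  have : 2 * p - 2 = 2 * (p - 1) := by omega
  rw [this, pow_mul]
  positivity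

/-- the norm of `M u` in the eigenbasis -/
private theorem norm_conj {U : Matrix κ κ ℂ} (hU : Uᴴ * U = 1) (u : κ → ℂ) :
    ∑ x, ‖(U *ᵥ u) x‖ ^ 2 = ∑ x, ‖u x‖ ^ 2 := by
  have key : ∀ v : κ → ℂ, ((∑ x, ‖v x‖ ^ 2 : ℝ) : ℂ) = star v ⬝ᵥ v := by
    intro v
    rw [dotProduct]
    push_cast
    refine Finset.sum_congr rfl fun x _ => ?_
    rw [Pi.star_apply, Complex.star_def, Complex.conj_mul']
  have h : ((∑ x, ‖(U *ᵥ u) x‖ ^ 2 : ℝ) : ℂ) = ((∑ x, ‖u x‖ ^ 2 : ℝ) : ℂ) := by
    rw [key, key, star_mulVec, dotProduct_mulVec, vecMul_vecMul, hU, vecMul_one]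
  exact_mod_cast h

private theorem col_norm {U M : Matrix κ κ ℂ} (hU : Uᴴ * U = 1) (hU' : U * Uᴴ = 1) (a : κ) :
    ∑ b, ‖(Uᴴ * M * U) b a‖ ^ 2 = ∑ x, ‖(M *ᵥ (fun y => U y a)) x‖ ^ 2 := by
  have h1 : ∀ b, (Uᴴ * M * U) b a = (Uᴴ *ᵥ (M *ᵥ (fun y => U y a))) b := by
    intro b
    rw [mulVec_mulVec]
    rfl
  simp only [h1]
  refine norm_conj ?_ _
  rw [conjTranspose_conjTranspose, hU']

private theorem unit_col {U : Matrix κ κ ℂ} (hU : Uᴴ * U = 1) (a : κ) :
    ∑ y, ‖U y a‖ ^ 2 = 1 := by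
  have h := congrFun (congrFun hU a) a
  rw [Matrix.mul_apply, Matrix.one_apply_eq] at h
  have h2 : ((∑ y, ‖U y a‖ ^ 2 : ℝ) : ℂ) = 1 := by
    rw [← h]
    push_cast
    refine Finset.sum_congr rfl fun y _ => ?_
    rw [conjTranspose_apply, Complex.star_def, Complex.conj_mul']
  exact_mod_cast h2


private theorem spec_form (p : ℕ) {f : Matrix κ κ ℂ} (hf : f.IsHermitian) :
    ∃ (l : κ → ℝ) (u : κ → κ → ℂ), (∀ b, ∑ y, ‖u b y‖ ^ 2 = 1) ∧
      (∀ g : Matrix κ κ ℂ, g.IsHermitian → trw p f g =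
        ∑ b, l b ^ (2 * p - 2) * ∑ k, ‖(g *ᵥ u b) k‖ ^ 2) ∧
      tr0 (2 * p) f = ∑ b, l b ^ (2 * p) := by
  obtain ⟨l, U, hU, hU', rfl⟩ := spec hf
  refine ⟨l, fun b y => U y b, unit_col hU, fun g hg => ?_, tr0_eq hU hU' _⟩
  rw [trw_eq hU hU' hg]
  refine Finset.sum_congr rfl fun a _ => ?_
  rw [← Finset.mul_sum, ← col_norm hU hU' a]
  congr 1
  refine Finset.sum_congr rfl fun b _ => ?_
  rw [herm_conj hg a b, norm_star]

private theorem pt_bound (μ : Measure ℝ) [IsProbabilityMeasure μ] (bd : ℝ)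
    (hb : ∀ᵐ x ∂μ, |x| ≤ bd) (p : ℕ) (hp : 1 ≤ p) {f : Matrix κ κ ℂ} (hf : f.IsHermitian)
    (C : ι → ℝ → Matrix κ κ ℂ) (hC : ∀ a, Continuous (C a))
    (hCH : ∀ a x, (C a x).IsHermitian) {n e : ℝ} (hn : 0 ≤ n) (he : 0 < e)
    (B : Finset ι)
    (h : ∀ u : κ → ℂ, ∑ a, ∫ x, ∑ k, ‖(C a x *ᵥ u) k‖ ^ 2 ∂μ ≤ n * ∑ k, ‖u k‖ ^ 2) :
    ∑ a ∈ B, ∫ x, trw p f (C a x) ∂μ ≤
      e * tr0 (2 * p) f + (Fintype.card κ : ℝ) * ((1 / e) ^ (p - 1) * n ^ p) := by
  obtain ⟨l, u, hu, hw, ht⟩ := spec_form p hf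
  have hev : ∀ x : ℝ, 0 ≤ x ^ (2 * p - 2) := fun x => ev_nonneg x
  have hcont : ∀ a b, Continuous fun x => ∑ k, ‖(C a x *ᵥ u b) k‖ ^ 2 := by
    intro a b
    refine continuous_finsetSum _ fun k _ => ?_
    have h1 : Continuous fun x => C a x *ᵥ u b := (hC a).matrix_mulVec continuous_const
    exact ((continuous_apply k).comp h1).norm.pow 2
  have h1 : ∀ a, ∫ x, trw p f (C a x) ∂μ =
      ∑ b, l b ^ (2 * p - 2) * ∫ x, ∑ k, ‖(C a x *ᵥ u b) k‖ ^ 2 ∂μ := by
    intro a
    have h2 : ∀ x, trw p f (C a x) =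
        ∑ b, l b ^ (2 * p - 2) * ∑ k, ‖(C a x *ᵥ u b) k‖ ^ 2 := fun x => hw _ (hCH a x)
    simp only [h2]
    rw [integral_finsetSum]
    · refine Finset.sum_congr rfl fun b _ => ?_
      rw [integral_const_mul]
    · intro b _
      exact (ci1 μ bd hb _ (hcont a b)).const_mul _
  have h3 : ∑ a ∈ B, ∫ x, trw p f (C a x) ∂μ ≤ ∑ a, ∫ x, trw p f (C a x) ∂μ := by
    refine Finset.sum_le_sum_of_subset_of_nonneg (Finset.subset_univ _) fun a _ _ => ?_
    exact integral_nonneg fun x => trw_nonneg p hp hf (hCH a x)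
  refine h3.trans ?_
  simp only [h1]
  rw [Finset.sum_comm]
  have h4 : ∀ b, ∑ a, l b ^ (2 * p - 2) * ∫ x, ∑ k, ‖(C a x *ᵥ u b) k‖ ^ 2 ∂μ ≤
      (l b ^ 2) ^ (p - 1) * n := by
    intro b
    rw [← Finset.mul_sum]
    have h5 : l b ^ (2 * p - 2) = (l b ^ 2) ^ (p - 1) := by
      rw [← pow_mul]
      congr 1
      omega
    rw [h5]
    refine mul_le_mul_of_nonneg_left ?_ (by positivity)
    have h6 := h (u b)
    rw [hu b, mul_one] at h6
    exact h6
  refine (Finset.sum_le_sum fun b _ => h4 b).trans ?_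
  rw [← Finset.sum_mul]
  have h6 := young_sum (p - 1) (fun a => l a ^ 2) (y := n) (e := e)
    (fun a => by positivity) hn he
  have hpp : p - 1 + 1 = p := by omega
  rw [hpp] at h6
  refine h6.trans (le_of_eq ?_)
  rw [ht]
  congr 2
  refine Finset.sum_congr rfl fun a _ => ?_
  rw [← pow_mul]

omit [Fintype ι] [DecidableEq ι] in
private theorem trw_cont {T : Type} [TopologicalSpace T] (p : ℕ) {f g : T → Matrix κ κ ℂ}
    (hf : Continuous f) (hg : Continuous g) : Continuous fun t => trw p (f t) (g t) := by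
  unfold trw
  exact Complex.continuous_re.comp (((hf.pow _).mul (hg.mul hg)).matrix_trace)

private theorem trc_cont {T : Type} [TopologicalSpace T] {f g : T → Matrix κ κ ℂ}
    (hf : Continuous f) (hg : Continuous g) : Continuous fun t => (f t * g t).trace.re :=
  Complex.continuous_re.comp ((hf.mul hg).matrix_trace)

omit [Fintype ι] [DecidableEq ι] in
private theorem trw_neg (p : ℕ) (f g h : Matrix κ κ ℂ) : trw p f (g - h) = trw p f (h - g) := by
  unfold trw
  have h1 : (g - h) * (g - h) = (h - g) * (h - g) := by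
    rw [← neg_sub h g, neg_mul_neg]
  rw [h1]

omit [DecidableEq ι] in
private theorem int_vv (μ : Measure ℝ) [IsProbabilityMeasure μ] (G : (ι → ℝ) → ℝ)
    (hG : Measurable G) :
    ∫ z, G (vv z) ∂(Measure.pi fun _ : ι × Bool => μ) =
      ∫ v, G v ∂(Measure.pi fun _ : ι => μ) :=
  int_comp μ (fun i : ι => (i, true)) (fun _ _ h => (Prod.ext_iff.1 h).1) G hG

private theorem int_mx (μ : Measure ℝ) [IsProbabilityMeasure μ] (B : Finset ι)
    (G : (ι → ℝ) → ℝ) (hG : Measurable G) :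
    ∫ z, G (mx B z) ∂(Measure.pi fun _ : ι × Bool => μ) =
      ∫ v, G v ∂(Measure.pi fun _ : ι => μ) :=
  int_comp μ (fun i : ι => (i, decide (i ∈ B))) (fun _ _ h => (Prod.ext_iff.1 h).1) G hG

private theorem int_ex (μ : Measure ℝ) [IsProbabilityMeasure μ] (a : ι)
    (G : (ι × Bool → ℝ) → ℝ) (hG : Continuous G) :
    ∫ z, G (ex a z) ∂(Measure.pi fun _ : ι × Bool => μ) =
      ∫ z, G z ∂(Measure.pi fun _ : ι × Bool => μ) :=
  int_comp μ (fun j => Equiv.swap (a, true) (a, false) j) (Equiv.injective _) G hG.measurable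

omit [Fintype ι] in
private theorem ex_ex (a : ι) (z : ι × Bool → ℝ) : ex a (ex a z) = z := by
  funext j
  simp [ex]

/-- the mean of a matrix valued function -/
def EM (μ : Measure ℝ) (X : (ι → ℝ) → Matrix κ κ ℂ) : Matrix κ κ ℂ :=
  fun i j => ∫ v, X v i j ∂(Measure.pi fun _ : ι => μ)

omit [DecidableEq ι] [Fintype κ] [DecidableEq κ] in
private theorem EM_herm (μ : Measure ℝ) (X : (ι → ℝ) → Matrix κ κ ℂ)
    (hH : ∀ v, (X v).IsHermitian) : (EM μ X).IsHermitian := by
  refine Matrix.IsHermitian.ext fun i j => ?_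
  unfold EM
  rw [Complex.star_def, ← integral_conj]
  refine integral_congr_ae (Filter.Eventually.of_forall fun v => ?_)
  exact (hH v).apply i j

omit [DecidableEq ι] [DecidableEq κ] in
private theorem int_trc (μ : Measure ℝ) [IsProbabilityMeasure μ] (bd : ℝ)
    (hb : ∀ᵐ x ∂μ, |x| ≤ bd) (X : (ι → ℝ) → Matrix κ κ ℂ)
    (hX : ∀ i j, Continuous fun v => X v i j) (M : Matrix κ κ ℂ) :
    ∫ v, (X v * M).trace.re ∂(Measure.pi fun _ : ι => μ) = (EM μ X * M).trace.re := by
  have h0 : ∀ i j, Integrable (fun v => X v i j) (Measure.pi fun _ : ι => μ) :=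
    fun i j => ciC μ bd hb _ (hX i j)
  have h1 : ∀ A : Matrix κ κ ℂ, (A * M).trace = ∑ i, ∑ j, A i j * M j i := by
    intro A
    simp only [Matrix.trace, Matrix.diag_apply, Matrix.mul_apply]
  have h2 : Integrable (fun v => (X v * M).trace) (Measure.pi fun _ : ι => μ) := by
    simp only [h1]
    exact integrable_finsetSum _ fun i _ => integrable_finsetSum _ fun j _ =>
      (h0 i j).mul_const _
  have h3 : ∫ v, (X v * M).trace ∂(Measure.pi fun _ : ι => μ) = (EM μ X * M).trace := by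
    rw [h1]
    simp only [h1]
    rw [integral_finsetSum _ fun i _ => integrable_finsetSum _ fun j _ => (h0 i j).mul_const _]
    refine Finset.sum_congr rfl fun i _ => ?_
    rw [integral_finsetSum _ fun j _ => (h0 i j).mul_const _]
    refine Finset.sum_congr rfl fun j _ => ?_
    rw [integral_mul_const]
    rfl
  rw [← h3]
  exact integral_re h2

private theorem tr0_cont {T : Type} [TopologicalSpace T] (n : ℕ) {f : T → Matrix κ κ ℂ}
    (hf : Continuous f) : Continuous fun t => tr0 n (f t) := by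
  unfold tr0
  exact Complex.continuous_re.comp ((hf.pow n).matrix_trace)

/-- one step of the interpolation -/
private theorem step (μ : Measure ℝ) [IsProbabilityMeasure μ] (bd : ℝ)
    (hb : ∀ᵐ x ∂μ, |x| ≤ bd) (p : ℕ) (hp : 1 ≤ p) (X : (ι → ℝ) → Matrix κ κ ℂ)
    (hX : Continuous X) (hH : ∀ v, (X v).IsHermitian) (E0 : Matrix κ κ ℂ)
    (hE : E0.IsHermitian) (a : ι) (A : Finset ι) (ha : a ∉ A) (s : ℝ) (hs : 0 < s) :
    ∫ z, (X (mx (insert a A) z) * (X (vv z) - E0) ^ (2 * p - 1)).trace.re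
        ∂(Measure.pi fun _ : ι × Bool => μ) -
      ∫ z, (X (mx A z) * (X (vv z) - E0) ^ (2 * p - 1)).trace.re
        ∂(Measure.pi fun _ : ι × Bool => μ) ≤
      s * (p / 2 * ∫ z, trw p (X (vv z) - E0) (X (mx univ z) -
        X (Function.update (mx univ z) a (z (a, false)))) ∂(Measure.pi fun _ : ι × Bool => μ)) +
      1 / s * (p / 2 * ∫ z, trw p (X (vv z) - E0) (X (mx (insert a A) z) -
        X (Function.update (mx (insert a A) z) a (z (a, false))))
        ∂(Measure.pi fun _ : ι × Bool => μ)) := by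
  set P := (Measure.pi fun _ : ι × Bool => μ) with hP
  set B := insert a A with hB
  have ci : ∀ g : (ι × Bool → ℝ) → ℝ, Continuous g → Integrable g P :=
    fun g hg => cont_integrable μ bd hb g hg
  have cY : Continuous fun z : ι × Bool → ℝ => X (vv z) - E0 :=
    (hX.comp vv_cont).sub continuous_const
  have cYe : Continuous fun z : ι × Bool → ℝ => X (vv (ex a z)) - E0 :=
    (hX.comp (vv_cont.comp (ex_cont a))).sub continuous_const
  have cB : Continuous fun z : ι × Bool → ℝ => X (mx B z) := hX.comp (mx_cont B)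
  have cA : Continuous fun z : ι × Bool → ℝ => X (mx A z) := hX.comp (mx_cont A)
  have cF : Continuous fun z : ι × Bool → ℝ => (X (vv z) - E0) ^ (2 * p - 1) := cY.pow _
  have cFe : Continuous fun z : ι × Bool → ℝ => (X (vv (ex a z)) - E0) ^ (2 * p - 1) :=
    cYe.pow _
  have e1 : ∫ z, (X (mx B z) * (X (vv z) - E0) ^ (2 * p - 1)).trace.re ∂P =
      ∫ z, (X (mx A z) * (X (vv (ex a z)) - E0) ^ (2 * p - 1)).trace.re ∂P := by
    rw [hP, ← int_ex μ a _ (trc_cont cB cF)]
    simp only [hB, mx_ex_insert ha]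
  have e2 : ∫ z, (X (mx A z) * (X (vv z) - E0) ^ (2 * p - 1)).trace.re ∂P =
      ∫ z, (X (mx B z) * (X (vv (ex a z)) - E0) ^ (2 * p - 1)).trace.re ∂P := by
    rw [hP, ← int_ex μ a _ (trc_cont cA cF)]
    simp only [hB, mx_ex ha]
  have i1 := ci _ (trc_cont cB cF)
  have i2 := ci _ (trc_cont cA cF)
  have i3 := ci _ (trc_cont cB cFe)
  have i4 := ci _ (trc_cont cA cFe)
  set T1 : (ι × Bool → ℝ) → ℝ := fun z => trw p (X (vv z) - E0) (X (vv z) - X (vv (ex a z)))
    with hT1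
  set T3 : (ι × Bool → ℝ) → ℝ := fun z => trw p (X (vv z) - E0) (X (mx B z) - X (mx A z))
    with hT3
  have c1 : Continuous T1 := trw_cont p cY ((hX.comp vv_cont).sub
    (hX.comp (vv_cont.comp (ex_cont a))))
  have c3 : Continuous T3 := trw_cont p cY (cB.sub cA)
  have c1e : Continuous fun z => T1 (ex a z) := c1.comp (ex_cont a)
  have c3e : Continuous fun z => T3 (ex a z) := c3.comp (ex_cont a)
  have key : ∀ z, (X (mx B z) * (X (vv z) - E0) ^ (2 * p - 1)).trace.re -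
      (X (mx A z) * (X (vv z) - E0) ^ (2 * p - 1)).trace.re +
      ((X (mx A z) * (X (vv (ex a z)) - E0) ^ (2 * p - 1)).trace.re -
      (X (mx B z) * (X (vv (ex a z)) - E0) ^ (2 * p - 1)).trace.re) ≤
      p / 2 * (s * (T1 z + T1 (ex a z)) + 1 / s * (T3 z + T3 (ex a z))) := by
    intro z
    have h := tr_mvt p hp (A := X (vv z) - E0) (B := X (vv (ex a z)) - E0)
      (C := X (mx B z) - X (mx A z)) ((hH _).sub hE) ((hH _).sub hE) ((hH _).sub (hH _)) hs
    have h1 := (le_abs_self _).trans h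
    have h2 : X (vv z) - E0 - (X (vv (ex a z)) - E0) = X (vv z) - X (vv (ex a z)) := by
      abel
    rw [h2] at h1
    have h3 : T1 (ex a z) = trw p (X (vv (ex a z)) - E0) (X (vv z) - X (vv (ex a z))) := by
      rw [hT1]
      dsimp only
      rw [ex_ex, trw_neg]
    have h4 : T3 (ex a z) = trw p (X (vv (ex a z)) - E0) (X (mx B z) - X (mx A z)) := by
      rw [hT3]
      dsimp only
      rw [hB, mx_ex_insert ha, mx_ex ha, trw_neg]
    rw [h3, h4]
    rw [Matrix.trace_mul_comm, Matrix.sub_mul, Matrix.mul_sub, Matrix.mul_sub, Matrix.trace_sub,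
      Matrix.trace_sub, Matrix.trace_sub, Complex.sub_re, Complex.sub_re, Complex.sub_re] at h1
    linarith
  have i12 : Integrable (fun z => (X (mx B z) * (X (vv z) - E0) ^ (2 * p - 1)).trace.re -
      (X (mx A z) * (X (vv z) - E0) ^ (2 * p - 1)).trace.re) P := i1.sub i2
  have i43 : Integrable (fun z => (X (mx A z) * (X (vv (ex a z)) - E0) ^ (2 * p - 1)).trace.re -
      (X (mx B z) * (X (vv (ex a z)) - E0) ^ (2 * p - 1)).trace.re) P := i4.sub i3
  have j1 : Integrable (fun z => s * (T1 z + T1 (ex a z))) P :=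
    ((ci _ c1).add (ci _ c1e)).const_mul s
  have j3 : Integrable (fun z => 1 / s * (T3 z + T3 (ex a z))) P :=
    ((ci _ c3).add (ci _ c3e)).const_mul (1 / s)
  have hint := integral_mono (i12.add i43) ((j1.add j3).const_mul ((p : ℝ) / 2)) key
  have L : ∫ z, ((X (mx B z) * (X (vv z) - E0) ^ (2 * p - 1)).trace.re -
      (X (mx A z) * (X (vv z) - E0) ^ (2 * p - 1)).trace.re +
      ((X (mx A z) * (X (vv (ex a z)) - E0) ^ (2 * p - 1)).trace.re -
      (X (mx B z) * (X (vv (ex a z)) - E0) ^ (2 * p - 1)).trace.re)) ∂P =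
      2 * (∫ z, (X (mx B z) * (X (vv z) - E0) ^ (2 * p - 1)).trace.re ∂P -
        ∫ z, (X (mx A z) * (X (vv z) - E0) ^ (2 * p - 1)).trace.re ∂P) := by
    rw [integral_add i12 i43, integral_sub i1 i2, integral_sub i4 i3, ← e1, ← e2]
    ring
  have R : ∫ z, (p / 2 * (s * (T1 z + T1 (ex a z)) + 1 / s * (T3 z + T3 (ex a z)))) ∂P =
      2 * (s * (p / 2 * ∫ z, T1 z ∂P) + 1 / s * (p / 2 * ∫ z, T3 z ∂P)) := by
    rw [integral_const_mul, integral_add j1 j3, integral_const_mul, integral_const_mul,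
      integral_add (ci _ c1) (ci _ c1e), integral_add (ci _ c3) (ci _ c3e), hP,
      int_ex μ a T1 c1, int_ex μ a T3 c3]
    ring
  have hint2 : 2 * (∫ z, (X (mx B z) * (X (vv z) - E0) ^ (2 * p - 1)).trace.re ∂P -
        ∫ z, (X (mx A z) * (X (vv z) - E0) ^ (2 * p - 1)).trace.re ∂P) ≤
      2 * (s * (p / 2 * ∫ z, T1 z ∂P) + 1 / s * (p / 2 * ∫ z, T3 z ∂P)) := by
    rw [← L, ← R]
    exact hint
  have f1 : ∫ z, trw p (X (vv z) - E0) (X (mx univ z) -
        X (Function.update (mx univ z) a (z (a, false)))) ∂P = ∫ z, T1 z ∂P := by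
    simp only [mx_univ, ← vv_ex, hT1]
  have f3 : ∫ z, trw p (X (vv z) - E0) (X (mx B z) -
        X (Function.update (mx B z) a (z (a, false)))) ∂P = ∫ z, T3 z ∂P := by
    simp only [hB, ← mx_upd ha, hT3]
  rw [f1, f3]
  linarith

/-- the sum of the resampled weights -/
private theorem sum_m (μ : Measure ℝ) [IsProbabilityMeasure μ] (bd : ℝ)
    (hb : ∀ᵐ x ∂μ, |x| ≤ bd) (p : ℕ) (hp : 1 ≤ p) (X : (ι → ℝ) → Matrix κ κ ℂ)
    (hX : Continuous X) (hH : ∀ v, (X v).IsHermitian) (E0 : Matrix κ κ ℂ)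
    (hE : E0.IsHermitian)
    (N : (ι → ℝ) → ℝ) (hN : Measurable N) (hN0 : ∀ v, 0 ≤ N v) (Nb : ℝ) (hNb : ∀ v, N v ≤ Nb)
    (hyp : ∀ v, (∀ w, |v w| ≤ bd) → ∀ u : κ → ℂ,
      ∑ a, ∫ x, ∑ k, ‖((X v - X (Function.update v a x)) *ᵥ u) k‖ ^ 2 ∂μ ≤
        N v * ∑ k, ‖u k‖ ^ 2) (e : ℝ) (he : 0 < e) (B : Finset ι) :
    ∑ a ∈ B, ∫ z, trw p (X (vv z) - E0) (X (mx B z) -
        X (Function.update (mx B z) a (z (a, false)))) ∂(Measure.pi fun _ : ι × Bool => μ) ≤
      e * ∫ v, tr0 (2 * p) (X v - E0) ∂(Measure.pi fun _ : ι => μ) +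
        (Fintype.card κ : ℝ) * ((1 / e) ^ (p - 1) * ∫ v, N v ^ p ∂(Measure.pi fun _ : ι => μ)) := by
  set P := (Measure.pi fun _ : ι × Bool => μ) with hP
  have cY : Continuous fun z : ι × Bool → ℝ => X (vv z) - E0 :=
    (hX.comp vv_cont).sub continuous_const
  have cB : Continuous fun z : ι × Bool → ℝ => X (mx B z) := hX.comp (mx_cont B)
  have cg : ∀ a, Continuous fun z : ι × Bool → ℝ => trw p (X (vv z) - E0) (X (mx B z) -
        X (Function.update (mx B z) a (z (a, false)))) := by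
    intro a
    refine trw_cont p cY (cB.sub (hX.comp ?_))
    exact (mx_cont B).update a (continuous_apply (a, false))
  have h1 : ∀ a ∈ B, ∫ z, trw p (X (vv z) - E0) (X (mx B z) -
        X (Function.update (mx B z) a (z (a, false)))) ∂P =
      ∫ z, ∫ x, trw p (X (vv z) - E0) (X (mx B z) -
        X (Function.update (mx B z) a x)) ∂μ ∂P := by
    intro a ha
    have h := resample μ bd hb _ (cg a) (a, false)
    rw [hP, ← h]
    simp only [vv_up, mx_up ha, Function.update_self]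
  rw [Finset.sum_congr rfl h1]
  have h2 : ∀ a ∈ B, Integrable (fun z => ∫ x, trw p (X (vv z) - E0) (X (mx B z) -
        X (Function.update (mx B z) a x)) ∂μ) P := by
    intro a _
    have h3 : Continuous fun q : (ι × Bool → ℝ) × ℝ => trw p (X (vv q.1) - E0) (X (mx B q.1) -
        X (Function.update (mx B q.1) a q.2)) := by
      refine trw_cont p (cY.comp continuous_fst) ((cB.comp continuous_fst).sub (hX.comp ?_))
      exact ((mx_cont B).comp continuous_fst).update a continuous_snd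
    exact (cont_integrable_prod μ bd hb _ h3).integral_prod_left
  rw [← integral_finsetSum _ h2]
  have hNm : Measurable fun z : ι × Bool → ℝ => N (mx B z) ^ p :=
    (hN.comp (mx_cont B).measurable).pow_const p
  have i1 : Integrable (fun z : ι × Bool → ℝ => e * tr0 (2 * p) (X (vv z) - E0)) P :=
    (cont_integrable μ bd hb _ (tr0_cont (2 * p) cY)).const_mul e
  have i2 : Integrable (fun z : ι × Bool → ℝ =>
      (Fintype.card κ : ℝ) * ((1 / e) ^ (p - 1) * N (mx B z) ^ p)) P := by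
    refine ((Integrable.of_bound hNm.aestronglyMeasurable (Nb ^ p) ?_).const_mul _).const_mul _
    refine Filter.Eventually.of_forall fun z => ?_
    rw [Real.norm_eq_abs, abs_of_nonneg (pow_nonneg (hN0 _) _)]
    exact pow_le_pow_left₀ (hN0 _) (hNb _) _
  have h4 := integral_mono_ae (integrable_finsetSum B h2) (i1.add i2) (by
    filter_upwards [ae_bdd μ bd hb (ι := ι × Bool)] with z hz
    refine pt_bound μ bd hb p hp ((hH _).sub hE)
      (fun a x => X (mx B z) - X (Function.update (mx B z) a x)) (fun a => ?_)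
      (fun a x => (hH _).sub (hH _)) (hN0 _) he B (hyp (mx B z) fun w => hz _)
    exact continuous_const.sub (hX.comp (continuous_const.update a continuous_id)))
  refine h4.trans (le_of_eq ?_)
  have h5 : ∫ z, (e * tr0 (2 * p) (X (vv z) - E0) +
      (Fintype.card κ : ℝ) * ((1 / e) ^ (p - 1) * N (mx B z) ^ p)) ∂P =
      e * ∫ v, tr0 (2 * p) (X v - E0) ∂(Measure.pi fun _ : ι => μ) +
        (Fintype.card κ : ℝ) * ((1 / e) ^ (p - 1) * ∫ v, N v ^ p ∂(Measure.pi fun _ : ι => μ)) := by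
    rw [integral_add i1 i2, integral_const_mul, integral_const_mul, integral_const_mul]
    have h6 : Continuous fun v => tr0 (2 * p) (X v - E0) :=
      tr0_cont (2 * p) (hX.sub continuous_const)
    rw [hP, int_vv μ (fun v => tr0 (2 * p) (X v - E0)) h6.measurable,
      int_mx μ B (fun v => N v ^ p) (hN.pow_const p)]
  exact h5

private theorem J_top (μ : Measure ℝ) [IsProbabilityMeasure μ] (bd : ℝ)
    (hb : ∀ᵐ x ∂μ, |x| ≤ bd) (p : ℕ) (hp : 1 ≤ p) (X : (ι → ℝ) → Matrix κ κ ℂ)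
    (hX' : ∀ i j, Continuous fun v => X v i j) (hX : Continuous X) :
    ∫ z, (X (mx univ z) * (X (vv z) - EM μ X) ^ (2 * p - 1)).trace.re
        ∂(Measure.pi fun _ : ι × Bool => μ) -
      ∫ z, (X (mx ∅ z) * (X (vv z) - EM μ X) ^ (2 * p - 1)).trace.re
        ∂(Measure.pi fun _ : ι × Bool => μ) =
      ∫ v, tr0 (2 * p) (X v - EM μ X) ∂(Measure.pi fun _ : ι => μ) := by
  set F : (ι → ℝ) → Matrix κ κ ℂ := fun v => (X v - EM μ X) ^ (2 * p - 1) with hF
  have cF : Continuous F := (hX.sub continuous_const).pow _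
  have c1 : Continuous fun v => (X v * F v).trace.re := trc_cont hX cF
  have c2 : Continuous fun v => (EM μ X * F v).trace.re := trc_cont continuous_const cF
  have e1 : ∫ z, (X (mx univ z) * F (vv z)).trace.re ∂(Measure.pi fun _ : ι × Bool => μ) =
      ∫ v, (X v * F v).trace.re ∂(Measure.pi fun _ : ι => μ) := by
    rw [← int_vv μ _ c1.measurable]
    simp only [mx_univ]
  have e2 : ∫ z, (X (mx ∅ z) * F (vv z)).trace.re ∂(Measure.pi fun _ : ι × Bool => μ) =
      ∫ v, (EM μ X * F v).trace.re ∂(Measure.pi fun _ : ι => μ) := by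
    have c3 : Continuous fun z : ι × Bool → ℝ => (X (mx ∅ z) * F (vv z)).trace.re :=
      trc_cont (hX.comp (mx_cont ∅)) (cF.comp vv_cont)
    have h := mp_join (ι := ι) μ
    rw [← h.map_eq, integral_map h.measurable.aemeasurable c3.aestronglyMeasurable]
    have h1 : ∀ q : (ι → ℝ) × (ι → ℝ), mx ∅ (jn q) = q.2 := by
      intro q
      funext i
      simp [mx, jn]
    have h2 : ∀ q : (ι → ℝ) × (ι → ℝ), vv (jn q) = q.1 := by
      intro q
      funext i
      simp [vv, jn]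
    simp only [h1, h2]
    have c4 : Continuous fun q : (ι → ℝ) × (ι → ℝ) => (X q.2 * F q.1).trace.re :=
      trc_cont (hX.comp continuous_snd) (cF.comp continuous_fst)
    rw [integral_prod _ (cip μ bd hb _ c4)]
    refine integral_congr_ae (Filter.Eventually.of_forall fun v => ?_)
    exact int_trc μ bd hb X hX' (F v)
  change ∫ z, (X (mx univ z) * F (vv z)).trace.re ∂(Measure.pi fun _ : ι × Bool => μ) -
      ∫ z, (X (mx ∅ z) * F (vv z)).trace.re ∂(Measure.pi fun _ : ι × Bool => μ) = _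
  rw [e1, e2, ← integral_sub (cont_integrable μ bd hb _ c1) (cont_integrable μ bd hb _ c2)]
  refine integral_congr_ae (Filter.Eventually.of_forall fun v => ?_)
  dsimp only
  unfold tr0
  rw [← Complex.sub_re, ← Matrix.trace_sub, ← Matrix.sub_mul, hF]
  dsimp only
  rw [← pow_succ']
  congr 3
  omega

theorem matrix_efron_stein (μ : Measure ℝ) [IsProbabilityMeasure μ] (bd : ℝ)
    (hb : ∀ᵐ x ∂μ, |x| ≤ bd) (p : ℕ) (hp : 1 ≤ p) (X : (ι → ℝ) → Matrix κ κ ℂ)
    (hX : ∀ i j, Continuous fun v => X v i j) (hH : ∀ v, (X v).IsHermitian)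
    (N : (ι → ℝ) → ℝ) (hN : Measurable N) (hN0 : ∀ v, 0 ≤ N v) (Nb : ℝ) (hNb : ∀ v, N v ≤ Nb)
    (hyp : ∀ v, (∀ w, |v w| ≤ bd) → ∀ u : κ → ℂ,
      ∑ a, ∫ x, ∑ k, ‖((X v - X (Function.update v a x)) *ᵥ u) k‖ ^ 2 ∂μ ≤
        N v * ∑ k, ‖u k‖ ^ 2) :
    ∫ v, tr0 (2 * p) (X v - EM μ X) ∂(Measure.pi fun _ : ι => μ) ≤
      (4 * p) ^ p * (Fintype.card κ : ℝ) * ∫ v, N v ^ p ∂(Measure.pi fun _ : ι => μ) := by
  have hXc : Continuous X := continuous_matrix hX
  have hE := EM_herm μ X hH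
  have hp0 : (0 : ℝ) < p := by exact_mod_cast hp
  set Ψ := ∫ v, tr0 (2 * p) (X v - EM μ X) ∂(Measure.pi fun _ : ι => μ) with hΨ
  set W := ∫ v, N v ^ p ∂(Measure.pi fun _ : ι => μ) with hW
  have hΨ0 : 0 ≤ Ψ := integral_nonneg fun v => tr0_nonneg p ((hH v).sub hE)
  have hW0 : 0 ≤ W := integral_nonneg fun v => pow_nonneg (hN0 v) p
  set e : ℝ := 1 / (4 * p) with he
  have he0 : 0 < e := by positivity
  set Q0 := e * Ψ + (Fintype.card κ : ℝ) * ((1 / e) ^ (p - 1) * W) with hQ0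
  have hQ00 : 0 ≤ Q0 := by positivity
  have hsum : ∀ B : Finset ι, ∑ a ∈ B, (p / 2 * ∫ z, trw p (X (vv z) - EM μ X) (X (mx B z) -
        X (Function.update (mx B z) a (z (a, false)))) ∂(Measure.pi fun _ : ι × Bool => μ)) ≤
      p / 2 * Q0 := by
    intro B
    rw [← Finset.mul_sum]
    exact mul_le_mul_of_nonneg_left
      (sum_m μ bd hb p hp X hXc hH (EM μ X) hE N hN hN0 Nb hNb hyp e he0 B) (by positivity)
  have h := noise_bound
    (fun B : Finset ι => ∫ z, (X (mx B z) * (X (vv z) - EM μ X) ^ (2 * p - 1)).trace.re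
        ∂(Measure.pi fun _ : ι × Bool => μ))
    (fun a => p / 2 * ∫ z, trw p (X (vv z) - EM μ X) (X (mx univ z) -
        X (Function.update (mx univ z) a (z (a, false)))) ∂(Measure.pi fun _ : ι × Bool => μ))
    (fun a B => p / 2 * ∫ z, trw p (X (vv z) - EM μ X) (X (mx B z) -
        X (Function.update (mx B z) a (z (a, false)))) ∂(Measure.pi fun _ : ι × Bool => μ))
    (fun _ => p / 2 * Q0) (p / 2 * Q0) (by positivity)
    (fun a A ha s hs => step μ bd hb p hp X hXc hH (EM μ X) hE a A ha s hs)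
    (hsum univ) hsum (fun θ _ => by rw [← Finset.sum_mul, sum_wA, one_mul])
  rw [J_top μ bd hb p hp X hX hXc, ← hΨ] at h
  have h2 : Ψ ≤ 1 / 2 * Ψ + 2 * p * ((Fintype.card κ : ℝ) * ((4 * p) ^ (p - 1) * W)) := by
    have h3 : (1 : ℝ) / e = 4 * p := by
      rw [he, one_div_one_div]
    have h4 : (p : ℝ) * e = 1 / 4 := by
      rw [he]
      field_simp
    rw [hQ0, h3] at h
    have h5 : 4 * ((p : ℝ) / 2 * (e * Ψ + (Fintype.card κ : ℝ) * ((4 * p) ^ (p - 1) * W))) =
        2 * (p * e) * Ψ + 2 * p * ((Fintype.card κ : ℝ) * ((4 * p) ^ (p - 1) * W)) := by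
      ring
    rw [h5, h4] at h
    linarith
  have h6 : (4 * (p : ℝ)) ^ p = (4 * p) ^ (p - 1) * (4 * p) := by
    rw [← pow_succ]
    congr 1
    omega
  rw [h6]
  nlinarith

end Pool.Agent.APS
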