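import Pool.Agent.APS.Flow5
import Pool.Agent.APS.MES
import Pool.Agent.Kin.Rep1

/-! # APS LOWLOW: the low-low block of `S` is close to its mean (matrix Efron-Stein).

`S(v) = SO.f r (λ r v)`, `X(v) = (1-Pi) S(v) (1-Pi)` hermitian, continuous in `v`.
`S(v) - S(v[a→x])`: by `res_update` (Kin/Rep1.lean) `G(v[a→x]) = G - α G_·a G_a·`,
`α = δ/(1 + δ G_aa)`, `δ = λ r (x - v_a)`, `|δ| ≤ 2 bd λ`.
`Da := S(v) - S(v[a→x]) = 2 Re(α A_a) - |α|² B_a`, `A_a = G_xa G_ay conj G_xy`, `B_a = S_xa S_ay`.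
GOOD `v` (all `|G_xx| ≤ C1`, `4 bd λ C1 ≤ 1`): `|α| ≤ 2|δ| ≤ 4 bd λ`, `|α| C1 ≤ 1`.  `u' = (1-Pi) u`:
`‖(1-Pi) Da u'‖² ≤ epL ‖Da u'‖_1²` (`LowMode.low`).
`‖A_a u'‖_1 ≤ ∑_x |G_xa||Phi_xa| ≤ (C1/et)^(1/2) (∑_x |Phi_xa|²)^(1/2)`, `Phi = conj(G) diag(u') G`,
`∑_xa |Phi_xa|² ≤ (C1/et³) ‖u'‖²` (as in NOISEA `phi_sum`; there the hypothesis is `Cfg`, here only
`|G_xx| ≤ C1` is known, same proof: Ward and `‖G‖ ≤ 1/et`), so `∑_a ‖A_a u'‖_1² ≤ C1²/et⁴ ‖u'‖²`;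
the same for `conj A_a`.  `‖B_a u'‖_1 ≤ (C1/et) |(S |u'|)_a|`: `∑_a ‖B_a u'‖_1² ≤ C1⁴/et⁴ ‖u'‖²`.
`‖Da u'‖_1² ≤ 3 |α|² (‖A_a u'‖_1² + ‖conj A_a u'‖_1² + |α|² ‖B_a u'‖_1²)`, sum over `a`:
`≤ 9 |α|² C1²/et⁴ ≤ 144 bd² λ² C1²/et⁴ ‖u‖²` (`‖u'‖ ≤ ‖u‖`).  (`x` with `|x| ≤ bd`, a.e.)
Because `α` depends on `x` and `a`: bound `|α|` by `4 bd λ` inside.
OTHER `v`: `‖S(v)‖ ≤ 1/et²` for every `v` (row sums `Im G_xx/et ≤ 1/et²`), so
`‖(X(v) - X(v[a→x])) u‖² ≤ 4/et⁴ ‖u‖²`, sum over `a`: `4 N/et⁴`.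
`N(v) = 144 bd² λ² C1⁴ epL/et⁴` if `v ∉ bad`, plus `4 N/et⁴` on `bad`;
`N(v)^p ≤ (144 bd² λ² C1⁴ epL/et⁴)^p + (sum of both)^p 1_bad`; to keep the statement simple:
`N(v) = max`-type choice: first constant off `bad`, `4N/et⁴` on `bad`.
`matrix_efron_stein` and `E(X) = (1-Pi) E(S) (1-Pi)`.
`low_low_prob`: Markov for `tr0 (2p)` (for hermitian `A`: `‖A‖^(2p) ≤ tr0 (2p) A`).
-/

open Matrix Finset MeasureTheory

noncomputable section

namespace Pool.Agent.APS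

open Pool.Agent.Kin

variable {ι : Type} [Fintype ι] [DecidableEq ι]

/-- the mean of `S` at time `r` -/
def ES (D : Fl ι) (μ : Measure ℝ) (r : ℝ) : Matrix ι ι ℂ :=
  EM μ fun v => D.SO.f r (D.hv r v)

/-- the right side of the low-low estimate -/
def LLb (N bd lam C1 epL et pr : ℝ) (p : ℕ) : ℝ :=
  (4 * p) ^ p * N * ((144 * bd ^ 2 * lam ^ 2 * C1 ^ 4 * epL / et ^ 4) ^ p +
    (4 * N / et ^ 4) ^ p * pr)

/-! ### deterministic bounds -/

private lemma ll_im (D : Fl ι) (r : ℝ) : (D.zr r).im = D.et r := by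
  unfold Fl.zr Fl.et
  rw [Complex.add_im, Complex.im_ofReal_mul]

section det

variable {D : Fl ι} (hH : RealSym D.H0) {r : ℝ} (het : 0 < D.et r) (h : ι → ℝ)

include hH het

omit hH in
private lemma ll_pos : 0 < (D.zr r).im := by rw [ll_im]; exact het

private lemma ll_symm (x y : ι) : D.G r h x y = D.G r h y x :=
  res_symm hH (ll_pos het) h x y

private lemma ll_op : OpLe (D.G r h) (1 / D.et r) := by
  intro u
  have := res_norm hH (ll_pos het) h u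
  rw [ll_im] at this
  exact this

private lemma ll_row (x : ι) : ∑ y, ‖D.G r h x y‖ ^ 2 = (D.G r h x x).im / D.et r := by
  have := ward_row hH (ll_pos het) h x
  rw [ll_im] at this
  exact this

private lemma ll_row1 (x : ι) : ∑ y, ‖D.G r h x y‖ ^ 2 ≤ (1 / D.et r) ^ 2 :=
  opLe_row (by positivity) (ll_op hH het h) x

private lemma ll_S_schur {c : ℝ} (hc : ∀ x, ∑ y, ‖D.G r h x y‖ ^ 2 ≤ c) :
    OpLe (D.SO.f r h) c := by
  have hn : ∀ x y, ‖D.SO.f r h x y‖ = ‖D.G r h x y‖ ^ 2 := by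
    intro x y
    change ‖((‖D.G r h x y‖ ^ 2 : ℝ) : ℂ)‖ = _
    rw [Complex.norm_real, Real.norm_of_nonneg (by positivity)]
  apply opLe_schur
  · intro x
    simp only [hn]
    exact hc x
  · intro y
    simp only [hn]
    refine le_trans (le_of_eq ?_) (hc y)
    exact Finset.sum_congr rfl fun x _ => by rw [ll_symm hH het h x y]

variable {C1 : ℝ} (hC : ∀ x, ‖D.G r h x x‖ ≤ C1)

include hC

private lemma ll_rowC (x : ι) : ∑ y, ‖D.G r h x y‖ ^ 2 ≤ C1 / D.et r := by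
  rw [ll_row hH het h x]
  exact div_le_div_of_nonneg_right ((Complex.abs_im_le_norm _).trans' (le_abs_self _) |>.trans
    (hC x)) het.le

private lemma ll_A (u : ι → ℂ) :
    ∑ a, (∑ x, ‖∑ y, D.G r h x a * D.G r h a y * star (D.G r h x y) * u y‖) ^ 2 ≤
      C1 ^ 2 / D.et r ^ 4 * ∑ y, ‖u y‖ ^ 2 := by
  have hC0 : 0 ≤ C1 / D.et r ∨ IsEmpty ι := by
    rcases isEmpty_or_nonempty ι with h1 | ⟨⟨x0⟩⟩
    · exact Or.inr h1
    · left
      have := (norm_nonneg _).trans (hC x0)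
      positivity
  rcases hC0 with hC0 | hemp
  swap
  · simp
  have h1 : ∀ a x, ‖∑ y, D.G r h x a * D.G r h a y * star (D.G r h x y) * u y‖ =
      ‖D.G r h x a‖ * ‖((D.G r h).map star *ᵥ (fun y => D.G r h a y * u y)) x‖ := by
    intro a x
    rw [← norm_mul]
    congr 1
    rw [Matrix.mulVec, dotProduct, Finset.mul_sum]
    refine Finset.sum_congr rfl fun y _ => ?_
    rw [Matrix.map_apply]
    ring
  have h2 : ∀ a, (∑ x, ‖∑ y, D.G r h x a * D.G r h a y * star (D.G r h x y) * u y‖) ^ 2 ≤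
      C1 / D.et r * ((1 / D.et r) ^ 2 * ∑ y, ‖D.G r h a y‖ ^ 2 * ‖u y‖ ^ 2) := by
    intro a
    simp only [h1]
    refine (Finset.sum_mul_sq_le_sq_mul_sq _ _ _).trans ?_
    apply mul_le_mul
    · refine le_trans (le_of_eq ?_) (ll_rowC hH het h hC a)
      exact Finset.sum_congr rfl fun x _ => by rw [ll_symm hH het h x a]
    · refine (opLe_star (ll_op hH het h) _).trans (le_of_eq ?_)
      congr 1
      exact Finset.sum_congr rfl fun y _ => by rw [norm_mul, mul_pow]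
    · exact Finset.sum_nonneg fun _ _ => by positivity
    · exact hC0
  refine (Finset.sum_le_sum fun a _ => h2 a).trans ?_
  rw [← Finset.mul_sum, ← Finset.mul_sum, Finset.sum_comm]
  have h3 : ∑ y, ∑ a, ‖D.G r h a y‖ ^ 2 * ‖u y‖ ^ 2 ≤ C1 / D.et r * ∑ y, ‖u y‖ ^ 2 := by
    rw [Finset.mul_sum]
    refine Finset.sum_le_sum fun y _ => ?_
    rw [← Finset.sum_mul]
    apply mul_le_mul_of_nonneg_right _ (by positivity)
    refine le_trans (le_of_eq ?_) (ll_rowC hH het h hC y)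
    exact Finset.sum_congr rfl fun x _ => by rw [ll_symm hH het h x y]
  calc C1 / D.et r * ((1 / D.et r) ^ 2 * ∑ y, ∑ a, ‖D.G r h a y‖ ^ 2 * ‖u y‖ ^ 2)
      ≤ C1 / D.et r * ((1 / D.et r) ^ 2 * (C1 / D.et r * ∑ y, ‖u y‖ ^ 2)) := by
        apply mul_le_mul_of_nonneg_left _ hC0
        exact mul_le_mul_of_nonneg_left h3 (by positivity)
    _ = _ := by field_simp

private lemma ll_A' (u : ι → ℂ) :
    ∑ a, (∑ x, ‖∑ y, star (D.G r h x a) * star (D.G r h a y) * D.G r h x y * u y‖) ^ 2 ≤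
      C1 ^ 2 / D.et r ^ 4 * ∑ y, ‖u y‖ ^ 2 := by
  have h1 := ll_A hH het h hC (star u)
  have h2 : ∀ a x, ‖∑ y, star (D.G r h x a) * star (D.G r h a y) * D.G r h x y * u y‖ =
      ‖∑ y, D.G r h x a * D.G r h a y * star (D.G r h x y) * star u y‖ := by
    intro a x
    rw [← norm_star]
    congr 1
    rw [star_sum]
    refine Finset.sum_congr rfl fun y _ => ?_
    simp only [star_mul', star_star, Pi.star_apply]
  simp only [h2]
  refine h1.trans (le_of_eq ?_)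
  congr 1
  exact Finset.sum_congr rfl fun y _ => by rw [Pi.star_apply, norm_star]

private lemma ll_B (u : ι → ℂ) :
    ∑ a, (∑ x, ‖∑ y, (((‖D.G r h x a‖ ^ 2 * ‖D.G r h a y‖ ^ 2 : ℝ)) : ℂ) * u y‖) ^ 2 ≤
      C1 ^ 4 / D.et r ^ 4 * ∑ y, ‖u y‖ ^ 2 := by
  have hC0 : 0 ≤ C1 / D.et r ∨ IsEmpty ι := by
    rcases isEmpty_or_nonempty ι with h1 | ⟨⟨x0⟩⟩
    · exact Or.inr h1
    · left
      have := (norm_nonneg _).trans (hC x0)
      positivity
  rcases hC0 with hC0 | hemp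
  swap
  · simp
  have h1 : ∀ a x, ‖∑ y, (((‖D.G r h x a‖ ^ 2 * ‖D.G r h a y‖ ^ 2 : ℝ)) : ℂ) * u y‖ =
      ‖D.G r h x a‖ ^ 2 * ‖(D.SO.f r h *ᵥ u) a‖ := by
    intro a x
    have h2 : ∑ y, (((‖D.G r h x a‖ ^ 2 * ‖D.G r h a y‖ ^ 2 : ℝ)) : ℂ) * u y =
        ((‖D.G r h x a‖ ^ 2 : ℝ) : ℂ) * (D.SO.f r h *ᵥ u) a := by
      rw [Matrix.mulVec, dotProduct, Finset.mul_sum]
      refine Finset.sum_congr rfl fun y _ => ?_
      change _ = ((‖D.G r h x a‖ ^ 2 : ℝ) : ℂ) * (((‖D.G r h a y‖ ^ 2 : ℝ) : ℂ) * u y)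
      push_cast
      ring
    rw [h2, norm_mul, Complex.norm_real, Real.norm_of_nonneg (by positivity)]
  have h2 : ∀ a, (∑ x, ‖∑ y, (((‖D.G r h x a‖ ^ 2 * ‖D.G r h a y‖ ^ 2 : ℝ)) : ℂ) * u y‖) ^ 2 ≤
      (C1 / D.et r) ^ 2 * ‖(D.SO.f r h *ᵥ u) a‖ ^ 2 := by
    intro a
    simp only [h1]
    rw [← Finset.sum_mul, mul_pow]
    apply mul_le_mul_of_nonneg_right _ (by positivity)
    apply pow_le_pow_left₀ (Finset.sum_nonneg fun _ _ => by positivity)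
    refine le_trans (le_of_eq ?_) (ll_rowC hH het h hC a)
    exact Finset.sum_congr rfl fun x _ => by rw [ll_symm hH het h x a]
  refine (Finset.sum_le_sum fun a _ => h2 a).trans ?_
  rw [← Finset.mul_sum]
  have h3 := ll_S_schur hH het h (ll_rowC hH het h hC) u
  calc (C1 / D.et r) ^ 2 * ∑ a, ‖(D.SO.f r h *ᵥ u) a‖ ^ 2
      ≤ (C1 / D.et r) ^ 2 * ((C1 / D.et r) ^ 2 * ∑ y, ‖u y‖ ^ 2) :=
        mul_le_mul_of_nonneg_left h3 (by positivity)
    _ = _ := by field_simp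

end det

/-! ### the projection -/

private lemma ll_Q {Pi : Matrix ι ι ℂ} {epL : ℝ} (hP : LowMode Pi epL) :
    (1 - Pi)ᴴ = 1 - Pi ∧ (1 - Pi) * (1 - Pi) = 1 - Pi ∧ OpLe (1 - Pi) 1 := by
  have h1 : (1 - Pi)ᴴ = 1 - Pi := by rw [conjTranspose_sub, conjTranspose_one, hP.herm]
  have h2 : (1 - Pi) * (1 - Pi) = 1 - Pi := by
    rw [sub_mul, mul_sub, mul_sub, hP.idem]
    simp
  refine ⟨h1, h2, ?_⟩
  intro u
  set v : ι → ℂ := (1 - Pi) *ᵥ u with hv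
  have h3 : ((∑ x, ‖v x‖ ^ 2 : ℝ) : ℂ) = ∑ x, star (u x) * (1 *ᵥ v) x := by
    have h4 : ((∑ x, ‖v x‖ ^ 2 : ℝ) : ℂ) = star v ⬝ᵥ v := by
      rw [dotProduct]
      push_cast
      refine Finset.sum_congr rfl fun x _ => ?_
      change _ = star (v x) * v x
      rw [Complex.star_def, Complex.conj_mul']
    rw [h4, one_mulVec]
    change _ = star u ⬝ᵥ v
    have h5 : star v ⬝ᵥ v = star u ⬝ᵥ ((1 - Pi)ᴴ *ᵥ v) := by
      rw [hv, star_mulVec, dotProduct_mulVec]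
      rw [← dotProduct_mulVec, ← dotProduct_mulVec]
    rw [h5, h1, hv, mulVec_mulVec, h2]
  have h6 := opLe_form (by norm_num) (opLe_one (κ := ι)) u v
  rw [← h3, Complex.norm_real, Real.norm_of_nonneg (Finset.sum_nonneg fun _ _ => by positivity),
    one_mul] at h6
  set A := ∑ x, ‖v x‖ ^ 2 with hA
  set B := ∑ x, ‖u x‖ ^ 2 with hB
  have hA0 : 0 ≤ A := Finset.sum_nonneg fun _ _ => by positivity
  have hB0 : 0 ≤ B := Finset.sum_nonneg fun _ _ => by positivity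
  have h7 : √A * √A ≤ √B * √A := by
    rw [Real.mul_self_sqrt hA0]; exact h6
  rw [one_pow, one_mul]
  rcases hA0.eq_or_lt with h8 | h8
  · rw [← h8]; exact hB0
  · have h9 : √A ≤ √B := le_of_mul_le_mul_right h7 (Real.sqrt_pos.2 h8)
    exact (Real.sqrt_le_sqrt_iff hB0).1 h9

/-! ### changing one coordinate -/

private lemma ll_hv (D : Fl ι) (r : ℝ) (v : ι → ℝ) (a : ι) (x : ℝ) :
    D.hv r (Function.update v a x) = Function.update (D.hv r v) a (D.lam * r * x) := by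
  funext w
  unfold Fl.hv
  by_cases hw : w = a
  · subst hw; simp
  · simp [Function.update_of_ne hw]

private lemma ll_diff {D : Fl ι} (hH : RealSym D.H0) {r : ℝ} (het : 0 < D.et r) (v : ι → ℝ) (a : ι)
    (x : ℝ) (u : ι → ℂ) (i : ι) :
    ((D.SO.f r (D.hv r v) - D.SO.f r (D.hv r (Function.update v a x))) *ᵥ u) i =
      (((D.lam * r * x - D.hv r v a : ℝ) : ℂ) / (1 + ((D.lam * r * x - D.hv r v a : ℝ) : ℂ) *
        D.G r (D.hv r v) a a)) *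
        ∑ y, D.G r (D.hv r v) i a * D.G r (D.hv r v) a y * star (D.G r (D.hv r v) i y) * u y +
      star (((D.lam * r * x - D.hv r v a : ℝ) : ℂ) / (1 + ((D.lam * r * x - D.hv r v a : ℝ) : ℂ) *
        D.G r (D.hv r v) a a)) *
        ∑ y, star (D.G r (D.hv r v) i a) * star (D.G r (D.hv r v) a y) *
          D.G r (D.hv r v) i y * u y -
      ((((D.lam * r * x - D.hv r v a : ℝ) : ℂ) / (1 + ((D.lam * r * x - D.hv r v a : ℝ) : ℂ) *
        D.G r (D.hv r v) a a)) *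
      star (((D.lam * r * x - D.hv r v a : ℝ) : ℂ) / (1 + ((D.lam * r * x - D.hv r v a : ℝ) : ℂ) *
        D.G r (D.hv r v) a a))) *
        ∑ y, (((‖D.G r (D.hv r v) i a‖ ^ 2 * ‖D.G r (D.hv r v) a y‖ ^ 2 : ℝ)) : ℂ) * u y := by
  set G := D.G r (D.hv r v) with hG
  set α : ℂ := ((D.lam * r * x - D.hv r v a : ℝ) : ℂ) / (1 + ((D.lam * r * x - D.hv r v a : ℝ) : ℂ) *
        G a a) with hα
  rw [Matrix.mulVec, dotProduct, Finset.mul_sum, Finset.mul_sum, Finset.mul_sum,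
    ← Finset.sum_add_distrib, ← Finset.sum_sub_distrib]
  refine Finset.sum_congr rfl fun y _ => ?_
  have h1 : D.G r (D.hv r (Function.update v a x)) i y = G i y - α * (G i a * G a y) := by
    rw [ll_hv]
    exact res_update hH (ll_pos het) (D.hv r v) a (D.lam * r * x) i y
  have h2 : ∀ w : ℂ, ((‖w‖ ^ 2 : ℝ) : ℂ) = w * star w := by
    intro w
    rw [Complex.star_def, Complex.mul_conj, Complex.normSq_eq_norm_sq]
  have h3 : (D.SO.f r (D.hv r v) - D.SO.f r (D.hv r (Function.update v a x))) i y =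
      ((‖G i y‖ ^ 2 : ℝ) : ℂ) -
        ((‖D.G r (D.hv r (Function.update v a x)) i y‖ ^ 2 : ℝ) : ℂ) := rfl
  rw [h3, h1, h2, h2, Complex.ofReal_mul, h2, h2]
  simp only [star_sub, star_mul']
  ring

private lemma ll_alpha {D : Fl ι} {r bd C1 : ℝ} (hr0 : 0 ≤ r) (hr1 : r ≤ 1)
    (hlam : 0 < D.lam) (hbd : 0 < bd) (hsmall : 4 * bd * D.lam * C1 ≤ 1) (v : ι → ℝ)
    (hv : ∀ w, |v w| ≤ bd) (hG : ∀ x, ‖D.G r (D.hv r v) x x‖ ≤ C1) (a : ι) (x : ℝ)
    (hx : |x| ≤ bd) :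
    ‖((D.lam * r * x - D.hv r v a : ℝ) : ℂ) / (1 + ((D.lam * r * x - D.hv r v a : ℝ) : ℂ) *
        D.G r (D.hv r v) a a)‖ ≤ 4 * bd * D.lam := by
  set δ : ℝ := D.lam * r * x - D.hv r v a with hδ
  set g := D.G r (D.hv r v) a a with hg
  have h1 : |δ| ≤ 2 * bd * D.lam := by
    have h2 : δ = D.lam * r * (x - v a) := by
      rw [hδ]; unfold Fl.hv; ring
    rw [h2, abs_mul, abs_mul, abs_of_pos hlam, abs_of_nonneg hr0]
    have h3 : |x - v a| ≤ 2 * bd := by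
      have := abs_sub x (v a)
      have h4 := hv a
      calc |x - v a| ≤ |x| + |v a| := abs_sub x (v a)
        _ ≤ 2 * bd := by linarith
    calc D.lam * r * |x - v a| ≤ D.lam * 1 * (2 * bd) := by gcongr
      _ = _ := by ring
  have hgC : ‖g‖ ≤ C1 := hG a
  have h4 : ‖(δ : ℂ) * g‖ ≤ 1 / 2 := by
    rw [norm_mul, Complex.norm_real, Real.norm_eq_abs]
    calc |δ| * ‖g‖ ≤ 2 * bd * D.lam * C1 := by gcongr
      _ ≤ 1 / 2 := by linarith
  have h5 : 1 / 2 ≤ ‖1 + (δ : ℂ) * g‖ := by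
    have := norm_sub_norm_le (1 : ℂ) (-((δ : ℂ) * g))
    rw [norm_neg, norm_one, sub_neg_eq_add] at this
    linarith
  rw [norm_div, Complex.norm_real, Real.norm_eq_abs, div_le_iff₀ (by linarith)]
  calc |δ| ≤ 2 * bd * D.lam := h1
    _ = 4 * bd * D.lam * (1 / 2) := by ring
    _ ≤ 4 * bd * D.lam * ‖1 + (δ : ℂ) * g‖ := by gcongr

private lemma ll_l1 {D : Fl ι} (hH : RealSym D.H0) {r bd C1 : ℝ} (het : 0 < D.et r) (hr0 : 0 ≤ r)
    (hr1 : r ≤ 1) (hlam : 0 < D.lam) (hbd : 0 < bd) (hsmall : 4 * bd * D.lam * C1 ≤ 1) (v : ι → ℝ)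
    (hv : ∀ w, |v w| ≤ bd) (hG : ∀ x, ‖D.G r (D.hv r v) x x‖ ≤ C1) (a : ι) (x : ℝ)
    (hx : |x| ≤ bd) (u : ι → ℂ) :
    (∑ i, ‖((D.SO.f r (D.hv r v) - D.SO.f r (D.hv r (Function.update v a x))) *ᵥ u) i‖) ^ 2 ≤
      3 * (4 * bd * D.lam) ^ 2 *
        ((∑ i, ‖∑ y, D.G r (D.hv r v) i a * D.G r (D.hv r v) a y *
          star (D.G r (D.hv r v) i y) * u y‖) ^ 2 +
        (∑ i, ‖∑ y, star (D.G r (D.hv r v) i a) * star (D.G r (D.hv r v) a y) *
          D.G r (D.hv r v) i y * u y‖) ^ 2 +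
        (4 * bd * D.lam) ^ 2 *
          (∑ i, ‖∑ y, (((‖D.G r (D.hv r v) i a‖ ^ 2 * ‖D.G r (D.hv r v) a y‖ ^ 2 : ℝ)) : ℂ) *
            u y‖) ^ 2) := by
  have hα := ll_alpha hr0 hr1 hlam hbd hsmall v hv hG a x hx
  set α : ℂ := ((D.lam * r * x - D.hv r v a : ℝ) : ℂ) /
    (1 + ((D.lam * r * x - D.hv r v a : ℝ) : ℂ) * D.G r (D.hv r v) a a) with hαd
  set b : ℝ := 4 * bd * D.lam with hb
  have hb0 : 0 < b := by positivity
  set P1 : ι → ℝ := fun i => ‖∑ y, D.G r (D.hv r v) i a * D.G r (D.hv r v) a y *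
          star (D.G r (D.hv r v) i y) * u y‖ with hP1
  set P2 : ι → ℝ := fun i => ‖∑ y, star (D.G r (D.hv r v) i a) * star (D.G r (D.hv r v) a y) *
          D.G r (D.hv r v) i y * u y‖ with hP2
  set P3 : ι → ℝ := fun i => ‖∑ y, (((‖D.G r (D.hv r v) i a‖ ^ 2 *
    ‖D.G r (D.hv r v) a y‖ ^ 2 : ℝ)) : ℂ) * u y‖ with hP3
  have h1 : ∀ i, ‖((D.SO.f r (D.hv r v) - D.SO.f r (D.hv r (Function.update v a x))) *ᵥ u) i‖ ≤
      b * (P1 i + P2 i + b * P3 i) := by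
    intro i
    rw [ll_diff hH het v a x u i, ← hαd]
    refine (norm_sub_le _ _).trans ?_
    refine (add_le_add_left (norm_add_le _ _) _).trans ?_
    rw [norm_mul, norm_mul, norm_mul, norm_mul, norm_star]
    change ‖α‖ * P1 i + ‖α‖ * P2 i + ‖α‖ * ‖α‖ * P3 i ≤ _
    have e1 : 0 ≤ P1 i := norm_nonneg _
    have e2 : 0 ≤ P2 i := norm_nonneg _
    have e3 : 0 ≤ P3 i := norm_nonneg _
    have e4 : 0 ≤ ‖α‖ := norm_nonneg _
    calc ‖α‖ * P1 i + ‖α‖ * P2 i + ‖α‖ * ‖α‖ * P3 i ≤ b * P1 i + b * P2 i + b * b * P3 i := by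
          gcongr
      _ = _ := by ring
  have h2 : ∑ i, ‖((D.SO.f r (D.hv r v) - D.SO.f r (D.hv r (Function.update v a x))) *ᵥ u) i‖ ≤
      b * (∑ i, P1 i + ∑ i, P2 i + b * ∑ i, P3 i) := by
    refine (Finset.sum_le_sum fun i _ => h1 i).trans (le_of_eq ?_)
    rw [← Finset.mul_sum, Finset.sum_add_distrib, Finset.sum_add_distrib, ← Finset.mul_sum]
  have h3 := pow_le_pow_left₀ (Finset.sum_nonneg fun i _ => norm_nonneg _) h2 2
  refine h3.trans ?_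
  set p1 := ∑ i, P1 i
  set p2 := ∑ i, P2 i
  set p3 := ∑ i, P3 i
  have h4 : (b * (p1 + p2 + b * p3)) ^ 2 = b ^ 2 * (p1 + p2 + b * p3) ^ 2 := by ring
  rw [h4]
  have h5 : (p1 + p2 + b * p3) ^ 2 ≤ 3 * (p1 ^ 2 + p2 ^ 2 + b ^ 2 * p3 ^ 2) := by
    nlinarith [sq_nonneg (p1 - p2), sq_nonneg (p1 - b * p3), sq_nonneg (p2 - b * p3)]
  calc b ^ 2 * (p1 + p2 + b * p3) ^ 2 ≤ b ^ 2 * (3 * (p1 ^ 2 + p2 ^ 2 + b ^ 2 * p3 ^ 2)) :=
        mul_le_mul_of_nonneg_left h5 (by positivity)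
    _ = _ := by ring

/-! ### the theorem -/

private lemma ll_contS {D : Fl ι} (hH : RealSym D.H0) {r : ℝ} (het : 0 < D.et r) (i j : ι) :
    Continuous fun v : ι → ℝ => D.SO.f r (D.hv r v) i j := by
  have hI : ∀ r' ∈ ({r} : Set ℝ), 0 < D.et r' := by
    intro r' hr'
    rw [Set.mem_singleton_iff.1 hr']
    exact het
  have h1 := (SO_reg D hH {r} hI).c0 i j
  have h2 : Continuous fun v : ι → ℝ => (r, D.hv r v) := by
    refine continuous_const.prodMk ?_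
    refine continuous_pi fun w => ?_
    exact continuous_const.mul (continuous_apply w)
  have h3 : ∀ v : ι → ℝ, (r, D.hv r v) ∈ ({r} : Set ℝ) ×ˢ (Set.univ : Set (ι → ℝ)) := fun v =>
    Set.mk_mem_prod (Set.mem_singleton r) (Set.mem_univ _)
  have h4 := h1.comp_continuous h2 h3
  simp only [Function.comp_def] at h4
  exact h4

private lemma ll_intS {D : Fl ι} (hH : RealSym D.H0) {r : ℝ} (het : 0 < D.et r)
    (μ : Measure ℝ) [IsProbabilityMeasure μ] (bd : ℝ) (hb : ∀ᵐ x ∂μ, |x| ≤ bd) (i j : ι) :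
    Integrable (fun v : ι → ℝ => D.SO.f r (D.hv r v) i j) (Measure.pi fun _ : ι => μ) := by
  have h1 := (cont_integrable μ bd hb _ (Complex.continuous_re.comp (ll_contS hH het i j))).ofReal
    (𝕜 := ℂ)
  refine h1.congr (Filter.Eventually.of_forall fun v => ?_)
  change ((((D.SO.f r (D.hv r v) i j)).re : ℝ) : ℂ) = D.SO.f r (D.hv r v) i j
  change ((((‖D.G r (D.hv r v) i j‖ ^ 2 : ℝ) : ℂ).re : ℝ) : ℂ) = ((‖D.G r (D.hv r v) i j‖ ^ 2 : ℝ) : ℂ)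
  rw [Complex.ofReal_re]

private lemma ll_EM {D : Fl ι} (hH : RealSym D.H0) {r : ℝ} (het : 0 < D.et r)
    (μ : Measure ℝ) [IsProbabilityMeasure μ] (bd : ℝ) (hb : ∀ᵐ x ∂μ, |x| ≤ bd)
    (Q : Matrix ι ι ℂ) :
    EM μ (fun v => Q * D.SO.f r (D.hv r v) * Q) = Q * ES D μ r * Q := by
  ext i j
  have hI := ll_intS hH het μ bd hb
  have h1 : ∀ l, Integrable (fun v : ι → ℝ => ∑ k, Q i k * D.SO.f r (D.hv r v) k l)
      (Measure.pi fun _ : ι => μ) :=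
    fun l => integrable_finsetSum _ fun k _ => (hI k l).const_mul _
  change ∫ v, (Q * D.SO.f r (D.hv r v) * Q) i j ∂(Measure.pi fun _ : ι => μ) = _
  simp only [Matrix.mul_apply]
  rw [integral_finsetSum _ fun l _ => (h1 l).mul_const _]
  refine Finset.sum_congr rfl fun l _ => ?_
  rw [integral_mul_const, integral_finsetSum _ fun k _ => (hI k l).const_mul _]
  congr 1
  refine Finset.sum_congr rfl fun k _ => ?_
  rw [integral_const_mul]
  rfl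

private lemma ll_hermS {D : Fl ι} (hH : RealSym D.H0) {r : ℝ} (het : 0 < D.et r) (h : ι → ℝ) :
    (D.SO.f r h).IsHermitian := by
  ext i j
  rw [conjTranspose_apply]
  change star ((‖D.G r h j i‖ ^ 2 : ℝ) : ℂ) = ((‖D.G r h i j‖ ^ 2 : ℝ) : ℂ)
  rw [ll_symm hH het h j i, Complex.star_def, Complex.conj_ofReal]

private lemma ll_hermX {D : Fl ι} (hH : RealSym D.H0) {r : ℝ} (het : 0 < D.et r) (h : ι → ℝ)
    {Q : Matrix ι ι ℂ} (hQ : Qᴴ = Q) : (Q * D.SO.f r h * Q).IsHermitian := by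
  rw [Matrix.IsHermitian, conjTranspose_mul, conjTranspose_mul, hQ, (ll_hermS hH het h).eq,
    Matrix.mul_assoc]

private lemma ll_contX {D : Fl ι} (hH : RealSym D.H0) {r : ℝ} (het : 0 < D.et r)
    (Q : Matrix ι ι ℂ) : Continuous fun v : ι → ℝ => Q * D.SO.f r (D.hv r v) * Q := by
  have h1 : Continuous fun v : ι → ℝ => D.SO.f r (D.hv r v) :=
    continuous_matrix fun i j => ll_contS hH het i j
  exact (continuous_const.matrix_mul h1).matrix_mul continuous_const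

private lemma ll_int_le (μ : Measure ℝ) [IsProbabilityMeasure μ] {f : ℝ → ℝ} {c : ℝ}
    (h0 : ∀ x, 0 ≤ f x) (h : ∀ᵐ x ∂μ, f x ≤ c) : ∫ x, f x ∂μ ≤ c := by
  have := integral_mono_of_nonneg (μ := μ) (f := f) (g := fun _ => c)
    (Filter.Eventually.of_forall h0) (integrable_const c) h
  simpa using this

private lemma ll_hyp (D : Fl ι) (hH : RealSym D.H0) (μ : Measure ℝ) [IsProbabilityMeasure μ]
    (bd : ℝ) (hbd : 0 < bd) (hb : ∀ᵐ x ∂μ, |x| ≤ bd) (r : ℝ) (hr0 : 0 ≤ r) (hr1 : r ≤ 1)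
    (het : 0 < D.et r) (hlam : 0 < D.lam) (C1 : ℝ) (hC1 : 1 ≤ C1)
    (hsmall : 4 * bd * D.lam * C1 ≤ 1) {Pi : Matrix ι ι ℂ} {epL : ℝ} (hP : LowMode Pi epL)
    (v : ι → ℝ) (hv : ∀ w, |v w| ≤ bd) (hG : ∀ x, ‖D.G r (D.hv r v) x x‖ ≤ C1) (u : ι → ℂ) :
    ∑ a, ∫ x, ∑ k, ‖((((1 - Pi) * D.SO.f r (D.hv r v) * (1 - Pi)) -
      ((1 - Pi) * D.SO.f r (D.hv r (Function.update v a x)) * (1 - Pi))) *ᵥ u) k‖ ^ 2 ∂μ ≤
        144 * bd ^ 2 * D.lam ^ 2 * C1 ^ 4 * epL / D.et r ^ 4 * ∑ k, ‖u k‖ ^ 2 := by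
  obtain ⟨hQh, hQi, hQ1⟩ := ll_Q hP
  set Q := 1 - Pi with hQ
  set w : ι → ℂ := Q *ᵥ u with hw
  set b : ℝ := 4 * bd * D.lam with hbdef
  have hb0 : 0 < b := by positivity
  set P1 : ι → ℝ := fun a => (∑ i, ‖∑ y, D.G r (D.hv r v) i a * D.G r (D.hv r v) a y *
          star (D.G r (D.hv r v) i y) * w y‖) ^ 2 with hP1
  set P2 : ι → ℝ := fun a => (∑ i, ‖∑ y, star (D.G r (D.hv r v) i a) *
    star (D.G r (D.hv r v) a y) * D.G r (D.hv r v) i y * w y‖) ^ 2 with hP2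
  set P3 : ι → ℝ := fun a => (∑ i, ‖∑ y, (((‖D.G r (D.hv r v) i a‖ ^ 2 *
    ‖D.G r (D.hv r v) a y‖ ^ 2 : ℝ)) : ℂ) * w y‖) ^ 2 with hP3
  have h1 : ∀ a, ∫ x, ∑ k, ‖((Q * D.SO.f r (D.hv r v) * Q -
      Q * D.SO.f r (D.hv r (Function.update v a x)) * Q) *ᵥ u) k‖ ^ 2 ∂μ ≤
      epL * (3 * b ^ 2 * (P1 a + P2 a + b ^ 2 * P3 a)) := by
    intro a
    apply ll_int_le μ
    · intro x
      exact Finset.sum_nonneg fun _ _ => by positivity
    · filter_upwards [hb] with x hx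
      have e1 : (Q * D.SO.f r (D.hv r v) * Q -
          Q * D.SO.f r (D.hv r (Function.update v a x)) * Q) *ᵥ u =
          Q *ᵥ ((D.SO.f r (D.hv r v) - D.SO.f r (D.hv r (Function.update v a x))) *ᵥ w) := by
        rw [hw, mulVec_mulVec, mulVec_mulVec, ← Matrix.sub_mul, ← Matrix.mul_sub,
          Matrix.mul_assoc]
      rw [e1]
      refine (hP.low _).trans ?_
      apply mul_le_mul_of_nonneg_left _ hP.ep0
      exact ll_l1 hH het hr0 hr1 hlam hbd hsmall v hv hG a x hx w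
  refine (Finset.sum_le_sum fun a _ => h1 a).trans ?_
  rw [← Finset.mul_sum, ← Finset.mul_sum, Finset.sum_add_distrib, Finset.sum_add_distrib,
    ← Finset.mul_sum]
  have g1 : ∑ a, P1 a ≤ C1 ^ 2 / D.et r ^ 4 * ∑ y, ‖w y‖ ^ 2 := ll_A hH het _ hG w
  have g2 : ∑ a, P2 a ≤ C1 ^ 2 / D.et r ^ 4 * ∑ y, ‖w y‖ ^ 2 := ll_A' hH het _ hG w
  have g3 : ∑ a, P3 a ≤ C1 ^ 4 / D.et r ^ 4 * ∑ y, ‖w y‖ ^ 2 := ll_B hH het _ hG w
  have g4 : ∑ y, ‖w y‖ ^ 2 ≤ ∑ y, ‖u y‖ ^ 2 := by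
    have := hQ1 u
    rwa [one_pow, one_mul] at this
  set V := ∑ y, ‖w y‖ ^ 2 with hV
  set U := ∑ y, ‖u y‖ ^ 2 with hU
  have hV0 : 0 ≤ V := Finset.sum_nonneg fun _ _ => by positivity
  have hU0 : 0 ≤ U := hV0.trans g4
  have hbC : b * C1 ≤ 1 := hsmall
  have hbC2 : b ^ 2 * C1 ^ 4 ≤ C1 ^ 2 := by
    have h5 : (b * C1) ^ 2 ≤ 1 := pow_le_one₀ (by positivity) hbC
    calc b ^ 2 * C1 ^ 4 = (b * C1) ^ 2 * C1 ^ 2 := by ring
      _ ≤ 1 * C1 ^ 2 := mul_le_mul_of_nonneg_right h5 (by positivity)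
      _ = _ := one_mul _
  have hC24 : C1 ^ 2 ≤ C1 ^ 4 := pow_le_pow_right₀ hC1 (by norm_num)
  have hep := hP.ep0
  calc epL * (3 * b ^ 2 * (∑ a, P1 a + ∑ a, P2 a + b ^ 2 * ∑ a, P3 a))
      ≤ epL * (3 * b ^ 2 * (C1 ^ 2 / D.et r ^ 4 * V + C1 ^ 2 / D.et r ^ 4 * V +
          b ^ 2 * (C1 ^ 4 / D.et r ^ 4 * V))) := by gcongr
    _ = epL * (3 * b ^ 2 * ((2 * C1 ^ 2 + b ^ 2 * C1 ^ 4) / D.et r ^ 4 * V)) := by ring
    _ ≤ epL * (3 * b ^ 2 * ((2 * C1 ^ 2 + C1 ^ 2) / D.et r ^ 4 * U)) := by gcongr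
    _ = 144 * bd ^ 2 * D.lam ^ 2 * C1 ^ 2 * epL / D.et r ^ 4 * U := by rw [hbdef]; ring
    _ ≤ 144 * bd ^ 2 * D.lam ^ 2 * C1 ^ 4 * epL / D.et r ^ 4 * U := by gcongr

private lemma ll_hyp' (D : Fl ι) (hH : RealSym D.H0) (μ : Measure ℝ) [IsProbabilityMeasure μ]
    (r : ℝ) (het : 0 < D.et r) {Q : Matrix ι ι ℂ} (hQ1 : OpLe Q 1) (v : ι → ℝ) (u : ι → ℂ) :
    ∑ a, ∫ x, ∑ k, ‖((Q * D.SO.f r (D.hv r v) * Q -
      Q * D.SO.f r (D.hv r (Function.update v a x)) * Q) *ᵥ u) k‖ ^ 2 ∂μ ≤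
        4 * (Fintype.card ι : ℝ) / D.et r ^ 4 * ∑ k, ‖u k‖ ^ 2 := by
  have hX : ∀ h : ι → ℝ, OpLe (Q * D.SO.f r h * Q) ((1 / D.et r) ^ 2) := by
    intro h
    have h1 := opLe_mul (opLe_mul hQ1 (ll_S_schur hH het h (ll_row1 hH het h))) hQ1
    rwa [one_mul, mul_one] at h1
  have h1 : ∀ a, ∫ x, ∑ k, ‖((Q * D.SO.f r (D.hv r v) * Q -
      Q * D.SO.f r (D.hv r (Function.update v a x)) * Q) *ᵥ u) k‖ ^ 2 ∂μ ≤
      4 / D.et r ^ 4 * ∑ k, ‖u k‖ ^ 2 := by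
    intro a
    apply ll_int_le μ
    · intro x
      exact Finset.sum_nonneg fun _ _ => by positivity
    · refine Filter.Eventually.of_forall fun x => ?_
      have h2 := opLe_sub (by positivity) (by positivity) (hX (D.hv r v))
        (hX (D.hv r (Function.update v a x))) u
      refine h2.trans (le_of_eq ?_)
      congr 1
      field_simp
      norm_num
  refine (Finset.sum_le_sum fun a _ => h1 a).trans (le_of_eq ?_)
  rw [Finset.sum_const, Finset.card_univ, nsmul_eq_mul]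
  ring

theorem low_low (D : Fl ι) (hH : RealSym D.H0) (μ : Measure ℝ) [IsProbabilityMeasure μ] (bd : ℝ)
    (hbd : 0 < bd) (hb : ∀ᵐ x ∂μ, |x| ≤ bd) (r : ℝ) (hr0 : 0 ≤ r) (hr1 : r ≤ 1)
    (het : 0 < D.et r) (hlam : 0 < D.lam) (C1 : ℝ) (hC1 : 1 ≤ C1)
    (hsmall : 4 * bd * D.lam * C1 ≤ 1) {Pi : Matrix ι ι ℂ} {epL : ℝ} (hP : LowMode Pi epL)
    (p : ℕ) (hp : 1 ≤ p) (bad : Set (ι → ℝ)) (hbad : MeasurableSet bad)
    (hgood : ∀ v, v ∉ bad → (∀ w, |v w| ≤ bd) → ∀ x, ‖D.G r (D.hv r v) x x‖ ≤ C1) :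
    ∫ v, tr0 (2 * p) ((1 - Pi) * (D.SO.f r (D.hv r v) - ES D μ r) * (1 - Pi))
        ∂(Measure.pi fun _ : ι => μ) ≤
      LLb (Fintype.card ι) bd D.lam C1 epL (D.et r)
        ((Measure.pi fun _ : ι => μ).real bad) p := by
  classical
  obtain ⟨hQh, hQi, hQ1⟩ := ll_Q hP
  set c1 : ℝ := 144 * bd ^ 2 * D.lam ^ 2 * C1 ^ 4 * epL / D.et r ^ 4 with hc1
  set c2 : ℝ := 4 * (Fintype.card ι : ℝ) / D.et r ^ 4 with hc2
  have hep := hP.ep0
  have hc10 : 0 ≤ c1 := by positivity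
  have hc20 : 0 ≤ c2 := by positivity
  set N : (ι → ℝ) → ℝ := fun v => if v ∈ bad then c2 else c1 with hN
  have hmes := matrix_efron_stein μ bd hb p hp
    (fun v => (1 - Pi) * D.SO.f r (D.hv r v) * (1 - Pi))
    (fun i j => (ll_contX hH het (1 - Pi)).matrix_elem i j)
    (fun v => ll_hermX hH het _ hQh) N (Measurable.ite hbad measurable_const measurable_const)
    (fun v => by simp only [hN]; split_ifs <;> assumption) (max c1 c2)
    (fun v => by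
      simp only [hN]
      split_ifs
      · exact le_max_right _ _
      · exact le_max_left _ _)
    (fun v hv u => by
      by_cases hvb : v ∈ bad
      · simp only [hN, if_pos hvb]
        exact ll_hyp' D hH μ r het hQ1 v u
      · simp only [hN, if_neg hvb]
        exact ll_hyp D hH μ bd hbd hb r hr0 hr1 het hlam C1 hC1 hsmall hP v hv
          (hgood v hvb hv) u)
  rw [ll_EM hH het μ bd hb] at hmes
  have h1 : ∀ v : ι → ℝ, (1 - Pi) * D.SO.f r (D.hv r v) * (1 - Pi) - (1 - Pi) * ES D μ r * (1 - Pi)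
      = (1 - Pi) * (D.SO.f r (D.hv r v) - ES D μ r) * (1 - Pi) := by
    intro v
    rw [← Matrix.sub_mul, ← Matrix.mul_sub]
  simp only [h1] at hmes
  refine hmes.trans ?_
  have h2 : ∫ v, N v ^ p ∂(Measure.pi fun _ : ι => μ) ≤
      c1 ^ p + c2 ^ p * (Measure.pi fun _ : ι => μ).real bad := by
    have h3 : ∀ v, N v ^ p = bad.indicator (fun _ => c2 ^ p) v +
        badᶜ.indicator (fun _ => c1 ^ p) v := by
      intro v
      by_cases hvb : v ∈ bad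
      · simp [hN, hvb]
      · simp [hN, hvb]
    simp only [h3]
    rw [integral_add ((integrable_const _).indicator hbad)
      ((integrable_const _).indicator hbad.compl), integral_indicator_const _ hbad,
      integral_indicator_const _ hbad.compl, smul_eq_mul, smul_eq_mul]
    have h4 : (Measure.pi fun _ : ι => μ).real badᶜ ≤ 1 := measureReal_le_one
    have h5 : (Measure.pi fun _ : ι => μ).real badᶜ * c1 ^ p ≤ 1 * c1 ^ p :=
      mul_le_mul_of_nonneg_right h4 (by positivity)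
    linarith
  unfold LLb
  exact mul_le_mul_of_nonneg_left h2 (by positivity)

private lemma ll_spec {κ : Type} [Fintype κ] [DecidableEq κ] {f : Matrix κ κ ℂ}
    (hf : f.IsHermitian) :
    ∃ (V : Matrix κ κ ℂ) (lam : κ → ℝ), Vᴴ * V = 1 ∧ V * Vᴴ = 1 ∧
      f = V * diagonal (fun i => (lam i : ℂ)) * Vᴴ := by
  refine ⟨hf.eigenvectorUnitary, hf.eigenvalues, ?_, ?_, ?_⟩
  · exact (Unitary.mem_iff.1 hf.eigenvectorUnitary.2).1
  · exact (Unitary.mem_iff.1 hf.eigenvectorUnitary.2).2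
  · have := hf.spectral_theorem
    rw [Unitary.conjStarAlgAut_apply] at this
    exact this

/-- for hermitian matrices the trace bounds the norm -/
private lemma ll_opLe_of_tr0 (p : ℕ) (hp : 1 ≤ p) {A : Matrix ι ι ℂ} (hA : A.IsHermitian) {x : ℝ}
    (hx : 0 ≤ x) (h : tr0 (2 * p) A ≤ x ^ (2 * p)) : OpLe A x := by
  obtain ⟨V, lam, hV1, hV2, hf⟩ := ll_spec hA
  have hpow : ∀ n : ℕ, A ^ n = V * diagonal (fun i => ((lam i : ℂ)) ^ n) * Vᴴ := by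
    intro n
    induction n with
    | zero => simp [hV2]
    | succ n ih =>
      rw [pow_succ, ih, hf]
      have e : V * diagonal (fun i => ((lam i : ℂ)) ^ n) * Vᴴ *
          (V * diagonal (fun i => (lam i : ℂ)) * Vᴴ) =
          V * (diagonal (fun i => ((lam i : ℂ)) ^ n) * (Vᴴ * V) *
            diagonal (fun i => (lam i : ℂ))) * Vᴴ := by
        simp only [Matrix.mul_assoc]
      rw [e, hV1, Matrix.mul_one, diagonal_mul_diagonal]
      rfl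
  have htr : tr0 (2 * p) A = ∑ i, lam i ^ (2 * p) := by
    unfold tr0
    rw [hpow, trace_mul_comm, ← Matrix.mul_assoc, hV1, Matrix.one_mul, trace_diagonal,
      Complex.re_sum]
    refine Finset.sum_congr rfl fun i _ => ?_
    rw [← Complex.ofReal_pow, Complex.ofReal_re]
  have hlam : ∀ i, lam i ^ 2 ≤ x ^ 2 := by
    intro i
    have h1 : lam i ^ (2 * p) ≤ x ^ (2 * p) := by
      refine le_trans ?_ (htr ▸ h)
      exact Finset.single_le_sum (f := fun i => lam i ^ (2 * p))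
        (fun j _ => (even_two_mul p).pow_nonneg _) (Finset.mem_univ i)
    rw [pow_mul, pow_mul] at h1
    exact (pow_le_pow_iff_left₀ (sq_nonneg _) (sq_nonneg _) (by omega)).1 h1
  have hiso : ∀ (W : Matrix ι ι ℂ) (_ : Wᴴ * W = 1) (u : ι → ℂ),
      ∑ y, ‖(W *ᵥ u) y‖ ^ 2 = ∑ y, ‖u y‖ ^ 2 := by
    intro W hW u
    have e1 : ∀ v : ι → ℂ, ((∑ y, ‖v y‖ ^ 2 : ℝ) : ℂ) = star v ⬝ᵥ v := by
      intro v
      rw [dotProduct]
      push_cast
      refine Finset.sum_congr rfl fun y _ => ?_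
      rw [Pi.star_apply, ← Complex.ofReal_pow, ← Complex.normSq_eq_norm_sq,
        Complex.normSq_eq_conj_mul_self]
      rfl
    have e2 : ((∑ y, ‖(W *ᵥ u) y‖ ^ 2 : ℝ) : ℂ) = ((∑ y, ‖u y‖ ^ 2 : ℝ) : ℂ) := by
      rw [e1, e1, star_mulVec, ← dotProduct_mulVec, mulVec_mulVec, hW, one_mulVec]
    exact_mod_cast e2
  intro u
  have e : A *ᵥ u = V *ᵥ (diagonal (fun i => (lam i : ℂ)) *ᵥ (Vᴴ *ᵥ u)) := by
    rw [mulVec_mulVec, mulVec_mulVec, ← hf]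
  rw [e, hiso V hV1]
  have hVu := hiso Vᴴ (by rw [conjTranspose_conjTranspose]; exact hV2) u
  rw [← hVu, Finset.mul_sum]
  refine Finset.sum_le_sum fun i _ => ?_
  rw [mulVec_diagonal, norm_mul, mul_pow, Complex.norm_real, Real.norm_eq_abs, sq_abs]
  exact mul_le_mul_of_nonneg_right (hlam i) (sq_nonneg _)

private lemma ll_hermE {D : Fl ι} (hH : RealSym D.H0) {r : ℝ} (het : 0 < D.et r)
    (μ : Measure ℝ) : (ES D μ r).IsHermitian := by
  ext i j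
  rw [conjTranspose_apply]
  change star (∫ v, D.SO.f r (D.hv r v) j i ∂(Measure.pi fun _ : ι => μ)) =
    ∫ v, D.SO.f r (D.hv r v) i j ∂(Measure.pi fun _ : ι => μ)
  rw [Complex.star_def, ← integral_conj]
  refine integral_congr_ae (Filter.Eventually.of_forall fun v => ?_)
  exact (ll_hermS hH het (D.hv r v)).apply i j

theorem low_low_prob (D : Fl ι) (hH : RealSym D.H0) (μ : Measure ℝ) [IsProbabilityMeasure μ]
    (bd : ℝ) (hbd : 0 < bd) (hb : ∀ᵐ x ∂μ, |x| ≤ bd) (r : ℝ) (hr0 : 0 ≤ r) (hr1 : r ≤ 1)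
    (het : 0 < D.et r) (hlam : 0 < D.lam) (C1 : ℝ) (hC1 : 1 ≤ C1)
    (hsmall : 4 * bd * D.lam * C1 ≤ 1) {Pi : Matrix ι ι ℂ} {epL : ℝ} (hP : LowMode Pi epL)
    (p : ℕ) (hp : 1 ≤ p) (bad : Set (ι → ℝ)) (hbad : MeasurableSet bad)
    (hgood : ∀ v, v ∉ bad → (∀ w, |v w| ≤ bd) → ∀ x, ‖D.G r (D.hv r v) x x‖ ≤ C1)
    (x : ℝ) (hx : 0 < x) :
    (Measure.pi fun _ : ι => μ).real {v | ¬ OpLe ((1 - Pi) * (D.SO.f r (D.hv r v) - ES D μ r) *
        (1 - Pi)) x} ≤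
      LLb (Fintype.card ι) bd D.lam C1 epL (D.et r)
        ((Measure.pi fun _ : ι => μ).real bad) p / x ^ (2 * p) := by
  obtain ⟨hQh, hQi, hQ1⟩ := ll_Q hP
  have hmain := low_low D hH μ bd hbd hb r hr0 hr1 het hlam C1 hC1 hsmall hP p hp bad hbad hgood
  set A : (ι → ℝ) → Matrix ι ι ℂ := fun v =>
    (1 - Pi) * (D.SO.f r (D.hv r v) - ES D μ r) * (1 - Pi) with hA
  have hAh : ∀ v, (A v).IsHermitian := by
    intro v
    have h1 : ((D.SO.f r (D.hv r v) - ES D μ r)).IsHermitian :=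
      (ll_hermS hH het (D.hv r v)).sub (ll_hermE hH het μ)
    simp only [hA]
    rw [Matrix.IsHermitian, conjTranspose_mul, conjTranspose_mul, hQh, h1.eq, Matrix.mul_assoc]
  have hAc : Continuous A := by
    have h1 : Continuous fun v : ι → ℝ => D.SO.f r (D.hv r v) :=
      continuous_matrix fun i j => ll_contS hH het i j
    exact (continuous_const.matrix_mul (h1.sub continuous_const)).matrix_mul continuous_const
  have hfc : Continuous fun v => tr0 (2 * p) (A v) := by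
    unfold tr0
    exact Complex.continuous_re.comp ((hAc.pow (2 * p)).matrix_trace)
  have hfi := cont_integrable μ bd hb _ hfc
  have hmk := mul_meas_ge_le_integral_of_nonneg (μ := Measure.pi fun _ : ι => μ)
    (f := fun v => tr0 (2 * p) (A v))
    (Filter.Eventually.of_forall fun v => tr0_nonneg p (hAh v)) hfi (x ^ (2 * p))
  have hsub : {v | ¬ OpLe (A v) x} ⊆ {v | x ^ (2 * p) ≤ tr0 (2 * p) (A v)} := by
    intro v hv
    by_contra hcon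
    exact hv (ll_opLe_of_tr0 p hp (hAh v) hx.le (not_le.1 hcon).le)
  have h2 : (Measure.pi fun _ : ι => μ).real {v | ¬ OpLe (A v) x} ≤
      (Measure.pi fun _ : ι => μ).real {v | x ^ (2 * p) ≤ tr0 (2 * p) (A v)} :=
    measureReal_mono hsub
  rw [le_div_iff₀ (by positivity)]
  have hx0 : 0 < x ^ (2 * p) := by positivity
  calc (Measure.pi fun _ : ι => μ).real {v | ¬ OpLe (A v) x} * x ^ (2 * p)
      ≤ (Measure.pi fun _ : ι => μ).real {v | x ^ (2 * p) ≤ tr0 (2 * p) (A v)} * x ^ (2 * p) :=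
        mul_le_mul_of_nonneg_right h2 hx0.le
    _ = x ^ (2 * p) * (Measure.pi fun _ : ι => μ).real {v | x ^ (2 * p) ≤ tr0 (2 * p) (A v)} :=
        mul_comm _ _
    _ ≤ _ := hmk.trans hmain

end Pool.Agent.APS
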