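import Pool.Agent.APS.CfgB

/-! # APS NOISEA: the basic noise estimate (1.4).

For a configuration with `Cfg`, `G = G_r(h)`, `et = η_r`.  Let `A_w` be the matrix
`(A_w)_xy = G_xw G_wy E_xy` where `E_xy = G_xy` or `conj G_xy`.
`(A_w u)_x = G_xw Phi_xw`, `Phi_xw = ∑_y E_xy u_y G_yw`, i.e. `Phi = E diag(u) G`.
`∑_xw |Phi_xw|² ≤ ‖E‖² ∑_y |u_y|² ∑_w |G_yw|² ≤ (1/et²) (C1/et) ‖u‖²` (`OpLe E (1/et)` applied to
each column of `diag(u) G`), and by Cauchy-Schwarz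
`|Phi_xw|² ≤ (∑_y |E_xy|² |u_y|²) (∑_y |G_yw|²) ≤ (C1/et) ∑_y |G_xy|² |u_y|²`.
Pairs with `|G_xw|² ≤ √tau`: `∑ |G_xw|² |Phi_xw|² ≤ √tau C1/et³ ‖u‖²`.
Other pairs: `|G_xw|² ≤ |G_xw|⁴/√tau`, `∑_w |G_xw|⁴ ≤ tau/et`, so the sum is at most
`(1/√tau) (tau/et) (C1/et) ∑_x ∑_y |G_xy|² |u_y|² ≤ √tau C1²/et³ ‖u‖²`.
Total `≤ 2 C1² √tau/et³ ‖u‖²` (`C1 ≥ 1`).
`phi_sum` is also used for the low modes.
`noise_B`: `(B_w)_xy = F_xw F'_wy` with `|F| , |F'| = |G|²` entrywise: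
`|(B_w u)_x| ≤ |G_xw|² ∑_y |G_wy|² |u_y|`, `∑_x |G_xw|⁴ ≤ tau/et` (symmetry), and
`∑_w (∑_y |G_wy|² |u_y|)² ≤ (C1/et)² ‖u‖²` (`S_op` for `|u|`).  Total `tau C1²/et³ ‖u‖²`.
-/

open Matrix Finset

noncomputable section

namespace Pool.Agent.APS

open Pool.Agent.Kin

variable {ι : Type} [Fintype ι] [DecidableEq ι] {D : Fl ι} {C1 a tau r : ℝ} {h : ι → ℝ}

/-- `Phi_xw`, with `E` any matrix -/
def phiM (D : Fl ι) (r : ℝ) (h : ι → ℝ) (E : Matrix ι ι ℂ) (u : ι → ℂ) (x w : ι) : ℂ :=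
  ∑ y, E x y * u y * D.G r h y w

private theorem noa_cs {α : Type} (s : Finset α) (a b : α → ℂ) :
    ‖∑ x ∈ s, a x * b x‖ ^ 2 ≤ (∑ x ∈ s, ‖a x‖ ^ 2) * ∑ x ∈ s, ‖b x‖ ^ 2 := by
  have h1 : ‖∑ x ∈ s, a x * b x‖ ≤ ∑ x ∈ s, ‖a x‖ * ‖b x‖ := by
    refine (norm_sum_le _ _).trans (le_of_eq ?_)
    exact Finset.sum_congr rfl fun x _ => norm_mul _ _
  calc ‖∑ x ∈ s, a x * b x‖ ^ 2 ≤ (∑ x ∈ s, ‖a x‖ * ‖b x‖) ^ 2 :=
        pow_le_pow_left₀ (norm_nonneg _) h1 2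
    _ ≤ _ := Finset.sum_mul_sq_le_sq_mul_sq s _ _

/-- column sums of squares -/
private theorem noa_col (hc : D.Cfg C1 a tau r h) (w : ι) :
    ∑ y, ‖D.G r h y w‖ ^ 2 ≤ C1 / D.et r := by
  refine le_trans (le_of_eq ?_) (hc.row w)
  exact sum_congr rfl fun y _ => by rw [hc.symm y w]

private theorem noa_phi (hc : D.Cfg C1 a tau r h) (E K : Matrix ι ι ℂ)
    (hE : OpLe E (1 / D.et r)) (hK : ∀ x y, ‖K x y‖ = ‖D.G r h x y‖)
    (u : ι → ℂ) : ∑ x, ∑ w, ‖∑ y, E x y * u y * K y w‖ ^ 2 ≤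
      C1 / D.et r ^ 3 * ∑ y, ‖u y‖ ^ 2 := by
  have het := hc.et0
  rw [sum_comm]
  have h1 : ∀ w, ∑ x, ‖∑ y, E x y * u y * K y w‖ ^ 2 ≤
      (1 / D.et r) ^ 2 * ∑ y, ‖u y‖ ^ 2 * ‖D.G r h y w‖ ^ 2 := by
    intro w
    have h2 := hE (fun y => u y * K y w)
    have h3 : ∀ x, (E *ᵥ fun y => u y * K y w) x = ∑ y, E x y * u y * K y w := by
      intro x
      simp only [Matrix.mulVec, dotProduct]
      exact sum_congr rfl fun y _ => by ring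
    simp only [h3] at h2
    refine h2.trans (le_of_eq ?_)
    congr 1
    refine sum_congr rfl fun y _ => ?_
    rw [norm_mul, mul_pow, hK]
  refine (sum_le_sum fun w _ => h1 w).trans ?_
  rw [← mul_sum, sum_comm]
  have h4 : ∑ y, ∑ w, ‖u y‖ ^ 2 * ‖D.G r h y w‖ ^ 2 ≤ ∑ y, ‖u y‖ ^ 2 * (C1 / D.et r) := by
    refine sum_le_sum fun y _ => ?_
    rw [← mul_sum]
    exact mul_le_mul_of_nonneg_left (hc.row y) (sq_nonneg _)
  rw [← sum_mul] at h4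
  calc (1 / D.et r) ^ 2 * ∑ y, ∑ w, ‖u y‖ ^ 2 * ‖D.G r h y w‖ ^ 2
      ≤ (1 / D.et r) ^ 2 * ((∑ y, ‖u y‖ ^ 2) * (C1 / D.et r)) :=
        mul_le_mul_of_nonneg_left h4 (sq_nonneg _)
    _ = C1 / D.et r ^ 3 * ∑ y, ‖u y‖ ^ 2 := by
        field_simp

private theorem noa_gen (hc : D.Cfg C1 a tau r h) (E K : Matrix ι ι ℂ)
    (hE : OpLe E (1 / D.et r)) (hE' : ∀ x y, ‖E x y‖ = ‖D.G r h x y‖)
    (hK : ∀ x y, ‖K x y‖ = ‖D.G r h x y‖) (u : ι → ℂ) :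
    ∑ w, ∑ x, ‖D.G r h x w‖ ^ 2 * ‖∑ y, E x y * u y * K y w‖ ^ 2 ≤
      2 * C1 ^ 2 * √tau / D.et r ^ 3 * ∑ y, ‖u y‖ ^ 2 := by
  have het := hc.et0
  have hC1 := hc.one_le
  have ht0 := hc.tau0
  set st : ℝ := √tau with hst
  have hst0 : 0 < st := Real.sqrt_pos.2 ht0
  have hst2 : st ^ 2 = tau := Real.sq_sqrt ht0.le
  set U : ℝ := ∑ y, ‖u y‖ ^ 2 with hU
  have hU0 : 0 ≤ U := sum_nonneg fun y _ => sq_nonneg _
  set Tx : ι → ℝ := fun x => ∑ y, ‖D.G r h x y‖ ^ 2 * ‖u y‖ ^ 2 with hTx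
  have hTx0 : ∀ x, 0 ≤ Tx x := fun x =>
    sum_nonneg fun y _ => mul_nonneg (sq_nonneg _) (sq_nonneg _)
  -- pointwise bound for `Phi`
  have hphi : ∀ x w, ‖∑ y, E x y * u y * K y w‖ ^ 2 ≤ Tx x * (C1 / D.et r) := by
    intro x w
    refine (noa_cs univ (fun y => E x y * u y) (fun y => K y w)).trans ?_
    have h1 : ∑ y, ‖E x y * u y‖ ^ 2 = Tx x := by
      refine sum_congr rfl fun y _ => ?_
      rw [norm_mul, mul_pow, hE']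
    have h2 : ∑ y, ‖K y w‖ ^ 2 ≤ C1 / D.et r := by
      simp only [hK]
      exact noa_col hc w
    rw [h1]
    exact mul_le_mul_of_nonneg_left h2 (hTx0 x)
  -- splitting
  have hsp : ∀ x w, ‖D.G r h x w‖ ^ 2 * ‖∑ y, E x y * u y * K y w‖ ^ 2 ≤
      st * ‖∑ y, E x y * u y * K y w‖ ^ 2 +
        ‖D.G r h x w‖ ^ 4 * (1 / st * (Tx x * (C1 / D.et r))) := by
    intro x w
    have h0 : 0 ≤ ‖∑ y, E x y * u y * K y w‖ ^ 2 := sq_nonneg _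
    have h1 : 0 ≤ 1 / st * (Tx x * (C1 / D.et r)) := by
      have := hTx0 x
      positivity
    have h2 : 0 ≤ ‖D.G r h x w‖ ^ 4 := by positivity
    rcases le_total (‖D.G r h x w‖ ^ 2) st with hle | hle
    · have h3 := mul_le_mul_of_nonneg_right hle h0
      have h4 := mul_nonneg h2 h1
      linarith
    · have h3 : ‖D.G r h x w‖ ^ 2 ≤ ‖D.G r h x w‖ ^ 4 * (1 / st) := by
        rw [mul_one_div, le_div_iff₀ hst0]
        calc ‖D.G r h x w‖ ^ 2 * st ≤ ‖D.G r h x w‖ ^ 2 * ‖D.G r h x w‖ ^ 2 :=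
              mul_le_mul_of_nonneg_left hle (sq_nonneg _)
          _ = ‖D.G r h x w‖ ^ 4 := by ring
      have h4 : ‖D.G r h x w‖ ^ 2 * ‖∑ y, E x y * u y * K y w‖ ^ 2 ≤
          (‖D.G r h x w‖ ^ 4 * (1 / st)) * (Tx x * (C1 / D.et r)) :=
        mul_le_mul h3 (hphi x w) h0 (by positivity)
      have h5 := mul_nonneg hst0.le h0
      have h6 : (‖D.G r h x w‖ ^ 4 * (1 / st)) * (Tx x * (C1 / D.et r)) =
          ‖D.G r h x w‖ ^ 4 * (1 / st * (Tx x * (C1 / D.et r))) := by ring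
      linarith
  have hS1 : ∑ w, ∑ x, st * ‖∑ y, E x y * u y * K y w‖ ^ 2 ≤
      st * (C1 / D.et r ^ 3 * U) := by
    have h1 := noa_phi hc E K hE hK u
    rw [sum_comm] at h1
    simp only [← mul_sum]
    exact mul_le_mul_of_nonneg_left h1 hst0.le
  have hTs : ∑ x, Tx x ≤ C1 / D.et r * U := by
    rw [hTx, sum_comm, hU, mul_sum]
    refine sum_le_sum fun y _ => ?_
    rw [← sum_mul]
    exact mul_le_mul_of_nonneg_right (noa_col hc y) (sq_nonneg _)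
  have hS2 : ∑ w, ∑ x, ‖D.G r h x w‖ ^ 4 * (1 / st * (Tx x * (C1 / D.et r))) ≤
      st * (C1 ^ 2 / D.et r ^ 3 * U) := by
    rw [sum_comm]
    calc ∑ x, ∑ w, ‖D.G r h x w‖ ^ 4 * (1 / st * (Tx x * (C1 / D.et r)))
        ≤ ∑ x, tau / D.et r * (1 / st * (Tx x * (C1 / D.et r))) := by
          refine sum_le_sum fun x _ => ?_
          rw [← sum_mul]
          refine mul_le_mul_of_nonneg_right (hc.T4 x) ?_
          have := hTx0 x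
          positivity
      _ = tau / D.et r * (1 / st) * (C1 / D.et r) * ∑ x, Tx x := by
          rw [mul_sum]
          exact sum_congr rfl fun x _ => by ring
      _ ≤ tau / D.et r * (1 / st) * (C1 / D.et r) * (C1 / D.et r * U) :=
          mul_le_mul_of_nonneg_left hTs (by positivity)
      _ = st * (C1 ^ 2 / D.et r ^ 3 * U) := by
          rw [← hst2]
          field_simp
  calc ∑ w, ∑ x, ‖D.G r h x w‖ ^ 2 * ‖∑ y, E x y * u y * K y w‖ ^ 2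
      ≤ ∑ w, ∑ x, (st * ‖∑ y, E x y * u y * K y w‖ ^ 2 +
        ‖D.G r h x w‖ ^ 4 * (1 / st * (Tx x * (C1 / D.et r)))) :=
        sum_le_sum fun w _ => sum_le_sum fun x _ => hsp x w
    _ = ∑ w, ∑ x, st * ‖∑ y, E x y * u y * K y w‖ ^ 2 +
        ∑ w, ∑ x, ‖D.G r h x w‖ ^ 4 * (1 / st * (Tx x * (C1 / D.et r))) := by
        rw [← sum_add_distrib]
        exact sum_congr rfl fun w _ => sum_add_distrib
    _ ≤ st * (C1 / D.et r ^ 3 * U) + st * (C1 ^ 2 / D.et r ^ 3 * U) := add_le_add hS1 hS2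
    _ ≤ 2 * C1 ^ 2 * st / D.et r ^ 3 * U := by
        have h1 : C1 ≤ C1 ^ 2 := by nlinarith
        have h2 : C1 / D.et r ^ 3 * U ≤ C1 ^ 2 / D.et r ^ 3 * U :=
          mul_le_mul_of_nonneg_right (div_le_div_of_nonneg_right h1 (by positivity)) hU0
        have h3 := mul_le_mul_of_nonneg_left h2 hst0.le
        have h4 : 2 * C1 ^ 2 * st / D.et r ^ 3 * U = st * (C1 ^ 2 / D.et r ^ 3 * U) +
          st * (C1 ^ 2 / D.et r ^ 3 * U) := by ring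
        linarith

theorem phi_sum (hc : D.Cfg C1 a tau r h) (E : Matrix ι ι ℂ) (hE : OpLe E (1 / D.et r))
    (u : ι → ℂ) : ∑ x, ∑ w, ‖phiM D r h E u x w‖ ^ 2 ≤ C1 / D.et r ^ 3 * ∑ y, ‖u y‖ ^ 2 :=
  noa_phi hc E (D.G r h) hE (fun _ _ => rfl) u

theorem noise_A (hc : D.Cfg C1 a tau r h) (E : Matrix ι ι ℂ) (hE : OpLe E (1 / D.et r))
    (hE' : ∀ x y, ‖E x y‖ = ‖D.G r h x y‖) (u : ι → ℂ) :
    ∑ w, ∑ x, ‖∑ y, D.G r h x w * D.G r h w y * E x y * u y‖ ^ 2 ≤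
      2 * C1 ^ 2 * √tau / D.et r ^ 3 * ∑ y, ‖u y‖ ^ 2 := by
  refine le_trans (le_of_eq ?_) (noa_gen hc E (D.G r h) hE hE' (fun _ _ => rfl) u)
  refine sum_congr rfl fun w _ => sum_congr rfl fun x _ => ?_
  have h1 : ∑ y, D.G r h x w * D.G r h w y * E x y * u y =
      D.G r h x w * ∑ y, E x y * u y * D.G r h y w := by
    rw [mul_sum]
    refine sum_congr rfl fun y _ => ?_
    rw [hc.symm w y]
    ring
  rw [h1, norm_mul, mul_pow]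

/-- the same with `conj G_xw conj G_wy` -/
theorem noise_A' (hc : D.Cfg C1 a tau r h) (E : Matrix ι ι ℂ) (hE : OpLe E (1 / D.et r))
    (hE' : ∀ x y, ‖E x y‖ = ‖D.G r h x y‖) (u : ι → ℂ) :
    ∑ w, ∑ x, ‖∑ y, star (D.G r h x w) * star (D.G r h w y) * E x y * u y‖ ^ 2 ≤
      2 * C1 ^ 2 * √tau / D.et r ^ 3 * ∑ y, ‖u y‖ ^ 2 := by
  refine le_trans (le_of_eq ?_) (noa_gen hc E (fun y w => star (D.G r h y w)) hE hE'
    (fun _ _ => norm_star _) u)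
  refine sum_congr rfl fun w _ => sum_congr rfl fun x _ => ?_
  have h1 : ∑ y, star (D.G r h x w) * star (D.G r h w y) * E x y * u y =
      star (D.G r h x w) * ∑ y, E x y * u y * star (D.G r h y w) := by
    rw [mul_sum]
    refine sum_congr rfl fun y _ => ?_
    rw [hc.symm w y]
    ring
  rw [h1, norm_mul, mul_pow, norm_star]

theorem noise_B (hc : D.Cfg C1 a tau r h) (F F' : Matrix ι ι ℂ)
    (hF : ∀ x y, ‖F x y‖ = ‖D.G r h x y‖ ^ 2) (hF' : ∀ x y, ‖F' x y‖ = ‖D.G r h x y‖ ^ 2)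
    (u : ι → ℂ) :
    ∑ w, ∑ x, ‖∑ y, F x w * F' w y * u y‖ ^ 2 ≤
      tau * C1 ^ 2 / D.et r ^ 3 * ∑ y, ‖u y‖ ^ 2 := by
  have het := hc.et0
  have hC1 := hc.one_le
  have ht0 := hc.tau0
  have h1 : ∀ w, ∑ x, ‖∑ y, F x w * F' w y * u y‖ ^ 2 ≤
      tau / D.et r * ‖∑ y, F' w y * u y‖ ^ 2 := by
    intro w
    have h2 : ∀ x, ‖∑ y, F x w * F' w y * u y‖ ^ 2 =
        ‖D.G r h w x‖ ^ 4 * ‖∑ y, F' w y * u y‖ ^ 2 := by
      intro x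
      have h3 : ∑ y, F x w * F' w y * u y = F x w * ∑ y, F' w y * u y := by
        rw [mul_sum]
        exact sum_congr rfl fun y _ => by ring
      rw [h3, norm_mul, mul_pow, hF, hc.symm w x]
      ring
    simp only [h2]
    rw [← sum_mul]
    exact mul_le_mul_of_nonneg_right (hc.T4 w) (sq_nonneg _)
  have h2 : ∀ w, ‖∑ y, F' w y * u y‖ ^ 2 ≤
      C1 / D.et r * ∑ y, ‖D.G r h w y‖ ^ 2 * ‖u y‖ ^ 2 := by
    intro w
    have h3 : ‖∑ y, F' w y * u y‖ ≤ ∑ y, ‖D.G r h w y‖ * (‖D.G r h w y‖ * ‖u y‖) := by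
      refine (norm_sum_le _ _).trans (le_of_eq ?_)
      refine sum_congr rfl fun y _ => ?_
      rw [norm_mul, hF']
      ring
    have h4 := Finset.sum_mul_sq_le_sq_mul_sq univ (fun y => ‖D.G r h w y‖)
      (fun y => ‖D.G r h w y‖ * ‖u y‖)
    have h5 : ∑ y, (‖D.G r h w y‖ * ‖u y‖) ^ 2 = ∑ y, ‖D.G r h w y‖ ^ 2 * ‖u y‖ ^ 2 :=
      sum_congr rfl fun y _ => mul_pow _ _ _
    rw [h5] at h4
    have h6 : 0 ≤ ∑ y, ‖D.G r h w y‖ ^ 2 * ‖u y‖ ^ 2 :=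
      sum_nonneg fun y _ => mul_nonneg (sq_nonneg _) (sq_nonneg _)
    calc ‖∑ y, F' w y * u y‖ ^ 2 ≤ (∑ y, ‖D.G r h w y‖ * (‖D.G r h w y‖ * ‖u y‖)) ^ 2 :=
          pow_le_pow_left₀ (norm_nonneg _) h3 2
      _ ≤ _ := h4
      _ ≤ _ := mul_le_mul_of_nonneg_right (hc.row w) h6
  have h3 : ∑ w, ∑ y, ‖D.G r h w y‖ ^ 2 * ‖u y‖ ^ 2 ≤ C1 / D.et r * ∑ y, ‖u y‖ ^ 2 := by
    rw [sum_comm, mul_sum]
    refine sum_le_sum fun y _ => ?_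
    rw [← sum_mul]
    exact mul_le_mul_of_nonneg_right (noa_col hc y) (sq_nonneg _)
  calc ∑ w, ∑ x, ‖∑ y, F x w * F' w y * u y‖ ^ 2
      ≤ ∑ w, tau / D.et r * (C1 / D.et r * ∑ y, ‖D.G r h w y‖ ^ 2 * ‖u y‖ ^ 2) :=
        sum_le_sum fun w _ => (h1 w).trans (mul_le_mul_of_nonneg_left (h2 w) (by positivity))
    _ = tau / D.et r * (C1 / D.et r) * ∑ w, ∑ y, ‖D.G r h w y‖ ^ 2 * ‖u y‖ ^ 2 := by
        rw [mul_sum]
        exact sum_congr rfl fun w _ => by ring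
    _ ≤ tau / D.et r * (C1 / D.et r) * (C1 / D.et r * ∑ y, ‖u y‖ ^ 2) :=
        mul_le_mul_of_nonneg_left h3 (by positivity)
    _ = tau * C1 ^ 2 / D.et r ^ 3 * ∑ y, ‖u y‖ ^ 2 := by
        field_simp

end Pool.Agent.APS
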