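import Pool.Agent.APS.Init0
import Pool.Agent.Kin.MDiag

/-! # APS RER0: the real part of `s r0(k)`.

`ζ = D.zr 0`, `γ = Im ζ`, `m_p = 1/(en p - ζ)`, `r0(k) = ∑_x Mx ζ x² ch k x`.  Insert the definition of
`Mx` and sum over `x` (`sum_ch`): `r0(k) = N⁻¹ ∑_p m_p m_{-k-p}`.  `Im m_p > 0`, so
`Re (m m') = Re m Re m' - Im m Im m' ≤ ((Re m)² + (Re m')²)/2`; hence
`Re r0(k) ≤ N⁻¹ ∑_p (Re m_p)² = (N⁻¹ ∑ |m_p|² + Re N⁻¹ ∑ m_p²)/2`.
`N⁻¹ ∑ |m_p|² = ∑_x |Mx|² = g0.im/γ` (`Mx_ward`, fixed point).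
`N⁻¹ ∑ m_p²` is the derivative of `ζ' ↦ Mx ζ' 0` at `ζ`; by `mdiag` (Kin/MDiag.lean, with `γ' = γ/2`) this
function is Lipschitz near `ζ` with constant `C/√(γ/2)`, so the derivative is at most `2C/√γ` in norm
(`norm_deriv_le_of_lip'`).  Needs `8/(γ/2)³ ≤ L`, i.e. `64/γ³ ≤ L`: hypothesis `hL`.
So `s Re r0(k) ≤ (s ρ0/γ + s 2C/√γ)/2 ≤ 1/2 + C √s/√ρ0`, because `γ ≥ s ρ0`.
`|r0(k)| ≤ ∑ |Mx|² = ρ0/γ ≤ 1/s`.
-/

open Matrix Finset

noncomputable section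

namespace Pool.Agent.APS

open Pool.Agent.Kin

private theorem rr_eq {d L : ℕ} [NeZero L] (ζ : ℂ) (k : Tor d L) :
    ∑ x : Tor d L, Mx ζ x ^ 2 * ch k x =
      (1 / (L : ℂ) ^ d) * ∑ p : Tor d L,
        (1 / ((en p : ℂ) - ζ)) * (1 / ((en (-k - p) : ℂ) - ζ)) := by
  have h1 : ∀ x : Tor d L, Mx ζ x ^ 2 * ch k x =
      (1 / (L : ℂ) ^ d) ^ 2 * ∑ p : Tor d L, ∑ q : Tor d L,
        ((1 / ((en p : ℂ) - ζ)) * (1 / ((en q : ℂ) - ζ))) * ch (p + q + k) x := by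
    intro x
    unfold Mx
    rw [show (1 / (L : ℂ) ^ d * ∑ l : Tor d L, ch l x / ((en l : ℂ) - ζ)) ^ 2 * ch k x =
      (1 / (L : ℂ) ^ d) ^ 2 * (((∑ l : Tor d L, ch l x / ((en l : ℂ) - ζ)) *
      ∑ l : Tor d L, ch l x / ((en l : ℂ) - ζ)) * ch k x) by ring]
    congr 1
    rw [Finset.sum_mul_sum, Finset.sum_mul]
    refine Finset.sum_congr rfl fun p _ => ?_
    rw [Finset.sum_mul]
    refine Finset.sum_congr rfl fun q _ => ?_
    rw [ch_add_left, ch_add_left]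
    ring
  simp only [h1]
  rw [← Finset.mul_sum, Finset.sum_comm]
  have h3 : ∀ p : Tor d L, ∑ x : Tor d L, ∑ q : Tor d L,
      ((1 / ((en p : ℂ) - ζ)) * (1 / ((en q : ℂ) - ζ))) * ch (p + q + k) x =
      ((1 / ((en p : ℂ) - ζ)) * (1 / ((en (-k - p) : ℂ) - ζ))) * (L : ℂ) ^ d := by
    intro p
    rw [Finset.sum_comm]
    simp only [← Finset.mul_sum]
    have h4 : ∀ q : Tor d L, ∑ x : Tor d L, ch (p + q + k) x =
        if q = -k - p then (L : ℂ) ^ d else 0 := by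
      intro q
      simp only [ch_comm (p + q + k)]
      have : ∑ x : Tor d L, ch x (p + q + k) = _ := sum_ch (p + q + k)
      rw [this]
      by_cases h : q = -k - p
      · rw [if_pos h, if_pos (by rw [h]; abel)]
      · rw [if_neg h, if_neg]
        intro h5
        apply h
        have : q - (-k - p) = 0 := by rw [← h5]; abel
        exact sub_eq_zero.1 this
    simp only [h4, mul_ite, mul_zero, Finset.sum_ite_eq', Finset.mem_univ, if_true]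
  simp only [h3]
  rw [← Finset.sum_mul]
  have hL : (L : ℂ) ^ d ≠ 0 := pow_ne_zero _ (by exact_mod_cast NeZero.ne L)
  generalize (∑ p : Tor d L, (1 / ((en p : ℂ) - ζ)) * (1 / ((en (-k - p) : ℂ) - ζ))) = S
  field_simp

theorem r0_norm {d L : ℕ} [NeZero L] {D : Fl (Tor d L)} {rlo rhi : ℝ} (hW : World D rlo rhi)
    (k : Tor d L) : ‖r0 D k‖ ≤ 1 / D.s := by
  have hs := hW.s0
  have hg := hW.g0im
  have hz := hW.zim
  have h0 : 0 < D.et 0 := by
    rw [hW.et_zero]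
    positivity
  have hi : 0 < (D.zr 0).im := by rw [hW.zr_im]; exact h0
  have h1 : ‖r0 D k‖ ≤ ∑ x : Tor d L, ‖Mx (D.zr 0) x‖ ^ 2 := by
    refine (norm_sum_le _ _).trans (sum_le_sum fun x _ => ?_)
    rw [norm_mul, ch_norm, mul_one, norm_pow]
  refine h1.trans ?_
  rw [Mx_ward _ hi, ← hW.fix, hW.zr_im, div_le_div_iff₀ h0 hs, hW.et_zero]
  linarith

private theorem rr_im (ζ : ℂ) (e : ℝ) :
    (1 / ((e : ℂ) - ζ)).im = ζ.im * ‖1 / ((e : ℂ) - ζ)‖ ^ 2 := by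
  rw [norm_div, norm_one, div_pow, one_pow, ← Complex.normSq_eq_norm_sq, one_div, Complex.inv_im]
  simp
  ring

theorem re_r0 (d : ℕ) (hd : 3 ≤ d) : ∃ C : ℝ, 0 < C ∧ ∀ (L : ℕ) [NeZero L]
    (D : Fl (Tor d L)) (rlo rhi : ℝ), World D rlo rhi → 64 / D.et 0 ^ 3 ≤ L → ∀ k : Tor d L,
    D.s * (r0 D k).re ≤ 1 / 2 + C * √D.s / √rlo := by
  obtain ⟨C, hC, hmd⟩ := mdiag d hd
  refine ⟨C, hC, fun L _ D rlo rhi hW hL k => ?_⟩
  have hs := hW.s0
  have hg := hW.g0im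
  have hz := hW.zim
  have hγe := hW.et_zero
  have hγ1 := hW.et1
  have hi := hW.zr_im
  set γ := D.et 0 with hγdef
  set ζ := D.zr 0 with hζdef
  have hγ : 0 < γ := by
    rw [hγe]
    positivity
  have hi0 : 0 < ζ.im := by rw [hi]; exact hγ
  have hL0 : (0 : ℝ) < (L : ℝ) ^ d := pow_pos (by exact_mod_cast Nat.pos_of_ne_zero (NeZero.ne L)) d
  set m : Tor d L → ℂ := fun p => 1 / ((en p : ℂ) - ζ) with hm
  have hne : ∀ p : Tor d L, (en p : ℂ) - ζ ≠ 0 := fun p => hdiag_ne ζ hi0 p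
  have hmim : ∀ p, (m p).im = γ * ‖m p‖ ^ 2 := fun p => by
    rw [← hi]
    exact rr_im ζ (en p)
  have hM0 : Mx ζ (0 : Tor d L) = (1 / (L : ℂ) ^ d) * ∑ p, m p := by
    unfold Mx
    congr 1
    refine sum_congr rfl fun p _ => ?_
    rw [ch_comm, ch_zero_left]
  -- the derivative
  have hder : HasDerivAt (fun ζ' => Mx ζ' (0 : Tor d L)) ((1 / (L : ℂ) ^ d) * ∑ p, m p ^ 2) ζ := by
    unfold Mx
    refine HasDerivAt.const_mul _ (HasDerivAt.fun_sum fun p _ => ?_)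
    have h1 : HasDerivAt (fun ζ' : ℂ => (en p : ℂ) - ζ') (-1) ζ := by
      simpa using (hasDerivAt_id ζ).const_sub (en p : ℂ)
    have h2 := (hasDerivAt_const ζ (ch p (0 : Tor d L))).div h1 (hne p)
    refine h2.congr_deriv ?_
    rw [ch_comm, ch_zero_left, hm]
    have := hne p
    field_simp
    ring
  have hnorm : ‖(1 / (L : ℂ) ^ d) * ∑ p, m p ^ 2‖ ≤ C / √(γ / 2) := by
    refine hder.le_of_lip' (by positivity) ?_
    have hopen : ∀ᶠ ζ' : ℂ in nhds ζ, γ / 2 ≤ ζ'.im := by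
      have h1 : ContinuousAt (fun z : ℂ => z.im) ζ := Complex.continuous_im.continuousAt
      have h2 : γ / 2 < ζ.im := by rw [hi]; linarith
      exact (h1.eventually (lt_mem_nhds h2)).mono fun z hz => hz.le
    refine hopen.mono fun ζ' hζ' => ?_
    have h3 := (hmd L (γ / 2) (by positivity) (by linarith) (by
      refine le_trans (le_of_eq ?_) hL
      field_simp
      norm_num) ζ' ζ hζ' (by rw [hi]; linarith)).2
    refine h3.trans (le_of_eq ?_)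
    ring
  -- the estimate of the real part
  have hr0 : r0 D k = (((1 / (L : ℝ) ^ d : ℝ)) : ℂ) * ∑ p : Tor d L, m p * m (-k - p) := by
    have h1 := rr_eq ζ k
    rw [r0, ← hζdef, h1]
    push_cast
    rfl
  have hre : (r0 D k).re = (1 / (L : ℝ) ^ d) * ∑ p : Tor d L, (m p * m (-k - p)).re := by
    rw [hr0, Complex.re_ofReal_mul, Complex.re_sum]
  have hpt : ∀ p : Tor d L, (m p * m (-k - p)).re ≤
      ((m p).re ^ 2 + (m (-k - p)).re ^ 2) / 2 := by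
    intro p
    rw [Complex.mul_re]
    have h1 : 0 ≤ (m p).im := by rw [hmim]; positivity
    have h2 : 0 ≤ (m (-k - p)).im := by rw [hmim]; positivity
    nlinarith [sq_nonneg ((m p).re - (m (-k - p)).re), mul_nonneg h1 h2]
  have hsum : ∑ p : Tor d L, (m (-k - p)).re ^ 2 = ∑ p : Tor d L, (m p).re ^ 2 :=
    Equiv.sum_comp (Equiv.subLeft (-k)) fun p => (m p).re ^ 2
  have h1 : ∑ p : Tor d L, (m p * m (-k - p)).re ≤ ∑ p : Tor d L, (m p).re ^ 2 := by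
    refine (sum_le_sum fun p _ => hpt p).trans (le_of_eq ?_)
    rw [← sum_div, sum_add_distrib, hsum]
    ring
  have h2 : ∑ p : Tor d L, (m p).re ^ 2 =
      (∑ p : Tor d L, ‖m p‖ ^ 2 + (∑ p : Tor d L, m p ^ 2).re) / 2 := by
    rw [Complex.re_sum, ← sum_add_distrib, sum_div]
    refine sum_congr rfl fun p _ => ?_
    rw [← Complex.normSq_eq_norm_sq, Complex.normSq_apply, pow_two (m p), Complex.mul_re]
    ring
  have h3 : (1 / (L : ℝ) ^ d) * ∑ p : Tor d L, ‖m p‖ ^ 2 = D.g0.im / γ := by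
    have e1 : (Mx ζ (0 : Tor d L)).im = (1 / (L : ℝ) ^ d) * ∑ p, (m p).im := by
      rw [hM0]
      have : (1 / (L : ℂ) ^ d) = (((1 / (L : ℝ) ^ d : ℝ)) : ℂ) := by push_cast; rfl
      rw [this, Complex.im_ofReal_mul, Complex.im_sum]
    rw [hW.fix, ← hζdef, e1]
    simp only [hmim]
    rw [← mul_sum]
    field_simp
  have h4 : (1 / (L : ℝ) ^ d) * (∑ p : Tor d L, m p ^ 2).re ≤ C / √(γ / 2) := by
    refine le_trans ?_ hnorm
    refine le_trans (le_of_eq ?_) (Complex.re_le_norm _)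
    have : (1 / (L : ℂ) ^ d) = (((1 / (L : ℝ) ^ d : ℝ)) : ℂ) := by push_cast; rfl
    rw [this, Complex.re_ofReal_mul]
  have h5 : (r0 D k).re ≤ (D.g0.im / γ + C / √(γ / 2)) / 2 := by
    rw [hre]
    calc (1 / (L : ℝ) ^ d) * ∑ p : Tor d L, (m p * m (-k - p)).re
        ≤ (1 / (L : ℝ) ^ d) * ∑ p : Tor d L, (m p).re ^ 2 := by gcongr
      _ = ((1 / (L : ℝ) ^ d) * ∑ p : Tor d L, ‖m p‖ ^ 2 +
          (1 / (L : ℝ) ^ d) * (∑ p : Tor d L, m p ^ 2).re) / 2 := by rw [h2]; ring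
      _ ≤ _ := by rw [h3]; linarith
  -- the scalar estimate
  have hrlo := hW.rlo0
  have h6 : D.s * (D.g0.im / γ) ≤ 1 := by
    rw [← mul_div_assoc, div_le_one hγ, hγe]
    linarith
  have h7 : D.s * (C / √(γ / 2)) ≤ 2 * (C * √D.s / √rlo) := by
    have h8 : D.s * rlo ≤ γ := by
      rw [hγe]
      have := mul_le_mul_of_nonneg_left hW.lo hs.le
      linarith
    have h9 : √D.s * √rlo ≤ 2 * √(γ / 2) := by
      rw [← Real.sqrt_mul hs.le]
      have : (2 : ℝ) * √(γ / 2) = √(4 * (γ / 2)) := by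
        rw [Real.sqrt_mul (by norm_num), show (4 : ℝ) = 2 ^ 2 by norm_num,
          Real.sqrt_sq (by norm_num)]
      rw [this]
      apply Real.sqrt_le_sqrt
      linarith
    have h10 : 0 < √(γ / 2) := Real.sqrt_pos.2 (by positivity)
    have h11 : 0 < √rlo := Real.sqrt_pos.2 hrlo
    have h12 : √D.s * √D.s = D.s := Real.mul_self_sqrt hs.le
    have h13 : 0 ≤ √D.s := Real.sqrt_nonneg _
    rw [← mul_div_assoc, ← mul_div_assoc, div_le_div_iff₀ h10 h11]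
    calc D.s * C * √rlo = (√D.s * √D.s) * C * √rlo := by rw [h12]
      _ = C * √D.s * (√D.s * √rlo) := by ring
      _ ≤ C * √D.s * (2 * √(γ / 2)) := by gcongr
      _ = _ := by ring
  calc D.s * (r0 D k).re ≤ D.s * ((D.g0.im / γ + C / √(γ / 2)) / 2) := by gcongr
    _ = (D.s * (D.g0.im / γ) + D.s * (C / √(γ / 2))) / 2 := by ring
    _ ≤ (1 + 2 * (C * √D.s / √rlo)) / 2 := by linarith
    _ = _ := by ring

end Pool.Agent.APS
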