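import Pool.Agent.APS.Init0

/-! # APS REFA: the reference `QU`, `W`, `B` (scalar facts, then multipliers).

`x = x_r = η_r/γ`, `t = s r²`, `ρ = ρ0/γ = ST 0`, `x = 1 - ρ t`; `0 ≤ q0 ≤ 2ρ`, `γ, x > 0`.
* `qu_le`: `q/(x + t q)` is increasing in `q ≥ 0` and at `q = 2ρ` it is `2ρ/(2 - x) ≤ 2ρ`; so
  `qu ≤ 2ρ/x = 2ρ0/η`.
* `qu_deriv`: with `x' = -2 r s ρ`, `t' = 2 r s`: `(ln qu)' = -x'/x - (x' + t' q)/(x + t q)`, which is
  `2rs (ρ/x + (ρ - q)/(x+tq)) = 2rs (2ρ/x - q/(x(x+tq)))` because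
  `ρ/x - q/(x(x+tq)) - (ρ-q)/(x+tq) = (ρ(x+tq) - q - ρx + qx)/(x(x+tq)) = q(ρt - 1 + x)/(..) = 0`.
* `wu_deriv`: `wu = qu^(-1/2)` if `q0 > 0` (both sides `0` if `q0 = 0`):
  `wu' = -(1/2) wu qu'/qu`.
* products: `√qu · √qu = qu`, `√qu · wu = 1` if `q0 > 0`, `0` if `q0 = 0`.
All for `r` with `η_r > 0` (then `x > 0`, `x + t q0 > 0`).
-/

open Matrix Finset

noncomputable section

namespace Pool.Agent.APS

open Pool.Agent.Kin

variable {d L : ℕ} [NeZero L] {D : Fl (Tor d L)} {rlo rhi : ℝ}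

/-- the basic facts in one place: `ga = γ`, `rho = ρ`, `x`, `t`, `q` -/
private theorem rf_basic (hW : World D rlo rhi) {r : ℝ} (hr : 0 < D.et r) (k : Tor d L) :
    0 < D.et 0 ∧ 0 < D.g0.im / D.et 0 ∧ 0 < xr D r ∧ 0 ≤ D.s * r ^ 2 ∧ 0 ≤ q0 D k ∧
      q0 D k ≤ 2 * (D.g0.im / D.et 0) ∧
      xr D r = 1 - D.g0.im / D.et 0 * (D.s * r ^ 2) ∧
      D.g0.im / D.et r = D.g0.im / D.et 0 / xr D r ∧
      0 < xr D r + D.s * r ^ 2 * q0 D k := by
  have hs := hW.s0
  have hg := hW.g0im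
  have hz := hW.zim
  have h0 : 0 < D.et 0 := by
    rw [hW.et_zero]
    positivity
  have hx : 0 < xr D r := div_pos hr h0
  have ht : 0 ≤ D.s * r ^ 2 := by positivity
  have hq := hW.q0_nonneg k
  refine ⟨h0, div_pos hg h0, hx, ht, hq, hW.q0_le k, hW.xr_eq r, ?_, by positivity⟩
  rw [xr]
  field_simp

theorem qu_nonneg (hW : World D rlo rhi) {r : ℝ} (hr : 0 < D.et r) (k : Tor d L) :
    0 ≤ qu D r k := by
  obtain ⟨_, _, hx, _, hq, _, _, _, hp⟩ := rf_basic hW hr k
  rw [qu]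
  positivity

theorem qu_le (hW : World D rlo rhi) {r : ℝ} (hr : 0 < D.et r) (h1 : r ^ 2 ≤ 1) (k : Tor d L) :
    qu D r k ≤ 2 * D.g0.im / D.et r := by
  have _ := h1
  obtain ⟨_, hrho, hx, ht, hq, hq2, hxe, he, hp⟩ := rf_basic hW hr k
  rw [mul_div_assoc, he, qu]
  set rho := D.g0.im / D.et 0
  set x := xr D r
  set t := D.s * r ^ 2
  set q := q0 D k
  rw [← mul_div_assoc, div_le_div_iff₀ (by positivity) hx]
  have h2 : q ≤ 2 * rho * (x + t * q) := by
    rcases le_total q rho with h | h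
    · have h3 : 2 * rho * (x + t * q) - q = q + 2 * ((rho - q) * x) := by
        rw [hxe]; ring
      have h4 : 0 ≤ (rho - q) * x := mul_nonneg (by linarith) hx.le
      linarith
    · have h3 : 2 * rho * (x + t * q) - q = (2 * rho - q) + 2 * (rho * t * (q - rho)) := by
        rw [hxe]; ring
      have h4 : 0 ≤ rho * t * (q - rho) := by
        have : 0 ≤ q - rho := by linarith
        positivity
      linarith
  calc q * x ≤ (2 * rho * (x + t * q)) * x := mul_le_mul_of_nonneg_right h2 hx.le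
    _ = _ := by ring

theorem qu_zero_time (hW : World D rlo rhi) (k : Tor d L) : qu D 0 k = q0 D k := by
  have hs := hW.s0
  have hg := hW.g0im
  have hz := hW.zim
  have h0 : 0 < D.et 0 := by
    rw [hW.et_zero]
    positivity
  rw [qu, xr, div_self h0.ne']
  simp

omit [NeZero L] in
private theorem et_deriv (D : Fl (Tor d L)) (r : ℝ) :
    HasDerivAt (fun r => D.et r) (-(2 * r * D.s * D.g0.im)) r := by
  have h1 : HasDerivAt (fun r : ℝ => r ^ 2) (2 * r) r := by
    simpa using hasDerivAt_pow 2 r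
  have h2 := (((h1.const_sub 1).const_mul D.s).mul_const D.g0.im).const_add D.z.im
  refine h2.congr_deriv ?_
  ring

private theorem xr_deriv (D : Fl (Tor d L)) (r : ℝ) :
    HasDerivAt (fun r => xr D r) (-(2 * r * D.s * (D.g0.im / D.et 0))) r := by
  refine ((et_deriv D r).div_const (D.et 0)).congr_deriv ?_
  ring

private theorem den_deriv (D : Fl (Tor d L)) (r : ℝ) (k : Tor d L) :
    HasDerivAt (fun r => xr D r * (xr D r + D.s * r ^ 2 * q0 D k))
      (-(2 * r * D.s * (D.g0.im / D.et 0)) * (xr D r + D.s * r ^ 2 * q0 D k) +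
        xr D r * (-(2 * r * D.s * (D.g0.im / D.et 0)) + 2 * r * D.s * q0 D k)) r := by
  have h1 : HasDerivAt (fun r : ℝ => r ^ 2) (2 * r) r := by
    simpa using hasDerivAt_pow 2 r
  have h2 := (h1.const_mul D.s).mul_const (q0 D k)
  have h3 := (xr_deriv D r).add h2
  refine ((xr_deriv D r).mul h3).congr_deriv ?_
  simp only [Pi.add_apply]
  ring

theorem qu_deriv (hW : World D rlo rhi) {r : ℝ} (hr : 0 < D.et r) (k : Tor d L) :
    HasDerivAt (fun r => qu D r k) (qu' D r k) r := by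
  obtain ⟨_, hrho, hx, ht, hq, hq2, hxe, he, hp⟩ := rf_basic hW hr k
  have h1 := (hasDerivAt_const r (q0 D k)).div (den_deriv D r k) (by positivity)
  refine h1.congr_deriv ?_
  rw [qu', mul_div_assoc, he, qu]
  set rho := D.g0.im / D.et 0
  set x := xr D r
  set t := D.s * r ^ 2
  set q := q0 D k
  have hx' := hx.ne'
  have hp' := hp.ne'
  have key : (0 * (x * (x + t * q)) - q * (-(2 * r * D.s * rho) * (x + t * q) +
      x * (-(2 * r * D.s * rho) + 2 * r * D.s * q))) =
      2 * r * D.s * (2 * rho * q * (x + t * q) - q ^ 2) := by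
    rw [hxe]; ring
  rw [key]
  field_simp

theorem wu_deriv (hW : World D rlo rhi) {r : ℝ} (hr : 0 < D.et r) (k : Tor d L) :
    HasDerivAt (fun r => wu D r k) (wu' D r k) r := by
  obtain ⟨_, hrho, hx, ht, hq, hq2, hxe, he, hp⟩ := rf_basic hW hr k
  rcases hq.eq_or_lt with h0 | hq0
  · have h1 : (fun r => wu D r k) = fun _ => 0 := by
      funext r'
      rw [wu, ← h0, div_zero, Real.sqrt_zero]
    have h2 : wu' D r k = 0 := by
      have : wu D r k = 0 := congrFun h1 r
      rw [wu', this]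
      ring
    rw [h1, h2]
    exact hasDerivAt_const r 0
  · have h1 := (den_deriv D r k).div_const (q0 D k)
    have hpos : 0 < xr D r * (xr D r + D.s * r ^ 2 * q0 D k) / q0 D k := by positivity
    have h2 := h1.sqrt hpos.ne'
    refine h2.congr_deriv ?_
    rw [wu', he]
    have hw : wu D r k = √(xr D r * (xr D r + D.s * r ^ 2 * q0 D k) / q0 D k) := rfl
    rw [← hw]
    have hwpos : 0 < wu D r k := by rw [hw]; exact Real.sqrt_pos.2 hpos
    have hw2 : wu D r k ^ 2 = xr D r * (xr D r + D.s * r ^ 2 * q0 D k) / q0 D k := by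
      rw [hw, Real.sq_sqrt hpos.le]
    rw [qu]
    set rho := D.g0.im / D.et 0
    set x := xr D r
    set t := D.s * r ^ 2
    set q := q0 D k
    set w := wu D r k
    have hx' := hx.ne'
    have hp' := hp.ne'
    have hq' := hq0.ne'
    rw [div_eq_iff (by positivity)]
    have e1 : 2 * r * D.s * (1 / 2 * (q / (x * (x + t * q)) * w) - rho / x * w) * (2 * w) =
        2 * r * D.s * (q / (x * (x + t * q)) - 2 * (rho / x)) * w ^ 2 := by ring
    rw [e1, hw2]
    have key : (-(2 * r * D.s * rho) * (x + t * q) +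
        x * (-(2 * r * D.s * rho) + 2 * r * D.s * q)) =
        2 * r * D.s * (q - 2 * rho * (x + t * q)) := by
      rw [hxe]; ring
    rw [key]
    field_simp

omit [NeZero L] in
private theorem et_cont (D : Fl (Tor d L)) : Continuous fun r => D.et r := by
  unfold Fl.et
  fun_prop

private theorem qu_cont (hW : World D rlo rhi) (k : Tor d L) :
    ContinuousOn (fun r => qu D r k) {r | 0 < D.et r} :=
  fun _ hr => (qu_deriv hW hr k).continuousAt.continuousWithinAt

private theorem wu_cont (hW : World D rlo rhi) (k : Tor d L) :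
    ContinuousOn (fun r => wu D r k) {r | 0 < D.et r} :=
  fun _ hr => (wu_deriv hW hr k).continuousAt.continuousWithinAt

theorem qu'_cont (hW : World D rlo rhi) (k : Tor d L) :
    ContinuousOn (fun r => qu' D r k) {r | 0 < D.et r} := by
  have h1 := qu_cont hW k
  have h2 : ContinuousOn (fun r => 2 * D.g0.im / D.et r) {r | 0 < D.et r} :=
    continuousOn_const.div (et_cont D).continuousOn fun r hr => ne_of_gt hr
  have h3 : ContinuousOn (fun r : ℝ => 2 * r * D.s) {r | 0 < D.et r} := by fun_prop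
  exact h3.mul ((h2.mul h1).sub (h1.pow 2))

theorem wu'_cont (hW : World D rlo rhi) (k : Tor d L) :
    ContinuousOn (fun r => wu' D r k) {r | 0 < D.et r} := by
  have h1 := qu_cont hW k
  have h1' := wu_cont hW k
  have h2 : ContinuousOn (fun r => D.g0.im / D.et r) {r | 0 < D.et r} :=
    continuousOn_const.div (et_cont D).continuousOn fun r hr => ne_of_gt hr
  have h3 : ContinuousOn (fun r : ℝ => 2 * r * D.s) {r | 0 < D.et r} := by fun_prop
  exact h3.mul ((continuousOn_const.mul (h1.mul h1')).sub (h2.mul h1'))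

theorem sqrt_wu (hW : World D rlo rhi) {r : ℝ} (hr : 0 < D.et r) (k : Tor d L) :
    √(qu D r k) * wu D r k = if q0 D k = 0 then 0 else 1 := by
  obtain ⟨_, hrho, hx, ht, hq, hq2, hxe, he, hp⟩ := rf_basic hW hr k
  split_ifs with h
  · rw [wu, h, div_zero, Real.sqrt_zero, mul_zero]
  · have hq0 : 0 < q0 D k := lt_of_le_of_ne hq (Ne.symm h)
    rw [wu, ← Real.sqrt_mul (qu_nonneg hW hr k), qu]
    rw [show q0 D k / (xr D r * (xr D r + D.s * r ^ 2 * q0 D k)) *
      (xr D r * (xr D r + D.s * r ^ 2 * q0 D k) / q0 D k) = 1 by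
        rw [div_mul_div_comm, mul_comm (q0 D k), div_self (by positivity)]]
    exact Real.sqrt_one

theorem wu_sq (hW : World D rlo rhi) {r : ℝ} (hr : 0 < D.et r) (k : Tor d L) :
    wu D r k ^ 2 = xr D r * (xr D r + D.s * r ^ 2 * q0 D k) / q0 D k := by
  obtain ⟨_, hrho, hx, ht, hq, hq2, hxe, he, hp⟩ := rf_basic hW hr k
  rw [wu, Real.sq_sqrt (by positivity)]

/-- `ρ0/η - qu = ST k/(1 - t ST k)`, `1 - t ST k = x + t q0` -/
theorem U_eq (hW : World D rlo rhi) {r : ℝ} (hr : 0 < D.et r) (k : Tor d L) :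
    D.g0.im / D.et r - qu D r k = ST (D.zr 0) k / (1 - D.s * r ^ 2 * ST (D.zr 0) k) ∧
      1 - D.s * r ^ 2 * ST (D.zr 0) k = xr D r + D.s * r ^ 2 * q0 D k := by
  obtain ⟨_, hrho, hx, ht, hq, hq2, hxe, he, hp⟩ := rf_basic hW hr k
  have hST : ST (D.zr 0) k = D.g0.im / D.et 0 - q0 D k := by
    rw [q0, hW.ST0]; ring
  have h2 : 1 - D.s * r ^ 2 * ST (D.zr 0) k = xr D r + D.s * r ^ 2 * q0 D k := by
    rw [hST, hxe]; ring
  refine ⟨?_, h2⟩
  rw [h2, he, hST, qu]
  set rho := D.g0.im / D.et 0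
  set x := xr D r
  set t := D.s * r ^ 2
  set q := q0 D k
  have hx' := hx.ne'
  have hp' := hp.ne'
  rw [div_sub_div _ _ hx' (by positivity), div_eq_div_iff (by positivity) hp']
  have key : rho * (x + t * q) - q = (rho - q) * x := by
    rw [hxe]; ring
  calc (rho * (x * (x + t * q)) - x * q) * (x + t * q)
      = (rho * (x + t * q) - q) * (x * (x + t * q)) := by ring
    _ = _ := by rw [key]; ring

/-- `|ρ0/η - qu| ≤ (ρ0/γ)/(x + t q0)` -/
theorem Uabs_le (hW : World D rlo rhi) {r : ℝ} (hr : 0 < D.et r) (k : Tor d L) :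
    |D.g0.im / D.et r - qu D r k| ≤
      D.g0.im / D.et 0 / (xr D r + D.s * r ^ 2 * q0 D k) := by
  obtain ⟨_, hrho, hx, ht, hq, hq2, hxe, he, hp⟩ := rf_basic hW hr k
  obtain ⟨h1, h2⟩ := U_eq hW hr k
  have hST : ST (D.zr 0) k = D.g0.im / D.et 0 - q0 D k := by
    rw [q0, hW.ST0]; ring
  rw [h1, h2, abs_div, abs_of_pos hp, hST]
  apply div_le_div_of_nonneg_right _ hp.le
  rw [abs_le]
  constructor <;> linarith

end Pool.Agent.APS
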