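import Pool.Agent.APS.LowHigh
import Pool.Agent.APS.Mult

/-! # APS REFB: the structure `Ref`, the low-mode projection and the domain for the torus.

`W r = multR (wu D r)`, `QU r = multR (qu D r)`, `B r = multR (√qu)`, `P0 = P0m d L`.
Algebra: `mult_mul`, `mult_P0`, `sqrt_wu` (`q0 k = 0 ↔ k = 0` by `low_facts`), ODEs from `qu'`, `wu'`.
`split`: `v = W u`, `hat v k = wu k hat u k`.  `b` = the mode `k = 0` (`wu 0 = 0`, so `b = 0`),
`uH` = part with `k` not low, `uL` = part with `k` low, `k ≠ 0` (multipliers `1[..] wu`).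
`∑ |uH|² = N⁻¹ ∑_high wu² |hat u|² ≤ (2η/ρ0) ∑|u|²` (`wu² = 1/qu`), so `CH = 2/rlo`;
`|uL x|² ≤ (N⁻¹ ∑_low wu |hat u|)² ≤ (N⁻¹ ∑_low wu²)(N⁻¹ ∑ |hat u|²) ≤ kap η² ∑ |u|²`, `kap = C √γ`.
`LowMode (PiH ..)`: hermitian, idempotent by `mult_mul`; `∑ |(1-Pi)u|² = N⁻¹ ∑_low |hat u|² ≤ (#low/N) (∑|u|)²`.
`Pi (ρ0/η - QU)` has the symbol `1_high (ρ0/η - qu)`.
-/

open Matrix Finset

noncomputable section

namespace Pool.Agent.APS

open Pool.Agent.Kin

section Alg

variable {d L : ℕ} [NeZero L]

private theorem rb_mul (φ ψ : Tor d L → ℝ) :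
    multR φ * multR ψ = multR fun k => φ k * ψ k := by
  unfold multR
  rw [mult_mul]
  congr 1
  funext k
  push_cast
  ring

private theorem rb_smul (c : ℝ) (φ : Tor d L → ℝ) :
    ((c : ℝ) : ℂ) • multR φ = multR fun k => c * φ k := by
  unfold multR
  rw [mult_smul]
  congr 1
  funext k
  push_cast
  ring

private theorem rb_sub (φ ψ : Tor d L → ℝ) :
    multR φ - multR ψ = multR fun k => φ k - ψ k := by
  unfold multR
  rw [mult_sub]
  congr 1
  funext k
  push_cast
  ring

private theorem rb_add (φ ψ : Tor d L → ℝ) :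
    multR φ + multR ψ = multR fun k => φ k + ψ k := by
  unfold multR
  rw [mult_add]
  congr 1
  funext k
  push_cast
  ring

private theorem rb_one : (1 : Matrix (Tor d L) (Tor d L) ℂ) = multR fun _ => 1 := by
  unfold multR
  rw [← mult_one]
  congr 1

private theorem rb_zero : (0 : Matrix (Tor d L) (Tor d L) ℂ) = multR fun _ => 0 := by
  unfold multR
  rw [← mult_zero]
  congr 1

private theorem rb_P0 : P0m d L = multR fun k : Tor d L => if k = 0 then 1 else 0 := by
  unfold multR
  rw [mult_P0]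
  congr 1
  funext k
  by_cases hk : k = 0
  · simp only [if_pos hk, Complex.ofReal_one]
  · simp only [if_neg hk, Complex.ofReal_zero]

private theorem rb_eval (φ : Tor d L → ℝ) (u : Tor d L → ℂ) (x : Tor d L) :
    ‖(multR φ *ᵥ u) x‖ ^ 2 ≤ (1 / (L : ℝ) ^ d) ^ 2 *
      ((∑ k : Tor d L, φ k ^ 2) * ∑ k : Tor d L, ‖hat u k‖ ^ 2) := by
  have h1 : ‖(multR φ *ᵥ u) x‖ ≤ (1 / (L : ℝ) ^ d) * ∑ k : Tor d L, |φ k| * ‖hat u k‖ := by
    rw [hat_inv (multR φ *ᵥ u) x, norm_mul]
    have h2 : ‖(1 / (L : ℂ) ^ d)‖ = 1 / (L : ℝ) ^ d := by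
      rw [norm_div, norm_one, norm_pow, Complex.norm_natCast]
    rw [h2]
    refine mul_le_mul_of_nonneg_left ?_ (by positivity)
    refine (norm_sum_le _ _).trans (le_of_eq (Finset.sum_congr rfl fun k _ => ?_))
    unfold multR
    rw [hat_mult, norm_mul, norm_mul, ch_norm, mul_one, Complex.norm_real, Real.norm_eq_abs]
  have h3 := pow_le_pow_left₀ (norm_nonneg _) h1 2
  refine h3.trans ?_
  rw [mul_pow]
  refine mul_le_mul_of_nonneg_left ?_ (by positivity)
  have h4 := Finset.sum_mul_sq_le_sq_mul_sq (univ : Finset (Tor d L)) (fun k => |φ k|)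
    (fun k => ‖hat u k‖)
  simp only [sq_abs] at h4
  exact h4

private theorem rb_hat_le (u : Tor d L → ℂ) (k : Tor d L) : ‖hat u k‖ ≤ ∑ x, ‖u x‖ := by
  unfold hat
  refine (norm_sum_le _ _).trans (le_of_eq (Finset.sum_congr rfl fun x _ => ?_))
  rw [norm_mul, norm_star, ch_norm, mul_one]

end Alg

theorem ref_torus (d : ℕ) (hd : 3 ≤ d) (rlo rhi : ℝ) (hrlo : 0 < rlo) :
    ∃ C γ0 : ℝ, 0 < C ∧ 0 < γ0 ∧ ∀ (L : ℕ) [NeZero L] (D : Fl (Tor d L)),
    World D rlo rhi → D.et 0 ≤ γ0 → ∀ r : ℝ, 0 ≤ r → r ≤ 1 →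
    Ref D r (2 / rlo) (C * D.et 0 ^ (1 / 2 : ℝ)) (multR (wu D r)) (multR (wu' D r))
      (multR (qu D r)) (multR (qu' D r)) (multR fun k => √(qu D r k)) (P0m d L) ∧
    ∃ (Pi : Matrix (Tor d L) (Tor d L) ℂ) (epL : ℝ), LowMode Pi epL ∧
      epL ≤ C * D.et 0 ^ (3 / 2 : ℝ) * D.et r ∧
      OpLe (Pi * (((D.g0.im / D.et r : ℝ) : ℂ) • (1 : Matrix (Tor d L) (Tor d L) ℂ) -
        multR (qu D r))) (bHf D / D.et r) := by
  obtain ⟨C, γ0, hC, hγ0, hlow⟩ := low_facts d hd rlo rhi hrlo
  refine ⟨C, γ0, hC, hγ0, ?_⟩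
  intro L _ D hW hγ r hr0 hr1
  obtain ⟨f1, f2, f3, f4, f5⟩ := hlow L D hW hγ r hr0 hr1
  have hs : 0 < D.s := by
    unfold Fl.s
    have := hW.lam0
    have := hW.sg0
    positivity
  have hg : 0 < D.g0.im := lt_of_lt_of_le hW.rlo0 hW.lo
  have hr2 : r ^ 2 ≤ 1 := by nlinarith
  have her0 : 0 < D.et r := by
    have e1 : D.et r = D.z.im + D.s * (1 - r ^ 2) * D.g0.im := rfl
    have hz := hW.zim
    have h2 : 0 ≤ D.s * (1 - r ^ 2) * D.g0.im :=
      mul_nonneg (mul_nonneg hs.le (by linarith)) hg.le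
    rw [e1]
    linarith
  have he0 : 0 < D.et 0 := by
    have e1 : D.et 0 = D.z.im + D.s * (1 - 0 ^ 2) * D.g0.im := rfl
    have hz := hW.zim
    have h2 : 0 < D.s * D.g0.im := mul_pos hs hg
    rw [e1]
    nlinarith
  have hL0 : (0 : ℝ) < (L : ℝ) ^ d := by
    have h1 : (0 : ℝ) < L := by
      have := NeZero.pos L
      exact_mod_cast this
    exact pow_pos h1 d
  have q00 : q0 D (0 : Tor d L) = 0 := by
    unfold q0
    ring
  have w00 : wu D r (0 : Tor d L) = 0 := by
    unfold wu
    rw [q00, div_zero, Real.sqrt_zero]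
  have qu0 : qu D r (0 : Tor d L) = 0 := by
    unfold qu
    rw [q00, zero_div]
  have wsq : ∀ k : Tor d L, wu D r k ^ 2 = 1 / qu D r k := by
    intro k
    rw [wu_sq hW her0 k]
    unfold qu
    rw [one_div_div]
  have hsw : ∀ k : Tor d L, √(qu D r k) * wu D r k = 1 - if k = 0 then 1 else 0 := by
    intro k
    rw [sqrt_wu hW her0 k]
    by_cases hk : k = 0
    · rw [if_pos hk, if_pos (by rw [hk, q00])]
      ring
    · rw [if_neg hk, if_neg (f2 k hk).ne']
      ring
  have hP1 : (1 : Matrix (Tor d L) (Tor d L) ℂ) - P0m d L =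
      multR fun k : Tor d L => 1 - if k = 0 then 1 else 0 := by
    rw [rb_one, rb_P0, rb_sub]
  refine ⟨?_, ?_⟩
  · refine
      { hW := multR_herm _
        hB := multR_herm _
        BB := ?_
        BW := ?_
        WB := ?_
        WP := ?_
        PW := ?_
        BP := ?_
        PB := ?_
        hP := fun x y => rfl
        dQU := ?_
        dW := ?_
        nQU := ?_
        CH0 := (div_pos two_pos hrlo).le
        kap0 := (mul_pos hC (Real.rpow_pos_of_pos he0 _)).le
        split := ?_ }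
    · rw [rb_mul]
      congr 1
      funext k
      exact Real.mul_self_sqrt (qu_nonneg hW her0 k)
    · rw [rb_mul, hP1]
      congr 1
      funext k
      exact hsw k
    · rw [rb_mul, hP1]
      congr 1
      funext k
      rw [mul_comm]
      exact hsw k
    · rw [rb_P0, rb_mul, rb_zero]
      congr 1
      funext k
      by_cases hk : k = 0
      · rw [hk, w00, zero_mul]
      · rw [if_neg hk, mul_zero]
    · rw [rb_P0, rb_mul, rb_zero]
      congr 1
      funext k
      by_cases hk : k = 0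
      · rw [hk, w00, mul_zero]
      · rw [if_neg hk, zero_mul]
    · rw [rb_P0, rb_mul, rb_zero]
      congr 1
      funext k
      by_cases hk : k = 0
      · rw [hk, qu0, Real.sqrt_zero, zero_mul]
      · rw [if_neg hk, mul_zero]
    · rw [rb_P0, rb_mul, rb_zero]
      congr 1
      funext k
      by_cases hk : k = 0
      · rw [hk, qu0, Real.sqrt_zero, mul_zero]
      · rw [if_neg hk, zero_mul]
    · rw [rb_smul, rb_mul, rb_sub, rb_smul]
      congr 1
      funext k
      unfold qu'
      ring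
    · have h12 : (1 / 2 : ℂ) = ((1 / 2 : ℝ) : ℂ) := by
        push_cast
        rfl
      rw [h12, rb_mul, rb_smul, rb_smul, rb_sub, rb_smul]
      congr 1
    · refine mult_op _ _ fun k => ?_
      rw [Complex.norm_real, Real.norm_eq_abs, abs_of_nonneg (qu_nonneg hW her0 k)]
      exact qu_le hW her0 hr2 k
    · intro u
      set LS : Finset (Tor d L) := lowSet D (bHf D) r with hLS
      refine ⟨multR (fun k => if k ∈ LS then 0 else wu D r k) *ᵥ u,
        multR (fun k => if k ∈ LS then wu D r k else 0) *ᵥ u, 0, ?_, ?_, ?_⟩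
      · intro x
        rw [add_zero, ← Pi.add_apply, ← Matrix.add_mulVec, rb_add]
        have h1 : (fun k => (if k ∈ LS then 0 else wu D r k) + (if k ∈ LS then wu D r k else 0))
            = wu D r := by
          funext k
          split_ifs
          · rw [zero_add]
          · rw [add_zero]
        rw [h1]
      · have h1 := mult_norm (fun k => (((if k ∈ LS then 0 else wu D r k : ℝ)) : ℂ)) u
        have h2 : ∑ k : Tor d L, ‖((((if k ∈ LS then 0 else wu D r k : ℝ)) : ℂ))‖ ^ 2 *
            ‖hat u k‖ ^ 2 ≤ 2 / rlo * D.et r * ((L : ℝ) ^ d * ∑ x, ‖u x‖ ^ 2) := by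
          rw [← hat_parseval, Finset.mul_sum]
          refine Finset.sum_le_sum fun k _ => mul_le_mul_of_nonneg_right ?_ (sq_nonneg _)
          rw [Complex.norm_real, Real.norm_eq_abs, sq_abs]
          have h0 : 0 ≤ 2 / rlo * D.et r := mul_nonneg (div_pos two_pos hrlo).le her0.le
          split_ifs with hk
          · rw [zero_pow two_ne_zero]
            exact h0
          · rw [wsq k]
            have h3 := f3 k hk
            have h4 : 0 < D.g0.im / (2 * D.et r) := div_pos hg (by linarith)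
            have h5 : 1 / qu D r k ≤ 1 / (D.g0.im / (2 * D.et r)) := one_div_le_one_div_of_le h4 h3
            refine h5.trans ?_
            rw [one_div_div, div_mul_eq_mul_div]
            exact div_le_div_of_nonneg_left (by linarith) hrlo hW.lo
        calc ∑ x, ‖(multR (fun k => if k ∈ LS then 0 else wu D r k) *ᵥ u) x‖ ^ 2
            = (1 / (L : ℝ) ^ d) * ∑ k : Tor d L, ‖((((if k ∈ LS then 0 else wu D r k : ℝ)) : ℂ))‖ ^ 2 *
                ‖hat u k‖ ^ 2 := h1
          _ ≤ (1 / (L : ℝ) ^ d) * (2 / rlo * D.et r * ((L : ℝ) ^ d * ∑ x, ‖u x‖ ^ 2)) :=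
              mul_le_mul_of_nonneg_left h2 (by positivity)
          _ = 2 / rlo * D.et r * ∑ x, ‖u x‖ ^ 2 := by
              field_simp
      · intro x
        refine (rb_eval _ u x).trans ?_
        rw [hat_parseval]
        have h1 : ∑ k : Tor d L, (if k ∈ LS then wu D r k else 0) ^ 2 =
            ∑ k ∈ LS.filter (fun k => k ≠ 0), 1 / qu D r k := by
          rw [Finset.sum_filter, ← Finset.sum_ite_mem_eq LS]
          refine Finset.sum_congr rfl fun k _ => ?_
          by_cases hk : k ∈ LS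
          · rw [if_pos hk, if_pos hk]
            by_cases h0 : k = 0
            · rw [if_neg (not_not.2 h0), h0, w00, zero_pow two_ne_zero]
            · rw [if_pos h0, wsq k]
          · rw [if_neg hk, if_neg hk, zero_pow two_ne_zero]
        rw [h1]
        have hu0 : 0 ≤ (L : ℝ) ^ d * ∑ x, ‖u x‖ ^ 2 :=
          mul_nonneg hL0.le (Finset.sum_nonneg fun _ _ => sq_nonneg _)
        calc (1 / (L : ℝ) ^ d) ^ 2 * ((∑ k ∈ LS.filter (fun k => k ≠ 0), 1 / qu D r k) *
              ((L : ℝ) ^ d * ∑ x, ‖u x‖ ^ 2))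
            ≤ (1 / (L : ℝ) ^ d) ^ 2 * ((C * D.et 0 ^ (1 / 2 : ℝ) * D.et r ^ 2 * (L : ℝ) ^ d) *
              ((L : ℝ) ^ d * ∑ x, ‖u x‖ ^ 2)) :=
              mul_le_mul_of_nonneg_left (mul_le_mul_of_nonneg_right f4 hu0) (by positivity)
          _ = C * D.et 0 ^ (1 / 2 : ℝ) * D.et r ^ 2 * ∑ x, ‖u x‖ ^ 2 := by
              field_simp
  · refine ⟨PiH D (bHf D) r, ((lowSet D (bHf D) r).card : ℝ) / (L : ℝ) ^ d, ?_, ?_, ?_⟩
    · have hPi : PiH D (bHf D) r =
          multR fun k => if k ∈ lowSet D (bHf D) r then 0 else 1 := by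
        unfold PiH multR
        congr 1
        funext k
        by_cases hk : k ∈ lowSet D (bHf D) r
        · simp only [if_pos hk, Complex.ofReal_zero]
        · simp only [if_neg hk, Complex.ofReal_one]
      refine
        { herm := ?_
          idem := ?_
          ep0 := by positivity
          low := ?_ }
      · rw [hPi]
        exact multR_herm _
      · rw [hPi, rb_mul]
        congr 1
        funext k
        split_ifs <;> ring
      · intro u
        rw [hPi, rb_one, rb_sub]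
        have h1 := mult_norm (fun k => ((1 - (if k ∈ lowSet D (bHf D) r then 0 else 1) : ℝ) : ℂ)) u
        have h2 : ∑ k : Tor d L, ‖((1 - (if k ∈ lowSet D (bHf D) r then 0 else 1) : ℝ) : ℂ)‖ ^ 2 *
            ‖hat u k‖ ^ 2 ≤ ((lowSet D (bHf D) r).card : ℝ) * (∑ x, ‖u x‖) ^ 2 := by
          have h3 : ∀ k ∈ (univ : Finset (Tor d L)),
              ‖((1 - (if k ∈ lowSet D (bHf D) r then 0 else 1) : ℝ) : ℂ)‖ ^ 2 *
              ‖hat u k‖ ^ 2 ≤ if k ∈ lowSet D (bHf D) r then (∑ x, ‖u x‖) ^ 2 else 0 := by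
            intro k _
            rw [Complex.norm_real, Real.norm_eq_abs, sq_abs]
            split_ifs with hk
            · have h4 := pow_le_pow_left₀ (norm_nonneg _) (rb_hat_le u k) 2
              simpa using h4
            · simp
          refine (Finset.sum_le_sum h3).trans (le_of_eq ?_)
          rw [Finset.sum_ite_mem_eq, Finset.sum_const, nsmul_eq_mul]
        calc ∑ x, ‖((multR fun k => 1 - if k ∈ lowSet D (bHf D) r then 0 else 1) *ᵥ u) x‖ ^ 2
            = (1 / (L : ℝ) ^ d) * ∑ k : Tor d L,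
              ‖((1 - (if k ∈ lowSet D (bHf D) r then 0 else 1) : ℝ) : ℂ)‖ ^ 2 *
              ‖hat u k‖ ^ 2 := h1
          _ ≤ (1 / (L : ℝ) ^ d) * (((lowSet D (bHf D) r).card : ℝ) * (∑ x, ‖u x‖) ^ 2) :=
              mul_le_mul_of_nonneg_left h2 (by positivity)
          _ = ((lowSet D (bHf D) r).card : ℝ) / (L : ℝ) ^ d * (∑ x, ‖u x‖) ^ 2 := by
              ring
    · rw [div_le_iff₀ hL0]
      exact f5
    · have hPi : PiH D (bHf D) r =
          multR fun k => if k ∈ lowSet D (bHf D) r then 0 else 1 := by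
        unfold PiH multR
        congr 1
        funext k
        by_cases hk : k ∈ lowSet D (bHf D) r
        · simp only [if_pos hk, Complex.ofReal_zero]
        · simp only [if_neg hk, Complex.ofReal_one]
      rw [hPi, rb_one, rb_smul, rb_sub, rb_mul]
      refine mult_op _ _ fun k => ?_
      rw [Complex.norm_real, Real.norm_eq_abs]
      have h0 : 0 ≤ bHf D / D.et r := div_nonneg (Real.rpow_nonneg he0.le _) her0.le
      change |(if k ∈ lowSet D (bHf D) r then 0 else 1) *
        (D.g0.im / D.et r * 1 - qu D r k)| ≤ bHf D / D.et r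
      split_ifs with hk
      · rw [zero_mul, abs_zero]
        exact h0
      · rw [one_mul, mul_one]
        unfold lowSet at hk
        rw [Finset.mem_filter] at hk
        push Not at hk
        exact hk (Finset.mem_univ k)

end Pool.Agent.APS
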