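import Pool.Agent.APS.Young

/-! # APS ROWEST: the estimates of a component `∑_x (∑_y |f_xy|²)^p`.

`X_x = ∑_y |f_xy|²`, `q w := 4 p² ∑_x X_x^(p-1) ∑_y (|f1_w,xy|² + |f2_w,xy|²)`.
`|2 ∑_y Re(conj f g)| ≤ 2 X^(1/2) |g_x|`, so `|rw2 p f g k| ≤ ∑ (2p X^(p-1) + 4p(p-1) X^(p-1)) |g_x||k_x|
≤ 4p² ∑ X^(p-1) |g_x| |k_x|` (`|g_x|` the `ℓ²` norm of the row `x`), and
`(rw1 p f g)² ≤ (∑ X^p)(∑ 4p² X^(p-1) |g_x|²)`.  The rest as in POWEST.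
-/

open Finset

noncomputable section

namespace Pool.Agent.APS

variable {ι κ : Type} [Fintype ι] [Fintype κ]

private theorem rw1_add (p : ℕ) (v a b : Matrix κ κ ℂ) :
    rw1 p v (fun x y => a x y + b x y) = rw1 p v a + rw1 p v b := by
  unfold rw1
  rw [← sum_add_distrib]
  refine sum_congr rfl fun x _ => ?_
  rw [← mul_add, ← mul_add, ← sum_add_distrib]
  congr 2
  refine sum_congr rfl fun y _ => ?_
  rw [mul_add, Complex.add_re]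

private theorem rw1_sum (p : ℕ) (v : Matrix κ κ ℂ) (c : ι → ℝ) (k : ι → Matrix κ κ ℂ) :
    rw1 p v (fun x y => ∑ w, ((c w : ℝ) : ℂ) * k w x y) = ∑ w, c w * rw1 p v (k w) := by
  unfold rw1
  simp_rw [mul_sum, Complex.re_sum, mul_sum]
  rw [sum_comm' (s := (univ : Finset ι)) (t := fun _ => (univ : Finset κ)) (t' := univ)
    (s' := fun _ => (univ : Finset ι)) (by simp)]
  refine sum_congr rfl fun x _ => ?_
  rw [sum_comm]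
  refine sum_congr rfl fun w _ => ?_
  refine sum_congr rfl fun y _ => ?_
  have : star (v x y) * (((c w : ℝ) : ℂ) * k w x y) =
      ((c w : ℝ) : ℂ) * (star (v x y) * k w x y) := by
    ring
  rw [this, Complex.re_ofReal_mul]
  ring

private theorem row_re_le (a b : κ → ℂ) :
    |2 * ∑ y, (star (a y) * b y).re| ≤ 2 * (√(∑ y, ‖a y‖ ^ 2) * √(∑ y, ‖b y‖ ^ 2)) := by
  rw [abs_mul, abs_of_pos (by norm_num : (0:ℝ) < 2)]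
  have h1 : |∑ y, (star (a y) * b y).re| ≤ ∑ y, ‖a y‖ * ‖b y‖ := by
    refine (abs_sum_le_sum_abs _ _).trans (sum_le_sum fun y _ => ?_)
    refine (Complex.abs_re_le_norm _).trans ?_
    rw [norm_mul, norm_star]
  have h2 : ∑ y, ‖a y‖ * ‖b y‖ ≤ √(∑ y, ‖a y‖ ^ 2) * √(∑ y, ‖b y‖ ^ 2) :=
    Real.sum_mul_le_sqrt_mul_sqrt _ _ _
  linarith

private theorem rw1_sq (p : ℕ) (hp : 2 ≤ p) (v g : Matrix κ κ ℂ) :
    rw1 p v g ^ 2 ≤ rw0 p v *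
      (4 * p ^ 2 * ∑ x, (∑ y, ‖v x y‖ ^ 2) ^ (p - 1) * ∑ y, ‖g x y‖ ^ 2) := by
  have hX : ∀ x, √(∑ y, ‖v x y‖ ^ 2) ^ 2 = ∑ y, ‖v x y‖ ^ 2 := fun x =>
    Real.sq_sqrt (sum_nonneg fun y _ => by positivity)
  have hN : ∀ x, √(∑ y, ‖g x y‖ ^ 2) ^ 2 = ∑ y, ‖g x y‖ ^ 2 := fun x =>
    Real.sq_sqrt (sum_nonneg fun y _ => by positivity)
  have h1 : |rw1 p v g| ≤ ∑ x, √(∑ y, ‖v x y‖ ^ 2) ^ p *
      (2 * p * √(∑ y, ‖v x y‖ ^ 2) ^ (p - 1) * √(∑ y, ‖g x y‖ ^ 2)) := by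
    unfold rw1
    refine (abs_sum_le_sum_abs _ _).trans (sum_le_sum fun x _ => ?_)
    have hX0 : 0 ≤ ∑ y, ‖v x y‖ ^ 2 := sum_nonneg fun y _ => by positivity
    rw [abs_mul, abs_of_nonneg (by positivity : (0:ℝ) ≤ p * (∑ y, ‖v x y‖ ^ 2) ^ (p - 1))]
    calc p * (∑ y, ‖v x y‖ ^ 2) ^ (p - 1) * |2 * ∑ y, (star (v x y) * g x y).re|
        ≤ p * (∑ y, ‖v x y‖ ^ 2) ^ (p - 1) *
          (2 * (√(∑ y, ‖v x y‖ ^ 2) * √(∑ y, ‖g x y‖ ^ 2))) := by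
          gcongr
          exact row_re_le _ _
      _ = _ := by
          have e : (∑ y, ‖v x y‖ ^ 2) ^ (p - 1) * √(∑ y, ‖v x y‖ ^ 2) =
              √(∑ y, ‖v x y‖ ^ 2) ^ p * √(∑ y, ‖v x y‖ ^ 2) ^ (p - 1) := by
            conv_lhs => rw [← hX x]
            rw [Real.sqrt_sq (Real.sqrt_nonneg _), ← pow_mul, ← pow_succ, ← pow_add]
            congr 1
            omega
          linear_combination 2 * (p : ℝ) * √(∑ y, ‖g x y‖ ^ 2) * e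
  calc rw1 p v g ^ 2 = |rw1 p v g| ^ 2 := (sq_abs _).symm
    _ ≤ (∑ x, √(∑ y, ‖v x y‖ ^ 2) ^ p *
      (2 * p * √(∑ y, ‖v x y‖ ^ 2) ^ (p - 1) * √(∑ y, ‖g x y‖ ^ 2))) ^ 2 := by gcongr
    _ ≤ (∑ x, (√(∑ y, ‖v x y‖ ^ 2) ^ p) ^ 2) *
        ∑ x, (2 * p * √(∑ y, ‖v x y‖ ^ 2) ^ (p - 1) * √(∑ y, ‖g x y‖ ^ 2)) ^ 2 :=
        sum_mul_sq_le_sq_mul_sq _ _ _
    _ = rw0 p v * (4 * p ^ 2 * ∑ x, (∑ y, ‖v x y‖ ^ 2) ^ (p - 1) * ∑ y, ‖g x y‖ ^ 2) := by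
        have u1 : ∑ x, (√(∑ y, ‖v x y‖ ^ 2) ^ p) ^ 2 = rw0 p v := by
          unfold rw0
          refine sum_congr rfl fun x _ => ?_
          rw [← pow_mul, mul_comm, pow_mul, hX]
        have u2 : ∑ x, (2 * p * √(∑ y, ‖v x y‖ ^ 2) ^ (p - 1) * √(∑ y, ‖g x y‖ ^ 2)) ^ 2 =
            4 * p ^ 2 * ∑ x, (∑ y, ‖v x y‖ ^ 2) ^ (p - 1) * ∑ y, ‖g x y‖ ^ 2 := by
          rw [mul_sum]
          refine sum_congr rfl fun x _ => ?_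
          rw [mul_pow, mul_pow, ← pow_mul, mul_comm (p - 1) 2, pow_mul, hX, hN]
          ring
        rw [u1, u2]

private theorem rw2_le (p : ℕ) (hp : 2 ≤ p) (v g k : Matrix κ κ ℂ) :
    |rw2 p v g k| ≤ 2 * p ^ 2 * ∑ x, (∑ y, ‖v x y‖ ^ 2) ^ (p - 1) *
      (∑ y, ‖g x y‖ ^ 2 + ∑ y, ‖k x y‖ ^ 2) := by
  unfold rw2
  rw [mul_sum]
  refine (abs_sum_le_sum_abs _ _).trans (sum_le_sum fun x _ => ?_)
  have hp1 : (1 : ℝ) ≤ p := by exact_mod_cast (by omega : 1 ≤ p)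
  have hp' : (0 : ℝ) ≤ (p : ℝ) - 1 := by linarith
  have hX0 : 0 ≤ ∑ y, ‖v x y‖ ^ 2 := sum_nonneg fun y _ => by positivity
  refine (abs_add_le _ _).trans ?_
  have e : (∑ y, ‖v x y‖ ^ 2) ^ (p - 1) =
      (∑ y, ‖v x y‖ ^ 2) ^ (p - 2) * (√(∑ y, ‖v x y‖ ^ 2) * √(∑ y, ‖v x y‖ ^ 2)) := by
    rw [Real.mul_self_sqrt hX0, ← pow_succ]
    congr 1
    omega
  have a1 : |p * (∑ y, ‖v x y‖ ^ 2) ^ (p - 1) * (2 * ∑ y, (star (g x y) * k x y).re)| ≤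
      2 * p * (∑ y, ‖v x y‖ ^ 2) ^ (p - 1) *
        (√(∑ y, ‖g x y‖ ^ 2) * √(∑ y, ‖k x y‖ ^ 2)) := by
    rw [abs_mul, abs_of_nonneg (by positivity : (0:ℝ) ≤ p * (∑ y, ‖v x y‖ ^ 2) ^ (p - 1))]
    calc _ ≤ p * (∑ y, ‖v x y‖ ^ 2) ^ (p - 1) *
          (2 * (√(∑ y, ‖g x y‖ ^ 2) * √(∑ y, ‖k x y‖ ^ 2))) := by
          gcongr
          exact row_re_le _ _
      _ = _ := by ring
  have a2 : |p * (p - 1) * (∑ y, ‖v x y‖ ^ 2) ^ (p - 2) *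
      ((2 * ∑ y, (star (v x y) * g x y).re) * (2 * ∑ y, (star (v x y) * k x y).re))| ≤
      4 * p * (p - 1) * (∑ y, ‖v x y‖ ^ 2) ^ (p - 1) *
        (√(∑ y, ‖g x y‖ ^ 2) * √(∑ y, ‖k x y‖ ^ 2)) := by
    rw [abs_mul, abs_of_nonneg
      (by positivity : (0:ℝ) ≤ p * (p - 1) * (∑ y, ‖v x y‖ ^ 2) ^ (p - 2)), abs_mul]
    calc _ ≤ p * (p - 1) * (∑ y, ‖v x y‖ ^ 2) ^ (p - 2) *
          ((2 * (√(∑ y, ‖v x y‖ ^ 2) * √(∑ y, ‖g x y‖ ^ 2))) *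
            (2 * (√(∑ y, ‖v x y‖ ^ 2) * √(∑ y, ‖k x y‖ ^ 2)))) := by
          gcongr
          · exact row_re_le _ _
          · exact row_re_le _ _
      _ = 4 * p * (p - 1) * ((∑ y, ‖v x y‖ ^ 2) ^ (p - 2) *
            (√(∑ y, ‖v x y‖ ^ 2) * √(∑ y, ‖v x y‖ ^ 2))) *
          (√(∑ y, ‖g x y‖ ^ 2) * √(∑ y, ‖k x y‖ ^ 2)) := by ring
      _ = _ := by rw [← e]
  have a3 : √(∑ y, ‖g x y‖ ^ 2) * √(∑ y, ‖k x y‖ ^ 2) ≤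
      (∑ y, ‖g x y‖ ^ 2 + ∑ y, ‖k x y‖ ^ 2) / 2 := by
    have s1 := Real.sq_sqrt (sum_nonneg fun y _ => by positivity : 0 ≤ ∑ y, ‖g x y‖ ^ 2)
    have s2 := Real.sq_sqrt (sum_nonneg fun y _ => by positivity : 0 ≤ ∑ y, ‖k x y‖ ^ 2)
    nlinarith [sq_nonneg (√(∑ y, ‖g x y‖ ^ 2) - √(∑ y, ‖k x y‖ ^ 2))]
  have a4 : (0:ℝ) ≤ (∑ y, ‖v x y‖ ^ 2) ^ (p - 1) *
      (√(∑ y, ‖g x y‖ ^ 2) * √(∑ y, ‖k x y‖ ^ 2)) := by positivity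
  calc _ ≤ 2 * p * (∑ y, ‖v x y‖ ^ 2) ^ (p - 1) *
        (√(∑ y, ‖g x y‖ ^ 2) * √(∑ y, ‖k x y‖ ^ 2)) +
        4 * p * (p - 1) * (∑ y, ‖v x y‖ ^ 2) ^ (p - 1) *
        (√(∑ y, ‖g x y‖ ^ 2) * √(∑ y, ‖k x y‖ ^ 2)) := add_le_add a1 a2
    _ = (4 * p ^ 2 - 2 * p) * ((∑ y, ‖v x y‖ ^ 2) ^ (p - 1) *
        (√(∑ y, ‖g x y‖ ^ 2) * √(∑ y, ‖k x y‖ ^ 2))) := by ring
    _ ≤ (4 * p ^ 2) * ((∑ y, ‖v x y‖ ^ 2) ^ (p - 1) *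
        (√(∑ y, ‖g x y‖ ^ 2) * √(∑ y, ‖k x y‖ ^ 2))) := by
        gcongr
        linarith
    _ ≤ (4 * p ^ 2) * ((∑ y, ‖v x y‖ ^ 2) ^ (p - 1) *
        ((∑ y, ‖g x y‖ ^ 2 + ∑ y, ‖k x y‖ ^ 2) / 2)) := by
        gcongr
    _ = _ := by ring

theorem rowEst (p : ℕ) (hp : 2 ≤ p) (O : MObs ι κ) {lam s et r : ℝ} {h : ι → ℝ}
    (hr : 0 ≤ r) (hs : 0 < s) (het : 0 < et) (hlam : 0 < lam) (hlam1 : lam ≤ 1)
    {A0 A2 A3 B1 B2 B3 : ℝ} (hA0 : 0 ≤ A0) (hA2 : 0 ≤ A2) (hA3 : 0 ≤ A3) (hB1 : 0 ≤ B1)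
    (hB2 : 0 ≤ B2) (hB3 : 0 ≤ B3)
    (h1 : rw1 p (O.f r h) (fun x y => O.fr r h x y + ((s * r : ℝ) : ℂ) * ∑ w, O.f2 w r h x y) ≤
      2 * r * s / et * (A0 * rw0 p (O.f r h) + B1))
    (h2 : ∑ w, ∑ x, (∑ y, ‖O.f r h x y‖ ^ 2) ^ (p - 1) *
      ∑ y, (‖O.f1 w r h x y‖ ^ 2 + ‖O.f2 w r h x y‖ ^ 2) ≤ 1 / et * (A2 * rw0 p (O.f r h) + B2))
    (h3 : ∀ e : ι → ℝ, (∀ w, |e w| ≤ 1) →
      rw1 p (O.f r h) (fun x y => ∑ w, ((lam * e w : ℝ) : ℂ) * O.f3 w r h x y) ≤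
      1 / et * (A3 * rw0 p (O.f r h) + B3)) :
    ∃ q : ι → ℝ, (rowComp p O).Est lam s et r (A0 + 4 * p ^ 2 * A2 + A3)
      (B1 + 4 * p ^ 2 * B2 + B3) h q := by
  have hX0 : ∀ x, 0 ≤ ∑ y, ‖O.f r h x y‖ ^ 2 := fun x => sum_nonneg fun y _ => by positivity
  have hG : 0 ≤ rw0 p (O.f r h) := sum_nonneg fun x _ => pow_nonneg (hX0 x) _
  have hp0 : (0:ℝ) ≤ 4 * p ^ 2 := by positivity
  have m1 : 0 ≤ A0 * rw0 p (O.f r h) + B1 := by positivity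
  have m2 : 0 ≤ A2 * rw0 p (O.f r h) + B2 := by positivity
  have m3 : 0 ≤ A3 * rw0 p (O.f r h) + B3 := by positivity
  have htot : (A0 + 4 * p ^ 2 * A2 + A3) * rw0 p (O.f r h) + (B1 + 4 * p ^ 2 * B2 + B3) =
      (A0 * rw0 p (O.f r h) + B1) + 4 * p ^ 2 * (A2 * rw0 p (O.f r h) + B2) +
        (A3 * rw0 p (O.f r h) + B3) := by ring
  set q : ι → ℝ := fun w => 4 * p ^ 2 * ∑ x, (∑ y, ‖O.f r h x y‖ ^ 2) ^ (p - 1) *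
    ∑ y, (‖O.f1 w r h x y‖ ^ 2 + ‖O.f2 w r h x y‖ ^ 2) with hq
  have S0 : ∀ w, (0:ℝ) ≤ ∑ x, (∑ y, ‖O.f r h x y‖ ^ 2) ^ (p - 1) *
    ∑ y, (‖O.f1 w r h x y‖ ^ 2 + ‖O.f2 w r h x y‖ ^ 2) := fun w =>
    sum_nonneg fun x _ => mul_nonneg (pow_nonneg (hX0 x) _)
      (sum_nonneg fun y _ => by positivity)
  have q0 : ∀ w, 0 ≤ q w := fun w => by
    simp only [hq]
    exact mul_nonneg hp0 (S0 w)
  have qsum : ∑ w, q w ≤ 1 / et * (4 * p ^ 2 * (A2 * rw0 p (O.f r h) + B2)) := by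
    simp only [hq]
    rw [← mul_sum]
    calc 4 * (p:ℝ) ^ 2 * ∑ w, ∑ x, (∑ y, ‖O.f r h x y‖ ^ 2) ^ (p - 1) *
          ∑ y, (‖O.f1 w r h x y‖ ^ 2 + ‖O.f2 w r h x y‖ ^ 2)
        ≤ 4 * (p:ℝ) ^ 2 * (1 / et * (A2 * rw0 p (O.f r h) + B2)) := by gcongr
      _ = _ := by ring
  have mono1 : ∀ w x, (∑ y, ‖O.f r h x y‖ ^ 2) ^ (p - 1) * ∑ y, ‖O.f1 w r h x y‖ ^ 2 ≤
      (∑ y, ‖O.f r h x y‖ ^ 2) ^ (p - 1) *
      ∑ y, (‖O.f1 w r h x y‖ ^ 2 + ‖O.f2 w r h x y‖ ^ 2) := fun w x => by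
    refine mul_le_mul_of_nonneg_left (sum_le_sum fun y _ => ?_) (pow_nonneg (hX0 x) _)
    linarith [sq_nonneg ‖O.f2 w r h x y‖]
  have mono2 : ∀ w x, (∑ y, ‖O.f r h x y‖ ^ 2) ^ (p - 1) * ∑ y, ‖O.f2 w r h x y‖ ^ 2 ≤
      (∑ y, ‖O.f r h x y‖ ^ 2) ^ (p - 1) *
      ∑ y, (‖O.f1 w r h x y‖ ^ 2 + ‖O.f2 w r h x y‖ ^ 2) := fun w x => by
    refine mul_le_mul_of_nonneg_left (sum_le_sum fun y _ => ?_) (pow_nonneg (hX0 x) _)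
    linarith [sq_nonneg ‖O.f1 w r h x y‖]
  refine ⟨q, ⟨?_, q0, ?_, ?_, ?_, ?_, ?_⟩⟩
  · -- dr
    change rw1 p (O.f r h) (O.fr r h) + s * r * ∑ w, rw1 p (O.f r h) (O.f2 w r h) ≤ _
    have e1 : rw1 p (O.f r h) (O.fr r h) + s * r * ∑ w, rw1 p (O.f r h) (O.f2 w r h) =
        rw1 p (O.f r h)
          (fun x y => O.fr r h x y + ((s * r : ℝ) : ℂ) * ∑ w, O.f2 w r h x y) := by
      rw [rw1_add p (O.f r h) (fun x y => O.fr r h x y)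
        (fun x y => ((s * r : ℝ) : ℂ) * ∑ w, O.f2 w r h x y)]
      congr 1
      simp_rw [mul_sum]
      rw [rw1_sum p (O.f r h) (fun _ => s * r) (fun w x y => O.f2 w r h x y)]
    rw [e1]
    refine h1.trans ?_
    change _ ≤ 2 * r * s / et * ((A0 + 4 * p ^ 2 * A2 + A3) * rw0 p (O.f r h) +
      (B1 + 4 * p ^ 2 * B2 + B3))
    rw [htot]
    refine mul_le_mul_of_nonneg_left ?_ (by positivity)
    nlinarith [mul_nonneg hp0 m2]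
  · intro w
    change |rw2 p (O.f r h) (O.f1 w r h) (O.f1 w r h)| ≤ _
    refine (rw2_le p hp _ _ _).trans ?_
    simp only [hq]
    calc 2 * (p:ℝ) ^ 2 * ∑ x, (∑ y, ‖O.f r h x y‖ ^ 2) ^ (p - 1) *
          (∑ y, ‖O.f1 w r h x y‖ ^ 2 + ∑ y, ‖O.f1 w r h x y‖ ^ 2)
        = 4 * (p:ℝ) ^ 2 * ∑ x, (∑ y, ‖O.f r h x y‖ ^ 2) ^ (p - 1) *
          ∑ y, ‖O.f1 w r h x y‖ ^ 2 := by
          rw [mul_sum, mul_sum]
          exact sum_congr rfl fun x _ => by ring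
      _ ≤ _ := mul_le_mul_of_nonneg_left (sum_le_sum fun x _ => mono1 w x) hp0
  · intro w
    change rw1 p (O.f r h) (O.f1 w r h) ^ 2 ≤ rw0 p (O.f r h) * q w
    refine (rw1_sq p hp _ _).trans ?_
    refine mul_le_mul_of_nonneg_left ?_ hG
    simp only [hq]
    exact mul_le_mul_of_nonneg_left (sum_le_sum fun x _ => mono1 w x) hp0
  · intro w
    change rw1 p (O.f r h) (O.f2 w r h) ^ 2 ≤ rw0 p (O.f r h) * q w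
    refine (rw1_sq p hp _ _).trans ?_
    refine mul_le_mul_of_nonneg_left ?_ hG
    simp only [hq]
    exact mul_le_mul_of_nonneg_left (sum_le_sum fun x _ => mono2 w x) hp0
  · change _ ≤ 1 / et * ((A0 + 4 * p ^ 2 * A2 + A3) * rw0 p (O.f r h) +
      (B1 + 4 * p ^ 2 * B2 + B3))
    rw [htot]
    refine qsum.trans ?_
    refine mul_le_mul_of_nonneg_left ?_ (by positivity)
    linarith
  · intro e he
    change lam * ∑ w, e w * (rw1 p (O.f r h) (O.f3 w r h) +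
      rw2 p (O.f r h) (O.f1 w r h) (O.f2 w r h)) ≤
      1 / et * ((A0 + 4 * p ^ 2 * A2 + A3) * rw0 p (O.f r h) + (B1 + 4 * p ^ 2 * B2 + B3))
    have e1 : lam * ∑ w, e w * (rw1 p (O.f r h) (O.f3 w r h) +
        rw2 p (O.f r h) (O.f1 w r h) (O.f2 w r h)) =
        rw1 p (O.f r h) (fun x y => ∑ w, ((lam * e w : ℝ) : ℂ) * O.f3 w r h x y) +
        ∑ w, lam * e w * rw2 p (O.f r h) (O.f1 w r h) (O.f2 w r h) := by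
      rw [rw1_sum p (O.f r h) (fun w => lam * e w) (fun w x y => O.f3 w r h x y), mul_sum,
        ← sum_add_distrib]
      exact sum_congr rfl fun w _ => by ring
    have e2 : ∑ w, lam * e w * rw2 p (O.f r h) (O.f1 w r h) (O.f2 w r h) ≤ ∑ w, q w := by
      refine sum_le_sum fun w _ => ?_
      have b1 := rw2_le p hp (O.f r h) (O.f1 w r h) (O.f2 w r h)
      have b2 : |lam * e w| ≤ 1 := by
        rw [abs_mul, abs_of_pos hlam]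
        nlinarith [he w, abs_nonneg (e w)]
      have b3 : 2 * (p:ℝ) ^ 2 * ∑ x, (∑ y, ‖O.f r h x y‖ ^ 2) ^ (p - 1) *
          (∑ y, ‖O.f1 w r h x y‖ ^ 2 + ∑ y, ‖O.f2 w r h x y‖ ^ 2) ≤ q w := by
        simp only [hq]
        simp_rw [← sum_add_distrib]
        nlinarith [mul_nonneg hp0 (S0 w)]
      calc lam * e w * rw2 p (O.f r h) (O.f1 w r h) (O.f2 w r h)
          ≤ |lam * e w * rw2 p (O.f r h) (O.f1 w r h) (O.f2 w r h)| := le_abs_self _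
        _ = |lam * e w| * |rw2 p (O.f r h) (O.f1 w r h) (O.f2 w r h)| := abs_mul _ _
        _ ≤ 1 * |rw2 p (O.f r h) (O.f1 w r h) (O.f2 w r h)| := by gcongr
        _ ≤ q w := by linarith
    rw [e1, htot]
    calc _ ≤ 1 / et * (A3 * rw0 p (O.f r h) + B3) +
          1 / et * (4 * p ^ 2 * (A2 * rw0 p (O.f r h) + B2)) :=
          add_le_add (h3 e he) (e2.trans qsum)
      _ = 1 / et * (4 * p ^ 2 * (A2 * rw0 p (O.f r h) + B2) +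
            (A3 * rw0 p (O.f r h) + B3)) := by
          ring
      _ ≤ _ := by
          refine mul_le_mul_of_nonneg_left ?_ (by positivity)
          linarith

end Pool.Agent.APS
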