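import Pool.Agent.APS.SCBd

/-! # APS3 SCA: bounds of `T`, `A`, `θ'` and of the drift `P θ'`.

* `TG_row`: row `x` of `T` = column `x` (symmetry) = `P` applied to the row `x` of `GG∘GG` (`TG_eq'`), so
  `∑_w ‖T x w‖² ≤ 36 ∑_y ‖GG x y‖⁴ ≤ 576 tau/η`.
* `AG_row`: `A = P² - 1 = (P + 1)(P - 1) = κ (P + 1) T`; column `x` of `A`: `κ (P + 1) (T e_x)`, norm `≤ (η/rl) 7 √(576 tau/η)`,
  so `∑_y ‖A x y‖² ≤ 49 · 576 tau η/rl²` (`A` is symmetric, `κ ≤ η/rl`).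
* `AH_op`: `opLe_had`: `√(49·576 tau η)/rl · √(2C1/η) = 168 √tau √(2 C1)/rl ≤ 240 C1 √tau/rl`  (`√(2C1) ≤ √2 C1`, `C1 ≥ 1`).
* `thv_le`: `|(G (A∘G) G)_xx| ≤ ‖row_x G‖ ‖A∘G‖ ‖col_x G‖ ≤ 240 C1 √tau/rl · 2C1/η`.
* `drift_le`: row sums of `P` at most `Pi`.
-/

open Matrix Finset

noncomputable section

namespace Pool.Agent.APS

open Pool.Agent.Kin

variable {ι : Type} [Fintype ι] [DecidableEq ι] {D : Fl ι} {e1 C1 rl K a tau r Pi : ℝ}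
  {h : ι → ℝ} {I : Set ℝ}

private lemma sca_cs {α : Type} (s : Finset α) (a b : α → ℂ) :
    ‖∑ x ∈ s, a x * b x‖ ^ 2 ≤ (∑ x ∈ s, ‖a x‖ ^ 2) * ∑ x ∈ s, ‖b x‖ ^ 2 := by
  have h1 : ‖∑ x ∈ s, a x * b x‖ ≤ ∑ x ∈ s, ‖a x‖ * ‖b x‖ := by
    refine (norm_sum_le _ _).trans (le_of_eq ?_)
    exact Finset.sum_congr rfl fun x _ => norm_mul _ _
  calc ‖∑ x ∈ s, a x * b x‖ ^ 2 ≤ (∑ x ∈ s, ‖a x‖ * ‖b x‖) ^ 2 :=
        pow_le_pow_left₀ (norm_nonneg _) h1 2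
    _ ≤ _ := Finset.sum_mul_sq_le_sq_mul_sq s _ _

theorem TG_row (hS : D.SCI e1 I) (hr : r ∈ I) (hc : D.SCfg e1 C1 rl K a tau r h)
    (hP : OpLe (D.PG e1 r h) 6) (x : ι) :
    ∑ w, ‖D.TG e1 r h x w‖ ^ 2 ≤ 576 * tau / D.et r := by
  have h1 : ∑ w, ‖(had2 (D.GG e1 r h) * D.PG e1 r h) x w‖ ^ 2 ≤
      6 ^ 2 * ∑ w, ‖had2 (D.GG e1 r h) x w‖ ^ 2 := opLe_row_mul (by norm_num) hP x
  have h2 : ∑ w, ‖had2 (D.GG e1 r h) x w‖ ^ 2 = ∑ w, ‖D.GG e1 r h x w‖ ^ 4 := by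
    refine Finset.sum_congr rfl fun w _ => ?_
    show ‖D.GG e1 r h x w ^ 2‖ ^ 2 = _
    rw [norm_pow, ← pow_mul]
  have h3 := GG_T4 hS hr hc x
  rw [h2] at h1
  show ∑ w, ‖(had2 (D.GG e1 r h) * D.PG e1 r h) x w‖ ^ 2 ≤ _
  refine h1.trans ?_
  calc (6 : ℝ) ^ 2 * ∑ w, ‖D.GG e1 r h x w‖ ^ 4 ≤ 6 ^ 2 * (16 * tau / D.et r) :=
        mul_le_mul_of_nonneg_left h3 (by norm_num)
    _ = 576 * tau / D.et r := by ring

theorem AG_row (hS : D.SCI e1 I) (hr : r ∈ I) (hc : D.SCfg e1 C1 rl K a tau r h)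
    (hP : OpLe (D.PG e1 r h) 6) (x : ι) :
    ∑ y, ‖D.AG e1 r h x y‖ ^ 2 ≤ 49 * 576 * tau * D.et r / rl ^ 2 := by
  have het := hc.cfg.et0
  have hrl := hc.rl0
  have hk := hS.kpp r hr
  have hk2 := kp_le hc
  have hT := TG_row hS hr hc hP x
  have hPe := PG_eq hS hr h
  have e1' : D.AG e1 r h = ((D.kp e1 r : ℂ) • D.TG e1 r h) * (D.PG e1 r h + 1) := by
    have : (D.kp e1 r : ℂ) • D.TG e1 r h = D.PG e1 r h - 1 := by
      rw [eq_sub_iff_add_eq, add_comm, ← hPe]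
    rw [this]
    unfold Fl.AG
    noncomm_ring
  have h7 : OpLe (D.PG e1 r h + 1) (6 + 1) := opLe_add (by norm_num) (by norm_num) hP opLe_one
  rw [e1']
  refine (opLe_row_mul (by norm_num) h7 x).trans ?_
  have h8 : ∑ y, ‖((D.kp e1 r : ℂ) • D.TG e1 r h) x y‖ ^ 2 =
      D.kp e1 r ^ 2 * ∑ y, ‖D.TG e1 r h x y‖ ^ 2 := by
    rw [Finset.mul_sum]
    refine Finset.sum_congr rfl fun y _ => ?_
    rw [Matrix.smul_apply, norm_smul, mul_pow, Complex.norm_real, Real.norm_eq_abs, sq_abs]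
  rw [h8]
  have h9 : D.kp e1 r ^ 2 ≤ (D.et r / rl) ^ 2 := pow_le_pow_left₀ hk.le hk2 2
  calc (6 + 1 : ℝ) ^ 2 * (D.kp e1 r ^ 2 * ∑ y, ‖D.TG e1 r h x y‖ ^ 2)
      ≤ (6 + 1 : ℝ) ^ 2 * ((D.et r / rl) ^ 2 * (576 * tau / D.et r)) := by
        refine mul_le_mul_of_nonneg_left ?_ (by norm_num)
        exact mul_le_mul h9 hT (Finset.sum_nonneg fun _ _ => sq_nonneg _) (sq_nonneg _)
    _ = 49 * 576 * tau * D.et r / rl ^ 2 := by
        field_simp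
        ring

theorem AH_op (hS : D.SCI e1 I) (hr : r ∈ I) (hc : D.SCfg e1 C1 rl K a tau r h)
    (hP : OpLe (D.PG e1 r h) 6) : OpLe (D.AH e1 r h) (240 * C1 * √tau / rl) := by
  have het := hc.cfg.et0
  have hrl := hc.rl0
  have htau := hc.cfg.tau0
  have hC1 := hc.cfg.one_le
  have n1 : 0 ≤ 49 * 576 * tau * D.et r / rl ^ 2 := by positivity
  have n2 : 0 ≤ 2 * C1 / D.et r := by positivity
  have hA : ∀ x, ∑ y, ‖D.AG e1 r h x y‖ ^ 2 ≤ (√(49 * 576 * tau * D.et r / rl ^ 2)) ^ 2 := by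
    intro x
    rw [Real.sq_sqrt n1]
    exact AG_row hS hr hc hP x
  have hB : ∀ y, ∑ x, ‖D.GG e1 r h x y‖ ^ 2 ≤ (√(2 * C1 / D.et r)) ^ 2 := by
    intro y
    rw [Real.sq_sqrt n2]
    refine le_trans (le_of_eq ?_) (GG_row hS hr hc y)
    exact Finset.sum_congr rfl fun x _ => by rw [GG_symm hS]
  have h1 : OpLe (D.AH e1 r h)
      (√(49 * 576 * tau * D.et r / rl ^ 2) * √(2 * C1 / D.et r)) := opLe_had hA hB
  refine opLe_mono (by positivity) ?_ h1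
  rw [← Real.sqrt_mul n1]
  apply Real.sqrt_le_iff.2
  refine ⟨by positivity, ?_⟩
  have e2 : 49 * 576 * tau * D.et r / rl ^ 2 * (2 * C1 / D.et r) = 56448 * (tau * C1) / rl ^ 2 := by
    field_simp
    ring
  have e3 : (240 * C1 * √tau / rl) ^ 2 = 57600 * (tau * C1 ^ 2) / rl ^ 2 := by
    rw [div_pow, mul_pow, mul_pow, Real.sq_sqrt htau.le]
    ring
  rw [e2, e3]
  refine div_le_div_of_nonneg_right ?_ (by positivity)
  have h5 : tau * C1 ≤ tau * C1 ^ 2 := by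
    refine mul_le_mul_of_nonneg_left ?_ htau.le
    nlinarith
  have h6 : 0 ≤ tau * C1 := by positivity
  nlinarith

theorem thv_le (hS : D.SCI e1 I) (hr : r ∈ I) (hc : D.SCfg e1 C1 rl K a tau r h)
    (hP : OpLe (D.PG e1 r h) 6) (x : ι) :
    ‖D.thv e1 r h x‖ ≤ 480 * C1 ^ 2 * √tau / (rl * D.et r) := by
  have het := hc.cfg.et0
  have hrl := hc.rl0
  have htau := hc.cfg.tau0
  have hC1 := hc.cfg.one_le
  have hH := AH_op hS hr hc hP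
  have h0 : 0 ≤ 240 * C1 * √tau / rl := by positivity
  have h1 := opLe_row_mul (A := D.GG e1 r h) h0 hH x
  have h2 : ∑ y, ‖(D.GG e1 r h * D.AH e1 r h) x y‖ ^ 2 ≤
      (240 * C1 * √tau / rl) ^ 2 * (2 * C1 / D.et r) :=
    h1.trans (mul_le_mul_of_nonneg_left (GG_row hS hr hc x) (sq_nonneg _))
  have h3 : ∑ y, ‖D.GG e1 r h y x‖ ^ 2 ≤ 2 * C1 / D.et r := by
    refine le_trans (le_of_eq ?_) (GG_row hS hr hc x)
    exact Finset.sum_congr rfl fun y _ => by rw [GG_symm hS]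
  have h4 : D.thv e1 r h x =
      ∑ y, (D.GG e1 r h * D.AH e1 r h) x y * D.GG e1 r h y x := by
    show (D.GG e1 r h * D.AH e1 r h * D.GG e1 r h) x x = _
    rw [Matrix.mul_apply]
  have h5 := sca_cs Finset.univ (fun y => (D.GG e1 r h * D.AH e1 r h) x y)
    (fun y => D.GG e1 r h y x)
  rw [← h4] at h5
  have h6 : ‖D.thv e1 r h x‖ ^ 2 ≤ (480 * C1 ^ 2 * √tau / (rl * D.et r)) ^ 2 := by
    refine h5.trans ((mul_le_mul h2 h3 (Finset.sum_nonneg fun _ _ => sq_nonneg _)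
      (by positivity)).trans (le_of_eq ?_))
    field_simp
    ring
  exact (abs_le_of_sq_le_sq' h6 (by positivity)).2

theorem drift_le (hS : D.SCI e1 I) (hr : r ∈ I) (hc : D.SCfg e1 C1 rl K a tau r h)
    (hP : OpLe (D.PG e1 r h) 6) (hPi : RowLe (D.PG e1 r h) Pi) (x : ι) :
    ‖(D.PG e1 r h *ᵥ D.thv e1 r h) x‖ ≤ 480 * C1 ^ 2 * Pi * √tau / (rl * D.et r) := by
  have het := hc.cfg.et0
  have hrl := hc.rl0
  have hC1 := hc.cfg.one_le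
  calc ‖(D.PG e1 r h *ᵥ D.thv e1 r h) x‖ ≤ ∑ y, ‖D.PG e1 r h x y‖ * ‖D.thv e1 r h y‖ := by
        rw [Matrix.mulVec, dotProduct]
        refine (norm_sum_le _ _).trans (le_of_eq ?_)
        exact Finset.sum_congr rfl fun y _ => norm_mul _ _
    _ ≤ ∑ y, ‖D.PG e1 r h x y‖ * (480 * C1 ^ 2 * √tau / (rl * D.et r)) :=
        Finset.sum_le_sum fun y _ =>
          mul_le_mul_of_nonneg_left (thv_le hS hr hc hP y) (norm_nonneg _)
    _ = (∑ y, ‖D.PG e1 r h x y‖) * (480 * C1 ^ 2 * √tau / (rl * D.et r)) := by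
        rw [Finset.sum_mul]
    _ ≤ Pi * (480 * C1 ^ 2 * √tau / (rl * D.et r)) :=
        mul_le_mul_of_nonneg_right (hPi x) (by positivity)
    _ = _ := by ring

end Pool.Agent.APS
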