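import Mathlib

/-! # APS3 SCASYM: the choice of the exponents `p`, `J` (pure real analysis).

`x = λ^(-1/1000) ≥ 1`, `p = ⌈x⌉₊ + 1`, `J = ⌈10 n x⌉₊`.
* `p ≤ x + 2 ≤ 3x`, `J + 6 ≤ 10 n x + 7 ≤ 20 (n+1) x`.
* `(19/20)^J ≤ exp(-J/20) ≤ exp(-n x/2)` because `1 - 1/20 ≤ exp(-1/20)`; `√(exp(n x)) = exp(n x/2)`.
* `(1 + C λ^(1/10))^J ≤ exp(C λ^(1/10) J) ≤ exp(C 20 (n+1) λ^(1/10 - 1/1000)) ≤ 2` for small `λ`.
* the polynomial conditions: the left sides are at most a constant times `λ^(12.5/1000 - 4/1000)`,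
  `λ^(25/1000 - 4/1000)`, `λ^(300/1000 - 12/1000)`, `λ^(1/32 - 3/1000)`, and `λ^(1/160) = λ^(6.25/1000)`.
* last: `(λ^(1/160))^p = exp(-p log(1/λ)/160)`; `x ≤ p`, and `C (x + p) + x ≤ (2C + 1) p ≤ p log(1/λ)/160` for
  small `λ`.
-/

open Finset

noncomputable section

namespace Pool.Agent.APS

private theorem sca_aux (lam : ℝ) (h0 : 0 < lam) (h1 : lam ≤ 1) (a : ℝ) (k : ℕ)
    (h : (k : ℝ) / 1000 ≤ a) : lam ^ a * (lam ^ (-(1 / 1000) : ℝ)) ^ k ≤ 1 := by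
  rw [← Real.rpow_natCast, ← Real.rpow_mul h0.le, ← Real.rpow_add h0]
  apply Real.rpow_le_one h0.le h1
  have : -(1 / 1000) * (k : ℝ) = -((k : ℝ) / 1000) := by ring
  rw [this]
  linarith

theorem sc_asym (C : ℝ) (hC : 1 ≤ C) (n : ℕ) : ∃ lam0 : ℝ, 0 < lam0 ∧ lam0 ≤ 1 ∧
    ∀ lam : ℝ, 0 < lam → lam ≤ lam0 → ∃ p J : ℕ, 2 ≤ p ∧
      lam ^ (-(1 / 1000) : ℝ) ≤ p ∧ (p : ℝ) ≤ 3 * lam ^ (-(1 / 1000) : ℝ) ∧
      (J : ℝ) + 6 ≤ 20 * (n + 1) * lam ^ (-(1 / 1000) : ℝ) ∧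
      √(Real.exp (n * lam ^ (-(1 / 1000) : ℝ))) * (19 / 20) ^ J ≤ 1 ∧
      (1 + C * lam ^ (1 / 10 : ℝ)) ^ J ≤ 2 ∧
      C * p ^ 4 * lam ^ (1 / 80 : ℝ) ≤ lam ^ (1 / 160 : ℝ) ∧
      C * (p * (J + 6)) ^ 2 * lam ^ (1 / 40 : ℝ) ≤ lam ^ (1 / 160 : ℝ) ∧
      C * (p ^ 2 * (J + 6) ^ 10) * lam ^ (3 / 10 : ℝ) ≤ lam ^ (1 / 160 : ℝ) ∧
      C * p ^ 3 * lam ^ (1 / 32 : ℝ) ≤ 1 ∧
      Real.exp (C * (lam ^ (-(1 / 1000) : ℝ) + p)) * (lam ^ (1 / 160 : ℝ)) ^ p ≤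
        Real.exp (-(lam ^ (-(1 / 1000) : ℝ))) := by
  obtain ⟨N, hN⟩ : ∃ N : ℝ, N = (n : ℝ) + 1 := ⟨_, rfl⟩
  have hn0 : (0 : ℝ) ≤ n := Nat.cast_nonneg n
  have hN1 : 1 ≤ N := by rw [hN]; linarith
  obtain ⟨M, hM⟩ : ∃ M : ℝ, M = 9 * 20 ^ 10 * C * N ^ 10 + Real.exp (2 * C + 1) := ⟨_, rfl⟩
  have hC0 : 0 < C := by linarith
  have hN10 : 1 ≤ N ^ 10 := one_le_pow₀ hN1
  have hexp0 : 0 < Real.exp (2 * C + 1) := Real.exp_pos _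
  have hCN : 1 ≤ C * N ^ 10 := one_le_mul_of_one_le_of_one_le hC hN10
  have hM1 : 1 ≤ M := by
    rw [hM]; nlinarith
  have hM0 : 0 < M := by linarith
  refine ⟨M ^ (-1000 : ℝ), Real.rpow_pos_of_pos hM0 _,
    Real.rpow_le_one_of_one_le_of_nonpos hM1 (by norm_num), fun lam h0 hl => ?_⟩
  have hlam1 : lam ≤ 1 := hl.trans (Real.rpow_le_one_of_one_le_of_nonpos hM1 (by norm_num))
  have hMx : M ≤ lam ^ (-(1 / 1000) : ℝ) := by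
    have h1 : (M ^ (-1000 : ℝ)) ^ (-(1 / 1000) : ℝ) ≤ lam ^ (-(1 / 1000) : ℝ) :=
      Real.rpow_le_rpow_of_nonpos h0 hl (by norm_num)
    rw [← Real.rpow_mul hM0.le] at h1
    norm_num at h1 ⊢
    exact h1
  have aux := sca_aux lam h0 hlam1
  have hlogx : Real.log (lam ^ (-(1 / 1000) : ℝ)) = -(1 / 1000) * Real.log lam :=
    Real.log_rpow h0 _
  obtain ⟨x, hx⟩ : ∃ x : ℝ, x = lam ^ (-(1 / 1000) : ℝ) := ⟨_, rfl⟩
  rw [← hx] at hMx aux hlogx ⊢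
  have hx1 : 1 ≤ x := hM1.trans hMx
  have hx0 : 0 < x := by linarith
  have ha : 9 * 20 ^ 10 * (C * N ^ 10) ≤ x := by
    have : 9 * 20 ^ 10 * (C * N ^ 10) = 9 * 20 ^ 10 * C * N ^ 10 := by ring
    rw [this]
    linarith
  have hb : 2 * C + 1 ≤ Real.log x := by
    rw [Real.le_log_iff_exp_le hx0]
    have : 0 ≤ 9 * 20 ^ 10 * (C * N ^ 10) := by positivity
    have e1 : 9 * 20 ^ 10 * (C * N ^ 10) = 9 * 20 ^ 10 * C * N ^ 10 := by ring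
    rw [e1] at this
    linarith
  have hCN' : C ≤ C * N ^ 10 := le_mul_of_one_le_right hC0.le hN10
  have hCx : 81 * C ≤ x := by nlinarith
  have hCN1 : C * N ≤ C * N ^ 10 :=
    mul_le_mul_of_nonneg_left (le_self_pow₀ hN1 (by norm_num)) hC0.le
  have hCN2 : C * N ^ 2 ≤ C * N ^ 10 :=
    mul_le_mul_of_nonneg_left (pow_le_pow_right₀ hN1 (by norm_num)) hC0.le
  have h40 : 40 * (C * N) ≤ x := by nlinarith
  have h3600 : 3600 * (C * N ^ 2) ≤ x := by nlinarith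
  -- the numbers p, J
  have hp1 : x ≤ ((⌈x⌉₊ + 1 : ℕ) : ℝ) := by
    push_cast
    linarith [Nat.le_ceil x]
  have hp2 : ((⌈x⌉₊ + 1 : ℕ) : ℝ) ≤ 3 * x := by
    push_cast
    linarith [Nat.ceil_lt_add_one hx0.le]
  have hnx : 0 ≤ 10 * (n : ℝ) * x := by positivity
  have hJ1 : 10 * (n : ℝ) * x ≤ ((⌈10 * (n : ℝ) * x⌉₊ : ℕ) : ℝ) := Nat.le_ceil _
  have hJ2 : ((⌈10 * (n : ℝ) * x⌉₊ : ℕ) : ℝ) + 6 ≤ 20 * N * x := by
    have := Nat.ceil_lt_add_one hnx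
    rw [hN]
    nlinarith
  refine ⟨⌈x⌉₊ + 1, ⌈10 * (n : ℝ) * x⌉₊, ?_, hp1, hp2, by rw [← hN]; exact hJ2, ?_⟩
  · have : 0 < ⌈x⌉₊ := Nat.ceil_pos.2 hx0
    omega
  obtain ⟨p, hp⟩ : ∃ p : ℕ, p = ⌈x⌉₊ + 1 := ⟨_, rfl⟩
  obtain ⟨J, hJ⟩ : ∃ J : ℕ, J = ⌈10 * (n : ℝ) * x⌉₊ := ⟨_, rfl⟩
  rw [← hp] at hp1 hp2 ⊢
  rw [← hJ] at hJ1 hJ2 ⊢
  have hp0 : (0 : ℝ) ≤ p := Nat.cast_nonneg p
  have hJ0 : (0 : ℝ) ≤ J := Nat.cast_nonneg J
  have hy : ∀ a : ℝ, 0 ≤ lam ^ a := fun a => Real.rpow_nonneg h0.le a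
  have split : ∀ a : ℝ, lam ^ a = lam ^ (1 / 160 : ℝ) * lam ^ (a - 1 / 160 : ℝ) := by
    intro a
    rw [← Real.rpow_add h0]
    congr 1
    ring
  refine ⟨?_, ?_, ?_, ?_, ?_, ?_, ?_⟩
  · -- √exp(n x) (19/20)^J ≤ 1
    have h1 : √(Real.exp (n * x)) = Real.exp (n * x / 2) := (Real.exp_half _).symm
    have h2 : (19 / 20 : ℝ) ^ J ≤ Real.exp (-(J : ℝ) / 20) := by
      have h3 : (19 / 20 : ℝ) ≤ Real.exp (-1 / 20) := by
        have := Real.add_one_le_exp (-1 / 20 : ℝ)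
        linarith
      calc (19 / 20 : ℝ) ^ J ≤ Real.exp (-1 / 20) ^ J := pow_le_pow_left₀ (by norm_num) h3 J
        _ = Real.exp (-(J : ℝ) / 20) := by
          rw [← Real.exp_nat_mul]; congr 1; ring
    rw [h1]
    calc Real.exp (n * x / 2) * (19 / 20 : ℝ) ^ J ≤ Real.exp (n * x / 2) * Real.exp (-(J : ℝ) / 20) :=
          mul_le_mul_of_nonneg_left h2 (Real.exp_pos _).le
      _ = Real.exp (n * x / 2 + -(J : ℝ) / 20) := (Real.exp_add _ _).symm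
      _ ≤ 1 := by
          rw [Real.exp_le_one_iff]
          linarith
  · have h1 : 1 + C * lam ^ (1 / 10 : ℝ) ≤ Real.exp (C * lam ^ (1 / 10 : ℝ)) := by
      have := Real.add_one_le_exp (C * lam ^ (1 / 10 : ℝ))
      linarith
    have h2 := aux (1 / 10) 2 (by norm_num)
    have h3 : (J : ℝ) ≤ 20 * N * x := by linarith
    have h4 : (J : ℝ) * (C * lam ^ (1 / 10 : ℝ)) ≤ 1 / 2 := by
      calc (J : ℝ) * (C * lam ^ (1 / 10 : ℝ)) ≤ (20 * N * x) * (C * lam ^ (1 / 10 : ℝ)) :=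
            mul_le_mul_of_nonneg_right h3 (mul_nonneg hC0.le (hy _))
        _ = (40 * (C * N)) * (x * lam ^ (1 / 10 : ℝ)) / 2 := by ring
        _ ≤ x * (x * lam ^ (1 / 10 : ℝ)) / 2 := by
            have := mul_le_mul_of_nonneg_right h40 (mul_nonneg hx0.le (hy (1 / 10)))
            linarith
        _ = (lam ^ (1 / 10 : ℝ) * x ^ 2) / 2 := by ring
        _ ≤ 1 / 2 := by linarith
    calc (1 + C * lam ^ (1 / 10 : ℝ)) ^ J ≤ Real.exp (C * lam ^ (1 / 10 : ℝ)) ^ J :=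
          pow_le_pow_left₀ (add_nonneg zero_le_one (mul_nonneg hC0.le (hy _))) h1 J
      _ = Real.exp ((J : ℝ) * (C * lam ^ (1 / 10 : ℝ))) := (Real.exp_nat_mul _ _).symm
      _ ≤ Real.exp (Real.log 2) := by
          apply Real.exp_le_exp.2
          linarith [Real.log_two_gt_d9]
      _ = 2 := Real.exp_log (by norm_num)
  · rw [split (1 / 80)]
    have h2 := aux (1 / 80 - 1 / 160) 5 (by norm_num)
    have h3 : C * (p : ℝ) ^ 4 * lam ^ (1 / 80 - 1 / 160 : ℝ) ≤ 1 := by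
      calc C * (p : ℝ) ^ 4 * lam ^ (1 / 80 - 1 / 160 : ℝ)
          ≤ C * (3 * x) ^ 4 * lam ^ (1 / 80 - 1 / 160 : ℝ) := by
            apply mul_le_mul_of_nonneg_right _ (hy _)
            exact mul_le_mul_of_nonneg_left (pow_le_pow_left₀ hp0 hp2 4) hC0.le
        _ = (81 * C) * (x ^ 4 * lam ^ (1 / 80 - 1 / 160 : ℝ)) := by ring
        _ ≤ x * (x ^ 4 * lam ^ (1 / 80 - 1 / 160 : ℝ)) :=
            mul_le_mul_of_nonneg_right hCx (mul_nonneg (by positivity) (hy _))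
        _ = lam ^ (1 / 80 - 1 / 160 : ℝ) * x ^ 5 := by ring
        _ ≤ 1 := h2
    calc C * (p : ℝ) ^ 4 * (lam ^ (1 / 160 : ℝ) * lam ^ (1 / 80 - 1 / 160 : ℝ))
        = lam ^ (1 / 160 : ℝ) * (C * (p : ℝ) ^ 4 * lam ^ (1 / 80 - 1 / 160 : ℝ)) := by ring
      _ ≤ lam ^ (1 / 160 : ℝ) * 1 := mul_le_mul_of_nonneg_left h3 (hy _)
      _ = lam ^ (1 / 160 : ℝ) := mul_one _
  · rw [split (1 / 40)]
    have h2 := aux (1 / 40 - 1 / 160) 5 (by norm_num)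
    have h3 : C * ((p : ℝ) * (J + 6)) ^ 2 * lam ^ (1 / 40 - 1 / 160 : ℝ) ≤ 1 := by
      have h4 : (p : ℝ) * (J + 6) ≤ (3 * x) * (20 * N * x) :=
        mul_le_mul hp2 hJ2 (by linarith) (by linarith)
      calc C * ((p : ℝ) * (J + 6)) ^ 2 * lam ^ (1 / 40 - 1 / 160 : ℝ)
          ≤ C * ((3 * x) * (20 * N * x)) ^ 2 * lam ^ (1 / 40 - 1 / 160 : ℝ) := by
            apply mul_le_mul_of_nonneg_right _ (hy _)
            exact mul_le_mul_of_nonneg_left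
              (pow_le_pow_left₀ (mul_nonneg hp0 (by linarith)) h4 2) hC0.le
        _ = (3600 * (C * N ^ 2)) * (x ^ 4 * lam ^ (1 / 40 - 1 / 160 : ℝ)) := by ring
        _ ≤ x * (x ^ 4 * lam ^ (1 / 40 - 1 / 160 : ℝ)) :=
            mul_le_mul_of_nonneg_right h3600 (mul_nonneg (by positivity) (hy _))
        _ = lam ^ (1 / 40 - 1 / 160 : ℝ) * x ^ 5 := by ring
        _ ≤ 1 := h2
    calc C * ((p : ℝ) * (J + 6)) ^ 2 * (lam ^ (1 / 160 : ℝ) * lam ^ (1 / 40 - 1 / 160 : ℝ))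
        = lam ^ (1 / 160 : ℝ) * (C * ((p : ℝ) * (J + 6)) ^ 2 * lam ^ (1 / 40 - 1 / 160 : ℝ)) := by
          ring
      _ ≤ lam ^ (1 / 160 : ℝ) * 1 := mul_le_mul_of_nonneg_left h3 (hy _)
      _ = lam ^ (1 / 160 : ℝ) := mul_one _
  · rw [split (3 / 10)]
    have h2 := aux (3 / 10 - 1 / 160) 13 (by norm_num)
    have h3 : C * ((p : ℝ) ^ 2 * (J + 6) ^ 10) * lam ^ (3 / 10 - 1 / 160 : ℝ) ≤ 1 := by
      have h4 : (p : ℝ) ^ 2 * (J + 6) ^ 10 ≤ (3 * x) ^ 2 * (20 * N * x) ^ 10 :=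
        mul_le_mul (pow_le_pow_left₀ hp0 hp2 2)
          (pow_le_pow_left₀ (by linarith) hJ2 10) (by positivity) (by positivity)
      calc C * ((p : ℝ) ^ 2 * (J + 6) ^ 10) * lam ^ (3 / 10 - 1 / 160 : ℝ)
          ≤ C * ((3 * x) ^ 2 * (20 * N * x) ^ 10) * lam ^ (3 / 10 - 1 / 160 : ℝ) := by
            apply mul_le_mul_of_nonneg_right _ (hy _)
            exact mul_le_mul_of_nonneg_left h4 hC0.le
        _ = (9 * 20 ^ 10 * (C * N ^ 10)) * (x ^ 12 * lam ^ (3 / 10 - 1 / 160 : ℝ)) := by ring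
        _ ≤ x * (x ^ 12 * lam ^ (3 / 10 - 1 / 160 : ℝ)) :=
            mul_le_mul_of_nonneg_right ha (mul_nonneg (by positivity) (hy _))
        _ = lam ^ (3 / 10 - 1 / 160 : ℝ) * x ^ 13 := by ring
        _ ≤ 1 := h2
    calc C * ((p : ℝ) ^ 2 * (J + 6) ^ 10) * (lam ^ (1 / 160 : ℝ) * lam ^ (3 / 10 - 1 / 160 : ℝ))
        = lam ^ (1 / 160 : ℝ) *
          (C * ((p : ℝ) ^ 2 * (J + 6) ^ 10) * lam ^ (3 / 10 - 1 / 160 : ℝ)) := by ring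
      _ ≤ lam ^ (1 / 160 : ℝ) * 1 := mul_le_mul_of_nonneg_left h3 (hy _)
      _ = lam ^ (1 / 160 : ℝ) := mul_one _
  · have h2 := aux (1 / 32) 4 (by norm_num)
    calc C * (p : ℝ) ^ 3 * lam ^ (1 / 32 : ℝ) ≤ C * (3 * x) ^ 3 * lam ^ (1 / 32 : ℝ) := by
          apply mul_le_mul_of_nonneg_right _ (hy _)
          exact mul_le_mul_of_nonneg_left (pow_le_pow_left₀ hp0 hp2 3) hC0.le
      _ = (27 * C) * (x ^ 3 * lam ^ (1 / 32 : ℝ)) := by ring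
      _ ≤ x * (x ^ 3 * lam ^ (1 / 32 : ℝ)) :=
          mul_le_mul_of_nonneg_right (by linarith) (mul_nonneg (by positivity) (hy _))
      _ = lam ^ (1 / 32 : ℝ) * x ^ 4 := by ring
      _ ≤ 1 := h2
  · have h1 : (lam ^ (1 / 160 : ℝ)) ^ p = Real.exp (-(25 / 4) * p * Real.log x) := by
      rw [← Real.rpow_natCast, ← Real.rpow_mul h0.le, Real.rpow_def_of_pos h0, hlogx]
      congr 1
      ring
    rw [h1, ← Real.exp_add]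
    apply Real.exp_le_exp.2
    have h2 : (p : ℝ) * (2 * C + 1) ≤ p * Real.log x := mul_le_mul_of_nonneg_left hb hp0
    have h3 : C * x ≤ C * p := mul_le_mul_of_nonneg_left hp1 hC0.le
    have h4 : 0 ≤ (p : ℝ) * Real.log x := mul_nonneg hp0 (by linarith)
    nlinarith

end Pool.Agent.APS
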