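import Pool.Agent.APS.SCFlow
import Pool.Agent.APS.B4Bd

/-! # APS3 SCBB: the source constant `BS` is at most `272 N² q^p` if all bases are at most `q`, and the
improved bound of the free resolvent.

`BS_le`: as B4Bd.lean (its proof can be copied): `Bdel ≤ 3 N q^p`, `BT ≤ 2 N q^p`, `BH ≤ 8 N q^p`, `BO ≤ 2 N² q^p`,
`BF ≤ 2 N q^p`, total `17 · 16 = 272`.
`withK`: `FlowHyp4` with `K` replaced by `2 √(taui/η_0) + 2`: by `T40` `‖M_xy‖⁴ ≤ taui/η_0`, so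
`‖M_xy‖² ≤ √(taui/η_0)`, `(‖M_xy‖ + 1)² ≤ 2 ‖M_xy‖² + 2`.  Only the field `M1` contains `K`. -/

open Finset

noncomputable section

namespace Pool.Agent.APS

theorem BS_le (N C1 rl K Pi lam a a1 tau y dl kap CH ep1 q : ℝ) (p : ℕ) (hN : 1 ≤ N)
    (hC1 : 1 ≤ C1) (hrl : 0 < rl) (hPi : 0 ≤ Pi)
    (hK : 0 ≤ K) (hlam : 0 < lam) (ha : 0 < a) (ha1 : 0 < a1) (htau : 0 < tau) (hy : 0 < y)
    (hdl : 0 < dl) (hkap : 0 ≤ kap) (hCH : 0 ≤ CH) (hep : 0 ≤ ep1)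
    (g1 : (1000 * p * C1 ^ 2 * Pi * √tau / (rl * a1)) ^ 2 ≤ q)
    (g2 : 4 * p ^ 2 * (576 * tau + 128 * lam ^ 2 * C1 * K ^ 2 * Pi ^ 6) / a1 ^ 2 ≤ q)
    (g3 : (500 * p * lam * C1 ^ 2 * K * Pi ^ 5 / (rl * a1)) ^ 2 ≤ q)
    (h3 : 200 * p ^ 2 * C1 ^ 5 * ep1 / tau ≤ q)
    (h4 : (40 * p * C1 ^ 3 * (a + lam)) ^ 4 / tau ≤ q)
    (h5 : (60 * p * C1 ^ 3 * (a + lam) / y) ^ 2 ≤ q)
    (h6 : (30 * p * C1 ^ 2 * √√tau / y) ^ 2 ≤ q)
    (h7 : (12 * p * C1 ^ 3 * (a + lam)) ^ 2 ≤ q) (h8 : 20 * p ^ 2 * C1 ^ 2 * tau ≤ q)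
    (h9 : (1000 * p * C1 ^ 3 * (a + lam) / dl) ^ 2 ≤ q)
    (h10 : 10000 * p ^ 2 * C1 ^ 4 * (1 + CH) * (kap + √tau + (1 + kap) * (1 + K) * lam ^ 2) /
      dl ^ 2 ≤ q) :
    BS N C1 rl K Pi lam a a1 tau y dl kap CH ep1 p ≤ 272 * N ^ 2 * q ^ p := by
  have hq : 0 ≤ q := (sq_nonneg _).trans g1
  have hN0 : 0 ≤ N := by linarith
  have hC0 : 0 ≤ C1 := by linarith
  have d1 : (1000 * p * C1 ^ 2 * Pi * √tau / (rl * a1)) ^ (2 * p) ≤ q ^ p := by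
    rw [pow_mul]
    exact pow_le_pow_left₀ (by positivity) g1 p
  have d2 : (4 * p ^ 2 * (576 * tau + 128 * lam ^ 2 * C1 * K ^ 2 * Pi ^ 6) / a1 ^ 2) ^ p ≤
      q ^ p := pow_le_pow_left₀ (by positivity) g2 p
  have d3 : (500 * p * lam * C1 ^ 2 * K * Pi ^ 5 / (rl * a1)) ^ (2 * p) ≤ q ^ p := by
    rw [pow_mul]
    exact pow_le_pow_left₀ (by positivity) g3 p
  have e3 : (200 * p ^ 2 * C1 ^ 5 * ep1 / (1 * tau)) ^ p ≤ q ^ p := by
    rw [one_mul]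
    exact pow_le_pow_left₀ (by positivity) h3 p
  have e4 : (40 * p * C1 ^ 3 * (a + lam)) ^ (4 * p) / tau ^ p ≤ q ^ p := by
    rw [pow_mul, ← div_pow]
    exact pow_le_pow_left₀ (by positivity) h4 p
  have e5 : (60 * p * C1 ^ 3 * (a + lam) / y) ^ (2 * p) ≤ q ^ p := by
    rw [pow_mul]
    exact pow_le_pow_left₀ (by positivity) h5 p
  have e6 : (30 * p * C1 ^ 2 * √√tau / y) ^ (2 * p) ≤ q ^ p := by
    rw [pow_mul]
    exact pow_le_pow_left₀ (by positivity) h6 p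
  have e7 : (12 * p * C1 ^ 3 * (a + lam)) ^ (2 * p) ≤ q ^ p := by
    rw [pow_mul]
    exact pow_le_pow_left₀ (by positivity) h7 p
  have e8 : (20 * p ^ 2 * C1 ^ 2 * tau) ^ p ≤ q ^ p :=
    pow_le_pow_left₀ (by positivity) h8 p
  have e9 : (1000 * p * C1 ^ 3 * (a + lam) / dl) ^ (2 * p) ≤ q ^ p := by
    rw [pow_mul]
    exact pow_le_pow_left₀ (by positivity) h9 p
  have e10 : (10000 * p ^ 2 * C1 ^ 4 * (1 + CH) *
      (kap + √tau + (1 + kap) * (1 + K) * lam ^ 2) / dl ^ 2) ^ p ≤ q ^ p :=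
    pow_le_pow_left₀ (by positivity) h10 p
  have f1 : Bdel N C1 rl K Pi lam a1 tau p ≤ N * (3 * q ^ p) := by
    unfold Bdel
    exact mul_le_mul_of_nonneg_left (by linarith) hN0
  have f2 : BT N C1 lam a tau ep1 1 1 p ≤ N * (2 * q ^ p) := by
    unfold BT
    rw [div_one, one_pow, mul_one]
    exact mul_le_mul_of_nonneg_left (by linarith) hN0
  have f3 : BH N C1 lam a tau y 1 p ≤ 4 * N * (2 * q ^ p) := by
    unfold BH
    rw [div_one, one_pow, mul_one]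
    exact mul_le_mul_of_nonneg_left (by linarith) (by positivity)
  have f4 : BO N C1 lam a tau p ≤ N ^ 2 * (2 * q ^ p) := by
    unfold BO
    exact mul_le_mul_of_nonneg_left (by linarith) (by positivity)
  have f5 : BF N C1 K lam a tau kap CH dl p ≤ N * (2 * q ^ p) := by
    unfold BF
    exact mul_le_mul_of_nonneg_left (by linarith) hN0
  have hNN : N * q ^ p ≤ N ^ 2 * q ^ p := by
    apply mul_le_mul_of_nonneg_right _ (by positivity)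
    nlinarith
  unfold BS
  linarith

theorem FlowHyp4.withK {ι : Type} [Fintype ι] [DecidableEq ι] {D : Fl ι}
    {C1 K a tau y dl cR CH kap bH ep1 taui : ℝ} {I : Set ℝ}
    {Rl Rl' W W' QU QU' B : ℝ → Matrix ι ι ℂ} {P0 : Matrix ι ι ℂ}
    (H : FlowHyp4 D C1 K a tau y dl cR CH kap bH ep1 taui I Rl Rl' W W' QU QU' B P0) :
    FlowHyp4 D C1 (2 * √(taui / D.et 0) + 2) a tau y dl cR CH kap bH ep1 taui I
      Rl Rl' W W' QU QU' B P0 := by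
  have h1 : ∀ x y, (‖D.G 0 0 x y‖ + 1) ^ 2 ≤ 2 * √(taui / D.et 0) + 2 := by
    intro x y
    have h2 : ‖D.G 0 0 x y‖ ^ 4 ≤ taui / D.et 0 :=
      (Finset.single_le_sum (f := fun w => ‖D.G 0 0 x w‖ ^ 4)
        (fun w _ => by positivity) (Finset.mem_univ y)).trans (H.T40 x)
    have h3 : ‖D.G 0 0 x y‖ ^ 2 ≤ √(taui / D.et 0) := by
      apply Real.le_sqrt_of_sq_le
      rw [← pow_mul]
      exact h2
    nlinarith [sq_nonneg (‖D.G 0 0 x y‖ - 1)]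
  exact { H with M1 := h1 }

end Pool.Agent.APS
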