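import Pool.Agent.APS.SCCont
import Pool.Agent.APS.CfgB

/-! # APS3 SCBD: bounds of the self-consistent resolvent at a good configuration.

Notation: `η = η_r = D.et r`, `κ = D.kp e1 r`, `ρ0 = Im g0`, `δ_x = γ_x - g0`, `‖δ_x‖ ≤ a`.
* `kp_le`: `κ ρ0 = s(1-r²)ρ0 + e1 ρ0 ≤ η` because `η = Im z + s(1-r²)ρ0` and `e1 ρ0 ≤ Im z/2`; so `κ ≤ η/rl`.
* `bb_low`: `-Im b_x = Im z' + κ Im γ_x = (Im z - e1 ρ0) + κ ρ0 + κ Im δ_x = η + κ Im δ_x ≥ η - κ a ≥ η/2`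
  (`a ≤ rl/4`).   [`κ ρ0 - e1 ρ0 = s(1-r²)ρ0`.]
* `GG_op`: `rsc_op`: `2/η`.   `GG_row`: `rsc_row`: `≤ Im γ_x/(η/2) ≤ 2 C1/η` (`‖γ_x‖ ≤ ‖g0‖ + a ≤ C1`).
* `GG_krow`: `rsc_ward`: `Im γ_x ≥ ∑ |G_xy|² κ (ρ0 - a)`, so `κ ∑ |G_xy|² ≤ (ρ0 + a)/(ρ0 - a) ≤ 1 + 4a/rl`.
* `G_sub_GG`: `G⁻¹ = H0 + h - z_r`, `GG⁻¹ = H0 + h - z' - κ γ`, `z_r = z + s(1-r²)g0`,
  `z' + κ γ = z - e1 g0 + κ g0 + κ δ = z_r + κ δ`; so `G - GG = G (GG⁻¹ - G⁻¹) GG = -κ G diag(δ) GG`.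
* `dif_ent`: `‖(G - GG)_xy‖ ≤ κ a (∑_z |G_xz|²)^(1/2) (∑_z |GG_zy|²)^(1/2) ≤ (η/rl) a √(C1/η) √(2C1/η) ≤ 2 C1 a/rl`
  (`Cfg.row`, `GG_row`, symmetry).
* `dif_row`: row `x` of `G - GG` is `-κ (row x of G) diag(δ) GG`: squared norm
  `≤ κ² a² (C1/η) (2/η)² ≤ 4 C1 a²/(rl² η)`.
* `GG_T4`: `|GG|⁴ ≤ 8|G|⁴ + 8|GG - G|⁴`; `∑_y |GG - G|⁴ ≤ (2C1 a/rl)² (4 C1 a²/(rl² η)) = 16 C1³ a⁴/(rl⁴ η) ≤ tau/η`
  by `a4`.
* `GG_ent`: `‖GG_xy‖ ≤ √K + 2C1a/rl ≤ √K + 1/2 ≤ 2√K`.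
* `RG_sub`: `(GG∘GG - G∘G) = (GG - G)∘(GG + G)`; `opLe_had`: rows of `GG - G` have `ℓ²` norm at most
  `2 √C1 a/(rl √η)`, columns of `GG + G` at most `√(C1/η) + √(2C1/η) ≤ 2.42 √(C1/η)`; product `≤ 5 C1 a/(rl η)`.
-/

open Matrix Finset

noncomputable section

namespace Pool.Agent.APS

open Pool.Agent.Kin

variable {ι : Type} [Fintype ι] [DecidableEq ι] {D : Fl ι} {e1 C1 rl K a tau r : ℝ}
  {h : ι → ℝ} {I : Set ℝ}

private theorem sb_a (hc : D.SCfg e1 C1 rl K a tau r h) : 4 * a ≤ rl := by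
  have h1 := hc.arl
  have h2 := hc.cfg.one_le
  have h3 := hc.cfg.a0
  nlinarith

private theorem sb_kp0 (hc : D.SCfg e1 C1 rl K a tau r h) : 0 ≤ D.kp e1 r := by
  have h1 := hc.cfg.s0
  have h2 := hc.cfg.r0
  have h3 := hc.cfg.r1
  have h4 := hc.e0
  have h5 : 0 ≤ 1 - r ^ 2 := by nlinarith
  unfold Fl.kp
  positivity

theorem kp_le (hc : D.SCfg e1 C1 rl K a tau r h) : D.kp e1 r ≤ D.et r / rl := by
  have h1 := sb_kp0 hc
  have h2 := hc.rl0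
  have h3 := hc.rl1
  have h4 := hc.ez
  have h5 := hc.e0
  have h6 : 0 < e1 * D.g0.im := mul_pos h5 (by linarith)
  rw [le_div_iff₀ h2]
  have h7 : D.kp e1 r * rl ≤ D.kp e1 r * D.g0.im := mul_le_mul_of_nonneg_left h3 h1
  have h8 : D.kp e1 r * D.g0.im = D.s * (1 - r ^ 2) * D.g0.im + e1 * D.g0.im := by
    unfold Fl.kp
    ring
  unfold Fl.et
  linarith

private theorem sb_ka (hc : D.SCfg e1 C1 rl K a tau r h) : D.kp e1 r * a ≤ D.et r / 4 := by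
  have h1 := kp_le hc
  have h2 := sb_a hc
  have h3 := hc.rl0
  have h4 := hc.cfg.et0
  have h5 := hc.cfg.a0
  calc D.kp e1 r * a ≤ D.et r / rl * a := mul_le_mul_of_nonneg_right h1 h5.le
    _ ≤ D.et r / rl * (rl / 4) := by
        gcongr
        linarith
    _ = D.et r / 4 := by field_simp

private theorem sb_im (hc : D.SCfg e1 C1 rl K a tau r h) (x : ι) :
    D.g0.im - a ≤ (D.ga e1 r h x).im ∧ (D.ga e1 r h x).im ≤ D.g0.im + a := by
  have h1 := (Complex.abs_im_le_norm (D.ga e1 r h x - D.g0)).trans (hc.del x)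
  rw [Complex.sub_im, abs_le] at h1
  constructor <;> linarith [h1.1, h1.2]

private theorem sb_zp (hc : D.SCfg e1 C1 rl K a tau r h) :
    (D.zp e1).im = D.z.im - e1 * D.g0.im ∧ 0 < (D.zp e1).im := by
  have h0 : (D.zp e1).im = D.z.im - e1 * D.g0.im := by
    unfold Fl.zp
    rw [Complex.sub_im, Complex.im_ofReal_mul]
  have h4 := hc.ez
  have h6 : 0 < e1 * D.g0.im := mul_pos hc.e0 (by linarith [hc.rl0, hc.rl1])
  exact ⟨h0, by rw [h0]; linarith⟩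

theorem bb_low (hS : D.SCI e1 I) (hr : r ∈ I) (hc : D.SCfg e1 C1 rl K a tau r h) (x : ι) :
    D.et r / 2 ≤ -(D.bb e1 r h x).im := by
  rw [bb_im hS]
  have h1 := (sb_zp hc).1
  have h2 := (sb_im hc x).1
  have h3 := sb_kp0 hc
  have h4 := sb_ka hc
  have h5 : D.kp e1 r * (D.g0.im - a) ≤ D.kp e1 r * (D.ga e1 r h x).im :=
    mul_le_mul_of_nonneg_left h2 h3
  have h6 : (D.zp e1).im + D.kp e1 r * (D.g0.im - a) = D.et r - D.kp e1 r * a := by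
    rw [h1]
    unfold Fl.kp Fl.et
    ring
  have h7 := hc.cfg.et0
  linarith

theorem ga_le (hc : D.SCfg e1 C1 rl K a tau r h) (x : ι) : ‖D.ga e1 r h x‖ ≤ C1 := by
  have h1 := hc.del x
  have h2 : ‖D.ga e1 r h x‖ ≤ ‖D.ga e1 r h x - D.g0‖ + ‖D.g0‖ := by
    have := norm_add_le (D.ga e1 r h x - D.g0) D.g0
    rwa [sub_add_cancel] at this
  have h3 := hc.cfg.C1b
  have h4 := hc.cfg.a1
  linarith

theorem GG_op (hS : D.SCI e1 I) (hr : r ∈ I) (hc : D.SCfg e1 C1 rl K a tau r h) :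
    OpLe (D.GG e1 r h) (2 / D.et r) := by
  have h1 := hc.cfg.et0
  have h2 := rsc_op hS.sym (e := D.et r / 2) (by linarith) (bb_low hS hr hc)
  have h3 : 1 / (D.et r / 2) = 2 / D.et r := by field_simp
  rw [h3] at h2
  exact h2

theorem GG_row (hS : D.SCI e1 I) (hr : r ∈ I) (hc : D.SCfg e1 C1 rl K a tau r h) (x : ι) :
    ∑ y, ‖D.GG e1 r h x y‖ ^ 2 ≤ 2 * C1 / D.et r := by
  have h1 := hc.cfg.et0
  have h2 := rsc_row hS.sym (e := D.et r / 2) (by linarith) (bb_low hS hr hc) x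
  refine h2.trans ?_
  have h3 : (rsc D.H0 (D.bb e1 r h) x x).im ≤ C1 := by
    have h4 : rsc D.H0 (D.bb e1 r h) x x = D.ga e1 r h x := GG_diag hS hr h x
    rw [h4]
    exact ((le_abs_self _).trans (Complex.abs_im_le_norm _)).trans (ga_le hc x)
  calc (rsc D.H0 (D.bb e1 r h) x x).im / (D.et r / 2) ≤ C1 / (D.et r / 2) := by gcongr
    _ = 2 * C1 / D.et r := by field_simp

theorem GG_krow (hS : D.SCI e1 I) (hr : r ∈ I) (hc : D.SCfg e1 C1 rl K a tau r h) (x : ι) :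
    D.kp e1 r * ∑ y, ‖D.GG e1 r h x y‖ ^ 2 ≤ 1 + 4 * a / rl := by
  have h1 := rsc_ward hS.sym (bb_neg hS hr h) x
  have h4 : rsc D.H0 (D.bb e1 r h) x x = D.ga e1 r h x := GG_diag hS hr h x
  rw [h4] at h1
  have h5 := (sb_im hc x).2
  have h6 := sb_kp0 hc
  have h7 := sb_a hc
  have h8 := hc.rl1
  have h9 := hc.cfg.a0
  have h10 := hc.rl0
  have h11 : ∑ y, ‖rsc D.H0 (D.bb e1 r h) x y‖ ^ 2 * (D.kp e1 r * (D.g0.im - a)) ≤
      ∑ y, ‖rsc D.H0 (D.bb e1 r h) x y‖ ^ 2 * (-(D.bb e1 r h y).im) := by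
    refine Finset.sum_le_sum fun y _ => mul_le_mul_of_nonneg_left ?_ (sq_nonneg _)
    rw [bb_im hS]
    have := mul_le_mul_of_nonneg_left (sb_im hc y).1 h6
    linarith [(sb_zp hc).2]
  rw [← Finset.sum_mul] at h11
  have h12 : (D.kp e1 r * ∑ y, ‖D.GG e1 r h x y‖ ^ 2) * (D.g0.im - a) ≤ D.g0.im + a := by
    have : (D.kp e1 r * ∑ y, ‖D.GG e1 r h x y‖ ^ 2) * (D.g0.im - a) =
        (∑ y, ‖rsc D.H0 (D.bb e1 r h) x y‖ ^ 2) * (D.kp e1 r * (D.g0.im - a)) := by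
      unfold Fl.GG
      ring
    rw [this]
    linarith
  have h13 : 0 < D.g0.im - a := by linarith
  have h14 : D.g0.im + a ≤ (1 + 4 * a / rl) * (D.g0.im - a) := by
    have e1 : 4 * a / rl * (D.g0.im - a) ≥ 4 * a / rl * (rl * (3 / 4)) := by
      have : rl * (3 / 4) ≤ D.g0.im - a := by linarith
      gcongr
    have e2 : 4 * a / rl * (rl * (3 / 4)) = 3 * a := by field_simp
    nlinarith
  exact le_of_mul_le_mul_right (h12.trans h14) h13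

private theorem sb_G (D : Fl ι) (r : ℝ) (h : ι → ℝ) :
    D.G r h = rsc D.H0 (fun x => (h x : ℂ) - D.zr r) := by
  unfold Fl.G res rsc
  congr 1
  ext x y
  simp only [Matrix.sub_apply, Matrix.add_apply, Matrix.smul_apply, Matrix.diagonal_apply,
    Matrix.one_apply, smul_eq_mul]
  split_ifs <;> ring

theorem G_sub_GG (hS : D.SCI e1 I) (hr : r ∈ I) (hc : D.SCfg e1 C1 rl K a tau r h) :
    D.G r h - D.GG e1 r h = -(D.kp e1 r : ℂ) •
      (D.G r h * diagonal (fun x => D.ga e1 r h x - D.g0) * D.GG e1 r h) := by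
  rw [sb_G]
  unfold Fl.GG
  rw [rsc_sub hS.sym (b := fun x => (h x : ℂ) - D.zr r) (fun x => ?_) (bb_neg hS hr h)]
  · have h1 : diagonal (fun x => D.bb e1 r h x - ((h x : ℂ) - D.zr r)) =
        -(D.kp e1 r : ℂ) • diagonal (fun x => D.ga e1 r h x - D.g0) := by
      rw [← Matrix.diagonal_smul]
      congr 1
      funext x
      simp only [Pi.smul_apply, smul_eq_mul]
      unfold Fl.bb Fl.zp Fl.zr Fl.kp
      push_cast
      ring
    rw [h1, Matrix.mul_smul, Matrix.smul_mul]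
  · have h2 : (D.zr r).im = D.et r := by
      unfold Fl.zr Fl.et
      rw [Complex.add_im, Complex.im_ofReal_mul]
    rw [Complex.sub_im, Complex.ofReal_im, h2]
    linarith [hc.cfg.et0]

private theorem sb_nk (hc : D.SCfg e1 C1 rl K a tau r h) : ‖-(D.kp e1 r : ℂ)‖ = D.kp e1 r := by
  rw [norm_neg, Complex.norm_real, Real.norm_eq_abs, abs_of_nonneg (sb_kp0 hc)]

theorem dif_ent (hS : D.SCI e1 I) (hr : r ∈ I) (hc : D.SCfg e1 C1 rl K a tau r h) (x y : ι) :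
    ‖(D.G r h - D.GG e1 r h) x y‖ ≤ 2 * C1 * a / rl := by
  rw [G_sub_GG hS hr hc, Matrix.smul_apply, norm_smul, sb_nk hc, Matrix.mul_apply]
  have h1 := hc.cfg.et0
  have h2 := hc.rl0
  have h3 := hc.cfg.a0
  have h4 := hc.cfg.one_le
  have h5 := sb_kp0 hc
  have h6 : ‖∑ j, (D.G r h * diagonal fun x => D.ga e1 r h x - D.g0) x j * D.GG e1 r h j y‖ ≤
      a * (2 * C1 / D.et r) := by
    calc ‖∑ j, (D.G r h * diagonal fun x => D.ga e1 r h x - D.g0) x j * D.GG e1 r h j y‖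
        ≤ ∑ j, ‖(D.G r h * diagonal fun x => D.ga e1 r h x - D.g0) x j * D.GG e1 r h j y‖ :=
          norm_sum_le _ _
      _ ≤ ∑ j, a * ((‖D.G r h x j‖ ^ 2 + ‖D.GG e1 r h y j‖ ^ 2) / 2) := by
          refine Finset.sum_le_sum fun j _ => ?_
          rw [Matrix.mul_diagonal, norm_mul, norm_mul, GG_symm hS r h j y]
          have k1 : ‖D.G r h x j‖ * ‖D.GG e1 r h y j‖ ≤
              (‖D.G r h x j‖ ^ 2 + ‖D.GG e1 r h y j‖ ^ 2) / 2 := by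
            nlinarith [sq_nonneg (‖D.G r h x j‖ - ‖D.GG e1 r h y j‖)]
          calc ‖D.G r h x j‖ * ‖D.ga e1 r h j - D.g0‖ * ‖D.GG e1 r h y j‖ =
                ‖D.ga e1 r h j - D.g0‖ * (‖D.G r h x j‖ * ‖D.GG e1 r h y j‖) := by ring
            _ ≤ a * ((‖D.G r h x j‖ ^ 2 + ‖D.GG e1 r h y j‖ ^ 2) / 2) :=
              mul_le_mul (hc.del j) k1 (by positivity) h3.le
      _ = a * ((∑ j, ‖D.G r h x j‖ ^ 2 + ∑ j, ‖D.GG e1 r h y j‖ ^ 2) / 2) := by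
          rw [← Finset.mul_sum, ← Finset.sum_div, Finset.sum_add_distrib]
      _ ≤ a * (2 * C1 / D.et r) := by
          refine mul_le_mul_of_nonneg_left ?_ h3.le
          have k1 := hc.cfg.row x
          have k2 := GG_row hS hr hc y
          have k3 : 2 * C1 / D.et r = 2 * (C1 / D.et r) := by ring
          have k4 : 0 < C1 / D.et r := by positivity
          rw [k3] at k2 ⊢
          linarith
  calc D.kp e1 r *
        ‖∑ j, (D.G r h * diagonal fun x => D.ga e1 r h x - D.g0) x j * D.GG e1 r h j y‖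
      ≤ D.et r / rl * (a * (2 * C1 / D.et r)) :=
        mul_le_mul (kp_le hc) h6 (norm_nonneg _) (by positivity)
    _ = 2 * C1 * a / rl := by field_simp

theorem dif_row (hS : D.SCI e1 I) (hr : r ∈ I) (hc : D.SCfg e1 C1 rl K a tau r h) (x : ι) :
    ∑ y, ‖(D.G r h - D.GG e1 r h) x y‖ ^ 2 ≤ 4 * C1 * a ^ 2 / (rl ^ 2 * D.et r) := by
  have h1 := hc.cfg.et0
  have h2 := hc.rl0
  have h3 := hc.cfg.a0
  have h4 := hc.cfg.one_le
  have h5 := sb_kp0 hc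
  have ee : ∀ y, ‖(D.G r h - D.GG e1 r h) x y‖ ^ 2 = D.kp e1 r ^ 2 *
      ‖(D.G r h * diagonal (fun x => D.ga e1 r h x - D.g0) * D.GG e1 r h) x y‖ ^ 2 := by
    intro y
    rw [G_sub_GG hS hr hc, Matrix.smul_apply, norm_smul, sb_nk hc, mul_pow]
  simp only [ee]
  rw [← Finset.mul_sum]
  have h6 := opLe_row_mul (A := D.G r h * diagonal (fun x => D.ga e1 r h x - D.g0))
    (by positivity) (GG_op hS hr hc) x
  have h7 : ∑ y, ‖(D.G r h * diagonal (fun x => D.ga e1 r h x - D.g0)) x y‖ ^ 2 ≤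
      a ^ 2 * (C1 / D.et r) := by
    calc ∑ y, ‖(D.G r h * diagonal (fun x => D.ga e1 r h x - D.g0)) x y‖ ^ 2
        ≤ ∑ y, a ^ 2 * ‖D.G r h x y‖ ^ 2 := by
          refine Finset.sum_le_sum fun y _ => ?_
          rw [Matrix.mul_diagonal, norm_mul, mul_pow, mul_comm]
          exact mul_le_mul_of_nonneg_right (pow_le_pow_left₀ (norm_nonneg _) (hc.del y) 2)
            (sq_nonneg _)
      _ = a ^ 2 * ∑ y, ‖D.G r h x y‖ ^ 2 := (Finset.mul_sum _ _ _).symm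
      _ ≤ _ := mul_le_mul_of_nonneg_left (hc.cfg.row x) (sq_nonneg _)
  calc D.kp e1 r ^ 2 * ∑ y, ‖(D.G r h * diagonal (fun x => D.ga e1 r h x - D.g0) *
        D.GG e1 r h) x y‖ ^ 2
      ≤ (D.et r / rl) ^ 2 * ((2 / D.et r) ^ 2 * (a ^ 2 * (C1 / D.et r))) := by
        refine mul_le_mul (pow_le_pow_left₀ h5 (kp_le hc) 2) (h6.trans ?_)
          (Finset.sum_nonneg fun _ _ => sq_nonneg _) (by positivity)
        exact mul_le_mul_of_nonneg_left h7 (sq_nonneg _)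
    _ = 4 * C1 * a ^ 2 / (rl ^ 2 * D.et r) := by
        field_simp
        ring

private theorem sb_p4 {u v w : ℝ} (hw : 0 ≤ w) (h : w ≤ u + v) :
    w ^ 4 ≤ 8 * u ^ 4 + 8 * v ^ 4 := by
  have h1 : w ^ 4 ≤ (u + v) ^ 4 := pow_le_pow_left₀ hw h 4
  have h2 : (u + v) ^ 2 ≤ 2 * (u ^ 2 + v ^ 2) := by nlinarith [sq_nonneg (u - v)]
  have h3 : ((u + v) ^ 2) ^ 2 ≤ (2 * (u ^ 2 + v ^ 2)) ^ 2 :=
    pow_le_pow_left₀ (sq_nonneg _) h2 2
  have h4 : (u ^ 2 + v ^ 2) ^ 2 ≤ 2 * (u ^ 4 + v ^ 4) := by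
    nlinarith [sq_nonneg (u ^ 2 - v ^ 2)]
  have h5 : (u + v) ^ 4 = ((u + v) ^ 2) ^ 2 := by ring
  nlinarith

private theorem sb_tri (D : Fl ι) (e1 r : ℝ) (h : ι → ℝ) (x y : ι) :
    ‖D.GG e1 r h x y‖ ≤ ‖D.G r h x y‖ + ‖(D.G r h - D.GG e1 r h) x y‖ := by
  have h1 : D.GG e1 r h x y = D.G r h x y - (D.G r h - D.GG e1 r h) x y := by
    rw [Matrix.sub_apply]
    ring
  rw [h1]
  exact norm_sub_le _ _

theorem GG_T4 (hS : D.SCI e1 I) (hr : r ∈ I) (hc : D.SCfg e1 C1 rl K a tau r h) (x : ι) :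
    ∑ y, ‖D.GG e1 r h x y‖ ^ 4 ≤ 16 * tau / D.et r := by
  have h1 := hc.cfg.et0
  have h2 := hc.rl0
  have h3 := hc.cfg.a0
  have h4 := hc.cfg.one_le
  have h5 : ∑ y, ‖(D.G r h - D.GG e1 r h) x y‖ ^ 4 ≤ tau / D.et r := by
    calc ∑ y, ‖(D.G r h - D.GG e1 r h) x y‖ ^ 4
        ≤ ∑ y, (2 * C1 * a / rl) ^ 2 * ‖(D.G r h - D.GG e1 r h) x y‖ ^ 2 := by
          refine Finset.sum_le_sum fun y _ => ?_
          have k1 := pow_le_pow_left₀ (norm_nonneg _) (dif_ent hS hr hc x y) 2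
          calc ‖(D.G r h - D.GG e1 r h) x y‖ ^ 4 = ‖(D.G r h - D.GG e1 r h) x y‖ ^ 2 *
                ‖(D.G r h - D.GG e1 r h) x y‖ ^ 2 := by ring
            _ ≤ _ := mul_le_mul_of_nonneg_right k1 (sq_nonneg _)
      _ = (2 * C1 * a / rl) ^ 2 * ∑ y, ‖(D.G r h - D.GG e1 r h) x y‖ ^ 2 :=
          (Finset.mul_sum _ _ _).symm
      _ ≤ (2 * C1 * a / rl) ^ 2 * (4 * C1 * a ^ 2 / (rl ^ 2 * D.et r)) :=
          mul_le_mul_of_nonneg_left (dif_row hS hr hc x) (sq_nonneg _)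
      _ = (16 * C1 ^ 3 * a ^ 4) / (rl ^ 4 * D.et r) := by
          field_simp
          ring
      _ ≤ (rl ^ 4 * tau) / (rl ^ 4 * D.et r) := by
          have := hc.a4
          gcongr
      _ = tau / D.et r := by field_simp
  have h6 := hc.cfg.T4 x
  calc ∑ y, ‖D.GG e1 r h x y‖ ^ 4
      ≤ ∑ y, (8 * ‖D.G r h x y‖ ^ 4 + 8 * ‖(D.G r h - D.GG e1 r h) x y‖ ^ 4) :=
        Finset.sum_le_sum fun y _ => sb_p4 (norm_nonneg _)
          (sb_tri D e1 r h x y)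
    _ = 8 * ∑ y, ‖D.G r h x y‖ ^ 4 + 8 * ∑ y, ‖(D.G r h - D.GG e1 r h) x y‖ ^ 4 := by
        rw [Finset.sum_add_distrib, Finset.mul_sum, Finset.mul_sum]
    _ ≤ 8 * (tau / D.et r) + 8 * (tau / D.et r) := by linarith
    _ = 16 * tau / D.et r := by ring

theorem GG_ent (hS : D.SCI e1 I) (hr : r ∈ I) (hc : D.SCfg e1 C1 rl K a tau r h) (x y : ι) :
    ‖D.GG e1 r h x y‖ ≤ 2 * √K := by
  have h1 := dif_ent hS hr hc x y
  have h2 : ‖D.G r h x y‖ ≤ √K := Real.le_sqrt_of_sq_le (hc.ent x y)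
  have h3 : 1 ≤ √K := by
    rw [Real.one_le_sqrt]
    exact hc.K1
  have h4 : 2 * C1 * a / rl ≤ 1 := by
    rw [div_le_one hc.rl0]
    have := hc.arl
    have := hc.cfg.a0
    have := hc.cfg.one_le
    nlinarith
  have h5 := sb_tri D e1 r h x y
  linarith

theorem RG_sub (hS : D.SCI e1 I) (hr : r ∈ I) (hc : D.SCfg e1 C1 rl K a tau r h) :
    OpLe (had2 (D.GG e1 r h) - D.RO.f r h) (5 * C1 * a / (rl * D.et r)) := by
  have h1 := hc.cfg.et0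
  have h2 := hc.rl0
  have h3 := hc.cfg.a0
  have h4 := hc.cfg.one_le
  have hq : 0 ≤ C1 / D.et r := by positivity
  have hs : √(C1 / D.et r) ^ 2 = C1 / D.et r := Real.sq_sqrt hq
  have h5 : OpLe (fun x y => (D.G r h - D.GG e1 r h) x y *
      (-(D.GG e1 r h x y + D.G r h x y))) ((2 * a * √(C1 / D.et r) / rl) *
        (5 / 2 * √(C1 / D.et r))) := by
    refine opLe_had (B := fun x y => -(D.GG e1 r h x y + D.G r h x y)) (fun x => ?_) (fun y => ?_)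
    · refine (dif_row hS hr hc x).trans (le_of_eq ?_)
      rw [div_pow, mul_pow, hs]
      field_simp
      ring
    · rw [mul_pow, hs]
      have k1 : ∀ x, ‖-(D.GG e1 r h x y + D.G r h x y)‖ ^ 2 ≤
          2 * ‖D.GG e1 r h y x‖ ^ 2 + 2 * ‖D.G r h y x‖ ^ 2 := by
        intro x
        rw [norm_neg, GG_symm hS r h x y, hc.cfg.symm x y]
        have k2 := norm_add_le (D.GG e1 r h y x) (D.G r h y x)
        have k3 := pow_le_pow_left₀ (norm_nonneg _) k2 2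
        nlinarith [sq_nonneg (‖D.GG e1 r h y x‖ - ‖D.G r h y x‖)]
      refine (Finset.sum_le_sum fun x _ => k1 x).trans ?_
      rw [Finset.sum_add_distrib, ← Finset.mul_sum, ← Finset.mul_sum]
      have k4 := GG_row hS hr hc y
      have k5 := hc.cfg.row y
      have k6 : 2 * C1 / D.et r = 2 * (C1 / D.et r) := by ring
      rw [k6] at k4
      linarith
  have h6 : (had2 (D.GG e1 r h) - D.RO.f r h) = (fun x y => (D.G r h - D.GG e1 r h) x y *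
      (-(D.GG e1 r h x y + D.G r h x y))) := by
    funext x y
    show D.GG e1 r h x y ^ 2 - D.G r h x y ^ 2 = (D.G r h x y - D.GG e1 r h x y) * _
    ring
  have h7 : (2 * a * √(C1 / D.et r) / rl) * (5 / 2 * √(C1 / D.et r)) =
      5 * C1 * a / (rl * D.et r) := by
    calc (2 * a * √(C1 / D.et r) / rl) * (5 / 2 * √(C1 / D.et r)) =
          5 * a / rl * √(C1 / D.et r) ^ 2 := by ring
      _ = 5 * C1 * a / (rl * D.et r) := by
          rw [hs]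
          field_simp
  rw [h6, ← h7]
  exact h5

end Pool.Agent.APS
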