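import Pool.Agent.APS.SCDer1

/-! # APS3 SCCONT: the self-consistent resolvent of the flow: basic facts and continuity.

`e = Im z' > 0`, `c = h - z'`, `Im c_x = -e`.  `ga_spec`: `gam_spec`.  `KG_unit`: `sc_unit`.
`GG_symm`: `rsc_symm`.  `had2 GG`, `KG`, `PG` are symmetric (`(A⁻¹)ᵀ = (Aᵀ)⁻¹`).
`PG_eq`: `KG PG = 1`, so `PG = 1 + κ (G∘G) PG = 1 + κ TG`.  `TG_eq'`: `(G∘G)` commutes with `KG`, so with `PG`.
`TG_symm`: `TG = (G∘G) PG = PG (G∘G)`.
Continuity in `(r,h)`: `gam_cont` with `k = κ(r)` continuous, `c` continuous; `rsc_cont`; the inverse of a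
matrix with unit determinant is continuous (`PG`); the others are polynomials in entries.
-/

open Matrix Finset

noncomputable section

namespace Pool.Agent.APS

open Pool.Agent.Kin

variable {ι : Type} [Fintype ι] [DecidableEq ι] {D : Fl ι} {e1 r : ℝ} {I : Set ℝ}

theorem ga_spec (hS : D.SCI e1 I) (hr : r ∈ I) (h : ι → ℝ) :
    IsSC D.H0 (D.kp e1 r) (fun x => (h x : ℂ) - D.zp e1) (D.ga e1 r h) :=
  gam_spec hS.sym (hS.kpp r hr).le hS.zim (fun x => by simp)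

theorem ga_im (hS : D.SCI e1 I) (hr : r ∈ I) (h : ι → ℝ) (x : ι) : 0 < (D.ga e1 r h x).im :=
  (ga_spec hS hr h x).1

theorem GG_diag (hS : D.SCI e1 I) (hr : r ∈ I) (h : ι → ℝ) (x : ι) :
    D.GG e1 r h x x = D.ga e1 r h x :=
  (ga_spec hS hr h x).2

theorem bb_im (hS : D.SCI e1 I) (r : ℝ) (h : ι → ℝ) (x : ι) :
    -(D.bb e1 r h x).im = (D.zp e1).im + D.kp e1 r * (D.ga e1 r h x).im := by
  unfold Fl.bb
  rw [Complex.sub_im, Complex.sub_im, Complex.ofReal_im, Complex.im_ofReal_mul]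
  ring

theorem bb_neg (hS : D.SCI e1 I) (hr : r ∈ I) (h : ι → ℝ) (x : ι) :
    (D.bb e1 r h x).im < 0 := by
  have h1 := bb_im hS r h x
  have h2 := hS.zim
  have h3 := mul_pos (hS.kpp r hr) (ga_im hS hr h x)
  linarith

theorem GG_symm (hS : D.SCI e1 I) (r : ℝ) (h : ι → ℝ) (x y : ι) :
    D.GG e1 r h x y = D.GG e1 r h y x :=
  rsc_symm hS.sym _ x y

theorem KG_unit (hS : D.SCI e1 I) (hr : r ∈ I) (h : ι → ℝ) : IsUnit (D.KG e1 r h).det :=
  sc_unit hS.sym (hS.kpp r hr).le hS.zim (fun x => by simp) (ga_spec hS hr h)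

theorem scc_had2_symm (hS : D.SCI e1 I) (r : ℝ) (h : ι → ℝ) :
    (had2 (D.GG e1 r h))ᵀ = had2 (D.GG e1 r h) := by
  ext x y
  rw [transpose_apply]
  show D.GG e1 r h y x ^ 2 = D.GG e1 r h x y ^ 2
  rw [GG_symm hS r h y x]

theorem scc_PG_tr (hS : D.SCI e1 I) (r : ℝ) (h : ι → ℝ) : (D.PG e1 r h)ᵀ = D.PG e1 r h := by
  unfold Fl.PG
  rw [transpose_nonsing_inv]
  congr 1
  unfold Fl.KG
  rw [transpose_sub, transpose_one, transpose_smul, scc_had2_symm hS]

theorem PG_symm (hS : D.SCI e1 I) (r : ℝ) (h : ι → ℝ) (x y : ι) :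
    D.PG e1 r h x y = D.PG e1 r h y x := by
  rw [← transpose_apply (D.PG e1 r h) y x, scc_PG_tr hS]

theorem KG_mul_PG (hS : D.SCI e1 I) (hr : r ∈ I) (h : ι → ℝ) :
    D.KG e1 r h * D.PG e1 r h = 1 :=
  mul_nonsing_inv _ (KG_unit hS hr h)

theorem PG_mul_KG (hS : D.SCI e1 I) (hr : r ∈ I) (h : ι → ℝ) :
    D.PG e1 r h * D.KG e1 r h = 1 :=
  nonsing_inv_mul _ (KG_unit hS hr h)

theorem PG_eq (hS : D.SCI e1 I) (hr : r ∈ I) (h : ι → ℝ) :
    D.PG e1 r h = 1 + (D.kp e1 r : ℂ) • D.TG e1 r h := by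
  have h1 := KG_mul_PG hS hr h
  unfold Fl.KG at h1
  rw [Matrix.sub_mul, Matrix.one_mul, Matrix.smul_mul] at h1
  unfold Fl.TG
  rw [← h1]
  abel

theorem TG_eq' (hS : D.SCI e1 I) (hr : r ∈ I) (h : ι → ℝ) :
    D.TG e1 r h = D.PG e1 r h * had2 (D.GG e1 r h) := by
  have h1 : had2 (D.GG e1 r h) * D.KG e1 r h = D.KG e1 r h * had2 (D.GG e1 r h) := by
    unfold Fl.KG
    rw [Matrix.mul_sub, Matrix.sub_mul, Matrix.mul_one, Matrix.one_mul, Matrix.mul_smul,
      Matrix.smul_mul]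
  unfold Fl.TG
  calc had2 (D.GG e1 r h) * D.PG e1 r h
      = (D.PG e1 r h * D.KG e1 r h) * (had2 (D.GG e1 r h) * D.PG e1 r h) := by
        rw [PG_mul_KG hS hr h, Matrix.one_mul]
    _ = D.PG e1 r h * (D.KG e1 r h * had2 (D.GG e1 r h)) * D.PG e1 r h := by
        simp only [Matrix.mul_assoc]
    _ = D.PG e1 r h * (had2 (D.GG e1 r h) * D.KG e1 r h) * D.PG e1 r h := by rw [h1]
    _ = D.PG e1 r h * had2 (D.GG e1 r h) * (D.KG e1 r h * D.PG e1 r h) := by
        simp only [Matrix.mul_assoc]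
    _ = D.PG e1 r h * had2 (D.GG e1 r h) := by rw [KG_mul_PG hS hr h, Matrix.mul_one]

theorem TG_symm (hS : D.SCI e1 I) (hr : r ∈ I) (h : ι → ℝ) (x y : ι) :
    D.TG e1 r h x y = D.TG e1 r h y x := by
  have h1 : (D.TG e1 r h)ᵀ = D.TG e1 r h := by
    rw [TG_eq' hS hr h, transpose_mul, scc_had2_symm hS, scc_PG_tr hS]
    exact TG_eq' hS hr h
  rw [← transpose_apply (D.TG e1 r h) y x, h1]

theorem scc_kp_cont : Continuous (fun r : ℝ => D.kp e1 r) := by
  unfold Fl.kp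
  fun_prop

theorem ga_cont (hS : D.SCI e1 I) (x : ι) :
    ContinuousOn (fun p : ℝ × (ι → ℝ) => D.ga e1 p.1 p.2 x) (I ×ˢ Set.univ) := by
  refine gam_cont hS.sym hS.zim (fun p : ℝ × (ι → ℝ) => D.kp e1 p.1)
    (fun p x => (p.2 x : ℂ) - D.zp e1) (fun p hp => (hS.kpp p.1 hp.1).le) (fun p _ x => by simp)
    ((scc_kp_cont.comp continuous_fst).continuousOn) (fun x => ?_) x
  apply Continuous.continuousOn
  fun_prop

theorem GG_cont (hS : D.SCI e1 I) (x y : ι) :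
    ContinuousOn (fun p : ℝ × (ι → ℝ) => D.GG e1 p.1 p.2 x y) (I ×ˢ Set.univ) := by
  refine rsc_cont hS.sym (fun p : ℝ × (ι → ℝ) => D.bb e1 p.1 p.2)
    (fun p hp x => bb_neg hS hp.1 p.2 x) (fun x => ?_) x y
  unfold Fl.bb
  refine ContinuousOn.sub (Continuous.continuousOn (by fun_prop)) (ContinuousOn.mul ?_ (ga_cont hS x))
  exact (Complex.continuous_ofReal.comp (scc_kp_cont.comp continuous_fst)).continuousOn

/-- the matrix valued functions are continuous on the subtype -/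
theorem scc_GG (hS : D.SCI e1 I) :
    Continuous (fun q : (I ×ˢ Set.univ : Set (ℝ × (ι → ℝ))) => D.GG e1 q.1.1 q.1.2) := by
  refine continuous_pi fun x => continuous_pi fun y => ?_
  exact continuousOn_iff_continuous_restrict.1 (GG_cont hS x y)

theorem scc_had (hS : D.SCI e1 I) :
    Continuous (fun q : (I ×ˢ Set.univ : Set (ℝ × (ι → ℝ))) => had2 (D.GG e1 q.1.1 q.1.2)) := by
  refine continuous_pi fun x => continuous_pi fun y => ?_
  exact ((scc_GG hS).matrix_elem x y).pow 2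

theorem scc_kp (D : Fl ι) (e1 : ℝ) (I : Set ℝ) :
    Continuous (fun q : (I ×ˢ Set.univ : Set (ℝ × (ι → ℝ))) => (D.kp e1 q.1.1 : ℂ)) :=
  Complex.continuous_ofReal.comp (scc_kp_cont.comp (continuous_fst.comp continuous_subtype_val))

theorem scc_PG (hS : D.SCI e1 I) :
    Continuous (fun q : (I ×ˢ Set.univ : Set (ℝ × (ι → ℝ))) => D.PG e1 q.1.1 q.1.2) := by
  have hK : Continuous (fun q : (I ×ˢ Set.univ : Set (ℝ × (ι → ℝ))) => D.KG e1 q.1.1 q.1.2) := by
    unfold Fl.KG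
    exact continuous_const.sub ((scc_kp D e1 I).smul (scc_had hS))
  have h1 : ∀ q : (I ×ˢ Set.univ : Set (ℝ × (ι → ℝ))), D.PG e1 q.1.1 q.1.2 =
      ((D.KG e1 q.1.1 q.1.2).det)⁻¹ • (D.KG e1 q.1.1 q.1.2).adjugate := by
    intro q
    unfold Fl.PG
    rw [Matrix.inv_def, Ring.inverse_eq_inv']
  simp only [h1]
  refine Continuous.smul (Continuous.inv₀ hK.matrix_det ?_) hK.matrix_adjugate
  intro q
  exact (KG_unit hS q.2.1 q.1.2).ne_zero

theorem PG_cont (hS : D.SCI e1 I) (x y : ι) :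
    ContinuousOn (fun p : ℝ × (ι → ℝ) => D.PG e1 p.1 p.2 x y) (I ×ˢ Set.univ) := by
  rw [continuousOn_iff_continuous_restrict]
  exact (scc_PG hS).matrix_elem x y

theorem TG_cont (hS : D.SCI e1 I) (x y : ι) :
    ContinuousOn (fun p : ℝ × (ι → ℝ) => D.TG e1 p.1 p.2 x y) (I ×ˢ Set.univ) := by
  rw [continuousOn_iff_continuous_restrict]
  exact ((scc_had hS).matrix_mul (scc_PG hS)).matrix_elem x y

theorem scc_pv (hS : D.SCI e1 I) (w : ι) :
    Continuous (fun q : (I ×ˢ Set.univ : Set (ℝ × (ι → ℝ))) => D.pv e1 w q.1.1 q.1.2) :=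
  continuous_pi fun x => (scc_PG hS).matrix_elem x w

theorem scc_u2 (hS : D.SCI e1 I) (w : ι) :
    Continuous (fun q : (I ×ˢ Set.univ : Set (ℝ × (ι → ℝ))) => D.u2 e1 w q.1.1 q.1.2) := by
  refine continuous_pi fun x => ?_
  exact (((((scc_GG hS).matrix_mul (scc_pv hS w).matrix_diagonal).matrix_mul
    (scc_GG hS)).matrix_mul (scc_pv hS w).matrix_diagonal).matrix_mul (scc_GG hS)).matrix_elem x x

theorem u2_cont (hS : D.SCI e1 I) (w x : ι) :
    ContinuousOn (fun p : ℝ × (ι → ℝ) => D.u2 e1 w p.1 p.2 x) (I ×ˢ Set.univ) := by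
  rw [continuousOn_iff_continuous_restrict]
  exact (continuous_apply x).comp (scc_u2 hS w)

theorem scc_vv (hS : D.SCI e1 I) (w : ι) :
    Continuous (fun q : (I ×ˢ Set.univ : Set (ℝ × (ι → ℝ))) => D.vv e1 w q.1.1 q.1.2) := by
  refine continuous_pi fun x => ?_
  exact ((continuous_const.mul (scc_kp D e1 I)).neg).mul
    ((continuous_apply x).comp ((scc_PG hS).matrix_mulVec (scc_u2 hS w)))

theorem u3_cont (hS : D.SCI e1 I) (w x : ι) :
    ContinuousOn (fun p : ℝ × (ι → ℝ) => D.u3 e1 w p.1 p.2 x) (I ×ˢ Set.univ) := by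
  rw [continuousOn_iff_continuous_restrict]
  have hG := scc_GG hS
  have hp := (scc_pv hS w).matrix_diagonal
  have hv := (scc_vv hS w).matrix_diagonal
  have h6 : Continuous (fun _ : (I ×ˢ Set.univ : Set (ℝ × (ι → ℝ))) => (6 : ℂ)) :=
    continuous_const
  have a1 := ((((((hG.matrix_mul hp).matrix_mul hG).matrix_mul hp).matrix_mul
    hG).matrix_mul hp).matrix_mul hG)
  have a2 := ((((hG.matrix_mul hv).matrix_mul hG).matrix_mul hp).matrix_mul hG)
  have a3 := ((((hG.matrix_mul hp).matrix_mul hG).matrix_mul hv).matrix_mul hG)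
  have h3 : Continuous (fun _ : (I ×ˢ Set.univ : Set (ℝ × (ι → ℝ))) => (3 : ℂ)) :=
    continuous_const
  have key : Continuous (fun q : (I ×ˢ Set.univ : Set (ℝ × (ι → ℝ))) =>
      D.u3 e1 w q.1.1 q.1.2 x) := by
    unfold Fl.u3
    exact ((h6.mul (a1.matrix_elem x x)).neg.add (h3.mul (a2.matrix_elem x x))).add
      (h3.mul (a3.matrix_elem x x))
  exact key

end Pool.Agent.APS
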