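import Pool.Agent.APS.SCWard

/-! # APS3 SCCONTR: the contraction estimate.

`G = (H0 + diag(c - k g))⁻¹`, `G' = (H0 + diag(c' - k' g'))⁻¹`, `Im c = Im c' = -e < 0`, `0 ≤ k ≤ k'`,
`0 < Im g ≤ 1/e`, `0 < Im g' ≤ 1/e`.
Ward (`rsc_ward`): `Im G_xx = ∑_y |G_xy|² (e + k Im g_y)`, and `e ≥ e² Im g_y`, so
`(k + e²) ∑_y |G_xy|² Im g_y ≤ Im G_xx`.  In the same way
`(k + e²) ∑_y |G'_xy|² Im g'_y ≤ (k' + e²) ∑_y |G'_xy|² Im g'_y ≤ Im G'_xx`.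
With `‖u_y‖ ≤ m √(Im g_y Im g'_y)` and Cauchy-Schwarz
`∑_y |G_xy| |G'_xy| ‖u_y‖ ≤ m √(∑ |G_xy|² Im g_y) √(∑ |G'_xy|² Im g'_y) ≤ m √(Im G_xx Im G'_xx)/(k + e²)`.
-/

open Matrix Finset

noncomputable section

namespace Pool.Agent.APS

open Pool.Agent.Kin

variable {ι : Type} [Fintype ι] [DecidableEq ι] {H0 : Matrix ι ι ℂ}

private lemma scc_row (hH : RealSym H0) {k e : ℝ} (hk : 0 ≤ k) (he : 0 < e)
    {c g : ι → ℂ} (hc : ∀ x, (c x).im = -e) (hg : ∀ x, 0 < (g x).im ∧ (g x).im ≤ 1 / e) (x : ι) :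
    (k + e ^ 2) * ∑ y, ‖rsc H0 (fun y => c y - (k : ℂ) * g y) x y‖ ^ 2 * (g y).im ≤
      (rsc H0 (fun y => c y - (k : ℂ) * g y) x x).im := by
  have him : ∀ y, (c y - (k : ℂ) * g y).im = -(e + k * (g y).im) := by
    intro y
    rw [Complex.sub_im, Complex.im_ofReal_mul, hc]
    ring
  have hneg : ∀ y, (c y - (k : ℂ) * g y).im < 0 := by
    intro y
    rw [him]
    have := mul_nonneg hk (hg y).1.le
    linarith
  rw [rsc_ward hH hneg, Finset.mul_sum]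
  refine Finset.sum_le_sum fun y _ => ?_
  rw [him, neg_neg]
  have h1 : e ^ 2 * (g y).im ≤ e := by
    have h2 := (hg y).2
    rw [le_div_iff₀ he] at h2
    calc e ^ 2 * (g y).im = e * ((g y).im * e) := by ring
      _ ≤ e * 1 := mul_le_mul_of_nonneg_left h2 he.le
      _ = e := mul_one e
  have h3 : (k + e ^ 2) * (g y).im ≤ e + k * (g y).im := by linarith
  calc (k + e ^ 2) * (‖rsc H0 (fun y => c y - (k : ℂ) * g y) x y‖ ^ 2 * (g y).im)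
      = ‖rsc H0 (fun y => c y - (k : ℂ) * g y) x y‖ ^ 2 * ((k + e ^ 2) * (g y).im) := by ring
    _ ≤ _ := mul_le_mul_of_nonneg_left h3 (sq_nonneg _)

theorem rsc_contr (hH : RealSym H0) {k k' e : ℝ} (hk : 0 ≤ k) (hk' : k ≤ k') (he : 0 < e)
    {c c' g g' : ι → ℂ} (hc : ∀ x, (c x).im = -e) (hc' : ∀ x, (c' x).im = -e)
    (hg : ∀ x, 0 < (g x).im ∧ (g x).im ≤ 1 / e) (hg' : ∀ x, 0 < (g' x).im ∧ (g' x).im ≤ 1 / e)
    {u : ι → ℂ} {m : ℝ} (hm : 0 ≤ m) (hu : ∀ x, ‖u x‖ ≤ m * √((g x).im * (g' x).im)) (x : ι) :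
    k * ∑ y, ‖rsc H0 (fun y => c y - (k : ℂ) * g y) x y‖ *
        ‖rsc H0 (fun y => c' y - (k' : ℂ) * g' y) x y‖ * ‖u y‖ ≤
      k / (k + e ^ 2) * m * √((rsc H0 (fun y => c y - (k : ℂ) * g y) x x).im *
        (rsc H0 (fun y => c' y - (k' : ℂ) * g' y) x x).im) := by
  set G := rsc H0 (fun y => c y - (k : ℂ) * g y) with hG
  set G' := rsc H0 (fun y => c' y - (k' : ℂ) * g' y) with hG'
  have h1 : (k + e ^ 2) * ∑ y, ‖G x y‖ ^ 2 * (g y).im ≤ (G x x).im :=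
    scc_row hH hk he hc hg x
  have h2' : (k' + e ^ 2) * ∑ y, ‖G' x y‖ ^ 2 * (g' y).im ≤ (G' x x).im :=
    scc_row hH (hk.trans hk') he hc' hg' x
  have hS' : 0 ≤ ∑ y, ‖G' x y‖ ^ 2 * (g' y).im :=
    Finset.sum_nonneg fun y _ => mul_nonneg (sq_nonneg _) (hg' y).1.le
  have hS : 0 ≤ ∑ y, ‖G x y‖ ^ 2 * (g y).im :=
    Finset.sum_nonneg fun y _ => mul_nonneg (sq_nonneg _) (hg y).1.le
  have h2 : (k + e ^ 2) * ∑ y, ‖G' x y‖ ^ 2 * (g' y).im ≤ (G' x x).im :=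
    (mul_le_mul_of_nonneg_right (by linarith) hS').trans h2'
  have hke : 0 < k + e ^ 2 := by positivity
  have h3 : ∑ y, ‖G x y‖ * ‖G' x y‖ * ‖u y‖ ≤
      m * (√(∑ y, ‖G x y‖ ^ 2 * (g y).im) * √(∑ y, ‖G' x y‖ ^ 2 * (g' y).im)) := by
    have e1 : ∑ y, ‖G x y‖ * ‖G' x y‖ * ‖u y‖ ≤
        m * ∑ y, (‖G x y‖ * √((g y).im)) * (‖G' x y‖ * √((g' y).im)) := by
      rw [Finset.mul_sum]
      refine Finset.sum_le_sum fun y _ => ?_
      have e2 := hu y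
      rw [Real.sqrt_mul (hg y).1.le] at e2
      calc ‖G x y‖ * ‖G' x y‖ * ‖u y‖
          ≤ ‖G x y‖ * ‖G' x y‖ * (m * (√((g y).im) * √((g' y).im))) :=
            mul_le_mul_of_nonneg_left e2 (by positivity)
        _ = _ := by ring
    refine e1.trans (mul_le_mul_of_nonneg_left ?_ hm)
    refine (Real.sum_mul_le_sqrt_mul_sqrt _ _ _).trans (le_of_eq ?_)
    congr 2
    · refine Finset.sum_congr rfl fun y _ => ?_
      rw [mul_pow, Real.sq_sqrt (hg y).1.le]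
    · refine Finset.sum_congr rfl fun y _ => ?_
      rw [mul_pow, Real.sq_sqrt (hg' y).1.le]
  have hGx : 0 ≤ (G x x).im := le_trans (by positivity) h1
  have h4 : √(∑ y, ‖G x y‖ ^ 2 * (g y).im) * √(∑ y, ‖G' x y‖ ^ 2 * (g' y).im) ≤
      √((G x x).im * (G' x x).im) / (k + e ^ 2) := by
    rw [← Real.sqrt_mul hS, le_div_iff₀ hke]
    have e3 : k + e ^ 2 = √((k + e ^ 2) ^ 2) := (Real.sqrt_sq hke.le).symm
    rw [e3, ← Real.sqrt_mul (mul_nonneg hS hS')]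
    apply Real.sqrt_le_sqrt
    calc (∑ y, ‖G x y‖ ^ 2 * (g y).im) * (∑ y, ‖G' x y‖ ^ 2 * (g' y).im) * (k + e ^ 2) ^ 2
        = ((k + e ^ 2) * ∑ y, ‖G x y‖ ^ 2 * (g y).im) *
          ((k + e ^ 2) * ∑ y, ‖G' x y‖ ^ 2 * (g' y).im) := by ring
      _ ≤ (G x x).im * (G' x x).im := mul_le_mul h1 h2 (by positivity) hGx
  calc k * ∑ y, ‖G x y‖ * ‖G' x y‖ * ‖u y‖
      ≤ k * (m * (√((G x x).im * (G' x x).im) / (k + e ^ 2))) :=
        mul_le_mul_of_nonneg_left (h3.trans (mul_le_mul_of_nonneg_left h4 hm)) hk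
    _ = _ := by ring

end Pool.Agent.APS
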