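import Pool.Agent.APS.Defs3

/-! # APS3: definitions of the locally self-consistent flow (/team-store/aps3_selfconsistent.md)

`rsc H0 b = (H0 + diag b)⁻¹` for a complex `b` with negative imaginary parts.
`IsSC H0 k c γ`: `γ` has positive imaginary parts and solves `γ_x = [(H0 + diag(c - k γ))⁻¹]_xx`.
`gam H0 k c`: the solution (it exists and is unique if `k ≥ 0` and `Im c_x = -e < 0`).

For `D : Fl ι` and `e1 > 0`: `κ(r) = kp = s (1 - r²) + e1`, `z' = zp = z - e1 g0`,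
`ga = gam H0 κ (h - z')`, `GG = (H0 + h - z' - κ ga)⁻¹`, `RG = GG ∘ GG`, `PG = (1 - κ RG)⁻¹`,
`TG = RG * PG`.
-/

open Matrix Finset

noncomputable section

namespace Pool.Agent.APS

open Pool.Agent.Kin

variable {ι : Type} [Fintype ι] [DecidableEq ι]

/-- `(H0 + diag b)⁻¹` -/
def rsc (H0 : Matrix ι ι ℂ) (b : ι → ℂ) : Matrix ι ι ℂ := (H0 + diagonal b)⁻¹

/-- the entrywise square `G ∘ G` -/
def had2 (G : Matrix ι ι ℂ) : Matrix ι ι ℂ := fun x y => G x y ^ 2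

/-- `γ` is a solution of the self-consistent equation -/
def IsSC (H0 : Matrix ι ι ℂ) (k : ℝ) (c γ : ι → ℂ) : Prop :=
  ∀ x, 0 < (γ x).im ∧ rsc H0 (fun y => c y - (k : ℂ) * γ y) x x = γ x

open Classical in
/-- the solution of the self-consistent equation -/
def gam (H0 : Matrix ι ι ℂ) (k : ℝ) (c : ι → ℂ) : ι → ℂ :=
  if h : ∃ γ, IsSC H0 k c γ then h.choose else 0

/-- all rows of `A` have absolute sum at most `a` -/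
def RowLe (A : Matrix ι ι ℂ) (a : ℝ) : Prop := ∀ x, ∑ y, ‖A x y‖ ≤ a

/-- `A` is bounded below: `‖u‖ ≤ c ‖A u‖` -/
def LowB (A : Matrix ι ι ℂ) (c : ℝ) : Prop :=
  ∀ u : ι → ℂ, ∑ x, ‖u x‖ ^ 2 ≤ c ^ 2 * ∑ x, ‖(A *ᵥ u) x‖ ^ 2

namespace Fl

variable (D : Fl ι) (e1 : ℝ)

omit [Fintype ι] [DecidableEq ι] in
/-- `κ(r) = s (1 - r²) + e1` -/
def kp (D : Fl ι) (e1 r : ℝ) : ℝ := D.s * (1 - r ^ 2) + e1

omit [Fintype ι] [DecidableEq ι] in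
/-- `z' = z - e1 g0` -/
def zp (D : Fl ι) (e1 : ℝ) : ℂ := D.z - (e1 : ℂ) * D.g0

/-- the self-consistent diagonal `γ(r,h)` -/
def ga (r : ℝ) (h : ι → ℝ) : ι → ℂ :=
  gam D.H0 (D.kp e1 r) (fun x => (h x : ℂ) - D.zp e1)

/-- the diagonal `h - z' - κ γ` -/
def bb (r : ℝ) (h : ι → ℝ) : ι → ℂ :=
  fun x => (h x : ℂ) - D.zp e1 - (D.kp e1 r : ℂ) * D.ga e1 r h x

/-- the self-consistent resolvent -/
def GG (r : ℝ) (h : ι → ℝ) : Matrix ι ι ℂ := rsc D.H0 (D.bb e1 r h)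

/-- `1 - κ (G ∘ G)` -/
def KG (r : ℝ) (h : ι → ℝ) : Matrix ι ι ℂ := 1 - (D.kp e1 r : ℂ) • had2 (D.GG e1 r h)

/-- `P = (1 - κ (G ∘ G))⁻¹` -/
def PG (r : ℝ) (h : ι → ℝ) : Matrix ι ι ℂ := (D.KG e1 r h)⁻¹

/-- `T = (G ∘ G) P` -/
def TG (r : ℝ) (h : ι → ℝ) : Matrix ι ι ℂ := had2 (D.GG e1 r h) * D.PG e1 r h

/-- the column `p^w = P e_w` -/
def pv (w : ι) (r : ℝ) (h : ι → ℝ) : ι → ℂ := fun x => D.PG e1 r h x w

/-- `u2^w = diag(G p^w G p^w G)` -/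
def u2 (w : ι) (r : ℝ) (h : ι → ℝ) : ι → ℂ := fun x =>
  (D.GG e1 r h * diagonal (D.pv e1 w r h) * D.GG e1 r h * diagonal (D.pv e1 w r h) *
    D.GG e1 r h) x x

/-- `v^w = ∂_w p^w = -2 κ P u2^w` -/
def vv (w : ι) (r : ℝ) (h : ι → ℝ) : ι → ℂ := fun x =>
  -(2 * (D.kp e1 r : ℂ)) * (D.PG e1 r h *ᵥ D.u2 e1 w r h) x

/-- `u3^w = diag(-6 G p G p G p G + 3 G v G p G + 3 G p G v G)` -/
def u3 (w : ι) (r : ℝ) (h : ι → ℝ) : ι → ℂ := fun x =>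
  -(6 * (D.GG e1 r h * diagonal (D.pv e1 w r h) * D.GG e1 r h * diagonal (D.pv e1 w r h) *
    D.GG e1 r h * diagonal (D.pv e1 w r h) * D.GG e1 r h) x x) +
  3 * (D.GG e1 r h * diagonal (D.vv e1 w r h) * D.GG e1 r h * diagonal (D.pv e1 w r h) *
    D.GG e1 r h) x x +
  3 * (D.GG e1 r h * diagonal (D.pv e1 w r h) * D.GG e1 r h * diagonal (D.vv e1 w r h) *
    D.GG e1 r h) x x

/-- the observable `δ_x = γ_x - g0` with its derivatives -/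
def delO : VObs ι ι where
  f r h x := D.ga e1 r h x - D.g0
  fr r h x := -(2 * (r : ℂ) * (D.s : ℂ)) * (D.TG e1 r h *ᵥ D.ga e1 r h) x
  f1 w r h x := -(D.TG e1 r h x w)
  f2 w r h x := 2 * (D.PG e1 r h *ᵥ D.u2 e1 w r h) x
  f3 w r h x := (D.PG e1 r h *ᵥ D.u3 e1 w r h) x

/-- `A = P² - 1` -/
def AG (r : ℝ) (h : ι → ℝ) : Matrix ι ι ℂ := D.PG e1 r h * D.PG e1 r h - 1

/-- `A ∘ G` -/
def AH (r : ℝ) (h : ι → ℝ) : Matrix ι ι ℂ := fun y z => D.AG e1 r h y z * D.GG e1 r h y z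

/-- `θ' = diag(G (A ∘ G) G)` -/
def thv (r : ℝ) (h : ι → ℝ) : ι → ℂ := fun x => (D.GG e1 r h * D.AH e1 r h * D.GG e1 r h) x x

/-- hypotheses on the interval `I` -/
structure SCI (D : Fl ι) (e1 : ℝ) (I : Set ℝ) : Prop where
  sym : RealSym D.H0
  zim : 0 < (D.zp e1).im
  kpp : ∀ r ∈ I, 0 < D.kp e1 r

/-- The situation at one configuration: `Cfg` for `G`, entries bounded by `√K`, and
`|γ_x - g0| ≤ a` for the self-consistent diagonal. -/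
structure SCfg (D : Fl ι) (e1 C1 rl K a tau r : ℝ) (h : ι → ℝ) : Prop where
  cfg : D.Cfg C1 a tau r h
  rl0 : 0 < rl
  rl1 : rl ≤ D.g0.im
  e0 : 0 < e1
  ez : e1 * D.g0.im ≤ D.z.im / 2
  del : ∀ x, ‖D.ga e1 r h x - D.g0‖ ≤ a
  arl : 4 * C1 * a ≤ rl
  K1 : 1 ≤ K
  ent : ∀ x y, ‖D.G r h x y‖ ^ 2 ≤ K
  a4 : 16 * C1 ^ 3 * a ^ 4 ≤ rl ^ 4 * tau

end Fl

/-- source term of the component `δ` -/
def Bdel (N C1 rl K Pi lam a tau : ℝ) (p : ℕ) : ℝ :=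
  N * ((1000 * p * C1 ^ 2 * Pi * √tau / (rl * a)) ^ (2 * p) +
    (4 * p ^ 2 * (576 * tau + 128 * lam ^ 2 * C1 * K ^ 2 * Pi ^ 6) / a ^ 2) ^ p +
    (500 * p * lam * C1 ^ 2 * K * Pi ^ 5 / (rl * a)) ^ (2 * p))

end Pool.Agent.APS
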