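import Pool.Agent.APS.SCUn

/-! # APS3 SCDER1: continuity and derivative of `gam` along paths.

* `gam_cont`: `sc_lip` (`gam_spec`), the right side tends to `0`.
* `gam_hasDeriv`.  Write `γ(t) = gam H0 (k t) (c t)`, `G(t) = rsc H0 (c t - k(t) γ(t))`, `γ = γ(t0)` etc.
  For `t` near `t0` (`k t > 0`) `rsc_sub` gives exactly
  `γ(t) - γ = (G(t) ∘ G) ((c(t0) - c(t)) + (k(t) - k(t0)) γ(t) + k(t0) (γ(t) - γ))`
  [`b(t0) - b(t) = c(t0) - c(t) - k(t0) γ + k(t) γ(t)`], i.e.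
  `(1 - k(t0) (G(t) ∘ G)) (γ(t) - γ) = (G(t) ∘ G) ((c(t0) - c(t)) + (k(t) - k(t0)) γ(t))`.
  At `t = t0` the matrix on the left is invertible (`sc_unit`) and it is continuous in `t` (`gam_cont`,
  `rsc_cont`), so for `t` near `t0`
  `(γ(t) - γ)/(t - t0) = (1 - k(t0) G(t)∘G)⁻¹ (G(t)∘G) (-(c(t) - c(t0))/(t - t0) + ((k(t) - k(t0))/(t - t0)) γ(t))`
  which tends to `(1 - k R)⁻¹ R (-c' + k' γ)`, `R = G ∘ G`; and `(1 - k R)⁻¹ R = R (1 - k R)⁻¹`.
-/

open Matrix Finset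

noncomputable section

namespace Pool.Agent.APS

open Pool.Agent.Kin Filter Topology

variable {ι : Type} [Fintype ι] [DecidableEq ι] {H0 : Matrix ι ι ℂ}

private theorem sd_inv {X : Type} {l : Filter X} {A : X → Matrix ι ι ℂ} {A0 : Matrix ι ι ℂ}
    (h : Tendsto A l (𝓝 A0)) (h0 : IsUnit A0.det) : Tendsto (fun p => (A p)⁻¹) l (𝓝 A0⁻¹) := by
  have h1 : Tendsto (fun p => (A p).adjugate) l (𝓝 A0.adjugate) :=
    ((continuous_id.matrix_adjugate).tendsto A0).comp h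
  have h2 : Tendsto (fun p => (A p).det) l (𝓝 A0.det) :=
    ((continuous_id.matrix_det).tendsto A0).comp h
  have h3 : Tendsto (fun p => Ring.inverse (A p).det) l (𝓝 (Ring.inverse A0.det)) := by
    simp only [Ring.inverse_eq_inv']
    exact h2.inv₀ h0.ne_zero
  simp only [Matrix.inv_def]
  exact h3.smul h1

private theorem sd_rsc (hH : RealSym H0) {X : Type} {l : Filter X} {b : X → ι → ℂ} {b0 : ι → ℂ}
    (hb : ∀ x, (b0 x).im < 0) (h : ∀ x, Tendsto (fun p => b p x) l (𝓝 (b0 x))) :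
    Tendsto (fun p => rsc H0 (b p)) l (𝓝 (rsc H0 b0)) := by
  have h1 : Tendsto b l (𝓝 b0) := tendsto_pi_nhds.2 h
  have h2 : Tendsto (fun p => (diagonal (b p) : Matrix ι ι ℂ)) l (𝓝 (diagonal b0)) :=
    ((continuous_id.matrix_diagonal).tendsto b0).comp h1
  exact sd_inv (h2.const_add H0) (rsc_unit hH hb)

private theorem sd_gam (hH : RealSym H0) {X : Type} {l : Filter X} {e k0 : ℝ} (he : 0 < e)
    {k : X → ℝ} {c : X → ι → ℂ} {c0 : ι → ℂ} (hk : ∀ᶠ p in l, 0 ≤ k p) (hk0 : 0 ≤ k0)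
    (hc : ∀ᶠ p in l, ∀ x, (c p x).im = -e) (hc0 : ∀ x, (c0 x).im = -e)
    (hkl : Tendsto k l (𝓝 k0)) (hcl : ∀ x, Tendsto (fun p => c p x) l (𝓝 (c0 x))) (x : ι) :
    Tendsto (fun p => gam H0 (k p) (c p) x) l (𝓝 (gam H0 k0 c0 x)) := by
  rw [tendsto_iff_norm_sub_tendsto_zero]
  have h1 : Tendsto (fun p => (k p + k0 + e ^ 2) / e ^ 4 *
      ((∑ x, ‖c p x - c0 x‖) + |k p - k0| / e)) l
      (𝓝 ((k0 + k0 + e ^ 2) / e ^ 4 * ((∑ x, ‖c0 x - c0 x‖) + |k0 - k0| / e))) := by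
    refine ((((hkl.add_const _).add_const _)).div_const _).mul
      ((tendsto_finsetSum _ fun x _ => ((hcl x).sub_const _).norm).add
        (((hkl.sub_const _).abs).div_const _))
  have h2 : (k0 + k0 + e ^ 2) / e ^ 4 * ((∑ x, ‖c0 x - c0 x‖) + |k0 - k0| / e) = 0 := by
    simp
  rw [h2] at h1
  refine squeeze_zero' (Eventually.of_forall fun _ => norm_nonneg _) ?_ h1
  filter_upwards [hk, hc] with p hp hcp
  exact sc_lip hH hp hk0 he hcp hc0 (gam_spec hH hp he hcp) (gam_spec hH hk0 he hc0)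
    (fun y => Finset.single_le_sum (f := fun y => ‖c p y - c0 y‖) (fun _ _ => norm_nonneg _)
      (Finset.mem_univ y)) x

theorem gam_cont (hH : RealSym H0) {X : Type} [TopologicalSpace X] {S : Set X} {e : ℝ}
    (he : 0 < e) (k : X → ℝ) (c : X → ι → ℂ) (hk : ∀ p ∈ S, 0 ≤ k p)
    (hc : ∀ p ∈ S, ∀ x, (c p x).im = -e) (hkc : ContinuousOn k S)
    (hcc : ∀ x, ContinuousOn (fun p => c p x) S) (x : ι) :
    ContinuousOn (fun p => gam H0 (k p) (c p) x) S := by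
  intro p0 hp0
  exact sd_gam hH he (eventually_nhdsWithin_of_forall hk) (hk p0 hp0)
    (eventually_nhdsWithin_of_forall hc) (hc p0 hp0) (hkc p0 hp0) (fun x => hcc x p0 hp0) x

theorem gam_hasDeriv (hH : RealSym H0) {e : ℝ} (he : 0 < e) (k : ℝ → ℝ) (c : ℝ → ι → ℂ)
    {k' t0 : ℝ} {c' : ι → ℂ} (hk0 : 0 < k t0) (hc : ∀ t x, (c t x).im = -e)
    (hk : HasDerivAt k k' t0) (hcd : ∀ x, HasDerivAt (fun t => c t x) (c' x) t0) (x : ι) :
    HasDerivAt (fun t => gam H0 (k t) (c t) x)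
      (((had2 (rsc H0 (fun y => c t0 y - (k t0 : ℂ) * gam H0 (k t0) (c t0) y)) *
        (1 - (k t0 : ℂ) • had2 (rsc H0 (fun y => c t0 y -
          (k t0 : ℂ) * gam H0 (k t0) (c t0) y)))⁻¹) *ᵥ
        (fun y => (k' : ℂ) * gam H0 (k t0) (c t0) y - c' y)) x) t0 := by
  set γ : ℝ → ι → ℂ := fun t => gam H0 (k t) (c t) with hγ
  set b : ℝ → ι → ℂ := fun t y => c t y - (k t : ℂ) * γ t y with hb
  set G : ℝ → Matrix ι ι ℂ := fun t => rsc H0 (b t) with hG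
  set R : ℝ → Matrix ι ι ℂ := fun t x y => G t x y * G t0 x y with hR
  set M : ℝ → Matrix ι ι ℂ := fun t => 1 - (k t0 : ℂ) • R t with hM
  have hR0 : R t0 = had2 (rsc H0 (fun y => c t0 y - (k t0 : ℂ) * gam H0 (k t0) (c t0) y)) := by
    funext x y
    simp only [hR, hG, hb, hγ, had2]
    ring
  have hkpos : ∀ᶠ t in 𝓝[≠] t0, 0 < k t :=
    (hk.continuousAt.eventually (lt_mem_nhds hk0)).filter_mono nhdsWithin_le_nhds
  have hkt : Tendsto k (𝓝[≠] t0) (𝓝 (k t0)) := hk.continuousAt.tendsto.mono_left nhdsWithin_le_nhds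
  have hct : ∀ x, Tendsto (fun t => c t x) (𝓝[≠] t0) (𝓝 (c t0 x)) := fun x =>
    (hcd x).continuousAt.tendsto.mono_left nhdsWithin_le_nhds
  have hγt : ∀ x, Tendsto (fun t => γ t x) (𝓝[≠] t0) (𝓝 (γ t0 x)) := fun x =>
    sd_gam hH he (hkpos.mono fun _ h => h.le) hk0.le (Eventually.of_forall fun t => hc t) (hc t0)
      hkt hct x
  have hkC : Tendsto (fun t => (k t : ℂ)) (𝓝[≠] t0) (𝓝 (k t0 : ℂ)) :=
    (Complex.continuous_ofReal.tendsto _).comp hkt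
  have hbt : ∀ x, Tendsto (fun t => b t x) (𝓝[≠] t0) (𝓝 (b t0 x)) := fun x =>
    (hct x).sub (hkC.mul (hγt x))
  have hspec : ∀ t, 0 ≤ k t → IsSC H0 (k t) (c t) (γ t) := fun t ht => gam_spec hH ht he (hc t)
  have hbn : ∀ t, 0 ≤ k t → ∀ x, (b t x).im < 0 := by
    intro t ht x
    have h1 := (hspec t ht x).1
    simp only [hb, Complex.sub_im, Complex.mul_im, Complex.ofReal_re, Complex.ofReal_im, hc]
    have h2 : 0 ≤ k t * (γ t x).im := mul_nonneg ht h1.le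
    linarith
  have hGt : Tendsto G (𝓝[≠] t0) (𝓝 (G t0)) := sd_rsc hH (hbn t0 hk0.le) hbt
  have hGe : ∀ x y, Tendsto (fun t => G t x y) (𝓝[≠] t0) (𝓝 (G t0 x y)) := fun x y =>
    (tendsto_pi_nhds.1 ((tendsto_pi_nhds.1 hGt) x)) y
  have hRt : Tendsto R (𝓝[≠] t0) (𝓝 (R t0)) :=
    tendsto_pi_nhds.2 fun x => tendsto_pi_nhds.2 fun y => (hGe x y).mul_const _
  have hMt : Tendsto M (𝓝[≠] t0) (𝓝 (M t0)) := (hRt.const_smul _).const_sub _
  have hMu : IsUnit (M t0).det := by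
    have := sc_unit hH hk0.le he (hc t0) (hspec t0 hk0.le)
    simp only [hM, hR0]
    exact this
  have hMi : Tendsto (fun t => (M t)⁻¹) (𝓝[≠] t0) (𝓝 (M t0)⁻¹) := sd_inv hMt hMu
  have hdet : ∀ᶠ t in 𝓝[≠] t0, (M t).det ≠ 0 := by
    have h2 : Tendsto (fun t => (M t).det) (𝓝[≠] t0) (𝓝 (M t0).det) :=
      ((continuous_id.matrix_det).tendsto (M t0)).comp hMt
    exact h2.eventually_ne hMu.ne_zero
  -- the difference quotients
  set v : ℝ → ι → ℂ := fun t y => ((slope k t0 t : ℝ) : ℂ) * γ t y - slope (fun t => c t y) t0 t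
    with hv
  have hvt : Tendsto v (𝓝[≠] t0) (𝓝 (fun y => (k' : ℂ) * γ t0 y - c' y)) := by
    refine tendsto_pi_nhds.2 fun y => ?_
    have h1 := hasDerivAt_iff_tendsto_slope.1 hk
    have h2 := hasDerivAt_iff_tendsto_slope.1 (hcd y)
    exact (((Complex.continuous_ofReal.tendsto _).comp h1).mul (hγt y)).sub h2
  have hlim : Tendsto (fun t => (((M t)⁻¹ * R t) *ᵥ v t) x) (𝓝[≠] t0)
      (𝓝 ((((M t0)⁻¹ * R t0) *ᵥ (fun y => (k' : ℂ) * γ t0 y - c' y)) x)) := by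
    have h1 : Tendsto (fun t => (M t)⁻¹ * R t) (𝓝[≠] t0) (𝓝 ((M t0)⁻¹ * R t0)) := hMi.mul hRt
    have h2 : ∀ x y, Tendsto (fun t => ((M t)⁻¹ * R t) x y) (𝓝[≠] t0)
        (𝓝 (((M t0)⁻¹ * R t0) x y)) := fun x y =>
      (tendsto_pi_nhds.1 ((tendsto_pi_nhds.1 h1) x)) y
    simp only [Matrix.mulVec, dotProduct]
    exact tendsto_finsetSum _ fun y _ => (h2 x y).mul ((tendsto_pi_nhds.1 hvt) y)
  have hcomm : (M t0)⁻¹ * R t0 = R t0 * (M t0)⁻¹ := by
    have h1 : M t0 * R t0 = R t0 * M t0 := by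
      simp only [hM, sub_mul, mul_sub, one_mul, mul_one, Matrix.smul_mul, Matrix.mul_smul]
    calc (M t0)⁻¹ * R t0 = (M t0)⁻¹ * (R t0 * M t0) * (M t0)⁻¹ := by
          rw [Matrix.mul_assoc, Matrix.mul_assoc, Matrix.mul_nonsing_inv _ hMu, Matrix.mul_one]
      _ = (M t0)⁻¹ * (M t0 * R t0) * (M t0)⁻¹ := by rw [h1]
      _ = R t0 * (M t0)⁻¹ := by
          rw [← Matrix.mul_assoc (M t0)⁻¹, Matrix.nonsing_inv_mul _ hMu, Matrix.one_mul]
  rw [hasDerivAt_iff_tendsto_slope, ← hR0]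
  have hgoal : R t0 * (1 - (k t0 : ℂ) • R t0)⁻¹ = (M t0)⁻¹ * R t0 := hcomm.symm
  rw [hgoal]
  refine hlim.congr' ?_
  filter_upwards [hkpos, hdet, self_mem_nhdsWithin] with t htk htd htne
  have htne' : t - t0 ≠ 0 := sub_ne_zero.2 htne
  have htC : ((t - t0 : ℝ) : ℂ) ≠ 0 := by exact_mod_cast htne'
  have hdiff : ∀ z, γ t z - γ t0 z = ∑ y, R t z y * (b t0 y - b t y) := by
    intro z
    have h1 := (hspec t htk.le z).2
    have h2 := (hspec t0 hk0.le z).2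
    have h3 := congrFun (congrFun (rsc_sub hH (hbn t htk.le) (hbn t0 hk0.le)) z) z
    rw [Matrix.sub_apply] at h3
    have h4 : rsc H0 (b t) z z = γ t z := h1
    have h5 : rsc H0 (b t0) z z = γ t0 z := h2
    rw [h4, h5] at h3
    rw [h3, Matrix.mul_apply]
    refine Finset.sum_congr rfl fun y _ => ?_
    rw [Matrix.mul_diagonal, rsc_symm hH (b t0) y z]
    simp only [hR, hG]
    ring
  have hM1 : (M t) *ᵥ (fun z => γ t z - γ t0 z) =
      (R t) *ᵥ (fun y => ((t - t0 : ℝ) : ℂ) * v t y) := by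
    funext z
    simp only [hM]
    rw [Matrix.sub_mulVec, Matrix.one_mulVec, Pi.sub_apply, Matrix.smul_mulVec, Pi.smul_apply,
      smul_eq_mul, hdiff z]
    simp only [Matrix.mulVec, dotProduct]
    rw [Finset.mul_sum, ← Finset.sum_sub_distrib]
    refine Finset.sum_congr rfl fun y _ => ?_
    have e1 : ((t - t0 : ℝ) : ℂ) * v t y =
        ((k t : ℂ) - (k t0 : ℂ)) * γ t y - (c t y - c t0 y) := by
      have s1 : ((t - t0 : ℝ) : ℂ) * ((slope k t0 t : ℝ) : ℂ) = (k t : ℂ) - (k t0 : ℂ) := by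
        rw [slope_def_field]
        push_cast
        push_cast at htC
        field_simp
      have s2 : ((t - t0 : ℝ) : ℂ) * slope (fun t => c t y) t0 t = c t y - c t0 y := by
        rw [slope_def_module, ← Complex.coe_smul, smul_eq_mul]
        push_cast
        push_cast at htC
        field_simp
      simp only [hv]
      rw [mul_sub, ← mul_assoc, s1, s2]
    rw [e1]
    simp only [hb]
    ring
  have hMt2 : (fun z => γ t z - γ t0 z) =
      ((M t)⁻¹ * R t) *ᵥ (fun y => ((t - t0 : ℝ) : ℂ) * v t y) := by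
    rw [← Matrix.mulVec_mulVec, ← hM1, Matrix.mulVec_mulVec,
      Matrix.nonsing_inv_mul _ (isUnit_iff_ne_zero.2 htd), Matrix.one_mulVec]
  have h3 := congrFun hMt2 x
  have h4 : (((M t)⁻¹ * R t) *ᵥ (fun y => ((t - t0 : ℝ) : ℂ) * v t y)) x =
      ((t - t0 : ℝ) : ℂ) * ((((M t)⁻¹ * R t) *ᵥ v t) x) := by
    simp only [Matrix.mulVec, dotProduct]
    rw [Finset.mul_sum]
    exact Finset.sum_congr rfl fun y _ => by ring
  rw [h4] at h3
  rw [slope_def_module]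
  have h5 : gam H0 (k t) (c t) x - gam H0 (k t0) (c t0) x =
      ((t - t0 : ℝ) : ℂ) * ((((M t)⁻¹ * R t) *ᵥ v t) x) := h3
  rw [h5, ← Complex.coe_smul, smul_eq_mul, ← mul_assoc]
  push_cast
  push_cast at htC
  rw [inv_mul_cancel₀ htC, one_mul]

end Pool.Agent.APS
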