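import Pool.Agent.APS.SCCont

/-! # APS3 SCDER2: derivatives of the self-consistent flow in `h_w`.

Everything at the configuration `h^t = update h w t`, `r` fixed, `κ = κ(r)`, `R = G∘G`, `p = p^w = P e_w`,
`v = v^w = -2κ P u2`.
* `ga_d1`: `gam_hasDeriv` with `k` constant, `c' = e_w`: `γ' = -(T e_w)`.
* `GG_d1`: `rsc_hasDeriv`: `b' = e_w - κ γ' = e_w + κ T e_w = P e_w = p` (`PG_eq`): `G' = -G p G`.
* `PG_d1`: `P' = P (κ R') P`, `R' = 2 G ∘ G' = -2 G∘(G p G)` (derivative of the inverse of `KG`).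
* `pv_d1`: `p'_x = (P')_xw = (κ P R' p)_x`, and `(R' p)_x = -2 ∑_y G_xy (G p G)_xy p_y = -2 (G p G p G)_xx = -2 u2_x`
  (`G` symmetric): `p' = v`.
* `TG_d1`: `κ T = P - 1` and `κ > 0`: `T' e_w = v/κ = -2 P u2`; so `-(T e_w)' = 2 P u2`.
* `f2_d1`: `(2 P u2)' = 2 P κ R' (P u2) + 2 P u2'`.  `2 κ P R' (P u2) = -P R' v` and
  `(R' v)_x = -2 (G p G v G)_xx`, so the first term is `2 P diag(G p G v G)`;
  `u2' = diag((G p G p G)') = diag(-3 G p G p G p G + G v G p G + G p G v G)`, and
  `diag(G v G p G) = diag(G p G v G)` by symmetry.  The sum is `P u3`.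
-/

open Matrix Finset

noncomputable section

namespace Pool.Agent.APS

open Pool.Agent.Kin

variable {ι : Type} [Fintype ι] [DecidableEq ι] {D : Fl ι} {e1 r : ℝ} {I : Set ℝ}

private def MD (J : ℝ → Matrix ι ι ℂ) (J' : Matrix ι ι ℂ) (t : ℝ) : Prop :=
  ∀ x y, HasDerivAt (fun s => J s x y) (J' x y) t

omit [DecidableEq ι] in
private lemma md_mul {A B : ℝ → Matrix ι ι ℂ} {A' B' : Matrix ι ι ℂ} {t : ℝ}
    (hA : MD A A' t) (hB : MD B B' t) : MD (fun s => A s * B s) (A' * B t + A t * B') t := by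
  intro x y
  have h : HasDerivAt (fun s => ∑ z, A s x z * B s z y)
      (∑ z, (A' x z * B t z y + A t x z * B' z y)) t := by
    apply HasDerivAt.fun_sum
    intro z _
    exact (hA x z).mul (hB z y)
  have e : (A' * B t + A t * B') x y = ∑ z, (A' x z * B t z y + A t x z * B' z y) := by
    rw [Matrix.add_apply, Matrix.mul_apply, Matrix.mul_apply, Finset.sum_add_distrib]
  rw [e]
  exact h

omit [Fintype ι] in
private lemma md_diag {b : ℝ → ι → ℂ} {b' : ι → ℂ} {t : ℝ}
    (hb : ∀ x, HasDerivAt (fun s => b s x) (b' x) t) :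
    MD (fun s => diagonal (b s)) (diagonal b') t := by
  intro x y
  by_cases hxy : x = y
  · subst hxy
    simp only [diagonal_apply_eq]
    exact hb x
  · simp only [diagonal_apply_ne _ hxy]
    exact hasDerivAt_const t 0

section Inv

private lemma md_abs {R : Type*} [NormedRing R] [NormedAlgebra ℝ R] [CompleteSpace R]
    (f : ℝ → R) (f' : R) (u : Rˣ) (t : ℝ) (hu : (u : R) = f t) (hf : HasDerivAt f f' t)
    (φ : R →L[ℝ] ℂ) :
    HasDerivAt (fun s : ℝ => φ (Ring.inverse (f s)))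
      (-(φ ((↑u⁻¹ : R) * f' * (↑u⁻¹ : R)))) t := by
  have hI := hasFDerivAt_ringInverse (𝕜 := ℝ) u
  rw [hu] at hI
  have hc := HasFDerivAt.comp_hasDerivAt t (l := Ring.inverse) (f := f) hI hf
  have h3 := φ.hasFDerivAt.comp_hasDerivAt t hc
  have h5 : φ ((-((ContinuousLinearMap.mulLeftRight ℝ R) (↑u⁻¹ : R)) (↑u⁻¹ : R)) f') =
      -(φ ((↑u⁻¹ : R) * f' * (↑u⁻¹ : R))) := by
    rw [_root_.neg_apply, ContinuousLinearMap.mulLeftRight_apply, map_neg]
  rw [← h5]
  exact h3

attribute [local instance] Matrix.linftyOpNormedRing Matrix.linftyOpNormedAlgebra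

private lemma md_inv {A : ℝ → Matrix ι ι ℂ} {A' : Matrix ι ι ℂ} {t : ℝ}
    (hA : ∀ x y, HasDerivAt (fun s => A s x y) (A' x y) t) (hu : IsUnit (A t).det) (x y : ι) :
    HasDerivAt (fun s => (A s)⁻¹ x y) (-(((A t)⁻¹ * A' * (A t)⁻¹) x y)) t := by
  have h1 : HasDerivAt (fun s => (fun i j => A s i j : ι → ι → ℂ)) (fun i j => A' i j) t := by
    rw [hasDerivAt_pi]
    intro i
    rw [hasDerivAt_pi]
    intro j
    exact hA i j
  have h2 := (LinearMap.toContinuousLinearMap
    ((Matrix.ofLinearEquiv ℝ : (ι → ι → ℂ) ≃ₗ[ℝ] Matrix ι ι ℂ) :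
      (ι → ι → ℂ) →ₗ[ℝ] Matrix ι ι ℂ)).hasFDerivAt.comp_hasDerivAt t h1
  have h3 : HasDerivAt A A' t := h2
  have h := md_abs (R := Matrix ι ι ℂ) A A'
    ⟨A t, (A t)⁻¹, Matrix.mul_nonsing_inv _ hu, Matrix.nonsing_inv_mul _ hu⟩ t rfl h3
    (LinearMap.toContinuousLinearMap (Matrix.entryLinearMap ℝ ℂ x y))
  simp only [← Matrix.nonsing_inv_eq_ringInverse] at h
  exact h

end Inv

omit [Fintype ι] in
private lemma upd_deriv (h : ι → ℝ) (w : ι) (t : ℝ) (z : ℂ) (x : ι) :
    HasDerivAt (fun s : ℝ => ((Function.update h w s x : ℝ) : ℂ) - z)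
      ((if x = w then 1 else 0 : ℂ)) t := by
  by_cases hx : x = w
  · subst hx
    simp only [Function.update_self, if_true]
    exact (Complex.ofRealCLM.hasDerivAt (x := t)).sub_const z
  · simp only [Function.update_of_ne hx, if_neg hx]
    exact hasDerivAt_const t _

theorem ga_d1 (hS : D.SCI e1 I) (hr : r ∈ I) (h : ι → ℝ) (w : ι) (t : ℝ) (x : ι) :
    HasDerivAt (fun t : ℝ => D.ga e1 r (Function.update h w t) x)
      (-(D.TG e1 r (Function.update h w t) x w)) t := by
  have h1 := gam_hasDeriv (H0 := D.H0) hS.sym (e := (D.zp e1).im) hS.zim (fun _ => D.kp e1 r)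
    (fun s y => ((Function.update h w s y : ℝ) : ℂ) - D.zp e1) (k' := 0) (t0 := t)
    (c' := fun y => if y = w then 1 else 0) (hS.kpp r hr)
    (fun s y => by simp) (hasDerivAt_const t _) (fun y => upd_deriv h w t _ y) x
  have e : ((had2 (rsc D.H0 (fun y => (((Function.update h w t y : ℝ) : ℂ) - D.zp e1) -
        (D.kp e1 r : ℂ) * gam D.H0 (D.kp e1 r)
          (fun y => ((Function.update h w t y : ℝ) : ℂ) - D.zp e1) y)) *
        (1 - (D.kp e1 r : ℂ) • had2 (rsc D.H0 (fun y =>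
          (((Function.update h w t y : ℝ) : ℂ) - D.zp e1) -
          (D.kp e1 r : ℂ) * gam D.H0 (D.kp e1 r)
          (fun y => ((Function.update h w t y : ℝ) : ℂ) - D.zp e1) y)))⁻¹) *ᵥ
        (fun y => ((0 : ℝ) : ℂ) * gam D.H0 (D.kp e1 r)
          (fun y => ((Function.update h w t y : ℝ) : ℂ) - D.zp e1) y -
          (if y = w then 1 else 0))) x =
      -(D.TG e1 r (Function.update h w t) x w) := by
    change (D.TG e1 r (Function.update h w t) *ᵥ _) x = _
    rw [Matrix.mulVec, dotProduct]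
    rw [Finset.sum_eq_single w]
    · simp
    · intro b _ hb
      simp [hb]
    · intro hw
      exact absurd (Finset.mem_univ w) hw
  rw [← e]
  exact h1

private lemma bb_d1 (hS : D.SCI e1 I) (hr : r ∈ I) (h : ι → ℝ) (w : ι) (t : ℝ) (x : ι) :
    HasDerivAt (fun t : ℝ => D.bb e1 r (Function.update h w t) x)
      (D.pv e1 w r (Function.update h w t) x) t := by
  have h1 := (upd_deriv h w t (D.zp e1) x).sub ((ga_d1 hS hr h w t x).const_mul (D.kp e1 r : ℂ))
  have e : (if x = w then 1 else 0 : ℂ) -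
      (D.kp e1 r : ℂ) * (-(D.TG e1 r (Function.update h w t) x w)) =
      D.pv e1 w r (Function.update h w t) x := by
    unfold Fl.pv
    rw [PG_eq hS hr, Matrix.add_apply, Matrix.one_apply, Matrix.smul_apply, smul_eq_mul]
    ring
  rw [← e]
  exact h1

theorem GG_d1 (hS : D.SCI e1 I) (hr : r ∈ I) (h : ι → ℝ) (w : ι) (t : ℝ) (x y : ι) :
    HasDerivAt (fun t : ℝ => D.GG e1 r (Function.update h w t) x y)
      (-(D.GG e1 r (Function.update h w t) *
        diagonal (D.pv e1 w r (Function.update h w t)) *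
        D.GG e1 r (Function.update h w t)) x y) t := by
  exact rsc_hasDeriv (H0 := D.H0) hS.sym (fun s => D.bb e1 r (Function.update h w s))
    (fun x => bb_neg hS hr _ x) (fun x => bb_d1 hS hr h w t x) x y

/-- the derivative `R' = -2 G∘(G p G)` -/
private def RP (G : Matrix ι ι ℂ) (p : ι → ℂ) : Matrix ι ι ℂ :=
  fun x y => 2 * G x y * (-(G * diagonal p * G) x y)

private lemma RP_mulVec {G : Matrix ι ι ℂ} (hG : ∀ x y, G x y = G y x) (p v : ι → ℂ) (x : ι) :
    (RP G p *ᵥ v) x = -(2 * (G * diagonal p * G * diagonal v * G) x x) := by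
  rw [Matrix.mulVec, dotProduct, Matrix.mul_apply, Finset.mul_sum, ← Finset.sum_neg_distrib]
  refine Finset.sum_congr rfl fun y _ => ?_
  rw [Matrix.mul_diagonal, hG y x]
  unfold RP
  ring

private lemma diag_swap {G : Matrix ι ι ℂ} (hG : ∀ x y, G x y = G y x) (p v : ι → ℂ) (x : ι) :
    (G * diagonal p * G * diagonal v * G) x x = (G * diagonal v * G * diagonal p * G) x x := by
  have hT : Gᵀ = G := by
    ext a b
    rw [Matrix.transpose_apply, hG]
  have h1 : (G * diagonal p * G * diagonal v * G)ᵀ = G * diagonal v * G * diagonal p * G := by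
    simp only [Matrix.transpose_mul, Matrix.diagonal_transpose, hT, Matrix.mul_assoc]
  rw [← h1, Matrix.transpose_apply]

private lemma KG_d1 (hS : D.SCI e1 I) (hr : r ∈ I) (h : ι → ℝ) (w : ι) (t : ℝ) (x y : ι) :
    HasDerivAt (fun t : ℝ => D.KG e1 r (Function.update h w t) x y)
      ((-((D.kp e1 r : ℂ) • RP (D.GG e1 r (Function.update h w t))
        (D.pv e1 w r (Function.update h w t)))) x y) t := by
  have h1 := (((GG_d1 hS hr h w t x y).pow 2).const_mul (D.kp e1 r : ℂ)).const_sub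
    ((1 : Matrix ι ι ℂ) x y)
  refine h1.congr_deriv ?_
  unfold RP
  simp only [Matrix.neg_apply, Matrix.smul_apply, smul_eq_mul]
  push_cast
  ring

private lemma PG_d1 (hS : D.SCI e1 I) (hr : r ∈ I) (h : ι → ℝ) (w : ι) (t : ℝ) (x y : ι) :
    HasDerivAt (fun t : ℝ => D.PG e1 r (Function.update h w t) x y)
      ((D.PG e1 r (Function.update h w t) * ((D.kp e1 r : ℂ) •
        RP (D.GG e1 r (Function.update h w t)) (D.pv e1 w r (Function.update h w t))) *
        D.PG e1 r (Function.update h w t)) x y) t := by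
  have h1 := md_inv (A := fun s => D.KG e1 r (Function.update h w s))
    (fun a b => KG_d1 hS hr h w t a b) (KG_unit hS hr _) x y
  refine h1.congr_deriv ?_
  rw [Matrix.mul_neg, Matrix.neg_mul, Matrix.neg_apply, neg_neg]
  rfl

theorem pv_d1 (hS : D.SCI e1 I) (hr : r ∈ I) (h : ι → ℝ) (w : ι) (t : ℝ) (x : ι) :
    HasDerivAt (fun t : ℝ => D.pv e1 w r (Function.update h w t) x)
      (D.vv e1 w r (Function.update h w t) x) t := by
  refine (PG_d1 hS hr h w t x w).congr_deriv ?_
  obtain ⟨H, hH⟩ : ∃ H, H = Function.update h w t := ⟨_, rfl⟩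
  rw [← hH]
  have e1' : (D.PG e1 r H * ((D.kp e1 r : ℂ) • RP (D.GG e1 r H) (D.pv e1 w r H)) *
      D.PG e1 r H) x w =
      (D.PG e1 r H *ᵥ (((D.kp e1 r : ℂ) • RP (D.GG e1 r H) (D.pv e1 w r H)) *ᵥ
        (D.pv e1 w r H))) x := by
    rw [Matrix.mulVec_mulVec]
    rfl
  rw [e1', Matrix.smul_mulVec, Matrix.mulVec_smul, Pi.smul_apply, smul_eq_mul]
  have e2 : RP (D.GG e1 r H) (D.pv e1 w r H) *ᵥ D.pv e1 w r H = (-2 : ℂ) • D.u2 e1 w r H := by
    funext y
    rw [RP_mulVec (fun a b => GG_symm hS r H a b), Pi.smul_apply, smul_eq_mul]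
    unfold Fl.u2
    ring
  rw [e2, Matrix.mulVec_smul, Pi.smul_apply, smul_eq_mul]
  unfold Fl.vv
  ring

theorem TG_d1 (hS : D.SCI e1 I) (hr : r ∈ I) (h : ι → ℝ) (w : ι) (t : ℝ) (x : ι) :
    HasDerivAt (fun t : ℝ => -(D.TG e1 r (Function.update h w t) x w))
      (2 * (D.PG e1 r (Function.update h w t) *ᵥ
        D.u2 e1 w r (Function.update h w t)) x) t := by
  have hk : (D.kp e1 r : ℂ) ≠ 0 := by
    have := hS.kpp r hr
    exact_mod_cast this.ne'
  have h1 := ((pv_d1 hS hr h w t x).sub_const ((1 : Matrix ι ι ℂ) x w)).const_mul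
    (-(D.kp e1 r : ℂ)⁻¹)
  have e : (fun s : ℝ => -(D.TG e1 r (Function.update h w s) x w)) =
      fun s => -(D.kp e1 r : ℂ)⁻¹ * (D.pv e1 w r (Function.update h w s) x -
        (1 : Matrix ι ι ℂ) x w) := by
    funext s
    unfold Fl.pv
    rw [PG_eq hS hr, Matrix.add_apply, Matrix.smul_apply, smul_eq_mul]
    field_simp
    ring
  rw [e]
  refine h1.congr_deriv ?_
  unfold Fl.vv
  field_simp

private lemma u2_d1 (hS : D.SCI e1 I) (hr : r ∈ I) (h : ι → ℝ) (w : ι) (t : ℝ) (x : ι) :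
    HasDerivAt (fun t : ℝ => D.u2 e1 w r (Function.update h w t) x)
      (-(3 * (D.GG e1 r (Function.update h w t) *
        diagonal (D.pv e1 w r (Function.update h w t)) * D.GG e1 r (Function.update h w t) *
        diagonal (D.pv e1 w r (Function.update h w t)) * D.GG e1 r (Function.update h w t) *
        diagonal (D.pv e1 w r (Function.update h w t)) *
        D.GG e1 r (Function.update h w t)) x x) +
      2 * (D.GG e1 r (Function.update h w t) *
        diagonal (D.vv e1 w r (Function.update h w t)) * D.GG e1 r (Function.update h w t) *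
        diagonal (D.pv e1 w r (Function.update h w t)) *
        D.GG e1 r (Function.update h w t)) x x) t := by
  have hG : MD (fun s => D.GG e1 r (Function.update h w s))
      (-(D.GG e1 r (Function.update h w t) *
        diagonal (D.pv e1 w r (Function.update h w t)) *
        D.GG e1 r (Function.update h w t))) t := fun a b => by
    have := GG_d1 hS hr h w t a b
    exact this
  have hp : MD (fun s => diagonal (D.pv e1 w r (Function.update h w s)))
      (diagonal (D.vv e1 w r (Function.update h w t))) t :=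
    md_diag (fun a => pv_d1 hS hr h w t a)
  have h1 := md_mul (md_mul (md_mul (md_mul hG hp) hG) hp) hG
  refine (h1 x x).congr_deriv ?_
  have hs := diag_swap (fun a b => GG_symm hS r (Function.update h w t) a b)
    (D.pv e1 w r (Function.update h w t)) (D.vv e1 w r (Function.update h w t)) x
  obtain ⟨G, hGG⟩ : ∃ G, G = D.GG e1 r (Function.update h w t) := ⟨_, rfl⟩
  obtain ⟨p, hpp⟩ : ∃ p, p = D.pv e1 w r (Function.update h w t) := ⟨_, rfl⟩
  obtain ⟨v, hvv⟩ : ∃ v, v = D.vv e1 w r (Function.update h w t) := ⟨_, rfl⟩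
  rw [← hGG, ← hpp, ← hvv] at hs ⊢
  have e : ((((-(G * diagonal p * G)) * diagonal p + G * diagonal v) * G +
      G * diagonal p * (-(G * diagonal p * G))) * diagonal p +
      G * diagonal p * G * diagonal v) * G +
      G * diagonal p * G * diagonal p * (-(G * diagonal p * G)) =
      -((3 : ℂ) • (G * diagonal p * G * diagonal p * G * diagonal p * G)) +
      (G * diagonal v * G * diagonal p * G + G * diagonal p * G * diagonal v * G) := by
    have h3 : (3 : ℂ) • (G * diagonal p * G * diagonal p * G * diagonal p * G) =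
        G * diagonal p * G * diagonal p * G * diagonal p * G +
        G * diagonal p * G * diagonal p * G * diagonal p * G +
        G * diagonal p * G * diagonal p * G * diagonal p * G := by
      rw [show (3 : ℂ) = 1 + 1 + 1 by norm_num, add_smul, add_smul, one_smul]
    rw [h3]
    noncomm_ring
  rw [e]
  simp only [Matrix.add_apply, Matrix.neg_apply, Matrix.smul_apply, smul_eq_mul]
  rw [hs]
  ring

theorem f2_d1 (hS : D.SCI e1 I) (hr : r ∈ I) (h : ι → ℝ) (w : ι) (t : ℝ) (x : ι) :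
    HasDerivAt (fun t : ℝ => 2 * (D.PG e1 r (Function.update h w t) *ᵥ
        D.u2 e1 w r (Function.update h w t)) x)
      ((D.PG e1 r (Function.update h w t) *ᵥ D.u3 e1 w r (Function.update h w t)) x) t := by
  have h1 : HasDerivAt (fun s : ℝ => ∑ y, D.PG e1 r (Function.update h w s) x y *
      D.u2 e1 w r (Function.update h w s) y) _ t :=
    HasDerivAt.fun_sum (fun y _ => (PG_d1 hS hr h w t x y).mul (u2_d1 hS hr h w t y))
  refine (h1.const_mul (2 : ℂ)).congr_deriv ?_
  obtain ⟨H, hH⟩ : ∃ H, H = Function.update h w t := ⟨_, rfl⟩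
  rw [← hH, Finset.sum_add_distrib]
  have eA : ∑ y, (D.PG e1 r H * ((D.kp e1 r : ℂ) • RP (D.GG e1 r H) (D.pv e1 w r H)) *
      D.PG e1 r H) x y * D.u2 e1 w r H y =
      (D.PG e1 r H *ᵥ (fun y => (D.GG e1 r H * diagonal (D.pv e1 w r H) * D.GG e1 r H *
        diagonal (D.vv e1 w r H) * D.GG e1 r H) y y)) x := by
    have e0 : ∑ y, (D.PG e1 r H * ((D.kp e1 r : ℂ) • RP (D.GG e1 r H) (D.pv e1 w r H)) *
      D.PG e1 r H) x y * D.u2 e1 w r H y =
      ((D.PG e1 r H * ((D.kp e1 r : ℂ) • RP (D.GG e1 r H) (D.pv e1 w r H)) *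
      D.PG e1 r H) *ᵥ D.u2 e1 w r H) x := rfl
    rw [e0, ← Matrix.mulVec_mulVec, ← Matrix.mulVec_mulVec, Matrix.smul_mulVec,
      ← Matrix.mulVec_smul]
    have ev : (D.kp e1 r : ℂ) • (D.PG e1 r H *ᵥ D.u2 e1 w r H) =
        (-(1 / 2) : ℂ) • D.vv e1 w r H := by
      funext y
      rw [Pi.smul_apply, Pi.smul_apply, smul_eq_mul, smul_eq_mul]
      unfold Fl.vv
      ring
    rw [ev]
    congr 2
    funext y
    rw [Matrix.mulVec_smul, Pi.smul_apply, RP_mulVec (fun a b => GG_symm hS r H a b),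
      smul_eq_mul]
    ring
  rw [eA]
  have eB : ∀ f : ι → ℂ, ∑ y, D.PG e1 r H x y * f y = (D.PG e1 r H *ᵥ f) x := fun f => rfl
  rw [eB, ← Pi.add_apply, ← Matrix.mulVec_add]
  have e3 : ∀ f : ι → ℂ, 2 * (D.PG e1 r H *ᵥ f) x = (D.PG e1 r H *ᵥ ((2 : ℂ) • f)) x := by
    intro f
    rw [Matrix.mulVec_smul, Pi.smul_apply, smul_eq_mul]
  rw [e3]
  congr 2
  funext y
  have hs := diag_swap (fun a b => GG_symm hS r H a b) (D.pv e1 w r H) (D.vv e1 w r H) y
  simp only [Pi.smul_apply, Pi.add_apply, smul_eq_mul]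
  unfold Fl.u3
  rw [hs]
  ring

end Pool.Agent.APS
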