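import Pool.Agent.APS.SCCont

/-! # APS3 SCDRIFT: the drift identity of `δ` (the term linear in `g` has disappeared).

`u2^w_x = ∑_{y,z} G_xy P_yw G_yz P_zw G_zx`, so (`P` symmetric, `G` symmetric)
`∑_w u2^w_x = ∑_{y,z} G_xy (P²)_yz G_yz G_zx = (G ((A + 1)∘G) G)_xx = θ'_x + ∑_y G_xy G_yy G_yx
= θ'_x + ((G∘G) γ)_x` (`GG_diag`).  So
`fr + s r ∑_w f2^w = -2 r s T γ + 2 s r P (θ' + (G∘G) γ) = 2 r s P θ'` because `P (G∘G) = T` (`TG_eq'`).
-/

open Matrix Finset

noncomputable section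

namespace Pool.Agent.APS

open Pool.Agent.Kin

variable {ι : Type} [Fintype ι] [DecidableEq ι] {D : Fl ι} {e1 r : ℝ} {I : Set ℝ}

private theorem scd_u2 (hS : D.SCI e1 I) (w : ι) (h : ι → ℝ) (x : ι) :
    D.u2 e1 w r h x = ∑ z, ∑ y, D.GG e1 r h x y * (D.PG e1 r h y w * D.PG e1 r h w z) *
      D.GG e1 r h y z * D.GG e1 r h z x := by
  unfold Fl.u2
  rw [Matrix.mul_apply]
  refine Finset.sum_congr rfl fun z _ => ?_
  rw [Matrix.mul_diagonal, Matrix.mul_apply, Finset.sum_mul, Finset.sum_mul]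
  refine Finset.sum_congr rfl fun y _ => ?_
  rw [Matrix.mul_diagonal]
  unfold Fl.pv
  rw [PG_symm hS r h w z]
  ring

private theorem scd_sum (hS : D.SCI e1 I) (hr : r ∈ I) (h : ι → ℝ) (x : ι) :
    ∑ w, D.u2 e1 w r h x = D.thv e1 r h x + (had2 (D.GG e1 r h) *ᵥ D.ga e1 r h) x := by
  have h1 : ∑ w, D.u2 e1 w r h x = ∑ z, ∑ y, D.GG e1 r h x y *
      (D.PG e1 r h * D.PG e1 r h) y z * D.GG e1 r h y z * D.GG e1 r h z x := by
    simp_rw [scd_u2 hS]
    rw [Finset.sum_comm]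
    refine Finset.sum_congr rfl fun z _ => ?_
    rw [Finset.sum_comm]
    refine Finset.sum_congr rfl fun y _ => ?_
    rw [Matrix.mul_apply, Finset.mul_sum, Finset.sum_mul, Finset.sum_mul]
  have h2 : ∀ y z, (D.PG e1 r h * D.PG e1 r h) y z = D.AG e1 r h y z + (1 : Matrix ι ι ℂ) y z := by
    intro y z
    unfold Fl.AG
    rw [Matrix.sub_apply, sub_add_cancel]
  have h3 : D.thv e1 r h x = ∑ z, ∑ y, D.GG e1 r h x y * D.AG e1 r h y z * D.GG e1 r h y z *
      D.GG e1 r h z x := by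
    unfold Fl.thv
    rw [Matrix.mul_apply]
    refine Finset.sum_congr rfl fun z _ => ?_
    rw [Matrix.mul_apply, Finset.sum_mul]
    refine Finset.sum_congr rfl fun y _ => ?_
    unfold Fl.AH
    ring
  have h4 : (had2 (D.GG e1 r h) *ᵥ D.ga e1 r h) x = ∑ z, ∑ y, D.GG e1 r h x y *
      (1 : Matrix ι ι ℂ) y z * D.GG e1 r h y z * D.GG e1 r h z x := by
    unfold Matrix.mulVec dotProduct had2
    refine Finset.sum_congr rfl fun z _ => ?_
    rw [Finset.sum_eq_single z]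
    · rw [Matrix.one_apply_eq, GG_diag hS hr h z, GG_symm hS r h z x]
      ring
    · intro y _ hy
      rw [Matrix.one_apply_ne hy]
      ring
    · intro h5
      exact absurd (Finset.mem_univ z) h5
  rw [h1, h3, h4, ← Finset.sum_add_distrib]
  refine Finset.sum_congr rfl fun z _ => ?_
  rw [← Finset.sum_add_distrib]
  refine Finset.sum_congr rfl fun y _ => ?_
  rw [h2]
  ring

theorem drift_del (hS : D.SCI e1 I) (hr : r ∈ I) (h : ι → ℝ) (x : ι) :
    (D.delO e1).fr r h x + ((D.s * r : ℝ) : ℂ) * ∑ w, (D.delO e1).f2 w r h x =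
      ((2 * r * D.s : ℝ) : ℂ) * (D.PG e1 r h *ᵥ D.thv e1 r h) x := by
  have h1 : ∑ w, (D.delO e1).f2 w r h x =
      2 * ((D.PG e1 r h *ᵥ D.thv e1 r h) x + (D.TG e1 r h *ᵥ D.ga e1 r h) x) := by
    have h2 : ∑ w, (D.delO e1).f2 w r h x =
        2 * ∑ y, D.PG e1 r h x y * ∑ w, D.u2 e1 w r h y := by
      change ∑ w, 2 * (D.PG e1 r h *ᵥ D.u2 e1 w r h) x = _
      rw [← Finset.mul_sum]
      congr 1
      unfold Matrix.mulVec dotProduct
      rw [Finset.sum_comm]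
      refine Finset.sum_congr rfl fun y _ => ?_
      rw [Finset.mul_sum]
    rw [h2]
    congr 1
    have h3 : (D.TG e1 r h *ᵥ D.ga e1 r h) x =
        (D.PG e1 r h *ᵥ (had2 (D.GG e1 r h) *ᵥ D.ga e1 r h)) x := by
      rw [TG_eq' hS hr, Matrix.mulVec_mulVec]
    rw [h3]
    unfold Matrix.mulVec dotProduct
    rw [← Finset.sum_add_distrib]
    refine Finset.sum_congr rfl fun y _ => ?_
    rw [scd_sum hS hr h y]
    unfold Matrix.mulVec dotProduct
    ring
  rw [h1]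
  change -(2 * (r : ℂ) * (D.s : ℂ)) * (D.TG e1 r h *ᵥ D.ga e1 r h) x + _ = _
  push_cast
  ring

end Pool.Agent.APS
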