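import Pool.Agent.APS.SCBd

/-! # APS3 SCW: crude bounds of the second and third derivatives of `δ`.

`E = 2√K` bounds the entries of `G = GG` (`GG_ent`), rows `∑_y |G_xy|² ≤ 2C1/η`, all row sums and column sums
(symmetry) of `P` at most `Pi` (so `∑_y |p^w_y| ≤ Pi`, `∑_w |p^w_y| ≤ Pi`); note `Pi ≥ 1` may fail only formally:
`hPi1 : 1 ≤ Pi` is assumed.  `κ ≤ η/rl`.
For a family `q^w` with `∑_y |q^w_y| ≤ V`, `∑_w |q^w_y| ≤ V` put `Φ^w_x(q) = ∑_y |G_xy| |q^w_y|`.  Then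
`Φ^w_x(q)² ≤ V ∑_y |G_xy|² |q^w_y|`, so `∑_w Φ^w_x(q)² ≤ V² 2C1/η`, `∑_x Φ^w_x(q)² ≤ V² 2C1/η`, `Φ ≤ E V`.
* `u2`: `|u2^w_x| = |∑_{y,z} G_xy p_y G_yz p_z G_zx| ≤ E Φ^w_x(p)²`.  So `∑_w |u2^w_x|, ∑_x |u2^w_x| ≤ 2 C1 E Pi²/η`,
  `|u2^w_x| ≤ E³ Pi²`.
* `f2 = 2 P u2`: `∑_w |f2^w_x| ≤ 4 C1 E Pi³/η`, `|f2^w_x| ≤ 2 E³ Pi³`, so
  `∑_w |f2^w_x|² ≤ 8 C1 E⁴ Pi⁶/η = 128 C1 K² Pi⁶/η`.
* `v = -κ f2`: `∑_w |v^w_y|, ∑_y |v^w_y| ≤ V := 4 C1 E Pi³/rl`  (`κ/η ≤ 1/rl`).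
* `|(G p G p G p G)_xx| = |∑_{y,z} G_xy p_y (G p G)_yz p_z G_zx| ≤ (E² Pi) Φ(p)²`  (`|(G p G)_yz| ≤ E² Pi`);
  `|(G v G p G)_xx| ≤ E Φ(v) Φ(p)`, the same for `(G p G v G)_xx`.
  `∑_w |u3^w_x| ≤ 6 E² Pi³ 2C1/η + 6 E (V √(2C1/η)) (Pi √(2C1/η)) ≤ (12 C1 E²/η)(Pi³ + 4 C1 Pi⁴/rl)
  ≤ 60 C1² E² Pi⁴/(rl η) = 240 C1² K Pi⁴/(rl η)`   (`C1 ≥ 1`, `Pi ≥ 1`, `rl ≤ C1`).
* `f3 = P u3`: `∑_w |f3^w_x| ≤ 240 C1² K Pi⁵/(rl η)`.
-/

open Matrix Finset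

noncomputable section

namespace Pool.Agent.APS

open Pool.Agent.Kin

variable {ι : Type} [Fintype ι] [DecidableEq ι] {D : Fl ι} {e1 C1 rl K a tau r Pi : ℝ}
  {h : ι → ℝ} {I : Set ℝ}

/-- `Φ_x(q) = ∑_y |G_xy| q_y` -/
private def ph (G : Matrix ι ι ℂ) (q : ι → ℝ) (x : ι) : ℝ := ∑ y, ‖G x y‖ * q y

private theorem ph_nn {G : Matrix ι ι ℂ} {q : ι → ℝ} (hq : ∀ y, 0 ≤ q y) (x : ι) :
    0 ≤ ph G q x := Finset.sum_nonneg fun y _ => mul_nonneg (norm_nonneg _) (hq y)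

private theorem ph_le {G : Matrix ι ι ℂ} {q : ι → ℝ} {E V : ℝ} (hE0 : 0 ≤ E)
    (hE : ∀ x y, ‖G x y‖ ≤ E) (hq : ∀ y, 0 ≤ q y) (hV : ∑ y, q y ≤ V) (x : ι) :
    ph G q x ≤ E * V := by
  calc ph G q x ≤ ∑ y, E * q y :=
        Finset.sum_le_sum fun y _ => mul_le_mul_of_nonneg_right (hE x y) (hq y)
    _ = E * ∑ y, q y := (Finset.mul_sum _ _ _).symm
    _ ≤ E * V := mul_le_mul_of_nonneg_left hV hE0

private theorem sw_sq {G : Matrix ι ι ℂ} {q : ι → ℝ} {V : ℝ} (hq : ∀ y, 0 ≤ q y)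
    (hV : ∑ y, q y ≤ V) (x : ι) : ph G q x ^ 2 ≤ V * ∑ y, ‖G x y‖ ^ 2 * q y := by
  have h1 := Finset.sum_mul_sq_le_sq_mul_sq Finset.univ (fun y => √(q y))
    (fun y => ‖G x y‖ * √(q y))
  have h2 : ∑ y, √(q y) * (‖G x y‖ * √(q y)) = ph G q x := by
    refine Finset.sum_congr rfl fun y _ => ?_
    calc √(q y) * (‖G x y‖ * √(q y)) = ‖G x y‖ * √(q y) ^ 2 := by ring
      _ = ‖G x y‖ * q y := by rw [Real.sq_sqrt (hq y)]
  have h3 : ∑ y, √(q y) ^ 2 = ∑ y, q y :=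
    Finset.sum_congr rfl fun y _ => Real.sq_sqrt (hq y)
  have h4 : ∑ y, (‖G x y‖ * √(q y)) ^ 2 = ∑ y, ‖G x y‖ ^ 2 * q y :=
    Finset.sum_congr rfl fun y _ => by rw [mul_pow, Real.sq_sqrt (hq y)]
  rw [h2, h3, h4] at h1
  exact h1.trans (mul_le_mul_of_nonneg_right hV
    (Finset.sum_nonneg fun y _ => mul_nonneg (sq_nonneg _) (hq y)))

private theorem sw_w {G : Matrix ι ι ℂ} {q : ι → ι → ℝ} {V R : ℝ} (hV : 0 ≤ V)
    (hq : ∀ w y, 0 ≤ q w y) (h1 : ∀ w, ∑ y, q w y ≤ V) (h2 : ∀ y, ∑ w, q w y ≤ V)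
    (hR : ∀ x, ∑ y, ‖G x y‖ ^ 2 ≤ R) (x : ι) : ∑ w, ph G (q w) x ^ 2 ≤ V ^ 2 * R := by
  calc ∑ w, ph G (q w) x ^ 2 ≤ ∑ w, V * ∑ y, ‖G x y‖ ^ 2 * q w y :=
        Finset.sum_le_sum fun w _ => sw_sq (hq w) (h1 w) x
    _ = V * ∑ y, ‖G x y‖ ^ 2 * ∑ w, q w y := by
        rw [← Finset.mul_sum, Finset.sum_comm]
        congr 1
        exact Finset.sum_congr rfl fun y _ => (Finset.mul_sum _ _ _).symm
    _ ≤ V * ∑ y, ‖G x y‖ ^ 2 * V := by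
        refine mul_le_mul_of_nonneg_left (Finset.sum_le_sum fun y _ => ?_) hV
        exact mul_le_mul_of_nonneg_left (h2 y) (sq_nonneg _)
    _ = V ^ 2 * ∑ y, ‖G x y‖ ^ 2 := by
        rw [← Finset.sum_mul]
        ring
    _ ≤ V ^ 2 * R := mul_le_mul_of_nonneg_left (hR x) (sq_nonneg _)

private theorem sw_x {G : Matrix ι ι ℂ} {q : ι → ℝ} {V R : ℝ} (hV : 0 ≤ V) (hR0 : 0 ≤ R)
    (hq : ∀ y, 0 ≤ q y) (h1 : ∑ y, q y ≤ V)
    (hR : ∀ y, ∑ x, ‖G x y‖ ^ 2 ≤ R) : ∑ x, ph G q x ^ 2 ≤ V ^ 2 * R := by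
  calc ∑ x, ph G q x ^ 2 ≤ ∑ x, V * ∑ y, ‖G x y‖ ^ 2 * q y :=
        Finset.sum_le_sum fun x _ => sw_sq hq h1 x
    _ = V * ∑ y, (∑ x, ‖G x y‖ ^ 2) * q y := by
        rw [← Finset.mul_sum, Finset.sum_comm]
        congr 1
        exact Finset.sum_congr rfl fun y _ => (Finset.sum_mul _ _ _).symm
    _ ≤ V * ∑ y, R * q y := by
        refine mul_le_mul_of_nonneg_left (Finset.sum_le_sum fun y _ => ?_) hV
        exact mul_le_mul_of_nonneg_right (hR y) (hq y)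
    _ = V * (R * ∑ y, q y) := by rw [← Finset.mul_sum]
    _ ≤ V * (R * V) := by gcongr
    _ = V ^ 2 * R := by ring

/-- a word `G a M b G` on the diagonal -/
private theorem sw_word {G M : Matrix ι ι ℂ} {E : ℝ} (a b : ι → ℂ) (hM : ∀ x y, ‖M x y‖ ≤ E)
    (hs : ∀ x y, G x y = G y x) (x : ι) :
    ‖(G * diagonal a * M * diagonal b * G) x x‖ ≤
      E * (ph G (fun y => ‖a y‖) x * ph G (fun y => ‖b y‖) x) := by
  rw [Matrix.mul_apply]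
  calc ‖∑ z, (G * diagonal a * M * diagonal b) x z * G z x‖
      ≤ ∑ z, ‖(G * diagonal a * M * diagonal b) x z * G z x‖ := norm_sum_le _ _
    _ ≤ ∑ z, (E * ph G (fun y => ‖a y‖) x) * (‖G x z‖ * ‖b z‖) := by
        refine Finset.sum_le_sum fun z _ => ?_
        rw [norm_mul, Matrix.mul_diagonal, norm_mul, hs z x]
        have h1 : ‖(G * diagonal a * M) x z‖ ≤ E * ph G (fun y => ‖a y‖) x := by
          rw [Matrix.mul_apply]
          calc ‖∑ y, (G * diagonal a) x y * M y z‖ ≤ ∑ y, ‖(G * diagonal a) x y * M y z‖ :=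
                norm_sum_le _ _
            _ ≤ ∑ y, E * (‖G x y‖ * ‖a y‖) := by
                refine Finset.sum_le_sum fun y _ => ?_
                rw [norm_mul, Matrix.mul_diagonal, norm_mul, mul_comm E]
                exact mul_le_mul_of_nonneg_left (hM y z) (by positivity)
            _ = E * ph G (fun y => ‖a y‖) x := (Finset.mul_sum _ _ _).symm
        calc ‖(G * diagonal a * M) x z‖ * ‖b z‖ * ‖G x z‖ =
              ‖(G * diagonal a * M) x z‖ * (‖G x z‖ * ‖b z‖) := by ring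
          _ ≤ _ := mul_le_mul_of_nonneg_right h1 (by positivity)
    _ = (E * ph G (fun y => ‖a y‖) x) * ph G (fun y => ‖b y‖) x := (Finset.mul_sum _ _ _).symm
    _ = _ := by ring

/-- entries of `G a G` -/
private theorem sw_mid {G : Matrix ι ι ℂ} {E V : ℝ} (a : ι → ℂ) (hE0 : 0 ≤ E)
    (hE : ∀ x y, ‖G x y‖ ≤ E) (hV : ∑ y, ‖a y‖ ≤ V) (x z : ι) :
    ‖(G * diagonal a * G) x z‖ ≤ E ^ 2 * V := by
  rw [Matrix.mul_apply]
  calc ‖∑ y, (G * diagonal a) x y * G y z‖ ≤ ∑ y, ‖(G * diagonal a) x y * G y z‖ :=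
        norm_sum_le _ _
    _ ≤ ∑ y, E ^ 2 * ‖a y‖ := by
        refine Finset.sum_le_sum fun y _ => ?_
        rw [norm_mul, Matrix.mul_diagonal, norm_mul]
        calc ‖G x y‖ * ‖a y‖ * ‖G y z‖ = ‖G x y‖ * ‖G y z‖ * ‖a y‖ := by ring
          _ ≤ E * E * ‖a y‖ := by
              refine mul_le_mul_of_nonneg_right ?_ (norm_nonneg _)
              exact mul_le_mul (hE x y) (hE y z) (norm_nonneg _) hE0
          _ = E ^ 2 * ‖a y‖ := by ring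
    _ = E ^ 2 * ∑ y, ‖a y‖ := (Finset.mul_sum _ _ _).symm
    _ ≤ E ^ 2 * V := mul_le_mul_of_nonneg_left hV (sq_nonneg _)

private theorem sw_cs {f g : ι → ℝ} {A B : ℝ} (hA : 0 ≤ A) (hB : 0 ≤ B)
    (h1 : ∑ w, f w ^ 2 ≤ A ^ 2) (h2 : ∑ w, g w ^ 2 ≤ B ^ 2) : ∑ w, f w * g w ≤ A * B := by
  have h3 := Finset.sum_mul_sq_le_sq_mul_sq Finset.univ f g
  have h4 : (∑ w, f w * g w) ^ 2 ≤ (A * B) ^ 2 := by
    refine h3.trans ?_
    rw [mul_pow]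
    exact mul_le_mul h1 h2 (Finset.sum_nonneg fun _ _ => sq_nonneg _) (sq_nonneg _)
  exact (abs_le_of_sq_le_sq' h4 (mul_nonneg hA hB)).2

/-- the common data -/
private structure SW (G P : Matrix ι ι ℂ) (E R Pi : ℝ) : Prop where
  E0 : 0 ≤ E
  R0 : 0 ≤ R
  P0 : 0 ≤ Pi
  gs : ∀ x y, G x y = G y x
  ge : ∀ x y, ‖G x y‖ ≤ E
  gr : ∀ x, ∑ y, ‖G x y‖ ^ 2 ≤ R
  pr : ∀ x, ∑ y, ‖P x y‖ ≤ Pi
  pc : ∀ y, ∑ x, ‖P x y‖ ≤ Pi

variable {G P : Matrix ι ι ℂ} {E R : ℝ}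

private theorem SW.gc (H : SW G P E R Pi) (y : ι) : ∑ x, ‖G x y‖ ^ 2 ≤ R := by
  refine le_trans (le_of_eq ?_) (H.gr y)
  exact Finset.sum_congr rfl fun x _ => by rw [H.gs x y]

private def uu (G P : Matrix ι ι ℂ) (w : ι) : ι → ℂ := fun x =>
  (G * diagonal (fun y => P y w) * G * diagonal (fun y => P y w) * G) x x

private theorem SW.uu_le (H : SW G P E R Pi) (w x : ι) :
    ‖uu G P w x‖ ≤ E * ph G (fun y => ‖P y w‖) x ^ 2 := by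
  have := sw_word (G := G) (M := G) (fun y => P y w) (fun y => P y w) H.ge H.gs x
  rw [← sq] at this
  exact this

private theorem SW.uu_e (H : SW G P E R Pi) (w x : ι) : ‖uu G P w x‖ ≤ E ^ 3 * Pi ^ 2 := by
  refine (H.uu_le w x).trans ?_
  have h1 := ph_le H.E0 H.ge (fun y => norm_nonneg (P y w)) (H.pc w) x
  calc E * ph G (fun y => ‖P y w‖) x ^ 2 ≤ E * (E * Pi) ^ 2 :=
        mul_le_mul_of_nonneg_left (pow_le_pow_left₀ (ph_nn (fun y => norm_nonneg (P y w)) x) h1 2)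
          H.E0
    _ = E ^ 3 * Pi ^ 2 := by ring

private theorem SW.ph_w (H : SW G P E R Pi) (x : ι) :
    ∑ w, ph G (fun y => ‖P y w‖) x ^ 2 ≤ Pi ^ 2 * R :=
  sw_w (q := fun w y => ‖P y w‖) H.P0 (fun _ _ => norm_nonneg _) H.pc H.pr H.gr x

private theorem SW.ph_x (H : SW G P E R Pi) (w : ι) :
    ∑ x, ph G (fun y => ‖P y w‖) x ^ 2 ≤ Pi ^ 2 * R :=
  sw_x H.P0 H.R0 (fun _ => norm_nonneg _) (H.pc w) H.gc

private theorem SW.uu_w (H : SW G P E R Pi) (x : ι) : ∑ w, ‖uu G P w x‖ ≤ E * (Pi ^ 2 * R) := by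
  refine (Finset.sum_le_sum fun w _ => H.uu_le w x).trans ?_
  rw [← Finset.mul_sum]
  exact mul_le_mul_of_nonneg_left (H.ph_w x) H.E0

private theorem SW.uu_x (H : SW G P E R Pi) (w : ι) : ∑ x, ‖uu G P w x‖ ≤ E * (Pi ^ 2 * R) := by
  refine (Finset.sum_le_sum fun x _ => H.uu_le w x).trans ?_
  rw [← Finset.mul_sum]
  exact mul_le_mul_of_nonneg_left (H.ph_x w) H.E0

private theorem sw_mv (P : Matrix ι ι ℂ) (u : ι → ℂ) (x : ι) :
    ‖(P *ᵥ u) x‖ ≤ ∑ z, ‖P x z‖ * ‖u z‖ := by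
  rw [Matrix.mulVec, dotProduct]
  refine (norm_sum_le _ _).trans (le_of_eq ?_)
  exact Finset.sum_congr rfl fun z _ => norm_mul _ _

private theorem SW.mv_e (H : SW G P E R Pi) {u : ι → ℂ} {B : ℝ} (hB0 : 0 ≤ B)
    (hB : ∀ z, ‖u z‖ ≤ B) (x : ι) : ‖(P *ᵥ u) x‖ ≤ Pi * B := by
  refine (sw_mv P u x).trans ?_
  calc ∑ z, ‖P x z‖ * ‖u z‖ ≤ ∑ z, ‖P x z‖ * B :=
        Finset.sum_le_sum fun z _ => mul_le_mul_of_nonneg_left (hB z) (norm_nonneg _)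
    _ = (∑ z, ‖P x z‖) * B := (Finset.sum_mul _ _ _).symm
    _ ≤ Pi * B := mul_le_mul_of_nonneg_right (H.pr x) hB0

private theorem SW.mv_w (H : SW G P E R Pi) {u : ι → ι → ℂ} {B : ℝ} (hB0 : 0 ≤ B)
    (hB : ∀ z, ∑ w, ‖u w z‖ ≤ B) (x : ι) : ∑ w, ‖(P *ᵥ u w) x‖ ≤ Pi * B := by
  calc ∑ w, ‖(P *ᵥ u w) x‖ ≤ ∑ w, ∑ z, ‖P x z‖ * ‖u w z‖ :=
        Finset.sum_le_sum fun w _ => sw_mv P (u w) x
    _ = ∑ z, ‖P x z‖ * ∑ w, ‖u w z‖ := by
        rw [Finset.sum_comm]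
        exact Finset.sum_congr rfl fun z _ => (Finset.mul_sum _ _ _).symm
    _ ≤ ∑ z, ‖P x z‖ * B :=
        Finset.sum_le_sum fun z _ => mul_le_mul_of_nonneg_left (hB z) (norm_nonneg _)
    _ = (∑ z, ‖P x z‖) * B := (Finset.sum_mul _ _ _).symm
    _ ≤ Pi * B := mul_le_mul_of_nonneg_right (H.pr x) hB0

private theorem SW.mv_x (H : SW G P E R Pi) {u : ι → ℂ} {B : ℝ}
    (hB : ∑ z, ‖u z‖ ≤ B) : ∑ x, ‖(P *ᵥ u) x‖ ≤ Pi * B := by
  calc ∑ x, ‖(P *ᵥ u) x‖ ≤ ∑ x, ∑ z, ‖P x z‖ * ‖u z‖ :=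
        Finset.sum_le_sum fun x _ => sw_mv P u x
    _ = ∑ z, (∑ x, ‖P x z‖) * ‖u z‖ := by
        rw [Finset.sum_comm]
        exact Finset.sum_congr rfl fun z _ => (Finset.sum_mul _ _ _).symm
    _ ≤ ∑ z, Pi * ‖u z‖ :=
        Finset.sum_le_sum fun z _ => mul_le_mul_of_nonneg_right (H.pc z) (norm_nonneg _)
    _ = Pi * ∑ z, ‖u z‖ := (Finset.mul_sum _ _ _).symm
    _ ≤ Pi * B := mul_le_mul_of_nonneg_left hB H.P0

/-- `∑_w |f2|²` -/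
private theorem SW.f2 (H : SW G P E R Pi) (x : ι) :
    ∑ w, ‖2 * (P *ᵥ uu G P w) x‖ ^ 2 ≤ 4 * E ^ 4 * Pi ^ 6 * R := by
  have hE := H.E0
  have hP := H.P0
  have hR := H.R0
  have h1 : ∀ w, ‖2 * (P *ᵥ uu G P w) x‖ ≤ 2 * (Pi * (E ^ 3 * Pi ^ 2)) := by
    intro w
    rw [norm_mul, Complex.norm_ofNat]
    exact mul_le_mul_of_nonneg_left (H.mv_e (by positivity) (H.uu_e w) x) (by norm_num)
  have h2 : ∑ w, ‖2 * (P *ᵥ uu G P w) x‖ ≤ 2 * (Pi * (E * (Pi ^ 2 * R))) := by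
    have h3 := H.mv_w (by positivity) H.uu_w x
    calc ∑ w, ‖2 * (P *ᵥ uu G P w) x‖ = 2 * ∑ w, ‖(P *ᵥ uu G P w) x‖ := by
          rw [Finset.mul_sum]
          refine Finset.sum_congr rfl fun w _ => ?_
          rw [norm_mul, Complex.norm_ofNat]
      _ ≤ _ := mul_le_mul_of_nonneg_left h3 (by norm_num)
  calc ∑ w, ‖2 * (P *ᵥ uu G P w) x‖ ^ 2
      ≤ ∑ w, (2 * (Pi * (E ^ 3 * Pi ^ 2))) * ‖2 * (P *ᵥ uu G P w) x‖ := by
        refine Finset.sum_le_sum fun w _ => ?_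
        rw [sq]
        exact mul_le_mul_of_nonneg_right (h1 w) (norm_nonneg _)
    _ = (2 * (Pi * (E ^ 3 * Pi ^ 2))) * ∑ w, ‖2 * (P *ᵥ uu G P w) x‖ :=
        (Finset.mul_sum _ _ _).symm
    _ ≤ (2 * (Pi * (E ^ 3 * Pi ^ 2))) * (2 * (Pi * (E * (Pi ^ 2 * R)))) :=
        mul_le_mul_of_nonneg_left h2 (by positivity)
    _ = 4 * E ^ 4 * Pi ^ 6 * R := by ring

/-- `∑_w |u3|` for a family `v` -/
private theorem SW.u3 (H : SW G P E R Pi) {v : ι → ι → ℂ} {V : ℝ} (hV : 0 ≤ V)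
    (h1 : ∀ w, ∑ y, ‖v w y‖ ≤ V) (h2 : ∀ y, ∑ w, ‖v w y‖ ≤ V) (x : ι) :
    ∑ w, ‖-(6 * (G * diagonal (fun y => P y w) * G * diagonal (fun y => P y w) *
      G * diagonal (fun y => P y w) * G) x x) +
      3 * (G * diagonal (v w) * G * diagonal (fun y => P y w) * G) x x +
      3 * (G * diagonal (fun y => P y w) * G * diagonal (v w) * G) x x‖ ≤
      6 * E * Pi * R * (E * Pi ^ 2 + V) := by
  have hE := H.E0
  have hP := H.P0
  have hR := H.R0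
  have k1 : ∀ w, ‖(G * diagonal (fun y => P y w) * G * diagonal (fun y => P y w) *
      G * diagonal (fun y => P y w) * G) x x‖ ≤
      (E ^ 2 * Pi) * ph G (fun y => ‖P y w‖) x ^ 2 := by
    intro w
    have h3 := sw_word (G := G) (M := G * diagonal (fun y => P y w) * G) (fun y => P y w)
      (fun y => P y w) (sw_mid (fun y => P y w) H.E0 H.ge (H.pc w)) H.gs x
    have h4 : G * diagonal (fun y => P y w) * (G * diagonal (fun y => P y w) * G) *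
        diagonal (fun y => P y w) * G = G * diagonal (fun y => P y w) * G *
        diagonal (fun y => P y w) * G * diagonal (fun y => P y w) * G := by
      simp only [Matrix.mul_assoc]
    rw [h4, ← sq] at h3
    exact h3
  have k2 : ∀ w, ‖(G * diagonal (v w) * G * diagonal (fun y => P y w) * G) x x‖ ≤
      E * (ph G (fun y => ‖v w y‖) x * ph G (fun y => ‖P y w‖) x) :=
    fun w => sw_word (v w) (fun y => P y w) H.ge H.gs x
  have k3 : ∀ w, ‖(G * diagonal (fun y => P y w) * G * diagonal (v w) * G) x x‖ ≤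
      E * (ph G (fun y => ‖v w y‖) x * ph G (fun y => ‖P y w‖) x) := by
    intro w
    have := sw_word (G := G) (M := G) (fun y => P y w) (v w) H.ge H.gs x
    rwa [mul_comm (ph G (fun y => ‖P y w‖) x)] at this
  have k4 : ∀ w, ‖-(6 * (G * diagonal (fun y => P y w) * G * diagonal (fun y => P y w) *
      G * diagonal (fun y => P y w) * G) x x) +
      3 * (G * diagonal (v w) * G * diagonal (fun y => P y w) * G) x x +
      3 * (G * diagonal (fun y => P y w) * G * diagonal (v w) * G) x x‖ ≤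
      6 * (E ^ 2 * Pi) * ph G (fun y => ‖P y w‖) x ^ 2 +
      6 * E * (ph G (fun y => ‖v w y‖) x * ph G (fun y => ‖P y w‖) x) := by
    intro w
    refine (norm_add_le _ _).trans ?_
    have a1 := norm_add_le (-(6 * (G * diagonal (fun y => P y w) * G *
      diagonal (fun y => P y w) * G * diagonal (fun y => P y w) * G) x x))
      (3 * (G * diagonal (v w) * G * diagonal (fun y => P y w) * G) x x)
    rw [norm_neg, norm_mul, norm_mul, Complex.norm_ofNat, Complex.norm_ofNat] at a1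
    rw [norm_mul (3 : ℂ), Complex.norm_ofNat]
    have b1 := k1 w
    have b2 := k2 w
    have b3 := k3 w
    linarith
  have k5 : ∑ w, ph G (fun y => ‖v w y‖) x * ph G (fun y => ‖P y w‖) x ≤ (V * √R) * (Pi * √R) := by
    refine sw_cs (by positivity) (by positivity) ?_ ?_
    · rw [mul_pow, Real.sq_sqrt hR]
      exact sw_w (q := fun w y => ‖v w y‖) hV (fun _ _ => norm_nonneg _) h1 h2 H.gr x
    · rw [mul_pow, Real.sq_sqrt hR]
      exact H.ph_w x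
  have k6 : (V * √R) * (Pi * √R) = V * Pi * R := by
    calc (V * √R) * (Pi * √R) = V * Pi * √R ^ 2 := by ring
      _ = V * Pi * R := by rw [Real.sq_sqrt hR]
  rw [k6] at k5
  refine (Finset.sum_le_sum fun w _ => k4 w).trans ?_
  rw [Finset.sum_add_distrib, ← Finset.mul_sum, ← Finset.mul_sum]
  have c1 : 6 * (E ^ 2 * Pi) * ∑ w, ph G (fun y => ‖P y w‖) x ^ 2 ≤
      6 * (E ^ 2 * Pi) * (Pi ^ 2 * R) := mul_le_mul_of_nonneg_left (H.ph_w x) (by positivity)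
  have c2 : 6 * E * ∑ w, ph G (fun y => ‖v w y‖) x * ph G (fun y => ‖P y w‖) x ≤
      6 * E * (V * Pi * R) := mul_le_mul_of_nonneg_left k5 (by positivity)
  calc 6 * (E ^ 2 * Pi) * ∑ w, ph G (fun y => ‖P y w‖) x ^ 2 +
        6 * E * ∑ w, ph G (fun y => ‖v w y‖) x * ph G (fun y => ‖P y w‖) x
      ≤ 6 * (E ^ 2 * Pi) * (Pi ^ 2 * R) + 6 * E * (V * Pi * R) := add_le_add c1 c2
    _ = 6 * E * Pi * R * (E * Pi ^ 2 + V) := by ring

private theorem sw_mk (hS : D.SCI e1 I) (hr : r ∈ I) (hc : D.SCfg e1 C1 rl K a tau r h)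
    (hPi : RowLe (D.PG e1 r h) Pi) (hPi1 : 1 ≤ Pi) :
    SW (D.GG e1 r h) (D.PG e1 r h) (2 * √K) (2 * C1 / D.et r) Pi where
  E0 := by positivity
  R0 := by
    have h1 := hc.cfg.et0
    have h2 := hc.cfg.one_le
    positivity
  P0 := by linarith
  gs := GG_symm hS r h
  ge := GG_ent hS hr hc
  gr := GG_row hS hr hc
  pr := hPi
  pc y := by
    refine le_trans (le_of_eq ?_) (hPi y)
    exact Finset.sum_congr rfl fun x _ => by rw [PG_symm hS r h x y]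

theorem f2_sq (hS : D.SCI e1 I) (hr : r ∈ I) (hc : D.SCfg e1 C1 rl K a tau r h)
    (hPi : RowLe (D.PG e1 r h) Pi) (hPi1 : 1 ≤ Pi) (x : ι) :
    ∑ w, ‖(D.delO e1).f2 w r h x‖ ^ 2 ≤ 128 * C1 * K ^ 2 * Pi ^ 6 / D.et r := by
  have H := sw_mk hS hr hc hPi hPi1
  have hK : √K ^ 2 = K := Real.sq_sqrt (by linarith [hc.K1])
  have h1 := H.f2 x
  refine h1.trans (le_of_eq ?_)
  have h2 : (2 * √K) ^ 4 = 16 * K ^ 2 := by
    calc (2 * √K) ^ 4 = 16 * (√K ^ 2) ^ 2 := by ring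
      _ = 16 * K ^ 2 := by rw [hK]
  rw [h2]
  ring

theorem f3_abs (hS : D.SCI e1 I) (hr : r ∈ I) (hc : D.SCfg e1 C1 rl K a tau r h)
    (hPi : RowLe (D.PG e1 r h) Pi) (hPi1 : 1 ≤ Pi) (x : ι) :
    ∑ w, ‖(D.delO e1).f3 w r h x‖ ≤ 240 * C1 ^ 2 * K * Pi ^ 5 / (rl * D.et r) := by
  have H := sw_mk hS hr hc hPi hPi1
  have hK : √K ^ 2 = K := Real.sq_sqrt (by linarith [hc.K1])
  have het := hc.cfg.et0
  have hC1 := hc.cfg.one_le
  have hrl := hc.rl0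
  have hC0 : 0 < C1 := by linarith
  have hP0 : 0 < Pi := by linarith
  have hE0 : 0 ≤ 2 * √K := by positivity
  have hrlC : rl ≤ C1 := by
    have h1 := hc.rl1
    have h2 := (le_abs_self _).trans (Complex.abs_im_le_norm D.g0)
    have h3 := hc.cfg.C1b
    linarith
  have hk0 : 0 ≤ D.kp e1 r := by
    have h1 := hc.cfg.s0
    have h2 := hc.cfg.r0
    have h3 := hc.cfg.r1
    have h4 := hc.e0
    have h5 : 0 ≤ 1 - r ^ 2 := by nlinarith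
    unfold Fl.kp
    positivity
  set E : ℝ := 2 * √K with hE
  set R : ℝ := 2 * C1 / D.et r with hR
  have hR0 : 0 ≤ R := H.R0
  obtain ⟨V, hV⟩ : ∃ V, V = 4 * C1 * E * Pi ^ 3 / rl := ⟨_, rfl⟩
  have hV0 : 0 ≤ V := by
    rw [hV]
    positivity
  have hvn : ∀ w y, ‖D.vv e1 w r h y‖ = 2 * D.kp e1 r *
      ‖(D.PG e1 r h *ᵥ D.u2 e1 w r h) y‖ := by
    intro w y
    show ‖-(2 * (D.kp e1 r : ℂ)) * (D.PG e1 r h *ᵥ D.u2 e1 w r h) y‖ = _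
    rw [norm_mul, norm_neg, norm_mul, Complex.norm_ofNat, Complex.norm_real,
      Real.norm_of_nonneg hk0]
  have hbd : 2 * D.kp e1 r * (Pi * (E * (Pi ^ 2 * R))) ≤ V := by
    calc 2 * D.kp e1 r * (Pi * (E * (Pi ^ 2 * R)))
        ≤ 2 * (D.et r / rl) * (Pi * (E * (Pi ^ 2 * R))) := by
          have := kp_le hc
          gcongr
      _ = V := by
          rw [hV, hR]
          field_simp
          ring
  have hv1 : ∀ w, ∑ y, ‖D.vv e1 w r h y‖ ≤ V := by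
    intro w
    simp only [hvn]
    rw [← Finset.mul_sum]
    refine le_trans ?_ hbd
    exact mul_le_mul_of_nonneg_left (H.mv_x (H.uu_x w)) (by positivity)
  have hv2 : ∀ y, ∑ w, ‖D.vv e1 w r h y‖ ≤ V := by
    intro y
    simp only [hvn]
    rw [← Finset.mul_sum]
    refine le_trans ?_ hbd
    exact mul_le_mul_of_nonneg_left (H.mv_w (by positivity) H.uu_w y) (by positivity)
  have hu3 : ∀ z, ∑ w, ‖D.u3 e1 w r h z‖ ≤ 6 * E * Pi * R * (E * Pi ^ 2 + V) :=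
    fun z => H.u3 hV0 hv1 hv2 z
  have h1 : ∑ w, ‖(D.PG e1 r h *ᵥ D.u3 e1 w r h) x‖ ≤
      Pi * (6 * E * Pi * R * (E * Pi ^ 2 + V)) := H.mv_w (by positivity) hu3 x
  refine le_trans h1 ?_
  have h2 : E * Pi ^ 2 + V ≤ 5 * C1 * E * Pi ^ 3 / rl := by
    have h3 : E * Pi ^ 2 ≤ C1 * E * Pi ^ 3 / rl := by
      rw [le_div_iff₀ hrl]
      calc E * Pi ^ 2 * rl ≤ E * Pi ^ 2 * C1 := by gcongr
        _ = C1 * E * Pi ^ 2 * 1 := by ring
        _ ≤ C1 * E * Pi ^ 2 * Pi := by gcongr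
        _ = C1 * E * Pi ^ 3 := by ring
    have h4 : 5 * C1 * E * Pi ^ 3 / rl = C1 * E * Pi ^ 3 / rl + 4 * C1 * E * Pi ^ 3 / rl := by ring
    rw [h4, hV]
    linarith
  have hE2 : E ^ 2 = 4 * K := by
    rw [hE, mul_pow, hK]
    norm_num
  calc Pi * (6 * E * Pi * R * (E * Pi ^ 2 + V))
      ≤ Pi * (6 * E * Pi * R * (5 * C1 * E * Pi ^ 3 / rl)) := by gcongr
    _ = 30 * E ^ 2 * C1 * Pi ^ 5 * R / rl := by ring
    _ = 240 * C1 ^ 2 * K * Pi ^ 5 / (rl * D.et r) := by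
        rw [hE2, hR]
        field_simp
        ring

end Pool.Agent.APS
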