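import Pool.Agent.APS.SCPow
import Pool.Agent.APS.SCA
import Pool.Agent.APS.SCW
import Pool.Agent.APS.SCDrift
import Pool.Agent.APS.Young

/-! # APS3 SCEST: the estimates of the component `δ`: `∑_x |δ_x/a1|^(2p)`.

`f_x = δ_x/a1` (`O = wtV (1/a1) 0 (delO e1)`), `Cfg`-level parameters `a, tau, K` in `hc`.  Apply `powEst2` with
`A0 = 1`, `A2 = 1/(4p²)`, `A3 = 1` (compare EstG.lean):
* `h1`: the direction is `(1/a1) 2 r s (P θ')_x` (`drift_del`), `≤ (2 r s/η) 480 C1² Pi √tau/(rl a1)` (`drift_le`);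
  `pw1 ≤ 2p ∑ |f|^(2p-1) |.| ≤ (2 r s/η) (∑ |f|^(2p-1)) Y1`, `Y1 = 960 p C1² Pi √tau/(rl a1)`; `young_sum` with parameter `1`:
  `≤ (2rs/η)(pw + N Y1^(2p))`.
* `h2`: `∑_w (|f1|² + lam²|f2|²) ≤ (576 tau + 128 lam² C1 K² Pi⁶)/(a1² η) = Y2/η` (`TG_row`, `f2_sq`); `young_sum` with
  `y = Y2`, parameter `1/(4p²)`: `A2 = 1/(4p²)`, `4p² B2 = N (4p²)^p Y2^p = N (4p² Y2)^p`.
* `h3`: `|∑_w lam e_w f3| ≤ lam 240 C1² K Pi⁵/(rl η a1)` (`f3_abs`), `Y3 = 480 p lam C1² K Pi⁵/(rl a1)`, parameter `1`.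
Total `A = 3`, `B = N (Y1^(2p) + (4p² Y2)^p + Y3^(2p)) ≤ Bdel`.
-/

open Matrix Finset

noncomputable section

namespace Pool.Agent.APS

open Pool.Agent.Kin

variable {ι : Type} [Fintype ι] [DecidableEq ι] {D : Fl ι} {e1 C1 rl K a tau r Pi a1 : ℝ}
  {h : ι → ℝ} {I : Set ℝ}

private theorem se_mono {κ : Type} [Fintype κ] {c : Comp κ} {lam s et r A B B' : ℝ} {h q : κ → ℝ}
    (hs : 0 ≤ s) (het : 0 < et) (hr : 0 ≤ r) (hB : B ≤ B')
    (hE : c.Est2 lam s et r A B h q) : c.Est2 lam s et r A B' h q := by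
  have e1 : A * c.Ga r h + B ≤ A * c.Ga r h + B' := by linarith
  have e2 : 0 ≤ 2 * r * s / et := by positivity
  have e3 : 0 ≤ 1 / et := by positivity
  exact ⟨hE.dr.trans (mul_le_mul_of_nonneg_left e1 e2), hE.q0, hE.qu, hE.g1, hE.d1,
    hE.qs.trans (mul_le_mul_of_nonneg_left e1 e3),
    fun e he => (hE.dd e he).trans (mul_le_mul_of_nonneg_left e1 e3)⟩

omit [DecidableEq ι] in
private theorem se_pw1 (p : ℕ) (hp : 2 ≤ p) (v k : ι → ℂ) {B : ℝ} (hB : ∀ x, ‖k x‖ ≤ B) :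
    pw1 p v k ≤ (∑ x, ‖v x‖ ^ (2 * p - 1)) * (2 * p * B) := by
  unfold pw1
  rw [sum_mul]
  refine sum_le_sum fun x _ => ?_
  have h1 : (star (v x) * k x).re ≤ ‖v x‖ * B := by
    refine (Complex.re_le_norm _).trans ?_
    rw [norm_mul, norm_star]
    exact mul_le_mul_of_nonneg_left (hB x) (norm_nonneg _)
  have h2 : ‖v x‖ ^ (2 * p - 1) = ‖v x‖ ^ (2 * p - 2) * ‖v x‖ := by
    rw [← pow_succ]
    congr 1
    omega
  rw [h2]
  calc 2 * p * ‖v x‖ ^ (2 * p - 2) * (star (v x) * k x).re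
      ≤ 2 * p * ‖v x‖ ^ (2 * p - 2) * (‖v x‖ * B) := by gcongr
    _ = ‖v x‖ ^ (2 * p - 2) * ‖v x‖ * (2 * p * B) := by ring

theorem estDel (hS : D.SCI e1 I) (hr : r ∈ I) (hc : D.SCfg e1 C1 rl K a tau r h)
    (hP : OpLe (D.PG e1 r h) 6) (hPi : RowLe (D.PG e1 r h) Pi) (hPi1 : 1 ≤ Pi) (ha1 : 0 < a1)
    (p : ℕ) (hp : 2 ≤ p) :
    ∃ q : ι → ℝ, (powComp p (wtV (fun _ => 1 / a1) (fun _ => 0) (D.delO e1))).Est2 D.lam D.s
      (D.et r) r 3 (Bdel (Fintype.card ι) C1 rl K Pi D.lam a1 tau p) h q := by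
  have het := hc.cfg.et0
  have hC1 := hc.cfg.one_le
  have hC0 : 0 < C1 := by linarith
  have hs0 := hc.cfg.s0
  have hl0 := hc.cfg.lam0
  have ht0 := hc.cfg.tau0
  have hr0 := hc.cfg.r0
  have hrl := hc.rl0
  have hK0 : 0 < K := by linarith [hc.K1]
  have hP0 : 0 < Pi := by linarith
  have hp0 : (0 : ℝ) < p := by exact_mod_cast (by omega : 0 < p)
  set O := wtV (fun _ => 1 / a1) (fun _ => 0) (D.delO e1) with hO
  set f : ι → ℂ := O.f r h with hf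
  have hna : ‖(((1 / a1 : ℝ)) : ℂ)‖ = 1 / a1 := by
    rw [Complex.norm_real, Real.norm_eq_abs, abs_of_pos (by positivity)]
  set N : ℝ := (Fintype.card ι : ℝ) with hN
  have hN0 : 0 ≤ N := Nat.cast_nonneg _
  obtain ⟨Y1, hY1⟩ : ∃ Y, Y = 960 * p * C1 ^ 2 * Pi * √tau / (rl * a1) := ⟨_, rfl⟩
  obtain ⟨Y2, hY2⟩ : ∃ Y, Y = (576 * tau + 128 * D.lam ^ 2 * C1 * K ^ 2 * Pi ^ 6) / a1 ^ 2 :=
    ⟨_, rfl⟩
  obtain ⟨Y3, hY3⟩ : ∃ Y, Y = 480 * p * D.lam * C1 ^ 2 * K * Pi ^ 5 / (rl * a1) := ⟨_, rfl⟩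
  have hY10 : 0 ≤ Y1 := by
    rw [hY1]
    positivity
  have hY20 : 0 ≤ Y2 := by
    rw [hY2]
    positivity
  have hY30 : 0 ≤ Y3 := by
    rw [hY3]
    positivity
  have e4 : 2 * p - 1 + 1 = 2 * p := by omega
  -- first estimate
  have h1 : pw1 p (O.f r h) (fun x => O.fr r h x + ((D.s * r : ℝ) : ℂ) * ∑ w, O.f2 w r h x) ≤
      2 * r * D.s / D.et r * (1 * pw p (O.f r h) + N * Y1 ^ (2 * p)) := by
    have hd : ∀ x, ‖O.fr r h x + ((D.s * r : ℝ) : ℂ) * ∑ w, O.f2 w r h x‖ ≤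
        1 / a1 * (2 * r * D.s) * (480 * C1 ^ 2 * Pi * √tau / (rl * D.et r)) := by
      intro x
      have k1 := drift_del hS hr h x
      have k3 : O.fr r h x = ((1 / a1 : ℝ) : ℂ) * (D.delO e1).fr r h x := by
        show ((1 / a1 : ℝ) : ℂ) * (D.delO e1).fr r h x + ((0 : ℝ) : ℂ) * (D.delO e1).f r h x = _
        rw [Complex.ofReal_zero, zero_mul, add_zero]
      have k4 : ∑ w, O.f2 w r h x = ((1 / a1 : ℝ) : ℂ) * ∑ w, (D.delO e1).f2 w r h x := by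
        rw [mul_sum]
        rfl
      have k5 : O.fr r h x + ((D.s * r : ℝ) : ℂ) * ∑ w, O.f2 w r h x =
          ((1 / a1 : ℝ) : ℂ) * (((2 * r * D.s : ℝ) : ℂ) * (D.PG e1 r h *ᵥ D.thv e1 r h) x) := by
        rw [k3, k4]
        linear_combination ((1 / a1 : ℝ) : ℂ) * k1
      have k6 : ‖((2 * r * D.s : ℝ) : ℂ)‖ = 2 * r * D.s := by
        rw [Complex.norm_real, Real.norm_of_nonneg (by positivity)]
      rw [k5, norm_mul, norm_mul, hna, k6, ← mul_assoc]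
      exact mul_le_mul_of_nonneg_left (drift_le hS hr hc hP hPi x) (by positivity)
    refine (se_pw1 p hp _ _ hd).trans ?_
    have hy1 := young_sum (2 * p - 1) (fun x => ‖f x‖) (y := Y1) (e := 1)
      (fun x => norm_nonneg _) hY10 one_pos
    rw [e4, div_one, one_pow, one_mul, one_mul] at hy1
    calc (∑ x, ‖f x‖ ^ (2 * p - 1)) *
          (2 * p * (1 / a1 * (2 * r * D.s) * (480 * C1 ^ 2 * Pi * √tau / (rl * D.et r))))
        = 2 * r * D.s / D.et r * ((∑ x, ‖f x‖ ^ (2 * p - 1)) * Y1) := by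
          rw [hY1]
          field_simp
          ring
      _ ≤ 2 * r * D.s / D.et r * (1 * pw p (O.f r h) + N * Y1 ^ (2 * p)) := by
          rw [one_mul]
          exact mul_le_mul_of_nonneg_left hy1 (by positivity)
  -- second estimate
  have h2 : ∑ w, ∑ x, ‖O.f r h x‖ ^ (2 * p - 2) *
      (‖O.f1 w r h x‖ ^ 2 + D.lam ^ 2 * ‖O.f2 w r h x‖ ^ 2) ≤
      1 / D.et r * (1 / (4 * p ^ 2) * pw p (O.f r h) +
        N * ((1 / (1 / (4 * (p : ℝ) ^ 2))) ^ (p - 1) * Y2 ^ p)) := by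
    rw [sum_comm]
    have hx : ∀ x, ∑ w, ‖O.f r h x‖ ^ (2 * p - 2) *
        (‖O.f1 w r h x‖ ^ 2 + D.lam ^ 2 * ‖O.f2 w r h x‖ ^ 2) ≤
        1 / D.et r * ((‖f x‖ ^ 2) ^ (p - 1) * Y2) := by
      intro x
      rw [← mul_sum]
      have f1 : ∀ w, ‖O.f1 w r h x‖ ^ 2 = 1 / a1 ^ 2 * ‖D.TG e1 r h x w‖ ^ 2 := by
        intro w
        show ‖((1 / a1 : ℝ) : ℂ) * -(D.TG e1 r h x w)‖ ^ 2 = _
        rw [norm_mul, hna, norm_neg]
        ring
      have f2 : ∀ w, ‖O.f2 w r h x‖ ^ 2 = 1 / a1 ^ 2 * ‖(D.delO e1).f2 w r h x‖ ^ 2 := by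
        intro w
        show ‖((1 / a1 : ℝ) : ℂ) * (D.delO e1).f2 w r h x‖ ^ 2 = _
        rw [norm_mul, hna]
        ring
      have e2 : ∑ w, (‖O.f1 w r h x‖ ^ 2 + D.lam ^ 2 * ‖O.f2 w r h x‖ ^ 2) ≤
          1 / D.et r * Y2 := by
        simp only [f1, f2]
        rw [sum_add_distrib, ← mul_sum]
        have g1 := TG_row hS hr hc hP x
        have g2 := f2_sq hS hr hc hPi hPi1 x
        have g3 : ∑ w, D.lam ^ 2 * (1 / a1 ^ 2 * ‖(D.delO e1).f2 w r h x‖ ^ 2) =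
            D.lam ^ 2 * (1 / a1 ^ 2) * ∑ w, ‖(D.delO e1).f2 w r h x‖ ^ 2 := by
          rw [mul_sum]
          exact sum_congr rfl fun w _ => by ring
        rw [g3]
        calc 1 / a1 ^ 2 * ∑ w, ‖D.TG e1 r h x w‖ ^ 2 +
              D.lam ^ 2 * (1 / a1 ^ 2) * ∑ w, ‖(D.delO e1).f2 w r h x‖ ^ 2
            ≤ 1 / a1 ^ 2 * (576 * tau / D.et r) +
              D.lam ^ 2 * (1 / a1 ^ 2) * (128 * C1 * K ^ 2 * Pi ^ 6 / D.et r) := by gcongr
          _ = 1 / D.et r * Y2 := by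
              rw [hY2]
              ring
      have e3 : ‖O.f r h x‖ ^ (2 * p - 2) = (‖f x‖ ^ 2) ^ (p - 1) := by
        rw [← pow_mul]
        congr 1
        omega
      rw [e3]
      calc (‖f x‖ ^ 2) ^ (p - 1) *
            ∑ w, (‖O.f1 w r h x‖ ^ 2 + D.lam ^ 2 * ‖O.f2 w r h x‖ ^ 2)
          ≤ (‖f x‖ ^ 2) ^ (p - 1) * (1 / D.et r * Y2) := by gcongr
        _ = 1 / D.et r * ((‖f x‖ ^ 2) ^ (p - 1) * Y2) := by ring
    refine (sum_le_sum fun x _ => hx x).trans ?_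
    rw [← mul_sum, ← sum_mul]
    have hy1 := young_sum (p - 1) (fun x => ‖f x‖ ^ 2) (y := Y2) (e := 1 / (4 * p ^ 2))
      (fun x => by positivity) hY20 (by positivity)
    have e5 : p - 1 + 1 = p := by omega
    rw [e5] at hy1
    have e6 : ∑ x, (‖f x‖ ^ 2) ^ p = pw p f := by
      unfold pw
      refine sum_congr rfl fun x _ => ?_
      rw [← pow_mul]
    rw [e6] at hy1
    exact mul_le_mul_of_nonneg_left hy1 (by positivity)
  -- third estimate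
  have h3 : ∀ e' : ι → ℝ, (∀ w, |e' w| ≤ 1) →
      pw1 p (O.f r h) (fun x => ∑ w, ((D.lam * e' w : ℝ) : ℂ) * O.f3 w r h x) ≤
      1 / D.et r * (1 * pw p (O.f r h) + N * Y3 ^ (2 * p)) := by
    intro e' he'
    have hx : ∀ x, ‖∑ w, ((D.lam * e' w : ℝ) : ℂ) * O.f3 w r h x‖ ≤
        D.lam * (1 / a1) * (240 * C1 ^ 2 * K * Pi ^ 5 / (rl * D.et r)) := by
      intro x
      refine (norm_sum_le _ _).trans ?_
      have k1 : ∑ w, ‖((D.lam * e' w : ℝ) : ℂ) * O.f3 w r h x‖ ≤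
          ∑ w, D.lam * (1 / a1) * ‖(D.delO e1).f3 w r h x‖ := by
        refine sum_le_sum fun w _ => ?_
        have f1 : ‖O.f3 w r h x‖ = 1 / a1 * ‖(D.delO e1).f3 w r h x‖ := by
          show ‖((1 / a1 : ℝ) : ℂ) * (D.delO e1).f3 w r h x‖ = _
          rw [norm_mul, hna]
        rw [norm_mul, f1, Complex.norm_real, Real.norm_eq_abs, abs_mul, abs_of_pos hl0]
        calc D.lam * |e' w| * (1 / a1 * ‖(D.delO e1).f3 w r h x‖)
            ≤ D.lam * 1 * (1 / a1 * ‖(D.delO e1).f3 w r h x‖) := by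
              gcongr
              exact he' w
          _ = D.lam * (1 / a1) * ‖(D.delO e1).f3 w r h x‖ := by ring
      refine k1.trans ?_
      rw [← mul_sum]
      exact mul_le_mul_of_nonneg_left (f3_abs hS hr hc hPi hPi1 x) (by positivity)
    refine (se_pw1 p hp _ _ hx).trans ?_
    have hy1 := young_sum (2 * p - 1) (fun x => ‖f x‖) (y := Y3) (e := 1)
      (fun x => norm_nonneg _) hY30 one_pos
    rw [e4, div_one, one_pow, one_mul, one_mul] at hy1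
    calc (∑ x, ‖f x‖ ^ (2 * p - 1)) *
          (2 * p * (D.lam * (1 / a1) * (240 * C1 ^ 2 * K * Pi ^ 5 / (rl * D.et r))))
        = 1 / D.et r * ((∑ x, ‖f x‖ ^ (2 * p - 1)) * Y3) := by
          rw [hY3]
          field_simp
          ring
      _ ≤ 1 / D.et r * (1 * pw p (O.f r h) + N * Y3 ^ (2 * p)) := by
          rw [one_mul]
          exact mul_le_mul_of_nonneg_left hy1 (by positivity)
  obtain ⟨q, hq⟩ := powEst2 p hp O hr0 hs0 het hl0 hc.cfg.lam1 (A0 := 1)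
    (A2 := 1 / (4 * p ^ 2)) (A3 := 1) (B1 := N * Y1 ^ (2 * p))
    (B2 := N * ((1 / (1 / (4 * (p : ℝ) ^ 2))) ^ (p - 1) * Y2 ^ p))
    (B3 := N * Y3 ^ (2 * p))
    one_pos.le (by positivity) one_pos.le (by positivity) (by positivity) (by positivity) h1 h2 h3
  have eA : 1 + 4 * (p : ℝ) ^ 2 * (1 / (4 * p ^ 2)) + 1 = 3 := by
    field_simp
    norm_num
  rw [eA] at hq
  refine ⟨q, se_mono hs0.le het hr0 ?_ hq⟩
  have eB2 : 4 * (p : ℝ) ^ 2 * (N * ((1 / (1 / (4 * (p : ℝ) ^ 2))) ^ (p - 1) * Y2 ^ p)) =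
      N * (4 * p ^ 2 * (576 * tau + 128 * D.lam ^ 2 * C1 * K ^ 2 * Pi ^ 6) / a1 ^ 2) ^ p := by
    have g1 : 1 / (1 / (4 * (p : ℝ) ^ 2)) = 4 * p ^ 2 := by field_simp
    have g2 : 4 * p ^ 2 * (576 * tau + 128 * D.lam ^ 2 * C1 * K ^ 2 * Pi ^ 6) / a1 ^ 2 =
        (4 * (p : ℝ) ^ 2) * Y2 := by
      rw [hY2]
      ring
    have g3 : (4 * (p : ℝ) ^ 2) ^ p = (4 * (p : ℝ) ^ 2) * (4 * (p : ℝ) ^ 2) ^ (p - 1) := by
      rw [← pow_succ']
      congr 1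
      omega
    rw [g1, g2, mul_pow (4 * (p : ℝ) ^ 2) Y2, g3]
    ring
  rw [eB2]
  unfold Bdel
  have g1 : Y1 ^ (2 * p) ≤ (1000 * p * C1 ^ 2 * Pi * √tau / (rl * a1)) ^ (2 * p) := by
    refine pow_le_pow_left₀ hY10 ?_ _
    rw [hY1]
    gcongr
    norm_num
  have g3 : Y3 ^ (2 * p) ≤ (500 * p * D.lam * C1 ^ 2 * K * Pi ^ 5 / (rl * a1)) ^ (2 * p) := by
    refine pow_le_pow_left₀ hY30 ?_ _
    rw [hY3]
    gcongr
    norm_num
  rw [← mul_add, ← mul_add]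
  refine mul_le_mul_of_nonneg_left ?_ hN0
  linarith

end Pool.Agent.APS
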