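import Pool.Agent.APS.SCContr

/-! # APS3 SCEX: existence of the self-consistent diagonal.

`F(γ)_x = rsc H0 (c - k γ) x x`.  For `Im γ ≥ 0`: `Im (c - k γ) ≤ -e`, so `0 < Im F(γ)_x` and
`‖F(γ)_x‖ ≤ 1/e` (`rsc_im`, `rsc_diag`).  Iterate: `γ^0 = i/e`, `γ^(n+1) = F(γ^n)`; all `0 < Im γ^n ≤ 1/e`.
Let `m_0` be such that `‖γ^1_x - γ^0_x‖ ≤ m_0 √(Im γ^1_x Im γ^0_x)` for all `x` (finite, the square roots are
positive), `θ = k/(k + e²) < 1`.  By `rsc_sub` `γ^(n+2)_x - γ^(n+1)_x = k ∑_y G_xy (γ^(n+1)_y - γ^n_y) G'_yx`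
(symmetry of `G'`), so by `rsc_contr` (with `k' = k`) inductively
`‖γ^(n+1)_x - γ^n_x‖ ≤ m_0 θ^n √(Im γ^(n+1)_x Im γ^n_x) ≤ m_0 θ^n / e`.
So `γ^n` is Cauchy; the limit has `Im ≥ 0`; `F` is continuous there (`rsc_cont`), so `F(γ) = γ` and
`Im γ_x = Im F(γ)_x > 0`.
-/

open Matrix Finset

noncomputable section

namespace Pool.Agent.APS

open Pool.Agent.Kin

variable {ι : Type} [Fintype ι] [DecidableEq ι] {H0 : Matrix ι ι ℂ}

/-- the map whose fixed point is sought -/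
private def sceF (H0 : Matrix ι ι ℂ) (k : ℝ) (c g : ι → ℂ) : ι → ℂ :=
  fun x => rsc H0 (fun y => c y - (k : ℂ) * g y) x x

omit [Fintype ι] [DecidableEq ι] in
private lemma sce_im {k e : ℝ} (hk : 0 ≤ k) {c g : ι → ℂ}
    (hc : ∀ x, (c x).im = -e) (hg : ∀ x, 0 ≤ (g x).im) (y : ι) :
    e ≤ -(c y - (k : ℂ) * g y).im := by
  rw [Complex.sub_im, Complex.im_ofReal_mul, hc]
  have := mul_nonneg hk (hg y)
  linarith

private lemma sceF_bd (hH : RealSym H0) {k e : ℝ} (hk : 0 ≤ k) (he : 0 < e) {c g : ι → ℂ}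
    (hc : ∀ x, (c x).im = -e) (hg : ∀ x, 0 ≤ (g x).im) (x : ι) :
    0 < (sceF H0 k c g x).im ∧ (sceF H0 k c g x).im ≤ 1 / e := by
  have h1 := sce_im hk hc hg
  have h2 : ∀ y, (c y - (k : ℂ) * g y).im < 0 := fun y => by linarith [h1 y]
  refine ⟨rsc_im hH h2 x, ?_⟩
  exact ((le_abs_self _).trans (Complex.abs_im_le_norm _)).trans (rsc_diag hH he h1 x)

private lemma sceF_step (hH : RealSym H0) {k e : ℝ} (hk : 0 ≤ k) (he : 0 < e)
    {c g g' : ι → ℂ} (hc : ∀ x, (c x).im = -e)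
    (hg : ∀ x, 0 < (g x).im ∧ (g x).im ≤ 1 / e) (hg' : ∀ x, 0 < (g' x).im ∧ (g' x).im ≤ 1 / e)
    {m : ℝ} (hm : 0 ≤ m) (hu : ∀ x, ‖g x - g' x‖ ≤ m * √((g x).im * (g' x).im)) (x : ι) :
    ‖sceF H0 k c g x - sceF H0 k c g' x‖ ≤
      k / (k + e ^ 2) * m * √((sceF H0 k c g x).im * (sceF H0 k c g' x).im) := by
  have hb : ∀ y, (c y - (k : ℂ) * g y).im < 0 := fun y => by
    linarith [sce_im hk hc (fun x => (hg x).1.le) y]
  have hb' : ∀ y, (c y - (k : ℂ) * g' y).im < 0 := fun y => by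
    linarith [sce_im hk hc (fun x => (hg' x).1.le) y]
  refine le_trans ?_ (rsc_contr hH hk le_rfl he hc hc hg hg' (u := fun y => g y - g' y) hm hu x)
  have h1 : sceF H0 k c g x - sceF H0 k c g' x =
      ∑ y, rsc H0 (fun y => c y - (k : ℂ) * g y) x y * ((k : ℂ) * (g y - g' y)) *
        rsc H0 (fun y => c y - (k : ℂ) * g' y) y x := by
    have e1 := congrFun (congrFun (rsc_sub hH hb hb') x) x
    rw [Matrix.sub_apply, Matrix.mul_apply] at e1
    change rsc H0 (fun y => c y - (k : ℂ) * g y) x x - rsc H0 (fun y => c y - (k : ℂ) * g' y) x x = _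
    rw [e1]
    refine Finset.sum_congr rfl fun y _ => ?_
    rw [Matrix.mul_diagonal]
    ring
  rw [h1, Finset.mul_sum]
  refine (norm_sum_le _ _).trans (le_of_eq ?_)
  refine Finset.sum_congr rfl fun y _ => ?_
  rw [norm_mul, norm_mul, norm_mul, Complex.norm_real, Real.norm_of_nonneg hk,
    rsc_symm hH (fun y => c y - (k : ℂ) * g' y) y x]
  ring

theorem exists_sc (hH : RealSym H0) {k e : ℝ} (hk : 0 ≤ k) (he : 0 < e) (c : ι → ℂ)
    (hc : ∀ x, (c x).im = -e) : ∃ γ, IsSC H0 k c γ := by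
  have he1 : 0 < 1 / e := by positivity
  set q : ℕ → ι → ℂ := fun n => (sceF H0 k c)^[n] (fun _ => ((1 / e : ℝ) : ℂ) * Complex.I) with hq
  have hq0 : ∀ x, (q 0 x).im = 1 / e := by
    intro x
    simp [hq]
  have hqs : ∀ n, q (n + 1) = sceF H0 k c (q n) := by
    intro n
    simp only [hq]
    rw [Function.iterate_succ_apply']
  have hP : ∀ n x, 0 < (q n x).im ∧ (q n x).im ≤ 1 / e := by
    intro n
    induction n with
    | zero => intro x; rw [hq0]; exact ⟨he1, le_rfl⟩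
    | succ n ih =>
      intro x
      rw [hqs]
      exact sceF_bd hH hk he hc (fun x => (ih x).1.le) x
  set θ : ℝ := k / (k + e ^ 2) with hθ
  have hke : 0 < k + e ^ 2 := by positivity
  have hθ0 : 0 ≤ θ := div_nonneg hk hke.le
  have hθ1 : θ < 1 := by
    rw [hθ, div_lt_one hke]
    have : 0 < e ^ 2 := by positivity
    linarith
  obtain ⟨m0, hm0, hbase⟩ : ∃ m0 : ℝ, 0 ≤ m0 ∧
      ∀ x, ‖q 1 x - q 0 x‖ ≤ m0 * √((q 1 x).im * (q 0 x).im) := by
    refine ⟨∑ x, ‖q 1 x - q 0 x‖ / √((q 1 x).im * (q 0 x).im),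
      Finset.sum_nonneg fun x _ => by positivity, fun x => ?_⟩
    have h1 : 0 < √((q 1 x).im * (q 0 x).im) :=
      Real.sqrt_pos.2 (mul_pos (hP 1 x).1 (hP 0 x).1)
    rw [← div_le_iff₀ h1]
    exact Finset.single_le_sum (f := fun x => ‖q 1 x - q 0 x‖ / √((q 1 x).im * (q 0 x).im))
      (fun y _ => by positivity) (Finset.mem_univ x)
  have hstep : ∀ n x, ‖q (n + 1) x - q n x‖ ≤
      m0 * θ ^ n * √((q (n + 1) x).im * (q n x).im) := by
    intro n
    induction n with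
    | zero => intro x; simpa using hbase x
    | succ n ih =>
      intro x
      have h1 := sceF_step hH hk he hc (hP (n + 1)) (hP n) (m := m0 * θ ^ n) (by positivity) ih x
      rw [← hqs, ← hqs] at h1
      refine h1.trans (le_of_eq ?_)
      rw [← hθ]
      ring
  have hgeo : ∀ x n, dist (q n x) (q (n + 1) x) ≤ m0 / e * θ ^ n := by
    intro x n
    rw [dist_comm, dist_eq_norm]
    refine (hstep n x).trans ?_
    have h1 : √((q (n + 1) x).im * (q n x).im) ≤ 1 / e := by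
      rw [Real.sqrt_le_left he1.le, sq]
      exact mul_le_mul (hP (n + 1) x).2 (hP n x).2 (hP n x).1.le he1.le
    calc m0 * θ ^ n * √((q (n + 1) x).im * (q n x).im) ≤ m0 * θ ^ n * (1 / e) :=
          mul_le_mul_of_nonneg_left h1 (by positivity)
      _ = m0 / e * θ ^ n := by ring
  have hlim : ∀ x, ∃ a, Filter.Tendsto (fun n => q n x) Filter.atTop (nhds a) := fun x =>
    cauchySeq_tendsto_of_complete (cauchySeq_of_le_geometric θ (m0 / e) hθ1 (hgeo x))
  choose γ hγ using hlim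
  have hγ0 : ∀ x, 0 ≤ (γ x).im := by
    intro x
    have h1 : Filter.Tendsto (fun n => (q n x).im) Filter.atTop (nhds (γ x).im) :=
      (Complex.continuous_im.tendsto _).comp (hγ x)
    exact ge_of_tendsto' h1 fun n => (hP n x).1.le
  have hfix : ∀ x, sceF H0 k c γ x = γ x := by
    intro x
    have h1 : ContinuousOn (fun p : ι → ℂ => rsc H0 (fun y => c y - (k : ℂ) * p y) x x)
        {p : ι → ℂ | ∀ x, 0 ≤ (p x).im} :=
      rsc_cont hH (X := ι → ℂ) (fun p y => c y - (k : ℂ) * p y)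
        (fun p hp y => by linarith [sce_im hk hc hp y])
        (fun y => (by fun_prop : Continuous fun p : ι → ℂ => c y - (k : ℂ) * p y).continuousOn) x x
    have h2 : Filter.Tendsto q Filter.atTop (nhds γ) := tendsto_pi_nhds.2 hγ
    have h3 : Filter.Tendsto q Filter.atTop
        (nhdsWithin γ {p : ι → ℂ | ∀ x, 0 ≤ (p x).im}) :=
      tendsto_nhdsWithin_iff.2 ⟨h2, Filter.Eventually.of_forall fun n y => (hP n y).1.le⟩
    have h4 := (h1 γ hγ0).tendsto.comp h3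
    have h5 : Filter.Tendsto (fun n => q (n + 1) x) Filter.atTop (nhds (γ x)) :=
      (hγ x).comp (Filter.tendsto_add_atTop_nat 1)
    refine tendsto_nhds_unique ?_ h5
    refine h4.congr fun n => ?_
    rw [hqs]
    rfl
  refine ⟨γ, fun x => ⟨?_, hfix x⟩⟩
  rw [← hfix x]
  exact (sceF_bd hH hk he hc hγ0 x).1

end Pool.Agent.APS
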