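import Pool.Agent.APS.SCCont

/-! # APS3 SCGD: if `δ` is small then `g` is small, and the start of the flow.

`cfg_of_del`: here nothing is known about `G`.  As in SCBD: `-Im b_x ≥ η/2`, `κ ≤ η/rl`,
`G - GG = -κ G diag(δ) GG = -κ GG diag(δ) G` (both orders: `G - GG = G (GG⁻¹ - G⁻¹) GG = GG (GG⁻¹ - G⁻¹) G`).
Row `x` of `G`: `G = GG - κ GG diag(δ) G`, so `‖row G‖ ≤ ‖row GG‖ (1 + κ a1 ‖G‖_op) ≤ ‖row GG‖ (1 + a1/rl) ≤ (3/2) ‖row GG‖`
(`‖G‖_op ≤ 1/η`), and `‖row GG‖² ≤ 2 C1/η`.  So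
`‖G_xx - g0‖ ≤ a1 + κ a1 ‖row_x G‖ ‖row_x GG‖ ≤ a1 + (η/rl) a1 (3/2) (2 C1/η) = a1 (1 + 3 C1/rl) ≤ 4 C1 a1/rl`.
`ga_start`: at `r = 0`, `h = 0`: `γ = g0` (constant) solves the equation: `z' + κ(0) g0 = z - e1 g0 + (s + e1) g0
= z + s g0 = z_0`, `G_0` has diagonal `g0`; `gam_eq`.
-/

open Matrix Finset

noncomputable section

namespace Pool.Agent.APS

open Pool.Agent.Kin

variable {ι : Type} [Fintype ι] [DecidableEq ι] {D : Fl ι} {e1 C1 rl a1 r : ℝ}
  {h : ι → ℝ} {I : Set ℝ}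

private theorem gd_rsc (D : Fl ι) (r : ℝ) (h : ι → ℝ) :
    D.G r h = rsc D.H0 (fun x => (h x : ℂ) - D.zr r) := by
  show res D.H0 (D.zr r) h = _
  unfold res rsc
  congr 1
  rw [add_sub_assoc]
  congr 1
  ext x y
  by_cases hxy : x = y
  · subst hxy
    simp
  · simp [hxy]

omit [Fintype ι] [DecidableEq ι] in
private theorem gd_im (D : Fl ι) (r : ℝ) (h : ι → ℝ) (x : ι) :
    ((h x : ℂ) - D.zr r).im = -D.et r := by
  unfold Fl.zr Fl.et
  rw [Complex.sub_im, Complex.add_im, Complex.im_ofReal_mul, Complex.ofReal_im]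
  ring

private theorem gd_diff (D : Fl ι) (e1 r : ℝ) (h : ι → ℝ) (x : ι) :
    ((h x : ℂ) - D.zr r) - D.bb e1 r h x = (D.kp e1 r : ℂ) * (D.ga e1 r h x - D.g0) := by
  simp only [Fl.zr, Fl.bb, Fl.zp, Fl.kp]
  push_cast
  ring

theorem cfg_of_del (hS : D.SCI e1 I) (hr : r ∈ I) (hs : 0 < D.s) (hr0 : 0 ≤ r) (hr1 : r ≤ 1)
    (het : 0 < D.et r) (hrl : 0 < rl) (hrl1 : rl ≤ D.g0.im) (hC1 : ‖D.g0‖ + 1 ≤ C1)
    (he1 : 0 < e1) (hez : e1 * D.g0.im ≤ D.z.im / 2) (ha0 : 0 ≤ a1) (ha1 : a1 ≤ 1)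
    (harl : 4 * a1 ≤ rl) (hdel : ∀ x, ‖D.ga e1 r h x - D.g0‖ ≤ a1) (x : ι) :
    ‖D.G r h x x - D.g0‖ ≤ 4 * C1 * a1 / rl := by
  have hk := hS.kpp r hr
  have hg0 : 0 < D.g0.im := hrl.trans_le hrl1
  have hzim : 0 < D.z.im := by
    have := mul_pos he1 hg0
    linarith
  have hkr : D.kp e1 r * D.g0.im ≤ D.et r := by
    unfold Fl.kp Fl.et
    nlinarith
  have hkrl : D.kp e1 r * rl ≤ D.et r :=
    (mul_le_mul_of_nonneg_left hrl1 hk.le).trans hkr
  have hka : D.kp e1 r * a1 ≤ D.et r / 4 := by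
    have := mul_le_mul_of_nonneg_left harl hk.le
    linarith
  have hbb : ∀ y, D.et r / 2 ≤ -(D.bb e1 r h y).im := by
    intro y
    rw [bb_im hS]
    have h1 : |(D.ga e1 r h y - D.g0).im| ≤ a1 := (Complex.abs_im_le_norm _).trans (hdel y)
    have h2 := (abs_le.1 h1).1
    rw [Complex.sub_im] at h2
    have h3 : (D.zp e1).im = D.z.im - e1 * D.g0.im := by
      unfold Fl.zp
      rw [Complex.sub_im, Complex.im_ofReal_mul]
    have h4 : D.kp e1 r * (D.g0.im - a1) ≤ D.kp e1 r * (D.ga e1 r h y).im :=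
      mul_le_mul_of_nonneg_left (by linarith) hk.le
    have h5 : D.z.im - e1 * D.g0.im + D.kp e1 r * D.g0.im = D.et r := by
      unfold Fl.kp Fl.et
      ring
    rw [h3]
    nlinarith
  have hbn : ∀ y, (D.bb e1 r h y).im < 0 := fun y => by
    have := hbb y
    linarith
  have hb0 : ∀ y, ((h y : ℂ) - D.zr r).im < 0 := fun y => by
    rw [gd_im]
    linarith
  have hb0' : ∀ y, D.et r ≤ -((h y : ℂ) - D.zr r).im := fun y => by
    rw [gd_im]
    linarith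
  set δ : ι → ℂ := fun y => D.ga e1 r h y - D.g0 with hδ
  have hGG : D.GG e1 r h = rsc D.H0 (D.bb e1 r h) := rfl
  -- the two identities
  have e2 : D.G r h = D.GG e1 r h * (1 - (D.kp e1 r : ℂ) • (diagonal δ * D.G r h)) := by
    have h1 := rsc_sub hS.sym hbn hb0
    rw [← gd_rsc, ← hGG] at h1
    have h2 : (diagonal (fun y => ((h y : ℂ) - D.zr r) - D.bb e1 r h y) : Matrix ι ι ℂ) =
        (D.kp e1 r : ℂ) • diagonal δ := by
      rw [← Matrix.diagonal_smul]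
      congr 1
      funext y
      rw [gd_diff]
      rfl
    rw [h2] at h1
    rw [mul_sub, mul_one, Matrix.mul_smul, ← Matrix.mul_assoc]
    rw [Matrix.mul_smul, Matrix.smul_mul] at h1
    rw [← h1]
    abel
  have hGop : OpLe (D.G r h) (1 / D.et r) := by
    rw [gd_rsc]
    exact rsc_op hS.sym het hb0'
  have hop : OpLe (1 - (D.kp e1 r : ℂ) • (diagonal δ * D.G r h)) (3 / 2) := by
    have h1 : OpLe ((D.kp e1 r : ℂ) • (diagonal δ * D.G r h))
        (‖(D.kp e1 r : ℂ)‖ * (a1 * (1 / D.et r))) :=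
      opLe_smul _ (opLe_mul (opLe_diagonal δ a1 hdel) hGop)
    have h2 : ‖(D.kp e1 r : ℂ)‖ * (a1 * (1 / D.et r)) ≤ 1 / 4 := by
      rw [Complex.norm_real, Real.norm_of_nonneg hk.le, mul_one_div, ← mul_div_assoc,
        div_le_iff₀ het]
      linarith
    have h0 : 0 ≤ ‖(D.kp e1 r : ℂ)‖ * (a1 * (1 / D.et r)) := by positivity
    exact opLe_mono (by linarith) (by linarith) (opLe_sub zero_le_one h0 opLe_one h1)
  have hrow : ∑ y, ‖D.G r h x y‖ ^ 2 ≤ (3 / 2) ^ 2 * ∑ y, ‖D.GG e1 r h x y‖ ^ 2 := by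
    conv_lhs => rw [e2]
    exact opLe_row_mul (by norm_num) hop x
  have hγ : ‖D.ga e1 r h x‖ ≤ C1 := by
    have h1 : ‖D.ga e1 r h x‖ ≤ ‖D.ga e1 r h x - D.g0‖ + ‖D.g0‖ := by
      have := norm_add_le (D.ga e1 r h x - D.g0) D.g0
      rwa [sub_add_cancel] at this
    have := hdel x
    linarith
  have hC0 : 0 ≤ C1 := (norm_nonneg _).trans hγ
  have hrowG : ∑ y, ‖D.GG e1 r h x y‖ ^ 2 ≤ 2 * C1 / D.et r := by
    have h1 := rsc_row hS.sym (half_pos het) hbb x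
    rw [← hGG, GG_diag hS hr] at h1
    have h2 : (D.ga e1 r h x).im ≤ C1 :=
      ((le_abs_self _).trans (Complex.abs_im_le_norm _)).trans hγ
    refine h1.trans ?_
    calc (D.ga e1 r h x).im / (D.et r / 2) ≤ C1 / (D.et r / 2) :=
          div_le_div_of_nonneg_right h2 (half_pos het).le
      _ = 2 * C1 / D.et r := by
          field_simp
  -- the difference
  have e1' : D.G r h x x - D.GG e1 r h x x =
      -(D.kp e1 r : ℂ) * ∑ y, D.G r h x y * δ y * D.GG e1 r h y x := by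
    have h1 := rsc_sub hS.sym hb0 hbn
    rw [← gd_rsc, ← hGG] at h1
    have h2 := congrFun (congrFun h1 x) x
    rw [Matrix.sub_apply, Matrix.mul_apply] at h2
    rw [h2, Finset.mul_sum]
    refine Finset.sum_congr rfl fun y _ => ?_
    rw [Matrix.mul_diagonal]
    have h3 := gd_diff D e1 r h y
    have h4 : D.bb e1 r h y - ((h y : ℂ) - D.zr r) = -((D.kp e1 r : ℂ) * δ y) := by
      rw [hδ]
      simp only
      rw [← h3]
      ring
    rw [h4]
    ring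
  have hcs : ‖D.G r h x x - D.GG e1 r h x x‖ ≤
      D.kp e1 r * (a1 * (3 / 2 * (2 * C1 / D.et r))) := by
    rw [e1', norm_mul, norm_neg, Complex.norm_real, Real.norm_of_nonneg hk.le]
    refine mul_le_mul_of_nonneg_left ?_ hk.le
    calc ‖∑ y, D.G r h x y * δ y * D.GG e1 r h y x‖
        ≤ ∑ y, ‖D.G r h x y * δ y * D.GG e1 r h y x‖ := norm_sum_le _ _
      _ ≤ ∑ y, a1 * (‖D.G r h x y‖ * ‖D.GG e1 r h x y‖) := by
          refine Finset.sum_le_sum fun y _ => ?_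
          rw [norm_mul, norm_mul, GG_symm hS r h y x]
          have h1 := mul_le_mul_of_nonneg_right (hdel y)
            (mul_nonneg (norm_nonneg (D.G r h x y)) (norm_nonneg (D.GG e1 r h x y)))
          calc ‖D.G r h x y‖ * ‖δ y‖ * ‖D.GG e1 r h x y‖
              = ‖δ y‖ * (‖D.G r h x y‖ * ‖D.GG e1 r h x y‖) := by ring
            _ ≤ _ := h1
      _ = a1 * ∑ y, ‖D.G r h x y‖ * ‖D.GG e1 r h x y‖ := by rw [Finset.mul_sum]
      _ ≤ a1 * (3 / 2 * (2 * C1 / D.et r)) := by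
          refine mul_le_mul_of_nonneg_left ?_ ha0
          have h1 := Finset.sum_mul_sq_le_sq_mul_sq Finset.univ (fun y => ‖D.G r h x y‖)
            (fun y => ‖D.GG e1 r h x y‖)
          have h2 : 0 ≤ 2 * C1 / D.et r := by positivity
          have h3 : (∑ y, ‖D.G r h x y‖ * ‖D.GG e1 r h x y‖) ^ 2 ≤
              (3 / 2 * (2 * C1 / D.et r)) ^ 2 := by
            refine h1.trans ?_
            have h4 : 0 ≤ ∑ y, ‖D.GG e1 r h x y‖ ^ 2 := Finset.sum_nonneg fun _ _ => sq_nonneg _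
            calc (∑ y, ‖D.G r h x y‖ ^ 2) * ∑ y, ‖D.GG e1 r h x y‖ ^ 2
                ≤ ((3 / 2) ^ 2 * ∑ y, ‖D.GG e1 r h x y‖ ^ 2) * ∑ y, ‖D.GG e1 r h x y‖ ^ 2 :=
                  mul_le_mul_of_nonneg_right hrow h4
              _ ≤ ((3 / 2) ^ 2 * (2 * C1 / D.et r)) * (2 * C1 / D.et r) := by
                  have h5 := mul_le_mul_of_nonneg_left hrowG (by norm_num : (0 : ℝ) ≤ (3 / 2) ^ 2)
                  exact mul_le_mul h5 hrowG h4 (by positivity)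
              _ = (3 / 2 * (2 * C1 / D.et r)) ^ 2 := by ring
          exact le_of_pow_le_pow_left₀ (by norm_num) (by positivity) h3
  rw [GG_diag hS hr] at hcs
  have hkx : D.kp e1 r * (a1 * (3 / 2 * (2 * C1 / D.et r))) ≤ 3 * C1 * a1 / rl := by
    rw [show D.kp e1 r * (a1 * (3 / 2 * (2 * C1 / D.et r))) =
      (D.kp e1 r * (3 * C1 * a1)) / D.et r by ring, div_le_div_iff₀ het hrl]
    calc D.kp e1 r * (3 * C1 * a1) * rl = (3 * C1 * a1) * (D.kp e1 r * rl) := by ring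
      _ ≤ (3 * C1 * a1) * D.et r := mul_le_mul_of_nonneg_left hkrl (by positivity)
  have hlast : a1 ≤ C1 * a1 / rl := by
    rw [le_div_iff₀ hrl]
    have h1 : rl ≤ C1 := by
      have := (le_abs_self _).trans (Complex.abs_im_le_norm D.g0)
      linarith
    nlinarith
  have htri : ‖D.G r h x x - D.g0‖ ≤ ‖D.G r h x x - D.ga e1 r h x‖ + ‖D.ga e1 r h x - D.g0‖ := by
    have := norm_add_le (D.G r h x x - D.ga e1 r h x) (D.ga e1 r h x - D.g0)
    rwa [sub_add_sub_cancel] at this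
  have hdx := hdel x
  calc ‖D.G r h x x - D.g0‖ ≤ 3 * C1 * a1 / rl + C1 * a1 / rl := by linarith
    _ = 4 * C1 * a1 / rl := by ring

theorem ga_start (hS : D.SCI e1 I) (hr : (0 : ℝ) ∈ I) (hg : 0 < D.g0.im)
    (hz : 0 < D.et 0) (hG : ∀ x, D.G 0 0 x x = D.g0) (x : ι) : D.ga e1 0 0 x = D.g0 := by
  have hsc : IsSC D.H0 (D.kp e1 0) (fun x => (((0 : ι → ℝ) x : ℝ) : ℂ) - D.zp e1)
      (fun _ => D.g0) := by
    intro y
    refine ⟨hg, ?_⟩
    have h1 : (fun y => (((0 : ι → ℝ) y : ℝ) : ℂ) - D.zp e1 - (D.kp e1 0 : ℂ) * D.g0) =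
        fun y => (((0 : ι → ℝ) y : ℝ) : ℂ) - D.zr 0 := by
      funext y
      simp only [Fl.zr, Fl.zp, Fl.kp]
      push_cast
      ring
    rw [h1, ← gd_rsc]
    exact hG y
  have h2 := gam_eq hS.sym (hS.kpp 0 hr).le hS.zim (fun y => by
    rw [Complex.sub_im, Complex.ofReal_im, zero_sub]) hsc
  exact congrFun h2 x

end Pool.Agent.APS
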