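import Pool.Agent.APS.SCBd

/-! # APS3 SCP2: `ℓ²` bounds of `P = (1 - κ G∘G)⁻¹`.

`X = κ (GG∘GG - Rl)`: `OpLe X (1/50)` because `‖GG∘GG - R‖ ≤ 5 C1 a/(rl η)` (`RG_sub`), `‖R - Rl‖ ≤ y/η`,
`κ ≤ η/rl`, and `(y + 5 C1 a/rl)/rl ≤ 1/50` (hypothesis `hy`).
* `PG_op`: `KG = (1 - κ Rl) - X`.  For `u = P v`: `KG u = v`.  `‖u‖ ≤ 5 ‖(1 - κ Rl) u‖ ≤ 5 (‖v‖ + ‖u‖/50)`, so
  `(9/10) ‖u‖ ≤ 5 ‖v‖`, `‖u‖ ≤ 6 ‖v‖`.
* `BG_op`: `(1/2)(1 + κ GG∘GG) = (1/2)(1 + κ Rl) + X/2`: norm `≤ 47/50 + 1/100 = 19/20`.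
-/

open Matrix Finset

noncomputable section

namespace Pool.Agent.APS

open Pool.Agent.Kin

variable {ι : Type} [Fintype ι] [DecidableEq ι] {D : Fl ι} {e1 C1 rl K a tau r y : ℝ}
  {h : ι → ℝ} {I : Set ℝ} {Rl : Matrix ι ι ℂ}

private theorem p2_X (hS : D.SCI e1 I) (hr : r ∈ I) (hc : D.SCfg e1 C1 rl K a tau r h)
    (hR : OpLe (D.RO.f r h - Rl) (y / D.et r)) (hy0 : 0 ≤ y)
    (hy : (y + 5 * C1 * a / rl) / rl ≤ 1 / 50) :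
    OpLe ((D.kp e1 r : ℂ) • (had2 (D.GG e1 r h) - Rl)) (1 / 50) := by
  have het := hc.cfg.et0
  have hrl := hc.rl0
  have hk := hS.kpp r hr
  have hC : 0 ≤ C1 := by
    have h1 := hc.cfg.C1b
    have h2 := norm_nonneg D.g0
    linarith
  have ha := hc.cfg.a0
  have h1 := RG_sub hS hr hc
  have h2 : had2 (D.GG e1 r h) - Rl =
      (had2 (D.GG e1 r h) - D.RO.f r h) + (D.RO.f r h - Rl) := by abel
  have h3 : 0 ≤ 5 * C1 * a / (rl * D.et r) := by positivity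
  have h4 : 0 ≤ y / D.et r := by positivity
  have h5 := opLe_smul (D.kp e1 r : ℂ) (opLe_add h3 h4 h1 hR)
  rw [← h2, Complex.norm_real, Real.norm_of_nonneg hk.le] at h5
  refine opLe_mono (by positivity) ?_ h5
  calc D.kp e1 r * (5 * C1 * a / (rl * D.et r) + y / D.et r)
      ≤ D.et r / rl * (5 * C1 * a / (rl * D.et r) + y / D.et r) :=
        mul_le_mul_of_nonneg_right (kp_le hc) (by positivity)
    _ = (y + 5 * C1 * a / rl) / rl := by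
        field_simp
        ring
    _ ≤ 1 / 50 := hy

theorem PG_op (hS : D.SCI e1 I) (hr : r ∈ I) (hc : D.SCfg e1 C1 rl K a tau r h)
    (hR : OpLe (D.RO.f r h - Rl) (y / D.et r)) (hy0 : 0 ≤ y)
    (hy : (y + 5 * C1 * a / rl) / rl ≤ 1 / 50)
    (hl : LowB (1 - (D.kp e1 r : ℂ) • Rl) 5) : OpLe (D.PG e1 r h) 6 := by
  intro v
  have hX := p2_X hS hr hc hR hy0 hy
  set X : Matrix ι ι ℂ := (D.kp e1 r : ℂ) • (had2 (D.GG e1 r h) - Rl) with hXd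
  set u : ι → ℂ := D.PG e1 r h *ᵥ v with hu
  have h1 : D.KG e1 r h *ᵥ u = v := by
    rw [hu, Matrix.mulVec_mulVec, KG_mul_PG hS hr h, Matrix.one_mulVec]
  have h2 : (1 - (D.kp e1 r : ℂ) • Rl) *ᵥ u = v + X *ᵥ u := by
    rw [← h1]
    rw [← Matrix.add_mulVec]
    congr 1
    rw [hXd, smul_sub]
    unfold Fl.KG
    abel
  have h3 := hl u
  rw [h2] at h3
  have h4 := hX u
  have h5 : ∑ x, ‖(v + X *ᵥ u) x‖ ^ 2 ≤
      5 / 4 * ∑ x, ‖v x‖ ^ 2 + 5 * ∑ x, ‖(X *ᵥ u) x‖ ^ 2 := by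
    rw [Finset.mul_sum, Finset.mul_sum, ← Finset.sum_add_distrib]
    refine Finset.sum_le_sum fun x _ => ?_
    have h6 : ‖(v + X *ᵥ u) x‖ ≤ ‖v x‖ + ‖(X *ᵥ u) x‖ := by
      rw [Pi.add_apply]
      exact norm_add_le _ _
    have h7 := norm_nonneg (v x)
    have h8 := norm_nonneg ((X *ᵥ u) x)
    have h9 := norm_nonneg ((v + X *ᵥ u) x)
    have h10 := pow_le_pow_left₀ h9 h6 2
    nlinarith [sq_nonneg (‖v x‖ / 2 - 2 * ‖(X *ᵥ u) x‖)]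
  have h0u : 0 ≤ ∑ x, ‖u x‖ ^ 2 := Finset.sum_nonneg fun _ _ => sq_nonneg _
  have h0v : 0 ≤ ∑ x, ‖v x‖ ^ 2 := Finset.sum_nonneg fun _ _ => sq_nonneg _
  linarith

theorem BG_op (hS : D.SCI e1 I) (hr : r ∈ I) (hc : D.SCfg e1 C1 rl K a tau r h)
    (hR : OpLe (D.RO.f r h - Rl) (y / D.et r)) (hy0 : 0 ≤ y)
    (hy : (y + 5 * C1 * a / rl) / rl ≤ 1 / 50)
    (hB : OpLe ((1 / 2 : ℂ) • (1 + (D.kp e1 r : ℂ) • Rl)) (47 / 50)) :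
    OpLe ((1 / 2 : ℂ) • (1 + (D.kp e1 r : ℂ) • had2 (D.GG e1 r h))) (19 / 20) := by
  have hX := opLe_smul (1 / 2 : ℂ) (p2_X hS hr hc hR hy0 hy)
  have h1 : (1 / 2 : ℂ) • (1 + (D.kp e1 r : ℂ) • had2 (D.GG e1 r h)) =
      (1 / 2 : ℂ) • (1 + (D.kp e1 r : ℂ) • Rl) +
        (1 / 2 : ℂ) • ((D.kp e1 r : ℂ) • (had2 (D.GG e1 r h) - Rl)) := by
    rw [← smul_add]
    congr 1
    rw [smul_sub]
    abel
  have h2 : ‖(1 / 2 : ℂ)‖ = 1 / 2 := by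
    rw [norm_div, norm_one]
    norm_num
  rw [h2] at hX
  rw [h1]
  exact opLe_mono (by norm_num) (by norm_num) (opLe_add (by norm_num) (by norm_num) hB hX)

end Pool.Agent.APS
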