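import Pool.Agent.APS.SCBd

/-! # APS3 SCPI: row sums of `P`.

`B = (1/2)(1 + κ G∘G)`; `1 - κ G∘G = 2 (1 - B)`, so `P - B P = (1 - B) P = 1/2`, and by induction
`P = (1/2) ∑_{j < J} B^j + B^J P`.
Row sums: `∑_y ‖B x y‖ ≤ (1/2)(1 + κ ∑_y ‖GG x y‖²) ≤ 1 + 2a/rl` (`GG_krow`), so
`∑_y ‖(B^j) x y‖ ≤ (1 + 2a/rl)^j ≤ (1 + 2a/rl)^J ≤ 2` for `j ≤ J`.
Row `x` of `B^J P` has `ℓ²` norm at most `(19/20)^J 6` (`opLe_mul`, `opLe_row`), so its `ℓ¹` norm is at most
`√N (19/20)^J 6 ≤ 6`.  Total `≤ J + 6`.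
-/

open Matrix Finset

noncomputable section

namespace Pool.Agent.APS

open Pool.Agent.Kin

variable {ι : Type} [Fintype ι] [DecidableEq ι] {D : Fl ι} {e1 C1 rl K a tau r : ℝ}
  {h : ι → ℝ} {I : Set ℝ}

omit [DecidableEq ι] in
private theorem rowLe_mul {A B : Matrix ι ι ℂ} {a b : ℝ} (hA : RowLe A a) (hB : RowLe B b) :
    RowLe (A * B) (a * b) := by
  intro x
  have hb : 0 ≤ b := (sum_nonneg fun y _ => norm_nonneg (B x y)).trans (hB x)
  calc ∑ y, ‖(A * B) x y‖ ≤ ∑ y, ∑ z, ‖A x z‖ * ‖B z y‖ := by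
        refine sum_le_sum fun y _ => ?_
        rw [Matrix.mul_apply]
        refine (norm_sum_le _ _).trans (le_of_eq ?_)
        exact sum_congr rfl fun z _ => norm_mul _ _
    _ = ∑ z, ‖A x z‖ * ∑ y, ‖B z y‖ := by
        rw [sum_comm]
        exact sum_congr rfl fun z _ => (mul_sum _ _ _).symm
    _ ≤ ∑ z, ‖A x z‖ * b := by
        refine sum_le_sum fun z _ => ?_
        exact mul_le_mul_of_nonneg_left (hB z) (norm_nonneg _)
    _ = (∑ z, ‖A x z‖) * b := (sum_mul _ _ _).symm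
    _ ≤ a * b := mul_le_mul_of_nonneg_right (hA x) hb

private theorem rowLe_one : RowLe (1 : Matrix ι ι ℂ) 1 := by
  intro x
  rw [sum_eq_single x]
  · simp
  · intro y _ hy
    rw [Matrix.one_apply_ne hy.symm, norm_zero]
  · intro hx
    exact absurd (mem_univ x) hx

private theorem rowLe_pow {B : Matrix ι ι ℂ} {b : ℝ} (hB : RowLe B b) (j : ℕ) :
    RowLe (B ^ j) (b ^ j) := by
  induction j with
  | zero =>
    rw [pow_zero, pow_zero]
    exact rowLe_one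
  | succ j ih =>
    rw [pow_succ, pow_succ]
    exact rowLe_mul ih hB

private theorem opLe_pow {B : Matrix ι ι ℂ} {b : ℝ} (hB : OpLe B b) (j : ℕ) :
    OpLe (B ^ j) (b ^ j) := by
  induction j with
  | zero =>
    rw [pow_zero, pow_zero]
    exact opLe_one
  | succ j ih =>
    rw [pow_succ, pow_succ]
    exact opLe_mul ih hB

private theorem scpi_neu {B P : Matrix ι ι ℂ} (h : P = (1 / 2 : ℂ) • 1 + B * P) (J : ℕ) :
    P = (1 / 2 : ℂ) • ∑ j ∈ range J, B ^ j + B ^ J * P := by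
  induction J with
  | zero => simp
  | succ J ih =>
    have e1 : B ^ J * P = (1 / 2 : ℂ) • B ^ J + B ^ (J + 1) * P := by
      conv_lhs => rw [h]
      rw [mul_add, Matrix.mul_smul, mul_one, ← mul_assoc, ← pow_succ]
    conv_lhs => rw [ih, e1]
    rw [sum_range_succ, smul_add, add_assoc]

omit [DecidableEq ι] in
private theorem scpi_l1 {A : Matrix ι ι ℂ} {c : ℝ} (hc : 0 ≤ c) (hA : OpLe A c) (x : ι) :
    ∑ y, ‖A x y‖ ≤ √(Fintype.card ι) * c := by
  have h1 := opLe_row hc hA x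
  have h2 : (∑ y, ‖A x y‖) ^ 2 ≤ (Fintype.card ι : ℝ) * ∑ y, ‖A x y‖ ^ 2 := by
    have := sq_sum_le_card_mul_sum_sq (s := (univ : Finset ι)) (f := fun y => ‖A x y‖)
    rwa [card_univ] at this
  refine abs_le_of_sq_le_sq' ?_ (by positivity) |>.2
  rw [mul_pow, Real.sq_sqrt (Nat.cast_nonneg _)]
  exact h2.trans (mul_le_mul_of_nonneg_left h1 (Nat.cast_nonneg _))

theorem PG_row (hS : D.SCI e1 I) (hr : r ∈ I) (hc : D.SCfg e1 C1 rl K a tau r h)
    (hP : OpLe (D.PG e1 r h) 6)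
    (hB : OpLe ((1 / 2 : ℂ) • (1 + (D.kp e1 r : ℂ) • had2 (D.GG e1 r h))) (19 / 20))
    (J : ℕ) (hJ1 : √(Fintype.card ι) * (19 / 20) ^ J ≤ 1) (hJ2 : (1 + 2 * a / rl) ^ J ≤ 2) :
    RowLe (D.PG e1 r h) (J + 6) := by
  by_cases hdet : IsUnit (D.KG e1 r h).det
  swap
  · have h0 : D.PG e1 r h = 0 := Matrix.nonsing_inv_apply_not_isUnit _ hdet
    intro x
    rw [h0]
    simp only [Matrix.zero_apply, norm_zero, sum_const_zero]
    positivity
  set B : Matrix ι ι ℂ := (1 / 2 : ℂ) • (1 + (D.kp e1 r : ℂ) • had2 (D.GG e1 r h)) with hBd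
  set P := D.PG e1 r h with hPd
  have hk := hS.kpp r hr
  have ha0 := hc.cfg.a0
  have hrl := hc.rl0
  have hinv : D.KG e1 r h * P = 1 := Matrix.mul_nonsing_inv _ hdet
  have hKB : D.KG e1 r h = (2 : ℂ) • (1 - B) := by
    rw [hBd, Fl.KG, smul_sub, smul_smul]
    norm_num
    rw [two_smul]
    abel
  have hP1 : P = (1 / 2 : ℂ) • 1 + B * P := by
    rw [hKB, Matrix.smul_mul, sub_mul, one_mul] at hinv
    have h1 : (1 / 2 : ℂ) • ((2 : ℂ) • (P - B * P)) = (1 / 2 : ℂ) • 1 := by rw [hinv]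
    rw [smul_smul] at h1
    norm_num at h1
    have h2 : P = (P - B * P) + B * P := by abel
    rw [h1] at h2
    rw [h2]
    norm_num
    rw [← h2]
  have hexp := scpi_neu hP1 J
  set c : ℝ := 1 + 2 * a / rl with hcd
  have hc1 : 1 ≤ c := by
    have : 0 ≤ 2 * a / rl := by positivity
    linarith
  have hBrow : RowLe B c := by
    intro x
    have h1 : ∀ y, ‖B x y‖ ≤ (1 / 2) * (‖(1 : Matrix ι ι ℂ) x y‖ +
        D.kp e1 r * ‖D.GG e1 r h x y‖ ^ 2) := by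
      intro y
      rw [hBd, Matrix.smul_apply, Matrix.add_apply, Matrix.smul_apply, had2, smul_eq_mul,
        smul_eq_mul, norm_mul]
      have e1 : ‖(1 / 2 : ℂ)‖ = 1 / 2 := by norm_num
      rw [e1]
      refine mul_le_mul_of_nonneg_left ?_ (by norm_num)
      refine (norm_add_le _ _).trans (le_of_eq ?_)
      rw [norm_mul, norm_pow, Complex.norm_real, Real.norm_eq_abs, abs_of_pos hk]
    calc ∑ y, ‖B x y‖ ≤ ∑ y, (1 / 2) * (‖(1 : Matrix ι ι ℂ) x y‖ +
          D.kp e1 r * ‖D.GG e1 r h x y‖ ^ 2) := sum_le_sum fun y _ => h1 y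
      _ = (1 / 2) * (∑ y, ‖(1 : Matrix ι ι ℂ) x y‖ +
          D.kp e1 r * ∑ y, ‖D.GG e1 r h x y‖ ^ 2) := by
          rw [← mul_sum, sum_add_distrib, mul_sum]
      _ ≤ (1 / 2) * (1 + (1 + 4 * a / rl)) := by
          have h2 := rowLe_one (ι := ι) x
          have h3 := GG_krow hS hr hc x
          linarith
      _ = c := by
          rw [hcd]
          ring
  intro x
  have hcJ : ∀ j ∈ range J, ∑ y, ‖(B ^ j) x y‖ ≤ 2 := by
    intro j hj
    refine (rowLe_pow hBrow j x).trans ((pow_le_pow_right₀ hc1 ?_).trans hJ2)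
    exact (mem_range.1 hj).le
  have hlast : ∑ y, ‖(B ^ J * P) x y‖ ≤ 6 := by
    have h1 := scpi_l1 (by positivity) (opLe_mul (opLe_pow hB J) hP) x
    calc ∑ y, ‖(B ^ J * P) x y‖ ≤ √(Fintype.card ι) * ((19 / 20) ^ J * 6) := h1
      _ = (√(Fintype.card ι) * (19 / 20) ^ J) * 6 := by ring
      _ ≤ 1 * 6 := mul_le_mul_of_nonneg_right hJ1 (by norm_num)
      _ = 6 := by norm_num
  calc ∑ y, ‖P x y‖ ≤ ∑ y, ((1 / 2) * ∑ j ∈ range J, ‖(B ^ j) x y‖ + ‖(B ^ J * P) x y‖) := by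
        refine sum_le_sum fun y _ => ?_
        conv_lhs => rw [hexp]
        rw [Matrix.add_apply, Matrix.smul_apply, smul_eq_mul, Matrix.sum_apply]
        refine (norm_add_le _ _).trans ?_
        rw [norm_mul]
        have e1 : ‖(1 / 2 : ℂ)‖ = 1 / 2 := by norm_num
        rw [e1]
        have e2 := norm_sum_le (range J) fun j => (B ^ j) x y
        linarith
    _ = (1 / 2) * ∑ j ∈ range J, ∑ y, ‖(B ^ j) x y‖ + ∑ y, ‖(B ^ J * P) x y‖ := by
        rw [sum_add_distrib, ← mul_sum, sum_comm]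
    _ ≤ (1 / 2) * ∑ j ∈ range J, (2 : ℝ) + 6 := by
        have h1 := sum_le_sum hcJ
        linarith
    _ = J + 6 := by
        rw [sum_const, card_range, nsmul_eq_mul]
        ring

end Pool.Agent.APS
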