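import Pool.Agent.APS.SCDer2

/-! # APS3 SCREG: regularity of the observable `δ`.

Continuity: `ga_cont`, `TG_cont`, `PG_cont`, `u2_cont`, `u3_cont`.  `d1`, `d2`, `d3`: `ga_d1`, `TG_d1`,
`f2_d1`.  `dr`: `gam_hasDeriv` along `r ↦ (κ(r), λ r v - z')`: `κ' = -2 r s`, `c' = λ v`:
`γ' = T (κ' γ - λ v) = -2 r s T γ - ∑_w λ v_w T e_w`.
-/

open Matrix Finset

noncomputable section

namespace Pool.Agent.APS

open Pool.Agent.Kin

variable {ι : Type} [Fintype ι] [DecidableEq ι] {D : Fl ι} {e1 : ℝ} {I : Set ℝ}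

omit [DecidableEq ι] in
private lemma mulVec_cont {S : Set (ℝ × (ι → ℝ))} {M : ℝ × (ι → ℝ) → Matrix ι ι ℂ}
    {u : ℝ × (ι → ℝ) → ι → ℂ} (hM : ∀ x y, ContinuousOn (fun p => M p x y) S)
    (hu : ∀ y, ContinuousOn (fun p => u p y) S) (x : ι) :
    ContinuousOn (fun p => (M p *ᵥ u p) x) S := by
  have h1 : (fun p => (M p *ᵥ u p) x) = fun p => ∑ y, M p x y * u p y := rfl
  rw [h1]
  exact continuousOn_finsetSum _ fun y _ => (hM x y).mul (hu y)

omit [Fintype ι] [DecidableEq ι] in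
private lemma kp_deriv (D : Fl ι) (e1 r : ℝ) :
    HasDerivAt (fun r : ℝ => D.kp e1 r) (-(2 * r * D.s)) r := by
  unfold Fl.kp
  have h1 : HasDerivAt (fun r : ℝ => D.s * (1 - r ^ 2) + e1) (D.s * (0 - 2 * r ^ (2 - 1))) r := by
    have h2 := (hasDerivAt_pow 2 r)
    push_cast at h2
    exact (((hasDerivAt_const r (1 : ℝ)).sub h2).const_mul D.s).add_const e1
  have h3 : D.s * (0 - 2 * r ^ (2 - 1)) = -(2 * r * D.s) := by
    rw [show (2 - 1 : ℕ) = 1 from rfl, pow_one]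
    ring
  rwa [h3] at h1

theorem delO_reg (hS : D.SCI e1 I) : (D.delO e1).Reg D.lam I where
  c0 x := (ga_cont hS x).sub continuousOn_const
  cr x := by
    have h1 : ContinuousOn (fun p : ℝ × (ι → ℝ) => -(2 * (p.1 : ℂ) * (D.s : ℂ)))
        (I ×ˢ Set.univ) := by
      apply Continuous.continuousOn
      fun_prop
    exact h1.mul (mulVec_cont (M := fun p => D.TG e1 p.1 p.2) (u := fun p => D.ga e1 p.1 p.2)
      (fun x y => TG_cont hS x y) (fun y => ga_cont hS y) x)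
  c1 w x := (TG_cont hS x w).neg
  c2 w x := continuousOn_const.mul (mulVec_cont (M := fun p => D.PG e1 p.1 p.2)
      (u := fun p => D.u2 e1 w p.1 p.2) (fun x y => PG_cont hS x y) (fun y => u2_cont hS w y) x)
  c3 w x := mulVec_cont (M := fun p => D.PG e1 p.1 p.2)
      (u := fun p => D.u3 e1 w p.1 p.2) (fun x y => PG_cont hS x y) (fun y => u3_cont hS w y) x
  d1 r hr h w t x := (ga_d1 hS hr h w t x).sub_const _
  d2 r hr h w t x := TG_d1 hS hr h w t x
  d3 r hr h w t x := f2_d1 hS hr h w t x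
  dr r hr v x := by
    have hc : ∀ t x, (((((D.lam * t * v x : ℝ) : ℂ)) - D.zp e1)).im = -(D.zp e1).im := by
      intro t x
      rw [Complex.sub_im, Complex.ofReal_im, zero_sub]
    have hcd : ∀ x, HasDerivAt (fun t : ℝ => ((D.lam * t * v x : ℝ) : ℂ) - D.zp e1)
        ((D.lam * v x : ℝ) : ℂ) r := by
      intro x
      refine HasDerivAt.sub_const _ ?_
      refine HasDerivAt.ofReal_comp ?_
      have h1 := ((hasDerivAt_id r).const_mul D.lam).mul_const (v x)
      rw [mul_one] at h1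
      exact h1
    have h1 := gam_hasDeriv hS.sym hS.zim (fun t => D.kp e1 t)
      (fun t x => ((D.lam * t * v x : ℝ) : ℂ) - D.zp e1) (hS.kpp r hr) hc (kp_deriv D e1 r) hcd x
    have h2 := h1.sub_const D.g0
    have h3 : ((had2 (rsc D.H0 (fun y => ((D.lam * r * v y : ℝ) : ℂ) - D.zp e1 -
        (D.kp e1 r : ℂ) * gam D.H0 (D.kp e1 r)
          (fun x => ((D.lam * r * v x : ℝ) : ℂ) - D.zp e1) y)) *
        (1 - (D.kp e1 r : ℂ) • had2 (rsc D.H0 (fun y => ((D.lam * r * v y : ℝ) : ℂ) - D.zp e1 -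
          (D.kp e1 r : ℂ) * gam D.H0 (D.kp e1 r)
            (fun x => ((D.lam * r * v x : ℝ) : ℂ) - D.zp e1) y)))⁻¹) *ᵥ
        (fun y => ((-(2 * r * D.s) : ℝ) : ℂ) * gam D.H0 (D.kp e1 r)
          (fun x => ((D.lam * r * v x : ℝ) : ℂ) - D.zp e1) y - ((D.lam * v y : ℝ) : ℂ))) x =
        (D.delO e1).fr r (fun w => D.lam * r * v w) x +
          ∑ w, ((D.lam * v w : ℝ) : ℂ) * (D.delO e1).f1 w r (fun w => D.lam * r * v w) x := by
      change ∑ y, D.TG e1 r (fun w => D.lam * r * v w) x y *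
        (((-(2 * r * D.s) : ℝ) : ℂ) * D.ga e1 r (fun w => D.lam * r * v w) y -
          ((D.lam * v y : ℝ) : ℂ)) =
        -(2 * (r : ℂ) * (D.s : ℂ)) * ∑ y, D.TG e1 r (fun w => D.lam * r * v w) x y *
          D.ga e1 r (fun w => D.lam * r * v w) y +
        ∑ w, ((D.lam * v w : ℝ) : ℂ) * -(D.TG e1 r (fun w => D.lam * r * v w) x w)
      rw [Finset.mul_sum, ← Finset.sum_add_distrib]
      refine Finset.sum_congr rfl fun y _ => ?_
      push_cast
      ring
    rw [h3] at h2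
    exact h2

end Pool.Agent.APS
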