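import Pool.Agent.APS.Flow4
import Pool.Agent.APS.SCEst
import Pool.Agent.APS.SCReg
import Pool.Agent.APS.SCGd
import Pool.Agent.APS.SCP2
import Pool.Agent.APS.SCPi

/-! # APS3 SCFLOW: the flow theorem with the self-consistent component `δ` in place of `g`.

The same as `flow4` (Flow4.lean; its proof can be copied once it is there), only the component `g` is replaced by
`δ`: `powComp p (wtV (1/a1) 0 (D.delO e1))`, components `T, Y, O, f` are unchanged.
* Interval: `I' = I ∩ {r | 0 < D.kp e1 r}` is open and contains `[0,1]`; all fields of `FlowHyp4` restrict to `I'`;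
  `SCI D e1 I'` (`Im z' = Im z - e1 Im g0 ≥ Im z/2 > 0`).  Regularity of `δ`: `delO_reg`, `wtV_reg`, `powComp_reg`.
* Start: `δ = 0` at `r = 0` (`ga_start`, `D.hv 0 v = 0`, `H.g00`).
* If `Γ ≤ 3/4` at `h = λ r v`: `‖δ_x‖ ≤ a1`, so by `cfg_of_del` `‖G_xx - g0‖ ≤ 4 C1 a1/rl ≤ a`; `T4_x ≤ tau/η_r`; so
  `Cfg` holds; `O` and `M1` give `‖G_xy‖² ≤ K`; so `SCfg` holds (`a1 ≤ a` because `rl ≤ Im g0 ≤ C1`; `1 ≤ K` by `M1`).
  `Y` gives `‖R - Rl‖ ≤ y/η_r`.  `PG_op`, `BG_op`, `PG_row` (`Pi = J + 6`), `estDel`.  The other components as in `flow4`.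
* Sum of the five components: factors as in `flow4` (`δ` has rate `3`, `16 * 3 = 48`).
-/

open Matrix Finset MeasureTheory

noncomputable section

namespace Pool.Agent.APS

open Pool.Agent.Kin

variable {ι : Type} [Fintype ι] [DecidableEq ι]

/-- the source constant of the self-consistent flow -/
def BS (N C1 rl K Pi lam a a1 tau y dl kap CH ep1 : ℝ) (p : ℕ) : ℝ :=
  16 * (Bdel N C1 rl K Pi lam a1 tau p + BT N C1 lam a tau ep1 1 1 p + BH N C1 lam a tau y 1 p +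
    BO N C1 lam a tau p + BF N C1 K lam a tau kap CH dl p)

/-! ### private lemmas -/

/-- weights of the components -/
private def wtT (D : Fl ι) (tau : ℝ) (r : ℝ) : ℝ := √(D.et r / tau)
private def wtT' (D : Fl ι) (tau : ℝ) (r : ℝ) : ℝ :=
  -(2 * r * D.s * (D.g0.im / 2) / D.et r) * √(D.et r / tau)
private def wtL (D : Fl ι) (y : ℝ) (r : ℝ) : ℝ := D.et r / y
private def wtL' (D : Fl ι) (y : ℝ) (r : ℝ) : ℝ :=
  -(2 * r * D.s * D.g0.im / D.et r) * (D.et r / y)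

private theorem f4_etc (D : Fl ι) : Continuous D.et := by
  unfold Fl.et
  fun_prop

private theorem f4_lin (D : Fl ι) (b : ℝ) {I : Set ℝ} (hI : ∀ r ∈ I, 0 < D.et r) :
    ContinuousOn (fun r => -(2 * r * D.s * b / D.et r)) I := by
  refine ContinuousOn.neg (ContinuousOn.div ?_ (f4_etc D).continuousOn fun r hr => (hI r hr).ne')
  fun_prop

private theorem f4_wtT (D : Fl ι) {tau : ℝ} (ht : 0 < tau) {I : Set ℝ}
    (hI : ∀ r ∈ I, 0 < D.et r) :
    (∀ r ∈ I, HasDerivAt (wtT D tau) (wtT' D tau r) r) ∧ ContinuousOn (wtT' D tau) I := by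
  constructor
  · intro r hr
    have h0 := hI r hr
    have h1 : D.et r / tau ≠ 0 := by positivity
    have h2 := ((hasDerivAt_et D r).div_const tau).sqrt h1
    refine h2.congr_deriv ?_
    unfold wtT'
    have h3 : √(D.et r / tau) ≠ 0 := (Real.sqrt_pos.2 (by positivity)).ne'
    have h4 : √(D.et r / tau) ^ 2 = D.et r / tau := Real.sq_sqrt (by positivity)
    rw [div_eq_iff (by positivity)]
    have h5 : -(2 * r * D.s * (D.g0.im / 2) / D.et r) * √(D.et r / tau) *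
        (2 * √(D.et r / tau)) =
        -(2 * r * D.s * (D.g0.im / 2) / D.et r) * 2 * √(D.et r / tau) ^ 2 := by ring
    rw [h5, h4]
    field_simp
  · unfold wtT'
    refine (f4_lin D (D.g0.im / 2) hI).mul ?_
    exact (Real.continuous_sqrt.comp ((f4_etc D).div_const tau)).continuousOn

private theorem f4_wtL (D : Fl ι) (y : ℝ) {I : Set ℝ}
    (hI : ∀ r ∈ I, 0 < D.et r) :
    (∀ r ∈ I, HasDerivAt (wtL D y) (wtL' D y r) r) ∧ ContinuousOn (wtL' D y) I := by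
  constructor
  · intro r hr
    have h0 := hI r hr
    refine ((hasDerivAt_et D r).div_const y).congr_deriv ?_
    unfold wtL'
    field_simp
  · unfold wtL'
    exact (f4_lin D D.g0.im hI).mul ((f4_etc D).div_const y).continuousOn

private theorem f4_op {p : ℕ} (hp : 1 ≤ p) {A : Matrix ι ι ℂ} {c x : ℝ} (hc : 0 < c)
    (hx : x = 1 / c) (h : tr0 (2 * p) (dil ((c : ℂ) • A)) ≤ 1) : OpLe A x := by
  have h1 := opLe_of_tr0 p hp (A := (c : ℂ) • A) (x := 1) zero_le_one (by rwa [one_pow])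
  have h2 := opLe_smul ((c : ℂ)⁻¹) h1
  rw [smul_smul, inv_mul_cancel₀ (by exact_mod_cast hc.ne'), one_smul, norm_inv, mul_one,
    Complex.norm_real, Real.norm_eq_abs, abs_of_pos hc] at h2
  rw [hx, one_div]
  exact h2

private theorem f4_lowOp {Pi : Matrix ι ι ℂ} {epL : ℝ} (h : LowMode Pi epL) : OpLe Pi 1 := by
  intro u
  have h1 : ∑ x, star ((Pi *ᵥ u) x) * (Pi *ᵥ u) x = ∑ x, star (u x) * (Pi *ᵥ u) x := by
    have e1 : star (Pi *ᵥ u) ⬝ᵥ (Pi *ᵥ u) = star u ⬝ᵥ (Pi *ᵥ u) := by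
      rw [star_mulVec, h.herm, ← dotProduct_mulVec, mulVec_mulVec, h.idem]
    exact e1
  have h2 : ((∑ x, ‖(Pi *ᵥ u) x‖ ^ 2 : ℝ) : ℂ) = ∑ x, star ((Pi *ᵥ u) x) * (Pi *ᵥ u) x := by
    push_cast
    refine Finset.sum_congr rfl fun x _ => ?_
    rw [← Complex.conj_mul']
    rfl
  have h3 : (∑ x, ‖(Pi *ᵥ u) x‖ ^ 2 : ℝ) ≤ ∑ x, ‖u x‖ * ‖(Pi *ᵥ u) x‖ := by
    have e1 : (∑ x, ‖(Pi *ᵥ u) x‖ ^ 2 : ℝ) = ‖((∑ x, ‖(Pi *ᵥ u) x‖ ^ 2 : ℝ) : ℂ)‖ := by
      rw [Complex.norm_real, Real.norm_eq_abs, abs_of_nonneg (Finset.sum_nonneg fun x _ => by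
        positivity)]
    rw [e1, h2, h1]
    refine (norm_sum_le _ _).trans (le_of_eq (Finset.sum_congr rfl fun x _ => ?_))
    rw [norm_mul, norm_star]
  have h4 : (∑ x, ‖u x‖ * ‖(Pi *ᵥ u) x‖) ≤
      (∑ x, ‖u x‖ ^ 2) / 2 + (∑ x, ‖(Pi *ᵥ u) x‖ ^ 2) / 2 := by
    rw [Finset.sum_div, Finset.sum_div, ← Finset.sum_add_distrib]
    refine Finset.sum_le_sum fun x _ => ?_
    nlinarith [sq_nonneg (‖u x‖ - ‖(Pi *ᵥ u) x‖)]
  rw [one_pow, one_mul]
  linarith

private theorem f4_min {A : Matrix ι ι ℂ} {x y : ℝ} (hx : OpLe A x) (hy : OpLe A y) :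
    OpLe A (min x y) := by
  rcases le_total x y with h | h
  · rwa [min_eq_left h]
  · rwa [min_eq_right h]

/-- spectral theorem -/
private lemma f4_spec {κ : Type} [Fintype κ] [DecidableEq κ] {f : Matrix κ κ ℂ}
    (hf : f.IsHermitian) :
    ∃ (V : Matrix κ κ ℂ) (lam : κ → ℝ), Vᴴ * V = 1 ∧ V * Vᴴ = 1 ∧
      f = V * diagonal (fun i => (lam i : ℂ)) * Vᴴ := by
  refine ⟨hf.eigenvectorUnitary, hf.eigenvalues, ?_, ?_, ?_⟩
  · exact (Unitary.mem_iff.1 hf.eigenvectorUnitary.2).1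
  · exact (Unitary.mem_iff.1 hf.eigenvectorUnitary.2).2
  · have := hf.spectral_theorem
    rw [Unitary.conjStarAlgAut_apply] at this
    exact this

/-- for hermitian matrices the trace bounds the norm -/
private lemma f4_opLe_of_tr0 (p : ℕ) (hp : 1 ≤ p) {A : Matrix ι ι ℂ} (hA : A.IsHermitian) {x : ℝ}
    (hx : 0 ≤ x) (h : tr0 (2 * p) A ≤ x ^ (2 * p)) : OpLe A x := by
  obtain ⟨V, lam, hV1, hV2, hf⟩ := f4_spec hA
  have hpow : ∀ n : ℕ, A ^ n = V * diagonal (fun i => ((lam i : ℂ)) ^ n) * Vᴴ := by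
    intro n
    induction n with
    | zero => simp [hV2]
    | succ n ih =>
      rw [pow_succ, ih, hf]
      have e : V * diagonal (fun i => ((lam i : ℂ)) ^ n) * Vᴴ *
          (V * diagonal (fun i => (lam i : ℂ)) * Vᴴ) =
          V * (diagonal (fun i => ((lam i : ℂ)) ^ n) * (Vᴴ * V) *
            diagonal (fun i => (lam i : ℂ))) * Vᴴ := by
        simp only [Matrix.mul_assoc]
      rw [e, hV1, Matrix.mul_one, diagonal_mul_diagonal]
      rfl
  have htr : tr0 (2 * p) A = ∑ i, lam i ^ (2 * p) := by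
    unfold tr0
    rw [hpow, trace_mul_comm, ← Matrix.mul_assoc, hV1, Matrix.one_mul, trace_diagonal,
      Complex.re_sum]
    refine Finset.sum_congr rfl fun i _ => ?_
    rw [← Complex.ofReal_pow, Complex.ofReal_re]
  have hlam : ∀ i, lam i ^ 2 ≤ x ^ 2 := by
    intro i
    have h1 : lam i ^ (2 * p) ≤ x ^ (2 * p) := by
      refine le_trans ?_ (htr ▸ h)
      exact Finset.single_le_sum (f := fun i => lam i ^ (2 * p))
        (fun j _ => (even_two_mul p).pow_nonneg _) (Finset.mem_univ i)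
    rw [pow_mul, pow_mul] at h1
    exact (pow_le_pow_iff_left₀ (sq_nonneg _) (sq_nonneg _) (by omega)).1 h1
  have hiso : ∀ (W : Matrix ι ι ℂ) (_ : Wᴴ * W = 1) (u : ι → ℂ),
      ∑ y, ‖(W *ᵥ u) y‖ ^ 2 = ∑ y, ‖u y‖ ^ 2 := by
    intro W hW u
    have e1 : ∀ v : ι → ℂ, ((∑ y, ‖v y‖ ^ 2 : ℝ) : ℂ) = star v ⬝ᵥ v := by
      intro v
      rw [dotProduct]
      push_cast
      refine Finset.sum_congr rfl fun y _ => ?_
      rw [Pi.star_apply, ← Complex.ofReal_pow, ← Complex.normSq_eq_norm_sq,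
        Complex.normSq_eq_conj_mul_self]
      rfl
    have e2 : ((∑ y, ‖(W *ᵥ u) y‖ ^ 2 : ℝ) : ℂ) = ((∑ y, ‖u y‖ ^ 2 : ℝ) : ℂ) := by
      rw [e1, e1, star_mulVec, ← dotProduct_mulVec, mulVec_mulVec, hW, one_mulVec]
    exact_mod_cast e2
  intro u
  have e : A *ᵥ u = V *ᵥ (diagonal (fun i => (lam i : ℂ)) *ᵥ (Vᴴ *ᵥ u)) := by
    rw [mulVec_mulVec, mulVec_mulVec, ← hf]
  rw [e, hiso V hV1]
  have hVu := hiso Vᴴ (by rw [conjTranspose_conjTranspose]; exact hV2) u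
  rw [← hVu, Finset.mul_sum]
  refine Finset.sum_le_sum fun i _ => ?_
  rw [mulVec_diagonal, norm_mul, mul_pow, Complex.norm_real, Real.norm_eq_abs, sq_abs]
  exact mul_le_mul_of_nonneg_right (hlam i) (sq_nonneg _)

/-- the rows of the component `T` -/
private theorem f4_rowT (D : Fl ι) {tau : ℝ} (ht : 0 < tau) {t : ℝ} (het : 0 < D.et t) (h : ι → ℝ)
    (x : ι) : (∑ y, ‖((wtT D tau t : ℝ) : ℂ) * ((‖D.G t h x y‖ ^ 2 : ℝ) : ℂ)‖ ^ 2) =
      D.et t / tau * ∑ y, ‖D.G t h x y‖ ^ 4 := by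
  rw [Finset.mul_sum]
  refine Finset.sum_congr rfl fun y _ => ?_
  rw [norm_mul, Complex.norm_real, Complex.norm_real, mul_pow, Real.norm_eq_abs, sq_abs,
    Real.norm_eq_abs, sq_abs]
  unfold wtT
  rw [Real.sq_sqrt (by positivity)]
  ring


/-- the square root of a bounded matrix -/
private theorem f4_sqrtOp {B QU : Matrix ι ι ℂ} {b : ℝ} (hb : 0 ≤ b) (hB : Bᴴ = B)
    (hBB : B * B = QU) (hQ : OpLe QU b) : OpLe B √b := by
  intro u
  have h1 : ∑ x, star ((B *ᵥ u) x) * (B *ᵥ u) x = ∑ x, star (u x) * (QU *ᵥ u) x := by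
    have e1 : star (B *ᵥ u) ⬝ᵥ (B *ᵥ u) = star u ⬝ᵥ (QU *ᵥ u) := by
      rw [star_mulVec, hB, ← dotProduct_mulVec, mulVec_mulVec, hBB]
    exact e1
  have h2 : ((∑ x, ‖(B *ᵥ u) x‖ ^ 2 : ℝ) : ℂ) = ∑ x, star ((B *ᵥ u) x) * (B *ᵥ u) x := by
    push_cast
    refine Finset.sum_congr rfl fun x _ => ?_
    rw [← Complex.conj_mul']
    rfl
  have h3 : (∑ x, ‖(B *ᵥ u) x‖ ^ 2 : ℝ) ≤ b * √(∑ x, ‖u x‖ ^ 2) * √(∑ x, ‖u x‖ ^ 2) := by
    have e1 : (∑ x, ‖(B *ᵥ u) x‖ ^ 2 : ℝ) = ‖((∑ x, ‖(B *ᵥ u) x‖ ^ 2 : ℝ) : ℂ)‖ := by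
      rw [Complex.norm_real, Real.norm_eq_abs, abs_of_nonneg (Finset.sum_nonneg fun x _ => by
        positivity)]
    rw [e1, h2, h1]
    exact opLe_form hb hQ u u
  rw [Real.sq_sqrt hb]
  have h4 : √(∑ x, ‖u x‖ ^ 2) * √(∑ x, ‖u x‖ ^ 2) = ∑ x, ‖u x‖ ^ 2 :=
    Real.mul_self_sqrt (Finset.sum_nonneg fun x _ => by positivity)
  rw [mul_assoc, h4] at h3
  exact h3

/-- the columns of the Laplacian of a symmetric matrix sum to zero -/
private theorem f4_lap_col {S : Matrix ι ι ℂ} (hS : ∀ x y, S x y = S y x) (y : ι) :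
    ∑ x, lap S x y = 0 := by
  unfold lap
  simp only [Matrix.sub_apply, Finset.sum_sub_distrib]
  rw [Finset.sum_eq_single y, diagonal_apply_eq, sub_eq_zero]
  · exact Finset.sum_congr rfl fun x _ => hS y x
  · intro x _ hx
    exact diagonal_apply_ne _ hx
  · intro hy
    exact absurd (Finset.mem_univ y) hy

private theorem f4_lap_row (S : Matrix ι ι ℂ) (x : ι) : ∑ y, lap S x y = 0 := by
  unfold lap
  simp only [Matrix.sub_apply, Finset.sum_sub_distrib]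
  rw [Finset.sum_eq_single x, diagonal_apply_eq, sub_eq_zero]
  · intro y _ hy
    exact diagonal_apply_ne _ hy.symm
  · intro hx
    exact absurd (Finset.mem_univ x) hx

/-- the bound of `Pi S` -/
private theorem f4_PiS {D : Fl ι} (sym : RealSym D.H0) {r : ℝ} (het : 0 < D.et r) (h : ι → ℝ)
    {a bH dl CH kap : ℝ} (ha : 0 ≤ a) (hbH : 0 ≤ bH) (hdl : 0 ≤ dl) (hg0 : 0 ≤ D.g0.im)
    {W W' QU QU' B P0 Pi : Matrix ι ι ℂ} (hR : Ref D r CH kap W W' QU QU' B P0)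
    (hg : ∀ x, ‖D.G r h x x - D.g0‖ ≤ a) (hf : OpLe (W * (lap (D.SO.f r h) - QU) * W) dl)
    (hPi : OpLe Pi 1)
    (hlow : OpLe (Pi * (((D.g0.im / D.et r : ℝ) : ℂ) • (1 : Matrix ι ι ℂ) - QU))
      (bH / D.et r)) :
    OpLe (Pi * D.SO.f r h) ((bH + a + 2 * D.g0.im * dl) / D.et r) := by
  have him : 0 < (D.zr r).im := by rw [zr_im]; exact het
  set S := D.SO.f r h with hSdef
  have hSxy : ∀ x y, S x y = ((‖D.G r h x y‖ ^ 2 : ℝ) : ℂ) := fun x y => rfl
  have hGs : ∀ x y, D.G r h x y = D.G r h y x := fun x y => res_symm sym him h x y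
  have hSs : ∀ x y, S x y = S y x := fun x y => by rw [hSxy, hSxy, hGs x y]
  have hward : ∀ x, ∑ y, ‖D.G r h x y‖ ^ 2 = (D.G r h x x).im / D.et r := by
    intro x
    have := ward_row sym him h x
    rw [zr_im] at this
    exact this
  set E := lap S - QU with hE
  have p1 : P0 * lap S = 0 := by
    ext x y
    rw [Matrix.mul_apply, Matrix.zero_apply]
    simp only [hR.hP]
    rw [← Finset.mul_sum, f4_lap_col hSs y, mul_zero]
  have p2 : lap S * P0 = 0 := by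
    ext x y
    rw [Matrix.mul_apply, Matrix.zero_apply]
    simp only [hR.hP]
    rw [← Finset.sum_mul, f4_lap_row S x, zero_mul]
  have p3 : P0 * QU = 0 := by
    rw [← hR.BB, ← Matrix.mul_assoc, hR.PB, Matrix.zero_mul]
  have p4 : QU * P0 = 0 := by
    rw [← hR.BB, Matrix.mul_assoc, hR.BP, Matrix.mul_zero]
  have p5 : P0 * E = 0 := by rw [hE, Matrix.mul_sub, p1, p3, sub_zero]
  have p6 : E * P0 = 0 := by rw [hE, Matrix.sub_mul, p2, p4, sub_zero]
  have p7 : E = B * (W * E * W) * B := by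
    have e1 : B * (W * E * W) * B = (B * W) * E * (W * B) := by
      simp only [Matrix.mul_assoc]
    rw [e1, hR.BW, hR.WB, Matrix.sub_mul, Matrix.one_mul, p5, sub_zero, Matrix.mul_sub,
      Matrix.mul_one, p6, sub_zero]
  have hb0 : 0 ≤ 2 * D.g0.im / D.et r := by positivity
  have oB := f4_sqrtOp hb0 hR.hB hR.BB hR.nQU
  have oE : OpLe E (2 * D.g0.im / D.et r * dl) := by
    have h1 := opLe_mul (opLe_mul oB hf) oB
    rw [← p7] at h1
    have h2 : √(2 * D.g0.im / D.et r) * dl * √(2 * D.g0.im / D.et r) =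
        2 * D.g0.im / D.et r * dl := by
      rw [mul_right_comm, Real.mul_self_sqrt hb0]
    rwa [h2] at h1
  have hdiag : S = (((D.g0.im / D.et r : ℝ) : ℂ) • (1 : Matrix ι ι ℂ) - QU) +
      diagonal (fun x => ((((D.G r h x x - D.g0).im / D.et r : ℝ)) : ℂ)) - E := by
    have e1 : S = diagonal (fun x => ∑ y, S x y) - lap S := by
      unfold lap
      rw [sub_sub_cancel]
    have e2 : diagonal (fun x => ∑ y, S x y) =
        ((D.g0.im / D.et r : ℝ) : ℂ) • (1 : Matrix ι ι ℂ) +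
        diagonal (fun x => ((((D.G r h x x - D.g0).im / D.et r : ℝ)) : ℂ)) := by
      rw [← diagonal_one, ← diagonal_smul, diagonal_add]
      congr 1
      ext x
      show ∑ y, S x y = ((D.g0.im / D.et r : ℝ) : ℂ) * 1 +
        (((D.G r h x x - D.g0).im / D.et r : ℝ) : ℂ)
      simp only [hSxy]
      rw [mul_one, ← Complex.ofReal_sum, hward x, ← Complex.ofReal_add, Complex.sub_im]
      congr 1
      ring
    rw [hE]
    nth_rewrite 1 [e1]
    rw [e2]
    abel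
  have o2 : OpLe (Pi * diagonal (fun x => ((((D.G r h x x - D.g0).im / D.et r : ℝ)) : ℂ)))
      (1 * (a / D.et r)) := by
    refine opLe_mul hPi (opLe_diagonal _ _ fun x => ?_)
    rw [Complex.norm_real, Real.norm_eq_abs, abs_div, abs_of_pos het]
    exact div_le_div_of_nonneg_right ((Complex.abs_im_le_norm _).trans (hg x)) het.le
  have o3 : OpLe (Pi * E) (1 * (2 * D.g0.im / D.et r * dl)) := opLe_mul hPi oE
  have o4 := opLe_sub (by positivity) (by positivity)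
    (opLe_add (by positivity) (by positivity) hlow o2) o3
  rw [← Matrix.mul_add, ← Matrix.mul_sub, ← hdiag] at o4
  have e5 : bH / D.et r + 1 * (a / D.et r) + 1 * (2 * D.g0.im / D.et r * dl) =
      (bH + a + 2 * D.g0.im * dl) / D.et r := by
    field_simp
  rwa [e5] at o4

/-- five components -/
private theorem f4_add {c1 c2 c3 c4 c5 : Comp ι} {lam s et r M B1 B2 B3 B4 B5 : ℝ} {h : ι → ℝ}
    (hs : 0 ≤ s) (het : 0 < et) (hr : 0 ≤ r) (hM : 0 ≤ M) (h1 : 0 ≤ c1.Ga r h)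
    (h2 : 0 ≤ c2.Ga r h) (h3 : 0 ≤ c3.Ga r h) (h4 : 0 ≤ c4.Ga r h) (h5 : 0 ≤ c5.Ga r h)
    (b1 : 0 ≤ B1) (b2 : 0 ≤ B2) (b3 : 0 ≤ B3) (b4 : 0 ≤ B4) (b5 : 0 ≤ B5)
    (e1 : ∃ q, c1.Est2 lam s et r M B1 h q) (e2 : ∃ q, c2.Est2 lam s et r M B2 h q)
    (e3 : ∃ q, c3.Est2 lam s et r M B3 h q) (e4 : ∃ q, c4.Est2 lam s et r M B4 h q)
    (e5 : ∃ q, c5.Est2 lam s et r M B5 h q) :
    ∃ q, ((((c1.add c2).add c3).add c4).add c5).Est2 lam s et r (16 * M)
      (16 * (B1 + B2 + B3 + B4 + B5)) h q := by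
  obtain ⟨q1, e1⟩ := e1
  obtain ⟨q2, e2⟩ := e2
  obtain ⟨q3, e3⟩ := e3
  obtain ⟨q4, e4⟩ := e4
  obtain ⟨q5, e5⟩ := e5
  have g12 : 0 ≤ (c1.add c2).Ga r h := add_nonneg h1 h2
  have g123 : 0 ≤ ((c1.add c2).add c3).Ga r h := add_nonneg g12 h3
  have g1234 : 0 ≤ (((c1.add c2).add c3).add c4).Ga r h := add_nonneg g123 h4
  have g12345 : 0 ≤ ((((c1.add c2).add c3).add c4).add c5).Ga r h := add_nonneg g1234 h5
  have a1 := est2_add (Am := M) hs het hr h1 h2 hM hM b1 b2 le_rfl le_rfl e1 e2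
  have a2 := est2_add (Am := 2 * M) hs het hr g12 h3 (by positivity) hM (by positivity) b3 le_rfl
    (by linarith) a1 e3
  have a3 := est2_add (Am := 2 * (2 * M)) hs het hr g123 h4 (by positivity) hM (by positivity) b4
    le_rfl (by linarith) a2 e4
  have a4 := est2_add (Am := 2 * (2 * (2 * M))) hs het hr g1234 h5 (by positivity) hM
    (by positivity) b5 le_rfl (by linarith) a3 e5
  exact ⟨_, est2_mono hs het hr g12345 (by linarith) (by linarith) a4⟩

private theorem f4_BT {N C1 lam a tau epL et ep1 : ℝ} {p : ℕ} (hN : 0 ≤ N) (hC : 0 ≤ C1)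
    (ht : 0 < tau) (hep : 0 ≤ epL) (het : 0 < et) (hle : epL ≤ ep1 * et) :
    BT N C1 lam a tau epL et 1 p ≤ BT N C1 lam a tau ep1 1 1 p := by
  have h1 : 200 * (p : ℝ) ^ 2 * C1 ^ 5 * epL / (et * tau) ≤
      200 * (p : ℝ) ^ 2 * C1 ^ 5 * ep1 / (1 * tau) := by
    rw [div_le_div_iff₀ (by positivity) (by positivity)]
    have h2 : epL * (1 * tau) ≤ ep1 * (et * tau) := by
      have := mul_le_mul_of_nonneg_right hle ht.le
      linarith
    have h3 : 0 ≤ 200 * (p : ℝ) ^ 2 * C1 ^ 5 := by positivity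
    have := mul_le_mul_of_nonneg_left h2 h3
    linarith
  have h0 : 0 ≤ 200 * (p : ℝ) ^ 2 * C1 ^ 5 * epL / (et * tau) := by positivity
  unfold BT
  gcongr

theorem flowS {μ : Measure ℝ} {bd sg CT : ℝ} {T T3 : ℝ → ℝ} (hS : SteinLaw μ bd sg CT T T3)
    (D : Fl ι) (hsg : D.sg = sg) (C1 K a tau y dl cR CH kap bH ep1 taui : ℝ) (I : Set ℝ)
    (Rl Rl' W W' QU QU' B : ℝ → Matrix ι ι ℂ) (P0 : Matrix ι ι ℂ)
    (H : FlowHyp4 D C1 K a tau y dl cR CH kap bH ep1 taui I Rl Rl' W W' QU QU' B P0)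
    (rl e1 a1 : ℝ) (hrl : 0 < rl) (hrl1 : rl ≤ D.g0.im) (he1 : 0 < e1)
    (hez : e1 * D.g0.im ≤ D.z.im / 2) (ha1 : 0 < a1) (ha1a : 4 * C1 * a1 ≤ rl * a)
    (harl : 4 * C1 * a ≤ rl) (ha4 : 16 * C1 ^ 3 * a ^ 4 ≤ rl ^ 4 * tau)
    (hy : (y + 5 * C1 * a / rl) / rl ≤ 1 / 50)
    (hL1 : ∀ r ∈ Set.Icc (0 : ℝ) 1, LowB (1 - (D.kp e1 r : ℂ) • Rl r) 5)
    (hL2 : ∀ r ∈ Set.Icc (0 : ℝ) 1,
      OpLe ((1 / 2 : ℂ) • (1 + (D.kp e1 r : ℂ) • Rl r)) (47 / 50))
    (J : ℕ) (hJ1 : √(Fintype.card ι) * (19 / 20) ^ J ≤ 1) (hJ2 : (1 + 2 * a / rl) ^ J ≤ 2)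
    (p : ℕ) (hp : 2 ≤ p) (A : ℝ → ℝ)
    (hA0 : ∀ r ∈ Set.Icc (0 : ℝ) 1, 48 ≤ A r)
    (hAT : ∀ r ∈ Set.Icc (0 : ℝ) 1,
      16 * (400 * p ^ 2 * C1 ^ 2 * (bH + a + 2 * D.g0.im * dl + tau) + 6) ≤ A r)
    (hAY : ∀ r ∈ Set.Icc (0 : ℝ) 1, 16 * (2 * p * (2 * cR * D.et r + y) + 3) ≤ A r)
    (Phi Phi' : ℝ → ℝ) (hPhi : ∀ r ∈ Set.Icc (0 : ℝ) 1, HasDerivAt Phi (Phi' r) r)
    (hPhi0 : Phi 0 = 0)
    (hPhi1 : ∀ r ∈ Set.Icc (0 : ℝ) 1, 2 * r * D.s / D.et r * A r ≤ Phi' r) :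
    (Measure.pi fun _ : ι => μ).real
        {v | ¬ Good4 D 1 (D.hv 1 v) a tau y dl (Rl 1) (W 1) (QU 1)} ≤
      4 * ((Fintype.card ι : ℝ) * (taui / tau) ^ p +
        (1 + 2 * CT / sg) *
          BS (Fintype.card ι) C1 rl K (J + 6) D.lam a a1 tau y dl kap CH ep1 p *
          (Real.log (D.et 0 / D.et 1) / D.g0.im)) *
        Real.exp (4 * (1 + 2 * CT / sg) * Phi 1) := by
  have hspos : 0 < D.s := by
    unfold Fl.s
    have := H.lam0
    have := H.sg0
    positivity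
  have hkpc : Continuous (fun r : ℝ => D.kp e1 r) := by
    unfold Fl.kp
    fun_prop
  obtain ⟨I', hI'def⟩ : ∃ I' : Set ℝ, I' = I ∩ {r | 0 < D.kp e1 r} := ⟨_, rfl⟩
  have hI'I : I' ⊆ I := by
    rw [hI'def]
    exact Set.inter_subset_left
  have hI'k : ∀ r ∈ I', 0 < D.kp e1 r := by
    intro r hr
    rw [hI'def] at hr
    exact hr.2
  have hI'o : IsOpen I' := by
    rw [hI'def]
    exact H.Io.inter (isOpen_lt continuous_const hkpc)
  have hI's : Set.Icc (0 : ℝ) 1 ⊆ I' := by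
    intro r hr
    rw [hI'def]
    refine ⟨H.Isub hr, ?_⟩
    have h1 : r ^ 2 ≤ 1 := pow_le_one₀ hr.1 hr.2
    have h2 : 0 ≤ D.s * (1 - r ^ 2) := mul_nonneg hspos.le (by linarith)
    show 0 < D.kp e1 r
    unfold Fl.kp
    linarith
  have H' : FlowHyp4 D C1 K a tau y dl cR CH kap bH ep1 taui I' Rl Rl' W W' QU QU' B P0 :=
    { H with
      Io := hI'o
      Isub := hI's
      Iet := fun r hr => H.Iet r (hI'I hr)
      dRl := fun r hr => H.dRl r (hI'I hr)
      cRl := fun x y => (H.cRl x y).mono hI'I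
      eRl := fun r hr => H.eRl r (hI'I hr)
      dW := fun r hr => H.dW r (hI'I hr)
      cW := fun x y => (H.cW x y).mono hI'I
      dQU := fun r hr => H.dQU r (hI'I hr)
      cQU := fun x y => (H.cQU x y).mono hI'I }
  clear H
  obtain ⟨sym, lam0, lam1, sg0, g0im, zim, C1b, M1, a_0, a_1, tau_0, tau_1, y_0, dl0, dl1, cR0, bH0,
    Io, Isub, Iet, dRl, cRl, eRl, oRl, hW, hQU, dW, cW, dQU, cQU, ref, low, g00, T40, Rl0, QU0⟩ := H'
  have hSC : D.SCI e1 I' := by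
    refine ⟨sym, ?_, hI'k⟩
    have h1 : (D.zp e1).im = D.z.im - e1 * D.g0.im := by
      unfold Fl.zp
      rw [Complex.sub_im, Complex.im_ofReal_mul]
    rw [h1]
    linarith
  have hs0 : 0 < D.s := by
    unfold Fl.s
    positivity
  have h0I : (0 : ℝ) ∈ I' := Isub ⟨le_rfl, zero_le_one⟩
  have het0 : 0 < D.et 0 := Iet 0 h0I
  have hC1 : 0 ≤ C1 := by
    have := norm_nonneg D.g0
    linarith
  have hC1one : 1 ≤ C1 := by
    have := norm_nonneg D.g0
    linarith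
  have hrlC : rl ≤ C1 := by
    have h1 := (le_abs_self _).trans (Complex.abs_im_le_norm D.g0)
    linarith
  have ha1_a : a1 ≤ a := by
    have h1 : rl * a ≤ C1 * a := mul_le_mul_of_nonneg_right hrlC a_0.le
    have h2 : C1 * (4 * a1) ≤ C1 * a := by linarith
    have h3 := le_of_mul_le_mul_left h2 (by linarith)
    linarith
  have ha1_1 : a1 ≤ 1 := ha1_a.trans a_1
  have ha1_rl : 4 * a1 ≤ rl := by
    have h1 : a ≤ C1 * a := le_mul_of_one_le_left a_0.le hC1one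
    linarith
  -- the components
  set cg : Comp ι := powComp p (wtV (fun _ => 1 / a1) (fun _ => 0) (D.delO e1)) with hcg
  set cT : Comp ι := rowComp p (wtM (wtT D tau) (wtT' D tau) D.SO) with hcT
  set cY : Comp ι := trComp (2 * p) (D.yO Rl Rl' (wtL D y) (wtL' D y)) with hcY
  set cO : Comp ι := powComp p (offO D) with hcO
  set cF : Comp ι := trComp (2 * p) (D.fO W W' QU QU' (1 / dl)) with hcF
  have rg : cg.Reg D.lam I' := powComp_reg p hp _ (wtV_reg (delO_reg hSC) _ _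
    (fun r _ => hasDerivAt_const r _) continuousOn_const)
  have rT : cT.Reg D.lam I' := rowComp_reg p hp _ (wtM_reg (SO_reg D sym I' Iet) _ _
    (f4_wtT D tau_0 Iet).1 (f4_wtT D tau_0 Iet).2)
  have rY : cY.Reg D.lam I' := trComp_reg p (by omega) _ (dilM_reg (wtM_reg (subM_reg
    (RO_reg D sym I' Iet) _ _ dRl cRl) _ _ (f4_wtL D y Iet).1 (f4_wtL D y Iet).2))
    (fun r h => dil_herm _)
  have rO : cO.Reg D.lam I' := powComp_reg p hp _ (offO_reg D sym I' Iet)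
  have hFherm : ∀ r h, ((D.fO W W' QU QU' (1 / dl)).f r h).IsHermitian := fun r h =>
    fO_herm_all D sym W W' QU QU' (1 / dl) hW hQU r h
  have rF : cF.Reg D.lam I' := trComp_reg p (by omega) _ (wtM_reg (swM_reg (subM_reg (lapM_reg
    (SO_reg D sym I' Iet)) _ _ dQU cQU) _ _ dW cW) _ _
    (fun r _ => hasDerivAt_const r _) continuousOn_const) hFherm
  have rAll : ((((cg.add cT).add cY).add cO).add cF).Reg D.lam I' :=
    reg_add (reg_add (reg_add (reg_add rg rT) rY) rO) rF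
  have hAll : ∀ (t : ℝ) (h : ι → ℝ), ((((cg.add cT).add cY).add cO).add cF).Ga t h =
      cg.Ga t h + cT.Ga t h + cY.Ga t h + cO.Ga t h + cF.Ga t h := fun t h => rfl
  -- consequences of a small functional
  have hdelb : ∀ t ∈ Set.Icc (0 : ℝ) 1, ∀ h : ι → ℝ,
      ((((cg.add cT).add cY).add cO).add cF).Ga t h ≤ 3 / 4 →
      ∀ x, ‖D.ga e1 t h x - D.g0‖ ≤ a1 := by
    intro t ht h hG x
    have htI := Isub ht
    rw [hAll] at hG
    have n1 := rg.nn t htI h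
    have n2 := rT.nn t htI h
    have n3 := rY.nn t htI h
    have n4 := rO.nn t htI h
    have n5 := rF.nn t htI h
    have h1 : ∑ x, ‖((1 / a1 : ℝ) : ℂ) * (D.ga e1 t h x - D.g0)‖ ^ (2 * p) ≤ 1 := by
      have : cg.Ga t h ≤ 1 := by linarith
      exact this
    have h2 : ‖((1 / a1 : ℝ) : ℂ) * (D.ga e1 t h x - D.g0)‖ ^ (2 * p) ≤ 1 :=
      (Finset.single_le_sum (f := fun x => ‖((1 / a1 : ℝ) : ℂ) *
          (D.ga e1 t h x - D.g0)‖ ^ (2 * p))
        (fun i _ => by positivity) (Finset.mem_univ x)).trans h1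
    have h3 : ‖((1 / a1 : ℝ) : ℂ) * (D.ga e1 t h x - D.g0)‖ ≤ 1 :=
      (pow_le_one_iff_of_nonneg (norm_nonneg _) (by omega)).1 h2
    rw [norm_mul, Complex.norm_real, Real.norm_eq_abs, abs_of_pos (by positivity),
      one_div, inv_mul_le_iff₀ ha1, mul_one] at h3
    exact h3
  have hcons : ∀ t ∈ Set.Icc (0 : ℝ) 1, ∀ h : ι → ℝ,
      ((((cg.add cT).add cY).add cO).add cF).Ga t h ≤ 3 / 4 →
      Good4 D t h a tau y dl (Rl t) (W t) (QU t) := by
    intro t ht h hG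
    have hdel := hdelb t ht h hG
    have htI := Isub ht
    have het := Iet t htI
    rw [hAll] at hG
    have n1 := rg.nn t htI h
    have n2 := rT.nn t htI h
    have n3 := rY.nn t htI h
    have n4 := rO.nn t htI h
    have n5 := rF.nn t htI h
    refine ⟨?_, ?_, ?_, ?_⟩
    · intro x
      refine (cfg_of_del hSC htI hs0 ht.1 ht.2 het hrl hrl1 C1b he1 hez ha1.le ha1_1 ha1_rl hdel
        x).trans ?_
      rw [div_le_iff₀ hrl]
      linarith
    · intro x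
      have h1 : ∑ x, (∑ y, ‖((wtT D tau t : ℝ) : ℂ) * ((‖D.G t h x y‖ ^ 2 : ℝ) : ℂ)‖ ^ 2) ^ p ≤
          1 := by
        have : cT.Ga t h ≤ 1 := by linarith
        exact this
      have h2 : (∑ y, ‖((wtT D tau t : ℝ) : ℂ) * ((‖D.G t h x y‖ ^ 2 : ℝ) : ℂ)‖ ^ 2) ^ p ≤ 1 :=
        (Finset.single_le_sum (f := fun x => (∑ y, ‖((wtT D tau t : ℝ) : ℂ) *
          ((‖D.G t h x y‖ ^ 2 : ℝ) : ℂ)‖ ^ 2) ^ p)
          (fun i _ => by positivity) (Finset.mem_univ x)).trans h1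
      have h3 : (∑ y, ‖((wtT D tau t : ℝ) : ℂ) * ((‖D.G t h x y‖ ^ 2 : ℝ) : ℂ)‖ ^ 2) ≤ 1 :=
        (pow_le_one_iff_of_nonneg (by positivity) (by omega)).1 h2
      rw [f4_rowT D tau_0 het h x] at h3
      rw [le_div_iff₀ het]
      have h5 : (∑ w, ‖D.G t h x w‖ ^ 4) * D.et t =
          tau * (D.et t / tau * ∑ y, ‖D.G t h x y‖ ^ 4) := by
        field_simp
      rw [h5]
      nlinarith
    · refine f4_op (p := p) (by omega) (c := wtL D y t) (by unfold wtL; positivity) ?_ ?_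
      · unfold wtL
        field_simp
      · have : cY.Ga t h ≤ 1 := by linarith
        exact this
    · have h1 : tr0 (2 * p) ((D.fO W W' QU QU' (1 / dl)).f t h) ≤ 1 ^ (2 * p) := by
        rw [one_pow]
        have : cF.Ga t h ≤ 1 := by linarith
        exact this
      have h2 := f4_opLe_of_tr0 p (by omega) (hFherm t h) zero_le_one h1
      have h3 : (D.fO W W' QU QU' (1 / dl)).f t h =
          ((1 / dl : ℝ) : ℂ) • (W t * (lap (D.SO.f t h) - QU t) * W t) := rfl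
      rw [h3] at h2
      have h4 := opLe_smul ((dl : ℝ) : ℂ) h2
      rw [smul_smul, ← Complex.ofReal_mul, mul_one_div_cancel dl0.ne', Complex.ofReal_one,
        one_smul, Complex.norm_real, Real.norm_eq_abs, abs_of_pos dl0, mul_one] at h4
      exact h4
  -- the entries of `G`
  have hconsO : ∀ t ∈ Set.Icc (0 : ℝ) 1, ∀ h : ι → ℝ,
      ((((cg.add cT).add cY).add cO).add cF).Ga t h ≤ 3 / 4 → ∀ x y, ‖D.G t h x y‖ ^ 2 ≤ K := by
    intro t ht h hG x y
    have htI := Isub ht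
    rw [hAll] at hG
    have n1 := rg.nn t htI h
    have n2 := rT.nn t htI h
    have n3 := rY.nn t htI h
    have n4 := rO.nn t htI h
    have n5 := rF.nn t htI h
    have h1 : ∑ q : ι × ι, ‖D.G t h q.1 q.2 - D.G 0 0 q.1 q.2‖ ^ (2 * p) ≤ 1 := by
      have : cO.Ga t h ≤ 1 := by linarith
      exact this
    have h2 : ‖D.G t h x y - D.G 0 0 x y‖ ^ (2 * p) ≤ 1 :=
      (Finset.single_le_sum (f := fun q : ι × ι => ‖D.G t h q.1 q.2 - D.G 0 0 q.1 q.2‖ ^ (2 * p))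
        (fun i _ => by positivity) (Finset.mem_univ (x, y))).trans h1
    have h3 : ‖D.G t h x y - D.G 0 0 x y‖ ≤ 1 :=
      (pow_le_one_iff_of_nonneg (norm_nonneg _) (by omega)).1 h2
    have h4 : ‖D.G t h x y‖ ≤ ‖D.G 0 0 x y‖ + 1 := by
      have h5 := norm_add_le (D.G 0 0 x y) (D.G t h x y - D.G 0 0 x y)
      rw [add_sub_cancel] at h5
      linarith
    exact (pow_le_pow_left₀ (norm_nonneg _) h4 2).trans (M1 x y)
  -- the estimates
  have hN : (0 : ℝ) ≤ Fintype.card ι := Nat.cast_nonneg _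
  have hlam0 : 0 ≤ D.lam := lam0.le
  have hep1 : 0 ≤ ep1 := by
    obtain ⟨Pi, epL, hPi, hle, -⟩ := low 0 ⟨le_rfl, zero_le_one⟩
    have h1 := hPi.ep0.trans hle
    by_contra hneg
    have h2 := mul_neg_of_neg_of_pos (not_le.1 hneg) het0
    linarith
  have href0 := ref 0 ⟨le_rfl, zero_le_one⟩
  have hCH0 := href0.CH0
  have hkap0 := href0.kap0
  have nBT : 0 ≤ BT (Fintype.card ι) C1 D.lam a tau ep1 1 1 p := by
    unfold BT
    positivity
  have nBH : 0 ≤ BH (Fintype.card ι) C1 D.lam a tau y 1 p := by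
    unfold BH
    positivity
  have nBO : 0 ≤ BO (Fintype.card ι) C1 D.lam a tau p := by
    unfold BO
    positivity
  have hK0 : ∀ x : ι, 0 ≤ K := fun x => (sq_nonneg _).trans (M1 x x)
  have nBg : 0 ≤ Bdel (Fintype.card ι) C1 rl K (J + 6) D.lam a1 tau p := by
    unfold Bdel
    rcases isEmpty_or_nonempty ι with hι | ⟨⟨x⟩⟩
    · rw [Fintype.card_eq_zero, Nat.cast_zero, zero_mul]
    · have := hK0 x
      positivity
  have nBF : 0 ≤ BF (Fintype.card ι) C1 K D.lam a tau kap CH dl p := by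
    unfold BF
    rcases isEmpty_or_nonempty ι with hι | ⟨⟨x⟩⟩
    · rw [Fintype.card_eq_zero, Nat.cast_zero, zero_mul]
    · have := hK0 x
      positivity
  have hApos : ∀ t ∈ Set.Icc (0 : ℝ) 1, 48 ≤ A t := hA0
  have hest : ∀ t ∈ Set.Icc (0 : ℝ) 1, ∀ v : ι → ℝ, (∀ w, |v w| ≤ bd) →
      ((((cg.add cT).add cY).add cO).add cF).Ga t (D.hv t v) ≤ 3 / 4 →
      ∃ q : ι → ℝ, ((((cg.add cT).add cY).add cO).add cF).Est2 D.lam D.s (D.et t) t (A t)
        (BS (Fintype.card ι) C1 rl K (J + 6) D.lam a a1 tau y dl kap CH ep1 p) (D.hv t v) q := by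
    intro t ht v _ hG
    obtain ⟨k1, k2, k3, k4⟩ := hcons t ht _ hG
    have kO := hconsO t ht _ hG
    have htI := Isub ht
    have het := Iet t htI
    have ht0 : 0 ≤ t := ht.1
    set h : ι → ℝ := D.hv t v with hh
    have hc : D.Cfg C1 a tau t h := ⟨sym, ht0, ht.2, het, hs0, lam0, lam1, g0im.le, C1b,
      a_0, a_1, tau_0, tau_1, k1, k2⟩
    -- bounds for `R` and `Pi S`
    have oR : OpLe (D.RO.f t h) (cR + y / D.et t) := by
      have := opLe_add cR0 (by positivity) (oRl t ht) k3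
      rwa [add_sub_cancel] at this
    have hdel := hdelb t ht _ hG
    have hsc : ∀ K' : ℝ, 1 ≤ K' → (∀ x y, ‖D.G t h x y‖ ^ 2 ≤ K') →
        D.SCfg e1 C1 rl K' a tau t h := fun K' hK' hent =>
      ⟨hc, hrl, hrl1, he1, hez, fun x => (hdel x).trans ha1_a, harl, hK', hent, ha4⟩
    have hE1 : ∃ q, cg.Est2 D.lam D.s (D.et t) t 3
        (Bdel (Fintype.card ι) C1 rl K (J + 6) D.lam a1 tau p) h q := by
      have hgen : ∀ K' : ℝ, 1 ≤ K' → (∀ x y, ‖D.G t h x y‖ ^ 2 ≤ K') →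
          ∃ q, cg.Est2 D.lam D.s (D.et t) t 3
            (Bdel (Fintype.card ι) C1 rl K' (J + 6) D.lam a1 tau p) h q := by
        intro K' hK' hent
        have hsc' := hsc K' hK' hent
        have hP := PG_op hSC htI hsc' k3 y_0.le hy (hL1 t ht)
        have hB := BG_op hSC htI hsc' k3 y_0.le hy (hL2 t ht)
        have hPr := PG_row hSC htI hsc' hP hB J hJ1 hJ2
        have hJ0 : (0 : ℝ) ≤ J := Nat.cast_nonneg J
        exact estDel hSC htI hsc' hP hPr (by linarith) ha1 p hp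
      rcases isEmpty_or_nonempty ι with hι | ⟨⟨x⟩⟩
      · obtain ⟨q1, e1⟩ := hgen 1 le_rfl (fun x => hι.elim x)
        refine ⟨q1, ?_⟩
        have e7 : Bdel (Fintype.card ι) C1 rl 1 (J + 6) D.lam a1 tau p =
            Bdel (Fintype.card ι) C1 rl K (J + 6) D.lam a1 tau p := by
          unfold Bdel
          rw [Fintype.card_eq_zero, Nat.cast_zero, zero_mul, zero_mul]
        rw [e7] at e1
        exact e1
      · refine hgen K ?_ kO
        refine le_trans ?_ (M1 x x)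
        have h1 : 1 ≤ ‖D.G 0 0 x x‖ + 1 := by
          have := norm_nonneg (D.G 0 0 x x)
          linarith
        exact one_le_pow₀ h1
    obtain ⟨q1, e1⟩ := hE1
    obtain ⟨Pi, epL, hPi, hepL, hlow⟩ := low t ht
    have oS : OpLe (Pi * D.SO.f t h) ((bH + a + 2 * D.g0.im * dl) / D.et t) :=
      f4_PiS sym het h a_0.le bH0 dl0.le g0im.le (ref t ht) k1 k4 (f4_lowOp hPi) hlow
    have hn : ∀ c : Comp ι, c.Reg D.lam I' → 0 ≤ c.Ga t h := fun c hc => hc.nn t htI h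
    have hM : ∀ x : ℝ, 16 * x ≤ A t → x ≤ A t / 16 := fun x hx => by linarith
    have hAt := hApos t ht
    obtain ⟨q2, e2⟩ := estT hc p hp hPi (by positivity) oS (wtT D tau) (wtT' D tau)
      (by unfold wtT; exact Real.sq_sqrt (by positivity)) (by rfl) 1 one_pos le_rfl
    obtain ⟨q3, e3⟩ := estY hc p hp Rl Rl' (eRl t htI) cR0 (by positivity) (oRl t ht) oR
      (wtL D y) (wtL' D y) D.g0.im (2 * cR * D.et t + y) y (by unfold wtL; positivity) (by rfl)
      (by unfold wtL; field_simp) (by positivity) (by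
        have e1 : D.et t * cR + D.et t * (cR + y / D.et t) - D.g0.im =
          2 * cR * D.et t + y - D.g0.im := by
          field_simp
          ring
        rw [e1]
        linarith) 1 one_pos le_rfl
    obtain ⟨q4, e4⟩ := estO hc p hp
    have hE5 : ∃ q, cF.Est2 D.lam D.s (D.et t) t 3
        (BF (Fintype.card ι) C1 K D.lam a tau kap CH dl p) h q := by
      rcases isEmpty_or_nonempty ι with hι | ⟨⟨x⟩⟩
      · obtain ⟨q5, e5⟩ := estF hc p hp CH kap W W' QU QU' (B t) P0 (ref t ht) dl dl0 dl1 0 le_rfl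
          (fun x => hι.elim x) k4
        refine ⟨q5, ?_⟩
        have e7 : BF (Fintype.card ι) C1 0 D.lam a tau kap CH dl p =
            BF (Fintype.card ι) C1 K D.lam a tau kap CH dl p := by
          unfold BF
          rw [Fintype.card_eq_zero, Nat.cast_zero, zero_mul, zero_mul]
        rw [e7] at e5
        exact e5
      · exact estF hc p hp CH kap W W' QU QU' (B t) P0 (ref t ht) dl dl0 dl1 K (hK0 x) kO k4
    obtain ⟨q5, e5⟩ := hE5
    have hfin := f4_add (lam := D.lam) (M := A t / 16) hs0.le het ht0 (by positivity) (hn cg rg)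
      (hn cT rT) (hn cY rY) (hn cO rO) (hn cF rF) nBg nBT nBH nBO nBF
      ⟨q1, est2_mono hs0.le het ht0 (hn cg rg) (by linarith) le_rfl e1⟩
      ⟨q2, est2_mono hs0.le het ht0 (hn cT rT) (by
        have := hM _ (hAT t ht)
        linarith) (f4_BT hN hC1 tau_0 hPi.ep0 het hepL) (est_to2 hlam0 lam1 e2)⟩
      ⟨q3, est2_mono hs0.le het ht0 (hn cY rY) (by
        have := hM _ (hAY t ht)
        linarith) le_rfl (est_to2 hlam0 lam1 e3)⟩
      ⟨q4, est2_mono hs0.le het ht0 (hn cO rO) (by linarith) le_rfl (est_to2 hlam0 lam1 e4)⟩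
      ⟨q5, est2_mono hs0.le het ht0 (hn cF rF) (by linarith) le_rfl e5⟩
    obtain ⟨q, hq⟩ := hfin
    refine ⟨q, ?_⟩
    have e6 : 16 * (A t / 16) = A t := by ring
    rw [e6] at hq
    exact hq
  -- the start
  have htaui : ∀ x : ι, 0 ≤ taui := by
    intro x
    have h1 : 0 ≤ taui / D.et 0 :=
      (Finset.sum_nonneg fun w _ => by positivity : (0 : ℝ) ≤ ∑ w, ‖D.G 0 0 x w‖ ^ 4).trans (T40 x)
    have h2 := mul_nonneg h1 het0.le
    rwa [div_mul_cancel₀ _ het0.ne'] at h2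
  have hx0 : 0 ≤ (Fintype.card ι : ℝ) * (taui / tau) ^ p := by
    rcases isEmpty_or_nonempty ι with hι | ⟨⟨x⟩⟩
    · rw [Fintype.card_eq_zero, Nat.cast_zero, zero_mul]
    · have := htaui x
      positivity
  have hst : ∀ v, ((((cg.add cT).add cY).add cO).add cF).Ga 0 (D.hv 0 v) ≤
      (Fintype.card ι : ℝ) * (taui / tau) ^ p := by
    intro v
    have hv0 : D.hv 0 v = 0 := by
      ext w
      simp [Fl.hv]
    rw [hv0, hAll]
    have s1 : cg.Ga 0 0 = 0 := by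
      show ∑ x, ‖((1 / a1 : ℝ) : ℂ) * (D.ga e1 0 0 x - D.g0)‖ ^ (2 * p) = 0
      refine Finset.sum_eq_zero fun x _ => ?_
      rw [ga_start hSC h0I g0im het0 g00 x, sub_self, mul_zero, norm_zero, zero_pow (by omega)]
    have s3 : cY.Ga 0 0 = 0 := by
      show tr0 (2 * p) (dil (((wtL D y 0 : ℝ) : ℂ) • (D.RO.f 0 0 - Rl 0))) = 0
      rw [Rl0, sub_self, smul_zero]
      have e1 : dil (0 : Matrix ι ι ℂ) = 0 := by
        unfold dil
        rw [conjTranspose_zero, fromBlocks_zero]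
      rw [e1]
      unfold tr0
      rw [zero_pow (by omega), trace_zero, Complex.zero_re]
    have s5 : cO.Ga 0 0 = 0 := by
      show ∑ q : ι × ι, ‖D.G 0 0 q.1 q.2 - D.G 0 0 q.1 q.2‖ ^ (2 * p) = 0
      refine Finset.sum_eq_zero fun x _ => ?_
      rw [sub_self, norm_zero, zero_pow (by omega)]
    have s4 : cF.Ga 0 0 = 0 := by
      show tr0 (2 * p) (((1 / dl : ℝ) : ℂ) • (W 0 * (lap (D.SO.f 0 0) - QU 0) * W 0)) = 0
      rw [QU0, sub_self, Matrix.mul_zero, Matrix.zero_mul, smul_zero]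
      unfold tr0
      rw [zero_pow (by omega), trace_zero, Complex.zero_re]
    have s2 : cT.Ga 0 0 ≤ (Fintype.card ι : ℝ) * (taui / tau) ^ p := by
      show ∑ x, (∑ y, ‖((wtT D tau 0 : ℝ) : ℂ) * ((‖D.G 0 0 x y‖ ^ 2 : ℝ) : ℂ)‖ ^ 2) ^ p ≤ _
      calc ∑ x, (∑ y, ‖((wtT D tau 0 : ℝ) : ℂ) * ((‖D.G 0 0 x y‖ ^ 2 : ℝ) : ℂ)‖ ^ 2) ^ p
          ≤ ∑ _x : ι, (taui / tau) ^ p := by
            refine Finset.sum_le_sum fun x _ => ?_
            refine pow_le_pow_left₀ (by positivity) ?_ _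
            rw [f4_rowT D tau_0 het0 0 x]
            calc D.et 0 / tau * ∑ y, ‖D.G 0 0 x y‖ ^ 4 ≤ D.et 0 / tau * (taui / D.et 0) := by
                  gcongr
                  exact T40 x
              _ = taui / tau := by field_simp
        _ = (Fintype.card ι : ℝ) * (taui / tau) ^ p := by
            rw [Finset.sum_const, Finset.card_univ, nsmul_eq_mul]
    rw [s1, s3, s4, s5]
    linarith
  have hB40 : 0 ≤ BS (Fintype.card ι) C1 rl K (J + 6) D.lam a a1 tau y dl kap CH ep1 p := by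
    unfold BS
    positivity
  have hfb := flow_bound2 hS D lam0 lam1 hsg g0im zim I' Io Isub _ rAll A _
    (fun t ht => le_trans (by norm_num) (hApos t ht)) hB40 Phi Phi' hPhi hPhi0 hPhi1 hest _ hx0 hst
  refine le_trans ?_ hfb
  have := hS.prob
  refine measureReal_mono ?_ (measure_ne_top _ _)
  intro v hv
  rw [Set.mem_ofPred_eq] at hv ⊢
  by_contra hcon
  exact hv (hcons 1 ⟨zero_le_one, le_rfl⟩ _ (not_lt.1 hcon))


end Pool.Agent.APS
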