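import Pool.Agent.APS.SCDefs
import Pool.Agent.APS.LadR
import Pool.Agent.APS.ReR0

/-! # APS3 SCLAD: the ladder on the torus.

`σ = s + e1`, `t = s r² = u σ` with `0 ≤ u ≤ 1`, `κ = kp = s(1-r²) + e1 = (1-u) σ`, `ρ = σ r0(k)`.
`‖ρ‖ ≤ 1`: `‖r0 k‖ ≤ ∑ |Mx|² = ρ0/γ` (`World.ST0`: `ST ζ 0 = ρ0/γ`, `γ = et 0 = Im z + s ρ0`) and
`(s + e1) ρ0 ≤ s ρ0 + Im z/2 ≤ γ`.   `Re ρ ≤ (101/100)(3/4) ≤ 38/50 (= 0.76)` if `Re r0 ≥ 0` (`h34`, `hes`), trivial otherwise.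
The symbol of `RL r` is `r0/(1 - t r0)`; `1 - κ r0/(1 - t r0) = (1 - σ r0)/(1 - t r0) = (1 - ρ)/(1 - u ρ)`.
* `lowB_RL`: the inverse symbol is `(1 - uρ)/(1 - ρ) = u + (1-u)/(1-ρ)`, of modulus at most
  `u + (1-u)/0.24 ≤ 1/0.24 ≤ 5`.  `mult` of the inverse symbol times `mult` of the symbol is `1` (`mult_mul`), `mult_op`.
* `op_RL`: the symbol of `(1/2)(1 + κ RL)` is `(1 + (1-2u)ρ)/(2(1 - uρ))`.  With `x = Re ρ`, `m = |ρ|²`, `x² ≤ m ≤ 1`,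
  `x ≤ 0.76`, `c = 4 (47/50)² = 3.5344`:
  `|1 + (1-2u)ρ|² - c |1 - uρ|² = (1 - c) + x (2 + (2c-4)u) + m ((1-2u)² - c u²)`.  It is affine in `m`: at `m = 1` and
  `x ≤ 0.76` it is at most `-0.0144 + u (0.76(2c-4) - 4) + (4-c) u² ≤ 0`; at `m = x²` it is
  `(1 + (1-2u)x)² - c (1-ux)² ≤ 0` because `0 ≤ 1 + (1-2u)x ≤ 1.88 (1 - ux)` (`x(1 - 0.12u) ≤ 0.88`).
-/

open Matrix Finset

noncomputable section

namespace Pool.Agent.APS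

open Pool.Agent.Kin

variable {d L : ℕ} [NeZero L] {D : Fl (Tor d L)} {rlo rhi e1 : ℝ}

private theorem scl_re {ρ : ℂ} {u : ℝ} (hu0 : 0 ≤ u) (hu1 : u ≤ 1) (hx : ρ.re ≤ 19 / 25) :
    6 / 25 ≤ (1 - (u : ℂ) * ρ).re := by
  rw [Complex.sub_re, Complex.one_re, Complex.re_ofReal_mul]
  rcases le_or_gt ρ.re 0 with h | h
  · have : u * ρ.re ≤ 0 := mul_nonpos_of_nonneg_of_nonpos hu0 h
    linarith
  · have : u * ρ.re ≤ 1 * ρ.re := mul_le_mul_of_nonneg_right hu1 h.le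
    linarith

private theorem scl_lo {ρ : ℂ} {u : ℝ} (hu0 : 0 ≤ u) (hu1 : u ≤ 1) (hx : ρ.re ≤ 19 / 25) :
    6 / 25 ≤ ‖1 - (u : ℂ) * ρ‖ :=
  (scl_re hu0 hu1 hx).trans ((le_abs_self _).trans (Complex.abs_re_le_norm _))

private theorem scl_five {ρ : ℂ} {u : ℝ} (hu0 : 0 ≤ u) (hu1 : u ≤ 1) (hx : ρ.re ≤ 19 / 25) :
    ‖1 - (u : ℂ) * ρ‖ ≤ 5 * ‖1 - ρ‖ := by
  have h1 := scl_lo (ρ := ρ) (u := 1) zero_le_one le_rfl hx
  rw [Complex.ofReal_one, one_mul] at h1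
  have h2 : 1 - (u : ℂ) * ρ = (u : ℂ) * (1 - ρ) + ((1 - u : ℝ) : ℂ) := by
    push_cast
    ring
  rw [h2]
  refine (norm_add_le _ _).trans ?_
  rw [norm_mul, Complex.norm_real, Complex.norm_real, Real.norm_eq_abs, Real.norm_eq_abs,
    abs_of_nonneg hu0, abs_of_nonneg (by linarith)]
  nlinarith

private theorem scl_fifty {ρ : ℂ} {u : ℝ} (hu0 : 0 ≤ u) (hu1 : u ≤ 1) (hn : ‖ρ‖ ≤ 1)
    (hx : ρ.re ≤ 19 / 25) :
    ‖1 + ((1 - 2 * u : ℝ) : ℂ) * ρ‖ ≤ 47 / 25 * ‖1 - (u : ℂ) * ρ‖ := by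
  have hm : ρ.re ^ 2 + ρ.im ^ 2 ≤ 1 := by
    have h1 : ‖ρ‖ ^ 2 ≤ 1 := pow_le_one₀ (norm_nonneg _) hn
    rw [← Complex.normSq_eq_norm_sq, Complex.normSq_apply] at h1
    nlinarith
  have h1 : ‖1 + ((1 - 2 * u : ℝ) : ℂ) * ρ‖ ^ 2 =
      (1 + (1 - 2 * u) * ρ.re) ^ 2 + ((1 - 2 * u) * ρ.im) ^ 2 := by
    rw [← Complex.normSq_eq_norm_sq, Complex.normSq_apply]
    simp only [Complex.add_re, Complex.add_im, Complex.one_re, Complex.one_im,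
      Complex.re_ofReal_mul, Complex.im_ofReal_mul]
    ring
  have h2 : ‖1 - (u : ℂ) * ρ‖ ^ 2 = (1 - u * ρ.re) ^ 2 + (u * ρ.im) ^ 2 := by
    rw [← Complex.normSq_eq_norm_sq, Complex.normSq_apply]
    simp only [Complex.sub_re, Complex.sub_im, Complex.one_re, Complex.one_im,
      Complex.re_ofReal_mul, Complex.im_ofReal_mul]
    ring
  refine le_of_sq_le_sq ?_ (by positivity)
  rw [mul_pow, h1, h2]
  obtain ⟨x, hxd⟩ : ∃ x, x = ρ.re := ⟨_, rfl⟩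
  obtain ⟨y, hyd⟩ : ∃ y, y = ρ.im := ⟨_, rfl⟩
  rw [← hxd] at hx
  rw [← hxd, ← hyd] at hm ⊢
  have hx1 : -1 ≤ x := by nlinarith [sq_nonneg y]
  -- at `m = x ^ 2`
  have hA : (1 + (1 - 2 * u) * x) ^ 2 ≤ (47 / 25) ^ 2 * (1 - u * x) ^ 2 := by
    rw [← mul_pow]
    refine pow_le_pow_left₀ ?_ ?_ 2
    · nlinarith
    · rcases le_or_gt x 0 with h | h
      · nlinarith
      · nlinarith
  rcases le_or_gt ((1 - 2 * u) ^ 2 - (47 / 25) ^ 2 * u ^ 2) 0 with hB | hB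
  · nlinarith [sq_nonneg y, mul_nonneg (sq_nonneg y) (neg_nonneg.2 hB)]
  · have h3 : ((1 - 2 * u) ^ 2 - (47 / 25) ^ 2 * u ^ 2) * (x ^ 2 + y ^ 2) ≤
        (1 - 2 * u) ^ 2 - (47 / 25) ^ 2 * u ^ 2 := by nlinarith
    have h4 : (1 - (47 / 25) ^ 2) + x * (2 + (2 * (47 / 25) ^ 2 - 4) * u) +
        ((1 - 2 * u) ^ 2 - (47 / 25) ^ 2 * u ^ 2) ≤ 0 := by
      have h5 : x * (2 + (2 * (47 / 25) ^ 2 - 4) * u) ≤
          19 / 25 * (2 + (2 * (47 / 25) ^ 2 - 4) * u) := by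
        refine mul_le_mul_of_nonneg_right hx ?_
        nlinarith
      nlinarith
    nlinarith

/-- the norm of `σ r0` -/
private theorem scl_norm (hW : World D rlo rhi) (he1 : 0 < e1)
    (hez : e1 * D.g0.im ≤ D.z.im / 2) (k : Tor d L) :
    ‖((D.s + e1 : ℝ) : ℂ) * r0 D k‖ ≤ 1 := by
  have hs := hW.s0
  have hg := hW.g0im
  have hz := hW.zim
  have h0 : 0 < D.et 0 := by
    rw [hW.et_zero]
    positivity
  have hi : 0 < (D.zr 0).im := by rw [hW.zr_im]; exact h0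
  have h1 : ‖r0 D k‖ ≤ D.g0.im / D.et 0 := by
    have h2 : ‖r0 D k‖ ≤ ∑ x : Tor d L, ‖Mx (D.zr 0) x‖ ^ 2 := by
      refine (norm_sum_le _ _).trans (sum_le_sum fun x _ => ?_)
      rw [norm_mul, ch_norm, mul_one, norm_pow]
    rw [Mx_ward _ hi, ← hW.fix, hW.zr_im] at h2
    exact h2
  rw [norm_mul, Complex.norm_real, Real.norm_eq_abs, abs_of_pos (by linarith)]
  calc (D.s + e1) * ‖r0 D k‖ ≤ (D.s + e1) * (D.g0.im / D.et 0) :=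
        mul_le_mul_of_nonneg_left h1 (by linarith)
    _ = ((D.s + e1) * D.g0.im) / D.et 0 := by ring
    _ ≤ 1 := by
        rw [div_le_one h0, hW.et_zero]
        linarith

private theorem scl_rho (hW : World D rlo rhi) (h34 : ∀ k : Tor d L, D.s * (r0 D k).re ≤ 3 / 4)
    (he1 : 0 < e1) (hes : e1 ≤ D.s / 100) (k : Tor d L) :
    (((D.s + e1 : ℝ) : ℂ) * r0 D k).re ≤ 19 / 25 := by
  have hs := hW.s0
  rw [Complex.re_ofReal_mul]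
  have h3 := h34 k
  rcases le_or_gt (r0 D k).re 0 with h | h
  · have : (D.s + e1) * (r0 D k).re ≤ 0 :=
      mul_nonpos_of_nonneg_of_nonpos (by linarith) h
    linarith
  · have : (D.s + e1) * (r0 D k).re ≤ (D.s + D.s / 100) * (r0 D k).re :=
      mul_le_mul_of_nonneg_right (by linarith) h.le
    nlinarith

/-- the parameter `u` -/
private theorem scl_u (hW : World D rlo rhi) (he1 : 0 < e1) {r : ℝ} (hr0 : 0 ≤ r) (hr1 : r ≤ 1) :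
    ∃ u : ℝ, 0 ≤ u ∧ u ≤ 1 ∧ D.s * r ^ 2 = u * (D.s + e1) ∧ D.kp e1 r = (1 - u) * (D.s + e1) := by
  have hs := hW.s0
  have h2 : r ^ 2 ≤ 1 := pow_le_one₀ hr0 hr1
  have hσ : 0 < D.s + e1 := by linarith
  have h3 : D.s * r ^ 2 ≤ D.s := by nlinarith
  refine ⟨D.s * r ^ 2 / (D.s + e1), by positivity, ?_, ?_, ?_⟩
  · rw [div_le_one hσ]
    linarith
  · rw [div_mul_cancel₀ _ hσ.ne']
  · unfold Fl.kp
    rw [sub_mul, div_mul_cancel₀ _ hσ.ne']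
    ring

theorem lowB_RL (hW : World D rlo rhi) (h34 : ∀ k : Tor d L, D.s * (r0 D k).re ≤ 3 / 4)
    (he1 : 0 < e1) (hez : e1 * D.g0.im ≤ D.z.im / 2) (hes : e1 ≤ D.s / 100) {r : ℝ}
    (hr0 : 0 ≤ r) (hr1 : r ≤ 1) : LowB (1 - (D.kp e1 r : ℂ) • RL D r) 5 := by
  obtain ⟨u, hu0, hu1, ht, hk⟩ := scl_u (e1 := e1) hW he1 hr0 hr1
  set ρ : Tor d L → ℂ := fun k => ((D.s + e1 : ℝ) : ℂ) * r0 D k with hρ
  have hx : ∀ k, (ρ k).re ≤ 19 / 25 := fun k => scl_rho hW h34 he1 hes k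
  have hw : ∀ k, 1 - (u : ℂ) * ρ k ≠ 0 := fun k h => by
    have := scl_lo hu0 hu1 (hx k)
    rw [h, norm_zero] at this
    linarith
  have hw1 : ∀ k, 1 - ρ k ≠ 0 := fun k h => by
    have := scl_lo (u := 1) zero_le_one le_rfl (hx k)
    rw [Complex.ofReal_one, one_mul, h, norm_zero] at this
    linarith
  have hden : ∀ k, 1 - ((D.s * r ^ 2 : ℝ) : ℂ) * r0 D k = 1 - (u : ℂ) * ρ k := by
    intro k
    rw [ht, hρ]
    push_cast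
    ring
  have hA : 1 - (D.kp e1 r : ℂ) • RL D r =
      mult fun k => (1 - ρ k) / (1 - (u : ℂ) * ρ k) := by
    unfold RL
    rw [mult_smul, ← mult_one, mult_sub]
    congr 1
    funext k
    rw [hden, eq_div_iff (hw k), sub_mul, one_mul, mul_assoc, div_mul_cancel₀ _ (hw k), hk, hρ]
    push_cast
    ring
  have hB : OpLe (mult fun k => (1 - (u : ℂ) * ρ k) / (1 - ρ k)) 5 := by
    refine mult_op _ _ fun k => ?_
    rw [norm_div, div_le_iff₀ (norm_pos_iff.2 (hw1 k))]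
    exact scl_five hu0 hu1 (hx k)
  intro v
  have h1 := hB ((1 - (D.kp e1 r : ℂ) • RL D r) *ᵥ v)
  rw [Matrix.mulVec_mulVec, hA, mult_mul] at h1
  have h2 : (fun k => (1 - (u : ℂ) * ρ k) / (1 - ρ k) * ((1 - ρ k) / (1 - (u : ℂ) * ρ k))) =
      fun _ => 1 := by
    funext k
    rw [div_mul_div_comm, mul_comm, div_self (mul_ne_zero (hw1 k) (hw k))]
  rw [h2, mult_one, Matrix.one_mulVec] at h1
  rw [hA]
  exact h1

theorem op_RL (hW : World D rlo rhi) (h34 : ∀ k : Tor d L, D.s * (r0 D k).re ≤ 3 / 4)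
    (he1 : 0 < e1) (hez : e1 * D.g0.im ≤ D.z.im / 2) (hes : e1 ≤ D.s / 100) {r : ℝ}
    (hr0 : 0 ≤ r) (hr1 : r ≤ 1) :
    OpLe ((1 / 2 : ℂ) • (1 + (D.kp e1 r : ℂ) • RL D r)) (47 / 50) := by
  obtain ⟨u, hu0, hu1, ht, hk⟩ := scl_u (e1 := e1) hW he1 hr0 hr1
  set ρ : Tor d L → ℂ := fun k => ((D.s + e1 : ℝ) : ℂ) * r0 D k with hρ
  have hx : ∀ k, (ρ k).re ≤ 19 / 25 := fun k => scl_rho hW h34 he1 hes k
  have hw : ∀ k, 1 - (u : ℂ) * ρ k ≠ 0 := fun k h => by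
    have := scl_lo hu0 hu1 (hx k)
    rw [h, norm_zero] at this
    linarith
  have hden : ∀ k, 1 - ((D.s * r ^ 2 : ℝ) : ℂ) * r0 D k = 1 - (u : ℂ) * ρ k := by
    intro k
    rw [ht, hρ]
    push_cast
    ring
  have hA : (1 / 2 : ℂ) • (1 + (D.kp e1 r : ℂ) • RL D r) =
      mult fun k => (1 / 2 : ℂ) * ((1 + ((1 - 2 * u : ℝ) : ℂ) * ρ k) / (1 - (u : ℂ) * ρ k)) := by
    unfold RL
    rw [mult_smul, ← mult_one, mult_add, mult_smul]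
    congr 1
    funext k
    congr 1
    rw [hden, eq_div_iff (hw k), add_mul, one_mul, mul_assoc, div_mul_cancel₀ _ (hw k), hk, hρ]
    push_cast
    ring
  rw [hA]
  refine mult_op _ _ fun k => ?_
  have h1 := scl_fifty hu0 hu1 (scl_norm hW he1 hez k) (hx k)
  have h2 : ‖(1 / 2 : ℂ)‖ = 1 / 2 := by
    rw [norm_div, norm_one, Complex.norm_ofNat]
  have h3 : ‖1 + ((1 - 2 * u : ℝ) : ℂ) * ρ k‖ / ‖1 - (u : ℂ) * ρ k‖ ≤ 47 / 25 := by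
    rw [div_le_iff₀ (norm_pos_iff.2 (hw k))]
    exact h1
  rw [norm_mul, h2, norm_div]
  linarith

end Pool.Agent.APS
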