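import Pool.Agent.APS.YrPhi

/-! # APS3 SCPHI: explicit rate and its primitive for the self-consistent flow.

As YrPhi.lean (its proof can be copied), without the term with `yrf`: `X = bH + a + 2ρ0 dl + tau`,
`Afs = 48 + 16 (400 p² C1² X + 6) + 16 (2p (2 (4/s) η_r + y) + 3) = (192 + 6400 p² C1² X + 32 p y) + 256 p η_r/s`.
-/

open Finset

noncomputable section

namespace Pool.Agent.APS

open Pool.Agent.Kin

variable {d L : ℕ} [NeZero L]

/-- the rate -/
def Afs (D : Fl (Tor d L)) (C1 a tau y dl bH : ℝ) (p : ℕ) (r : ℝ) : ℝ :=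
  48 + 16 * (400 * p ^ 2 * C1 ^ 2 * (bH + a + 2 * D.g0.im * dl + tau) + 6) +
    16 * (2 * p * (2 * (4 / D.s) * D.et r + y) + 3)

/-- the primitive of `(2 r s/η_r) Afs` -/
def Phifs (D : Fl (Tor d L)) (C1 a tau y dl bH : ℝ) (p : ℕ) (r : ℝ) : ℝ :=
  (192 + 6400 * p ^ 2 * C1 ^ 2 * (bH + a + 2 * D.g0.im * dl + tau) + 32 * p * y) * Lamf D r +
    256 * p / (D.s * D.g0.im) * (D.et 0 - D.et r)

theorem sc_phi {D : Fl (Tor d L)} {rlo rhi : ℝ} (hW : World D rlo rhi) (p : ℕ)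
    (C1 a tau y dl bH : ℝ) (hC1 : 1 ≤ C1) (ha : 0 < a) (htau : 0 < tau) (hy : 0 < y)
    (hdl : 0 < dl) (hbH : 0 ≤ bH) :
    (∀ r ∈ Set.Icc (0 : ℝ) 1, 48 ≤ Afs D C1 a tau y dl bH p r) ∧
    (∀ r ∈ Set.Icc (0 : ℝ) 1,
      16 * (400 * p ^ 2 * C1 ^ 2 * (bH + a + 2 * D.g0.im * dl + tau) + 6) ≤
        Afs D C1 a tau y dl bH p r) ∧
    (∀ r ∈ Set.Icc (0 : ℝ) 1,
      16 * (2 * p * (2 * (4 / D.s) * D.et r + y) + 3) ≤ Afs D C1 a tau y dl bH p r) ∧
    (∀ r ∈ Set.Icc (0 : ℝ) 1, HasDerivAt (Phifs D C1 a tau y dl bH p)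
      (2 * r * D.s / D.et r * Afs D C1 a tau y dl bH p r) r) ∧
    Phifs D C1 a tau y dl bH p 0 = 0 ∧
    Phifs D C1 a tau y dl bH p 1 ≤ 256 * p +
      (192 + 6400 * p ^ 2 * C1 ^ 2 * (bH + a + 2 * rhi * dl + tau) + 32 * p * y) *
      (Real.log (D.et 0 / D.et 1) / rlo) := by
  have hs := hW.s0
  have hg := hW.g0im
  have hp0 : (0 : ℝ) ≤ p := Nat.cast_nonneg p
  have hC0 : 0 < C1 := by linarith
  have het : ∀ r ∈ Set.Icc (0 : ℝ) 1, 0 < D.et r := fun r hr =>
    lt_of_lt_of_le hW.zim (hW.et_pos hr.1 hr.2).1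
  have hT2 : 0 ≤ 16 * (400 * p ^ 2 * C1 ^ 2 * (bH + a + 2 * D.g0.im * dl + tau) + 6) := by
    positivity
  have hT3 : ∀ r ∈ Set.Icc (0 : ℝ) 1, 0 ≤ 16 * (2 * p * (2 * (4 / D.s) * D.et r + y) + 3) := by
    intro r hr
    have := het r hr
    positivity
  refine ⟨?_, ?_, ?_, ?_, ?_, ?_⟩
  · intro r hr
    have h3 := hT3 r hr
    unfold Afs
    linarith
  · intro r hr
    have h3 := hT3 r hr
    unfold Afs
    linarith
  · intro r hr
    have h3 := hT3 r hr
    unfold Afs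
    linarith
  · intro r hr
    have h0 := het r hr
    have h00 := het 0 ⟨le_rfl, zero_le_one⟩
    have d0 := hasDerivAt_et D r
    have d2 : HasDerivAt (fun r => Lamf D r) (2 * r * D.s / D.et r) r := by
      unfold Lamf
      have e1 : HasDerivAt (fun r => D.et 0 / D.et r)
          ((0 * D.et r - D.et 0 * (-(2 * r * D.s * D.g0.im))) / D.et r ^ 2) r :=
        (hasDerivAt_const r (D.et 0)).div d0 h0.ne'
      have e3 := (e1.log (by positivity)).div_const D.g0.im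
      have e4 : ((0 * D.et r - D.et 0 * (-(2 * r * D.s * D.g0.im))) / D.et r ^ 2) /
          (D.et 0 / D.et r) / D.g0.im = 2 * r * D.s / D.et r := by
        field_simp
        ring
      rw [← e4]
      exact e3
    have d3 : HasDerivAt (Phifs D C1 a tau y dl bH p)
        ((192 + 6400 * p ^ 2 * C1 ^ 2 * (bH + a + 2 * D.g0.im * dl + tau) + 32 * p * y) *
          (2 * r * D.s / D.et r) +
        256 * p / (D.s * D.g0.im) * (-(-(2 * r * D.s * D.g0.im)))) r := by
      have f2 := d2.const_mul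
        (192 + 6400 * p ^ 2 * C1 ^ 2 * (bH + a + 2 * D.g0.im * dl + tau) + 32 * p * y)
      have f3 := (d0.const_sub (D.et 0)).const_mul (256 * p / (D.s * D.g0.im))
      exact f2.add f3
    convert d3 using 1
    unfold Afs
    field_simp
    ring
  · unfold Phifs Lamf
    have h00 := het 0 ⟨le_rfl, zero_le_one⟩
    rw [div_self h00.ne', Real.log_one]
    ring
  · have h00 := het 0 ⟨le_rfl, zero_le_one⟩
    have h11 := het 1 ⟨zero_le_one, le_rfl⟩
    have hr0 := hW.rlo0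
    have hlo := hW.lo
    have him : D.g0.im ≤ rhi := ((le_abs_self _).trans (Complex.abs_im_le_norm _)).trans hW.hi
    have hlog : 0 ≤ Real.log (D.et 0 / D.et 1) := by
      apply Real.log_nonneg
      rw [le_div_iff₀ h11, one_mul]
      exact (hW.et_pos zero_le_one le_rfl).2
    have hLam : Lamf D 1 ≤ Real.log (D.et 0 / D.et 1) / rlo :=
      div_le_div_of_nonneg_left hlog hr0 hlo
    have hLam0 : 0 ≤ Lamf D 1 := div_nonneg hlog hg.le
    have g3 : 256 * p / (D.s * D.g0.im) * (D.et 0 - D.et 1) = 256 * p := by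
      rw [hW.et_zero, hW.et_one]
      field_simp
      ring
    have g4 : (192 + 6400 * p ^ 2 * C1 ^ 2 * (bH + a + 2 * D.g0.im * dl + tau) + 32 * p * y) *
        Lamf D 1 ≤ (192 + 6400 * p ^ 2 * C1 ^ 2 * (bH + a + 2 * rhi * dl + tau) + 32 * p * y) *
        (Real.log (D.et 0 / D.et 1) / rlo) := by
      apply mul_le_mul _ hLam hLam0
      · have : 0 ≤ rhi := hg.le.trans him
        positivity
      · have k1 : D.g0.im * dl ≤ rhi * dl := mul_le_mul_of_nonneg_right him hdl.le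
        have k2 : (6400 * p ^ 2 * C1 ^ 2) * (bH + a + 2 * D.g0.im * dl + tau) ≤
            (6400 * p ^ 2 * C1 ^ 2) * (bH + a + 2 * rhi * dl + tau) :=
          mul_le_mul_of_nonneg_left (by linarith) (by positivity)
        linarith
    unfold Phifs
    rw [g3]
    linarith

end Pool.Agent.APS
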