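import Pool.Agent.APS.PowEst
import Pool.Agent.APS.Defs3

/-! # APS3 SCPOW: version of `powEst` (PowEst.lean) for `Est2`.

The only change: in `h2` the second derivative carries a factor `lam²`, and the conclusion is `Est2`
(with `(lam * Dr)²`).  Copy the proof of `powEst` with
`q w = 4p² ∑_x |f|^(2p-2) (|f1|² + lam² |f2|²)`; in `dd` use
`2 lam |f1| |f2| ≤ |f1|² + lam² |f2|²`: by the proof of `pw2_le`,
`|pw2 p f g k| ≤ 4p² ∑ |f|^(2p-2) |g||k|`, so `lam |pw2 p f f1 f2| ≤ q w`.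
-/

open Matrix Finset

noncomputable section

namespace Pool.Agent.APS

open Pool.Agent.Kin

variable {ι κ : Type} [Fintype ι] [Fintype κ]

private theorem pw1_add (p : ℕ) (v a b : κ → ℂ) :
    pw1 p v (fun x => a x + b x) = pw1 p v a + pw1 p v b := by
  unfold pw1
  rw [← sum_add_distrib]
  refine sum_congr rfl fun x _ => ?_
  rw [mul_add, Complex.add_re]
  ring

private theorem pw1_sum (p : ℕ) (v : κ → ℂ) (c : ι → ℝ) (k : ι → κ → ℂ) :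
    pw1 p v (fun x => ∑ w, ((c w : ℝ) : ℂ) * k w x) = ∑ w, c w * pw1 p v (k w) := by
  unfold pw1
  simp_rw [mul_sum, Complex.re_sum]
  rw [sum_comm' (s := (univ : Finset ι)) (t := fun _ => (univ : Finset κ)) (t' := univ)
    (s' := fun _ => (univ : Finset ι)) (by simp)]
  refine sum_congr rfl fun x _ => ?_
  rw [mul_sum]
  refine sum_congr rfl fun w _ => ?_
  have : star (v x) * (((c w : ℝ) : ℂ) * k w x) = ((c w : ℝ) : ℂ) * (star (v x) * k w x) := by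
    ring
  rw [this, Complex.re_ofReal_mul]
  ring

private theorem re_le (a b : ℂ) : |(star a * b).re| ≤ ‖a‖ * ‖b‖ := by
  refine (Complex.abs_re_le_norm _).trans ?_
  rw [norm_mul, norm_star]

private theorem pw1_sq (p : ℕ) (hp : 2 ≤ p) (v g : κ → ℂ) :
    pw1 p v g ^ 2 ≤ pw p v * (4 * p ^ 2 * ∑ x, ‖v x‖ ^ (2 * p - 2) * ‖g x‖ ^ 2) := by
  have h1 : |pw1 p v g| ≤ ∑ x, ‖v x‖ ^ p * (2 * p * ‖v x‖ ^ (p - 1) * ‖g x‖) := by
    unfold pw1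
    refine (abs_sum_le_sum_abs _ _).trans (sum_le_sum fun x _ => ?_)
    rw [abs_mul, abs_of_nonneg (by positivity : (0:ℝ) ≤ 2 * p * ‖v x‖ ^ (2 * p - 2))]
    calc 2 * p * ‖v x‖ ^ (2 * p - 2) * |(star (v x) * g x).re|
        ≤ 2 * p * ‖v x‖ ^ (2 * p - 2) * (‖v x‖ * ‖g x‖) := by
          gcongr
          exact re_le _ _
      _ = ‖v x‖ ^ p * (2 * p * ‖v x‖ ^ (p - 1) * ‖g x‖) := by
          have e : ‖v x‖ ^ (2 * p - 2) * ‖v x‖ = ‖v x‖ ^ p * ‖v x‖ ^ (p - 1) := by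
            rw [← pow_succ, ← pow_add]
            congr 1
            omega
          linear_combination 2 * (p : ℝ) * ‖g x‖ * e
  calc pw1 p v g ^ 2 = |pw1 p v g| ^ 2 := (sq_abs _).symm
    _ ≤ (∑ x, ‖v x‖ ^ p * (2 * p * ‖v x‖ ^ (p - 1) * ‖g x‖)) ^ 2 := by gcongr
    _ ≤ (∑ x, (‖v x‖ ^ p) ^ 2) * ∑ x, (2 * p * ‖v x‖ ^ (p - 1) * ‖g x‖) ^ 2 :=
        sum_mul_sq_le_sq_mul_sq _ _ _
    _ = pw p v * (4 * p ^ 2 * ∑ x, ‖v x‖ ^ (2 * p - 2) * ‖g x‖ ^ 2) := by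
        have u1 : ∑ x, (‖v x‖ ^ p) ^ 2 = pw p v := by
          unfold pw
          refine sum_congr rfl fun x _ => ?_
          rw [← pow_mul, mul_comm]
        have u2 : ∑ x, (2 * p * ‖v x‖ ^ (p - 1) * ‖g x‖) ^ 2 =
            4 * p ^ 2 * ∑ x, ‖v x‖ ^ (2 * p - 2) * ‖g x‖ ^ 2 := by
          rw [mul_sum]
          refine sum_congr rfl fun x _ => ?_
          rw [mul_pow, mul_pow, ← pow_mul]
          have : (p - 1) * 2 = 2 * p - 2 := by omega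
          rw [this]
          ring
        rw [u1, u2]

private theorem pw2_le' (p : ℕ) (hp : 2 ≤ p) (v g k : κ → ℂ) :
    |pw2 p v g k| ≤ 4 * p ^ 2 * ∑ x, ‖v x‖ ^ (2 * p - 2) * (‖g x‖ * ‖k x‖) := by
  unfold pw2
  rw [mul_sum]
  refine (abs_sum_le_sum_abs _ _).trans (sum_le_sum fun x _ => ?_)
  have hp1 : (1 : ℝ) ≤ p := by exact_mod_cast (by omega : 1 ≤ p)
  have hp' : (0 : ℝ) ≤ (p : ℝ) - 1 := by linarith
  refine (abs_add_le _ _).trans ?_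
  have e : ‖v x‖ ^ (2 * p - 2) = ‖v x‖ ^ (2 * p - 4) * ‖v x‖ ^ 2 := by
    rw [← pow_add]
    congr 1
    omega
  have a1 : |2 * p * ‖v x‖ ^ (2 * p - 2) * (star (g x) * k x).re| ≤
      2 * p * ‖v x‖ ^ (2 * p - 2) * (‖g x‖ * ‖k x‖) := by
    rw [abs_mul, abs_of_nonneg (by positivity : (0:ℝ) ≤ 2 * p * ‖v x‖ ^ (2 * p - 2))]
    gcongr
    exact re_le _ _
  have a2 : |4 * p * (p - 1) * ‖v x‖ ^ (2 * p - 4) *
      ((star (v x) * g x).re * (star (v x) * k x).re)| ≤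
      4 * p * (p - 1) * ‖v x‖ ^ (2 * p - 2) * (‖g x‖ * ‖k x‖) := by
    rw [abs_mul, abs_of_nonneg (by positivity : (0:ℝ) ≤ 4 * p * (p - 1) * ‖v x‖ ^ (2 * p - 4)),
      abs_mul, e]
    calc 4 * p * (p - 1) * ‖v x‖ ^ (2 * p - 4) *
          (|(star (v x) * g x).re| * |(star (v x) * k x).re|)
        ≤ 4 * p * (p - 1) * ‖v x‖ ^ (2 * p - 4) * ((‖v x‖ * ‖g x‖) * (‖v x‖ * ‖k x‖)) := by
          gcongr
          · exact re_le _ _
          · exact re_le _ _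
      _ = _ := by ring
  have a4 : (0:ℝ) ≤ ‖v x‖ ^ (2 * p - 2) * (‖g x‖ * ‖k x‖) := by positivity
  calc _ ≤ 2 * p * ‖v x‖ ^ (2 * p - 2) * (‖g x‖ * ‖k x‖) +
        4 * p * (p - 1) * ‖v x‖ ^ (2 * p - 2) * (‖g x‖ * ‖k x‖) := add_le_add a1 a2
    _ = (4 * p ^ 2 - 2 * p) * (‖v x‖ ^ (2 * p - 2) * (‖g x‖ * ‖k x‖)) := by ring
    _ ≤ (4 * p ^ 2) * (‖v x‖ ^ (2 * p - 2) * (‖g x‖ * ‖k x‖)) := by
        gcongr
        linarith

theorem powEst2 (p : ℕ) (hp : 2 ≤ p) (O : VObs ι κ) {lam s et r : ℝ} {h : ι → ℝ}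
    (hr : 0 ≤ r) (hs : 0 < s) (het : 0 < et) (hlam : 0 < lam) (hlam1 : lam ≤ 1)
    {A0 A2 A3 B1 B2 B3 : ℝ} (hA0 : 0 ≤ A0) (hA2 : 0 ≤ A2) (hA3 : 0 ≤ A3) (hB1 : 0 ≤ B1)
    (hB2 : 0 ≤ B2) (hB3 : 0 ≤ B3)
    (h1 : pw1 p (O.f r h) (fun x => O.fr r h x + ((s * r : ℝ) : ℂ) * ∑ w, O.f2 w r h x) ≤
      2 * r * s / et * (A0 * pw p (O.f r h) + B1))
    (h2 : ∑ w, ∑ x, ‖O.f r h x‖ ^ (2 * p - 2) *
        (‖O.f1 w r h x‖ ^ 2 + lam ^ 2 * ‖O.f2 w r h x‖ ^ 2) ≤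
      1 / et * (A2 * pw p (O.f r h) + B2))
    (h3 : ∀ e : ι → ℝ, (∀ w, |e w| ≤ 1) →
      pw1 p (O.f r h) (fun x => ∑ w, ((lam * e w : ℝ) : ℂ) * O.f3 w r h x) ≤
      1 / et * (A3 * pw p (O.f r h) + B3)) :
    ∃ q : ι → ℝ, (powComp p O).Est2 lam s et r (A0 + 4 * p ^ 2 * A2 + A3)
      (B1 + 4 * p ^ 2 * B2 + B3) h q := by
  have hG : 0 ≤ pw p (O.f r h) := sum_nonneg fun x _ => by positivity
  have hp0 : (0:ℝ) ≤ 4 * p ^ 2 := by positivity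
  have m1 : 0 ≤ A0 * pw p (O.f r h) + B1 := by positivity
  have m2 : 0 ≤ A2 * pw p (O.f r h) + B2 := by positivity
  have m3 : 0 ≤ A3 * pw p (O.f r h) + B3 := by positivity
  have htot : (A0 + 4 * p ^ 2 * A2 + A3) * pw p (O.f r h) + (B1 + 4 * p ^ 2 * B2 + B3) =
      (A0 * pw p (O.f r h) + B1) + 4 * p ^ 2 * (A2 * pw p (O.f r h) + B2) +
        (A3 * pw p (O.f r h) + B3) := by ring
  set q : ι → ℝ := fun w => 4 * p ^ 2 * ∑ x, ‖O.f r h x‖ ^ (2 * p - 2) *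
    (‖O.f1 w r h x‖ ^ 2 + lam ^ 2 * ‖O.f2 w r h x‖ ^ 2) with hq
  have q0 : ∀ w, 0 ≤ q w := fun w => by
    simp only [hq]
    exact mul_nonneg hp0 (sum_nonneg fun x _ => by positivity)
  have qsum : ∑ w, q w ≤ 1 / et * (4 * p ^ 2 * (A2 * pw p (O.f r h) + B2)) := by
    simp only [hq]
    rw [← mul_sum]
    calc 4 * (p:ℝ) ^ 2 * ∑ w, ∑ x, ‖O.f r h x‖ ^ (2 * p - 2) *
          (‖O.f1 w r h x‖ ^ 2 + lam ^ 2 * ‖O.f2 w r h x‖ ^ 2)
        ≤ 4 * (p:ℝ) ^ 2 * (1 / et * (A2 * pw p (O.f r h) + B2)) := by gcongr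
      _ = _ := by ring
  have mono1 : ∀ w x, ‖O.f r h x‖ ^ (2 * p - 2) * ‖O.f1 w r h x‖ ^ 2 ≤
      ‖O.f r h x‖ ^ (2 * p - 2) * (‖O.f1 w r h x‖ ^ 2 + lam ^ 2 * ‖O.f2 w r h x‖ ^ 2) := fun w x => by
    gcongr
    linarith [mul_nonneg (sq_nonneg lam) (sq_nonneg ‖O.f2 w r h x‖)]
  have mono2 : ∀ w x, ‖O.f r h x‖ ^ (2 * p - 2) * (lam ^ 2 * ‖O.f2 w r h x‖ ^ 2) ≤
      ‖O.f r h x‖ ^ (2 * p - 2) * (‖O.f1 w r h x‖ ^ 2 + lam ^ 2 * ‖O.f2 w r h x‖ ^ 2) := fun w x => by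
    gcongr
    linarith [sq_nonneg ‖O.f1 w r h x‖]
  refine ⟨q, ⟨?_, q0, ?_, ?_, ?_, ?_, ?_⟩⟩
  · -- dr
    change pw1 p (O.f r h) (O.fr r h) + s * r * ∑ w, pw1 p (O.f r h) (O.f2 w r h) ≤ _
    have e1 : pw1 p (O.f r h) (O.fr r h) + s * r * ∑ w, pw1 p (O.f r h) (O.f2 w r h) =
        pw1 p (O.f r h) (fun x => O.fr r h x + ((s * r : ℝ) : ℂ) * ∑ w, O.f2 w r h x) := by
      rw [pw1_add p (O.f r h) (fun x => O.fr r h x)
        (fun x => ((s * r : ℝ) : ℂ) * ∑ w, O.f2 w r h x)]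
      congr 1
      simp_rw [mul_sum]
      rw [pw1_sum p (O.f r h) (fun _ => s * r) (fun w x => O.f2 w r h x)]
    rw [e1]
    refine h1.trans ?_
    change _ ≤ 2 * r * s / et * ((A0 + 4 * p ^ 2 * A2 + A3) * pw p (O.f r h) +
      (B1 + 4 * p ^ 2 * B2 + B3))
    rw [htot]
    refine mul_le_mul_of_nonneg_left ?_ (by positivity)
    nlinarith [mul_nonneg hp0 m2]
  · intro w
    change |pw2 p (O.f r h) (O.f1 w r h) (O.f1 w r h)| ≤ _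
    refine (pw2_le' p hp _ _ _).trans ?_
    simp only [hq]
    refine mul_le_mul_of_nonneg_left (sum_le_sum fun x _ => ?_) hp0
    rw [← sq]
    exact mono1 w x
  · intro w
    change pw1 p (O.f r h) (O.f1 w r h) ^ 2 ≤ pw p (O.f r h) * q w
    refine (pw1_sq p hp _ _).trans ?_
    refine mul_le_mul_of_nonneg_left ?_ hG
    simp only [hq]
    exact mul_le_mul_of_nonneg_left (sum_le_sum fun x _ => mono1 w x) hp0
  · intro w
    change (lam * pw1 p (O.f r h) (O.f2 w r h)) ^ 2 ≤ pw p (O.f r h) * q w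
    have c1 := mul_le_mul_of_nonneg_left (pw1_sq p hp (O.f r h) (O.f2 w r h)) (sq_nonneg lam)
    have c2 : lam ^ 2 * (pw p (O.f r h) * (4 * p ^ 2 *
        ∑ x, ‖O.f r h x‖ ^ (2 * p - 2) * ‖O.f2 w r h x‖ ^ 2)) =
        pw p (O.f r h) * (4 * p ^ 2 *
        ∑ x, ‖O.f r h x‖ ^ (2 * p - 2) * (lam ^ 2 * ‖O.f2 w r h x‖ ^ 2)) := by
      have c3 : ∑ x, ‖O.f r h x‖ ^ (2 * p - 2) * (lam ^ 2 * ‖O.f2 w r h x‖ ^ 2) =
          lam ^ 2 * ∑ x, ‖O.f r h x‖ ^ (2 * p - 2) * ‖O.f2 w r h x‖ ^ 2 := by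
        rw [mul_sum]
        exact sum_congr rfl fun x _ => by ring
      rw [c3]
      ring
    rw [mul_pow]
    refine c1.trans ?_
    rw [c2]
    refine mul_le_mul_of_nonneg_left ?_ hG
    simp only [hq]
    exact mul_le_mul_of_nonneg_left (sum_le_sum fun x _ => mono2 w x) hp0
  · change _ ≤ 1 / et * ((A0 + 4 * p ^ 2 * A2 + A3) * pw p (O.f r h) +
      (B1 + 4 * p ^ 2 * B2 + B3))
    rw [htot]
    refine qsum.trans ?_
    refine mul_le_mul_of_nonneg_left ?_ (by positivity)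
    linarith
  · intro e he
    change lam * ∑ w, e w * (pw1 p (O.f r h) (O.f3 w r h) +
      pw2 p (O.f r h) (O.f1 w r h) (O.f2 w r h)) ≤
      1 / et * ((A0 + 4 * p ^ 2 * A2 + A3) * pw p (O.f r h) + (B1 + 4 * p ^ 2 * B2 + B3))
    have e1 : lam * ∑ w, e w * (pw1 p (O.f r h) (O.f3 w r h) +
        pw2 p (O.f r h) (O.f1 w r h) (O.f2 w r h)) =
        pw1 p (O.f r h) (fun x => ∑ w, ((lam * e w : ℝ) : ℂ) * O.f3 w r h x) +
        ∑ w, lam * e w * pw2 p (O.f r h) (O.f1 w r h) (O.f2 w r h) := by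
      rw [pw1_sum p (O.f r h) (fun w => lam * e w) (fun w x => O.f3 w r h x), mul_sum,
        ← sum_add_distrib]
      exact sum_congr rfl fun w _ => by ring
    have e2 : ∑ w, lam * e w * pw2 p (O.f r h) (O.f1 w r h) (O.f2 w r h) ≤ ∑ w, q w := by
      refine sum_le_sum fun w _ => ?_
      have b1 := pw2_le' p hp (O.f r h) (O.f1 w r h) (O.f2 w r h)
      have b2 : |lam * e w| ≤ lam := by
        rw [abs_mul, abs_of_pos hlam]
        nlinarith [he w, abs_nonneg (e w)]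
      have b3 : lam * (4 * (p:ℝ) ^ 2 * ∑ x, ‖O.f r h x‖ ^ (2 * p - 2) *
          (‖O.f1 w r h x‖ * ‖O.f2 w r h x‖)) ≤ q w := by
        simp only [hq]
        have c4 : lam * (4 * (p:ℝ) ^ 2 * ∑ x, ‖O.f r h x‖ ^ (2 * p - 2) *
          (‖O.f1 w r h x‖ * ‖O.f2 w r h x‖)) = 4 * (p:ℝ) ^ 2 * ∑ x, ‖O.f r h x‖ ^ (2 * p - 2) *
          (‖O.f1 w r h x‖ * (lam * ‖O.f2 w r h x‖)) := by
          have c5 : ∑ x, ‖O.f r h x‖ ^ (2 * p - 2) * (‖O.f1 w r h x‖ * (lam * ‖O.f2 w r h x‖)) =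
              lam * ∑ x, ‖O.f r h x‖ ^ (2 * p - 2) * (‖O.f1 w r h x‖ * ‖O.f2 w r h x‖) := by
            rw [mul_sum]
            exact sum_congr rfl fun x _ => by ring
          rw [c5]
          ring
        rw [c4]
        refine mul_le_mul_of_nonneg_left (sum_le_sum fun x _ => ?_) hp0
        refine mul_le_mul_of_nonneg_left ?_ (by positivity)
        nlinarith [sq_nonneg (‖O.f1 w r h x‖ - lam * ‖O.f2 w r h x‖), sq_nonneg ‖O.f1 w r h x‖,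
          sq_nonneg (lam * ‖O.f2 w r h x‖)]
      calc lam * e w * pw2 p (O.f r h) (O.f1 w r h) (O.f2 w r h)
          ≤ |lam * e w * pw2 p (O.f r h) (O.f1 w r h) (O.f2 w r h)| := le_abs_self _
        _ = |lam * e w| * |pw2 p (O.f r h) (O.f1 w r h) (O.f2 w r h)| := abs_mul _ _
        _ ≤ lam * |pw2 p (O.f r h) (O.f1 w r h) (O.f2 w r h)| := by gcongr
        _ ≤ q w := (mul_le_mul_of_nonneg_left b1 hlam.le).trans b3
    rw [e1, htot]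
    calc _ ≤ 1 / et * (A3 * pw p (O.f r h) + B3) +
          1 / et * (4 * p ^ 2 * (A2 * pw p (O.f r h) + B2)) :=
          add_le_add (h3 e he) (e2.trans qsum)
      _ = 1 / et * (4 * p ^ 2 * (A2 * pw p (O.f r h) + B2) + (A3 * pw p (O.f r h) + B3)) := by
          ring
      _ ≤ _ := by
          refine mul_le_mul_of_nonneg_left ?_ (by positivity)
          linarith

end Pool.Agent.APS
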