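import Pool.Agent.APS.TorGood
import Pool.Agent.APS.SCPhi
import Pool.Agent.APS.SCBb
import Pool.Agent.APS.SCLad
import Pool.Agent.APS.SCAsym

/-! # APS3 SCTOR: the probability bound on the torus at stretched exponential scales (assembly).

Compare TorGood.lean (helper2), whose proof can be adapted.  `x = λ^(-1/1000)`.
`a = λ^(1/10)`, `tau = λ^(9/40)`, `y = dl = λ^(1/20)`, `C1 = rhi + 1`, `rl = rlo`, `a1 = rlo a/(4 C1)`,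
`e1 = η/(2 ρ0)` (`ρ0 = Im g0`): `e1 ρ0 = Im z/2`, `e1 ≤ s/100` from `η ≤ λ² sg rlo/50`.
`γ = et 0 = η + s ρ0 ∈ [λ² sg rlo, 2 λ² sg rhi]`.  `torHyp` gives `FlowHyp4` with `cR = 4/s`, `CH = 2/rlo`,
`kap = Cγ^(1/2) ≤ C'λ`, `bH = γ^(1/64) ≤ C' λ^(1/32)`, `ep1 = Cγ^(3/2) ≤ C'λ³`, `taui = Cγ^(1/4) ≤ C' λ^(1/2)`; by `withK`
`K = 2 √(taui/γ) + 2 = 2 √(C γ^(-3/4)) + 2 ≤ C' λ^(-3/4)`.
`h34`: `re_r0` for small `λ` (`C √s/√rlo ≤ 1/4`).  `lowB_RL`, `op_RL`.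
Take `p, J` from `sc_asym` with `n = d` and a large constant; `q = λ^(1/160)`, `Pi = J + 6`, `N = L^d ≤ exp(d x)`,
so `√N (19/20)^J ≤ 1`.  Bases of `BS_le` (all `≤ q`):
`g1`: `C p² Pi² tau/a² = C (p Pi)² λ^(1/40)`;  `g2`: `C p² λ^(1/40) + C p² Pi⁶ λ² λ^(-3/2) λ^(-1/5)` (`λ^(3/10)`);
`g3`: `C p² Pi^10 λ² λ^(-3/2) λ^(-1/5)` (`λ^(3/10)`);  `h3` ... `h10` as in TorGood: at most `C p⁴ λ^(1/80)`
(`(1 + K) λ² ≤ C λ^(5/4)`).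
`sc_phi`: `Phifs 1 ≤ 256 p + C (p² λ^(1/32) + 1 + p λ^(1/20)) log(et 0/et 1)` and `log(et 0/et 1) ≤ log(1/η) ≤ x`
(`et 0 ≤ 1`), so `Phifs 1 ≤ C (x + p)` as `p² x λ^(1/32) ≤ p³ λ^(1/32) ≤ 1`.
`flowS`: the probability is at most `4 (N (taui/tau)^p + Cs 272 N² q^p x/rlo) exp(4 Cs Phifs 1)
≤ exp(C (x + p)) q^p ≤ exp(-x)` (`taui/tau ≤ C λ^(1/2 - 9/40) ≤ q`, `N² ≤ exp(2 d x)`, `x ≤ exp x`).
-/

open Matrix Finset MeasureTheory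

noncomputable section

namespace Pool.Agent.APS

open Pool.Agent.Kin

private theorem tg_max (l : List ℝ) : ∃ C0 : ℝ, 1 ≤ C0 ∧ ∀ c ∈ l, c ≤ C0 := by
  induction l with
  | nil => exact ⟨1, le_rfl, by simp⟩
  | cons a l ih =>
    obtain ⟨C, h1, h2⟩ := ih
    refine ⟨max a C, h1.trans (le_max_right _ _), ?_⟩
    intro c hc
    rcases List.mem_cons.1 hc with h | h
    · rw [h]
      exact le_max_left _ _
    · exact (h2 c h).trans (le_max_right _ _)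

/-- the basic comparison -/
private theorem tg_key {C0 P u c : ℝ} (hu0 : 0 < u) (hu1 : u ≤ 1) (hP : 1 ≤ P)
    (h : C0 * P ^ 4 * u ^ 2 ≤ u) (hc : c ≤ C0) (hc0 : 0 ≤ c) {k m : ℕ} (hk : k ≤ 4) (hm : 2 ≤ m) :
    c * P ^ k * u ^ m ≤ u := by
  refine le_trans ?_ h
  have h1 : P ^ k ≤ P ^ 4 := pow_le_pow_right₀ hP hk
  have h2 : u ^ m ≤ u ^ 2 := pow_le_pow_of_le_one hu0.le hu1 hm
  have h3 : 0 < P := by linarith
  exact mul_le_mul (mul_le_mul hc h1 (by positivity) (hc0.trans hc)) h2 (by positivity)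
    (mul_nonneg (hc0.trans hc) (by positivity))

private theorem tg_sqrt {u : ℝ} (hu0 : 0 < u) : √(u ^ 36) = u ^ 18 ∧ √√(u ^ 36) = u ^ 9 := by
  have h1 : √(u ^ 36) = u ^ 18 := by
    have : u ^ 36 = (u ^ 18) ^ 2 := by ring
    rw [this, Real.sqrt_sq (by positivity)]
  refine ⟨h1, ?_⟩
  have : u ^ 18 = (u ^ 9) ^ 2 := by ring
  rw [h1, this, Real.sqrt_sq (by positivity)]

/-- the ten bases -/
private theorem tg_bases {C0 C1 P u K kap CH ep1 cK ck ce : ℝ} (hu0 : 0 < u) (hu1 : u ≤ 1)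
    (hP : 1 ≤ P) (h : C0 * P ^ 4 * u ^ 2 ≤ u) (hC1 : 1 ≤ C1)
    (hK0 : 0 ≤ K) (hK : K * u ^ 160 ≤ cK) (hkap : kap ≤ ck * u ^ 160)
    (hCH : 0 ≤ CH) (hep : ep1 ≤ ce * u ^ 480)
    (hck : 0 ≤ ck) (hcK : 0 ≤ cK) (hce : 0 ≤ ce)
    (m1 : 20 * C1 ^ 2 ≤ C0) (m2 : 144 * C1 ^ 6 ≤ C0) (m3 : 200 * C1 ^ 5 * ce ≤ C0)
    (m4 : (80 * C1 ^ 3) ^ 4 ≤ C0) (m5 : (120 * C1 ^ 3) ^ 2 ≤ C0) (m6 : (30 * C1 ^ 2) ^ 2 ≤ C0)
    (m7 : (24 * C1 ^ 3) ^ 2 ≤ C0) (m9 : (2000 * C1 ^ 3) ^ 2 ≤ C0)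
    (m10 : 10000 * C1 ^ 4 * (1 + CH) * (ck + 1 + (1 + ck) * (1 + cK)) ≤ C0) :
    (20 * P ^ 2 * C1 ^ 2 * u ^ 36 / (u ^ 16) ^ 2 ≤ u) ∧
    ((12 * P * C1 ^ 3 * u ^ 160 / u ^ 16) ^ 2 ≤ u) ∧
    (200 * P ^ 2 * C1 ^ 5 * ep1 / u ^ 36 ≤ u) ∧
    ((40 * P * C1 ^ 3 * (u ^ 16 + u ^ 160)) ^ 4 / u ^ 36 ≤ u) ∧
    ((60 * P * C1 ^ 3 * (u ^ 16 + u ^ 160) / u ^ 8) ^ 2 ≤ u) ∧
    ((30 * P * C1 ^ 2 * √√(u ^ 36) / u ^ 8) ^ 2 ≤ u) ∧
    ((12 * P * C1 ^ 3 * (u ^ 16 + u ^ 160)) ^ 2 ≤ u) ∧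
    (20 * P ^ 2 * C1 ^ 2 * u ^ 36 ≤ u) ∧
    ((1000 * P * C1 ^ 3 * (u ^ 16 + u ^ 160) / u ^ 8) ^ 2 ≤ u) ∧
    (10000 * P ^ 2 * C1 ^ 4 * (1 + CH) * (kap + √(u ^ 36) +
      (1 + kap) * (1 + K) * (u ^ 160) ^ 2) / (u ^ 8) ^ 2 ≤ u) := by
  obtain ⟨s1, s2⟩ := tg_sqrt hu0
  have hP0 : 0 < P := by linarith
  have hC10 : 0 < C1 := by linarith
  have hau : u ^ 16 + u ^ 160 ≤ 2 * u ^ 16 := by
    have : u ^ 160 ≤ u ^ 16 := pow_le_pow_of_le_one hu0.le hu1 (by norm_num)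
    linarith
  have hau0 : 0 ≤ u ^ 16 + u ^ 160 := by positivity
  have key : ∀ (c : ℝ) (k m : ℕ), c ≤ C0 → 0 ≤ c → k ≤ 4 → 2 ≤ m → c * P ^ k * u ^ m ≤ u :=
    fun c k m h1 h2 h3 h4 => tg_key hu0 hu1 hP h h1 h2 h3 h4
  refine ⟨?_, ?_, ?_, ?_, ?_, ?_, ?_, ?_, ?_, ?_⟩
  · have e : 20 * P ^ 2 * C1 ^ 2 * u ^ 36 / (u ^ 16) ^ 2 = 20 * C1 ^ 2 * P ^ 2 * u ^ 4 := by
      field_simp
    rw [e]
    exact key _ 2 4 m1 (by positivity) (by norm_num) (by norm_num)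
  · have e : (12 * P * C1 ^ 3 * u ^ 160 / u ^ 16) ^ 2 = 144 * C1 ^ 6 * P ^ 2 * u ^ 288 := by
      field_simp
      ring
    rw [e]
    exact key _ 2 288 m2 (by positivity) (by norm_num) (by norm_num)
  · have e : 200 * P ^ 2 * C1 ^ 5 * (ce * u ^ 480) / u ^ 36 =
        200 * C1 ^ 5 * ce * P ^ 2 * u ^ 444 := by
      field_simp
    refine le_trans ?_ (e.le.trans (key _ 2 444 m3 (by positivity) (by norm_num) (by norm_num)))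
    gcongr
  · have e : (40 * P * C1 ^ 3 * (2 * u ^ 16)) ^ 4 / u ^ 36 =
        (80 * C1 ^ 3) ^ 4 * P ^ 4 * u ^ 28 := by
      field_simp
      ring
    refine le_trans ?_ (e.le.trans (key _ 4 28 m4 (by positivity) (by norm_num) (by norm_num)))
    gcongr
  · have e : (60 * P * C1 ^ 3 * (2 * u ^ 16) / u ^ 8) ^ 2 =
        (120 * C1 ^ 3) ^ 2 * P ^ 2 * u ^ 16 := by
      field_simp
      ring
    refine le_trans ?_ (e.le.trans (key _ 2 16 m5 (by positivity) (by norm_num) (by norm_num)))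
    gcongr
  · rw [s2]
    have e : (30 * P * C1 ^ 2 * u ^ 9 / u ^ 8) ^ 2 = (30 * C1 ^ 2) ^ 2 * P ^ 2 * u ^ 2 := by
      field_simp
    rw [e]
    exact key _ 2 2 m6 (by positivity) (by norm_num) (by norm_num)
  · have e : (12 * P * C1 ^ 3 * (2 * u ^ 16)) ^ 2 = (24 * C1 ^ 3) ^ 2 * P ^ 2 * u ^ 32 := by
      ring
    refine le_trans ?_ (e.le.trans (key _ 2 32 m7 (by positivity) (by norm_num) (by norm_num)))
    gcongr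
  · have e : 20 * P ^ 2 * C1 ^ 2 * u ^ 36 = 20 * C1 ^ 2 * P ^ 2 * u ^ 36 := by ring
    rw [e]
    exact key _ 2 36 m1 (by positivity) (by norm_num) (by norm_num)
  · have e : (1000 * P * C1 ^ 3 * (2 * u ^ 16) / u ^ 8) ^ 2 =
        (2000 * C1 ^ 3) ^ 2 * P ^ 2 * u ^ 16 := by
      field_simp
      ring
    refine le_trans ?_ (e.le.trans (key _ 2 16 m9 (by positivity) (by norm_num) (by norm_num)))
    gcongr
  · rw [s1]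
    have hu160 : u ^ 160 ≤ u ^ 18 := pow_le_pow_of_le_one hu0.le hu1 (by norm_num)
    have hu160' : u ^ 160 ≤ 1 := pow_le_one₀ hu0.le hu1
    have i1 : kap ≤ ck * u ^ 18 := hkap.trans (mul_le_mul_of_nonneg_left hu160 hck)
    have i2 : 1 + kap ≤ 1 + ck := by
      have : ck * u ^ 160 ≤ ck * 1 := mul_le_mul_of_nonneg_left hu160' hck
      linarith
    have i3 : (1 + K) * (u ^ 160) ^ 2 ≤ (1 + cK) * u ^ 18 := by
      have j1 : (1 + K) * u ^ 160 ≤ 1 + cK := by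
        have : (1 + K) * u ^ 160 = u ^ 160 + K * u ^ 160 := by ring
        linarith
      calc (1 + K) * (u ^ 160) ^ 2 = ((1 + K) * u ^ 160) * u ^ 160 := by ring
        _ ≤ (1 + cK) * u ^ 18 := mul_le_mul j1 hu160 (by positivity) (by positivity)
    have i4 : kap + u ^ 18 + (1 + kap) * (1 + K) * (u ^ 160) ^ 2 ≤
        (ck + 1 + (1 + ck) * (1 + cK)) * u ^ 18 := by
      have j2 : (1 + kap) * ((1 + K) * (u ^ 160) ^ 2) ≤ (1 + ck) * ((1 + cK) * u ^ 18) :=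
        mul_le_mul i2 i3 (by positivity) (by positivity)
      nlinarith
    have e : 10000 * P ^ 2 * C1 ^ 4 * (1 + CH) * ((ck + 1 + (1 + ck) * (1 + cK)) * u ^ 18) /
        (u ^ 8) ^ 2 =
        10000 * C1 ^ 4 * (1 + CH) * (ck + 1 + (1 + ck) * (1 + cK)) * P ^ 2 * u ^ 2 := by
      field_simp
    refine le_trans ?_ (e.le.trans (key _ 2 2 m10 (by positivity) (by norm_num) (by norm_num)))
    gcongr

/-- the bases of the self-consistent component -/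
private theorem ts_bases {C0 C1 rl P Q u K cK : ℝ} (hu0 : 0 < u) (hu1 : u ≤ 1)
    (hP : 1 ≤ P) (hQ : 1 ≤ Q) (A7 : C0 * P ^ 4 * u ^ 2 ≤ u) (A8 : C0 * (P * Q) ^ 2 * u ^ 4 ≤ u)
    (A9 : C0 * (P ^ 2 * Q ^ 10) * u ^ 48 ≤ u) (hC1 : 1 ≤ C1) (hrl : 0 < rl)
    (hK0 : 0 ≤ K) (hK : K * u ^ 120 ≤ cK) (hcK : 0 ≤ cK)
    (m14 : (4000 * C1 ^ 3 / rl ^ 2) ^ 2 ≤ C0) (m15 : 2 * (36864 * C1 ^ 2 / rl ^ 2) ≤ C0)
    (m16 : 2 * (8192 * C1 ^ 3 * cK ^ 2 / rl ^ 2) ≤ C0)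
    (m17 : (2000 * C1 ^ 3 * cK / rl ^ 2) ^ 2 ≤ C0) :
    ((1000 * P * C1 ^ 2 * Q * √(u ^ 36) / (rl * (rl * u ^ 16 / (4 * C1)))) ^ 2 ≤ u) ∧
    (4 * P ^ 2 * (576 * u ^ 36 + 128 * (u ^ 160) ^ 2 * C1 * K ^ 2 * Q ^ 6) /
      (rl * u ^ 16 / (4 * C1)) ^ 2 ≤ u) ∧
    ((500 * P * u ^ 160 * C1 ^ 2 * K * Q ^ 5 / (rl * (rl * u ^ 16 / (4 * C1)))) ^ 2 ≤ u) := by
  obtain ⟨s1, -⟩ := tg_sqrt hu0
  have hP0 : 0 < P := by linarith
  have hQ0 : 0 < Q := by linarith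
  have hC10 : 0 < C1 := by linarith
  have hKK : u ^ 288 * K ^ 2 ≤ u ^ 48 * cK ^ 2 := by
    have e : u ^ 288 * K ^ 2 = u ^ 48 * (K * u ^ 120) ^ 2 := by ring
    rw [e]
    exact mul_le_mul_of_nonneg_left (pow_le_pow_left₀ (by positivity) hK 2) (by positivity)
  refine ⟨?_, ?_, ?_⟩
  · rw [s1]
    have e : (1000 * P * C1 ^ 2 * Q * u ^ 18 / (rl * (rl * u ^ 16 / (4 * C1)))) ^ 2 =
        (4000 * C1 ^ 3 / rl ^ 2) ^ 2 * (P * Q) ^ 2 * u ^ 4 := by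
      field_simp
      ring
    rw [e]
    refine le_trans ?_ A8
    gcongr
  · have e : 4 * P ^ 2 * (576 * u ^ 36 + 128 * (u ^ 160) ^ 2 * C1 * K ^ 2 * Q ^ 6) /
        (rl * u ^ 16 / (4 * C1)) ^ 2 =
        36864 * C1 ^ 2 / rl ^ 2 * P ^ 2 * u ^ 4 +
          8192 * C1 ^ 3 / rl ^ 2 * (P ^ 2 * Q ^ 6) * (u ^ 288 * K ^ 2) := by
      field_simp
      ring
    rw [e]
    have i1 : 36864 * C1 ^ 2 / rl ^ 2 * P ^ 2 * u ^ 4 ≤ u / 2 := by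
      have j1 : 36864 * C1 ^ 2 / rl ^ 2 ≤ C0 / 2 := by linarith
      have j2 : P ^ 2 ≤ P ^ 4 := pow_le_pow_right₀ hP (by norm_num)
      have j3 : u ^ 4 ≤ u ^ 2 := pow_le_pow_of_le_one hu0.le hu1 (by norm_num)
      have j0 : 0 ≤ C0 / 2 := le_trans (by positivity) j1
      calc 36864 * C1 ^ 2 / rl ^ 2 * P ^ 2 * u ^ 4 ≤ C0 / 2 * P ^ 4 * u ^ 2 :=
            mul_le_mul (mul_le_mul j1 j2 (by positivity) j0) j3 (by positivity)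
              (by positivity)
        _ ≤ u / 2 := by linarith
    have i2 : 8192 * C1 ^ 3 / rl ^ 2 * (P ^ 2 * Q ^ 6) * (u ^ 288 * K ^ 2) ≤ u / 2 := by
      have j1 : 8192 * C1 ^ 3 * cK ^ 2 / rl ^ 2 ≤ C0 / 2 := by linarith
      have j2 : Q ^ 6 ≤ Q ^ 10 := pow_le_pow_right₀ hQ (by norm_num)
      have j0 : 0 ≤ C0 / 2 := le_trans (by positivity) j1
      calc 8192 * C1 ^ 3 / rl ^ 2 * (P ^ 2 * Q ^ 6) * (u ^ 288 * K ^ 2) ≤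
          8192 * C1 ^ 3 / rl ^ 2 * (P ^ 2 * Q ^ 6) * (u ^ 48 * cK ^ 2) :=
            mul_le_mul_of_nonneg_left hKK (by positivity)
        _ = 8192 * C1 ^ 3 * cK ^ 2 / rl ^ 2 * (P ^ 2 * Q ^ 6) * u ^ 48 := by ring
        _ ≤ C0 / 2 * (P ^ 2 * Q ^ 10) * u ^ 48 := by
            refine mul_le_mul_of_nonneg_right ?_ (by positivity)
            exact mul_le_mul j1 (mul_le_mul_of_nonneg_left j2 (by positivity)) (by positivity) j0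
        _ ≤ u / 2 := by linarith
    linarith
  · have e : (500 * P * u ^ 160 * C1 ^ 2 * K * Q ^ 5 / (rl * (rl * u ^ 16 / (4 * C1)))) ^ 2 =
        (2000 * C1 ^ 3 / rl ^ 2) ^ 2 * (P ^ 2 * Q ^ 10) * (u ^ 288 * K ^ 2) := by
      field_simp
      ring
    rw [e]
    calc (2000 * C1 ^ 3 / rl ^ 2) ^ 2 * (P ^ 2 * Q ^ 10) * (u ^ 288 * K ^ 2) ≤
        (2000 * C1 ^ 3 / rl ^ 2) ^ 2 * (P ^ 2 * Q ^ 10) * (u ^ 48 * cK ^ 2) :=
          mul_le_mul_of_nonneg_left hKK (by positivity)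
      _ = (2000 * C1 ^ 3 * cK / rl ^ 2) ^ 2 * (P ^ 2 * Q ^ 10) * u ^ 48 := by ring
      _ ≤ C0 * (P ^ 2 * Q ^ 10) * u ^ 48 := by gcongr
      _ ≤ u := A9

/-- the final numerical estimate -/
private theorem ts_final {m u C0 Cs rlo K1 K2 N D tt B Lam Phi P : ℝ} {p : ℕ} (hm : 0 ≤ m)
    (hu0 : 0 < u) (hp : 2 ≤ P) (hCs : 0 ≤ Cs) (hrlo : 0 < rlo)
    (hN1 : 1 ≤ N) (hN : N ≤ Real.exp (D * m)) (ht0 : 0 ≤ tt) (ht : tt ≤ u)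
    (hB : B ≤ 272 * N ^ 2 * u ^ p) (hL0 : 0 ≤ Lam) (hL : Lam ≤ m / rlo)
    (hPhi : Phi ≤ K1 * P + K2 * m)
    (hC1 : 1 + 4 * Cs * K1 ≤ C0) (hC2 : 2 * D + 272 * Cs / rlo + 4 * Cs * K2 ≤ C0) :
    4 * (N * tt ^ p + Cs * B * Lam) * Real.exp (4 * Cs * Phi) ≤
      Real.exp (C0 * (m + P)) * u ^ p := by
  have hup : 0 < u ^ p := by positivity
  have h1 : N * tt ^ p ≤ N ^ 2 * u ^ p := by
    have : tt ^ p ≤ u ^ p := pow_le_pow_left₀ ht0 ht p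
    calc N * tt ^ p ≤ N * u ^ p := mul_le_mul_of_nonneg_left this (by linarith)
      _ ≤ N ^ 2 * u ^ p := by
        refine mul_le_mul_of_nonneg_right ?_ hup.le
        nlinarith
  have h2 : Cs * B * Lam ≤ (272 * Cs / rlo * m) * (N ^ 2 * u ^ p) := by
    calc Cs * B * Lam ≤ Cs * (272 * N ^ 2 * u ^ p) * (m / rlo) := by
          refine mul_le_mul (mul_le_mul_of_nonneg_left hB hCs) hL hL0 (by positivity)
      _ = _ := by ring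
  have h3 : N * tt ^ p + Cs * B * Lam ≤
      Real.exp (272 * Cs / rlo * m) * (Real.exp (2 * D * m) * u ^ p) := by
    have h4 : 1 + 272 * Cs / rlo * m ≤ Real.exp (272 * Cs / rlo * m) := by
      have := Real.add_one_le_exp (272 * Cs / rlo * m)
      linarith
    have h5 : N ^ 2 ≤ Real.exp (2 * D * m) := by
      calc N ^ 2 ≤ Real.exp (D * m) ^ 2 := pow_le_pow_left₀ (by linarith) hN 2
        _ = Real.exp (2 * D * m) := by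
          rw [← Real.exp_nat_mul]
          congr 1
          push_cast
          ring
    calc N * tt ^ p + Cs * B * Lam ≤ (1 + 272 * Cs / rlo * m) * (N ^ 2 * u ^ p) := by linarith
      _ ≤ Real.exp (272 * Cs / rlo * m) * (Real.exp (2 * D * m) * u ^ p) := by
        refine mul_le_mul h4 (mul_le_mul_of_nonneg_right h5 hup.le) (by positivity)
          (Real.exp_pos _).le
  have h4 : (4 : ℝ) ≤ Real.exp P := by
    have h5 := Real.add_one_le_exp (P / 2)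
    have h6 : Real.exp P = Real.exp (P / 2) * Real.exp (P / 2) := by
      rw [← Real.exp_add]
      ring_nf
    rw [h6]
    nlinarith
  have h5 : Real.exp (4 * Cs * Phi) ≤ Real.exp (4 * Cs * (K1 * P + K2 * m)) :=
    Real.exp_le_exp.2 (mul_le_mul_of_nonneg_left hPhi (by positivity))
  have h6 : 4 * (N * tt ^ p + Cs * B * Lam) ≤ Real.exp P *
      (Real.exp (272 * Cs / rlo * m) * (Real.exp (2 * D * m) * u ^ p)) := by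
    calc 4 * (N * tt ^ p + Cs * B * Lam) ≤
        4 * (Real.exp (272 * Cs / rlo * m) * (Real.exp (2 * D * m) * u ^ p)) := by linarith
      _ ≤ _ := mul_le_mul_of_nonneg_right h4 (by positivity)
  calc 4 * (N * tt ^ p + Cs * B * Lam) * Real.exp (4 * Cs * Phi) ≤
      (Real.exp P * (Real.exp (272 * Cs / rlo * m) * (Real.exp (2 * D * m) * u ^ p))) *
        Real.exp (4 * Cs * (K1 * P + K2 * m)) :=
      mul_le_mul h6 h5 (Real.exp_pos _).le (by positivity)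
    _ = Real.exp (P + 272 * Cs / rlo * m + 2 * D * m + 4 * Cs * (K1 * P + K2 * m)) *
        u ^ p := by
      rw [Real.exp_add, Real.exp_add, Real.exp_add]
      ring
    _ ≤ Real.exp (C0 * (m + P)) * u ^ p := by
      refine mul_le_mul_of_nonneg_right (Real.exp_le_exp.2 ?_) hup.le
      have i1 : (1 + 4 * Cs * K1) * P ≤ C0 * P :=
        mul_le_mul_of_nonneg_right hC1 (by linarith)
      have i2 : (2 * D + 272 * Cs / rlo + 4 * Cs * K2) * m ≤ C0 * m :=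
        mul_le_mul_of_nonneg_right hC2 hm
      calc P + 272 * Cs / rlo * m + 2 * D * m + 4 * Cs * (K1 * P + K2 * m) =
          (1 + 4 * Cs * K1) * P + (2 * D + 272 * Cs / rlo + 4 * Cs * K2) * m := by ring
        _ ≤ C0 * P + C0 * m := by linarith
        _ = C0 * (m + P) := by ring

/-- the bound of the primitive -/
private theorem ts_phi {C0 C1 P u rlo rhi cb bH Lg m : ℝ} (hu0 : 0 < u) (hu1 : u ≤ 1)
    (hP : 1 ≤ P) (A10 : C0 * P ^ 3 * u ^ 5 ≤ 1) (hC1 : 1 ≤ C1) (hrlo : 0 < rlo) (hrhi : 0 ≤ rhi)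
    (hcb : 0 ≤ cb) (hbH : bH ≤ cb * u ^ 5)
    (hL : Lg ≤ m) (hL0 : 0 ≤ Lg)
    (m1 : 6400 * C1 ^ 2 * (cb + 2 + 2 * rhi) ≤ C0) (m2 : 32 ≤ C0) :
    256 * P + (192 + 6400 * P ^ 2 * C1 ^ 2 * (bH + u ^ 16 + 2 * rhi * u ^ 8 + u ^ 36) +
      32 * P * u ^ 8) * (Lg / rlo) ≤ 256 * P + 194 / rlo * m := by
  have hP23 : P ^ 2 ≤ P ^ 3 := pow_le_pow_right₀ hP (by norm_num)
  have hP13 : P ≤ P ^ 3 := by
    calc P = P ^ 1 := (pow_one P).symm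
      _ ≤ P ^ 3 := pow_le_pow_right₀ hP (by norm_num)
  have hC00 : 0 ≤ C0 := by linarith
  have i1 : 6400 * P ^ 2 * C1 ^ 2 * (bH + u ^ 16 + 2 * rhi * u ^ 8 + u ^ 36) ≤ 1 := by
    have j1 : u ^ 16 ≤ u ^ 5 := pow_le_pow_of_le_one hu0.le hu1 (by norm_num)
    have j2 : u ^ 8 ≤ u ^ 5 := pow_le_pow_of_le_one hu0.le hu1 (by norm_num)
    have j3 : u ^ 36 ≤ u ^ 5 := pow_le_pow_of_le_one hu0.le hu1 (by norm_num)
    have j4 : bH + u ^ 16 + 2 * rhi * u ^ 8 + u ^ 36 ≤ (cb + 2 + 2 * rhi) * u ^ 5 := by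
      have : 2 * rhi * u ^ 8 ≤ 2 * rhi * u ^ 5 := mul_le_mul_of_nonneg_left j2 (by positivity)
      linarith
    calc 6400 * P ^ 2 * C1 ^ 2 * (bH + u ^ 16 + 2 * rhi * u ^ 8 + u ^ 36) ≤
        6400 * P ^ 2 * C1 ^ 2 * ((cb + 2 + 2 * rhi) * u ^ 5) :=
          mul_le_mul_of_nonneg_left j4 (by positivity)
      _ = 6400 * C1 ^ 2 * (cb + 2 + 2 * rhi) * P ^ 2 * u ^ 5 := by ring
      _ ≤ C0 * P ^ 3 * u ^ 5 := by gcongr
      _ ≤ 1 := A10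
  have i2 : 32 * P * u ^ 8 ≤ 1 := by
    have j2 : u ^ 8 ≤ u ^ 5 := pow_le_pow_of_le_one hu0.le hu1 (by norm_num)
    calc 32 * P * u ^ 8 ≤ C0 * P ^ 3 * u ^ 5 := by gcongr
      _ ≤ 1 := A10
  have i4 : Lg / rlo ≤ m / rlo := div_le_div_of_nonneg_right hL hrlo.le
  have i5 : (192 + 6400 * P ^ 2 * C1 ^ 2 * (bH + u ^ 16 + 2 * rhi * u ^ 8 + u ^ 36) +
      32 * P * u ^ 8) * (Lg / rlo) ≤ 194 * (m / rlo) := by
    refine mul_le_mul (by linarith) i4 (by positivity) (by norm_num)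
  have e1 : 194 / rlo * m = 194 * (m / rlo) := by ring
  rw [e1]
  linarith

/-- powers of `γ` -/
private theorem tg_rpow {γ c u α : ℝ} {m : ℕ} (hγ : 0 < γ) (hc : 0 < c) (hu : 0 < u)
    (h : γ ≤ c * u ^ 320) (hα : 0 ≤ α) (hm : (m : ℝ) = 320 * α) : γ ^ α ≤ c ^ α * u ^ m := by
  calc γ ^ α ≤ (c * u ^ 320) ^ α := Real.rpow_le_rpow hγ.le h hα
    _ = c ^ α * u ^ m := by
      rw [Real.mul_rpow hc.le (by positivity), ← Real.rpow_natCast u 320, ← Real.rpow_mul hu.le,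
        ← Real.rpow_natCast u m, hm]
      norm_num

private theorem tg_upow {lam : ℝ} (hlam : 0 < lam) (m : ℕ) :
    (lam ^ (1 / 160 : ℝ)) ^ m = lam ^ ((m : ℝ) / 160) := by
  rw [← Real.rpow_natCast, ← Real.rpow_mul hlam.le]
  congr 1
  ring

private theorem ts_rpow_neg {γ c u : ℝ} (hc : 0 < c) (hu : 0 < u)
    (h : c * u ^ 320 ≤ γ) : γ ^ (-(3 / 8) : ℝ) * u ^ 120 ≤ c ^ (-(3 / 8) : ℝ) := by
  have h0 : 0 < c * u ^ 320 := by positivity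
  have h1 : γ ^ (-(3 / 8) : ℝ) ≤ (c * u ^ 320) ^ (-(3 / 8) : ℝ) :=
    Real.rpow_le_rpow_of_nonpos h0 h (by norm_num)
  have h2 : (c * u ^ 320) ^ (-(3 / 8) : ℝ) * u ^ 120 = c ^ (-(3 / 8) : ℝ) := by
    rw [Real.mul_rpow hc.le (by positivity), mul_assoc, ← Real.rpow_natCast u 320,
      ← Real.rpow_mul hu.le, ← Real.rpow_natCast u 120, ← Real.rpow_add hu]
    norm_num
  calc γ ^ (-(3 / 8) : ℝ) * u ^ 120 ≤ (c * u ^ 320) ^ (-(3 / 8) : ℝ) * u ^ 120 :=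
        mul_le_mul_of_nonneg_right h1 (by positivity)
    _ = _ := h2

/-- the bound of `K` -/
private theorem ts_K {γ c u Ct : ℝ} (hγ : 0 < γ) (hc : 0 < c) (hu : 0 < u) (hu1 : u ≤ 1)
    (hCt : 0 < Ct) (h : c * u ^ 320 ≤ γ) :
    (2 * √(Ct * γ ^ (1 / 4 : ℝ) / γ) + 2) * u ^ 120 ≤ 2 * √Ct * c ^ (-(3 / 8) : ℝ) + 2 := by
  have h1 : √(Ct * γ ^ (1 / 4 : ℝ) / γ) = √Ct * γ ^ (-(3 / 8) : ℝ) := by
    have e : Ct * γ ^ (1 / 4 : ℝ) / γ = Ct * (γ ^ (-(3 / 8) : ℝ)) ^ 2 := by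
      rw [mul_div_assoc]
      congr 1
      rw [← Real.rpow_natCast, ← Real.rpow_mul hγ.le]
      have : γ ^ (1 / 4 : ℝ) / γ = γ ^ (1 / 4 - 1 : ℝ) := by
        rw [Real.rpow_sub hγ, Real.rpow_one]
      rw [this]
      norm_num
    rw [e, Real.sqrt_mul hCt.le, Real.sqrt_sq (by positivity)]
  rw [h1]
  have h2 := ts_rpow_neg hc hu h
  have h3 : u ^ 120 ≤ 1 := pow_le_one₀ hu.le hu1
  calc (2 * (√Ct * γ ^ (-(3 / 8) : ℝ)) + 2) * u ^ 120 =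
      2 * √Ct * (γ ^ (-(3 / 8) : ℝ) * u ^ 120) + 2 * u ^ 120 := by ring
    _ ≤ 2 * √Ct * c ^ (-(3 / 8) : ℝ) + 2 := by
      have := mul_le_mul_of_nonneg_left h2 (show 0 ≤ 2 * √Ct by positivity)
      linarith

theorem torus_goodS (d : ℕ) (hd : 3 ≤ d) (δ : ℝ) (hδ : 0 < δ)
    {μ : Measure ℝ} {bd sg CT : ℝ} {T T3 : ℝ → ℝ} (hS : SteinLaw μ bd sg CT T T3) :
    ∃ rlo rhi lam0 : ℝ, 0 < rlo ∧ 1 ≤ rhi ∧ 0 < lam0 ∧
    ∀ (L : ℕ) [NeZero L] (E η lam : ℝ), 0 < lam → lam ≤ lam0 → δ ≤ E → E ≤ 4 * d - δ →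
      Real.exp (-(lam ^ (-(1 / 1000) : ℝ))) ≤ η → η ≤ lam ^ 2 * sg * rlo / 50 →
      lam ^ (-10 : ℝ) ≤ L → 1 / η ≤ L → (L : ℝ) ≤ Real.exp (lam ^ (-(1 / 1000) : ℝ)) →
      ∃ g0 : ℂ, World (mkD d L E η lam sg g0) rlo rhi ∧
        (Measure.pi fun _ : Tor d L => μ).real
          {v | ¬ Good4 (mkD d L E η lam sg g0) 1 ((mkD d L E η lam sg g0).hv 1 v)
            (lam ^ (1 / 10 : ℝ)) (lam ^ (9 / 40 : ℝ)) (lam ^ (1 / 20 : ℝ)) (lam ^ (1 / 20 : ℝ))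
            (RL (mkD d L E η lam sg g0) 1) (multR (wu (mkD d L E η lam sg g0) 1))
            (multR (qu (mkD d L E η lam sg g0) 1))} ≤
          Real.exp (-(lam ^ (-(1 / 1000) : ℝ))) := by
  have hsg : 0 < sg := hS.sg0
  have hCT : 0 < CT := hS.CT0
  obtain ⟨rlo, rhi, hrlo, hrhi, hW⟩ := world_exists d hd δ sg hδ hsg
  obtain ⟨Ct, γt, hCt, hγt, hT⟩ := torHyp d hd rlo rhi hrlo
  obtain ⟨C3, hC3, hre⟩ := re_r0 d hd
  obtain ⟨lam1, hlam1, hW⟩ := hW (min (min γt ((rlo / (4 * C3)) ^ 2)) 1)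
    (lt_min (lt_min hγt (by positivity)) one_pos)
  have hrhi0 : 0 < rhi := lt_of_lt_of_le one_pos hrhi
  -- constants
  obtain ⟨C1, hC1⟩ : ∃ C1, C1 = rhi + 1 := ⟨_, rfl⟩
  obtain ⟨cl, hcl⟩ : ∃ cl, cl = sg * rlo := ⟨_, rfl⟩
  obtain ⟨cu, hcu⟩ : ∃ cu, cu = 2 * sg * rhi := ⟨_, rfl⟩
  have hcl0 : 0 < cl := by rw [hcl]; positivity
  have hcu0 : 0 < cu := by rw [hcu]; positivity
  obtain ⟨cK, hcK⟩ : ∃ cK, cK = 2 * √Ct * cl ^ (-(3 / 8) : ℝ) + 2 := ⟨_, rfl⟩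
  obtain ⟨ck, hck⟩ : ∃ ck, ck = Ct * cu ^ (1 / 2 : ℝ) := ⟨_, rfl⟩
  obtain ⟨ce, hce⟩ : ∃ ce, ce = Ct * cu ^ (3 / 2 : ℝ) := ⟨_, rfl⟩
  obtain ⟨ct, hct⟩ : ∃ ct, ct = Ct * cu ^ (1 / 4 : ℝ) := ⟨_, rfl⟩
  obtain ⟨cb, hcb⟩ : ∃ cb, cb = cu ^ (1 / 64 : ℝ) := ⟨_, rfl⟩
  have hcK0 : 0 ≤ cK := by rw [hcK]; positivity
  have hck0 : 0 ≤ ck := by rw [hck]; positivity
  have hce0 : 0 ≤ ce := by rw [hce]; positivity
  have hct0 : 0 ≤ ct := by rw [hct]; positivity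
  have hcb0 : 0 ≤ cb := by rw [hcb]; positivity
  have hC11 : 1 ≤ C1 := by linarith
  have hC10 : 0 < C1 := by linarith
  obtain ⟨CH, hCH⟩ : ∃ CH, CH = 2 / rlo := ⟨_, rfl⟩
  have hCH0 : 0 ≤ CH := by rw [hCH]; positivity
  obtain ⟨Cs, hCs⟩ : ∃ Cs, Cs = 1 + 2 * CT / sg := ⟨_, rfl⟩
  have hCs0 : 0 ≤ Cs := by rw [hCs]; positivity
  obtain ⟨K2, hK2⟩ : ∃ K2, K2 = 194 / rlo := ⟨_, rfl⟩
  obtain ⟨x1, hx1⟩ : ∃ x, x = 20 * C1 ^ 2 := ⟨_, rfl⟩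
  obtain ⟨x2, hx2⟩ : ∃ x, x = 144 * C1 ^ 6 := ⟨_, rfl⟩
  obtain ⟨x3, hx3⟩ : ∃ x, x = 200 * C1 ^ 5 * ce := ⟨_, rfl⟩
  obtain ⟨x4, hx4⟩ : ∃ x, x = (80 * C1 ^ 3) ^ 4 := ⟨_, rfl⟩
  obtain ⟨x5, hx5⟩ : ∃ x, x = (120 * C1 ^ 3) ^ 2 := ⟨_, rfl⟩
  obtain ⟨x6, hx6⟩ : ∃ x, x = (30 * C1 ^ 2) ^ 2 := ⟨_, rfl⟩
  obtain ⟨x7, hx7⟩ : ∃ x, x = (24 * C1 ^ 3) ^ 2 := ⟨_, rfl⟩
  obtain ⟨x9, hx9⟩ : ∃ x, x = (2000 * C1 ^ 3) ^ 2 := ⟨_, rfl⟩
  obtain ⟨x10, hx10⟩ : ∃ x, x = 10000 * C1 ^ 4 * (1 + CH) * (ck + 1 + (1 + ck) * (1 + cK)) :=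
    ⟨_, rfl⟩
  obtain ⟨x11, hx11⟩ : ∃ x, x = 6400 * C1 ^ 2 * (cb + 2 + 2 * rhi) := ⟨_, rfl⟩
  obtain ⟨x12, hx12⟩ : ∃ x, x = 1 + 4 * Cs * 256 := ⟨_, rfl⟩
  obtain ⟨x13, hx13⟩ : ∃ x, x = 2 * (d : ℝ) + 272 * Cs / rlo + 4 * Cs * K2 := ⟨_, rfl⟩
  obtain ⟨x14, hx14⟩ : ∃ x, x = (4000 * C1 ^ 3 / rlo ^ 2) ^ 2 := ⟨_, rfl⟩
  obtain ⟨x15, hx15⟩ : ∃ x, x = 2 * (36864 * C1 ^ 2 / rlo ^ 2) := ⟨_, rfl⟩
  obtain ⟨x16, hx16⟩ : ∃ x, x = 2 * (8192 * C1 ^ 3 * cK ^ 2 / rlo ^ 2) := ⟨_, rfl⟩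
  obtain ⟨x17, hx17⟩ : ∃ x, x = (2000 * C1 ^ 3 * cK / rlo ^ 2) ^ 2 := ⟨_, rfl⟩
  obtain ⟨x18, hx18⟩ : ∃ x, x = 4 * C1 / rlo := ⟨_, rfl⟩
  obtain ⟨x19, hx19⟩ : ∃ x, x = 16 * C1 ^ 3 / rlo ^ 4 := ⟨_, rfl⟩
  obtain ⟨x20, hx20⟩ : ∃ x, x = 50 * (1 + 5 * C1 / rlo) / rlo := ⟨_, rfl⟩
  obtain ⟨x21, hx21⟩ : ∃ x, x = 2 / rlo := ⟨_, rfl⟩
  obtain ⟨C0, hC01, hC0⟩ := tg_max [x1, x2, x3, x4, x5, x6, x7, x9, x10, x11, x12, x13, 32, ct,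
    x14, x15, x16, x17, x18, x19, x20, x21]
  have m1 : x1 ≤ C0 := hC0 _ (by simp)
  have m2 : x2 ≤ C0 := hC0 _ (by simp)
  have m3 : x3 ≤ C0 := hC0 _ (by simp)
  have m4 : x4 ≤ C0 := hC0 _ (by simp)
  have m5 : x5 ≤ C0 := hC0 _ (by simp)
  have m6 : x6 ≤ C0 := hC0 _ (by simp)
  have m7 : x7 ≤ C0 := hC0 _ (by simp)
  have m9 : x9 ≤ C0 := hC0 _ (by simp)
  have m10 : x10 ≤ C0 := hC0 _ (by simp)
  have m11 : x11 ≤ C0 := hC0 _ (by simp)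
  have m12 : x12 ≤ C0 := hC0 _ (by simp)
  have m13 : x13 ≤ C0 := hC0 _ (by simp)
  have m32 : (32 : ℝ) ≤ C0 := hC0 _ (by simp)
  have mct : ct ≤ C0 := hC0 _ (by simp)
  have m14 : x14 ≤ C0 := hC0 _ (by simp)
  have m15 : x15 ≤ C0 := hC0 _ (by simp)
  have m16 : x16 ≤ C0 := hC0 _ (by simp)
  have m17 : x17 ≤ C0 := hC0 _ (by simp)
  have m18 : x18 ≤ C0 := hC0 _ (by simp)
  have m19 : x19 ≤ C0 := hC0 _ (by simp)
  have m20 : x20 ≤ C0 := hC0 _ (by simp)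
  have m21 : x21 ≤ C0 := hC0 _ (by simp)
  clear hC0
  obtain ⟨lam2, hlam2, hlam2', hA⟩ := sc_asym C0 hC01 d
  refine ⟨rlo, rhi, min lam1 lam2, hrlo, hrhi, lt_min hlam1 hlam2, ?_⟩
  intro L _ E η lam hlam hle hE1 hE2 hη1 hη2 hL1 hL2 hL3
  have hη0 : 0 < η := lt_of_lt_of_le (Real.exp_pos _) hη1
  have hη3 : η ≤ lam ^ 2 * sg * rlo := by
    have : 0 ≤ lam ^ 2 * sg * rlo := by positivity
    linarith
  obtain ⟨g0, hWd, hγ0, h64⟩ := hW L E η lam hlam (hle.trans (min_le_left _ _)) hE1 hE2 hη0 hη3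
    hL1 hL2
  refine ⟨g0, hWd, ?_⟩
  obtain ⟨p, J, hp2, hA2, hA3, hA4, hA5, hA6, hA7, hA8, hA9, hA10, hA11⟩ :=
    hA lam hlam (hle.trans (min_le_right _ _))
  have hlam1' : lam ≤ 1 := by
    have := hle.trans (min_le_right _ _)
    linarith
  obtain ⟨D, hD⟩ : ∃ D, D = mkD d L E η lam sg g0 := ⟨_, rfl⟩
  have hDlam : D.lam = lam := by rw [hD]; rfl
  have hDsg : D.sg = sg := by rw [hD]; rfl
  have hDz : D.z.im = η := by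
    rw [hD]
    simp [mkD]
  rw [← hD] at hWd hγ0 h64 ⊢
  -- `u`
  obtain ⟨u, hu⟩ : ∃ u, u = lam ^ (1 / 160 : ℝ) := ⟨_, rfl⟩
  have hu0 : 0 < u := by rw [hu]; positivity
  have hu1 : u ≤ 1 := by rw [hu]; exact Real.rpow_le_one hlam.le hlam1' (by norm_num)
  have hum : ∀ k : ℕ, u ^ k = lam ^ ((k : ℝ) / 160) := fun k => by rw [hu]; exact tg_upow hlam k
  have e160 : lam = u ^ 160 := by rw [hum]; norm_num
  have ea : lam ^ (1 / 10 : ℝ) = u ^ 16 := by rw [hum]; norm_num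
  have etau : lam ^ (9 / 40 : ℝ) = u ^ 36 := by rw [hum]; norm_num
  have ey : lam ^ (1 / 20 : ℝ) = u ^ 8 := by rw [hum]; norm_num
  have e80 : lam ^ (1 / 80 : ℝ) = u ^ 2 := by rw [hum]; norm_num
  have e40 : lam ^ (1 / 40 : ℝ) = u ^ 4 := by rw [hum]; norm_num
  have e310 : lam ^ (3 / 10 : ℝ) = u ^ 48 := by rw [hum]; norm_num
  have e32 : lam ^ (1 / 32 : ℝ) = u ^ 5 := by rw [hum]; norm_num
  rw [ea] at hA6
  rw [e80, ← hu] at hA7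
  rw [e40, ← hu] at hA8
  rw [e310, ← hu] at hA9
  rw [e32] at hA10
  rw [← hu] at hA11
  rw [ea, etau, ey]
  obtain ⟨P, hP⟩ : ∃ P : ℝ, P = p := ⟨_, rfl⟩
  have hP2 : 2 ≤ P := by rw [hP]; exact_mod_cast hp2
  have hP1 : 1 ≤ P := by linarith
  obtain ⟨Q, hQ⟩ : ∃ Q : ℝ, Q = (J : ℝ) + 6 := ⟨_, rfl⟩
  have hQ1 : 1 ≤ Q := by
    rw [hQ]
    have : (0 : ℝ) ≤ J := Nat.cast_nonneg J
    linarith
  rw [← hP] at hA7 hA8 hA9 hA10 hA11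
  rw [← hQ] at hA8 hA9
  obtain ⟨m, hm⟩ : ∃ m, m = lam ^ (-(1 / 1000) : ℝ) := ⟨_, rfl⟩
  have hm0 : 0 ≤ m := by
    rw [hm]
    positivity
  rw [← hm] at hη1 hL3 hA5 hA11 ⊢
  -- smallness of `u`
  have hCu : C0 * u ≤ 1 := by
    have h1 : C0 * u ^ 2 ≤ u := by
      refine le_trans ?_ hA7
      have h2 : (1 : ℝ) ≤ P ^ 4 := one_le_pow₀ hP1
      have h3 : 0 ≤ C0 := by linarith
      calc C0 * u ^ 2 = C0 * 1 * u ^ 2 := by ring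
        _ ≤ C0 * P ^ 4 * u ^ 2 :=
          mul_le_mul_of_nonneg_right (mul_le_mul_of_nonneg_left h2 h3) (by positivity)
    have h4 : C0 * u * u ≤ 1 * u := by
      calc C0 * u * u = C0 * u ^ 2 := by ring
        _ ≤ u := h1
        _ = 1 * u := by ring
    exact le_of_mul_le_mul_right h4 hu0
  have hsm : ∀ (c : ℝ) (k : ℕ), c ≤ C0 → 0 ≤ c → 1 ≤ k → c * u ^ k ≤ 1 := by
    intro c k h1 h2 h3
    have h4 : u ^ k ≤ u := by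
      calc u ^ k ≤ u ^ 1 := pow_le_pow_of_le_one hu0.le hu1 h3
        _ = u := pow_one u
    calc c * u ^ k ≤ C0 * u := mul_le_mul h1 h4 (by positivity) (h2.trans h1)
      _ ≤ 1 := hCu
  -- `γ`
  have hgi : D.g0.im ≤ rhi := (Complex.im_le_norm _).trans hWd.hi
  have hgl : rlo ≤ D.g0.im := hWd.lo
  have hgi0 : 0 < D.g0.im := hrlo.trans_le hgl
  obtain ⟨γ, hγ⟩ : ∃ γ, γ = D.et 0 := ⟨_, rfl⟩
  have hs : D.s = lam ^ 2 * sg := by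
    unfold Fl.s
    rw [hDlam, hDsg]
  have hs0 : 0 < D.s := by rw [hs]; positivity
  have hγe : γ = η + D.s * D.g0.im := by
    rw [hγ]
    unfold Fl.et
    rw [hDz]
    ring
  have het1 : D.et 1 = η := by
    unfold Fl.et
    rw [hDz]
    ring
  have hγ1 : γ ≤ 1 := by rw [hγ]; exact hγ0.trans (min_le_right _ _)
  have hγ00 : 0 < γ := by rw [hγe]; positivity
  have elam2 : lam ^ 2 = u ^ 320 := by
    rw [e160]
    ring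
  have hγl : cl * u ^ 320 ≤ γ := by
    have : D.s * rlo ≤ D.s * D.g0.im := mul_le_mul_of_nonneg_left hgl hs0.le
    have e : cl * u ^ 320 = D.s * rlo := by
      rw [hcl, hs, elam2]
      ring
    rw [e, hγe]
    linarith
  have hγu : γ ≤ cu * u ^ 320 := by
    have i1 : D.s * D.g0.im ≤ D.s * rhi := mul_le_mul_of_nonneg_left hgi hs0.le
    have i2 : η ≤ D.s * rhi := by
      have : D.s * rlo ≤ D.s * rhi := mul_le_mul_of_nonneg_left (hgl.trans hgi) hs0.le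
      rw [hs] at this ⊢
      linarith
    have e : cu * u ^ 320 = 2 * (D.s * rhi) := by
      rw [hcu, hs, elam2]
      ring
    rw [e, hγe]
    linarith
  have r12 : γ ^ (1 / 2 : ℝ) ≤ cu ^ (1 / 2 : ℝ) * u ^ 160 :=
    tg_rpow hγ00 hcu0 hu0 hγu (by norm_num) (by norm_num)
  have r32 : γ ^ (3 / 2 : ℝ) ≤ cu ^ (3 / 2 : ℝ) * u ^ 480 :=
    tg_rpow hγ00 hcu0 hu0 hγu (by norm_num) (by norm_num)
  have r14 : γ ^ (1 / 4 : ℝ) ≤ cu ^ (1 / 4 : ℝ) * u ^ 80 :=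
    tg_rpow hγ00 hcu0 hu0 hγu (by norm_num) (by norm_num)
  have r64 : γ ^ (1 / 64 : ℝ) ≤ cu ^ (1 / 64 : ℝ) * u ^ 5 :=
    tg_rpow hγ00 hcu0 hu0 hγu (by norm_num) (by norm_num)
  -- the real part of `r0`
  have h34 : ∀ k : Tor d L, D.s * (r0 D k).re ≤ 3 / 4 := by
    intro k
    have hγ2 : D.et 0 ≤ (rlo / (4 * C3)) ^ 2 :=
      hγ0.trans ((min_le_left _ _).trans (min_le_right _ _))
    have hsr : D.s * rlo ≤ D.et 0 := by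
      rw [← hγ, hγe]
      have h1 := mul_le_mul_of_nonneg_left hgl hs0.le
      linarith
    have h14 : C3 * √D.s / √rlo ≤ 1 / 4 := by
      have h1 : √D.s * √rlo ≤ rlo / (4 * C3) := by
        rw [← Real.sqrt_mul hs0.le]
        calc √(D.s * rlo) ≤ √((rlo / (4 * C3)) ^ 2) := Real.sqrt_le_sqrt (hsr.trans hγ2)
          _ = rlo / (4 * C3) := Real.sqrt_sq (by positivity)
      have h2 : 0 < √rlo := Real.sqrt_pos.2 hrlo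
      have h3 : √rlo * √rlo = rlo := Real.mul_self_sqrt hrlo.le
      rw [div_le_iff₀ h2]
      have h4 : (4 * C3) * (√D.s * √rlo) ≤ rlo := by
        have := mul_le_mul_of_nonneg_left h1 (show 0 ≤ 4 * C3 by positivity)
        rwa [mul_div_cancel₀ _ (show 4 * C3 ≠ 0 by positivity)] at this
      have h5 : (4 * C3 * √D.s) * √rlo ≤ √rlo * √rlo := by
        rw [h3]
        linarith
      have h6 := le_of_mul_le_mul_right h5 h2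
      linarith
    have := hre L D rlo rhi hWd h64 k
    linarith
  -- the hypotheses of the flow
  have ua0 : 0 < u ^ 16 := by positivity
  have ua1 : u ^ 16 ≤ 1 := pow_le_one₀ hu0.le hu1
  have ut0 : 0 < u ^ 36 := by positivity
  have ut1 : u ^ 36 ≤ 1 := pow_le_one₀ hu0.le hu1
  have uy0 : 0 < u ^ 8 := by positivity
  have uy1 : u ^ 8 ≤ 1 := pow_le_one₀ hu0.le hu1
  have H := (hT L D hWd (hγ0.trans ((min_le_left _ _).trans (min_le_left _ _))) h64 C1 (u ^ 16)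
    (u ^ 36) (u ^ 8) (u ^ 8) hC1.ge ua0 ua1 ut0 ut1 uy0 uy0 uy1).withK
  rw [← hγ, ← hCH] at H
  obtain ⟨y3, y4, y5, y6, y7, y8⟩ := sc_phi hWd p C1 (u ^ 16) (u ^ 36) (u ^ 8) (u ^ 8)
    (bHf D) hC11 ua0 ut0 uy0 uy0 H.bH0
  have hbHf : bHf D = γ ^ (1 / 64 : ℝ) := by rw [hγ]; rfl
  -- `e1`
  obtain ⟨e1, he1⟩ : ∃ e1, e1 = η / (2 * D.g0.im) := ⟨_, rfl⟩
  have he10 : 0 < e1 := by rw [he1]; positivity
  have hez : e1 * D.g0.im ≤ D.z.im / 2 := by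
    rw [he1, hDz]
    refine le_of_eq ?_
    field_simp
  have hes : e1 ≤ D.s / 100 := by
    rw [he1, hs, div_le_iff₀ (by positivity)]
    have h1 : lam ^ 2 * sg * rlo ≤ lam ^ 2 * sg * D.g0.im :=
      mul_le_mul_of_nonneg_left hgl (by positivity)
    calc η ≤ lam ^ 2 * sg * rlo / 50 := hη2
      _ ≤ lam ^ 2 * sg * D.g0.im / 50 := by linarith
      _ = lam ^ 2 * sg / 100 * (2 * D.g0.im) := by ring
  -- the cardinality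
  obtain ⟨N, hN⟩ : ∃ N : ℝ, N = (Fintype.card (Tor d L) : ℝ) := ⟨_, rfl⟩
  have hNL : N = (L : ℝ) ^ d := by
    rw [hN]
    simp [ZMod.card]
  have hL1' : (1 : ℝ) ≤ L := by
    have : 0 < L := Nat.pos_of_ne_zero (NeZero.ne L)
    exact_mod_cast this
  have hN1 : 1 ≤ N := by
    rw [hNL]
    exact one_le_pow₀ hL1'
  have hNe : N ≤ Real.exp ((d : ℝ) * m) := by
    rw [hNL, Real.exp_nat_mul]
    exact pow_le_pow_left₀ (by linarith) hL3 d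
  have hJ1 : √(Fintype.card (Tor d L)) * (19 / 20) ^ J ≤ 1 := by
    rw [← hN]
    refine le_trans ?_ hA5
    exact mul_le_mul_of_nonneg_right (Real.sqrt_le_sqrt hNe) (by positivity)
  have hJ2 : (1 + 2 * u ^ 16 / rlo) ^ J ≤ 2 := by
    refine le_trans ?_ hA6
    have h1 : 2 * u ^ 16 / rlo ≤ C0 * u ^ 16 := by
      calc 2 * u ^ 16 / rlo = x21 * u ^ 16 := by rw [hx21]; ring
        _ ≤ C0 * u ^ 16 := mul_le_mul_of_nonneg_right m21 ua0.le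
    exact pow_le_pow_left₀ (by positivity) (by linarith) J
  have harl : 4 * C1 * u ^ 16 ≤ rlo := by
    have h1 := hsm x18 16 m18 (by rw [hx18]; positivity) (by norm_num)
    rw [hx18] at h1
    have h2 : 4 * C1 / rlo * u ^ 16 = (4 * C1 * u ^ 16) / rlo := by ring
    rw [h2, div_le_one hrlo] at h1
    exact h1
  have ha4 : 16 * C1 ^ 3 * (u ^ 16) ^ 4 ≤ rlo ^ 4 * u ^ 36 := by
    have h1 := hsm x19 28 m19 (by rw [hx19]; positivity) (by norm_num)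
    rw [hx19] at h1
    have h2 : 16 * C1 ^ 3 / rlo ^ 4 * u ^ 28 = (16 * C1 ^ 3 * u ^ 28) / rlo ^ 4 := by ring
    rw [h2, div_le_one (by positivity)] at h1
    calc 16 * C1 ^ 3 * (u ^ 16) ^ 4 = 16 * C1 ^ 3 * u ^ 28 * u ^ 36 := by ring
      _ ≤ rlo ^ 4 * u ^ 36 := mul_le_mul_of_nonneg_right h1 ut0.le
  have hyy : (u ^ 8 + 5 * C1 * u ^ 16 / rlo) / rlo ≤ 1 / 50 := by
    have h1 := hsm x20 8 m20 (by rw [hx20]; positivity) (by norm_num)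
    have h2 : u ^ 16 ≤ u ^ 8 := pow_le_pow_of_le_one hu0.le hu1 (by norm_num)
    have h3 : (u ^ 8 + 5 * C1 * u ^ 16 / rlo) / rlo ≤ (u ^ 8 + 5 * C1 * u ^ 8 / rlo) / rlo := by
      gcongr
    refine h3.trans ?_
    have h4 : (u ^ 8 + 5 * C1 * u ^ 8 / rlo) / rlo = (x20 * u ^ 8) / 50 := by
      rw [hx20]
      field_simp
    rw [h4]
    linarith
  obtain ⟨a1, ha1⟩ : ∃ a1, a1 = rlo * u ^ 16 / (4 * C1) := ⟨_, rfl⟩
  have ha10 : 0 < a1 := by rw [ha1]; positivity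
  have ha1a : 4 * C1 * a1 ≤ rlo * u ^ 16 := by
    rw [ha1]
    refine le_of_eq ?_
    field_simp
  have F := flowS hS D hDsg C1 _ _ _ _ _ _ _ _ _ _ _ _ _ _ _ _ _ _ _ _ H rlo e1 a1 hrlo hgl
    he10 hez ha10 ha1a harl ha4 hyy
    (fun r hr => lowB_RL hWd h34 he10 hez hes hr.1 hr.2)
    (fun r hr => op_RL hWd h34 he10 hez hes hr.1 hr.2) J hJ1 hJ2 p hp2
    (Afs D C1 (u ^ 16) (u ^ 36) (u ^ 8) (u ^ 8) (bHf D) p) y3 y4 y5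
    (Phifs D C1 (u ^ 16) (u ^ 36) (u ^ 8) (u ^ 8) (bHf D) p)
    (fun r => 2 * r * D.s / D.et r * Afs D C1 (u ^ 16) (u ^ 36) (u ^ 8) (u ^ 8) (bHf D) p r)
    y6 y7 (fun r _ => le_rfl)
  refine F.trans ?_
  clear F
  rw [← hN, ← hγ, het1, hDlam, ← hQ, ha1]
  -- logarithms
  have hLg0 : 0 ≤ Real.log (γ / η) := by
    refine Real.log_nonneg ?_
    rw [le_div_iff₀ hη0, one_mul, hγe]
    have : 0 ≤ D.s * D.g0.im := by positivity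
    linarith
  have hLg : Real.log (γ / η) ≤ m := by
    have h1 : γ / η ≤ Real.exp m := by
      rw [div_le_iff₀ hη0]
      have h2 : Real.exp m * Real.exp (-m) ≤ Real.exp m * η :=
        mul_le_mul_of_nonneg_left hη1 (Real.exp_pos _).le
      rw [← Real.exp_add, add_neg_cancel, Real.exp_zero] at h2
      linarith
    calc Real.log (γ / η) ≤ Real.log (Real.exp m) := Real.log_le_log (by positivity) h1
      _ = m := Real.log_exp m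
  -- the source constant
  obtain ⟨K, hK⟩ : ∃ K, K = 2 * √(Ct * γ ^ (1 / 4 : ℝ) / γ) + 2 := ⟨_, rfl⟩
  have hK0 : 0 ≤ K := by rw [hK]; positivity
  have hKu : K * u ^ 120 ≤ cK := by
    rw [hK, hcK]
    exact ts_K hγ00 hcl0 hu0 hu1 hCt hγl
  have hKu' : K * u ^ 160 ≤ cK := by
    refine le_trans ?_ hKu
    exact mul_le_mul_of_nonneg_left (pow_le_pow_of_le_one hu0.le hu1 (by norm_num)) hK0
  rw [← hK]
  obtain ⟨b1, b2, b3, b4, b5, b6, b7, b8, b9, b10⟩ := tg_bases (C0 := C0) (C1 := C1) (P := P)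
    (u := u) (K := K) (kap := Ct * γ ^ (1 / 2 : ℝ)) (CH := CH)
    (ep1 := Ct * γ ^ (3 / 2 : ℝ)) (cK := cK) (ck := ck) (ce := ce) hu0 hu1 hP1 hA7 hC11
    hK0 hKu'
    (by
      rw [hck, mul_assoc]
      exact mul_le_mul_of_nonneg_left r12 hCt.le)
    hCH0
    (by
      rw [hce, mul_assoc]
      exact mul_le_mul_of_nonneg_left r32 hCt.le)
    hck0 hcK0 hce0 (hx1 ▸ m1) (hx2 ▸ m2) (hx3 ▸ m3) (hx4 ▸ m4) (hx5 ▸ m5) (hx6 ▸ m6) (hx7 ▸ m7)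
    (hx9 ▸ m9) (hx10 ▸ m10)
  obtain ⟨c1, c2, c3⟩ := ts_bases (C0 := C0) (C1 := C1) (rl := rlo) (P := P) (Q := Q) (u := u)
    (K := K) (cK := cK) hu0 hu1 hP1 hQ1 hA7 hA8 hA9 hC11 hrlo hK0 hKu hcK0
    (hx14 ▸ m14) (hx15 ▸ m15) (hx16 ▸ m16) (hx17 ▸ m17)
  have hB := BS_le N C1 rlo K Q lam (u ^ 16) (rlo * u ^ 16 / (4 * C1)) (u ^ 36) (u ^ 8) (u ^ 8)
    (Ct * γ ^ (1 / 2 : ℝ)) CH (Ct * γ ^ (3 / 2 : ℝ)) u p hN1 hC11 hrlo (by linarith) hK0 hlam ua0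
    (by positivity) ut0 uy0 uy0 (by positivity) hCH0 (by positivity)
    (by rw [← hP]; exact c1) (by rw [← hP, e160]; exact c2) (by rw [← hP, e160]; exact c3)
    (by rw [← hP]; exact b3)
    (by rw [← hP, e160]; exact b4) (by rw [← hP, e160]; exact b5) (by rw [← hP]; exact b6)
    (by rw [← hP, e160]; exact b7) (by rw [← hP]; exact b8) (by rw [← hP, e160]; exact b9)
    (by rw [← hP, e160]; exact b10)
  -- the start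
  have hst : Ct * γ ^ (1 / 4 : ℝ) / u ^ 36 ≤ u := by
    have i1 : Ct * γ ^ (1 / 4 : ℝ) ≤ ct * u ^ 80 := by
      rw [hct, mul_assoc]
      exact mul_le_mul_of_nonneg_left r14 hCt.le
    have i2 : ct * P ^ 0 * u ^ 44 ≤ u :=
      tg_key hu0 hu1 hP1 hA7 mct hct0 (by norm_num) (by norm_num)
    rw [div_le_iff₀ ut0]
    calc Ct * γ ^ (1 / 4 : ℝ) ≤ ct * u ^ 80 := i1
      _ = ct * P ^ 0 * u ^ 44 * u ^ 36 := by ring
      _ ≤ u * u ^ 36 := mul_le_mul_of_nonneg_right i2 ut0.le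
  -- the primitive
  have hPhi : Phifs D C1 (u ^ 16) (u ^ 36) (u ^ 8) (u ^ 8) (bHf D) p 1 ≤ 256 * P + K2 * m := by
    rw [← hP, ← hγ, het1] at y8
    refine y8.trans ?_
    rw [hK2]
    exact ts_phi hu0 hu1 hP1 hA10 hC11 hrlo hrhi0.le hcb0
      (by rw [hbHf, hcb]; exact r64) hLg hLg0 (hx11 ▸ m11) m32
  have fin := ts_final (m := m) (u := u) (C0 := C0) (Cs := Cs) (rlo := rlo) (K1 := 256) (K2 := K2)
    (N := N) (D := (d : ℝ)) (tt := Ct * γ ^ (1 / 4 : ℝ) / u ^ 36)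
    (B := BS N C1 rlo K Q lam (u ^ 16) (rlo * u ^ 16 / (4 * C1)) (u ^ 36) (u ^ 8) (u ^ 8)
      (Ct * γ ^ (1 / 2 : ℝ)) CH (Ct * γ ^ (3 / 2 : ℝ)) p)
    (Lam := Real.log (γ / η) / D.g0.im)
    (Phi := Phifs D C1 (u ^ 16) (u ^ 36) (u ^ 8) (u ^ 8) (bHf D) p 1) (P := P) (p := p)
    hm0 hu0 hP2 hCs0 hrlo hN1 hNe (by positivity) hst hB (by positivity)
    (by
      calc Real.log (γ / η) / D.g0.im ≤ m / D.g0.im := div_le_div_of_nonneg_right hLg hgi0.le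
        _ ≤ m / rlo := div_le_div_of_nonneg_left hm0 hrlo hgl)
    hPhi (hx12 ▸ m12) (hx13 ▸ m13)
  rw [hCs] at fin
  exact fin.trans hA11

end Pool.Agent.APS
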