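import Pool.Agent.APS.SCEx

/-! # APS3 SCUN: bounds, Lipschitz dependence, uniqueness, invertibility.

* `sc_le`: `‖γ_x‖ ≤ 1/e` by `rsc_diag` (`-Im (c - k γ) ≥ e`).
* `sc_lip`: say `k ≤ k'` (otherwise exchange the roles).  `b = c - k γ`, `b' = c' - k' γ'`.  By `rsc_sub`
  `γ_x - γ'_x = ∑_y G_xy (b'_y - b_y) G'_yx`, `b' - b = (c' - c) - (k' - k) γ' + k (γ - γ')`.
  Let `m = max_x ‖γ_x - γ'_x‖/√(Im γ_x Im γ'_x)` (attained).  With `f = (c' - c) - (k' - k) γ'`,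
  `‖f‖ ≤ F := A + |k - k'|/e`: `∑_y |G_xy||G'_xy| ≤ √(∑|G_xy|²) √(∑|G'_xy|²) ≤ √(Im γ_x Im γ'_x)/e` (`rsc_row`), and
  `rsc_contr` gives `‖γ_x - γ'_x‖ ≤ (F/e + θ m) √(Im γ_x Im γ'_x)`, `θ = k/(k + e²)`; so `m ≤ F/e + θ m`, so
  `m ≤ (F/e) (k + e²)/e²`, and `‖γ_x - γ'_x‖ ≤ m/e`.
* `sc_unique`: `sc_lip` with `A = 0`.   `gam_spec`: `exists_sc`.   `gam_eq`: uniqueness.
* `sc_unit`: if `(1 - k G∘G) u = 0`, let `m = max ‖u_x‖/Im γ_x`; `rsc_contr` with `γ' = γ`, `k' = k` gives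
  `‖u_x‖ ≤ θ m Im γ_x`, so `m ≤ θ m`, `m = 0`, `u = 0`.
-/

open Matrix Finset

noncomputable section

namespace Pool.Agent.APS

open Pool.Agent.Kin

variable {ι : Type} [Fintype ι] [DecidableEq ι] {H0 : Matrix ι ι ℂ}

omit [Fintype ι] [DecidableEq ι] in
private lemma scu_neg {k e : ℝ} (hk : 0 ≤ k) {c γ : ι → ℂ} (hc : ∀ x, (c x).im = -e)
    (h : ∀ x, 0 < (γ x).im) (x : ι) : e ≤ -(c x - (k : ℂ) * γ x).im := by
  rw [Complex.sub_im, Complex.im_ofReal_mul, hc]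
  have := mul_nonneg hk (h x).le
  linarith

theorem sc_le (hH : RealSym H0) {k e : ℝ} (hk : 0 ≤ k) (he : 0 < e) {c γ : ι → ℂ}
    (hc : ∀ x, (c x).im = -e) (h : IsSC H0 k c γ) (x : ι) : ‖γ x‖ ≤ 1 / e := by
  have h1 := rsc_diag hH he (scu_neg hk hc fun x => (h x).1) x
  rwa [(h x).2] at h1

private lemma scu_im (hH : RealSym H0) {k e : ℝ} (hk : 0 ≤ k) (he : 0 < e) {c γ : ι → ℂ}
    (hc : ∀ x, (c x).im = -e) (h : IsSC H0 k c γ) (x : ι) :
    0 < (γ x).im ∧ (γ x).im ≤ 1 / e :=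
  ⟨(h x).1, (Complex.im_le_norm _).trans (sc_le hH hk he hc h x)⟩

/-- the case `k ≤ k'` -/
private lemma scu_core (hH : RealSym H0) {k k' e : ℝ} (hk : 0 ≤ k) (hkk : k ≤ k') (he : 0 < e)
    {c c' γ γ' : ι → ℂ} (hc : ∀ x, (c x).im = -e) (hc' : ∀ x, (c' x).im = -e)
    (h : IsSC H0 k c γ) (h' : IsSC H0 k' c' γ') {A : ℝ} (hA : ∀ x, ‖c x - c' x‖ ≤ A) (x : ι) :
    ‖γ x - γ' x‖ ≤ (k + e ^ 2) / e ^ 4 * (A + |k - k'| / e) := by
  have hk' : 0 ≤ k' := hk.trans hkk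
  have hg := scu_im hH hk he hc h
  have hg' := scu_im hH hk' he hc' h'
  have hA0 : 0 ≤ A := (norm_nonneg _).trans (hA x)
  set F : ℝ := A + |k - k'| / e with hF
  have hF0 : 0 ≤ F := by positivity
  set b : ι → ℂ := fun y => c y - (k : ℂ) * γ y with hb
  set b' : ι → ℂ := fun y => c' y - (k' : ℂ) * γ' y with hb'
  set G := rsc H0 b with hG
  set G' := rsc H0 b' with hG'
  have hbn : ∀ y, e ≤ -(b y).im := scu_neg hk hc fun x => (h x).1
  have hbn' : ∀ y, e ≤ -(b' y).im := scu_neg hk' hc' fun x => (h' x).1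
  have hbm : ∀ y, (b y).im < 0 := fun y => by have := hbn y; linarith
  have hbm' : ∀ y, (b' y).im < 0 := fun y => by have := hbn' y; linarith
  have hGx : ∀ y, G y y = γ y := fun y => (h y).2
  have hGx' : ∀ y, G' y y = γ' y := fun y => (h' y).2
  -- the maximum
  obtain ⟨x0, -, hx0⟩ := Finset.exists_max_image (Finset.univ : Finset ι)
    (fun y => ‖γ y - γ' y‖ / √((γ y).im * (γ' y).im)) ⟨x, Finset.mem_univ x⟩
  set m : ℝ := ‖γ x0 - γ' x0‖ / √((γ x0).im * (γ' x0).im) with hm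
  have hm0 : 0 ≤ m := by positivity
  have hs : ∀ y, 0 < √((γ y).im * (γ' y).im) := fun y =>
    Real.sqrt_pos.2 (mul_pos (hg y).1 (hg' y).1)
  have hu : ∀ y, ‖γ y - γ' y‖ ≤ m * √((γ y).im * (γ' y).im) := by
    intro y
    have h1 := hx0 y (Finset.mem_univ y)
    rwa [div_le_iff₀ (hs y)] at h1
  -- the bound
  have hbd : ∀ y, ‖γ y - γ' y‖ ≤ (F / e + k / (k + e ^ 2) * m) * √((γ y).im * (γ' y).im) := by
    intro z
    have h1 : γ z - γ' z = ∑ y, G z y * (b' y - b y) * G' z y := by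
      have h2 := congrFun (congrFun (rsc_sub hH hbm hbm') z) z
      rw [Matrix.sub_apply, Matrix.mul_apply] at h2
      rw [← hGx z, ← hGx' z]
      refine h2.trans (Finset.sum_congr rfl fun y _ => ?_)
      rw [Matrix.mul_diagonal, rsc_symm hH b' y z]
    have h2 : ∀ y, ‖b' y - b y‖ ≤ F + k * ‖γ y - γ' y‖ := by
      intro y
      have e1 : b' y - b y = (c' y - c y) + (-((k' - k : ℝ) : ℂ) * γ' y) +
          (k : ℂ) * (γ y - γ' y) := by
        rw [hb, hb']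
        push_cast
        ring
      rw [e1]
      refine (norm_add₃_le).trans ?_
      have e2 : ‖c' y - c y‖ ≤ A := by
        rw [norm_sub_rev]
        exact hA y
      have e3 : ‖-((k' - k : ℝ) : ℂ) * γ' y‖ ≤ |k - k'| / e := by
        rw [norm_mul, norm_neg, Complex.norm_real, Real.norm_eq_abs, abs_sub_comm, div_eq_mul_one_div]
        exact mul_le_mul_of_nonneg_left (sc_le hH hk' he hc' h' y) (abs_nonneg _)
      have e4 : ‖(k : ℂ) * (γ y - γ' y)‖ = k * ‖γ y - γ' y‖ := by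
        rw [norm_mul, Complex.norm_real, Real.norm_eq_abs, abs_of_nonneg hk]
      rw [e4, hF]
      linarith
    have h3 : ‖γ z - γ' z‖ ≤ F * ∑ y, ‖G z y‖ * ‖G' z y‖ +
        k * ∑ y, ‖G z y‖ * ‖G' z y‖ * ‖γ y - γ' y‖ := by
      rw [h1, Finset.mul_sum, Finset.mul_sum, ← Finset.sum_add_distrib]
      refine (norm_sum_le _ _).trans (Finset.sum_le_sum fun y _ => ?_)
      rw [norm_mul, norm_mul]
      calc ‖G z y‖ * ‖b' y - b y‖ * ‖G' z y‖
          ≤ ‖G z y‖ * (F + k * ‖γ y - γ' y‖) * ‖G' z y‖ := by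
            gcongr
            exact h2 y
        _ = _ := by ring
    have h4 := rsc_contr hH hk hkk he hc hc' hg hg' (u := fun y => γ y - γ' y) hm0 hu z
    have h5 : ∑ y, ‖G z y‖ * ‖G' z y‖ ≤ √((γ z).im * (γ' z).im) / e := by
      have e1 := Real.sum_mul_le_sqrt_mul_sqrt Finset.univ (fun y => ‖G z y‖) (fun y => ‖G' z y‖)
      refine e1.trans ?_
      have e2 := rsc_row hH he hbn z
      have e3 := rsc_row hH he hbn' z
      have e4 : √(∑ y, ‖G z y‖ ^ 2) ≤ √((G z z).im / e) := Real.sqrt_le_sqrt e2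
      have e5 : √(∑ y, ‖G' z y‖ ^ 2) ≤ √((G' z z).im / e) := Real.sqrt_le_sqrt e3
      refine (mul_le_mul e4 e5 (Real.sqrt_nonneg _) (Real.sqrt_nonneg _)).trans (le_of_eq ?_)
      rw [hGx z, hGx' z, Real.sqrt_div (hg z).1.le, Real.sqrt_div (hg' z).1.le,
        Real.sqrt_mul (hg z).1.le, div_mul_div_comm, Real.mul_self_sqrt he.le]
    have h6 : (G z z).im = (γ z).im := by rw [hGx z]
    have h7 : (G' z z).im = (γ' z).im := by rw [hGx' z]
    have h4' : k * ∑ y, ‖G z y‖ * ‖G' z y‖ * ‖γ y - γ' y‖ ≤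
        k / (k + e ^ 2) * m * √((γ z).im * (γ' z).im) := by
      rw [← h6, ← h7]
      exact h4
    calc ‖γ z - γ' z‖ ≤ F * (√((γ z).im * (γ' z).im) / e) +
          k / (k + e ^ 2) * m * √((γ z).im * (γ' z).im) :=
          h3.trans (add_le_add (mul_le_mul_of_nonneg_left h5 hF0) h4')
      _ = _ := by ring
  have hke : 0 < k + e ^ 2 := by positivity
  have hmle : m ≤ F / e + k / (k + e ^ 2) * m := by
    have h1 := hbd x0
    rw [hm, div_le_iff₀ (hs x0), ← hm]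
    exact h1
  have hm1 : m ≤ F * (k + e ^ 2) / e ^ 3 := by
    have h1 : m - k / (k + e ^ 2) * m = m * (e ^ 2 / (k + e ^ 2)) := by
      field_simp
      ring
    have h2 : m * (e ^ 2 / (k + e ^ 2)) ≤ F / e := by linarith
    rw [le_div_iff₀ (by positivity)]
    rw [mul_div_assoc', div_le_div_iff₀ hke he] at h2
    calc m * e ^ 3 = m * e ^ 2 * e := by ring
      _ ≤ F * (k + e ^ 2) := h2
  have hsx : √((γ x).im * (γ' x).im) ≤ 1 / e := by
    rw [Real.sqrt_le_left (by positivity)]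
    calc (γ x).im * (γ' x).im ≤ 1 / e * (1 / e) :=
          mul_le_mul (hg x).2 (hg' x).2 (hg' x).1.le (by positivity)
      _ = (1 / e) ^ 2 := by ring
  calc ‖γ x - γ' x‖ ≤ m * √((γ x).im * (γ' x).im) := hu x
    _ ≤ F * (k + e ^ 2) / e ^ 3 * (1 / e) := mul_le_mul hm1 hsx (Real.sqrt_nonneg _) (by positivity)
    _ = (k + e ^ 2) / e ^ 4 * F := by
      field_simp

theorem sc_lip (hH : RealSym H0) {k k' e : ℝ} (hk : 0 ≤ k) (hk' : 0 ≤ k') (he : 0 < e)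
    {c c' γ γ' : ι → ℂ} (hc : ∀ x, (c x).im = -e) (hc' : ∀ x, (c' x).im = -e)
    (h : IsSC H0 k c γ) (h' : IsSC H0 k' c' γ') {A : ℝ} (hA : ∀ x, ‖c x - c' x‖ ≤ A) (x : ι) :
    ‖γ x - γ' x‖ ≤ (k + k' + e ^ 2) / e ^ 4 * (A + |k - k'| / e) := by
  have hA0 : 0 ≤ A := (norm_nonneg _).trans (hA x)
  have hF0 : 0 ≤ A + |k - k'| / e := by positivity
  rcases le_total k k' with hkk | hkk
  · refine (scu_core hH hk hkk he hc hc' h h' hA x).trans ?_
    apply mul_le_mul_of_nonneg_right _ hF0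
    apply div_le_div_of_nonneg_right _ (by positivity)
    linarith
  · have hA' : ∀ x, ‖c' x - c x‖ ≤ A := fun x => by
      rw [norm_sub_rev]
      exact hA x
    have h1 := scu_core hH hk' hkk he hc' hc h' h hA' x
    rw [norm_sub_rev, abs_sub_comm]
    rw [abs_sub_comm] at hF0
    refine h1.trans ?_
    apply mul_le_mul_of_nonneg_right _ hF0
    apply div_le_div_of_nonneg_right _ (by positivity)
    linarith

theorem sc_unique (hH : RealSym H0) {k e : ℝ} (hk : 0 ≤ k) (he : 0 < e) {c γ γ' : ι → ℂ}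
    (hc : ∀ x, (c x).im = -e) (h : IsSC H0 k c γ) (h' : IsSC H0 k c γ') : γ = γ' := by
  funext x
  have h1 := sc_lip hH hk hk he hc hc h h' (A := 0) (fun x => by simp) x
  rw [sub_self, abs_zero, zero_div, add_zero, mul_zero] at h1
  exact sub_eq_zero.1 (norm_le_zero_iff.1 h1)

theorem gam_spec (hH : RealSym H0) {k e : ℝ} (hk : 0 ≤ k) (he : 0 < e) {c : ι → ℂ}
    (hc : ∀ x, (c x).im = -e) : IsSC H0 k c (gam H0 k c) := by
  have h : ∃ γ, IsSC H0 k c γ := exists_sc hH hk he c hc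
  unfold gam
  rw [dif_pos h]
  exact h.choose_spec

theorem gam_eq (hH : RealSym H0) {k e : ℝ} (hk : 0 ≤ k) (he : 0 < e) {c γ : ι → ℂ}
    (hc : ∀ x, (c x).im = -e) (h : IsSC H0 k c γ) : gam H0 k c = γ :=
  sc_unique hH hk he hc (gam_spec hH hk he hc) h

theorem sc_unit (hH : RealSym H0) {k e : ℝ} (hk : 0 ≤ k) (he : 0 < e) {c γ : ι → ℂ}
    (hc : ∀ x, (c x).im = -e) (h : IsSC H0 k c γ) :
    IsUnit (1 - (k : ℂ) • had2 (rsc H0 (fun y => c y - (k : ℂ) * γ y))).det := by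
  rw [isUnit_iff_ne_zero]
  intro hdet
  obtain ⟨u, hu0, hu⟩ := Matrix.exists_mulVec_eq_zero_iff.2 hdet
  have hg := scu_im hH hk he hc h
  set G := rsc H0 (fun y => c y - (k : ℂ) * γ y) with hG
  have hGx : ∀ y, G y y = γ y := fun y => (h y).2
  obtain ⟨x, hx⟩ := Function.ne_iff.1 hu0
  obtain ⟨x0, -, hx0⟩ := Finset.exists_max_image (Finset.univ : Finset ι)
    (fun y => ‖u y‖ / (γ y).im) ⟨x, Finset.mem_univ x⟩
  set m : ℝ := ‖u x0‖ / (γ x0).im with hm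
  have hm0 : 0 ≤ m := div_nonneg (norm_nonneg _) (hg x0).1.le
  have hsq : ∀ y, √((γ y).im * (γ y).im) = (γ y).im := fun y => Real.sqrt_mul_self (hg y).1.le
  have hum : ∀ y, ‖u y‖ ≤ m * √((γ y).im * (γ y).im) := by
    intro y
    have h1 := hx0 y (Finset.mem_univ y)
    rw [div_le_iff₀ (hg y).1] at h1
    rw [hsq]
    exact h1
  have h1 : u x0 = (k : ℂ) * ∑ y, G x0 y ^ 2 * u y := by
    have h2 := congrFun hu x0
    rw [Matrix.sub_mulVec, Pi.sub_apply, Matrix.one_mulVec, Matrix.smul_mulVec, Pi.smul_apply,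
      smul_eq_mul, Pi.zero_apply] at h2
    have h3 : (had2 G *ᵥ u) x0 = ∑ y, G x0 y ^ 2 * u y := rfl
    rw [h3] at h2
    exact sub_eq_zero.1 h2
  have h2 : ‖u x0‖ ≤ k * ∑ y, ‖G x0 y‖ * ‖G x0 y‖ * ‖u y‖ := by
    rw [h1, norm_mul, Complex.norm_real, Real.norm_eq_abs, abs_of_nonneg hk]
    apply mul_le_mul_of_nonneg_left _ hk
    refine (norm_sum_le _ _).trans (Finset.sum_le_sum fun y _ => ?_)
    rw [norm_mul, norm_pow]
    apply le_of_eq
    ring
  have h3 := rsc_contr hH hk le_rfl he hc hc hg hg (u := u) hm0 hum x0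
  rw [← hG, hGx x0, hsq] at h3
  have h4 : m ≤ k / (k + e ^ 2) * m := by
    have h5 := h2.trans h3
    rw [hm, div_le_iff₀ (hg x0).1, ← hm]
    exact h5
  have hke : 0 < k + e ^ 2 := by positivity
  have h5 : m - k / (k + e ^ 2) * m = m * (e ^ 2 / (k + e ^ 2)) := by
    field_simp
    ring
  have h6 : m * (e ^ 2 / (k + e ^ 2)) ≤ 0 := by linarith
  have h7 : 0 < e ^ 2 / (k + e ^ 2) := by positivity
  have h8 : m ≤ 0 := by
    by_contra hcon
    push Not at hcon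
    have := mul_pos hcon h7
    linarith
  have h9 : m = 0 := le_antisymm h8 hm0
  have h10 := hum x
  rw [h9, zero_mul] at h10
  exact hx (norm_le_zero_iff.1 h10)

end Pool.Agent.APS
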