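import Pool.Agent.APS.SCDefs

/-! # APS3 SCWARD: resolvents `G = (H0 + diag b)⁻¹` with `Im b_x < 0`, `H0` real symmetric.

Paper proof.  `A = H0 + diag b`.
* `rsc_unit`: if `A u = 0` then `0 = Im ⟨u, A u⟩ = ∑ Im b_x |u_x|²` (`⟨u, H0 u⟩` is real), so `u = 0`.
* `rsc_symm`: `Aᵀ = A`, so `(A⁻¹)ᵀ = A⁻¹`.
* `rsc_sub`: `A⁻¹ - A'⁻¹ = A⁻¹ (A' - A) A'⁻¹`, `A' - A = diag (b' - b)`.
* `rsc_ward`: `G - Gᴴ = G (Aᴴ - A) Gᴴ`, `Aᴴ - A = diag (conj b - b) = diag (-2 i Im b)`; the `(x,x)` entry is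
  `2 i Im G_xx = ∑_y G_xy (-2 i Im b_y) conj G_xy`.
* `rsc_row`: from `rsc_ward`.  `rsc_im`: the row `x` of an invertible matrix is not zero.
* `rsc_diag`: `‖G_xx‖² ≤ ∑_y ‖G_xy‖² ≤ Im G_xx/e ≤ ‖G_xx‖/e`.
* `rsc_op`: for `v = G u`: `e ‖v‖² ≤ |Im ⟨v, A v⟩| ≤ ‖v‖ ‖A v‖ = ‖v‖ ‖u‖`.
* `rsc_hasDeriv`: derivative of the inverse of a matrix (see `rg_d1` in `RegG.lean` or use `rsc_sub` and slopes
  with the continuity of the inverse); `rsc_cont`: continuity (`Ring.inverse` / `det` and adjugate).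
-/

open Matrix Finset

noncomputable section

namespace Pool.Agent.APS

open Pool.Agent.Kin

variable {ι : Type} [Fintype ι] [DecidableEq ι] {H0 : Matrix ι ι ℂ}

/-- the imaginary part of the quadratic form of `H0 + diag b` -/
private lemma sw_form (hH : RealSym H0) (b u : ι → ℂ) :
    (∑ x, star (u x) * ((H0 + diagonal b) *ᵥ u) x).im = ∑ x, ‖u x‖ ^ 2 * (b x).im := by
  have h1 : ∀ x, ((H0 + diagonal b) *ᵥ u) x = (∑ y, H0 x y * u y) + b x * u x := by
    intro x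
    rw [Matrix.add_mulVec, Pi.add_apply, Matrix.mulVec_diagonal]
    rfl
  have h2 : ∑ x, star (u x) * ((H0 + diagonal b) *ᵥ u) x =
      (∑ x, ∑ y, star (u x) * H0 x y * u y) + ∑ x, b x * (star (u x) * u x) := by
    rw [← Finset.sum_add_distrib]
    refine Finset.sum_congr rfl fun x _ => ?_
    rw [h1, mul_add, Finset.mul_sum]
    congr 1
    · refine Finset.sum_congr rfl fun y _ => ?_
      ring
    · ring
  have h3 : (∑ x, ∑ y, star (u x) * H0 x y * u y).im = 0 := by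
    rw [← Complex.conj_eq_iff_im, map_sum]
    have e1 : ∀ x, (starRingEnd ℂ) (∑ y, star (u x) * H0 x y * u y) =
        ∑ y, star (u y) * H0 y x * u x := by
      intro x
      rw [map_sum]
      refine Finset.sum_congr rfl fun y _ => ?_
      have e2 : (starRingEnd ℂ) (H0 x y) = H0 x y := Complex.conj_eq_iff_im.2 (hH.real x y)
      rw [map_mul, map_mul, e2, hH.symm y x]
      simp only [RCLike.star_def, RingHomCompTriple.comp_apply, RingHom.id_apply]
      ring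
    rw [Finset.sum_congr rfl fun x _ => e1 x, Finset.sum_comm]
  rw [h2, Complex.add_im, h3, zero_add, Complex.im_sum]
  refine Finset.sum_congr rfl fun x _ => ?_
  have e3 : star (u x) * u x = ((‖u x‖ ^ 2 : ℝ) : ℂ) := by
    rw [RCLike.star_def, Complex.conj_mul']
    push_cast
    rfl
  rw [e3, Complex.im_mul_ofReal]
  ring

theorem rsc_unit (hH : RealSym H0) {b : ι → ℂ} (hb : ∀ x, (b x).im < 0) :
    IsUnit (H0 + diagonal b).det := by
  rw [isUnit_iff_ne_zero]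
  intro h0
  obtain ⟨v, hv, hv0⟩ := Matrix.exists_mulVec_eq_zero_iff.2 h0
  apply hv
  have h1 := sw_form hH b v
  rw [hv0] at h1
  simp only [Pi.zero_apply, mul_zero, Finset.sum_const_zero, Complex.zero_im] at h1
  have h2 : ∀ x, ‖v x‖ ^ 2 * (b x).im ≤ 0 := fun x =>
    mul_nonpos_of_nonneg_of_nonpos (by positivity) (hb x).le
  have h3 := (Finset.sum_eq_zero_iff_of_nonpos (fun x _ => h2 x)).1 h1.symm
  funext x
  have h4 := h3 x (Finset.mem_univ x)
  rcases mul_eq_zero.1 h4 with h5 | h5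
  · exact norm_eq_zero.1 (pow_eq_zero_iff (by norm_num) |>.1 h5)
  · exact absurd h5 (hb x).ne

private lemma sw_mul (hH : RealSym H0) {b : ι → ℂ} (hb : ∀ x, (b x).im < 0) :
    (H0 + diagonal b) * rsc H0 b = 1 :=
  Matrix.mul_nonsing_inv _ (rsc_unit hH hb)

private lemma sw_mul' (hH : RealSym H0) {b : ι → ℂ} (hb : ∀ x, (b x).im < 0) :
    rsc H0 b * (H0 + diagonal b) = 1 :=
  Matrix.nonsing_inv_mul _ (rsc_unit hH hb)

theorem rsc_symm (hH : RealSym H0) (b : ι → ℂ) (x y : ι) : rsc H0 b x y = rsc H0 b y x := by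
  have h1 : (H0 + diagonal b)ᵀ = H0 + diagonal b := by
    rw [Matrix.transpose_add, Matrix.diagonal_transpose]
    congr 1
    ext i j
    exact hH.symm j i
  have h2 : (rsc H0 b)ᵀ = rsc H0 b := by
    unfold rsc
    rw [Matrix.transpose_nonsing_inv, h1]
  calc rsc H0 b x y = (rsc H0 b)ᵀ y x := rfl
    _ = rsc H0 b y x := by rw [h2]

theorem rsc_sub (hH : RealSym H0) {b b' : ι → ℂ} (hb : ∀ x, (b x).im < 0)
    (hb' : ∀ x, (b' x).im < 0) :
    rsc H0 b - rsc H0 b' = rsc H0 b * diagonal (fun x => b' x - b x) * rsc H0 b' := by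
  have h1 : diagonal (fun x => b' x - b x) = (H0 + diagonal b') - (H0 + diagonal b) := by
    rw [add_sub_add_left_eq_sub, Matrix.diagonal_sub]
  rw [h1, mul_sub, sub_mul, sw_mul' hH hb, one_mul, mul_assoc, sw_mul hH hb', mul_one]

theorem rsc_ward (hH : RealSym H0) {b : ι → ℂ} (hb : ∀ x, (b x).im < 0) (x : ι) :
    (rsc H0 b x x).im = ∑ y, ‖rsc H0 b x y‖ ^ 2 * (-(b y).im) := by
  have h1 : (H0 + diagonal b) *ᵥ (fun y => rsc H0 b y x) = Pi.single x 1 := by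
    funext y
    have e1 : ((H0 + diagonal b) *ᵥ (fun y => rsc H0 b y x)) y =
        ((H0 + diagonal b) * rsc H0 b) y x := by
      rw [Matrix.mul_apply]
      rfl
    rw [e1, sw_mul hH hb, Matrix.one_apply, Pi.single_apply]
  have h2 := sw_form hH b (fun y => rsc H0 b y x)
  rw [h1] at h2
  have h3 : ∑ y, star (rsc H0 b y x) * (Pi.single x (1 : ℂ) : ι → ℂ) y =
      star (rsc H0 b x x) := by
    rw [Finset.sum_eq_single x]
    · rw [Pi.single_eq_same, mul_one]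
    · intro y _ hy
      rw [Pi.single_eq_of_ne hy, mul_zero]
    · intro h
      exact absurd (Finset.mem_univ x) h
  rw [h3] at h2
  have h4 : (star (rsc H0 b x x)).im = -(rsc H0 b x x).im := by
    rw [RCLike.star_def, Complex.conj_im]
  rw [h4] at h2
  rw [← neg_neg (rsc H0 b x x).im, h2, ← Finset.sum_neg_distrib]
  refine Finset.sum_congr rfl fun y _ => ?_
  rw [rsc_symm hH b y x]
  ring

theorem rsc_im (hH : RealSym H0) {b : ι → ℂ} (hb : ∀ x, (b x).im < 0) (x : ι) :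
    0 < (rsc H0 b x x).im := by
  rw [rsc_ward hH hb]
  have h0 : ∀ y ∈ Finset.univ, 0 ≤ ‖rsc H0 b x y‖ ^ 2 * (-(b y).im) := fun y _ =>
    mul_nonneg (by positivity) (by linarith [hb y])
  have hne : ∃ y, rsc H0 b x y ≠ 0 := by
    by_contra hcon
    push Not at hcon
    have h1 : (rsc H0 b * (H0 + diagonal b)) x x = 0 := by
      rw [Matrix.mul_apply]
      refine Finset.sum_eq_zero fun y _ => ?_
      rw [hcon y, zero_mul]
    rw [sw_mul' hH hb, Matrix.one_apply_eq] at h1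
    exact one_ne_zero h1
  obtain ⟨y, hy⟩ := hne
  refine Finset.sum_pos' h0 ⟨y, Finset.mem_univ y, ?_⟩
  have h1 : 0 < ‖rsc H0 b x y‖ := norm_pos_iff.2 hy
  exact mul_pos (by positivity) (by linarith [hb y])

theorem rsc_row (hH : RealSym H0) {b : ι → ℂ} {e : ℝ} (he : 0 < e) (hb : ∀ x, e ≤ -(b x).im)
    (x : ι) : ∑ y, ‖rsc H0 b x y‖ ^ 2 ≤ (rsc H0 b x x).im / e := by
  have hb' : ∀ x, (b x).im < 0 := fun x => by linarith [hb x]
  rw [le_div_iff₀ he, rsc_ward hH hb', Finset.sum_mul]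
  exact Finset.sum_le_sum fun y _ => mul_le_mul_of_nonneg_left (hb y) (by positivity)

theorem rsc_diag (hH : RealSym H0) {b : ι → ℂ} {e : ℝ} (he : 0 < e) (hb : ∀ x, e ≤ -(b x).im)
    (x : ι) : ‖rsc H0 b x x‖ ≤ 1 / e := by
  have h1 := rsc_row hH he hb x
  have h2 : ‖rsc H0 b x x‖ ^ 2 ≤ ∑ y, ‖rsc H0 b x y‖ ^ 2 :=
    Finset.single_le_sum (f := fun y => ‖rsc H0 b x y‖ ^ 2) (fun y _ => by positivity)
      (Finset.mem_univ x)
  have h3 : (rsc H0 b x x).im / e ≤ ‖rsc H0 b x x‖ / e :=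
    div_le_div_of_nonneg_right ((le_abs_self _).trans (Complex.abs_im_le_norm _)) he.le
  have h4 : ‖rsc H0 b x x‖ * ‖rsc H0 b x x‖ ≤ ‖rsc H0 b x x‖ * (1 / e) := by
    calc ‖rsc H0 b x x‖ * ‖rsc H0 b x x‖ = ‖rsc H0 b x x‖ ^ 2 := by ring
      _ ≤ ‖rsc H0 b x x‖ / e := h2.trans (h1.trans h3)
      _ = ‖rsc H0 b x x‖ * (1 / e) := by ring
  have h5 : 0 ≤ ‖rsc H0 b x x‖ := norm_nonneg _
  rcases h5.eq_or_lt with h6 | h6
  · rw [← h6]
    positivity
  · exact le_of_mul_le_mul_left h4 h6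

theorem rsc_op (hH : RealSym H0) {b : ι → ℂ} {e : ℝ} (he : 0 < e) (hb : ∀ x, e ≤ -(b x).im) :
    OpLe (rsc H0 b) (1 / e) := by
  intro u
  have hb' : ∀ x, (b x).im < 0 := fun x => by linarith [hb x]
  set v := rsc H0 b *ᵥ u with hv
  have h1 : (H0 + diagonal b) *ᵥ v = u := by
    rw [hv, Matrix.mulVec_mulVec, sw_mul hH hb', Matrix.one_mulVec]
  have h2 := sw_form hH b v
  rw [h1] at h2
  have h3 : e * ∑ x, ‖v x‖ ^ 2 ≤ -(∑ x, star (v x) * u x).im := by
    rw [h2, ← Finset.sum_neg_distrib, Finset.mul_sum]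
    refine Finset.sum_le_sum fun x _ => ?_
    have h4 := mul_le_mul_of_nonneg_left (hb x) (show 0 ≤ ‖v x‖ ^ 2 by positivity)
    linarith
  have h5 : -(∑ x, star (v x) * u x).im ≤ ∑ x, ‖v x‖ * ‖u x‖ := by
    calc -(∑ x, star (v x) * u x).im ≤ |(∑ x, star (v x) * u x).im| := neg_le_abs _
      _ ≤ ‖∑ x, star (v x) * u x‖ := Complex.abs_im_le_norm _
      _ ≤ ∑ x, ‖star (v x) * u x‖ := norm_sum_le _ _
      _ = ∑ x, ‖v x‖ * ‖u x‖ := by
          refine Finset.sum_congr rfl fun x _ => ?_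
          rw [norm_mul, norm_star]
  have h6 : (∑ x, ‖v x‖ * ‖u x‖) ^ 2 ≤ (∑ x, ‖v x‖ ^ 2) * ∑ x, ‖u x‖ ^ 2 :=
    Finset.sum_mul_sq_le_sq_mul_sq _ _ _
  have hV : 0 ≤ ∑ x, ‖v x‖ ^ 2 := Finset.sum_nonneg fun x _ => by positivity
  have hU : 0 ≤ ∑ x, ‖u x‖ ^ 2 := Finset.sum_nonneg fun x _ => by positivity
  have h7 : (e * ∑ x, ‖v x‖ ^ 2) ^ 2 ≤ (∑ x, ‖v x‖ ^ 2) * ∑ x, ‖u x‖ ^ 2 :=
    (pow_le_pow_left₀ (mul_nonneg he.le hV) (h3.trans h5) 2).trans h6
  rcases hV.eq_or_lt with h8 | h8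
  · rw [← h8]
    positivity
  · have h9 : (∑ x, ‖v x‖ ^ 2) * (e ^ 2 * ∑ x, ‖v x‖ ^ 2) ≤
        (∑ x, ‖v x‖ ^ 2) * ∑ x, ‖u x‖ ^ 2 := by
      calc (∑ x, ‖v x‖ ^ 2) * (e ^ 2 * ∑ x, ‖v x‖ ^ 2) = (e * ∑ x, ‖v x‖ ^ 2) ^ 2 := by ring
        _ ≤ _ := h7
    have h10 := le_of_mul_le_mul_left h9 h8
    calc ∑ x, ‖v x‖ ^ 2 = (1 / e) ^ 2 * (e ^ 2 * ∑ x, ‖v x‖ ^ 2) := by
          field_simp
      _ ≤ (1 / e) ^ 2 * ∑ x, ‖u x‖ ^ 2 := mul_le_mul_of_nonneg_left h10 (by positivity)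

theorem rsc_cont (hH : RealSym H0) {X : Type} [TopologicalSpace X] {S : Set X} (b : X → ι → ℂ)
    (hb : ∀ p ∈ S, ∀ x, (b p x).im < 0) (hc : ∀ x, ContinuousOn (fun p => b p x) S) (x y : ι) :
    ContinuousOn (fun p => rsc H0 (b p) x y) S := by
  rw [continuousOn_iff_continuous_domRestrict]
  have h1 : Continuous fun p : S => b p.1 := by
    refine continuous_pi fun z => ?_
    exact continuousOn_iff_continuous_domRestrict.1 (hc z)
  have h2 : Continuous fun p : S => H0 + diagonal (b p.1) :=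
    continuous_const.add h1.matrix_diagonal
  have h3 : (S.domRestrict fun p => rsc H0 (b p) x y) = fun p : S =>
      ((H0 + diagonal (b p.1)).det)⁻¹ * (H0 + diagonal (b p.1)).adjugate x y := by
    funext p
    change (H0 + diagonal (b p.1))⁻¹ x y = _
    rw [Matrix.inv_def, Matrix.smul_apply, smul_eq_mul, Ring.inverse_eq_inv']
  rw [h3]
  refine Continuous.mul (Continuous.inv₀ h2.matrix_det fun p => ?_) ?_
  · exact (rsc_unit hH (hb p.1 p.2)).ne_zero
  · exact h2.matrix_adjugate.matrix_elem x y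

private lemma sw_contAt (hH : RealSym H0) (b : ℝ → ι → ℂ) {t0 : ℝ}
    (hb : ∀ x, (b t0 x).im < 0) (hc : ∀ x, ContinuousAt (fun t => b t x) t0) (x y : ι) :
    ContinuousAt (fun t => rsc H0 (b t) x y) t0 := by
  have hopen : IsOpen {β : ι → ℂ | ∀ x, (β x).im < 0} := by
    have h1 : {β : ι → ℂ | ∀ x, (β x).im < 0} = ⋂ x, {β : ι → ℂ | (β x).im < 0} := by
      ext β
      simp only [Set.mem_iInter]
      rfl
    rw [h1]
    refine isOpen_iInter_of_finite fun z => ?_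
    exact isOpen_lt (Complex.continuous_im.comp (continuous_apply z)) continuous_const
  have h2 : ContinuousOn (fun β : ι → ℂ => rsc H0 β x y) {β : ι → ℂ | ∀ x, (β x).im < 0} :=
    rsc_cont hH (X := ι → ℂ) (fun β => β) (fun β hβ => hβ)
      (fun z => (continuous_apply z).continuousOn) x y
  have h3 : ContinuousAt (fun β : ι → ℂ => rsc H0 β x y) (b t0) :=
    h2.continuousAt (hopen.mem_nhds hb)
  have h4 : ContinuousAt b t0 := continuousAt_pi.2 hc
  exact ContinuousAt.comp (f := b) (g := fun β : ι → ℂ => rsc H0 β x y) h3 h4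

theorem rsc_hasDeriv (hH : RealSym H0) (b : ℝ → ι → ℂ) {b' : ι → ℂ} {t0 : ℝ}
    (hb : ∀ x, (b t0 x).im < 0) (hd : ∀ x, HasDerivAt (fun t => b t x) (b' x) t0) (x y : ι) :
    HasDerivAt (fun t => rsc H0 (b t) x y)
      (-(rsc H0 (b t0) * diagonal b' * rsc H0 (b t0)) x y) t0 := by
  have hc : ∀ x, ContinuousAt (fun t => b t x) t0 := fun x => (hd x).continuousAt
  rw [hasDerivAt_iff_tendsto_slope]
  have hev : ∀ᶠ t in nhds t0, ∀ x, (b t x).im < 0 := by
    rw [Filter.eventually_all]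
    intro z
    have h1 : ContinuousAt (fun t => (b t z).im) t0 :=
      Complex.continuous_im.continuousAt.comp (hc z)
    exact h1.eventually_lt continuousAt_const (hb z)
  have h1 : ∀ᶠ t in nhdsWithin t0 {t0}ᶜ, (∑ z, rsc H0 (b t) x z *
      (-slope (fun t => b t z) t0 t) * rsc H0 (b t0) z y) =
      slope (fun t => rsc H0 (b t) x y) t0 t := by
    filter_upwards [nhdsWithin_le_nhds hev] with t ht
    have e1 : rsc H0 (b t) x y - rsc H0 (b t0) x y =
        ∑ z, rsc H0 (b t) x z * (b t0 z - b t z) * rsc H0 (b t0) z y := by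
      rw [← Matrix.sub_apply, rsc_sub hH ht hb, Matrix.mul_apply]
      refine Finset.sum_congr rfl fun z _ => ?_
      rw [Matrix.mul_diagonal]
    rw [slope_def_module, e1, Finset.smul_sum]
    refine Finset.sum_congr rfl fun z _ => ?_
    rw [slope_def_module]
    simp only [Complex.real_smul]
    ring
  refine Filter.Tendsto.congr' h1 ?_
  have h2 : -(rsc H0 (b t0) * diagonal b' * rsc H0 (b t0)) x y =
      ∑ z, rsc H0 (b t0) x z * (-b' z) * rsc H0 (b t0) z y := by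
    rw [Matrix.mul_apply, ← Finset.sum_neg_distrib]
    refine Finset.sum_congr rfl fun z _ => ?_
    rw [Matrix.mul_diagonal]
    ring
  rw [h2]
  refine tendsto_finsetSum _ fun z _ => ?_
  refine Filter.Tendsto.mul_const _ ?_
  refine Filter.Tendsto.mul ?_ ?_
  · exact (sw_contAt hH b hb hc x z).tendsto.mono_left nhdsWithin_le_nhds
  · exact (hasDerivAt_iff_tendsto_slope.1 (hd z)).neg

end Pool.Agent.APS
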