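import Pool.Agent.APS.Defs
import Pool.Agent.Kin.Resamp

/-! # APS STEINPI: integration by parts in one variable of a product measure.

Use `Pool.Agent.Kin.resample`, `mp_update`, `ae_bdd`, `cont_integrable` (files Kin/Resamp.lean):
`∫ v_w F(v) dπ = ∫ (∫ x F(v[w→x]) dμ(x)) dπ = ∫ (∫ T(x) F'(v[w→x]) dμ(x)) dπ = ∫ T(v_w) F'(v) dπ`
(`SteinLaw.i1` for the function `x ↦ F(v[w→x])`).  `T` is bounded and measurable only, so the
last step is the change of variables `mp_update` for a measurable bounded integrand (Fubini).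
-/

open Finset MeasureTheory

noncomputable section

namespace Pool.Agent.APS

open Pool.Agent.Kin

variable {ι : Type} [Fintype ι] [DecidableEq ι] {μ : Measure ℝ} {bd sg CT : ℝ} {T T3 : ℝ → ℝ}

/-- `T(v_w) F(v)` is integrable for continuous `F` (also with any bounded measurable function
in place of `T`). -/
theorem stein_integrable (hS : SteinLaw μ bd sg CT T T3) (K : ℝ → ℝ) (hK : Measurable K) (b : ℝ)
    (hb : ∀ x, |K x| ≤ b) (F : (ι → ℝ) → ℝ) (hF : Continuous F) (w : ι) :
    Integrable (fun v => K (v w) * F v) (Measure.pi fun _ : ι => μ) := by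
  haveI := hS.prob
  obtain ⟨C, hC⟩ := (isCompact_univ_pi (fun _ : ι => isCompact_Icc (a := -bd)
    (b := bd))).exists_bound_of_continuousOn hF.continuousOn
  refine Integrable.of_bound
    ((hK.comp (measurable_pi_apply w)).aestronglyMeasurable.mul hF.aestronglyMeasurable)
    (b * C) ?_
  filter_upwards [ae_bdd μ bd hS.supp] with v hv
  have h1 := hC v (fun i _ => abs_le.mp (hv i))
  have h2 := hb (v w)
  rw [norm_mul, Real.norm_eq_abs]
  exact mul_le_mul h2 h1 (norm_nonneg _) ((abs_nonneg _).trans h2)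

/-- resampling for an integrable function -/
private lemma spi_resample (μ : Measure ℝ) [IsProbabilityMeasure μ] (g : (ι → ℝ) → ℝ)
    (hg : Integrable g (Measure.pi fun _ : ι => μ)) (i : ι) :
    ∫ v, (∫ x, g (Function.update v i x) ∂μ) ∂(Measure.pi fun _ : ι => μ) =
      ∫ v, g v ∂(Measure.pi fun _ : ι => μ) := by
  have hmp := mp_update (ι := ι) μ i
  have hi : Integrable (fun p : (ι → ℝ) × ℝ => g (Function.update p.1 i p.2))
      ((Measure.pi fun _ : ι => μ).prod μ) := hmp.integrable_comp_of_integrable hg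
  have h1 := integral_prod (μ := Measure.pi fun _ : ι => μ) (ν := μ)
    (fun p : (ι → ℝ) × ℝ => g (Function.update p.1 i p.2)) hi
  rw [← h1]
  have h2 := hmp.map_eq
  conv_rhs => rw [← h2]
  rw [integral_map (cont_upd i).measurable.aemeasurable (by rw [h2]; exact hg.aestronglyMeasurable)]

private lemma spi_gen (hS : SteinLaw μ bd sg CT T T3) (K K' : ℝ → ℝ) (hK : Measurable K)
    (hK' : Measurable K') (b b' : ℝ) (hb : ∀ x, |x| ≤ bd → |K x| ≤ b) (hb' : ∀ x, |K' x| ≤ b')
    (hi : ∀ f f' : ℝ → ℝ, (∀ x, HasDerivAt f (f' x) x) → Continuous f' →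
      ∫ x, K x * f x ∂μ = ∫ x, K' x * f' x ∂μ)
    (F F' : (ι → ℝ) → ℝ) (hF : Continuous F) (hF' : Continuous F') (w : ι)
    (hd : ∀ v t, HasDerivAt (fun t : ℝ => F (Function.update v w t)) (F' (Function.update v w t)) t) :
    ∫ v, K (v w) * F v ∂(Measure.pi fun _ : ι => μ) =
      ∫ v, K' (v w) * F' v ∂(Measure.pi fun _ : ι => μ) := by
  haveI := hS.prob
  have hI : Integrable (fun v => K (v w) * F v) (Measure.pi fun _ : ι => μ) := by
    obtain ⟨C, hC⟩ := (isCompact_univ_pi (fun _ : ι => isCompact_Icc (a := -bd)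
      (b := bd))).exists_bound_of_continuousOn hF.continuousOn
    refine Integrable.of_bound
      ((hK.comp (measurable_pi_apply w)).aestronglyMeasurable.mul hF.aestronglyMeasurable)
      (b * C) ?_
    filter_upwards [ae_bdd μ bd hS.supp] with v hv
    have h1 := hC v (fun i _ => abs_le.mp (hv i))
    have h2 := hb (v w) (hv w)
    rw [norm_mul, Real.norm_eq_abs]
    exact mul_le_mul h2 h1 (norm_nonneg _) ((abs_nonneg _).trans h2)
  have hI' := stein_integrable hS K' hK' b' hb' F' hF' w
  rw [← spi_resample μ _ hI w, ← spi_resample μ _ hI' w]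
  congr 1
  funext v
  simp only [Function.update_self]
  exact hi (fun x => F (Function.update v w x)) (fun x => F' (Function.update v w x))
    (fun x => hd v x) (hF'.comp (continuous_const.update w continuous_id))

theorem stein_pi1 (hS : SteinLaw μ bd sg CT T T3) (F F' : (ι → ℝ) → ℝ) (hF : Continuous F)
    (hF' : Continuous F') (w : ι)
    (hd : ∀ v t, HasDerivAt (fun t : ℝ => F (Function.update v w t)) (F' (Function.update v w t)) t) :
    ∫ v, v w * F v ∂(Measure.pi fun _ : ι => μ) =
      ∫ v, T (v w) * F' v ∂(Measure.pi fun _ : ι => μ) :=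
  spi_gen hS (fun x => x) T measurable_id hS.mT bd CT (fun _ hx => hx)
    (fun x => by rw [abs_of_nonneg (hS.T0 x)]; exact hS.Tb x) hS.i1 F F' hF hF' w hd

theorem stein_pi2 (hS : SteinLaw μ bd sg CT T T3) (F F' : (ι → ℝ) → ℝ) (hF : Continuous F)
    (hF' : Continuous F') (w : ι)
    (hd : ∀ v t, HasDerivAt (fun t : ℝ => F (Function.update v w t)) (F' (Function.update v w t)) t) :
    ∫ v, (T (v w) - sg) * F v ∂(Measure.pi fun _ : ι => μ) =
      ∫ v, T3 (v w) * F' v ∂(Measure.pi fun _ : ι => μ) :=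
  spi_gen hS (fun x => T x - sg) T3 (hS.mT.sub_const sg) hS.mT3 (CT + sg) CT
    (fun x _ => by
      have h1 := hS.T0 x
      have h2 := hS.Tb x
      have h3 := hS.sg0
      rw [abs_le]
      constructor <;> linarith) hS.T3b hS.i2 F F' hF hF' w hd

end Pool.Agent.APS
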