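import Pool.Agent.APS.Init0
import Pool.Agent.APS.RegG

/-! # APS YRPHI: explicit rate `A(r)` and its primitive `Phi(r)`.

`ρ0 = Im g0`, `η_r = D.et r`, `η_r' = -2 r s ρ0` (`hasDerivAt_et` in RegG), `s = D.s`.
`yrf^p ≥ 4η/s + y ≥ min(..)` (`(u+v)^p ≥ u^p + v^p`, `(x^(1/p))^p = x`), `C1 ≥ 1`.
`Af` is the sum of the three required rates (`cR = 4/s`):
`Af = 64 p C1 yrf + 192 + 6400 p² C1² X + 32 p y + 256 p η_r/s`, `X = bH + a + 2ρ0 dl + tau`.
Derivatives: `(log(η_0/η_r)/ρ0)' = 2 r s/η_r`; `((p/ρ0)(-(4η_r/s)^(1/p)))' = (2 r s/η_r) (4η_r/s)^(1/p)`;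
`((η_0 - η_r)/ρ0)' = 2 r s`.  So `Phif' = (2 r s/η_r) Af` exactly.
`Phif 1`: `η_0/s = z.im/s + ρ0 ≤ rlo + ρ0 ≤ 2ρ0` (`World.zs`), `x^(1/p) ≤ 1 + x`.
-/

open Finset

noncomputable section

namespace Pool.Agent.APS

open Pool.Agent.Kin

variable {d L : ℕ} [NeZero L]

private theorem yp_rpow_le {x : ℝ} (hx : 0 ≤ x) (p : ℕ) (hp : 2 ≤ p) :
    x ^ (1 / (p : ℝ)) ≤ 1 + x := by
  have hp1 : (2 : ℝ) ≤ p := by exact_mod_cast hp
  have hp0 : (0 : ℝ) ≤ 1 / (p : ℝ) := by positivity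
  have hp2 : 1 / (p : ℝ) ≤ 1 := by
    rw [div_le_one (by linarith)]
    linarith
  rcases le_or_gt x 1 with h | h
  · have := Real.rpow_le_one hx h hp0
    linarith
  · have := Real.rpow_le_rpow_of_exponent_le h.le hp2
    rw [Real.rpow_one] at this
    linarith

private theorem yp_pow {x y : ℝ} (hx : 0 ≤ x) (hy : 0 ≤ y) (p : ℕ) (hp : 2 ≤ p) :
    x + y ≤ (x ^ (1 / (p : ℝ)) + y ^ (1 / (p : ℝ))) ^ p := by
  have hp0 : p ≠ 0 := by omega
  have h1 : (x ^ (1 / (p : ℝ))) ^ p = x := by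
    rw [one_div]
    exact Real.rpow_inv_natCast_pow hx hp0
  have h2 : (y ^ (1 / (p : ℝ))) ^ p = y := by
    rw [one_div]
    exact Real.rpow_inv_natCast_pow hy hp0
  have h3 := pow_add_pow_le (Real.rpow_nonneg hx (1 / (p : ℝ)))
    (Real.rpow_nonneg hy (1 / (p : ℝ))) hp0
  rw [h1, h2] at h3
  exact h3

/-- `yR(r)^(1/p)` -/
def yrf (D : Fl (Tor d L)) (y : ℝ) (p : ℕ) (r : ℝ) : ℝ :=
  (4 * D.et r / D.s) ^ (1 / (p : ℝ)) + y ^ (1 / (p : ℝ))

/-- `log(η_0/η_r)/ρ0` -/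
def Lamf (D : Fl (Tor d L)) (r : ℝ) : ℝ := Real.log (D.et 0 / D.et r) / D.g0.im

/-- the rate -/
def Af (D : Fl (Tor d L)) (C1 a tau y dl bH : ℝ) (p : ℕ) (r : ℝ) : ℝ :=
  16 * (4 * p * C1 * yrf D y p r + 3) +
    16 * (400 * p ^ 2 * C1 ^ 2 * (bH + a + 2 * D.g0.im * dl + tau) + 6) +
    16 * (2 * p * (2 * (4 / D.s) * D.et r + y) + 3)

/-- the primitive of `(2 r s/η_r) Af` -/
def Phif (D : Fl (Tor d L)) (C1 a tau y dl bH : ℝ) (p : ℕ) (r : ℝ) : ℝ :=
  64 * p * C1 * (p / D.g0.im * ((4 * D.et 0 / D.s) ^ (1 / (p : ℝ)) -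
      (4 * D.et r / D.s) ^ (1 / (p : ℝ))) + y ^ (1 / (p : ℝ)) * Lamf D r) +
    (192 + 6400 * p ^ 2 * C1 ^ 2 * (bH + a + 2 * D.g0.im * dl + tau) + 32 * p * y) * Lamf D r +
    256 * p / (D.s * D.g0.im) * (D.et 0 - D.et r)

theorem yrphi {D : Fl (Tor d L)} {rlo rhi : ℝ} (hW : World D rlo rhi) (p : ℕ) (hp : 2 ≤ p)
    (C1 a tau y dl bH : ℝ) (hC1 : 1 ≤ C1) (ha : 0 < a) (htau : 0 < tau) (hy : 0 < y)
    (hdl : 0 < dl) (hbH : 0 ≤ bH) :
    (∀ r ∈ Set.Icc (0 : ℝ) 1, 0 ≤ yrf D y p r) ∧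
    (∀ r ∈ Set.Icc (0 : ℝ) 1, min C1 (4 / D.s * D.et r + y) ≤ yrf D y p r ^ p * C1) ∧
    (∀ r ∈ Set.Icc (0 : ℝ) 1, 16 * (4 * p * C1 * yrf D y p r + 3) ≤ Af D C1 a tau y dl bH p r) ∧
    (∀ r ∈ Set.Icc (0 : ℝ) 1,
      16 * (400 * p ^ 2 * C1 ^ 2 * (bH + a + 2 * D.g0.im * dl + tau) + 6) ≤
        Af D C1 a tau y dl bH p r) ∧
    (∀ r ∈ Set.Icc (0 : ℝ) 1,
      16 * (2 * p * (2 * (4 / D.s) * D.et r + y) + 3) ≤ Af D C1 a tau y dl bH p r) ∧
    (∀ r ∈ Set.Icc (0 : ℝ) 1, HasDerivAt (Phif D C1 a tau y dl bH p)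
      (2 * r * D.s / D.et r * Af D C1 a tau y dl bH p r) r) ∧
    Phif D C1 a tau y dl bH p 0 = 0 ∧
    Phif D C1 a tau y dl bH p 1 ≤ 64 * p ^ 2 * C1 / rlo * (8 * rhi + 1) + 512 * p +
      (64 * C1 * (p * y ^ (1 / (p : ℝ))) + 192 +
        6400 * p ^ 2 * C1 ^ 2 * (bH + a + 2 * rhi * dl + tau) + 32 * p * y) *
      (Real.log (D.et 0 / D.et 1) / rlo) := by
  have hs := hW.s0
  have hg := hW.g0im
  have hp1 : (2 : ℝ) ≤ p := by exact_mod_cast hp
  have hp0 : (0 : ℝ) < p := by linarith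
  have hC0 : 0 < C1 := by linarith
  have het : ∀ r ∈ Set.Icc (0 : ℝ) 1, 0 < D.et r := fun r hr =>
    lt_of_lt_of_le hW.zim (hW.et_pos hr.1 hr.2).1
  have hyr : ∀ r ∈ Set.Icc (0 : ℝ) 1, 0 ≤ yrf D y p r := by
    intro r hr
    have := het r hr
    unfold yrf
    positivity
  have hT1 : ∀ r ∈ Set.Icc (0 : ℝ) 1, 0 ≤ 16 * (4 * p * C1 * yrf D y p r + 3) := by
    intro r hr
    have := hyr r hr
    positivity
  have hT2 : 0 ≤ 16 * (400 * p ^ 2 * C1 ^ 2 * (bH + a + 2 * D.g0.im * dl + tau) + 6) := by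
    positivity
  have hT3 : ∀ r ∈ Set.Icc (0 : ℝ) 1, 0 ≤ 16 * (2 * p * (2 * (4 / D.s) * D.et r + y) + 3) := by
    intro r hr
    have := het r hr
    positivity
  refine ⟨hyr, ?_, ?_, ?_, ?_, ?_, ?_, ?_⟩
  · intro r hr
    have h0 := het r hr
    refine (min_le_right _ _).trans ?_
    have h1 : 4 / D.s * D.et r + y ≤ yrf D y p r ^ p := by
      have := yp_pow (x := 4 * D.et r / D.s) (y := y) (by positivity) hy.le p hp
      unfold yrf
      refine le_trans (le_of_eq ?_) this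
      ring
    have h2 : 0 ≤ yrf D y p r ^ p := pow_nonneg (hyr r hr) p
    nlinarith
  · intro r hr
    have h1 := hT1 r hr
    have h3 := hT3 r hr
    unfold Af
    linarith
  · intro r hr
    have h1 := hT1 r hr
    have h3 := hT3 r hr
    unfold Af
    linarith
  · intro r hr
    have h1 := hT1 r hr
    have h3 := hT3 r hr
    unfold Af
    linarith
  · intro r hr
    have h0 := het r hr
    have h00 := het 0 ⟨le_rfl, zero_le_one⟩
    have d0 := hasDerivAt_et D r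
    have d1 : HasDerivAt (fun r => (4 * D.et r / D.s) ^ (1 / (p : ℝ)))
        (4 * (-(2 * r * D.s * D.g0.im)) / D.s * (1 / (p : ℝ)) *
          (4 * D.et r / D.s) ^ (1 / (p : ℝ) - 1)) r := by
      have e1 : HasDerivAt (fun r => 4 * D.et r / D.s) (4 * (-(2 * r * D.s * D.g0.im)) / D.s) r :=
        (d0.const_mul 4).div_const D.s
      exact e1.rpow_const (Or.inl (by positivity))
    have e2 : (4 * D.et r / D.s) ^ (1 / (p : ℝ) - 1) =
        (4 * D.et r / D.s) ^ (1 / (p : ℝ)) * (D.s / (4 * D.et r)) := by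
      rw [Real.rpow_sub (by positivity), Real.rpow_one]
      field_simp
    have d2 : HasDerivAt (fun r => Lamf D r) (2 * r * D.s / D.et r) r := by
      unfold Lamf
      have e1 : HasDerivAt (fun r => D.et 0 / D.et r)
          ((0 * D.et r - D.et 0 * (-(2 * r * D.s * D.g0.im))) / D.et r ^ 2) r :=
        (hasDerivAt_const r (D.et 0)).div d0 h0.ne'
      have e3 := (e1.log (by positivity)).div_const D.g0.im
      have e4 : ((0 * D.et r - D.et 0 * (-(2 * r * D.s * D.g0.im))) / D.et r ^ 2) /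
          (D.et 0 / D.et r) / D.g0.im = 2 * r * D.s / D.et r := by
        field_simp
        ring
      rw [← e4]
      exact e3
    have d3 : HasDerivAt (Phif D C1 a tau y dl bH p)
        (64 * p * C1 * (p / D.g0.im * (-(4 * (-(2 * r * D.s * D.g0.im)) / D.s * (1 / (p : ℝ)) *
          (4 * D.et r / D.s) ^ (1 / (p : ℝ) - 1))) +
          y ^ (1 / (p : ℝ)) * (2 * r * D.s / D.et r)) +
        (192 + 6400 * p ^ 2 * C1 ^ 2 * (bH + a + 2 * D.g0.im * dl + tau) + 32 * p * y) *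
          (2 * r * D.s / D.et r) +
        256 * p / (D.s * D.g0.im) * (-(-(2 * r * D.s * D.g0.im)))) r := by
      have f1 := (((d1.const_sub ((4 * D.et 0 / D.s) ^ (1 / (p : ℝ)))).const_mul
        (p / D.g0.im)).add (d2.const_mul (y ^ (1 / (p : ℝ))))).const_mul (64 * p * C1)
      have f2 := d2.const_mul
        (192 + 6400 * p ^ 2 * C1 ^ 2 * (bH + a + 2 * D.g0.im * dl + tau) + 32 * p * y)
      have f3 := (d0.const_sub (D.et 0)).const_mul (256 * p / (D.s * D.g0.im))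
      exact (f1.add f2).add f3
    convert d3 using 1
    rw [e2]
    unfold Af yrf
    field_simp
    ring
  · unfold Phif Lamf
    have h00 := het 0 ⟨le_rfl, zero_le_one⟩
    rw [div_self h00.ne', Real.log_one]
    ring
  · have h00 := het 0 ⟨le_rfl, zero_le_one⟩
    have h11 := het 1 ⟨zero_le_one, le_rfl⟩
    have hr0 := hW.rlo0
    have hlo := hW.lo
    have him : D.g0.im ≤ rhi := ((le_abs_self _).trans (Complex.abs_im_le_norm _)).trans hW.hi
    have hx : 4 * D.et 0 / D.s ≤ 8 * rhi := by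
      rw [div_le_iff₀ hs, hW.et_zero]
      have h1 := hW.zs
      have h2 : D.s * rlo ≤ D.s * rhi := mul_le_mul_of_nonneg_left (hlo.trans him) hs.le
      have h3 : D.s * D.g0.im ≤ D.s * rhi := mul_le_mul_of_nonneg_left him hs.le
      nlinarith
    have hlog : 0 ≤ Real.log (D.et 0 / D.et 1) := by
      apply Real.log_nonneg
      rw [le_div_iff₀ h11, one_mul]
      exact (hW.et_pos zero_le_one le_rfl).2
    have hLam : Lamf D 1 ≤ Real.log (D.et 0 / D.et 1) / rlo :=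
      div_le_div_of_nonneg_left hlog hr0 hlo
    have hLam0 : 0 ≤ Lamf D 1 := div_nonneg hlog hg.le
    have g1 : p / D.g0.im * ((4 * D.et 0 / D.s) ^ (1 / (p : ℝ)) -
        (4 * D.et 1 / D.s) ^ (1 / (p : ℝ))) ≤ p / rlo * (8 * rhi + 1) := by
      have k1 : (4 * D.et 0 / D.s) ^ (1 / (p : ℝ)) ≤ 8 * rhi + 1 := by
        have := yp_rpow_le (x := 4 * D.et 0 / D.s) (by positivity) p hp
        linarith
      have k2 : 0 ≤ (4 * D.et 1 / D.s) ^ (1 / (p : ℝ)) := by positivity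
      have k3 : (p : ℝ) / D.g0.im ≤ p / rlo := div_le_div_of_nonneg_left hp0.le hr0 hlo
      have k4 : 0 ≤ (4 * D.et 0 / D.s) ^ (1 / (p : ℝ)) := by positivity
      calc _ ≤ p / D.g0.im * (8 * rhi + 1) :=
            mul_le_mul_of_nonneg_left (by linarith) (by positivity)
        _ ≤ _ := mul_le_mul_of_nonneg_right k3 (by linarith)
    have g2 : y ^ (1 / (p : ℝ)) * Lamf D 1 ≤
        y ^ (1 / (p : ℝ)) * (Real.log (D.et 0 / D.et 1) / rlo) :=
      mul_le_mul_of_nonneg_left hLam (by positivity)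
    have g3 : 256 * p / (D.s * D.g0.im) * (D.et 0 - D.et 1) = 256 * p := by
      rw [hW.et_zero, hW.et_one]
      field_simp
      ring
    have g4 : (192 + 6400 * p ^ 2 * C1 ^ 2 * (bH + a + 2 * D.g0.im * dl + tau) + 32 * p * y) *
        Lamf D 1 ≤ (192 + 6400 * p ^ 2 * C1 ^ 2 * (bH + a + 2 * rhi * dl + tau) + 32 * p * y) *
        (Real.log (D.et 0 / D.et 1) / rlo) := by
      apply mul_le_mul _ hLam hLam0
      · have : 0 ≤ rhi := hg.le.trans him
        positivity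
      · have k1 : D.g0.im * dl ≤ rhi * dl := mul_le_mul_of_nonneg_right him hdl.le
        have k2 : (6400 * p ^ 2 * C1 ^ 2) * (bH + a + 2 * D.g0.im * dl + tau) ≤
            (6400 * p ^ 2 * C1 ^ 2) * (bH + a + 2 * rhi * dl + tau) :=
          mul_le_mul_of_nonneg_left (by linarith) (by positivity)
        linarith
    have g5 : 64 * p * C1 * (p / D.g0.im * ((4 * D.et 0 / D.s) ^ (1 / (p : ℝ)) -
        (4 * D.et 1 / D.s) ^ (1 / (p : ℝ))) + y ^ (1 / (p : ℝ)) * Lamf D 1) ≤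
        64 * p * C1 * (p / rlo * (8 * rhi + 1) +
          y ^ (1 / (p : ℝ)) * (Real.log (D.et 0 / D.et 1) / rlo)) :=
      mul_le_mul_of_nonneg_left (add_le_add g1 g2) (by positivity)
    unfold Phif
    rw [g3]
    calc _ ≤ 64 * p * C1 * (p / rlo * (8 * rhi + 1) +
          y ^ (1 / (p : ℝ)) * (Real.log (D.et 0 / D.et 1) / rlo)) +
        (192 + 6400 * p ^ 2 * C1 ^ 2 * (bH + a + 2 * rhi * dl + tau) + 32 * p * y) *
        (Real.log (D.et 0 / D.et 1) / rlo) + 512 * p := by linarith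
      _ = _ := by
        field_simp
        ring

end Pool.Agent.APS
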