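import Pool.Agent.APS.TorHyp
import Pool.Agent.APS.YrPhi
import Pool.Agent.APS.B4Bd
import Pool.Agent.APS.Asym
import Pool.Agent.APS.FixPt

/-! # APS TORGOOD: the probability bound on the torus (assembly).

`a = λ^(1/10)`, `tau = λ^(9/40)`, `y = dl = λ^(1/20)`, `C1 = rhi + 1`, `ℓ = log(1/λ)`.
`γ = et 0 = η + s ρ0 ∈ [λ² sg rlo, 2 λ² sg rhi]`.  `torHyp` gives `FlowHyp4` with `K = Cγ^(-1/2) ≤ C' λ⁻¹`,
`cR = 4/s`, `CH = 2/rlo`, `kap = Cγ^(1/2) ≤ C'λ`, `bH = γ^(1/64) ≤ C' λ^(1/32)`, `ep1 = Cγ^(3/2) ≤ C'λ³`,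
`taui = Cγ^(1/4) ≤ C' λ^(1/2)`.  Take `p` from `asym` with a large constant `C0`; `q = λ^(1/160)`.
All ten bases of `B4_le` and `taui/tau` are at most `C0 p⁴ λ^(1/80) ≤ q`:
`λ^(9/40-8/40)`, `λ^(9/5)`, `λ^(3-9/40)`, `λ^(16/40-9/40)`, `λ^(1/10)`, `(λ^(9/160-8/160))² = λ^(1/80)`, ...,
`(λ + λ^(9/80) + λ)/λ^(8/80) ≤ 3 λ^(1/80)`.
`yrphi`: `Phif 1 ≤ C0' (p² + ℓ^(1+b))` (`p y^(1/p) ≤ 1`; `p² (bH + a + 2 rhi dl + tau) ≤ C p⁴ λ^(1/80) ≤ 1`;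
`log(et 0/et 1) ≤ log(1/η) ≤ ℓ^(1+b)` as `et 0 ≤ 1`).
`N = L^d ≤ exp(d ℓ^(1+b))`.  `flow4`: the probability is at most
`4 (N q^p + Cs 256 N² q^p ℓ^(1+b)/rlo) exp(4 Cs C0' (p² + ℓ^(1+b))) ≤ exp(C0 (ℓ^(1+b) + p²)) q^p
≤ exp(-ℓ^(1+b))` (`x ≤ exp x`, constants absorbed since `p² ≥ 4`).
-/

open Matrix Finset MeasureTheory

noncomputable section

namespace Pool.Agent.APS

open Pool.Agent.Kin

private theorem tg_max (l : List ℝ) : ∃ C0 : ℝ, 1 ≤ C0 ∧ ∀ c ∈ l, c ≤ C0 := by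
  induction l with
  | nil => exact ⟨1, le_rfl, by simp⟩
  | cons a l ih =>
    obtain ⟨C, h1, h2⟩ := ih
    refine ⟨max a C, h1.trans (le_max_right _ _), ?_⟩
    intro c hc
    rcases List.mem_cons.1 hc with h | h
    · rw [h]
      exact le_max_left _ _
    · exact (h2 c h).trans (le_max_right _ _)

/-- the basic comparison -/
private theorem tg_key {C0 P u c : ℝ} (hu0 : 0 < u) (hu1 : u ≤ 1) (hP : 1 ≤ P)
    (h : C0 * P ^ 4 * u ^ 2 ≤ u) (hc : c ≤ C0) (hc0 : 0 ≤ c) {k m : ℕ} (hk : k ≤ 4) (hm : 2 ≤ m) :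
    c * P ^ k * u ^ m ≤ u := by
  refine le_trans ?_ h
  have h1 : P ^ k ≤ P ^ 4 := pow_le_pow_right₀ hP hk
  have h2 : u ^ m ≤ u ^ 2 := pow_le_pow_of_le_one hu0.le hu1 hm
  have h3 : 0 < P := by linarith
  exact mul_le_mul (mul_le_mul hc h1 (by positivity) (hc0.trans hc)) h2 (by positivity)
    (mul_nonneg (hc0.trans hc) (by positivity))

private theorem tg_sqrt {u : ℝ} (hu0 : 0 < u) : √(u ^ 36) = u ^ 18 ∧ √√(u ^ 36) = u ^ 9 := by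
  have h1 : √(u ^ 36) = u ^ 18 := by
    have : u ^ 36 = (u ^ 18) ^ 2 := by ring
    rw [this, Real.sqrt_sq (by positivity)]
  refine ⟨h1, ?_⟩
  have : u ^ 18 = (u ^ 9) ^ 2 := by ring
  rw [h1, this, Real.sqrt_sq (by positivity)]

/-- the ten bases -/
private theorem tg_bases {C0 C1 P u K kap CH ep1 cK ck ce : ℝ} (hu0 : 0 < u) (hu1 : u ≤ 1)
    (hP : 1 ≤ P) (h : C0 * P ^ 4 * u ^ 2 ≤ u) (hC1 : 1 ≤ C1)
    (hK0 : 0 ≤ K) (hK : K * u ^ 160 ≤ cK) (hkap : kap ≤ ck * u ^ 160)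
    (hCH : 0 ≤ CH) (hep : ep1 ≤ ce * u ^ 480)
    (hck : 0 ≤ ck) (hcK : 0 ≤ cK) (hce : 0 ≤ ce)
    (m1 : 20 * C1 ^ 2 ≤ C0) (m2 : 144 * C1 ^ 6 ≤ C0) (m3 : 200 * C1 ^ 5 * ce ≤ C0)
    (m4 : (80 * C1 ^ 3) ^ 4 ≤ C0) (m5 : (120 * C1 ^ 3) ^ 2 ≤ C0) (m6 : (30 * C1 ^ 2) ^ 2 ≤ C0)
    (m7 : (24 * C1 ^ 3) ^ 2 ≤ C0) (m9 : (2000 * C1 ^ 3) ^ 2 ≤ C0)
    (m10 : 10000 * C1 ^ 4 * (1 + CH) * (ck + 1 + (1 + ck) * (1 + cK)) ≤ C0) :
    (20 * P ^ 2 * C1 ^ 2 * u ^ 36 / (u ^ 16) ^ 2 ≤ u) ∧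
    ((12 * P * C1 ^ 3 * u ^ 160 / u ^ 16) ^ 2 ≤ u) ∧
    (200 * P ^ 2 * C1 ^ 5 * ep1 / u ^ 36 ≤ u) ∧
    ((40 * P * C1 ^ 3 * (u ^ 16 + u ^ 160)) ^ 4 / u ^ 36 ≤ u) ∧
    ((60 * P * C1 ^ 3 * (u ^ 16 + u ^ 160) / u ^ 8) ^ 2 ≤ u) ∧
    ((30 * P * C1 ^ 2 * √√(u ^ 36) / u ^ 8) ^ 2 ≤ u) ∧
    ((12 * P * C1 ^ 3 * (u ^ 16 + u ^ 160)) ^ 2 ≤ u) ∧
    (20 * P ^ 2 * C1 ^ 2 * u ^ 36 ≤ u) ∧
    ((1000 * P * C1 ^ 3 * (u ^ 16 + u ^ 160) / u ^ 8) ^ 2 ≤ u) ∧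
    (10000 * P ^ 2 * C1 ^ 4 * (1 + CH) * (kap + √(u ^ 36) +
      (1 + kap) * (1 + K) * (u ^ 160) ^ 2) / (u ^ 8) ^ 2 ≤ u) := by
  obtain ⟨s1, s2⟩ := tg_sqrt hu0
  have hP0 : 0 < P := by linarith
  have hC10 : 0 < C1 := by linarith
  have hau : u ^ 16 + u ^ 160 ≤ 2 * u ^ 16 := by
    have : u ^ 160 ≤ u ^ 16 := pow_le_pow_of_le_one hu0.le hu1 (by norm_num)
    linarith
  have hau0 : 0 ≤ u ^ 16 + u ^ 160 := by positivity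
  have key : ∀ (c : ℝ) (k m : ℕ), c ≤ C0 → 0 ≤ c → k ≤ 4 → 2 ≤ m → c * P ^ k * u ^ m ≤ u :=
    fun c k m h1 h2 h3 h4 => tg_key hu0 hu1 hP h h1 h2 h3 h4
  refine ⟨?_, ?_, ?_, ?_, ?_, ?_, ?_, ?_, ?_, ?_⟩
  · have e : 20 * P ^ 2 * C1 ^ 2 * u ^ 36 / (u ^ 16) ^ 2 = 20 * C1 ^ 2 * P ^ 2 * u ^ 4 := by
      field_simp
    rw [e]
    exact key _ 2 4 m1 (by positivity) (by norm_num) (by norm_num)
  · have e : (12 * P * C1 ^ 3 * u ^ 160 / u ^ 16) ^ 2 = 144 * C1 ^ 6 * P ^ 2 * u ^ 288 := by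
      field_simp
      ring
    rw [e]
    exact key _ 2 288 m2 (by positivity) (by norm_num) (by norm_num)
  · have e : 200 * P ^ 2 * C1 ^ 5 * (ce * u ^ 480) / u ^ 36 =
        200 * C1 ^ 5 * ce * P ^ 2 * u ^ 444 := by
      field_simp
    refine le_trans ?_ (e.le.trans (key _ 2 444 m3 (by positivity) (by norm_num) (by norm_num)))
    gcongr
  · have e : (40 * P * C1 ^ 3 * (2 * u ^ 16)) ^ 4 / u ^ 36 =
        (80 * C1 ^ 3) ^ 4 * P ^ 4 * u ^ 28 := by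
      field_simp
      ring
    refine le_trans ?_ (e.le.trans (key _ 4 28 m4 (by positivity) (by norm_num) (by norm_num)))
    gcongr
  · have e : (60 * P * C1 ^ 3 * (2 * u ^ 16) / u ^ 8) ^ 2 =
        (120 * C1 ^ 3) ^ 2 * P ^ 2 * u ^ 16 := by
      field_simp
      ring
    refine le_trans ?_ (e.le.trans (key _ 2 16 m5 (by positivity) (by norm_num) (by norm_num)))
    gcongr
  · rw [s2]
    have e : (30 * P * C1 ^ 2 * u ^ 9 / u ^ 8) ^ 2 = (30 * C1 ^ 2) ^ 2 * P ^ 2 * u ^ 2 := by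
      field_simp
    rw [e]
    exact key _ 2 2 m6 (by positivity) (by norm_num) (by norm_num)
  · have e : (12 * P * C1 ^ 3 * (2 * u ^ 16)) ^ 2 = (24 * C1 ^ 3) ^ 2 * P ^ 2 * u ^ 32 := by
      ring
    refine le_trans ?_ (e.le.trans (key _ 2 32 m7 (by positivity) (by norm_num) (by norm_num)))
    gcongr
  · have e : 20 * P ^ 2 * C1 ^ 2 * u ^ 36 = 20 * C1 ^ 2 * P ^ 2 * u ^ 36 := by ring
    rw [e]
    exact key _ 2 36 m1 (by positivity) (by norm_num) (by norm_num)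
  · have e : (1000 * P * C1 ^ 3 * (2 * u ^ 16) / u ^ 8) ^ 2 =
        (2000 * C1 ^ 3) ^ 2 * P ^ 2 * u ^ 16 := by
      field_simp
      ring
    refine le_trans ?_ (e.le.trans (key _ 2 16 m9 (by positivity) (by norm_num) (by norm_num)))
    gcongr
  · rw [s1]
    have hu160 : u ^ 160 ≤ u ^ 18 := pow_le_pow_of_le_one hu0.le hu1 (by norm_num)
    have hu160' : u ^ 160 ≤ 1 := pow_le_one₀ hu0.le hu1
    have i1 : kap ≤ ck * u ^ 18 := hkap.trans (mul_le_mul_of_nonneg_left hu160 hck)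
    have i2 : 1 + kap ≤ 1 + ck := by
      have : ck * u ^ 160 ≤ ck * 1 := mul_le_mul_of_nonneg_left hu160' hck
      linarith
    have i3 : (1 + K) * (u ^ 160) ^ 2 ≤ (1 + cK) * u ^ 18 := by
      have j1 : (1 + K) * u ^ 160 ≤ 1 + cK := by
        have : (1 + K) * u ^ 160 = u ^ 160 + K * u ^ 160 := by ring
        linarith
      calc (1 + K) * (u ^ 160) ^ 2 = ((1 + K) * u ^ 160) * u ^ 160 := by ring
        _ ≤ (1 + cK) * u ^ 18 := mul_le_mul j1 hu160 (by positivity) (by positivity)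
    have i4 : kap + u ^ 18 + (1 + kap) * (1 + K) * (u ^ 160) ^ 2 ≤
        (ck + 1 + (1 + ck) * (1 + cK)) * u ^ 18 := by
      have j2 : (1 + kap) * ((1 + K) * (u ^ 160) ^ 2) ≤ (1 + ck) * ((1 + cK) * u ^ 18) :=
        mul_le_mul i2 i3 (by positivity) (by positivity)
      nlinarith
    have e : 10000 * P ^ 2 * C1 ^ 4 * (1 + CH) * ((ck + 1 + (1 + ck) * (1 + cK)) * u ^ 18) /
        (u ^ 8) ^ 2 =
        10000 * C1 ^ 4 * (1 + CH) * (ck + 1 + (1 + ck) * (1 + cK)) * P ^ 2 * u ^ 2 := by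
      field_simp
    refine le_trans ?_ (e.le.trans (key _ 2 2 m10 (by positivity) (by norm_num) (by norm_num)))
    gcongr

/-- the final numerical estimate -/
private theorem tg_final {m u C0 Cs rlo K1 K2 N D tt B Lam Phi P : ℝ} {p : ℕ} (hm : 0 ≤ m)
    (hu0 : 0 < u) (hP : P = p) (hp : 2 ≤ P) (hCs : 0 ≤ Cs) (hrlo : 0 < rlo)
    (hN1 : 1 ≤ N) (hN : N ≤ Real.exp (D * m)) (ht0 : 0 ≤ tt) (ht : tt ≤ u)
    (hB : B ≤ 256 * N ^ 2 * u ^ p) (hL0 : 0 ≤ Lam) (hL : Lam ≤ m / rlo)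
    (hPhi : Phi ≤ K1 * P ^ 2 + K2 * m)
    (hC1 : 1 + 4 * Cs * K1 ≤ C0) (hC2 : 2 * D + 256 * Cs / rlo + 4 * Cs * K2 ≤ C0) :
    4 * (N * tt ^ p + Cs * B * Lam) * Real.exp (4 * Cs * Phi) ≤
      Real.exp (C0 * (m + P ^ 2)) * u ^ p := by
  have hup : 0 < u ^ p := by positivity
  have h1 : N * tt ^ p ≤ N ^ 2 * u ^ p := by
    have : tt ^ p ≤ u ^ p := pow_le_pow_left₀ ht0 ht p
    calc N * tt ^ p ≤ N * u ^ p := mul_le_mul_of_nonneg_left this (by linarith)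
      _ ≤ N ^ 2 * u ^ p := by
        refine mul_le_mul_of_nonneg_right ?_ hup.le
        nlinarith
  have h2 : Cs * B * Lam ≤ (256 * Cs / rlo * m) * (N ^ 2 * u ^ p) := by
    calc Cs * B * Lam ≤ Cs * (256 * N ^ 2 * u ^ p) * (m / rlo) := by
          refine mul_le_mul (mul_le_mul_of_nonneg_left hB hCs) hL hL0 (by positivity)
      _ = _ := by ring
  have h3 : N * tt ^ p + Cs * B * Lam ≤
      Real.exp (256 * Cs / rlo * m) * (Real.exp (2 * D * m) * u ^ p) := by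
    have h4 : 1 + 256 * Cs / rlo * m ≤ Real.exp (256 * Cs / rlo * m) := by
      have := Real.add_one_le_exp (256 * Cs / rlo * m)
      linarith
    have h5 : N ^ 2 ≤ Real.exp (2 * D * m) := by
      calc N ^ 2 ≤ Real.exp (D * m) ^ 2 := pow_le_pow_left₀ (by linarith) hN 2
        _ = Real.exp (2 * D * m) := by
          rw [← Real.exp_nat_mul]
          congr 1
          push_cast
          ring
    calc N * tt ^ p + Cs * B * Lam ≤ (1 + 256 * Cs / rlo * m) * (N ^ 2 * u ^ p) := by linarith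
      _ ≤ Real.exp (256 * Cs / rlo * m) * (Real.exp (2 * D * m) * u ^ p) := by
        refine mul_le_mul h4 (mul_le_mul_of_nonneg_right h5 hup.le) (by positivity)
          (Real.exp_pos _).le
  have h4 : (4 : ℝ) ≤ Real.exp (P ^ 2) := by
    have := Real.add_one_le_exp (P ^ 2)
    nlinarith
  have h5 : Real.exp (4 * Cs * Phi) ≤ Real.exp (4 * Cs * (K1 * P ^ 2 + K2 * m)) :=
    Real.exp_le_exp.2 (mul_le_mul_of_nonneg_left hPhi (by positivity))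
  have h6 : 4 * (N * tt ^ p + Cs * B * Lam) ≤ Real.exp (P ^ 2) *
      (Real.exp (256 * Cs / rlo * m) * (Real.exp (2 * D * m) * u ^ p)) := by
    calc 4 * (N * tt ^ p + Cs * B * Lam) ≤
        4 * (Real.exp (256 * Cs / rlo * m) * (Real.exp (2 * D * m) * u ^ p)) := by linarith
      _ ≤ _ := mul_le_mul_of_nonneg_right h4 (by positivity)
  calc 4 * (N * tt ^ p + Cs * B * Lam) * Real.exp (4 * Cs * Phi) ≤
      (Real.exp (P ^ 2) * (Real.exp (256 * Cs / rlo * m) * (Real.exp (2 * D * m) * u ^ p))) *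
        Real.exp (4 * Cs * (K1 * P ^ 2 + K2 * m)) :=
      mul_le_mul h6 h5 (Real.exp_pos _).le (by positivity)
    _ = Real.exp (P ^ 2 + 256 * Cs / rlo * m + 2 * D * m + 4 * Cs * (K1 * P ^ 2 + K2 * m)) *
        u ^ p := by
      rw [Real.exp_add, Real.exp_add, Real.exp_add]
      ring
    _ ≤ Real.exp (C0 * (m + P ^ 2)) * u ^ p := by
      refine mul_le_mul_of_nonneg_right (Real.exp_le_exp.2 ?_) hup.le
      have i1 : (1 + 4 * Cs * K1) * P ^ 2 ≤ C0 * P ^ 2 :=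
        mul_le_mul_of_nonneg_right hC1 (by positivity)
      have i2 : (2 * D + 256 * Cs / rlo + 4 * Cs * K2) * m ≤ C0 * m :=
        mul_le_mul_of_nonneg_right hC2 hm
      calc P ^ 2 + 256 * Cs / rlo * m + 2 * D * m + 4 * Cs * (K1 * P ^ 2 + K2 * m) =
          (1 + 4 * Cs * K1) * P ^ 2 + (2 * D + 256 * Cs / rlo + 4 * Cs * K2) * m := by ring
        _ ≤ C0 * P ^ 2 + C0 * m := by linarith
        _ = C0 * (m + P ^ 2) := by ring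

/-- the bound of the primitive -/
private theorem tg_phi {C0 C1 P u rlo rhi cb bH yp Lg m : ℝ} (hu0 : 0 < u) (hu1 : u ≤ 1)
    (hP : 1 ≤ P) (h : C0 * P ^ 4 * u ^ 2 ≤ u) (hC1 : 1 ≤ C1) (hrlo : 0 < rlo) (hrhi : 0 ≤ rhi)
    (hcb : 0 ≤ cb) (hbH : bH ≤ cb * u ^ 5) (hyp : P * yp ≤ 1)
    (hL : Lg ≤ m) (hm : 0 ≤ m) (hL0 : 0 ≤ Lg)
    (m1 : 6400 * C1 ^ 2 * (cb + 2 + 2 * rhi) ≤ C0) (m2 : 32 ≤ C0) :
    64 * P ^ 2 * C1 / rlo * (8 * rhi + 1) + 512 * P +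
      (64 * C1 * (P * yp) + 192 +
        6400 * P ^ 2 * C1 ^ 2 * (bH + u ^ 16 + 2 * rhi * u ^ 8 + u ^ 36) + 32 * P * u ^ 8) *
      (Lg / rlo) ≤
    (64 * C1 / rlo * (8 * rhi + 1) + 512) * P ^ 2 + (64 * C1 + 194) / rlo * m := by
  have i1 : 6400 * P ^ 2 * C1 ^ 2 * (bH + u ^ 16 + 2 * rhi * u ^ 8 + u ^ 36) ≤ 1 := by
    have j1 : u ^ 16 ≤ u ^ 5 := pow_le_pow_of_le_one hu0.le hu1 (by norm_num)
    have j2 : u ^ 8 ≤ u ^ 5 := pow_le_pow_of_le_one hu0.le hu1 (by norm_num)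
    have j3 : u ^ 36 ≤ u ^ 5 := pow_le_pow_of_le_one hu0.le hu1 (by norm_num)
    have j4 : bH + u ^ 16 + 2 * rhi * u ^ 8 + u ^ 36 ≤ (cb + 2 + 2 * rhi) * u ^ 5 := by
      have : 2 * rhi * u ^ 8 ≤ 2 * rhi * u ^ 5 := mul_le_mul_of_nonneg_left j2 (by positivity)
      linarith
    calc 6400 * P ^ 2 * C1 ^ 2 * (bH + u ^ 16 + 2 * rhi * u ^ 8 + u ^ 36) ≤
        6400 * P ^ 2 * C1 ^ 2 * ((cb + 2 + 2 * rhi) * u ^ 5) :=
          mul_le_mul_of_nonneg_left j4 (by positivity)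
      _ = 6400 * C1 ^ 2 * (cb + 2 + 2 * rhi) * P ^ 2 * u ^ 5 := by ring
      _ ≤ u := tg_key hu0 hu1 hP h m1 (by positivity) (by norm_num) (by norm_num)
      _ ≤ 1 := hu1
  have i2 : 32 * P * u ^ 8 ≤ 1 := by
    calc 32 * P * u ^ 8 = 32 * P ^ 1 * u ^ 8 := by ring
      _ ≤ u := tg_key hu0 hu1 hP h m2 (by norm_num) (by norm_num) (by norm_num)
      _ ≤ 1 := hu1
  have i3 : 64 * C1 * (P * yp) ≤ 64 * C1 := by
    calc 64 * C1 * (P * yp) ≤ 64 * C1 * 1 := mul_le_mul_of_nonneg_left hyp (by positivity)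
      _ = 64 * C1 := mul_one _
  have i4 : Lg / rlo ≤ m / rlo := div_le_div_of_nonneg_right hL hrlo.le
  have i5 : (64 * C1 * (P * yp) + 192 +
        6400 * P ^ 2 * C1 ^ 2 * (bH + u ^ 16 + 2 * rhi * u ^ 8 + u ^ 36) + 32 * P * u ^ 8) *
      (Lg / rlo) ≤ (64 * C1 + 194) * (m / rlo) := by
    refine mul_le_mul (by linarith) i4 (by positivity) (by positivity)
  have i6 : 512 * P ≤ 512 * P ^ 2 := by nlinarith
  have e1 : (64 * C1 + 194) / rlo * m = (64 * C1 + 194) * (m / rlo) := by ring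
  have e2 : (64 * C1 / rlo * (8 * rhi + 1) + 512) * P ^ 2 =
      64 * P ^ 2 * C1 / rlo * (8 * rhi + 1) + 512 * P ^ 2 := by ring
  rw [e1, e2]
  linarith

/-- powers of `γ` -/
private theorem tg_rpow {γ c u α : ℝ} {m : ℕ} (hγ : 0 < γ) (hc : 0 < c) (hu : 0 < u)
    (h : γ ≤ c * u ^ 320) (hα : 0 ≤ α) (hm : (m : ℝ) = 320 * α) : γ ^ α ≤ c ^ α * u ^ m := by
  calc γ ^ α ≤ (c * u ^ 320) ^ α := Real.rpow_le_rpow hγ.le h hα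
    _ = c ^ α * u ^ m := by
      rw [Real.mul_rpow hc.le (by positivity), ← Real.rpow_natCast u 320, ← Real.rpow_mul hu.le,
        ← Real.rpow_natCast u m, hm]
      norm_num

private theorem tg_rpow_neg {γ c u : ℝ} (hc : 0 < c) (hu : 0 < u)
    (h : c * u ^ 320 ≤ γ) : γ ^ (-(1 / 2) : ℝ) * u ^ 160 ≤ c ^ (-(1 / 2) : ℝ) := by
  have h0 : 0 < c * u ^ 320 := by positivity
  have h1 : γ ^ (-(1 / 2) : ℝ) ≤ (c * u ^ 320) ^ (-(1 / 2) : ℝ) :=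
    Real.rpow_le_rpow_of_nonpos h0 h (by norm_num)
  have h2 : (c * u ^ 320) ^ (-(1 / 2) : ℝ) * u ^ 160 = c ^ (-(1 / 2) : ℝ) := by
    rw [Real.mul_rpow hc.le (by positivity), mul_assoc, ← Real.rpow_natCast u 320,
      ← Real.rpow_mul hu.le, ← Real.rpow_natCast u 160, ← Real.rpow_add hu]
    norm_num
  calc γ ^ (-(1 / 2) : ℝ) * u ^ 160 ≤ (c * u ^ 320) ^ (-(1 / 2) : ℝ) * u ^ 160 :=
        mul_le_mul_of_nonneg_right h1 (by positivity)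
    _ = _ := h2

private theorem tg_upow {lam : ℝ} (hlam : 0 < lam) (m : ℕ) :
    (lam ^ (1 / 160 : ℝ)) ^ m = lam ^ ((m : ℝ) / 160) := by
  rw [← Real.rpow_natCast, ← Real.rpow_mul hlam.le]
  congr 1
  ring

theorem torus_good (d : ℕ) (hd : 3 ≤ d) (δ b : ℝ) (hδ : 0 < δ) (hb0 : 0 < b) (hb1 : b < 1)
    {μ : Measure ℝ} {bd sg CT : ℝ} {T T3 : ℝ → ℝ} (hS : SteinLaw μ bd sg CT T T3) :
    ∃ rlo rhi lam0 : ℝ, 0 < rlo ∧ 1 ≤ rhi ∧ 0 < lam0 ∧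
    ∀ (L : ℕ) [NeZero L] (E η lam : ℝ), 0 < lam → lam ≤ lam0 → δ ≤ E → E ≤ 4 * d - δ →
      Real.exp (-(Real.log (1 / lam) ^ (1 + b))) ≤ η → η ≤ lam ^ 2 * sg * rlo →
      lam ^ (-10 : ℝ) ≤ L → 1 / η ≤ L → (L : ℝ) ≤ Real.exp (Real.log (1 / lam) ^ (1 + b)) →
      ∃ g0 : ℂ, World (mkD d L E η lam sg g0) rlo rhi ∧
        (Measure.pi fun _ : Tor d L => μ).real
          {v | ¬ Good4 (mkD d L E η lam sg g0) 1 ((mkD d L E η lam sg g0).hv 1 v)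
            (lam ^ (1 / 10 : ℝ)) (lam ^ (9 / 40 : ℝ)) (lam ^ (1 / 20 : ℝ)) (lam ^ (1 / 20 : ℝ))
            (RL (mkD d L E η lam sg g0) 1) (multR (wu (mkD d L E η lam sg g0) 1))
            (multR (qu (mkD d L E η lam sg g0) 1))} ≤
          Real.exp (-(Real.log (1 / lam) ^ (1 + b))) := by
  have hsg : 0 < sg := hS.sg0
  have hCT : 0 < CT := hS.CT0
  obtain ⟨rlo, rhi, hrlo, hrhi, hW⟩ := world_exists d hd δ sg hδ hsg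
  obtain ⟨Ct, γt, hCt, hγt, hT⟩ := torHyp d hd rlo rhi hrlo
  obtain ⟨lam1, hlam1, hW⟩ := hW (min γt 1) (lt_min hγt one_pos)
  have hrhi0 : 0 < rhi := lt_of_lt_of_le one_pos hrhi
  -- constants
  obtain ⟨C1, hC1⟩ : ∃ C1, C1 = rhi + 1 := ⟨_, rfl⟩
  obtain ⟨cl, hcl⟩ : ∃ cl, cl = sg * rlo := ⟨_, rfl⟩
  obtain ⟨cu, hcu⟩ : ∃ cu, cu = 2 * sg * rhi := ⟨_, rfl⟩
  have hcl0 : 0 < cl := by rw [hcl]; positivity
  have hcu0 : 0 < cu := by rw [hcu]; positivity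
  obtain ⟨cK, hcK⟩ : ∃ cK, cK = Ct * cl ^ (-(1 / 2) : ℝ) := ⟨_, rfl⟩
  obtain ⟨ck, hck⟩ : ∃ ck, ck = Ct * cu ^ (1 / 2 : ℝ) := ⟨_, rfl⟩
  obtain ⟨ce, hce⟩ : ∃ ce, ce = Ct * cu ^ (3 / 2 : ℝ) := ⟨_, rfl⟩
  obtain ⟨ct, hct⟩ : ∃ ct, ct = Ct * cu ^ (1 / 4 : ℝ) := ⟨_, rfl⟩
  obtain ⟨cb, hcb⟩ : ∃ cb, cb = cu ^ (1 / 64 : ℝ) := ⟨_, rfl⟩
  have hcK0 : 0 ≤ cK := by rw [hcK]; positivity
  have hck0 : 0 ≤ ck := by rw [hck]; positivity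
  have hce0 : 0 ≤ ce := by rw [hce]; positivity
  have hct0 : 0 ≤ ct := by rw [hct]; positivity
  have hcb0 : 0 ≤ cb := by rw [hcb]; positivity
  have hC11 : 1 ≤ C1 := by linarith
  obtain ⟨CH, hCH⟩ : ∃ CH, CH = 2 / rlo := ⟨_, rfl⟩
  have hCH0 : 0 ≤ CH := by rw [hCH]; positivity
  obtain ⟨Cs, hCs⟩ : ∃ Cs, Cs = 1 + 2 * CT / sg := ⟨_, rfl⟩
  have hCs0 : 0 ≤ Cs := by rw [hCs]; positivity
  obtain ⟨K1, hK1⟩ : ∃ K1, K1 = 64 * C1 / rlo * (8 * rhi + 1) + 512 := ⟨_, rfl⟩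
  obtain ⟨K2, hK2⟩ : ∃ K2, K2 = (64 * C1 + 194) / rlo := ⟨_, rfl⟩
  obtain ⟨x1, hx1⟩ : ∃ x, x = 20 * C1 ^ 2 := ⟨_, rfl⟩
  obtain ⟨x2, hx2⟩ : ∃ x, x = 144 * C1 ^ 6 := ⟨_, rfl⟩
  obtain ⟨x3, hx3⟩ : ∃ x, x = 200 * C1 ^ 5 * ce := ⟨_, rfl⟩
  obtain ⟨x4, hx4⟩ : ∃ x, x = (80 * C1 ^ 3) ^ 4 := ⟨_, rfl⟩
  obtain ⟨x5, hx5⟩ : ∃ x, x = (120 * C1 ^ 3) ^ 2 := ⟨_, rfl⟩
  obtain ⟨x6, hx6⟩ : ∃ x, x = (30 * C1 ^ 2) ^ 2 := ⟨_, rfl⟩
  obtain ⟨x7, hx7⟩ : ∃ x, x = (24 * C1 ^ 3) ^ 2 := ⟨_, rfl⟩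
  obtain ⟨x9, hx9⟩ : ∃ x, x = (2000 * C1 ^ 3) ^ 2 := ⟨_, rfl⟩
  obtain ⟨x10, hx10⟩ : ∃ x, x = 10000 * C1 ^ 4 * (1 + CH) * (ck + 1 + (1 + ck) * (1 + cK)) :=
    ⟨_, rfl⟩
  obtain ⟨x11, hx11⟩ : ∃ x, x = 6400 * C1 ^ 2 * (cb + 2 + 2 * rhi) := ⟨_, rfl⟩
  obtain ⟨x12, hx12⟩ : ∃ x, x = 1 + 4 * Cs * K1 := ⟨_, rfl⟩
  obtain ⟨x13, hx13⟩ : ∃ x, x = 2 * (d : ℝ) + 256 * Cs / rlo + 4 * Cs * K2 := ⟨_, rfl⟩
  obtain ⟨C0, hC01, hC0⟩ := tg_max [x1, x2, x3, x4, x5, x6, x7, x9, x10, x11, x12, x13, 32, ct]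
  have m1 : x1 ≤ C0 := hC0 _ (by simp)
  have m2 : x2 ≤ C0 := hC0 _ (by simp)
  have m3 : x3 ≤ C0 := hC0 _ (by simp)
  have m4 : x4 ≤ C0 := hC0 _ (by simp)
  have m5 : x5 ≤ C0 := hC0 _ (by simp)
  have m6 : x6 ≤ C0 := hC0 _ (by simp)
  have m7 : x7 ≤ C0 := hC0 _ (by simp)
  have m9 : x9 ≤ C0 := hC0 _ (by simp)
  have m10 : x10 ≤ C0 := hC0 _ (by simp)
  have m11 : x11 ≤ C0 := hC0 _ (by simp)
  have m12 : x12 ≤ C0 := hC0 _ (by simp)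
  have m13 : x13 ≤ C0 := hC0 _ (by simp)
  have m14 : (32 : ℝ) ≤ C0 := hC0 _ (by simp)
  have m15 : ct ≤ C0 := hC0 _ (by simp)
  clear hC0
  obtain ⟨lam2, hlam2, hlam2', hA⟩ := asym b C0 hb0 hb1 hC01
  refine ⟨rlo, rhi, min lam1 lam2, hrlo, hrhi, lt_min hlam1 hlam2, ?_⟩
  intro L _ E η lam hlam hle hE1 hE2 hη1 hη2 hL1 hL2 hL3
  have hη0 : 0 < η := lt_of_lt_of_le (Real.exp_pos _) hη1
  obtain ⟨g0, hWd, hγ0, h64⟩ := hW L E η lam hlam (hle.trans (min_le_left _ _)) hE1 hE2 hη0 hη2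
    hL1 hL2
  refine ⟨g0, hWd, ?_⟩
  obtain ⟨p, hp2, hA1, hA2, hA3⟩ := hA lam hlam (hle.trans (min_le_right _ _))
  have hlam1' : lam ≤ 1 := by
    have := hle.trans (min_le_right _ _)
    linarith
  obtain ⟨D, hD⟩ : ∃ D, D = mkD d L E η lam sg g0 := ⟨_, rfl⟩
  have hDlam : D.lam = lam := by rw [hD]; rfl
  have hDsg : D.sg = sg := by rw [hD]; rfl
  have hDz : D.z.im = η := by
    rw [hD]
    simp [mkD]
  rw [← hD] at hWd hγ0 h64 ⊢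
  -- `u`
  obtain ⟨u, hu⟩ : ∃ u, u = lam ^ (1 / 160 : ℝ) := ⟨_, rfl⟩
  have hu0 : 0 < u := by rw [hu]; positivity
  have hu1 : u ≤ 1 := by rw [hu]; exact Real.rpow_le_one hlam.le hlam1' (by norm_num)
  have hum : ∀ k : ℕ, u ^ k = lam ^ ((k : ℝ) / 160) := fun k => by rw [hu]; exact tg_upow hlam k
  have e160 : lam = u ^ 160 := by rw [hum]; norm_num
  have ea : lam ^ (1 / 10 : ℝ) = u ^ 16 := by rw [hum]; norm_num
  have etau : lam ^ (9 / 40 : ℝ) = u ^ 36 := by rw [hum]; norm_num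
  have ey : lam ^ (1 / 20 : ℝ) = u ^ 8 := by rw [hum]; norm_num
  have e80 : lam ^ (1 / 80 : ℝ) = u ^ 2 := by rw [hum]; norm_num
  rw [e80, ← hu] at hA1
  rw [ey] at hA2
  rw [← hu] at hA3
  rw [ea, etau, ey]
  obtain ⟨P, hP⟩ : ∃ P : ℝ, P = p := ⟨_, rfl⟩
  have hP2 : 2 ≤ P := by rw [hP]; exact_mod_cast hp2
  have hP1 : 1 ≤ P := by linarith
  rw [← hP] at hA1 hA2 hA3
  obtain ⟨m, hm⟩ : ∃ m, m = Real.log (1 / lam) ^ (1 + b) := ⟨_, rfl⟩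
  have hm0 : 0 ≤ m := by
    rw [hm]
    refine Real.rpow_nonneg (Real.log_nonneg ?_) _
    rw [le_div_iff₀ hlam]
    linarith
  rw [← hm] at hη1 hL3 hA3 ⊢
  -- `γ`
  have hgi : D.g0.im ≤ rhi := (Complex.im_le_norm _).trans hWd.hi
  have hgl : rlo ≤ D.g0.im := hWd.lo
  have hgi0 : 0 < D.g0.im := hrlo.trans_le hgl
  obtain ⟨γ, hγ⟩ : ∃ γ, γ = D.et 0 := ⟨_, rfl⟩
  have hs : D.s = lam ^ 2 * sg := by
    unfold Fl.s
    rw [hDlam, hDsg]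
  have hs0 : 0 < D.s := by rw [hs]; positivity
  have hγe : γ = η + D.s * D.g0.im := by
    rw [hγ]
    unfold Fl.et
    rw [hDz]
    ring
  have het1 : D.et 1 = η := by
    unfold Fl.et
    rw [hDz]
    ring
  have hγ1 : γ ≤ 1 := by rw [hγ]; exact hγ0.trans (min_le_right _ _)
  have hγ00 : 0 < γ := by rw [hγe]; positivity
  have elam2 : lam ^ 2 = u ^ 320 := by
    rw [e160]
    ring
  have hγl : cl * u ^ 320 ≤ γ := by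
    have : D.s * rlo ≤ D.s * D.g0.im := mul_le_mul_of_nonneg_left hgl hs0.le
    have e : cl * u ^ 320 = D.s * rlo := by
      rw [hcl, hs, elam2]
      ring
    rw [e, hγe]
    linarith
  have hγu : γ ≤ cu * u ^ 320 := by
    have i1 : D.s * D.g0.im ≤ D.s * rhi := mul_le_mul_of_nonneg_left hgi hs0.le
    have i2 : η ≤ D.s * rhi := by
      have : D.s * rlo ≤ D.s * rhi := mul_le_mul_of_nonneg_left (hgl.trans hgi) hs0.le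
      rw [hs] at this ⊢
      linarith
    have e : cu * u ^ 320 = 2 * (D.s * rhi) := by
      rw [hcu, hs, elam2]
      ring
    rw [e, hγe]
    linarith
  have r12 : γ ^ (1 / 2 : ℝ) ≤ cu ^ (1 / 2 : ℝ) * u ^ 160 :=
    tg_rpow hγ00 hcu0 hu0 hγu (by norm_num) (by norm_num)
  have r32 : γ ^ (3 / 2 : ℝ) ≤ cu ^ (3 / 2 : ℝ) * u ^ 480 :=
    tg_rpow hγ00 hcu0 hu0 hγu (by norm_num) (by norm_num)
  have r14 : γ ^ (1 / 4 : ℝ) ≤ cu ^ (1 / 4 : ℝ) * u ^ 80 :=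
    tg_rpow hγ00 hcu0 hu0 hγu (by norm_num) (by norm_num)
  have r64 : γ ^ (1 / 64 : ℝ) ≤ cu ^ (1 / 64 : ℝ) * u ^ 5 :=
    tg_rpow hγ00 hcu0 hu0 hγu (by norm_num) (by norm_num)
  have rn : γ ^ (-(1 / 2) : ℝ) * u ^ 160 ≤ cl ^ (-(1 / 2) : ℝ) := tg_rpow_neg hcl0 hu0 hγl
  -- the hypotheses of the flow
  have ua0 : 0 < u ^ 16 := by positivity
  have ua1 : u ^ 16 ≤ 1 := pow_le_one₀ hu0.le hu1
  have ut0 : 0 < u ^ 36 := by positivity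
  have ut1 : u ^ 36 ≤ 1 := pow_le_one₀ hu0.le hu1
  have uy0 : 0 < u ^ 8 := by positivity
  have uy1 : u ^ 8 ≤ 1 := pow_le_one₀ hu0.le hu1
  have H := hT L D hWd (hγ0.trans (min_le_left _ _)) h64 C1 (u ^ 16) (u ^ 36) (u ^ 8) (u ^ 8)
    hC1.ge ua0 ua1 ut0 ut1 uy0 uy0 uy1
  rw [← hγ, ← hCH] at H
  obtain ⟨y1, y2, y3, y4, y5, y6, y7, y8⟩ := yrphi hWd p hp2 C1 (u ^ 16) (u ^ 36) (u ^ 8) (u ^ 8)
    (bHf D) hC11 ua0 ut0 uy0 uy0 H.bH0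
  have hbHf : bHf D = γ ^ (1 / 64 : ℝ) := by rw [hγ]; rfl
  have F := flow4 hS D hDsg C1 _ _ _ _ _ _ _ _ _ _ _ _ _ _ _ _ _ _ _ _ H p hp2
    (yrf D (u ^ 8) p) y1 y2 (Af D C1 (u ^ 16) (u ^ 36) (u ^ 8) (u ^ 8) (bHf D) p) y3 y4 y5
    (Phif D C1 (u ^ 16) (u ^ 36) (u ^ 8) (u ^ 8) (bHf D) p)
    (fun r => 2 * r * D.s / D.et r * Af D C1 (u ^ 16) (u ^ 36) (u ^ 8) (u ^ 8) (bHf D) p r)
    y6 y7 (fun r _ => le_rfl)
  refine F.trans ?_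
  clear F
  -- the cardinality
  obtain ⟨N, hN⟩ : ∃ N : ℝ, N = (Fintype.card (Tor d L) : ℝ) := ⟨_, rfl⟩
  have hNL : N = (L : ℝ) ^ d := by
    rw [hN]
    simp [ZMod.card]
  have hL1' : (1 : ℝ) ≤ L := by
    have : 0 < L := Nat.pos_of_ne_zero (NeZero.ne L)
    exact_mod_cast this
  have hN1 : 1 ≤ N := by
    rw [hNL]
    exact one_le_pow₀ hL1'
  have hNe : N ≤ Real.exp ((d : ℝ) * m) := by
    rw [hNL, Real.exp_nat_mul]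
    exact pow_le_pow_left₀ (by linarith) hL3 d
  rw [← hN, ← hγ, het1, hDlam]
  -- logarithms
  have hLg0 : 0 ≤ Real.log (γ / η) := by
    refine Real.log_nonneg ?_
    rw [le_div_iff₀ hη0, one_mul, hγe]
    have : 0 ≤ D.s * D.g0.im := by positivity
    linarith
  have hLg : Real.log (γ / η) ≤ m := by
    have h1 : γ / η ≤ Real.exp m := by
      rw [div_le_iff₀ hη0]
      have h2 : Real.exp m * Real.exp (-m) ≤ Real.exp m * η :=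
        mul_le_mul_of_nonneg_left hη1 (Real.exp_pos _).le
      rw [← Real.exp_add, add_neg_cancel, Real.exp_zero] at h2
      linarith
    calc Real.log (γ / η) ≤ Real.log (Real.exp m) := Real.log_le_log (by positivity) h1
      _ = m := Real.log_exp m
  -- the source constant
  obtain ⟨b1, b2, b3, b4, b5, b6, b7, b8, b9, b10⟩ := tg_bases (C0 := C0) (C1 := C1) (P := P)
    (u := u) (K := Ct * γ ^ (-(1 / 2) : ℝ)) (kap := Ct * γ ^ (1 / 2 : ℝ)) (CH := CH)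
    (ep1 := Ct * γ ^ (3 / 2 : ℝ)) (cK := cK) (ck := ck) (ce := ce) hu0 hu1 hP1 hA1 hC11
    (by positivity)
    (by
      rw [hcK, mul_assoc]
      exact mul_le_mul_of_nonneg_left rn hCt.le)
    (by
      rw [hck, mul_assoc]
      exact mul_le_mul_of_nonneg_left r12 hCt.le)
    hCH0
    (by
      rw [hce, mul_assoc]
      exact mul_le_mul_of_nonneg_left r32 hCt.le)
    hck0 hcK0 hce0 (hx1 ▸ m1) (hx2 ▸ m2) (hx3 ▸ m3) (hx4 ▸ m4) (hx5 ▸ m5) (hx6 ▸ m6) (hx7 ▸ m7)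
    (hx9 ▸ m9) (hx10 ▸ m10)
  have hB := B4_le N C1 (Ct * γ ^ (-(1 / 2) : ℝ)) lam (u ^ 16) (u ^ 36) (u ^ 8) (u ^ 8)
    (Ct * γ ^ (1 / 2 : ℝ)) CH (Ct * γ ^ (3 / 2 : ℝ)) u p hN1 hC11 (by positivity) hlam ua0 ut0 uy0
    uy0 (by positivity) hCH0 (by positivity)
    (by rw [← hP]; exact b1) (by rw [← hP, e160]; exact b2) (by rw [← hP]; exact b3)
    (by rw [← hP, e160]; exact b4) (by rw [← hP, e160]; exact b5) (by rw [← hP]; exact b6)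
    (by rw [← hP, e160]; exact b7) (by rw [← hP]; exact b8) (by rw [← hP, e160]; exact b9)
    (by rw [← hP, e160]; exact b10)
  -- the start
  have hst : Ct * γ ^ (1 / 4 : ℝ) / u ^ 36 ≤ u := by
    have i1 : Ct * γ ^ (1 / 4 : ℝ) ≤ ct * u ^ 80 := by
      rw [hct, mul_assoc]
      exact mul_le_mul_of_nonneg_left r14 hCt.le
    have i2 : ct * P ^ 0 * u ^ 44 ≤ u :=
      tg_key hu0 hu1 hP1 hA1 m15 hct0 (by norm_num) (by norm_num)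
    rw [div_le_iff₀ ut0]
    calc Ct * γ ^ (1 / 4 : ℝ) ≤ ct * u ^ 80 := i1
      _ = ct * P ^ 0 * u ^ 44 * u ^ 36 := by ring
      _ ≤ u * u ^ 36 := mul_le_mul_of_nonneg_right i2 ut0.le
  -- the primitive
  have hPhi : Phif D C1 (u ^ 16) (u ^ 36) (u ^ 8) (u ^ 8) (bHf D) p 1 ≤ K1 * P ^ 2 + K2 * m := by
    rw [← hP, ← hγ, het1] at y8
    refine y8.trans ?_
    rw [hK1, hK2]
    exact tg_phi hu0 hu1 hP1 hA1 hC11 hrlo hrhi0.le hcb0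
      (by rw [hbHf, hcb]; exact r64) hA2 hLg hm0 hLg0 (hx11 ▸ m11) m14
  have fin := tg_final (m := m) (u := u) (C0 := C0) (Cs := Cs) (rlo := rlo) (K1 := K1) (K2 := K2)
    (N := N) (D := (d : ℝ)) (tt := Ct * γ ^ (1 / 4 : ℝ) / u ^ 36)
    (B := B4 N C1 (Ct * γ ^ (-(1 / 2) : ℝ)) lam (u ^ 16) (u ^ 36) (u ^ 8) (u ^ 8)
      (Ct * γ ^ (1 / 2 : ℝ)) CH (Ct * γ ^ (3 / 2 : ℝ)) p)
    (Lam := Real.log (γ / η) / D.g0.im)
    (Phi := Phif D C1 (u ^ 16) (u ^ 36) (u ^ 8) (u ^ 8) (bHf D) p 1) (P := P) (p := p)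
    hm0 hu0 hP hP2 hCs0 hrlo hN1 hNe (by positivity) hst hB (by positivity)
    (by
      calc Real.log (γ / η) / D.g0.im ≤ m / D.g0.im := div_le_div_of_nonneg_right hLg hgi0.le
        _ ≤ m / rlo := div_le_div_of_nonneg_left hm0 hrlo hgl)
    hPhi (hx12 ▸ m12) (hx13 ▸ m13)
  rw [hCs] at fin
  exact fin.trans hA3

end Pool.Agent.APS
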