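import Pool.Agent.APS.Flow4
import Pool.Agent.APS.RefB
import Pool.Agent.APS.ReR0
import Pool.Agent.APS.LadR

/-! # APS TORHYP: the hypotheses `FlowHyp4` hold on the torus (assembly).

`Rl = RL`, `Rl' = RL'`, `W = multR (wu D r)` etc., `I = domI D`, `cR = 4/s`, `CH = 2/rlo`,
`kap = C γ^(1/2)`, `bH = bHf D`, `ep1 = C γ^(3/2)`, `taui = C γ^(1/4)`.
`re_r0` with `γ0` so small that `C √s/√rlo ≤ 1/4` (`s ρ0 ≤ γ`, so `s ≤ γ/rlo`); `64/γ³ ≤ L` is a
hypothesis here.  `T4_init`, `ref_torus`, `LADR`, `INIT0`, `REFA` (derivatives via `mult_hasDeriv`).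
`K = C γ^(-1/2)`: `(‖M_xy‖ + 1)² ≤ K` because `‖M_xy‖⁴ ≤ ∑_w ‖M_xw‖⁴ ≤ C γ^(-3/4)` (`T4_init`), so
`‖M_xy‖² ≤ C' γ^(-3/8)`.
-/

open Matrix Finset

noncomputable section

namespace Pool.Agent.APS

open Pool.Agent.Kin

theorem torHyp (d : ℕ) (hd : 3 ≤ d) (rlo rhi : ℝ) (hrlo : 0 < rlo) :
    ∃ C γ0 : ℝ, 0 < C ∧ 0 < γ0 ∧ ∀ (L : ℕ) [NeZero L] (D : Fl (Tor d L)),
    World D rlo rhi → D.et 0 ≤ γ0 → 64 / D.et 0 ^ 3 ≤ L →
    ∀ C1 a tau y dl : ℝ, rhi + 1 ≤ C1 → 0 < a → a ≤ 1 → 0 < tau → tau ≤ 1 → 0 < y → 0 < dl →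
    dl ≤ 1 →
    FlowHyp4 D C1 (C * D.et 0 ^ (-(1 / 2) : ℝ)) a tau y dl (4 / D.s) (2 / rlo) (C * D.et 0 ^ (1 / 2 : ℝ)) (bHf D)
      (C * D.et 0 ^ (3 / 2 : ℝ)) (C * D.et 0 ^ (1 / 4 : ℝ)) (domI D) (RL D) (RL' D)
      (fun r => multR (wu D r)) (fun r => multR (wu' D r)) (fun r => multR (qu D r))
      (fun r => multR (qu' D r)) (fun r => multR fun k => √(qu D r k)) (P0m d L) := by
  obtain ⟨C1', γ1, hC1', hγ1, href⟩ := ref_torus d hd rlo rhi hrlo
  obtain ⟨C2, hC2, hT4⟩ := T4_init d hd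
  obtain ⟨C3, hC3, hre⟩ := re_r0 d hd
  refine ⟨max (max C1' C2) (2 * √C2 + 2), min γ1 ((rlo / (4 * C3)) ^ 2),
    lt_max_of_lt_left (lt_max_of_lt_left hC1'), lt_min hγ1 (by positivity), ?_⟩
  intro L _ D hW hγ hL C1 a tau y dl hC1 ha ha1 htau htau1 hy hdl hdl1
  have hγ1' : D.et 0 ≤ γ1 := hγ.trans (min_le_left _ _)
  have hγ2 : D.et 0 ≤ (rlo / (4 * C3)) ^ 2 := hγ.trans (min_le_right _ _)
  have het0 : 0 < D.et 0 := hW.zim.trans_le (hW.et_pos le_rfl zero_le_one).1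
  have hs := hW.s0
  have hCm1 : C1' ≤ max (max C1' C2) (2 * √C2 + 2) := (le_max_left _ _).trans (le_max_left _ _)
  have hCm2 : C2 ≤ max (max C1' C2) (2 * √C2 + 2) := (le_max_right _ _).trans (le_max_left _ _)
  have hCm3 : 2 * √C2 + 2 ≤ max (max C1' C2) (2 * √C2 + 2) := le_max_right _ _
  -- the real part of `r0`
  have hsr : D.s * rlo ≤ D.et 0 := by
    rw [hW.et_zero]
    have h1 := mul_le_mul_of_nonneg_left hW.lo hs.le
    linarith [hW.zim]
  have h14 : C3 * √D.s / √rlo ≤ 1 / 4 := by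
    have h1 : √D.s * √rlo ≤ rlo / (4 * C3) := by
      rw [← Real.sqrt_mul hs.le]
      calc √(D.s * rlo) ≤ √((rlo / (4 * C3)) ^ 2) := Real.sqrt_le_sqrt (hsr.trans hγ2)
        _ = rlo / (4 * C3) := Real.sqrt_sq (by positivity)
    have h2 : 0 < √rlo := Real.sqrt_pos.2 hrlo
    have h3 : √rlo * √rlo = rlo := Real.mul_self_sqrt hrlo.le
    rw [div_le_iff₀ h2]
    have h4 : (4 * C3) * (√D.s * √rlo) ≤ rlo := by
      have := mul_le_mul_of_nonneg_left h1 (show 0 ≤ 4 * C3 by positivity)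
      rwa [mul_div_cancel₀ _ (show 4 * C3 ≠ 0 by positivity)] at this
    have h5 : (4 * C3 * √D.s) * √rlo ≤ √rlo * √rlo := by
      rw [h3]
      linarith
    have h6 := le_of_mul_le_mul_right h5 h2
    linarith
  have h34 : ∀ k : Tor d L, D.s * (r0 D k).re ≤ 3 / 4 := by
    intro k
    have := hre L D rlo rhi hW hL k
    linarith
  have hn : ∀ k : Tor d L, ‖r0 D k‖ ≤ 1 / D.s := fun k => r0_norm hW k
  have hq : (0 : ℝ) ≤ D.et 0 ^ (1 / 2 : ℝ) := Real.rpow_nonneg het0.le _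
  have hq3 : (0 : ℝ) ≤ D.et 0 ^ (3 / 2 : ℝ) := Real.rpow_nonneg het0.le _
  have hq4 : (0 : ℝ) ≤ D.et 0 ^ (1 / 4 : ℝ) := Real.rpow_nonneg het0.le _
  have hder : ∀ (φ φ' : ℝ → Tor d L → ℝ) (r : ℝ),
      (∀ k, HasDerivAt (fun r => φ r k) (φ' r k) r) → ∀ x y : Tor d L,
      HasDerivAt (fun r => multR (φ r) x y) (multR (φ' r) x y) r := by
    intro φ φ' r h x y
    exact mult_hasDeriv (fun r k => ((φ r k : ℝ) : ℂ)) (fun r k => ((φ' r k : ℝ) : ℂ)) r
      (fun k => (h k).ofReal_comp) x y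
  have hcon : ∀ (φ : ℝ → Tor d L → ℝ), (∀ k, ContinuousOn (fun r => φ r k) {r | 0 < D.et r}) →
      ∀ x y : Tor d L, ContinuousOn (fun r => multR (φ r) x y) (domI D) := by
    intro φ h x y
    refine mult_cont (fun r k => ((φ r k : ℝ) : ℂ)) (domI D) (fun k => ?_) x y
    exact Complex.continuous_ofReal.comp_continuousOn ((h k).mono fun r hr => hr.1)
  exact
    { sym := by
        rw [hW.H0]
        exact H0T_realSym
      lam0 := hW.lam0
      lam1 := hW.lam1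
      sg0 := hW.sg0
      g0im := hW.g0im
      zim := hW.zim
      C1b := by linarith [hW.hi]
      M1 := by
        intro x y
        have e1 : ‖D.G 0 0 x y‖ ^ 4 ≤ C2 * D.et 0 ^ (1 / 4 : ℝ) / D.et 0 :=
          (Finset.single_le_sum (f := fun w => ‖D.G 0 0 x w‖ ^ 4) (fun w _ => by positivity)
            (Finset.mem_univ y)).trans (hT4 L D rlo rhi hW x)
        set g : ℝ := D.et 0 ^ (-(1 / 2) : ℝ) with hg
        have hg0 : 0 < g := Real.rpow_pos_of_pos het0 _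
        have hgg : g * g = 1 / D.et 0 := by
          rw [hg, ← Real.rpow_add het0, show (-(1 / 2) + -(1 / 2) : ℝ) = -1 by norm_num,
            Real.rpow_neg_one, one_div]
        have hg1 : 1 ≤ g := Real.one_le_rpow_of_pos_of_le_one_of_nonpos het0 hW.et1 (by norm_num)
        have e2 : D.et 0 ^ (1 / 4 : ℝ) ≤ 1 := Real.rpow_le_one het0.le hW.et1 (by norm_num)
        have e3 : C2 * D.et 0 ^ (1 / 4 : ℝ) / D.et 0 ≤ C2 * (g * g) := by
          rw [hgg, mul_one_div]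
          gcongr
          exact mul_le_of_le_one_right hC2.le e2
        have e4 : ‖D.G 0 0 x y‖ ^ 2 ≤ √C2 * g := by
          have h0 : 0 ≤ √C2 * g := by positivity
          refine abs_le_of_sq_le_sq' ?_ h0 |>.2
          have h1 : (√C2 * g) ^ 2 = C2 * (g * g) := by
            rw [mul_pow, Real.sq_sqrt hC2.le]
            ring
          rw [h1, ← pow_mul]
          exact e1.trans e3
        have e5 : (‖D.G 0 0 x y‖ + 1) ^ 2 ≤ 2 * ‖D.G 0 0 x y‖ ^ 2 + 2 := by
          nlinarith [sq_nonneg (‖D.G 0 0 x y‖ - 1)]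
        calc (‖D.G 0 0 x y‖ + 1) ^ 2 ≤ 2 * (√C2 * g) + 2 * g := by linarith
          _ = (2 * √C2 + 2) * g := by ring
          _ ≤ max (max C1' C2) (2 * √C2 + 2) * g := mul_le_mul_of_nonneg_right hCm3 hg0.le
      a0 := ha
      a1 := ha1
      tau0 := htau
      tau1 := htau1
      y0 := hy
      dl0 := hdl
      dl1 := hdl1
      cR0 := by positivity
      bH0 := Real.rpow_nonneg het0.le _
      Io := domI_open D
      Isub := domI_sub hW h34
      Iet := fun r hr => hr.1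
      dRl := fun r hr x y => RL_deriv D hr x y
      cRl := fun x y => RL'_cont D x y
      eRl := fun r _ => rfl
      oRl := fun r hr => RL_op hW h34 hn hr.1 hr.2
      hW := fun r => multR_herm _
      hQU := fun r => multR_herm _
      dW := fun r hr x y => hder _ _ r (fun k => wu_deriv hW hr.1 k) x y
      cW := fun x y => hcon _ (fun k => wu'_cont hW k) x y
      dQU := fun r hr x y => hder _ _ r (fun k => qu_deriv hW hr.1 k) x y
      cQU := fun x y => hcon _ (fun k => qu'_cont hW k) x y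
      ref := by
        intro r hr
        obtain ⟨h, -⟩ := href L D hW hγ1' r hr.1 hr.2
        refine { h with kap0 := by positivity, split := ?_ }
        intro u
        obtain ⟨uH, uL, b, h1, h2, h3⟩ := h.split u
        refine ⟨uH, uL, b, h1, h2, fun x => (h3 x).trans ?_⟩
        have h4 : 0 ≤ ∑ x, ‖u x‖ ^ 2 := Finset.sum_nonneg fun x _ => sq_nonneg _
        gcongr
      low := by
        intro r hr
        obtain ⟨-, Pi, epL, h1, h2, h3⟩ := href L D hW hγ1' r hr.1 hr.2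
        refine ⟨Pi, epL, h1, h2.trans ?_, h3⟩
        have h4 : 0 < D.et r := hW.zim.trans_le (hW.et_pos hr.1 hr.2).1
        gcongr
      g00 := hW.g00
      T40 := by
        intro x
        refine (hT4 L D rlo rhi hW x).trans ?_
        gcongr
      Rl0 := RL_zero hW
      QU0 := by
        rw [hW.lap0]
        congr 1
        funext k
        exact qu_zero_time hW k }

end Pool.Agent.APS
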