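import Pool.Agent.APS.Defs3
import Pool.Agent.APS.TrMul

/-! # APS TREST2: the estimates `Est2` of a component `Re Tr f^(2p)`.

The same proof as TREST (TrEst.lean) with `f2` replaced by `λ f2`:
`q w := 8 p² (trw p f (f1 w) + λ² trw p f (f2 w))`.  `trw` and `tr2` are homogeneous:
`trw p f (λ f2) = λ² trw p f f2`, `tr2 f f1 (λ f2) = λ tr2 f f1 f2`, so `tr2_le` gives
`λ |tr2 (2p) f f1 f2| ≤ 4p² (trw f1 + λ² trw f2) = q w / 2`, and
`(λ tr1 f f2)² = (tr1 f (λ f2))² ≤ tr0 · 4p² λ² trw f2 ≤ tr0 q w` (`tr1_sq`).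
`∑ q w ≤ (1/et) (e tr0 + card (1/e)^(p-1) (8 p² nu² et)^p)` by `trw_sum` for the family
`f1 w, λ f2 w` over `ι ⊕ ι`.
-/

open Matrix Finset

noncomputable section

namespace Pool.Agent.APS

variable {ι κ : Type} [Fintype ι] [Fintype κ] [DecidableEq κ]

private theorem te2_sumR (n : ℕ) (f : Matrix κ κ ℂ) (s : Finset ι)
    (g : ι → Matrix κ κ ℂ) : tr1 n f (∑ w ∈ s, g w) = ∑ w ∈ s, tr1 n f (g w) := by
  classical
  induction s using Finset.induction_on with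
  | empty =>
    have := tr1_smul n f 0 0
    simp only [smul_zero, zero_mul] at this
    simpa using this
  | insert a s ha ih =>
    rw [Finset.sum_insert ha, Finset.sum_insert ha, tr1_add, ih]

private theorem te2_herm {A : Matrix κ κ ℂ} (hA : A.IsHermitian) (c : ℝ) :
    ((c : ℂ) • A).IsHermitian := by
  unfold Matrix.IsHermitian
  rw [conjTranspose_smul, hA.eq]
  congr 1
  exact Complex.conj_ofReal c

private theorem te2_tr2 (n : ℕ) (f g k : Matrix κ κ ℂ) (c : ℝ) :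
    tr2 n f g ((c : ℂ) • k) = c * tr2 n f g k := by
  have h : ∀ i, (f ^ i * g * (f ^ (n - 2 - i) * ((c : ℂ) • k))).trace.re =
      c * (f ^ i * g * (f ^ (n - 2 - i) * k)).trace.re := by
    intro i
    rw [Matrix.mul_smul, Matrix.mul_smul, trace_smul, smul_eq_mul, Complex.re_ofReal_mul]
  unfold tr2
  simp only [h]
  rw [← Finset.mul_sum]
  ring

theorem trEst2 (p : ℕ) (hp : 1 ≤ p) (O : MObs ι κ) {lam s et r : ℝ} {h : ι → ℝ}
    (hr : 0 ≤ r) (hs : 0 < s) (het : 0 < et) (hlam : 0 < lam) (hlam1 : lam ≤ 1)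
    (hf : (O.f r h).IsHermitian) (hf1 : ∀ w, (O.f1 w r h).IsHermitian)
    (hf2 : ∀ w, (O.f2 w r h).IsHermitian)
    {A0 B1 e nu x3 : ℝ} (hA0 : 0 ≤ A0) (hB1 : 0 ≤ B1) (he : 0 < e) (he1 : e ≤ 1) (hnu : 0 ≤ nu)
    (hx3 : 0 ≤ x3)
    (h1 : tr1 (2 * p) (O.f r h) (O.fr r h + ((s * r : ℝ) : ℂ) • ∑ w, O.f2 w r h) ≤
      2 * r * s / et * (A0 * tr0 (2 * p) (O.f r h) + B1))
    (h2 : ∀ u : κ → ℂ, ∑ w, ∑ x, (‖(O.f1 w r h *ᵥ u) x‖ ^ 2 +
      lam ^ 2 * ‖(O.f2 w r h *ᵥ u) x‖ ^ 2) ≤ nu ^ 2 * ∑ x, ‖u x‖ ^ 2)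
    (h3 : ∀ e : ι → ℝ, (∀ w, |e w| ≤ 1) → OpLe (∑ w, ((lam * e w : ℝ) : ℂ) • O.f3 w r h) x3) :
    ∃ q : ι → ℝ, (trComp (2 * p) O).Est2 lam s et r (A0 + 2 * e)
      (B1 + (Fintype.card κ : ℝ) * (1 / e) ^ (2 * p) *
        ((8 * p ^ 2 * nu ^ 2 * et) ^ p + (2 * p * x3 * et) ^ (2 * p))) h q := by
  have hGa : 0 ≤ tr0 (2 * p) (O.f r h) := tr0_nonneg p hf
  set T0 := tr0 (2 * p) (O.f r h) with hT0
  set K := (Fintype.card κ : ℝ) with hK
  have hK0 : 0 ≤ K := Nat.cast_nonneg _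
  set X := (8 * (p : ℝ) ^ 2 * nu ^ 2 * et) ^ p with hX
  set Y := (2 * (p : ℝ) * x3 * et) ^ (2 * p) with hY
  have hX0 : 0 ≤ X := by positivity
  have hY0 : 0 ≤ Y := by positivity
  have hie : 1 ≤ 1 / e := by
    rw [le_div_iff₀ he]
    linarith
  set E2 := (1 / e) ^ (2 * p) with hE2
  have hE20 : 0 ≤ E2 := by positivity
  have hEa : (1 / e) ^ (p - 1) ≤ E2 := pow_le_pow_right₀ hie (by omega)
  have hEb : (1 / e) ^ (2 * p - 1) ≤ E2 := pow_le_pow_right₀ hie (by omega)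
  have t1 : ∀ w, 0 ≤ trw p (O.f r h) (O.f1 w r h) := fun w => trw_nonneg p hp hf (hf1 w)
  set F2 : ι → Matrix κ κ ℂ := fun w => (lam : ℂ) • O.f2 w r h with hF2
  have hF2h : ∀ w, (F2 w).IsHermitian := fun w => te2_herm (hf2 w) lam
  have hF2n : ∀ w (u : κ → ℂ) x, ‖(F2 w *ᵥ u) x‖ ^ 2 = lam ^ 2 * ‖(O.f2 w r h *ᵥ u) x‖ ^ 2 := by
    intro w u x
    simp only [hF2]
    rw [Matrix.smul_mulVec, Pi.smul_apply, smul_eq_mul, norm_mul, Complex.norm_real,
      Real.norm_of_nonneg hlam.le, mul_pow]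
  have t2 : ∀ w, 0 ≤ trw p (O.f r h) (F2 w) := fun w => trw_nonneg p hp hf (hF2h w)
  -- the sum of the sizes
  set Q : ι → ℝ := fun w => 8 * (p : ℝ) ^ 2 *
    (trw p (O.f r h) (O.f1 w r h) + trw p (O.f r h) (F2 w)) with hQ
  have hQ0 : ∀ w, 0 ≤ Q w := fun w => mul_nonneg (by positivity) (add_nonneg (t1 w) (t2 w))
  have hsum : et * ∑ w, Q w ≤ e * T0 + K * (E2 * X) := by
    have h4 := trw_sum (ι := ι ⊕ ι) p hp hf (Sum.elim (fun w => O.f1 w r h) F2)
      (fun w => by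
        cases w with
        | inl w => exact hf1 w
        | inr w => exact hF2h w) (nu := nu) he (fun u => by
        rw [Fintype.sum_sum_type]
        refine le_trans (le_of_eq ?_) (h2 u)
        rw [← Finset.sum_add_distrib]
        refine Finset.sum_congr rfl fun w _ => ?_
        rw [← Finset.sum_add_distrib]
        refine Finset.sum_congr rfl fun x _ => ?_
        rw [← hF2n w u x]
        rfl) (c := 8 * (p : ℝ) ^ 2 * et) (by positivity)
    rw [Fintype.sum_sum_type] at h4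
    have e1 : et * ∑ w, Q w = 8 * (p : ℝ) ^ 2 * et *
        (∑ w, trw p (O.f r h) (O.f1 w r h) + ∑ w, trw p (O.f r h) (F2 w)) := by
      simp only [hQ]
      rw [← Finset.mul_sum, Finset.sum_add_distrib]
      ring
    have e2 : (8 * (p : ℝ) ^ 2 * et * nu ^ 2) ^ p = X := by
      rw [hX]
      congr 1
      ring
    rw [e1]
    refine h4.trans ?_
    rw [e2]
    have h5 : (1 / e) ^ (p - 1) * X ≤ E2 * X := mul_le_mul_of_nonneg_right hEa hX0
    have h6 : K * ((1 / e) ^ (p - 1) * X) ≤ K * (E2 * X) := mul_le_mul_of_nonneg_left h5 hK0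
    exact add_le_add le_rfl h6
  have hB0 : 0 ≤ K * E2 * (X + Y) := by positivity
  have hiet : 0 < 1 / et := by positivity
  refine ⟨Q, ?_, hQ0, ?_, ?_, ?_, ?_, ?_⟩
  · -- drift
    show tr1 (2 * p) (O.f r h) (O.fr r h) + s * r * ∑ w, tr1 (2 * p) (O.f r h) (O.f2 w r h) ≤
      2 * r * s / et * ((A0 + 2 * e) * T0 + (B1 + K * E2 * (X + Y)))
    have e1 : tr1 (2 * p) (O.f r h) (O.fr r h) + s * r * ∑ w, tr1 (2 * p) (O.f r h) (O.f2 w r h) =
        tr1 (2 * p) (O.f r h) (O.fr r h + ((s * r : ℝ) : ℂ) • ∑ w, O.f2 w r h) := by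
      rw [tr1_add, tr1_smul, te2_sumR]
    rw [e1]
    refine h1.trans (mul_le_mul_of_nonneg_left ?_ (by positivity))
    have : 0 ≤ 2 * e * T0 := by positivity
    nlinarith
  · intro w
    show |tr2 (2 * p) (O.f r h) (O.f1 w r h) (O.f1 w r h)| ≤ Q w
    refine (tr2_le p hp hf (hf1 w) (hf1 w)).trans ?_
    simp only [hQ]
    have := t2 w
    have hp2 : 0 ≤ (p : ℝ) ^ 2 := by positivity
    have := mul_nonneg hp2 this
    nlinarith
  · intro w
    show tr1 (2 * p) (O.f r h) (O.f1 w r h) ^ 2 ≤ T0 * Q w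
    refine (tr1_sq p hp hf (hf1 w)).trans (mul_le_mul_of_nonneg_left ?_ hGa)
    simp only [hQ]
    have hp2 : 0 ≤ (p : ℝ) ^ 2 := by positivity
    have := mul_nonneg hp2 (t2 w)
    have := mul_nonneg hp2 (t1 w)
    nlinarith
  · intro w
    show (lam * tr1 (2 * p) (O.f r h) (O.f2 w r h)) ^ 2 ≤ T0 * Q w
    rw [← tr1_smul]
    refine (tr1_sq p hp hf (hF2h w)).trans (mul_le_mul_of_nonneg_left ?_ hGa)
    simp only [hQ]
    have hp2 : 0 ≤ (p : ℝ) ^ 2 := by positivity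
    have := mul_nonneg hp2 (t2 w)
    have := mul_nonneg hp2 (t1 w)
    nlinarith
  · show ∑ w, Q w ≤ 1 / et * ((A0 + 2 * e) * T0 + (B1 + K * E2 * (X + Y)))
    rw [one_div, ← div_eq_inv_mul, le_div_iff₀ het, mul_comm]
    refine hsum.trans ?_
    have h7 : 0 ≤ A0 * T0 := mul_nonneg hA0 hGa
    have h8 : 0 ≤ e * T0 := mul_nonneg he.le hGa
    have h9 : 0 ≤ K * E2 * Y := by positivity
    nlinarith
  · intro ee hee
    show lam * ∑ w, ee w * (tr1 (2 * p) (O.f r h) (O.f3 w r h) +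
      tr2 (2 * p) (O.f r h) (O.f1 w r h) (O.f2 w r h)) ≤
      1 / et * ((A0 + 2 * e) * T0 + (B1 + K * E2 * (X + Y)))
    have e1 : lam * ∑ w, ee w * (tr1 (2 * p) (O.f r h) (O.f3 w r h) +
        tr2 (2 * p) (O.f r h) (O.f1 w r h) (O.f2 w r h)) =
        tr1 (2 * p) (O.f r h) (∑ w, ((lam * ee w : ℝ) : ℂ) • O.f3 w r h) +
        ∑ w, ee w * tr2 (2 * p) (O.f r h) (O.f1 w r h) (F2 w) := by
      rw [te2_sumR, Finset.mul_sum, ← Finset.sum_add_distrib]
      refine Finset.sum_congr rfl fun w _ => ?_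
      rw [tr1_smul]
      simp only [hF2]
      rw [te2_tr2]
      ring
    have h4 := tr1_le p hp hf hx3 he (h3 ee hee) het.le
    have e2 : (et * (2 * (p : ℝ) * x3)) ^ (2 * p) = Y := by
      rw [hY]
      congr 1
      ring
    rw [e2] at h4
    have h5 : K * ((1 / e) ^ (2 * p - 1) * Y) ≤ K * (E2 * Y) :=
      mul_le_mul_of_nonneg_left (mul_le_mul_of_nonneg_right hEb hY0) hK0
    have h6 : ∑ w, ee w * tr2 (2 * p) (O.f r h) (O.f1 w r h) (F2 w) ≤
        ∑ w, Q w / 2 := by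
      refine Finset.sum_le_sum fun w _ => ?_
      have h7 := tr2_le p hp hf (hf1 w) (hF2h w)
      have h8 : |ee w| ≤ 1 := hee w
      calc ee w * tr2 (2 * p) (O.f r h) (O.f1 w r h) (F2 w)
          ≤ |ee w * tr2 (2 * p) (O.f r h) (O.f1 w r h) (F2 w)| := le_abs_self _
        _ = |ee w| * |tr2 (2 * p) (O.f r h) (O.f1 w r h) (F2 w)| := abs_mul _ _
        _ ≤ 1 * |tr2 (2 * p) (O.f r h) (O.f1 w r h) (F2 w)| :=
            mul_le_mul_of_nonneg_right h8 (abs_nonneg _)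
        _ ≤ Q w / 2 := by
            rw [one_mul]
            refine h7.trans (le_of_eq ?_)
            simp only [hQ]
            ring
    rw [← Finset.sum_div] at h6
    rw [e1, one_div, ← div_eq_inv_mul, le_div_iff₀ het]
    have h9 : tr1 (2 * p) (O.f r h) (∑ w, ((lam * ee w : ℝ) : ℂ) • O.f3 w r h) * et ≤
        e * T0 + K * (E2 * Y) := by
      rw [mul_comm]
      refine (mul_le_mul_of_nonneg_left (le_abs_self _) het.le).trans (h4.trans ?_)
      exact add_le_add le_rfl h5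
    have h10 : (∑ w, ee w * tr2 (2 * p) (O.f r h) (O.f1 w r h) (F2 w)) * et ≤
        (e * T0 + K * (E2 * X)) / 2 := by
      calc (∑ w, ee w * tr2 (2 * p) (O.f r h) (O.f1 w r h) (F2 w)) * et
          ≤ ((∑ w, Q w) / 2) * et := mul_le_mul_of_nonneg_right h6 het.le
        _ = (et * ∑ w, Q w) / 2 := by ring
        _ ≤ (e * T0 + K * (E2 * X)) / 2 := by linarith
    rw [add_mul]
    have h11 : 0 ≤ A0 * T0 := mul_nonneg hA0 hGa
    have h12 : 0 ≤ e * T0 := mul_nonneg he.le hGa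
    have h13 : 0 ≤ K * (E2 * X) := by positivity
    nlinarith

end Pool.Agent.APS
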