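import Pool.Agent.APS.TrIneq

/-! # APS TRMVT: mean value trace inequality (Paulin, Mackey, Tropp).

`A, B, C` hermitian, `n = 2p - 1`.  `A^n - B^n = ∑_{i<n} A^i (A - B) B^(n-1-i)`.  Spectral theorem:
`A = ∑ α_k |k><k|`, `B = ∑ β_l |l><l|`; with `Δ_kl = <k|A-B|l>`, `C_lk = <l|C|k>`:
`Tr A^i (A-B) B^j C = ∑_kl α_k^i Δ_kl β_l^j C_lk`.  For `i + j = 2p-2`:
`|α|^i |β|^j + |α|^j |β|^i ≤ |α|^(2p-2) + |β|^(2p-2)`, so `∑_i |α|^i|β|^j ≤ (n/2)(|α|^(2p-2) + |β|^(2p-2))`,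
and `|Δ_kl C_lk| ≤ (t |Δ_kl|² + |C_lk|²/t)/2`;
`∑_kl α_k^(2p-2) |Δ_kl|² = Re Tr A^(2p-2) (A-B)²` and so on.  Constant `n/4 ≤ p/2`; stated with `p`.
Also needed: `(A - B)²`-weights: `trw` from TRINEQ.
-/

open Matrix Finset

noncomputable section

namespace Pool.Agent.APS

variable {κ : Type} [Fintype κ] [DecidableEq κ]

private theorem mspec {f : Matrix κ κ ℂ} (hf : f.IsHermitian) :
    ∃ (l : κ → ℝ) (U : Matrix κ κ ℂ), Uᴴ * U = 1 ∧ U * Uᴴ = 1 ∧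
      f = U * diagonal (fun a => (l a : ℂ)) * Uᴴ := by
  refine ⟨hf.eigenvalues, (hf.eigenvectorUnitary : Matrix κ κ ℂ), ?_, ?_, ?_⟩
  · exact Unitary.coe_star_mul_self hf.eigenvectorUnitary
  · exact Unitary.coe_mul_star_self hf.eigenvectorUnitary
  · have h := hf.spectral_theorem
    rw [Unitary.conjStarAlgAut_apply] at h
    exact h

private theorem mspec_pow {l : κ → ℝ} {U : Matrix κ κ ℂ} (hU : Uᴴ * U = 1) (hU' : U * Uᴴ = 1)
    (n : ℕ) : (U * diagonal (fun a => (l a : ℂ)) * Uᴴ) ^ n =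
      U * diagonal (fun a => (l a : ℂ) ^ n) * Uᴴ := by
  induction n with
  | zero =>
    simp only [pow_zero]
    have h1 : diagonal (fun _ : κ => (1 : ℂ)) = 1 := diagonal_one
    rw [h1, Matrix.mul_one, hU']
  | succ n ih =>
    rw [pow_succ, ih]
    have h1 : U * diagonal (fun a => (l a : ℂ) ^ n) * Uᴴ * (U * diagonal (fun a => (l a : ℂ)) * Uᴴ)
        = U * (diagonal (fun a => (l a : ℂ) ^ n) * ((Uᴴ * U) * diagonal (fun a => (l a : ℂ)))) * Uᴴ := by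
      simp only [Matrix.mul_assoc]
    rw [h1, hU, Matrix.one_mul, diagonal_mul_diagonal]
    simp only [pow_succ]

/-- telescoping -/
private theorem pow_sub_pow_tel (A B : Matrix κ κ ℂ) (n : ℕ) :
    A ^ n - B ^ n = ∑ i ∈ range n, A ^ i * (A - B) * B ^ (n - 1 - i) := by
  induction n with
  | zero => simp
  | succ n ih =>
    rw [sum_range_succ]
    have h1 : ∑ i ∈ range n, A ^ i * (A - B) * B ^ (n + 1 - 1 - i) =
        (∑ i ∈ range n, A ^ i * (A - B) * B ^ (n - 1 - i)) * B := by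
      rw [Finset.sum_mul]
      refine Finset.sum_congr rfl fun i hi => ?_
      have hi' := Finset.mem_range.1 hi
      have h2 : n + 1 - 1 - i = (n - 1 - i) + 1 := by omega
      rw [h2, pow_succ]
      simp only [Matrix.mul_assoc]
    rw [h1, ← ih]
    have h3 : n + 1 - 1 - n = 0 := by omega
    rw [h3, pow_zero, Matrix.mul_one, pow_succ, pow_succ, Matrix.sub_mul, Matrix.mul_sub]
    abel

omit [DecidableEq κ] in
private theorem mherm_conj {U V g : Matrix κ κ ℂ} (hg : g.IsHermitian) (a b : κ) :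
    (Vᴴ * g * U) b a = star ((Uᴴ * g * V) a b) := by
  have h : (Uᴴ * g * V)ᴴ = Vᴴ * g * U := by
    rw [conjTranspose_mul, conjTranspose_mul, conjTranspose_conjTranspose, hg.eq, Matrix.mul_assoc]
  rw [← h, conjTranspose_apply]

/-- `Tr A^i X B^j C` in the eigenbases -/
private theorem mtr {l m : κ → ℝ} {U V : Matrix κ κ ℂ} (hU : Uᴴ * U = 1) (hU' : U * Uᴴ = 1)
    (hV : Vᴴ * V = 1) (hV' : V * Vᴴ = 1) (i j : ℕ) (X C : Matrix κ κ ℂ) :
    ((U * diagonal (fun a => (l a : ℂ)) * Uᴴ) ^ i * X *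
      (V * diagonal (fun a => (m a : ℂ)) * Vᴴ) ^ j * C).trace =
      ∑ a, ∑ b, (l a : ℂ) ^ i * (m b : ℂ) ^ j * ((Uᴴ * X * V) a b * (Vᴴ * C * U) b a) := by
  rw [mspec_pow hU hU', mspec_pow hV hV']
  have h1 : U * diagonal (fun a => (l a : ℂ) ^ i) * Uᴴ * X *
      (V * diagonal (fun a => (m a : ℂ) ^ j) * Vᴴ) * C =
      U * (diagonal (fun a => (l a : ℂ) ^ i) * ((Uᴴ * X * V) *
        (diagonal (fun a => (m a : ℂ) ^ j) * (Vᴴ * C)))) := by
    simp only [Matrix.mul_assoc]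
  rw [h1, Matrix.trace_mul_comm]
  have h2 : diagonal (fun a => (l a : ℂ) ^ i) * ((Uᴴ * X * V) *
        (diagonal (fun a => (m a : ℂ) ^ j) * (Vᴴ * C))) * U =
      diagonal (fun a => (l a : ℂ) ^ i) * ((Uᴴ * X * V) *
        (diagonal (fun a => (m a : ℂ) ^ j) * (Vᴴ * C * U))) := by
    simp only [Matrix.mul_assoc]
  rw [h2]
  simp only [Matrix.trace, Matrix.diag_apply, Matrix.diagonal_mul]
  refine Finset.sum_congr rfl fun a _ => ?_
  rw [Matrix.mul_apply, Finset.mul_sum]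
  refine Finset.sum_congr rfl fun b _ => ?_
  rw [Matrix.diagonal_mul]
  ring

private theorem mtrw_eq {l : κ → ℝ} {U V g : Matrix κ κ ℂ} (hU : Uᴴ * U = 1) (hU' : U * Uᴴ = 1)
    (hV : Vᴴ * V = 1) (hV' : V * Vᴴ = 1) (hg : g.IsHermitian) (p : ℕ) :
    trw p (U * diagonal (fun a => (l a : ℂ)) * Uᴴ) g =
      ∑ a, ∑ b, l a ^ (2 * p - 2) * ‖(Uᴴ * g * V) a b‖ ^ 2 := by
  unfold trw
  have h := mtr (l := l) (m := fun _ => (1 : ℝ)) hU hU' hV hV' (2 * p - 2) 0 g g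
  rw [pow_zero, Matrix.mul_one, Matrix.mul_assoc] at h
  rw [h, Complex.re_sum]
  refine Finset.sum_congr rfl fun a _ => ?_
  rw [Complex.re_sum]
  refine Finset.sum_congr rfl fun b _ => ?_
  rw [mherm_conj hg a b, pow_zero, mul_one]
  have h2 : (Uᴴ * g * V) a b * star ((Uᴴ * g * V) a b) = ((‖(Uᴴ * g * V) a b‖ ^ 2 : ℝ) : ℂ) := by
    rw [Complex.star_def, Complex.mul_conj, Complex.normSq_eq_norm_sq]
  rw [h2]
  have h3 : (l a : ℂ) ^ (2 * p - 2) * ((‖(Uᴴ * g * V) a b‖ ^ 2 : ℝ) : ℂ) =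
      ((l a ^ (2 * p - 2) * ‖(Uᴴ * g * V) a b‖ ^ 2 : ℝ) : ℂ) := by
    push_cast
    ring
  rw [h3, Complex.ofReal_re]

private theorem pair_pow {x y : ℝ} (hx : 0 ≤ x) (hy : 0 ≤ y) (i j : ℕ) :
    x ^ i * y ^ j + x ^ j * y ^ i ≤ x ^ (i + j) + y ^ (i + j) := by
  have h : 0 ≤ (x ^ i - y ^ i) * (x ^ j - y ^ j) := by
    rcases le_total x y with h | h
    · exact mul_nonneg_of_nonpos_of_nonpos (sub_nonpos.2 (pow_le_pow_left₀ hx h i))
        (sub_nonpos.2 (pow_le_pow_left₀ hx h j))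
    · exact mul_nonneg (sub_nonneg.2 (pow_le_pow_left₀ hy h i))
        (sub_nonneg.2 (pow_le_pow_left₀ hy h j))
  rw [pow_add, pow_add]
  nlinarith

private theorem sum_pair (p : ℕ) (hp : 1 ≤ p) (x y : ℝ) :
    ∑ i ∈ range (2 * p - 1), |x| ^ i * |y| ^ (2 * p - 2 - i) ≤
      p * (x ^ (2 * p - 2) + y ^ (2 * p - 2)) := by
  have hev : ∀ z : ℝ, z ^ (2 * p - 2) = |z| ^ (2 * p - 2) := by
    intro z
    have h22 : 2 * p - 2 = 2 * (p - 1) := by omega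
    rw [h22, pow_mul, pow_mul, sq_abs]
  rw [hev x, hev y]
  set W := |x| ^ (2 * p - 2) + |y| ^ (2 * p - 2) with hW
  have hW0 : 0 ≤ W := by positivity
  have h1 : ∑ i ∈ range (2 * p - 1), |x| ^ i * |y| ^ (2 * p - 2 - i) =
      ∑ i ∈ range (2 * p - 1), |x| ^ (2 * p - 2 - i) * |y| ^ i := by
    rw [← Finset.sum_range_reflect]
    refine Finset.sum_congr rfl fun i hi => ?_
    have hi' := Finset.mem_range.1 hi
    have h2 : 2 * p - 1 - 1 - i = 2 * p - 2 - i := by omega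
    have h3 : 2 * p - 2 - (2 * p - 2 - i) = i := by omega
    rw [h2, h3]
  have h2 : 2 * ∑ i ∈ range (2 * p - 1), |x| ^ i * |y| ^ (2 * p - 2 - i) ≤
      ∑ i ∈ range (2 * p - 1), W := by
    rw [two_mul]
    nth_rw 2 [h1]
    rw [← Finset.sum_add_distrib]
    refine Finset.sum_le_sum fun i hi => ?_
    have hi' := Finset.mem_range.1 hi
    have h3 := pair_pow (abs_nonneg x) (abs_nonneg y) i (2 * p - 2 - i)
    have h4 : i + (2 * p - 2 - i) = 2 * p - 2 := by omega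
    rw [h4] at h3
    exact h3
  rw [Finset.sum_const, Finset.card_range, nsmul_eq_mul] at h2
  have h5 : ((2 * p - 1 : ℕ) : ℝ) ≤ 2 * p := by
    have : (2 * p - 1 : ℕ) ≤ 2 * p := by omega
    exact_mod_cast this
  have h6 := mul_le_mul_of_nonneg_right h5 hW0
  linarith

theorem tr_mvt (p : ℕ) (hp : 1 ≤ p) {A B C : Matrix κ κ ℂ} (hA : A.IsHermitian)
    (hB : B.IsHermitian) (hC : C.IsHermitian) {t : ℝ} (ht : 0 < t) :
    |(((A ^ (2 * p - 1) - B ^ (2 * p - 1)) * C).trace.re)| ≤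
      p / 2 * (t * (trw p A (A - B) + trw p B (A - B)) + 1 / t * (trw p A C + trw p B C)) := by
  have hD : (A - B).IsHermitian := hA.sub hB
  rw [pow_sub_pow_tel]
  obtain ⟨l, U, hU, hU', hAe⟩ := mspec hA
  obtain ⟨m, V, hV, hV', hBe⟩ := mspec hB
  set Δ := A - B with hΔ
  set D := Uᴴ * Δ * V with hDd
  set E := Uᴴ * C * V with hEd
  have hn1 : ∀ a b, ‖(Vᴴ * C * U) b a‖ = ‖E a b‖ := by
    intro a b
    rw [hEd, mherm_conj hC a b, norm_star]
  have hn2 : ∀ a b, ‖(Vᴴ * Δ * U) b a‖ = ‖D a b‖ := by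
    intro a b
    rw [hDd, mherm_conj hD a b, norm_star]
  have tA : ∀ (g : Matrix κ κ ℂ), g.IsHermitian → trw p A g =
      ∑ a, ∑ b, l a ^ (2 * p - 2) * ‖(Uᴴ * g * V) a b‖ ^ 2 := by
    intro g hg
    rw [hAe]
    exact mtrw_eq hU hU' hV hV' hg p
  have tB : ∀ (g : Matrix κ κ ℂ), g.IsHermitian → trw p B g =
      ∑ a, ∑ b, m b ^ (2 * p - 2) * ‖(Uᴴ * g * V) a b‖ ^ 2 := by
    intro g hg
    rw [hBe, mtrw_eq hV hV' hU hU' hg p, Finset.sum_comm]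
    refine Finset.sum_congr rfl fun a _ => Finset.sum_congr rfl fun b _ => ?_
    rw [mherm_conj hg a b, norm_star]
  have e1 : ((∑ i ∈ range (2 * p - 1), A ^ i * Δ * B ^ (2 * p - 1 - 1 - i)) * C).trace =
      ∑ a, ∑ b, (∑ i ∈ range (2 * p - 1), (l a : ℂ) ^ i * (m b : ℂ) ^ (2 * p - 2 - i)) *
        (D a b * (Vᴴ * C * U) b a) := by
    rw [Finset.sum_mul, Matrix.trace_sum]
    have h1 : ∀ i ∈ range (2 * p - 1), (A ^ i * Δ * B ^ (2 * p - 1 - 1 - i) * C).trace =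
        ∑ a, ∑ b, (l a : ℂ) ^ i * (m b : ℂ) ^ (2 * p - 2 - i) * (D a b * (Vᴴ * C * U) b a) := by
      intro i _
      rw [hAe, hBe, mtr hU hU' hV hV']
      have h2 : 2 * p - 1 - 1 - i = 2 * p - 2 - i := by omega
      rw [h2]
    rw [Finset.sum_congr rfl h1, Finset.sum_comm]
    refine Finset.sum_congr rfl fun a _ => ?_
    rw [Finset.sum_comm]
    refine Finset.sum_congr rfl fun b _ => ?_
    rw [Finset.sum_mul]
  rw [e1]
  refine (Complex.abs_re_le_norm _).trans ?_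
  have key : ∀ a b, ‖(∑ i ∈ range (2 * p - 1), (l a : ℂ) ^ i * (m b : ℂ) ^ (2 * p - 2 - i)) *
        (D a b * (Vᴴ * C * U) b a)‖ ≤
      (p : ℝ) / 2 * (t * (l a ^ (2 * p - 2) * ‖D a b‖ ^ 2 + m b ^ (2 * p - 2) * ‖D a b‖ ^ 2) +
        1 / t * (l a ^ (2 * p - 2) * ‖E a b‖ ^ 2 + m b ^ (2 * p - 2) * ‖E a b‖ ^ 2)) := by
    intro a b
    rw [norm_mul, norm_mul, hn1]
    have h1 : ‖∑ i ∈ range (2 * p - 1), (l a : ℂ) ^ i * (m b : ℂ) ^ (2 * p - 2 - i)‖ ≤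
        p * (l a ^ (2 * p - 2) + m b ^ (2 * p - 2)) := by
      refine (norm_sum_le _ _).trans ?_
      refine le_trans (le_of_eq ?_) (sum_pair p hp (l a) (m b))
      refine Finset.sum_congr rfl fun i _ => ?_
      rw [norm_mul, norm_pow, norm_pow, Complex.norm_real, Complex.norm_real,
        Real.norm_eq_abs, Real.norm_eq_abs]
    have h2 : ‖D a b‖ * ‖E a b‖ ≤ (t * ‖D a b‖ ^ 2 + 1 / t * ‖E a b‖ ^ 2) / 2 := by
      have h3 : 0 ≤ (t * ‖D a b‖ - ‖E a b‖) ^ 2 / t := by positivity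
      have h4 : (t * ‖D a b‖ - ‖E a b‖) ^ 2 / t =
          t * ‖D a b‖ ^ 2 - 2 * (‖D a b‖ * ‖E a b‖) + 1 / t * ‖E a b‖ ^ 2 := by
        field_simp
        ring
      rw [h4] at h3
      linarith
    have h22 : 2 * p - 2 = 2 * (p - 1) := by omega
    have h0 : 0 ≤ l a ^ (2 * p - 2) + m b ^ (2 * p - 2) := by
      rw [h22, pow_mul, pow_mul]
      positivity
    calc _ ≤ (p * (l a ^ (2 * p - 2) + m b ^ (2 * p - 2))) *
          ((t * ‖D a b‖ ^ 2 + 1 / t * ‖E a b‖ ^ 2) / 2) :=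
          mul_le_mul h1 h2 (by positivity) (by positivity)
      _ = _ := by ring
  refine (norm_sum_le _ _).trans ?_
  refine (Finset.sum_le_sum fun a _ => (norm_sum_le _ _).trans
    (Finset.sum_le_sum fun b _ => key a b)).trans ?_
  rw [tA Δ hD, tB Δ hD, tA C hC, tB C hC]
  simp only [← hDd, ← hEd]
  simp only [← Finset.mul_sum, Finset.sum_add_distrib]
  exact le_rfl

end Pool.Agent.APS
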